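import Pool.Agent.FL.GE8A

/-!
# MP_f09395_gt, space (2), GE8: `a₂` at wall A
-/

noncomputable section

namespace Pool.Agent.FL.S2

open scoped Matrix ContDiff

set_option linter.unusedVariables false in
/-- **`a₂` at wall A** -/
theorem a2_A {v : R9 → ℝ} (hv : PhiM v) {z : R6} (hz : z ∈ base) (hz' : z ∈ U6) {r s : ℝ}
    (hrs : r ^ 2 + s ^ 2 = 1) (h : alM v (uA z) (r • b1A z + s • b2A z) = 0) :
    a2M v (uA z) (r • b1A z + s • b2A z) =
      r * (XD (fun w => v (uA w)) (fun w => alM v (uA w) (b1A w)) z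
        + omA v z * alM v (uA z) (b2A z)) +
      s * (XD (fun w => v (uA w)) (fun w => alM v (uA w) (b2A w)) z
        - omA v z * alM v (uA z) (b1A z)) :=
  G8A.a2_A' hv hz hz' h

end Pool.Agent.FL.S2
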