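import Pool.Agent.helper60.FL.GE7

/-!
# MP_f09395_gt, space (2), GE8B: `a₂`, the rotation rate and `Δ` at wall B
-/

set_option linter.unusedSectionVars false
set_option linter.unusedSimpArgs false
set_option linter.unusedVariables false

noncomputable section

namespace Pool.Agent.FL.S2.A2B

open Matrix
open scoped ContDiff
open Filter Topology

/-- orthonormal positively oriented frame -/
structure Fr (e1 e2 e3 : R3) : Prop where
  n1 : e1 ⬝ᵥ e1 = 1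
  n2 : e2 ⬝ᵥ e2 = 1
  n3 : e3 ⬝ᵥ e3 = 1
  o12 : e1 ⬝ᵥ e2 = 0
  o13 : e1 ⬝ᵥ e3 = 0
  o23 : e2 ⬝ᵥ e3 = 0
  c12 : e1 ⨯₃ e2 = e3
  c23 : e2 ⨯₃ e3 = e1
  c31 : e3 ⨯₃ e1 = e2

namespace Fr

variable {e1 e2 e3 : R3}

theorem c21 (F : Fr e1 e2 e3) : e2 ⨯₃ e1 = -e3 := by rw [← cross_anticomm, F.c12]
theorem c32 (F : Fr e1 e2 e3) : e3 ⨯₃ e2 = -e1 := by rw [← cross_anticomm, F.c23]
theorem c13 (F : Fr e1 e2 e3) : e1 ⨯₃ e3 = -e2 := by rw [← cross_anticomm, F.c31]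
theorem o21 (F : Fr e1 e2 e3) : e2 ⬝ᵥ e1 = 0 := by rw [dotProduct_comm, F.o12]
theorem o31 (F : Fr e1 e2 e3) : e3 ⬝ᵥ e1 = 0 := by rw [dotProduct_comm, F.o13]
theorem o32 (F : Fr e1 e2 e3) : e3 ⬝ᵥ e2 = 0 := by rw [dotProduct_comm, F.o23]

theorem mk' {e1 e2 : R3} (n1 : e1 ⬝ᵥ e1 = 1) (n2 : e2 ⬝ᵥ e2 = 1) (o : e1 ⬝ᵥ e2 = 0) :
    Fr e1 e2 (e1 ⨯₃ e2) := by
  have h1 : ∀ u v : R3, u ⨯₃ (u ⨯₃ v) = (u ⬝ᵥ v) • u - (u ⬝ᵥ u) • v := by
    intro u v
    apply GE7_ext3 <;> simp only [GE7_cr0, GE7_cr1, GE7_cr2, vec3_dotProduct, Pi.sub_apply,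
      Pi.smul_apply, smul_eq_mul] <;> ring
  have h2 : ∀ u v : R3, (u ⨯₃ v) ⨯₃ u = (u ⬝ᵥ u) • v - (u ⬝ᵥ v) • u := by
    intro u v
    apply GE7_ext3 <;> simp only [GE7_cr0, GE7_cr1, GE7_cr2, vec3_dotProduct, Pi.sub_apply,
      Pi.smul_apply, smul_eq_mul] <;> ring
  have h3 : ∀ u v : R3, v ⨯₃ (u ⨯₃ v) = (v ⬝ᵥ v) • u - (u ⬝ᵥ v) • v := by
    intro u v
    apply GE7_ext3 <;> simp only [GE7_cr0, GE7_cr1, GE7_cr2, vec3_dotProduct, Pi.sub_apply,
      Pi.smul_apply, smul_eq_mul] <;> ring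
  have h4 : ∀ u v : R3, (u ⨯₃ v) ⬝ᵥ (u ⨯₃ v) = (u ⬝ᵥ u) * (v ⬝ᵥ v) - (u ⬝ᵥ v) ^ 2 := by
    intro u v
    simp only [GE7_cr0, GE7_cr1, GE7_cr2, vec3_dotProduct]; ring
  refine ⟨n1, n2, ?_, o, dot_self_cross _ _, dot_cross_self _ _, rfl, ?_, ?_⟩
  · rw [h4, n1, n2, o]; norm_num
  · rw [h3, n2, o]; simp
  · rw [h2, n1, o]; simp

theorem expand (F : Fr e1 e2 e3) (w : R3) :
    w = (w ⬝ᵥ e1) • e1 + (w ⬝ᵥ e2) • e2 + (w ⬝ᵥ e3) • e3 := by
  have h1 : (e1 ⬝ᵥ (e2 ⨯₃ e3)) • w = (w ⬝ᵥ (e2 ⨯₃ e3)) • e1 + (w ⬝ᵥ (e3 ⨯₃ e1)) • e2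
      + (w ⬝ᵥ (e1 ⨯₃ e2)) • e3 := by
    apply GE7_ext3 <;> simp only [GE7_cr0, GE7_cr1, GE7_cr2, vec3_dotProduct, Pi.add_apply,
      Pi.smul_apply, smul_eq_mul] <;> ring
  rwa [F.c12, F.c23, F.c31, F.n1, one_smul] at h1

end Fr

/-- frame adapted to a point of the base -/
theorem exists_fr {z : R6} (hz : z ∈ base) (hz' : z ∈ U6) :
    ∃ e1 e2 e3 : R3, Fr e1 e2 e3 ∧ z.1 = n3 z.1 • e1 ∧ z.2 = n3 z.2 • e2 := by
  have h1 := n3_pos' hz'.1
  have h2 := n3_pos' hz'.2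
  refine ⟨(n3 z.1)⁻¹ • z.1, (n3 z.2)⁻¹ • z.2, _, Fr.mk' ?_ ?_ ?_, ?_, ?_⟩
  · rw [smul_dotProduct, dotProduct_smul, ← n3_sq', smul_eq_mul, smul_eq_mul]
    field_simp
  · rw [smul_dotProduct, dotProduct_smul, ← n3_sq', smul_eq_mul, smul_eq_mul]
    field_simp
  · rw [smul_dotProduct, dotProduct_smul, hz.1, smul_zero, smul_zero]
  · rw [smul_smul, mul_inv_cancel₀ h1.ne', one_smul]
  · rw [smul_smul, mul_inv_cancel₀ h2.ne', one_smul]

theorem n3_base {z : R6} (hz : z ∈ base) : n3 z.1 ^ 2 + n3 z.2 ^ 2 = 1 := by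
  rw [n3_sq', n3_sq', hz.2]

/-- the Hamiltonian field at wall B in a frame -/
theorem XB_uB_fr {v : R9 → ℝ} {z : R6} {e1 e2 e3 : R3} (F : Fr e1 e2 e3) {r s : ℝ}
    (hr : r = n3 z.1) (hs : s = n3 z.2) (hp : z.1 = r • e1) (hq : z.2 = s • e2) (h0 : z.1 ≠ 0)
    (hrs : r ^ 2 + s ^ 2 = 1) (hv : DifferentiableAt ℝ v (uB z))
    {A1 A2 A3 B1 B2 B3 C1 C2 C3 : ℝ} (hA : (grad9 v (uB z)).1 = A1 • e1 + A2 • e2 + A3 • e3)
    (hB : (grad9 v (uB z)).2.1 = B1 • e1 + B2 • e2 + B3 • e3)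
    (hC : (grad9 v (uB z)).2.2 = C1 • e1 + C2 • e2 + C3 • e3) (hC1 : C1 = -(s * B3)) :
    XB (fun w => v (uB w)) z =
      ((Real.sqrt 2)⁻¹ • ((s * C2) • e1 - (r * A3 + r ^ 2 * B3) • e2 + (r * A2 + B2) • e3),
       (Real.sqrt 2)⁻¹ • ((s * A3 + s * r * B3) • e1 - (r * C2) • e2 - (r * C3 + s * A1) • e3)) := by
  have hr0 : r ≠ 0 := by rw [hr]; exact (n3_pos' h0).ne'
  rw [XB, gp_uB hv h0, gq_uB hv h0, hA, hB, hC, ← hr, hp, hq]
  refine Prod.ext ?_ ?_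
  · simp only
    simp only [map_add, map_sub, map_neg, map_smul,
      LinearMap.add_apply, LinearMap.sub_apply, LinearMap.neg_apply, LinearMap.smul_apply, cross_self,
      Fr.c12 F, Fr.c23 F, Fr.c31 F, Fr.c21 F, Fr.c32 F, Fr.c13 F, dotProduct_add,
      add_dotProduct, dotProduct_smul, smul_dotProduct, dotProduct_neg, neg_dotProduct,
      dotProduct_sub, sub_dotProduct,
      Fr.n1 F, Fr.n2 F, Fr.n3 F, Fr.o12 F, Fr.o13 F, Fr.o23 F, Fr.o21 F, Fr.o31 F, Fr.o32 F,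
      smul_eq_mul, mul_zero, mul_one, add_zero, zero_add, smul_zero, sub_zero, zero_sub, smul_neg]
    match_scalars
    · field_simp
    · field_simp
      rw [hC1]
      linear_combination B3 * hrs
    · field_simp
  · simp only
    simp only [map_add, map_sub, map_neg, map_smul,
      LinearMap.add_apply, LinearMap.sub_apply, LinearMap.neg_apply, LinearMap.smul_apply, cross_self,
      Fr.c12 F, Fr.c23 F, Fr.c31 F, Fr.c21 F, Fr.c32 F, Fr.c13 F, dotProduct_add,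
      add_dotProduct, dotProduct_smul, smul_dotProduct, dotProduct_neg, neg_dotProduct,
      dotProduct_sub, sub_dotProduct,
      Fr.n1 F, Fr.n2 F, Fr.n3 F, Fr.o12 F, Fr.o13 F, Fr.o23 F, Fr.o21 F, Fr.o31 F, Fr.o32 F,
      smul_eq_mul, mul_zero, mul_one, add_zero, zero_add, smul_zero, sub_zero, zero_sub, smul_neg]
    match_scalars
    · field_simp
    · field_simp
      ring
    · field_simp
      rw [hC1]
      linear_combination (-(s * B3)) * hrs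

/-- derivative of `b1B` -/
def Db1 (z w : R6) : R9 :=
  (Real.sqrt 2)⁻¹ • ((-w.1, (n3 z.1)⁻¹ • w.1 - ((n3 z.1)⁻¹ ^ 3 * (z.1 ⬝ᵥ w.1)) • z.1,
    -((n3 z.1)⁻¹ • (w.2 ⨯₃ z.1 + z.2 ⨯₃ w.1) - ((n3 z.1)⁻¹ ^ 3 * (z.1 ⬝ᵥ w.1)) • (z.2 ⨯₃ z.1))) : R9)

/-- derivative of `b2B` -/
def Db2 (z w : R6) : R9 :=
  (Real.sqrt 2)⁻¹ •
    ((-((n3 z.2)⁻¹ • (w.2 ⨯₃ z.1 + z.2 ⨯₃ w.1) - ((n3 z.2)⁻¹ ^ 3 * (z.2 ⬝ᵥ w.2)) • (z.2 ⨯₃ z.1)),
      ((n3 z.1)⁻¹ * (n3 z.2)⁻¹) • (w.2 ⨯₃ z.1 + z.2 ⨯₃ w.1)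
        - ((n3 z.1)⁻¹ ^ 3 * (z.1 ⬝ᵥ w.1) * (n3 z.2)⁻¹
          + (n3 z.1)⁻¹ * ((n3 z.2)⁻¹ ^ 3 * (z.2 ⬝ᵥ w.2))) • (z.2 ⨯₃ z.1),
      (n3 z.2 * (n3 z.1)⁻¹) • w.1 + ((n3 z.2)⁻¹ * (z.2 ⬝ᵥ w.2) * (n3 z.1)⁻¹
        - n3 z.2 * ((n3 z.1)⁻¹ ^ 3 * (z.1 ⬝ᵥ w.1))) • z.1) : R9)

theorem sqrt2_inv : Real.sqrt 2 * (Real.sqrt 2)⁻¹ = 1 := mul_inv_cancel₀ (by positivity)

/-- the identity for `b1B` -/
theorem br_b1B {v : R9 → ℝ} {z : R6} (hz : z ∈ base) (hz' : z ∈ U6)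
    (hv : DifferentiableAt ℝ v (uB z)) (hr : fderiv ℝ v (uB z) (rot (uB z)) = 0) :
    br (b1B z) (grad9 v (uB z)) = Real.sqrt 2 • Db1 z (XB (fun w => v (uB w)) z)
      - ((n3 z.1)⁻¹ * ((grad9 v (uB z)).2.1 ⬝ᵥ z.2)) • rot (b1B z) + omB v z • b2B z
      + (alM v (uB z) (b1B z) * (n3 z.2)⁻¹ ^ 2) • ((z.2, -(n3 z.1 • z.2), 0) : R9) := by
  obtain ⟨e1, e2, e3, F, hp, hq⟩ := exists_fr hz hz'
  have hrs := n3_base hz
  have h1 := n3_pos' hz'.1
  have h2 := n3_pos' hz'.2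
  obtain ⟨A1, A2, A3, hA⟩ : ∃ A1 A2 A3 : ℝ, (grad9 v (uB z)).1 = A1 • e1 + A2 • e2 + A3 • e3 :=
    ⟨_, _, _, F.expand _⟩
  obtain ⟨B1, B2, B3, hB⟩ : ∃ B1 B2 B3 : ℝ, (grad9 v (uB z)).2.1 = B1 • e1 + B2 • e2 + B3 • e3 :=
    ⟨_, _, _, F.expand _⟩
  obtain ⟨C1, C2, C3, hC⟩ : ∃ C1 C2 C3 : ℝ, (grad9 v (uB z)).2.2 = C1 • e1 + C2 • e2 + C3 • e3 :=
    ⟨_, _, _, F.expand _⟩
  have hg : grad9 v (uB z) = (A1 • e1 + A2 • e2 + A3 • e3, B1 • e1 + B2 • e2 + B3 • e3,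
    C1 • e1 + C2 • e2 + C3 • e3) := by rw [← hA, ← hB, ← hC]
  obtain ⟨r, hr'⟩ : ∃ r, r = n3 z.1 := ⟨_, rfl⟩
  obtain ⟨s, hs'⟩ : ∃ s, s = n3 z.2 := ⟨_, rfl⟩
  obtain ⟨k, hk'⟩ : ∃ k, k = (Real.sqrt 2)⁻¹ := ⟨_, rfl⟩
  have hk0 : Real.sqrt 2 * k = 1 := by rw [hk']; exact sqrt2_inv
  have hk1 : k ≠ 0 := by rintro h; rw [h, mul_zero] at hk0; exact zero_ne_one hk0
  rw [← hr', ← hs'] at hrs
  rw [← hr'] at hp h1
  rw [← hs'] at hq h2
  have hr0 := h1.ne'
  have hs0 := h2.ne'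
  have hC1 : C1 = -(s * B3) := by
    rw [fderiv_eq_dot9, hg] at hr
    simp only [dot9, rot, uB, ← hr', ← hs', ← hk', Prod.smul_mk] at hr
    simp only [hp, hq] at hr
    simp only [map_add, map_sub, map_neg, map_smul, LinearMap.add_apply, LinearMap.sub_apply,
      LinearMap.neg_apply, LinearMap.smul_apply, cross_self, F.c21, dotProduct_add,
      add_dotProduct, dotProduct_smul, smul_dotProduct, dotProduct_neg, neg_dotProduct,
      F.n1, F.n3, F.o13, F.o23, F.o21, F.o31, F.n2, F.o12, F.o32,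
      smul_eq_mul, mul_zero, mul_one, add_zero, zero_add, smul_neg, dotProduct_zero] at hr
    have h5 : k * (C1 + s * B3) = 0 := by
      field_simp at hr
      linear_combination hr
    have h6 := (mul_eq_zero.1 h5).resolve_left hk1
    linarith
  have hX := XB_uB_fr F hr' hs' hp hq hz'.1 hrs hv hA hB hC hC1
  have hom : omB v z = 2 * B2 / r := by
    unfold omB
    rw [fderiv_eq_dot9, hg, ← hr', ← hs']
    simp only [dot9, hq, dotProduct_zero]
    simp only [map_add, map_sub, map_neg, map_smul,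
      LinearMap.add_apply, LinearMap.sub_apply, LinearMap.neg_apply, LinearMap.smul_apply, cross_self,
      Fr.c12 F, Fr.c23 F, Fr.c31 F, Fr.c21 F, Fr.c32 F, Fr.c13 F, dotProduct_add,
      add_dotProduct, dotProduct_smul, smul_dotProduct, dotProduct_neg, neg_dotProduct,
      dotProduct_sub, sub_dotProduct,
      Fr.n1 F, Fr.n2 F, Fr.n3 F, Fr.o12 F, Fr.o13 F, Fr.o23 F, Fr.o21 F, Fr.o31 F, Fr.o32 F,
      smul_eq_mul, mul_zero, mul_one, add_zero, zero_add, smul_zero, sub_zero, zero_sub, smul_neg]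
    field_simp
  have hal : alM v (uB z) (b1B z) = -(2 * k * s * B3) := by
    unfold alM
    rw [fderiv_eq_dot9, hg]
    simp only [dot9, rot, b1B, ← hr', ← hs', ← hk', Prod.smul_mk, dotProduct_zero]
    simp only [hp, hq]
    simp only [map_add, map_sub, map_neg, map_smul,
      LinearMap.add_apply, LinearMap.sub_apply, LinearMap.neg_apply, LinearMap.smul_apply, cross_self,
      Fr.c12 F, Fr.c23 F, Fr.c31 F, Fr.c21 F, Fr.c32 F, Fr.c13 F, dotProduct_add,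
      add_dotProduct, dotProduct_smul, smul_dotProduct, dotProduct_neg, neg_dotProduct,
      dotProduct_sub, sub_dotProduct,
      Fr.n1 F, Fr.n2 F, Fr.n3 F, Fr.o12 F, Fr.o13 F, Fr.o23 F, Fr.o21 F, Fr.o31 F, Fr.o32 F,
      smul_eq_mul, mul_zero, mul_one, add_zero, zero_add, smul_zero, sub_zero, zero_sub, smul_neg]
    rw [hC1]
    field_simp
    ring
  rw [hX, hom, hal, hg]
  simp only [br, Db1, rot, b1B, b2B, ← hr', ← hs', ← hk', Prod.smul_mk, Prod.mk_sub_mk,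
    Prod.mk_add_mk]
  simp only [hp, hq]
  refine Prod.ext ?_ (Prod.ext ?_ ?_)
  · simp only
    simp only [map_add, map_sub, map_neg, map_smul,
      LinearMap.add_apply, LinearMap.sub_apply, LinearMap.neg_apply, LinearMap.smul_apply, cross_self,
      Fr.c12 F, Fr.c23 F, Fr.c31 F, Fr.c21 F, Fr.c32 F, Fr.c13 F, dotProduct_add,
      add_dotProduct, dotProduct_smul, smul_dotProduct, dotProduct_neg, neg_dotProduct,
      dotProduct_sub, sub_dotProduct,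
      Fr.n1 F, Fr.n2 F, Fr.n3 F, Fr.o12 F, Fr.o13 F, Fr.o23 F, Fr.o21 F, Fr.o31 F, Fr.o32 F,
      smul_eq_mul, mul_zero, mul_one, add_zero, zero_add, smul_zero, sub_zero, zero_sub, smul_neg]
    match_scalars
    · field_simp
      linear_combination (A2 * r + B2) * hk0
    · field_simp
      rw [hC1]
      linear_combination (-(r * (A3 + r * B3))) * hk0 - B3 * hrs
    · field_simp
      linear_combination C2 * hk0
  · simp only
    simp only [map_add, map_sub, map_neg, map_smul,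
      LinearMap.add_apply, LinearMap.sub_apply, LinearMap.neg_apply, LinearMap.smul_apply, cross_self,
      Fr.c12 F, Fr.c23 F, Fr.c31 F, Fr.c21 F, Fr.c32 F, Fr.c13 F, dotProduct_add,
      add_dotProduct, dotProduct_smul, smul_dotProduct, dotProduct_neg, neg_dotProduct,
      dotProduct_sub, sub_dotProduct,
      Fr.n1 F, Fr.n2 F, Fr.n3 F, Fr.o12 F, Fr.o13 F, Fr.o23 F, Fr.o21 F, Fr.o31 F, Fr.o32 F,
      smul_eq_mul, mul_zero, mul_one, add_zero, zero_add, smul_zero, sub_zero, zero_sub, smul_neg]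
    match_scalars
    · field_simp
      linear_combination (-(r * A2 + B2)) * hk0 - B2 * hrs
    · field_simp
      linear_combination (A3 + B3 * r) * hk0
    · field_simp
      ring
  · simp only
    simp only [map_add, map_sub, map_neg, map_smul,
      LinearMap.add_apply, LinearMap.sub_apply, LinearMap.neg_apply, LinearMap.smul_apply, cross_self,
      Fr.c12 F, Fr.c23 F, Fr.c31 F, Fr.c21 F, Fr.c32 F, Fr.c13 F, dotProduct_add,
      add_dotProduct, dotProduct_smul, smul_dotProduct, dotProduct_neg, neg_dotProduct,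
      dotProduct_sub, sub_dotProduct,
      Fr.n1 F, Fr.n2 F, Fr.n3 F, Fr.o12 F, Fr.o13 F, Fr.o23 F, Fr.o21 F, Fr.o31 F, Fr.o32 F,
      smul_eq_mul, mul_zero, mul_one, add_zero, zero_add, smul_zero, sub_zero, zero_sub, smul_neg]
    match_scalars
    · field_simp
      linear_combination (C2 * r ^ 2) * hk0
    · field_simp
      linear_combination (-(C3 * r + s * A1)) * hk0
    · field_simp
      linear_combination (r * A2 + B2) * hk0

/-- the identity for `b2B` -/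
theorem br_b2B {v : R9 → ℝ} {z : R6} (hz : z ∈ base) (hz' : z ∈ U6)
    (hv : DifferentiableAt ℝ v (uB z)) (hr : fderiv ℝ v (uB z) (rot (uB z)) = 0) :
    br (b2B z) (grad9 v (uB z)) = Real.sqrt 2 • Db2 z (XB (fun w => v (uB w)) z)
      - ((n3 z.1)⁻¹ * ((grad9 v (uB z)).2.1 ⬝ᵥ z.2)) • rot (b2B z) - omB v z • b1B z
      + (alM v (uB z) (b2B z) * (n3 z.2)⁻¹ ^ 2) • ((z.2, -(n3 z.1 • z.2), 0) : R9) := by
  obtain ⟨e1, e2, e3, F, hp, hq⟩ := exists_fr hz hz'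
  have hrs := n3_base hz
  have h1 := n3_pos' hz'.1
  have h2 := n3_pos' hz'.2
  obtain ⟨A1, A2, A3, hA⟩ : ∃ A1 A2 A3 : ℝ, (grad9 v (uB z)).1 = A1 • e1 + A2 • e2 + A3 • e3 :=
    ⟨_, _, _, F.expand _⟩
  obtain ⟨B1, B2, B3, hB⟩ : ∃ B1 B2 B3 : ℝ, (grad9 v (uB z)).2.1 = B1 • e1 + B2 • e2 + B3 • e3 :=
    ⟨_, _, _, F.expand _⟩
  obtain ⟨C1, C2, C3, hC⟩ : ∃ C1 C2 C3 : ℝ, (grad9 v (uB z)).2.2 = C1 • e1 + C2 • e2 + C3 • e3 :=
    ⟨_, _, _, F.expand _⟩
  have hg : grad9 v (uB z) = (A1 • e1 + A2 • e2 + A3 • e3, B1 • e1 + B2 • e2 + B3 • e3,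
    C1 • e1 + C2 • e2 + C3 • e3) := by rw [← hA, ← hB, ← hC]
  obtain ⟨r, hr'⟩ : ∃ r, r = n3 z.1 := ⟨_, rfl⟩
  obtain ⟨s, hs'⟩ : ∃ s, s = n3 z.2 := ⟨_, rfl⟩
  obtain ⟨k, hk'⟩ : ∃ k, k = (Real.sqrt 2)⁻¹ := ⟨_, rfl⟩
  have hk0 : Real.sqrt 2 * k = 1 := by rw [hk']; exact sqrt2_inv
  have hk1 : k ≠ 0 := by rintro h; rw [h, mul_zero] at hk0; exact zero_ne_one hk0
  rw [← hr', ← hs'] at hrs
  rw [← hr'] at hp h1
  rw [← hs'] at hq h2
  have hr0 := h1.ne'
  have hs0 := h2.ne'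
  have hC1 : C1 = -(s * B3) := by
    rw [fderiv_eq_dot9, hg] at hr
    simp only [dot9, rot, uB, ← hr', ← hs', ← hk', Prod.smul_mk] at hr
    simp only [hp, hq] at hr
    simp only [map_add, map_sub, map_neg, map_smul, LinearMap.add_apply, LinearMap.sub_apply,
      LinearMap.neg_apply, LinearMap.smul_apply, cross_self, F.c21, dotProduct_add,
      add_dotProduct, dotProduct_smul, smul_dotProduct, dotProduct_neg, neg_dotProduct,
      F.n1, F.n3, F.o13, F.o23, F.o21, F.o31, F.n2, F.o12, F.o32,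
      smul_eq_mul, mul_zero, mul_one, add_zero, zero_add, smul_neg, dotProduct_zero] at hr
    have h5 : k * (C1 + s * B3) = 0 := by
      field_simp at hr
      linear_combination hr
    have h6 := (mul_eq_zero.1 h5).resolve_left hk1
    linarith
  have hX := XB_uB_fr F hr' hs' hp hq hz'.1 hrs hv hA hB hC hC1
  have hom : omB v z = 2 * B2 / r := by
    unfold omB
    rw [fderiv_eq_dot9, hg, ← hr', ← hs']
    simp only [dot9, hq, dotProduct_zero]
    simp only [map_add, map_sub, map_neg, map_smul,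
      LinearMap.add_apply, LinearMap.sub_apply, LinearMap.neg_apply, LinearMap.smul_apply, cross_self,
      Fr.c12 F, Fr.c23 F, Fr.c31 F, Fr.c21 F, Fr.c32 F, Fr.c13 F, dotProduct_add,
      add_dotProduct, dotProduct_smul, smul_dotProduct, dotProduct_neg, neg_dotProduct,
      dotProduct_sub, sub_dotProduct,
      Fr.n1 F, Fr.n2 F, Fr.n3 F, Fr.o12 F, Fr.o13 F, Fr.o23 F, Fr.o21 F, Fr.o31 F, Fr.o32 F,
      smul_eq_mul, mul_zero, mul_one, add_zero, zero_add, smul_zero, sub_zero, zero_sub, smul_neg]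
    field_simp
  have hal : alM v (uB z) (b2B z) = -(k * (s * B1 + C3)) := by
    unfold alM
    rw [fderiv_eq_dot9, hg]
    simp only [dot9, rot, b2B, ← hr', ← hs', ← hk', Prod.smul_mk, dotProduct_zero]
    simp only [hp, hq]
    simp only [map_add, map_sub, map_neg, map_smul,
      LinearMap.add_apply, LinearMap.sub_apply, LinearMap.neg_apply, LinearMap.smul_apply, cross_self,
      Fr.c12 F, Fr.c23 F, Fr.c31 F, Fr.c21 F, Fr.c32 F, Fr.c13 F, dotProduct_add,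
      add_dotProduct, dotProduct_smul, smul_dotProduct, dotProduct_neg, neg_dotProduct,
      dotProduct_sub, sub_dotProduct,
      Fr.n1 F, Fr.n2 F, Fr.n3 F, Fr.o12 F, Fr.o13 F, Fr.o23 F, Fr.o21 F, Fr.o31 F, Fr.o32 F,
      smul_eq_mul, mul_zero, mul_one, add_zero, zero_add, smul_zero, sub_zero, zero_sub, smul_neg]
    field_simp
    ring
  rw [hX, hom, hal, hg]
  simp only [br, Db2, rot, b1B, b2B, ← hr', ← hs', ← hk', Prod.smul_mk, Prod.mk_sub_mk,
    Prod.mk_add_mk]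
  simp only [hp, hq]
  refine Prod.ext ?_ (Prod.ext ?_ ?_)
  · simp only
    simp only [map_add, map_sub, map_neg, map_smul,
      LinearMap.add_apply, LinearMap.sub_apply, LinearMap.neg_apply, LinearMap.smul_apply, cross_self,
      Fr.c12 F, Fr.c23 F, Fr.c31 F, Fr.c21 F, Fr.c32 F, Fr.c13 F, dotProduct_add,
      add_dotProduct, dotProduct_smul, smul_dotProduct, dotProduct_neg, neg_dotProduct,
      dotProduct_sub, sub_dotProduct,
      Fr.n1 F, Fr.n2 F, Fr.n3 F, Fr.o12 F, Fr.o13 F, Fr.o23 F, Fr.o21 F, Fr.o31 F, Fr.o32 F,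
      smul_eq_mul, mul_zero, mul_one, add_zero, zero_add, smul_zero, sub_zero, zero_sub, smul_neg]
    match_scalars
    · field_simp
      linear_combination (-(r * (A1 * s + r * C3))) * hk0 - C3 * hrs
    · field_simp
      linear_combination (A2 * r + B2) * hk0
    · field_simp
      linear_combination (-(C2 * s ^ 2)) * hk0
  · simp only
    simp only [map_add, map_sub, map_neg, map_smul,
      LinearMap.add_apply, LinearMap.sub_apply, LinearMap.neg_apply, LinearMap.smul_apply, cross_self,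
      Fr.c12 F, Fr.c23 F, Fr.c31 F, Fr.c21 F, Fr.c32 F, Fr.c13 F, dotProduct_add,
      add_dotProduct, dotProduct_smul, smul_dotProduct, dotProduct_neg, neg_dotProduct,
      dotProduct_sub, sub_dotProduct,
      Fr.n1 F, Fr.n2 F, Fr.n3 F, Fr.o12 F, Fr.o13 F, Fr.o23 F, Fr.o21 F, Fr.o31 F, Fr.o32 F,
      smul_eq_mul, mul_zero, mul_one, add_zero, zero_add, smul_zero, sub_zero, zero_sub, smul_neg]
    match_scalars
    · field_simp
      linear_combination (r * C3 + s * A1) * hk0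
    · field_simp
      linear_combination (-(r * A2 + B2)) * hk0 - B2 * hrs
    · field_simp
      ring
  · simp only
    simp only [map_add, map_sub, map_neg, map_smul,
      LinearMap.add_apply, LinearMap.sub_apply, LinearMap.neg_apply, LinearMap.smul_apply, cross_self,
      Fr.c12 F, Fr.c23 F, Fr.c31 F, Fr.c21 F, Fr.c32 F, Fr.c13 F, dotProduct_add,
      add_dotProduct, dotProduct_smul, smul_dotProduct, dotProduct_neg, neg_dotProduct,
      dotProduct_sub, sub_dotProduct,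
      Fr.n1 F, Fr.n2 F, Fr.n3 F, Fr.o12 F, Fr.o13 F, Fr.o23 F, Fr.o21 F, Fr.o31 F, Fr.o32 F,
      smul_eq_mul, mul_zero, mul_one, add_zero, zero_add, smul_zero, sub_zero, zero_sub, smul_neg]
    match_scalars
    · field_simp
      rw [hC1]
      linear_combination (s * (A3 + r * B3)) * hk0
    · field_simp
      linear_combination (C2 * r ^ 2) * hk0
    · field_simp
      linear_combination (-(r * A2 + B2)) * hk0

/-- the Euler field at wall B -/
theorem eM_uB {v : R9 → ℝ} {z : R6} (hz : z ∈ base) (hz' : z ∈ U6)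
    (hv : DifferentiableAt ℝ v (uB z)) (hr : fderiv ℝ v (uB z) (rot (uB z)) = 0) :
    eM v (uB z) = Real.sqrt 2 • DuB z (XB (fun w => v (uB w)) z)
      - ((n3 z.1)⁻¹ * ((grad9 v (uB z)).2.1 ⬝ᵥ z.2)) • rot (uB z) := by
  obtain ⟨e1, e2, e3, F, hp, hq⟩ := exists_fr hz hz'
  have hrs := n3_base hz
  have h1 := n3_pos' hz'.1
  have h2 := n3_pos' hz'.2
  obtain ⟨A1, A2, A3, hA⟩ : ∃ A1 A2 A3 : ℝ, (grad9 v (uB z)).1 = A1 • e1 + A2 • e2 + A3 • e3 :=
    ⟨_, _, _, F.expand _⟩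
  obtain ⟨B1, B2, B3, hB⟩ : ∃ B1 B2 B3 : ℝ, (grad9 v (uB z)).2.1 = B1 • e1 + B2 • e2 + B3 • e3 :=
    ⟨_, _, _, F.expand _⟩
  obtain ⟨C1, C2, C3, hC⟩ : ∃ C1 C2 C3 : ℝ, (grad9 v (uB z)).2.2 = C1 • e1 + C2 • e2 + C3 • e3 :=
    ⟨_, _, _, F.expand _⟩
  have hg : grad9 v (uB z) = (A1 • e1 + A2 • e2 + A3 • e3, B1 • e1 + B2 • e2 + B3 • e3,
    C1 • e1 + C2 • e2 + C3 • e3) := by rw [← hA, ← hB, ← hC]
  obtain ⟨r, hr'⟩ : ∃ r, r = n3 z.1 := ⟨_, rfl⟩
  obtain ⟨s, hs'⟩ : ∃ s, s = n3 z.2 := ⟨_, rfl⟩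
  obtain ⟨k, hk'⟩ : ∃ k, k = (Real.sqrt 2)⁻¹ := ⟨_, rfl⟩
  have hk0 : Real.sqrt 2 * k = 1 := by rw [hk']; exact sqrt2_inv
  have hk1 : k ≠ 0 := by rintro h; rw [h, mul_zero] at hk0; exact zero_ne_one hk0
  rw [← hr', ← hs'] at hrs
  rw [← hr'] at hp h1
  rw [← hs'] at hq h2
  have hr0 := h1.ne'
  have hs0 := h2.ne'
  have hC1 : C1 = -(s * B3) := by
    rw [fderiv_eq_dot9, hg] at hr
    simp only [dot9, rot, uB, ← hr', ← hs', ← hk', Prod.smul_mk] at hr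
    simp only [hp, hq] at hr
    simp only [map_add, map_sub, map_neg, map_smul, LinearMap.add_apply, LinearMap.sub_apply,
      LinearMap.neg_apply, LinearMap.smul_apply, cross_self, F.c21, dotProduct_add,
      add_dotProduct, dotProduct_smul, smul_dotProduct, dotProduct_neg, neg_dotProduct,
      F.n1, F.n3, F.o13, F.o23, F.o21, F.o31, F.n2, F.o12, F.o32,
      smul_eq_mul, mul_zero, mul_one, add_zero, zero_add, smul_neg, dotProduct_zero] at hr
    have h5 : k * (C1 + s * B3) = 0 := by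
      field_simp at hr
      linear_combination hr
    have h6 := (mul_eq_zero.1 h5).resolve_left hk1
    linarith
  have hX := XB_uB_fr F hr' hs' hp hq hz'.1 hrs hv hA hB hC hC1
  rw [eM, hX, hg]
  simp only [br, DuB, rot, uB, ← hr', ← hs', ← hk', Prod.smul_mk, Prod.mk_sub_mk,
    Prod.mk_add_mk]
  simp only [hp, hq]
  refine Prod.ext ?_ (Prod.ext ?_ ?_)
  · simp only
    simp only [map_add, map_sub, map_neg, map_smul,
      LinearMap.add_apply, LinearMap.sub_apply, LinearMap.neg_apply, LinearMap.smul_apply, cross_self,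
      Fr.c12 F, Fr.c23 F, Fr.c31 F, Fr.c21 F, Fr.c32 F, Fr.c13 F, dotProduct_add,
      add_dotProduct, dotProduct_smul, smul_dotProduct, dotProduct_neg, neg_dotProduct,
      dotProduct_sub, sub_dotProduct,
      Fr.n1 F, Fr.n2 F, Fr.n3 F, Fr.o12 F, Fr.o13 F, Fr.o23 F, Fr.o21 F, Fr.o31 F, Fr.o32 F,
      smul_eq_mul, mul_zero, mul_one, add_zero, zero_add, smul_zero, sub_zero, zero_sub, smul_neg]
    match_scalars
    · field_simp
      linear_combination (-(A2 * r + B2)) * hk0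
    · field_simp
      rw [hC1]
      linear_combination (r * (A3 + r * B3)) * hk0 + B3 * hrs
    · field_simp
      linear_combination (-C2) * hk0
  · simp only
    simp only [map_add, map_sub, map_neg, map_smul,
      LinearMap.add_apply, LinearMap.sub_apply, LinearMap.neg_apply, LinearMap.smul_apply, cross_self,
      Fr.c12 F, Fr.c23 F, Fr.c31 F, Fr.c21 F, Fr.c32 F, Fr.c13 F, dotProduct_add,
      add_dotProduct, dotProduct_smul, smul_dotProduct, dotProduct_neg, neg_dotProduct,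
      dotProduct_sub, sub_dotProduct,
      Fr.n1 F, Fr.n2 F, Fr.n3 F, Fr.o12 F, Fr.o13 F, Fr.o23 F, Fr.o21 F, Fr.o31 F, Fr.o32 F,
      smul_eq_mul, mul_zero, mul_one, add_zero, zero_add, smul_zero, sub_zero, zero_sub, smul_neg]
    match_scalars
    · field_simp
      linear_combination (-(r * A2 + B2)) * hk0 + B2 * hrs
    · field_simp
      linear_combination (A3 + B3 * r) * hk0
    · field_simp
      ring
  · simp only
    simp only [map_add, map_sub, map_neg, map_smul,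
      LinearMap.add_apply, LinearMap.sub_apply, LinearMap.neg_apply, LinearMap.smul_apply, cross_self,
      Fr.c12 F, Fr.c23 F, Fr.c31 F, Fr.c21 F, Fr.c32 F, Fr.c13 F, dotProduct_add,
      add_dotProduct, dotProduct_smul, smul_dotProduct, dotProduct_neg, neg_dotProduct,
      dotProduct_sub, sub_dotProduct,
      Fr.n1 F, Fr.n2 F, Fr.n3 F, Fr.o12 F, Fr.o13 F, Fr.o23 F, Fr.o21 F, Fr.o31 F, Fr.o32 F,
      smul_eq_mul, mul_zero, mul_one, add_zero, zero_add, smul_zero, sub_zero, zero_sub, smul_neg]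
    match_scalars
    · field_simp
      linear_combination (-(C2 * r ^ 2)) * hk0
    · field_simp
      linear_combination (C3 * r + s * A1) * hk0
    · field_simp
      linear_combination (-(r * A2 + B2)) * hk0

/-! ### the derivatives of the fibre frames -/

/-- `rot` as a linear map -/
def rotL : R9 →L[ℝ] R9 :=
  (0 : R9 →L[ℝ] R3).prod ((-((ContinuousLinearMap.snd ℝ R3 R3).comp
    (ContinuousLinearMap.snd ℝ R3 (R3 × R3)))).prod ((ContinuousLinearMap.fst ℝ R3 R3).comp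
    (ContinuousLinearMap.snd ℝ R3 (R3 × R3))))

theorem rotL_apply (u : R9) : rotL u = rot u := rfl

theorem hasDerivAt_n3 {p : R3} (w : R3) (h : p ≠ 0) :
    HasDerivAt (fun t : ℝ => n3 (p + t • w)) ((n3 p)⁻¹ * (p ⬝ᵥ w)) 0 := by
  have h1 : HasDerivAt (fun t : ℝ => p ⬝ᵥ p + t * (2 * (p ⬝ᵥ w)) + t ^ 2 * (w ⬝ᵥ w))
      (2 * (p ⬝ᵥ w)) 0 := by
    have a1 := ((hasDerivAt_id (0 : ℝ)).mul_const (2 * (p ⬝ᵥ w))).const_add (p ⬝ᵥ p)
    have a2 := ((hasDerivAt_pow 2 (0 : ℝ)).mul_const (w ⬝ᵥ w))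
    exact (a1.fun_add a2).congr_deriv (by simp)
  have h2 : (fun t : ℝ => (p + t • w) ⬝ᵥ (p + t • w)) =
      fun t : ℝ => p ⬝ᵥ p + t * (2 * (p ⬝ᵥ w)) + t ^ 2 * (w ⬝ᵥ w) := by
    funext t
    simp only [vec3_dotProduct, Pi.add_apply, Pi.smul_apply, smul_eq_mul]
    ring
  rw [← h2] at h1
  have hp := dot_pos' h
  have hn := n3_pos' h
  refine (h1.sqrt (by simpa using hp.ne')).congr_deriv ?_
  have h5 : √(p ⬝ᵥ p) = n3 p := rfl
  simp only [zero_smul, add_zero, h5]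
  field_simp

theorem hasDerivAt_qxp (z w : R6) :
    HasDerivAt (fun t : ℝ => (z.2 + t • w.2) ⨯₃ (z.1 + t • w.1))
      (w.2 ⨯₃ z.1 + z.2 ⨯₃ w.1) 0 := by
  have a0 : (fun t : ℝ => (z.2 + t • w.2) ⨯₃ (z.1 + t • w.1)) =
      fun t : ℝ => z.2 ⨯₃ z.1 + t • (w.2 ⨯₃ z.1 + z.2 ⨯₃ w.1) + t ^ 2 • (w.2 ⨯₃ w.1) := by
    funext t
    simp only [map_add, map_smul, LinearMap.add_apply, LinearMap.smul_apply, smul_add, smul_smul]
    rw [pow_two]
    abel
  rw [a0]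
  have a1 := ((hasDerivAt_id (0 : ℝ)).smul_const (w.2 ⨯₃ z.1 + z.2 ⨯₃ w.1)).const_add
    (z.2 ⨯₃ z.1)
  have a2 := ((hasDerivAt_pow 2 (0 : ℝ)).smul_const (w.2 ⨯₃ w.1))
  exact (a1.fun_add a2).congr_deriv (by simp)

theorem hasDerivAt_b1B {z : R6} (w : R6) (h : z.1 ≠ 0) :
    HasDerivAt (fun t : ℝ => b1B (z + t • w)) (Db1 z w) 0 := by
  have h1 := hasDerivAt_line z.1 w.1
  have h2 := hasDerivAt_rho w.1 h
  have h3 := hasDerivAt_qxp z w
  have h4 := h2.fun_smul h1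
  have h5 := (h2.fun_smul h3).fun_neg
  have h6 := (h1.fun_neg.prodMk (h4.prodMk h5)).fun_const_smul (Real.sqrt 2)⁻¹
  refine h6.congr_deriv ?_
  simp only [Db1, zero_smul, add_zero, neg_smul]
  rw [sub_eq_add_neg, sub_eq_add_neg]

theorem hasDerivAt_b2B {z : R6} (w : R6) (h : z.1 ≠ 0) (h' : z.2 ≠ 0) :
    HasDerivAt (fun t : ℝ => b2B (z + t • w)) (Db2 z w) 0 := by
  have h1 := hasDerivAt_line z.1 w.1
  have h2 := hasDerivAt_rho w.1 h
  have h2' := hasDerivAt_rho w.2 h'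
  have h3 := hasDerivAt_qxp z w
  have h4 := hasDerivAt_n3 w.2 h'
  have k1 := (h2'.fun_smul h3).fun_neg
  have k2 := (h2.fun_mul h2').fun_smul h3
  have k3 := (h4.fun_mul h2).fun_smul h1
  have h6 := (k1.prodMk (k2.prodMk k3)).fun_const_smul (Real.sqrt 2)⁻¹
  refine h6.congr_deriv ?_
  simp only [Db2, zero_smul, add_zero, neg_smul]
  refine congrArg (fun y : R9 => (Real.sqrt 2)⁻¹ • y) (Prod.ext ?_ (Prod.ext ?_ ?_))
  · simp only
    module
  · simp only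
    module
  · simp only
    module

theorem differentiableAt_cross {p q : R6 → R3} {z : R6} (hp : DifferentiableAt ℝ p z)
    (hq : DifferentiableAt ℝ q z) : DifferentiableAt ℝ (fun w => p w ⨯₃ q w) z := by
  have hp' := fun i => differentiableAt_pi.1 hp i
  have hq' := fun i => differentiableAt_pi.1 hq i
  rw [differentiableAt_pi]
  intro i
  fin_cases i
  · simp only [Fin.zero_eta, GE7_cr0]
    exact ((hp' 1).mul (hq' 2)).sub ((hp' 2).mul (hq' 1))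
  · simp only [Fin.mk_one, GE7_cr1]
    exact ((hp' 2).mul (hq' 0)).sub ((hp' 0).mul (hq' 2))
  · simp only [Fin.reduceFinMk, GE7_cr2]
    exact ((hp' 0).mul (hq' 1)).sub ((hp' 1).mul (hq' 0))

theorem differentiableAt_n3 {p : R6 → R3} {z : R6} (hp : DifferentiableAt ℝ p z)
    (h0 : p z ≠ 0) : DifferentiableAt ℝ (fun w => n3 (p w)) z := by
  have hp' := fun i => differentiableAt_pi.1 hp i
  have a : (fun w : R6 => p w ⬝ᵥ p w) =
      fun w : R6 => p w 0 * p w 0 + p w 1 * p w 1 + p w 2 * p w 2 := by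
    funext w; rw [vec3_dotProduct]
  have h1 : DifferentiableAt ℝ (fun w : R6 => p w ⬝ᵥ p w) z := by
    rw [a]
    exact (((hp' 0).mul (hp' 0)).add ((hp' 1).mul (hp' 1))).add ((hp' 2).mul (hp' 2))
  exact h1.sqrt (dot_pos' h0).ne'

theorem differentiableAt_b1B {z : R6} (h : z.1 ≠ 0) : DifferentiableAt ℝ b1B z := by
  have h2 : DifferentiableAt ℝ (fun w : R6 => (n3 w.1)⁻¹) z :=
    (differentiableAt_n3 differentiableAt_fst h).inv (n3_pos' h).ne'
  have h3 : DifferentiableAt ℝ (fun w : R6 => w.1) z := differentiableAt_fst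
  have h4 := differentiableAt_cross (p := fun w : R6 => w.2) (q := fun w : R6 => w.1) (z := z)
    differentiableAt_snd differentiableAt_fst
  exact (h3.neg.prodMk ((h2.smul h3).prodMk (h2.smul h4).neg)).const_smul (Real.sqrt 2)⁻¹

theorem differentiableAt_b2B {z : R6} (h : z.1 ≠ 0) (h' : z.2 ≠ 0) :
    DifferentiableAt ℝ b2B z := by
  have h2 : DifferentiableAt ℝ (fun w : R6 => (n3 w.1)⁻¹) z :=
    (differentiableAt_n3 differentiableAt_fst h).inv (n3_pos' h).ne'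
  have k1 : DifferentiableAt ℝ (fun w : R6 => n3 w.2) z :=
    differentiableAt_n3 differentiableAt_snd h'
  have k2 : DifferentiableAt ℝ (fun w : R6 => (n3 w.2)⁻¹) z := k1.inv (n3_pos' h').ne'
  have h3 : DifferentiableAt ℝ (fun w : R6 => w.1) z := differentiableAt_fst
  have h4 := differentiableAt_cross (p := fun w : R6 => w.2) (q := fun w : R6 => w.1) (z := z)
    differentiableAt_snd differentiableAt_fst
  exact ((k2.smul h4).neg.prodMk (((h2.mul k2).smul h4).prodMk ((k1.mul h2).smul h3))).const_smul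
    (Real.sqrt 2)⁻¹

/-! ### second derivatives -/

theorem fderiv_diff {v : R9 → ℝ} (hv : ContDiffOn ℝ ∞ v {0}ᶜ) {u : R9} (hu : u ≠ 0) :
    DifferentiableAt ℝ (fderiv ℝ v) u := by
  have h1 : ContDiffOn ℝ ∞ (fderiv ℝ v) {0}ᶜ :=
    hv.fderiv_of_isOpen isOpen_compl_singleton (by simp)
  exact (h1.contDiffAt (isOpen_compl_singleton.mem_nhds hu)).differentiableAt (by simp)

theorem D2_eq {v : R9 → ℝ} (hv : ContDiffOn ℝ ∞ v {0}ᶜ) {u : R9} (hu : u ≠ 0) (c w : R9) :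
    fderiv ℝ (fun y => fderiv ℝ v y c) u w = fderiv ℝ (fderiv ℝ v) u w c := by
  have h1 := (fderiv_diff hv hu).hasFDerivAt
  have h2 := h1.clm_apply (hasFDerivAt_const c u)
  rw [h2.fderiv]
  simp

/-- `rotH t` as a linear map -/
def rotHL (t : ℝ) : R9 →L[ℝ] R9 :=
  (ContinuousLinearMap.fst ℝ R3 (R3 × R3)).prod
    ((Real.cos t • ((ContinuousLinearMap.fst ℝ R3 R3).comp (ContinuousLinearMap.snd ℝ R3 (R3 × R3)))
      - Real.sin t • ((ContinuousLinearMap.snd ℝ R3 R3).comp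
        (ContinuousLinearMap.snd ℝ R3 (R3 × R3)))).prod
    (Real.sin t • ((ContinuousLinearMap.fst ℝ R3 R3).comp (ContinuousLinearMap.snd ℝ R3 (R3 × R3)))
      + Real.cos t • ((ContinuousLinearMap.snd ℝ R3 R3).comp
        (ContinuousLinearMap.snd ℝ R3 (R3 × R3)))))

theorem rotHL_apply (t : ℝ) (u : R9) : rotHL t u = rotH t u := rfl

theorem rotH_zero' (u : R9) : rotH 0 u = u := by simp [rotH]

theorem rotH_hasDerivAt (u : R9) : HasDerivAt (fun t => rotH t u) (rot u) 0 := by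
  have h1 : HasDerivAt (fun t : ℝ => Real.cos t • u.2.1 - Real.sin t • u.2.2) (-u.2.2) 0 := by
    exact (((Real.hasDerivAt_cos 0).smul_const u.2.1).fun_sub
      ((Real.hasDerivAt_sin 0).smul_const u.2.2)).congr_deriv (by simp)
  have h2 : HasDerivAt (fun t : ℝ => Real.sin t • u.2.1 + Real.cos t • u.2.2) (u.2.1) 0 := by
    exact (((Real.hasDerivAt_sin 0).smul_const u.2.1).fun_add
      ((Real.hasDerivAt_cos 0).smul_const u.2.2)).congr_deriv (by simp)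
  exact (hasDerivAt_const (0 : ℝ) u.1).prodMk (h1.prodMk h2)

theorem rotH_ne {t : ℝ} {u : R9} (hu : u ≠ 0) : rotH t u ≠ 0 := by
  intro h
  have h1 : u.1 = 0 := congrArg (fun y : R9 => y.1) h
  have h2 : Real.cos t • u.2.1 - Real.sin t • u.2.2 = 0 := congrArg (fun y : R9 => y.2.1) h
  have h3 : Real.sin t • u.2.1 + Real.cos t • u.2.2 = 0 := congrArg (fun y : R9 => y.2.2) h
  have hc := Real.sin_sq_add_cos_sq t
  have h4 : u.2.1 = Real.cos t • (Real.cos t • u.2.1 - Real.sin t • u.2.2)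
      + Real.sin t • (Real.sin t • u.2.1 + Real.cos t • u.2.2) := by
    match_scalars
    · linear_combination (-1 : ℝ) * hc
    · ring
  have h5 : u.2.2 = Real.cos t • (Real.sin t • u.2.1 + Real.cos t • u.2.2)
      - Real.sin t • (Real.cos t • u.2.1 - Real.sin t • u.2.2) := by
    match_scalars
    · linear_combination (-1 : ℝ) * hc
    · ring
  rw [h2, h3] at h4 h5
  refine hu (Prod.ext h1 (Prod.ext ?_ ?_))
  · rw [h4]; simp
  · rw [h5]; simp

theorem fderiv_rotH {v : R9 → ℝ} (hv : PhiM v) {u : R9} (hu : u ≠ 0) (t : ℝ) (c : R9) :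
    fderiv ℝ v (rotH t u) (rotH t c) = fderiv ℝ v u c := by
  have h1 : HasFDerivAt (fun y => v (rotHL t y)) ((fderiv ℝ v (rotHL t u)).comp (rotHL t)) u :=
    (GE7_diff hv.smooth (rotH_ne hu)).hasFDerivAt.comp u (rotHL t).hasFDerivAt
  have h2 : (fun y => v (rotHL t y)) = v := funext fun y => hv.inv t y
  rw [h2] at h1
  rw [h1.fderiv]
  rfl

/-- second order invariance -/
theorem D2_rot {v : R9 → ℝ} (hv : PhiM v) {u : R9} (hu : u ≠ 0) (c : R9) :
    fderiv ℝ (fderiv ℝ v) u (rot u) c + fderiv ℝ v u (rot c) = 0 := by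
  have h1 := rotH_hasDerivAt u
  have h2 := rotH_hasDerivAt c
  have h3 : HasFDerivAt (fderiv ℝ v) (fderiv ℝ (fderiv ℝ v) u) (rotH 0 u) := by
    rw [rotH_zero']; exact (fderiv_diff hv.smooth hu).hasFDerivAt
  have h4 := h3.comp_hasDerivAt (0 : ℝ) h1
  have h5 := h4.clm_apply h2
  have h6 : (fun t => (fderiv ℝ v ∘ fun t => rotH t u) t (rotH t c)) =
      fun _ => fderiv ℝ v u c := funext fun t => fderiv_rotH hv hu t c
  rw [h6] at h5
  have h7 := h5.unique (hasDerivAt_const (0 : ℝ) _)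
  simpa [rotH_zero'] using h7

/-- derivative of `α` along a section -/
theorem fderiv_al {v : R9 → ℝ} (hv : PhiM v) {U b : R6 → R9} {z w : R6} {U' b' : R9}
    (hU : DifferentiableAt ℝ U z) (hb : DifferentiableAt ℝ b z) (h0 : U z ≠ 0)
    (hU' : HasDerivAt (fun t : ℝ => U (z + t • w)) U' 0)
    (hb' : HasDerivAt (fun t : ℝ => b (z + t • w)) b' 0) :
    fderiv ℝ (fun y => alM v (U y) (b y)) z w =
      fderiv ℝ (fderiv ℝ v) (U z) U' (rot (b z)) + fderiv ℝ v (U z) (rot b') := by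
  have h1 : DifferentiableAt ℝ (fun y => fderiv ℝ v (U y)) z :=
    (fderiv_diff hv.smooth h0).comp z hU
  have h2 : DifferentiableAt ℝ (fun y => alM v (U y) (b y)) z := by
    have h3 : DifferentiableAt ℝ (fun y => rotL (b y)) z := rotL.differentiableAt.comp z hb
    exact h1.clm_apply h3
  have h4 : HasFDerivAt (fun y => alM v (U y) (b y))
      (fderiv ℝ (fun y => alM v (U y) (b y)) z) (z + (0 : ℝ) • w) := by
    rw [zero_smul, add_zero]; exact h2.hasFDerivAt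
  have h5 := h4.comp_hasDerivAt (0 : ℝ) (by
    have := ((hasDerivAt_id (0 : ℝ)).smul_const w).const_add z
    simpa using this : HasDerivAt (fun t : ℝ => z + t • w) w 0)
  have h6 : HasFDerivAt (fderiv ℝ v) (fderiv ℝ (fderiv ℝ v) (U z)) (U (z + (0 : ℝ) • w)) := by
    rw [zero_smul, add_zero]; exact (fderiv_diff hv.smooth h0).hasFDerivAt
  have h7 := h6.comp_hasDerivAt (0 : ℝ) hU'
  have h8 : HasDerivAt (fun t : ℝ => rotL (b (z + t • w))) (rotL b') 0 :=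
    rotL.hasFDerivAt.comp_hasDerivAt (0 : ℝ) hb'
  have h9 := h7.clm_apply h8
  have h10 := h5.unique h9
  simpa [rotL_apply] using h10

theorem a2M_eq {v : R9 → ℝ} (hv : PhiM v) {u : R9} (hu : u ≠ 0) (b : R9) :
    a2M v u b = fderiv ℝ (fderiv ℝ v) u (eM v u) (rot b) + fderiv ℝ v u (rot (br b (grad9 v u))) := by
  rw [a2M, D2_eq hv.smooth hu]

/-- the general step -/
theorem a2M_step {v : R9 → ℝ} (hv : PhiM v) {z : R6} (hz : z ∈ base) (hz' : z ∈ U6)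
    {b : R6 → R9} {b' R : R9} (hb : DifferentiableAt ℝ b z)
    (hb' : HasDerivAt (fun t : ℝ => b (z + t • XB (fun w => v (uB w)) z)) b' 0)
    (hR : br (b z) (grad9 v (uB z)) = Real.sqrt 2 • b'
      - ((n3 z.1)⁻¹ * ((grad9 v (uB z)).2.1 ⬝ᵥ z.2)) • rot (b z) + R) :
    a2M v (uB z) (b z) = Real.sqrt 2 * XD (fun w => v (uB w)) (fun w => alM v (uB w) (b w)) z
      + fderiv ℝ v (uB z) (rot R) := by
  have h0 := uB_ne hz'.1
  have hd := GE7_diff hv.smooth h0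
  have e1 := eM_uB hz hz' hd (fderiv_rot hd hv.inv)
  have e2 := fderiv_al hv (differentiableAt_uB hz'.1) hb h0
    (hasDerivAt_uB (XB (fun w => v (uB w)) z) hz'.1) hb'
  have e3 := D2_rot hv h0 (rot (b z))
  obtain ⟨μ, hμ⟩ : ∃ μ, μ = (n3 z.1)⁻¹ * ((grad9 v (uB z)).2.1 ⬝ᵥ z.2) := ⟨_, rfl⟩
  rw [← hμ] at e1 hR
  rw [a2M_eq hv h0, e1, hR, XD, e2]
  have e4 : rot (Real.sqrt 2 • b' - μ • rot (b z) + R) =
      Real.sqrt 2 • rot b' - μ • rot (rot (b z)) + rot R := by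
    rw [← rotL_apply, ← rotL_apply, ← rotL_apply, ← rotL_apply, map_add, map_sub, map_smul,
      map_smul]
    rfl
  rw [e4]
  simp only [map_add, map_sub, map_smul, _root_.sub_apply,
    _root_.smul_apply, smul_eq_mul]
  linear_combination (-μ) * e3

theorem a2M_b1B {v : R9 → ℝ} (hv : PhiM v) {z : R6} (hz : z ∈ base) (hz' : z ∈ U6) :
    a2M v (uB z) (b1B z) =
      Real.sqrt 2 * XD (fun w => v (uB w)) (fun w => alM v (uB w) (b1B w)) z
        + omB v z * alM v (uB z) (b2B z) + alM v (uB z) (b1B z) *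
          ((n3 z.2)⁻¹ ^ 2 * fderiv ℝ v (uB z) (rot ((z.2, -(n3 z.1 • z.2), 0) : R9))) := by
  have hd := GE7_diff hv.smooth (uB_ne hz'.1)
  have h1 := br_b1B hz hz' hd (fderiv_rot hd hv.inv)
  rw [add_assoc] at h1
  rw [a2M_step hv hz hz' (differentiableAt_b1B hz'.1)
    (hasDerivAt_b1B (XB (fun w => v (uB w)) z) hz'.1) h1]
  rw [← rotL_apply, map_add, map_smul, map_smul, map_add, map_smul, map_smul, rotL_apply,
    rotL_apply]
  simp only [alM, smul_eq_mul]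
  ring

theorem a2M_b2B {v : R9 → ℝ} (hv : PhiM v) {z : R6} (hz : z ∈ base) (hz' : z ∈ U6) :
    a2M v (uB z) (b2B z) =
      Real.sqrt 2 * XD (fun w => v (uB w)) (fun w => alM v (uB w) (b2B w)) z
        - omB v z * alM v (uB z) (b1B z) + alM v (uB z) (b2B z) *
          ((n3 z.2)⁻¹ ^ 2 * fderiv ℝ v (uB z) (rot ((z.2, -(n3 z.1 • z.2), 0) : R9))) := by
  have hd := GE7_diff hv.smooth (uB_ne hz'.1)
  have h1 := br_b2B hz hz' hd (fderiv_rot hd hv.inv)
  rw [sub_eq_add_neg _ (omB v z • b1B z), add_assoc] at h1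
  rw [a2M_step hv hz hz' (differentiableAt_b2B hz'.1 hz'.2)
    (hasDerivAt_b2B (XB (fun w => v (uB w)) z) hz'.1 hz'.2) h1]
  rw [← rotL_apply, map_add, map_neg, map_smul, map_smul, map_add, map_neg, map_smul, map_smul,
    rotL_apply, rotL_apply]
  simp only [alM, smul_eq_mul]
  ring

theorem a2M_add {v : R9 → ℝ} (hv : PhiM v) {u : R9} (hu : u ≠ 0) (r s : ℝ) (b b' : R9) :
    a2M v u (r • b + s • b') = r * a2M v u b + s * a2M v u b' := by
  rw [a2M_eq hv hu, a2M_eq hv hu, a2M_eq hv hu]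
  have e1 : rot (r • b + s • b') = r • rot b + s • rot b' := by
    rw [← rotL_apply, map_add, map_smul, map_smul]; rfl
  have e2 : br (r • b + s • b') (grad9 v u) = r • br b (grad9 v u) + s • br b' (grad9 v u) := by
    rcases grad9 v u with ⟨A, B, C⟩
    obtain ⟨b1, b2, b3⟩ := b
    obtain ⟨c1, c2, c3⟩ := b'
    refine Prod.ext ?_ (Prod.ext ?_ ?_)
    · simp only [br, Prod.smul_mk, Prod.mk_add_mk, map_add, map_smul, LinearMap.add_apply,
        LinearMap.smul_apply]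
      module
    · simp only [br, Prod.smul_mk, Prod.mk_add_mk, map_add, map_smul, LinearMap.add_apply,
        LinearMap.smul_apply]
      module
    · simp only [br, Prod.smul_mk, Prod.mk_add_mk, map_add, map_smul, LinearMap.add_apply,
        LinearMap.smul_apply]
      module
  have e3 : rot (r • br b (grad9 v u) + s • br b' (grad9 v u)) =
      r • rot (br b (grad9 v u)) + s • rot (br b' (grad9 v u)) := by
    rw [← rotL_apply, map_add, map_smul, map_smul]; rfl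
  rw [e2, e3, e1]
  simp only [map_add, map_smul, smul_eq_mul]
  ring

theorem alM_add {v : R9 → ℝ} {u : R9} (r s : ℝ) (b b' : R9) :
    alM v u (r • b + s • b') = r * alM v u b + s * alM v u b' := by
  have e1 : rot (r • b + s • b') = r • rot b + s • rot b' := by
    rw [← rotL_apply, map_add, map_smul, map_smul]; rfl
  unfold alM
  rw [e1, map_add, map_smul, map_smul, smul_eq_mul, smul_eq_mul]

/-- `α` of the first fibre vector at wall B -/
def al1B (v : R9 → ℝ) (z : R6) : ℝ := alM v (uB z) (b1B z)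

/-- `α` of the second fibre vector at wall B -/
def al2B (v : R9 → ℝ) (z : R6) : ℝ := alM v (uB z) (b2B z)

section wallB

variable {v : R9 → ℝ} {z : R6}

theorem alM_comb (v : R9 → ℝ) (z : R6) (s1 s2 : ℝ) :
    alM v (uB z) (s1 • b1B z + s2 • b2B z) = s1 * al1B v z + s2 * al2B v z := by
  rw [alM_add]; rfl

/-- `a₂` of the flag with `α = 0` -/
theorem a2M_uB (hv : PhiM v) (hz : z ∈ base) (hU : z ∈ U6) {s1 s2 : ℝ}
    (h : s1 * al1B v z + s2 * al2B v z = 0) :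
    a2M v (uB z) (s1 • b1B z + s2 • b2B z) =
      s1 * (Real.sqrt 2 * XD (fun w => v (uB w)) (al1B v) z)
      + s2 * (Real.sqrt 2 * XD (fun w => v (uB w)) (al2B v) z)
      + omB v z * (s1 * al2B v z - s2 * al1B v z) := by
  rw [a2M_add hv (uB_ne hU.1), a2M_b1B hv hz hU, a2M_b2B hv hz hU]
  change s1 * (Real.sqrt 2 * XD (fun w => v (uB w)) (al1B v) z + omB v z * al2B v z
      + al1B v z * ((n3 z.2)⁻¹ ^ 2 * fderiv ℝ v (uB z) (rot ((z.2, -(n3 z.1 • z.2), 0) : R9))))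
    + s2 * (Real.sqrt 2 * XD (fun w => v (uB w)) (al2B v) z - omB v z * al1B v z
      + al2B v z * ((n3 z.2)⁻¹ ^ 2 * fderiv ℝ v (uB z) (rot ((z.2, -(n3 z.1 • z.2), 0) : R9))))
    = _
  linear_combination ((n3 z.2)⁻¹ ^ 2 *
    fderiv ℝ v (uB z) (rot ((z.2, -(n3 z.1 • z.2), 0) : R9))) * h

/-- `Δ` and `a₂` of the flag with `α = 0` -/
theorem DelB_uB (hv : PhiM v) (hz : z ∈ base) (hU : z ∈ U6) {s1 s2 : ℝ}
    (h : s1 * al1B v z + s2 * al2B v z = 0) (hs : s1 ^ 2 + s2 ^ 2 = 1) :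
    DelB (Real.sqrt 2) (fun w => v (uB w)) (al1B v) (al2B v) (omB v) z =
      -(s1 * al2B v z - s2 * al1B v z) * a2M v (uB z) (s1 • b1B z + s2 • b2B z) ∧
    (s1 * al2B v z - s2 * al1B v z) ^ 2 = al1B v z ^ 2 + al2B v z ^ 2 := by
  have h1 : al1B v z = -s2 * (s1 * al2B v z - s2 * al1B v z) := by
    linear_combination (-al1B v z) * hs + s1 * h
  have h2 : al2B v z = s1 * (s1 * al2B v z - s2 * al1B v z) := by
    linear_combination (-al2B v z) * hs + s2 * h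
  obtain ⟨r, hr⟩ : ∃ r, r = s1 * al2B v z - s2 * al1B v z := ⟨_, rfl⟩
  rw [← hr] at h1 h2
  have h3 : r ^ 2 = al1B v z ^ 2 + al2B v z ^ 2 := by
    rw [h1, h2]
    linear_combination (-r ^ 2) * hs
  refine ⟨?_, by rw [← hr]; exact h3⟩
  rw [a2M_uB hv hz hU h, ← hr]
  unfold DelB
  rw [← h3]
  linear_combination Real.sqrt 2 * XD (fun w => v (uB w)) (al2B v) z * h1
    - Real.sqrt 2 * XD (fun w => v (uB w)) (al1B v) z * h2

/-- if `α ≠ 0` at the wall point, then `a₂` of the flag with `α = 0` vanishes iff `Δ = 0` -/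
theorem a2M_uB_eq_zero_iff (hv : PhiM v) (hz : z ∈ base) (hU : z ∈ U6) {s1 s2 : ℝ}
    (h : s1 * al1B v z + s2 * al2B v z = 0) (hs : s1 ^ 2 + s2 ^ 2 = 1)
    (hne : al1B v z ≠ 0 ∨ al2B v z ≠ 0) :
    a2M v (uB z) (s1 • b1B z + s2 • b2B z) = 0 ↔
      DelB (Real.sqrt 2) (fun w => v (uB w)) (al1B v) (al2B v) (omB v) z = 0 := by
  obtain ⟨h1, h2⟩ := DelB_uB hv hz hU h hs
  have h3 : s1 * al2B v z - s2 * al1B v z ≠ 0 := by
    intro h4
    rw [h4] at h2
    rcases hne with h5 | h5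
    · have := pow_pos (abs_pos.2 h5) 2
      rw [sq_abs] at this
      nlinarith [sq_nonneg (al2B v z)]
    · have := pow_pos (abs_pos.2 h5) 2
      rw [sq_abs] at this
      nlinarith [sq_nonneg (al1B v z)]
  rw [h1]
  constructor
  · intro h4
    rw [h4, mul_zero]
  · intro h4
    rcases mul_eq_zero.1 h4 with h5 | h5
    · exact absurd (neg_eq_zero.1 h5) h3
    · exact h5

/-! ### adding `det(a, x, y) g` -/

/-- `det(a, x, y)` -/
def det9 (u : R9) : ℝ := u.1 ⬝ᵥ (u.2.1 ⨯₃ u.2.2)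

theorem det9_uB (z : R6) : det9 (uB z) = 0 := by
  unfold det9 uB
  simp only [Prod.smul_mk, map_smul, LinearMap.smul_apply, smul_dotProduct, dotProduct_smul,
    dot_self_cross, smul_zero]

theorem hasFDerivAt_line {f : R9 → ℝ} {u w : R9} {c : ℝ} (hf : DifferentiableAt ℝ f u)
    (h : HasDerivAt (fun t : ℝ => f (u + t • w)) c 0) : fderiv ℝ f u w = c := by
  have hc : HasDerivAt (fun t : ℝ => u + t • w) w 0 := by
    have := ((hasDerivAt_id (0 : ℝ)).smul_const w).const_add u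
    simpa using this
  have h3 : HasFDerivAt f (fderiv ℝ f u) (u + (0 : ℝ) • w) := by
    rw [zero_smul, add_zero]; exact hf.hasFDerivAt
  exact (HasFDerivAt.comp_hasDerivAt (f := fun t : ℝ => u + t • w) 0 h3 hc).unique h

theorem det9_diff : Differentiable ℝ det9 := by
  unfold det9
  simp only [cross_apply, dotProduct, Fin.sum_univ_three, Matrix.cons_val_zero,
    Matrix.cons_val_one, Matrix.cons_val]
  fun_prop

theorem fderiv_det9 (u w : R9) : fderiv ℝ det9 u w =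
    w.1 ⬝ᵥ (u.2.1 ⨯₃ u.2.2) + u.1 ⬝ᵥ (w.2.1 ⨯₃ u.2.2) + u.1 ⬝ᵥ (u.2.1 ⨯₃ w.2.2) := by
  refine hasFDerivAt_line (det9_diff _) ?_
  have e0 : (fun t : ℝ => det9 (u + t • w)) = fun t : ℝ =>
      det9 u + (w.1 ⬝ᵥ (u.2.1 ⨯₃ u.2.2) + u.1 ⬝ᵥ (w.2.1 ⨯₃ u.2.2) + u.1 ⬝ᵥ (u.2.1 ⨯₃ w.2.2)) * t
        + (w.1 ⬝ᵥ (w.2.1 ⨯₃ u.2.2) + w.1 ⬝ᵥ (u.2.1 ⨯₃ w.2.2) + u.1 ⬝ᵥ (w.2.1 ⨯₃ w.2.2)) * t ^ 2
        + (w.1 ⬝ᵥ (w.2.1 ⨯₃ w.2.2)) * t ^ 3 := by
    ext t
    unfold det9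
    simp only [Prod.fst_add, Prod.snd_add, Prod.smul_fst, Prod.smul_snd, map_add, map_smul,
      LinearMap.add_apply, LinearMap.smul_apply, dotProduct_add, add_dotProduct, dotProduct_smul,
      smul_dotProduct, smul_eq_mul]
    ring
  rw [e0]
  have h := (((hasDerivAt_id' (0 : ℝ)).const_mul
    (w.1 ⬝ᵥ (u.2.1 ⨯₃ u.2.2) + u.1 ⬝ᵥ (w.2.1 ⨯₃ u.2.2) + u.1 ⬝ᵥ (u.2.1 ⨯₃ w.2.2))).const_add
      (det9 u)).fun_add
    (((hasDerivAt_id' (0 : ℝ)).fun_pow 2).const_mul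
      (w.1 ⬝ᵥ (w.2.1 ⨯₃ u.2.2) + w.1 ⬝ᵥ (u.2.1 ⨯₃ w.2.2) + u.1 ⬝ᵥ (w.2.1 ⨯₃ w.2.2)))
  have h' := h.fun_add (((hasDerivAt_id' (0 : ℝ)).fun_pow 3).const_mul (w.1 ⬝ᵥ (w.2.1 ⨯₃ w.2.2)))
  exact h'.congr_deriv (by simp)

theorem fderiv_detg_uB {g : R9 → ℝ} (hg : DifferentiableAt ℝ g (uB z)) (w : R9) :
    fderiv ℝ (fun u => det9 u * g u) (uB z) w = g (uB z) * fderiv ℝ det9 (uB z) w := by
  have h := (det9_diff (uB z)).hasFDerivAt.fun_mul hg.hasFDerivAt
  rw [h.fderiv, det9_uB]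
  simp only [_root_.add_apply, _root_.smul_apply, smul_eq_mul, zero_mul, zero_add]

/-- `det(a, x, y) g` does not change `V` -/
theorem detg_comp_uB (g : R9 → ℝ) : (fun w => (fun u => det9 u * g u) (uB w)) = fun _ => 0 := by
  ext z
  simp [det9_uB]

theorem al1B_detg {g : R9 → ℝ} (hg : DifferentiableAt ℝ g (uB z)) :
    al1B (fun u => det9 u * g u) z = 0 := by
  unfold al1B alM
  rw [fderiv_detg_uB hg, fderiv_det9]
  simp only [rot, b1B, uB, Prod.smul_mk, map_smul, map_neg, LinearMap.smul_apply,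
    LinearMap.neg_apply, smul_dotProduct, dotProduct_smul, dotProduct_neg, neg_dotProduct,
    cross_self, dot_self_cross, smul_zero, smul_neg, neg_neg, dotProduct_zero, zero_dotProduct,
    add_zero, neg_zero, mul_zero, smul_eq_mul]

theorem al2B_detg {g : R9 → ℝ} (hg : DifferentiableAt ℝ g (uB z)) :
    al2B (fun u => det9 u * g u) z = 0 := by
  unfold al2B alM
  rw [fderiv_detg_uB hg, fderiv_det9]
  simp only [rot, b2B, uB, Prod.smul_mk, map_smul, map_neg, LinearMap.smul_apply,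
    LinearMap.neg_apply, smul_dotProduct, dotProduct_smul, dotProduct_neg, neg_dotProduct,
    cross_self, dot_self_cross, smul_zero, smul_neg, neg_neg, dotProduct_zero, zero_dotProduct,
    add_zero, neg_zero, mul_zero, smul_eq_mul]

/-- `det(a, x, y) g` changes the rotation rate by `- g |q|` -/
theorem omB_detg {g : R9 → ℝ} (hg : DifferentiableAt ℝ g (uB z)) (hz : z ∈ base) (hU : z ∈ U6) :
    omB (fun u => det9 u * g u) z = -(n3 z.2 * g (uB z)) := by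
  unfold omB
  rw [fderiv_detg_uB hg, fderiv_det9]
  have h1 : z.1 ⬝ᵥ (z.2 ⨯₃ (z.2 ⨯₃ z.1)) = -((z.1 ⬝ᵥ z.1) * (z.2 ⬝ᵥ z.2)) := by
    have h5 := hz.1
    simp only [GE7_cr0, GE7_cr1, GE7_cr2, vec3_dotProduct] at h5 ⊢
    linear_combination (z.1 0 * z.2 0 + z.1 1 * z.2 1 + z.1 2 * z.2 2) * h5
  have h2 := n3_pos' hU.1
  have h3 := n3_pos' hU.2
  have h4 : ((Real.sqrt 2)⁻¹) ^ 2 = 1 / 2 := by
    rw [inv_pow, Real.sq_sqrt (by norm_num)]; norm_num
  simp only [uB, Prod.smul_mk, map_smul, LinearMap.smul_apply, smul_dotProduct, dotProduct_smul,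
    zero_dotProduct, map_zero, dotProduct_zero, add_zero, zero_add, smul_eq_mul, smul_zero]
  rw [h1, ← n3_sq', ← n3_sq']
  field_simp
  have h6 : Real.sqrt 2 ^ 2 = 2 := Real.sq_sqrt (by norm_num)
  rw [h6]
  ring

end wallB

end Pool.Agent.FL.S2.A2B

namespace Pool.Agent.FL.S2

open A2B in
/-- **`a₂` at wall B** -/
theorem a2_B {v : R9 → ℝ} (hv : PhiM v) {z : R6} (hz : z ∈ base) (hz' : z ∈ U6) {r s : ℝ}
    (hrs : r ^ 2 + s ^ 2 = 1) (h : alM v (uB z) (r • b1B z + s • b2B z) = 0) :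
    a2M v (uB z) (r • b1B z + s • b2B z) =
      r * (Real.sqrt 2 * XD (fun w => v (uB w)) (fun w => alM v (uB w) (b1B w)) z
        + omB v z * alM v (uB z) (b2B z)) +
      s * (Real.sqrt 2 * XD (fun w => v (uB w)) (fun w => alM v (uB w) (b2B w)) z
        - omB v z * alM v (uB z) (b1B z)) := by
  rw [alM_add] at h
  rw [a2M_add hv (uB_ne hz'.1), a2M_b1B hv hz hz', a2M_b2B hv hz hz']
  linear_combination ((n3 z.2)⁻¹ ^ 2 *
    fderiv ℝ v (uB z) (rot ((z.2, -(n3 z.1 • z.2), 0) : R9))) * h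

end Pool.Agent.FL.S2
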