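import Pool.Agent.FL.WF

/-!
# MP_f09395_gt, wall formulas: functions linear in `B`

`F z = Λ z (B z)`; the class is closed under the derivative `E` along `[u, ∇v]`, at the walls
`F = 0` and `D_b F = 4 c Λ(b)`.
-/

set_option linter.unusedSectionVars false

noncomputable section

namespace Pool.Agent.FL.Wall

open scoped ContDiff
open Pool.Agent.Helper93.Fin Pool.Agent.helper79.FP Pool.Agent.helper79.FR
open Filter Topology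

variable {𝔸 : Type*} [NormedRing 𝔸] [NormedAlgebra ℝ 𝔸]

/-- `F z = Λ z (B z)` -/
structure BLin {m : Submodule ℝ 𝔸} (B : m → 𝔸) (F : m → ℝ) (Λ : m → 𝔸 →L[ℝ] ℝ) : Prop where
  sm : ContDiffOn ℝ ∞ Λ {0}ᶜ
  eq : ∀ z : m, z ≠ 0 → F z = Λ z (B z)

/-- `Y ↦ [Y, X]` -/
def adR : 𝔸 →L[ℝ] 𝔸 →L[ℝ] 𝔸 :=
  (ContinuousLinearMap.mul ℝ 𝔸).flip - ContinuousLinearMap.mul ℝ 𝔸

theorem adR_apply (X Y : 𝔸) : adR X Y = ⁅Y, X⁆ := by
  simp [adR, Ring.lie_def]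

variable [FiniteDimensional ℝ 𝔸]
variable {g h m : Submodule ℝ 𝔸} {Q : 𝔸 →ₗ[ℝ] 𝔸 →ₗ[ℝ] ℝ} {P : 𝔸 →L[ℝ] m}
variable {φ ψ v w n N f F r : m → ℝ} {h0 : 𝔸} {B : m → 𝔸} {c : m → ℝ} {u b : m} {l : ℝ → ℝ}
variable {Λ : m → 𝔸 →L[ℝ] ℝ}

/-- the coefficient of `E F`: `Λ'(z)(Y) = D_e Λ(z)(Y) + Λ(z)[Y, ∇v(z)]` -/
def LamE {m : Submodule ℝ 𝔸} (Q : 𝔸 →ₗ[ℝ] 𝔸 →ₗ[ℝ] ℝ) (P : 𝔸 →L[ℝ] m) (v : m → ℝ)
    (Λ : m → 𝔸 →L[ℝ] ℝ) (z : m) : 𝔸 →L[ℝ] ℝ :=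
  fderiv ℝ Λ z (ef Q P v z) + (Λ z).comp (adR (gx Q v z : 𝔸))

theorem LamE_apply (z : m) (Y : 𝔸) : LamE Q P v Λ z Y =
    fderiv ℝ Λ z (ef Q P v z) Y + Λ z ⁅Y, (gx Q v z : 𝔸)⁆ := by
  simp [LamE, adR_apply]

theorem LamE_smooth (hN : NData g h m Q P) (hv : ContDiffOn ℝ ∞ v {0}ᶜ)
    (hΛ : ContDiffOn ℝ ∞ Λ {0}ᶜ) : ContDiffOn ℝ ∞ (LamE Q P v Λ) {0}ᶜ := by
  have h1 : ContDiffOn ℝ ∞ (fun z : m => adR ((gx Q v z : m) : 𝔸)) {0}ᶜ :=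
    (adR.comp m.subtypeL).contDiff.comp_contDiffOn (gx_smooth hN hv)
  exact ((smooth_fderiv hΛ).clm_apply (ef_smooth hN hv)).add (hΛ.clm_comp h1)

theorem BLin.smooth (hC : Cas g h m Q P h0 B c) (hF : BLin B F Λ) : ContDiffOn ℝ ∞ F {0}ᶜ :=
  (hF.sm.clm_apply hC.Bsm).congr fun z hz => hF.eq z hz

theorem BLin.dF (hC : Cas g h m Q P h0 B c) (hF : BLin B F Λ) {u : m} (hu : u ≠ 0) (a : m) :
    D1 F u a = fderiv ℝ Λ u a (B u) + Λ u (fderiv ℝ B u a) := by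
  have h1 : HasFDerivAt (fun z => Λ z (B z)) _ u :=
    (dAt hF.sm hu).hasFDerivAt.clm_apply (dAt hC.Bsm hu).hasFDerivAt
  rw [D1_congr' hF.eq hu, D1, h1.fderiv]
  simp only [_root_.add_apply, ContinuousLinearMap.comp_apply, ContinuousLinearMap.flip_apply]
  rw [add_comm]

/-- closed under `E` -/
theorem BLin.dE (hN : NData g h m Q P) (hC : Cas g h m Q P h0 B c) (hφ : PhiN h m P v)
    (hF : BLin B F Λ) : BLin B (EE Q P v F) (LamE Q P v Λ) := by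
  refine ⟨LamE_smooth hN hφ.smooth hF.sm, fun z hz => ?_⟩
  have em := e_mem hN hφ hz (gx_spec hN z)
  have h1 : fderiv ℝ B z (ef Q P v z) = ⁅B z, (gx Q v z : 𝔸)⁆ :=
    hC.Bequi z hz _ (mg hN _) (em ▸ (P ⁅(z : 𝔸), (gx Q v z : 𝔸)⁆).2)
  rw [EE, hF.dF hC hz, h1, LamE_apply]

/-- closed under the derivative along `W`, with coefficient `Df_z[h₀, Y]` -/
def LamW {m : Submodule ℝ 𝔸} (P : 𝔸 →L[ℝ] m) (h0 : 𝔸) (f : m → ℝ) (z : m) : 𝔸 →L[ℝ] ℝ :=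
  (fderiv ℝ f z).comp (P.comp (-adR h0))

theorem LamW_apply (z : m) (Y : 𝔸) : LamW P h0 f z Y = D1 f z (P ⁅h0, Y⁆) := by
  simp only [LamW, ContinuousLinearMap.comp_apply, _root_.neg_apply, adR_apply, Ring.lie_def,
    neg_sub, D1]

theorem BLin_W (hf : ContDiffOn ℝ ∞ f {0}ᶜ) :
    BLin B (fun z => D1 f z (Wt P h0 B z)) (LamW P h0 f) := by
  refine ⟨?_, fun z _ => ?_⟩
  · unfold LamW
    exact (smooth_fderiv hf).clm_comp contDiffOn_const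
  · rw [LamW_apply]; rfl

/-- the function `q` -/
theorem BLin_qc : BLin B (qc Q h0 B) (fun _ => Qc Q h0) :=
  ⟨contDiffOn_const, fun _ _ => rfl⟩

section wall

theorem BLin.wall0 (hN : NData g h m Q P) (hC : Cas g h m Q P h0 B c) (hF : BLin B F Λ)
    (hFl : Flag Q u b) (hw : Q (B u) b = 0) : F u = 0 := by
  rw [hF.eq u (hFl.ne hN), wall_B hC hFl hw, map_zero]

theorem BLin.wallb (hN : NData g h m Q P) (hC : Cas g h m Q P h0 B c) (hW : CasW Q B c)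
    (hF : BLin B F Λ) (hFl : Flag Q u b) (hw : Q (B u) b = 0) :
    D1 F u b = 4 * c u * Λ u (b : 𝔸) := by
  rw [hF.dF hC (hFl.ne hN), wall_B hC hFl hw, map_zero, zero_add, flag_B' hN hC hW hFl, hw,
    zero_smul, sub_zero, map_smul, smul_eq_mul]

theorem BLin.walle (hN : NData g h m Q P) (hC : Cas g h m Q P h0 B c)
    (hF : BLin B F Λ) (hFl : Flag Q u b) (hw : Q (B u) b = 0) {X : 𝔸} (hX : X ∈ g)
    (hm : (P ⁅(u : 𝔸), X⁆ : 𝔸) = ⁅(u : 𝔸), X⁆) : D1 F u (P ⁅(u : 𝔸), X⁆) = 0 := by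
  have hu := hFl.ne hN
  have h0' : B u = 0 := wall_B hC hFl hw
  have h1 : fderiv ℝ B u (P ⁅(u : 𝔸), X⁆) = ⁅B u, X⁆ :=
    hC.Bequi u hu X hX (hm ▸ (P ⁅(u : 𝔸), X⁆).2)
  rw [hF.dF hC hu, h1, h0']
  simp [Ring.lie_def]

/-- **WF2 for functions linear in `B`** -/
theorem WF2_BLin (hN : NData g h m Q P) (hC : Cas g h m Q P h0 B c) (hW : CasW Q B c)
    (hφ : PhiN h m P v) (hFl : Flag Q u b) (hw : Q (B u) b = 0) (ha : al P h0 v u b = 0)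
    (hF : BLin B F Λ) (hr : ContDiffOn ℝ ∞ r {0}ᶜ) (hb : Λ u (b : 𝔸) = 0) :
    T3F Q P (fun z => v z + r z * F z ^ 2) u b =
      T3F Q P v u b - 32 * r u * LamE Q P v Λ u (b : 𝔸) ^ 2 := by
  have hu := hFl.ne hN
  have em := e_mem hN hφ hu (gx_spec hN u)
  have qm := q_mem hN hC hφ hu ha
  have hE := hF.dE hN hC hφ
  have hEE := hE.dE hN hC hφ
  have hc2 := wall_c hC hFl hw
  rw [WF2 hN hφ.smooth hu (hF.smooth hC) hr (hF.wall0 hN hC hFl hw)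
    (by rw [hF.wallb hN hC hW hFl hw, hb, mul_zero])
    (hF.walle hN hC hFl hw (mg hN _) em) (hF.walle hN hC hFl hw (mg hN _) qm)
    (by rw [hEE.wall0 hN hC hFl hw, mul_zero]), hE.wallb hN hC hW hFl hw]
  linear_combination (-32 * r u * LamE Q P v Λ u (b : 𝔸) ^ 2) * hc2

/-- the coefficient only depends on the first derivative of `v` at `u` -/
theorem LamE_congr (h : ∀ a, D1 v u a = D1 w u a) : LamE Q P v Λ u = LamE Q P w Λ u := by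
  have h1 : fderiv ℝ v u = fderiv ℝ w u := ContinuousLinearMap.ext h
  have h2 : gx Q v u = gx Q w u := by unfold gx; rw [h1]
  unfold LamE ef
  rw [h2]

/-! ### the function `F₀ = W v` -/

/-- `a₂(u, b) = D²v([u, ∇v], [h₀, b]) + Dv[h₀, [b, ∇v]]` -/
def a2 {m : Submodule ℝ 𝔸} (Q : 𝔸 →ₗ[ℝ] 𝔸 →ₗ[ℝ] ℝ) (P : 𝔸 →L[ℝ] m) (h0 : 𝔸) (v : m → ℝ)
    (u b : m) : ℝ :=
  D2 v u (P ⁅h0, (b : 𝔸)⁆) (ef Q P v u) + D1 v u (P ⁅h0, ⁅(b : 𝔸), (gx Q v u : 𝔸)⁆⁆)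

theorem LamE_LamW (hf : ContDiffOn ℝ ∞ f {0}ᶜ) (hu : u ≠ 0) (Y : 𝔸) :
    LamE Q P v (LamW P h0 f) u Y = D2 f u (P ⁅h0, Y⁆) (ef Q P v u) +
      D1 f u (P ⁅h0, ⁅Y, (gx Q v u : 𝔸)⁆⁆) := by
  rw [LamE_apply, LamW_apply]
  congr 1
  have h1 : HasFDerivAt (fun z => (fderiv ℝ f z).comp (P.comp (-adR h0)))
      _ u := (dAt (smooth_fderiv hf) hu).hasFDerivAt.clm_comp (hasFDerivAt_const _ u)
  have h2 : (LamW P h0 f : m → 𝔸 →L[ℝ] ℝ) = fun z => (fderiv ℝ f z).comp (P.comp (-adR h0)) := rfl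
  rw [h2, h1.fderiv, D2_eq' hf hu]
  simp [adR_apply, Ring.lie_def]

theorem BLin_aW (hv : ContDiffOn ℝ ∞ v {0}ᶜ) : BLin B (aW P h0 B v 1) (LamW P h0 v) :=
  BLin_W hv

/-- **WF2 for `F₀ = W v`**: the third order form decreases by `32 r a₂²` -/
theorem WF2_F0 (hN : NData g h m Q P) (hC : Cas g h m Q P h0 B c) (hW : CasW Q B c)
    (hφ : PhiN h m P v) (hFl : Flag Q u b) (hw : Q (B u) b = 0) (ha : al P h0 v u b = 0)
    (hr : ContDiffOn ℝ ∞ r {0}ᶜ) :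
    T3F Q P (fun z => v z + r z * aW P h0 B v 1 z ^ 2) u b =
      T3F Q P v u b - 32 * r u * a2 Q P h0 v u b ^ 2 := by
  rw [WF2_BLin hN hC hW hφ hFl hw ha (BLin_aW hφ.smooth) hr (by rw [LamW_apply]; exact ha),
    LamE_LamW hφ.smooth (hFl.ne hN)]
  rfl

/-- `E q = W v` -/
theorem EE_qc (hN : NData g h m Q P) (hC : Cas g h m Q P h0 B c) (hφ : PhiN h m P v) {z : m}
    (hz : z ≠ 0) : EE Q P v (qc Q h0 B) z = aW P h0 B v 1 z := by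
  have h1 := ((BLin_qc (Q := Q) (h0 := h0) (B := B)).dE hN hC hφ).eq z hz
  have h2 : aW P h0 B v 1 z = D1 v z (Wt P h0 B z) := rfl
  rw [h1, LamE_apply, h2, ← gx_spec hN, Wt_coe hN hC, hasFDerivAt_const _ _ |>.fderiv]
  simp only [_root_.zero_apply, zero_add, Qc_apply]
  rw [← hN.Qinv, hN.Qsymm]

end wall

end Pool.Agent.FL.Wall
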