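import Pool.Agent.FL.AB8a
import Pool.Agent.FL.BLin

/-!
# MP_f09395_gt, module AB8: abstract assembly of space (2)

`φ = v - C c^(2N) ζ (aW v 1)² / |u|²`, then theorem EC2.
-/

set_option linter.unusedSectionVars false

noncomputable section

namespace Pool.Agent.FL

open scoped ContDiff
open Pool.Agent.Helper93.Fin Pool.Agent.helper79.FP Pool.Agent.helper79.FR Pool.Agent.FL.Wall
open Filter Topology

variable {𝔸 : Type*} [NormedRing 𝔸] [NormedAlgebra ℝ 𝔸] [FiniteDimensional ℝ 𝔸]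
variable {g h m : Submodule ℝ 𝔸} {Q : 𝔸 →ₗ[ℝ] 𝔸 →ₗ[ℝ] ℝ} {P : 𝔸 →L[ℝ] m} {v v0 n f : m → ℝ}
variable {h0 : 𝔸} {B : m → 𝔸} {c : m → ℝ} {H : Subgroup 𝔸ˣ} {u b : m} {l : ℝ → ℝ}

/-- the coefficient of the square -/
def AB8r (m : Submodule ℝ 𝔸) (Q : 𝔸 →ₗ[ℝ] 𝔸 →ₗ[ℝ] ℝ) (c ζ : m → ℝ) (C : ℝ) (N : ℕ) (z : m) : ℝ :=
  -(C * c z ^ (2 * N) * ζ z) * (BN m Q z z)⁻¹

/-- the function `φ` -/
def AB8f (P : 𝔸 →L[ℝ] m) (Q : 𝔸 →ₗ[ℝ] 𝔸 →ₗ[ℝ] ℝ) (h0 : 𝔸) (B : m → 𝔸) (c ζ v : m → ℝ) (C : ℝ)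
    (N : ℕ) (z : m) : ℝ :=
  v z + AB8r m Q c ζ C N z * aW P h0 B v 1 z ^ 2

theorem AB8r_smooth (hN : NData g h m Q P) (hC : Cas g h m Q P h0 B c) {ζ : m → ℝ}
    (hζ : Inv0 H ζ) (C : ℝ) (N : ℕ) : ContDiffOn ℝ ∞ (AB8r m Q c ζ C N) {0}ᶜ :=
  ((contDiffOn_const.mul (hC.csm.pow (2 * N))).mul hζ.smooth).neg.mul (BNinv_smooth hN)

theorem AB8_F0_phi (hN : NData g h m Q P) (hC : Cas g h m Q P h0 B c) (hG : GrpD H h m Q h0 B c)
    (hv : PhiN h m P v) (hvH : InvH H v) (j : ℕ) :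
    PhiN h m P (aW P h0 B v j) ∧ InvH H (aW P h0 B v j) := by
  have h1 := aW_smooth hC hv.smooth j
  have h2 := aW_inv hN hC hG hv.smooth hvH j
  exact ⟨⟨h1, aW_hom hC hv.smooth hv.hom j, inv_of_InvH hN hG h1 h2⟩, h2⟩

theorem AB8f_phi (hN : NData g h m Q P) (hC : Cas g h m Q P h0 B c) (hG : GrpD H h m Q h0 B c)
    (hv : PhiN h m P v) (hvH : InvH H v) {ζ : m → ℝ} (hζ : Inv0 H ζ) (C : ℝ) (N : ℕ) :
    PhiN h m P (AB8f P Q h0 B c ζ v C N) ∧ InvH H (AB8f P Q h0 B c ζ v C N) := by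
  obtain ⟨h1, h2⟩ := AB8_F0_phi hN hC hG hv hvH 1
  have h3 : Inv0 H (fun z : m => -(C * c z ^ (2 * N) * ζ z)) := by
    have h4 : Inv0 H (fun z : m => c z ^ (2 * N)) := by
      have := AB8_lc_inv0 (H := H) hC hG (l := fun t : ℝ => t ^ (2 * N)) (contDiff_id.pow _)
      exact this
    have h5 := (Inv0.const H m (-C)).mul (h4.mul hζ)
    have h6 : (fun z : m => -(C * c z ^ (2 * N) * ζ z)) =
        fun z : m => -C * (c z ^ (2 * N) * ζ z) := by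
      funext z; ring
    rw [h6]; exact h5
  have h7 := Inv0.of_phiN hN hG h1 h2
  obtain ⟨h8, h9⟩ := phiN_mul hN hG (h3.mul h7) h1 h2
  have h10 : AB8f P Q h0 B c ζ v C N = fun z => v z +
      (-(C * c z ^ (2 * N) * ζ z) * ((BN m Q z z)⁻¹ * aW P h0 B v 1 z)) * aW P h0 B v 1 z := by
    funext z; unfold AB8f AB8r; ring
  rw [h10]
  exact ⟨phiN_add hv h8, invH_add hvH h9⟩

theorem AB8_perp (hN : NData g h m Q P) (hC : Cas g h m Q P h0 B c) (hF : Flag Q u b) :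
    Q (u : 𝔸) (P ⁅h0, (b : 𝔸)⁆ : m) = 0 := by
  rw [h0b_mem hN hC, skew h0, map_neg, ← hN.Qinv, hF.2.2.2]
  simp

/-- the coefficient has `al = 0` on flags -/
theorem AB8r_al (hN : NData g h m Q P) (hC : Cas g h m Q P h0 B c) {ζ : m → ℝ} (hζ : Inv0 H ζ)
    (hζal : ∀ u b : m, Flag Q u b → al P h0 ζ u b = 0) (C : ℝ) (N : ℕ) (hF : Flag Q u b) :
    D1 (AB8r m Q c ζ C N) u (P ⁅h0, (b : 𝔸)⁆) = 0 := by
  have hu := hF.ne hN
  have k1 : ContDiffOn ℝ ∞ (fun z : m => c z ^ (2 * N)) {0}ᶜ := hC.csm.pow _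
  have k2 : ContDiffOn ℝ ∞ (fun z : m => -C * (c z ^ (2 * N) * ζ z)) {0}ᶜ :=
    contDiffOn_const.mul (k1.mul hζ.smooth)
  have k3 : D1 (fun z : m => c z ^ (2 * N)) u (P ⁅h0, (b : 𝔸)⁆) = 0 := by
    have h1 := comp_D1 (l := fun t : ℝ => t ^ (2 * N)) (contDiff_id.pow _) hC.csm hu
      (P ⁅h0, (b : 𝔸)⁆)
    rw [flag_c0 hN hC hF, mul_zero] at h1
    exact h1
  have k4 : D1 (fun z : m => c z ^ (2 * N) * ζ z) u (P ⁅h0, (b : 𝔸)⁆) = 0 := by
    have h1 := hζal u b hF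
    unfold al at h1
    rw [D1_mul k1 hζ.smooth hu, k3, h1]
    ring
  have k5 : D1 (fun z : m => -C * (c z ^ (2 * N) * ζ z)) u (P ⁅h0, (b : 𝔸)⁆) = 0 := by
    have h1 : D1 (fun z : m => -C * (c z ^ (2 * N) * ζ z)) u (P ⁅h0, (b : 𝔸)⁆) =
        -C * D1 (fun z : m => c z ^ (2 * N) * ζ z) u (P ⁅h0, (b : 𝔸)⁆) :=
      fd_cmul (-C) (k1.mul hζ.smooth) hu _
    rw [h1, k4, mul_zero]
  have k6 : AB8r m Q c ζ C N =
      fun z : m => (-C * (c z ^ (2 * N) * ζ z)) * (BN m Q z z)⁻¹ := by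
    funext z; unfold AB8r; ring
  have k7 : D1 (fun z : m => (BN m Q z z)⁻¹) u (P ⁅h0, (b : 𝔸)⁆) = 0 :=
    fd_BNinv hN hu (AB8_perp hN hC hF)
  rw [k6, D1_mul k2 (BNinv_smooth hN) hu, k5, k7]
  ring

theorem AB8r_val (hF : Flag Q u b) (c ζ : m → ℝ) (C : ℝ) (N : ℕ) :
    AB8r m Q c ζ C N u = -(C * c u ^ (2 * N) * ζ u) := by
  unfold AB8r
  rw [BN_apply, hF.1, inv_one, mul_one]

theorem AB8_F0 (hN : NData g h m Q P) (hC : Cas g h m Q P h0 B c) (hF : Flag Q u b) (v : m → ℝ) :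
    aW P h0 B v 1 u = Q (B u) b * al P h0 v u b :=
  flag_D1W hN hC hF v

/-- `al φ = al v (1 - 2 C c^(2N) ζ w al F₀)` on flags -/
theorem AB8f_al (hN : NData g h m Q P) (hC : Cas g h m Q P h0 B c)
    (hv : PhiN h m P v) {ζ : m → ℝ} (hζ : Inv0 H ζ)
    (hζal : ∀ u b : m, Flag Q u b → al P h0 ζ u b = 0) (C : ℝ) (N : ℕ) (hF : Flag Q u b) :
    al P h0 (AB8f P Q h0 B c ζ v C N) u b =
      al P h0 v u b * (1 - 2 * (C * c u ^ (2 * N) * ζ u) * Q (B u) b *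
        al P h0 (aW P h0 B v 1) u b) := by
  have hu := hF.ne hN
  have hFs := aW_smooth hC hv.smooth 1
  have hr := AB8r_smooth (H := H) hN hC hζ C N
  have hG : ContDiffOn ℝ ∞ (fun z => (1 : ℝ) * aW P h0 B v 1 z ^ 2) {0}ᶜ := sq_smooth 1 hFs
  have h1 : AB8f P Q h0 B c ζ v C N =
      fun z => v z + AB8r m Q c ζ C N z * (1 * aW P h0 B v 1 z ^ 2) := by
    funext z; unfold AB8f; ring
  unfold al
  rw [h1, D1_sum hv.smooth (hr.mul hG) hu, D1_mul hr hG hu, AB8r_al hN hC hζ hζal C N hF,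
    sq_D1 1 hFs hu, AB8_F0 hN hC hF, AB8r_val hF]
  unfold al
  ring

/-- `D_b F₀ = 4 c al v` on flags if `al' v = 0` -/
theorem AB8_DbF0 (hN : NData g h m Q P) (hC : Cas g h m Q P h0 B c) (hW : CasW Q B c)
    (hv : PhiN h m P v) (hF : Flag Q u b) (ha' : al' P h0 v u b = 0) :
    D1 (aW P h0 B v 1) u b = 4 * c u * al P h0 v u b := by
  have hu := hF.ne hN
  have hB : BLin B (aW P h0 B v 1) (LamW P h0 v) := BLin_W hv.smooth
  rw [hB.dF hC hu, flag_B' hN hC hW hF, map_sub, map_smul, map_smul, LamW_apply, LamW_apply,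
    hv.inv h0 hC.mem u hu]
  have h1 : fderiv ℝ (LamW P h0 v) u b (B u) = Q (B u) b * al' P h0 v u b := by
    have h2 : ∀ Y : 𝔸, fderiv ℝ (LamW P h0 v) u b Y = D2 v u (P ⁅h0, Y⁆) b := by
      intro Y
      have h3 : HasFDerivAt (fun z => (ContinuousLinearMap.apply ℝ ℝ Y) (LamW P h0 v z))
          ((ContinuousLinearMap.apply ℝ ℝ Y).comp (fderiv ℝ (LamW P h0 v) u)) u :=
        (ContinuousLinearMap.apply ℝ ℝ Y).hasFDerivAt.comp u (dAt hB.sm hu).hasFDerivAt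
      have h4 : (fun z => (ContinuousLinearMap.apply ℝ ℝ Y) (LamW P h0 v z)) =
          fun z => D1 v z (P ⁅h0, Y⁆) := by
        funext z
        rw [ContinuousLinearMap.apply_apply, LamW_apply]
      rw [h4] at h3
      have h5 := h3.fderiv
      unfold D2
      rw [h5]
      rfl
    rw [h2]
    have h6 := flag_Wt hN hC hF
    unfold Wt at h6
    rw [h6]
    have h7 : D2 v u ((Q (B u) b) • P ⁅h0, (b : 𝔸)⁆) b =
        Q (B u) b * D2 v u (P ⁅h0, (b : 𝔸)⁆) b :=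
      D2_smul hv.smooth hu _ _ _
    rw [h7, D2_symm hv.smooth hu]
    rfl
  rw [h1, ha', smul_zero]
  unfold al
  simp

/-- `al' φ = O(al v)` on flags -/
theorem AB8f_al' (hN : NData g h m Q P) (hC : Cas g h m Q P h0 B c) (hW : CasW Q B c)
    (hv : PhiN h m P v) (hal' : ∀ u b : m, Flag Q u b → al' P h0 v u b = 0)
    {ζ : m → ℝ} (hζ : Inv0 H ζ) (hζal : ∀ u b : m, Flag Q u b → al P h0 ζ u b = 0) (C : ℝ)
    (N : ℕ) : ∃ M, 0 ≤ M ∧ ∀ u b : m, Flag Q u b →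
      |al' P h0 (AB8f P Q h0 B c ζ v C N) u b| ≤ M * |al P h0 v u b| := by
  have hS : ∀ p ∈ (FlagSet Q : Set (m × m)), p.1 ≠ 0 := fun p hp => flag_ne hN hp
  have hFc : IsCompact (FlagSet Q : Set (m × m)) := flagSet_compact hN
  have hFs := aW_smooth hC hv.smooth 1
  have hr := AB8r_smooth (H := H) hN hC hζ C N
  obtain ⟨R, hR⟩ : ∃ R : m × m → ℝ, R = fun p =>
      AB8r m Q c ζ C N p.1 * (2 * (4 * c p.1 * al P h0 (aW P h0 B v 1) p.1 p.2 +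
        Q (B p.1) p.2 * al' P h0 (aW P h0 B v 1) p.1 p.2)) +
      2 * Q (B p.1) p.2 * D1 (AB8r m Q c ζ C N) p.1 p.2 * al P h0 (aW P h0 B v 1) p.1 p.2 +
      Q (B p.1) p.2 ^ 2 * al P h0 v p.1 p.2 * al' P h0 (AB8r m Q c ζ C N) p.1 p.2 := ⟨_, rfl⟩
  have hRc : ContinuousOn R (FlagSet Q : Set (m × m)) := by
    rw [hR]
    have c1 := cont_fst hr hS
    have c2 := cont_fst hC.csm hS
    have c3 := al_cont (P := P) (h0 := h0) hFs hS
    have c4 := al'_cont (P := P) (h0 := h0) hFs hS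
    have c5 := w_cont hC hS
    have c6 : ContinuousOn (fun p : m × m => D1 (AB8r m Q c ζ C N) p.1 p.2)
        (FlagSet Q : Set (m × m)) :=
      contOn_of_tendsto hS fun p hp => D1_tendsto hr hp (continuous_fst.tendsto p)
        (continuous_snd.tendsto p)
    have c7 := al'_cont (P := P) (h0 := h0) hr hS
    have c8 := al_cont (P := P) (h0 := h0) hv.smooth hS
    exact ((c1.mul (continuousOn_const.mul (((continuousOn_const.mul c2).mul c3).add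
      (c5.mul c4)))).add (((continuousOn_const.mul c5).mul c6).mul c3)).add
      (((c5.pow 2).mul c8).mul c7)
  obtain ⟨M, hM⟩ := hFc.exists_bound_of_continuousOn hRc
  refine ⟨|M|, abs_nonneg M, fun u b hF => ?_⟩
  have hu := hF.ne hN
  have hG : ContDiffOn ℝ ∞ (fun z => (1 : ℝ) * aW P h0 B v 1 z ^ 2) {0}ᶜ := sq_smooth 1 hFs
  have h1 : AB8f P Q h0 B c ζ v C N =
      fun z => v z + AB8r m Q c ζ C N z * (1 * aW P h0 B v 1 z ^ 2) := by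
    funext z; unfold AB8f; ring
  have h2 : al' P h0 (AB8f P Q h0 B c ζ v C N) u b = al P h0 v u b * R (u, b) := by
    have h3 := hal' u b hF
    unfold al' at h3 ⊢
    rw [h1, D2_sum hv.smooth (hr.mul hG) hu, h3, D2_mul hr hG hu, sq_D2 1 hFs hu,
      AB8r_al hN hC hζ hζal C N hF, sq_D1 1 hFs hu, sq_D1 1 hFs hu,
      AB8_DbF0 hN hC hW hv hF (hal' u b hF), AB8_F0 hN hC hF, hR]
    unfold al al'
    ring
  rw [h2, abs_mul, mul_comm]
  have h4 := hM (u, b) hF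
  rw [Real.norm_eq_abs] at h4
  exact mul_le_mul_of_nonneg_right (h4.trans (le_abs_self M)) (abs_nonneg _)

/-- `|w| c^(2N) → 0` uniformly -/
theorem AB8_pow {c w : ℝ} (h : c ^ 2 + w ^ 2 = 1) (N : ℕ) :
    (|w| * c ^ (2 * N)) ^ 2 * (4 * N) ≤ 1 := by
  have h1 : w ^ 2 = 1 - c ^ 2 := by linarith
  have h2 : 0 ≤ w ^ 2 := sq_nonneg w
  have h3 : 0 ≤ c ^ 2 := sq_nonneg c
  -- Bernoulli: `(1 + w²)^N ≥ 1 + N w²`, `c² (1 + w²) ≤ 1`
  have h4 : 1 + (N : ℝ) * w ^ 2 ≤ (1 + w ^ 2) ^ N :=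
    one_add_mul_le_pow (by linarith) N
  have h5 : (c ^ 2) ^ N * (1 + w ^ 2) ^ N ≤ 1 := by
    rw [← mul_pow]
    refine pow_le_one₀ (by positivity) ?_
    nlinarith
  have h6 : (c ^ 2) ^ N * (1 + (N : ℝ) * w ^ 2) ≤ 1 :=
    (mul_le_mul_of_nonneg_left h4 (by positivity)).trans h5
  obtain ⟨x, hx⟩ : ∃ x, x = (c ^ 2) ^ N := ⟨_, rfl⟩
  obtain ⟨y, hy⟩ : ∃ y, y = (N : ℝ) * w ^ 2 := ⟨_, rfl⟩
  have hx0 : 0 ≤ x := by rw [hx]; positivity
  have hy0 : 0 ≤ y := by rw [hy]; positivity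
  rw [← hx, ← hy] at h6
  have h7 : (|w| * c ^ (2 * N)) ^ 2 * (4 * N) = x ^ 2 * (4 * y) := by
    rw [mul_pow, sq_abs, pow_mul, ← hx, hy]; ring
  rw [h7]
  have h8 : x ^ 2 * (1 + y) ^ 2 ≤ 1 := by
    rw [← mul_pow]
    exact pow_le_one₀ (by positivity) h6
  nlinarith [sq_nonneg (1 - y), mul_nonneg (sq_nonneg x) (sq_nonneg (1 - y))]

/-- **abstract assembly** -/
theorem AB8 (hN : NData g h m Q P) (hC : Cas g h m Q P h0 B c) (hG : GrpD H h m Q h0 B c)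
    (hW : CasW Q B c) (hv0 : PhiN h m P v0) (hv0H : InvH H v0) (hv : PhiN h m P v)
    (hvH : InvH H v) (hal : ∀ u b : m, Flag Q u b → al P h0 v u b = al P h0 v0 u b)
    (hal' : ∀ u b : m, Flag Q u b → al' P h0 v u b = 0) {ζ : m → ℝ} (hζ : Inv0 H ζ)
    (hζal : ∀ u b : m, Flag Q u b → al P h0 ζ u b = 0) (hζ0 : ∀ u : m, u ≠ 0 → 0 ≤ ζ u)
    (h2 : ∀ u b : m, Flag Q u b → Q (B u) b = 0 → al P h0 v u b = 0 →
      (ζ u = 0 ∨ a2 Q P h0 v u b = 0) → 0 < T3F Q P v u b)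
    (h3 : ∀ u b : m, Flag Q u b → Q (B u) b ≠ 0 → al P h0 v u b = 0 →
      (∃ j, 1 ≤ j ∧ aW P h0 B v0 j u ≠ 0) ∨ (0 < T3F Q P v u b ∧ ζ =ᶠ[𝓝 u] 0)) :
    ∃ ψ : m → ℝ, PhiN h m P ψ ∧ InvH H ψ ∧ T3Pos h Q P ψ := by
  have hS : ∀ p ∈ (FlagSet Q : Set (m × m)), p.1 ≠ 0 := fun p hp => flag_ne hN hp
  have hFc : IsCompact (FlagSet Q : Set (m × m)) := flagSet_compact hN
  have hFs := aW_smooth hC hv.smooth 1
  -- bounds
  obtain ⟨A, hA⟩ := hFc.exists_bound_of_continuousOn (al_cont (P := P) (h0 := h0) hFs hS)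
  obtain ⟨Z, hZ⟩ := hFc.exists_bound_of_continuousOn (cont_fst hζ.smooth hS)
  -- the compact set of wall flags with `al = 0`
  obtain ⟨K0, hK0d⟩ : ∃ K0 : Set (m × m), K0 = (FlagSet Q : Set (m × m)) ∩
      (fun p : m × m => al P h0 v p.1 p.2) ⁻¹' {0} := ⟨_, rfl⟩
  have hK0 : IsCompact K0 := by
    rw [hK0d]
    exact compact_sub hN (al_cont (P := P) (h0 := h0) hv.smooth hS) isClosed_singleton
  have hS0 : ∀ p ∈ K0, p.1 ≠ 0 := fun p hp => hS p (by rw [hK0d] at hp; exact hp.1)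
  obtain ⟨K1, hK1d⟩ : ∃ K1 : Set (m × m), K1 = K0 ∩
      (fun p : m × m => Q (B p.1) p.2) ⁻¹' {0} := ⟨_, rfl⟩
  have hK1 : IsCompact K1 := by
    rw [hK1d]
    exact hK0.of_isClosed_subset ((w_cont hC hS0).preimage_isClosed_of_isClosed
      hK0.isClosed isClosed_singleton) Set.inter_subset_left
  have hS1 : ∀ p ∈ K1, p.1 ≠ 0 := fun p hp => hS0 p (by rw [hK1d] at hp; exact hp.1)
  have hm0 : ∀ u b : m, (u, b) ∈ K0 ↔ Flag Q u b ∧ al P h0 v u b = 0 := by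
    intro u b; rw [hK0d]; exact Iff.rfl
  have hm1 : ∀ u b : m, (u, b) ∈ K1 ↔ (u, b) ∈ K0 ∧ Q (B u) b = 0 := by
    intro u b; rw [hK1d]; exact Iff.rfl
  have ha2 : ContinuousOn (fun p : m × m => a2 Q P h0 v p.1 p.2) K1 := by
    have h4 : ContinuousOn (fun p : m × m => LamE Q P v (LamW P h0 v) p.1 (p.2 : 𝔸)) K1 :=
      (cont_fst (LamE_smooth hN hv.smooth (BLin_W (B := B) hv.smooth).sm) hS1).clm_apply
        (continuous_subtype_val.comp continuous_snd).continuousOn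
    refine h4.congr fun p hp => ?_
    exact (LamE_LamW hv.smooth (hS1 p hp) _).symm
  have hsq : ContinuousOn (fun p : m × m => √(ζ p.1) * a2 Q P h0 v p.1 p.2) K1 :=
    (cont_fst hζ.smooth hS1).sqrt.mul ha2
  obtain ⟨C, hC0, hCp⟩ := pos_add_sq hK1 (f := fun p : m × m => T3F Q P v p.1 p.2)
    (T3F_cont hN hv.smooth hS1) hsq (by
      rintro ⟨u, b⟩ hp hz
      obtain ⟨hp0, hw⟩ := (hm1 u b).1 hp
      obtain ⟨hF, ha⟩ := (hm0 u b).1 hp0
      refine h2 u b hF hw ha ?_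
      rcases mul_eq_zero.1 hz with h5 | h5
      · exact Or.inl ((Real.sqrt_eq_zero (hζ0 u (hF.ne hN))).1 h5)
      · exact Or.inr h5)
  -- the power
  obtain ⟨D, hD⟩ : ∃ D, D = 2 * C * |Z| * |A| := ⟨_, rfl⟩
  have hD0 : 0 ≤ D := by rw [hD]; positivity
  obtain ⟨N, hND⟩ := exists_nat_ge (D ^ 2)
  obtain ⟨φ, hφd⟩ : ∃ φ : m → ℝ, φ = AB8f P Q h0 B c ζ v C N := ⟨_, rfl⟩
  have hθ : ∀ u b : m, Flag Q u b → ∃ θ : ℝ, |θ| ≤ 1 / 2 ∧
      al P h0 φ u b = al P h0 v u b * (1 - θ) := by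
    intro u b hF
    refine ⟨2 * (C * c u ^ (2 * N) * ζ u) * Q (B u) b * al P h0 (aW P h0 B v 1) u b, ?_, ?_⟩
    · have h4 := AB8_pow (hC.cw u b hF) N
      have h5 := hA (u, b) hF
      have h6 := hZ (u, b) hF
      rw [Real.norm_eq_abs] at h5 h6
      have h7 : 0 ≤ c u ^ (2 * N) := by rw [pow_mul]; positivity
      obtain ⟨x, hx⟩ : ∃ x, x = |Q (B u) b| * c u ^ (2 * N) := ⟨_, rfl⟩
      have hx0 : 0 ≤ x := by rw [hx]; positivity
      rw [← hx] at h4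
      have h8 : 2 * (C * c u ^ (2 * N) * ζ u) * Q (B u) b * al P h0 (aW P h0 B v 1) u b =
          2 * C * ζ u * al P h0 (aW P h0 B v 1) u b * (Q (B u) b * c u ^ (2 * N)) := by ring
      have h9 : |Q (B u) b * c u ^ (2 * N)| = x := by
        rw [abs_mul, abs_of_nonneg h7, hx]
      rw [h8, abs_mul, h9, abs_mul, abs_mul, abs_mul, abs_of_pos hC0,
        abs_of_pos (two_pos : (0 : ℝ) < 2)]
      have h10 : 2 * C * |ζ u| * |al P h0 (aW P h0 B v 1) u b| ≤ D := by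
        rw [hD]
        have h11 : |ζ u| ≤ |Z| := h6.trans (le_abs_self Z)
        have h12 : |al P h0 (aW P h0 B v 1) u b| ≤ |A| := h5.trans (le_abs_self A)
        exact mul_le_mul (mul_le_mul_of_nonneg_left h11 (by positivity)) h12 (abs_nonneg _)
          (by positivity)
      have h13 : 2 * C * |ζ u| * |al P h0 (aW P h0 B v 1) u b| * x ≤ D * x :=
        mul_le_mul_of_nonneg_right h10 hx0
      have h14 : (2 * (D * x)) ^ 2 ≤ 1 := by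
        have h15 : x ^ 2 * D ^ 2 ≤ x ^ 2 * N := mul_le_mul_of_nonneg_left hND (sq_nonneg x)
        nlinarith
      have h16 : 2 * (D * x) ≤ 1 := by
        nlinarith [mul_nonneg hD0 hx0]
      linarith
    · rw [hφd]; exact AB8f_al hN hC hv hζ hζal C N hF
  obtain ⟨M, hM0, hM⟩ := AB8f_al' hN hC hW hv hal' hζ hζal C N
  have hiff : ∀ u b : m, Flag Q u b → (al P h0 φ u b = 0 ↔ al P h0 v u b = 0) := by
    intro u b hF
    obtain ⟨θ, h4, h5⟩ := hθ u b hF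
    have h6 : (1 - θ) ≠ 0 := by
      have := (abs_le.1 h4).2
      intro h7; linarith
    rw [h5, mul_eq_zero]
    exact ⟨fun h => h.resolve_right h6, Or.inl⟩
  have hr := AB8r_smooth (H := H) hN hC hζ C N
  obtain ⟨hφ, hφH⟩ := AB8f_phi hN hC hG hv hvH hζ C N
  rw [← hφd] at hφ hφH hM
  refine Pool.Agent.helper53.FL.EC2 hN hC hG hv0 hv0H hφ hφH (M := 2 * M) ?_ ?_ ?_ ?_
  · intro u b hF
    rw [hiff u b hF, hal u b hF]
  · intro u b hF
    obtain ⟨θ, h4, h5⟩ := hθ u b hF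
    have h6 := hM u b hF
    have h7 : |al P h0 v u b| ≤ 2 * |al P h0 φ u b| := by
      rw [h5, abs_mul]
      have h8 : 1 / 2 ≤ |1 - θ| := by
        have h9 := (abs_le.1 h4).2
        exact le_trans (by linarith) (le_abs_self (1 - θ))
      nlinarith [abs_nonneg (al P h0 v u b)]
    calc |al' P h0 φ u b| ≤ M * |al P h0 v u b| := h6
      _ ≤ M * (2 * |al P h0 φ u b|) := mul_le_mul_of_nonneg_left h7 hM0
      _ = 2 * M * |al P h0 φ u b| := by ring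
  · intro u b hF hw ha
    have ha' := (hiff u b hF).1 ha
    have h4 := hCp (u, b) ((hm1 u b).2 ⟨(hm0 u b).2 ⟨hF, ha'⟩, hw⟩)
    have hc2 := wall_c hC hF hw
    have h5 : T3F Q P φ u b = T3F Q P v u b - 32 * AB8r m Q c ζ C N u *
        a2 Q P h0 v u b ^ 2 := by
      rw [hφd]
      exact WF2_F0 hN hC hW hv hF hw ha' hr
    have h6 : c u ^ (2 * N) = 1 := by rw [pow_mul, hc2, one_pow]
    rw [h5, AB8r_val hF, h6]
    have h7 : 0 ≤ ζ u := hζ0 u (hF.ne hN)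
    rw [mul_pow, Real.sq_sqrt h7] at h4
    have h8 : 0 ≤ C * (ζ u * a2 Q P h0 v u b ^ 2) := by positivity
    have h9 : T3F Q P v u b - 32 * -(C * 1 * ζ u) * a2 Q P h0 v u b ^ 2 =
        (T3F Q P v u b + C * (ζ u * a2 Q P h0 v u b ^ 2)) +
          31 * (C * (ζ u * a2 Q P h0 v u b ^ 2)) := by ring
    rw [h9]
    linarith
  · intro u b hF hw ha
    have ha' := (hiff u b hF).1 ha
    rcases h3 u b hF hw ha' with h4 | ⟨h4, h5⟩
    · exact Or.inr h4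
    · left
      have h6 : φ =ᶠ[𝓝 u] v := by
        filter_upwards [h5] with z hz
        have hz' : ζ z = 0 := hz
        rw [hφd]
        unfold AB8f AB8r
        rw [hz']
        ring
      rw [T3F_congr hN h6]
      exact h4

end Pool.Agent.FL
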