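import Pool.Agent.helper79.FR.StepB

/-!
# MP_f09395_gt: invariant functions of degree zero (core definitions)

`Inv0 H s`: smooth outside the origin, homogeneous of degree zero, invariant; `mulN Q f = |u|² f`.
-/

set_option linter.unusedSectionVars false

noncomputable section

namespace Pool.Agent.FL

open scoped ContDiff
open Pool.Agent.Helper93.Fin Pool.Agent.helper79.FP Pool.Agent.helper79.FR
open Filter Topology Module

variable {𝔸 : Type*} [NormedRing 𝔸] [NormedAlgebra ℝ 𝔸] [FiniteDimensional ℝ 𝔸]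
variable {g h m : Submodule ℝ 𝔸} {Q : 𝔸 →ₗ[ℝ] 𝔸 →ₗ[ℝ] ℝ} {P : 𝔸 →L[ℝ] m} {v : m → ℝ}
variable {h0 : 𝔸} {B : m → 𝔸} {c : m → ℝ} {H : Subgroup 𝔸ˣ}

/-- invariant function of degree zero, smooth outside the origin -/
structure Inv0 (H : Subgroup 𝔸ˣ) {m : Submodule ℝ 𝔸} (s : m → ℝ) : Prop where
  smooth : ContDiffOn ℝ ∞ s {0}ᶜ
  hom : ∀ (r : ℝ) (u : m), r ≠ 0 → s (r • u) = s u
  inv : InvH H s

/-- `|u|² f` -/
def mulN {m : Submodule ℝ 𝔸} (Q : 𝔸 →ₗ[ℝ] 𝔸 →ₗ[ℝ] ℝ) (f : m → ℝ) (u : m) : ℝ :=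
  BN m Q u u * f u

theorem Inv0.const (H : Subgroup 𝔸ˣ) (m : Submodule ℝ 𝔸) (a : ℝ) : Inv0 H (fun _ : m => a) :=
  ⟨contDiffOn_const, fun _ _ _ => rfl, fun _ _ _ _ _ => rfl⟩

theorem Inv0.add {s t : m → ℝ} (hs : Inv0 H s) (ht : Inv0 H t) : Inv0 H (fun u => s u + t u) :=
  ⟨hs.smooth.add ht.smooth, fun r u hr => by simp only [hs.hom r u hr, ht.hom r u hr],
    fun k hk u u' huu => by simp only [hs.inv k hk u u' huu, ht.inv k hk u u' huu]⟩

theorem Inv0.mul {s t : m → ℝ} (hs : Inv0 H s) (ht : Inv0 H t) : Inv0 H (fun u => s u * t u) :=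
  ⟨hs.smooth.mul ht.smooth, fun r u hr => by simp only [hs.hom r u hr, ht.hom r u hr],
    fun k hk u u' huu => by simp only [hs.inv k hk u u' huu, ht.inv k hk u u' huu]⟩

theorem Inv0.pow {s : m → ℝ} (hs : Inv0 H s) (n : ℕ) : Inv0 H (fun u => s u ^ n) :=
  ⟨hs.smooth.pow n, fun r u hr => by simp only [hs.hom r u hr],
    fun k hk u u' huu => by simp only [hs.inv k hk u u' huu]⟩

theorem Inv0.sum {κ : Type*} (t : Finset κ) {s : κ → m → ℝ} (hs : ∀ i ∈ t, Inv0 H (s i)) :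
    Inv0 H (fun u => ∑ i ∈ t, s i u) :=
  ⟨ContDiffOn.sum fun i hi => (hs i hi).smooth,
    fun r u hr => Finset.sum_congr rfl fun i hi => (hs i hi).hom r u hr,
    fun k hk u u' huu => Finset.sum_congr rfl fun i hi => (hs i hi).inv k hk u u' huu⟩

/-- an invariant function of degree zero times `|u|²` is admissible -/
theorem Inv0.phiN (hN : NData g h m Q P) (hG : GrpD H h m Q h0 B c) {s : m → ℝ} (hs : Inv0 H s) :
    PhiN h m P (mulN Q s) ∧ InvH H (mulN Q s) := by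
  have h1 : ContDiffOn ℝ ∞ (mulN Q s) {0}ᶜ := BNsq_smooth.mul hs.smooth
  have h2 : InvH H (mulN Q s) := by
    intro k hk u u' huu
    unfold mulN
    rw [hs.inv k hk u u' huu]
    congr 1
    rw [BN_apply, BN_apply, huu, hG.Qm k hk u u.2]
  refine ⟨⟨h1, fun r u => ?_, inv_of_InvH hN hG h1 h2⟩, h2⟩
  unfold mulN
  rcases eq_or_ne r 0 with hr | hr
  · subst hr; simp
  · rw [hs.hom r u hr, BN_apply, BN_apply]
    simp only [Submodule.coe_smul, map_smul, LinearMap.smul_apply, smul_eq_mul]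
    ring

/-- conversely `v / |u|²` is invariant of degree zero -/
theorem Inv0.of_phiN (hN : NData g h m Q P) (hG : GrpD H h m Q h0 B c) (hv : PhiN h m P v)
    (hvH : InvH H v) : Inv0 H (fun u => (BN m Q u u)⁻¹ * v u) := by
  refine ⟨(BNinv_smooth hN).mul hv.smooth, fun r u hr => ?_, fun k hk u u' huu => ?_⟩
  · rw [hv.hom, BN_apply, BN_apply]
    simp only [Submodule.coe_smul, map_smul, LinearMap.smul_apply, smul_eq_mul]
    by_cases h0 : Q (u : 𝔸) u = 0
    · simp [h0]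
    · field_simp
  · rw [hvH k hk u u' huu, BN_apply, BN_apply, huu, hG.Qm k hk u u.2]

theorem phiN_add {φ ψ : m → ℝ} (hφ : PhiN h m P φ) (hψ : PhiN h m P ψ) :
    PhiN h m P (fun u => φ u + ψ u) := by
  refine ⟨hφ.smooth.add hψ.smooth, fun r u => ?_, fun Y hY u hu => ?_⟩
  · rw [hφ.hom, hψ.hom]; ring
  · rw [D1_sum hφ.smooth hψ.smooth hu, hφ.inv Y hY u hu, hψ.inv Y hY u hu, add_zero]

theorem invH_add {φ ψ : m → ℝ} (hφ : InvH H φ) (hψ : InvH H ψ) : InvH H (fun u => φ u + ψ u) :=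
  fun k hk u u' huu => by simp only [hφ k hk u u' huu, hψ k hk u u' huu]

/-- multiplication of an admissible function by an invariant function of degree zero -/
theorem phiN_mul (hN : NData g h m Q P) (hG : GrpD H h m Q h0 B c) {s : m → ℝ} (hs : Inv0 H s)
    (hv : PhiN h m P v) (hvH : InvH H v) :
    PhiN h m P (fun u => s u * v u) ∧ InvH H (fun u => s u * v u) := by
  have h1 : ContDiffOn ℝ ∞ (fun u => s u * v u) {0}ᶜ := hs.smooth.mul hv.smooth
  have h2 : InvH H (fun u => s u * v u) := fun k hk u u' huu => by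
    simp only [hs.inv k hk u u' huu, hvH k hk u u' huu]
  refine ⟨⟨h1, fun r u => ?_, inv_of_InvH hN hG h1 h2⟩, h2⟩
  rcases eq_or_ne r 0 with hr | hr
  · subst hr
    have h3 := hv.hom 0 u
    rw [zero_smul, zero_pow two_ne_zero, zero_mul] at h3
    rw [zero_smul, h3]; simp
  · rw [hs.hom r u hr, hv.hom]; ring

theorem phiN_smul (hv : PhiN h m P v) (r : ℝ) : PhiN h m P (fun u => r * v u) := by
  refine ⟨contDiffOn_const.mul hv.smooth, fun t u => ?_, fun Y hY u hu => ?_⟩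
  · rw [hv.hom]; ring
  · have : D1 (fun u => r * v u) u (P ⁅Y, (u : 𝔸)⁆) = r * D1 v u (P ⁅Y, (u : 𝔸)⁆) :=
      fd_cmul r hv.smooth hu _
    rw [this, hv.inv Y hY u hu, mul_zero]

theorem invH_smul (hv : InvH H v) (r : ℝ) : InvH H (fun u => r * v u) :=
  fun k hk u u' huu => by simp only [hv k hk u u' huu]

theorem phiN_zero (h m : Submodule ℝ 𝔸) (P : 𝔸 →L[ℝ] m) : PhiN h m P (fun _ => 0) :=
  ⟨contDiffOn_const, fun _ _ => by simp, fun _ _ _ _ => by simp [D1]⟩

theorem phiN_sum {κ : Type*} (t : Finset κ) {f : κ → m → ℝ} (hf : ∀ i ∈ t, PhiN h m P (f i)) :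
    PhiN h m P (fun u => ∑ i ∈ t, f i u) := by
  classical
  induction t using Finset.induction_on with
  | empty => simpa using phiN_zero h m P
  | insert a t ha ih =>
    simp only [Finset.sum_insert ha]
    exact phiN_add (hf a (Finset.mem_insert_self a t))
      (ih fun i hi => hf i (Finset.mem_insert_of_mem hi))

theorem invH_sum {κ : Type*} (t : Finset κ) {f : κ → m → ℝ} (hf : ∀ i ∈ t, InvH H (f i)) :
    InvH H (fun u => ∑ i ∈ t, f i u) :=
  fun k hk u u' huu => Finset.sum_congr rfl fun i hi => hf i hi k hk u u' huu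

end Pool.Agent.FL
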