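import Pool.Agent.FL.WF
import Pool.Agent.FL.Inv0
import Pool.Agent.helper53.FL.EC2

/-!
# MP_f09395_gt, module AB8 (part a): adding `l(c) n` at a wall flag
-/

set_option linter.unusedSectionVars false

noncomputable section

namespace Pool.Agent.FL

open scoped ContDiff
open Pool.Agent.Helper93.Fin Pool.Agent.helper79.FP Pool.Agent.helper79.FR Pool.Agent.FL.Wall
open Filter Topology

variable {𝔸 : Type*} [NormedRing 𝔸] [NormedAlgebra ℝ 𝔸] [FiniteDimensional ℝ 𝔸]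
variable {g h m : Submodule ℝ 𝔸} {Q : 𝔸 →ₗ[ℝ] 𝔸 →ₗ[ℝ] ℝ} {P : 𝔸 →L[ℝ] m} {v n f : m → ℝ}
variable {h0 : 𝔸} {B : m → 𝔸} {c : m → ℝ} {H : Subgroup 𝔸ˣ} {u b : m} {l : ℝ → ℝ}

theorem AB8_lc_inv0 (hC : Cas g h m Q P h0 B c) (hG : GrpD H h m Q h0 B c)
    (hl : ContDiff ℝ ∞ l) : Inv0 H (fun z : m => l (c z)) :=
  ⟨comp_smooth hl hC.csm, fun r u hr => by simp only [hC.chom r u hr],
    fun k hk u u' huu => by simp only [hG.c k hk u u' huu]⟩

theorem AB8_phi (hN : NData g h m Q P) (hC : Cas g h m Q P h0 B c) (hG : GrpD H h m Q h0 B c)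
    (hl : ContDiff ℝ ∞ l) (hv : PhiN h m P v) (hvH : InvH H v) (hn : PhiN h m P n)
    (hnH : InvH H n) :
    PhiN h m P (fun z => v z + l (c z) * n z) ∧ InvH H (fun z => v z + l (c z) * n z) := by
  obtain ⟨h1, h2⟩ := phiN_mul hN hG (AB8_lc_inv0 hC hG hl) hn hnH
  exact ⟨phiN_add hv h1, invH_add hvH h2⟩

theorem AB8_al (hN : NData g h m Q P) (hC : Cas g h m Q P h0 B c) (hl : ContDiff ℝ ∞ l)
    (hv : ContDiffOn ℝ ∞ v {0}ᶜ) (hn : ContDiffOn ℝ ∞ n {0}ᶜ) (hF : Flag Q u b) :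
    al P h0 (fun z => v z + l (c z) * n z) u b = al P h0 v u b + l (c u) * al P h0 n u b := by
  have hu := hF.ne hN
  have hL := comp_smooth hl hC.csm
  unfold al
  rw [D1_sum hv (hL.mul hn) hu, D1_mul hL hn hu, comp_D1 hl hC.csm hu, flag_c0 hN hC hF]
  ring

/-- the gradient is unchanged -/
theorem AB8_gx (hN : NData g h m Q P) (hC : Cas g h m Q P h0 B c) (hW : CasW Q B c)
    (hl : ContDiff ℝ ∞ l) (hl0 : l (c u) = 0) (hv : ContDiffOn ℝ ∞ v {0}ᶜ)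
    (hn : ContDiffOn ℝ ∞ n {0}ᶜ) (hF : Flag Q u b) (hw : Q (B u) b = 0) :
    gx Q (fun z => v z + l (c z) * n z) u = gx Q v u := by
  have hu := hF.ne hN
  have hL := comp_smooth hl hC.csm
  have hJ := lc_jet hN hC hW hl hF hw hl0
  refine rep_unique hN fun w => ?_
  rw [gx_spec hN, gx_spec hN, D1_sum hv (hL.mul hn) hu, D1_mul hL hn hu, hJ.z, hJ.d1]
  ring

/-- the derivative of the gradient in the direction `b` changes by a multiple of `b` -/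
theorem AB8_gs (hN : NData g h m Q P) (hC : Cas g h m Q P h0 B c) (hW : CasW Q B c)
    (hl : ContDiff ℝ ∞ l) (hl0 : l (c u) = 0) (hv : ContDiffOn ℝ ∞ v {0}ᶜ)
    (hn : ContDiffOn ℝ ∞ n {0}ᶜ) (hF : Flag Q u b) (hw : Q (B u) b = 0) :
    gs Q (fun z => v z + l (c z) * n z) u b =
      gs Q v u b + (n u * (2 * (-8 * c u * deriv l (c u)))) • b := by
  have hu := hF.ne hN
  have hL := comp_smooth hl hC.csm
  have hJ := lc_jet hN hC hW hl hF hw hl0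
  refine rep_unique hN fun w => ?_
  rw [gs_spec hN, Submodule.coe_add, map_add, LinearMap.add_apply, gs_spec hN,
    D2_sum hv (hL.mul hn) hu, D2_mul hL hn hu, hJ.z, hJ.d1, hJ.d1, hJ.d2b,
    Submodule.coe_smul, map_smul, LinearMap.smul_apply, smul_eq_mul]
  ring

theorem AB8_D1EE (hN : NData g h m Q P) (hC : Cas g h m Q P h0 B c) (hW : CasW Q B c)
    (hl : ContDiff ℝ ∞ l) (hl0 : l (c u) = 0) (hv : ContDiffOn ℝ ∞ v {0}ᶜ)
    (hn : ContDiffOn ℝ ∞ n {0}ᶜ) (hf : ContDiffOn ℝ ∞ f {0}ᶜ) (hF : Flag Q u b)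
    (hw : Q (B u) b = 0) :
    D1 (EE Q P (fun z => v z + l (c z) * n z) f) u b = D1 (EE Q P v f) u b := by
  have hu := hF.ne hN
  have hv' : ContDiffOn ℝ ∞ (fun z => v z + l (c z) * n z) {0}ᶜ :=
    hv.add ((comp_smooth hl hC.csm).mul hn)
  rw [EE_D1 hN hv' hf hu, EE_D1 hN hv hf hu, ef, ef, AB8_gx hN hC hW hl hl0 hv hn hF hw,
    AB8_gs hN hC hW hl hl0 hv hn hF hw]
  have h1 : ⁅(u : 𝔸), ((gs Q v u b + (n u * (2 * (-8 * c u * deriv l (c u)))) • b : m) : 𝔸)⁆ =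
      ⁅(u : 𝔸), (gs Q v u b : 𝔸)⁆ := by
    have h2 := hF.2.2.2
    rw [Submodule.coe_add, Submodule.coe_smul]
    simp only [Ring.lie_def] at h2 ⊢
    rw [mul_add, add_mul, mul_smul_comm, smul_mul_assoc, add_sub_add_comm, ← smul_sub, h2,
      smul_zero, add_zero]
  rw [h1]

/-- **the wall formula**: two functions `l(c) n`, `l'(c) n'` with `l = l' = 0` at the wall and
`(l')' = 0` there, and a square -/
theorem AB8_wall (hN : NData g h m Q P) (hC : Cas g h m Q P h0 B c) (hG : GrpD H h m Q h0 B c)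
    (hW : CasW Q B c) {l' : ℝ → ℝ} {n' F r : m → ℝ} (hl : ContDiff ℝ ∞ l) (hl0 : l (c u) = 0)
    (hl' : ContDiff ℝ ∞ l') (hl'0 : l' (c u) = 0) (hl'1 : deriv l' (c u) = 0)
    (hv : PhiN h m P v) (hvH : InvH H v) (hn : PhiN h m P n) (hnH : InvH H n)
    (hn' : PhiN h m P n') (hn'H : InvH H n') (hFs : ContDiffOn ℝ ∞ F {0}ᶜ)
    (hr : ContDiffOn ℝ ∞ r {0}ᶜ) (hF : Flag Q u b) (hw : Q (B u) b = 0)
    (ha : al P h0 v u b = 0)
    (hF0 : ∀ w : m → ℝ, PhiN h m P w → InvH H w → al P h0 w u b = 0 →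
      F u = 0 ∧ D1 F u b = 0 ∧ D1 F u (P ⁅(u : 𝔸), (gx Q w u : 𝔸)⁆) = 0 ∧
        D1 F u (P ⁅(u : 𝔸), (gs Q w u b : 𝔸)⁆) = 0 ∧ EE Q P w (EE Q P w F) u = 0) :
    T3F Q P (fun z => ((v z + l (c z) * n z) + l' (c z) * n' z) + r z * F z ^ 2) u b =
      T3F Q P v u b + 8 * c u * deriv l (c u) * EE Q P v (EE Q P v n) u
        - 2 * r u * D1 (EE Q P v F) u b ^ 2 := by
  have hu := hF.ne hN
  obtain ⟨k1, k2⟩ := AB8_phi hN hC hG hl hv hvH hn hnH
  obtain ⟨k3, k4⟩ := AB8_phi hN hC hG hl' k1 k2 hn' hn'H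
  have a1 : al P h0 (fun z => v z + l (c z) * n z) u b = 0 := by
    rw [AB8_al hN hC hl hv.smooth hn.smooth hF, ha, hl0]; ring
  have a2 : al P h0 (fun z => (v z + l (c z) * n z) + l' (c z) * n' z) u b = 0 := by
    have := AB8_al (v := fun z => v z + l (c z) * n z) hN hC hl' k1.smooth hn'.smooth hF
    rw [this, a1, hl'0]; ring
  obtain ⟨f0, f1, f2, f3, f4⟩ := hF0 _ k3 k4 a2
  have s1 := WF2 (b := b) hN k3.smooth hu hFs hr f0 f1 f2 f3 (by rw [f4, mul_zero])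
  have s2 := WF1 (v := fun z => v z + l (c z) * n z) (n := n') hN hC hW k1 hF hw a1 hl' hl'0
    hn'.smooth
  have s3 := WF1 (v := v) (n := n) hN hC hW hv hF hw ha hl hl0 hn.smooth
  have s4 := AB8_D1EE (v := fun z => v z + l (c z) * n z) (n := n') hN hC hW hl' hl'0 k1.smooth
    hn'.smooth hFs hF hw
  have s5 := AB8_D1EE (v := v) (n := n) hN hC hW hl hl0 hv.smooth hn.smooth hFs hF hw
  rw [s1, s2, s3, s4, s5, hl'1]
  ring

end Pool.Agent.FL
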