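import Pool.Agent.FL.Red

/-!
# MP_f09395_gt: from the third order form to `AdmitsPositive` for `Sp(2)/diag(z^a, z^b)`
-/

noncomputable section

namespace Pool.Agent.FL

open Pool.Agent.Helper93.Fin Pool.Agent.helper79.FP Pool.Agent.helper79.FR

attribute [local instance] Matrix.linftyOpNormedRing Matrix.linftyOpNormedAlgebra

/-- it is enough to find an invariant function with positive third order form -/
theorem Adm_of {a b : ℕ} (ha : 1 ≤ a) (hb : 1 ≤ b)
    (h : ∃ φ : Sp2.m a b → ℝ, PhiN (Sp2.hh a b) (Sp2.m a b) (Sp2.PP a b) φ ∧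
      InvH (Sp2.H a b) φ ∧ T3Pos (Sp2.hh a b) Sp2.QQ (Sp2.PP a b) φ) :
    AdmitsPositive Sp2.G (Sp2.H a b) (Sp2.m a b) := by
  obtain ⟨φ, h1, h2, h3⟩ := h
  have hN := Sp2.nData ha hb
  have hG := Sp2.grpD ha hb
  refine admits_of_T3Pos (g := Sp2.gg) (h := Sp2.hh a b) (Q := Sp2.QQ) (P := Sp2.PP a b)
    (fun X => Sp2.gg_lieAlg X) (fun X => Sp2.hh_lieAlg ha hb X) hN hG.adm ?_ hG.Qm h1 h2 h3
  intro k hk Z hZ
  obtain ⟨r, rfl⟩ := Submodule.mem_span_singleton.1 hZ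
  rw [Sp2.Adj_smul, hG.adh0 k hk]
  exact Submodule.smul_mem _ _ (Submodule.mem_span_singleton_self _)

end Pool.Agent.FL
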