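import Pool.Agent.FL.S2TransD
import Pool.Agent.helper75.FL.LemJ

/-!
# MP_f09395_gt, space (2): transfer of functions between `𝔪` and the coordinates
-/

set_option linter.unusedSectionVars false

noncomputable section

namespace Pool.Agent.FL.S2

open scoped ContDiff Quaternion Matrix
open Pool.Agent.Helper93.Fin Pool.Agent.helper79.FP Pool.Agent.helper79.FR
open Pool.Agent.helper79.FR.Sp2 (Mat QQ h0 m gg hh PP BB cc)
open Pool.Agent.helper79.FR Pool.Agent.helper75.FL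

attribute [local instance] Matrix.linftyOpNormedRing Matrix.linftyOpNormedAlgebra

/-! ### functions -/

namespace TrF

theorem ext9 {u v : R9} (h1 : ∀ i, u.1 i = v.1 i) (h2 : ∀ i, u.2.1 i = v.2.1 i)
    (h3 : ∀ i, u.2.2 i = v.2.2 i) : u = v :=
  Prod.ext (funext h1) (Prod.ext (funext h2) (funext h3))

theorem rotH_zero (u : R9) : rotH 0 u = u := by
  unfold rotH; simp

theorem iota_ne {u : R9} (hu : u ≠ 0) : (iota u : m 1 1) ≠ 0 := fun h =>
  hu (by simpa using h)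

theorem toM_smooth {f : R9 → ℝ} (hf : ContDiffOn ℝ ∞ f {0}ᶜ) : ContDiffOn ℝ ∞ (toM f) {0}ᶜ := by
  refine hf.comp iota.symm.contDiff.contDiffOn ?_
  intro X hX h0
  exact hX (by simpa using h0)

theorem D1_toM0 (f : R9 → ℝ) (u a : R9) : D1 (toM f) (iota u) (iota a) = fderiv ℝ f u a := by
  unfold D1
  have h2 : fderiv ℝ (toM f) (iota u) =
      (fderiv ℝ f (iota.symm (iota u))).comp (iota.symm : m 1 1 →L[ℝ] R9) :=
    ContinuousLinearEquiv.comp_right_fderiv iota.symm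
  refine (congrArg (fun L : m 1 1 →L[ℝ] ℝ => L (iota a)) h2).trans ?_
  show fderiv ℝ f (iota.symm (iota u)) (iota.symm (iota a)) = _
  rw [ContinuousLinearEquiv.symm_apply_apply, ContinuousLinearEquiv.symm_apply_apply]

end TrF
open TrF

theorem D1_toM {f : R9 → ℝ} (hf : ContDiffOn ℝ ∞ f {0}ᶜ) {u : R9} (hu : u ≠ 0) (a : R9) :
    D1 (toM f) (iota u) (iota a) = fderiv ℝ f u a := D1_toM0 f u a

namespace TrF

theorem D2_toM0 (f : R9 → ℝ) (u a b : R9) :
    D2 (toM f) (iota u) (iota a) (iota b) = fderiv ℝ (fun y => fderiv ℝ f y a) u b := by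
  have h1 : (fun z => D1 (toM f) z (iota a)) = toM (fun y => fderiv ℝ f y a) := by
    funext z
    have h2 := D1_toM0 f (iota.symm z) a
    rw [ContinuousLinearEquiv.apply_symm_apply] at h2
    rw [h2]; rfl
  unfold D2
  rw [h1]
  exact D1_toM0 _ u b

theorem fderiv2_symm {f : R9 → ℝ} (hf : ContDiffOn ℝ ∞ f {0}ᶜ) {u : R9} (hu : u ≠ 0) (a b : R9) :
    fderiv ℝ (fun y => fderiv ℝ f y b) u a = fderiv ℝ (fun y => fderiv ℝ f y a) u b :=
  D2_symm hf hu b a

end TrF
open TrF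

theorem D2_toM {f : R9 → ℝ} (hf : ContDiffOn ℝ ∞ f {0}ᶜ) {u : R9} (hu : u ≠ 0) (a b : R9) :
    D2 (toM f) (iota u) (iota a) (iota b) = fderiv ℝ (fun y => fderiv ℝ f y b) u a := by
  rw [D2_toM0, fderiv2_symm hf hu]

theorem al_toM {f : R9 → ℝ} (hf : ContDiffOn ℝ ∞ f {0}ᶜ) {u : R9} (hu : u ≠ 0) (b : R9) :
    al (PP 1 1) hU (toM f) (iota u) (iota b) = alM f u b := by
  exact (congrArg (D1 (toM f) (iota u)) (PP_hU b)).trans (D1_toM0 f u (rot b))

namespace TrF

/-- the standard decomposition of a vector of `ℝ⁹` -/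
theorem dec9 (a : R9) : a = ∑ i, (a.1 i • ((Pi.single i 1, 0, 0) : R9)) +
    ∑ i, (a.2.1 i • ((0, Pi.single i 1, 0) : R9)) +
    ∑ i, (a.2.2 i • ((0, 0, Pi.single i 1) : R9)) := by
  refine ext9 ?_ ?_ ?_ <;> intro i <;> fin_cases i <;> simp [Fin.sum_univ_three]

theorem grad9_spec (L : R9 →L[ℝ] ℝ) (a : R9) :
    dot9 ((fun i => L (Pi.single i 1, 0, 0), fun i => L (0, Pi.single i 1, 0),
      fun i => L (0, 0, Pi.single i 1)) : R9) a = L a := by
  conv_rhs => rw [dec9 a]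
  simp only [map_add, map_sum, map_smul, smul_eq_mul]
  simp only [dot9, dotProduct]
  congr 1
  · congr 1
    · exact Finset.sum_congr rfl fun i _ => mul_comm _ _
    · exact Finset.sum_congr rfl fun i _ => mul_comm _ _
  · exact Finset.sum_congr rfl fun i _ => mul_comm _ _

theorem dot9_grad9 (f : R9 → ℝ) (u a : R9) : dot9 (grad9 f u) a = fderiv ℝ f u a :=
  grad9_spec (fderiv ℝ f u) a

end TrF
open TrF

theorem gx_toM {f : R9 → ℝ} (hf : ContDiffOn ℝ ∞ f {0}ᶜ) {u : R9} (hu : u ≠ 0) :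
    gx Q2 (toM f) (iota u) = iota (grad9 f u) := by
  refine rep_unique nData2 fun w => ?_
  rw [gx_spec nData2]
  obtain ⟨a, rfl⟩ : ∃ a, iota a = w := ⟨iota.symm w, by simp⟩
  rw [D1_toM0, Q2_iota, dot9_grad9]

namespace TrF

theorem hasDerivAt_rotH (u : R9) : HasDerivAt (fun t : ℝ => rotH t u) (rot u) 0 := by
  unfold rotH rot
  refine HasDerivAt.prodMk (hasDerivAt_const _ _) (HasDerivAt.prodMk ?_ ?_)
  · have h1 := ((Real.hasDerivAt_cos 0).smul_const u.2.1).fun_sub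
      ((Real.hasDerivAt_sin 0).smul_const u.2.2)
    simpa using h1
  · have h1 := ((Real.hasDerivAt_sin 0).smul_const u.2.1).fun_add
      ((Real.hasDerivAt_cos 0).smul_const u.2.2)
    simpa using h1

theorem diffAt {f : R9 → ℝ} (hf : ContDiffOn ℝ ∞ f {0}ᶜ) {u : R9} (hu : u ≠ 0) :
    DifferentiableAt ℝ f u :=
  (hf.contDiffAt (isOpen_compl_singleton.mem_nhds hu)).differentiableAt (by simp)

/-- infinitesimal invariance -/
theorem phiM_inv0 {f : R9 → ℝ} (hf : PhiM f) {u : R9} (hu : u ≠ 0) : fderiv ℝ f u (rot u) = 0 := by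
  have h1 : HasFDerivAt f (fderiv ℝ f (rotH 0 u)) (rotH 0 u) := by
    rw [rotH_zero]; exact (diffAt hf.smooth hu).hasFDerivAt
  have h2 := h1.comp_hasDerivAt 0 (hasDerivAt_rotH u)
  have h3 : (f ∘ fun t : ℝ => rotH t u) = fun _ => f u := by
    funext t; exact hf.inv t u
  rw [h3, rotH_zero] at h2
  exact h2.unique (hasDerivAt_const _ _)

end TrF
open TrF

theorem phiN_toM {f : R9 → ℝ} (hf : PhiM f) :
    PhiN (hh 1 1) (m 1 1) (PP 1 1) (toM f) ∧ InvH (Sp2.H 1 1) (toM f) := by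
  refine ⟨⟨toM_smooth hf.smooth, ?_, ?_⟩, ?_⟩
  · intro c X
    unfold toM
    rw [map_smul, hf.hom]
  · intro Y hY X hX
    obtain ⟨r, rfl⟩ := cas2.span Y hY
    obtain ⟨u, rfl⟩ : ∃ u, iota u = X := ⟨iota.symm X, by simp⟩
    have hu : u ≠ 0 := fun h => hX (by rw [h, map_zero])
    have h1 : PP 1 1 ⁅r • hU, ((iota u : m 1 1) : Mat)⁆ = iota (r • rot u) := by
      have h2 : ⁅r • hU, ((iota u : m 1 1) : Mat)⁆ = r • ⁅hU, ((iota u : m 1 1) : Mat)⁆ := by
        simp only [Ring.lie_def, smul_mul_assoc, mul_smul_comm, smul_sub]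
      rw [h2, map_smul, PP_hU, map_smul]
    refine (congrArg (D1 (toM f) (iota u)) h1).trans ?_
    rw [D1_toM0, map_smul, phiM_inv0 hf hu, smul_zero]
  · intro k hk X Y hXY
    obtain ⟨t, ht⟩ := Adj_iota hk
    obtain ⟨u, rfl⟩ : ∃ u, iota u = X := ⟨iota.symm X, by simp⟩
    rw [ht u] at hXY
    have h1 : Y = iota (rotH t u) := Subtype.ext hXY
    rw [h1, toM_iota, toM_iota, hf.inv]

theorem phiM_of {φ : m 1 1 → ℝ} (h1 : PhiN (hh 1 1) (m 1 1) (PP 1 1) φ)
    (h2 : InvH (Sp2.H 1 1) φ) : PhiM (fun u => φ (iota u)) := by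
  refine ⟨?_, ?_, ?_⟩
  · refine h1.smooth.comp iota.contDiff.contDiffOn ?_
    intro u hu h0
    exact hu (by simpa using h0)
  · intro r u
    show φ (iota (r • u)) = _
    rw [map_smul, h1.hom]
  · intro t u
    obtain ⟨k, hk, hkt⟩ := Adj_iota' t
    exact h2 k hk (iota u) (iota (rotH t u)) (hkt u).symm

namespace TrF

/-! ### the second derivative along the Euler flow -/

theorem br_add_left (u v w : R9) : br (u + v) w = br u w + br v w := by
  refine ext9 ?_ ?_ ?_ <;> intro i <;> fin_cases i <;>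
    simp [br, crossProduct] <;> ring

theorem br_add_right (u v w : R9) : br u (v + w) = br u v + br u w := by
  refine ext9 ?_ ?_ ?_ <;> intro i <;> fin_cases i <;>
    simp [br, crossProduct] <;> ring

theorem br_smul_left (r : ℝ) (u v : R9) : br (r • u) v = r • br u v := by
  refine ext9 ?_ ?_ ?_ <;> intro i <;> fin_cases i <;>
    simp [br, crossProduct] <;> ring

theorem br_smul_right (r : ℝ) (u v : R9) : br u (r • v) = r • br u v := by
  refine ext9 ?_ ?_ ?_ <;> intro i <;> fin_cases i <;>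
    simp [br, crossProduct] <;> ring

/-- the bracket as a continuous bilinear map -/
def brL : R9 →L[ℝ] R9 →L[ℝ] R9 :=
  LinearMap.toContinuousLinearMap
    ((LinearMap.toContinuousLinearMap : (R9 →ₗ[ℝ] R9) ≃ₗ[ℝ] (R9 →L[ℝ] R9)).toLinearMap ∘ₗ
      (LinearMap.mk₂ ℝ br br_add_left br_smul_left br_add_right br_smul_right))

theorem brL_apply (u v : R9) : brL u v = br u v := rfl

theorem dot9_br (u v w : R9) : dot9 (br u v) w = dot9 u (br v w) := by
  simp [dot9, br, crossProduct, dotProduct, Fin.sum_univ_three]; ring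

theorem dot9_comm (u v : R9) : dot9 u v = dot9 v u := by
  simp [dot9, dotProduct, Fin.sum_univ_three]; ring

theorem br_skw (u v : R9) : br u v = - br v u := by
  refine ext9 ?_ ?_ ?_ <;> intro i <;> fin_cases i <;>
    simp [br, crossProduct] <;> ring

/-- the gradient is a linear function of the derivative -/
def gradL : (R9 →L[ℝ] ℝ) →L[ℝ] R9 :=
  LinearMap.toContinuousLinearMap
    { toFun := fun L => (fun i => L (Pi.single i 1, 0, 0), fun i => L (0, Pi.single i 1, 0),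
        fun i => L (0, 0, Pi.single i 1))
      map_add' := fun _ _ => rfl
      map_smul' := fun _ _ => rfl }

theorem gradL_fderiv (f : R9 → ℝ) (u : R9) : gradL (fderiv ℝ f u) = grad9 f u := rfl

theorem dot9_gradL (L : R9 →L[ℝ] ℝ) (a : R9) : dot9 (gradL L) a = L a := grad9_spec L a

theorem diffAt_fderiv {f : R9 → ℝ} (hf : ContDiffOn ℝ ∞ f {0}ᶜ) {u : R9} (hu : u ≠ 0) :
    DifferentiableAt ℝ (fderiv ℝ f) u := differentiableAt_of_ne (smooth_fderiv hf) hu

theorem fderiv2_eq {f : R9 → ℝ} (hf : ContDiffOn ℝ ∞ f {0}ᶜ) {u : R9} (hu : u ≠ 0) (a b : R9) :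
    fderiv ℝ (fun y => fderiv ℝ f y a) u b = fderiv ℝ (fderiv ℝ f) u b a := by
  have h1 := (diffAt_fderiv hf hu).hasFDerivAt.clm_apply (hasFDerivAt_const a u)
  rw [h1.fderiv]
  simp

/-- the derivative of the Euler field -/
theorem hasFDerivAt_eM {v : R9 → ℝ} (hv : ContDiffOn ℝ ∞ v {0}ᶜ) {u : R9} (hu : u ≠ 0) :
    HasFDerivAt (eM v) ((brL u).comp (gradL.comp (fderiv ℝ (fderiv ℝ v) u)) +
      brL.flip (grad9 v u)) u := by
  have h1 : HasFDerivAt (fun y => gradL (fderiv ℝ v y))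
      (gradL.comp (fderiv ℝ (fderiv ℝ v) u)) u :=
    gradL.hasFDerivAt.comp u (diffAt_fderiv hv hu).hasFDerivAt
  exact brL.hasFDerivAt.clm_apply h1

theorem ED_ED {v n : R9 → ℝ} (hv : ContDiffOn ℝ ∞ v {0}ᶜ) (hn : ContDiffOn ℝ ∞ n {0}ᶜ) {u : R9}
    (hu : u ≠ 0) : ED v (ED v n) u = fderiv ℝ (fderiv ℝ n) u (eM v u) (eM v u) +
      fderiv ℝ n u (br u (gradL (fderiv ℝ (fderiv ℝ v) u (eM v u)))) +
      fderiv ℝ n u (br (eM v u) (grad9 v u)) := by
  have h1 := (diffAt_fderiv hn hu).hasFDerivAt.clm_apply (hasFDerivAt_eM hv hu)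
  have h2 : ED v (ED v n) u = fderiv ℝ (fun y => fderiv ℝ n y (eM v y)) u (eM v u) := rfl
  rw [h2, h1.fderiv]
  simp only [ContinuousLinearMap.add_apply, ContinuousLinearMap.comp_apply,
    ContinuousLinearMap.flip_apply, brL_apply, map_add]
  ring

end TrF
open TrF

/-- the pointwise second derivative along the Euler flow is the iterated one -/
theorem E2_toM {v n : R9 → ℝ} (hv : PhiM v) (hn : PhiM n) {u : R9} (hu : u ≠ 0) :
    E2 Q2 (PP 1 1) (toM v) (toM n) (iota u) = ED v (ED v n) u := by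
  have ev : ∀ w : R9 → ℝ, PhiM w → ee Q2 (PP 1 1) (toM w) (iota u) = iota (eM w u) := by
    intro w hw
    unfold ee
    rw [gx_toM hw.smooth hu]
    exact PP_br u (grad9 w u)
  have e1 : fderiv ℝ n u (br u (gradL (fderiv ℝ (fderiv ℝ v) u (eM v u)))) =
      - D2 (toM v) (iota u) (iota (eM v u)) (iota (eM n u)) := by
    rw [D2_toM0, fderiv2_symm hv.smooth hu, fderiv2_eq hv.smooth hu,
      ← dot9_gradL (fderiv ℝ (fderiv ℝ v) u (eM v u)) (eM n u), ← dot9_grad9, ← dot9_br,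
      br_skw (grad9 n u) u, dot9_comm]
    show dot9 _ (- br u (grad9 n u)) = - dot9 _ (br u (grad9 n u))
    simp [dot9]; ring
  have e2 : fderiv ℝ n u (br (eM v u) (grad9 v u)) =
      Q2 ⁅((iota (grad9 v u) : m 1 1) : Mat), ((iota (grad9 n u) : m 1 1) : Mat)⁆
        ((iota (eM v u) : m 1 1) : Mat) := by
    rw [iota_br, map_add, map_smul, LinearMap.add_apply, LinearMap.smul_apply, Q2_hU, smul_zero,
      add_zero, Q2_iota, ← dot9_grad9, dot9_br, dot9_comm (grad9 v u), dot9_br]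
  unfold E2
  rw [ev v hv, ev n hn, gx_toM hv.smooth hu, gx_toM hn.smooth hu, ED_ED hv.smooth hn.smooth hu, e1,
    ← e2, D2_toM0, fderiv2_eq hn.smooth hu]
  ring

end Pool.Agent.FL.S2
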