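import Pool.Agent.FL.S2TransD
import Pool.Agent.FL.S2TransF

/-!
# MP_f09395_gt, space (2): transfer between `𝔪` and the coordinates

The data part is in `S2TransD` (with `cc_iota`, `cM_smooth` in `GE2`), the functions in `S2TransF`.
-/

noncomputable section

namespace Pool.Agent.FL.S2

open Pool.Agent.helper79.FR.Sp2 (Mat m PP)

attribute [local instance] Matrix.linftyOpNormedRing Matrix.linftyOpNormedAlgebra

theorem PP_iota (u : R9) : PP 1 1 ((iota u : m 1 1) : Mat) = iota u := PP_iota' u

end Pool.Agent.FL.S2
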