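import Pool.Agent.FL.Adm
import Pool.Agent.FL.S2Trans

/-!
# MP_f09395_gt: `AdmitsPositive` for `Sp(2)/diag(z, z)` from the third order form of `Q2`
-/

noncomputable section

namespace Pool.Agent.FL.S2

open Pool.Agent.Helper93.Fin Pool.Agent.helper79.FP Pool.Agent.helper79.FR
open Pool.Agent.helper79.FR.Sp2 (Mat QQ h0 m gg hh PP BB cc)
open Pool.Agent.helper79.FR

attribute [local instance] Matrix.linftyOpNormedRing Matrix.linftyOpNormedAlgebra

/-- it is enough to find an invariant function whose third order form (for `Q2`) is positive -/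
theorem Adm2_of
    (h : ∃ ψ : m 1 1 → ℝ, PhiN (hh 1 1) (m 1 1) (PP 1 1) ψ ∧ InvH (Sp2.H 1 1) ψ ∧
      T3Pos (hh 1 1) Q2 (PP 1 1) ψ) : AdmitsPositive Sp2.G (Sp2.H 1 1) (Sp2.m 1 1) := by
  obtain ⟨φ, h1, h2, h3⟩ := h
  refine admits_of_T3Pos (g := Sp2.gg) (h := Sp2.hh 1 1) (Q := Q2) (P := Sp2.PP 1 1)
    (fun X => Sp2.gg_lieAlg X) (fun X => Sp2.hh_lieAlg le_rfl le_rfl X) nData2 grpD2.adm ?_
    grpD2.Qm h1 h2 h3
  intro k hk Z hZ
  obtain ⟨r, rfl⟩ := Submodule.mem_span_singleton.1 hZ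
  rw [Sp2.Adj_smul, (Sp2.grpD le_rfl le_rfl).adh0 k hk]
  exact Submodule.smul_mem _ _ (Submodule.mem_span_singleton_self _)

end Pool.Agent.FL.S2
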