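import Pool.Agent.FL.WallC
import Pool.Agent.helper46.FR.Sp2

/-!
# MP_f09395_gt, wall formulas: the structural hypothesis `CasW` for `Sp(2) / Δ(a, b)`
-/

set_option linter.unusedSectionVars false

noncomputable section

namespace Pool.Agent.FL.Wall

open scoped ContDiff Quaternion Matrix
open Pool.Agent.Helper93.Fin Pool.Agent.helper79.FP Pool.Agent.helper79.FR
open Pool.Agent.helper46.FR
open Filter Topology

section sq

open Pool.Agent.helper79.FR.Sp2

attribute [local instance] Matrix.linftyOpNormedRing Matrix.linftyOpNormedAlgebra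

/-- `u² + b² = -1` for a flat flag -/
theorem flat_sq {u b : Mat} (hu : star u = -u) (hb : star b = -b) (huu : retr (u * u) = -1)
    (hbb : retr (b * b) = -1) (hub : retr (u * b) = 0) (hc : u * b = b * u) :
    b * b = -(u * u) - 1 := by
  set S : Mat := u * u + (1 / 2 : ℝ) • 1 with hS
  set T : Mat := b * b + (1 / 2 : ℝ) • 1 with hT
  have star_half : star ((1 / 2 : ℝ) • (1 : Mat)) = (1 / 2 : ℝ) • 1 := by
    rw [star_smul_mat, star_one]
  have sS : star S = S := by
    rw [hS, star_add, star_mul, hu, star_half]; noncomm_ring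
  have sT : star T = T := by
    rw [hT, star_add, star_mul, hb, star_half]; noncomm_ring
  have sR : star (u * b) = u * b := by
    rw [star_mul, hu, hb, hc]; noncomm_ring
  have tS : retr S = 0 := by
    rw [hS, map_add, huu, map_smul, retr_one, smul_eq_mul]; norm_num
  have tT : retr T = 0 := by
    rw [hT, map_add, hbb, map_smul, retr_one, smul_eq_mul]; norm_num
  have cub : Commute u b := hc
  have cS : Commute S u := by
    rw [hS]
    exact ((Commute.refl u).mul_left (Commute.refl u)).add_left ((Commute.one_left u).smul_left _)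
  have cSb : Commute S b := by
    rw [hS]
    exact (cub.mul_left cub).add_left ((Commute.one_left b).smul_left _)
  have cST : S * T = T * S := by
    have : Commute S T := by
      rw [hT]
      exact (cSb.mul_right cSb).add_right ((Commute.one_right S).smul_right _)
    exact this
  obtain ⟨r, hr⟩ := mul_scal sR sR hub hub rfl
  obtain ⟨x, hx⟩ := mul_scal sS sT tS tT cST
  -- S + T = 0
  have e1 : u * b * (u * b) = S * T - (1 / 2 : ℝ) • S - (1 / 2 : ℝ) • T + (1 / 4 : ℝ) • 1 := by
    have e2 : u * b * (u * b) = (u * u) * (b * b) := by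
      calc u * b * (u * b) = u * (b * u) * b := by noncomm_ring
        _ = u * (u * b) * b := by rw [hc]
        _ = _ := by noncomm_ring
    have e3 : u * u = S - (1 / 2 : ℝ) • 1 := by rw [hS]; abel
    have e4 : b * b = T - (1 / 2 : ℝ) • 1 := by rw [hT]; abel
    rw [e2, e3, e4]
    simp only [sub_mul, mul_sub, smul_mul_assoc, mul_smul_comm, one_mul, mul_one]
    module
  rw [hr, hx] at e1
  have e5 := congrArg retr e1
  simp only [map_add, map_sub, map_smul, tS, tT, retr_one, smul_eq_mul] at e5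
  have hrx : r = x + 1 / 4 := by linarith
  have hST : S + T = 0 := by
    have h1 : (1 / 2 : ℝ) • (S + T) = 0 := by
      rw [hrx] at e1
      have : (1 / 2 : ℝ) • (S + T) = x • (1 : Mat) + (1 / 4 : ℝ) • 1 - (x + 1 / 4) • 1 := by
        rw [e1]; module
      rw [this]; module
    have h2 := congrArg (fun Z : Mat => (2 : ℝ) • Z) h1
    simp only [smul_smul, smul_zero] at h2
    norm_num at h2
    exact h2
  have h3 : b * b = T - (1 / 2 : ℝ) • 1 := by rw [hT]; abel
  have h4 : T = -S := by rw [eq_neg_iff_add_eq_zero, add_comm]; exact hST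
  rw [h3, h4, hS]
  have h5 : (1 / 2 : ℝ) • (1 : Mat) + (1 / 2 : ℝ) • 1 = 1 := by module
  calc -(u * u + (1 / 2 : ℝ) • 1) - (1 / 2 : ℝ) • 1 =
      -(u * u) - ((1 / 2 : ℝ) • (1 : Mat) + (1 / 2 : ℝ) • 1) := by abel
    _ = _ := by rw [h5]

/-- derivative of `Bgen` in a direction orthogonal to the point -/
theorem Bgen_deriv' {x : ℝ → Mat} {v : Mat} {t : ℝ} (hx : HasDerivAt x v t)
    (hq : Qg retr (x t) ≠ 0) (h2 : retr (x t * v) = 0) :
    HasDerivAt (fun t => Bgen retr (x t)) ((4 : ℝ) • ((Qg retr (x t))⁻¹ •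
      (v * x t * x t + x t * v * x t + x t * x t * v) +
      ((retr (x t ^ 4) * ((Qg retr (x t)) ^ 2)⁻¹) • v +
        (4 * retr (x t ^ 3 * v) * ((Qg retr (x t)) ^ 2)⁻¹) • x t))) t := by
  unfold Bgen
  have hQ := Qg_deriv retr_mul_comm hx
  rw [h2, mul_zero, neg_zero] at hQ
  have hT := tr4_deriv retr_mul_comm hx
  have h1 := ((((hQ.inv hq).smul (pow3_deriv hx)).add
    ((hT.mul ((hQ.pow 2).inv (pow_ne_zero 2 hq))).smul hx))).const_smul (4 : ℝ)
  refine h1.congr_deriv ?_
  simp

variable {a b : ℕ}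

theorem casW : CasW QQ (BB a b) (cc a b) := by
  rintro u v ⟨h1, h2, h3, h4⟩
  have hu : u ≠ 0 := by
    intro h0
    rw [h0] at h1
    simp at h1
  have hpos : ∀ u : m a b, u ≠ 0 → Qg retr (u : Mat) ≠ 0 := fun u hu => (Qg_pos hu).ne'
  have hBs : ContDiffOn ℝ ∞ (fun u : m a b => Bgen retr (u : Mat)) {0}ᶜ := Bgen_smooth hpos
  have hq : Qg retr (u : Mat) = 1 := by rw [Qg_eq]; exact h1
  have huu : retr ((u : Mat) * u) = -1 := by rw [QQ_apply] at h1; linarith
  have hvv : retr ((v : Mat) * v) = -1 := by rw [QQ_apply] at h2; linarith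
  have huv : retr ((u : Mat) * v) = 0 := by rw [QQ_apply] at h3; linarith
  have hc : (u : Mat) * v = v * u := by rwa [Ring.lie_def, sub_eq_zero] at h4
  have hsq := flat_sq u.2.1 v.2.1 huu hvv huv hc
  have hx : HasDerivAt (fun t : ℝ => (u : Mat) + t • (v : Mat)) (v : Mat) 0 := line_deriv _ _
  have hx0 : (u : Mat) + (0 : ℝ) • (v : Mat) = u := by rw [zero_smul, add_zero]
  have key := Bgen_deriv' hx (by simp only [hx0]; exact hpos u hu) (by simp only [hx0]; exact huv)
  simp only [hx0] at key
  have hd := fderiv_line hBs hu v key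
  rw [← BB_fun] at hd
  rw [hd, cc_eq]
  unfold cgen
  rw [hq]
  have e1 : (v : Mat) * u * u + u * v * u + u * u * v = (3 : ℝ) • ((u : Mat) * u * v) := by
    have e2 : (v : Mat) * u * u = u * u * v := by
      rw [← hc, mul_assoc, ← hc, ← mul_assoc]
    have e3 : (u : Mat) * v * u = u * u * v := by
      rw [mul_assoc, ← hc, ← mul_assoc]
    rw [e2, e3]
    module
  have e4 : QQ ((u : Mat) * u * v) v = -(1 - retr ((u : Mat) ^ 4)) := by
    rw [QQ_apply, mul_assoc, hsq]
    have e5 : (u : Mat) * u * (-((u : Mat) * u) - 1) = -((u : Mat) ^ 4) - u * u := by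
      noncomm_ring
    rw [e5, map_sub, map_neg, huu]
    ring
  rw [e1]
  simp only [map_smul, map_add, LinearMap.smul_apply, LinearMap.add_apply, smul_eq_mul, e4, h2, h3]
  ring

end sq

end Pool.Agent.FL.Wall
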