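import Mathlib

/-!
# Parametric avoidance

Hausdorff dimension of level sets of maps with derivatives of rank at least `n`, and the parametric
avoidance lemma: if the bad pairs `(x, p)` satisfy more independent equations than `x` has
coordinates, then the bad parameters `p` form a thin set.
-/

set_option linter.unusedSectionVars false

noncomputable section

namespace Pool.Agent.helper53.FL

open Filter Topology Set Module
open scoped NNReal ENNReal

section rank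

variable {V F : Type*} [NormedAddCommGroup V] [NormedSpace ℝ V] [FiniteDimensional ℝ V]
  [NormedAddCommGroup F] [NormedSpace ℝ F]

/-- local step: near a point where `Ψ` is strictly differentiable, the part of a level set of `Ψ`
has dimension at most that of the kernel of the derivative -/
theorem local_step {S : Set V} {x : V} {Ψ : V → F} {Ψ' : V →L[ℝ] F}
    (h : HasStrictFDerivAt Ψ Ψ' x) (hc : ∀ᶠ y in 𝓝[S] x, Ψ y = Ψ x) :
    ∃ t ∈ 𝓝[S] x, dimH t ≤ (finrank ℝ (LinearMap.ker (Ψ' : V →ₗ[ℝ] F)) : ℕ) := by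
  obtain ⟨N, hN⟩ : ∃ N : Submodule ℝ V, N = LinearMap.ker (Ψ' : V →ₗ[ℝ] F) := ⟨_, rfl⟩
  rw [← hN]
  obtain ⟨π, hπ⟩ : ∃ π : V →L[ℝ] N, ∀ v : N, π v = v :=
    Submodule.ClosedComplemented.of_finiteDimensional N
  have hinj : LinearMap.ker ((Ψ'.prod π : V →L[ℝ] F × N) : V →ₗ[ℝ] F × N) = ⊥ := by
    rw [LinearMap.ker_eq_bot']
    intro v hv
    have h1 : Ψ' v = 0 := congrArg Prod.fst hv
    have h2 : π v = 0 := congrArg Prod.snd hv
    have h3 : v ∈ N := by rw [hN]; exact h1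
    have h4 := hπ ⟨v, h3⟩
    simp only at h4
    rw [h2] at h4
    exact (congrArg Subtype.val h4).symm
  obtain ⟨K, hK0, hK⟩ := LinearMap.exists_antilipschitzWith
    ((Ψ'.prod π : V →L[ℝ] F × N) : V →ₗ[ℝ] F × N) hinj
  have hΦ : HasStrictFDerivAt (fun v => (Ψ v, π v)) (Ψ'.prod π) x :=
    h.prodMk π.hasStrictFDerivAt
  have hc0 : 0 < K⁻¹ / 2 := by positivity
  obtain ⟨s, hs, ha⟩ := hΦ.approximates_deriv_on_nhds (c := K⁻¹ / 2) (Or.inr hc0)
  obtain ⟨t, ht⟩ : ∃ t : Set V, t = {y | Ψ y = Ψ x} ∩ s := ⟨_, rfl⟩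
  have htm : t ∈ 𝓝[S] x := by
    rw [ht]; exact inter_mem hc (mem_nhdsWithin_of_mem_nhds hs)
  refine ⟨t, htm, ?_⟩
  have key : ∀ y ∈ t, ∀ z ∈ t, dist y z ≤ (2 * K : ℝ≥0) * dist (π y) (π z) := by
    intro y hy z hz
    rw [ht] at hy hz
    have h1 : ‖(Ψ y, π y) - (Ψ z, π z) - (Ψ'.prod π) (y - z)‖ ≤ (K⁻¹ / 2 : ℝ≥0) * ‖y - z‖ :=
      ha y hy.2 z hz.2
    have h2 := hK.le_mul_dist y z
    have h3 : ‖(Ψ y, π y) - (Ψ z, π z)‖ = dist (π y) (π z) := by
      rw [dist_eq_norm, Prod.mk_sub_mk]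
      have : Ψ y - Ψ z = 0 := by rw [hy.1, hz.1, sub_self]
      rw [this, Prod.norm_def]
      simp
    have h4 : ‖(Ψ'.prod π) (y - z)‖ ≤ dist (π y) (π z) + (K⁻¹ / 2 : ℝ≥0) * ‖y - z‖ := by
      rw [← h3]
      have h5 := norm_sub_norm_le ((Ψ'.prod π) (y - z)) ((Ψ y, π y) - (Ψ z, π z))
      have h6 : ‖(Ψ'.prod π) (y - z) - ((Ψ y, π y) - (Ψ z, π z))‖ =
        ‖(Ψ y, π y) - (Ψ z, π z) - (Ψ'.prod π) (y - z)‖ := norm_sub_rev _ _
      rw [h6] at h5
      linarith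
    have h5 : dist (((Ψ'.prod π : V →L[ℝ] F × N) : V →ₗ[ℝ] F × N) y)
        (((Ψ'.prod π : V →L[ℝ] F × N) : V →ₗ[ℝ] F × N) z) = ‖(Ψ'.prod π) (y - z)‖ := by
      rw [dist_eq_norm, ← map_sub]; rfl
    rw [h5] at h2
    have hK1 : (0 : ℝ) < K := hK0
    have h6 : (K : ℝ) * ‖(Ψ'.prod π) (y - z)‖ ≤
        K * dist (π y) (π z) + (1 / 2) * ‖y - z‖ := by
      have h7 := mul_le_mul_of_nonneg_left h4 hK1.le
      have h8 : (K : ℝ) * (((K⁻¹ / 2 : ℝ≥0) : ℝ) * ‖y - z‖) = (1 / 2) * ‖y - z‖ := by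
        push_cast
        field_simp
      rw [mul_add, h8] at h7
      exact h7
    have h9 : dist y z ≤ K * dist (π y) (π z) + (1 / 2) * dist y z := by
      rw [dist_eq_norm y z] at h2 ⊢
      linarith
    push_cast
    linarith
  obtain ⟨g, hg⟩ : ∃ g : N → V, ∀ y ∈ t, g (π y) = y := by
    refine ⟨Function.invFunOn π t, fun y hy => ?_⟩
    have h1 : ∃ a ∈ t, π a = π y := ⟨y, hy, rfl⟩
    have h2 := Function.invFunOn_mem h1
    have h3 := Function.invFunOn_eq h1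
    have h4 := key _ h2 y hy
    rw [h3, dist_self, mul_zero] at h4
    exact dist_le_zero.1 h4
  have hgl : LipschitzOnWith (2 * K) g (π '' t) := by
    refine LipschitzOnWith.of_dist_le_mul ?_
    rintro _ ⟨y, hy, rfl⟩ _ ⟨z, hz, rfl⟩
    rw [hg y hy, hg z hz]
    exact key y hy z hz
  have him : g '' (π '' t) = t := by
    ext y
    constructor
    · rintro ⟨_, ⟨z, hz, rfl⟩, rfl⟩
      rw [hg z hz]; exact hz
    · intro hy
      exact ⟨π y, ⟨y, hy, rfl⟩, hg y hy⟩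
  calc dimH t = dimH (g '' (π '' t)) := by rw [him]
    _ ≤ dimH (π '' t) := hgl.dimH_image_le
    _ ≤ dimH (univ : Set N) := dimH_mono (subset_univ _)
    _ = (finrank ℝ N : ℕ) := Real.dimH_univ_eq_finrank N

/-- **dimension of level sets.** If near every point of `S` some map, constant on `S`, is strictly
differentiable at the point with derivative of rank at least `n`, then `S` has dimension at most
`dim V - n`. -/
theorem dimH_le_of_rank {S : Set V} {n : ℕ}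
    (H : ∀ x ∈ S, ∃ (Ψ : V → F) (Ψ' : V →L[ℝ] F), HasStrictFDerivAt Ψ Ψ' x ∧
      (∀ᶠ y in 𝓝[S] x, Ψ y = Ψ x) ∧ n ≤ finrank ℝ (LinearMap.range (Ψ' : V →ₗ[ℝ] F))) :
    dimH S ≤ (finrank ℝ V - n : ℕ) := by
  by_contra hcon
  rw [not_le] at hcon
  obtain ⟨x, hx, hx'⟩ := exists_mem_nhdsWithin_lt_dimH_of_lt_dimH hcon
  obtain ⟨Ψ, Ψ', h1, h2, h3⟩ := H x hx
  obtain ⟨t, ht, ht'⟩ := local_step h1 h2
  have h4 := hx' t ht
  have h5 := LinearMap.finrank_range_add_finrank_ker (Ψ' : V →ₗ[ℝ] F)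
  have h6 : finrank ℝ (LinearMap.ker (Ψ' : V →ₗ[ℝ] F)) ≤ finrank ℝ V - n := by omega
  have h7 : ((finrank ℝ (LinearMap.ker (Ψ' : V →ₗ[ℝ] F)) : ℕ) : ℝ≥0∞) ≤
      ((finrank ℝ V - n : ℕ) : ℝ≥0∞) := by exact_mod_cast h6
  exact absurd (ht'.trans h7) (not_le.2 h4)

/-- the same with the additional information that the rank does not exceed the dimension -/
theorem rank_le_finrank {n : ℕ} {Ψ' : V →L[ℝ] F}
    (h : n ≤ finrank ℝ (LinearMap.range (Ψ' : V →ₗ[ℝ] F))) : n ≤ finrank ℝ V :=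
  h.trans (LinearMap.finrank_range_le _)

end rank

section thin

variable {P : Type*} [NormedAddCommGroup P] [NormedSpace ℝ P] [FiniteDimensional ℝ P]

/-- thin sets of parameters: sets whose dimension is at most `dim P - 1` (and `P` is not zero) -/
def Thin (B : Set P) : Prop := B = ∅ ∨ (0 < finrank ℝ P ∧ dimH B ≤ (finrank ℝ P - 1 : ℕ))

theorem Thin.mono {A B : Set P} (hB : Thin B) (h : A ⊆ B) : Thin A := by
  rcases hB with rfl | ⟨h1, h2⟩
  · left; exact subset_empty_iff.1 h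
  · right; exact ⟨h1, (dimH_mono h).trans h2⟩

theorem Thin.iUnion {ι : Sort*} [Countable ι] {B : ι → Set P} (hB : ∀ i, Thin (B i)) :
    Thin (⋃ i, B i) := by
  by_cases h0 : 0 < finrank ℝ P
  · right
    refine ⟨h0, ?_⟩
    rw [dimH_iUnion]
    refine iSup_le fun i => ?_
    rcases hB i with h | h
    · rw [h, dimH_empty]; exact zero_le
    · exact h.2
  · left
    rw [iUnion_eq_empty]
    intro i
    rcases hB i with h | h
    · exact h
    · exact absurd h.1 h0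

theorem Thin.union {A B : Set P} (hA : Thin A) (hB : Thin B) : Thin (A ∪ B) := by
  rw [union_eq_iUnion]
  refine Thin.iUnion fun i => ?_
  cases i
  · exact hB
  · exact hA

theorem Thin.dense_compl {B : Set P} (hB : Thin B) : Dense Bᶜ := by
  rcases hB with rfl | ⟨h1, h2⟩
  · rw [compl_empty]; exact dense_univ
  · refine dense_compl_of_dimH_lt_finrank (h2.trans_lt ?_)
    have : finrank ℝ P - 1 < finrank ℝ P := by omega
    exact_mod_cast this

/-- arbitrarily small good parameters, simultaneously for countably many thin sets -/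
theorem Thin.exists_small {ι : Sort*} [Countable ι] {B : ι → Set P} (hB : ∀ i, Thin (B i))
    {ε : ℝ} (hε : 0 < ε) : ∃ p : P, ‖p‖ < ε ∧ ∀ i, p ∉ B i := by
  have h1 := (Thin.iUnion hB).dense_compl
  obtain ⟨p, hp1, hp2⟩ := h1.exists_mem_open Metric.isOpen_ball
    (⟨0, Metric.mem_ball_self hε⟩ : (Metric.ball (0 : P) ε).Nonempty)
  refine ⟨p, mem_ball_zero_iff.1 hp2, fun i hi => hp1 (mem_iUnion.2 ⟨i, hi⟩)⟩

/-- good parameters in every nonempty open set -/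
theorem Thin.exists_mem_open {ι : Sort*} [Countable ι] {B : ι → Set P} (hB : ∀ i, Thin (B i))
    {U : Set P} (hU : IsOpen U) (hne : U.Nonempty) : ∃ p ∈ U, ∀ i, p ∉ B i := by
  have h1 := (Thin.iUnion hB).dense_compl
  obtain ⟨p, hp1, hp2⟩ := h1.exists_mem_open hU hne
  exact ⟨p, hp2, fun i hi => hp1 (mem_iUnion.2 ⟨i, hi⟩)⟩

end thin

section pal

variable {E P G F : Type*}
  [NormedAddCommGroup E] [NormedSpace ℝ E] [FiniteDimensional ℝ E]
  [NormedAddCommGroup P] [NormedSpace ℝ P] [FiniteDimensional ℝ P]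
  [NormedAddCommGroup G] [NormedSpace ℝ G] [NormedAddCommGroup F] [NormedSpace ℝ F]

/-- rank of a block triangular map -/
theorem rank_block (ψ' : E →ₗ[ℝ] G) (Φ' : E × P →ₗ[ℝ] F) :
    finrank ℝ (LinearMap.range ψ') + finrank ℝ (LinearMap.range (Φ' ∘ₗ LinearMap.inr ℝ E P)) ≤
      finrank ℝ (LinearMap.range ((ψ' ∘ₗ LinearMap.fst ℝ E P).prod Φ')) := by
  obtain ⟨J, hJ⟩ : ∃ J : E × P →ₗ[ℝ] G × F, J = (ψ' ∘ₗ LinearMap.fst ℝ E P).prod Φ' := ⟨_, rfl⟩
  rw [← hJ]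
  obtain ⟨R, hR⟩ : ∃ R : Submodule ℝ (G × F), R = LinearMap.range J := ⟨_, rfl⟩
  rw [← hR]
  have : FiniteDimensional ℝ R := by rw [hR]; infer_instance
  have h1 := LinearMap.finrank_range_add_finrank_ker ((LinearMap.fst ℝ G F).domRestrict R)
  have h2 : finrank ℝ (LinearMap.range ψ') ≤
      finrank ℝ (LinearMap.range ((LinearMap.fst ℝ G F).domRestrict R)) := by
    refine Submodule.finrank_mono ?_
    rintro _ ⟨x, rfl⟩
    refine ⟨⟨J (x, 0), by rw [hR]; exact ⟨_, rfl⟩⟩, ?_⟩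
    simp [hJ]
  have h3 : finrank ℝ (LinearMap.range (Φ' ∘ₗ LinearMap.inr ℝ E P)) ≤
      finrank ℝ (LinearMap.ker ((LinearMap.fst ℝ G F).domRestrict R)) := by
    -- the map `(0, y) ↦ y` from the kernel is onto the range
    obtain ⟨q, hq⟩ : ∃ q : LinearMap.ker ((LinearMap.fst ℝ G F).domRestrict R) →ₗ[ℝ] F,
        ∀ v, q v = ((v : R) : G × F).2 :=
      ⟨(LinearMap.snd ℝ G F) ∘ₗ R.subtype ∘ₗ
        (LinearMap.ker ((LinearMap.fst ℝ G F).domRestrict R)).subtype, fun v => rfl⟩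
    have h4 : LinearMap.range (Φ' ∘ₗ LinearMap.inr ℝ E P) ≤ LinearMap.range q := by
      rintro _ ⟨p, rfl⟩
      refine ⟨⟨⟨J (0, p), by rw [hR]; exact ⟨_, rfl⟩⟩, ?_⟩, ?_⟩
      · rw [LinearMap.mem_ker]; simp [hJ]
      · rw [hq]; simp [hJ]
    exact (Submodule.finrank_mono h4).trans (LinearMap.finrank_range_le q)
  omega

/-- **parametric avoidance**: `S` is a set of bad pairs `(x, p)`. Near every point of `S` the pairs
satisfy `r` independent equations in `x` alone and `k` equations whose derivative in `p` has rank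
at least `k`; if `dim E < r + k`, the bad parameters form a thin set. -/
theorem pal {S : Set (E × P)} {r k : ℕ} (hrk : finrank ℝ E < r + k)
    (H : ∀ z ∈ S, ∃ (ψ : E → G) (ψ' : E →L[ℝ] G) (Φ : E × P → F) (Φ' : E × P →L[ℝ] F),
      HasStrictFDerivAt ψ ψ' z.1 ∧ (∀ᶠ y in 𝓝[S] z, ψ y.1 = ψ z.1) ∧
      r ≤ finrank ℝ (LinearMap.range (ψ' : E →ₗ[ℝ] G)) ∧
      HasStrictFDerivAt Φ Φ' z ∧ (∀ᶠ y in 𝓝[S] z, Φ y = Φ z) ∧
      k ≤ finrank ℝ (LinearMap.range ((Φ' : E × P →ₗ[ℝ] F) ∘ₗ LinearMap.inr ℝ E P))) :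
    Thin (Prod.snd '' S) := by
  rcases S.eq_empty_or_nonempty with rfl | ⟨z0, hz0⟩
  · left; exact image_empty _
  have H' : ∀ z ∈ S, ∃ (Ψ : E × P → G × F) (Ψ' : E × P →L[ℝ] G × F), HasStrictFDerivAt Ψ Ψ' z ∧
      (∀ᶠ y in 𝓝[S] z, Ψ y = Ψ z) ∧
      r + k ≤ finrank ℝ (LinearMap.range (Ψ' : E × P →ₗ[ℝ] G × F)) := by
    intro z hz
    obtain ⟨ψ, ψ', Φ, Φ', h1, h2, h3, h4, h5, h6⟩ := H z hz
    refine ⟨fun y => (ψ y.1, Φ y), (ψ' ∘L ContinuousLinearMap.fst ℝ E P).prod Φ', ?_, ?_, ?_⟩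
    · exact (h1.comp z hasStrictFDerivAt_fst).prodMk h4
    · filter_upwards [h2, h5] with y hy1 hy2
      rw [hy1, hy2]
    · exact (Nat.add_le_add h3 h6).trans (rank_block (ψ' : E →ₗ[ℝ] G) (Φ' : E × P →ₗ[ℝ] F))
  have h1 := dimH_le_of_rank H'
  obtain ⟨Ψ, Ψ', -, -, h2⟩ := H' z0 hz0
  have h3 := rank_le_finrank h2
  have h4 : finrank ℝ (E × P) = finrank ℝ E + finrank ℝ P := finrank_prod
  rw [h4] at h1 h3
  right
  refine ⟨by omega, ?_⟩
  have h5 : finrank ℝ E + finrank ℝ P - (r + k) ≤ finrank ℝ P - 1 := by omega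
  have h6 : ((finrank ℝ E + finrank ℝ P - (r + k) : ℕ) : ℝ≥0∞) ≤
      ((finrank ℝ P - 1 : ℕ) : ℝ≥0∞) := by exact_mod_cast h5
  have h7 : dimH (Prod.snd '' S) ≤ dimH S := by
    have := LipschitzWith.dimH_image_le (LipschitzWith.prod_snd (α := E) (β := P)) S
    exact this
  exact h7.trans (h1.trans h6)

/-- parametric avoidance without extra equations -/
theorem pal0 {S : Set (E × P)} {k : ℕ} (hk : finrank ℝ E < k)
    (H : ∀ z ∈ S, ∃ (Φ : E × P → F) (Φ' : E × P →L[ℝ] F),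
      HasStrictFDerivAt Φ Φ' z ∧ (∀ᶠ y in 𝓝[S] z, Φ y = Φ z) ∧
      k ≤ finrank ℝ (LinearMap.range ((Φ' : E × P →ₗ[ℝ] F) ∘ₗ LinearMap.inr ℝ E P))) :
    Thin (Prod.snd '' S) := by
  refine pal (G := ℝ) (F := F) (r := 0) (k := k) (by omega) fun z hz => ?_
  obtain ⟨Φ, Φ', h1, h2, h3⟩ := H z hz
  exact ⟨fun _ => 0, 0, Φ, Φ', hasStrictFDerivAt_const _ _, Eventually.of_forall fun _ => rfl,
    Nat.zero_le _, h1, h2, h3⟩

end pal

end Pool.Agent.helper53.FL
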