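import Pool.Agent.helper90.FL.PT
import Pool.Agent.FL.Pal53

/-!
# MP_f09395_gt, space (1): local dimension counts with a map depending on the point
-/

set_option linter.unusedSectionVars false

noncomputable section

namespace Pool.Agent.FL

open Filter Topology Module
open Pool.Agent.helper90.FL

variable {E P F G : Type*} [NormedAddCommGroup E] [NormedSpace ℝ E] [FiniteDimensional ℝ E]
  [NormedAddCommGroup P] [NormedSpace ℝ P] [FiniteDimensional ℝ P]
  [NormedAddCommGroup F] [NormedSpace ℝ F] [FiniteDimensional ℝ F]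
  [NormedAddCommGroup G] [NormedSpace ℝ G] [FiniteDimensional ℝ G]

theorem negl_of_thin {B : Set P} (h : Pool.Agent.helper53.FL.Thin B) : Negl B := by
  rcases h with h | ⟨h1, h2⟩
  · exact Or.inl h
  · right
    refine h2.trans_lt ?_
    have : finrank ℝ P - 1 < finrank ℝ P := by omega
    exact_mod_cast this

/-- **dimension count**: near every point of `S` the points of `S` lie in a level set of a map
whose derivative has rank `≥ n > dim E`; then the parameters of `S` are negligible -/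
theorem negl_of_rank {S : Set (E × P)} {n : ℕ} (hn : finrank ℝ E < n)
    (H : ∀ z ∈ S, ∃ (Ψ : E × P → F) (Ψ' : E × P →L[ℝ] F), HasStrictFDerivAt Ψ Ψ' z ∧
      (∀ᶠ y in 𝓝[S] z, Ψ y = Ψ z) ∧ n ≤ finrank ℝ (LinearMap.range (Ψ' : E × P →ₗ[ℝ] F))) :
    Negl (Prod.snd '' S) := by
  rcases S.eq_empty_or_nonempty with rfl | ⟨z0, hz0⟩
  · left; exact Set.image_empty _
  have h1 := Pool.Agent.helper53.FL.dimH_le_of_rank H
  obtain ⟨Ψ, Ψ', -, -, h2⟩ := H z0 hz0
  have h3 := Pool.Agent.helper53.FL.rank_le_finrank h2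
  have h4 : finrank ℝ (E × P) = finrank ℝ E + finrank ℝ P := finrank_prod
  rw [h4] at h1 h3
  right
  have h7 : dimH (Prod.snd '' S) ≤ dimH S := by
    have := LipschitzWith.dimH_image_le (LipschitzWith.prod_snd (α := E) (β := P)) S
    exact this
  refine (h7.trans h1).trans_lt ?_
  have h5 : finrank ℝ E + finrank ℝ P - n < finrank ℝ P := by omega
  exact_mod_cast h5

/-- the same in the form of a set of parameters -/
theorem negl_of_rank' {S : Set (E × P)} {n : ℕ} (hn : finrank ℝ E < n)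
    (H : ∀ z ∈ S, ∃ (Ψ : E × P → F) (Ψ' : E × P →L[ℝ] F), HasStrictFDerivAt Ψ Ψ' z ∧
      (∀ᶠ y in 𝓝[S] z, Ψ y = Ψ z) ∧ n ≤ finrank ℝ (LinearMap.range (Ψ' : E × P →ₗ[ℝ] F))) :
    Negl {p : P | ∃ x : E, (x, p) ∈ S} := by
  refine (negl_of_rank hn H).mono ?_
  rintro p ⟨x, hx⟩
  exact ⟨(x, p), hx, rfl⟩

/-- block form of the rank condition: `Ψ = (ψ(x), Φ(x, p))` where the derivative of `ψ` has rank
`≥ r` and the derivative of `Φ` in the parameters has rank `≥ k`, `r + k > dim E` -/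
theorem negl_of_block {S : Set (E × P)} {r k : ℕ} (hrk : finrank ℝ E < r + k)
    (H : ∀ z ∈ S, ∃ (ψ : E → G) (ψ' : E →L[ℝ] G) (Φ : E × P → F) (Φ' : E × P →L[ℝ] F),
      HasStrictFDerivAt ψ ψ' z.1 ∧ (∀ᶠ y in 𝓝[S] z, ψ y.1 = ψ z.1) ∧
      r ≤ finrank ℝ (LinearMap.range (ψ' : E →ₗ[ℝ] G)) ∧
      HasStrictFDerivAt Φ Φ' z ∧ (∀ᶠ y in 𝓝[S] z, Φ y = Φ z) ∧
      k ≤ finrank ℝ (LinearMap.range ((Φ' : E × P →ₗ[ℝ] F) ∘ₗ LinearMap.inr ℝ E P))) :
    Negl {p : P | ∃ x : E, (x, p) ∈ S} := by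
  refine (negl_of_thin (Pool.Agent.helper53.FL.pal hrk H)).mono ?_
  rintro p ⟨x, hx⟩
  exact ⟨(x, p), hx, rfl⟩

/-- rank from linearly independent values: `n` vectors whose images under the derivative are
linearly independent -/
theorem rank_ge_of_linInd {V W : Type*} [AddCommGroup V] [Module ℝ V] [AddCommGroup W] [Module ℝ W]
    [FiniteDimensional ℝ W] (L : V →ₗ[ℝ] W) {n : ℕ} (a : Fin n → V)
    (h : LinearIndependent ℝ (fun i => L (a i))) : n ≤ finrank ℝ (LinearMap.range L) := by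
  have h1 : LinearIndependent ℝ (fun i => (⟨L (a i), ⟨a i, rfl⟩⟩ : LinearMap.range L)) := by
    refine LinearIndependent.of_comp (LinearMap.range L).subtype ?_
    exact h
  have := h1.fintype_card_le_finrank
  simpa using this

/-- rank from a surjection onto a space of dimension `n` after composition with a linear map -/
theorem rank_ge_of_surj {V W T : Type*} [AddCommGroup V] [Module ℝ V] [AddCommGroup W] [Module ℝ W]
    [FiniteDimensional ℝ W] [AddCommGroup T] [Module ℝ T] [FiniteDimensional ℝ T]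
    (L : V →ₗ[ℝ] W) (R : W →ₗ[ℝ] T) (h : Function.Surjective (R ∘ₗ L)) :
    finrank ℝ T ≤ finrank ℝ (LinearMap.range L) := by
  have h1 : LinearMap.range (R.domRestrict (LinearMap.range L)) = ⊤ := by
    rw [LinearMap.range_eq_top]
    intro t
    obtain ⟨v, hv⟩ := h t
    exact ⟨⟨L v, ⟨v, rfl⟩⟩, hv⟩
  have h2 := LinearMap.finrank_range_le (R.domRestrict (LinearMap.range L))
  rw [h1, finrank_top] at h2
  exact h2

end Pool.Agent.FL
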