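import Pool.Agent.FL.GenU
import Pool.Agent.FL.BLin

/-!
# MP_f09395_gt: the tower of `α` along the flow of flags, generic finite type

`lamT j u Y` is the `j`-th derivative of `Dv(u)[h₀, Y]` along `u' = [u, x]`, `Y' = [Y, x]`,
`x = ∇v(u)`.
-/

set_option linter.unusedSectionVars false

noncomputable section

namespace Pool.Agent.FL

open scoped ContDiff
open Pool.Agent.Helper93.Fin Pool.Agent.helper79.FP Pool.Agent.helper79.FR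
open Pool.Agent.helper90.FL
open Pool.Agent.FL.Wall
open Filter Topology Module

variable {𝔸 : Type*} [NormedRing 𝔸] [NormedAlgebra ℝ 𝔸] [FiniteDimensional ℝ 𝔸]
variable {g h m : Submodule ℝ 𝔸} {Q : 𝔸 →ₗ[ℝ] 𝔸 →ₗ[ℝ] ℝ} {P : 𝔸 →L[ℝ] m} {v : m → ℝ}
variable {h0 : 𝔸} {B : m → 𝔸} {c : m → ℝ} {H : Subgroup 𝔸ˣ}

/-- the tower of `α` along the flow of flags -/
def lamT {m : Submodule ℝ 𝔸} (Q : 𝔸 →ₗ[ℝ] 𝔸 →ₗ[ℝ] ℝ) (P : 𝔸 →L[ℝ] m) (h0 : 𝔸) (v : m → ℝ) :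
    ℕ → m → 𝔸 →L[ℝ] ℝ
  | 0 => LamW P h0 v
  | j + 1 => LamE Q P v (lamT Q P h0 v j)

theorem lamT_smooth (hN : NData g h m Q P) (hv : ContDiffOn ℝ ∞ v {0}ᶜ) (j : ℕ) :
    ContDiffOn ℝ ∞ (lamT Q P h0 v j) {0}ᶜ := by
  induction j with
  | zero =>
    show ContDiffOn ℝ ∞ (fun z => (fderiv ℝ v z).comp (P.comp (-adR h0))) {0}ᶜ
    exact (smooth_fderiv hv).clm_comp contDiffOn_const
  | succ j ih => exact LamE_smooth hN hv ih

/-- on flags `lamT 0 = α` -/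
theorem lamT_zero (u b : m) : lamT Q P h0 v 0 u (b : 𝔸) = al P h0 v u b := LamW_apply _ _

/-- the iterated derivatives of `W v` along `E` -/
theorem lamT_BLin (hN : NData g h m Q P) (hC : Cas g h m Q P h0 B c) (hφ : PhiN h m P v) (j : ℕ) :
    BLin B ((EE Q P v)^[j] (aW P h0 B v 1)) (lamT Q P h0 v j) := by
  induction j with
  | zero => exact BLin_aW hφ.smooth
  | succ j ih =>
    rw [Function.iterate_succ_apply']
    exact ih.dE hN hC hφ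

/-- the direction field `([h₀, Y], 0)` -/
def eA {m : Submodule ℝ 𝔸} (P : 𝔸 →L[ℝ] m) (h0 : 𝔸) (z : m × 𝔸) : m × 𝔸 := (P ⁅h0, z.2⁆, 0)

theorem eA_smooth : ContDiff ℝ ∞ (eA P h0) := by
  have h1 : eA P h0 = fun z : m × 𝔸 => (P (-(adR h0 z.2)), 0) := by
    funext z
    simp only [eA, adR_apply, Ring.lie_def, neg_sub]
  rw [h1]
  exact (P.contDiff.comp ((adR h0).contDiff.comp contDiff_snd).neg).prodMk contDiff_const

section General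

variable {E Z : Type*} [NormedAddCommGroup E] [NormedSpace ℝ E] [NormedAddCommGroup Z]
  [NormedSpace ℝ Z]

/-- `ℓ ↦ (P (ad x (i u)), ad x Y)`, `x` the vector `R` of the restriction of `ℓ` -/
def eLG (i : E →L[ℝ] Z) (P : Z →L[ℝ] E) (R : (E →L[ℝ] ℝ) →L[ℝ] E) (ad : Z →L[ℝ] Z →L[ℝ] Z)
    (z : E × Z) : ((E × Z) →L[ℝ] ℝ) →L[ℝ] (E × Z) :=
  ((ContinuousLinearMap.inl ℝ E Z).comp (P.comp (ad.flip (i z.1))) +
    (ContinuousLinearMap.inr ℝ E Z).comp (ad.flip z.2)).comp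
    (i.comp (R.comp
      ((ContinuousLinearMap.compL ℝ E (E × Z) ℝ).flip (ContinuousLinearMap.inl ℝ E Z))))

theorem eLG_apply (i : E →L[ℝ] Z) (P : Z →L[ℝ] E) (R : (E →L[ℝ] ℝ) →L[ℝ] E)
    (ad : Z →L[ℝ] Z →L[ℝ] Z) (z : E × Z) (ℓ : (E × Z) →L[ℝ] ℝ) :
    eLG i P R ad z ℓ = (P (ad (i (R (ℓ.comp (ContinuousLinearMap.inl ℝ E Z)))) (i z.1)),
      ad (i (R (ℓ.comp (ContinuousLinearMap.inl ℝ E Z)))) z.2) := by
  simp [eLG]

theorem eLG_smooth (i : E →L[ℝ] Z) (P : Z →L[ℝ] E) (R : (E →L[ℝ] ℝ) →L[ℝ] E)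
    (ad : Z →L[ℝ] Z →L[ℝ] Z) : ContDiff ℝ ∞ (eLG i P R ad) := by
  unfold eLG
  refine ContDiff.clm_comp ?_ contDiff_const
  refine ContDiff.add ?_ ?_
  · refine contDiff_const.clm_comp (contDiff_const.clm_comp ?_)
    exact ad.flip.contDiff.comp (i.contDiff.comp contDiff_fst)
  · refine contDiff_const.clm_comp ?_
    exact ad.flip.contDiff.comp contDiff_snd

theorem eLG_smoothOn (i : E →L[ℝ] Z) (P : Z →L[ℝ] E) (R : (E →L[ℝ] ℝ) →L[ℝ] E)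
    (ad : Z →L[ℝ] Z →L[ℝ] Z) (U : Set (E × Z)) : ContDiffOn ℝ ∞ (eLG i P R ad) U :=
  (eLG_smooth i P R ad).contDiffOn

theorem fldG_smooth {U : Set (E × Z)} (hU : IsOpen U) (i : E →L[ℝ] Z) (P : Z →L[ℝ] E)
    (R : (E →L[ℝ] ℝ) →L[ℝ] E) (ad : Z →L[ℝ] Z →L[ℝ] Z) {f : E × Z → ℝ}
    (hf : ContDiffOn ℝ ∞ f U) :
    ContDiffOn ℝ ∞ (fld (fun _ => 0) (eLG i P R ad) f) U :=
  fld_smooth hU contDiffOn_const (eLG_smooth i P R ad).contDiffOn hf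

end General

theorem fst_fderiv {f : m → ℝ} {z : m × 𝔸} (hf : DifferentiableAt ℝ f z.1) :
    HasFDerivAt (fun y : m × 𝔸 => f y.1)
      ((fderiv ℝ f z.1).comp (ContinuousLinearMap.fst ℝ m 𝔸)) z :=
  hf.hasFDerivAt.comp z hasFDerivAt_fst

/-- the flow field of flags -/
def eF (hN : NData g h m Q P) (v : m → ℝ) : m × 𝔸 → m × 𝔸 :=
  fld (fun _ => 0) (eLG m.subtypeL P (repC hN) adR) (fun z : m × 𝔸 => v z.1)

theorem eF_apply (hN : NData g h m Q P) (hv : ContDiffOn ℝ ∞ v {0}ᶜ) {z : m × 𝔸} (hz : z.1 ≠ 0) :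
    eF hN v z = (ef Q P v z.1, ⁅z.2, (gx Q v z.1 : 𝔸)⁆) := by
  have h1 := (fst_fderiv (𝔸 := 𝔸) (z := z) (dAt hv hz)).fderiv
  unfold eF fld
  rw [zero_add, eLG_apply, h1]
  simp only [adR_apply]
  have h2 : ((fderiv ℝ v z.1).comp (ContinuousLinearMap.fst ℝ m 𝔸)).comp
      (ContinuousLinearMap.inl ℝ m 𝔸) = fderiv ℝ v z.1 := by
    ext w; simp
  rw [h2]
  rfl

/-- **the tower on `𝔪 × 𝔸`** -/
theorem tow_lamT (hN : NData g h m Q P) (hv : ContDiffOn ℝ ∞ v {0}ᶜ) (j : ℕ) :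
    ∀ z : m × 𝔸, z.1 ≠ 0 → tow (eA P h0) (fun _ => 0) (eLG m.subtypeL P (repC hN) adR) (fun z : m × 𝔸 => v z.1) j z =
      lamT Q P h0 v j z.1 z.2 := by
  induction j with
  | zero =>
    intro z hz
    show fderiv ℝ (fun z : m × 𝔸 => v z.1) z (eA P h0 z) = LamW P h0 v z.1 z.2
    rw [(fst_fderiv (𝔸 := 𝔸) (z := z) (dAt hv hz)).fderiv, LamW_apply]
    rfl
  | succ j ih =>
    intro z hz
    have hop : IsOpen {z : m × 𝔸 | z.1 ≠ 0} := isOpen_ne.preimage continuous_fst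
    have h1 : tow (eA P h0) (fun _ => 0) (eLG m.subtypeL P (repC hN) adR) (fun z : m × 𝔸 => v z.1) j =ᶠ[𝓝 z]
        fun z => lamT Q P h0 v j z.1 z.2 := by
      filter_upwards [hop.mem_nhds hz] with y hy
      exact ih y hy
    have h2 : HasFDerivAt (fun y : m × 𝔸 => lamT Q P h0 v j y.1)
        ((fderiv ℝ (lamT Q P h0 v j) z.1).comp (ContinuousLinearMap.fst ℝ m 𝔸)) z :=
      (dAt (lamT_smooth hN hv j) hz).hasFDerivAt.comp z hasFDerivAt_fst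
    have h3 := h2.clm_apply (hasFDerivAt_snd (p := z))
    show fderiv ℝ (tow (eA P h0) (fun _ => 0) (eLG m.subtypeL P (repC hN) adR) (fun z : m × 𝔸 => v z.1) j) z
      (eF hN v z) = LamE Q P v (lamT Q P h0 v j) z.1 z.2
    rw [h1.fderiv_eq, h3.fderiv, eF_apply hN hv hz, LamE_apply]
    simp [add_comm]

variable {κ : Type*} [Fintype κ] {J : ℕ} {U : Set m}

/-- **generic finite type along the flow of flags**, general theorem -/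
theorem gftE (hN : NData g h m Q P) (hU : IsOpen U) (hU0 : ∀ u ∈ U, u ≠ 0)
    (hv : ContDiffOn ℝ ∞ v {0}ᶜ) {f : κ → m → ℝ} (hf : ∀ i, ContDiffOn ℝ ∞ (f i) {0}ᶜ)
    (hJ : finrank ℝ (m × 𝔸) < J) {ν : Fin J → ℕ} (hν : StrictMono ν)
    {S : Set ((m × 𝔸) × (κ → ℝ))} (hS : ∀ z ∈ S, z.1.1 ∈ U)
    (h : ∀ z ∈ S, ∀ K : Fin J, ∃ (q : κ → ℝ) (C : ℝ) (φ : m × 𝔸 → ℝ),
      ContDiffOn ℝ ∞ φ (U ×ˢ Set.univ) ∧
      (∀ x ∈ U, ∀ Y : 𝔸, ∑ i, q i * f i x = φ (x, Y) + C) ∧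
      Ord (U ×ˢ Set.univ) z.1 (ν K + 1) φ ∧
      itd (eF hN (fun u => linG v f (u, z.2))) (fun x => fderiv ℝ φ x (eA P h0 x)) (ν K)
        z.1 ≠ 0) :
    Negl {p : κ → ℝ | ∃ (u : m) (Y : 𝔸), ((u, Y), p) ∈ S ∧
      ∀ j : Fin J, lamT Q P h0 (fun u => linG v f (u, p)) (ν j) u Y = 0} := by
  have hUU : IsOpen (U ×ˢ (Set.univ : Set 𝔸)) := hU.prod isOpen_univ
  have hsub : U ⊆ ({0}ᶜ : Set m) := fun u hu => hU0 u hu
  have hl : ∀ {f : m → ℝ}, ContDiffOn ℝ ∞ f {0}ᶜ →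
      ContDiffOn ℝ ∞ (fun z : m × 𝔸 => f z.1) (U ×ˢ Set.univ) := fun hf =>
    (hf.mono hsub).comp contDiff_fst.contDiffOn fun _ hz => hz.1
  have key := gft_genU (M := m × 𝔸) (U := U ×ˢ Set.univ) (A := eA P h0) (V := fun _ => 0)
    (Λ := eLG m.subtypeL P (repC hN) adR) (v := fun z : m × 𝔸 => v z.1) hUU eA_smooth.contDiffOn contDiffOn_const
    (eLG_smoothOn _ _ _ _ _) (hl hv) (f := fun i => fun z : m × 𝔸 => f i z.1)
    (fun i => hl (hf i)) hJ hν (S := S) (fun z hz => ⟨hS z hz, Set.mem_univ _⟩)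
    (fun z hz K => by
      obtain ⟨q, C, φ, h1, h2, h3, h4⟩ := h z hz K
      exact ⟨q, C, φ, h1, fun x hx => h2 x.1 hx.1 x.2, h3, h4⟩)
  refine key.mono ?_
  rintro p ⟨u, Y, hz, h0'⟩
  refine ⟨(u, Y), hz, fun j => ?_⟩
  have h5 := tow_lamT (h0 := h0) hN (linG_smooth' hv hf p) (ν j) (u, Y) (hU0 u (hS _ hz))
  exact h5.trans (h0' j)

/-! ### the three standard cases -/

theorem sum_single_comb [DecidableEq κ] {T : Type*} (t : Finset T) (r : T → ℝ) (a : T → κ)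
    (F : κ → ℝ) : ∑ b, (∑ l ∈ t, r l • (Pi.single (a l) (1 : ℝ) : κ → ℝ)) b * F b =
      ∑ l ∈ t, r l * F (a l) := by
  simp only [Finset.sum_apply, Pi.smul_apply, smul_eq_mul, Finset.sum_mul]
  rw [Finset.sum_comm]
  refine Finset.sum_congr rfl fun l _ => ?_
  rw [Finset.sum_eq_single (a l)]
  · simp
  · intro b _ hb; simp [Pi.single_eq_of_ne hb]
  · intro h; exact absurd (Finset.mem_univ _) h

section Std

variable {ι : Type*} {s : ι → m → ℝ} {G : m → ℝ} {f : κ → m → ℝ}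

/-- **first case**: powers of `s - s(u)` -/
theorem gftE_pow (hN : NData g h m Q P) (hU : IsOpen U) (hU0 : ∀ u ∈ U, u ≠ 0)
    (hv : ContDiffOn ℝ ∞ v {0}ᶜ) (hf : ∀ i, ContDiffOn ℝ ∞ (f i) {0}ᶜ)
    (hs : ∀ i, ContDiffOn ℝ ∞ (s i) {0}ᶜ) (hG : ContDiffOn ℝ ∞ G {0}ᶜ) (hG0 : ∀ u ∈ U, G u ≠ 0)
    (hJ : finrank ℝ (m × 𝔸) < J)
    (hfam : ∀ i, ∀ l ≤ J, ∃ a : κ, ∀ u ∈ U, f a u = G u * s i u ^ l) :
    Negl {p : κ → ℝ | ∃ (u : m) (Y : 𝔸), u ∈ U ∧ (∃ i, D1 (s i) u (P ⁅h0, Y⁆) ≠ 0 ∧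
      D1 (s i) u (ef Q P (fun u => linG v f (u, p)) u) ≠ 0) ∧
      ∀ j < J, lamT Q P h0 (fun u => linG v f (u, p)) j u Y = 0} := by
  classical
  have hUU : IsOpen (U ×ˢ (Set.univ : Set 𝔸)) := hU.prod isOpen_univ
  have hsub : U ⊆ ({0}ᶜ : Set m) := fun u hu => hU0 u hu
  have hl : ∀ {f : m → ℝ}, ContDiffOn ℝ ∞ f {0}ᶜ →
      ContDiffOn ℝ ∞ (fun z : m × 𝔸 => f z.1) (U ×ˢ Set.univ) := fun hf =>
    (hf.mono hsub).comp contDiff_fst.contDiffOn fun _ hz => hz.1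
  have key := gftE (h0 := h0) hN hU hU0 hv hf hJ (ν := fun k : Fin J => k.1)
    (fun a b hab => hab)
    (S := {z : (m × 𝔸) × (κ → ℝ) | z.1.1 ∈ U ∧ ∃ i, D1 (s i) z.1.1 (P ⁅h0, z.1.2⁆) ≠ 0 ∧
      D1 (s i) z.1.1 (ef Q P (fun u => linG v f (u, z.2)) z.1.1) ≠ 0})
    (fun z hz => hz.1) (by
      rintro ⟨⟨u, Y⟩, p⟩ ⟨hu, i, hi1, hi2⟩ K
      simp only at hu hi1 hi2
      have hx : ((u, Y) : m × 𝔸) ∈ U ×ˢ (Set.univ : Set 𝔸) := ⟨hu, Set.mem_univ _⟩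
      have hvp := linG_smooth' hv hf p
      have hX : ContDiffOn ℝ ∞ (eF hN (fun u => linG v f (u, p))) (U ×ˢ Set.univ) :=
        fldG_smooth hUU _ _ _ _ (hl hvp)
      have hσ : ContDiffOn ℝ ∞ (fun z : m × 𝔸 => s i z.1 - s i u) (U ×ˢ Set.univ) :=
        (hl (hs i)).sub contDiffOn_const
      have hex : ∀ l, ∃ a : κ, l ≤ J → ∀ u ∈ U, f a u = G u * s i u ^ l := by
        intro l
        rcases le_or_gt l J with h1 | h1
        · obtain ⟨a, ha⟩ := hfam i l h1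
          exact ⟨a, fun _ => ha⟩
        · obtain ⟨a, -⟩ := hfam i 0 (Nat.zero_le _)
          exact ⟨a, fun h2 => absurd h2 (by omega)⟩
      choose a ha using hex
      refine ⟨∑ l ∈ Finset.range (K.1 + 1 + 1), (((K.1 + 1).choose l : ℝ) *
        (-s i u) ^ (K.1 + 1 - l)) • (Pi.single (a l) (1 : ℝ) : κ → ℝ), 0,
        fun z => G z.1 * (s i z.1 - s i u) ^ (K.1 + 1), (hl hG).mul (hσ.pow _), ?_, ?_, ?_⟩
      · intro x hxU Y'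
        rw [sum_single_comb]
        show _ = G x * (s i x - s i u) ^ (K.1 + 1) + 0
        rw [sub_eq_add_neg, add_pow, Finset.mul_sum, add_zero]
        refine Finset.sum_congr rfl fun l hl' => ?_
        rw [ha l (by rw [Finset.mem_range] at hl'; omega) x hxU]
        ring
      · exact ord_factor hUU (hl hG) (hσ.pow _) hx (ord_pow hUU hx hσ (sub_self _) _)
      · have e1 := lead_factor hUU hX eA_smooth.contDiffOn (A := eA P h0) (hl hG)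
          (φ := fun z : m × 𝔸 => (s i z.1 - s i u) ^ (K.1 + 1)) (hσ.pow _) hx (n := K.1)
          (ord_pow hUU hx hσ (sub_self _) _)
        have e2 := lead_pow hUU hX (A := eA P h0) eA_smooth.contDiffOn (hl (hs i)) hx K.1
        have e3 := (fst_fderiv (𝔸 := 𝔸) (z := (u, Y)) (dAt (hs i) (hU0 u hu))).fderiv
        have e4 := eF_apply hN hvp (z := (u, Y)) (hU0 u hu)
        show itd (eF hN (fun u => linG v f (u, p))) (fun x => fderiv ℝ (fun z : m × 𝔸 =>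
          G z.1 * (s i z.1 - s i u) ^ (K.1 + 1)) x (eA P h0 x)) K.1 (u, Y) ≠ 0
        rw [e1, e2]
        refine mul_ne_zero (hG0 u hu) (mul_ne_zero (mul_ne_zero (by positivity)
          (pow_ne_zero _ ?_)) ?_)
        · rw [e3, e4]; exact hi2
        · rw [e3]; exact hi1)
  refine key.mono ?_
  rintro p ⟨u, Y, hu, hi, h0'⟩
  exact ⟨u, Y, ⟨hu, hi⟩, fun j => h0' j.1 j.2⟩

/-- **second case**: odd powers at zeros of `s i` -/
theorem gftE_zero (hN : NData g h m Q P) (hU : IsOpen U) (hU0 : ∀ u ∈ U, u ≠ 0)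
    (hv : ContDiffOn ℝ ∞ v {0}ᶜ) (hf : ∀ i, ContDiffOn ℝ ∞ (f i) {0}ᶜ)
    (hs : ∀ i, ContDiffOn ℝ ∞ (s i) {0}ᶜ) (hG : ContDiffOn ℝ ∞ G {0}ᶜ) (hG0 : ∀ u ∈ U, G u ≠ 0)
    (hJ : finrank ℝ (m × 𝔸) < J) {ν : Fin J → ℕ} (hν : StrictMono ν)
    (hfam : ∀ i, ∀ k : Fin J, ∃ a : κ, ∀ u ∈ U, f a u = G u * s i u ^ (ν k + 1)) :
    Negl {p : κ → ℝ | ∃ (u : m) (Y : 𝔸), u ∈ U ∧ (∃ i, s i u = 0 ∧
      D1 (s i) u (P ⁅h0, Y⁆) ≠ 0 ∧
      D1 (s i) u (ef Q P (fun u => linG v f (u, p)) u) ≠ 0) ∧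
      ∀ k : Fin J, lamT Q P h0 (fun u => linG v f (u, p)) (ν k) u Y = 0} := by
  classical
  have hUU : IsOpen (U ×ˢ (Set.univ : Set 𝔸)) := hU.prod isOpen_univ
  have hsub : U ⊆ ({0}ᶜ : Set m) := fun u hu => hU0 u hu
  have hl : ∀ {f : m → ℝ}, ContDiffOn ℝ ∞ f {0}ᶜ →
      ContDiffOn ℝ ∞ (fun z : m × 𝔸 => f z.1) (U ×ˢ Set.univ) := fun hf =>
    (hf.mono hsub).comp contDiff_fst.contDiffOn fun _ hz => hz.1
  have key := gftE (h0 := h0) hN hU hU0 hv hf hJ hν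
    (S := {z : (m × 𝔸) × (κ → ℝ) | z.1.1 ∈ U ∧ ∃ i, s i z.1.1 = 0 ∧
      D1 (s i) z.1.1 (P ⁅h0, z.1.2⁆) ≠ 0 ∧
      D1 (s i) z.1.1 (ef Q P (fun u => linG v f (u, z.2)) z.1.1) ≠ 0})
    (fun z hz => hz.1) (by
      rintro ⟨⟨u, Y⟩, p⟩ ⟨hu, i, hi0, hi1, hi2⟩ K
      simp only at hu hi0 hi1 hi2
      have hx : ((u, Y) : m × 𝔸) ∈ U ×ˢ (Set.univ : Set 𝔸) := ⟨hu, Set.mem_univ _⟩
      have hvp := linG_smooth' hv hf p
      have hX : ContDiffOn ℝ ∞ (eF hN (fun u => linG v f (u, p))) (U ×ˢ Set.univ) :=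
        fldG_smooth hUU _ _ _ _ (hl hvp)
      have hσ : ContDiffOn ℝ ∞ (fun z : m × 𝔸 => s i z.1 - s i u) (U ×ˢ Set.univ) :=
        (hl (hs i)).sub contDiffOn_const
      obtain ⟨a, ha⟩ := hfam i K
      refine ⟨∑ l ∈ {a}, (1 : ℝ) • (Pi.single l (1 : ℝ) : κ → ℝ), 0,
        fun z => G z.1 * (s i z.1 - s i u) ^ (ν K + 1), (hl hG).mul (hσ.pow _), ?_, ?_, ?_⟩
      · intro x hxU Y'
        rw [sum_single_comb, Finset.sum_singleton, ha x hxU]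
        show _ = G x * (s i x - s i u) ^ (ν K + 1) + 0
        rw [hi0]
        ring
      · exact ord_factor hUU (hl hG) (hσ.pow _) hx (ord_pow hUU hx hσ (sub_self _) _)
      · have e1 := lead_factor hUU hX eA_smooth.contDiffOn (A := eA P h0) (hl hG)
          (φ := fun z : m × 𝔸 => (s i z.1 - s i u) ^ (ν K + 1)) (hσ.pow _) hx (n := ν K)
          (ord_pow hUU hx hσ (sub_self _) _)
        have e2 := lead_pow hUU hX (A := eA P h0) eA_smooth.contDiffOn (hl (hs i)) hx (ν K)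
        have e3 := (fst_fderiv (𝔸 := 𝔸) (z := (u, Y)) (dAt (hs i) (hU0 u hu))).fderiv
        have e4 := eF_apply hN hvp (z := (u, Y)) (hU0 u hu)
        show itd (eF hN (fun u => linG v f (u, p))) (fun x => fderiv ℝ (fun z : m × 𝔸 =>
          G z.1 * (s i z.1 - s i u) ^ (ν K + 1)) x (eA P h0 x)) (ν K) (u, Y) ≠ 0
        rw [e1, e2]
        refine mul_ne_zero (hG0 u hu) (mul_ne_zero (mul_ne_zero (by positivity)
          (pow_ne_zero _ ?_)) ?_)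
        · rw [e3, e4]; exact hi2
        · rw [e3]; exact hi1)
  refine key.mono ?_
  rintro p ⟨u, Y, hu, hi, h0'⟩
  exact ⟨u, Y, ⟨hu, hi⟩, h0'⟩

/-- **third case**: products `(t l - t l (u)) * s i ^ ν` at zeros of `s i` with
`D (s i)[h₀, Y] = 0` -/
theorem gftE_odd (hN : NData g h m Q P) (hU : IsOpen U) (hU0 : ∀ u ∈ U, u ≠ 0)
    (hv : ContDiffOn ℝ ∞ v {0}ᶜ) (hf : ∀ i, ContDiffOn ℝ ∞ (f i) {0}ᶜ)
    (hs : ∀ i, ContDiffOn ℝ ∞ (s i) {0}ᶜ) {σ : Type*} {t : σ → m → ℝ}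
    (ht : ∀ l, ContDiffOn ℝ ∞ (t l) {0}ᶜ)
    (hG : ContDiffOn ℝ ∞ G {0}ᶜ) (hG0 : ∀ u ∈ U, G u ≠ 0)
    (hJ : finrank ℝ (m × 𝔸) < J) {ν : Fin J → ℕ} (hν : StrictMono ν)
    (hfam : ∀ i, ∀ k : Fin J, ∃ a : κ, ∀ u ∈ U, f a u = G u * s i u ^ ν k)
    (hfam' : ∀ l i, ∀ k : Fin J, ∃ a : κ, ∀ u ∈ U, f a u = G u * (t l u * s i u ^ ν k)) :
    Negl {p : κ → ℝ | ∃ (u : m) (Y : 𝔸), u ∈ U ∧ (∃ i, s i u = 0 ∧
      D1 (s i) u (P ⁅h0, Y⁆) = 0 ∧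
      D1 (s i) u (ef Q P (fun u => linG v f (u, p)) u) ≠ 0) ∧
      (∃ l, D1 (t l) u (P ⁅h0, Y⁆) ≠ 0) ∧
      ∀ k : Fin J, lamT Q P h0 (fun u => linG v f (u, p)) (ν k) u Y = 0} := by
  classical
  have hUU : IsOpen (U ×ˢ (Set.univ : Set 𝔸)) := hU.prod isOpen_univ
  have hsub : U ⊆ ({0}ᶜ : Set m) := fun u hu => hU0 u hu
  have hl : ∀ {f : m → ℝ}, ContDiffOn ℝ ∞ f {0}ᶜ →
      ContDiffOn ℝ ∞ (fun z : m × 𝔸 => f z.1) (U ×ˢ Set.univ) := fun hf =>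
    (hf.mono hsub).comp contDiff_fst.contDiffOn fun _ hz => hz.1
  have key := gftE (h0 := h0) hN hU hU0 hv hf hJ hν
    (S := {z : (m × 𝔸) × (κ → ℝ) | z.1.1 ∈ U ∧ (∃ i, s i z.1.1 = 0 ∧
      D1 (s i) z.1.1 (P ⁅h0, z.1.2⁆) = 0 ∧
      D1 (s i) z.1.1 (ef Q P (fun u => linG v f (u, z.2)) z.1.1) ≠ 0) ∧
      ∃ l, D1 (t l) z.1.1 (P ⁅h0, z.1.2⁆) ≠ 0})
    (fun z hz => hz.1) (by
      rintro ⟨⟨u, Y⟩, p⟩ ⟨hu, ⟨i, hi0, hi1, hi2⟩, l, hl'⟩ K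
      simp only at hu hi0 hi1 hi2 hl'
      have hx : ((u, Y) : m × 𝔸) ∈ U ×ˢ (Set.univ : Set 𝔸) := ⟨hu, Set.mem_univ _⟩
      have hvp := linG_smooth' hv hf p
      have hX : ContDiffOn ℝ ∞ (eF hN (fun u => linG v f (u, p))) (U ×ˢ Set.univ) :=
        fldG_smooth hUU _ _ _ _ (hl hvp)
      have hτ : ContDiffOn ℝ ∞ (fun z : m × 𝔸 => t l z.1 - t l u) (U ×ˢ Set.univ) :=
        (hl (ht l)).sub contDiffOn_const
      obtain ⟨a, ha⟩ := hfam i K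
      obtain ⟨a', ha'⟩ := hfam' l i K
      have oφ : Ord (U ×ˢ (Set.univ : Set 𝔸)) (u, Y) (ν K + 1)
          (fun z : m × 𝔸 => (t l z.1 - t l u) * s i z.1 ^ ν K) :=
        ord_mul hUU hx _ 1 (ν K) (by omega) hτ ((hl (hs i)).pow _) (ord_one (sub_self _))
          (ord_pow hUU hx (hl (hs i)) hi0 _)
      refine ⟨∑ x ∈ Finset.univ, (cond x 1 (-t l u) : ℝ) •
        (Pi.single (cond x a' a) (1 : ℝ) : κ → ℝ), 0,
        fun z => G z.1 * ((t l z.1 - t l u) * s i z.1 ^ ν K),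
        (hl hG).mul (hτ.mul ((hl (hs i)).pow _)), ?_, ?_, ?_⟩
      · intro x hxU Y'
        rw [sum_single_comb, Fintype.sum_bool]
        simp only [cond_true, cond_false]
        rw [ha x hxU, ha' x hxU]
        ring
      · exact ord_factor hUU (hl hG) (hτ.mul ((hl (hs i)).pow _)) hx oφ
      · have e1 := lead_factor hUU hX eA_smooth.contDiffOn (A := eA P h0) (hl hG)
          (φ := fun z : m × 𝔸 => (t l z.1 - t l u) * s i z.1 ^ ν K)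
          (hτ.mul ((hl (hs i)).pow _)) hx (n := ν K) oφ
        have e3 := (fst_fderiv (𝔸 := 𝔸) (z := (u, Y)) (dAt (hs i) (hU0 u hu))).fderiv
        have e3' := (fst_fderiv (𝔸 := 𝔸) (z := (u, Y)) (dAt (ht l) (hU0 u hu))).fderiv
        have e4 := eF_apply hN hvp (z := (u, Y)) (hU0 u hu)
        have e2 := lead_mul hUU hX (A := eA P h0) eA_smooth.contDiffOn (hl (hs i)) (hl (ht l)) hx
          hi0 (by rw [e3]; exact hi1) (ν K)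
        show itd (eF hN (fun u => linG v f (u, p))) (fun x => fderiv ℝ (fun z : m × 𝔸 =>
          G z.1 * ((t l z.1 - t l u) * s i z.1 ^ ν K)) x (eA P h0 x)) (ν K) (u, Y) ≠ 0
        rw [e1, e2]
        refine mul_ne_zero (hG0 u hu) (mul_ne_zero (mul_ne_zero (by positivity)
          (pow_ne_zero _ ?_)) ?_)
        · rw [e3, e4]; exact hi2
        · rw [e3']; exact hl')
  refine key.mono ?_
  rintro p ⟨u, Y, hu, hi, hl', h0'⟩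
  exact ⟨u, Y, ⟨hu, hi, hl'⟩, h0'⟩

end Std

end Pool.Agent.FL
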