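import Pool.Agent.FL.S2Core

/-!
# MP_f09395_gt, space (2), GE5: functions of `a`, `BB`, `|u|²`, `c` and of the direction of `x × y`
are constant in the direction `[h, b]` on flags (helper97)
-/

set_option linter.unusedSectionVars false

noncomputable section

namespace Pool.Agent.FL.S2

open scoped ContDiff Matrix
open Filter Topology

/-! ### vector calculus -/

theorem GE5_cr (p q : R3) : p ⨯₃ q = ![p 1 * q 2 - p 2 * q 1, p 2 * q 0 - p 0 * q 2,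
    p 0 * q 1 - p 1 * q 0] := by
  simp [crossProduct]

theorem GE5_dt (p q : R3) : p ⬝ᵥ q = p 0 * q 0 + p 1 * q 1 + p 2 * q 2 := by
  simp [dotProduct, Fin.sum_univ_three]

theorem GE5_cd_cross {E : Type*} [NormedAddCommGroup E] [NormedSpace ℝ E] {n : WithTop ℕ∞}
    {p q : E → R3} {s : Set E} (hp : ContDiffOn ℝ n p s) (hq : ContDiffOn ℝ n q s) :
    ContDiffOn ℝ n (fun z => p z ⨯₃ q z) s := by
  have hp' := fun i => (contDiffOn_pi.1 hp) i
  have hq' := fun i => (contDiffOn_pi.1 hq) i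
  rw [contDiffOn_pi]
  intro i
  simp only [GE5_cr]
  fin_cases i
  · exact ((hp' 1).mul (hq' 2)).sub ((hp' 2).mul (hq' 1))
  · exact ((hp' 2).mul (hq' 0)).sub ((hp' 0).mul (hq' 2))
  · exact ((hp' 0).mul (hq' 1)).sub ((hp' 1).mul (hq' 0))

theorem GE5_cd_dot {E : Type*} [NormedAddCommGroup E] [NormedSpace ℝ E] {n : WithTop ℕ∞}
    {p q : E → R3} {s : Set E} (hp : ContDiffOn ℝ n p s) (hq : ContDiffOn ℝ n q s) :
    ContDiffOn ℝ n (fun z => p z ⬝ᵥ q z) s := by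
  have hp' := fun i => (contDiffOn_pi.1 hp) i
  have hq' := fun i => (contDiffOn_pi.1 hq) i
  simp only [GE5_dt]
  exact (((hp' 0).mul (hq' 0)).add ((hp' 1).mul (hq' 1))).add ((hp' 2).mul (hq' 2))

theorem GE5_hd_cross {p q : ℝ → R3} {p' q' : R3} {t : ℝ} (hp : HasDerivAt p p' t)
    (hq : HasDerivAt q q' t) :
    HasDerivAt (fun s => p s ⨯₃ q s) (p' ⨯₃ q t + p t ⨯₃ q') t := by
  have hp' := fun i => (hasDerivAt_pi.1 hp) i
  have hq' := fun i => (hasDerivAt_pi.1 hq) i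
  rw [hasDerivAt_pi]
  intro i
  simp only [GE5_cr]
  fin_cases i
  · refine (((hp' 1).mul (hq' 2)).sub ((hp' 2).mul (hq' 1))).congr_deriv ?_
    simp; ring
  · refine (((hp' 2).mul (hq' 0)).sub ((hp' 0).mul (hq' 2))).congr_deriv ?_
    simp; ring
  · refine (((hp' 0).mul (hq' 1)).sub ((hp' 1).mul (hq' 0))).congr_deriv ?_
    simp; ring

theorem GE5_hd_dot {p q : ℝ → R3} {p' q' : R3} {t : ℝ} (hp : HasDerivAt p p' t)
    (hq : HasDerivAt q q' t) :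
    HasDerivAt (fun s => p s ⬝ᵥ q s) (p' ⬝ᵥ q t + p t ⬝ᵥ q') t := by
  have hp' := fun i => (hasDerivAt_pi.1 hp) i
  have hq' := fun i => (hasDerivAt_pi.1 hq) i
  simp only [GE5_dt]
  refine ((((hp' 0).mul (hq' 0)).add ((hp' 1).mul (hq' 1))).add ((hp' 2).mul (hq' 2))).congr_deriv ?_
  ring

/-- derivative along a line -/
theorem GE5_line {F : Type*} [NormedAddCommGroup F] [NormedSpace ℝ F] {f : R9 → F} {u v : R9}
    {d : F} (hf : DifferentiableAt ℝ f u) (h : HasDerivAt (fun t : ℝ => f (u + t • v)) d 0) :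
    fderiv ℝ f u v = d := by
  rw [← hf.lineDeriv_eq_fderiv]
  exact HasLineDerivAt.lineDeriv h

theorem GE5_la (u v : R9) : HasDerivAt (fun t : ℝ => (u + t • v).1) v.1 0 := by
  have h : HasDerivAt (fun t : ℝ => u.1 + t • v.1) v.1 0 := by
    simpa using ((hasDerivAt_id (0 : ℝ)).smul_const v.1).const_add u.1
  exact h

theorem GE5_lx (u v : R9) : HasDerivAt (fun t : ℝ => (u + t • v).2.1) v.2.1 0 := by
  have h : HasDerivAt (fun t : ℝ => u.2.1 + t • v.2.1) v.2.1 0 := by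
    simpa using ((hasDerivAt_id (0 : ℝ)).smul_const v.2.1).const_add u.2.1
  exact h

theorem GE5_ly (u v : R9) : HasDerivAt (fun t : ℝ => (u + t • v).2.2) v.2.2 0 := by
  have h : HasDerivAt (fun t : ℝ => u.2.2 + t • v.2.2) v.2.2 0 := by
    simpa using ((hasDerivAt_id (0 : ℝ)).smul_const v.2.2).const_add u.2.2
  exact h

/-! ### smoothness, homogeneity, invariance -/

theorem GE5_smooth_fst : ContDiff ℝ ∞ (fun u : R9 => u.1) := contDiff_fst

theorem GE5_smooth_x : ContDiff ℝ ∞ (fun u : R9 => u.2.1) := contDiff_fst.comp contDiff_snd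

theorem GE5_smooth_y : ContDiff ℝ ∞ (fun u : R9 => u.2.2) := contDiff_snd.comp contDiff_snd

theorem GE5_smooth_dot9 : ContDiff ℝ ∞ (fun u : R9 => dot9 u u) := by
  rw [← contDiffOn_univ]
  unfold dot9
  exact ((GE5_cd_dot GE5_smooth_fst.contDiffOn GE5_smooth_fst.contDiffOn).add
    (GE5_cd_dot GE5_smooth_x.contDiffOn GE5_smooth_x.contDiffOn)).add
    (GE5_cd_dot GE5_smooth_y.contDiffOn GE5_smooth_y.contDiffOn)

theorem GE5_smooth_cross : ContDiff ℝ ∞ (fun u : R9 => u.2.1 ⨯₃ u.2.2) := by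
  rw [← contDiffOn_univ]
  exact GE5_cd_cross GE5_smooth_x.contDiffOn GE5_smooth_y.contDiffOn

theorem GE5_smooth_ax : ContDiff ℝ ∞ (fun u : R9 => u.1 ⨯₃ u.2.1) := by
  rw [← contDiffOn_univ]
  exact GE5_cd_cross GE5_smooth_fst.contDiffOn GE5_smooth_x.contDiffOn

theorem GE5_smooth_ay : ContDiff ℝ ∞ (fun u : R9 => u.1 ⨯₃ u.2.2) := by
  rw [← contDiffOn_univ]
  exact GE5_cd_cross GE5_smooth_fst.contDiffOn GE5_smooth_y.contDiffOn

theorem GE5_smooth_BBm : ContDiff ℝ ∞ BBm := by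
  rw [contDiff_pi]
  intro i
  rw [contDiff_pi]
  intro j
  have hx := fun k => contDiff_pi.1 GE5_smooth_ax k
  have hy := fun k => contDiff_pi.1 GE5_smooth_ay k
  have hc := fun k => contDiff_pi.1 GE5_smooth_cross k
  exact (((hx i).mul (hx j)).add ((hy i).mul (hy j))).sub ((hc i).mul (hc j))

theorem GE5_smooth_psi4 : ContDiff ℝ ∞ psi4 := by
  rw [← contDiffOn_univ]
  unfold psi4
  exact ((GE5_cd_dot GE5_smooth_cross.contDiffOn GE5_smooth_cross.contDiffOn).add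
    ((GE5_cd_dot GE5_smooth_fst.contDiffOn GE5_smooth_x.contDiffOn).pow 2)).add
    ((GE5_cd_dot GE5_smooth_fst.contDiffOn GE5_smooth_y.contDiffOn).pow 2)

theorem GE5_smooth_det : ContDiff ℝ ∞ (fun u : R9 => u.1 ⬝ᵥ (u.2.1 ⨯₃ u.2.2)) := by
  rw [← contDiffOn_univ]
  exact GE5_cd_dot GE5_smooth_fst.contDiffOn GE5_smooth_cross.contDiffOn

theorem GE5_dt_nonneg (p : R3) : 0 ≤ p ⬝ᵥ p := by
  rw [GE5_dt]
  nlinarith [mul_self_nonneg (p 0), mul_self_nonneg (p 1), mul_self_nonneg (p 2)]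

theorem GE5_dt_pos {p : R3} (hp : p ≠ 0) : 0 < p ⬝ᵥ p := by
  refine lt_of_le_of_ne (GE5_dt_nonneg p) fun h => hp ?_
  rw [GE5_dt] at h
  have h0 : p 0 = 0 := by nlinarith [sq_nonneg (p 0), sq_nonneg (p 1), sq_nonneg (p 2)]
  have h1 : p 1 = 0 := by nlinarith [sq_nonneg (p 0), sq_nonneg (p 1), sq_nonneg (p 2)]
  have h2 : p 2 = 0 := by nlinarith [sq_nonneg (p 0), sq_nonneg (p 1), sq_nonneg (p 2)]
  funext i
  fin_cases i
  · exact h0
  · exact h1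
  · exact h2

theorem GE5_dot9_pos {u : R9} (hu : u ≠ 0) : 0 < dot9 u u := by
  have h1 := GE5_dt_nonneg u.1
  have h2 := GE5_dt_nonneg u.2.1
  have h3 := GE5_dt_nonneg u.2.2
  unfold dot9
  by_cases ha : u.1 = 0
  · by_cases hx : u.2.1 = 0
    · have hy : u.2.2 ≠ 0 := fun hy => hu (Prod.ext ha (Prod.ext hx hy))
      have := GE5_dt_pos hy
      linarith
    · have := GE5_dt_pos hx
      linarith
  · have := GE5_dt_pos ha
    linarith

theorem GE5_smooth_cM : ContDiffOn ℝ ∞ cM {0}ᶜ := by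
  unfold cM
  exact contDiffOn_const.sub ((contDiffOn_const.mul GE5_smooth_psi4.contDiffOn).div
    (GE5_smooth_dot9.contDiffOn.pow 2) fun u hu => pow_ne_zero 2 (GE5_dot9_pos hu).ne')

theorem GE5_smul_dot9 (r : ℝ) (u : R9) : dot9 (r • u) (r • u) = r ^ 2 * dot9 u u := by
  simp only [dot9, GE5_dt, Prod.smul_fst, Prod.smul_snd, Pi.smul_apply, smul_eq_mul]
  ring

theorem GE5_smul_cross (r : ℝ) (u : R9) :
    (r • u).2.1 ⨯₃ (r • u).2.2 = r ^ 2 • (u.2.1 ⨯₃ u.2.2) := by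
  simp only [Prod.smul_snd, Prod.smul_fst, LinearMap.map_smul, LinearMap.smul_apply, smul_smul]
  rw [pow_two]

theorem GE5_smul_BBm (r : ℝ) (u : R9) : BBm (r • u) = r ^ 4 • BBm u := by
  funext i j
  simp only [BBm, Prod.smul_snd, Prod.smul_fst, LinearMap.map_smul, LinearMap.smul_apply,
    Pi.smul_apply, smul_eq_mul]
  ring

theorem GE5_smul_psi4 (r : ℝ) (u : R9) : psi4 (r • u) = r ^ 4 * psi4 u := by
  simp only [psi4, Prod.smul_snd, Prod.smul_fst, LinearMap.map_smul, LinearMap.smul_apply,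
    GE5_dt, Pi.smul_apply, smul_eq_mul]
  ring

theorem GE5_smul_cM {r : ℝ} (hr : r ≠ 0) (u : R9) : cM (r • u) = cM u := by
  unfold cM
  rw [GE5_smul_psi4, GE5_smul_dot9]
  by_cases h : dot9 u u = 0
  · rw [h]; simp
  · field_simp

theorem GE5_rot_fst (t : ℝ) (u : R9) : (rotH t u).1 = u.1 := rfl

theorem GE5_rot_dot9 (t : ℝ) (u : R9) : dot9 (rotH t u) (rotH t u) = dot9 u u := by
  have h := Real.sin_sq_add_cos_sq t
  simp only [dot9, rotH, GE5_dt, Pi.sub_apply, Pi.add_apply, Pi.smul_apply, smul_eq_mul]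
  linear_combination (u.2.1 0 ^ 2 + u.2.1 1 ^ 2 + u.2.1 2 ^ 2 + u.2.2 0 ^ 2 + u.2.2 1 ^ 2
    + u.2.2 2 ^ 2) * h

theorem GE5_rot_cross (t : ℝ) (u : R9) :
    (rotH t u).2.1 ⨯₃ (rotH t u).2.2 = u.2.1 ⨯₃ u.2.2 := by
  have h := Real.sin_sq_add_cos_sq t
  simp only [rotH, GE5_cr, Pi.sub_apply, Pi.add_apply, Pi.smul_apply, smul_eq_mul]
  funext i
  fin_cases i
  · simp
    linear_combination (u.2.1 1 * u.2.2 2 - u.2.1 2 * u.2.2 1) * h
  · simp
    linear_combination (u.2.1 2 * u.2.2 0 - u.2.1 0 * u.2.2 2) * h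
  · simp
    linear_combination (u.2.1 0 * u.2.2 1 - u.2.1 1 * u.2.2 0) * h

theorem GE5_rot_BBm (t : ℝ) (u : R9) : BBm (rotH t u) = BBm u := by
  have h := Real.sin_sq_add_cos_sq t
  funext i j
  unfold BBm
  rw [GE5_rot_cross]
  have e1 : (rotH t u).1 ⨯₃ (rotH t u).2.1 =
      Real.cos t • (u.1 ⨯₃ u.2.1) - Real.sin t • (u.1 ⨯₃ u.2.2) := by
    simp only [rotH, map_sub, map_smul]
  have e2 : (rotH t u).1 ⨯₃ (rotH t u).2.2 =
      Real.sin t • (u.1 ⨯₃ u.2.1) + Real.cos t • (u.1 ⨯₃ u.2.2) := by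
    simp only [rotH, map_add, map_smul]
  rw [e1, e2]
  simp only [Pi.sub_apply, Pi.add_apply, Pi.smul_apply, smul_eq_mul]
  linear_combination ((u.1 ⨯₃ u.2.1) i * (u.1 ⨯₃ u.2.1) j
    + (u.1 ⨯₃ u.2.2) i * (u.1 ⨯₃ u.2.2) j) * h

theorem GE5_rot_psi4 (t : ℝ) (u : R9) : psi4 (rotH t u) = psi4 u := by
  have h := Real.sin_sq_add_cos_sq t
  unfold psi4
  rw [GE5_rot_cross]
  simp only [rotH, dotProduct_sub, dotProduct_add, dotProduct_smul, smul_eq_mul]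
  linear_combination ((u.1 ⬝ᵥ u.2.1) ^ 2 + (u.1 ⬝ᵥ u.2.2) ^ 2) * h

theorem GE5_rot_cM (t : ℝ) (u : R9) : cM (rotH t u) = cM u := by
  unfold cM
  rw [GE5_rot_psi4, GE5_rot_dot9]

/-! ### derivatives in the direction `[h, b]` -/

theorem GE5_rx (b : R9) : (rot b).2.1 = -b.2.2 := rfl

theorem GE5_ry (b : R9) : (rot b).2.2 = b.2.1 := rfl

theorem GE5_ra (b : R9) : (rot b).1 = 0 := rfl

/-- the commutation relations in coordinates -/
theorem GE5_C1 {u b : R9} (h : Flg u b) :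
    u.1 ⨯₃ b.1 + u.2.1 ⨯₃ b.2.1 + u.2.2 ⨯₃ b.2.2 = 0 := congrArg Prod.fst h.br

theorem GE5_C2 {u b : R9} (h : Flg u b) : u.1 ⨯₃ b.2.1 = b.1 ⨯₃ u.2.1 :=
  sub_eq_zero.1 (congrArg (fun z : R9 => z.2.1) h.br)

theorem GE5_C3 {u b : R9} (h : Flg u b) : u.1 ⨯₃ b.2.2 = b.1 ⨯₃ u.2.2 :=
  sub_eq_zero.1 (congrArg (fun z : R9 => z.2.2) h.br)

theorem GE5_C4 {u b : R9} (h : Flg u b) : u.2.1 ⬝ᵥ b.2.2 = u.2.2 ⬝ᵥ b.2.1 :=
  sub_eq_zero.1 h.brh

theorem GE5_D_fst (u b : R9) : fderiv ℝ (fun z : R9 => z.1) u (rot b) = 0 := by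
  have h : HasFDerivAt (fun z : R9 => z.1) (ContinuousLinearMap.fst ℝ R3 (R3 × R3)) u :=
    hasFDerivAt_fst
  rw [h.fderiv]
  rfl

theorem GE5_diff {F : Type*} [NormedAddCommGroup F] [NormedSpace ℝ F] {f : R9 → F}
    (hf : ContDiff ℝ ∞ f) (u : R9) : DifferentiableAt ℝ f u :=
  (hf.differentiable (by simp)).differentiableAt

theorem GE5_D_dot9 {u b : R9} (h : Flg u b) :
    fderiv ℝ (fun z : R9 => dot9 z z) u (rot b) = 0 := by
  refine GE5_line (GE5_diff GE5_smooth_dot9 u) ?_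
  have h1 := ((GE5_hd_dot (GE5_la u (rot b)) (GE5_la u (rot b))).add
    (GE5_hd_dot (GE5_lx u (rot b)) (GE5_lx u (rot b)))).add
    (GE5_hd_dot (GE5_ly u (rot b)) (GE5_ly u (rot b)))
  refine h1.congr_deriv ?_
  have h4 := GE5_C4 h
  simp only [zero_smul, add_zero, GE5_ra, GE5_rx, GE5_ry]
  simp only [GE5_dt, Pi.neg_apply, Pi.zero_apply] at h4 ⊢
  linear_combination (-2) * h4

theorem GE5_line_cross {u b : R9} (h : Flg u b) :
    HasDerivAt (fun t : ℝ => (u + t • rot b).2.1 ⨯₃ (u + t • rot b).2.2) (-(u.1 ⨯₃ b.1)) 0 := by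
  refine (GE5_hd_cross (GE5_lx u (rot b)) (GE5_ly u (rot b))).congr_deriv ?_
  have h1 := GE5_C1 h
  simp only [zero_smul, add_zero, GE5_rx, GE5_ry]
  have e : (-b.2.2) ⨯₃ u.2.2 = u.2.2 ⨯₃ b.2.2 := by
    rw [LinearMap.map_neg, LinearMap.neg_apply, cross_anticomm]
  rw [e, eq_neg_iff_add_eq_zero, ← h1]
  abel

theorem GE5_line_ax {u b : R9} (h : Flg u b) :
    HasDerivAt (fun t : ℝ => (u + t • rot b).1 ⨯₃ (u + t • rot b).2.1) (-(b.1 ⨯₃ u.2.2)) 0 := by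
  refine (GE5_hd_cross (GE5_la u (rot b)) (GE5_lx u (rot b))).congr_deriv ?_
  simp only [zero_smul, add_zero, GE5_rx, GE5_ra, LinearMap.map_zero, LinearMap.zero_apply,
    zero_add, map_neg, GE5_C3 h]

theorem GE5_line_ay {u b : R9} (h : Flg u b) :
    HasDerivAt (fun t : ℝ => (u + t • rot b).1 ⨯₃ (u + t • rot b).2.2) (b.1 ⨯₃ u.2.1) 0 := by
  refine (GE5_hd_cross (GE5_la u (rot b)) (GE5_ly u (rot b))).congr_deriv ?_
  simp only [zero_smul, add_zero, GE5_ry, GE5_ra, LinearMap.map_zero, LinearMap.zero_apply,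
    zero_add, GE5_C2 h]

theorem GE5_D_cross {u b : R9} (h : Flg u b) :
    fderiv ℝ (fun z : R9 => z.2.1 ⨯₃ z.2.2) u (rot b) = -(u.1 ⨯₃ b.1) :=
  GE5_line (GE5_diff GE5_smooth_cross u) (GE5_line_cross h)

/-- Plücker relation -/
theorem GE5_D_BBm {u b : R9} (h : Flg u b) : fderiv ℝ BBm u (rot b) = 0 := by
  refine GE5_line (GE5_diff GE5_smooth_BBm u) ?_
  rw [hasDerivAt_pi]
  intro i
  rw [hasDerivAt_pi]
  intro j
  have hx := fun k => (hasDerivAt_pi.1 (GE5_line_ax h)) k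
  have hy := fun k => (hasDerivAt_pi.1 (GE5_line_ay h)) k
  have hc := fun k => (hasDerivAt_pi.1 (GE5_line_cross h)) k
  refine ((((hx i).mul (hx j)).add ((hy i).mul (hy j))).sub ((hc i).mul (hc j))).congr_deriv ?_
  simp only [zero_smul, add_zero, Pi.neg_apply, Pi.zero_apply, GE5_cr]
  fin_cases i <;> fin_cases j <;> simp <;> ring

theorem GE5_psi_id {u b : R9} (h : Flg u b) :
    (u.2.1 ⨯₃ u.2.2) ⬝ᵥ (u.1 ⨯₃ b.1) + (u.1 ⬝ᵥ u.2.1) * (u.1 ⬝ᵥ b.2.2)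
      - (u.1 ⬝ᵥ u.2.2) * (u.1 ⬝ᵥ b.2.1) = 0 := by
  have c2 := sub_eq_zero.2 (GE5_C2 h)
  have c3 := sub_eq_zero.2 (GE5_C3 h)
  have c4 := GE5_C4 h
  have c20 := congrFun c2 0
  have c21 := congrFun c2 1
  have c22 := congrFun c2 2
  have c30 := congrFun c3 0
  have c31 := congrFun c3 1
  have c32 := congrFun c3 2
  simp only [GE5_cr, GE5_dt, Pi.sub_apply, Pi.zero_apply, Matrix.cons_val_zero,
    Matrix.cons_val_one, Matrix.cons_val_two, Matrix.head_cons, Matrix.tail_cons] at c20 c21 c22 c30 c31 c32 c4 ⊢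
  linear_combination (u.1 0 ^ 2 + u.1 1 ^ 2 + u.1 2 ^ 2) * c4
    - (u.1 1 * u.2.1 2 - u.1 2 * u.2.1 1) * c30 - (u.1 2 * u.2.1 0 - u.1 0 * u.2.1 2) * c31
    - (u.1 0 * u.2.1 1 - u.1 1 * u.2.1 0) * c32
    + (u.1 1 * u.2.2 2 - u.1 2 * u.2.2 1) * c20 + (u.1 2 * u.2.2 0 - u.1 0 * u.2.2 2) * c21
    + (u.1 0 * u.2.2 1 - u.1 1 * u.2.2 0) * c22

theorem GE5_D_psi4 {u b : R9} (h : Flg u b) : fderiv ℝ psi4 u (rot b) = 0 := by
  refine GE5_line (GE5_diff GE5_smooth_psi4 u) ?_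
  have h1 := ((GE5_hd_dot (GE5_line_cross h) (GE5_line_cross h)).add
    ((GE5_hd_dot (GE5_la u (rot b)) (GE5_lx u (rot b))).pow 2)).add
    ((GE5_hd_dot (GE5_la u (rot b)) (GE5_ly u (rot b))).pow 2)
  refine h1.congr_deriv ?_
  have h4 := GE5_psi_id h
  simp only [zero_smul, add_zero, GE5_ra, GE5_rx, GE5_ry]
  simp only [GE5_dt, Pi.neg_apply, Pi.zero_apply] at h4 ⊢
  simp only [Nat.cast_ofNat, Nat.add_one_sub_one, pow_one]
  linear_combination (-2) * h4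

theorem GE5_ne {u b : R9} (h : Flg u b) : u ≠ 0 := by
  rintro rfl
  have h1 := h.uu
  simp [dot9] at h1

theorem GE5_D_cM {u b : R9} (h : Flg u b) : fderiv ℝ cM u (rot b) = 0 := by
  have hu := GE5_ne h
  have h1 : HasFDerivAt psi4 (fderiv ℝ psi4 u) u := (GE5_diff GE5_smooth_psi4 u).hasFDerivAt
  have h2 : HasFDerivAt (fun z : R9 => dot9 z z) (fderiv ℝ (fun z : R9 => dot9 z z) u) u :=
    (GE5_diff GE5_smooth_dot9 u).hasFDerivAt
  have hd : DifferentiableAt ℝ cM u :=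
    (GE5_smooth_cM.contDiffAt (isOpen_compl_singleton.mem_nhds hu)).differentiableAt (by simp)
  refine GE5_line hd ?_
  have l : HasDerivAt (fun t : ℝ => u + t • rot b) (rot b) 0 := by
    simpa using ((hasDerivAt_id (0 : ℝ)).smul_const (rot b)).const_add u
  have l0 : u + (0 : ℝ) • rot b = u := by simp
  have h1' : HasDerivAt (fun t : ℝ => psi4 (u + t • rot b)) 0 0 := by
    rw [← l0] at h1
    have := h1.comp_hasDerivAt (0 : ℝ) l
    rw [l0, GE5_D_psi4 h] at this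
    exact this
  have h2' : HasDerivAt (fun t : ℝ => dot9 (u + t • rot b) (u + t • rot b)) 0 0 := by
    rw [← l0] at h2
    have := h2.comp_hasDerivAt (0 : ℝ) l
    rw [l0, GE5_D_dot9 h] at this
    exact this
  have h3 : dot9 (u + (0 : ℝ) • rot b) (u + (0 : ℝ) • rot b) ^ 2 ≠ 0 := by
    rw [l0, h.uu]; norm_num
  refine ((hasDerivAt_const (0 : ℝ) (1 : ℝ)).sub
    ((h1'.const_mul 8).div (h2'.pow 2) h3)).congr_deriv ?_
  simp

/-- `det(a, x, y) = 0` on flags -/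
theorem GE5_det {u b : R9} (h : Flg u b) : u.1 ⬝ᵥ (u.2.1 ⨯₃ u.2.2) = 0 := by
  have c1 := GE5_C1 h
  have c2 := sub_eq_zero.2 (GE5_C2 h)
  have c3 := sub_eq_zero.2 (GE5_C3 h)
  have hub := h.ub
  have hbb := h.bb
  have c10 := congrFun c1 0
  have c11 := congrFun c1 1
  have c12 := congrFun c1 2
  have c20 := congrFun c2 0
  have c21 := congrFun c2 1
  have c22 := congrFun c2 2
  have c30 := congrFun c3 0
  have c31 := congrFun c3 1
  have c32 := congrFun c3 2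
  unfold dot9 at hub hbb
  simp only [GE5_cr, GE5_dt, Pi.sub_apply, Pi.add_apply, Pi.zero_apply, Matrix.cons_val_zero,
    Matrix.cons_val_one, Matrix.cons_val_two, Matrix.head_cons, Matrix.tail_cons]
    at c10 c11 c12 c20 c21 c22 c30 c31 c32 hub hbb ⊢
  obtain ⟨a, x, y⟩ := u
  obtain ⟨p, q, r⟩ := b
  dsimp only at *
  generalize a 0 = a0 at *
  generalize a 1 = a1 at *
  generalize a 2 = a2 at *
  generalize x 0 = x0 at *
  generalize x 1 = x1 at *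
  generalize x 2 = x2 at *
  generalize y 0 = y0 at *
  generalize y 1 = y1 at *
  generalize y 2 = y2 at *
  generalize p 0 = p0 at *
  generalize p 1 = p1 at *
  generalize p 2 = p2 at *
  generalize q 0 = q0 at *
  generalize q 1 = q1 at *
  generalize q 2 = q2 at *
  generalize r 0 = r0 at *
  generalize r 1 = r1 at *
  generalize r 2 = r2 at *
  -- `b_a · (a × x) = 0`, `b_a · (a × y) = 0`
  have k1 : p0 * (a1 * x2 - a2 * x1) + p1 * (a2 * x0 - a0 * x2) + p2 * (a0 * x1 - a1 * x0) = 0 := by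
    linear_combination a0 * c20 + a1 * c21 + a2 * c22
  have k2 : p0 * (a1 * y2 - a2 * y1) + p1 * (a2 * y0 - a0 * y2) + p2 * (a0 * y1 - a1 * y0) = 0 := by
    linear_combination a0 * c30 + a1 * c31 + a2 * c32
  have k3 : q0 * (x1 * y2 - x2 * y1) + q1 * (x2 * y0 - x0 * y2) + q2 * (x0 * y1 - x1 * y0) = 0 := by
    linear_combination (-y0) * c10 - y1 * c11 - y2 * c12 - k2
  have k4 : r0 * (x1 * y2 - x2 * y1) + r1 * (x2 * y0 - x0 * y2) + r2 * (x0 * y1 - x1 * y0) = 0 := by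
    linear_combination x0 * c10 + x1 * c11 + x2 * c12 + k1
  linear_combination (-(a0 * (x1 * y2 - x2 * y1) + a1 * (x2 * y0 - x0 * y2)
      + a2 * (x0 * y1 - x1 * y0))) * hbb
    + (p0 * (x1 * y2 - x2 * y1) + p1 * (x2 * y0 - x0 * y2) + p2 * (x0 * y1 - x1 * y0)) * hub
    - (x0 * p0 + x1 * p1 + x2 * p2) * k2 + (y0 * p0 + y1 * p1 + y2 * p2) * k1
    + (a0 * q0 + a1 * q1 + a2 * q2) * k3 + (a0 * r0 + a1 * r1 + a2 * r2) * k4
    + (x0 * q0 + x1 * q1 + x2 * q2) * (y0 * c20 + y1 * c21 + y2 * c22)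
    - (y0 * q0 + y1 * q1 + y2 * q2) * (x0 * c20 + x1 * c21 + x2 * c22)
    + (x0 * r0 + x1 * r1 + x2 * r2) * (y0 * c30 + y1 * c31 + y2 * c32)
    - (y0 * r0 + y1 * r1 + y2 * r2) * (x0 * c30 + x1 * c31 + x2 * c32)

theorem GE5_D_det {u b : R9} (h : Flg u b) :
    fderiv ℝ (fun z : R9 => z.1 ⬝ᵥ (z.2.1 ⨯₃ z.2.2)) u (rot b) = 0 := by
  refine GE5_line (GE5_diff GE5_smooth_det u) ?_
  refine (GE5_hd_dot (GE5_la u (rot b)) (GE5_line_cross h)).congr_deriv ?_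
  simp only [zero_smul, add_zero, GE5_ra, zero_dotProduct, dotProduct_neg, dot_self_cross,
    neg_zero]

/-- `a × b_a` and `x × y` are parallel -/
theorem GE5_par {u b : R9} (h : Flg u b) : (u.1 ⨯₃ b.1) ⨯₃ (u.2.1 ⨯₃ u.2.2) = 0 := by
  have c2 := sub_eq_zero.2 (GE5_C2 h)
  have c3 := sub_eq_zero.2 (GE5_C3 h)
  have c20 := congrFun c2 0
  have c21 := congrFun c2 1
  have c22 := congrFun c2 2
  have c30 := congrFun c3 0
  have c31 := congrFun c3 1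
  have c32 := congrFun c3 2
  simp only [GE5_cr, Pi.sub_apply, Pi.zero_apply, Matrix.cons_val_zero,
    Matrix.cons_val_one, Matrix.cons_val_two, Matrix.head_cons, Matrix.tail_cons]
    at c20 c21 c22 c30 c31 c32
  have k1 : (u.1 ⨯₃ b.1) ⬝ᵥ u.2.1 = 0 := by
    simp only [GE5_cr, GE5_dt, Matrix.cons_val_zero, Matrix.cons_val_one, Matrix.cons_val_two,
      Matrix.head_cons, Matrix.tail_cons]
    linear_combination (-u.1 0) * c20 - u.1 1 * c21 - u.1 2 * c22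
  have k2 : (u.1 ⨯₃ b.1) ⬝ᵥ u.2.2 = 0 := by
    simp only [GE5_cr, GE5_dt, Matrix.cons_val_zero, Matrix.cons_val_one, Matrix.cons_val_two,
      Matrix.head_cons, Matrix.tail_cons]
    linear_combination (-u.1 0) * c30 - u.1 1 * c31 - u.1 2 * c32
  generalize u.1 ⨯₃ b.1 = w at *
  rw [GE5_dt] at k1 k2
  simp only [GE5_cr]
  funext i
  fin_cases i
  · simp
    linear_combination u.2.1 0 * k2 - u.2.2 0 * k1
  · simp
    linear_combination u.2.1 1 * k2 - u.2.2 1 * k1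
  · simp
    linear_combination u.2.1 2 * k2 - u.2.2 2 * k1

/-- the direction of `x × y` -/
theorem GE5_D_dir {u b : R9} (h : Flg u b) (hc : u.2.1 ⨯₃ u.2.2 ≠ 0) :
    DifferentiableAt ℝ (fun z : R9 => (n3 (z.2.1 ⨯₃ z.2.2))⁻¹ • (z.2.1 ⨯₃ z.2.2)) u ∧
    fderiv ℝ (fun z : R9 => (n3 (z.2.1 ⨯₃ z.2.2))⁻¹ • (z.2.1 ⨯₃ z.2.2)) u (rot b) = 0 := by
  have hN := GE5_dt_pos hc
  have hs : 0 < Real.sqrt ((u.2.1 ⨯₃ u.2.2) ⬝ᵥ (u.2.1 ⨯₃ u.2.2)) := Real.sqrt_pos.2 hN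
  have d1 : DifferentiableAt ℝ (fun z : R9 => z.2.1 ⨯₃ z.2.2) u := GE5_diff GE5_smooth_cross u
  have d2 : DifferentiableAt ℝ (fun z : R9 => (z.2.1 ⨯₃ z.2.2) ⬝ᵥ (z.2.1 ⨯₃ z.2.2)) u := by
    refine GE5_diff ?_ u
    rw [← contDiffOn_univ]
    exact GE5_cd_dot GE5_smooth_cross.contDiffOn GE5_smooth_cross.contDiffOn
  have hd : DifferentiableAt ℝ (fun z : R9 => (n3 (z.2.1 ⨯₃ z.2.2))⁻¹ • (z.2.1 ⨯₃ z.2.2)) u := by
    unfold n3
    exact ((d2.sqrt hN.ne').inv hs.ne').smul d1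
  refine ⟨hd, GE5_line hd ?_⟩
  have l1 := GE5_line_cross h
  have l2 := GE5_hd_dot l1 l1
  have e0 : u + (0 : ℝ) • rot b = u := by simp
  have hN' : ((u + (0 : ℝ) • rot b).2.1 ⨯₃ (u + (0 : ℝ) • rot b).2.2) ⬝ᵥ
      ((u + (0 : ℝ) • rot b).2.1 ⨯₃ (u + (0 : ℝ) • rot b).2.2) ≠ 0 := by rw [e0]; exact hN.ne'
  have hs' : Real.sqrt (((u + (0 : ℝ) • rot b).2.1 ⨯₃ (u + (0 : ℝ) • rot b).2.2) ⬝ᵥ
      ((u + (0 : ℝ) • rot b).2.1 ⨯₃ (u + (0 : ℝ) • rot b).2.2)) ≠ 0 := by rw [e0]; exact hs.ne'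
  have l3 := ((l2.sqrt hN').inv hs').smul l1
  refine (show HasDerivAt (fun t : ℝ => (n3 ((u + t • rot b).2.1 ⨯₃ (u + t • rot b).2.2))⁻¹ •
    ((u + t • rot b).2.1 ⨯₃ (u + t • rot b).2.2)) _ 0 from l3).congr_deriv ?_
  simp only [zero_smul, add_zero, Pi.inv_apply]
  have hp := GE5_par h
  have hss : Real.sqrt ((u.2.1 ⨯₃ u.2.2) ⬝ᵥ (u.2.1 ⨯₃ u.2.2)) ^ 2 =
      (u.2.1 ⨯₃ u.2.2) ⬝ᵥ (u.2.1 ⨯₃ u.2.2) := Real.sq_sqrt hN.le
  generalize Real.sqrt ((u.2.1 ⨯₃ u.2.2) ⬝ᵥ (u.2.1 ⨯₃ u.2.2)) = s at *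
  generalize u.2.1 ⨯₃ u.2.2 = c at *
  generalize u.1 ⨯₃ b.1 = w at *
  have hp0 := congrFun hp 0
  have hp1 := congrFun hp 1
  have hp2 := congrFun hp 2
  simp only [GE5_cr, Pi.zero_apply, Matrix.cons_val_zero, Matrix.cons_val_one,
    Matrix.cons_val_two, Matrix.head_cons, Matrix.tail_cons] at hp0 hp1 hp2
  rw [GE5_dt] at hss
  funext i
  simp only [Pi.add_apply, Pi.smul_apply, Pi.neg_apply, smul_eq_mul, Pi.zero_apply, GE5_dt]
  have hs2 : s ≠ 0 := hs.ne'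
  field_simp
  fin_cases i
  · simp
    linear_combination (-2 * w 0) * hss - 2 * c 1 * hp2 + 2 * c 2 * hp1
  · simp
    linear_combination (-2 * w 1) * hss - 2 * c 2 * hp0 + 2 * c 0 * hp2
  · simp
    linear_combination (-2 * w 2) * hss - 2 * c 0 * hp1 + 2 * c 1 * hp0

/-! ### composition -/

theorem GE5_comp {F : Type*} [NormedAddCommGroup F] [NormedSpace ℝ F] {J : R9 → F} {Φ : F → ℝ}
    {u b : R9} (hJ : DifferentiableAt ℝ J u) (h0 : fderiv ℝ J u (rot b) = 0)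
    (hΦ : DifferentiableAt ℝ Φ (J u)) : alM (fun z => Φ (J z)) u b = 0 := by
  have h1 := hΦ.hasFDerivAt.comp u hJ.hasFDerivAt
  have h2 : fderiv ℝ (fun z => Φ (J z)) u = (fderiv ℝ Φ (J u)).comp (fderiv ℝ J u) := h1.fderiv
  rw [alM, h2, ContinuousLinearMap.comp_apply, h0, map_zero]

theorem GE5_congr {f k : R9 → ℝ} {u b : R9} (h : f =ᶠ[𝓝 u] k) : alM f u b = alM k u b := by
  rw [alM, alM, h.fderiv_eq]

theorem GE5_prod {F G : Type*} [NormedAddCommGroup F] [NormedSpace ℝ F] [NormedAddCommGroup G]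
    [NormedSpace ℝ G] {J : R9 → F} {K : R9 → G} {u v : R9} (hJ : DifferentiableAt ℝ J u)
    (hK : DifferentiableAt ℝ K u) (h0 : fderiv ℝ J u v = 0) (h1 : fderiv ℝ K u v = 0) :
    DifferentiableAt ℝ (fun z => (J z, K z)) u ∧ fderiv ℝ (fun z => (J z, K z)) u v = 0 := by
  have h2 := hJ.hasFDerivAt.prodMk hK.hasFDerivAt
  refine ⟨h2.differentiableAt, ?_⟩
  rw [h2.fderiv, ContinuousLinearMap.prod_apply, h0, h1]
  rfl

/-- functions of the invariants `(a, BB, |u|²)` -/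
theorem GE5_al_tau {Φ : R3 × (Fin 3 → Fin 3 → ℝ) × ℝ → ℝ} {u b : R9} (h : Flg u b)
    (hΦ : DifferentiableAt ℝ Φ (u.1, BBm u, dot9 u u)) :
    alM (fun z => Φ (z.1, BBm z, dot9 z z)) u b = 0 := by
  have h1 := GE5_prod (GE5_diff GE5_smooth_BBm u) (GE5_diff GE5_smooth_dot9 u) (GE5_D_BBm h)
    (GE5_D_dot9 h)
  have h2 := GE5_prod (GE5_diff GE5_smooth_fst u) h1.1 (GE5_D_fst u b) h1.2
  exact GE5_comp h2.1 h2.2 hΦ

theorem GE5_diff_cM {u : R9} (hu : u ≠ 0) : DifferentiableAt ℝ cM u :=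
  (GE5_smooth_cM.contDiffAt (isOpen_compl_singleton.mem_nhds hu)).differentiableAt (by simp)

/-- functions of `a`, `c`, `|u|²` and of the direction of `x × y` -/
theorem GE5_al_dir {Φ : R3 × R3 × ℝ × ℝ → ℝ} {u b : R9} (h : Flg u b)
    (hc : u.2.1 ⨯₃ u.2.2 ≠ 0)
    (hΦ : DifferentiableAt ℝ Φ
      (u.1, (n3 (u.2.1 ⨯₃ u.2.2))⁻¹ • (u.2.1 ⨯₃ u.2.2), dot9 u u, cM u)) :
    alM (fun z : R9 => Φ (z.1, (n3 (z.2.1 ⨯₃ z.2.2))⁻¹ • (z.2.1 ⨯₃ z.2.2), dot9 z z, cM z)) u b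
      = 0 := by
  have h1 := GE5_prod (GE5_diff GE5_smooth_dot9 u) (GE5_diff_cM (GE5_ne h)) (GE5_D_dot9 h)
    (GE5_D_cM h)
  have h3 := GE5_prod (GE5_D_dir h hc).1 h1.1 (GE5_D_dir h hc).2 h1.2
  have h2 := GE5_prod (GE5_diff GE5_smooth_fst u) h3.1 (GE5_D_fst u b) h3.2
  exact GE5_comp h2.1 h2.2 hΦ

/-- functions of `a`, `BB`, `|u|²`, `c` -/
theorem GE5_al_tauc {Φ : R3 × (Fin 3 → Fin 3 → ℝ) × ℝ × ℝ → ℝ} {u b : R9} (h : Flg u b)
    (hΦ : DifferentiableAt ℝ Φ (u.1, BBm u, dot9 u u, cM u)) :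
    alM (fun z => Φ (z.1, BBm z, dot9 z z, cM z)) u b = 0 := by
  have h0 := GE5_prod (GE5_diff GE5_smooth_dot9 u) (GE5_diff_cM (GE5_ne h)) (GE5_D_dot9 h)
    (GE5_D_cM h)
  have h1 := GE5_prod (GE5_diff GE5_smooth_BBm u) h0.1 (GE5_D_BBm h) h0.2
  have h2 := GE5_prod (GE5_diff GE5_smooth_fst u) h1.1 (GE5_D_fst u b) h1.2
  exact GE5_comp h2.1 h2.2 hΦ

/-! ### the class `WM` -/

theorem GE5_dAt {n : R9 → ℝ} (hn : ContDiffOn ℝ ∞ n {0}ᶜ) {u : R9} (hu : u ≠ 0) :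
    DifferentiableAt ℝ n u :=
  (hn.contDiffAt (isOpen_compl_singleton.mem_nhds hu)).differentiableAt (by simp)

theorem GE5_phi_zero {n : R9 → ℝ} (hn : PhiM n) : n 0 = 0 := by
  have := hn.hom 0 0
  simpa using this

theorem GE5_WM_zero : WM (fun _ => 0) where
  phi := ⟨contDiffOn_const, fun r u => by simp, fun t u => rfl⟩
  al u b h := by simp [alM]

theorem GE5_WM_add {n k : R9 → ℝ} (hn : WM n) (hk : WM k) : WM (fun u => n u + k u) where
  phi := ⟨hn.phi.smooth.add hk.phi.smooth, fun r u => by rw [hn.phi.hom, hk.phi.hom]; ring,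
    fun t u => by rw [hn.phi.inv, hk.phi.inv]⟩
  al u b h := by
    have hu := GE5_ne h
    have h1 := (GE5_dAt hn.phi.smooth hu).hasFDerivAt.add (GE5_dAt hk.phi.smooth hu).hasFDerivAt
    have h2 : fderiv ℝ (fun z => n z + k z) u = fderiv ℝ n u + fderiv ℝ k u := h1.fderiv
    rw [alM, h2, add_apply]
    have e1 := hn.al u b h
    have e2 := hk.al u b h
    unfold alM at e1 e2
    rw [e1, e2, add_zero]

theorem GE5_WM_smul (r : ℝ) {n : R9 → ℝ} (hn : WM n) : WM (fun u => r * n u) where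
  phi := ⟨contDiffOn_const.mul hn.phi.smooth, fun s u => by rw [hn.phi.hom]; ring,
    fun t u => by rw [hn.phi.inv]⟩
  al u b h := by
    have hu := GE5_ne h
    have h1 := (GE5_dAt hn.phi.smooth hu).hasFDerivAt.const_mul r
    have h2 : fderiv ℝ (fun z => r * n z) u = r • fderiv ℝ n u := h1.fderiv
    rw [alM, h2, smul_apply]
    have e1 := hn.al u b h
    unfold alM at e1
    rw [e1, smul_zero]

theorem GE5_WM_sum {ι : Type*} (s : Finset ι) {n : ι → R9 → ℝ} (h : ∀ i ∈ s, WM (n i)) :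
    WM (fun u => ∑ i ∈ s, n i u) := by
  classical
  induction s using Finset.induction_on with
  | empty => simpa using GE5_WM_zero
  | insert a s ha ih =>
    simp only [Finset.sum_insert ha]
    exact GE5_WM_add (h a (Finset.mem_insert_self a s))
      (ih fun i hi => h i (Finset.mem_insert_of_mem hi))

theorem GE5_al_mul {s n : R9 → ℝ} {u b : R9} (hs : DifferentiableAt ℝ s u)
    (hn : DifferentiableAt ℝ n u) :
    alM (fun z => s z * n z) u b = s u * alM n u b + n u * alM s u b := by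
  have h2 : fderiv ℝ (fun z => s z * n z) u = s u • fderiv ℝ n u + n u • fderiv ℝ s u :=
    (hs.hasFDerivAt.mul hn.hasFDerivAt).fderiv
  unfold alM
  rw [h2]
  simp

/-- multiplication by a function of degree zero which is constant in the direction `[h, b]` -/
theorem GE5_WM_mul {s n : R9 → ℝ} (hs : ContDiffOn ℝ ∞ s {0}ᶜ)
    (h0 : ∀ (r : ℝ) (u : R9), r ≠ 0 → s (r • u) = s u) (hi : ∀ (t : ℝ) (u : R9), s (rotH t u) = s u)
    (ha : ∀ u b, Flg u b → alM s u b = 0) (hn : WM n) : WM (fun u => s u * n u) where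
  phi := ⟨hs.mul hn.phi.smooth, fun r u => by
      by_cases hr : r = 0
      · subst hr
        rw [zero_smul, GE5_phi_zero hn.phi]; ring
      · rw [h0 r u hr, hn.phi.hom]; ring,
    fun t u => by rw [hi, hn.phi.inv]⟩
  al u b h := by
    have hu := GE5_ne h
    rw [GE5_al_mul (GE5_dAt hs hu) (GE5_dAt hn.phi.smooth hu), ha u b h, hn.al u b h]
    ring

/-- `l(c) n` -/
theorem GE5_WM_cM {l : ℝ → ℝ} (hl : ContDiff ℝ ∞ l) {n : R9 → ℝ} (hn : WM n) :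
    WM (fun u => l (cM u) * n u) := by
  refine GE5_WM_mul (s := fun u => l (cM u)) (hl.comp_contDiffOn GE5_smooth_cM)
    (fun r u hr => congrArg l (GE5_smul_cM hr u)) (fun t u => congrArg l (GE5_rot_cM t u))
    (fun u b h => ?_) hn
  exact GE5_comp (GE5_diff_cM (GE5_ne h)) (GE5_D_cM h)
    (hl.differentiable (by simp)).differentiableAt

/-- `det(a, x, y) G` with `G` invariant of degree `-1` -/
theorem GE5_WM_det {G : R9 → ℝ} (hG : ContDiffOn ℝ ∞ G {0}ᶜ)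
    (h1 : ∀ (r : ℝ) (u : R9), r ≠ 0 → G (r • u) = r⁻¹ * G u)
    (hi : ∀ (t : ℝ) (u : R9), G (rotH t u) = G u) :
    WM (fun u => (u.1 ⬝ᵥ (u.2.1 ⨯₃ u.2.2)) * G u) where
  phi := ⟨GE5_smooth_det.contDiffOn.mul hG, fun r u => by
      rw [GE5_smul_cross, Prod.smul_fst, smul_dotProduct, dotProduct_smul, smul_eq_mul,
        smul_eq_mul]
      by_cases hr : r = 0
      · subst hr; simp
      · rw [h1 r u hr]
        field_simp,
    fun t u => by rw [hi, GE5_rot_cross, GE5_rot_fst]⟩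
  al u b h := by
    have hu := GE5_ne h
    rw [GE5_al_mul (GE5_diff GE5_smooth_det u) (GE5_dAt hG hu), GE5_det h]
    have h2 : alM (fun z : R9 => z.1 ⬝ᵥ (z.2.1 ⨯₃ z.2.2)) u b = 0 := GE5_D_det h
    rw [h2]; ring

/-! ### the function `v₀` -/

theorem GE5_vN (p : Par) : WM (vN p) where
  phi := by
    refine ⟨?_, fun r u => ?_, fun t u => ?_⟩
    · unfold vN
      refine ContDiffOn.div ?_ GE5_smooth_dot9.contDiffOn fun u hu => (GE5_dot9_pos hu).ne'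
      refine ContDiffOn.sum fun i _ => ContDiffOn.sum fun j _ => ?_
      exact contDiffOn_const.mul
        (contDiff_pi.1 (contDiff_pi.1 GE5_smooth_BBm i) j).contDiffOn
    · unfold vN
      rw [GE5_smul_BBm, GE5_smul_dot9]
      simp only [Pi.smul_apply, smul_eq_mul]
      have e : ∑ i, ∑ j, p.N i j * (r ^ 4 * BBm u i j) =
          r ^ 4 * ∑ i, ∑ j, p.N i j * BBm u i j := by
        simp only [Finset.mul_sum]
        refine Finset.sum_congr rfl fun i _ => Finset.sum_congr rfl fun j _ => by ring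
      rw [e]
      by_cases hr : r = 0
      · subst hr; simp
      · by_cases h : dot9 u u = 0
        · rw [h]; simp
        · field_simp
    · unfold vN
      rw [GE5_rot_BBm, GE5_rot_dot9]
  al u b h := by
    have h1 := GE5_al_tau (Φ := fun w => (∑ i, ∑ j, p.N i j * w.2.1 i j) / w.2.2) h ?_
    · exact h1
    · have c0 : ContDiffAt ℝ 1 (fun w : R3 × (Fin 3 → Fin 3 → ℝ) × ℝ =>
          ∑ i, ∑ j, p.N i j * w.2.1 i j) (u.1, BBm u, dot9 u u) := by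
        refine ContDiffAt.sum fun i _ => ContDiffAt.sum fun j _ => contDiffAt_const.mul ?_
        exact (contDiff_pi.1 (contDiff_pi.1 (contDiff_fst.comp contDiff_snd) i) j).contDiffAt
      have c1 : ContDiffAt ℝ 1 (fun w : R3 × (Fin 3 → Fin 3 → ℝ) × ℝ => w.2.2)
          (u.1, BBm u, dot9 u u) := (contDiff_snd.comp contDiff_snd).contDiffAt
      refine (c0.div c1 ?_).differentiableAt (by simp)
      simp only
      rw [h.uu]; norm_num

theorem GE5_vq (p : Par) : PhiM (vq p) := by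
  refine ⟨?_, fun r u => ?_, fun t u => ?_⟩
  · have e : vq p = fun u : R9 => 1 / 2 * (u.1 ⬝ᵥ (Matrix.mulVecLin p.R).toContinuousLinearMap u.1)
        + 1 / 2 * (u.2.1 ⬝ᵥ (Matrix.mulVecLin p.S).toContinuousLinearMap u.2.1
        + u.2.2 ⬝ᵥ (Matrix.mulVecLin p.S).toContinuousLinearMap u.2.2)
        + p.ν ⬝ᵥ (u.2.1 ⨯₃ u.2.2) := by
      funext u
      simp [vq]
    rw [e]
    have c1 := GE5_smooth_fst.contDiffOn (s := ({0}ᶜ : Set R9))
    have c2 := GE5_smooth_x.contDiffOn (s := ({0}ᶜ : Set R9))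
    have c3 := GE5_smooth_y.contDiffOn (s := ({0}ᶜ : Set R9))
    have d1 : ContDiffOn ℝ ∞ (fun u : R9 => (Matrix.mulVecLin p.R).toContinuousLinearMap u.1)
      {0}ᶜ := (ContinuousLinearMap.contDiff _).comp_contDiffOn c1
    have d2 : ContDiffOn ℝ ∞ (fun u : R9 => (Matrix.mulVecLin p.S).toContinuousLinearMap u.2.1)
      {0}ᶜ := (ContinuousLinearMap.contDiff _).comp_contDiffOn c2
    have d3 : ContDiffOn ℝ ∞ (fun u : R9 => (Matrix.mulVecLin p.S).toContinuousLinearMap u.2.2)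
      {0}ᶜ := (ContinuousLinearMap.contDiff _).comp_contDiffOn c3
    have d4 : ContDiffOn ℝ ∞ (fun u : R9 => p.ν ⬝ᵥ (u.2.1 ⨯₃ u.2.2)) {0}ᶜ :=
      GE5_cd_dot (p := fun _ => p.ν) contDiffOn_const GE5_smooth_cross.contDiffOn
    exact ((contDiffOn_const.mul (GE5_cd_dot c1 d1)).add (contDiffOn_const.mul
      ((GE5_cd_dot c2 d2).add (GE5_cd_dot c3 d3)))).add d4
  · unfold vq
    rw [GE5_smul_cross]
    simp only [Prod.smul_fst, Prod.smul_snd, Matrix.mulVec_smul, smul_dotProduct, dotProduct_smul,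
      smul_eq_mul]
    ring
  · have h := Real.sin_sq_add_cos_sq t
    unfold vq
    rw [GE5_rot_cross, GE5_rot_fst]
    simp only [rotH, Matrix.mulVec_sub, Matrix.mulVec_add, Matrix.mulVec_smul, sub_dotProduct,
      add_dotProduct, dotProduct_sub, dotProduct_add, smul_dotProduct, dotProduct_smul, smul_eq_mul]
    linear_combination (1 / 2 * (u.2.1 ⬝ᵥ p.S *ᵥ u.2.1) + 1 / 2 * (u.2.2 ⬝ᵥ p.S *ᵥ u.2.2)) * h

theorem GE5_v0 (p : Par) : PhiM (v0 p) :=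
  ⟨(GE5_vq p).smooth.add (GE5_vN p).phi.smooth,
    fun r u => by unfold v0; rw [(GE5_vq p).hom, (GE5_vN p).phi.hom]; ring,
    fun t u => by unfold v0; rw [(GE5_vq p).inv, (GE5_vN p).phi.inv]⟩

/-- derivative of a quadratic form along a line -/
theorem GE5_line_quad {p : ℝ → R3} {p' : R3} {t : ℝ} (S : Matrix (Fin 3) (Fin 3) ℝ)
    (hp : HasDerivAt p p' t) :
    HasDerivAt (fun s => p s ⬝ᵥ S *ᵥ p s) (p' ⬝ᵥ S *ᵥ p t + p t ⬝ᵥ S *ᵥ p') t := by
  have h1 : HasDerivAt (fun s => S *ᵥ p s) (S *ᵥ p') t :=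
    ((Matrix.mulVecLin S).toContinuousLinearMap.hasFDerivAt (x := p t)).comp_hasDerivAt t hp
  exact GE5_hd_dot hp h1

theorem GE5_al_vq (p : Par) (hS : p.Sᵀ = p.S) {u b : R9} (h : Flg u b) :
    alM (vq p) u b = u.2.2 ⬝ᵥ p.S *ᵥ b.2.1 - u.2.1 ⬝ᵥ p.S *ᵥ b.2.2 - p.ν ⬝ᵥ (u.1 ⨯₃ b.1) := by
  have hu := GE5_ne h
  refine GE5_line (GE5_dAt (GE5_vq p).smooth hu) ?_
  have h1 := ((((GE5_line_quad p.R (GE5_la u (rot b))).const_mul (1 / 2)).add
    (((GE5_line_quad p.S (GE5_lx u (rot b))).add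
    (GE5_line_quad p.S (GE5_ly u (rot b)))).const_mul (1 / 2))).add
    (GE5_hd_dot (hasDerivAt_const (0 : ℝ) p.ν) (GE5_line_cross h)))
  refine (show HasDerivAt (fun t : ℝ => vq p (u + t • rot b)) _ 0 from h1).congr_deriv ?_
  have hs : ∀ f g : R3, f ⬝ᵥ p.S *ᵥ g = g ⬝ᵥ p.S *ᵥ f := by
    intro f g
    rw [Matrix.dotProduct_mulVec, ← Matrix.mulVec_transpose, hS, dotProduct_comm]
  simp only [zero_smul, add_zero, GE5_ra, GE5_rx, GE5_ry, zero_dotProduct, Matrix.mulVec_zero,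
    dotProduct_zero, mul_zero, zero_add, dotProduct_neg, neg_dotProduct, Matrix.mulVec_neg]
  rw [hs b.2.2 u.2.1, hs b.2.1 u.2.2]
  ring

theorem GE5_al_v0 (p : Par) (hS : p.Sᵀ = p.S) {u b : R9} (h : Flg u b) :
    alM (v0 p) u b = u.2.2 ⬝ᵥ p.S *ᵥ b.2.1 - u.2.1 ⬝ᵥ p.S *ᵥ b.2.2 - p.ν ⬝ᵥ (u.1 ⨯₃ b.1) := by
  have hu := GE5_ne h
  have h1 := (GE5_dAt (GE5_vq p).smooth hu).hasFDerivAt.add
    (GE5_dAt (GE5_vN p).phi.smooth hu).hasFDerivAt
  have h2 : fderiv ℝ (v0 p) u = fderiv ℝ (vq p) u + fderiv ℝ (vN p) u := h1.fderiv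
  have h3 := GE5_al_vq p hS h
  have h4 := (GE5_vN p).al u b h
  unfold alM at h3 h4 ⊢
  rw [h2, add_apply, h3, h4, add_zero]

end Pool.Agent.FL.S2
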