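import Mathlib

/-!
# MP_f09395_gt, space (2), GE3: normal form of flat flags in the coordinates (a, x, y)
-/

noncomputable section

namespace Pool.Agent.FL.S2

open Matrix

/-- positively oriented orthonormal frame of three-space -/
structure Frame3 (e1 e2 e3 : Fin 3 → ℝ) : Prop where
  n1 : e1 ⬝ᵥ e1 = 1
  n2 : e2 ⬝ᵥ e2 = 1
  n3 : e3 ⬝ᵥ e3 = 1
  o12 : e1 ⬝ᵥ e2 = 0
  o13 : e1 ⬝ᵥ e3 = 0
  o23 : e2 ⬝ᵥ e3 = 0
  c12 : e1 ⨯₃ e2 = e3
  c23 : e2 ⨯₃ e3 = e1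
  c31 : e3 ⨯₃ e1 = e2

namespace GE3

private theorem normalise {v : Fin 3 → ℝ} (hv : v ≠ 0) :
    ∃ n : Fin 3 → ℝ, n ⬝ᵥ n = 1 ∧ ∃ c : ℝ, n = c • v := by
  have h0 : 0 < v ⬝ᵥ v := by
    have h1 : 0 ≤ v ⬝ᵥ v := by
      simp only [vec3_dotProduct]
      nlinarith [mul_self_nonneg (v 0), mul_self_nonneg (v 1), mul_self_nonneg (v 2)]
    have h2 : v ⬝ᵥ v ≠ 0 := by
      intro h
      exact hv (dotProduct_self_eq_zero.1 h)
    exact lt_of_le_of_ne h1 (Ne.symm h2)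
  refine ⟨(Real.sqrt (v ⬝ᵥ v))⁻¹ • v, ?_, _, rfl⟩
  rw [smul_dotProduct, dotProduct_smul, smul_eq_mul, smul_eq_mul]
  have h3 : Real.sqrt (v ⬝ᵥ v) ≠ 0 := (Real.sqrt_pos.2 h0).ne'
  have h4 : Real.sqrt (v ⬝ᵥ v) * Real.sqrt (v ⬝ᵥ v) = v ⬝ᵥ v := Real.mul_self_sqrt h0.le
  field_simp
  nlinarith [h4]

private theorem unit_perp (P Q : Fin 3 → ℝ) :
    ∃ n : Fin 3 → ℝ, n ⬝ᵥ n = 1 ∧ n ⬝ᵥ P = 0 ∧ n ⬝ᵥ Q = 0 := by
  have hdet : (Matrix.of ![P, Q, 0]).det = 0 := by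
    rw [Matrix.det_fin_three]
    simp
  obtain ⟨v, hv, hM⟩ := Matrix.exists_mulVec_eq_zero_iff.2 hdet
  obtain ⟨n, hn, c, rfl⟩ := normalise hv
  refine ⟨_, hn, ?_, ?_⟩
  · have := congrFun hM 0
    simp only [mulVec, of_apply, cons_val_zero, Pi.zero_apply] at this
    rw [smul_dotProduct, dotProduct_comm, this, smul_zero]
  · have := congrFun hM 1
    simp only [mulVec, of_apply, cons_val_one, cons_val_zero, Pi.zero_apply] at this
    rw [smul_dotProduct, dotProduct_comm, this, smul_zero]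

private theorem ext3 {u v : Fin 3 → ℝ} (h0 : u 0 = v 0) (h1 : u 1 = v 1) (h2 : u 2 = v 2) :
    u = v := by
  funext i
  fin_cases i <;> assumption

private theorem dot3 (u v : Fin 3 → ℝ) : u ⬝ᵥ v = u 0 * v 0 + u 1 * v 1 + u 2 * v 2 := by
  simp only [vec3_dotProduct]

private theorem cr0 (u v : Fin 3 → ℝ) : (u ⨯₃ v) 0 = u 1 * v 2 - u 2 * v 1 := by
  simp [cross_apply]

private theorem cr1 (u v : Fin 3 → ℝ) : (u ⨯₃ v) 1 = u 2 * v 0 - u 0 * v 2 := by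
  simp [cross_apply]

private theorem cr2 (u v : Fin 3 → ℝ) : (u ⨯₃ v) 2 = u 0 * v 1 - u 1 * v 0 := by
  simp [cross_apply]

private theorem frame_of_unit {n : Fin 3 → ℝ} (hn : n ⬝ᵥ n = 1) :
    ∃ g1 g2 : Fin 3 → ℝ, Frame3 g1 g2 n := by
  obtain ⟨g, hg, hgn, -⟩ := unit_perp n n
  refine ⟨g, n ⨯₃ g, ?_⟩
  rw [dot3] at hn hg hgn
  refine ⟨?_, ?_, ?_, ?_, ?_, ?_, ?_, ?_, rfl⟩
  · rw [dot3]; exact hg
  · rw [dot3, cr0, cr1, cr2]
    linear_combination (g 0 * g 0 + g 1 * g 1 + g 2 * g 2) * hn + hg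
      - (g 0 * n 0 + g 1 * n 1 + g 2 * n 2) * hgn
  · rw [dot3]; exact hn
  · rw [dot3, cr0, cr1, cr2]; ring
  · rw [dot3]; exact hgn
  · rw [dot3, cr0, cr1, cr2]; ring
  · apply ext3
    · rw [cr0, cr1, cr2]
      linear_combination n 0 * hg - g 0 * hgn
    · rw [cr1, cr0, cr2]
      linear_combination n 1 * hg - g 1 * hgn
    · rw [cr2, cr0, cr1]
      linear_combination n 2 * hg - g 2 * hgn
  · apply ext3
    · rw [cr0, cr1, cr2]
      linear_combination g 0 * hn - n 0 * hgn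
    · rw [cr1, cr0, cr2]
      linear_combination g 1 * hn - n 1 * hgn
    · rw [cr2, cr0, cr1]
      linear_combination g 2 * hn - n 2 * hgn

/-- the transposed frame -/
theorem frame_transpose {A1 A2 A3 : Fin 3 → ℝ} (h : Frame3 A1 A2 A3) :
    Frame3 ![A1 0, A2 0, A3 0] ![A1 1, A2 1, A3 1] ![A1 2, A2 2, A3 2] := by
  have hM : (Matrix.of ![A1, A2, A3]) * (Matrix.of ![A1, A2, A3])ᵀ = 1 := by
    have n1 := h.n1
    have n2 := h.n2
    have n3 := h.n3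
    have o12 := h.o12
    have o13 := h.o13
    have o23 := h.o23
    rw [dot3] at n1 n2 n3 o12 o13 o23
    ext i j
    fin_cases i <;> fin_cases j <;>
      simp [Matrix.mul_apply, Fin.sum_univ_three] <;> linarith
  have hN := mul_eq_one_comm.1 hM
  have hE : ∀ i j : Fin 3, A1 i * A1 j + A2 i * A2 j + A3 i * A3 j = if i = j then 1 else 0 := by
    intro i j
    have := congrFun (congrFun hN i) j
    simpa [Matrix.mul_apply, Fin.sum_univ_three, Matrix.one_apply] using this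
  have c12 := h.c12
  have c23 := h.c23
  have c31 := h.c31
  have c12a := congrFun c12 0
  have c12b := congrFun c12 1
  have c12c := congrFun c12 2
  have c23a := congrFun c23 0
  have c23b := congrFun c23 1
  have c23c := congrFun c23 2
  have c31a := congrFun c31 0
  have c31b := congrFun c31 1
  have c31c := congrFun c31 2
  rw [cr0] at c12a c23a c31a
  rw [cr1] at c12b c23b c31b
  rw [cr2] at c12c c23c c31c
  refine ⟨?_, ?_, ?_, ?_, ?_, ?_, ?_, ?_, ?_⟩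
  · rw [dot3]; simpa using hE 0 0
  · rw [dot3]; simpa using hE 1 1
  · rw [dot3]; simpa using hE 2 2
  · rw [dot3]; simpa using hE 0 1
  · rw [dot3]; simpa using hE 0 2
  · rw [dot3]; simpa using hE 1 2
  · apply ext3
    · rw [cr0]; simp; linarith
    · rw [cr1]; simp; linarith
    · rw [cr2]; simp; linarith
  · apply ext3
    · rw [cr0]; simp; linarith
    · rw [cr1]; simp; linarith
    · rw [cr2]; simp; linarith
  · apply ext3
    · rw [cr0]; simp; linarith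
    · rw [cr1]; simp; linarith
    · rw [cr2]; simp; linarith

/-- expansion in a frame -/
theorem frame_expand {e1 e2 e3 : Fin 3 → ℝ} (h : Frame3 e1 e2 e3) (v : Fin 3 → ℝ) :
    v = (v ⬝ᵥ e1) • e1 + (v ⬝ᵥ e2) • e2 + (v ⬝ᵥ e3) • e3 := by
  have ht := frame_transpose h
  have n1 := ht.n1
  have n2 := ht.n2
  have n3 := ht.n3
  have o12 := ht.o12
  have o13 := ht.o13
  have o23 := ht.o23
  rw [dot3] at n1 n2 n3 o12 o13 o23
  simp at n1 n2 n3 o12 o13 o23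
  apply ext3
  · simp only [dot3, Pi.add_apply, Pi.smul_apply, smul_eq_mul]
    linear_combination -(v 0) * n1 - v 1 * o12 - v 2 * o13
  · simp only [dot3, Pi.add_apply, Pi.smul_apply, smul_eq_mul]
    linear_combination -(v 1) * n2 - v 0 * o12 - v 2 * o23
  · simp only [dot3, Pi.add_apply, Pi.smul_apply, smul_eq_mul]
    linear_combination -(v 2) * n3 - v 0 * o13 - v 1 * o23

private theorem parallel {x v : Fin 3 → ℝ} (hx : x ≠ 0) (h : x ⨯₃ v = 0) :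
    ∃ l : ℝ, v = l • x := by
  have h0 : x ⬝ᵥ x ≠ 0 := fun h' => hx (dotProduct_self_eq_zero.1 h')
  refine ⟨(x ⬝ᵥ v) / (x ⬝ᵥ x), ?_⟩
  have a0 := congrFun h 0
  have a1 := congrFun h 1
  have a2 := congrFun h 2
  rw [cr0] at a0
  rw [cr1] at a1
  rw [cr2] at a2
  simp only [Pi.zero_apply] at a0 a1 a2
  rw [dot3] at h0 ⊢
  rw [dot3]
  apply ext3
  · rw [Pi.smul_apply, smul_eq_mul, div_mul_eq_mul_div, eq_div_iff h0]
    linear_combination x 2 * a1 - x 1 * a2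
  · rw [Pi.smul_apply, smul_eq_mul, div_mul_eq_mul_div, eq_div_iff h0]
    linear_combination x 0 * a2 - x 2 * a0
  · rw [Pi.smul_apply, smul_eq_mul, div_mul_eq_mul_div, eq_div_iff h0]
    linear_combination x 1 * a0 - x 0 * a1

private theorem parallel2 {a b c d : ℝ} (h : b * c = a * d) :
    ∃ e1 e2 r s : ℝ, e1 ^ 2 + e2 ^ 2 = 1 ∧ a = r * e1 ∧ b = r * e2 ∧ c = s * e1 ∧ d = s * e2 := by
  by_cases h1 : a ^ 2 + b ^ 2 = 0
  · have ha : a = 0 := by nlinarith [sq_nonneg a, sq_nonneg b]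
    have hb : b = 0 := by nlinarith [sq_nonneg a, sq_nonneg b]
    by_cases h2 : c ^ 2 + d ^ 2 = 0
    · have hc : c = 0 := by nlinarith [sq_nonneg c, sq_nonneg d]
      have hd : d = 0 := by nlinarith [sq_nonneg c, sq_nonneg d]
      exact ⟨1, 0, 0, 0, by norm_num, by simp [ha], by simp [hb], by simp [hc], by simp [hd]⟩
    · have hp : 0 < c ^ 2 + d ^ 2 := lt_of_le_of_ne (by positivity) (Ne.symm h2)
      have hs := Real.sqrt_pos.2 hp
      have hq : Real.sqrt (c ^ 2 + d ^ 2) ^ 2 = c ^ 2 + d ^ 2 := Real.sq_sqrt hp.le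
      set r := Real.sqrt (c ^ 2 + d ^ 2) with hr
      refine ⟨c / r, d / r, 0, r, ?_, by simp [ha], by simp [hb], ?_, ?_⟩
      · field_simp
        linarith
      · field_simp
      · field_simp
  · have hp : 0 < a ^ 2 + b ^ 2 := lt_of_le_of_ne (by positivity) (Ne.symm h1)
    have hs := Real.sqrt_pos.2 hp
    have hq : Real.sqrt (a ^ 2 + b ^ 2) ^ 2 = a ^ 2 + b ^ 2 := Real.sq_sqrt hp.le
    set r := Real.sqrt (a ^ 2 + b ^ 2) with hr
    have hr0 : r ≠ 0 := hs.ne'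
    refine ⟨a / r, b / r, r, (a * c + b * d) / r, ?_, ?_, ?_, ?_, ?_⟩
    · field_simp
      linarith
    · field_simp
    · field_simp
    · rw [div_mul_div_comm, eq_div_iff (mul_ne_zero hr0 hr0)]
      linear_combination c * hq + b * h
    · rw [div_mul_div_comm, eq_div_iff (mul_ne_zero hr0 hr0)]
      linear_combination d * hq - a * h

private theorem half_angle {u v : ℝ} (h : u ^ 2 + v ^ 2 = 1) :
    ∃ z1 z2 : ℝ, z1 ^ 2 + z2 ^ 2 = 1 ∧ u = z1 ^ 2 - z2 ^ 2 ∧ v = 2 * z1 * z2 := by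
  by_cases h1 : 1 + u = 0
  · have hu : u = -1 := by linarith
    have hv : v = 0 := by
      have : v ^ 2 = 0 := by rw [hu] at h; linarith
      exact pow_eq_zero_iff (two_ne_zero) |>.1 this
    exact ⟨0, 1, by norm_num, by rw [hu]; norm_num, by rw [hv]; norm_num⟩
  · have hp : 0 < (1 + u) / 2 := by
      have h2 : -1 ≤ u := by nlinarith [sq_nonneg v, sq_nonneg (u - 1), sq_nonneg (u + 1)]
      have h3 : 0 < 1 + u := lt_of_le_of_ne (by linarith) (Ne.symm h1)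
      linarith
    have hs := Real.sqrt_pos.2 hp
    have hq : Real.sqrt ((1 + u) / 2) ^ 2 = (1 + u) / 2 := Real.sq_sqrt hp.le
    set r := Real.sqrt ((1 + u) / 2) with hr
    have hr0 : r ≠ 0 := hs.ne'
    have hu : u = 2 * r ^ 2 - 1 := by linarith
    have hz : (v / (2 * r)) ^ 2 = 1 - r ^ 2 := by
      rw [div_pow, div_eq_iff (by positivity)]
      have : v ^ 2 = 1 - u ^ 2 := by linarith
      rw [this, hu]
      ring
    refine ⟨r, v / (2 * r), by rw [hz]; ring, by rw [hz, hu]; ring, ?_⟩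
    field_simp

private theorem sign_case {r1 r2 s1 s2 : ℝ} (h1 : r1 ^ 2 + r2 ^ 2 = 1 / 2)
    (h2 : s1 ^ 2 + s2 ^ 2 = 1 / 2) (h3 : r1 * s1 + r2 * s2 = 0) :
    (s1 = r2 ∧ s2 = -r1) ∨ (s1 = -r2 ∧ s2 = r1) := by
  have k1 : (s1 - r2) * (s1 + r2) = 0 := by
    linear_combination (-2 * s1 ^ 2) * h1 + (2 * r2 ^ 2) * h2
      + 2 * (r1 * s1 - r2 * s2) * h3
  rcases mul_eq_zero.1 k1 with h | h
  · have e : s1 = r2 := by linarith
    subst e
    have k2 : s1 * (r1 + s2) = 0 := by linear_combination h3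
    rcases mul_eq_zero.1 k2 with h4 | h4
    · have k3 : (s2 - r1) * (s2 + r1) = 0 := by linear_combination h2 - h1
      rcases mul_eq_zero.1 k3 with h5 | h5
      · right
        exact ⟨by linarith, by linarith⟩
      · left
        exact ⟨by linarith, by linarith⟩
    · left
      exact ⟨by linarith, by linarith⟩
  · have e : s1 = -r2 := by linarith
    subst e
    have k2 : r2 * (s2 - r1) = 0 := by linear_combination h3
    rcases mul_eq_zero.1 k2 with h4 | h4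
    · have k3 : (s2 - r1) * (s2 + r1) = 0 := by linear_combination h2 - h1
      rcases mul_eq_zero.1 k3 with h5 | h5
      · right
        exact ⟨by linarith, by linarith⟩
      · left
        exact ⟨by linarith, by linarith⟩
    · right
      exact ⟨by linarith, by linarith⟩

private theorem plane_aux {e1 e2 k1 k2 r1 r2 : ℝ} (he : e1 ^ 2 + e2 ^ 2 = 1)
    (hk : k1 ^ 2 + k2 ^ 2 = 1) (hr : r1 ^ 2 + r2 ^ 2 = 1 / 2) :
    ∃ c s z1 z2 co si : ℝ, c ^ 2 + s ^ 2 = 1 ∧ z1 ^ 2 + z2 ^ 2 = 1 ∧ co ^ 2 + si ^ 2 = 1 ∧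
      e1 = c * z1 + s * z2 ∧ e2 = c * z2 - s * z1 ∧ k1 = c * z1 - s * z2 ∧
      k2 = c * z2 + s * z1 ∧ r1 + r2 = co ∧ r1 - r2 = si := by
  have hu : (e1 * k1 - e2 * k2) ^ 2 + (e1 * k2 + e2 * k1) ^ 2 = 1 := by
    linear_combination (k1 ^ 2 + k2 ^ 2) * he + hk
  obtain ⟨z1, z2, hz, h1, h2⟩ := half_angle hu
  refine ⟨e1 * z1 + e2 * z2, e1 * z2 - e2 * z1, z1, z2, r1 + r2, r1 - r2, ?_, hz, ?_, ?_, ?_, ?_,
    ?_, rfl, rfl⟩
  · linear_combination (z1 ^ 2 + z2 ^ 2) * he + hz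
  · linear_combination 2 * hr
  · linear_combination -e1 * hz
  · linear_combination -e2 * hz
  · linear_combination e1 * h1 + e2 * h2 - k1 * he
  · linear_combination e1 * h2 - e2 * h1 - k2 * he

private theorem plane_core {M11 M12 M21 M22 N11 N12 N21 N22 e1 e2 k1 k2 r1 r2 : ℝ}
    (he : e1 ^ 2 + e2 ^ 2 = 1) (hk : k1 ^ 2 + k2 ^ 2 = 1) (hr : r1 ^ 2 + r2 ^ 2 = 1 / 2)
    (m11 : M11 = r1 * e1 + r2 * k1) (m22 : M22 = r1 * e1 - r2 * k1)
    (m21 : M21 = r1 * e2 + r2 * k2) (m12 : M12 = r2 * k2 - r1 * e2)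
    (n11 : N11 = r2 * e1 - r1 * k1) (n22 : N22 = r2 * e1 + r1 * k1)
    (n21 : N21 = r2 * e2 - r1 * k2) (n12 : N12 = -(r1 * k2) - r2 * e2) :
    ∃ c s z1 z2 co si : ℝ, c ^ 2 + s ^ 2 = 1 ∧ z1 ^ 2 + z2 ^ 2 = 1 ∧ co ^ 2 + si ^ 2 = 1 ∧
      M11 = co * c * z1 + si * s * z2 ∧ M21 = co * c * z2 - si * s * z1 ∧
      M12 = co * s * z1 - si * c * z2 ∧ M22 = co * s * z2 + si * c * z1 ∧
      N11 = -(si * c * z1) + co * s * z2 ∧ N21 = -(si * c * z2) - co * s * z1 ∧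
      N12 = -(si * s * z1) - co * c * z2 ∧ N22 = -(si * s * z2) + co * c * z1 := by
  obtain ⟨c, s, z1, z2, co, si, hc, hz, hcs, t1, t2, t3, t4, t5, t6⟩ := plane_aux he hk hr
  refine ⟨c, s, z1, z2, co, si, hc, hz, hcs, ?_, ?_, ?_, ?_, ?_, ?_, ?_, ?_⟩
  · rw [m11, t1, t3, ← t5, ← t6]; ring
  · rw [m21, t2, t4, ← t5, ← t6]; ring
  · rw [m12, t2, t4, ← t5, ← t6]; ring
  · rw [m22, t1, t3, ← t5, ← t6]; ring
  · rw [n11, t1, t3, ← t5, ← t6]; ring
  · rw [n21, t2, t4, ← t5, ← t6]; ring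
  · rw [n12, t2, t4, ← t5, ← t6]; ring
  · rw [n22, t1, t3, ← t5, ← t6]; ring

private theorem plane {M11 M12 M21 M22 N11 N12 N21 N22 : ℝ}
    (R1 : M11 * N12 + M21 * N22 = M12 * N11 + M22 * N21)
    (R2 : M11 * N21 - M21 * N11 + M12 * N22 - M22 * N12 = 0)
    (h1 : M11 ^ 2 + M12 ^ 2 + M21 ^ 2 + M22 ^ 2 = 1)
    (h2 : N11 ^ 2 + N12 ^ 2 + N21 ^ 2 + N22 ^ 2 = 1)
    (h3 : M11 * N11 + M12 * N12 + M21 * N21 + M22 * N22 = 0) :
    ∃ c s z1 z2 co si : ℝ, c ^ 2 + s ^ 2 = 1 ∧ z1 ^ 2 + z2 ^ 2 = 1 ∧ co ^ 2 + si ^ 2 = 1 ∧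
      M11 = co * c * z1 + si * s * z2 ∧ M21 = co * c * z2 - si * s * z1 ∧
      M12 = co * s * z1 - si * c * z2 ∧ M22 = co * s * z2 + si * c * z1 ∧
      N11 = -(si * c * z1) + co * s * z2 ∧ N21 = -(si * c * z2) - co * s * z1 ∧
      N12 = -(si * s * z1) - co * c * z2 ∧ N22 = -(si * s * z2) + co * c * z1 := by
  have hP : (M21 - M12) * (N11 + N22) = (M11 + M22) * (N21 - N12) := by
    linear_combination R1 - R2
  have hQ : (M21 + M12) * (N11 - N22) = (M11 - M22) * (N21 + N12) := by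
    linear_combination -R1 - R2
  obtain ⟨e1, e2, r1, s1, he, a1, a2, a3, a4⟩ := parallel2 hP
  obtain ⟨k1, k2, r2, s2, hk, b1, b2, b3, b4⟩ := parallel2 hQ
  have hr : (r1 / 2) ^ 2 + (r2 / 2) ^ 2 = 1 / 2 := by
    have : (M11 + M22) ^ 2 + (M21 - M12) ^ 2 + (M11 - M22) ^ 2 + (M21 + M12) ^ 2 = 2 := by
      linear_combination 2 * h1
    rw [a1, a2, b1, b2] at this
    linear_combination this / 4 - r1 ^ 2 / 4 * he - r2 ^ 2 / 4 * hk
  have hs : (s1 / 2) ^ 2 + (s2 / 2) ^ 2 = 1 / 2 := by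
    have : (N11 + N22) ^ 2 + (N21 - N12) ^ 2 + (N11 - N22) ^ 2 + (N21 + N12) ^ 2 = 2 := by
      linear_combination 2 * h2
    rw [a3, a4, b3, b4] at this
    linear_combination this / 4 - s1 ^ 2 / 4 * he - s2 ^ 2 / 4 * hk
  have hm : (r1 / 2) * (s1 / 2) + (r2 / 2) * (s2 / 2) = 0 := by
    have : (M11 + M22) * (N11 + N22) + (M21 - M12) * (N21 - N12) + (M11 - M22) * (N11 - N22)
        + (M21 + M12) * (N21 + N12) = 0 := by
      linear_combination 2 * h3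
    rw [a1, a2, a3, a4, b1, b2, b3, b4] at this
    linear_combination this / 4 - r1 * s1 / 4 * he - r2 * s2 / 4 * hk
  rcases sign_case hr hs hm with ⟨g1, g2⟩ | ⟨g1, g2⟩
  · refine plane_core he hk hr ?_ ?_ ?_ ?_ ?_ ?_ ?_ ?_
    · linear_combination a1 / 2 + b1 / 2
    · linear_combination a1 / 2 - b1 / 2
    · linear_combination a2 / 2 + b2 / 2
    · linear_combination b2 / 2 - a2 / 2
    · linear_combination a3 / 2 + b3 / 2 + g1 * e1 + g2 * k1
    · linear_combination a3 / 2 - b3 / 2 + g1 * e1 - g2 * k1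
    · linear_combination a4 / 2 + b4 / 2 + g1 * e2 + g2 * k2
    · linear_combination b4 / 2 - a4 / 2 + g2 * k2 - g1 * e2
  · have hk' : (-k1) ^ 2 + (-k2) ^ 2 = 1 := by linear_combination hk
    have hr' : (r1 / 2) ^ 2 + (-(r2 / 2)) ^ 2 = 1 / 2 := by linear_combination hr
    refine plane_core he hk' hr' ?_ ?_ ?_ ?_ ?_ ?_ ?_ ?_
    · linear_combination a1 / 2 + b1 / 2
    · linear_combination a1 / 2 - b1 / 2
    · linear_combination a2 / 2 + b2 / 2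
    · linear_combination b2 / 2 - a2 / 2
    · linear_combination a3 / 2 + b3 / 2 + g1 * e1 + g2 * k1
    · linear_combination a3 / 2 - b3 / 2 + g1 * e1 - g2 * k1
    · linear_combination a4 / 2 + b4 / 2 + g1 * e2 + g2 * k2
    · linear_combination b4 / 2 - a4 / 2 + g2 * k2 - g1 * e2

/-- all six vectors are orthogonal to the unit vector `n` -/
private def Perp (n a x y a' x' y' : Fin 3 → ℝ) : Prop :=
  n ⬝ᵥ n = 1 ∧ n ⬝ᵥ a = 0 ∧ n ⬝ᵥ x = 0 ∧ n ⬝ᵥ y = 0 ∧ n ⬝ᵥ a' = 0 ∧ n ⬝ᵥ x' = 0 ∧ n ⬝ᵥ y' = 0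

private theorem perp_of_ne {t a x y a' x' y' : Fin 3 → ℝ} (ht : t ≠ 0) (h1 : t ⬝ᵥ a = 0)
    (h2 : t ⬝ᵥ x = 0) (h3 : t ⬝ᵥ y = 0) (h4 : t ⬝ᵥ a' = 0) (h5 : t ⬝ᵥ x' = 0)
    (h6 : t ⬝ᵥ y' = 0) : ∃ n, Perp n a x y a' x' y' := by
  obtain ⟨n, hn, c, rfl⟩ := normalise ht
  refine ⟨_, hn, ?_, ?_, ?_, ?_, ?_, ?_⟩
  · rw [smul_dotProduct, h1, smul_zero]
  · rw [smul_dotProduct, h2, smul_zero]
  · rw [smul_dotProduct, h3, smul_zero]
  · rw [smul_dotProduct, h4, smul_zero]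
  · rw [smul_dotProduct, h5, smul_zero]
  · rw [smul_dotProduct, h6, smul_zero]

private theorem deg {a x y a' x' y' : Fin 3 → ℝ} (hx : x ≠ 0) (t1 : x ⨯₃ x' = 0)
    (t3 : a ⨯₃ a' = 0) (t4 : x ⨯₃ y' + y ⨯₃ x' = 0)
    (C2 : a ⨯₃ x' = a' ⨯₃ x) (C3 : a ⨯₃ y' = a' ⨯₃ y)
    (C4 : x ⬝ᵥ y' = y ⬝ᵥ x') (hu : a ⬝ᵥ a + x ⬝ᵥ x + y ⬝ᵥ y = 1)
    (hb : a' ⬝ᵥ a' + x' ⬝ᵥ x' + y' ⬝ᵥ y' = 1) (hub : a ⬝ᵥ a' + x ⬝ᵥ x' + y ⬝ᵥ y' = 0) :
    ∃ n, Perp n a x y a' x' y' := by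
  obtain ⟨l, rfl⟩ := parallel hx t1
  have h1 : x ⨯₃ (y' - l • y) = 0 := by
    have e := t4
    rw [map_smul, ← cross_anticomm x y] at e
    rw [map_sub, map_smul]
    rw [← e]
    module
  obtain ⟨m, hm⟩ := parallel hx h1
  have hy' : y' = l • y + m • x := by rw [← hm]; abel
  subst hy'
  have hxx : x ⬝ᵥ x ≠ 0 := fun h' => hx (dotProduct_self_eq_zero.1 h')
  have hm0 : m = 0 := by
    rw [dotProduct_add, dotProduct_smul, dotProduct_smul, dotProduct_smul, dotProduct_comm y x]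
      at C4
    simp only [smul_eq_mul] at C4
    have : m * (x ⬝ᵥ x) = 0 := by linarith
    exact (mul_eq_zero.1 this).resolve_right hxx
  subst hm0
  have h2 : x ⨯₃ (a' - l • a) = 0 := by
    have e0 := congrFun C2 0
    have e1 := congrFun C2 1
    have e2 := congrFun C2 2
    simp only [cr0, cr1, cr2, Pi.smul_apply, smul_eq_mul] at e0 e1 e2
    apply ext3
    · simp only [cr0, Pi.sub_apply, Pi.smul_apply, smul_eq_mul, Pi.zero_apply]
      linear_combination e0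
    · simp only [cr1, Pi.sub_apply, Pi.smul_apply, smul_eq_mul, Pi.zero_apply]
      linear_combination e1
    · simp only [cr2, Pi.sub_apply, Pi.smul_apply, smul_eq_mul, Pi.zero_apply]
      linear_combination e2
  obtain ⟨k, hk⟩ := parallel hx h2
  have ha' : a' = l • a + k • x := by rw [← hk]; abel
  subst ha'
  have hk0 : k ≠ 0 := by
    rintro rfl
    simp only [zero_smul, add_zero, dotProduct_smul, smul_dotProduct, smul_eq_mul] at hub hb
    have hl : l = 0 := by linear_combination hub - l * hu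
    rw [hl] at hb
    norm_num at hb
  have h3 : x ⨯₃ a = 0 := by
    have e0 := congrFun t3 0
    have e1 := congrFun t3 1
    have e2 := congrFun t3 2
    simp only [cr0, cr1, cr2, Pi.smul_apply, smul_eq_mul, Pi.add_apply, Pi.zero_apply] at e0 e1 e2
    apply ext3
    · apply mul_left_cancel₀ hk0
      simp only [cr0, Pi.zero_apply]
      linear_combination -e0
    · apply mul_left_cancel₀ hk0
      simp only [cr1, Pi.zero_apply]
      linear_combination -e1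
    · apply mul_left_cancel₀ hk0
      simp only [cr2, Pi.zero_apply]
      linear_combination -e2
  have h4 : x ⨯₃ y = 0 := by
    have e0 := congrFun C3 0
    have e1 := congrFun C3 1
    have e2 := congrFun C3 2
    simp only [cr0, cr1, cr2, Pi.smul_apply, smul_eq_mul, Pi.add_apply] at e0 e1 e2
    apply ext3
    · apply mul_left_cancel₀ hk0
      simp only [cr0, Pi.zero_apply]
      linear_combination -e0
    · apply mul_left_cancel₀ hk0
      simp only [cr1, Pi.zero_apply]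
      linear_combination -e1
    · apply mul_left_cancel₀ hk0
      simp only [cr2, Pi.zero_apply]
      linear_combination -e2
  obtain ⟨α, rfl⟩ := parallel hx h3
  obtain ⟨β, rfl⟩ := parallel hx h4
  obtain ⟨n, hn, hnx, -⟩ := unit_perp x x
  refine ⟨n, hn, ?_, ?_, ?_, ?_, ?_, ?_⟩ <;>
    simp only [dotProduct_smul, dotProduct_add, hnx, smul_zero, add_zero]

private theorem exists_perp {a x y a' x' y' : Fin 3 → ℝ}
    (C1 : a ⨯₃ a' + x ⨯₃ x' + y ⨯₃ y' = 0) (C2 : a ⨯₃ x' = a' ⨯₃ x) (C3 : a ⨯₃ y' = a' ⨯₃ y)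
    (C4 : x ⬝ᵥ y' = y ⬝ᵥ x') (hu : a ⬝ᵥ a + x ⬝ᵥ x + y ⬝ᵥ y = 1)
    (hb : a' ⬝ᵥ a' + x' ⬝ᵥ x' + y' ⬝ᵥ y' = 1) (hub : a ⬝ᵥ a' + x ⬝ᵥ x' + y ⬝ᵥ y' = 0) :
    ∃ n, Perp n a x y a' x' y' := by
  have D1 : ∀ v : Fin 3 → ℝ, v ⬝ᵥ (a ⨯₃ a' + x ⨯₃ x' + y ⨯₃ y') = 0 := by
    intro v
    rw [C1, dotProduct_zero]
  have D2 : ∀ v : Fin 3 → ℝ, v ⬝ᵥ (a ⨯₃ x') = v ⬝ᵥ (a' ⨯₃ x) := by
    intro v
    rw [C2]
  have D3 : ∀ v : Fin 3 → ℝ, v ⬝ᵥ (a ⨯₃ y') = v ⬝ᵥ (a' ⨯₃ y) := by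
    intro v
    rw [C3]
  simp only [dot3, cr0, cr1, cr2, Pi.add_apply] at D1 D2 D3
  by_cases t1 : x ⨯₃ x' = 0
  swap
  · refine ⟨_, (perp_of_ne t1 ?_ ?_ ?_ ?_ ?_ ?_).choose_spec⟩ <;> simp only [dot3, cr0, cr1, cr2]
    · linear_combination -(D2 x)
    · ring
    · linear_combination D1 y + D3 a
    · linear_combination -(D2 x')
    · ring
    · linear_combination D1 y' + D3 a'
  by_cases t2 : y ⨯₃ y' = 0
  swap
  · refine ⟨_, (perp_of_ne t2 ?_ ?_ ?_ ?_ ?_ ?_).choose_spec⟩ <;> simp only [dot3, cr0, cr1, cr2]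
    · linear_combination -(D3 y)
    · linear_combination D1 x + D2 a
    · ring
    · linear_combination -(D3 y')
    · linear_combination D1 x' + D2 a'
    · ring
  by_cases t3 : a ⨯₃ a' = 0
  swap
  · refine ⟨_, (perp_of_ne t3 ?_ ?_ ?_ ?_ ?_ ?_).choose_spec⟩ <;> simp only [dot3, cr0, cr1, cr2]
    · ring
    · linear_combination -(D2 a)
    · linear_combination -(D3 a)
    · ring
    · linear_combination -(D2 a')
    · linear_combination -(D3 a')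
  by_cases t4 : x ⨯₃ y' + y ⨯₃ x' = 0
  swap
  · refine ⟨_, (perp_of_ne t4 ?_ ?_ ?_ ?_ ?_ ?_).choose_spec⟩ <;>
      simp only [dot3, cr0, cr1, cr2, Pi.add_apply]
    · linear_combination -(D3 x) - D2 y
    · linear_combination -(D1 y) - D3 a
    · linear_combination -(D1 x) - D2 a
    · linear_combination -(D3 x') - D2 y'
    · linear_combination -(D1 y') - D3 a'
    · linear_combination -(D1 x') - D2 a'
  have s1 : x' ⨯₃ x = 0 := by rw [← neg_cross, t1, neg_zero]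
  have s2 : y' ⨯₃ y = 0 := by rw [← neg_cross, t2, neg_zero]
  have s3 : a' ⨯₃ a = 0 := by rw [← neg_cross, t3, neg_zero]
  have t4' : y ⨯₃ x' + x ⨯₃ y' = 0 := by rw [add_comm]; exact t4
  have s4 : x' ⨯₃ y + y' ⨯₃ x = 0 := by
    rw [← neg_cross y x', ← neg_cross x y', ← neg_add, t4', neg_zero]
  have s4' : y' ⨯₃ x + x' ⨯₃ y = 0 := by rw [add_comm]; exact s4
  have hu' : a ⬝ᵥ a + y ⬝ᵥ y + x ⬝ᵥ x = 1 := by linarith
  have hb' : a' ⬝ᵥ a' + y' ⬝ᵥ y' + x' ⬝ᵥ x' = 1 := by linarith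
  have hub' : a ⬝ᵥ a' + y ⬝ᵥ y' + x ⬝ᵥ x' = 0 := by linarith
  have hub2 : a' ⬝ᵥ a + x' ⬝ᵥ x + y' ⬝ᵥ y = 0 := by
    rw [dotProduct_comm a' a, dotProduct_comm x' x, dotProduct_comm y' y]
    exact hub
  have hub2' : a' ⬝ᵥ a + y' ⬝ᵥ y + x' ⬝ᵥ x = 0 := by linarith
  have C5 : x' ⬝ᵥ y = y' ⬝ᵥ x := by
    rw [dotProduct_comm x' y, dotProduct_comm y' x]
    exact C4.symm
  by_cases hx : x = 0
  swap
  · exact deg hx t1 t3 t4 C2 C3 C4 hu hb hub
  by_cases hy : y = 0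
  swap
  · obtain ⟨n, h1, h2, h3, h4, h5, h6, h7⟩ := deg hy t2 t3 t4' C3 C2 C4.symm hu' hb' hub'
    exact ⟨n, h1, h2, h4, h3, h5, h7, h6⟩
  by_cases hx' : x' = 0
  swap
  · obtain ⟨n, h1, h2, h3, h4, h5, h6, h7⟩ := deg hx' s1 s3 s4 C2.symm C3.symm C5 hb hu hub2
    exact ⟨n, h1, h5, h6, h7, h2, h3, h4⟩
  by_cases hy' : y' = 0
  swap
  · obtain ⟨n, h1, h2, h3, h4, h5, h6, h7⟩ := deg hy' s2 s3 s4' C3.symm C2.symm C5.symm hb' hu'
      hub2'
    exact ⟨n, h1, h5, h7, h6, h2, h4, h3⟩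
  exfalso
  subst hx hy hx' hy'
  simp only [dotProduct_zero, add_zero] at hu hb hub
  rw [dot3] at hu hb hub
  have e0 := congrFun t3 0
  have e1 := congrFun t3 1
  have e2 := congrFun t3 2
  rw [cr0, Pi.zero_apply] at e0
  rw [cr1, Pi.zero_apply] at e1
  rw [cr2, Pi.zero_apply] at e2
  have : (1 : ℝ) = 0 := by
    linear_combination -(a' 0 * a' 0 + a' 1 * a' 1 + a' 2 * a' 2) * hu - hb
      + (a 0 * a' 0 + a 1 * a' 1 + a 2 * a' 2) * hub
      + (a 1 * a' 2 - a 2 * a' 1) * e0 + (a 2 * a' 0 - a 0 * a' 2) * e1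
      + (a 0 * a' 1 - a 1 * a' 0) * e2
  exact one_ne_zero this

private theorem pair_perp {U V : Fin 3 → ℝ} (h : U ⨯₃ V = 0) :
    ∃ P : Fin 3 → ℝ, ∃ s t : ℝ, U = s • P ∧ V = t • P := by
  by_cases hU : U = 0
  · exact ⟨V, 0, 1, by rw [hU, zero_smul], by rw [one_smul]⟩
  · obtain ⟨l, hl⟩ := parallel hU h
    exact ⟨U, 1, l, by rw [one_smul], hl⟩

private theorem exists_perp2 {U1 U2 V1 V2 : Fin 3 → ℝ} (h : U1 ⨯₃ V1 + U2 ⨯₃ V2 = 0) :
    ∃ n : Fin 3 → ℝ, n ⬝ᵥ n = 1 ∧ n ⬝ᵥ U1 = 0 ∧ n ⬝ᵥ U2 = 0 ∧ n ⬝ᵥ V1 = 0 ∧ n ⬝ᵥ V2 = 0 := by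
  by_cases h1 : U1 ⨯₃ V1 = 0
  · have h2 : U2 ⨯₃ V2 = 0 := by rwa [h1, zero_add] at h
    obtain ⟨P, s, t, rfl, rfl⟩ := pair_perp h1
    obtain ⟨Q, s', t', rfl, rfl⟩ := pair_perp h2
    obtain ⟨n, hn, hP, hQ⟩ := unit_perp P Q
    exact ⟨n, hn, by rw [dotProduct_smul, hP, smul_zero], by rw [dotProduct_smul, hQ, smul_zero],
      by rw [dotProduct_smul, hP, smul_zero], by rw [dotProduct_smul, hQ, smul_zero]⟩
  · obtain ⟨n, hn, c, rfl⟩ := normalise h1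
    have D : ∀ v : Fin 3 → ℝ, v ⬝ᵥ (U1 ⨯₃ V1 + U2 ⨯₃ V2) = 0 := by
      intro v
      rw [h, dotProduct_zero]
    simp only [dot3, cr0, cr1, cr2, Pi.add_apply] at D
    refine ⟨_, hn, ?_, ?_, ?_, ?_⟩
    · simp only [dot3, cr0, cr1, cr2, Pi.smul_apply, smul_eq_mul]
      ring
    · simp only [dot3, cr0, cr1, cr2, Pi.smul_apply, smul_eq_mul]
      linear_combination c * D U2
    · simp only [dot3, cr0, cr1, cr2, Pi.smul_apply, smul_eq_mul]
      ring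
    · simp only [dot3, cr0, cr1, cr2, Pi.smul_apply, smul_eq_mul]
      linear_combination c * D V2

private theorem cross_plane {g1 g2 n : Fin 3 → ℝ} (h : Frame3 g1 g2 n) (p1 p2 q1 q2 : ℝ) :
    (p1 • g1 + p2 • g2) ⨯₃ (q1 • g1 + q2 • g2) = (p1 * q2 - p2 * q1) • n := by
  have e0 := congrFun h.c12 0
  have e1 := congrFun h.c12 1
  have e2 := congrFun h.c12 2
  rw [cr0] at e0
  rw [cr1] at e1
  rw [cr2] at e2
  apply ext3
  · simp only [cr0, Pi.add_apply, Pi.smul_apply, smul_eq_mul]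
    linear_combination (p1 * q2 - p2 * q1) * e0
  · simp only [cr1, Pi.add_apply, Pi.smul_apply, smul_eq_mul]
    linear_combination (p1 * q2 - p2 * q1) * e1
  · simp only [cr2, Pi.add_apply, Pi.smul_apply, smul_eq_mul]
    linear_combination (p1 * q2 - p2 * q1) * e2

private theorem dot_plane {g1 g2 n : Fin 3 → ℝ} (h : Frame3 g1 g2 n) (p1 p2 q1 q2 : ℝ) :
    (p1 • g1 + p2 • g2) ⬝ᵥ (q1 • g1 + q2 • g2) = p1 * q1 + p2 * q2 := by
  have h1 := h.n1
  have h2 := h.n2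
  have h3 := h.o12
  have h4 : g2 ⬝ᵥ g1 = 0 := by rw [dotProduct_comm]; exact h3
  simp only [dotProduct_add, add_dotProduct, smul_dotProduct, dotProduct_smul, smul_eq_mul, h1,
    h2, h3, h4]
  ring

/-- rotation of a frame about its third vector -/
theorem frame_rot {e1 e2 e3 : Fin 3 → ℝ} (h : Frame3 e1 e2 e3) {c s : ℝ}
    (hcs : c ^ 2 + s ^ 2 = 1) : Frame3 (c • e1 + s • e2) (c • e2 - s • e1) e3 := by
  have h1 := h.n1
  have h2 := h.n2
  have h3 := h.o12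
  have h4 : e2 ⬝ᵥ e1 = 0 := by rw [dotProduct_comm]; exact h3
  have h5 := h.o13
  have h6 := h.o23
  have a0 := congrFun h.c12 0
  have a1 := congrFun h.c12 1
  have a2 := congrFun h.c12 2
  have b0 := congrFun h.c23 0
  have b1 := congrFun h.c23 1
  have b2 := congrFun h.c23 2
  have d0 := congrFun h.c31 0
  have d1 := congrFun h.c31 1
  have d2 := congrFun h.c31 2
  rw [cr0] at a0 b0 d0
  rw [cr1] at a1 b1 d1
  rw [cr2] at a2 b2 d2
  refine ⟨?_, ?_, h.n3, ?_, ?_, ?_, ?_, ?_, ?_⟩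
  · simp only [dotProduct_add, add_dotProduct, smul_dotProduct, dotProduct_smul, smul_eq_mul, h1,
      h2, h3, h4]
    linear_combination hcs
  · simp only [dotProduct_sub, sub_dotProduct, smul_dotProduct, dotProduct_smul, smul_eq_mul, h1,
      h2, h3, h4]
    linear_combination hcs
  · simp only [dotProduct_sub, add_dotProduct, smul_dotProduct, dotProduct_smul, smul_eq_mul, h1,
      h2, h3, h4]
    ring
  · simp only [add_dotProduct, smul_dotProduct, smul_eq_mul, h5, h6]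
    ring
  · simp only [sub_dotProduct, smul_dotProduct, smul_eq_mul, h5, h6]
    ring
  · apply ext3
    · simp only [cr0, Pi.add_apply, Pi.sub_apply, Pi.smul_apply, smul_eq_mul]
      linear_combination (c ^ 2 + s ^ 2) * a0 + e3 0 * hcs
    · simp only [cr1, Pi.add_apply, Pi.sub_apply, Pi.smul_apply, smul_eq_mul]
      linear_combination (c ^ 2 + s ^ 2) * a1 + e3 1 * hcs
    · simp only [cr2, Pi.add_apply, Pi.sub_apply, Pi.smul_apply, smul_eq_mul]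
      linear_combination (c ^ 2 + s ^ 2) * a2 + e3 2 * hcs
  · apply ext3
    · simp only [cr0, Pi.add_apply, Pi.sub_apply, Pi.smul_apply, smul_eq_mul]
      linear_combination c * b0 + s * d0
    · simp only [cr1, Pi.add_apply, Pi.sub_apply, Pi.smul_apply, smul_eq_mul]
      linear_combination c * b1 + s * d1
    · simp only [cr2, Pi.add_apply, Pi.sub_apply, Pi.smul_apply, smul_eq_mul]
      linear_combination c * b2 + s * d2
  · apply ext3
    · simp only [cr0, Pi.add_apply, Pi.sub_apply, Pi.smul_apply, smul_eq_mul]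
      linear_combination c * d0 - s * b0
    · simp only [cr1, Pi.add_apply, Pi.sub_apply, Pi.smul_apply, smul_eq_mul]
      linear_combination c * d1 - s * b1
    · simp only [cr2, Pi.add_apply, Pi.sub_apply, Pi.smul_apply, smul_eq_mul]
      linear_combination c * d2 - s * b2

/-- the four vectors of the second factor in a common plane, in normal form -/
private theorem second {U1 U2 V1 V2 : Fin 3 → ℝ} (R : U1 ⬝ᵥ V2 = U2 ⬝ᵥ V1)
    (h : U1 ⨯₃ V1 + U2 ⨯₃ V2 = 0) (h1 : U1 ⬝ᵥ U1 + U2 ⬝ᵥ U2 = 1) (h2 : V1 ⬝ᵥ V1 + V2 ⬝ᵥ V2 = 1)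
    (h3 : U1 ⬝ᵥ V1 + U2 ⬝ᵥ V2 = 0) :
    ∃ A1 A2 A3 : Fin 3 → ℝ, Frame3 A1 A2 A3 ∧ ∃ c s co si : ℝ, c ^ 2 + s ^ 2 = 1 ∧
      co ^ 2 + si ^ 2 = 1 ∧ U1 = (co * c) • A1 - (si * s) • A2 ∧
      U2 = (co * s) • A1 + (si * c) • A2 ∧ V1 = -(si * c) • A1 - (co * s) • A2 ∧
      V2 = -(si * s) • A1 + (co * c) • A2 := by
  obtain ⟨n, hn, n1, n2, n3, n4⟩ := exists_perp2 h
  obtain ⟨B1, B2, hF⟩ := frame_of_unit hn
  have E : ∀ {v : Fin 3 → ℝ}, n ⬝ᵥ v = 0 → ∃ p q : ℝ, v = p • B1 + q • B2 := by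
    intro v hv
    have := frame_expand hF v
    rw [dotProduct_comm v n, hv, zero_smul, add_zero] at this
    exact ⟨_, _, this⟩
  obtain ⟨M11, M21, rfl⟩ := E n1
  obtain ⟨M12, M22, rfl⟩ := E n2
  obtain ⟨N11, N21, rfl⟩ := E n3
  obtain ⟨N12, N22, rfl⟩ := E n4
  rw [cross_plane hF, cross_plane hF, ← add_smul] at h
  have hh : M11 * N21 - M21 * N11 + (M12 * N22 - M22 * N12) = 0 := by
    have := congrArg (fun v => v ⬝ᵥ n) h
    simpa [smul_dotProduct, hn] using this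
  simp only [dot_plane hF] at R h1 h2 h3
  obtain ⟨c, s, z1, z2, co, si, hc, hz, hcs, e1, e2, e3, e4, e5, e6, e7, e8⟩ :=
    plane (M11 := M11) (M12 := M12) (M21 := M21) (M22 := M22) (N11 := N11) (N12 := N12)
      (N21 := N21) (N22 := N22) R (by linear_combination hh) (by linear_combination h1)
      (by linear_combination h2) (by linear_combination h3)
  refine ⟨_, _, _, frame_rot hF hz, c, s, co, si, hc, hcs, ?_, ?_, ?_, ?_⟩
  · rw [e1, e2]; module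
  · rw [e3, e4]; module
  · rw [e5, e6]; module
  · rw [e7, e8]; module

end GE3

open GE3 in
theorem flag_normal {a x y a' x' y' : Fin 3 → ℝ}
    (C1 : a ⨯₃ a' + x ⨯₃ x' + y ⨯₃ y' = 0) (C2 : a ⨯₃ x' = a' ⨯₃ x) (C3 : a ⨯₃ y' = a' ⨯₃ y)
    (C4 : x ⬝ᵥ y' = y ⬝ᵥ x') (hu : a ⬝ᵥ a + x ⬝ᵥ x + y ⬝ᵥ y = 1)
    (hb : a' ⬝ᵥ a' + x' ⬝ᵥ x' + y' ⬝ᵥ y' = 1) (hub : a ⬝ᵥ a' + x ⬝ᵥ x' + y ⬝ᵥ y' = 0) :
    ∃ X Y w f1 f2 f3 : Fin 3 → ℝ, ∃ co si : ℝ, Frame3 X Y w ∧ Frame3 f1 f2 f3 ∧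
      co ^ 2 + si ^ 2 = 1 ∧
      a = (co * w 0) • f2 - (si * w 1) • f1 ∧
      x = (co * X 0) • f1 + (si * X 1) • f2 ∧
      y = (co * Y 0) • f1 + (si * Y 1) • f2 ∧
      a' = -(si * w 0) • f2 - (co * w 1) • f1 ∧
      x' = -(si * X 0) • f1 + (co * X 1) • f2 ∧
      y' = -(si * Y 0) • f1 + (co * Y 1) • f2 := by
  obtain ⟨n, hn, na, nx, ny, na', nx', ny'⟩ := exists_perp C1 C2 C3 C4 hu hb hub
  obtain ⟨g1, g2, hF⟩ := frame_of_unit hn
  have E : ∀ {v : Fin 3 → ℝ}, n ⬝ᵥ v = 0 → ∃ p q : ℝ, v = p • g1 + q • g2 := by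
    intro v hv
    have := frame_expand hF v
    rw [dotProduct_comm v n, hv, zero_smul, add_zero] at this
    exact ⟨_, _, this⟩
  obtain ⟨a1, a2, rfl⟩ := E na
  obtain ⟨x1, x2, rfl⟩ := E nx
  obtain ⟨y1, y2, rfl⟩ := E ny
  obtain ⟨b1, b2, rfl⟩ := E na'
  obtain ⟨p1, p2, rfl⟩ := E nx'
  obtain ⟨q1, q2, rfl⟩ := E ny'
  simp only [cross_plane hF, dot_plane hF] at C1 C2 C3 C4 hu hb hub
  rw [← add_smul, ← add_smul] at C1
  have K : ∀ {s t : ℝ}, s • n = t • n → s = t := by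
    intro s t h
    have := congrArg (fun v => v ⬝ᵥ n) h
    simpa [smul_dotProduct, hn] using this
  have D1 : a1 * b2 - a2 * b1 + (x1 * p2 - x2 * p1) + (y1 * q2 - y2 * q1) = 0 := by
    apply K
    rw [C1, zero_smul]
  have D2 := K C2
  have D3 := K C3
  obtain ⟨A1, A2, A3, hA, c, s, co, si, hc, hcs, e1, e2, e3, e4⟩ :=
    second (U1 := ![x1, y1, a2]) (U2 := ![x2, y2, -a1]) (V1 := ![p1, q1, b2])
      (V2 := ![p2, q2, -b1])
      (by rw [dot3, dot3]; simp; linear_combination D1)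
      (by
        apply ext3
        · rw [Pi.add_apply, cr0, cr0]; simp; linear_combination D3
        · rw [Pi.add_apply, cr1, cr1]; simp; linear_combination -D2
        · rw [Pi.add_apply, cr2, cr2]; simp; linear_combination C4)
      (by rw [dot3, dot3]; simp; linear_combination hu)
      (by rw [dot3, dot3]; simp; linear_combination hb)
      (by rw [dot3, dot3]; simp; linear_combination hub)
  have G := frame_rot hF hc
  have T := frame_transpose hA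
  have e10 := congrFun e1 0
  have e11 := congrFun e1 1
  have e12 := congrFun e1 2
  have e20 := congrFun e2 0
  have e21 := congrFun e2 1
  have e22 := congrFun e2 2
  have e30 := congrFun e3 0
  have e31 := congrFun e3 1
  have e32 := congrFun e3 2
  have e40 := congrFun e4 0
  have e41 := congrFun e4 1
  have e42 := congrFun e4 2
  simp only [cons_val_zero, cons_val_one, cons_val, Pi.add_apply, Pi.sub_apply, Pi.smul_apply,
    smul_eq_mul] at e10 e11 e12 e20 e21 e22 e30 e31 e32 e40 e41 e42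
  have e22' : a1 = -((co * s) * A1 2 + (si * c) * A2 2) := by linarith
  have e42' : b1 = -(-(si * s) * A1 2 + (co * c) * A2 2) := by linarith
  refine ⟨_, _, _, _, _, _, co, si, T, G, hcs, ?_, ?_, ?_, ?_, ?_, ?_⟩
  · simp only [cons_val_zero, cons_val_one]
    rw [e22', e12]; module
  · simp only [cons_val_zero, cons_val_one]
    rw [e10, e20]; module
  · simp only [cons_val_zero, cons_val_one]
    rw [e11, e21]; module
  · simp only [cons_val_zero, cons_val_one]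
    rw [e42', e32]; module
  · simp only [cons_val_zero, cons_val_one]
    rw [e30, e40]; module
  · simp only [cons_val_zero, cons_val_one]
    rw [e31, e41]; module

end Pool.Agent.FL.S2
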