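import Pool.Agent.FL.GE6S
import Pool.Agent.FL.GE3

/-!
# MP_f09395_gt, space (2): flags at wall A (first half of S2Sec)
-/

set_option linter.unusedSectionVars false

noncomputable section

namespace Pool.Agent.FL.S2

open scoped Matrix
open GE6

/-- unit vectors have `cM = 1 - 8 psi4` -/
theorem cM_unit {u : R9} (h : dot9 u u = 1) : cM u = 1 - 8 * psi4 u := by
  unfold cM
  rw [h]; ring

/-- unit vectors have `cM = 1 - 8 psi4` -/
theorem wallA_iff {u : R9} (h : dot9 u u = 1) : cM u = 1 ↔ psi4 u = 0 := by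
  rw [cM_unit h]
  constructor <;> intro h1 <;> linarith

theorem wallB_iff {u : R9} (h : dot9 u u = 1) : cM u = -1 ↔ psi4 u = 1 / 4 := by
  rw [cM_unit h]
  constructor <;> intro h1 <;> linarith

theorem rotH_Flg (t : ℝ) {u b : R9} : Flg (rotH t u) (rotH t b) ↔ Flg u b := flg_rotH

theorem rotH_cM (t : ℝ) (u : R9) : cM (rotH t u) = cM u := by
  unfold cM
  rw [psi4_rotH, dot9_rotH]

/-- `a · (x × y) = 0` on flags -/
theorem flg_det {u b : R9} (h : Flg u b) : u.1 ⬝ᵥ (u.2.1 ⨯₃ u.2.2) = 0 := by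
  have hC := h.comm
  obtain ⟨X, Y, w, f1, f2, f3, co, si, hF, hf, hcs, ha, hx, hy, -⟩ :=
    flag_normal hC.C1 hC.C2 hC.C3 hC.C4 h.uu h.bb h.ub
  have h21 : f2 ⨯₃ f1 = -f3 := by rw [← hf.c12, cross_anticomm]
  have h23 : f2 ⬝ᵥ f3 = 0 := hf.o23
  rw [ha, hx, hy]
  simp only [map_add, map_smul, LinearMap.add_apply, LinearMap.smul_apply, cross_self, smul_zero,
    hf.c12, h21, sub_dotProduct, smul_dotProduct, dotProduct_add, dotProduct_smul, dotProduct_neg,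
    smul_neg, hf.o13, h23, smul_eq_mul, dotProduct_zero]
  ring

namespace GE6

theorem rotH_neg {t : ℝ} {u v : R9} (h : u = rotH t v) : rotH (-t) u = v := by
  rw [h, rotH_rotH, neg_add_cancel, rotH_zero]

theorem rotH_neg' (t : ℝ) (u : R9) : rotH t (rotH (-t) u) = u := by
  rw [rotH_rotH, add_neg_cancel, rotH_zero]

end GE6

/-- wall A, `p ≠ 0`, `q ≠ 0` -/
theorem secA {u b : R9} (h : Flg u b) (hc : cM u = 1) (h1 : u.1 ≠ 0) (h2 : u.2 ≠ 0) :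
    ∃ (t ψ : ℝ) (z : R6), z ∈ base ∧ z ∈ U6 ∧ u = rotH t (uA z) ∧
      b = rotH t (Real.cos ψ • b1A z + Real.sin ψ • b2A z) := by
  obtain ⟨t, z, hz, hz1, hu⟩ := wallA_exists h.uu ((wallA_iff h.uu).1 hc)
  have hU : z ∈ U6 := by
    refine ⟨by rw [hz1]; exact h1, ?_⟩
    intro h0
    apply h2
    rw [hu]
    refine Prod.ext ?_ ?_
    · show Real.cos t • z.2 - Real.sin t • (0 : R3) = 0
      rw [h0]; simp
    · show Real.sin t • z.2 + Real.cos t • (0 : R3) = 0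
      rw [h0]; simp
  have hF : Flg (uA z) (rotH (-t) b) := by
    rw [← flg_rotH (t := t), rotH_neg', ← hu]; exact h
  obtain ⟨s1, s2, hs, hb⟩ := (flgA_iff hz hU _).1 hF
  obtain ⟨ψ, hc1, hs1⟩ := exists_angle hs
  refine ⟨t, ψ, z, hz, hU, hu, ?_⟩
  rw [hc1, hs1, ← hb, rotH_neg']

theorem secA_Flg {z : R6} (hz : z ∈ base) (hz' : z ∈ U6) (ψ : ℝ) :
    Flg (uA z) (Real.cos ψ • b1A z + Real.sin ψ • b2A z) ∧ cM (uA z) = 1 := by
  refine ⟨(flgA_iff hz hz' _).2 ⟨_, _, Real.cos_sq_add_sin_sq ψ, rfl⟩, ?_⟩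
  exact (wallA_iff (dot9_uA hz)).2 (psi4_uA hz)

/-- wall A, `a = 0` -/
theorem wallA_a0 {u b : R9} (h : Flg u b) (hc : cM u = 1) (h1 : u.1 = 0) :
    ∃ (t η : ℝ) (f ζ : R3), f ⬝ᵥ f = 1 ∧ ζ ⬝ᵥ f = 0 ∧ η ^ 2 + ζ ⬝ᵥ ζ = 1 ∧
      u = rotH t (0, f, 0) ∧ b = rotH t (η • f, 0, ζ) := by
  obtain ⟨t, z, hz, hz1, hu⟩ := wallA_exists h.uu ((wallA_iff h.uu).1 hc)
  have hz0 : z.1 = 0 := by rw [hz1, h1]
  have huA : uA z = (0, z.2, 0) := by unfold uA; rw [hz0]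
  have hq : z.2 ⬝ᵥ z.2 = 1 := by
    have := hz.2
    rw [hz0, zero_dotProduct, zero_add] at this
    exact this
  rw [huA] at hu
  have hF : Flg (0, z.2, 0) (rotH (-t) b) := by
    rw [← flg_rotH (t := t), rotH_neg', ← hu]; exact h
  obtain ⟨η, y, hs, hy, hb⟩ := (flgA_p0 hq _).1 hF
  refine ⟨t, η, z.2, y, hq, by rw [dotProduct_comm]; exact hy, hs, hu, ?_⟩
  rw [← hb, rotH_neg']

/-- wall A, `x = y = 0` -/
theorem wallA_q0 {u b : R9} (h : Flg u b) (_hc : cM u = 1) (h2 : u.2 = 0) :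
    ∃ (t : ℝ) (n : R3), n ⬝ᵥ n = 1 ∧ u = (n, 0, 0) ∧ b = rotH t (0, n, 0) := by
  have hu : u = (u.1, 0, 0) := Prod.ext rfl h2
  have hn : u.1 ⬝ᵥ u.1 = 1 := by
    have := h.uu
    rw [hu] at this
    simp only [dot9, zero_dotProduct, add_zero] at this
    exact this
  have hF : Flg (u.1, 0, 0) b := by rw [← hu]; exact h
  obtain ⟨s1, s2, hs, hb⟩ := (flgA_q0 hn b).1 hF
  obtain ⟨t, hc1, hs1⟩ := exists_angle hs
  refine ⟨t, u.1, hn, hu, ?_⟩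
  rw [hb]
  refine Prod.ext rfl (Prod.ext ?_ ?_)
  · show s1 • u.1 = Real.cos t • u.1 - Real.sin t • (0 : R3)
    rw [hc1, smul_zero, sub_zero]
  · show s2 • u.1 = Real.sin t • u.1 + Real.cos t • (0 : R3)
    rw [hs1, smul_zero, add_zero]

end Pool.Agent.FL.S2
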