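import Pool.Agent.FL.GE6S
import Pool.Agent.FL.GE3

/-!
# MP_f09395_gt, space (2): flags at wall B (the wall B half of S2Sec)
-/

set_option linter.unusedSectionVars false

noncomputable section

namespace Pool.Agent.FL.S2

open scoped Matrix

namespace SecB

open GE6

theorem psi4_of {u b : R9} (h : Flg u b) (hc : cM u = -1) : psi4 u = 1 / 4 := by
  unfold cM at hc
  rw [h.uu] at hc
  linarith

theorem sqrt2_ne : Real.sqrt 2 ≠ 0 := (Real.sqrt_pos.2 (by norm_num)).ne'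

theorem sqrt2_sq : Real.sqrt 2 * Real.sqrt 2 = 2 := Real.mul_self_sqrt (by norm_num)

theorem back (t : ℝ) (u : R9) : rotH t (rotH (-t) u) = u := by
  rw [rotH_rotH, add_neg_cancel, rotH_zero]

theorem flg_back {t : ℝ} {u b w : R9} (h : Flg u b) (hu : u = rotH t w) :
    Flg w (rotH (-t) b) := by
  have : Flg (rotH t w) (rotH t (rotH (-t) b)) := by rw [back, ← hu]; exact h
  exact flg_rotH.1 this

end SecB

open SecB GE6

/-- wall B: the base coordinates `(√2 a, 2 x × y)` lie in `base` -/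
theorem wallB_base {u b : R9} (h : Flg u b) (hc : cM u = -1) :
    (Real.sqrt 2 • u.1, (2 : ℝ) • (u.2.1 ⨯₃ u.2.2)) ∈ base := by
  by_cases ha : u.1 = 0
  · obtain ⟨f1, f2, h1, h2, h12, hu⟩ := wallB_exists0 h.uu (psi4_of h hc) ha
    have h21 : f2 ⬝ᵥ f1 = 0 := by rw [dotProduct_comm]; exact h12
    have e : (2 : ℝ) • (u.2.1 ⨯₃ u.2.2) = f1 ⨯₃ f2 := by
      rw [hu]
      simp only [Prod.smul_mk, LinearMap.map_smul, LinearMap.smul_apply, smul_smul]
      have h3 := s2_sq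
      have h4 : (2 : ℝ) * ((√2)⁻¹ * (√2)⁻¹) = 1 := by linear_combination 2 * h3
      rw [h4, one_smul]
    rw [e, ha, smul_zero]
    refine ⟨by simp, ?_⟩
    show (0 : R3) ⬝ᵥ 0 + (f1 ⨯₃ f2) ⬝ᵥ (f1 ⨯₃ f2) = 1
    rw [cross_dot_cross, h1, h2, h12, h21]
    simp
  · obtain ⟨t, z, hz, hz1, hz2, -⟩ := wallB_exists h.uu (psi4_of h hc) ha
    rw [← hz1, ← hz2]
    exact hz

/-- wall B, `p ≠ 0`, `q ≠ 0` -/
theorem secB {u b : R9} (h : Flg u b) (hc : cM u = -1) (h1 : u.1 ≠ 0)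
    (h2 : u.2.1 ⨯₃ u.2.2 ≠ 0) :
    ∃ (t ψ : ℝ), (Real.sqrt 2 • u.1, (2 : ℝ) • (u.2.1 ⨯₃ u.2.2)) ∈ U6 ∧
      u = rotH t (uB (Real.sqrt 2 • u.1, (2 : ℝ) • (u.2.1 ⨯₃ u.2.2))) ∧
      b = rotH t (Real.cos ψ • b1B (Real.sqrt 2 • u.1, (2 : ℝ) • (u.2.1 ⨯₃ u.2.2)) +
        Real.sin ψ • b2B (Real.sqrt 2 • u.1, (2 : ℝ) • (u.2.1 ⨯₃ u.2.2))) := by
  have hU : ((Real.sqrt 2 • u.1, (2 : ℝ) • (u.2.1 ⨯₃ u.2.2)) : R6) ∈ U6 :=
    ⟨smul_ne_zero sqrt2_ne h1, smul_ne_zero two_ne_zero h2⟩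
  obtain ⟨t, z, hz, hz1, hz2, hu⟩ := wallB_exists h.uu (psi4_of h hc) h1
  have ez : z = (Real.sqrt 2 • u.1, (2 : ℝ) • (u.2.1 ⨯₃ u.2.2)) := Prod.ext hz1 hz2
  rw [← ez] at hU ⊢
  obtain ⟨s1, s2, hs, hb⟩ := (flgB_iff hz hU _).1 (flg_back h hu)
  obtain ⟨ψ, hc1, hs1⟩ := exists_angle hs
  refine ⟨t, ψ, hU, hu, ?_⟩
  rw [hc1, hs1, ← hb, back]

theorem secB_Flg {z : R6} (hz : z ∈ base) (hz' : z ∈ U6) (ψ : ℝ) :
    Flg (uB z) (Real.cos ψ • b1B z + Real.sin ψ • b2B z) ∧ cM (uB z) = -1 ∧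
      Real.sqrt 2 • (uB z).1 = z.1 ∧ (2 : ℝ) • ((uB z).2.1 ⨯₃ (uB z).2.2) = z.2 := by
  refine ⟨(flgB_iff hz hz' _).2 ⟨_, _, Real.cos_sq_add_sin_sq ψ, rfl⟩, ?_, ?_, ?_⟩
  · unfold cM
    rw [psi4_uB hz hz'.1, dot9_uB hz hz'.1]
    norm_num
  · show Real.sqrt 2 • ((Real.sqrt 2)⁻¹ • z.1) = z.1
    rw [smul_smul, mul_inv_cancel₀ sqrt2_ne, one_smul]
  · have hP := n3_pos hz'.1
    have hP2 := n3_sq z.1
    have hs2 := s2_sq
    have e1 : z.1 ⨯₃ (z.2 ⨯₃ z.1) = (z.1 ⬝ᵥ z.1) • z.2 := by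
      have h0 := hz.1
      have h3 : z.1 ⨯₃ (z.2 ⨯₃ z.1) = (z.1 ⬝ᵥ z.1) • z.2 - (z.1 ⬝ᵥ z.2) • z.1 := by
        ext i
        fin_cases i <;>
          simp [cross_apply, dotProduct, Fin.sum_univ_three] <;> ring
      rw [h3, h0, zero_smul, sub_zero]
    show (2 : ℝ) • (((Real.sqrt 2)⁻¹ • (n3 z.1)⁻¹ • z.1) ⨯₃
      ((Real.sqrt 2)⁻¹ • (n3 z.1)⁻¹ • (z.2 ⨯₃ z.1))) = z.2
    simp only [LinearMap.map_smul, LinearMap.smul_apply, smul_smul]
    rw [e1, smul_smul, ← hP2]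
    have h5 : (n3 z.1)⁻¹ * n3 z.1 = 1 := inv_mul_cancel₀ hP.ne'
    have h6 : ∀ r : ℝ, r = 1 → r • z.2 = z.2 := fun r hr => by rw [hr, one_smul]
    apply h6
    linear_combination (2 * ((n3 z.1)⁻¹ * n3 z.1) ^ 2) * hs2 + ((n3 z.1)⁻¹ * n3 z.1 + 1) * h5

/-- wall B, `a = 0` -/
theorem wallB_a0 {u b : R9} (h : Flg u b) (hc : cM u = -1) (h1 : u.1 = 0) :
    ∃ (r s : ℝ) (f g : R3), f ⬝ᵥ f = 1 ∧ g ⬝ᵥ g = 1 ∧ f ⬝ᵥ g = 0 ∧ r ^ 2 + s ^ 2 = 1 ∧
      u = (Real.sqrt 2)⁻¹ • (0, f, g) ∧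
      b = (Real.sqrt 2)⁻¹ • (0, r • f + s • g, s • f - r • g) := by
  obtain ⟨f1, f2, h1', h2, h12, hu⟩ := wallB_exists0 h.uu (psi4_of h hc) h1
  rw [hu] at h
  obtain ⟨s1, s2, hs, hb⟩ := (flgB_p0 h1' h2 h12 b).1 h
  exact ⟨s1, s2, f1, f2, h1', h2, h12, hs, hu, hb⟩

/-- wall B, `x × y = 0` -/
theorem wallB_q0 {u b : R9} (h : Flg u b) (hc : cM u = -1) (h2 : u.2.1 ⨯₃ u.2.2 = 0) :
    ∃ (t : ℝ) (n k : R3), n ⬝ᵥ n = 1 ∧ k ⬝ᵥ k = 1 ∧
      u = rotH t ((Real.sqrt 2)⁻¹ • (n, n, 0)) ∧ b = rotH t ((Real.sqrt 2)⁻¹ • (k, -k, 0)) := by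
  have hpsi := psi4_of h hc
  have ha : u.1 ≠ 0 := by
    intro ha
    unfold psi4 at hpsi
    rw [ha, h2] at hpsi
    simp at hpsi
  obtain ⟨t, z, hz, hz1, hz2, hu⟩ := wallB_exists h.uu hpsi ha
  have hz2' : z.2 = 0 := by rw [hz2, h2, smul_zero]
  have hn : z.1 ⬝ᵥ z.1 = 1 := by
    have := hz.2
    rw [hz2'] at this
    simpa using this
  have hn3 : n3 z.1 = 1 := by
    unfold n3
    rw [hn, Real.sqrt_one]
  have huB : uB z = (Real.sqrt 2)⁻¹ • ((z.1, z.1, 0) : R9) := by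
    unfold uB
    rw [hn3, hz2']
    simp
  rw [huB] at hu
  obtain ⟨k, hk, hb⟩ := (flgB_q0 hn _).1 (flg_back h hu)
  refine ⟨t, z.1, k, hn, hk, hu, ?_⟩
  rw [← hb, back]

namespace SecB

theorem par_of_cross {n v : R3} (hn : n ⬝ᵥ n = 1) (h : n ⨯₃ v = 0) : v = (n ⬝ᵥ v) • n := by
  have e : n ⨯₃ (n ⨯₃ v) = (n ⬝ᵥ v) • n - (n ⬝ᵥ n) • v := by
    ext i
    fin_cases i <;>
      simp [cross_apply, dotProduct, Fin.sum_univ_three] <;> ring
  rw [h, hn, one_smul, map_zero] at e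
  exact (sub_eq_zero.1 e.symm).symm

theorem polar (x y : ℝ) : ∃ t r : ℝ, x = r * Real.cos t ∧ y = r * Real.sin t := by
  by_cases h : x ^ 2 + y ^ 2 = 0
  · have hx : x = 0 := by nlinarith [sq_nonneg x, sq_nonneg y]
    have hy : y = 0 := by nlinarith [sq_nonneg x, sq_nonneg y]
    exact ⟨0, 0, by simp [hx], by simp [hy]⟩
  · have h0 : 0 < x ^ 2 + y ^ 2 := lt_of_le_of_ne (by positivity) (Ne.symm h)
    set r := Real.sqrt (x ^ 2 + y ^ 2) with hr
    have hr0 : 0 < r := Real.sqrt_pos.2 h0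
    have hr2 : r ^ 2 = x ^ 2 + y ^ 2 := Real.sq_sqrt h0.le
    obtain ⟨t, hc, hs⟩ := exists_angle (ct := x / r) (st := y / r) (by
      rw [div_pow, div_pow, ← add_div, hr2]
      exact div_self h)
    refine ⟨t, r, ?_, ?_⟩
    · rw [hc]; field_simp
    · rw [hs]; field_simp

/-- flags over `(c n, s n, 0)`, `c ≠ 0`, `c² ≠ s²` -/
theorem B0core {n : R3} {c s : ℝ} {b : R9} (hn : n ⬝ᵥ n = 1) (hc : c ≠ 0)
    (hcs : c ^ 2 + s ^ 2 = 1) (hne : c ^ 2 ≠ s ^ 2) (h : Flg (c • n, s • n, 0) b) :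
    ∃ t τ : ℝ, ((c • n, s • n, 0) : R9) = rotH t (Real.cos τ • n, Real.sin τ • n, 0) ∧
      b = rotH t (-(Real.sin τ) • n, Real.cos τ • n, 0) := by
  have hC := h.comm
  have C1 : (c • n) ⨯₃ b.1 + (s • n) ⨯₃ b.2.1 + (0 : R3) ⨯₃ b.2.2 = 0 := hC.C1
  have C2 : (c • n) ⨯₃ b.2.1 = b.1 ⨯₃ (s • n) := hC.C2
  have C3 : (c • n) ⨯₃ b.2.2 = b.1 ⨯₃ (0 : R3) := hC.C3
  have C4 : (s • n) ⬝ᵥ b.2.2 = (0 : R3) ⬝ᵥ b.2.1 := hC.C4
  rw [LinearMap.map_smul, LinearMap.smul_apply, LinearMap.map_smul, LinearMap.smul_apply,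
    map_zero, LinearMap.zero_apply, add_zero] at C1
  rw [LinearMap.map_smul, LinearMap.smul_apply, LinearMap.map_smul, ← cross_anticomm n b.1,
    smul_neg] at C2
  rw [LinearMap.map_smul, LinearMap.smul_apply, map_zero] at C3
  rw [smul_dotProduct, zero_dotProduct, smul_eq_mul] at C4
  have h3 : n ⨯₃ b.2.2 = 0 := (smul_eq_zero.1 C3).resolve_left hc
  have h2 : n ⨯₃ b.2.1 = 0 := by
    have e1 : (c ^ 2 - s ^ 2) • (n ⨯₃ b.2.1) = 0 := by
      have e2 := congrArg (fun v : R3 => c • v) C2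
      have e3 := congrArg (fun v : R3 => s • v) C1
      simp only [smul_add, smul_neg, smul_smul, smul_zero] at e2 e3
      rw [sub_smul, sq, sq, e2, mul_comm c s]
      rw [← neg_eq_zero, neg_sub, sub_neg_eq_add, add_comm]
      exact e3
    exact (smul_eq_zero.1 e1).resolve_left (sub_ne_zero.2 hne)
  have h1 : n ⨯₃ b.1 = 0 := by
    rw [h2, smul_zero, add_zero] at C1
    exact (smul_eq_zero.1 C1).resolve_left hc
  have e1 := par_of_cross hn h1
  have e2 := par_of_cross hn h2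
  have e3 := par_of_cross hn h3
  set β := n ⬝ᵥ b.1 with hβ
  set γ := n ⬝ᵥ b.2.1 with hγ
  set κ := n ⬝ᵥ b.2.2 with hκ
  have hub : c * β + s * γ = 0 := by
    have := h.ub
    simp only [dot9, smul_dotProduct, zero_dotProduct, add_zero, smul_eq_mul] at this
    exact this
  have hbb : β ^ 2 + γ ^ 2 + κ ^ 2 = 1 := by
    have := h.bb
    unfold dot9 at this
    rw [e1, e2, e3] at this
    simp only [smul_dotProduct, dotProduct_smul, hn, smul_eq_mul, mul_one] at this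
    linarith
  have hb : b = (β • n, γ • n, κ • n) := Prod.ext e1 (Prod.ext e2 e3)
  by_cases hs : s = 0
  · subst hs
    have hc2 : c ^ 2 = 1 := by linarith
    have hβ0 : β = 0 := by
      rw [zero_mul, add_zero] at hub
      exact (mul_eq_zero.1 hub).resolve_left hc
    obtain ⟨t, hct, hst⟩ := exists_angle (ct := c * γ) (st := c * κ) (by
      rw [hβ0] at hbb
      linear_combination c ^ 2 * hbb + hc2)
    obtain ⟨τ, hcτ, hsτ⟩ := exists_angle (ct := c) (st := 0) (by linarith)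
    refine ⟨t, τ, ?_, ?_⟩
    · simp [rotH, hcτ, hsτ]
    · rw [hb, hβ0, rotH, hcτ, hsτ, hct, hst]
      have e4 : c * γ * c = γ := by linear_combination γ * hc2
      have e5 : c * κ * c = κ := by linear_combination κ * hc2
      simp [smul_smul, e4, e5]
  · have hκ0 : κ = 0 := (mul_eq_zero.1 C4).resolve_left hs
    set e := -s * β + c * γ with he
    have he2 : e ^ 2 = 1 := by
      rw [hκ0] at hbb
      rw [he]
      linear_combination (c ^ 2 + s ^ 2) * hbb + hcs - (c * β + s * γ) * hub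
    have hβ' : β = -(e * s) := by
      rw [he]
      linear_combination c * hub - β * hcs
    have hγ' : γ = e * c := by
      rw [he]
      linear_combination s * hub - γ * hcs
    obtain ⟨t, hct, hst⟩ := exists_angle (ct := e) (st := 0) (by linarith)
    obtain ⟨τ, hcτ, hsτ⟩ := exists_angle (ct := c) (st := e * s) (by
      linear_combination hcs + s ^ 2 * he2)
    refine ⟨t, τ, ?_, ?_⟩
    · rw [rotH, hcτ, hsτ, hct, hst]
      have e4 : e * (e * s) = s := by linear_combination s * he2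
      simp [smul_smul, e4]
    · rw [hb, hκ0, rotH, hcτ, hsτ, hct, hst, hβ', hγ']
      simp [smul_smul]

end SecB

/-- regular flags with `a, x, y` parallel -/
theorem flg_B0 {u b : R9} (h : Flg u b) (h1 : cM u ≠ -1) (ha : u.1 ⨯₃ u.2.1 = 0)
    (hb : u.1 ⨯₃ u.2.2 = 0) (hc : u.2.1 ⨯₃ u.2.2 = 0) (hx : u.1 ≠ 0) :
    ∃ (t τ : ℝ) (n : R3), n ⬝ᵥ n = 1 ∧ u = rotH t (Real.cos τ • n, Real.sin τ • n, 0) ∧
      b = rotH t (-(Real.sin τ) • n, Real.cos τ • n, 0) := by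
  have hP := n3_pos hx
  have hP2 := n3_sq u.1
  set P := n3 u.1
  set n : R3 := P⁻¹ • u.1 with hnd
  have hn : n ⬝ᵥ n = 1 := by
    rw [hnd, smul_dotProduct, dotProduct_smul, ← hP2, smul_eq_mul, smul_eq_mul]
    field_simp
  have ea : u.1 = P • n := by rw [hnd, smul_smul, mul_inv_cancel₀ hP.ne', one_smul]
  have ex : u.2.1 = (n ⬝ᵥ u.2.1) • n := by
    apply par_of_cross hn
    rw [hnd, LinearMap.map_smul, LinearMap.smul_apply, ha, smul_zero]
  have ey : u.2.2 = (n ⬝ᵥ u.2.2) • n := by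
    apply par_of_cross hn
    rw [hnd, LinearMap.map_smul, LinearMap.smul_apply, hb, smul_zero]
  obtain ⟨t, r, h2, h3⟩ := polar (n ⬝ᵥ u.2.1) (n ⬝ᵥ u.2.2)
  have hu : u = rotH t (P • n, r • n, 0) := by
    refine Prod.ext ea (Prod.ext ?_ ?_)
    · show u.2.1 = Real.cos t • r • n - Real.sin t • (0 : R3)
      rw [smul_zero, sub_zero, smul_smul, mul_comm, ← h2]
      exact ex
    · show u.2.2 = Real.sin t • r • n + Real.cos t • (0 : R3)
      rw [smul_zero, add_zero, smul_smul, mul_comm, ← h3]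
      exact ey
  have hf := flg_back h hu
  have hPr : P ^ 2 + r ^ 2 = 1 := by
    have := hf.uu
    simp only [dot9, smul_dotProduct, dotProduct_smul, hn, smul_eq_mul, zero_dotProduct] at this
    linarith
  have hne : P ^ 2 ≠ r ^ 2 := by
    intro he
    apply h1
    unfold cM
    have hpsi : psi4 u = 1 / 4 := by
      rw [hu, psi4_rotH]
      simp only [psi4, smul_dotProduct, dotProduct_smul, hn, smul_eq_mul, map_zero,
        dotProduct_zero]
      have : P ^ 2 = 1 / 2 := by linarith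
      have h5 : r ^ 2 = 1 / 2 := by linarith
      linear_combination r ^ 2 * this + (1 / 2 : ℝ) * h5
    rw [h.uu, hpsi]
    norm_num
  obtain ⟨t', τ, h5, h6⟩ := B0core hn hP.ne' hPr hne hf
  refine ⟨t + t', τ, n, hn, ?_, ?_⟩
  · rw [← rotH_rotH, ← h5]
    exact hu
  · rw [← rotH_rotH, ← h6, back]

/-- regular flags with `a = 0`, `x × y ≠ 0` -/
theorem flg_a0 {u b : R9} (h : Flg u b) (h1 : cM u ≠ 1) (h2 : cM u ≠ -1) (ha : u.1 = 0) :
    ∃ (t τ : ℝ) (f g : R3), f ⬝ᵥ f = 1 ∧ g ⬝ᵥ g = 1 ∧ f ⬝ᵥ g = 0 ∧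
      u = rotH t (0, Real.cos τ • f, Real.sin τ • g) ∧
      b = rotH t (0, -(Real.sin τ) • f, Real.cos τ • g) := by
  have hC := h.comm
  obtain ⟨X, Y, w, f1, f2, f3, co, si, hF, hf, hcs, h3, hx, hy, h3', hx', hy'⟩ :=
    flag_normal hC.C1 hC.C2 hC.C3 hC.C4 h.uu h.bb h.ub
  have f11 := hf.n1
  have f22 := hf.n2
  have f12 := hf.o12
  have f21 : f2 ⬝ᵥ f1 = 0 := by rw [dotProduct_comm]; exact f12
  rw [ha] at h3
  have k1 : co * w 0 = 0 := by
    have := congrArg (fun v => v ⬝ᵥ f2) h3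
    simp only [zero_dotProduct, sub_dotProduct, smul_dotProduct, f22, f12, smul_eq_mul] at this
    linarith
  have k2 : si * w 1 = 0 := by
    have := congrArg (fun v => v ⬝ᵥ f1) h3
    simp only [zero_dotProduct, sub_dotProduct, smul_dotProduct, f11, f21, smul_eq_mul] at this
    linarith
  have hpsi : psi4 u ≠ 0 := by
    intro h0
    apply h1
    unfold cM
    rw [h0]; simp
  have hco : co ≠ 0 := by
    intro h0
    apply hpsi
    unfold psi4
    rw [ha, hx, hy, h0]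
    simp
  have hsi : si ≠ 0 := by
    intro h0
    apply hpsi
    unfold psi4
    rw [ha, hx, hy, h0]
    simp
  have w0 : w 0 = 0 := (mul_eq_zero.1 k1).resolve_left hco
  have w1 : w 1 = 0 := (mul_eq_zero.1 k2).resolve_left hsi
  have w2 : w 2 ^ 2 = 1 := by
    have := hF.n3
    simp only [dotProduct, Fin.sum_univ_three, w0, w1] at this
    linarith
  have hXw : X 2 = 0 := by
    have := hF.o13
    simp only [dotProduct, Fin.sum_univ_three, w0, w1, mul_zero, zero_add] at this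
    have h5 : w 2 ≠ 0 := by intro h6; rw [h6] at w2; norm_num at w2
    exact (mul_eq_zero.1 this).resolve_right h5
  have hX1 : X 0 ^ 2 + X 1 ^ 2 = 1 := by
    have := hF.n1
    simp only [dotProduct, Fin.sum_univ_three, hXw] at this
    linarith
  have hY0 : Y 0 = -(w 2 * X 1) := by
    have := congrFun hF.c31 0
    simp only [cross_apply, Matrix.cons_val_zero, w1, hXw] at this
    linarith
  have hY1 : Y 1 = w 2 * X 0 := by
    have := congrFun hF.c31 1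
    simp only [cross_apply, Matrix.cons_val_one, Matrix.cons_val_zero, w0, hXw] at this
    linarith
  have hb1 : b.1 = 0 := by
    rw [h3', w0, w1]; simp
  obtain ⟨τ, hcτ, hsτ⟩ := exists_angle hcs
  obtain ⟨t, hct, hst⟩ := exists_angle (ct := X 0) (st := -(w 2 * X 1)) (by
    linear_combination hX1 + X 1 ^ 2 * w2)
  refine ⟨t, τ, f1, w 2 • f2, f11, ?_, ?_, ?_, ?_⟩
  · rw [smul_dotProduct, dotProduct_smul, f22, smul_eq_mul, smul_eq_mul]
    linear_combination w2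
  · rw [dotProduct_smul, f12, smul_zero]
  · refine Prod.ext ha (Prod.ext ?_ ?_)
    · show u.2.1 = Real.cos t • Real.cos τ • f1 - Real.sin t • Real.sin τ • w 2 • f2
      rw [hx, hct, hst, hcτ, hsτ, smul_smul, smul_smul, smul_smul, sub_eq_add_neg, ← neg_smul]
      congr 2
      · ring
      · linear_combination (-(si * X 1)) * w2
    · show u.2.2 = Real.sin t • Real.cos τ • f1 + Real.cos t • Real.sin τ • w 2 • f2
      rw [hy, hct, hst, hcτ, hsτ, hY0, hY1, smul_smul, smul_smul, smul_smul]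
      congr 2 <;> ring
  · refine Prod.ext hb1 (Prod.ext ?_ ?_)
    · show b.2.1 = Real.cos t • -Real.sin τ • f1 - Real.sin t • Real.cos τ • w 2 • f2
      rw [hx', hct, hst, hcτ, hsτ, smul_smul, smul_smul, smul_smul, sub_eq_add_neg, ← neg_smul]
      congr 2
      · ring
      · linear_combination (-(co * X 1)) * w2
    · show b.2.2 = Real.sin t • -Real.sin τ • f1 + Real.cos t • Real.cos τ • w 2 • f2
      rw [hy', hct, hst, hcτ, hsτ, hY0, hY1, smul_smul, smul_smul, smul_smul]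
      congr 2 <;> ring

end Pool.Agent.FL.S2
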