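import Pool.Agent.helper46.FR.Comp

/-!
# MP_f09395_gt, module AB5: the kink lemma (pure compactness)

`C d (ζ d² g'² / (d² + g²)^(3/2) - M)` is the lower bound of the second derivative of a kink
`ζ C d (√(d² + g²) - d)`.
-/

noncomputable section

namespace Pool.Agent.FL

open Filter Topology

/-- lower bound of the second derivative of a kink -/
def kinkT (C d z g g' M : ℝ) : ℝ :=
  C * d * (z * (d ^ 2 * g' ^ 2 / Real.sqrt (d ^ 2 + g ^ 2) ^ 3) - M)

theorem KinkL_ge {C d z g g' M : ℝ} (hC : 0 < C) (hd : 0 < d) (hz : 0 ≤ z) :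
    -(C * d * |M|) ≤ kinkT C d z g g' M := by
  unfold kinkT
  have h1 : 0 ≤ z * (d ^ 2 * g' ^ 2 / Real.sqrt (d ^ 2 + g ^ 2) ^ 3) := by positivity
  have h2 : -|M| ≤ z * (d ^ 2 * g' ^ 2 / Real.sqrt (d ^ 2 + g ^ 2) ^ 3) - M := by
    have := le_abs_self M; linarith
  have h3 : 0 < C * d := by positivity
  nlinarith

theorem KinkL_zero {C d z g' M : ℝ} (hd : 0 < d) :
    kinkT C d z 0 g' M = C * z * g' ^ 2 - C * d * M := by
  unfold kinkT
  have h1 : Real.sqrt (d ^ 2 + 0 ^ 2) = d := by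
    rw [zero_pow two_ne_zero, add_zero, Real.sqrt_sq hd.le]
  rw [h1]
  field_simp

theorem KinkL_cont {Z : Type*} [TopologicalSpace Z] {K : Set Z} {C d M : ℝ} {ζ g g' : Z → ℝ}
    (hd : 0 < d) (hζ : ContinuousOn ζ K) (hg : ContinuousOn g K) (hg' : ContinuousOn g' K) :
    ContinuousOn (fun x => kinkT C d (ζ x) (g x) (g' x) M) K := by
  unfold kinkT
  refine continuousOn_const.mul ((hζ.mul ((continuousOn_const.mul (hg'.pow 2)).div
    (((continuousOn_const.add (hg.pow 2)).sqrt).pow 3) ?_)).sub continuousOn_const)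
  intro x _
  have h1 : 0 < d ^ 2 + g x ^ 2 := by positivity
  exact (pow_pos (Real.sqrt_pos.2 h1) 3).ne'

theorem KinkL_compact_sub {Z : Type*} [TopologicalSpace Z] {K : Set Z} (hK : IsCompact K)
    {f : Z → ℝ} (hf : ContinuousOn f K) {S : Set ℝ} (hS : IsClosed S) :
    IsCompact (K ∩ f ⁻¹' S) := by
  obtain ⟨u, hu, hu'⟩ := continuousOn_iff_isClosed.1 hf S hS
  have h1 : K ∩ f ⁻¹' S = K ∩ u := by rw [Set.inter_comm, hu', Set.inter_comm]
  rw [h1]
  exact hK.inter_right hu

/-- one step: `(C, d)` for one more kink -/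
theorem KinkL_step {Z : Type*} [TopologicalSpace Z] {K : Set Z} (hK : IsCompact K)
    {F ζ g g' : Z → ℝ} (hF : ContinuousOn F K) (hg' : ContinuousOn g' K)
    (hζ : ∀ x ∈ K, 1 / 2 ≤ ζ x) (hg0 : ∀ x ∈ K, g x = 0)
    (h : ∀ x ∈ K, g' x = 0 → 0 < F x) (M : ℝ) {e : ℝ} (he : 0 < e) :
    ∃ C > 0, ∃ d > 0, C * d * |M| < e ∧
      ∀ x ∈ K, 0 < F x + kinkT C d (ζ x) (g x) (g' x) M := by
  obtain ⟨C, hC, c, hc, hx⟩ := Pool.Agent.helper79.FR.pos_add_sq' hK hF hg' h
  obtain ⟨e', he'⟩ : ∃ e' : ℝ, e' = min e c := ⟨_, rfl⟩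
  have he'0 : 0 < e' := by rw [he']; exact lt_min he hc
  have he'1 : e' ≤ e := by rw [he']; exact min_le_left _ _
  have he'2 : e' ≤ c := by rw [he']; exact min_le_right _ _
  have hden : 0 < 2 * C * (|M| + 1) := by positivity
  have hd : 0 < e' / (2 * (2 * C * (|M| + 1))) := by positivity
  have hb : 2 * C * (e' / (2 * (2 * C * (|M| + 1)))) * |M| < e' := by
    have h1 : 2 * C * (e' / (2 * (2 * C * (|M| + 1)))) * |M| =
        e' * (|M| / (2 * (|M| + 1))) := by
      field_simp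
    rw [h1]
    have h2 : |M| / (2 * (|M| + 1)) < 1 := by
      rw [div_lt_one (by positivity)]
      have := abs_nonneg M
      linarith
    nlinarith
  refine ⟨2 * C, by positivity, _, hd, lt_of_lt_of_le hb he'1, fun x hxK => ?_⟩
  rw [hg0 x hxK, KinkL_zero hd]
  have h1 := hx x hxK
  have h2 := hζ x hxK
  have h3 : 2 * C * (e' / (2 * (2 * C * (|M| + 1)))) * M ≤
      2 * C * (e' / (2 * (2 * C * (|M| + 1)))) * |M| :=
    mul_le_mul_of_nonneg_left (le_abs_self M) (by positivity)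
  have h4 : C * g' x ^ 2 ≤ 2 * C * ζ x * g' x ^ 2 := by
    have h5 : 0 ≤ C * g' x ^ 2 := by positivity
    nlinarith
  linarith

/-- **kink lemma.**  `T > 0` where the cut-off `ζ` is at most `1/2`; on `{ζ ≥ 1/2}` the numbers
`g i` vanish as soon as all `g' j`, `j < i`, vanish, and `T > 0` where all `g' j` vanish. -/
theorem KinkL_exists {Z : Type*} [TopologicalSpace Z] {K : Set Z} (hK : IsCompact K)
    {T ζ : Z → ℝ} (hT : ContinuousOn T K) (hζ : ContinuousOn ζ K) (r : ℕ) {g g' : ℕ → Z → ℝ}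
    (hg : ∀ i < r, ContinuousOn (g i) K) (hg' : ∀ i < r, ContinuousOn (g' i) K) (M : ℕ → ℝ)
    (h0 : ∀ x ∈ K, 0 ≤ ζ x) (h1 : ∀ x ∈ K, ζ x ≤ 1 / 2 → 0 < T x)
    (h2 : ∀ i < r, ∀ x ∈ K, 1 / 2 ≤ ζ x → (∀ j < i, g' j x = 0) → g i x = 0)
    (h3 : ∀ x ∈ K, 1 / 2 ≤ ζ x → (∀ j < r, g' j x = 0) → 0 < T x) :
    ∃ C d : ℕ → ℝ, (∀ i, 0 < C i) ∧ (∀ i, 0 < d i) ∧ ∀ x ∈ K,
      0 < T x + ∑ i ∈ Finset.range r, kinkT (C i) (d i) (ζ x) (g i x) (g' i x) (M i) := by
  classical
  -- margin where `ζ ≤ 1/2`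
  obtain ⟨η, hη, hηT⟩ : ∃ η > 0, ∀ x ∈ K, ζ x ≤ 1 / 2 → η ≤ T x := by
    obtain ⟨L, hLd⟩ : ∃ L : Set Z, L = K ∩ ζ ⁻¹' (Set.Iic (1 / 2)) := ⟨_, rfl⟩
    have hmem : ∀ x, x ∈ L ↔ x ∈ K ∧ ζ x ≤ 1 / 2 := by intro x; rw [hLd]; rfl
    have hLc : IsCompact L := by
      rw [hLd]
      exact KinkL_compact_sub hK hζ isClosed_Iic
    by_cases hne : L.Nonempty
    · obtain ⟨x1, hx1, hmin⟩ := hLc.exists_isMinOn hne
        (hT.mono (fun x hx => ((hmem x).1 hx).1))
      refine ⟨T x1, h1 x1 ((hmem x1).1 hx1).1 ((hmem x1).1 hx1).2, fun x hx hx' => ?_⟩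
      exact hmin ((hmem x).2 ⟨hx, hx'⟩)
    · refine ⟨1, one_pos, fun x hx hx' => ?_⟩
      exact absurd ⟨x, (hmem x).2 ⟨hx, hx'⟩⟩ hne
  have key : ∀ k, k ≤ r → ∃ C d : ℕ → ℝ, (∀ i, 0 < C i) ∧ (∀ i, 0 < d i) ∧
      (∑ i ∈ Finset.Ico (r - k) r, C i * d i * |M i| < η) ∧
      ∀ x ∈ K, 1 / 2 ≤ ζ x → (∀ j < r - k, g' j x = 0) →
        0 < T x + ∑ i ∈ Finset.Ico (r - k) r,
          kinkT (C i) (d i) (ζ x) (g i x) (g' i x) (M i) := by
    intro k
    induction k with
    | zero =>
      intro _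
      refine ⟨fun _ => 1, fun _ => 1, fun _ => one_pos, fun _ => one_pos, ?_, ?_⟩
      · simpa using hη
      · intro x hx hz hj
        have := h3 x hx hz (by simpa using hj)
        simpa using this
    | succ k ih =>
      intro hk
      obtain ⟨C, d, hC, hd, hsum, hpos⟩ := ih (by omega)
      obtain ⟨s, hs⟩ : ∃ s, s = r - (k + 1) := ⟨_, rfl⟩
      have hs1 : r - k = s + 1 := by omega
      have hsr : s < r := by omega
      rw [hs1] at hsum hpos
      rw [← hs]
      -- the set `Z_s`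
      obtain ⟨L, hLd⟩ : ∃ L : Set Z, L = {x | x ∈ K ∧ 1 / 2 ≤ ζ x ∧ ∀ j < s, g' j x = 0} :=
        ⟨_, rfl⟩
      have hLK : L ⊆ K := by intro x hx; rw [hLd] at hx; exact hx.1
      have hLc : IsCompact L := by
        have h5 : ∀ n ≤ s, IsCompact {x | x ∈ K ∧ 1 / 2 ≤ ζ x ∧ ∀ j < n, g' j x = 0} := by
          intro n
          induction n with
          | zero =>
            intro _
            have := KinkL_compact_sub hK hζ (isClosed_Ici (a := (1 / 2 : ℝ)))
            convert this using 1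
            ext x
            simp
          | succ n ihn =>
            intro hn
            have h6 := ihn (by omega)
            have h7 : ContinuousOn (g' n) {x | x ∈ K ∧ 1 / 2 ≤ ζ x ∧ ∀ j < n, g' j x = 0} :=
              (hg' n (by omega)).mono (fun x hx => hx.1)
            have h8 := KinkL_compact_sub h6 h7 (isClosed_singleton (x := (0 : ℝ)))
            convert h8 using 1
            ext x
            constructor
            · rintro ⟨a1, a2, a3⟩
              exact ⟨⟨a1, a2, fun j hj => a3 j (by omega)⟩, a3 n (by omega)⟩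
            · rintro ⟨⟨a1, a2, a3⟩, a4⟩
              refine ⟨a1, a2, fun j hj => ?_⟩
              rcases Nat.lt_succ_iff_lt_or_eq.1 hj with h | h
              · exact a3 j h
              · rw [h]; exact a4
        rw [hLd]
        exact h5 s le_rfl
      have hFc : ContinuousOn (fun x => T x + ∑ i ∈ Finset.Ico (s + 1) r,
          kinkT (C i) (d i) (ζ x) (g i x) (g' i x) (M i)) K := by
        refine hT.add (continuousOn_finsetSum _ fun i hi => ?_)
        have hi' := (Finset.mem_Ico.1 hi).2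
        exact KinkL_cont (hd i) hζ (hg i hi') (hg' i hi')
      obtain ⟨C0, hC0, d0, hd0, hb, hF⟩ := KinkL_step hLc (hFc.mono hLK)
        ((hg' s hsr).mono hLK) (ζ := ζ) (g := g s)
        (by intro x hx; rw [hLd] at hx; exact hx.2.1)
        (by intro x hx; rw [hLd] at hx; exact h2 s hsr x hx.1 hx.2.1 hx.2.2)
        (by
          intro x hx h9
          rw [hLd] at hx
          refine hpos x hx.1 hx.2.1 (fun j hj => ?_)
          rcases Nat.lt_succ_iff_lt_or_eq.1 hj with h | h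
          · exact hx.2.2 j h
          · rw [h]; exact h9) (M s) (sub_pos.2 hsum)
      have hu : ∀ i ∈ Finset.Ico (s + 1) r, Function.update C s C0 i = C i ∧
          Function.update d s d0 i = d i := by
        intro i hi
        have h9 := (Finset.mem_Ico.1 hi).1
        have h10 : i ≠ s := by omega
        exact ⟨Function.update_of_ne h10 _ _, Function.update_of_ne h10 _ _⟩
      refine ⟨Function.update C s C0, Function.update d s d0, ?_, ?_, ?_, ?_⟩
      · intro i
        by_cases h : i = s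
        · rw [h, Function.update_self]; exact hC0
        · rw [Function.update_of_ne h]; exact hC i
      · intro i
        by_cases h : i = s
        · rw [h, Function.update_self]; exact hd0
        · rw [Function.update_of_ne h]; exact hd i
      · rw [Finset.sum_eq_sum_Ico_succ_bot hsr, Function.update_self, Function.update_self]
        have h11 : ∑ i ∈ Finset.Ico (s + 1) r, Function.update C s C0 i *
            Function.update d s d0 i * |M i| = ∑ i ∈ Finset.Ico (s + 1) r, C i * d i * |M i| :=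
          Finset.sum_congr rfl fun i hi => by rw [(hu i hi).1, (hu i hi).2]
        rw [h11]
        linarith
      · intro x hx hz hj
        have h12 := hF x (by rw [hLd]; exact ⟨hx, hz, hj⟩)
        rw [Finset.sum_eq_sum_Ico_succ_bot hsr, Function.update_self, Function.update_self]
        have h11 : ∑ i ∈ Finset.Ico (s + 1) r, kinkT (Function.update C s C0 i)
            (Function.update d s d0 i) (ζ x) (g i x) (g' i x) (M i) =
            ∑ i ∈ Finset.Ico (s + 1) r, kinkT (C i) (d i) (ζ x) (g i x) (g' i x) (M i) :=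
          Finset.sum_congr rfl fun i hi => by rw [(hu i hi).1, (hu i hi).2]
        rw [h11]
        linarith
  obtain ⟨C, d, hC, hd, hsum, hpos⟩ := key r le_rfl
  rw [Nat.sub_self] at hsum hpos
  refine ⟨C, d, hC, hd, fun x hx => ?_⟩
  rw [Finset.range_eq_Ico]
  rcases le_total (1 / 2) (ζ x) with hz | hz
  · exact hpos x hx hz (fun j hj => absurd hj (Nat.not_lt_zero j))
  · have h5 := hηT x hx hz
    have h6 : -(∑ i ∈ Finset.Ico 0 r, C i * d i * |M i|) ≤
        ∑ i ∈ Finset.Ico 0 r, kinkT (C i) (d i) (ζ x) (g i x) (g' i x) (M i) := by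
      rw [← Finset.sum_neg_distrib]
      exact Finset.sum_le_sum fun i _ => KinkL_ge (hC i) (hd i) (h0 x hx)
    linarith

end Pool.Agent.FL
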