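import Pool.Agent.helper90.FL.GftA
import Pool.Agent.FL.KinkL

/-!
# MP_f09395_gt, module AB6: calculus of kinks `ζ C d (√(d² + |G|²) - d)` along a vector field
-/

set_option linter.unusedSectionVars false

noncomputable section

namespace Pool.Agent.FL

open scoped ContDiff
open Filter Topology Pool.Agent.helper90.FL

variable {Y : Type*} [NormedAddCommGroup Y] [NormedSpace ℝ Y] {U : Set Y} {X : Y → Y}
variable {κ : Type*} [Fintype κ]

/-- the norm of a vector valued function -/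
def knorm (G : κ → Y → ℝ) (y : Y) : ℝ := Real.sqrt (∑ k, G k y ^ 2)

/-- the kink `C d (√(d² + |G|²) - d)` -/
def kink (C d : ℝ) (G : κ → Y → ℝ) (y : Y) : ℝ :=
  C * d * (Real.sqrt (d ^ 2 + ∑ k, G k y ^ 2) - d)

/-- sum of kinks with a cut-off -/
def kinkSum (ζ : Y → ℝ) (r : ℕ) (C d : ℕ → ℝ) (G : ℕ → κ → Y → ℝ) (y : Y) : ℝ :=
  ∑ i ∈ Finset.range r, ζ y * kink (C i) (d i) (G i) y

/-- the sum of kinks only depends on the cut-off and the norms -/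
theorem KinkC_symm {ζ : Y → ℝ} {r : ℕ} (C d : ℕ → ℝ) {G : ℕ → κ → Y → ℝ} {y y' : Y}
    (h1 : ζ y' = ζ y) (h2 : ∀ i < r, ∑ k, G i k y' ^ 2 = ∑ k, G i k y ^ 2) :
    kinkSum ζ r C d G y' = kinkSum ζ r C d G y := by
  unfold kinkSum kink
  refine Finset.sum_congr rfl fun i hi => ?_
  rw [h1, h2 i (Finset.mem_range.1 hi)]

theorem KinkC_arg_pos {d : ℝ} (hd : 0 < d) (G : κ → Y → ℝ) (y : Y) :
    0 < d ^ 2 + ∑ k, G k y ^ 2 := by
  have h1 : 0 ≤ ∑ k, G k y ^ 2 := Finset.sum_nonneg fun k _ => sq_nonneg _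
  positivity

theorem KinkC_smooth_s {d : ℝ} (hd : 0 < d) {G : κ → Y → ℝ} (hG : ∀ k, ContDiffOn ℝ ∞ (G k) U) :
    ContDiffOn ℝ ∞ (fun y => Real.sqrt (d ^ 2 + ∑ k, G k y ^ 2)) U := by
  refine ContDiffOn.sqrt (contDiffOn_const.add (ContDiffOn.sum fun k _ => (hG k).pow 2)) ?_
  intro y _
  exact (KinkC_arg_pos hd G y).ne'

theorem KinkC_smooth {d : ℝ} (hd : 0 < d) (C : ℝ) {G : κ → Y → ℝ}
    (hG : ∀ k, ContDiffOn ℝ ∞ (G k) U) : ContDiffOn ℝ ∞ (kink C d G) U :=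
  contDiffOn_const.mul ((KinkC_smooth_s hd hG).sub contDiffOn_const)

theorem KinkC_sum_smooth {ζ : Y → ℝ} (hζ : ContDiffOn ℝ ∞ ζ U) (r : ℕ) (C : ℕ → ℝ) {d : ℕ → ℝ}
    (hd : ∀ i, 0 < d i) {G : ℕ → κ → Y → ℝ} (hG : ∀ i k, ContDiffOn ℝ ∞ (G i k) U) :
    ContDiffOn ℝ ∞ (kinkSum ζ r C d G) U :=
  ContDiffOn.sum fun i _ => hζ.mul (KinkC_smooth (hd i) (C i) (hG i))

theorem KinkC_diff (hU : IsOpen U) {f : Y → ℝ} (hf : ContDiffOn ℝ ∞ f U) {y : Y} (hy : y ∈ U) :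
    DifferentiableAt ℝ f y :=
  (hf.contDiffAt (hU.mem_nhds hy)).differentiableAt (by simp)

theorem KinkC_line {f : Y → ℝ} {y : Y} (hf : DifferentiableAt ℝ f y) (v : Y) :
    HasDerivAt (fun t : ℝ => f (y + t • v)) (fderiv ℝ f y v) 0 :=
  hf.hasFDerivAt.hasLineDerivAt v

theorem KinkC_D_congr (hU : IsOpen U) {f g : Y → ℝ} (h : ∀ y ∈ U, f y = g y) {y : Y} (hy : y ∈ U)
    (v : Y) : fderiv ℝ f y v = fderiv ℝ g y v := by
  have h1 : f =ᶠ[𝓝 y] g := by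
    filter_upwards [hU.mem_nhds hy] with z hz
    exact h z hz
  rw [h1.fderiv_eq]

/-- `P = ∑ G_k X G_k` -/
def kP (X : Y → Y) (G : κ → Y → ℝ) (y : Y) : ℝ := ∑ k, G k y * itd X (G k) 1 y

theorem KinkC_D1s (hU : IsOpen U) {d : ℝ} (hd : 0 < d) {G : κ → Y → ℝ}
    (hG : ∀ k, ContDiffOn ℝ ∞ (G k) U) {y : Y} (hy : y ∈ U) :
    fderiv ℝ (fun y => Real.sqrt (d ^ 2 + ∑ k, G k y ^ 2)) y (X y) =
      kP X G y / Real.sqrt (d ^ 2 + ∑ k, G k y ^ 2) := by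
  have h1 := KinkC_line (KinkC_diff hU (KinkC_smooth_s hd hG) hy) (X y)
  have h2 : HasDerivAt (fun t : ℝ => d ^ 2 + ∑ k, G k (y + t • X y) ^ 2)
      (∑ k, 2 * G k y * fderiv ℝ (G k) y (X y)) 0 := by
    have h3 : HasDerivAt (fun t : ℝ => ∑ k, G k (y + t • X y) ^ 2)
        (∑ k, 2 * G k y * fderiv ℝ (G k) y (X y)) 0 := by
      have h4 : ∀ k ∈ (Finset.univ : Finset κ), HasDerivAt (fun t : ℝ => G k (y + t • X y) ^ 2)
          (2 * G k y * fderiv ℝ (G k) y (X y)) 0 := by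
        intro k _
        have h5 := (KinkC_line (KinkC_diff hU (hG k) hy) (X y)).fun_pow 2
        simpa using h5
      exact HasDerivAt.fun_sum h4
    exact h3.const_add _
  have h3 : HasDerivAt (fun t : ℝ => Real.sqrt (d ^ 2 + ∑ k, G k (y + t • X y) ^ 2))
      ((∑ k, 2 * G k y * fderiv ℝ (G k) y (X y)) /
        (2 * Real.sqrt (d ^ 2 + ∑ k, G k (y + (0 : ℝ) • X y) ^ 2))) 0 :=
    h2.sqrt (KinkC_arg_pos hd G _).ne'
  have h4 := h1.unique h3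
  rw [h4]
  simp only [zero_smul, add_zero, kP]
  have h5 := Real.sqrt_pos.2 (KinkC_arg_pos hd G y)
  have h6 : ∑ k, 2 * G k y * fderiv ℝ (G k) y (X y) = 2 * ∑ k, G k y * itd X (G k) 1 y := by
    rw [Finset.mul_sum]
    refine Finset.sum_congr rfl fun k _ => ?_
    rw [mul_assoc]; rfl
  rw [h6]
  field_simp

theorem KinkC_P_smooth (hU : IsOpen U) (hX : ContDiffOn ℝ ∞ X U) {G : κ → Y → ℝ}
    (hG : ∀ k, ContDiffOn ℝ ∞ (G k) U) : ContDiffOn ℝ ∞ (kP X G) U :=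
  ContDiffOn.sum fun k _ => (hG k).mul (itd_smooth hU hX (hG k) 1)

/-- the first derivative of a kink -/
theorem KinkC_D1 (hU : IsOpen U) {d : ℝ} (hd : 0 < d) (C : ℝ) {G : κ → Y → ℝ}
    (hG : ∀ k, ContDiffOn ℝ ∞ (G k) U) {y : Y} (hy : y ∈ U) :
    itd X (kink C d G) 1 y = C * d * (kP X G y / Real.sqrt (d ^ 2 + ∑ k, G k y ^ 2)) := by
  have h1 := KinkC_D1s (X := X) hU hd hG hy
  have h2 := KinkC_diff hU (KinkC_smooth_s hd hG) hy
  show fderiv ℝ (fun y => C * d * (Real.sqrt (d ^ 2 + ∑ k, G k y ^ 2) - d)) y (X y) = _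
  rw [fderiv_const_mul (h2.sub_const d), fderiv_sub_const]
  simp only [ContinuousLinearMap.smul_apply, smul_eq_mul]
  rw [h1]

theorem KinkC_DP (hU : IsOpen U) (hX : ContDiffOn ℝ ∞ X U) {G : κ → Y → ℝ}
    (hG : ∀ k, ContDiffOn ℝ ∞ (G k) U) {y : Y} (hy : y ∈ U) :
    fderiv ℝ (kP X G) y (X y) = ∑ k, (itd X (G k) 1 y ^ 2 + G k y * itd X (G k) 2 y) := by
  have h1 := KinkC_line (KinkC_diff hU (KinkC_P_smooth hU hX hG) hy) (X y)
  have h2 : HasDerivAt (fun t : ℝ => ∑ k, G k (y + t • X y) * itd X (G k) 1 (y + t • X y))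
      (∑ k, (itd X (G k) 1 y ^ 2 + G k y * itd X (G k) 2 y)) 0 := by
    refine HasDerivAt.fun_sum fun k _ => ?_
    have h3 := KinkC_line (KinkC_diff hU (hG k) hy) (X y)
    have h4 := KinkC_line (KinkC_diff hU (itd_smooth hU hX (hG k) 1) hy) (X y)
    have h5 := h3.fun_mul h4
    have h6 : y + (0 : ℝ) • X y = y := by rw [zero_smul, add_zero]
    rw [h6] at h5
    have h7 : itd X (G k) 1 y ^ 2 + G k y * itd X (G k) 2 y =
        fderiv ℝ (G k) y (X y) * itd X (G k) 1 y +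
          G k y * fderiv ℝ (itd X (G k) 1) y (X y) := by
      rw [sq]; rfl
    rw [h7]
    exact h5
  exact h1.unique h2

/-- the second derivative of a kink -/
theorem KinkC_D2 (hU : IsOpen U) (hX : ContDiffOn ℝ ∞ X U) {d : ℝ} (hd : 0 < d) (C : ℝ)
    {G : κ → Y → ℝ} (hG : ∀ k, ContDiffOn ℝ ∞ (G k) U) {y : Y} (hy : y ∈ U) :
    itd X (kink C d G) 2 y = C * d *
      ((∑ k, (itd X (G k) 1 y ^ 2 + G k y * itd X (G k) 2 y)) /
          Real.sqrt (d ^ 2 + ∑ k, G k y ^ 2) -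
        kP X G y ^ 2 / Real.sqrt (d ^ 2 + ∑ k, G k y ^ 2) ^ 3) := by
  have h0 : itd X (kink C d G) 2 y = fderiv ℝ (fun y => C * d * (kP X G y /
      Real.sqrt (d ^ 2 + ∑ k, G k y ^ 2))) y (X y) :=
    KinkC_D_congr hU (fun z hz => KinkC_D1 hU hd C hG hz) hy (X y)
  have hs := KinkC_smooth_s hd hG
  have hP := KinkC_P_smooth hU hX hG
  have hF : ContDiffOn ℝ ∞ (fun y => C * d * (kP X G y /
      Real.sqrt (d ^ 2 + ∑ k, G k y ^ 2))) U :=
    contDiffOn_const.mul (hP.div hs fun z _ => (Real.sqrt_pos.2 (KinkC_arg_pos hd G z)).ne')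
  have h1 := KinkC_line (KinkC_diff hU hF hy) (X y)
  have h2 := KinkC_line (KinkC_diff hU hP hy) (X y)
  have h3 := KinkC_line (KinkC_diff hU hs hy) (X y)
  have h4 := ((h2.div h3 (by
    simp only [zero_smul, add_zero]
    exact (Real.sqrt_pos.2 (KinkC_arg_pos hd G y)).ne')).const_mul (C * d))
  have h5 := h1.unique h4
  rw [h0, h5, KinkC_DP hU hX hG hy, KinkC_D1s hU hd hG hy]
  simp only [zero_smul, add_zero]
  have h6 := Real.sqrt_pos.2 (KinkC_arg_pos hd G y)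
  field_simp

theorem KinkC_knorm_sq (G : κ → Y → ℝ) (y : Y) : knorm G y ^ 2 = ∑ k, G k y ^ 2 :=
  Real.sq_sqrt (Finset.sum_nonneg fun k _ => sq_nonneg _)

theorem KinkC_knorm_nonneg (G : κ → Y → ℝ) (y : Y) : 0 ≤ knorm G y := Real.sqrt_nonneg _

theorem KinkC_knorm_zero {G : κ → Y → ℝ} {y : Y} : knorm G y = 0 ↔ ∀ k, G k y = 0 := by
  constructor
  · intro h k
    have h1 : ∑ k, G k y ^ 2 = 0 := by rw [← KinkC_knorm_sq, h]; ring
    have h2 := (Finset.sum_eq_zero_iff_of_nonneg (fun k _ => sq_nonneg (G k y))).1 h1 k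
      (Finset.mem_univ k)
    exact pow_eq_zero_iff two_ne_zero |>.1 h2
  · intro h
    unfold knorm
    simp [h]

/-- Cauchy-Schwarz -/
theorem KinkC_cs (G F : κ → Y → ℝ) (y : Y) :
    |∑ k, G k y * F k y| ≤ knorm G y * knorm F y := by
  have h1 : (∑ k, G k y * F k y) ^ 2 ≤ (knorm G y * knorm F y) ^ 2 := by
    rw [mul_pow, KinkC_knorm_sq, KinkC_knorm_sq]
    exact Finset.sum_mul_sq_le_sq_mul_sq _ _ _
  exact abs_le_of_sq_le_sq h1
    (mul_nonneg (KinkC_knorm_nonneg G y) (KinkC_knorm_nonneg F y))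

theorem KinkC_D2_ge (hU : IsOpen U) (hX : ContDiffOn ℝ ∞ X U) {d : ℝ} (hd : 0 < d) {C : ℝ}
    (hC : 0 < C) {G : κ → Y → ℝ} (hG : ∀ k, ContDiffOn ℝ ∞ (G k) U) {y : Y} (hy : y ∈ U) :
    C * d * (d ^ 2 * knorm (fun k => itd X (G k) 1) y ^ 2 /
      Real.sqrt (d ^ 2 + knorm G y ^ 2) ^ 3 - knorm (fun k => itd X (G k) 2) y) ≤
      itd X (kink C d G) 2 y := by
  rw [KinkC_D2 hU hX hd C hG hy]
  refine mul_le_mul_of_nonneg_left ?_ (by positivity)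
  rw [KinkC_knorm_sq G y]
  obtain ⟨s, hs⟩ : ∃ s, s = Real.sqrt (d ^ 2 + ∑ k, G k y ^ 2) := ⟨_, rfl⟩
  obtain ⟨q, hq⟩ : ∃ q, q = ∑ k, G k y ^ 2 := ⟨_, rfl⟩
  have hs0 : 0 < s := by rw [hs]; exact Real.sqrt_pos.2 (KinkC_arg_pos hd G y)
  have hs2 : s ^ 2 = d ^ 2 + q := by
    rw [hs, hq]; exact Real.sq_sqrt (KinkC_arg_pos hd G y).le
  have hP := KinkC_cs G (fun k => itd X (G k) 1) y
  have hR := KinkC_cs G (fun k => itd X (G k) 2) y
  have hgs : knorm G y ≤ s := by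
    rw [hs]
    unfold knorm
    exact Real.sqrt_le_sqrt (by nlinarith)
  rw [← hs, Finset.sum_add_distrib]
  have hA : ∑ k, itd X (G k) 1 y ^ 2 = knorm (fun k => itd X (G k) 1) y ^ 2 :=
    (KinkC_knorm_sq (fun k => itd X (G k) 1) y).symm
  rw [hA]
  obtain ⟨A, hAd⟩ : ∃ A, A = knorm (fun k => itd X (G k) 1) y := ⟨_, rfl⟩
  obtain ⟨N, hNd⟩ : ∃ N, N = knorm (fun k => itd X (G k) 2) y := ⟨_, rfl⟩
  obtain ⟨R, hRd⟩ : ∃ R, R = ∑ k, G k y * itd X (G k) 2 y := ⟨_, rfl⟩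
  obtain ⟨W, hWd⟩ : ∃ W, W = kP X G y := ⟨_, rfl⟩
  have hN0 : 0 ≤ N := by rw [hNd]; exact KinkC_knorm_nonneg _ _
  have hA0 : 0 ≤ A := by rw [hAd]; exact KinkC_knorm_nonneg _ _
  have hP2 : W ^ 2 ≤ q * A ^ 2 := by
    have h1 : |W| ≤ knorm G y * A := by rw [hWd, hAd]; exact hP
    have h2 : W ^ 2 ≤ (knorm G y * A) ^ 2 := by
      rw [← sq_abs W]
      exact pow_le_pow_left₀ (abs_nonneg _) h1 2
    rw [mul_pow, KinkC_knorm_sq, ← hq] at h2
    exact h2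
  have hR2 : -(s * N) ≤ R := by
    have h1 : |R| ≤ knorm G y * N := by rw [hRd, hNd]; exact hR
    have h2 : knorm G y * N ≤ s * N := mul_le_mul_of_nonneg_right hgs hN0
    have h3 := neg_abs_le R
    linarith
  rw [← hAd, ← hNd, ← hRd, ← hWd]
  have h4 : (A ^ 2 + R) / s - W ^ 2 / s ^ 3 = ((A ^ 2 + R) * s ^ 2 - W ^ 2) / s ^ 3 := by
    field_simp
  have h5 : d ^ 2 * A ^ 2 / s ^ 3 - N = (d ^ 2 * A ^ 2 - N * s ^ 3) / s ^ 3 := by
    field_simp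
  rw [h4, h5]
  refine div_le_div_of_nonneg_right ?_ (by positivity)
  have h6 : 0 ≤ (R + s * N) * s ^ 2 := mul_nonneg (by linarith) (by positivity)
  have h7 : (A ^ 2 + R) * s ^ 2 - W ^ 2 - (d ^ 2 * A ^ 2 - N * s ^ 3) =
      (A ^ 2 * q - W ^ 2) + (R + s * N) * s ^ 2 := by
    have : A ^ 2 * s ^ 2 = A ^ 2 * (d ^ 2 + q) := by rw [hs2]
    linear_combination this
  have h8 : A ^ 2 * q = q * A ^ 2 := by ring
  linarith

theorem KinkC_D1_abs (hU : IsOpen U) {d : ℝ} (hd : 0 < d) {C : ℝ} (hC : 0 < C) {G : κ → Y → ℝ}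
    (hG : ∀ k, ContDiffOn ℝ ∞ (G k) U) {y : Y} (hy : y ∈ U) :
    |itd X (kink C d G) 1 y| ≤ C * d * knorm (fun k => itd X (G k) 1) y := by
  rw [KinkC_D1 hU hd C hG hy, abs_mul, abs_of_pos (by positivity : 0 < C * d)]
  refine mul_le_mul_of_nonneg_left ?_ (by positivity)
  have hs0 := Real.sqrt_pos.2 (KinkC_arg_pos hd G y)
  rw [abs_div, abs_of_pos hs0, div_le_iff₀ hs0]
  have h1 := KinkC_cs G (fun k => itd X (G k) 1) y
  have hgs : knorm G y ≤ Real.sqrt (d ^ 2 + ∑ k, G k y ^ 2) :=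
    Real.sqrt_le_sqrt (by nlinarith)
  calc |kP X G y| ≤ knorm G y * knorm (fun k => itd X (G k) 1) y := h1
    _ ≤ Real.sqrt (d ^ 2 + ∑ k, G k y ^ 2) * knorm (fun k => itd X (G k) 1) y :=
      mul_le_mul_of_nonneg_right hgs (KinkC_knorm_nonneg _ _)
    _ = _ := mul_comm _ _

theorem KinkC_bound {d : ℝ} (hd : 0 < d) {C : ℝ} (hC : 0 < C) (G : κ → Y → ℝ) (y : Y) :
    0 ≤ kink C d G y ∧ kink C d G y ≤ C * d * knorm G y := by
  have h0 : 0 ≤ ∑ k, G k y ^ 2 := Finset.sum_nonneg fun k _ => sq_nonneg _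
  have h1 : d ≤ Real.sqrt (d ^ 2 + ∑ k, G k y ^ 2) := by
    rw [← Real.sqrt_sq hd.le]
    exact Real.sqrt_le_sqrt (by rw [Real.sqrt_sq hd.le]; linarith)
  have h2 : Real.sqrt (d ^ 2 + ∑ k, G k y ^ 2) ≤ d + knorm G y := by
    rw [Real.sqrt_le_left (add_nonneg hd.le (KinkC_knorm_nonneg _ _))]
    have h3 := KinkC_knorm_sq G y
    have h4 := mul_nonneg hd.le (KinkC_knorm_nonneg G y)
    nlinarith
  unfold kink
  have h5 : 0 < C * d := by positivity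
  constructor
  · exact mul_nonneg h5.le (by linarith)
  · exact mul_le_mul_of_nonneg_left (by linarith) h5.le

/-- error term of a kink with cut-off -/
def kErr (X : Y → Y) (ζ : Y → ℝ) (G : κ → Y → ℝ) (y : Y) : ℝ :=
  ζ y * knorm (fun k => itd X (G k) 2) y + 2 * |itd X ζ 1 y| * knorm (fun k => itd X (G k) 1) y +
    |itd X ζ 2 y| * knorm G y

theorem KinkC_mul2 (hU : IsOpen U) (hX : ContDiffOn ℝ ∞ X U) {f g : Y → ℝ}
    (hf : ContDiffOn ℝ ∞ f U) (hg : ContDiffOn ℝ ∞ g U) {y : Y} (hy : y ∈ U) :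
    itd X (fun y => f y * g y) 2 y =
      f y * itd X g 2 y + 2 * itd X f 1 y * itd X g 1 y + itd X f 2 y * g y := by
  have h1 : ∀ (f g : Y → ℝ), ContDiffOn ℝ ∞ f U → ContDiffOn ℝ ∞ g U → ∀ z ∈ U,
      fderiv ℝ (fun y => f y * g y) z (X z) = f z * fderiv ℝ g z (X z) +
        g z * fderiv ℝ f z (X z) := by
    intro f g hf hg z hz
    rw [fderiv_fun_mul (KinkC_diff hU hf hz) (KinkC_diff hU hg hz)]
    simp only [add_apply, smul_apply, smul_eq_mul]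
  have hf1 := itd_smooth hU hX hf 1
  have hg1 := itd_smooth hU hX hg 1
  have h2 : itd X (fun y => f y * g y) 2 y =
      fderiv ℝ (fun z => f z * itd X g 1 z + g z * itd X f 1 z) y (X y) :=
    KinkC_D_congr hU (fun z hz => h1 f g hf hg z hz) hy (X y)
  have h3 : fderiv ℝ (fun z => f z * itd X g 1 z + g z * itd X f 1 z) y =
      fderiv ℝ (fun z => f z * itd X g 1 z) y + fderiv ℝ (fun z => g z * itd X f 1 z) y :=
    fderiv_fun_add (KinkC_diff hU (hf.mul hg1) hy) (KinkC_diff hU (hg.mul hf1) hy)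
  rw [h2, h3, add_apply, h1 f _ hf hg1 y hy, h1 g _ hg hf1 y hy]
  show f y * itd X g 2 y + itd X g 1 y * itd X f 1 y +
    (g y * itd X f 2 y + itd X f 1 y * itd X g 1 y) = _
  ring

/-- **second derivative of a kink with cut-off** -/
theorem KinkC_cut (hU : IsOpen U) (hX : ContDiffOn ℝ ∞ X U) {d : ℝ} (hd : 0 < d) {C : ℝ}
    (hC : 0 < C) {G : κ → Y → ℝ} (hG : ∀ k, ContDiffOn ℝ ∞ (G k) U) {ζ : Y → ℝ}
    (hζ : ContDiffOn ℝ ∞ ζ U) {y : Y} (hy : y ∈ U) (h0 : 0 ≤ ζ y) {M : ℝ}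
    (hM : kErr X ζ G y ≤ M) :
    kinkT C d (ζ y) (knorm G y) (knorm (fun k => itd X (G k) 1) y) M ≤
      itd X (fun y => ζ y * kink C d G y) 2 y := by
  rw [KinkC_mul2 hU hX hζ (KinkC_smooth hd C hG) hy]
  have h1 := KinkC_D2_ge hU hX hd hC hG hy
  have h2 := KinkC_D1_abs (X := X) hU hd hC hG hy
  obtain ⟨h3, h4⟩ := KinkC_bound hd hC G y
  unfold kinkT
  unfold kErr at hM
  have hCd : 0 < C * d := by positivity
  obtain ⟨A, hA⟩ : ∃ A, A = d ^ 2 * knorm (fun k => itd X (G k) 1) y ^ 2 /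
    Real.sqrt (d ^ 2 + knorm G y ^ 2) ^ 3 := ⟨_, rfl⟩
  rw [← hA] at h1 ⊢
  have h5 : ζ y * (C * d * (A - knorm (fun k => itd X (G k) 2) y)) ≤
      ζ y * itd X (kink C d G) 2 y := mul_le_mul_of_nonneg_left h1 h0
  have h6 : -(2 * |itd X ζ 1 y| * (C * d * knorm (fun k => itd X (G k) 1) y)) ≤
      2 * itd X ζ 1 y * itd X (kink C d G) 1 y := by
    have h7 : |2 * itd X ζ 1 y * itd X (kink C d G) 1 y| ≤
        2 * |itd X ζ 1 y| * (C * d * knorm (fun k => itd X (G k) 1) y) := by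
      rw [abs_mul, abs_mul, abs_two]
      exact mul_le_mul_of_nonneg_left h2 (by positivity)
    have h8 := neg_abs_le (2 * itd X ζ 1 y * itd X (kink C d G) 1 y)
    linarith
  have h9 : -(|itd X ζ 2 y| * (C * d * knorm G y)) ≤ itd X ζ 2 y * kink C d G y := by
    have h10 : |itd X ζ 2 y * kink C d G y| ≤ |itd X ζ 2 y| * (C * d * knorm G y) := by
      rw [abs_mul, abs_of_nonneg h3]
      exact mul_le_mul_of_nonneg_left h4 (abs_nonneg _)
    have h8 := neg_abs_le (itd X ζ 2 y * kink C d G y)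
    linarith
  have h11 : C * d * (ζ y * knorm (fun k => itd X (G k) 2) y +
      2 * |itd X ζ 1 y| * knorm (fun k => itd X (G k) 1) y + |itd X ζ 2 y| * knorm G y) ≤
      C * d * M := mul_le_mul_of_nonneg_left hM hCd.le
  nlinarith

theorem KinkC_knorm_cont {K : Set Y} {G : κ → Y → ℝ} (hG : ∀ k, ContinuousOn (G k) K) :
    ContinuousOn (knorm G) K :=
  (continuousOn_finsetSum _ fun k _ => (hG k).pow 2).sqrt

/-- **existence of kinks**: `K` is a compact set of points over `U` -/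
theorem KinkC_exists (hU : IsOpen U) (hX : ContDiffOn ℝ ∞ X U) {ζ : Y → ℝ}
    (hζ : ContDiffOn ℝ ∞ ζ U) (hζ0 : ∀ y ∈ U, 0 ≤ ζ y) (r : ℕ) {G : ℕ → κ → Y → ℝ}
    (hG : ∀ i k, ContDiffOn ℝ ∞ (G i k) U) {Z : Type*} [TopologicalSpace Z] {K : Set Z}
    (hK : IsCompact K) {π : Z → Y} (hπ : ContinuousOn π K) (hπU : ∀ z ∈ K, π z ∈ U) {T : Z → ℝ}
    (hT : ContinuousOn T K) (h1 : ∀ z ∈ K, ζ (π z) ≤ 1 / 2 → 0 < T z)
    (h2 : ∀ i < r, ∀ z ∈ K, 1 / 2 ≤ ζ (π z) →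
      (∀ j < i, ∀ k, itd X (G j k) 1 (π z) = 0) → ∀ k, G i k (π z) = 0)
    (h3 : ∀ z ∈ K, 1 / 2 ≤ ζ (π z) → (∀ j < r, ∀ k, itd X (G j k) 1 (π z) = 0) → 0 < T z) :
    ∃ C d : ℕ → ℝ, (∀ i, 0 < C i) ∧ (∀ i, 0 < d i) ∧
      ∀ z ∈ K, 0 < T z + itd X (kinkSum ζ r C d G) 2 (π z) := by
  have hmap : Set.MapsTo π K U := hπU
  have hG1 : ∀ i k, ContDiffOn ℝ ∞ (itd X (G i k) 1) U := fun i k => itd_smooth hU hX (hG i k) 1
  have hG2 : ∀ i k, ContDiffOn ℝ ∞ (itd X (G i k) 2) U := fun i k => itd_smooth hU hX (hG i k) 2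
  have hζ1 := itd_smooth hU hX hζ 1
  have hζ2 := itd_smooth hU hX hζ 2
  have hM : ∀ i, ∃ M, ∀ z ∈ K, kErr X ζ (G i) (π z) ≤ M := by
    intro i
    have hc : ContinuousOn (fun z => kErr X ζ (G i) (π z)) K := by
      have hc' : ContinuousOn (kErr X ζ (G i)) U := by
        unfold kErr
        exact ((hζ.continuousOn.mul (KinkC_knorm_cont fun k => (hG2 i k).continuousOn)).add
          ((continuousOn_const.mul hζ1.continuousOn.abs).mul
            (KinkC_knorm_cont fun k => (hG1 i k).continuousOn))).add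
          (hζ2.continuousOn.abs.mul (KinkC_knorm_cont fun k => (hG i k).continuousOn))
      exact hc'.comp hπ hmap
    obtain ⟨M, hM⟩ := hK.exists_bound_of_continuousOn hc
    exact ⟨M, fun z hz => (le_abs_self _).trans (hM z hz)⟩
  choose M hM using hM
  obtain ⟨C, d, hC, hd, hpos⟩ := KinkL_exists hK hT (ζ := fun z => ζ (π z))
    (hζ.continuousOn.comp hπ hmap) r (g := fun i z => knorm (G i) (π z))
    (g' := fun i z => knorm (fun k => itd X (G i k) 1) (π z))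
    (fun i _ => (KinkC_knorm_cont fun k => (hG i k).continuousOn).comp hπ hmap)
    (fun i _ => (KinkC_knorm_cont fun k => (hG1 i k).continuousOn).comp hπ hmap) M
    (fun z hz => hζ0 _ (hπU z hz)) h1
    (fun i hi z hz hz' hj => KinkC_knorm_zero.2
      (h2 i hi z hz hz' fun j hj' k => KinkC_knorm_zero.1 (hj j hj') k))
    (fun z hz hz' hj => h3 z hz hz' fun j hj' k => KinkC_knorm_zero.1 (hj j hj') k)
  refine ⟨C, d, hC, hd, fun z hz => ?_⟩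
  have hy := hπU z hz
  have h4 : itd X (kinkSum ζ r C d G) 2 (π z) =
      ∑ i ∈ Finset.range r, itd X (fun y => ζ y * kink (C i) (d i) (G i) y) 2 (π z) :=
    itd_sum hU hX (Finset.range r) (fun i _ => hζ.mul (KinkC_smooth (hd i) (C i) (hG i))) 2 _ hy
  rw [h4]
  refine lt_of_lt_of_le (hpos z hz) ?_
  have h5 : ∑ i ∈ Finset.range r, kinkT (C i) (d i) (ζ (π z)) (knorm (G i) (π z))
      (knorm (fun k => itd X (G i k) 1) (π z)) (M i) ≤
      ∑ i ∈ Finset.range r, itd X (fun y => ζ y * kink (C i) (d i) (G i) y) 2 (π z) :=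
    Finset.sum_le_sum fun i _ => KinkC_cut hU hX (hd i) (hC i) (hG i) hζ hy (hζ0 _ hy) (hM i z hz)
  linarith

end Pool.Agent.FL
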