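import Pool.Agent.FL.S2Core
import Pool.Agent.FL.KinkC

/-!
# MP_f09395_gt, space (2): the kink near `p = 0` (`a = 0`)

`n = C ζ(u) |a|²`, where `ζ` is a cut-off of degree 0: it vanishes for `|a|² ≥ r₁ |u|²` and near
the points with `s_e(u) ≤ 0` for one of the directions `e` (`s_e(u) = (e·BB e - |e|² tr BB)/|u|⁴`;
for `a = 0`: `s_e(u) = |e × (x × y)|² / |u|⁴`, and `s_e = 0` if `a, x, y` are parallel).
-/

set_option linter.unusedSectionVars false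

noncomputable section

namespace Pool.Agent.FL.S2

open scoped ContDiff Matrix
open Filter Topology Pool.Agent.helper90.FL Pool.Agent.FL

/-- `s_e(u) = (e·BB e - |e|² tr BB)/|u|⁴` -/
def seM (e : R3) (u : R9) : ℝ :=
  ((∑ i, ∑ j, e i * BBm u i j * e j) - (e ⬝ᵥ e) * ∑ i, BBm u i i) / dot9 u u ^ 2

/-! ### smoothness -/

section smooth

variable {Y : Type*} [NormedAddCommGroup Y] [NormedSpace ℝ Y] {U : Set Y}

theorem SBp_comp {f : Y → R3} (hf : ContDiffOn ℝ ∞ f U) (i : Fin 3) :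
    ContDiffOn ℝ ∞ (fun y => f y i) U := (contDiffOn_pi.1 hf) i

theorem SBp_dot {f g : Y → R3} (hf : ContDiffOn ℝ ∞ f U) (hg : ContDiffOn ℝ ∞ g U) :
    ContDiffOn ℝ ∞ (fun y => f y ⬝ᵥ g y) U := by
  unfold dotProduct
  exact ContDiffOn.sum fun i _ => (SBp_comp hf i).mul (SBp_comp hg i)

theorem SBp_cross {f g : Y → R3} (hf : ContDiffOn ℝ ∞ f U) (hg : ContDiffOn ℝ ∞ g U) :
    ContDiffOn ℝ ∞ (fun y => f y ⨯₃ g y) U := by
  rw [contDiffOn_pi]
  intro i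
  have e : ∀ y, (f y ⨯₃ g y) = ![f y 1 * g y 2 - f y 2 * g y 1, f y 2 * g y 0 - f y 0 * g y 2,
      f y 0 * g y 1 - f y 1 * g y 0] := fun y => by rw [cross_apply]
  fin_cases i
  · simp only [e]
    exact ((SBp_comp hf 1).mul (SBp_comp hg 2)).sub ((SBp_comp hf 2).mul (SBp_comp hg 1))
  · simp only [e]
    exact ((SBp_comp hf 2).mul (SBp_comp hg 0)).sub ((SBp_comp hf 0).mul (SBp_comp hg 2))
  · simp only [e]
    exact ((SBp_comp hf 0).mul (SBp_comp hg 1)).sub ((SBp_comp hf 1).mul (SBp_comp hg 0))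

end smooth

theorem SBp_a : ContDiff ℝ ∞ (fun u : R9 => u.1) := contDiff_fst
theorem SBp_x : ContDiff ℝ ∞ (fun u : R9 => u.2.1) := contDiff_fst.comp contDiff_snd
theorem SBp_y : ContDiff ℝ ∞ (fun u : R9 => u.2.2) := contDiff_snd.comp contDiff_snd

theorem SBp_dot9_smooth (U : Set R9) : ContDiffOn ℝ ∞ (fun u : R9 => dot9 u u) U :=
  ((SBp_dot SBp_a.contDiffOn SBp_a.contDiffOn).add
    (SBp_dot SBp_x.contDiffOn SBp_x.contDiffOn)).add (SBp_dot SBp_y.contDiffOn SBp_y.contDiffOn)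

theorem SBp_BBm_smooth (U : Set R9) (i j : Fin 3) :
    ContDiffOn ℝ ∞ (fun u : R9 => BBm u i j) U := by
  have h1 := SBp_cross (U := U) SBp_a.contDiffOn SBp_x.contDiffOn
  have h2 := SBp_cross (U := U) SBp_a.contDiffOn SBp_y.contDiffOn
  have h3 := SBp_cross (U := U) SBp_x.contDiffOn SBp_y.contDiffOn
  exact (((SBp_comp h1 i).mul (SBp_comp h1 j)).add ((SBp_comp h2 i).mul (SBp_comp h2 j))).sub
    ((SBp_comp h3 i).mul (SBp_comp h3 j))

theorem SBp_dotself (p : R3) : 0 ≤ p ⬝ᵥ p := by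
  unfold dotProduct
  exact Finset.sum_nonneg fun i _ => mul_self_nonneg _

theorem SBp_dotself_eq {p : R3} (h : p ⬝ᵥ p = 0) : p = 0 := by
  unfold dotProduct at h
  funext i
  have h1 := (Finset.sum_eq_zero_iff_of_nonneg (fun i _ => mul_self_nonneg (p i))).1 h i
    (Finset.mem_univ i)
  exact mul_self_eq_zero.1 h1

theorem SBp_dot9_pos {u : R9} (hu : u ≠ 0) : 0 < dot9 u u := by
  have h1 := SBp_dotself u.1
  have h2 := SBp_dotself u.2.1
  have h3 := SBp_dotself u.2.2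
  unfold dot9
  rcases lt_or_eq_of_le (add_nonneg (add_nonneg h1 h2) h3) with h | h
  · exact h
  · exfalso
    apply hu
    have e1 := SBp_dotself_eq (by linarith : u.1 ⬝ᵥ u.1 = 0)
    have e2 := SBp_dotself_eq (by linarith : u.2.1 ⬝ᵥ u.2.1 = 0)
    have e3 := SBp_dotself_eq (by linarith : u.2.2 ⬝ᵥ u.2.2 = 0)
    exact Prod.ext e1 (Prod.ext e2 e3)

theorem SBp_seM_smooth (e : R3) : ContDiffOn ℝ ∞ (seM e) {0}ᶜ := by
  refine ContDiffOn.div ?_ ((SBp_dot9_smooth _).pow 2) fun u hu =>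
    (pow_pos (SBp_dot9_pos hu) 2).ne'
  refine ContDiffOn.sub (ContDiffOn.sum fun i _ => ContDiffOn.sum fun j _ => ?_)
    (contDiffOn_const.mul (ContDiffOn.sum fun i _ => SBp_BBm_smooth _ i i))
  exact (contDiffOn_const.mul (SBp_BBm_smooth _ i j)).mul contDiffOn_const

theorem SBp_eM_smooth {v : R9 → ℝ} (hv : ContDiffOn ℝ ∞ v {0}ᶜ) :
    ContDiffOn ℝ ∞ (eM v) {0}ᶜ := by
  have hd : ContDiffOn ℝ ∞ (fderiv ℝ v) {0}ᶜ :=
    hv.fderiv_of_isOpen isOpen_compl_singleton (by norm_cast)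
  have hc : ∀ w : R9, ContDiffOn ℝ ∞ (fun u => fderiv ℝ v u w) {0}ᶜ := fun w =>
    hd.clm_apply contDiffOn_const
  have g1 : ContDiffOn ℝ ∞ (fun u => (grad9 v u).1) {0}ᶜ := by
    rw [contDiffOn_pi]; intro i; exact hc _
  have g2 : ContDiffOn ℝ ∞ (fun u => (grad9 v u).2.1) {0}ᶜ := by
    rw [contDiffOn_pi]; intro i; exact hc _
  have g3 : ContDiffOn ℝ ∞ (fun u => (grad9 v u).2.2) {0}ᶜ := by
    rw [contDiffOn_pi]; intro i; exact hc _
  have a := SBp_a.contDiffOn (s := ({0}ᶜ : Set R9))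
  have x := SBp_x.contDiffOn (s := ({0}ᶜ : Set R9))
  have y := SBp_y.contDiffOn (s := ({0}ᶜ : Set R9))
  exact (((SBp_cross a g1).add (SBp_cross x g2)).add (SBp_cross y g3)).prodMk
    (((SBp_cross a g2).sub (SBp_cross g1 x)).prodMk ((SBp_cross a g3).sub (SBp_cross g1 y)))

/-! ### the cut-off -/

/-- the cut-off -/
def SBp_z {ι : Type*} [Fintype ι] (e : ι → R3) (r η : ℝ) (u : R9) : ℝ :=
  (1 - Real.smoothTransition ((u.1 ⬝ᵥ u.1) / dot9 u u / r - 1)) *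
    ∏ i, Real.smoothTransition (seM (e i) u / η - 1)

variable {ι : Type*} [Fintype ι] {e : ι → R3} {r η : ℝ}

theorem SBp_z_smooth (e : ι → R3) (r η : ℝ) : ContDiffOn ℝ ∞ (SBp_z e r η) {0}ᶜ := by
  have hst : ∀ {f : R9 → ℝ}, ContDiffOn ℝ ∞ f {0}ᶜ →
      ContDiffOn ℝ ∞ (fun u => Real.smoothTransition (f u)) {0}ᶜ := fun hf =>
    Real.smoothTransition.contDiff.comp_contDiffOn hf
  refine (contDiffOn_const.sub (hst ?_)).mul (contDiffOn_prod fun i _ => hst ?_)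
  · exact (((SBp_dot SBp_a.contDiffOn SBp_a.contDiffOn).div (SBp_dot9_smooth _)
      fun u hu => (SBp_dot9_pos hu).ne').div_const r).sub contDiffOn_const
  · exact ((SBp_seM_smooth (e i)).div_const η).sub contDiffOn_const

theorem SBp_z_nonneg (e : ι → R3) (r η : ℝ) (u : R9) : 0 ≤ SBp_z e r η u :=
  mul_nonneg (sub_nonneg.2 (Real.smoothTransition.le_one _))
    (Finset.prod_nonneg fun _ _ => Real.smoothTransition.nonneg _)

theorem SBp_z_zero1 (hr : 0 < r) {u : R9} (hu : u ≠ 0) (h : 2 * r * dot9 u u ≤ u.1 ⬝ᵥ u.1) :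
    SBp_z e r η u = 0 := by
  have h1 : 1 ≤ (u.1 ⬝ᵥ u.1) / dot9 u u / r - 1 := by
    have h2 := SBp_dot9_pos hu
    have h3 : 2 ≤ (u.1 ⬝ᵥ u.1) / dot9 u u / r := by
      rw [le_div_iff₀ hr, le_div_iff₀ h2]; linarith
    linarith
  unfold SBp_z
  rw [Real.smoothTransition.one_of_one_le h1]
  ring

theorem SBp_z_zero2 (hη : 0 < η) {u : R9} {i : ι} (h : seM (e i) u ≤ η) :
    SBp_z e r η u = 0 := by
  have h1 : seM (e i) u / η - 1 ≤ 0 := by
    have : seM (e i) u / η ≤ 1 := (div_le_one hη).2 h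
    linarith
  unfold SBp_z
  rw [Finset.prod_eq_zero (Finset.mem_univ i) (Real.smoothTransition.zero_of_nonpos h1), mul_zero]

theorem SBp_z_one (hη : 0 < η) {u : R9} (ha : u.1 = 0) (h : ∀ i, 2 * η ≤ seM (e i) u) :
    SBp_z e r η u = 1 := by
  have h1 : (u.1 ⬝ᵥ u.1) / dot9 u u / r - 1 ≤ 0 := by
    rw [ha]; simp
  have h2 : ∀ i, 1 ≤ seM (e i) u / η - 1 := by
    intro i
    have : 2 ≤ seM (e i) u / η := (le_div_iff₀ hη).2 (h i)
    linarith
  unfold SBp_z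
  rw [Real.smoothTransition.zero_of_nonpos h1,
    Finset.prod_eq_one fun i _ => Real.smoothTransition.one_of_one_le (h2 i)]
  ring

/-- the added function -/
def SBp_n (e : ι → R3) (r η C : ℝ) (u : R9) : ℝ := C * SBp_z e r η u * (u.1 ⬝ᵥ u.1)

/-! ### invariance -/

theorem SBp_dot9_smul (t : ℝ) (u : R9) : dot9 (t • u) (t • u) = t ^ 2 * dot9 u u := by
  unfold dot9
  simp only [Prod.smul_fst, Prod.smul_snd, smul_dotProduct, dotProduct_smul, smul_eq_mul]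
  ring

theorem SBp_BBm_smul (t : ℝ) (u : R9) (i j : Fin 3) : BBm (t • u) i j = t ^ 4 * BBm u i j := by
  unfold BBm
  simp only [Prod.smul_fst, Prod.smul_snd, map_smul, LinearMap.smul_apply, Pi.smul_apply,
    smul_eq_mul]
  ring

theorem SBp_seM_smul (e : R3) {t : ℝ} (ht : t ≠ 0) (u : R9) : seM e (t • u) = seM e u := by
  unfold seM
  simp only [SBp_BBm_smul, SBp_dot9_smul]
  have h1 : (∑ i, ∑ j, e i * (t ^ 4 * BBm u i j) * e j) - (e ⬝ᵥ e) * ∑ i, t ^ 4 * BBm u i i =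
      t ^ 4 * ((∑ i, ∑ j, e i * BBm u i j * e j) - (e ⬝ᵥ e) * ∑ i, BBm u i i) := by
    simp only [Fin.sum_univ_three]; ring
  have h2 : (t ^ 2 * dot9 u u) ^ 2 = t ^ 4 * dot9 u u ^ 2 := by ring
  rw [h1, h2, mul_div_mul_left _ _ (pow_ne_zero 4 ht)]

theorem SBp_rotH (t : ℝ) (u : R9) : (rotH t u).1 = u.1 ∧ dot9 (rotH t u) (rotH t u) = dot9 u u ∧
    ∀ i j, BBm (rotH t u) i j = BBm u i j := by
  have hcs := Real.cos_sq_add_sin_sq t
  refine ⟨rfl, ?_, fun i j => ?_⟩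
  · unfold dot9 rotH
    simp only [dotProduct, Fin.sum_univ_three, Pi.sub_apply, Pi.add_apply, Pi.smul_apply,
      smul_eq_mul]
    linear_combination (u.2.1 0 ^ 2 + u.2.1 1 ^ 2 + u.2.1 2 ^ 2 + u.2.2 0 ^ 2 + u.2.2 1 ^ 2 +
      u.2.2 2 ^ 2) * hcs
  · have h1 : (rotH t u).2.1 ⨯₃ (rotH t u).2.2 = u.2.1 ⨯₃ u.2.2 := by
      unfold rotH
      rw [cross_apply, cross_apply]
      simp only [Pi.sub_apply, Pi.add_apply, Pi.smul_apply, smul_eq_mul]
      congr 1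
      · linear_combination (u.2.1 1 * u.2.2 2 - u.2.1 2 * u.2.2 1) * hcs
      · congr 1
        · linear_combination (u.2.1 2 * u.2.2 0 - u.2.1 0 * u.2.2 2) * hcs
        · congr 1
          linear_combination (u.2.1 0 * u.2.2 1 - u.2.1 1 * u.2.2 0) * hcs
    have h2 : (rotH t u).1 ⨯₃ (rotH t u).2.1 =
        Real.cos t • (u.1 ⨯₃ u.2.1) - Real.sin t • (u.1 ⨯₃ u.2.2) := by
      unfold rotH
      simp only [map_sub, map_smul]
    have h3 : (rotH t u).1 ⨯₃ (rotH t u).2.2 =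
        Real.sin t • (u.1 ⨯₃ u.2.1) + Real.cos t • (u.1 ⨯₃ u.2.2) := by
      unfold rotH
      simp only [map_add, map_smul]
    unfold BBm
    rw [h1, h2, h3]
    simp only [Pi.sub_apply, Pi.add_apply, Pi.smul_apply, smul_eq_mul]
    linear_combination ((u.1 ⨯₃ u.2.1) i * (u.1 ⨯₃ u.2.1) j +
      (u.1 ⨯₃ u.2.2) i * (u.1 ⨯₃ u.2.2) j) * hcs

theorem SBp_n_phi (e : ι → R3) (r η C : ℝ) : PhiM (SBp_n e r η C) where
  smooth := (contDiffOn_const.mul (SBp_z_smooth e r η)).mul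
    (SBp_dot SBp_a.contDiffOn SBp_a.contDiffOn)
  hom := by
    intro t u
    have h0 : (t • u).1 ⬝ᵥ (t • u).1 = t ^ 2 * (u.1 ⬝ᵥ u.1) := by
      simp only [Prod.smul_fst, smul_dotProduct, dotProduct_smul, smul_eq_mul]
      ring
    by_cases ht : t = 0
    · unfold SBp_n
      rw [h0, ht]; ring
    · have h1 : SBp_z e r η (t • u) = SBp_z e r η u := by
        unfold SBp_z
        simp only [SBp_seM_smul _ ht]
        rw [h0, SBp_dot9_smul, mul_div_mul_left _ _ (pow_ne_zero 2 ht)]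
      unfold SBp_n
      rw [h0, h1]; ring
  inv := by
    intro t u
    obtain ⟨h1, h2, h3⟩ := SBp_rotH t u
    unfold SBp_n SBp_z seM
    simp only [h1, h2, h3]

/-! ### functions with vanishing derivative in one direction -/

/-- `f` is differentiable at `u` and its derivative in the direction `w` vanishes -/
def SBp_ZD (f : R9 → ℝ) (u w : R9) : Prop := DifferentiableAt ℝ f u ∧ fderiv ℝ f u w = 0

section zd

variable {f g : R9 → ℝ} {u w : R9}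

theorem SBp_zd_const (k : ℝ) : SBp_ZD (fun _ => k) u w := by
  refine ⟨differentiableAt_const k, ?_⟩
  rw [fderiv_const_apply]; rfl

theorem SBp_zd_mul (hf : SBp_ZD f u w) (hg : SBp_ZD g u w) : SBp_ZD (fun y => f y * g y) u w := by
  refine ⟨hf.1.mul hg.1, ?_⟩
  rw [fderiv_fun_mul hf.1 hg.1]
  simp only [add_apply, smul_apply, smul_eq_mul, hf.2, hg.2, mul_zero, add_zero]

theorem SBp_zd_add (hf : SBp_ZD f u w) (hg : SBp_ZD g u w) : SBp_ZD (fun y => f y + g y) u w := by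
  refine ⟨hf.1.add hg.1, ?_⟩
  rw [fderiv_fun_add hf.1 hg.1, add_apply, hf.2, hg.2, add_zero]

theorem SBp_zd_sub (hf : SBp_ZD f u w) (hg : SBp_ZD g u w) : SBp_ZD (fun y => f y - g y) u w := by
  refine ⟨hf.1.sub hg.1, ?_⟩
  rw [fderiv_fun_sub hf.1 hg.1, sub_apply, hf.2, hg.2, sub_zero]

theorem SBp_zd_comp {k : ℝ → ℝ} (hf : SBp_ZD f u w) (hk : DifferentiableAt ℝ k (f u)) :
    SBp_ZD (fun y => k (f y)) u w := by
  have h1 : HasFDerivAt (fun y => k (f y)) (deriv k (f u) • fderiv ℝ f u) u :=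
    hk.hasDerivAt.comp_hasFDerivAt u hf.1.hasFDerivAt
  refine ⟨h1.differentiableAt, ?_⟩
  rw [h1.fderiv, smul_apply, hf.2, smul_zero]

theorem SBp_zd_div (hf : SBp_ZD f u w) (hg : SBp_ZD g u w) (h0 : g u ≠ 0) :
    SBp_ZD (fun y => f y / g y) u w := by
  have h1 := SBp_zd_mul hf (SBp_zd_comp (k := fun t => t⁻¹) hg (differentiableAt_inv h0))
  simpa only [div_eq_mul_inv] using h1

theorem SBp_zd_divc (hf : SBp_ZD f u w) (k : ℝ) : SBp_ZD (fun y => f y / k) u w := by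
  have h1 := SBp_zd_mul hf (SBp_zd_const k⁻¹)
  simpa only [div_eq_mul_inv] using h1

theorem SBp_zd_sum {κ : Type*} (s : Finset κ) {F : κ → R9 → ℝ} (h : ∀ i ∈ s, SBp_ZD (F i) u w) :
    SBp_ZD (fun y => ∑ i ∈ s, F i y) u w := by
  classical
  induction s using Finset.induction_on with
  | empty => simpa using SBp_zd_const (u := u) (w := w) 0
  | insert a s ha ih =>
    simp only [Finset.sum_insert ha]
    exact SBp_zd_add (h a (Finset.mem_insert_self a s))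
      (ih fun i hi => h i (Finset.mem_insert_of_mem hi))

theorem SBp_zd_prod {κ : Type*} (s : Finset κ) {F : κ → R9 → ℝ} (h : ∀ i ∈ s, SBp_ZD (F i) u w) :
    SBp_ZD (fun y => ∏ i ∈ s, F i y) u w := by
  classical
  induction s using Finset.induction_on with
  | empty => simpa using SBp_zd_const (u := u) (w := w) 1
  | insert a s ha ih =>
    simp only [Finset.prod_insert ha]
    exact SBp_zd_mul (h a (Finset.mem_insert_self a s))
      (ih fun i hi => h i (Finset.mem_insert_of_mem hi))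

theorem SBp_zd_of_line (hf : DifferentiableAt ℝ f u)
    (h : HasDerivAt (fun t : ℝ => f (u + t • w)) 0 0) : SBp_ZD f u w :=
  ⟨hf, (KinkC_line hf w).unique h⟩

end zd

theorem SBp_pluecker (a b x y : R3) (i j : Fin 3) :
    -((a ⨯₃ x) i * (b ⨯₃ y) j + (b ⨯₃ y) i * (a ⨯₃ x) j) +
      ((a ⨯₃ y) i * (b ⨯₃ x) j + (b ⨯₃ x) i * (a ⨯₃ y) j) +
      ((x ⨯₃ y) i * (a ⨯₃ b) j + (a ⨯₃ b) i * (x ⨯₃ y) j) = 0 := by
  fin_cases i <;> fin_cases j <;> simp [cross_apply] <;> ring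

section flag

variable {u b : R9}

theorem SBp_zd_aa (u b : R9) : SBp_ZD (fun y : R9 => y.1 ⬝ᵥ y.1) u (rot b) := by
  have hd : DifferentiableAt ℝ (fun y : R9 => y.1 ⬝ᵥ y.1) u :=
    ((SBp_dot (U := Set.univ) SBp_a.contDiffOn SBp_a.contDiffOn).contDiffAt
      Filter.univ_mem).differentiableAt (by simp)
  refine SBp_zd_of_line hd ?_
  have h1 : (fun t : ℝ => (u + t • rot b).1 ⬝ᵥ (u + t • rot b).1) = fun _ => u.1 ⬝ᵥ u.1 := by
    funext t
    simp [rot]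
  rw [h1]
  exact hasDerivAt_const _ _

theorem SBp_zd_dot9 (hF : Flg u b) : SBp_ZD (fun y : R9 => dot9 y y) u (rot b) := by
  have hd : DifferentiableAt ℝ (fun y : R9 => dot9 y y) u :=
    ((SBp_dot9_smooth Set.univ).contDiffAt Filter.univ_mem).differentiableAt (by simp)
  refine SBp_zd_of_line hd ?_
  have h0 := hF.brh
  unfold brh at h0
  have h1 : (fun t : ℝ => dot9 (u + t • rot b) (u + t • rot b)) =
      fun t => dot9 u u + t ^ 2 * dot9 (rot b) (rot b) := by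
    funext t
    unfold dot9 rot
    simp only [dotProduct, Fin.sum_univ_three] at h0 ⊢
    simp only [Prod.fst_add, Prod.snd_add, Prod.smul_fst, Prod.smul_snd, Pi.add_apply,
      Pi.smul_apply, Pi.neg_apply, Pi.zero_apply, smul_eq_mul]
    linear_combination (-(2 * t)) * h0
  rw [h1]
  have h2 : HasDerivAt (fun t : ℝ => dot9 u u + t ^ 2 * dot9 (rot b) (rot b))
      (((2 : ℕ) : ℝ) * (0 : ℝ) ^ (2 - 1) * dot9 (rot b) (rot b)) 0 :=
    ((hasDerivAt_pow 2 (0 : ℝ)).mul_const _).const_add _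
  simpa using h2

theorem SBp_zd_BBm (hF : Flg u b) (i j : Fin 3) :
    SBp_ZD (fun y : R9 => BBm y i j) u (rot b) := by
  have hd : DifferentiableAt ℝ (fun y : R9 => BBm y i j) u :=
    ((SBp_BBm_smooth Set.univ i j).contDiffAt Filter.univ_mem).differentiableAt (by simp)
  refine SBp_zd_of_line hd ?_
  obtain ⟨a, ha⟩ : ∃ a, a = u.1 := ⟨_, rfl⟩
  obtain ⟨x, hx⟩ : ∃ x, x = u.2.1 := ⟨_, rfl⟩
  obtain ⟨y, hy⟩ : ∃ y, y = u.2.2 := ⟨_, rfl⟩
  obtain ⟨a', ha'⟩ : ∃ a', a' = b.1 := ⟨_, rfl⟩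
  obtain ⟨x', hx'⟩ : ∃ x', x' = b.2.1 := ⟨_, rfl⟩
  obtain ⟨y', hy'⟩ : ∃ y', y' = b.2.2 := ⟨_, rfl⟩
  have h0 := hF.br
  unfold br at h0
  rw [← ha, ← hx, ← hy, ← ha', ← hx', ← hy'] at h0
  have C1 : a ⨯₃ a' + x ⨯₃ x' + y ⨯₃ y' = 0 := congrArg Prod.fst h0
  have C2 : a ⨯₃ x' - a' ⨯₃ x = 0 := congrArg (fun z => z.2.1) h0
  have C3 : a ⨯₃ y' - a' ⨯₃ y = 0 := congrArg (fun z => z.2.2) h0
  obtain ⟨A, hA⟩ : ∃ A, A = a ⨯₃ x := ⟨_, rfl⟩
  obtain ⟨A', hA'⟩ : ∃ A', A' = a ⨯₃ y := ⟨_, rfl⟩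
  obtain ⟨c, hc⟩ : ∃ c, c = x ⨯₃ y := ⟨_, rfl⟩
  obtain ⟨k, hk⟩ : ∃ k, k = (-y') ⨯₃ x' := ⟨_, rfl⟩
  obtain ⟨B, hB⟩ : ∃ B, B = a' ⨯₃ y := ⟨_, rfl⟩
  obtain ⟨B', hB'⟩ : ∃ B', B' = a' ⨯₃ x := ⟨_, rfl⟩
  obtain ⟨d, hd'⟩ : ∃ d, d = a ⨯₃ a' := ⟨_, rfl⟩
  have e1 : ∀ t : ℝ, (u + t • rot b).1 ⨯₃ (u + t • rot b).2.1 = A - t • B := by
    intro t
    have k1 : (u + t • rot b).1 = a := by simp [rot, ha]
    have k2 : (u + t • rot b).2.1 = x - t • y' := by simp [rot, hx, hy', sub_eq_add_neg]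
    rw [k1, k2, map_sub, map_smul, hA, hB, ← sub_eq_zero.1 C3]
  have e2 : ∀ t : ℝ, (u + t • rot b).1 ⨯₃ (u + t • rot b).2.2 = A' + t • B' := by
    intro t
    have k1 : (u + t • rot b).1 = a := by simp [rot, ha]
    have k2 : (u + t • rot b).2.2 = y + t • x' := by simp [rot, hy, hx']
    rw [k1, k2, map_add, map_smul, hA', hB', ← sub_eq_zero.1 C2]
  have e3 : ∀ t : ℝ, (u + t • rot b).2.1 ⨯₃ (u + t • rot b).2.2 = c - t • d + t ^ 2 • k := by
    intro t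
    have k1 : (u + t • rot b).2.1 = x + t • (-y') := by simp [rot, hx, hy']
    have k2 : (u + t • rot b).2.2 = y + t • x' := by simp [rot, hy, hx']
    have k3 : (-y') ⨯₃ y = y ⨯₃ y' := by rw [map_neg, LinearMap.neg_apply, cross_anticomm]
    have k4 : x ⨯₃ x' + y ⨯₃ y' = -d := by
      rw [hd']
      have := C1
      rw [add_assoc] at this
      exact eq_neg_of_add_eq_zero_right this
    rw [k1, k2]
    simp only [map_add, map_smul, LinearMap.add_apply, LinearMap.smul_apply]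
    rw [k3, ← hc, ← hk]
    have k5 : y ⨯₃ y' = -d - x ⨯₃ x' := by rw [← k4]; abel
    rw [k5]
    module
  have e4 : (fun t : ℝ => BBm (u + t • rot b) i j) = fun t : ℝ =>
      (A i - t * B i) * (A j - t * B j) + (A' i + t * B' i) * (A' j + t * B' j)
        - (c i - t * d i + t ^ 2 * k i) * (c j - t * d j + t ^ 2 * k j) := by
    funext t
    unfold BBm
    rw [e1, e2, e3]
    simp only [Pi.sub_apply, Pi.add_apply, Pi.smul_apply, smul_eq_mul]
  rw [e4]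
  have hid : ∀ p q : ℝ, HasDerivAt (fun t : ℝ => p + t * q) q 0 := fun p q => by
    simpa using ((hasDerivAt_id (0 : ℝ)).mul_const q).const_add p
  have hid' : ∀ p q : ℝ, HasDerivAt (fun t : ℝ => p - t * q) (-q) 0 := fun p q => by
    simpa using ((hasDerivAt_id (0 : ℝ)).mul_const q).const_sub p
  have hid2 : ∀ p q s : ℝ, HasDerivAt (fun t : ℝ => p - t * q + t ^ 2 * s) (-q) 0 := fun p q s => by
    simpa using (hid' p q).fun_add ((hasDerivAt_pow 2 (0 : ℝ)).mul_const s)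
  have h5 := (((hid' (A i) (B i)).mul (hid' (A j) (B j))).add
    ((hid (A' i) (B' i)).mul (hid (A' j) (B' j)))).sub
    ((hid2 (c i) (d i) (k i)).mul (hid2 (c j) (d j) (k j)))
  have h6 := SBp_pluecker a a' x y i j
  rw [← hA, ← hA', ← hc, ← hB, ← hB', ← hd'] at h6
  have h7 : -B i * (A j - 0 * B j) + (A i - 0 * B i) * -B j +
      (B' i * (A' j + 0 * B' j) + (A' i + 0 * B' i) * B' j) -
      (-d i * (c j - 0 * d j + 0 ^ 2 * k j) + (c i - 0 * d i + 0 ^ 2 * k i) * -d j) = 0 := by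
    linear_combination h6
  rw [h7] at h5
  exact h5

theorem SBp_zd_seM (hF : Flg u b) (hu : u ≠ 0) (e : R3) : SBp_ZD (seM e) u (rot b) := by
  refine SBp_zd_div ?_ ?_ (pow_ne_zero 2 (SBp_dot9_pos hu).ne')
  · refine SBp_zd_sub (SBp_zd_sum _ fun i _ => SBp_zd_sum _ fun j _ => ?_)
      (SBp_zd_mul (SBp_zd_const _) (SBp_zd_sum _ fun i _ => SBp_zd_BBm hF i i))
    exact SBp_zd_mul (SBp_zd_mul (SBp_zd_const _) (SBp_zd_BBm hF i j)) (SBp_zd_const _)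
  · exact SBp_zd_comp (k := fun t => t ^ 2) (SBp_zd_dot9 hF) (differentiableAt_pow 2)

theorem SBp_zd_n (hF : Flg u b) (hu : u ≠ 0) (e : ι → R3) (r η C : ℝ) :
    SBp_ZD (SBp_n e r η C) u (rot b) := by
  have hst : ∀ t, DifferentiableAt ℝ Real.smoothTransition t := fun t =>
    (Real.smoothTransition.contDiff (n := 1)).differentiable (by simp) t
  have h1 : SBp_ZD (fun y : R9 => (1 : ℝ) - Real.smoothTransition ((y.1 ⬝ᵥ y.1) / dot9 y y / r - 1))
      u (rot b) :=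
    SBp_zd_sub (SBp_zd_const 1) (SBp_zd_comp (SBp_zd_sub (SBp_zd_divc (SBp_zd_div
      (SBp_zd_aa u b) (SBp_zd_dot9 hF) (SBp_dot9_pos hu).ne') r) (SBp_zd_const 1)) (hst _))
  have h2 : SBp_ZD (fun y : R9 => ∏ i, Real.smoothTransition (seM (e i) y / η - 1))
      u (rot b) :=
    SBp_zd_prod _ fun i _ => SBp_zd_comp (SBp_zd_sub (SBp_zd_divc (SBp_zd_seM hF hu (e i)) η)
      (SBp_zd_const 1)) (hst _)
  exact SBp_zd_mul (SBp_zd_mul (SBp_zd_const C) (SBp_zd_mul h1 h2)) (SBp_zd_aa u b)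

theorem SBp_n_WM (e : ι → R3) (r η C : ℝ) : WM (SBp_n e r η C) where
  phi := SBp_n_phi e r η C
  al := by
    intro u b hF
    have hu : u ≠ 0 := by
      intro h
      have h1 := hF.uu
      rw [h] at h1
      simp [dot9] at h1
    exact (SBp_zd_n hF hu e r η C).2

end flag

/-! ### the values at `a = 0` -/

theorem SBp_seM_a0 (e : R3) {u : R9} (ha : u.1 = 0) :
    seM e u = (e ⨯₃ (u.2.1 ⨯₃ u.2.2)) ⬝ᵥ (e ⨯₃ (u.2.1 ⨯₃ u.2.2)) / dot9 u u ^ 2 := by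
  unfold seM BBm
  congr 1
  rw [ha]
  obtain ⟨c, hc⟩ : ∃ c, c = u.2.1 ⨯₃ u.2.2 := ⟨_, rfl⟩
  rw [← hc]
  simp only [map_zero, LinearMap.zero_apply, Pi.zero_apply, dotProduct, Fin.sum_univ_three,
    cross_apply, Matrix.cons_val_zero, Matrix.cons_val_one, Matrix.cons_val]
  ring

/-- `s_e = 0` if `a, x, y` are parallel -/
theorem SBp_seM_parallel (e : R3) {u : R9} (h1 : u.1 ⨯₃ u.2.1 = 0) (h2 : u.1 ⨯₃ u.2.2 = 0)
    (h3 : u.2.1 ⨯₃ u.2.2 = 0) : seM e u = 0 := by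
  unfold seM BBm
  rw [h1, h2, h3]
  simp

theorem SBp_EE_a0 {v : R9 → ℝ} (hv : ContDiffOn ℝ ∞ v {0}ᶜ) (e : ι → R3) (r η C : ℝ) {u : R9}
    (hu : u ≠ 0) (ha : u.1 = 0) : ED v (ED v (SBp_n e r η C)) u =
      2 * C * (SBp_z e r η u * ((eM v u).1 ⬝ᵥ (eM v u).1)) := by
  have hU : IsOpen ({0}ᶜ : Set R9) := isOpen_compl_singleton
  have hX := SBp_eM_smooth hv
  have hz := SBp_z_smooth e r η
  have hf : ContDiffOn ℝ ∞ (fun u => C * SBp_z e r η u) {0}ᶜ := contDiffOn_const.mul hz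
  have hg : ContDiffOn ℝ ∞ (fun u : R9 => u.1 ⬝ᵥ u.1) {0}ᶜ :=
    SBp_dot SBp_a.contDiffOn SBp_a.contDiffOn
  have h1 := KinkC_mul2 hU hX hf hg (y := u) hu
  have h2 : ED v (ED v (SBp_n e r η C)) u =
      itd (eM v) (fun y => C * SBp_z e r η y * (y.1 ⬝ᵥ y.1)) 2 u := rfl
  rw [h2, h1]
  -- the components
  have hc : ∀ k : Fin 3, ContDiffOn ℝ ∞ (fun u : R9 => u.1 k) {0}ᶜ := fun k =>
    SBp_comp SBp_a.contDiffOn k
  have hck : ∀ (k : Fin 3) (y w : R9), fderiv ℝ (fun u : R9 => u.1 k) y w = w.1 k := by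
    intro k y w
    have h3 : HasFDerivAt (fun u : R9 => u.1 k)
        ((ContinuousLinearMap.proj (R := ℝ) (φ := fun _ : Fin 3 => ℝ) k).comp
          (ContinuousLinearMap.fst ℝ R3 (R3 × R3))) y :=
      ((ContinuousLinearMap.proj (R := ℝ) (φ := fun _ : Fin 3 => ℝ) k).comp
          (ContinuousLinearMap.fst ℝ R3 (R3 × R3))).hasFDerivAt
    rw [h3.fderiv]
    rfl
  have hg1 : ∀ y : R9, y ≠ 0 → itd (eM v) (fun y : R9 => y.1 ⬝ᵥ y.1) 1 y =
      2 * ∑ k, y.1 k * (eM v y).1 k := by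
    intro y hy
    have h3 : HasDerivAt (fun t : ℝ => (y + t • eM v y).1 ⬝ᵥ (y + t • eM v y).1)
        (2 * ∑ k, y.1 k * (eM v y).1 k) 0 := by
      have h4 : (fun t : ℝ => (y + t • eM v y).1 ⬝ᵥ (y + t • eM v y).1) = fun t : ℝ =>
          y.1 ⬝ᵥ y.1 + t * (2 * ∑ k, y.1 k * (eM v y).1 k) +
            t ^ 2 * ((eM v y).1 ⬝ᵥ (eM v y).1) := by
        funext t
        simp only [dotProduct, Fin.sum_univ_three, Prod.fst_add, Prod.smul_fst, Pi.add_apply,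
          Pi.smul_apply, smul_eq_mul]
        ring
      rw [h4]
      have h5 := (((hasDerivAt_id (0 : ℝ)).mul_const (2 * ∑ k, y.1 k * (eM v y).1 k)).const_add
        (y.1 ⬝ᵥ y.1)).fun_add ((hasDerivAt_pow 2 (0 : ℝ)).mul_const ((eM v y).1 ⬝ᵥ (eM v y).1))
      simpa using h5
    exact (KinkC_line (KinkC_diff hU hg hy) (eM v y)).unique h3
  have h3 : itd (eM v) (fun y : R9 => y.1 ⬝ᵥ y.1) 1 u = 0 := by
    rw [hg1 u hu, ha]; simp
  have hXk : ∀ k : Fin 3, ContDiffOn ℝ ∞ (fun y : R9 => (eM v y).1 k) {0}ᶜ := fun k =>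
    SBp_comp (SBp_a.comp_contDiffOn hX) k
  have h4 : itd (eM v) (fun y : R9 => y.1 ⬝ᵥ y.1) 2 u = 2 * ((eM v u).1 ⬝ᵥ (eM v u).1) := by
    have h5 : itd (eM v) (fun y : R9 => y.1 ⬝ᵥ y.1) 2 u =
        fderiv ℝ (fun y : R9 => 2 * ∑ k, y.1 k * (eM v y).1 k) u (eM v u) :=
      KinkC_D_congr hU (fun z hz' => hg1 z hz') hu _
    rw [h5]
    have h6 : HasDerivAt (fun t : ℝ => 2 * ∑ k, (u + t • eM v u).1 k * (eM v (u + t • eM v u)).1 k)
        (2 * ((eM v u).1 ⬝ᵥ (eM v u).1)) 0 := by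
      have h7 : ∀ k ∈ (Finset.univ : Finset (Fin 3)), HasDerivAt (fun t : ℝ =>
          (u + t • eM v u).1 k * (eM v (u + t • eM v u)).1 k)
          ((eM v u).1 k * (eM v u).1 k) 0 := by
        intro k _
        have h8 := KinkC_line (KinkC_diff hU (hc k) hu) (eM v u)
        have h9 := KinkC_line (KinkC_diff hU (hXk k) hu) (eM v u)
        have h10 := h8.fun_mul h9
        rw [hck] at h10
        have e1 : u + (0 : ℝ) • eM v u = u := by rw [zero_smul, add_zero]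
        rw [e1, ha] at h10
        simpa using h10
      have h11 := (HasDerivAt.fun_sum h7).const_mul 2
      simpa only [dotProduct] using h11
    have h12 : ContDiffOn ℝ ∞ (fun y : R9 => 2 * ∑ k, y.1 k * (eM v y).1 k) {0}ᶜ :=
      contDiffOn_const.mul (ContDiffOn.sum fun k _ => (hc k).mul (hXk k))
    exact (KinkC_line (KinkC_diff hU h12 hu) (eM v u)).unique h6
  rw [h3, h4, ha]
  simp
  ring

/-- **the kink near `a = 0`** -/
theorem SBp_exists {v : R9 → ℝ} (hv : ContDiffOn ℝ ∞ v {0}ᶜ) {ι : Type*} [Fintype ι] (e : ι → R3)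
    {Z : Type*} [TopologicalSpace Z] {K : Set Z} (hK : IsCompact K) {π : Z → R9}
    (hπ : ContinuousOn π K) (hK1 : ∀ z ∈ K, dot9 (π z) (π z) = 1) {T : Z → ℝ}
    (hT : ContinuousOn T K)
    (h1 : ∀ z ∈ K, (π z).1 = 0 → (eM v (π z)).1 = 0 → 0 < T z)
    (h2 : ∀ z ∈ K, (π z).1 = 0 → (∃ i, e i ⨯₃ ((π z).2.1 ⨯₃ (π z).2.2) = 0) → 0 < T z)
    {r1 : ℝ} (hr1 : 0 < r1) :
    ∃ n : R9 → ℝ, WM n ∧
      (∀ u, u ≠ 0 → r1 * dot9 u u ≤ u.1 ⬝ᵥ u.1 → ∀ᶠ w in 𝓝 u, n w = 0) ∧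
      (∀ u, u ≠ 0 → (∃ i, seM (e i) u ≤ 0) → ∀ᶠ w in 𝓝 u, n w = 0) ∧
      ∃ δ : ℝ, 0 < δ ∧ ∀ z ∈ K, (π z).1 ⬝ᵥ (π z).1 ≤ δ → 0 < T z + ED v (ED v n) (π z) := by
  have hne : ∀ z ∈ K, π z ≠ 0 := by
    intro z hz h
    have h3 := hK1 z hz
    rw [h] at h3
    simp [dot9] at h3
  have hmap : Set.MapsTo π K ({0}ᶜ : Set R9) := fun z hz => hne z hz
  have hcK : ∀ {f : R9 → ℝ}, ContDiffOn ℝ ∞ f {0}ᶜ → ContinuousOn (fun z => f (π z)) K :=
    fun hf => hf.continuousOn.comp hπ hmap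
  have haa : ContDiffOn ℝ ∞ (fun u : R9 => u.1 ⬝ᵥ u.1) {0}ᶜ :=
    SBp_dot SBp_a.contDiffOn SBp_a.contDiffOn
  -- the points with `a = 0`
  obtain ⟨K0, hK0d⟩ : ∃ K0 : Set Z, K0 = K ∩ (fun z => (π z).1 ⬝ᵥ (π z).1) ⁻¹' {0} := ⟨_, rfl⟩
  have hK0c : IsCompact K0 := by
    rw [hK0d]; exact KinkL_compact_sub hK (hcK haa) isClosed_singleton
  have hK0 : ∀ z ∈ K0, z ∈ K ∧ (π z).1 = 0 := by
    intro z hz
    rw [hK0d] at hz
    exact ⟨hz.1, SBp_dotself_eq hz.2⟩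
  have hK0K : K0 ⊆ K := fun z hz => (hK0 z hz).1
  -- the constant `η`
  obtain ⟨η, hη, hηT⟩ : ∃ η : ℝ, 0 < η ∧ ∀ i, ∀ z ∈ K0, seM (e i) (π z) < 2 * η → 0 < T z := by
    have h3 : ∀ i, ∃ η : ℝ, 0 < η ∧ ∀ z ∈ K0, seM (e i) (π z) < 2 * η → 0 < T z := by
      intro i
      have hc1 : IsCompact (K0 ∩ T ⁻¹' Set.Iic 0) :=
        KinkL_compact_sub hK0c (hT.mono hK0K) isClosed_Iic
      by_cases hne' : (K0 ∩ T ⁻¹' Set.Iic 0).Nonempty
      · obtain ⟨z0, hz0, hmin⟩ := hc1.exists_isMinOn hne'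
          ((hcK (SBp_seM_smooth (e i))).mono (fun z hz => hK0K hz.1))
        have h4 : 0 < seM (e i) (π z0) := by
          obtain ⟨h5, h6⟩ := hK0 z0 hz0.1
          rw [SBp_seM_a0 _ h6, hK1 z0 h5, one_pow, div_one]
          refine lt_of_le_of_ne (SBp_dotself _) fun h7 => ?_
          exact absurd (h2 z0 h5 h6 ⟨i, SBp_dotself_eq h7.symm⟩) (not_lt.2 hz0.2)
        refine ⟨seM (e i) (π z0) / 2, by linarith, fun z hz h5 => ?_⟩
        by_contra hcon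
        have h6 : seM (e i) (π z0) ≤ seM (e i) (π z) := hmin ⟨hz, not_lt.1 hcon⟩
        linarith
      · refine ⟨1, one_pos, fun z hz _ => ?_⟩
        by_contra hcon
        exact hne' ⟨z, hz, not_lt.1 hcon⟩
    choose η0 hη0 hη0' using h3
    have h4 : ∀ᶠ η in 𝓝[>] (0 : ℝ), ∀ i, η < η0 i :=
      eventually_all.2 fun i => eventually_nhdsWithin_of_eventually_nhds
        (eventually_lt_nhds (hη0 i))
    obtain ⟨η, h5, h6⟩ := (h4.and self_mem_nhdsWithin).exists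
    exact ⟨η, h6, fun i z hz h7 => hη0' i z hz (by have := h5 i; linarith)⟩
  obtain ⟨r, hr⟩ : ∃ r : ℝ, r = r1 / 4 := ⟨_, rfl⟩
  have hr0 : 0 < r := by rw [hr]; linarith
  -- the constant `C`
  have hqc : ContinuousOn (fun z => Real.sqrt (SBp_z e r η (π z) *
      ((eM v (π z)).1 ⬝ᵥ (eM v (π z)).1))) K0 := by
    have h3 : ContDiffOn ℝ ∞ (fun u => (eM v u).1 ⬝ᵥ (eM v u).1) {0}ᶜ :=
      SBp_dot (SBp_a.comp_contDiffOn (SBp_eM_smooth hv)) (SBp_a.comp_contDiffOn (SBp_eM_smooth hv))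
    exact (((hcK (SBp_z_smooth e r η)).mul (hcK h3)).mono hK0K).sqrt
  obtain ⟨C, hC, c, hc, hCc⟩ := Pool.Agent.helper79.FR.pos_add_sq' hK0c (hT.mono hK0K) hqc (by
    intro z hz h3
    obtain ⟨h4, h5⟩ := hK0 z hz
    have h6 : SBp_z e r η (π z) * ((eM v (π z)).1 ⬝ᵥ (eM v (π z)).1) = 0 := by
      have h7 : 0 ≤ SBp_z e r η (π z) * ((eM v (π z)).1 ⬝ᵥ (eM v (π z)).1) :=
        mul_nonneg (SBp_z_nonneg _ _ _ _) (SBp_dotself _)
      exact (Real.sqrt_eq_zero h7).1 h3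
    rcases mul_eq_zero.1 h6 with h7 | h7
    · by_contra hcon
      have h8 : ∀ i, 2 * η ≤ seM (e i) (π z) := by
        intro i
        by_contra h9
        exact hcon (hηT i z hz (not_le.1 h9))
      rw [SBp_z_one hη h5 h8] at h7
      exact one_ne_zero h7
    · exact h1 z h4 h5 (SBp_dotself_eq h7))
  refine ⟨SBp_n e r η (C / 2), SBp_n_WM _ _ _ _, ?_, ?_, ?_⟩
  · intro u hu h3
    have h4 : ∀ᶠ w in 𝓝 u, w ≠ 0 ∧ 0 < w.1 ⬝ᵥ w.1 - 2 * r * dot9 w w := by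
      have h40 : ∀ᶠ w in 𝓝 u, w ≠ 0 := isOpen_compl_singleton.mem_nhds hu
      refine h40.and ?_
      have h5 : Continuous fun w : R9 => w.1 ⬝ᵥ w.1 - 2 * r * dot9 w w := by
        have h6 := (SBp_dot (U := Set.univ) SBp_a.contDiffOn SBp_a.contDiffOn).sub
          ((contDiffOn_const (c := 2 * r)).mul (SBp_dot9_smooth Set.univ))
        exact (contDiffOn_univ.1 h6).continuous
      refine h5.continuousAt.eventually_const_lt ?_ |>.mono fun w hw => hw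
      have h7 := SBp_dot9_pos hu
      rw [hr]
      nlinarith
    filter_upwards [h4] with w hw
    unfold SBp_n
    rw [SBp_z_zero1 hr0 hw.1 (by linarith [hw.2])]
    ring
  · rintro u hu ⟨i, hi⟩
    have h4 : ∀ᶠ w in 𝓝 u, seM (e i) w < η := by
      have h5 : ContinuousAt (seM (e i)) u :=
        ((SBp_seM_smooth (e i)).contDiffAt (isOpen_compl_singleton.mem_nhds hu)).continuousAt
      exact h5.eventually_lt_const (by linarith)
    filter_upwards [h4] with w hw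
    unfold SBp_n
    rw [SBp_z_zero2 hη hw.le]
    ring
  · -- the constant `δ`
    have hSc : ContinuousOn (fun z => T z + ED v (ED v (SBp_n e r η (C / 2))) (π z)) K := by
      refine hT.add (hcK ?_)
      exact itd_smooth isOpen_compl_singleton (SBp_eM_smooth hv)
        (SBp_n_phi e r η (C / 2)).smooth 2
    obtain ⟨C', hC', c', hc', hCc'⟩ := Pool.Agent.helper79.FR.pos_add_sq' hK hSc (hcK haa) (by
      intro z hz h3
      have h4 : (π z).1 = 0 := SBp_dotself_eq h3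
      have h5 : z ∈ K0 := by rw [hK0d]; exact ⟨hz, h3⟩
      have h6 := hCc z h5
      rw [SBp_EE_a0 hv e r η (C / 2) (hne z hz) h4]
      have h7 : 0 ≤ SBp_z e r η (π z) * ((eM v (π z)).1 ⬝ᵥ (eM v (π z)).1) :=
        mul_nonneg (SBp_z_nonneg _ _ _ _) (SBp_dotself _)
      rw [Real.sq_sqrt h7] at h6
      linarith)
    refine ⟨Real.sqrt (c' / (2 * C')), Real.sqrt_pos.2 (by positivity), fun z hz h3 => ?_⟩
    have h4 := hCc' z hz
    have h5 : ((π z).1 ⬝ᵥ (π z).1) ^ 2 ≤ c' / (2 * C') := by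
      have h6 := pow_le_pow_left₀ (SBp_dotself (π z).1) h3 2
      rwa [Real.sq_sqrt (by positivity)] at h6
    have h6 : C' * ((π z).1 ⬝ᵥ (π z).1) ^ 2 ≤ c' / 2 := by
      have h7 := mul_le_mul_of_nonneg_left h5 hC'.le
      have h8 : C' * (c' / (2 * C')) = c' / 2 := by field_simp
      linarith
    linarith

end Pool.Agent.FL.S2
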