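import Pool.Agent.FL.T3CRot
import Pool.Agent.FL.SBp
import Pool.Agent.FL.S2SecA
import Pool.Agent.FL.S2SecB
import Pool.Agent.FL.GE5

/-!
# MP_f09395_gt, space (2): the end regions of the walls

With `f = aa (|u|² - c aa) / |u|²` (`c = 1` at wall A, `c = 2` at wall B) and `n = - C f` the form
`T3 - E²n` is positive near `a = 0` and near the other end.
-/

set_option linter.unusedSectionVars false

noncomputable section

namespace Pool.Agent.FL.S2

open scoped ContDiff Quaternion Matrix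
open Pool.Agent.Helper93.Fin Pool.Agent.helper79.FP Pool.Agent.helper79.FR
open Pool.Agent.helper79.FR.Sp2 (Mat QQ h0 m gg hh PP BB cc)
open Pool.Agent.helper79.FR
open Filter Topology Pool.Agent.helper90.FL Pool.Agent.FL

attribute [local instance] Matrix.linftyOpNormedRing Matrix.linftyOpNormedAlgebra

/-! ### the function -/

/-- `aa (1 - c aa / |u|²)` -/
def EndF (c : ℝ) (u : R9) : ℝ := aa u * (1 - c * (aa u * (dot9 u u)⁻¹))

theorem End_aa_smooth : ContDiffOn ℝ ∞ aa {0}ᶜ :=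
  SBp_dot SBp_a.contDiffOn SBp_a.contDiffOn

theorem End_Dinv_smooth : ContDiffOn ℝ ∞ (fun u : R9 => (dot9 u u)⁻¹) {0}ᶜ :=
  (SBp_dot9_smooth _).inv fun _ hu => (SBp_dot9_pos hu).ne'

theorem End_B_smooth (c : ℝ) :
    ContDiffOn ℝ ∞ (fun u : R9 => 1 - c * (aa u * (dot9 u u)⁻¹)) {0}ᶜ :=
  contDiffOn_const.sub (contDiffOn_const.mul (End_aa_smooth.mul End_Dinv_smooth))

theorem EndF_WM (c k : ℝ) : WM (fun u => k * EndF c u) where
  phi := {
    smooth := contDiffOn_const.mul (End_aa_smooth.mul (End_B_smooth c))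
    hom := by
      intro r u
      have h1 : aa (r • u) = r ^ 2 * aa u := by
        unfold aa
        simp only [Prod.smul_fst, smul_dotProduct, dotProduct_smul, smul_eq_mul]
        ring
      unfold EndF
      by_cases hr : r = 0
      · rw [h1, hr]; ring
      · rw [h1, SBp_dot9_smul]
        have h2 : r ^ 2 * aa u * (r ^ 2 * dot9 u u)⁻¹ = aa u * (dot9 u u)⁻¹ := by
          rw [mul_inv]
          field_simp
        rw [h2]; ring
    inv := by
      intro t u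
      obtain ⟨h1, h2, -⟩ := SBp_rotH t u
      unfold EndF aa
      simp only [h1, h2] }
  al := by
    intro u b hF
    have hu := T3CRot_flg_ne hF
    have h1 : SBp_ZD aa u (rot b) := SBp_zd_aa u b
    have h2 : SBp_ZD (fun u : R9 => (dot9 u u)⁻¹) u (rot b) :=
      SBp_zd_comp (k := fun t => t⁻¹) (SBp_zd_dot9 hF) (differentiableAt_inv (SBp_dot9_pos hu).ne')
    exact (SBp_zd_mul (SBp_zd_const k) (SBp_zd_mul h1 (SBp_zd_sub (SBp_zd_const 1)
      (SBp_zd_mul (SBp_zd_const c) (SBp_zd_mul h1 h2))))).2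

/-! ### derivatives along the Euler field -/

section euler

variable {v : R9 → ℝ}

theorem End_hU : IsOpen ({0}ᶜ : Set R9) := isOpen_compl_singleton

/-- `E |u|² = 0` -/
theorem End_ED_dot9 (v : R9 → ℝ) {u : R9} (hu : u ≠ 0) :
    itd (eM v) (fun u : R9 => dot9 u u) 1 u = 0 := by
  have h1 : HasDerivAt (fun t : ℝ => dot9 (u + t • eM v u) (u + t • eM v u)) 0 0 := by
    have h4 : (fun t : ℝ => dot9 (u + t • eM v u) (u + t • eM v u)) = fun t : ℝ =>
        dot9 u u + t ^ 2 * dot9 (eM v u) (eM v u) := by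
      funext t
      have h5 : dot9 u (eM v u) = 0 := by
        unfold eM br dot9
        simp only [cross_apply, dotProduct, Fin.sum_univ_three, Pi.add_apply, Pi.sub_apply,
          Matrix.cons_val_zero, Matrix.cons_val_one, Matrix.cons_val]
        ring
      have h6 : dot9 (u + t • eM v u) (u + t • eM v u) = dot9 u u + 2 * t * dot9 u (eM v u) +
          t ^ 2 * dot9 (eM v u) (eM v u) := by
        obtain ⟨w, hw⟩ : ∃ w, w = eM v u := ⟨_, rfl⟩
        rw [← hw]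
        unfold dot9
        simp only [dotProduct, Fin.sum_univ_three, Prod.fst_add, Prod.snd_add, Prod.smul_fst,
          Prod.smul_snd, Pi.add_apply, Pi.smul_apply, smul_eq_mul]
        ring
      rw [h6, h5]; ring
    rw [h4]
    have h5 := ((hasDerivAt_pow 2 (0 : ℝ)).mul_const (dot9 (eM v u) (eM v u))).const_add
      (dot9 u u)
    simpa using h5
  exact (KinkC_line (KinkC_diff End_hU (SBp_dot9_smooth _) hu) (eM v u)).unique h1

theorem End_ED_Dinv (v : R9 → ℝ) {u : R9} (hu : u ≠ 0) :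
    itd (eM v) (fun u : R9 => (dot9 u u)⁻¹) 1 u = 0 := by
  have h1 := KinkC_line (KinkC_diff End_hU (SBp_dot9_smooth _) hu) (eM v u)
  have h0 : fderiv ℝ (fun u : R9 => dot9 u u) u (eM v u) = 0 := End_ED_dot9 v hu
  rw [h0] at h1
  have h3 : dot9 (u + (0 : ℝ) • eM v u) (u + (0 : ℝ) • eM v u) ≠ 0 := by
    rw [zero_smul, add_zero]; exact (SBp_dot9_pos hu).ne'
  have h2 := h1.fun_inv h3
  rw [neg_zero, zero_div] at h2
  exact (KinkC_line (KinkC_diff End_hU End_Dinv_smooth hu) (eM v u)).unique h2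

theorem End_ED2_Dinv (v : R9 → ℝ) {u : R9} (hu : u ≠ 0) :
    itd (eM v) (fun u : R9 => (dot9 u u)⁻¹) 2 u = 0 := by
  have h1 : itd (eM v) (fun u : R9 => (dot9 u u)⁻¹) 2 u = fderiv ℝ (fun _ : R9 => (0 : ℝ)) u
      (eM v u) := KinkC_D_congr End_hU (fun z hz => End_ED_Dinv v hz) hu _
  rw [h1, fderiv_const_apply]
  rfl

/-- `g_x · (a × x) + g_y · (a × y)`, half of `E |a|²` -/
def EndP (v : R9 → ℝ) (u : R9) : ℝ :=
  (grad9 v u).2.1 ⬝ᵥ (u.1 ⨯₃ u.2.1) + (grad9 v u).2.2 ⬝ᵥ (u.1 ⨯₃ u.2.2)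

theorem End_ED_aa {u : R9} (hu : u ≠ 0) : itd (eM v) aa 1 u = 2 * EndP v u := by
  have h3 : HasDerivAt (fun t : ℝ => aa (u + t • eM v u)) (2 * EndP v u) 0 := by
    have h4 : (fun t : ℝ => aa (u + t • eM v u)) = fun t : ℝ =>
        aa u + t * (2 * EndP v u) + t ^ 2 * aa (eM v u) := by
      funext t
      unfold aa EndP eM br
      simp only [cross_apply, dotProduct, Fin.sum_univ_three, Prod.fst_add, Prod.smul_fst,
        Pi.add_apply, Pi.smul_apply, smul_eq_mul, Matrix.cons_val_zero, Matrix.cons_val_one,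
        Matrix.cons_val]
      ring
    rw [h4]
    have h5 := (((hasDerivAt_id (0 : ℝ)).mul_const (2 * EndP v u)).const_add
      (aa u)).fun_add ((hasDerivAt_pow 2 (0 : ℝ)).mul_const (aa (eM v u)))
    simpa using h5
  exact (KinkC_line (KinkC_diff End_hU End_aa_smooth hu) (eM v u)).unique h3

theorem End_gx_smooth (hv : ContDiffOn ℝ ∞ v {0}ᶜ) :
    ContDiffOn ℝ ∞ (fun u => (grad9 v u).2.1) {0}ᶜ ∧
      ContDiffOn ℝ ∞ (fun u => (grad9 v u).2.2) {0}ᶜ := by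
  have hd : ContDiffOn ℝ ∞ (fderiv ℝ v) {0}ᶜ :=
    hv.fderiv_of_isOpen isOpen_compl_singleton (by norm_cast)
  have hc : ∀ w : R9, ContDiffOn ℝ ∞ (fun u => fderiv ℝ v u w) {0}ᶜ := fun w =>
    hd.clm_apply contDiffOn_const
  constructor
  · rw [contDiffOn_pi]; intro i; exact hc _
  · rw [contDiffOn_pi]; intro i; exact hc _

theorem EndP_smooth (hv : ContDiffOn ℝ ∞ v {0}ᶜ) : ContDiffOn ℝ ∞ (EndP v) {0}ᶜ :=
  (SBp_dot (End_gx_smooth hv).1 (SBp_cross SBp_a.contDiffOn SBp_x.contDiffOn)).add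
    (SBp_dot (End_gx_smooth hv).2 (SBp_cross SBp_a.contDiffOn SBp_y.contDiffOn))

/-- the second derivative of `|a|²` where `a × x = a × y = 0` -/
theorem End_ED2_aa (hv : ContDiffOn ℝ ∞ v {0}ᶜ) {u : R9} (hu : u ≠ 0)
    (h1 : u.1 ⨯₃ u.2.1 = 0) (h2 : u.1 ⨯₃ u.2.2 = 0) :
    itd (eM v) aa 2 u = 2 * ((grad9 v u).2.1 ⬝ᵥ ((eM v u).1 ⨯₃ u.2.1 + u.1 ⨯₃ (eM v u).2.1) +
      (grad9 v u).2.2 ⬝ᵥ ((eM v u).1 ⨯₃ u.2.2 + u.1 ⨯₃ (eM v u).2.2)) := by
  have h3 : itd (eM v) aa 2 u = fderiv ℝ (fun y => 2 * EndP v y) u (eM v u) :=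
    KinkC_D_congr End_hU (fun z hz => End_ED_aa hz) hu _
  rw [h3]
  obtain ⟨e, he⟩ : ∃ e, e = eM v u := ⟨_, rfl⟩
  rw [← he]
  -- one product
  have key : ∀ (g w : R9 → R3), ContDiffOn ℝ ∞ g {0}ᶜ → (w = (fun u => u.2.1) ∨ w = fun u => u.2.2) →
      u.1 ⨯₃ w u = 0 → HasDerivAt (fun t : ℝ => g (u + t • e) ⬝ᵥ ((u + t • e).1 ⨯₃ w (u + t • e)))
        (g u ⬝ᵥ (e.1 ⨯₃ w u + u.1 ⨯₃ w e)) 0 := by
    intro g w hg hw h0
    have hwl : ∀ t : ℝ, w (u + t • e) = w u + t • w e := by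
      rcases hw with h | h
      · intro t; rw [h]; rfl
      · intro t; rw [h]; rfl
    have h4 : ∀ t : ℝ, (u + t • e).1 ⨯₃ w (u + t • e) =
        t • (e.1 ⨯₃ w u + u.1 ⨯₃ w e) + t ^ 2 • (e.1 ⨯₃ w e) := by
      intro t
      rw [hwl]
      have h5 : (u + t • e).1 = u.1 + t • e.1 := rfl
      rw [h5]
      simp only [map_add, map_smul, LinearMap.add_apply, LinearMap.smul_apply, h0]
      module
    obtain ⟨d1, hd1⟩ : ∃ d1, d1 = e.1 ⨯₃ w u + u.1 ⨯₃ w e := ⟨_, rfl⟩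
    obtain ⟨d2, hd2⟩ : ∃ d2, d2 = e.1 ⨯₃ w e := ⟨_, rfl⟩
    rw [← hd1] at h4 ⊢
    rw [← hd2] at h4
    have h6 : (fun t : ℝ => g (u + t • e) ⬝ᵥ ((u + t • e).1 ⨯₃ w (u + t • e))) = fun t : ℝ =>
        ∑ i, g (u + t • e) i * (t * d1 i + t ^ 2 * d2 i) := by
      funext t
      rw [h4]
      rfl
    rw [h6]
    unfold dotProduct
    refine HasDerivAt.fun_sum fun i _ => ?_
    have h7 := KinkC_line (KinkC_diff End_hU (SBp_comp hg i) hu) e
    have h8 : HasDerivAt (fun t : ℝ => t * d1 i + t ^ 2 * d2 i) (d1 i) 0 := by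
      have h9 := ((hasDerivAt_id (0 : ℝ)).mul_const (d1 i)).fun_add
        ((hasDerivAt_pow 2 (0 : ℝ)).mul_const (d2 i))
      simpa using h9
    have h10 := h7.fun_mul h8
    have e1 : u + (0 : ℝ) • e = u := by rw [zero_smul, add_zero]
    rw [e1] at h10
    simpa using h10
  have hE : ContDiffOn ℝ ∞ (fun y => 2 * EndP v y) {0}ᶜ := contDiffOn_const.mul (EndP_smooth hv)
  have h5 := KinkC_line (KinkC_diff End_hU hE hu) e
  have k1 := key _ (fun u => u.2.1) (End_gx_smooth hv).1 (Or.inl rfl) h1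
  have k2 := key _ (fun u => u.2.2) (End_gx_smooth hv).2 (Or.inr rfl) h2
  exact h5.unique ((k1.fun_add k2).const_mul 2)

/-- the second derivative of `k f` at unit vectors where `a × x = a × y = 0` -/
theorem End_ED2 (hv : ContDiffOn ℝ ∞ v {0}ᶜ) (c k : ℝ) {u : R9} (hu : dot9 u u = 1)
    (h1 : u.1 ⨯₃ u.2.1 = 0) (h2 : u.1 ⨯₃ u.2.2 = 0) :
    ED v (ED v (fun u => k * EndF c u)) u = k * ((1 - 2 * c * aa u) * itd (eM v) aa 2 u) := by
  have hne : u ≠ 0 := by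
    intro h; rw [h, T3CRot_dot9_zero] at hu; exact zero_ne_one hu
  have hX := SBp_eM_smooth hv
  have hP : EndP v u = 0 := by
    unfold EndP; rw [h1, h2]; simp
  have hA1 : itd (eM v) aa 1 u = 0 := by rw [End_ED_aa hne, hP, mul_zero]
  -- constants
  have hconst : ∀ (q : ℝ) (n : ℕ) (y : R9), itd (eM v) (fun _ : R9 => q) (n + 1) y = 0 := by
    intro q n
    induction n with
    | zero =>
      intro y
      show fderiv ℝ (fun _ : R9 => q) y (eM v y) = 0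
      rw [fderiv_const_apply]; rfl
    | succ n ih =>
      intro y
      show fderiv ℝ (itd (eM v) (fun _ : R9 => q) (n + 1)) y (eM v y) = 0
      have h3 : itd (eM v) (fun _ : R9 => q) (n + 1) = fun _ => 0 := funext ih
      rw [h3, fderiv_const_apply]; rfl
  have hs1 := End_aa_smooth.mul End_Dinv_smooth
  have hs2 : ContDiffOn ℝ ∞ (fun u : R9 => c * (aa u * (dot9 u u)⁻¹)) {0}ᶜ :=
    contDiffOn_const.mul hs1
  -- `aa / |u|²`
  have e1 := KinkC_mul2 End_hU hX End_aa_smooth End_Dinv_smooth (y := u) hne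
  rw [hA1, End_ED2_Dinv v hne, hu] at e1
  have e2 := KinkC_mul2 End_hU hX (f := fun _ : R9 => c) contDiffOn_const hs1 (y := u) hne
  rw [hconst c 0, hconst c 1, e1] at e2
  -- `1 - c aa / |u|²`
  have e3 : itd (eM v) (fun u : R9 => 1 - c * (aa u * (dot9 u u)⁻¹)) 2 u =
      -(itd (eM v) (fun u : R9 => c * (aa u * (dot9 u u)⁻¹)) 2 u) := by
    have h4 : ∀ y : R9, y ≠ 0 → itd (eM v) (fun u : R9 => 1 - c * (aa u * (dot9 u u)⁻¹)) 1 y =
        -(itd (eM v) (fun u : R9 => c * (aa u * (dot9 u u)⁻¹)) 1 y) := by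
      intro y _
      show fderiv ℝ (fun u : R9 => 1 - c * (aa u * (dot9 u u)⁻¹)) y (eM v y) =
        -(fderiv ℝ (fun u : R9 => c * (aa u * (dot9 u u)⁻¹)) y (eM v y))
      rw [fderiv_const_sub]; rfl
    have h5 : itd (eM v) (fun u : R9 => 1 - c * (aa u * (dot9 u u)⁻¹)) 2 u =
        fderiv ℝ (fun y => -(itd (eM v) (fun u : R9 => c * (aa u * (dot9 u u)⁻¹)) 1 y)) u
          (eM v u) := KinkC_D_congr End_hU (fun z hz => h4 z hz) hne _
    rw [h5, fderiv_fun_neg]; rfl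
  have e4 := KinkC_mul2 End_hU hX End_aa_smooth (End_B_smooth c) (y := u) hne
  rw [e3, e2, hA1, hu] at e4
  have hs3 : ContDiffOn ℝ ∞ (EndF c) {0}ᶜ := End_aa_smooth.mul (End_B_smooth c)
  have e5 := KinkC_mul2 End_hU hX (f := fun _ : R9 => k) contDiffOn_const hs3 (y := u) hne
  rw [hconst k 0, hconst k 1] at e5
  have e6 : itd (eM v) (EndF c) 2 u =
      itd (eM v) (fun y => aa y * (1 - c * (aa y * (dot9 y y)⁻¹))) 2 u := rfl
  have e7 : ED v (ED v (fun u => k * EndF c u)) u = itd (eM v) (fun y => k * EndF c y) 2 u := rfl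
  rw [e7, e5, e6, e4]
  ring

end euler

/-! ### compactness -/

/-- if `T + k E²f > 0` can be reached on `{f = 0}`, it can be reached near `{f = 0}` -/
theorem End_gen {v : R9 → ℝ} (hv : PhiM v) (c cw : ℝ)
    (h : ∀ k ∈ KW v cw, EndF c k.1 = 0 → 0 ≤ ED v (ED v (fun u => 1 * EndF c u)) k.1 ∧
      (ED v (ED v (fun u => 1 * EndF c u)) k.1 = 0 → 0 < T3C v k.1 k.2) ∧
      k.1.1 ⨯₃ k.1.2.1 = 0 ∧ k.1.1 ⨯₃ k.1.2.2 = 0) :
    ∃ C : ℝ, 0 < C ∧ ∃ δ : ℝ, 0 < δ ∧ ∀ k ∈ KW v cw, |EndF c k.1| ≤ δ →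
      0 < TE v (fun u => -C * EndF c u) k := by
  have hvs := hv.smooth
  have hK := KW_compact hvs cw
  have hne : ∀ k ∈ KW v cw, k.1 ≠ 0 := fun k hk => T3CRot_flg_ne hk.1
  have hc1 : ∀ {f : R9 → ℝ}, ContDiffOn ℝ ∞ f {0}ᶜ → ContinuousOn (fun k : R9 × R9 => f k.1)
      (KW v cw) := fun hf => hf.continuousOn.comp continuous_fst.continuousOn fun k hk => hne k hk
  have hE2 : ∀ k : ℝ, ContDiffOn ℝ ∞ (ED v (ED v (fun u => k * EndF c u))) {0}ᶜ := fun k =>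
    itd_smooth isOpen_compl_singleton (SBp_eM_smooth hvs) (EndF_WM c k).phi.smooth 2
  have hT := T3C_cont hv hne
  have hFs : ContDiffOn ℝ ∞ (EndF c) {0}ᶜ := End_aa_smooth.mul (End_B_smooth c)
  obtain ⟨K0, hK0d⟩ : ∃ K0 : Set (R9 × R9), K0 = KW v cw ∩ (fun k => EndF c k.1) ⁻¹' {0} :=
    ⟨_, rfl⟩
  have hK0c : IsCompact K0 := by
    rw [hK0d]; exact KinkL_compact_sub hK (hc1 hFs) isClosed_singleton
  have hK0 : ∀ k ∈ K0, k ∈ KW v cw ∧ EndF c k.1 = 0 := by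
    intro k hk
    rw [hK0d] at hk
    exact ⟨hk.1, hk.2⟩
  have hsub : K0 ⊆ KW v cw := fun k hk => (hK0 k hk).1
  have hq : ContinuousOn (fun k : R9 × R9 => Real.sqrt (ED v (ED v (fun u => 1 * EndF c u)) k.1))
      K0 := ((hc1 (hE2 1)).mono hsub).sqrt
  obtain ⟨C, hC, c0, hc0, hCc⟩ := Pool.Agent.helper79.FR.pos_add_sq' hK0c (hT.mono hsub) hq (by
    intro k hk h3
    obtain ⟨h4, h5⟩ := hK0 k hk
    obtain ⟨h6, h7, -⟩ := h k h4 h5
    exact h7 ((Real.sqrt_eq_zero h6).1 h3))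
  have hval : ∀ k ∈ K0, TE v (fun u => -C * EndF c u) k =
      T3C v k.1 k.2 + C * Real.sqrt (ED v (ED v (fun u => 1 * EndF c u)) k.1) ^ 2 := by
    intro k hk
    obtain ⟨h4, h5⟩ := hK0 k hk
    obtain ⟨h6, -, h8, h9⟩ := h k h4 h5
    rw [Real.sq_sqrt h6]
    unfold TE
    rw [End_ED2 hvs c (-C) h4.1.uu h8 h9, End_ED2 hvs c 1 h4.1.uu h8 h9]
    ring
  refine ⟨C, hC, ?_⟩
  have hSc : ContinuousOn (TE v (fun u => -C * EndF c u)) (KW v cw) := hT.sub (hc1 (hE2 (-C)))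
  obtain ⟨C', hC', c', hc', hCc'⟩ := Pool.Agent.helper79.FR.pos_add_sq' hK hSc (hc1 hFs) (by
    intro k hk h3
    have h5 : k ∈ K0 := by rw [hK0d]; exact ⟨hk, h3⟩
    rw [hval k h5]
    exact lt_of_lt_of_le hc0 (hCc k h5))
  refine ⟨Real.sqrt (c' / (2 * C')), Real.sqrt_pos.2 (by positivity), fun k hk h3 => ?_⟩
  have h4 := hCc' k hk
  have h5 : EndF c k.1 ^ 2 ≤ c' / (2 * C') := by
    have h6 := pow_le_pow_left₀ (abs_nonneg (EndF c k.1)) h3 2
    rwa [Real.sq_sqrt (by positivity), sq_abs] at h6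
  have h6 : C' * EndF c k.1 ^ 2 ≤ c' / 2 := by
    have h7 := mul_le_mul_of_nonneg_left h5 hC'.le
    have h8 : C' * (c' / (2 * C')) = c' / 2 := by field_simp
    linarith
  linarith

/-! ### the two ends of each wall -/

theorem End_aa_nonneg (u : R9) : 0 ≤ aa u := SBp_dotself u.1

theorem End_aa_zero {u : R9} (h : aa u = 0) : u.1 = 0 := SBp_dotself_eq h

/-- the second derivative at `a = 0` -/
theorem End_a0 {v : R9 → ℝ} (hv : ContDiffOn ℝ ∞ v {0}ᶜ) {u : R9} (hu : u ≠ 0) (ha : u.1 = 0) :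
    itd (eM v) aa 2 u = 2 * ((eM v u).1 ⬝ᵥ (eM v u).1) := by
  rw [End_ED2_aa hv hu (by rw [ha]; simp) (by rw [ha]; simp)]
  have h1 : (eM v u).1 = u.2.1 ⨯₃ (grad9 v u).2.1 + u.2.2 ⨯₃ (grad9 v u).2.2 := by
    unfold eM br
    simp only [ha, map_zero, LinearMap.zero_apply, zero_add]
  obtain ⟨e, he⟩ : ∃ e, e = (eM v u).1 := ⟨_, rfl⟩
  rw [← he] at h1 ⊢
  rw [ha]
  simp only [map_zero, LinearMap.zero_apply, add_zero]
  have h2 : (grad9 v u).2.1 ⬝ᵥ (e ⨯₃ u.2.1) + (grad9 v u).2.2 ⬝ᵥ (e ⨯₃ u.2.2) =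
      e ⬝ᵥ (u.2.1 ⨯₃ (grad9 v u).2.1 + u.2.2 ⨯₃ (grad9 v u).2.2) := by
    simp only [cross_apply, dotProduct, Fin.sum_univ_three, Pi.add_apply,
      Matrix.cons_val_zero, Matrix.cons_val_one, Matrix.cons_val]
    ring
  rw [h2, ← h1]

/-- wall A, end regions: `T3 - E²n > 0` near `a = 0` and near `|a| = 1` -/
theorem endA {p : Par} (hp : ParOK p) :
    ∃ (n : R9 → ℝ) (δ : ℝ), WM n ∧ 0 < δ ∧ δ < 1 / 8 ∧
      ∀ k ∈ KW (v0 p) 1, (aa k.1 ≤ 3 * δ ∨ 1 - 3 * δ ≤ aa k.1) → 0 < TE (v0 p) n k := by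
  have hv := GE5_v0 p
  have hvs := hv.smooth
  obtain ⟨C, hC, δ, hδ, hpos⟩ := End_gen hv 1 1 (by
    intro k hk h0
    have hu := hk.1.uu
    have hne := T3CRot_flg_ne hk.1
    have h1 : aa k.1 = 0 ∨ aa k.1 = 1 := by
      unfold EndF at h0
      rw [hu, inv_one, mul_one, one_mul] at h0
      rcases mul_eq_zero.1 h0 with h | h
      · exact Or.inl h
      · exact Or.inr (by linarith)
    rcases h1 with h1 | h1
    · have ha := End_aa_zero h1
      have hx : k.1.1 ⨯₃ k.1.2.1 = 0 := by rw [ha]; simp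
      have hy : k.1.1 ⨯₃ k.1.2.2 = 0 := by rw [ha]; simp
      rw [End_ED2 hvs 1 1 hu hx hy, h1, End_a0 hvs hne ha]
      refine ⟨?_, fun h2 => ?_, hx, hy⟩
      · have := SBp_dotself (eM (v0 p) k.1).1
        linarith
      · exact hp.q3 k hk ha (SBp_dotself_eq (by linarith))
    · have h2 : k.1.2 = 0 := by
        have h3 : aa k.1 + k.1.2.1 ⬝ᵥ k.1.2.1 + k.1.2.2 ⬝ᵥ k.1.2.2 = 1 := hu
        have h4 := SBp_dotself k.1.2.1
        have h5 := SBp_dotself k.1.2.2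
        exact Prod.ext (SBp_dotself_eq (by linarith)) (SBp_dotself_eq (by linarith))
      have hx0 : k.1.2.1 = 0 := by rw [h2]; rfl
      have hy0 : k.1.2.2 = 0 := by rw [h2]; rfl
      have hx : k.1.1 ⨯₃ k.1.2.1 = 0 := by rw [hx0]; simp
      have hy : k.1.1 ⨯₃ k.1.2.2 = 0 := by rw [hy0]; simp
      refine ⟨?_, fun _ => ?_, hx, hy⟩
      · rw [End_ED2 hvs 1 1 hu hx hy, h1, End_ED2_aa hvs hne hx hy]
        have e1 : (eM (v0 p) k.1).2.1 = k.1.1 ⨯₃ (grad9 (v0 p) k.1).2.1 := by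
          unfold eM br
          simp only [hx0, map_zero, sub_zero]
        have e2 : (eM (v0 p) k.1).2.2 = k.1.1 ⨯₃ (grad9 (v0 p) k.1).2.2 := by
          unfold eM br
          simp only [hy0, map_zero, sub_zero]
        rw [e1, e2, hx0, hy0]
        simp only [map_zero, zero_add]
        have e3 : ∀ g : R3, g ⬝ᵥ (k.1.1 ⨯₃ (k.1.1 ⨯₃ g)) =
            -((k.1.1 ⨯₃ g) ⬝ᵥ (k.1.1 ⨯₃ g)) := by
          intro g
          simp only [cross_apply, dotProduct, Fin.sum_univ_three,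
            Matrix.cons_val_zero, Matrix.cons_val_one, Matrix.cons_val]
          ring
        rw [e3, e3]
        have h5 := SBp_dotself (k.1.1 ⨯₃ (grad9 (v0 p) k.1).2.1)
        have h6 := SBp_dotself (k.1.1 ⨯₃ (grad9 (v0 p) k.1).2.2)
        linarith
      · obtain ⟨t, n, hn, e1, e2⟩ := wallA_q0 hk.1 hk.2.1 h2
        have e3 : rotH t (n, 0, 0) = ((n, 0, 0) : R9) := by
          unfold rotH; simp
        have hne' : ((n, 0, 0) : R9) ≠ 0 := by rw [← e1]; exact hne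
        rw [e1, e2]
        conv_rhs => rw [← e3]
        rw [T3C_rotH hv t hne']
        have h3 := hp.q1 0 0 n hn
        simpa using h3)
  refine ⟨fun u => -C * EndF 1 u, min (δ / 3) (1 / 16), EndF_WM 1 (-C), by positivity, ?_, ?_⟩
  · exact lt_of_le_of_lt (min_le_right _ _) (by norm_num)
  · intro k hk h
    refine hpos k hk ?_
    have hd1 : 3 * min (δ / 3) (1 / 16) ≤ δ := by
      have := min_le_left (δ / 3) (1 / 16 : ℝ); linarith
    have h0 := End_aa_nonneg k.1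
    have h1 : aa k.1 ≤ 1 := by
      have h3 : aa k.1 + k.1.2.1 ⬝ᵥ k.1.2.1 + k.1.2.2 ⬝ᵥ k.1.2.2 = 1 := hk.1.uu
      have h4 := SBp_dotself k.1.2.1
      have h5 := SBp_dotself k.1.2.2
      linarith
    have h2 : EndF 1 k.1 = aa k.1 * (1 - aa k.1) := by
      unfold EndF; rw [hk.1.uu]; ring
    rw [h2, abs_of_nonneg (mul_nonneg h0 (by linarith))]
    rcases h with h | h
    · nlinarith
    · nlinarith

/-- wall B, end regions: near `a = 0` and near `x × y = 0` (`|a|² = 1/2`) -/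
theorem endB {p : Par} (hp : ParOK p) :
    ∃ (n : R9 → ℝ) (δ : ℝ), WM n ∧ 0 < δ ∧ δ < 1 / 16 ∧
      ∀ k ∈ KW (v0 p) (-1), (aa k.1 ≤ 3 * δ ∨ 1 / 2 - 3 * δ ≤ aa k.1) →
        0 < TE (v0 p) n k := by
  have hv := GE5_v0 p
  have hvs := hv.smooth
  -- `2 |a|² + 4 |x × y|² = 1` at the wall
  have hbase : ∀ k ∈ KW (v0 p) (-1), 2 * aa k.1 + 4 * ((k.1.2.1 ⨯₃ k.1.2.2) ⬝ᵥ
      (k.1.2.1 ⨯₃ k.1.2.2)) = 1 := by
    intro k hk
    have h1 := (wallB_base hk.1 hk.2.1).2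
    simp only [smul_dotProduct, dotProduct_smul, smul_eq_mul] at h1
    have h2 : Real.sqrt 2 * (Real.sqrt 2 * (k.1.1 ⬝ᵥ k.1.1)) = 2 * aa k.1 := by
      rw [← mul_assoc, Real.mul_self_sqrt (by norm_num)]; rfl
    linarith
  obtain ⟨C, hC, δ, hδ, hpos⟩ := End_gen hv 2 (-1) (by
    intro k hk h0
    have hu := hk.1.uu
    have hne := T3CRot_flg_ne hk.1
    have h1 : aa k.1 = 0 ∨ aa k.1 = 1 / 2 := by
      unfold EndF at h0
      rw [hu, inv_one, mul_one] at h0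
      rcases mul_eq_zero.1 h0 with h | h
      · exact Or.inl h
      · exact Or.inr (by linarith)
    rcases h1 with h1 | h1
    · have ha := End_aa_zero h1
      have hx : k.1.1 ⨯₃ k.1.2.1 = 0 := by rw [ha]; simp
      have hy : k.1.1 ⨯₃ k.1.2.2 = 0 := by rw [ha]; simp
      rw [End_ED2 hvs 2 1 hu hx hy, h1, End_a0 hvs hne ha]
      refine ⟨?_, fun h2 => ?_, hx, hy⟩
      · have := SBp_dotself (eM (v0 p) k.1).1
        linarith
      · exact hp.q5 k hk ha (SBp_dotself_eq (by linarith))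
    · have hq : k.1.2.1 ⨯₃ k.1.2.2 = 0 := by
        have h2 := hbase k hk
        exact SBp_dotself_eq (by linarith)
      obtain ⟨t, n, -, hn, -, e1, -⟩ := wallB_q0 hk.1 hk.2.1 hq
      obtain ⟨a, ha⟩ : ∃ a, a = k.1.1 := ⟨_, rfl⟩
      have hxa : k.1.2.1 = Real.cos t • a := by
        rw [ha, e1]
        show Real.cos t • ((Real.sqrt 2)⁻¹ • n) - Real.sin t • ((Real.sqrt 2)⁻¹ • (0 : R3)) =
          Real.cos t • ((Real.sqrt 2)⁻¹ • n)
        rw [smul_zero, smul_zero, sub_zero]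
      have hya : k.1.2.2 = Real.sin t • a := by
        rw [ha, e1]
        show Real.sin t • ((Real.sqrt 2)⁻¹ • n) + Real.cos t • ((Real.sqrt 2)⁻¹ • (0 : R3)) =
          Real.sin t • ((Real.sqrt 2)⁻¹ • n)
        rw [smul_zero, smul_zero, add_zero]
      have hx : k.1.1 ⨯₃ k.1.2.1 = 0 := by rw [hxa, ← ha, map_smul, cross_self, smul_zero]
      have hy : k.1.1 ⨯₃ k.1.2.2 = 0 := by rw [hya, ← ha, map_smul, cross_self, smul_zero]
      have hcs := Real.cos_sq_add_sin_sq t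
      obtain ⟨gx, hgx⟩ : ∃ g, g = (grad9 (v0 p) k.1).2.1 := ⟨_, rfl⟩
      obtain ⟨gy, hgy⟩ : ∃ g, g = (grad9 (v0 p) k.1).2.2 := ⟨_, rfl⟩
      obtain ⟨ga, hga⟩ : ∃ g, g = (grad9 (v0 p) k.1).1 := ⟨_, rfl⟩
      obtain ⟨w, hw⟩ : ∃ w, w = a ⨯₃ (Real.sin t • gx - Real.cos t • gy) := ⟨_, rfl⟩
      have ea : (eM (v0 p) k.1).1 = a ⨯₃ ga + (Real.cos t • a) ⨯₃ gx + (Real.sin t • a) ⨯₃ gy := by
        unfold eM br
        simp only [← ha, hxa, hya, ← hgx, ← hgy, ← hga]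
      have ex : (eM (v0 p) k.1).2.1 = a ⨯₃ gx - ga ⨯₃ (Real.cos t • a) := by
        unfold eM br
        simp only [← ha, hxa, ← hgx, ← hga]
      have ey : (eM (v0 p) k.1).2.2 = a ⨯₃ gy - ga ⨯₃ (Real.sin t • a) := by
        unfold eM br
        simp only [← ha, hya, ← hgy, ← hga]
      have hA2 : itd (eM (v0 p)) aa 2 k.1 = -2 * (w ⬝ᵥ w) := by
        rw [End_ED2_aa hvs hne hx hy, ea, ex, ey, ← hgx, ← hgy, ← ha, hxa, hya, hw]
        obtain ⟨ct, hct⟩ : ∃ ct, ct = Real.cos t := ⟨_, rfl⟩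
        obtain ⟨st, hst⟩ : ∃ st, st = Real.sin t := ⟨_, rfl⟩
        rw [← hct, ← hst] at hcs ⊢
        simp only [cross_apply, dotProduct, Fin.sum_univ_three, Pi.add_apply, Pi.sub_apply,
          Pi.smul_apply, smul_eq_mul, Matrix.cons_val_zero, Matrix.cons_val_one, Matrix.cons_val]
        linear_combination (2 * ((a 1 * gx 2 - a 2 * gx 1) ^ 2 + (a 2 * gx 0 - a 0 * gx 2) ^ 2 +
          (a 0 * gx 1 - a 1 * gx 0) ^ 2 + (a 1 * gy 2 - a 2 * gy 1) ^ 2 +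
          (a 2 * gy 0 - a 0 * gy 2) ^ 2 + (a 0 * gy 1 - a 1 * gy 0) ^ 2)) * hcs
      refine ⟨?_, fun h2 => ?_, hx, hy⟩
      · rw [End_ED2 hvs 2 1 hu hx hy, h1, hA2]
        have := SBp_dotself w
        linarith
      · rw [End_ED2 hvs 2 1 hu hx hy, h1, hA2] at h2
        have hw0 : w = 0 := SBp_dotself_eq (by linarith)
        refine hp.q4 k hk hq ?_
        have h3 : (eM (v0 p) k.1).2.1 ⨯₃ k.1.2.2 + k.1.2.1 ⨯₃ (eM (v0 p) k.1).2.2 = -(a ⨯₃ w) := by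
          rw [ex, ey, hxa, hya, hw]
          ext i
          fin_cases i <;>
            simp only [cross_apply, Pi.add_apply, Pi.sub_apply, Pi.smul_apply, Pi.neg_apply,
              smul_eq_mul, Matrix.cons_val_zero, Matrix.cons_val_one, Matrix.cons_val,
              Fin.zero_eta, Fin.mk_one, Fin.reduceFinMk, Fin.isValue] <;> ring
        rw [h3, hw0]; simp)
  refine ⟨fun u => -C * EndF 2 u, min (δ / 6) (1 / 32), EndF_WM 2 (-C), by positivity, ?_, ?_⟩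
  · exact lt_of_le_of_lt (min_le_right _ _) (by norm_num)
  · intro k hk h
    refine hpos k hk ?_
    have hd1 : 6 * min (δ / 6) (1 / 32) ≤ δ := by
      have := min_le_left (δ / 6) (1 / 32 : ℝ); linarith
    have hd2 : 0 < min (δ / 6) (1 / 32) := by positivity
    have h0 := End_aa_nonneg k.1
    have h1 : aa k.1 ≤ 1 / 2 := by
      have h2 := hbase k hk
      have h3 := SBp_dotself (k.1.2.1 ⨯₃ k.1.2.2)
      linarith
    have h2 : EndF 2 k.1 = aa k.1 * (1 - 2 * aa k.1) := by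
      unfold EndF; rw [hk.1.uu]; ring
    rw [h2, abs_of_nonneg (mul_nonneg h0 (by linarith))]
    rcases h with h | h
    · nlinarith
    · nlinarith

end Pool.Agent.FL.S2
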