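import Pool.Agent.FL.FTB0

/-!
# MP_f09395_gt, space (2): extension of functions of wall B to W-invariant functions (GE9B)

`extB ε ν u = χ(c) ν(√2 a / |u|, √(1 - 2 |a|² / |u|²) w / |w|)`, where `w` is the component of
`x × y` orthogonal to `a`, is smooth, homogeneous of degree zero, invariant, has `α = 0` on all
flags, is equal to `ν(p, q)` at `u_B(p, q)` for `(p, q)` in the base, does not change the rotation
rate at wall B, and vanishes outside `δ |u|² ≤ 2 |a|² ≤ (1 - δ) |u|²`, `c < -1 + 8 ε`.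
-/

set_option linter.unusedSectionVars false
set_option linter.unusedVariables false

noncomputable section

namespace Pool.Agent.FL.S2.EB

open scoped ContDiff Matrix
open Matrix
open Filter Topology

/-- first base coordinate -/
def ptB (u : R9) : R3 := (Real.sqrt 2 / Real.sqrt (dot9 u u)) • u.1

/-- the component of `x × y` orthogonal to `a` -/
def wB (u : R9) : R3 :=
  u.2.1 ⨯₃ u.2.2 - (((u.2.1 ⨯₃ u.2.2) ⬝ᵥ u.1) / (u.1 ⬝ᵥ u.1)) • u.1

/-- second base coordinate -/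
def qtB (u : R9) : R3 :=
  (Real.sqrt (1 - 2 * (u.1 ⬝ᵥ u.1) / dot9 u u) / n3 (wB u)) • wB u

/-- distance from wall B -/
def kapB (u : R9) : ℝ := 1 / 4 - psi4 u / dot9 u u ^ 2

/-- the extension of `ν` from wall B -/
def extB (ε : ℝ) (ν : R6 → ℝ) (u : R9) : ℝ :=
  Real.smoothTransition (2 - 2 * (kapB u / ε)) * ν (ptB u, qtB u)

/-- hypotheses on the function `ν` on the base of wall B (`σ = 1` even, `σ = -1` odd) -/
structure ExtHypB (δ ε σ : ℝ) (ν : R6 → ℝ) : Prop where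
  δ0 : 0 < δ
  ε0 : 0 < ε
  small : 4 * ε < δ ^ 2
  smooth : ContDiffOn ℝ ∞ ν U6
  van : ∀ z : R6, (z.1 ⬝ᵥ z.1 < δ ∨ 1 - δ < z.1 ⬝ᵥ z.1) → ν z = 0
  evp : ∀ z ∈ U6, ν (-z.1, z.2) = σ * ν z

variable {δ ε σ : ℝ} {ν : R6 → ℝ}

/-! ### elementary facts -/

theorem dot_nn (p : R3) : 0 ≤ p ⬝ᵥ p := by
  simp only [dotProduct, Fin.sum_univ_three]
  nlinarith [mul_self_nonneg (p 0), mul_self_nonneg (p 1), mul_self_nonneg (p 2)]

theorem dot9_pos {u : R9} (hu : u ≠ 0) : 0 < dot9 u u := by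
  unfold dot9
  have h1 := dot_nn u.1
  have h2 := dot_nn u.2.1
  have h3 := dot_nn u.2.2
  by_cases h : u.1 = 0
  · by_cases h' : u.2.1 = 0
    · have h4 : u.2.2 ≠ 0 := fun h'' => hu (Prod.ext h (Prod.ext h' h''))
      have := dot_pos h4
      linarith
    · have := dot_pos h'
      linarith
  · have := dot_pos h
    linarith

/-- Cauchy-Schwarz -/
theorem cs3 (p q : R3) : (p ⬝ᵥ q) ^ 2 ≤ (p ⬝ᵥ p) * (q ⬝ᵥ q) := by
  have h : (p ⬝ᵥ p) * (q ⬝ᵥ q) - (p ⬝ᵥ q) ^ 2 = (p ⨯₃ q) ⬝ᵥ (p ⨯₃ q) := by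
    rw [cross_dot_cross]
    rw [dotProduct_comm q p]
    ring
  have := dot_nn (p ⨯₃ q)
  linarith

/-- near wall B, away from `|a|² = |u|² / 2`, `x × y` does not vanish -/
theorem cross_ne {u : R9} (hu : u ≠ 0) (hδ : 0 < δ) (h1 : 2 * (u.1 ⬝ᵥ u.1) ≤ (1 - δ) * dot9 u u)
    (h2 : 4 * kapB u < δ ^ 2) : u.2.1 ⨯₃ u.2.2 ≠ 0 := by
  intro h0
  have hD := dot9_pos hu
  have k1 : psi4 u = (u.1 ⬝ᵥ u.2.1) ^ 2 + (u.1 ⬝ᵥ u.2.2) ^ 2 := by
    unfold psi4; rw [h0]; simp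
  have k2 := cs3 u.1 u.2.1
  have k3 := cs3 u.1 u.2.2
  have k4 : dot9 u u = u.1 ⬝ᵥ u.1 + u.2.1 ⬝ᵥ u.2.1 + u.2.2 ⬝ᵥ u.2.2 := rfl
  obtain ⟨A, hA⟩ : ∃ A, A = u.1 ⬝ᵥ u.1 := ⟨_, rfl⟩
  obtain ⟨D, hD'⟩ : ∃ D, D = dot9 u u := ⟨_, rfl⟩
  have k5 : psi4 u ≤ A * (D - A) := by
    rw [k1, hA, hD', k4]
    nlinarith
  have k6 : kapB u = 1 / 4 - psi4 u / D ^ 2 := by rw [hD']; rfl
  rw [← hD'] at hD
  have k7 : psi4 u / D ^ 2 ≤ A * (D - A) / D ^ 2 := by gcongr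
  have k8 : 4 * (1 / 4 - A * (D - A) / D ^ 2) = ((D - 2 * A) / D) ^ 2 := by
    field_simp
    ring
  have k9 : δ ≤ (D - 2 * A) / D := by
    rw [le_div_iff₀ hD, hA, hD']
    linarith
  have k10 : δ ^ 2 ≤ ((D - 2 * A) / D) ^ 2 := pow_le_pow_left₀ hδ.le k9 2
  rw [k6] at h2
  linarith

/-- near wall B, for `δ |u|² ≤ 2 |a|² ≤ (1 - δ) |u|²`, the vectors `x × y` and `a` are
independent -/
theorem wB_ne {u : R9} (hu : u ≠ 0) (hδ : 0 < δ) (h0 : δ * dot9 u u ≤ 2 * (u.1 ⬝ᵥ u.1))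
    (h1 : 2 * (u.1 ⬝ᵥ u.1) ≤ (1 - δ) * dot9 u u) (h2 : 4 * kapB u < δ ^ 2) : wB u ≠ 0 := by
  intro hw
  have hc := cross_ne hu hδ h1 h2
  obtain ⟨w, hw'⟩ : ∃ w, w = u.2.1 ⨯₃ u.2.2 := ⟨_, rfl⟩
  obtain ⟨r, hr⟩ : ∃ r, r = (w ⬝ᵥ u.1) / (u.1 ⬝ᵥ u.1) := ⟨_, rfl⟩
  have e1 : w = r • u.1 := by
    have : w - r • u.1 = 0 := by rw [hr, hw']; exact hw
    exact sub_eq_zero.1 this
  have hr0 : r ≠ 0 := by
    intro h; rw [h, zero_smul] at e1; exact hc (hw' ▸ e1)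
  have e2 : u.1 ⬝ᵥ u.2.1 = 0 := by
    have k : w ⬝ᵥ u.2.1 = 0 := by rw [hw', dotProduct_comm]; exact dot_self_cross _ _
    rw [e1, smul_dotProduct, smul_eq_mul] at k
    exact (mul_eq_zero.1 k).resolve_left hr0
  have e3 : u.1 ⬝ᵥ u.2.2 = 0 := by
    have k : w ⬝ᵥ u.2.2 = 0 := by rw [hw', dotProduct_comm]; exact dot_cross_self _ _
    rw [e1, smul_dotProduct, smul_eq_mul] at k
    exact (mul_eq_zero.1 k).resolve_left hr0
  have hD := dot9_pos hu
  have k1 : psi4 u = w ⬝ᵥ w := by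
    unfold psi4; rw [e2, e3, hw']; ring
  have k2 : w ⬝ᵥ w = (u.2.1 ⬝ᵥ u.2.1) * (u.2.2 ⬝ᵥ u.2.2) - (u.2.1 ⬝ᵥ u.2.2) ^ 2 := by
    rw [hw', cross_dot_cross, dotProduct_comm u.2.2 u.2.1]; ring
  have k4 : dot9 u u = u.1 ⬝ᵥ u.1 + u.2.1 ⬝ᵥ u.2.1 + u.2.2 ⬝ᵥ u.2.2 := rfl
  obtain ⟨A, hA⟩ : ∃ A, A = u.1 ⬝ᵥ u.1 := ⟨_, rfl⟩
  obtain ⟨D, hD'⟩ : ∃ D, D = dot9 u u := ⟨_, rfl⟩
  have k5 : psi4 u ≤ (D - A) ^ 2 / 4 := by
    rw [k1, k2, hA, hD', k4]
    nlinarith [sq_nonneg (u.2.1 ⬝ᵥ u.2.1 - u.2.2 ⬝ᵥ u.2.2), sq_nonneg (u.2.1 ⬝ᵥ u.2.2)]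
  rw [← hD', ← hA] at h0 h1
  have k6 : kapB u = 1 / 4 - psi4 u / D ^ 2 := by rw [hD']; rfl
  rw [← hD'] at hD
  have k7 : psi4 u / D ^ 2 ≤ (D - A) ^ 2 / 4 / D ^ 2 := by gcongr
  have k8 : 4 * (1 / 4 - (D - A) ^ 2 / 4 / D ^ 2) = (A / D) * (2 - A / D) := by
    field_simp
    ring
  have k9 : δ / 2 ≤ A / D := by
    rw [le_div_iff₀ hD]
    linarith
  have k10 : A / D ≤ 1 / 2 := by
    rw [div_le_iff₀ hD]
    have := mul_pos hδ hD
    linarith
  have k11 : δ ≤ 1 := by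
    have : δ / 2 ≤ 1 / 2 := k9.trans k10
    linarith
  rw [k6] at h2
  have k12 : δ / 2 * (2 - 1 / 2) ≤ (A / D) * (2 - A / D) := by
    refine mul_le_mul k9 (by linarith) (by norm_num) (by linarith)
  have k13 : 2 * A ≤ (1 - δ) * D := h1
  have k14 : δ ≤ 1 / 2 := by
    have h5 : δ * D ≤ (1 - δ) * D := h0.trans h1
    have h6 : δ ≤ 1 - δ := le_of_mul_le_mul_right h5 hD
    linarith
  nlinarith

/-! ### smoothness -/

theorem cd_u1 {s : Set R9} : ContDiffOn ℝ ∞ (fun u : R9 => u.1) s := contDiff_fst.contDiffOn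

theorem cd_u2 {s : Set R9} : ContDiffOn ℝ ∞ (fun u : R9 => u.2.1) s :=
  (contDiff_fst.comp contDiff_snd).contDiffOn

theorem cd_u3 {s : Set R9} : ContDiffOn ℝ ∞ (fun u : R9 => u.2.2) s :=
  (contDiff_snd.comp contDiff_snd).contDiffOn

theorem cd_dot9 {s : Set R9} : ContDiffOn ℝ ∞ (fun u : R9 => dot9 u u) s := by
  unfold dot9
  exact ((cd_dot cd_u1 cd_u1).add (cd_dot cd_u2 cd_u2)).add (cd_dot cd_u3 cd_u3)

theorem cd_psi4 {s : Set R9} : ContDiffOn ℝ ∞ psi4 s := by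
  have h := ((cd_dot (s := s) (cd_cross cd_u2 cd_u3) (cd_cross cd_u2 cd_u3)).add
    ((cd_dot cd_u1 cd_u2).pow 2)).add ((cd_dot cd_u1 cd_u3).pow 2)
  exact h

theorem kapB_smooth : ContDiffOn ℝ ∞ kapB {0}ᶜ :=
  contDiffOn_const.sub (cd_psi4.div (cd_dot9.pow 2) fun _ hu => pow_ne_zero 2 (dot9_pos hu).ne')

theorem ptB_smooth : ContDiffOn ℝ ∞ ptB {0}ᶜ := by
  refine ContDiffOn.smul (contDiffOn_const.div (cd_dot9.sqrt fun _ hu => (dot9_pos hu).ne') ?_) cd_u1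
  intro u hu
  exact (Real.sqrt_pos.2 (dot9_pos hu)).ne'

/-- the good region -/
def OmB : Set R9 := {u | u ≠ 0 ∧ u.1 ≠ 0 ∧ wB u ≠ 0 ∧ 2 * (u.1 ⬝ᵥ u.1) < dot9 u u}

theorem wB_smooth {s : Set R9} (hs : ∀ u ∈ s, u.1 ≠ 0) : ContDiffOn ℝ ∞ wB s :=
  (cd_cross cd_u2 cd_u3).sub (((cd_dot (cd_cross cd_u2 cd_u3) cd_u1).div (cd_dot cd_u1 cd_u1)
    fun u hu => (dot_pos (hs u hu)).ne').smul cd_u1)

theorem OmB_sub : OmB ⊆ ({0}ᶜ : Set R9) := fun _ hu => hu.1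

theorem isOpen_OmB : IsOpen OmB := by
  have h1 : IsOpen {u : R9 | u ≠ 0} := isOpen_compl_singleton
  have h2 : IsOpen {u : R9 | u.1 ≠ 0} := isOpen_compl_singleton.preimage continuous_fst
  have h3 : IsOpen ({u : R9 | u.1 ≠ 0} ∩ wB ⁻¹' {0}ᶜ) :=
    (wB_smooth (s := {u : R9 | u.1 ≠ 0}) fun _ hu => hu).continuousOn.isOpen_inter_preimage h2
      isOpen_compl_singleton
  have h4 : IsOpen {u : R9 | 2 * (u.1 ⬝ᵥ u.1) < dot9 u u} := by
    refine isOpen_lt ?_ ?_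
    · have := (cd_dot (s := Set.univ) cd_u1 cd_u1).continuousOn
      rw [continuousOn_univ] at this
      exact this.const_mul 2
    · have := (cd_dot9 (s := Set.univ)).continuousOn
      rwa [continuousOn_univ] at this
  have e : OmB = {u : R9 | u ≠ 0} ∩ (({u : R9 | u.1 ≠ 0} ∩ wB ⁻¹' {0}ᶜ) ∩
      {u : R9 | 2 * (u.1 ⬝ᵥ u.1) < dot9 u u}) := by
    ext u
    constructor
    · rintro ⟨a1, a2, a3, a4⟩; exact ⟨a1, ⟨a2, a3⟩, a4⟩
    · rintro ⟨a1, ⟨a2, a3⟩, a4⟩; exact ⟨a1, a2, a3, a4⟩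
  rw [e]
  exact h1.inter (h3.inter h4)

theorem OmB_arg {u : R9} (hu : u ∈ OmB) : 0 < 1 - 2 * (u.1 ⬝ᵥ u.1) / dot9 u u := by
  have hD := dot9_pos hu.1
  have := hu.2.2.2
  rw [sub_pos, div_lt_one hD]
  exact this

theorem qtB_smooth : ContDiffOn ℝ ∞ qtB OmB := by
  refine ContDiffOn.smul (ContDiffOn.div (ContDiffOn.sqrt (contDiffOn_const.sub
    ((contDiffOn_const.mul (cd_dot cd_u1 cd_u1)).div cd_dot9 ?_)) ?_)
    (cd_n3 (wB_smooth fun _ hu => hu.2.1) fun _ hu => hu.2.2.1) ?_)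
    (wB_smooth fun _ hu => hu.2.1)
  · intro u hu
    exact (dot9_pos hu.1).ne'
  · intro u hu
    exact (OmB_arg hu).ne'
  · intro u hu
    exact (n3_pos hu.2.2.1).ne'

theorem ptB_ne {u : R9} (hu : u ∈ OmB) : ptB u ≠ 0 := by
  unfold ptB
  refine smul_ne_zero (div_ne_zero (by positivity) (Real.sqrt_pos.2 (dot9_pos hu.1)).ne') hu.2.1

theorem qtB_ne {u : R9} (hu : u ∈ OmB) : qtB u ≠ 0 := by
  unfold qtB
  exact smul_ne_zero (div_ne_zero (Real.sqrt_pos.2 (OmB_arg hu)).ne' (n3_pos hu.2.2.1).ne')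
    hu.2.2.1

theorem ptB_dot {u : R9} (hu : u ≠ 0) : ptB u ⬝ᵥ ptB u = 2 * (u.1 ⬝ᵥ u.1) / dot9 u u := by
  have hD := dot9_pos hu
  unfold ptB
  rw [smul_dotProduct, dotProduct_smul, smul_eq_mul, smul_eq_mul, ← mul_assoc, ← sq, div_pow,
    Real.sq_sqrt (by norm_num), Real.sq_sqrt hD.le]
  ring

theorem extB_smoothOm (h : ExtHypB δ ε σ ν) : ContDiffOn ℝ ∞ (extB ε ν) OmB := by
  refine ContDiffOn.mul (Real.smoothTransition.contDiff.comp_contDiffOn (contDiffOn_const.sub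
    (contDiffOn_const.mul ((kapB_smooth.mono OmB_sub).div_const ε)))) ?_
  exact h.smooth.comp ((ptB_smooth.mono OmB_sub).prodMk qtB_smooth)
    fun u hu => ⟨ptB_ne hu, qtB_ne hu⟩

/-- outside the good region the extension vanishes locally -/
theorem extB_local (h : ExtHypB δ ε σ ν) {u : R9} (hu : u ≠ 0) (hO : u ∉ OmB) :
    extB ε ν =ᶠ[𝓝 u] fun _ => 0 := by
  have hD := dot9_pos hu
  have hcp : ContinuousAt (fun w : R9 => ptB w ⬝ᵥ ptB w) u :=
    ((cd_dot ptB_smooth ptB_smooth).continuousOn.continuousAt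
      (isOpen_compl_singleton.mem_nhds hu))
  have hck : ContinuousAt kapB u :=
    kapB_smooth.continuousOn.continuousAt (isOpen_compl_singleton.mem_nhds hu)
  by_cases h1 : ptB u ⬝ᵥ ptB u < δ
  · filter_upwards [hcp.eventually (gt_mem_nhds h1)] with w hw
    unfold extB
    rw [h.van _ (Or.inl hw), mul_zero]
  by_cases h2 : 1 - δ < ptB u ⬝ᵥ ptB u
  · filter_upwards [hcp.eventually (lt_mem_nhds h2)] with w hw
    unfold extB
    rw [h.van _ (Or.inr hw), mul_zero]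
  by_cases h3 : ε < kapB u
  · filter_upwards [hck.eventually (lt_mem_nhds h3)] with w hw
    unfold extB
    rw [Real.smoothTransition.zero_of_nonpos, zero_mul]
    have : 1 ≤ kapB w / ε := by rw [le_div_iff₀ h.ε0]; linarith
    linarith
  exfalso
  push Not at h1 h2 h3
  rw [ptB_dot hu] at h1 h2
  rw [div_le_iff₀ hD] at h2
  rw [le_div_iff₀ hD] at h1
  have hδ := h.δ0
  refine hO ⟨hu, ?_, wB_ne hu h.δ0 h1 h2 (lt_of_le_of_lt (by linarith) h.small), ?_⟩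
  · intro h0
    rw [h0, dotProduct_zero, mul_zero] at h1
    have := mul_pos h.δ0 hD
    linarith
  · have := mul_pos h.δ0 hD
    linarith

theorem extB_smooth (h : ExtHypB δ ε σ ν) : ContDiffOn ℝ ∞ (extB ε ν) {0}ᶜ := by
  intro u hu
  by_cases hO : u ∈ OmB
  · exact ((extB_smoothOm h).contDiffAt (isOpen_OmB.mem_nhds hO)).contDiffWithinAt
  · exact (contDiffAt_const.congr_of_eventuallyEq (extB_local h hu hO)).contDiffWithinAt

/-! ### homogeneity and invariance -/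

theorem dot9_smul (r : ℝ) (u : R9) : dot9 (r • u) (r • u) = r ^ 2 * dot9 u u := by
  unfold dot9
  simp only [Prod.smul_fst, Prod.smul_snd, smul_dotProduct, dotProduct_smul, smul_eq_mul]
  ring

theorem psi4_smul (r : ℝ) (u : R9) : psi4 (r • u) = r ^ 4 * psi4 u := by
  unfold psi4
  simp only [Prod.smul_fst, Prod.smul_snd, smul_dotProduct, dotProduct_smul, smul_eq_mul,
    map_smul, LinearMap.smul_apply]
  ring

theorem kapB_smul {r : ℝ} (hr : r ≠ 0) (u : R9) : kapB (r • u) = kapB u := by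
  unfold kapB
  rw [dot9_smul, psi4_smul]
  by_cases hD : dot9 u u = 0
  · rw [hD]; simp
  · field_simp

theorem ptB_smul {r : ℝ} (hr : 0 < r) (u : R9) : ptB (r • u) = ptB u := by
  unfold ptB
  rw [dot9_smul, Real.sqrt_mul (by positivity), Real.sqrt_sq hr.le, Prod.smul_fst, smul_smul]
  congr 1
  by_cases hD : Real.sqrt (dot9 u u) = 0
  · rw [hD]; simp
  · field_simp

theorem ptB_neg (u : R9) : ptB (-u) = -ptB u := by
  unfold ptB
  have h1 : dot9 (-u) (-u) = dot9 u u := by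
    have := dot9_smul (-1) u
    simpa using this
  rw [h1, Prod.fst_neg, smul_neg]

theorem n3_smul (r : ℝ) (w : R3) : n3 (r • w) = |r| * n3 w := by
  unfold n3
  rw [smul_dotProduct, dotProduct_smul, smul_eq_mul, smul_eq_mul, ← mul_assoc, ← sq,
    Real.sqrt_mul (sq_nonneg r), Real.sqrt_sq_eq_abs]

theorem wB_smul (r : ℝ) (u : R9) : wB (r • u) = r ^ 2 • wB u := by
  unfold wB
  by_cases hr : r = 0
  · rw [hr]; simp
  simp only [Prod.smul_fst, Prod.smul_snd, map_smul, LinearMap.smul_apply, smul_dotProduct,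
    dotProduct_smul, smul_eq_mul, smul_sub, smul_smul]
  congr 2
  · rw [sq]
  · by_cases hA : u.1 ⬝ᵥ u.1 = 0
    · rw [hA]; simp
    · field_simp

theorem qtB_smul {r : ℝ} (hr : r ≠ 0) (u : R9) : qtB (r • u) = qtB u := by
  unfold qtB
  have h2 : (r • u).1 ⬝ᵥ (r • u).1 = r ^ 2 * (u.1 ⬝ᵥ u.1) := by
    simp only [Prod.smul_fst, smul_dotProduct, dotProduct_smul, smul_eq_mul]
    ring
  have hr2 : r ^ 2 ≠ 0 := pow_ne_zero 2 hr
  rw [wB_smul, h2, dot9_smul, n3_smul, smul_smul, abs_of_pos (by positivity)]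
  have h3 : 2 * (r ^ 2 * u.1 ⬝ᵥ u.1) / (r ^ 2 * dot9 u u) = 2 * (u.1 ⬝ᵥ u.1) / dot9 u u := by
    rw [show 2 * (r ^ 2 * u.1 ⬝ᵥ u.1) = r ^ 2 * (2 * (u.1 ⬝ᵥ u.1)) by ring,
      mul_div_mul_left _ _ hr2]
  rw [h3]
  congr 1
  by_cases hn : n3 (wB u) = 0
  · rw [hn]; simp
  · field_simp

theorem extB_smul {r : ℝ} (hr : 0 < r) (u : R9) : extB ε ν (r • u) = extB ε ν u := by
  unfold extB
  rw [kapB_smul hr.ne', ptB_smul hr, qtB_smul hr.ne']

theorem extB_off (h : ExtHypB δ ε σ ν) {u : R9} (hu : u ≠ 0) (hO : u ∉ OmB) : extB ε ν u = 0 :=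
  (extB_local h hu hO).eq_of_nhds

theorem OmB_neg {u : R9} (hu : u ∈ OmB) : -u ∈ OmB := by
  obtain ⟨h1, h2, h3, h4⟩ := hu
  have h6 : wB (-u) = wB u := by
    have := wB_smul (-1) u
    simpa using this
  refine ⟨neg_ne_zero.2 h1, by simpa using h2, by rw [h6]; exact h3, ?_⟩
  have h5 : dot9 (-u) (-u) = dot9 u u := by
    have := dot9_smul (-1) u
    simpa using this
  rw [h5]
  simpa using h4

theorem extB_neg (h : ExtHypB δ ε σ ν) (u : R9) : extB ε ν (-u) = σ * extB ε ν u := by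
  by_cases hu : u = 0
  · rw [hu, neg_zero]
    have h1 : ptB 0 = 0 := by simp [ptB]
    have h2 : extB ε ν 0 = 0 := by
      unfold extB
      rw [h.van _ (Or.inl (by rw [h1]; simpa using h.δ0)), mul_zero]
    rw [h2, mul_zero]
  by_cases hO : u ∈ OmB
  · unfold extB
    have e1 : kapB (-u) = kapB u := by
      have := kapB_smul (r := -1) (by norm_num) u
      simpa using this
    have e2 : qtB (-u) = qtB u := by
      have := qtB_smul (r := -1) (by norm_num) u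
      simpa using this
    have e3 := h.evp (ptB u, qtB u) ⟨ptB_ne hO, qtB_ne hO⟩
    simp only at e3
    rw [e1, e2, ptB_neg, e3]
    ring
  · have hO' : -u ∉ OmB := fun h' => hO (by simpa using OmB_neg h')
    rw [extB_off h hu hO, extB_off h (neg_ne_zero.2 hu) hO', mul_zero]

theorem rot_dot {t : ℝ} (x y : R3) : (Real.cos t • x - Real.sin t • y) ⬝ᵥ
    (Real.cos t • x - Real.sin t • y) + (Real.sin t • x + Real.cos t • y) ⬝ᵥ
    (Real.sin t • x + Real.cos t • y) = x ⬝ᵥ x + y ⬝ᵥ y := by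
  simp only [sub_dotProduct, dotProduct_sub, add_dotProduct, dotProduct_add, smul_dotProduct,
    dotProduct_smul, smul_eq_mul]
  rw [dotProduct_comm y x]
  linear_combination (x ⬝ᵥ x + y ⬝ᵥ y) * Real.sin_sq_add_cos_sq t

theorem rot_cross {t : ℝ} (x y : R3) : (Real.cos t • x - Real.sin t • y) ⨯₃
    (Real.sin t • x + Real.cos t • y) = x ⨯₃ y := by
  have h : Real.sin t ^ 2 + Real.cos t ^ 2 = 1 := Real.sin_sq_add_cos_sq t
  ext i
  fin_cases i
  · simp [cross_apply]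
    linear_combination (x 1 * y 2 - x 2 * y 1) * h
  · simp [cross_apply]
    linear_combination (x 2 * y 0 - x 0 * y 2) * h
  · simp [cross_apply]
    linear_combination (x 0 * y 1 - x 1 * y 0) * h

theorem dot9_rotH (t : ℝ) (u : R9) : dot9 (rotH t u) (rotH t u) = dot9 u u := by
  unfold dot9 rotH
  have := rot_dot (t := t) u.2.1 u.2.2
  simp only
  linarith

theorem cross_rotH (t : ℝ) (u : R9) : (rotH t u).2.1 ⨯₃ (rotH t u).2.2 = u.2.1 ⨯₃ u.2.2 :=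
  rot_cross u.2.1 u.2.2

theorem psi4_rotH (t : ℝ) (u : R9) : psi4 (rotH t u) = psi4 u := by
  unfold psi4
  rw [cross_rotH]
  have h1 : (rotH t u).1 = u.1 := rfl
  have h2 : (rotH t u).2.1 = Real.cos t • u.2.1 - Real.sin t • u.2.2 := rfl
  have h3 : (rotH t u).2.2 = Real.sin t • u.2.1 + Real.cos t • u.2.2 := rfl
  rw [h1, h2, h3]
  simp only [dotProduct_sub, dotProduct_add, dotProduct_smul, smul_eq_mul]
  linear_combination ((u.1 ⬝ᵥ u.2.1) ^ 2 + (u.1 ⬝ᵥ u.2.2) ^ 2) * Real.sin_sq_add_cos_sq t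

theorem extB_rotH (t : ℝ) (u : R9) : extB ε ν (rotH t u) = extB ε ν u := by
  unfold extB kapB ptB qtB wB
  rw [dot9_rotH, psi4_rotH, cross_rotH]
  rfl

/-! ### `α = 0` on flags -/

theorem hd_dot {f g : ℝ → R3} {f' g' : R3} {x : ℝ} (hf : HasDerivAt f f' x)
    (hg : HasDerivAt g g' x) :
    HasDerivAt (fun t => f t ⬝ᵥ g t) (f' ⬝ᵥ g x + f x ⬝ᵥ g') x := by
  rw [hasDerivAt_pi] at hf hg
  have h := (((hf 0).mul (hg 0)).add ((hf 1).mul (hg 1))).add ((hf 2).mul (hg 2))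
  have h2 : (fun t => f t ⬝ᵥ g t) = fun t => f t 0 * g t 0 + f t 1 * g t 1 + f t 2 * g t 2 := by
    funext t
    simp only [dotProduct, Fin.sum_univ_three]
  rw [h2]
  refine h.congr_deriv ?_
  simp only [dotProduct, Fin.sum_univ_three]
  ring

theorem line_hd {F : Type*} [NormedAddCommGroup F] [NormedSpace ℝ F] {f : R9 → F} {u v : R9}
    (hd : DifferentiableAt ℝ f u) : HasDerivAt (fun t : ℝ => f (u + t • v)) (fderiv ℝ f u v) 0 := by
  have h1 : HasDerivAt (fun t : ℝ => u + t • v) v 0 := by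
    simpa using ((hasDerivAt_id (0 : ℝ)).smul_const v).const_add u
  have h2 : HasFDerivAt f (fderiv ℝ f u) (u + (0 : ℝ) • v) := by
    rw [zero_smul, add_zero]; exact hd.hasFDerivAt
  exact h2.comp_hasDerivAt (0 : ℝ) h1

/-- consequences of `[u, b] = 0` -/
theorem flg_C1 {u b : R9} (h : Flg u b) : u.1 ⨯₃ b.1 + u.2.1 ⨯₃ b.2.1 + u.2.2 ⨯₃ b.2.2 = 0 :=
  congrArg Prod.fst h.br

theorem flg_C2 {u b : R9} (h : Flg u b) : u.1 ⨯₃ b.2.1 = b.1 ⨯₃ u.2.1 :=
  sub_eq_zero.1 (congrArg (fun w : R9 => w.2.1) h.br)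

theorem flg_C3 {u b : R9} (h : Flg u b) : u.1 ⨯₃ b.2.2 = b.1 ⨯₃ u.2.2 :=
  sub_eq_zero.1 (congrArg (fun w : R9 => w.2.2) h.br)

theorem flg_C4 {u b : R9} (h : Flg u b) : u.2.1 ⬝ᵥ b.2.2 = u.2.2 ⬝ᵥ b.2.1 := sub_eq_zero.1 h.brh

theorem flg_x {u b : R9} (h : Flg u b) : u.2.1 ⬝ᵥ (u.1 ⨯₃ b.1) = 0 := by
  rw [triple_product_permutation, ← flg_C2 h, dot_self_cross]

theorem flg_y {u b : R9} (h : Flg u b) : u.2.2 ⬝ᵥ (u.1 ⨯₃ b.1) = 0 := by
  rw [triple_product_permutation, ← flg_C3 h, dot_self_cross]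

/-- the derivative of `x × y` in the direction `[h, b]` is parallel to `x × y` -/
theorem flg_cross {u b : R9} (h : Flg u b) :
    (u.2.1 ⨯₃ u.2.2) ⨯₃ (u.1 ⨯₃ b.1) = 0 := by
  rw [cross_cross_eq_smul_sub_smul, flg_x h, flg_y h]
  simp

theorem flg_wcross {u b : R9} (h : Flg u b) : wB u ⨯₃ (u.1 ⨯₃ b.1) = 0 := by
  obtain ⟨c, hc⟩ : ∃ c, c = u.1 ⨯₃ b.1 := ⟨_, rfl⟩
  obtain ⟨w, hw⟩ : ∃ w, w = u.2.1 ⨯₃ u.2.2 := ⟨_, rfl⟩
  have h1 : w ⨯₃ c = 0 := by rw [hw, hc]; exact flg_cross h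
  have hca : c ⬝ᵥ u.1 = 0 := by rw [hc, dotProduct_comm]; exact dot_self_cross _ _
  unfold wB
  rw [← hc, ← hw, map_sub, LinearMap.sub_apply, h1, map_smul, LinearMap.smul_apply]
  by_cases h0 : c = 0
  · rw [h0]; simp
  · have h2 := cross_cross_eq_smul_sub_smul' c w c
    rw [h1, map_zero] at h2
    have h3 := congrArg (fun v => v ⬝ᵥ u.1) h2
    simp only [zero_dotProduct, sub_dotProduct, smul_dotProduct, smul_eq_mul, hca, mul_zero,
      sub_zero] at h3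
    have h4 : w ⬝ᵥ u.1 = 0 := by
      rcases mul_eq_zero.1 h3.symm with h5 | h5
      · exact absurd (dotProduct_self_eq_zero.1 h5) h0
      · exact h5
    rw [h4]; simp

/-- the key identity for `D psi4 [h, b] = 0` -/
theorem flg_E {u b : R9} (h : Flg u b) :
    (u.2.1 ⨯₃ u.2.2) ⬝ᵥ (u.1 ⨯₃ b.1) + (u.1 ⬝ᵥ u.2.1) * (u.1 ⬝ᵥ b.2.2)
      - (u.1 ⬝ᵥ u.2.2) * (u.1 ⬝ᵥ b.2.1) = 0 := by
  have c2 := congrArg (fun w => u.2.2 ⬝ᵥ (u.1 ⨯₃ w)) (flg_C2 h)
  have c3 := congrArg (fun w => u.2.1 ⬝ᵥ (u.1 ⨯₃ w)) (flg_C3 h)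
  simp only [cross_cross_eq_smul_sub_smul', dotProduct_sub, dotProduct_smul, smul_eq_mul] at c2 c3
  rw [cross_dot_cross]
  have c4 := flg_C4 h
  have m1 := dotProduct_comm u.2.2 u.1
  have m2 := dotProduct_comm u.2.1 u.1
  have m3 := dotProduct_comm u.2.2 u.2.1
  rw [m1, m3] at c2
  rw [m2] at c3
  rw [m1, m2]
  linear_combination c3 - c2 + (u.1 ⬝ᵥ u.1) * c4

/-- the line through `u` in the direction `[h, b]` -/
def lin9 (u b : R9) (t : ℝ) : R9 := u + t • rot b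

theorem lin9_1 (u b : R9) (t : ℝ) : (lin9 u b t).1 = u.1 := by
  unfold lin9 rot; simp

theorem lin9_2 (u b : R9) (t : ℝ) : (lin9 u b t).2.1 = u.2.1 - t • b.2.2 := by
  unfold lin9 rot; simp [sub_eq_add_neg]

theorem lin9_3 (u b : R9) (t : ℝ) : (lin9 u b t).2.2 = u.2.2 + t • b.2.1 := by
  unfold lin9 rot; simp

theorem lin9_x (u b : R9) : HasDerivAt (fun t => (lin9 u b t).2.1) (-b.2.2) 0 := by
  have h1 : HasDerivAt (fun t : ℝ => u.2.1 - t • b.2.2) (-b.2.2) 0 := by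
    refine (((hasDerivAt_id (0 : ℝ)).smul_const b.2.2).const_sub u.2.1).congr_deriv ?_
    simp
  refine h1.congr_of_eventuallyEq (Filter.Eventually.of_forall fun t => ?_)
  exact lin9_2 u b t

theorem lin9_y (u b : R9) : HasDerivAt (fun t => (lin9 u b t).2.2) b.2.1 0 := by
  have h1 : HasDerivAt (fun t : ℝ => u.2.2 + t • b.2.1) b.2.1 0 := by
    refine (((hasDerivAt_id (0 : ℝ)).smul_const b.2.1).const_add u.2.2).congr_deriv ?_
    simp
  refine h1.congr_of_eventuallyEq (Filter.Eventually.of_forall fun t => ?_)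
  exact lin9_3 u b t

theorem hd_cross {f g : ℝ → R3} {f' g' : R3} {x : ℝ} (hf : HasDerivAt f f' x)
    (hg : HasDerivAt g g' x) :
    HasDerivAt (fun t => f t ⨯₃ g t) (f' ⨯₃ g x + f x ⨯₃ g') x := by
  rw [hasDerivAt_pi] at hf hg ⊢
  intro i
  fin_cases i
  · refine (((hf 1).mul (hg 2)).sub ((hf 2).mul (hg 1))).congr_deriv ?_
    simp [cross_apply]; ring
  · refine (((hf 2).mul (hg 0)).sub ((hf 0).mul (hg 2))).congr_deriv ?_
    simp [cross_apply]; ring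
  · refine (((hf 0).mul (hg 1)).sub ((hf 1).mul (hg 0))).congr_deriv ?_
    simp [cross_apply]; ring

theorem lin9_zero (u b : R9) : lin9 u b 0 = u := by simp [lin9]

theorem lin9_w {u b : R9} (h : Flg u b) :
    HasDerivAt (fun t => (lin9 u b t).2.1 ⨯₃ (lin9 u b t).2.2) (-(u.1 ⨯₃ b.1)) 0 := by
  refine (hd_cross (lin9_x u b) (lin9_y u b)).congr_deriv ?_
  rw [lin9_zero]
  have h1 := flg_C1 h
  rw [map_neg, LinearMap.neg_apply, cross_anticomm, eq_neg_iff_add_eq_zero, ← h1]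
  abel

theorem lin9_dot {u b : R9} (h : Flg u b) :
    HasDerivAt (fun t => dot9 (lin9 u b t) (lin9 u b t)) 0 0 := by
  have h1 := (((hasDerivAt_const (0 : ℝ) (u.1 ⬝ᵥ u.1)).add (hd_dot (lin9_x u b) (lin9_x u b))).add
    (hd_dot (lin9_y u b) (lin9_y u b)))
  refine (h1.congr_deriv ?_).congr_of_eventuallyEq (Filter.Eventually.of_forall fun t => ?_)
  · rw [lin9_zero]
    have c4 := flg_C4 h
    rw [dotProduct_comm b.2.1 u.2.2, neg_dotProduct, dotProduct_neg,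
      dotProduct_comm b.2.2 u.2.1]
    linarith
  · show dot9 (lin9 u b t) (lin9 u b t) = _
    unfold dot9
    rw [lin9_1]
    rfl

theorem lin9_psi {u b : R9} (h : Flg u b) :
    HasDerivAt (fun t => psi4 (lin9 u b t)) 0 0 := by
  have hw := lin9_w h
  have h1 := (((hd_dot hw hw).add ((hd_dot (hasDerivAt_const (0 : ℝ) u.1) (lin9_x u b)).pow 2)).add
    ((hd_dot (hasDerivAt_const (0 : ℝ) u.1) (lin9_y u b)).pow 2))
  refine (h1.congr_deriv ?_).congr_of_eventuallyEq (Filter.Eventually.of_forall fun t => ?_)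
  · rw [lin9_zero]
    have hE := flg_E h
    simp only [zero_dotProduct, dotProduct_neg, neg_dotProduct, zero_add, Nat.cast_ofNat,
      Nat.add_one_sub_one, pow_one]
    rw [dotProduct_comm (u.1 ⨯₃ b.1) (u.2.1 ⨯₃ u.2.2)]
    linear_combination (-2) * hE
  · show psi4 (lin9 u b t) = _
    unfold psi4
    rw [lin9_1]
    rfl

theorem wB_line {l : ℝ → R9} {u : R9} {w' : R3} (h0 : l 0 = u) (h1 : ∀ t, (l t).1 = u.1)
    (hw : HasDerivAt (fun t => (l t).2.1 ⨯₃ (l t).2.2) w' 0) :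
    HasDerivAt (fun t => wB (l t)) (w' - ((w' ⬝ᵥ u.1) / (u.1 ⬝ᵥ u.1)) • u.1) 0 := by
  have k1 := hw.sub (((hd_dot hw (hasDerivAt_const (0 : ℝ) u.1)).div_const
    (u.1 ⬝ᵥ u.1)).smul_const u.1)
  refine (k1.congr_deriv ?_).congr_of_eventuallyEq (Filter.Eventually.of_forall fun t => ?_)
  · simp
  · show wB (l t) = _
    unfold wB
    rw [h1]
    rfl

theorem qtB_line' {l : ℝ → R9} {u : R9} {w' : R3} (hO : u ∈ OmB) (h0 : l 0 = u)
    (h1 : ∀ t, (l t).1 = u.1) (hd : HasDerivAt (fun t => dot9 (l t) (l t)) 0 0)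
    (hw : HasDerivAt (fun t => wB (l t)) w' 0) (hc : wB u ⨯₃ w' = 0) :
    HasDerivAt (fun t => qtB (l t)) 0 0 := by
  have hD := dot9_pos hO.1
  have hs := OmB_arg hO
  obtain ⟨w, hw1⟩ : ∃ w, w = wB u := ⟨_, rfl⟩
  have hw0 : w ≠ 0 := by rw [hw1]; exact hO.2.2.1
  have hn := n3_pos hw0
  have k1 : HasDerivAt (fun t => Real.sqrt (1 - 2 * (u.1 ⬝ᵥ u.1) /
      dot9 (l t) (l t))) 0 0 := by
    have h1 := (hasDerivAt_const (0 : ℝ) (1 : ℝ)).sub ((hasDerivAt_const (0 : ℝ)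
      (2 * (u.1 ⬝ᵥ u.1))).div hd (by rw [h0]; exact hD.ne'))
    have h2 := h1.sqrt (by
      simp only [Pi.sub_apply, Pi.div_apply]
      rw [h0]; exact hs.ne')
    exact h2.congr_deriv (by simp)
  have k3 : HasDerivAt (fun t => n3 (wB (l t))) ((w ⬝ᵥ w') / n3 w) 0 := by
    have h1 := (hd_dot hw hw).sqrt (by rw [h0, ← hw1]; exact (dot_pos hw0).ne')
    refine h1.congr_deriv ?_
    rw [h0, ← hw1, dotProduct_comm w' w]
    show (w ⬝ᵥ w' + w ⬝ᵥ w') / (2 * n3 w) = _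
    field_simp
    ring
  have k4 := (k1.div k3 (by rw [h0, ← hw1]; exact hn.ne')).smul hw
  refine (k4.congr_deriv ?_).congr_of_eventuallyEq (Filter.Eventually.of_forall fun t => ?_)
  · simp only [Pi.div_apply]
    rw [h0, ← hw1]
    have e1 : (w ⬝ᵥ w) • w' = (w ⬝ᵥ w') • w := by
      have h2 : w ⨯₃ w' = 0 := by rw [hw1]; exact hc
      have h3 := cross_cross_eq_smul_sub_smul' w w w'
      rw [h2, map_zero] at h3
      exact (sub_eq_zero.1 h3.symm).symm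
    have e2 : w' = ((w ⬝ᵥ w') / n3 w ^ 2) • w := by
      rw [n3_sq, div_eq_inv_mul, mul_smul, ← e1, smul_smul, inv_mul_cancel₀ (dot_pos hw0).ne',
        one_smul]
    obtain ⟨r, hr⟩ : ∃ r, r = w ⬝ᵥ w' := ⟨_, rfl⟩
    rw [← hr] at e2 ⊢
    rw [e2, smul_smul, ← add_smul]
    rw [show ∀ A B : ℝ, A + B = B + A from add_comm]
    rw [zero_mul, zero_sub]
    have : (-(Real.sqrt (1 - 2 * u.1 ⬝ᵥ u.1 / dot9 u u) * (r / n3 w)) / n3 w ^ 2 +
      Real.sqrt (1 - 2 * u.1 ⬝ᵥ u.1 / dot9 u u) / n3 w * (r / n3 w ^ 2)) = 0 := by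
      field_simp
      ring
    rw [this, zero_smul]
  · show qtB (l t) = _
    unfold qtB
    rw [h1]
    rfl

/-- directions in which the extension does not change -/
theorem extB_dir (h : ExtHypB δ ε σ ν) {u v : R9} (hu : u ≠ 0) (hv : v.1 = 0)
    (hd : HasDerivAt (fun t : ℝ => dot9 (u + t • v) (u + t • v)) 0 0)
    (hp : HasDerivAt (fun t : ℝ => psi4 (u + t • v)) 0 0) {w' : R3}
    (hw : HasDerivAt (fun t : ℝ => (u + t • v).2.1 ⨯₃ (u + t • v).2.2) w' 0)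
    (hc : wB u ⨯₃ (w' - ((w' ⬝ᵥ u.1) / (u.1 ⬝ᵥ u.1)) • u.1) = 0) :
    fderiv ℝ (extB ε ν) u v = 0 := by
  have l0 : u + (0 : ℝ) • v = u := by simp
  have l1 : ∀ t : ℝ, (u + t • v).1 = u.1 := fun t => by simp [hv]
  have hD := dot9_pos hu
  by_cases hO : u ∈ OmB
  · have hdf : DifferentiableAt ℝ (extB ε ν) u :=
      ((extB_smooth h).contDiffAt (isOpen_compl_singleton.mem_nhds hu)).differentiableAt (by simp)
    have h1 := line_hd (v := v) hdf
    have hν : DifferentiableAt ℝ ν (ptB u, qtB u) :=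
      (h.smooth.contDiffAt (isOpen_U6.mem_nhds ⟨ptB_ne hO, qtB_ne hO⟩)).differentiableAt (by simp)
    have hpt : HasDerivAt (fun t : ℝ => ptB (u + t • v)) 0 0 := by
      have h1 : HasDerivAt (fun t : ℝ => Real.sqrt (dot9 (u + t • v) (u + t • v))) 0 0 := by
        refine (hd.sqrt (by rw [l0]; exact hD.ne')).congr_deriv (by simp)
      have h2 := ((hasDerivAt_const (0 : ℝ) (Real.sqrt 2)).div h1
        (by rw [l0]; exact (Real.sqrt_pos.2 hD).ne')).smul_const u.1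
      refine (h2.congr_deriv (by simp)).congr_of_eventuallyEq
        (Filter.Eventually.of_forall fun t => ?_)
      show ptB (u + t • v) = _
      unfold ptB
      rw [l1]
      rfl
    have hqt : HasDerivAt (fun t : ℝ => qtB (u + t • v)) 0 0 :=
      qtB_line' hO l0 l1 hd (wB_line l0 l1 hw) hc
    have hka : HasDerivAt (fun t : ℝ => kapB (u + t • v)) 0 0 := by
      have h1 := (hasDerivAt_const (0 : ℝ) (1 / 4 : ℝ)).sub (hp.div (hd.pow 2)
        (by simp only [Pi.pow_apply]; rw [l0]; exact pow_ne_zero 2 hD.ne'))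
      refine (h1.congr_deriv (by simp)).congr_of_eventuallyEq
        (Filter.Eventually.of_forall fun t => ?_)
      rfl
    have h2 : HasDerivAt (fun t : ℝ => ν (ptB (u + t • v), qtB (u + t • v))) 0 0 := by
      have e1 := hpt.prodMk hqt
      have e2 : HasFDerivAt ν (fderiv ℝ ν (ptB u, qtB u))
          (ptB (u + (0 : ℝ) • v), qtB (u + (0 : ℝ) • v)) := by rw [l0]; exact hν.hasFDerivAt
      refine (e2.comp_hasDerivAt (0 : ℝ) e1).congr_deriv ?_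
      exact map_zero _
    have h3 : HasDerivAt (fun t : ℝ =>
        Real.smoothTransition (2 - 2 * (kapB (u + t • v) / ε))) 0 0 := by
      have e1 := (hasDerivAt_const (0 : ℝ) (2 : ℝ)).sub ((hka.div_const ε).const_mul 2)
      have e2 : HasDerivAt Real.smoothTransition
          (deriv Real.smoothTransition (2 - 2 * (kapB (u + (0 : ℝ) • v) / ε)))
          (2 - 2 * (kapB (u + (0 : ℝ) • v) / ε)) :=
        ((Real.smoothTransition.contDiff (n := 1)).differentiable (by simp) _).hasDerivAt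
      refine (e2.comp (0 : ℝ) e1).congr_deriv ?_
      simp
    have h4 := (h3.mul h2).congr_deriv (g' := 0) (by simp)
    exact h1.unique h4
  · rw [(extB_local h hu hO).fderiv_eq]
    simp

theorem flg_ne {u b : R9} (hf : Flg u b) : u ≠ 0 := by
  intro h0
  have := hf.uu
  rw [h0] at this
  simp [dot9] at this

theorem extB_al (h : ExtHypB δ ε σ ν) {u b : R9} (hf : Flg u b) : alM (extB ε ν) u b = 0 := by
  have hca : (u.1 ⨯₃ b.1) ⬝ᵥ u.1 = 0 := by rw [dotProduct_comm]; exact dot_self_cross _ _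
  refine extB_dir h (flg_ne hf) rfl (lin9_dot hf) (lin9_psi hf) (lin9_w hf) ?_
  rw [neg_dotProduct, hca, neg_zero, zero_div, zero_smul, sub_zero, map_neg, flg_wcross hf,
    neg_zero]

/-! ### values at wall B -/

theorem n3_one_sub {z : R6} (hz : z ∈ base) : 1 - z.1 ⬝ᵥ z.1 = z.2 ⬝ᵥ z.2 := by
  have := hz.2
  linarith

theorem uB_dot {z : R6} (hz : z ∈ base) (hp : z.1 ≠ 0) : dot9 (uB z) (uB z) = 1 := by
  have hP := dot_pos hp
  have hn := n3_pos hp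
  have h2 : (Real.sqrt 2)⁻¹ ^ 2 = 1 / 2 := by
    rw [inv_pow, Real.sq_sqrt (by norm_num)]; norm_num
  have e1 : (z.2 ⨯₃ z.1) ⬝ᵥ (z.2 ⨯₃ z.1) = (z.2 ⬝ᵥ z.2) * (z.1 ⬝ᵥ z.1) := by
    rw [cross_dot_cross, dotProduct_comm z.2 z.1, hz.1]
    ring
  unfold uB
  rw [dot9_smul, h2]
  unfold dot9
  simp only [smul_dotProduct, dotProduct_smul, smul_eq_mul]
  rw [e1, ← n3_sq z.1]
  have e2 := n3_one_sub hz
  rw [← e2, ← n3_sq z.1]
  field_simp
  ring

theorem uB_cross {z : R6} (hz : z ∈ base) (hp : z.1 ≠ 0) :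
    (uB z).2.1 ⨯₃ (uB z).2.2 = (1 / 2 : ℝ) • z.2 := by
  have hn := n3_pos hp
  have h2 : (Real.sqrt 2)⁻¹ * (Real.sqrt 2)⁻¹ = 1 / 2 := by
    rw [← mul_inv, Real.mul_self_sqrt (by norm_num)]; norm_num
  have e1 : z.1 ⨯₃ (z.2 ⨯₃ z.1) = (z.1 ⬝ᵥ z.1) • z.2 := by
    rw [cross_cross_eq_smul_sub_smul', dotProduct_comm z.2 z.1, hz.1]
    simp
  unfold uB
  simp only [Prod.smul_fst, Prod.smul_snd, map_smul, LinearMap.smul_apply, smul_smul]
  rw [e1, smul_smul, ← n3_sq z.1]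
  congr 1
  have : (Real.sqrt 2)⁻¹ * (Real.sqrt 2)⁻¹ * ((n3 z.1)⁻¹ * (n3 z.1)⁻¹) * n3 z.1 ^ 2 = 1 / 2 := by
    rw [h2]; field_simp
  rw [← this]
  ring

theorem uB_1 (z : R6) : (uB z).1 = (Real.sqrt 2)⁻¹ • z.1 := rfl

theorem uB_ptB {z : R6} (hz : z ∈ base) (hp : z.1 ≠ 0) : ptB (uB z) = z.1 := by
  unfold ptB
  rw [uB_dot hz hp, uB_1, smul_smul]
  simp

theorem uB_psi4 {z : R6} (hz : z ∈ base) (hp : z.1 ≠ 0) : psi4 (uB z) = 1 / 4 := by
  have hn := n3_pos hp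
  have h2 : (Real.sqrt 2)⁻¹ * (Real.sqrt 2)⁻¹ = 1 / 2 := by
    rw [← mul_inv, Real.mul_self_sqrt (by norm_num)]; norm_num
  unfold psi4
  rw [uB_cross hz hp]
  have e1 : (uB z).1 ⬝ᵥ (uB z).2.1 = n3 z.1 / 2 := by
    have : (uB z).2.1 = (Real.sqrt 2)⁻¹ • (n3 z.1)⁻¹ • z.1 := rfl
    rw [this, uB_1, smul_dotProduct, dotProduct_smul, dotProduct_smul, ← n3_sq z.1]
    simp only [smul_eq_mul]
    rw [show (Real.sqrt 2)⁻¹ * ((Real.sqrt 2)⁻¹ * ((n3 z.1)⁻¹ * n3 z.1 ^ 2)) =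
      ((Real.sqrt 2)⁻¹ * (Real.sqrt 2)⁻¹) * ((n3 z.1)⁻¹ * n3 z.1 ^ 2) by ring, h2]
    field_simp
  have e2 : (uB z).1 ⬝ᵥ (uB z).2.2 = 0 := by
    have : (uB z).2.2 = (Real.sqrt 2)⁻¹ • (n3 z.1)⁻¹ • (z.2 ⨯₃ z.1) := rfl
    rw [this, uB_1, smul_dotProduct, dotProduct_smul, dotProduct_smul, dot_cross_self]
    simp
  rw [e1, e2, smul_dotProduct, dotProduct_smul, ← n3_one_sub hz, ← n3_sq z.1]
  simp only [smul_eq_mul]
  ring

theorem uB_kapB {z : R6} (hz : z ∈ base) (hp : z.1 ≠ 0) : kapB (uB z) = 0 := by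
  unfold kapB
  rw [uB_dot hz hp, uB_psi4 hz hp]
  norm_num

theorem uB_qtB {z : R6} (hz : z ∈ base) (hU : z ∈ U6) : qtB (uB z) = z.2 := by
  have hq := n3_pos hU.2
  have hwB : wB (uB z) = (1 / 2 : ℝ) • z.2 := by
    unfold wB
    rw [uB_cross hz hU.1, uB_1, smul_dotProduct, dotProduct_smul, dotProduct_comm z.2 z.1, hz.1]
    simp
  unfold qtB
  rw [uB_dot hz hU.1, hwB, n3_smul, smul_smul, uB_1, smul_dotProduct,
    dotProduct_smul]
  have h2 : (Real.sqrt 2)⁻¹ * (Real.sqrt 2)⁻¹ = 1 / 2 := by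
    rw [← mul_inv, Real.mul_self_sqrt (by norm_num)]; norm_num
  have e1 : (1 : ℝ) - 2 * ((Real.sqrt 2)⁻¹ • (Real.sqrt 2)⁻¹ • (z.1 ⬝ᵥ z.1)) / 1 = z.2 ⬝ᵥ z.2 := by
    rw [← n3_one_sub hz]
    simp only [smul_eq_mul]
    rw [← mul_assoc (Real.sqrt 2)⁻¹, h2]
    ring
  rw [e1]
  have e2 : Real.sqrt (z.2 ⬝ᵥ z.2) = n3 z.2 := rfl
  rw [e2, abs_of_pos (by norm_num)]
  have e3 : n3 z.2 / (1 / 2 * n3 z.2) * (1 / 2) = 1 := by field_simp
  rw [e3, one_smul]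

theorem extB_uB (h : ExtHypB δ ε σ ν) {z : R6} (hz : z ∈ base) (hU : z ∈ U6) :
    extB ε ν (uB z) = ν z := by
  unfold extB
  rw [uB_kapB hz hU.1, uB_ptB hz hU.1, uB_qtB hz hU, zero_div, mul_zero, sub_zero,
    Real.smoothTransition.one_of_one_le (by norm_num), one_mul]

theorem cM_kapB {u : R9} (hu : u ≠ 0) : cM u = -1 + 8 * kapB u := by
  unfold cM kapB
  ring

theorem extB_supp (h : ExtHypB δ ε σ ν) {u : R9} (hu0 : u ≠ 0) (hu : extB ε ν u ≠ 0) :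
    δ * dot9 u u ≤ 2 * (u.1 ⬝ᵥ u.1) ∧ 2 * (u.1 ⬝ᵥ u.1) ≤ (1 - δ) * dot9 u u ∧
      cM u < -1 + 8 * ε := by
  have hD := dot9_pos hu0
  have h1 : ¬ (ptB u ⬝ᵥ ptB u < δ) := fun h1 => hu (by
    unfold extB; rw [h.van _ (Or.inl h1), mul_zero])
  have h2 : ¬ (1 - δ < ptB u ⬝ᵥ ptB u) := fun h2 => hu (by
    unfold extB; rw [h.van _ (Or.inr h2), mul_zero])
  have h3 : kapB u < ε := by
    by_contra h3
    push Not at h3
    refine hu ?_
    unfold extB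
    rw [Real.smoothTransition.zero_of_nonpos, zero_mul]
    have : 1 ≤ kapB u / ε := by rw [le_div_iff₀ h.ε0]; linarith
    linarith
  rw [ptB_dot hu0] at h1 h2
  push Not at h1 h2
  rw [div_le_iff₀ hD] at h2
  rw [le_div_iff₀ hD] at h1
  refine ⟨h1, h2, ?_⟩
  rw [cM_kapB hu0]
  linarith

/-- near wall B the cut-off is locally one -/
theorem extB_near {u : R9} (hu : kapB u ≤ ε / 2) (hε : 0 < ε) :
    extB ε ν u = ν (ptB u, qtB u) := by
  unfold extB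
  rw [Real.smoothTransition.one_of_one_le, one_mul]
  have : kapB u / ε ≤ 1 / 2 := by rw [div_le_iff₀ hε]; linarith
  linarith

/-! ### the extension as a `W`-invariant function -/

theorem alM_mul {f k : R9 → ℝ} {u b : R9} (hf : DifferentiableAt ℝ f u)
    (hk : DifferentiableAt ℝ k u) : alM (fun w => f w * k w) u b = f u * alM k u b + k u * alM f u b := by
  unfold alM
  have h1 := (hf.hasFDerivAt.mul hk.hasFDerivAt).fderiv
  have h2 : fderiv ℝ (fun w => f w * k w) u = f u • fderiv ℝ k u + k u • fderiv ℝ f u := h1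
  rw [h2]
  simp

theorem alM_dot9 {u b : R9} (hf : Flg u b) : alM (fun w => dot9 w w) u b = 0 := by
  have hd : DifferentiableAt ℝ (fun w : R9 => dot9 w w) u :=
    ((cd_dot9 (s := Set.univ)).contDiffAt Filter.univ_mem).differentiableAt (by simp)
  exact (line_hd (v := rot b) hd).unique (lin9_dot hf)

/-- the extension of an even function as a `W`-invariant admissible function -/
theorem extB_WM (h : ExtHypB δ ε 1 ν) : WM (fun u => dot9 u u * extB ε ν u) := by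
  refine ⟨⟨cd_dot9.mul (extB_smooth h), fun r u => ?_, fun t u => ?_⟩, fun u b hf => ?_⟩
  · rcases lt_trichotomy r 0 with hr | hr | hr
    · have h1 : r • u = -(-r) • u := by simp
      have h2 : extB ε ν (r • u) = extB ε ν u := by
        have h3 : r • u = -((-r) • u) := by simp
        rw [h3, extB_neg h, extB_smul (by linarith), one_mul]
      rw [dot9_smul, h2]; ring
    · rw [hr]
      simp [dot9]
    · rw [dot9_smul, extB_smul hr]; ring
  · rw [dot9_rotH, extB_rotH]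
  · have hu := flg_ne hf
    have hd : DifferentiableAt ℝ (fun w : R9 => dot9 w w) u :=
      ((cd_dot9 (s := Set.univ)).contDiffAt Filter.univ_mem).differentiableAt (by simp)
    have hd' : DifferentiableAt ℝ (extB ε ν) u :=
      ((extB_smooth h).contDiffAt (isOpen_compl_singleton.mem_nhds hu)).differentiableAt (by simp)
    rw [alM_mul hd hd', alM_dot9 hf, extB_al h hf]
    ring

theorem extB_WM_uB (h : ExtHypB δ ε σ ν) {z : R6} (hz : z ∈ base) (hU : z ∈ U6) :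
    dot9 (uB z) (uB z) * extB ε ν (uB z) = ν z := by
  rw [uB_dot hz hU.1, one_mul, extB_uB h hz hU]

/-- extension of an odd function: homogeneous of degree one -/
theorem extB_odd (h : ExtHypB δ ε (-1) ν) :
    ContDiffOn ℝ ∞ (fun u => Real.sqrt (dot9 u u) * extB ε ν u) {0}ᶜ ∧
      (∀ (r : ℝ) (u : R9), Real.sqrt (dot9 (r • u) (r • u)) * extB ε ν (r • u) =
        r * (Real.sqrt (dot9 u u) * extB ε ν u)) ∧
      (∀ (t : ℝ) (u : R9), Real.sqrt (dot9 (rotH t u) (rotH t u)) * extB ε ν (rotH t u) =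
        Real.sqrt (dot9 u u) * extB ε ν u) := by
  refine ⟨(cd_dot9.sqrt fun _ hu => (dot9_pos hu).ne').mul (extB_smooth h), fun r u => ?_,
    fun t u => ?_⟩
  · have e1 : Real.sqrt (dot9 (r • u) (r • u)) = |r| * Real.sqrt (dot9 u u) := by
      rw [dot9_smul, Real.sqrt_mul (sq_nonneg r), Real.sqrt_sq_eq_abs]
    rw [e1]
    rcases lt_trichotomy r 0 with hr | hr | hr
    · have h2 : extB ε ν (r • u) = - extB ε ν u := by
        have h3 : r • u = -((-r) • u) := by simp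
        rw [h3, extB_neg h, extB_smul (by linarith)]
        ring
      rw [h2, abs_of_neg hr]; ring
    · rw [hr]; simp
    · rw [extB_smul hr, abs_of_pos hr]; ring
  · rw [dot9_rotH, extB_rotH]

/-! ### the rotation rate -/

theorem hd_line (u v : R9) : HasDerivAt (fun t : ℝ => u + t • v) v 0 := by
  simpa using ((hasDerivAt_id (0 : ℝ)).smul_const v).const_add u

theorem uB_2 (z : R6) : (uB z).2.1 = (Real.sqrt 2)⁻¹ • (n3 z.1)⁻¹ • z.1 := rfl

theorem uB_3 (z : R6) : (uB z).2.2 = (Real.sqrt 2)⁻¹ • (n3 z.1)⁻¹ • (z.2 ⨯₃ z.1) := rfl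

theorem uB_ne {z : R6} (hz : z ∈ base) (hp : z.1 ≠ 0) : uB z ≠ 0 := by
  intro h0
  have := uB_dot hz hp
  rw [h0] at this
  simp [dot9] at this

/-- the extension does not change in the direction `(0, q, 0)` at wall B -/
theorem extB_0q0 (h : ExtHypB δ ε σ ν) {z : R6} (hz : z ∈ base) (hU : z ∈ U6) :
    fderiv ℝ (extB ε ν) (uB z) ((0 : R3), z.2, (0 : R3)) = 0 ∧
      fderiv ℝ (fun u : R9 => dot9 u u) (uB z) ((0 : R3), z.2, (0 : R3)) = 0 := by
  obtain ⟨v, hv⟩ : ∃ v : R9, v = ((0 : R3), z.2, (0 : R3)) := ⟨_, rfl⟩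
  have v1 : v.1 = 0 := by rw [hv]
  have v2 : v.2.1 = z.2 := by rw [hv]
  have v3 : v.2.2 = 0 := by rw [hv]
  have hx : HasDerivAt (fun t : ℝ => (uB z + t • v).2.1) z.2 0 := by
    have := (((hasDerivAt_id (0 : ℝ)).smul_const z.2).const_add (uB z).2.1)
    refine (this.congr_deriv (by simp)).congr_of_eventuallyEq
      (Filter.Eventually.of_forall fun t => ?_)
    simp [v2]
  have hy : HasDerivAt (fun t : ℝ => (uB z + t • v).2.2) 0 0 := by
    refine (hasDerivAt_const (0 : ℝ) (uB z).2.2).congr_of_eventuallyEq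
      (Filter.Eventually.of_forall fun t => ?_)
    simp [v3]
  have l0 : uB z + (0 : ℝ) • v = uB z := by simp
  have l1 : ∀ t : ℝ, (uB z + t • v).1 = (uB z).1 := fun t => by simp [v1]
  have hqx : z.2 ⬝ᵥ (uB z).2.1 = 0 := by
    rw [uB_2, dotProduct_smul, dotProduct_smul, dotProduct_comm, hz.1]; simp
  have hd : HasDerivAt (fun t : ℝ => dot9 (uB z + t • v) (uB z + t • v)) 0 0 := by
    have h1 := (((hasDerivAt_const (0 : ℝ) ((uB z).1 ⬝ᵥ (uB z).1)).add (hd_dot hx hx)).add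
      (hd_dot hy hy))
    refine (h1.congr_deriv ?_).congr_of_eventuallyEq (Filter.Eventually.of_forall fun t => ?_)
    · rw [l0, dotProduct_comm (uB z).2.1 z.2, hqx]
      simp
    · show dot9 (uB z + t • v) (uB z + t • v) = _
      unfold dot9
      rw [l1]
      rfl
  obtain ⟨r, hr⟩ : ∃ r, r = -((Real.sqrt 2)⁻¹ * (n3 z.1)⁻¹ * (z.2 ⬝ᵥ z.2)) := ⟨_, rfl⟩
  have hw : HasDerivAt (fun t : ℝ => (uB z + t • v).2.1 ⨯₃ (uB z + t • v).2.2) (r • z.1) 0 := by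
    refine (hd_cross hx hy).congr_deriv ?_
    rw [l0, map_zero, add_zero, uB_3, map_smul, map_smul, cross_cross_eq_smul_sub_smul',
      dotProduct_comm z.2 z.1, hz.1, zero_smul, zero_sub, smul_neg, smul_neg, smul_smul, smul_smul,
      ← neg_smul, hr]
  have hp : HasDerivAt (fun t : ℝ => psi4 (uB z + t • v)) 0 0 := by
    have h1 := (((hd_dot hw hw).add ((hd_dot (hasDerivAt_const (0 : ℝ) (uB z).1) hx).pow 2)).add
      ((hd_dot (hasDerivAt_const (0 : ℝ) (uB z).1) hy).pow 2))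
    refine (h1.congr_deriv ?_).congr_of_eventuallyEq (Filter.Eventually.of_forall fun t => ?_)
    · rw [l0, uB_cross hz hU.1, uB_1]
      simp [hz.1, dotProduct_comm z.2 z.1]
    · show psi4 (uB z + t • v) = _
      unfold psi4
      rw [l1]
      rfl
  rw [← hv]
  refine ⟨extB_dir h (uB_ne hz hU.1) v1 hd hp hw ?_, ?_⟩
  · have hP := dot_pos hU.1
    have e1 : (((r • z.1) ⬝ᵥ (uB z).1) / ((uB z).1 ⬝ᵥ (uB z).1)) • (uB z).1 = r • z.1 := by
      rw [uB_1, smul_smul]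
      congr 1
      simp only [smul_dotProduct, dotProduct_smul, smul_eq_mul]
      have h2 : Real.sqrt 2 ≠ 0 := by positivity
      field_simp
    rw [e1, sub_self, map_zero]
  · have hdf : DifferentiableAt ℝ (fun w : R9 => dot9 w w) (uB z) :=
      ((cd_dot9 (s := Set.univ)).contDiffAt Filter.univ_mem).differentiableAt (by simp)
    exact (line_hd (v := v) hdf).unique hd

/-- the extension does not change the rotation rate at wall B -/
theorem omB_extB (h : ExtHypB δ ε σ ν) {z : R6} (hz : z ∈ base) (hU : z ∈ U6) :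
    omB (fun u => dot9 u u * extB ε ν u) z = 0 := by
  obtain ⟨h1, h2⟩ := extB_0q0 h hz hU
  have hu := uB_ne hz hU.1
  have hd : DifferentiableAt ℝ (fun w : R9 => dot9 w w) (uB z) :=
    ((cd_dot9 (s := Set.univ)).contDiffAt Filter.univ_mem).differentiableAt (by simp)
  have hd' : DifferentiableAt ℝ (extB ε ν) (uB z) :=
    ((extB_smooth h).contDiffAt (isOpen_compl_singleton.mem_nhds hu)).differentiableAt (by simp)
  unfold omB
  have h3 : fderiv ℝ (fun w : R9 => dot9 w w * extB ε ν w) (uB z) =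
      dot9 (uB z) (uB z) • fderiv ℝ (extB ε ν) (uB z) +
        extB ε ν (uB z) • fderiv ℝ (fun w : R9 => dot9 w w) (uB z) :=
    (hd.hasFDerivAt.mul hd'.hasFDerivAt).fderiv
  rw [h3]
  simp [h1, h2]

end Pool.Agent.FL.S2.EB
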