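import Pool.Agent.FL.FTC

/-!
# MP_f09395_gt, space (2): genericity at wall A
-/

noncomputable section

namespace Pool.Agent.FL.S2

open scoped ContDiff Matrix
open Matrix Filter Topology Module
open Pool.Agent.helper90.FL
open FT0

namespace FTA

/-- indices of the immersion family -/
abbrev I0 : Type := (Fin 3 × Fin 3) ⊕ (Fin 3 × Fin 3)

/-- indices of the separating family -/
abbrev IA : Type := I0 ⊕ (I0 × I0)

/-- immersion family at wall A: `p_i p_j` and `c_i c_j`, `c = p × q` -/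
def eA : I0 → R6 → ℝ
  | Sum.inl a => fun z => z.1 a.1 * z.1 a.2
  | Sum.inr a => fun z => (z.1 ⨯₃ z.2) a.1 * (z.1 ⨯₃ z.2) a.2

/-- the components of `p` -/
def pA (l : Fin 3) (z : R6) : ℝ := z.1 l

theorem app_smooth {E : Type*} [NormedAddCommGroup E] [NormedSpace ℝ E] {f : E → R3} {U : Set E}
    (hf : ContDiffOn ℝ ∞ f U) (i : Fin 3) : ContDiffOn ℝ ∞ (fun z => f z i) U :=
  contDiffOn_pi.1 hf i

theorem eA_smooth (i : I0) : ContDiffOn ℝ ∞ (eA i) U6 := by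
  rcases i with a | a
  · exact (app_smooth fst_smooth a.1).mul (app_smooth fst_smooth a.2)
  · exact (app_smooth (cross_smooth fst_smooth snd_smooth) a.1).mul
      (app_smooth (cross_smooth fst_smooth snd_smooth) a.2)

theorem pA_smooth (l : Fin 3) : ContDiffOn ℝ ∞ (pA l) U6 := app_smooth fst_smooth l

theorem n3_smooth : ContDiffOn ℝ ∞ (fun z : R6 => n3 z.1) U6 :=
  (dot_smooth fst_smooth fst_smooth).sqrt fun _ hz => dot_self_ne hz.1

theorem n3'_smooth : ContDiffOn ℝ ∞ (fun z : R6 => n3 z.2) U6 :=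
  (dot_smooth snd_smooth snd_smooth).sqrt fun _ hz => dot_self_ne hz.2

theorem prod_fderiv {E : Type*} [NormedAddCommGroup E] [NormedSpace ℝ E] {f : E → R3}
    {f' : E →L[ℝ] R3} {x : E} (hf : HasFDerivAt f f' x) (i j : Fin 3) (w : E) :
    fderiv ℝ (fun y => f y i * f y j) x w = f' w i * f x j + f x i * f' w j := by
  have hfi : ∀ i, HasFDerivAt (fun y => f y i) ((ContinuousLinearMap.proj i).comp f') x :=
    fun i => (ContinuousLinearMap.proj (R := ℝ) (φ := fun _ : Fin 3 => ℝ) i).hasFDerivAt.comp x hf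
  have h := (hfi i).mul (hfi j)
  rw [show (fun y => f y i * f y j) = (fun y => f y i) * fun y => f y j from rfl, h.fderiv]
  simp
  ring

theorem sym_kernel {a b : R3} (ha : a ≠ 0) (h : ∀ i j, b i * a j + a i * b j = 0) : b = 0 := by
  have h0 := dot_self_pos ha
  have h1 : (a ⬝ᵥ b) * (a ⬝ᵥ a) = 0 := by
    rw [vec3_dotProduct, vec3_dotProduct]
    linear_combination (a 0 * a 0 / 2) * h 0 0 + (a 0 * a 1 / 2) * h 0 1 +
      (a 0 * a 2 / 2) * h 0 2 + (a 1 * a 0 / 2) * h 1 0 + (a 1 * a 1 / 2) * h 1 1 +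
      (a 1 * a 2 / 2) * h 1 2 + (a 2 * a 0 / 2) * h 2 0 + (a 2 * a 1 / 2) * h 2 1 +
      (a 2 * a 2 / 2) * h 2 2
  have h2 : a ⬝ᵥ b = 0 := (mul_eq_zero.1 h1).resolve_right h0.ne'
  ext i
  have h3 : b i * (a ⬝ᵥ a) + a i * (a ⬝ᵥ b) = 0 := by
    rw [vec3_dotProduct, vec3_dotProduct]
    linear_combination a 0 * h i 0 + a 1 * h i 1 + a 2 * h i 2
  rw [h2, mul_zero, add_zero] at h3
  exact (mul_eq_zero.1 h3).resolve_right h0.ne'

/-- the immersion property at wall A -/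
theorem eA_sep {z : R6} (hz : z ∈ base) (hU : z ∈ U6) {w : R6} (hw : fderiv ℝ rho z w = 0)
    (hw0 : w ≠ 0) : ∃ i, fderiv ℝ (eA i) z w ≠ 0 := by
  by_contra hcon
  push Not at hcon
  have hp : HasFDerivAt (fun y : R6 => y.1) (ContinuousLinearMap.fst ℝ R3 R3) z :=
    hasFDerivAt_fst
  have hq : HasFDerivAt (fun y : R6 => y.2) (ContinuousLinearMap.snd ℝ R3 R3) z :=
    hasFDerivAt_snd
  obtain ⟨L, hL, hL'⟩ := hasFDerivAt_cross hp hq
  have h1 : w.1 = 0 := by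
    refine sym_kernel hU.1 fun i j => ?_
    have h2 := hcon (Sum.inl (i, j))
    rw [show eA (Sum.inl (i, j)) = fun y : R6 => y.1 i * y.1 j from rfl, prod_fderiv hp i j w] at h2
    exact h2
  have hc : z.1 ⨯₃ z.2 ≠ 0 := by
    intro h0
    have h2 := par_of_cross hU.1 h0
    rw [hz.1, zero_div, zero_smul] at h2
    exact hU.2 h2
  have h2 : L w = 0 := by
    refine sym_kernel hc fun i j => ?_
    have h3 := hcon (Sum.inr (i, j))
    rw [show eA (Sum.inr (i, j)) = fun y : R6 => (y.1 ⨯₃ y.2) i * (y.1 ⨯₃ y.2) j from rfl,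
      prod_fderiv hL i j w] at h3
    exact h3
  rw [hL'] at h2
  have h3 : w.1 ⨯₃ z.2 + z.1 ⨯₃ w.2 = 0 := h2
  rw [h1, map_zero, LinearMap.zero_apply, zero_add] at h3
  have h4 := par_of_cross hU.1 h3
  obtain ⟨h5, -⟩ := rho_tan hw
  rw [h1, dotProduct_zero, zero_add] at h5
  rw [h5, zero_div, zero_smul] at h4
  exact hw0 (Prod.ext h1 h4)

/-- **Fact D at wall A** -/
theorem factD_A {ν : R3} (hν : ν ≠ 0) {z : R6} (hz : z ∈ base) (hU : z ∈ U6)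
    (h0 : ν ⬝ᵥ (z.1 ⨯₃ z.2) = 0) : ∃ w, fderiv ℝ rho z w = 0 ∧
      fderiv ℝ (fun y : R6 => -(ν ⬝ᵥ (y.1 ⨯₃ y.2))) z w ≠ 0 := by
  have hp : HasFDerivAt (fun y : R6 => y.1) (ContinuousLinearMap.fst ℝ R3 R3) z :=
    hasFDerivAt_fst
  have hq : HasFDerivAt (fun y : R6 => y.2) (ContinuousLinearMap.snd ℝ R3 R3) z :=
    hasFDerivAt_snd
  obtain ⟨L, hL, hL'⟩ := hasFDerivAt_cross hp hq
  obtain ⟨M, hM, hM'⟩ := hasFDerivAt_dot (hasFDerivAt_const ν z) hL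
  obtain ⟨c, hc⟩ : ∃ c, c = z.1 ⨯₃ z.2 := ⟨_, rfl⟩
  have hc0 : c ≠ 0 := by
    intro h
    rw [hc] at h
    have h2 := par_of_cross hU.1 h
    rw [hz.1, zero_div, zero_smul] at h2
    exact hU.2 h2
  obtain ⟨r, hr⟩ : ∃ r, r = c ⨯₃ ν := ⟨_, rfl⟩
  have hr0 : r ≠ 0 := by
    intro h
    rw [hr] at h
    have h2 := par_of_cross hc0 h
    rw [dot_comm3 c ν, hc, h0, zero_div, zero_smul] at h2
    exact hν h2
  refine ⟨(r ⨯₃ z.1, r ⨯₃ z.2), ?_, ?_⟩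
  · rw [rho_fderiv, Prod.mk_eq_zero]
    simp only [cross_apply, vec3_dotProduct]
    simp
    constructor <;> ring
  · have h1 : HasFDerivAt (fun y : R6 => -(ν ⬝ᵥ (y.1 ⨯₃ y.2))) (-M) z := hM.neg
    rw [h1.fderiv, _root_.neg_apply, hM', hL']
    have h2 : ν ⬝ᵥ ((r ⨯₃ z.1) ⨯₃ z.2 + z.1 ⨯₃ (r ⨯₃ z.2)) = r ⬝ᵥ r := by
      have h3 : (r ⨯₃ z.1) ⨯₃ z.2 + z.1 ⨯₃ (r ⨯₃ z.2) = r ⨯₃ (z.1 ⨯₃ z.2) := by
        simp only [cross_apply]
        ext i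
        fin_cases i <;> simp <;> ring
      rw [h3, ← hc]
      have h4 : ν ⬝ᵥ (r ⨯₃ c) = r ⬝ᵥ (c ⨯₃ ν) := by
        simp only [cross_apply, vec3_dotProduct]
        simp
        ring
      rw [h4, ← hr]
    show -((0 : R6 →L[ℝ] R3) (r ⨯₃ z.1, r ⨯₃ z.2) ⬝ᵥ (z.1 ⨯₃ z.2) +
      ν ⬝ᵥ ((r ⨯₃ z.1) ⨯₃ z.2 + z.1 ⨯₃ (r ⨯₃ z.2))) ≠ 0
    rw [h2, _root_.zero_apply, zero_dotProduct, zero_add]
    exact neg_ne_zero.2 (dot_self_ne hr0)

/-! ### smooth functions on `R9` -/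

theorem uA_ne {z : R6} (hz : z ∈ U6) : uA z ≠ 0 := by
  intro h
  have h1 : z.1 = 0 := congrArg Prod.fst h
  exact hz.1 h1

theorem uA_smooth : ContDiffOn ℝ ∞ uA U6 :=
  fst_smooth.prodMk (snd_smooth.prodMk contDiffOn_const)

theorem comp_uA_smooth {v : R9 → ℝ} (hv : ContDiffOn ℝ ∞ v {0}ᶜ) :
    ContDiffOn ℝ ∞ (fun z => v (uA z)) U6 :=
  hv.comp uA_smooth fun _ hz => uA_ne hz

theorem fd_uA_smooth {v : R9 → ℝ} (hv : ContDiffOn ℝ ∞ v {0}ᶜ) {Y : R6 → R9}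
    (hY : ContDiffOn ℝ ∞ Y U6) : ContDiffOn ℝ ∞ (fun z => fderiv ℝ v (uA z) (Y z)) U6 :=
  ((fder_smooth isOpen_compl_singleton hv).comp uA_smooth fun _ hz => uA_ne hz).clm_apply hY

theorem al1A_smooth {v : R9 → ℝ} (hv : ContDiffOn ℝ ∞ v {0}ᶜ) :
    ContDiffOn ℝ ∞ (fun z => alM v (uA z) (b1A z)) U6 :=
  fd_uA_smooth hv (contDiffOn_const.prodMk (contDiffOn_const.neg.prodMk fst_smooth))

theorem al2A_smooth {v : R9 → ℝ} (hv : ContDiffOn ℝ ∞ v {0}ᶜ) :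
    ContDiffOn ℝ ∞ (fun z => alM v (uA z) (b2A z)) U6 :=
  fd_uA_smooth hv (contDiffOn_const.prodMk (((n3_smooth.inv fun _ hz => (n3_pos hz.1).ne').smul
    fst_smooth).neg.prodMk contDiffOn_const))

theorem omA_smooth {v : R9 → ℝ} (hv : ContDiffOn ℝ ∞ v {0}ᶜ) : ContDiffOn ℝ ∞ (omA v) U6 :=
  (fd_uA_smooth hv (contDiffOn_const.prodMk (contDiffOn_const.prodMk
    (cross_smooth fst_smooth snd_smooth)))).div
    (n3_smooth.mul (dot_smooth snd_smooth snd_smooth))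
    fun _ hz => mul_ne_zero (n3_pos hz.1).ne' (dot_self_ne hz.2)

end FTA

end Pool.Agent.FL.S2
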