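import Mathlib

/-!
# MP_f09395_gt, space (2), GE6: the walls in the coordinates (a, x, y)

Wall A: `a·x = a·y = 0`, `x × y = 0`; wall B: `(a·x)² + (a·y)² + |x × y|² = 1/4` (for unit vectors).
`H` acts by `(x, y) ↦ (ct x - st y, st x + ct y)`.
-/

noncomputable section

namespace Pool.Agent.FL.S2

open Matrix

/-- `u` and `u'` commute, in the coordinates `(a, x, y)` -/
structure Comm (a x y a' x' y' : Fin 3 → ℝ) : Prop where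
  C1 : a ⨯₃ a' + x ⨯₃ x' + y ⨯₃ y' = 0
  C2 : a ⨯₃ x' = a' ⨯₃ x
  C3 : a ⨯₃ y' = a' ⨯₃ y
  C4 : x ⬝ᵥ y' = y ⬝ᵥ x'

namespace GE6

theorem dot3 (v w : Fin 3 → ℝ) : v ⬝ᵥ w = v 0 * w 0 + v 1 * w 1 + v 2 * w 2 := by
  simp [dotProduct, Fin.sum_univ_three]

theorem cr0 (v w : Fin 3 → ℝ) : (v ⨯₃ w) 0 = v 1 * w 2 - v 2 * w 1 := by simp [cross_apply]
theorem cr1 (v w : Fin 3 → ℝ) : (v ⨯₃ w) 1 = v 2 * w 0 - v 0 * w 2 := by simp [cross_apply]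
theorem cr2 (v w : Fin 3 → ℝ) : (v ⨯₃ w) 2 = v 0 * w 1 - v 1 * w 0 := by simp [cross_apply]

theorem ext3' {v w : Fin 3 → ℝ} (h0 : v 0 = w 0) (h1 : v 1 = w 1) (h2 : v 2 = w 2) : v = w := by
  funext i; fin_cases i <;> assumption

theorem dot_pos {v : Fin 3 → ℝ} (hv : v ≠ 0) : 0 < v ⬝ᵥ v := by
  rw [dot3]
  by_contra h
  push Not at h
  apply hv
  have h0 : v 0 = 0 := by nlinarith [sq_nonneg (v 0), sq_nonneg (v 1), sq_nonneg (v 2)]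
  have h1 : v 1 = 0 := by nlinarith [sq_nonneg (v 0), sq_nonneg (v 1), sq_nonneg (v 2)]
  have h2 : v 2 = 0 := by nlinarith [sq_nonneg (v 0), sq_nonneg (v 1), sq_nonneg (v 2)]
  exact ext3' h0 h1 h2

theorem dot_nn (v : Fin 3 → ℝ) : 0 ≤ v ⬝ᵥ v := by
  rw [dot3]; nlinarith [mul_self_nonneg (v 0), mul_self_nonneg (v 1), mul_self_nonneg (v 2)]

theorem dot_zero {v : Fin 3 → ℝ} (h : v ⬝ᵥ v = 0) : v = 0 := by
  by_contra hv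
  exact (dot_pos hv).ne' h

/-- Lagrange -/
theorem cross_sq (v w : Fin 3 → ℝ) :
    (v ⨯₃ w) ⬝ᵥ (v ⨯₃ w) = (v ⬝ᵥ v) * (w ⬝ᵥ w) - (v ⬝ᵥ w) ^ 2 := by
  simp only [dot3, cr0, cr1, cr2]; ring

/-- expansion in the frame `p, q, p × q` -/
theorem expand {p q : Fin 3 → ℝ} (hpq : p ⬝ᵥ q = 0) (z : Fin 3 → ℝ) :
    ((p ⬝ᵥ p) * (q ⬝ᵥ q)) • z = ((q ⬝ᵥ q) * (z ⬝ᵥ p)) • p + ((p ⬝ᵥ p) * (z ⬝ᵥ q)) • q
      + (z ⬝ᵥ (p ⨯₃ q)) • p ⨯₃ q := by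
  have key : ∀ i, ((p ⬝ᵥ p) * (q ⬝ᵥ q) - (p ⬝ᵥ q) ^ 2) * z i
      = ((q ⬝ᵥ q) * (z ⬝ᵥ p) - (p ⬝ᵥ q) * (z ⬝ᵥ q)) * p i
        + ((p ⬝ᵥ p) * (z ⬝ᵥ q) - (p ⬝ᵥ q) * (z ⬝ᵥ p)) * q i
        + (z ⬝ᵥ (p ⨯₃ q)) * (p ⨯₃ q) i := by
    intro i
    fin_cases i
    · show _ * z 0 = _ * p 0 + _ * q 0 + _ * (p ⨯₃ q) 0
      simp only [dot3, cr0, cr1, cr2]; ring
    · show _ * z 1 = _ * p 1 + _ * q 1 + _ * (p ⨯₃ q) 1
      simp only [dot3, cr0, cr1, cr2]; ring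
    · show _ * z 2 = _ * p 2 + _ * q 2 + _ * (p ⨯₃ q) 2
      simp only [dot3, cr0, cr1, cr2]; ring
  funext i
  have := key i
  rw [hpq] at this
  simp only [Pi.smul_apply, Pi.add_apply, smul_eq_mul]
  linear_combination this

/-- a vector is determined by its products with `p, q, p × q` -/
theorem ext_dot {p q v w : Fin 3 → ℝ} (hpq : p ⬝ᵥ q = 0) (hp : p ≠ 0) (hq : q ≠ 0)
    (h1 : v ⬝ᵥ p = w ⬝ᵥ p) (h2 : v ⬝ᵥ q = w ⬝ᵥ q) (h3 : v ⬝ᵥ (p ⨯₃ q) = w ⬝ᵥ (p ⨯₃ q)) :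
    v = w := by
  have e1 := expand hpq v
  have e2 := expand hpq w
  rw [h1, h2, h3, ← e2] at e1
  have hP := dot_pos hp
  have hQ := dot_pos hq
  have hne : (p ⬝ᵥ p) * (q ⬝ᵥ q) ≠ 0 := by positivity
  exact smul_right_injective _ hne e1

end GE6

open GE6

/-- wall A modulo `H` -/
theorem wallA_normal {a x y : Fin 3 → ℝ} (h1 : a ⬝ᵥ x = 0) (h2 : a ⬝ᵥ y = 0)
    (h3 : x ⨯₃ y = 0) : ∃ (q : Fin 3 → ℝ) (ct st : ℝ), ct ^ 2 + st ^ 2 = 1 ∧ x = ct • q ∧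
      y = st • q ∧ a ⬝ᵥ q = 0 ∧ q ⬝ᵥ q = x ⬝ᵥ x + y ⬝ᵥ y := by
  by_cases hx : x = 0
  · refine ⟨y, 0, 1, by norm_num, by simp [hx], by simp, h2, by simp [hx]⟩
  · have hX := dot_pos hx
    set μ : ℝ := (x ⬝ᵥ y) / (x ⬝ᵥ x) with hμ
    have hy : y = μ • x := by
      have h30 := congrFun h3 0
      have h31 := congrFun h3 1
      have h32 := congrFun h3 2
      rw [cr0] at h30
      rw [cr1] at h31
      rw [cr2] at h32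
      simp only [Pi.zero_apply] at h30 h31 h32
      have e : (x ⬝ᵥ x) • y = (x ⬝ᵥ y) • x := by
        apply ext3' <;> simp only [Pi.smul_apply, smul_eq_mul, dot3]
        · linear_combination (x 2) * h31 - x 1 * h32
        · linear_combination (-x 2) * h30 + x 0 * h32
        · linear_combination (x 1) * h30 - x 0 * h31
      rw [hμ, div_eq_inv_mul, mul_smul, ← e, smul_smul, inv_mul_cancel₀ hX.ne', one_smul]
    have hs : 0 < 1 + μ ^ 2 := by positivity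
    have hsq := Real.sq_sqrt hs.le
    have hsp : 0 < √(1 + μ ^ 2) := Real.sqrt_pos.2 hs
    refine ⟨√(1 + μ ^ 2) • x, 1 / √(1 + μ ^ 2), μ / √(1 + μ ^ 2), ?_, ?_, ?_, ?_, ?_⟩
    · field_simp
      linarith
    · rw [smul_smul, one_div, inv_mul_cancel₀ hsp.ne', one_smul]
    · rw [smul_smul, div_mul_cancel₀ _ hsp.ne', ← hy]
    · rw [dotProduct_smul, h1, smul_zero]
    · conv_rhs => rw [hy]
      simp only [dotProduct_smul, smul_dotProduct, smul_eq_mul]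
      linear_combination (x ⬝ᵥ x) * hsq

/-- flags over `(p, q, 0)`, `p, q ≠ 0` -/
theorem wallA_flag {p q a' x' y' : Fin 3 → ℝ} (hpq : p ⬝ᵥ q = 0) (hu : p ⬝ᵥ p + q ⬝ᵥ q = 1)
    (hp : p ≠ 0) (hq : q ≠ 0) (hC : Comm p q 0 a' x' y')
    (hb : a' ⬝ᵥ a' + x' ⬝ᵥ x' + y' ⬝ᵥ y' = 1) (hub : p ⬝ᵥ a' + q ⬝ᵥ x' = 0) :
    ∃ s1 s2 : ℝ, s1 ^ 2 + s2 ^ 2 = 1 ∧ a' = s1 • q ∧ x' = s1 • p ∧
      y' = (s2 / √(p ⬝ᵥ p)) • p := by
  have hP := dot_pos hp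
  have hQ := dot_pos hq
  have a0 := congrFun hC.C1 0
  have a1 := congrFun hC.C1 1
  have a2 := congrFun hC.C1 2
  have b0 := congrFun hC.C2 0
  have b1 := congrFun hC.C2 1
  have b2 := congrFun hC.C2 2
  have c0 := congrFun hC.C3 0
  have c1 := congrFun hC.C3 1
  have c2 := congrFun hC.C3 2
  simp only [Pi.add_apply, cr0, cr1, cr2, Pi.zero_apply, mul_zero, zero_mul, sub_zero, add_zero]
    at a0 a1 a2 b0 b1 b2 c0 c1 c2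
  -- components
  have hxr : x' ⬝ᵥ (p ⨯₃ q) = 0 := by
    simp only [dot3, cr0, cr1, cr2]
    linear_combination (p 0) * a0 + (p 1) * a1 + (p 2) * a2
  have har : a' ⬝ᵥ (p ⨯₃ q) = 0 := by
    simp only [dot3, cr0, cr1, cr2]
    linear_combination (-q 0) * a0 - (q 1) * a1 - (q 2) * a2
  have h1 : (p ⬝ᵥ p) * (a' ⬝ᵥ q) - (p ⬝ᵥ q) * (a' ⬝ᵥ p)
      + ((x' ⬝ᵥ q) * (p ⬝ᵥ q) - (q ⬝ᵥ q) * (x' ⬝ᵥ p)) = 0 := by
    simp only [dot3]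
    linear_combination (p 1 * q 2 - p 2 * q 1) * a0 + (p 2 * q 0 - p 0 * q 2) * a1
      + (p 0 * q 1 - p 1 * q 0) * a2
  have h2 : ((p ⬝ᵥ p) * (x' ⬝ᵥ q) - (p ⬝ᵥ q) * (x' ⬝ᵥ p))
      - ((q ⬝ᵥ q) * (a' ⬝ᵥ p) - (p ⬝ᵥ q) * (a' ⬝ᵥ q)) = 0 := by
    simp only [dot3]
    linear_combination (p 1 * q 2 - p 2 * q 1) * b0 + (p 2 * q 0 - p 0 * q 2) * b1
      + (p 0 * q 1 - p 1 * q 0) * b2
  rw [hpq] at h1 h2
  have hub' : a' ⬝ᵥ p + x' ⬝ᵥ q = 0 := by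
    rw [dotProduct_comm a' p, dotProduct_comm x' q]; exact hub
  have hxq : x' ⬝ᵥ q = 0 := by
    have : ((p ⬝ᵥ p) + (q ⬝ᵥ q)) * (x' ⬝ᵥ q) = 0 := by
      linear_combination h2 + (q ⬝ᵥ q) * hub'
    rw [hu, one_mul] at this
    exact this
  have hap : a' ⬝ᵥ p = 0 := by linarith
  set s1 := (a' ⬝ᵥ q) / (q ⬝ᵥ q) with hs1
  have hs1q : s1 * (q ⬝ᵥ q) = a' ⬝ᵥ q := div_mul_cancel₀ _ hQ.ne'
  have hs1p : s1 * (p ⬝ᵥ p) = x' ⬝ᵥ p := by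
    have : (q ⬝ᵥ q) * (s1 * (p ⬝ᵥ p)) = (q ⬝ᵥ q) * (x' ⬝ᵥ p) := by
      linear_combination (p ⬝ᵥ p) * hs1q + h1
    exact mul_left_cancel₀ hQ.ne' this
  have hpr : p ⬝ᵥ (p ⨯₃ q) = 0 := by simp only [dot3, cr0, cr1, cr2]; ring
  have hqr : q ⬝ᵥ (p ⨯₃ q) = 0 := by simp only [dot3, cr0, cr1, cr2]; ring
  have hqp : q ⬝ᵥ p = 0 := by rw [dotProduct_comm]; exact hpq
  have ea : a' = s1 • q := by
    apply ext_dot hpq hp hq
    · rw [hap, smul_dotProduct, hqp, smul_zero]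
    · rw [smul_dotProduct, smul_eq_mul, hs1q]
    · rw [har, smul_dotProduct, hqr, smul_zero]
  have ex : x' = s1 • p := by
    apply ext_dot hpq hp hq
    · rw [smul_dotProduct, smul_eq_mul, hs1p]
    · rw [hxq, smul_dotProduct, hpq, smul_zero]
    · rw [hxr, smul_dotProduct, hpr, smul_zero]
  have hPs : 0 < √(p ⬝ᵥ p) := Real.sqrt_pos.2 hP
  have hPq : √(p ⬝ᵥ p) ^ 2 = p ⬝ᵥ p := Real.sq_sqrt hP.le
  have ey : (p ⬝ᵥ p) • y' = (y' ⬝ᵥ p) • p := by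
    apply ext3' <;> simp only [Pi.smul_apply, smul_eq_mul, dot3]
    · linear_combination (p 2) * c1 - p 1 * c2
    · linear_combination (-p 2) * c0 + p 0 * c2
    · linear_combination (p 1) * c0 - p 0 * c1
  have ey' : y' = (((y' ⬝ᵥ p) / √(p ⬝ᵥ p)) / √(p ⬝ᵥ p)) • p := by
    rw [div_div, ← sq, hPq, div_eq_inv_mul, mul_smul, ← ey, smul_smul, inv_mul_cancel₀ hP.ne',
      one_smul]
  refine ⟨s1, (y' ⬝ᵥ p) / √(p ⬝ᵥ p), ?_, ea, ex, ey'⟩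
  have e3 : y' ⬝ᵥ y' = ((y' ⬝ᵥ p) / √(p ⬝ᵥ p)) ^ 2 := by
    conv_lhs => rw [ey']
    rw [smul_dotProduct, dotProduct_smul, smul_eq_mul, smul_eq_mul]
    field_simp
    rw [hPq]
  rw [← e3]
  have e1 : a' ⬝ᵥ a' = s1 ^ 2 * (q ⬝ᵥ q) := by
    rw [ea, smul_dotProduct, dotProduct_smul, smul_eq_mul, smul_eq_mul]; ring
  have e2 : x' ⬝ᵥ x' = s1 ^ 2 * (p ⬝ᵥ p) := by
    rw [ex, smul_dotProduct, dotProduct_smul, smul_eq_mul, smul_eq_mul]; ring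
  linear_combination hb - e1 - e2 - s1 ^ 2 * hu

/-- flags over `(p, 0, 0)` -/
theorem wallA_flag_q0 {p a' x' y' : Fin 3 → ℝ} (hu : p ⬝ᵥ p = 1) (hC : Comm p 0 0 a' x' y')
    (hb : a' ⬝ᵥ a' + x' ⬝ᵥ x' + y' ⬝ᵥ y' = 1) (hub : p ⬝ᵥ a' = 0) :
    ∃ s1 s2 : ℝ, s1 ^ 2 + s2 ^ 2 = 1 ∧ a' = 0 ∧ x' = s1 • p ∧ y' = s2 • p := by
  have a0 := congrFun hC.C1 0
  have a1 := congrFun hC.C1 1
  have a2 := congrFun hC.C1 2
  have b0 := congrFun hC.C2 0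
  have b1 := congrFun hC.C2 1
  have b2 := congrFun hC.C2 2
  have c0 := congrFun hC.C3 0
  have c1 := congrFun hC.C3 1
  have c2 := congrFun hC.C3 2
  simp only [Pi.add_apply, cr0, cr1, cr2, Pi.zero_apply, mul_zero, zero_mul, sub_zero, add_zero]
    at a0 a1 a2 b0 b1 b2 c0 c1 c2
  have par : ∀ z : Fin 3 → ℝ, p 1 * z 2 - p 2 * z 1 = 0 → p 2 * z 0 - p 0 * z 2 = 0 →
      p 0 * z 1 - p 1 * z 0 = 0 → z = (z ⬝ᵥ p) • p := by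
    intro z c0 c1 c2
    rw [dot3] at hu
    apply ext3' <;> simp only [Pi.smul_apply, smul_eq_mul, dot3]
    · linear_combination (p 2) * c1 - p 1 * c2 - z 0 * hu
    · linear_combination (-p 2) * c0 + p 0 * c2 - z 1 * hu
    · linear_combination (p 1) * c0 - p 0 * c1 - z 2 * hu
  have ea : a' = 0 := by
    have := par a' (by linarith) (by linarith) (by linarith)
    rw [dotProduct_comm, hub, zero_smul] at this
    exact this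
  have ex := par x' b0 b1 b2
  have ey := par y' c0 c1 c2
  refine ⟨x' ⬝ᵥ p, y' ⬝ᵥ p, ?_, ea, ex, ey⟩
  have e2 : x' ⬝ᵥ x' = (x' ⬝ᵥ p) ^ 2 := by
    conv_lhs => rw [ex]
    rw [smul_dotProduct, dotProduct_smul, smul_eq_mul, smul_eq_mul, hu]; ring
  have e3 : y' ⬝ᵥ y' = (y' ⬝ᵥ p) ^ 2 := by
    conv_lhs => rw [ey]
    rw [smul_dotProduct, dotProduct_smul, smul_eq_mul, smul_eq_mul, hu]; ring
  rw [ea, zero_dotProduct, zero_add, e2, e3] at hb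
  exact hb

/-- flags over `(0, q, 0)` -/
theorem wallA_flag_p0 {q a' x' y' : Fin 3 → ℝ} (hu : q ⬝ᵥ q = 1) (hC : Comm 0 q 0 a' x' y')
    (hb : a' ⬝ᵥ a' + x' ⬝ᵥ x' + y' ⬝ᵥ y' = 1) (hub : q ⬝ᵥ x' = 0) :
    ∃ η : ℝ, a' = η • q ∧ x' = 0 ∧ q ⬝ᵥ y' = 0 ∧ η ^ 2 + y' ⬝ᵥ y' = 1 := by
  have a0 := congrFun hC.C1 0
  have a1 := congrFun hC.C1 1
  have a2 := congrFun hC.C1 2
  have b0 := congrFun hC.C2 0
  have b1 := congrFun hC.C2 1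
  have b2 := congrFun hC.C2 2
  simp only [Pi.add_apply, cr0, cr1, cr2, Pi.zero_apply, zero_mul, sub_zero, add_zero,
    zero_add] at a0 a1 a2 b0 b1 b2
  have par : ∀ z : Fin 3 → ℝ, q 1 * z 2 - q 2 * z 1 = 0 → q 2 * z 0 - q 0 * z 2 = 0 →
      q 0 * z 1 - q 1 * z 0 = 0 → z = (z ⬝ᵥ q) • q := by
    intro z c0 c1 c2
    rw [dot3] at hu
    apply ext3' <;> simp only [Pi.smul_apply, smul_eq_mul, dot3]
    · linear_combination (q 2) * c1 - q 1 * c2 - z 0 * hu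
    · linear_combination (-q 2) * c0 + q 0 * c2 - z 1 * hu
    · linear_combination (q 1) * c0 - q 0 * c1 - z 2 * hu
  have ex : x' = 0 := by
    have := par x' a0 a1 a2
    rw [dotProduct_comm, hub, zero_smul] at this
    exact this
  have ea := par a' (by linear_combination b0) (by linear_combination b1)
    (by linear_combination b2)
  have hy : q ⬝ᵥ y' = 0 := by rw [hC.C4, zero_dotProduct]
  refine ⟨a' ⬝ᵥ q, ea, ex, hy, ?_⟩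
  have e2 : a' ⬝ᵥ a' = (a' ⬝ᵥ q) ^ 2 := by
    conv_lhs => rw [ea]
    rw [smul_dotProduct, dotProduct_smul, smul_eq_mul, smul_eq_mul, hu]; ring
  rw [ex, zero_dotProduct, add_zero, e2] at hb
  exact hb

/-- wall B modulo `H`, `p = √2 a ≠ 0`, `q = 2 x × y` -/
theorem wallB_normal {a x y : Fin 3 → ℝ} (hu : a ⬝ᵥ a + x ⬝ᵥ x + y ⬝ᵥ y = 1)
    (hB : (a ⬝ᵥ x) ^ 2 + (a ⬝ᵥ y) ^ 2 + (x ⨯₃ y) ⬝ᵥ (x ⨯₃ y) = 1 / 4) (ha : a ≠ 0) :
    ∃ (p q : Fin 3 → ℝ) (ct st : ℝ), ct ^ 2 + st ^ 2 = 1 ∧ p = √2 • a ∧ q = (2 : ℝ) • x ⨯₃ y ∧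
      p ⬝ᵥ q = 0 ∧ p ⬝ᵥ p + q ⬝ᵥ q = 1 ∧
      x = ct • ((√2 * √(p ⬝ᵥ p))⁻¹ • p) - st • ((√2 * √(p ⬝ᵥ p))⁻¹ • q ⨯₃ p) ∧
      y = st • ((√2 * √(p ⬝ᵥ p))⁻¹ • p) + ct • ((√2 * √(p ⬝ᵥ p))⁻¹ • q ⨯₃ p) := by
  have hA := dot_pos ha
  have hL := cross_sq x y
  have hρ : 0 < (a ⬝ᵥ x) ^ 2 + (a ⬝ᵥ y) ^ 2 := by
    rw [hL] at hB
    by_contra h
    have h0 : (a ⬝ᵥ x) ^ 2 + (a ⬝ᵥ y) ^ 2 = 0 := le_antisymm (not_lt.1 h) (by positivity)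
    have h1 : (x ⬝ᵥ x) * (y ⬝ᵥ y) = 1 / 4 + (x ⬝ᵥ y) ^ 2 := by linarith
    nlinarith [sq_nonneg (x ⬝ᵥ x - y ⬝ᵥ y), sq_nonneg (x ⬝ᵥ y), dot_nn x, dot_nn y]
  set ρ := √((a ⬝ᵥ x) ^ 2 + (a ⬝ᵥ y) ^ 2) with hρd
  have hρ0 : 0 < ρ := Real.sqrt_pos.2 hρ
  have hρ2 : ρ ^ 2 = (a ⬝ᵥ x) ^ 2 + (a ⬝ᵥ y) ^ 2 := Real.sq_sqrt hρ.le
  set ct := (a ⬝ᵥ x) / ρ with hct
  set st := (a ⬝ᵥ y) / ρ with hst
  have hcs : ct ^ 2 + st ^ 2 = 1 := by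
    rw [hct, hst, div_pow, div_pow, ← add_div, ← hρ2, div_self (by positivity)]
  have hax : a ⬝ᵥ x = ρ * ct := by rw [hct]; field_simp
  have hay : a ⬝ᵥ y = ρ * st := by rw [hst]; field_simp
  obtain ⟨x0, hx0⟩ : ∃ x0, x0 = ct • x + st • y := ⟨_, rfl⟩
  obtain ⟨y0, hy0⟩ : ∃ y0, y0 = -st • x + ct • y := ⟨_, rfl⟩
  have hx : x = ct • x0 - st • y0 := by
    rw [hx0, hy0]
    funext i
    simp only [Pi.smul_apply, Pi.add_apply, Pi.sub_apply, smul_eq_mul]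
    linear_combination (-x i) * hcs
  have hy : y = st • x0 + ct • y0 := by
    rw [hx0, hy0]
    funext i
    simp only [Pi.smul_apply, Pi.add_apply, smul_eq_mul]
    linear_combination (-y i) * hcs
  have hcr : x ⨯₃ y = x0 ⨯₃ y0 := by
    rw [hx, hy]
    apply ext3' <;> simp only [cr0, cr1, cr2, Pi.smul_apply, Pi.add_apply, Pi.sub_apply,
      smul_eq_mul]
    · linear_combination (x0 1 * y0 2 - x0 2 * y0 1) * hcs
    · linear_combination (x0 2 * y0 0 - x0 0 * y0 2) * hcs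
    · linear_combination (x0 0 * y0 1 - x0 1 * y0 0) * hcs
  have ha0 : a ⬝ᵥ x0 = ρ := by
    rw [hx0, dotProduct_add, dotProduct_smul, dotProduct_smul, smul_eq_mul, smul_eq_mul, hax, hay]
    linear_combination ρ * hcs
  have hb0 : a ⬝ᵥ y0 = 0 := by
    rw [hy0, dotProduct_add, dotProduct_smul, dotProduct_smul, smul_eq_mul, smul_eq_mul, hax, hay]
    ring
  have hN : x ⬝ᵥ x + y ⬝ᵥ y = x0 ⬝ᵥ x0 + y0 ⬝ᵥ y0 := by
    rw [hx, hy]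
    simp only [dot3, Pi.smul_apply, Pi.add_apply, Pi.sub_apply, smul_eq_mul]
    linear_combination (x0 0 * x0 0 + x0 1 * x0 1 + x0 2 * x0 2
      + (y0 0 * y0 0 + y0 1 * y0 1 + y0 2 * y0 2)) * hcs
  have hW : ρ ^ 2 + ((x0 ⬝ᵥ x0) * (y0 ⬝ᵥ y0) - (x0 ⬝ᵥ y0) ^ 2) = 1 / 4 := by
    rw [← cross_sq, ← hcr, hρ2]; exact hB
  have hu0 : a ⬝ᵥ a + x0 ⬝ᵥ x0 + y0 ⬝ᵥ y0 = 1 := by linarith
  have hc := cross_sq a x0
  rw [ha0] at hc
  have hsum : (a ⨯₃ x0) ⬝ᵥ (a ⨯₃ x0) + (1 / 2 - x0 ⬝ᵥ x0) ^ 2 + (x0 ⬝ᵥ y0) ^ 2 = 0 := by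
    rw [hc]
    linear_combination (x0 ⬝ᵥ x0) * hu0 - hW
  have hc0 : (a ⨯₃ x0) ⬝ᵥ (a ⨯₃ x0) = 0 := by
    nlinarith [dot_nn (a ⨯₃ x0), sq_nonneg (1 / 2 - x0 ⬝ᵥ x0), sq_nonneg (x0 ⬝ᵥ y0)]
  have hX : x0 ⬝ᵥ x0 = 1 / 2 := by
    have : (1 / 2 - x0 ⬝ᵥ x0) ^ 2 = 0 := by
      nlinarith [dot_nn (a ⨯₃ x0), sq_nonneg (1 / 2 - x0 ⬝ᵥ x0), sq_nonneg (x0 ⬝ᵥ y0)]
    have := pow_eq_zero_iff (two_ne_zero) |>.1 this
    linarith
  have hz := dot_zero hc0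
  rw [hc0, hX] at hc
  -- `p`, `s = |p|`
  have h2 : √2 ^ 2 = (2 : ℝ) := Real.sq_sqrt (by norm_num)
  have h2p : 0 < √(2 : ℝ) := Real.sqrt_pos.2 (by norm_num)
  have hpp : (√2 • a) ⬝ᵥ (√2 • a) = 2 * (a ⬝ᵥ a) := by
    rw [smul_dotProduct, dotProduct_smul, smul_eq_mul, smul_eq_mul]
    linear_combination (a ⬝ᵥ a) * h2
  set s := √((√2 • a) ⬝ᵥ (√2 • a)) with hs
  have hs2 : s ^ 2 = 2 * (a ⬝ᵥ a) := by
    rw [hs, Real.sq_sqrt (by rw [hpp]; positivity), hpp]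
  have hs0 : 0 < s := by
    rw [hs, hpp]; exact Real.sqrt_pos.2 (by positivity)
  have hρs : s = 2 * ρ := by
    have : s ^ 2 = (2 * ρ) ^ 2 := by rw [hs2]; linear_combination (-4 : ℝ) * hc
    exact (pow_left_inj₀ hs0.le (by positivity) two_ne_zero).1 this
  have hz0 := congrFun hz 0
  have hz1 := congrFun hz 1
  have hz2 := congrFun hz 2
  simp only [cr0, cr1, cr2, Pi.zero_apply] at hz0 hz1 hz2
  have hxa : (a ⬝ᵥ a) • x0 = ρ • a := by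
    rw [← ha0]
    apply ext3' <;> simp only [Pi.smul_apply, smul_eq_mul, dot3]
    · linear_combination (a 2) * hz1 - a 1 * hz2
    · linear_combination (-a 2) * hz0 + a 0 * hz2
    · linear_combination (a 1) * hz0 - a 0 * hz1
  have hsx : s • x0 = a := by
    have e : ρ • (s • x0) = ρ • a := by
      rw [← hxa, smul_smul]
      congr 1
      have : s * s = 2 * (a ⬝ᵥ a) := by rw [← hs2]; ring
      nlinarith
    exact smul_right_injective _ hρ0.ne' e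
  have hx0a : (√2 * s)⁻¹ • (√2 • a) = x0 := by
    rw [← hsx, smul_smul, smul_smul]
    have : (√2 * s)⁻¹ * (√2 * s) = 1 := inv_mul_cancel₀ (by positivity)
    rw [mul_assoc, this, one_smul]
  have hy0a : (√2 * s)⁻¹ • (((2 : ℝ) • x ⨯₃ y) ⨯₃ (√2 • a)) = y0 := by
    have e : ((2 : ℝ) • x ⨯₃ y) ⨯₃ (√2 • a) = (√2 * s) • y0 := by
      have hX' := hX
      have hb' : x0 ⬝ᵥ y0 = 0 := by
        have : s * (x0 ⬝ᵥ y0) = 0 := by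
          rw [← hsx, smul_dotProduct, smul_eq_mul] at hb0; exact hb0
        exact (mul_eq_zero.1 this).resolve_left hs0.ne'
      rw [dot3] at hX' hb'
      rw [hcr, ← hsx]
      apply ext3' <;> simp only [cr0, cr1, cr2, Pi.smul_apply, smul_eq_mul]
      · linear_combination (2 * √2 * s * y0 0) * hX' - (2 * √2 * s * x0 0) * hb'
      · linear_combination (2 * √2 * s * y0 1) * hX' - (2 * √2 * s * x0 1) * hb'
      · linear_combination (2 * √2 * s * y0 2) * hX' - (2 * √2 * s * x0 2) * hb'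
    rw [e, smul_smul, inv_mul_cancel₀ (by positivity), one_smul]
  refine ⟨√2 • a, (2 : ℝ) • x ⨯₃ y, ct, st, hcs, rfl, rfl, ?_, ?_, ?_, ?_⟩
  · rw [hcr, ← hsx]
    simp only [dot3, Pi.smul_apply, smul_eq_mul, cr0, cr1, cr2]
    ring
  · rw [hpp, hcr, smul_dotProduct, dotProduct_smul, smul_eq_mul, smul_eq_mul, cross_sq, hX]
    have hb' : x0 ⬝ᵥ y0 = 0 := by
      have : s * (x0 ⬝ᵥ y0) = 0 := by
        rw [← hsx, smul_dotProduct, smul_eq_mul] at hb0; exact hb0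
      exact (mul_eq_zero.1 this).resolve_left hs0.ne'
    rw [hb']
    linear_combination 2 * hu0 - 2 * hX
  · rw [← hs, hx0a, hy0a]; exact hx
  · rw [← hs, hx0a, hy0a]; exact hy

/-- wall B, `a = 0` -/
theorem wallB_normal0 {x y : Fin 3 → ℝ} (hu : x ⬝ᵥ x + y ⬝ᵥ y = 1)
    (hB : (x ⨯₃ y) ⬝ᵥ (x ⨯₃ y) = 1 / 4) : x ⬝ᵥ x = 1 / 2 ∧ y ⬝ᵥ y = 1 / 2 ∧ x ⬝ᵥ y = 0 := by
  rw [cross_sq] at hB
  have e : (x ⬝ᵥ x - y ⬝ᵥ y) ^ 2 + 4 * (x ⬝ᵥ y) ^ 2 = 0 := by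
    linear_combination (x ⬝ᵥ x + y ⬝ᵥ y + 1) * hu - 4 * hB
  have h1 : (x ⬝ᵥ x - y ⬝ᵥ y) ^ 2 = 0 := by
    nlinarith [sq_nonneg (x ⬝ᵥ x - y ⬝ᵥ y), sq_nonneg (x ⬝ᵥ y)]
  have h2 : (x ⬝ᵥ y) ^ 2 = 0 := by
    nlinarith [sq_nonneg (x ⬝ᵥ x - y ⬝ᵥ y), sq_nonneg (x ⬝ᵥ y)]
  have h1' := pow_eq_zero_iff (two_ne_zero) |>.1 h1
  have h2' := pow_eq_zero_iff (two_ne_zero) |>.1 h2
  exact ⟨by linarith, by linarith, h2'⟩

namespace GE6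

/-- the flags over wall B, cleared of `√2` -/
theorem core {p q a' x' y' : Fin 3 → ℝ} {P Q : ℝ} (hP : P ^ 2 = p ⬝ᵥ p) (hQ : Q ^ 2 = q ⬝ᵥ q)
    (hP0 : 0 < P) (hQ0 : 0 < Q) (hpq : p ⬝ᵥ q = 0) (hu : P ^ 2 + Q ^ 2 = 1)
    (hC2 : P • p ⨯₃ x' = a' ⨯₃ p) (hC3 : P • p ⨯₃ y' = a' ⨯₃ (q ⨯₃ p))
    (hC4 : p ⬝ᵥ y' = (q ⨯₃ p) ⬝ᵥ x') (ho : P * (p ⬝ᵥ a') + p ⬝ᵥ x' + (q ⨯₃ p) ⬝ᵥ y' = 0) :
    ∃ t1 t2 : ℝ, a' = t1 • p - (t2 / Q) • q ⨯₃ p ∧ x' = -(t1 / P) • p + (t2 / (P * Q)) • q ⨯₃ p ∧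
      y' = (t1 / P) • q ⨯₃ p + (t2 * Q / P) • p ∧
      a' ⬝ᵥ a' + x' ⬝ᵥ x' + y' ⬝ᵥ y' = 2 * (t1 ^ 2 + t2 ^ 2) := by
  have hp : p ≠ 0 := by
    rintro rfl
    rw [zero_dotProduct] at hP
    exact hP0.ne' (pow_eq_zero_iff (two_ne_zero) |>.1 hP)
  have hq : q ≠ 0 := by
    rintro rfl
    rw [zero_dotProduct] at hQ
    exact hQ0.ne' (pow_eq_zero_iff (two_ne_zero) |>.1 hQ)
  have b0 := congrFun hC2 0
  have b1 := congrFun hC2 1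
  have b2 := congrFun hC2 2
  have c0 := congrFun hC3 0
  have c1 := congrFun hC3 1
  have c2 := congrFun hC3 2
  simp only [Pi.smul_apply, smul_eq_mul, cr0, cr1, cr2] at b0 b1 b2 c0 c1 c2
  -- C2
  have hxq : P * (x' ⬝ᵥ q) = -(a' ⬝ᵥ q) := by
    have : (p ⬝ᵥ p) * (P * (x' ⬝ᵥ q) + a' ⬝ᵥ q) - (p ⬝ᵥ q) * (P * (x' ⬝ᵥ p) + a' ⬝ᵥ p) = 0 := by
      simp only [dot3]
      linear_combination (p 1 * q 2 - p 2 * q 1) * b0 + (p 2 * q 0 - p 0 * q 2) * b1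
        + (p 0 * q 1 - p 1 * q 0) * b2
    rw [hpq, ← hP, zero_mul, sub_zero] at this
    have := (mul_eq_zero.1 this).resolve_left (by positivity)
    linarith
  have hxm : P * (x' ⬝ᵥ (q ⨯₃ p)) = -(a' ⬝ᵥ (q ⨯₃ p)) := by
    simp only [dot3, cr0, cr1, cr2]
    linear_combination q 0 * b0 + q 1 * b1 + q 2 * b2
  -- C3
  have haq : a' ⬝ᵥ q = 0 := by
    have : (p ⬝ᵥ p) * (a' ⬝ᵥ q) - (p ⬝ᵥ q) * (a' ⬝ᵥ p) = 0 := by
      simp only [dot3]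
      linear_combination p 0 * c0 + p 1 * c1 + p 2 * c2
    rw [hpq, ← hP, zero_mul, sub_zero] at this
    exact (mul_eq_zero.1 this).resolve_left (by positivity)
  have hyq : y' ⬝ᵥ q = 0 := by
    have : P * ((p ⬝ᵥ p) * (y' ⬝ᵥ q) - (p ⬝ᵥ q) * (y' ⬝ᵥ p)) = 0 := by
      simp only [dot3]
      linear_combination (p 1 * q 2 - p 2 * q 1) * c0 + (p 2 * q 0 - p 0 * q 2) * c1
        + (p 0 * q 1 - p 1 * q 0) * c2
    rw [hpq, ← hP, zero_mul, sub_zero] at this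
    have := (mul_eq_zero.1 this).resolve_left (by positivity)
    exact (mul_eq_zero.1 this).resolve_left (by positivity)
  have hym : P * (y' ⬝ᵥ (q ⨯₃ p)) = Q ^ 2 * (a' ⬝ᵥ p) := by
    have : P * (y' ⬝ᵥ (q ⨯₃ p)) = (q ⬝ᵥ q) * (a' ⬝ᵥ p) - (p ⬝ᵥ q) * (a' ⬝ᵥ q) := by
      simp only [dot3, cr0, cr1, cr2]
      linear_combination q 0 * c0 + q 1 * c1 + q 2 * c2
    rw [this, hpq, hQ]; ring
  have hyp : y' ⬝ᵥ p = x' ⬝ᵥ (q ⨯₃ p) := by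
    rw [dotProduct_comm, hC4, dotProduct_comm]
  have ho' : P * (a' ⬝ᵥ p) + x' ⬝ᵥ p + y' ⬝ᵥ (q ⨯₃ p) = 0 := by
    rw [dotProduct_comm a', dotProduct_comm x', dotProduct_comm y']; exact ho
  have hxq0 : x' ⬝ᵥ q = 0 := by
    rw [haq, neg_zero] at hxq
    exact (mul_eq_zero.1 hxq).resolve_left hP0.ne'
  have hmp : (q ⨯₃ p) ⬝ᵥ p = 0 := by simp only [dot3, cr0, cr1, cr2]; ring
  have hmq : (q ⨯₃ p) ⬝ᵥ q = 0 := by simp only [dot3, cr0, cr1, cr2]; ring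
  have hmm : (q ⨯₃ p) ⬝ᵥ (q ⨯₃ p) = P ^ 2 * Q ^ 2 := by
    rw [cross_sq, dotProduct_comm q p, hpq, hP, hQ]; ring
  have hpm : p ⬝ᵥ (q ⨯₃ p) = 0 := by rw [dotProduct_comm]; exact hmp
  have hpm' : (q ⨯₃ p) = - (p ⨯₃ q) := (cross_anticomm p q).symm
  have hext : ∀ v w : Fin 3 → ℝ, v ⬝ᵥ p = w ⬝ᵥ p → v ⬝ᵥ q = w ⬝ᵥ q →
      v ⬝ᵥ (q ⨯₃ p) = w ⬝ᵥ (q ⨯₃ p) → v = w := by
    intro v w h1 h2 h3
    apply ext_dot hpq hp hq h1 h2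
    rw [hpm', dotProduct_neg, dotProduct_neg] at h3
    linarith
  have hxp : Q ^ 2 * (x' ⬝ᵥ p) = -(y' ⬝ᵥ (q ⨯₃ p)) := by
    linear_combination Q ^ 2 * ho' + P * hym - (y' ⬝ᵥ (q ⨯₃ p)) * hu
  obtain ⟨t1, ht1⟩ : ∃ t, P * Q ^ 2 * t = y' ⬝ᵥ (q ⨯₃ p) :=
    ⟨(y' ⬝ᵥ (q ⨯₃ p)) / (P * Q ^ 2), mul_div_cancel₀ _ (by positivity)⟩
  obtain ⟨t2, ht2⟩ : ∃ t, P * Q * t = x' ⬝ᵥ (q ⨯₃ p) :=
    ⟨(x' ⬝ᵥ (q ⨯₃ p)) / (P * Q), mul_div_cancel₀ _ (by positivity)⟩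
  rw [← ht1] at hym hxp
  rw [← ht2] at hxm hyp
  have hap : a' ⬝ᵥ p = t1 * P ^ 2 := by
    have : Q ^ 2 * (a' ⬝ᵥ p - t1 * P ^ 2) = 0 := by linear_combination -hym
    have := (mul_eq_zero.1 this).resolve_left (by positivity)
    linarith
  have hxp' : x' ⬝ᵥ p = -(t1 * P) := by
    have : Q ^ 2 * (x' ⬝ᵥ p + t1 * P) = 0 := by linear_combination hxp
    have := (mul_eq_zero.1 this).resolve_left (by positivity)
    linarith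
  have ea : a' = t1 • p - (t2 / Q) • q ⨯₃ p := by
    apply hext
    · rw [sub_dotProduct, smul_dotProduct, smul_dotProduct, smul_eq_mul, smul_eq_mul, hmp, ← hP,
        hap]
      ring
    · rw [sub_dotProduct, smul_dotProduct, smul_dotProduct, smul_eq_mul, smul_eq_mul, hmq, hpq, haq]
      ring
    · rw [sub_dotProduct, smul_dotProduct, smul_dotProduct, smul_eq_mul, smul_eq_mul, hmm, hpm]
      field_simp
      linear_combination hxm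
  have ex : x' = -(t1 / P) • p + (t2 / (P * Q)) • q ⨯₃ p := by
    apply hext
    · rw [add_dotProduct, smul_dotProduct, smul_dotProduct, smul_eq_mul, smul_eq_mul, hmp, ← hP,
        hxp']
      field_simp
      ring
    · rw [add_dotProduct, smul_dotProduct, smul_dotProduct, smul_eq_mul, smul_eq_mul, hmq, hpq, hxq0]
      ring
    · rw [add_dotProduct, smul_dotProduct, smul_dotProduct, smul_eq_mul, smul_eq_mul, hmm, hpm,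
        ← ht2]
      field_simp
      ring
  have ey : y' = (t1 / P) • q ⨯₃ p + (t2 * Q / P) • p := by
    apply hext
    · rw [add_dotProduct, smul_dotProduct, smul_dotProduct, smul_eq_mul, smul_eq_mul, hmp, ← hP, hyp]
      field_simp
      ring
    · rw [add_dotProduct, smul_dotProduct, smul_dotProduct, smul_eq_mul, smul_eq_mul, hmq, hpq, hyq]
      ring
    · rw [add_dotProduct, smul_dotProduct, smul_dotProduct, smul_eq_mul, smul_eq_mul, hmm, hpm,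
        ← ht1]
      field_simp
      ring
  refine ⟨t1, t2, ea, ex, ey, ?_⟩
  have e1 : a' ⬝ᵥ a' = (t1 ^ 2 + t2 ^ 2) * P ^ 2 := by
    rw [ea]
    simp only [sub_dotProduct, dotProduct_sub, smul_dotProduct, dotProduct_smul, smul_eq_mul, hmm,
      hpm, hmp, ← hP]
    field_simp
    ring
  have e2 : x' ⬝ᵥ x' = t1 ^ 2 + t2 ^ 2 := by
    rw [ex]
    simp only [add_dotProduct, dotProduct_add, smul_dotProduct, dotProduct_smul, smul_eq_mul, hmm,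
      hpm, hmp, ← hP]
    field_simp
    ring
  have e3 : y' ⬝ᵥ y' = (t1 ^ 2 + t2 ^ 2) * Q ^ 2 := by
    rw [ey]
    simp only [add_dotProduct, dotProduct_add, smul_dotProduct, dotProduct_smul, smul_eq_mul, hmm,
      hpm, hmp, ← hP]
    field_simp
    ring
  rw [e1, e2, e3]
  linear_combination (t1 ^ 2 + t2 ^ 2) * hu

end GE6

/-- flags over `u_B(p, q) = (p, p / |p|, q × p / |p|) / √2`, `p, q ≠ 0` -/
theorem wallB_flag {p q a' x' y' : Fin 3 → ℝ} (hpq : p ⬝ᵥ q = 0) (hu : p ⬝ᵥ p + q ⬝ᵥ q = 1)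
    (hp : p ≠ 0) (hq : q ≠ 0)
    (hC : Comm ((√2)⁻¹ • p) ((√2 * √(p ⬝ᵥ p))⁻¹ • p) ((√2 * √(p ⬝ᵥ p))⁻¹ • q ⨯₃ p) a' x' y')
    (hb : a' ⬝ᵥ a' + x' ⬝ᵥ x' + y' ⬝ᵥ y' = 1)
    (hub : ((√2)⁻¹ • p) ⬝ᵥ a' + ((√2 * √(p ⬝ᵥ p))⁻¹ • p) ⬝ᵥ x'
      + ((√2 * √(p ⬝ᵥ p))⁻¹ • q ⨯₃ p) ⬝ᵥ y' = 0) :
    ∃ s1 s2 : ℝ, s1 ^ 2 + s2 ^ 2 = 1 ∧
      a' = s1 • ((√2)⁻¹ • p) - s2 • ((√2 * √(q ⬝ᵥ q))⁻¹ • q ⨯₃ p) ∧
      x' = - s1 • ((√2 * √(p ⬝ᵥ p))⁻¹ • p)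
        + s2 • ((√2 * √(p ⬝ᵥ p) * √(q ⬝ᵥ q))⁻¹ • q ⨯₃ p) ∧
      y' = s1 • ((√2 * √(p ⬝ᵥ p))⁻¹ • q ⨯₃ p)
        + s2 • ((√(q ⬝ᵥ q) / (√2 * √(p ⬝ᵥ p))) • p) := by
  have hPp := dot_pos hp
  have hQp := dot_pos hq
  have hP : √(p ⬝ᵥ p) ^ 2 = p ⬝ᵥ p := Real.sq_sqrt hPp.le
  have hQ : √(q ⬝ᵥ q) ^ 2 = q ⬝ᵥ q := Real.sq_sqrt hQp.le
  have hP0 : 0 < √(p ⬝ᵥ p) := Real.sqrt_pos.2 hPp
  have hQ0 : 0 < √(q ⬝ᵥ q) := Real.sqrt_pos.2 hQp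
  set P := √(p ⬝ᵥ p)
  set Q := √(q ⬝ᵥ q)
  have h2 : √2 ^ 2 = (2 : ℝ) := Real.sq_sqrt (by norm_num)
  have h2p : 0 < √(2 : ℝ) := Real.sqrt_pos.2 (by norm_num)
  set r := √(2 : ℝ)
  have hc : r⁻¹ = P * (r * P)⁻¹ := by field_simp
  have hd : (r * P) * (r * P)⁻¹ = 1 := mul_inv_cancel₀ (by positivity)
  set d := (r * P)⁻¹
  have hd0 : d ≠ 0 := by rintro h; rw [h, mul_zero] at hd; exact zero_ne_one hd
  have hC2 : P • p ⨯₃ x' = a' ⨯₃ p := by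
    have b0 := congrFun hC.C2 0
    have b1 := congrFun hC.C2 1
    have b2 := congrFun hC.C2 2
    rw [hc] at b0 b1 b2
    simp only [Pi.smul_apply, smul_eq_mul, cr0, cr1, cr2] at b0 b1 b2
    apply ext3' <;> simp only [Pi.smul_apply, smul_eq_mul, cr0, cr1, cr2] <;>
      apply mul_left_cancel₀ hd0
    · linear_combination b0
    · linear_combination b1
    · linear_combination b2
  have hC3 : P • p ⨯₃ y' = a' ⨯₃ (q ⨯₃ p) := by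
    have b0 := congrFun hC.C3 0
    have b1 := congrFun hC.C3 1
    have b2 := congrFun hC.C3 2
    rw [hc] at b0 b1 b2
    simp only [Pi.smul_apply, smul_eq_mul, cr0, cr1, cr2] at b0 b1 b2
    apply ext3' <;> simp only [Pi.smul_apply, smul_eq_mul, cr0, cr1, cr2] <;>
      apply mul_left_cancel₀ hd0
    · linear_combination b0
    · linear_combination b1
    · linear_combination b2
  have hC4 : p ⬝ᵥ y' = (q ⨯₃ p) ⬝ᵥ x' := by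
    have := hC.C4
    rw [smul_dotProduct, smul_dotProduct, smul_eq_mul, smul_eq_mul] at this
    exact mul_left_cancel₀ hd0 this
  have ho : P * (p ⬝ᵥ a') + p ⬝ᵥ x' + (q ⨯₃ p) ⬝ᵥ y' = 0 := by
    rw [hc, smul_dotProduct, smul_dotProduct, smul_dotProduct, smul_eq_mul, smul_eq_mul,
      smul_eq_mul] at hub
    apply mul_left_cancel₀ hd0
    linear_combination hub
  obtain ⟨t1, t2, ea, ex, ey, hn⟩ := core hP hQ hP0 hQ0 hpq (by rw [hP, hQ, hu]) hC2 hC3 hC4 ho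
  refine ⟨r * t1, r * t2, ?_, ?_, ?_, ?_⟩
  · rw [hb] at hn
    linear_combination (t1 ^ 2 + t2 ^ 2) * h2 - hn
  · rw [ea]
    simp only [smul_smul]
    congr 2 <;> field_simp
  · rw [ex]
    simp only [smul_smul]
    congr 2
    · field_simp
      linear_combination t1 * hd
    · field_simp
  · rw [ey]
    simp only [smul_smul]
    congr 2
    · field_simp
      linear_combination (-t1) * hd
    · field_simp

/-- flags over `(n, n, 0) / √2` -/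
theorem wallB_flag_q0 {n a' x' y' : Fin 3 → ℝ} (hn : n ⬝ᵥ n = 1)
    (hC : Comm ((√2)⁻¹ • n) ((√2)⁻¹ • n) 0 a' x' y')
    (hb : a' ⬝ᵥ a' + x' ⬝ᵥ x' + y' ⬝ᵥ y' = 1) (hub : n ⬝ᵥ a' + n ⬝ᵥ x' = 0) :
    ∃ mm : Fin 3 → ℝ, mm ⬝ᵥ mm = 1 ∧ a' = (√2)⁻¹ • mm ∧ x' = -((√2)⁻¹ • mm) ∧ y' = 0 := by
  have h2 : √2 ^ 2 = (2 : ℝ) := Real.sq_sqrt (by norm_num)
  have h2p : 0 < √(2 : ℝ) := Real.sqrt_pos.2 (by norm_num)
  set r := √(2 : ℝ)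
  have hd : r * r⁻¹ = 1 := mul_inv_cancel₀ (by positivity)
  have hd0 : r⁻¹ ≠ 0 := by rintro h; rw [h, mul_zero] at hd; exact zero_ne_one hd
  have b0 := congrFun hC.C2 0
  have b1 := congrFun hC.C2 1
  have b2 := congrFun hC.C2 2
  have c0 := congrFun hC.C3 0
  have c1 := congrFun hC.C3 1
  have c2 := congrFun hC.C3 2
  simp only [Pi.smul_apply, smul_eq_mul, cr0, cr1, cr2, Pi.zero_apply, mul_zero, sub_zero]
    at b0 b1 b2 c0 c1 c2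
  have par : ∀ z : Fin 3 → ℝ, n 1 * z 2 - n 2 * z 1 = 0 → n 2 * z 0 - n 0 * z 2 = 0 →
      n 0 * z 1 - n 1 * z 0 = 0 → z = (n ⬝ᵥ z) • n := by
    intro z c0 c1 c2
    rw [dot3] at hn
    apply ext3' <;> simp only [Pi.smul_apply, smul_eq_mul, dot3]
    · linear_combination (n 2) * c1 - n 1 * c2 - z 0 * hn
    · linear_combination (-n 2) * c0 + n 0 * c2 - z 1 * hn
    · linear_combination (n 1) * c0 - n 0 * c1 - z 2 * hn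
  have hy : y' = 0 := by
    have h4 : n ⬝ᵥ y' = 0 := by
      have := hC.C4
      rw [smul_dotProduct, zero_dotProduct, smul_eq_mul] at this
      exact (mul_eq_zero.1 this).resolve_left hd0
    have := par y' (mul_left_cancel₀ hd0 (by linear_combination c0))
      (mul_left_cancel₀ hd0 (by linear_combination c1))
      (mul_left_cancel₀ hd0 (by linear_combination c2))
    rw [h4, zero_smul] at this
    exact this
  have hxa : a' + x' = 0 := by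
    have := par (a' + x') (mul_left_cancel₀ hd0 (by simp only [Pi.add_apply]; linear_combination b0))
      (mul_left_cancel₀ hd0 (by simp only [Pi.add_apply]; linear_combination b1))
      (mul_left_cancel₀ hd0 (by simp only [Pi.add_apply]; linear_combination b2))
    rw [dotProduct_add, hub, zero_smul] at this
    exact this
  have hx : x' = -a' := by
    rw [add_comm] at hxa
    exact eq_neg_of_add_eq_zero_left hxa
  refine ⟨r • a', ?_, ?_, ?_, hy⟩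
  · rw [hy, hx, zero_dotProduct, neg_dotProduct, dotProduct_neg] at hb
    rw [smul_dotProduct, dotProduct_smul, smul_eq_mul, smul_eq_mul]
    linear_combination hb + (a' ⬝ᵥ a') * h2
  · rw [smul_smul, inv_mul_cancel₀ h2p.ne', one_smul]
  · rw [smul_smul, inv_mul_cancel₀ h2p.ne', one_smul, hx]

/-- flags over `(0, f1, f2) / √2` -/
theorem wallB_flag_p0 {f1 f2 a' x' y' : Fin 3 → ℝ} (h1 : f1 ⬝ᵥ f1 = 1) (h2 : f2 ⬝ᵥ f2 = 1)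
    (h12 : f1 ⬝ᵥ f2 = 0) (hC : Comm 0 ((√2)⁻¹ • f1) ((√2)⁻¹ • f2) a' x' y')
    (hb : a' ⬝ᵥ a' + x' ⬝ᵥ x' + y' ⬝ᵥ y' = 1) (hub : f1 ⬝ᵥ x' + f2 ⬝ᵥ y' = 0) :
    ∃ s1 s2 : ℝ, s1 ^ 2 + s2 ^ 2 = 1 ∧ a' = 0 ∧
      x' = (√2)⁻¹ • (s1 • f1 + s2 • f2) ∧ y' = (√2)⁻¹ • (s2 • f1 - s1 • f2) := by
  have hr2 : √2 ^ 2 = (2 : ℝ) := Real.sq_sqrt (by norm_num)
  have h2p : 0 < √(2 : ℝ) := Real.sqrt_pos.2 (by norm_num)
  set r := √(2 : ℝ)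
  have hd : r * r⁻¹ = 1 := mul_inv_cancel₀ (by positivity)
  have hd0 : r⁻¹ ≠ 0 := by rintro h; rw [h, mul_zero] at hd; exact zero_ne_one hd
  have hn1 : f1 ≠ 0 := by rintro rfl; rw [zero_dotProduct] at h1; exact zero_ne_one h1
  have hn2 : f2 ≠ 0 := by rintro rfl; rw [zero_dotProduct] at h2; exact zero_ne_one h2
  have a0 := congrFun hC.C1 0
  have a1 := congrFun hC.C1 1
  have a2 := congrFun hC.C1 2
  have b0 := congrFun hC.C2 0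
  have b1 := congrFun hC.C2 1
  have b2 := congrFun hC.C2 2
  have c0 := congrFun hC.C3 0
  have c1 := congrFun hC.C3 1
  have c2 := congrFun hC.C3 2
  simp only [Pi.smul_apply, smul_eq_mul, cr0, cr1, cr2, Pi.zero_apply, Pi.add_apply, zero_mul,
    sub_zero, zero_add] at a0 a1 a2 b0 b1 b2 c0 c1 c2
  replace a0 : f1 1 * x' 2 - f1 2 * x' 1 + (f2 1 * y' 2 - f2 2 * y' 1) = 0 :=
    mul_left_cancel₀ hd0 (by linear_combination a0)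
  replace a1 : f1 2 * x' 0 - f1 0 * x' 2 + (f2 2 * y' 0 - f2 0 * y' 2) = 0 :=
    mul_left_cancel₀ hd0 (by linear_combination a1)
  replace a2 : f1 0 * x' 1 - f1 1 * x' 0 + (f2 0 * y' 1 - f2 1 * y' 0) = 0 :=
    mul_left_cancel₀ hd0 (by linear_combination a2)
  replace b0 : a' 1 * f1 2 - a' 2 * f1 1 = 0 := mul_left_cancel₀ hd0 (by linear_combination -b0)
  replace b1 : a' 2 * f1 0 - a' 0 * f1 2 = 0 := mul_left_cancel₀ hd0 (by linear_combination -b1)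
  replace b2 : a' 0 * f1 1 - a' 1 * f1 0 = 0 := mul_left_cancel₀ hd0 (by linear_combination -b2)
  replace c0 : a' 1 * f2 2 - a' 2 * f2 1 = 0 := mul_left_cancel₀ hd0 (by linear_combination -c0)
  replace c1 : a' 2 * f2 0 - a' 0 * f2 2 = 0 := mul_left_cancel₀ hd0 (by linear_combination -c1)
  replace c2 : a' 0 * f2 1 - a' 1 * f2 0 = 0 := mul_left_cancel₀ hd0 (by linear_combination -c2)
  have h4 : f1 ⬝ᵥ y' = f2 ⬝ᵥ x' := by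
    have := hC.C4
    rw [smul_dotProduct, smul_dotProduct, smul_eq_mul, smul_eq_mul] at this
    exact mul_left_cancel₀ hd0 this
  have h21 : f2 ⬝ᵥ f1 = 0 := by rw [dotProduct_comm]; exact h12
  have hm1 : f1 ⬝ᵥ (f1 ⨯₃ f2) = 0 := by simp only [dot3, cr0, cr1, cr2]; ring
  have hm2 : f2 ⬝ᵥ (f1 ⨯₃ f2) = 0 := by simp only [dot3, cr0, cr1, cr2]; ring
  have hext := fun v w : Fin 3 → ℝ => ext_dot (v := v) (w := w) h12 hn1 hn2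
  have ha : a' = 0 := by
    have e2 : a' ⬝ᵥ f2 = 0 := by
      have : (f1 ⬝ᵥ f1) * (a' ⬝ᵥ f2) - (f1 ⬝ᵥ f2) * (a' ⬝ᵥ f1) = 0 := by
        simp only [dot3]
        linear_combination (-(f1 1 * f2 2 - f1 2 * f2 1)) * b0 - (f1 2 * f2 0 - f1 0 * f2 2) * b1
          - (f1 0 * f2 1 - f1 1 * f2 0) * b2
      rw [h1, h12] at this; linarith
    have e1 : a' ⬝ᵥ f1 = 0 := by
      have : (f2 ⬝ᵥ f2) * (a' ⬝ᵥ f1) - (f1 ⬝ᵥ f2) * (a' ⬝ᵥ f2) = 0 := by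
        simp only [dot3]
        linear_combination (f1 1 * f2 2 - f1 2 * f2 1) * c0 + (f1 2 * f2 0 - f1 0 * f2 2) * c1
          + (f1 0 * f2 1 - f1 1 * f2 0) * c2
      rw [h2, h12] at this; linarith
    have e3 : a' ⬝ᵥ (f1 ⨯₃ f2) = 0 := by
      simp only [dot3, cr0, cr1, cr2]
      linear_combination f2 0 * b0 + f2 1 * b1 + f2 2 * b2
    apply hext <;> simp [e1, e2, e3]
  have hxm : x' ⬝ᵥ (f1 ⨯₃ f2) = 0 := by
    simp only [dot3, cr0, cr1, cr2]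
    linear_combination (-f2 0) * a0 - f2 1 * a1 - f2 2 * a2
  have hym : y' ⬝ᵥ (f1 ⨯₃ f2) = 0 := by
    simp only [dot3, cr0, cr1, cr2]
    linear_combination (f1 0) * a0 + f1 1 * a1 + f1 2 * a2
  have hub' : y' ⬝ᵥ f2 = -(x' ⬝ᵥ f1) := by
    rw [dotProduct_comm y', dotProduct_comm x']; linarith
  have h4' : y' ⬝ᵥ f1 = x' ⬝ᵥ f2 := by
    rw [dotProduct_comm y', dotProduct_comm x']; exact h4
  have ex : x' = (x' ⬝ᵥ f1) • f1 + (x' ⬝ᵥ f2) • f2 := by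
    apply hext
    · simp only [add_dotProduct, smul_dotProduct, smul_eq_mul, h1, h21]; ring
    · simp only [add_dotProduct, smul_dotProduct, smul_eq_mul, h2, h12]; ring
    · simp only [add_dotProduct, smul_dotProduct, smul_eq_mul, hm1, hm2, hxm]; ring
  have ey : y' = (x' ⬝ᵥ f2) • f1 - (x' ⬝ᵥ f1) • f2 := by
    apply hext
    · simp only [sub_dotProduct, smul_dotProduct, smul_eq_mul, h1, h21, h4']; ring
    · simp only [sub_dotProduct, smul_dotProduct, smul_eq_mul, h2, h12, hub']; ring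
    · simp only [sub_dotProduct, smul_dotProduct, smul_eq_mul, hm1, hm2, hym]; ring
  generalize x' ⬝ᵥ f1 = u1 at ex ey
  generalize x' ⬝ᵥ f2 = u2 at ex ey
  refine ⟨r * u1, r * u2, ?_, ha, ?_, ?_⟩
  · rw [ha, ex, ey] at hb
    simp only [sub_dotProduct, add_dotProduct, dotProduct_sub, dotProduct_add, smul_dotProduct,
      dotProduct_smul, smul_eq_mul, h1, h2, h12, h21, zero_dotProduct] at hb
    linear_combination (u1 ^ 2 + u2 ^ 2) * hr2 + hb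
  · rw [ex, ← smul_smul, ← smul_smul, ← smul_add, smul_smul, mul_comm, hd, one_smul]
  · rw [ey, ← smul_smul, ← smul_smul, ← smul_sub, smul_smul, mul_comm, hd, one_smul]

end Pool.Agent.FL.S2
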