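import Pool.Agent.FL.S2Core
import Pool.Agent.FL.GE6

/-!
# MP_f09395_gt, space (2), GE6S: walls, wall flags and the `α` vectors in the official coordinates
-/

noncomputable section

namespace Pool.Agent.FL.S2

open scoped Matrix

/-! ### the rotation `rotH` -/

namespace GE6

theorem ext9 {u v : R9} (h1 : ∀ i, u.1 i = v.1 i) (h2 : ∀ i, u.2.1 i = v.2.1 i)
    (h3 : ∀ i, u.2.2 i = v.2.2 i) : u = v :=
  Prod.ext (funext h1) (Prod.ext (funext h2) (funext h3))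

end GE6

open GE6

theorem dot9_rotH (t : ℝ) (u v : R9) : dot9 (rotH t u) (rotH t v) = dot9 u v := by
  have h := Real.cos_sq_add_sin_sq t
  simp only [dot9, rotH, dot3, Pi.add_apply, Pi.sub_apply, Pi.smul_apply, smul_eq_mul]
  linear_combination (u.2.1 0 * v.2.1 0 + u.2.1 1 * v.2.1 1 + u.2.1 2 * v.2.1 2
    + (u.2.2 0 * v.2.2 0 + u.2.2 1 * v.2.2 1 + u.2.2 2 * v.2.2 2)) * h

theorem br_rotH (t : ℝ) (u v : R9) : br (rotH t u) (rotH t v) = rotH t (br u v) := by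
  have h := Real.cos_sq_add_sin_sq t
  refine Prod.ext ?_ (Prod.ext ?_ ?_) <;> apply ext3' <;>
    simp only [br, rotH, cr0, cr1, cr2, Pi.add_apply, Pi.sub_apply, Pi.smul_apply, smul_eq_mul]
  · linear_combination (u.2.1 1 * v.2.1 2 - u.2.1 2 * v.2.1 1
      + (u.2.2 1 * v.2.2 2 - u.2.2 2 * v.2.2 1)) * h
  · linear_combination (u.2.1 2 * v.2.1 0 - u.2.1 0 * v.2.1 2
      + (u.2.2 2 * v.2.2 0 - u.2.2 0 * v.2.2 2)) * h
  · linear_combination (u.2.1 0 * v.2.1 1 - u.2.1 1 * v.2.1 0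
      + (u.2.2 0 * v.2.2 1 - u.2.2 1 * v.2.2 0)) * h
  all_goals ring

theorem brh_rotH (t : ℝ) (u v : R9) : brh (rotH t u) (rotH t v) = brh u v := by
  have h := Real.cos_sq_add_sin_sq t
  simp only [brh, rotH, dot3, Pi.add_apply, Pi.sub_apply, Pi.smul_apply, smul_eq_mul]
  linear_combination (u.2.1 0 * v.2.2 0 + u.2.1 1 * v.2.2 1 + u.2.1 2 * v.2.2 2
    - (u.2.2 0 * v.2.1 0 + u.2.2 1 * v.2.1 1 + u.2.2 2 * v.2.1 2)) * h

theorem rotH_add (t : ℝ) (u v : R9) : rotH t (u + v) = rotH t u + rotH t v := by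
  apply ext9 <;> intro i <;>
    simp only [rotH, Prod.fst_add, Prod.snd_add, Pi.add_apply, Pi.sub_apply, Pi.smul_apply,
      smul_eq_mul] <;> ring

theorem rotH_smul (t r : ℝ) (u : R9) : rotH t (r • u) = r • rotH t u := by
  apply ext9 <;> intro i <;>
    simp only [rotH, Prod.smul_fst, Prod.smul_snd, Pi.add_apply, Pi.sub_apply, Pi.smul_apply,
      smul_eq_mul] <;> ring

theorem rotH_zero (u : R9) : rotH 0 u = u := by
  apply ext9 <;> intro i <;>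
    simp only [rotH, Real.cos_zero, Real.sin_zero, Pi.add_apply, Pi.sub_apply, Pi.smul_apply,
      smul_eq_mul] <;> ring

theorem rotH_rotH (s t : ℝ) (u : R9) : rotH s (rotH t u) = rotH (s + t) u := by
  apply ext9 <;> intro i <;>
    simp only [rotH, Real.cos_add, Real.sin_add, Pi.add_apply, Pi.sub_apply, Pi.smul_apply,
      smul_eq_mul] <;> ring

theorem rotH_rot (t : ℝ) (u : R9) : rotH t (rot u) = rot (rotH t u) := by
  apply ext9 <;> intro i <;>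
    simp only [rotH, rot, Pi.add_apply, Pi.sub_apply, Pi.smul_apply, Pi.neg_apply,
      smul_eq_mul] <;> ring

theorem psi4_rotH (t : ℝ) (u : R9) : psi4 (rotH t u) = psi4 u := by
  have h := Real.cos_sq_add_sin_sq t
  have h1 : (rotH t u).2.1 ⨯₃ (rotH t u).2.2 = u.2.1 ⨯₃ u.2.2 := by
    apply ext3' <;>
      simp only [rotH, cr0, cr1, cr2, Pi.add_apply, Pi.sub_apply, Pi.smul_apply, smul_eq_mul]
    · linear_combination (u.2.1 1 * u.2.2 2 - u.2.1 2 * u.2.2 1) * h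
    · linear_combination (u.2.1 2 * u.2.2 0 - u.2.1 0 * u.2.2 2) * h
    · linear_combination (u.2.1 0 * u.2.2 1 - u.2.1 1 * u.2.2 0) * h
  have h2 : (rotH t u).1 ⬝ᵥ (rotH t u).2.1
      = Real.cos t * (u.1 ⬝ᵥ u.2.1) - Real.sin t * (u.1 ⬝ᵥ u.2.2) := by
    simp only [rotH, dotProduct_sub, dotProduct_smul, smul_eq_mul]
  have h3 : (rotH t u).1 ⬝ᵥ (rotH t u).2.2
      = Real.sin t * (u.1 ⬝ᵥ u.2.1) + Real.cos t * (u.1 ⬝ᵥ u.2.2) := by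
    simp only [rotH, dotProduct_add, dotProduct_smul, smul_eq_mul]
  unfold psi4
  rw [h1, h2, h3]
  linear_combination ((u.1 ⬝ᵥ u.2.1) ^ 2 + (u.1 ⬝ᵥ u.2.2) ^ 2) * h

theorem rotH_injective (t : ℝ) : Function.Injective (rotH t) := by
  intro u v h
  have := congrArg (rotH (-t)) h
  rwa [rotH_rotH, rotH_rotH, neg_add_cancel, rotH_zero, rotH_zero] at this

theorem rotH_zero' (t : ℝ) : rotH t 0 = 0 := by
  apply ext9 <;> intro i <;> simp [rotH]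

theorem flg_rotH {t : ℝ} {u b : R9} : Flg (rotH t u) (rotH t b) ↔ Flg u b := by
  have h0 : br (rotH t u) (rotH t b) = 0 ↔ br u b = 0 := by
    rw [br_rotH]
    constructor
    · intro h
      rw [← rotH_zero' t] at h
      exact rotH_injective t h
    · intro h
      rw [h, rotH_zero']
  constructor
  · intro h
    exact ⟨by rw [← dot9_rotH t]; exact h.uu, by rw [← dot9_rotH t]; exact h.bb,
      by rw [← dot9_rotH t]; exact h.ub, h0.1 h.br, by rw [← brh_rotH t]; exact h.brh⟩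
  · intro h
    exact ⟨by rw [dot9_rotH t]; exact h.uu, by rw [dot9_rotH t]; exact h.bb,
      by rw [dot9_rotH t]; exact h.ub, h0.2 h.br, by rw [brh_rotH t]; exact h.brh⟩

theorem exists_angle {ct st : ℝ} (h : ct ^ 2 + st ^ 2 = 1) :
    ∃ t : ℝ, Real.cos t = ct ∧ Real.sin t = st := by
  have hn : ‖(⟨ct, st⟩ : ℂ)‖ = 1 := by
    rw [Complex.norm_def, Complex.normSq_mk, ← sq, ← sq, h, Real.sqrt_one]
  have hne : (⟨ct, st⟩ : ℂ) ≠ 0 := by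
    intro h0
    rw [h0, norm_zero] at hn
    exact zero_ne_one hn
  refine ⟨Complex.arg ⟨ct, st⟩, ?_, ?_⟩
  · rw [Complex.cos_arg hne, hn, div_one]
  · rw [Complex.sin_arg, hn, div_one]

/-! ### flags and `Comm` -/

theorem Flg.comm {u b : R9} (h : Flg u b) : Comm u.1 u.2.1 u.2.2 b.1 b.2.1 b.2.2 := by
  have h1 := congrArg Prod.fst h.br
  have h2 := congrArg (fun v : R9 => v.2.1) h.br
  have h3 := congrArg (fun v : R9 => v.2.2) h.br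
  have h4 := h.brh
  simp only [S2.br, Prod.fst_zero, Prod.snd_zero] at h1 h2 h3
  unfold S2.brh at h4
  exact ⟨h1, sub_eq_zero.1 h2, sub_eq_zero.1 h3, by linarith⟩

theorem Comm.flg {u b : R9} (h : Comm u.1 u.2.1 u.2.2 b.1 b.2.1 b.2.2) (hu : dot9 u u = 1)
    (hb : dot9 b b = 1) (hub : dot9 u b = 0) : Flg u b := by
  refine ⟨hu, hb, hub, ?_, ?_⟩
  · refine Prod.ext ?_ (Prod.ext ?_ ?_)
    · exact h.C1
    · exact sub_eq_zero.2 h.C2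
    · exact sub_eq_zero.2 h.C3
  · unfold brh; linarith [h.C4]

/-! ### the walls -/

/-- wall A modulo `H` -/
theorem wallA_exists {u : R9} (hu : dot9 u u = 1) (hA : psi4 u = 0) :
    ∃ (t : ℝ) (z : R6), z ∈ base ∧ z.1 = u.1 ∧ u = rotH t (uA z) := by
  unfold psi4 at hA
  have h0 := dot_nn (u.2.1 ⨯₃ u.2.2)
  have h1 : u.1 ⬝ᵥ u.2.1 = 0 := by
    apply (pow_eq_zero_iff (two_ne_zero)).1
    nlinarith [sq_nonneg (u.1 ⬝ᵥ u.2.1), sq_nonneg (u.1 ⬝ᵥ u.2.2)]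
  have h2 : u.1 ⬝ᵥ u.2.2 = 0 := by
    apply (pow_eq_zero_iff (two_ne_zero)).1
    nlinarith [sq_nonneg (u.1 ⬝ᵥ u.2.1), sq_nonneg (u.1 ⬝ᵥ u.2.2)]
  have h3 : u.2.1 ⨯₃ u.2.2 = 0 := by
    apply dot_zero
    rw [h1, h2] at hA; linarith
  obtain ⟨q, ct, st, hcs, hx, hy, hq, hqq⟩ := wallA_normal h1 h2 h3
  obtain ⟨t, hc, hs⟩ := exists_angle hcs
  refine ⟨t, (u.1, q), ⟨hq, ?_⟩, rfl, ?_⟩
  · show u.1 ⬝ᵥ u.1 + q ⬝ᵥ q = 1
    unfold dot9 at hu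
    rw [hqq]; linarith
  · refine Prod.ext rfl (Prod.ext ?_ ?_)
    · show u.2.1 = Real.cos t • q - Real.sin t • 0
      rw [smul_zero, sub_zero, hc]; exact hx
    · show u.2.2 = Real.sin t • q + Real.cos t • 0
      rw [smul_zero, add_zero, hs]; exact hy

/-- wall B modulo `H`, `a ≠ 0` -/
theorem wallB_exists {u : R9} (hu : dot9 u u = 1) (hB : psi4 u = 1 / 4) (ha : u.1 ≠ 0) :
    ∃ (t : ℝ) (z : R6), z ∈ base ∧ z.1 = Real.sqrt 2 • u.1 ∧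
      z.2 = (2 : ℝ) • u.2.1 ⨯₃ u.2.2 ∧ u = rotH t (uB z) := by
  have hB' : (u.1 ⬝ᵥ u.2.1) ^ 2 + (u.1 ⬝ᵥ u.2.2) ^ 2
      + (u.2.1 ⨯₃ u.2.2) ⬝ᵥ (u.2.1 ⨯₃ u.2.2) = 1 / 4 := by
    unfold psi4 at hB; linarith
  obtain ⟨p, q, ct, st, hcs, hp, hq, hpq, hn, hx, hy⟩ := wallB_normal hu hB' ha
  obtain ⟨t, hc, hs⟩ := exists_angle hcs
  have h2p : 0 < √(2 : ℝ) := Real.sqrt_pos.2 (by norm_num)
  refine ⟨t, (p, q), ⟨hpq, hn⟩, hp, hq, ?_⟩
  refine Prod.ext ?_ (Prod.ext ?_ ?_)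
  · show u.1 = (Real.sqrt 2)⁻¹ • p
    rw [hp, smul_smul, inv_mul_cancel₀ h2p.ne', one_smul]
  · show u.2.1 = Real.cos t • ((Real.sqrt 2)⁻¹ • (Real.sqrt (p ⬝ᵥ p))⁻¹ • p)
      - Real.sin t • ((Real.sqrt 2)⁻¹ • (Real.sqrt (p ⬝ᵥ p))⁻¹ • q ⨯₃ p)
    rw [hc, hs, smul_smul (Real.sqrt 2)⁻¹, smul_smul (Real.sqrt 2)⁻¹, ← mul_inv]
    exact hx
  · show u.2.2 = Real.sin t • ((Real.sqrt 2)⁻¹ • (Real.sqrt (p ⬝ᵥ p))⁻¹ • p)
      + Real.cos t • ((Real.sqrt 2)⁻¹ • (Real.sqrt (p ⬝ᵥ p))⁻¹ • q ⨯₃ p)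
    rw [hc, hs, smul_smul (Real.sqrt 2)⁻¹, smul_smul (Real.sqrt 2)⁻¹, ← mul_inv]
    exact hy

/-- wall B, `a = 0` -/
theorem wallB_exists0 {u : R9} (hu : dot9 u u = 1) (hB : psi4 u = 1 / 4) (ha : u.1 = 0) :
    ∃ f1 f2 : R3, f1 ⬝ᵥ f1 = 1 ∧ f2 ⬝ᵥ f2 = 1 ∧ f1 ⬝ᵥ f2 = 0 ∧
      u = (Real.sqrt 2)⁻¹ • ((0, f1, f2) : R9) := by
  unfold psi4 at hB
  unfold dot9 at hu
  rw [ha, zero_dotProduct, zero_dotProduct] at hB
  rw [ha, zero_dotProduct] at hu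
  obtain ⟨h1, h2, h3⟩ := wallB_normal0 (x := u.2.1) (y := u.2.2) (by linarith) (by linarith)
  have hr2 : √2 ^ 2 = (2 : ℝ) := Real.sq_sqrt (by norm_num)
  have h2p : 0 < √(2 : ℝ) := Real.sqrt_pos.2 (by norm_num)
  refine ⟨√2 • u.2.1, √2 • u.2.2, ?_, ?_, ?_, ?_⟩
  · rw [smul_dotProduct, dotProduct_smul, h1, smul_eq_mul, smul_eq_mul]
    linear_combination (1 / 2 : ℝ) * hr2
  · rw [smul_dotProduct, dotProduct_smul, h2, smul_eq_mul, smul_eq_mul]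
    linear_combination (1 / 2 : ℝ) * hr2
  · rw [smul_dotProduct, dotProduct_smul, h3, smul_zero, smul_zero]
  · refine Prod.ext ?_ (Prod.ext ?_ ?_)
    · show u.1 = (Real.sqrt 2)⁻¹ • (0 : R3)
      rw [ha, smul_zero]
    · show u.2.1 = (Real.sqrt 2)⁻¹ • (√2 • u.2.1)
      rw [smul_smul, inv_mul_cancel₀ h2p.ne', one_smul]
    · show u.2.2 = (Real.sqrt 2)⁻¹ • (√2 • u.2.2)
      rw [smul_smul, inv_mul_cancel₀ h2p.ne', one_smul]

theorem dot9_uA {z : R6} (hz : z ∈ base) : dot9 (uA z) (uA z) = 1 := by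
  have := hz.2
  simp only [dot9, uA, zero_dotProduct]
  linarith

theorem psi4_uA {z : R6} (hz : z ∈ base) : psi4 (uA z) = 0 := by
  have := hz.1
  simp only [psi4, uA, dotProduct_zero, this]
  simp

namespace GE6

theorem n3_pos {p : R3} (hp : p ≠ 0) : 0 < n3 p := Real.sqrt_pos.2 (dot_pos hp)

theorem n3_sq (p : R3) : n3 p ^ 2 = p ⬝ᵥ p := Real.sq_sqrt (dot_nn p)

theorem s2_sq : (√2)⁻¹ ^ 2 = (1 / 2 : ℝ) := by
  rw [inv_pow, Real.sq_sqrt (by norm_num)]; norm_num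

theorem s2_pos : (0 : ℝ) < (√2)⁻¹ := inv_pos.2 (Real.sqrt_pos.2 (by norm_num))

end GE6

theorem dot9_uB {z : R6} (hz : z ∈ base) (h1 : z.1 ≠ 0) : dot9 (uB z) (uB z) = 1 := by
  have hP := n3_pos h1
  have hP2 := n3_sq z.1
  have hs := s2_sq
  simp only [dot9, uB, Prod.smul_fst, Prod.smul_snd, smul_dotProduct, dotProduct_smul, smul_eq_mul,
    cross_sq, ← hP2]
  have hpq : z.2 ⬝ᵥ z.1 = 0 := by rw [dotProduct_comm]; exact hz.1
  have hn := hz.2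
  rw [hpq]
  rw [← hP2] at hn
  set s := (√2)⁻¹
  have hP1 : (n3 z.1)⁻¹ * n3 z.1 = 1 := inv_mul_cancel₀ hP.ne'
  set P := n3 z.1
  set Pi := P⁻¹
  linear_combination (P ^ 2 + Pi ^ 2 * P ^ 2 * (1 + z.2 ⬝ᵥ z.2)) * hs + (1 / 2 : ℝ) * hn
    + (1 / 2 * (1 + z.2 ⬝ᵥ z.2) * (Pi * P + 1)) * hP1

theorem psi4_uB {z : R6} (hz : z ∈ base) (h1 : z.1 ≠ 0) : psi4 (uB z) = 1 / 4 := by
  have hP := n3_pos h1
  have hP2 := n3_sq z.1
  have hs := s2_sq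
  have hpq : z.1 ⬝ᵥ z.2 = 0 := hz.1
  have hqp : z.2 ⬝ᵥ z.1 = 0 := by rw [dotProduct_comm]; exact hz.1
  have hn := hz.2
  have hpm : z.1 ⬝ᵥ (z.2 ⨯₃ z.1) = 0 := by simp only [dot3, cr0, cr1, cr2]; ring
  simp only [psi4, uB, Prod.smul_fst, Prod.smul_snd, smul_dotProduct, dotProduct_smul, smul_eq_mul,
    cross_sq, hpm, hqp, ← hP2]
  rw [← hP2] at hn
  set s := (√2)⁻¹
  have hP1 : (n3 z.1)⁻¹ * n3 z.1 = 1 := inv_mul_cancel₀ hP.ne'
  set P := n3 z.1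
  set Pi := P⁻¹
  have hPP : P * Pi = 1 := by linarith
  have e : s ^ 4 = 1 / 4 := by
    have : s ^ 4 = (s ^ 2) ^ 2 := by ring
    rw [this, hs]; norm_num
  linear_combination (s ^ 4 * (z.2 ⬝ᵥ z.2) * ((Pi * P) ^ 3 + (Pi * P) ^ 2 + Pi * P + 1)
    + s ^ 4 * P ^ 2 * (Pi * P + 1)) * hP1 + (P ^ 2 + z.2 ⬝ᵥ z.2) * e + (1 / 4 : ℝ) * hn

/-! ### the flags over the walls -/

namespace GE6

theorem uA_1 (z : R6) : (uA z).1 = z.1 := rfl
theorem uA_2 (z : R6) : (uA z).2.1 = z.2 := rfl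
theorem uA_3 (z : R6) : (uA z).2.2 = 0 := rfl

end GE6

/-- the flags over wall A -/
theorem flgA_iff {z : R6} (hz : z ∈ base) (hU : z ∈ U6) (b : R9) :
    Flg (uA z) b ↔ ∃ s1 s2 : ℝ, s1 ^ 2 + s2 ^ 2 = 1 ∧ b = s1 • b1A z + s2 • b2A z := by
  obtain ⟨hpq, hn⟩ := hz
  obtain ⟨hp, hq⟩ := hU
  have hP := n3_pos hp
  have hP2 := n3_sq z.1
  have hqp : z.2 ⬝ᵥ z.1 = 0 := by rw [dotProduct_comm]; exact hpq
  constructor
  · intro h
    obtain ⟨s1, s2, hs, ha, hx, hy⟩ := wallA_flag hpq hn hp hq (by simpa [uA] using h.comm)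
      (a' := b.1) (x' := b.2.1) (y' := b.2.2) h.bb
      (by have := h.ub; simp only [dot9, uA, zero_dotProduct, add_zero] at this; exact this)
    refine ⟨s1, s2, hs, ?_⟩
    refine Prod.ext ?_ (Prod.ext ?_ ?_)
    · show b.1 = s1 • z.2 + s2 • 0
      rw [smul_zero, add_zero]; exact ha
    · show b.2.1 = s1 • z.1 + s2 • 0
      rw [smul_zero, add_zero]; exact hx
    · show b.2.2 = s1 • 0 + s2 • ((n3 z.1)⁻¹ • z.1)
      rw [smul_zero, zero_add, smul_smul, ← div_eq_mul_inv]; exact hy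
  · rintro ⟨s1, s2, hs, rfl⟩
    have hbb : dot9 (s1 • b1A z + s2 • b2A z) (s1 • b1A z + s2 • b2A z) = 1 := by
      simp only [dot9, b1A, b2A, Prod.fst_add, Prod.snd_add, Prod.smul_fst, Prod.smul_snd,
        smul_zero, add_zero, zero_add, smul_dotProduct, dotProduct_smul, smul_eq_mul, ← hP2]
      rw [← hP2] at hn
      field_simp
      linear_combination s1 ^ 2 * hn + hs
    have hub : dot9 (uA z) (s1 • b1A z + s2 • b2A z) = 0 := by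
      simp only [dot9, uA, b1A, b2A, Prod.fst_add, Prod.snd_add, Prod.smul_fst, Prod.smul_snd,
        smul_zero, add_zero, zero_dotProduct, dotProduct_smul, hpq, hqp]
    refine Comm.flg ?_ (dot9_uA ⟨hpq, hn⟩) hbb hub
    refine ⟨?_, ?_, ?_, ?_⟩
    · apply ext3' <;> simp [uA, b1A, b2A, cr0, cr1, cr2] <;> ring
    · apply ext3' <;> simp [uA, b1A, b2A, cr0, cr1, cr2] <;> ring
    · apply ext3' <;> simp [uA, b1A, b2A, cr0, cr1, cr2] <;> ring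
    · simp [uA, b1A, b2A, hqp]

namespace GE6

theorem flagB_C1 (p m : R3) (r s1 s2 : ℝ) {P P' Q Q' : ℝ} (hPi : P * P' = 1) (hQi : Q * Q' = 1)
    (hn : P ^ 2 + Q ^ 2 = 1) :
    (r • p) ⨯₃ (s1 • (r • -p) + s2 • (r • -(Q' • m)))
      + (r • P' • p) ⨯₃ (s1 • (r • P' • p) + s2 • (r • (P' * Q') • m))
      + (r • P' • m) ⨯₃ (s1 • (r • -(P' • m)) + s2 • (r • (Q * P') • p)) = 0 := by
  have key : ∀ w : ℝ, (r * s2) * r * w * (-Q' + P' ^ 2 * Q' - Q * P' ^ 2) = 0 := by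
    intro w
    linear_combination (r * s2 * r * w) * ((Q' * (P' * P + 1)) * hPi
      - (P' ^ 2 * Q') * hn + (P' ^ 2 * Q) * hQi)
  apply ext3' <;> simp only [cr0, cr1, cr2, Pi.add_apply, Pi.smul_apply, Pi.neg_apply,
    smul_eq_mul, Pi.zero_apply]
  · linear_combination key (p 1 * m 2 - p 2 * m 1)
  · linear_combination key (p 2 * m 0 - p 0 * m 2)
  · linear_combination key (p 0 * m 1 - p 1 * m 0)

theorem flagB_C2 (p m : R3) (r s1 s2 : ℝ) {P' Q' : ℝ} :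
    (r • p) ⨯₃ (s1 • (r • P' • p) + s2 • (r • (P' * Q') • m))
      = (s1 • (r • -p) + s2 • (r • -(Q' • m))) ⨯₃ (r • P' • p) := by
  apply ext3' <;> simp only [cr0, cr1, cr2, Pi.add_apply, Pi.smul_apply, Pi.neg_apply,
    smul_eq_mul] <;> ring

theorem flagB_C3 (p m : R3) (r s1 s2 : ℝ) {P' Q Q' : ℝ} :
    (r • p) ⨯₃ (s1 • (r • -(P' • m)) + s2 • (r • (Q * P') • p))
      = (s1 • (r • -p) + s2 • (r • -(Q' • m))) ⨯₃ (r • P' • m) := by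
  apply ext3' <;> simp only [cr0, cr1, cr2, Pi.add_apply, Pi.smul_apply, Pi.neg_apply,
    smul_eq_mul] <;> ring

end GE6

/-- the flags over wall B -/
theorem flgB_iff {z : R6} (hz : z ∈ base) (hU : z ∈ U6) (b : R9) :
    Flg (uB z) b ↔ ∃ s1 s2 : ℝ, s1 ^ 2 + s2 ^ 2 = 1 ∧ b = s1 • b1B z + s2 • b2B z := by
  have hz' := hz
  obtain ⟨hpq, hn⟩ := hz
  obtain ⟨hp, hq⟩ := hU
  have hP := n3_pos hp
  have hP2 := n3_sq z.1
  have hQ := n3_pos hq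
  have hQ2 := n3_sq z.2
  have hqp : z.2 ⬝ᵥ z.1 = 0 := by rw [dotProduct_comm]; exact hpq
  constructor
  · intro h
    have hC := h.comm
    have hub := h.ub
    have ea : (uB z).1 = (√2)⁻¹ • z.1 := rfl
    have ex : (uB z).2.1 = (√2 * √(z.1 ⬝ᵥ z.1))⁻¹ • z.1 := by
      rw [mul_inv, ← smul_smul]; rfl
    have ey : (uB z).2.2 = (√2 * √(z.1 ⬝ᵥ z.1))⁻¹ • z.2 ⨯₃ z.1 := by
      rw [mul_inv, ← smul_smul]; rfl
    rw [ea, ex, ey] at hC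
    unfold dot9 at hub
    rw [ea, ex, ey] at hub
    obtain ⟨s1, s2, hs, ha, hx, hy⟩ := wallB_flag hpq hn hp hq hC h.bb hub
    refine ⟨-s1, s2, by rw [neg_sq]; exact hs, ?_⟩
    refine Prod.ext ?_ (Prod.ext ?_ ?_)
    · show b.1 = -s1 • ((√2)⁻¹ • -z.1) + s2 • ((√2)⁻¹ • -((n3 z.2)⁻¹ • (z.2 ⨯₃ z.1)))
      rw [ha]
      funext i
      simp only [Pi.sub_apply, Pi.add_apply, Pi.smul_apply, Pi.neg_apply, smul_eq_mul, mul_inv, n3]
      ring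
    · show b.2.1 = -s1 • ((√2)⁻¹ • ((n3 z.1)⁻¹ • z.1))
        + s2 • ((√2)⁻¹ • (((n3 z.1)⁻¹ * (n3 z.2)⁻¹) • (z.2 ⨯₃ z.1)))
      rw [hx]
      funext i
      simp only [Pi.add_apply, Pi.smul_apply, smul_eq_mul, mul_inv, n3]
      ring
    · show b.2.2 = -s1 • ((√2)⁻¹ • -((n3 z.1)⁻¹ • (z.2 ⨯₃ z.1)))
        + s2 • ((√2)⁻¹ • ((n3 z.2 * (n3 z.1)⁻¹) • z.1))
      rw [hy]
      funext i
      simp only [Pi.add_apply, Pi.smul_apply, Pi.neg_apply, smul_eq_mul, mul_inv, n3,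
        div_eq_mul_inv]
      ring
  · rintro ⟨s1, s2, hs, rfl⟩
    have hmm : (z.2 ⨯₃ z.1) ⬝ᵥ (z.2 ⨯₃ z.1) = n3 z.1 ^ 2 * n3 z.2 ^ 2 := by
      rw [cross_sq, hqp, hP2, hQ2]; ring
    have hpm : z.1 ⬝ᵥ (z.2 ⨯₃ z.1) = 0 := by simp only [dot3, cr0, cr1, cr2]; ring
    have hmp : (z.2 ⨯₃ z.1) ⬝ᵥ z.1 = 0 := by rw [dotProduct_comm]; exact hpm
    have hs2 := s2_sq
    have hn' : n3 z.1 ^ 2 + n3 z.2 ^ 2 = 1 := by rw [hP2, hQ2]; exact hn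
    have hbb : dot9 (s1 • b1B z + s2 • b2B z) (s1 • b1B z + s2 • b2B z) = 1 := by
      simp only [dot9, b1B, b2B, Prod.fst_add, Prod.snd_add, Prod.smul_fst, Prod.smul_snd,
        smul_dotProduct, dotProduct_smul, add_dotProduct, dotProduct_add, neg_dotProduct,
        dotProduct_neg, smul_eq_mul, hmm, hpm, hmp, ← hP2]
      generalize n3 z.1 = P at *
      generalize n3 z.2 = Q at *
      generalize (√2 : ℝ)⁻¹ = r at *
      field_simp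
      linear_combination (P ^ 2 * Q * (s1 ^ 2 + s2 ^ 2) * (P ^ 2 + 1 + Q ^ 2)) * hs2
        + (1 / 2 * P ^ 2 * Q * (s1 ^ 2 + s2 ^ 2)) * hn' + P ^ 2 * Q * hs
    have hub : dot9 (uB z) (s1 • b1B z + s2 • b2B z) = 0 := by
      simp only [dot9, uB, b1B, b2B, Prod.fst_add, Prod.snd_add, Prod.smul_fst, Prod.smul_snd,
        smul_dotProduct, dotProduct_smul, dotProduct_add, dotProduct_neg, smul_eq_mul, hmm, hpm,
        hmp, ← hP2]
      generalize n3 z.1 = P at *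
      generalize n3 z.2 = Q at *
      generalize (√2 : ℝ)⁻¹ = r at *
      field_simp
      linear_combination (-(r ^ 2 * s1 * P ^ 2 * Q)) * hn'
    refine Comm.flg ?_ (dot9_uB hz' hp) hbb hub
    have hPi : n3 z.1 * (n3 z.1)⁻¹ = 1 := mul_inv_cancel₀ hP.ne'
    have hQi : n3 z.2 * (n3 z.2)⁻¹ = 1 := mul_inv_cancel₀ hQ.ne'
    refine ⟨?_, ?_, ?_, ?_⟩
    · exact flagB_C1 z.1 (z.2 ⨯₃ z.1) (√2)⁻¹ s1 s2 hPi hQi hn'
    · exact flagB_C2 z.1 (z.2 ⨯₃ z.1) (√2)⁻¹ s1 s2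
    · exact flagB_C3 z.1 (z.2 ⨯₃ z.1) (√2)⁻¹ s1 s2
    · simp only [uB, b1B, b2B, Prod.snd_add,
        Prod.smul_snd, Prod.smul_fst, Prod.fst_add, smul_dotProduct, dotProduct_smul,
        dotProduct_add, dotProduct_neg, smul_eq_mul, hmm, hpm, hmp, ← hP2]
      linear_combination (-(s2 * (√2)⁻¹ ^ 2 * (n3 z.1)⁻¹ ^ 2 * n3 z.1 ^ 2 * n3 z.2)) * hQi

/-- the flags over `(p, 0, 0)` -/
theorem flgA_q0 {p : R3} (hp : p ⬝ᵥ p = 1) (b : R9) :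
    Flg (p, 0, 0) b ↔ ∃ s1 s2 : ℝ, s1 ^ 2 + s2 ^ 2 = 1 ∧ b = (0, s1 • p, s2 • p) := by
  constructor
  · intro h
    obtain ⟨s1, s2, hs, ha, hx, hy⟩ := wallA_flag_q0 hp h.comm h.bb
      (by have := h.ub; simp only [dot9, zero_dotProduct, add_zero] at this; exact this)
    exact ⟨s1, s2, hs, Prod.ext ha (Prod.ext hx hy)⟩
  · rintro ⟨s1, s2, hs, rfl⟩
    refine Comm.flg ?_ ?_ ?_ ?_
    · refine ⟨?_, ?_, ?_, ?_⟩
      · simp
      · simp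
      · simp
      · simp
    · simp [dot9, hp]
    · simp only [dot9, zero_dotProduct, smul_dotProduct, dotProduct_smul, hp, smul_eq_mul]
      linear_combination hs
    · simp [dot9]

/-- the flags over `(0, q, 0)` -/
theorem flgA_p0 {q : R3} (hq : q ⬝ᵥ q = 1) (b : R9) :
    Flg (0, q, 0) b ↔ ∃ (η : ℝ) (y : R3), η ^ 2 + y ⬝ᵥ y = 1 ∧ q ⬝ᵥ y = 0 ∧
      b = (η • q, 0, y) := by
  constructor
  · intro h
    obtain ⟨η, ha, hx, hy, hs⟩ := wallA_flag_p0 hq h.comm h.bb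
      (by have := h.ub; simp only [dot9, zero_dotProduct, add_zero, zero_add] at this; exact this)
    exact ⟨η, b.2.2, hs, hy, Prod.ext ha (Prod.ext hx rfl)⟩
  · rintro ⟨η, y, hs, hy, rfl⟩
    refine Comm.flg ?_ ?_ ?_ ?_
    · refine ⟨?_, ?_, ?_, ?_⟩
      · simp
      · simp
      · simp
      · simp [hy]
    · simp [dot9, hq]
    · simp only [dot9, zero_dotProduct, smul_dotProduct, dotProduct_smul, hq, smul_eq_mul]
      linear_combination hs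
    · simp [dot9]

/-- the flags over `(n, n, 0) / √2` -/
theorem flgB_q0 {n : R3} (hn : n ⬝ᵥ n = 1) (b : R9) :
    Flg ((Real.sqrt 2)⁻¹ • ((n, n, 0) : R9)) b ↔ ∃ mm : R3, mm ⬝ᵥ mm = 1 ∧
      b = (Real.sqrt 2)⁻¹ • ((mm, -mm, 0) : R9) := by
  have hs2 := s2_sq
  have hsp := s2_pos
  constructor
  · intro h
    have hC := h.comm
    have hub := h.ub
    simp only [Prod.smul_mk, smul_zero] at hC
    simp only [dot9, Prod.smul_mk, smul_zero, zero_dotProduct, add_zero, smul_dotProduct] at hub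
    rw [← smul_add, smul_eq_mul] at hub
    obtain ⟨mm, hm, ha, hx, hy⟩ := wallB_flag_q0 hn hC h.bb
      ((mul_eq_zero.1 hub).resolve_left hsp.ne')
    refine ⟨mm, hm, Prod.ext ha (Prod.ext ?_ ?_)⟩
    · show b.2.1 = (√2)⁻¹ • -mm
      rw [hx, smul_neg]
    · show b.2.2 = (√2)⁻¹ • (0 : R3)
      rw [hy, smul_zero]
  · rintro ⟨mm, hm, rfl⟩
    refine Comm.flg ?_ ?_ ?_ ?_
    · refine ⟨?_, ?_, ?_, ?_⟩
      · simp
      · apply ext3' <;> simp [cr0, cr1, cr2] <;> ring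
      · simp
      · simp
    · simp only [dot9, Prod.smul_mk, smul_dotProduct, dotProduct_smul, hn, smul_eq_mul,
        zero_dotProduct]
      linear_combination 2 * hs2
    · simp only [dot9, Prod.smul_mk, smul_dotProduct, dotProduct_smul, hm, smul_eq_mul,
        zero_dotProduct, neg_dotProduct, dotProduct_neg]
      linear_combination 2 * hs2
    · simp only [dot9, Prod.smul_mk, smul_dotProduct, dotProduct_smul, smul_eq_mul,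
        zero_dotProduct, dotProduct_neg]
      ring

/-- the flags over `(0, f1, f2) / √2` -/
theorem flgB_p0 {f1 f2 : R3} (h1 : f1 ⬝ᵥ f1 = 1) (h2 : f2 ⬝ᵥ f2 = 1) (h12 : f1 ⬝ᵥ f2 = 0)
    (b : R9) :
    Flg ((Real.sqrt 2)⁻¹ • ((0, f1, f2) : R9)) b ↔ ∃ s1 s2 : ℝ, s1 ^ 2 + s2 ^ 2 = 1 ∧
      b = (Real.sqrt 2)⁻¹ • ((0, s1 • f1 + s2 • f2, s2 • f1 - s1 • f2) : R9) := by
  have hs2 := s2_sq
  have hsp := s2_pos
  have h21 : f2 ⬝ᵥ f1 = 0 := by rw [dotProduct_comm]; exact h12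
  constructor
  · intro h
    have hC := h.comm
    have hub := h.ub
    simp only [Prod.smul_mk, smul_zero] at hC
    simp only [dot9, Prod.smul_mk, smul_zero, zero_dotProduct, zero_add, smul_dotProduct] at hub
    rw [← smul_add, smul_eq_mul] at hub
    obtain ⟨s1, s2, hm, ha, hx, hy⟩ := wallB_flag_p0 h1 h2 h12 hC h.bb
      ((mul_eq_zero.1 hub).resolve_left hsp.ne')
    refine ⟨s1, s2, hm, Prod.ext ?_ (Prod.ext hx hy)⟩
    show b.1 = (√2)⁻¹ • (0 : R3)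
    rw [ha, smul_zero]
  · rintro ⟨s1, s2, hm, rfl⟩
    refine Comm.flg ?_ ?_ ?_ ?_
    · refine ⟨?_, ?_, ?_, ?_⟩
      · apply ext3' <;> simp [cr0, cr1, cr2] <;> ring
      · simp
      · simp
      · simp [dotProduct_add, dotProduct_sub, h1, h2, h12, h21]
    · simp only [dot9, Prod.smul_mk, smul_dotProduct, dotProduct_smul, h1, h2, smul_eq_mul,
        zero_dotProduct]
      linear_combination 2 * hs2
    · simp only [dot9, Prod.smul_mk, smul_dotProduct, dotProduct_smul, h1, h2, h12, h21,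
        smul_eq_mul, zero_dotProduct, add_dotProduct, sub_dotProduct, dotProduct_add,
        dotProduct_sub]
      linear_combination (2 * (s1 ^ 2 + s2 ^ 2)) * hs2 + hm
    · simp only [dot9, Prod.smul_mk, smul_dotProduct, dotProduct_smul, h1, h2, h12, h21,
        smul_eq_mul, zero_dotProduct, dotProduct_add, dotProduct_sub]
      ring


/-! ### derivatives of the explicit function -/

/-- derivative of `BBm` -/
def dBB (u w : R9) (i j : Fin 3) : ℝ :=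
  (u.1 ⨯₃ w.2.1 + w.1 ⨯₃ u.2.1) i * (u.1 ⨯₃ u.2.1) j
    + (u.1 ⨯₃ u.2.1) i * (u.1 ⨯₃ w.2.1 + w.1 ⨯₃ u.2.1) j
    + ((u.1 ⨯₃ w.2.2 + w.1 ⨯₃ u.2.2) i * (u.1 ⨯₃ u.2.2) j
      + (u.1 ⨯₃ u.2.2) i * (u.1 ⨯₃ w.2.2 + w.1 ⨯₃ u.2.2) j)
    - ((u.2.1 ⨯₃ w.2.2 + w.2.1 ⨯₃ u.2.2) i * (u.2.1 ⨯₃ u.2.2) j
      + (u.2.1 ⨯₃ u.2.2) i * (u.2.1 ⨯₃ w.2.2 + w.2.1 ⨯₃ u.2.2) j)

namespace GE6

/-- derivative along a line -/
theorem fderiv_line {f : R9 → ℝ} {u w : R9} {d : ℝ} (hf : DifferentiableAt ℝ f u)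
    (h : HasDerivAt (fun t : ℝ => f (u + t • w)) d 0) : fderiv ℝ f u w = d := by
  rw [← hf.lineDeriv_eq_fderiv]
  exact h.deriv

theorem quad_line (A B C : ℝ) : HasDerivAt (fun t : ℝ => A + t * B + t ^ 2 * C) B 0 := by
  have h1 : HasDerivAt (fun t : ℝ => t * B) (1 * B) 0 := (hasDerivAt_id' (0 : ℝ)).mul_const B
  have h2 : HasDerivAt (fun t : ℝ => t ^ 2 * C) (0 * C) 0 := by
    have := (hasDerivAt_pow 2 (0 : ℝ)).mul_const C
    simpa using this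
  have h3 := (h1.const_add A).fun_add h2
  simpa using h3

theorem cross_line (a x a' x' : R3) (i : Fin 3) :
    HasDerivAt (fun t : ℝ => ((a + t • a') ⨯₃ (x + t • x')) i) ((a ⨯₃ x' + a' ⨯₃ x) i) 0 := by
  have h := quad_line ((a ⨯₃ x) i) ((a ⨯₃ x' + a' ⨯₃ x) i) ((a' ⨯₃ x') i)
  have e : (fun t : ℝ => ((a + t • a') ⨯₃ (x + t • x')) i)
      = fun t : ℝ => (a ⨯₃ x) i + t * (a ⨯₃ x' + a' ⨯₃ x) i + t ^ 2 * (a' ⨯₃ x') i := by
    funext t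
    fin_cases i
    · show ((a + t • a') ⨯₃ (x + t • x')) 0 = (a ⨯₃ x) 0 + t * (a ⨯₃ x' + a' ⨯₃ x) 0
        + t ^ 2 * (a' ⨯₃ x') 0
      simp only [cr0, Pi.add_apply, Pi.smul_apply, smul_eq_mul]; ring
    · show ((a + t • a') ⨯₃ (x + t • x')) 1 = (a ⨯₃ x) 1 + t * (a ⨯₃ x' + a' ⨯₃ x) 1
        + t ^ 2 * (a' ⨯₃ x') 1
      simp only [cr1, Pi.add_apply, Pi.smul_apply, smul_eq_mul]; ring
    · show ((a + t • a') ⨯₃ (x + t • x')) 2 = (a ⨯₃ x) 2 + t * (a ⨯₃ x' + a' ⨯₃ x) 2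
        + t ^ 2 * (a' ⨯₃ x') 2
      simp only [cr2, Pi.add_apply, Pi.smul_apply, smul_eq_mul]; ring
  rw [e]; exact h

theorem BBm_line (u w : R9) (i j : Fin 3) :
    HasDerivAt (fun t : ℝ => BBm (u + t • w) i j) (dBB u w i j) 0 := by
  have h1 := fun i => cross_line u.1 u.2.1 w.1 w.2.1 i
  have h2 := fun i => cross_line u.1 u.2.2 w.1 w.2.2 i
  have h3 := fun i => cross_line u.2.1 u.2.2 w.2.1 w.2.2 i
  have h := (((h1 i).mul (h1 j)).add ((h2 i).mul (h2 j))).sub ((h3 i).mul (h3 j))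
  simp only [zero_smul, add_zero] at h
  exact h

theorem diff_BBm (u : R9) (i j : Fin 3) : DifferentiableAt ℝ (fun u => BBm u i j) u := by
  unfold BBm
  fin_cases i <;> fin_cases j <;> simp only [Fin.zero_eta, Fin.mk_one, Fin.reduceFinMk, cr0, cr1,
    cr2] <;> fun_prop

theorem diff_dot9 (u : R9) : DifferentiableAt ℝ (fun u => dot9 u u) u := by
  simp only [dot9, dot3]
  fun_prop

theorem diff_vq (p : Par) (u : R9) : DifferentiableAt ℝ (vq p) u := by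
  unfold vq
  simp only [dot3, Matrix.mulVec, cr0, cr1, cr2]
  fun_prop

theorem dot9_line (u w : R9) :
    HasDerivAt (fun t : ℝ => dot9 (u + t • w) (u + t • w)) (2 * dot9 u w) 0 := by
  have h := quad_line (dot9 u u) (2 * dot9 u w) (dot9 w w)
  have e : (fun t : ℝ => dot9 (u + t • w) (u + t • w))
      = fun t : ℝ => dot9 u u + t * (2 * dot9 u w) + t ^ 2 * dot9 w w := by
    funext t
    simp only [dot9, dot3, Prod.fst_add, Prod.snd_add, Prod.smul_fst, Prod.smul_snd, Pi.add_apply,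
      Pi.smul_apply, smul_eq_mul]
    ring
  rw [e]; exact h

theorem dot9_pos {u : R9} (hu : u ≠ 0) : 0 < dot9 u u := by
  have h1 := dot_nn u.1
  have h2 := dot_nn u.2.1
  have h3 := dot_nn u.2.2
  rcases eq_or_ne u.1 0 with e1 | e1
  · rcases eq_or_ne u.2.1 0 with e2 | e2
    · rcases eq_or_ne u.2.2 0 with e3 | e3
      · exact absurd (Prod.ext e1 (Prod.ext e2 e3)) hu
      · have := dot_pos e3
        unfold dot9; linarith
    · have := dot_pos e2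
      unfold dot9; linarith
  · have := dot_pos e1
    unfold dot9; linarith

theorem diff_vN (p : Par) {u : R9} (hu : u ≠ 0) : DifferentiableAt ℝ (vN p) u := by
  have h := diff_BBm u
  have h0 := diff_dot9 u
  unfold vN
  simp only [div_eq_mul_inv]
  refine DifferentiableAt.fun_mul ?_ (DifferentiableAt.fun_inv h0 (dot9_pos hu).ne')
  exact DifferentiableAt.fun_sum fun i _ => DifferentiableAt.fun_sum fun j _ => (h i j).const_mul _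

end GE6

theorem fderiv_vq (p : Par) (u w : R9) :
    fderiv ℝ (vq p) u w = 1 / 2 * (u.1 ⬝ᵥ p.R *ᵥ w.1 + w.1 ⬝ᵥ p.R *ᵥ u.1)
      + 1 / 2 * (u.2.1 ⬝ᵥ p.S *ᵥ w.2.1 + w.2.1 ⬝ᵥ p.S *ᵥ u.2.1
        + (u.2.2 ⬝ᵥ p.S *ᵥ w.2.2 + w.2.2 ⬝ᵥ p.S *ᵥ u.2.2))
      + p.ν ⬝ᵥ (u.2.1 ⨯₃ w.2.2 + w.2.1 ⨯₃ u.2.2) := by
  apply fderiv_line (diff_vq p u)
  have h := quad_line (vq p u) (1 / 2 * (u.1 ⬝ᵥ p.R *ᵥ w.1 + w.1 ⬝ᵥ p.R *ᵥ u.1)
      + 1 / 2 * (u.2.1 ⬝ᵥ p.S *ᵥ w.2.1 + w.2.1 ⬝ᵥ p.S *ᵥ u.2.1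
        + (u.2.2 ⬝ᵥ p.S *ᵥ w.2.2 + w.2.2 ⬝ᵥ p.S *ᵥ u.2.2))
      + p.ν ⬝ᵥ (u.2.1 ⨯₃ w.2.2 + w.2.1 ⨯₃ u.2.2)) (vq p w)
  have e : (fun t : ℝ => vq p (u + t • w)) = fun t : ℝ => vq p u
      + t * (1 / 2 * (u.1 ⬝ᵥ p.R *ᵥ w.1 + w.1 ⬝ᵥ p.R *ᵥ u.1)
      + 1 / 2 * (u.2.1 ⬝ᵥ p.S *ᵥ w.2.1 + w.2.1 ⬝ᵥ p.S *ᵥ u.2.1
        + (u.2.2 ⬝ᵥ p.S *ᵥ w.2.2 + w.2.2 ⬝ᵥ p.S *ᵥ u.2.2))
      + p.ν ⬝ᵥ (u.2.1 ⨯₃ w.2.2 + w.2.1 ⨯₃ u.2.2)) + t ^ 2 * vq p w := by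
    funext t
    simp only [vq, Prod.fst_add, Prod.snd_add, Prod.smul_fst, Prod.smul_snd, Matrix.mulVec_add,
      Matrix.mulVec_smul, add_dotProduct, dotProduct_add, smul_dotProduct, dotProduct_smul,
      smul_eq_mul, map_add, map_smul, LinearMap.add_apply, LinearMap.smul_apply]
    ring
  rw [e]; exact h

theorem fderiv_vN (p : Par) {u : R9} (hu : u ≠ 0) (w : R9) :
    fderiv ℝ (vN p) u w = ((∑ i, ∑ j, p.N i j * dBB u w i j) * dot9 u u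
      - (∑ i, ∑ j, p.N i j * BBm u i j) * (2 * dot9 u w)) / dot9 u u ^ 2 := by
  apply fderiv_line (diff_vN p hu)
  have h1 : HasDerivAt (fun t : ℝ => ∑ i, ∑ j, p.N i j * BBm (u + t • w) i j)
      (∑ i, ∑ j, p.N i j * dBB u w i j) 0 := by
    refine HasDerivAt.fun_sum fun i _ => HasDerivAt.fun_sum fun j _ => ?_
    exact (BBm_line u w i j).const_mul _
  have h2 := dot9_line u w
  have h := h1.fun_div h2 (by rw [zero_smul, add_zero]; exact (dot9_pos hu).ne')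
  simp only [zero_smul, add_zero] at h
  exact h

theorem fderiv_v0 (p : Par) {u : R9} (hu : u ≠ 0) (w : R9) :
    fderiv ℝ (v0 p) u w = fderiv ℝ (vq p) u w + fderiv ℝ (vN p) u w := by
  have := fderiv_fun_add (diff_vq p u) (diff_vN p hu)
  have e : v0 p = fun u => vq p u + vN p u := rfl
  rw [e, this]; rfl

/-! ### `α` of the explicit function -/

theorem Flg.ne {u b : R9} (h : Flg u b) : u ≠ 0 := by
  rintro rfl
  have := h.uu
  simp [dot9] at this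

/-- the entries of `BBm` have `α = 0` -/
theorem dBB_rot {u b : R9} (h : Flg u b) (i j : Fin 3) : dBB u (rot b) i j = 0 := by
  have hC := h.comm
  have e1 : u.1 ⨯₃ (rot b).2.1 + (rot b).1 ⨯₃ u.2.1 = -(b.1 ⨯₃ u.2.2) := by
    show u.1 ⨯₃ (-b.2.2) + (0 : R3) ⨯₃ u.2.1 = _
    rw [map_neg, hC.C3, map_zero, LinearMap.zero_apply, add_zero]
  have e2 : u.1 ⨯₃ (rot b).2.2 + (rot b).1 ⨯₃ u.2.2 = b.1 ⨯₃ u.2.1 := by
    show u.1 ⨯₃ b.2.1 + (0 : R3) ⨯₃ u.2.2 = _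
    rw [hC.C2, map_zero, LinearMap.zero_apply, add_zero]
  have e3 : u.2.1 ⨯₃ (rot b).2.2 + (rot b).2.1 ⨯₃ u.2.2 = -(u.1 ⨯₃ b.1) := by
    show u.2.1 ⨯₃ b.2.1 + (-b.2.2) ⨯₃ u.2.2 = _
    rw [map_neg, LinearMap.neg_apply, cross_anticomm]
    have := hC.C1
    rw [add_assoc] at this
    exact eq_neg_of_add_eq_zero_right this
  unfold dBB
  rw [e1, e2, e3]
  fin_cases i <;> fin_cases j <;> simp only [Fin.zero_eta, Fin.mk_one, Fin.reduceFinMk, cr0, cr1,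
    cr2, Pi.neg_apply] <;> ring

theorem dot9_rot {u b : R9} (h : Flg u b) : dot9 u (rot b) = 0 := by
  have := h.brh
  unfold brh at this
  simp only [dot9, rot, dotProduct_zero, dotProduct_neg]
  linarith

theorem alM_vN (p : Par) {u b : R9} (h : Flg u b) : alM (vN p) u b = 0 := by
  unfold alM
  rw [fderiv_vN p h.ne, dot9_rot h]
  simp only [dBB_rot h]
  simp

/-- `α` of the explicit function -/
theorem alM_v0 (p : Par) {u b : R9} (h : Flg u b) :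
    alM (v0 p) u b = -(1 / 2) * (u.2.1 ⬝ᵥ p.S *ᵥ b.2.2 + b.2.2 ⬝ᵥ p.S *ᵥ u.2.1)
      + 1 / 2 * (u.2.2 ⬝ᵥ p.S *ᵥ b.2.1 + b.2.1 ⬝ᵥ p.S *ᵥ u.2.2) - p.ν ⬝ᵥ (u.1 ⨯₃ b.1) := by
  have h1 := alM_vN p h
  unfold alM at h1 ⊢
  have e3 : u.2.1 ⨯₃ (rot b).2.2 + (rot b).2.1 ⨯₃ u.2.2 = -(u.1 ⨯₃ b.1) := by
    show u.2.1 ⨯₃ b.2.1 + (-b.2.2) ⨯₃ u.2.2 = _
    rw [map_neg, LinearMap.neg_apply, cross_anticomm]
    have := h.comm.C1
    rw [add_assoc] at this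
    exact eq_neg_of_add_eq_zero_right this
  rw [fderiv_v0 p h.ne, h1, fderiv_vq, e3]
  simp only [rot, Matrix.mulVec_zero, Matrix.mulVec_neg, dotProduct_zero, zero_dotProduct,
    dotProduct_neg, neg_dotProduct]
  ring

theorem flg_A1 {z : R6} (hz : z ∈ base) (hU : z ∈ U6) : Flg (uA z) (b1A z) :=
  (flgA_iff hz hU _).2 ⟨1, 0, by norm_num, by simp⟩

theorem flg_A2 {z : R6} (hz : z ∈ base) (hU : z ∈ U6) : Flg (uA z) (b2A z) :=
  (flgA_iff hz hU _).2 ⟨0, 1, by norm_num, by simp⟩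

theorem flg_B1 {z : R6} (hz : z ∈ base) (hU : z ∈ U6) : Flg (uB z) (b1B z) :=
  (flgB_iff hz hU _).2 ⟨1, 0, by norm_num, by simp⟩

theorem flg_B2 {z : R6} (hz : z ∈ base) (hU : z ∈ U6) : Flg (uB z) (b2B z) :=
  (flgB_iff hz hU _).2 ⟨0, 1, by norm_num, by simp⟩

theorem alM_A1 (p : Par) {z : R6} (hz : z ∈ base) (hU : z ∈ U6) :
    alM (v0 p) (uA z) (b1A z) = -(p.ν ⬝ᵥ (z.1 ⨯₃ z.2)) := by
  rw [alM_v0 p (flg_A1 hz hU)]
  simp [uA, b1A]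

theorem alM_A2 (p : Par) {z : R6} (hz : z ∈ base) (hU : z ∈ U6) :
    alM (v0 p) (uA z) (b2A z) = -(z.2 ⬝ᵥ p.S *ᵥ z.1 + z.1 ⬝ᵥ p.S *ᵥ z.2) / (2 * n3 z.1) := by
  rw [alM_v0 p (flg_A2 hz hU)]
  have hP := n3_pos hU.1
  simp only [uA, b2A, Matrix.mulVec_smul, dotProduct_smul, smul_dotProduct, smul_eq_mul,
    Matrix.mulVec_zero, dotProduct_zero, map_zero]
  field_simp
  ring

theorem alM_B1 (p : Par) {z : R6} (hz : z ∈ base) (hU : z ∈ U6) :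
    alM (v0 p) (uB z) (b1B z) =
      (z.1 ⬝ᵥ p.S *ᵥ (z.2 ⨯₃ z.1) + (z.2 ⨯₃ z.1) ⬝ᵥ p.S *ᵥ z.1) / (2 * (z.1 ⬝ᵥ z.1)) := by
  rw [alM_v0 p (flg_B1 hz hU)]
  have hP := n3_pos hU.1
  rw [← n3_sq z.1]
  simp only [uB, b1B, Prod.smul_fst, Prod.smul_snd, Matrix.mulVec_smul, Matrix.mulVec_neg,
    dotProduct_smul, smul_dotProduct, dotProduct_neg, neg_dotProduct, smul_eq_mul, map_smul,
    map_neg, LinearMap.smul_apply, cross_self, smul_zero, dotProduct_zero, neg_zero]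
  generalize z.2 ⨯₃ z.1 = m
  have hr2 : √2 ^ 2 = (2 : ℝ) := Real.sq_sqrt (by norm_num)
  field_simp
  linear_combination (-(z.1 ⬝ᵥ p.S *ᵥ m + m ⬝ᵥ p.S *ᵥ z.1)) * hr2

theorem alM_B2 (p : Par) {z : R6} (hz : z ∈ base) (hU : z ∈ U6) :
    alM (v0 p) (uB z) (b2B z) =
      -(n3 z.2 / (2 * (z.1 ⬝ᵥ z.1))) * (z.1 ⬝ᵥ p.S *ᵥ z.1
          - ((z.2 ⨯₃ z.1) ⬝ᵥ p.S *ᵥ (z.2 ⨯₃ z.1)) / (z.2 ⬝ᵥ z.2))
        + (z.1 ⬝ᵥ z.1) / (2 * n3 z.2) * (p.ν ⬝ᵥ z.2) := by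
  rw [alM_v0 p (flg_B2 hz hU)]
  have hP := n3_pos hU.1
  have hQ := n3_pos hU.2
  have hpq := hz.1
  have hpm : z.1 ⨯₃ (z.2 ⨯₃ z.1) = (z.1 ⬝ᵥ z.1) • z.2 := by
    rw [dot3] at hpq
    apply ext3' <;> simp only [cr0, cr1, cr2, Pi.smul_apply, smul_eq_mul, dot3]
    · linear_combination (-z.1 0) * hpq
    · linear_combination (-z.1 1) * hpq
    · linear_combination (-z.1 2) * hpq
  simp only [uB, b2B, Prod.smul_fst, Prod.smul_snd, Matrix.mulVec_smul, dotProduct_smul,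
    smul_dotProduct, dotProduct_neg, smul_eq_mul, map_smul, map_neg, LinearMap.smul_apply, hpm]
  rw [← n3_sq z.1, ← n3_sq z.2]
  generalize z.2 ⨯₃ z.1 = m
  have hr2 : √2 ^ 2 = (2 : ℝ) := Real.sq_sqrt (by norm_num)
  field_simp
  linear_combination (-(-(n3 z.2 ^ 2 * z.1 ⬝ᵥ p.S *ᵥ z.1) + m ⬝ᵥ p.S *ᵥ m
    + n3 z.1 ^ 4 * p.ν ⬝ᵥ z.2)) * hr2

end Pool.Agent.FL.S2
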