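import Pool.Agent.FL.FTC
import Pool.Agent.FL.FTA
import Pool.Agent.FL.GE6S

/-!
# MP_f09395_gt, space (2): smoothness of the data of wall B, symmetries of the data of both walls
-/

set_option linter.unusedSectionVars false

noncomputable section

namespace Pool.Agent.FL.S2

open scoped ContDiff Matrix
open Matrix Filter Topology Module
open Pool.Agent.helper90.FL
open FT0

namespace FDB

/-! ### smoothness at wall B -/

theorem n3i_smooth : ContDiffOn ℝ ∞ (fun z : R6 => (n3 z.1)⁻¹) U6 :=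
  FTA.n3_smooth.inv fun _ hz => (n3_pos hz.1).ne'

theorem n3i'_smooth : ContDiffOn ℝ ∞ (fun z : R6 => (n3 z.2)⁻¹) U6 :=
  FTA.n3'_smooth.inv fun _ hz => (n3_pos hz.2).ne'

theorem qp_smooth : ContDiffOn ℝ ∞ (fun z : R6 => z.2 ⨯₃ z.1) U6 :=
  cross_smooth snd_smooth fst_smooth

theorem uB_ne {z : R6} (hz : z ∈ U6) : uB z ≠ 0 := by
  intro h
  have h1 : (uB z).1 = 0 := congrArg Prod.fst h
  have h2 : (Real.sqrt 2)⁻¹ • z.1 = 0 := h1
  rcases smul_eq_zero.1 h2 with h3 | h3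
  · exact (inv_ne_zero (by positivity)) h3
  · exact hz.1 h3

theorem uB_smooth : ContDiffOn ℝ ∞ uB U6 :=
  ContDiffOn.const_smul _ (fst_smooth.prodMk ((n3i_smooth.smul fst_smooth).prodMk
    (n3i_smooth.smul qp_smooth)))

theorem b1B_smooth : ContDiffOn ℝ ∞ b1B U6 :=
  ContDiffOn.const_smul _ (fst_smooth.neg.prodMk ((n3i_smooth.smul fst_smooth).prodMk
    (n3i_smooth.smul qp_smooth).neg))

theorem b2B_smooth : ContDiffOn ℝ ∞ b2B U6 :=
  ContDiffOn.const_smul _ ((n3i'_smooth.smul qp_smooth).neg.prodMk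
    (((n3i_smooth.mul n3i'_smooth).smul qp_smooth).prodMk
      ((FTA.n3'_smooth.mul n3i_smooth).smul fst_smooth)))

theorem comp_uB_smooth {v : R9 → ℝ} (hv : ContDiffOn ℝ ∞ v {0}ᶜ) :
    ContDiffOn ℝ ∞ (fun z => v (uB z)) U6 :=
  hv.comp uB_smooth fun _ hz => uB_ne hz

theorem fd_uB_smooth {v : R9 → ℝ} (hv : ContDiffOn ℝ ∞ v {0}ᶜ) {Y : R6 → R9}
    (hY : ContDiffOn ℝ ∞ Y U6) : ContDiffOn ℝ ∞ (fun z => fderiv ℝ v (uB z) (Y z)) U6 :=
  ((fder_smooth isOpen_compl_singleton hv).comp uB_smooth fun _ hz => uB_ne hz).clm_apply hY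

theorem rot_smooth {Y : R6 → R9} (hY : ContDiffOn ℝ ∞ Y U6) :
    ContDiffOn ℝ ∞ (fun z => rot (Y z)) U6 :=
  contDiffOn_const.prodMk (hY.snd.snd.neg.prodMk hY.snd.fst)

theorem al1B_smooth {v : R9 → ℝ} (hv : ContDiffOn ℝ ∞ v {0}ᶜ) :
    ContDiffOn ℝ ∞ (fun z => alM v (uB z) (b1B z)) U6 :=
  fd_uB_smooth hv (rot_smooth b1B_smooth)

theorem al2B_smooth {v : R9 → ℝ} (hv : ContDiffOn ℝ ∞ v {0}ᶜ) :
    ContDiffOn ℝ ∞ (fun z => alM v (uB z) (b2B z)) U6 :=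
  fd_uB_smooth hv (rot_smooth b2B_smooth)

theorem omB_smooth {v : R9 → ℝ} (hv : ContDiffOn ℝ ∞ v {0}ᶜ) : ContDiffOn ℝ ∞ (omB v) U6 :=
  (contDiffOn_const.mul (fd_uB_smooth hv (contDiffOn_const.prodMk
    (snd_smooth.prodMk contDiffOn_const)))).div (FTA.n3_smooth.mul FTA.n3'_smooth)
    fun _ hz => mul_ne_zero (n3_pos hz.1).ne' (n3_pos hz.2).ne'

/-! ### smoothness at wall A of the section and of the fibre vectors -/

theorem b1A_smooth : ContDiffOn ℝ ∞ b1A U6 :=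
  snd_smooth.prodMk (fst_smooth.prodMk contDiffOn_const)

theorem b2A_smooth : ContDiffOn ℝ ∞ b2A U6 :=
  contDiffOn_const.prodMk (contDiffOn_const.prodMk (n3i_smooth.smul fst_smooth))

/-! ### derivatives of invariant functions -/

/-- the isotropy rotation as a linear equivalence -/
def rotE (t : ℝ) : R9 ≃L[ℝ] R9 :=
  LinearEquiv.toContinuousLinearEquiv
    { toFun := rotH t
      invFun := rotH (-t)
      map_add' := rotH_add t
      map_smul' := fun r u => rotH_smul t r u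
      left_inv := fun u => by rw [rotH_rotH, neg_add_cancel, rotH_zero]
      right_inv := fun u => by rw [rotH_rotH, add_neg_cancel, rotH_zero] }

theorem rotE_apply (t : ℝ) (u : R9) : rotE t u = rotH t u := rfl

theorem fd_equiv {v : R9 → ℝ} (L : R9 ≃L[ℝ] R9) (h : ∀ u, v (L u) = v u) (u w : R9) :
    fderiv ℝ v (L u) (L w) = fderiv ℝ v u w := by
  have h1 : v ∘ L = v := funext h
  have h2 := L.comp_right_fderiv (f := v) (x := u)
  rw [h1] at h2
  rw [h2]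
  rfl

theorem fd_rotH {v : R9 → ℝ} (h : ∀ (t : ℝ) (u : R9), v (rotH t u) = v u) (t : ℝ) (u w : R9) :
    fderiv ℝ v (rotH t u) (rotH t w) = fderiv ℝ v u w :=
  fd_equiv (rotE t) (h t) u w

theorem fd_neg {v : R9 → ℝ} (h : ∀ u : R9, v (-u) = v u) (u w : R9) :
    fderiv ℝ v (-u) w = -fderiv ℝ v u w := by
  have h1 := fd_equiv (v := v) (ContinuousLinearEquiv.neg ℝ) h u (-w)
  have h2 : fderiv ℝ v (-u) (- -w) = fderiv ℝ v u (-w) := h1
  rw [neg_neg, map_neg] at h2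
  exact h2

theorem PhiM.even {v : R9 → ℝ} (hv : PhiM v) (u : R9) : v (-u) = v u := by
  have h := hv.hom (-1) u
  rw [neg_one_smul] at h
  rw [h]; ring

theorem alM_rotH {v : R9 → ℝ} (hv : PhiM v) (t : ℝ) (u b : R9) :
    alM v (rotH t u) (rotH t b) = alM v u b := by
  unfold alM
  rw [← rotH_rot, fd_rotH hv.inv]

theorem rot_neg (b : R9) : rot (-b) = -rot b := by
  refine Prod.ext ?_ (Prod.ext ?_ ?_) <;> simp [rot]

theorem alM_neg_left {v : R9 → ℝ} (hv : PhiM v) (u b : R9) : alM v (-u) b = -alM v u b :=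
  fd_neg (PhiM.even hv) u (rot b)

theorem alM_neg_right (v : R9 → ℝ) (u b : R9) : alM v u (-b) = -alM v u b := by
  unfold alM
  rw [rot_neg, map_neg]

/-! ### the symmetries of the base -/

/-- `(p, q) ↦ (-p, q)` -/
def sP (z : R6) : R6 := (-z.1, z.2)

/-- `(p, q) ↦ (p, -q)` -/
def sQ (z : R6) : R6 := (z.1, -z.2)

theorem sP_base {z : R6} : sP z ∈ base ↔ z ∈ base := by
  unfold base sP
  simp

theorem sQ_base {z : R6} : sQ z ∈ base ↔ z ∈ base := by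
  unfold base sQ
  simp

theorem sP_U6 {z : R6} : sP z ∈ U6 ↔ z ∈ U6 := by
  unfold U6 sP
  simp

theorem sQ_U6 {z : R6} : sQ z ∈ U6 ↔ z ∈ U6 := by
  unfold U6 sQ
  simp

theorem n3_neg (p : R3) : n3 (-p) = n3 p := by
  unfold n3
  simp

theorem rotH_pi (u : R9) : rotH Real.pi u = (u.1, -u.2.1, -u.2.2) := by
  unfold rotH
  rw [Real.cos_pi, Real.sin_pi]
  simp

theorem uA_sP (z : R6) : uA (sP z) = -rotH Real.pi (uA z) := by
  rw [rotH_pi]
  simp [uA, sP]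

theorem b1A_sP (z : R6) : b1A (sP z) = rotH Real.pi (b1A z) := by
  rw [rotH_pi]
  simp [b1A, sP]

theorem b2A_sP (z : R6) : b2A (sP z) = rotH Real.pi (b2A z) := by
  rw [rotH_pi]
  simp [b2A, sP, n3_neg]

theorem uA_sQ (z : R6) : uA (sQ z) = rotH Real.pi (uA z) := by
  rw [rotH_pi]
  simp [uA, sQ]

theorem b1A_sQ (z : R6) : b1A (sQ z) = -rotH Real.pi (b1A z) := by
  rw [rotH_pi]
  simp [b1A, sQ]

theorem b2A_sQ (z : R6) : b2A (sQ z) = -rotH Real.pi (b2A z) := by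
  rw [rotH_pi]
  simp [b2A, sQ]

theorem qp_neg (p q : R3) : q ⨯₃ (-p) = -(q ⨯₃ p) := map_neg _ _

theorem uB_sP (z : R6) : uB (sP z) = -uB z := by
  unfold uB sP
  rw [n3_neg, qp_neg, smul_neg, smul_neg, ← smul_neg (√2)⁻¹]
  rfl

theorem b1B_sP (z : R6) : b1B (sP z) = -b1B z := by
  unfold b1B sP
  rw [n3_neg, qp_neg, smul_neg, smul_neg, ← smul_neg (√2)⁻¹]
  rfl

theorem b2B_sP (z : R6) : b2B (sP z) = -b2B z := by
  unfold b2B sP
  rw [n3_neg, qp_neg, smul_neg, smul_neg, smul_neg, ← smul_neg (√2)⁻¹]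
  rfl

/-! ### parity of the data -/

variable {v : R9 → ℝ}

theorem V_A_sP (hv : PhiM v) (z : R6) : v (uA (sP z)) = v (uA z) := by
  rw [uA_sP, PhiM.even hv, hv.inv]

theorem V_A_sQ (hv : PhiM v) (z : R6) : v (uA (sQ z)) = v (uA z) := by
  rw [uA_sQ, hv.inv]

theorem V_B_sP (hv : PhiM v) (z : R6) : v (uB (sP z)) = v (uB z) := by
  rw [uB_sP, PhiM.even hv]

theorem al1A_sP (hv : PhiM v) (z : R6) : alM v (uA (sP z)) (b1A (sP z)) = -alM v (uA z) (b1A z) := by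
  rw [uA_sP, b1A_sP, alM_neg_left hv, alM_rotH hv]

theorem al2A_sP (hv : PhiM v) (z : R6) : alM v (uA (sP z)) (b2A (sP z)) = -alM v (uA z) (b2A z) := by
  rw [uA_sP, b2A_sP, alM_neg_left hv, alM_rotH hv]

theorem al1A_sQ (hv : PhiM v) (z : R6) : alM v (uA (sQ z)) (b1A (sQ z)) = -alM v (uA z) (b1A z) := by
  rw [uA_sQ, b1A_sQ, alM_neg_right, alM_rotH hv]

theorem al2A_sQ (hv : PhiM v) (z : R6) : alM v (uA (sQ z)) (b2A (sQ z)) = -alM v (uA z) (b2A z) := by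
  rw [uA_sQ, b2A_sQ, alM_neg_right, alM_rotH hv]

theorem al1B_sP (hv : PhiM v) (z : R6) : alM v (uB (sP z)) (b1B (sP z)) = alM v (uB z) (b1B z) := by
  rw [uB_sP, b1B_sP, alM_neg_right, alM_neg_left hv, neg_neg]

theorem al2B_sP (hv : PhiM v) (z : R6) : alM v (uB (sP z)) (b2B (sP z)) = alM v (uB z) (b2B z) := by
  rw [uB_sP, b2B_sP, alM_neg_right, alM_neg_left hv, neg_neg]

theorem omA_sP (hv : PhiM v) (z : R6) : omA v (sP z) = -omA v z := by
  unfold omA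
  have h1 : ((0, 0, (sP z).1 ⨯₃ (sP z).2) : R9) = rotH Real.pi (0, 0, z.1 ⨯₃ z.2) := by
    rw [rotH_pi]; simp [sP]
  rw [h1, uA_sP, fd_neg (PhiM.even hv), fd_rotH hv.inv]
  simp only [sP, n3_neg, neg_div]

theorem omA_sQ (hv : PhiM v) (z : R6) : omA v (sQ z) = omA v z := by
  unfold omA
  have h1 : ((0, 0, (sQ z).1 ⨯₃ (sQ z).2) : R9) = rotH Real.pi (0, 0, z.1 ⨯₃ z.2) := by
    rw [rotH_pi]; simp [sQ]
  rw [h1, uA_sQ, fd_rotH hv.inv]
  simp [sQ]

theorem omB_sP (hv : PhiM v) (z : R6) : omB v (sP z) = -omB v z := by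
  unfold omB
  rw [uB_sP, fd_neg (PhiM.even hv)]
  simp only [sP, n3_neg]
  ring

end FDB

end Pool.Agent.FL.S2
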