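import Pool.Agent.FL.Inv0

/-!
# MP_f09395_gt: joint continuity of the third order form in smooth families, openness

`F : R × m → ℝ` is a family of functions `F (p, ·)` on `m`, smooth outside `u = 0`.
-/

set_option linter.unusedSectionVars false

noncomputable section

namespace Pool.Agent.FL

open scoped ContDiff
open Pool.Agent.Helper93.Fin Pool.Agent.helper79.FP Pool.Agent.helper79.FR
open Filter Topology

/-! ### derivatives on open sets -/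

section OpenSet

variable {X N : Type*} [NormedAddCommGroup X] [NormedSpace ℝ X] [NormedAddCommGroup N]
  [NormedSpace ℝ N] {O : Set X} {F : X → ℝ}

theorem op_diff (hO : IsOpen O) {G : X → N} (hG : ContDiffOn ℝ ∞ G O) {x : X} (hx : x ∈ O) :
    DifferentiableAt ℝ G x :=
  (hG.contDiffAt (hO.mem_nhds hx)).differentiableAt (by simp)

theorem op_fderiv (hO : IsOpen O) {G : X → N} (hG : ContDiffOn ℝ ∞ G O) :
    ContDiffOn ℝ ∞ (fderiv ℝ G) O :=
  hG.fderiv_of_isOpen hO (by norm_cast)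

theorem op_ap {G : X → (X →L[ℝ] N)} (hG : ContDiffOn ℝ ∞ G O) (w : X) :
    ContDiffOn ℝ ∞ (fun z => G z w) O := hG.clm_apply contDiffOn_const

theorem op_ap_fderiv (hO : IsOpen O) {G : X → (X →L[ℝ] N)} (hG : ContDiffOn ℝ ∞ G O) (w : X)
    {x : X} (hx : x ∈ O) (w' : X) : fderiv ℝ (fun z => G z w) x w' = (fderiv ℝ G x w') w := by
  have h1 := (op_diff hO hG hx).hasFDerivAt.clm_apply (hasFDerivAt_const w x)
  rw [h1.fderiv]
  simp

theorem op_congr (hO : IsOpen O) {f f' : X → ℝ} (hf : ∀ z ∈ O, f z = f' z) {x : X} (hx : x ∈ O)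
    (a : X) : fderiv ℝ f x a = fderiv ℝ f' x a := by
  have h1 : f =ᶠ[𝓝 x] f' := by
    filter_upwards [hO.mem_nhds hx] with z hz
    exact hf z hz
  rw [h1.fderiv_eq]

theorem op_D2 (hO : IsOpen O) (hF : ContDiffOn ℝ ∞ F O) {x : X} (hx : x ∈ O) (a b : X) :
    D2 F x a b = (fderiv ℝ (fderiv ℝ F) x b) a :=
  op_ap_fderiv hO (op_fderiv hO hF) a hx b

theorem op_D3 (hO : IsOpen O) (hF : ContDiffOn ℝ ∞ F O) {x : X} (hx : x ∈ O) (a b c : X) :
    D3 F x a b c = ((fderiv ℝ (fderiv ℝ (fderiv ℝ F)) x c) b) a := by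
  have h1 := op_fderiv hO (op_fderiv hO hF)
  rw [D3, op_congr hO (fun z hz => op_D2 hO hF hz a b) hx,
    op_ap_fderiv hO (op_ap h1 b) a hx, op_ap_fderiv hO h1 b hx]

theorem op_D4 (hO : IsOpen O) (hF : ContDiffOn ℝ ∞ F O) {x : X} (hx : x ∈ O) (a b c d : X) :
    D4 F x a b c d = (((fderiv ℝ (fderiv ℝ (fderiv ℝ (fderiv ℝ F))) x d) c) b) a := by
  have h1 := op_fderiv hO (op_fderiv hO (op_fderiv hO hF))
  rw [D4, op_congr hO (fun z hz => op_D3 hO hF hz a b c) hx,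
    op_ap_fderiv hO (op_ap (op_ap h1 c) b) a hx, op_ap_fderiv hO (op_ap h1 c) b hx,
    op_ap_fderiv hO h1 c hx]

theorem op_D1_smooth (hO : IsOpen O) (hF : ContDiffOn ℝ ∞ F O) (a : X) :
    ContDiffOn ℝ ∞ (fun x => D1 F x a) O := op_ap (op_fderiv hO hF) a

theorem op_D2_smooth (hO : IsOpen O) (hF : ContDiffOn ℝ ∞ F O) (a b : X) :
    ContDiffOn ℝ ∞ (fun x => D2 F x a b) O :=
  (op_ap (op_ap (op_fderiv hO (op_fderiv hO hF)) b) a).congr fun _ hx => op_D2 hO hF hx a b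

theorem op_D3_smooth (hO : IsOpen O) (hF : ContDiffOn ℝ ∞ F O) (a b c : X) :
    ContDiffOn ℝ ∞ (fun x => D3 F x a b c) O :=
  (op_ap (op_ap (op_ap (op_fderiv hO (op_fderiv hO (op_fderiv hO hF))) c) b) a).congr
    fun _ hx => op_D3 hO hF hx a b c

variable {ι : Type*} {l : Filter ι} {x a b c d : ι → X} {x₀ a₀ b₀ c₀ d₀ : X}

theorem op_tendsto (hO : IsOpen O) {G : X → N} (hG : ContDiffOn ℝ ∞ G O) (hx₀ : x₀ ∈ O)
    (hx : Tendsto x l (𝓝 x₀)) : Tendsto (fun n => G (x n)) l (𝓝 (G x₀)) :=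
  ((hG.continuousOn.continuousAt (hO.mem_nhds hx₀)).tendsto).comp hx

theorem op_D1_tendsto (hO : IsOpen O) (hF : ContDiffOn ℝ ∞ F O) (hx₀ : x₀ ∈ O)
    (hx : Tendsto x l (𝓝 x₀)) (ha : Tendsto a l (𝓝 a₀)) :
    Tendsto (fun n => D1 F (x n) (a n)) l (𝓝 (D1 F x₀ a₀)) :=
  clm_tendsto (op_tendsto hO (op_fderiv hO hF) hx₀ hx) ha

theorem op_D2_tendsto (hO : IsOpen O) (hF : ContDiffOn ℝ ∞ F O) (hx₀ : x₀ ∈ O)
    (hx : Tendsto x l (𝓝 x₀)) (ha : Tendsto a l (𝓝 a₀)) (hb : Tendsto b l (𝓝 b₀)) :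
    Tendsto (fun n => D2 F (x n) (a n) (b n)) l (𝓝 (D2 F x₀ a₀ b₀)) := by
  rw [op_D2 hO hF hx₀]
  refine Tendsto.congr' ?_ (clm_tendsto (clm_tendsto
    (op_tendsto hO (op_fderiv hO (op_fderiv hO hF)) hx₀ hx) hb) ha)
  exact (hx.eventually (hO.mem_nhds hx₀)).mono fun n hn => (op_D2 hO hF hn _ _).symm

theorem op_D3_tendsto (hO : IsOpen O) (hF : ContDiffOn ℝ ∞ F O) (hx₀ : x₀ ∈ O)
    (hx : Tendsto x l (𝓝 x₀)) (ha : Tendsto a l (𝓝 a₀)) (hb : Tendsto b l (𝓝 b₀))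
    (hc : Tendsto c l (𝓝 c₀)) :
    Tendsto (fun n => D3 F (x n) (a n) (b n) (c n)) l (𝓝 (D3 F x₀ a₀ b₀ c₀)) := by
  rw [op_D3 hO hF hx₀]
  refine Tendsto.congr' ?_ (clm_tendsto (clm_tendsto (clm_tendsto
    (op_tendsto hO (op_fderiv hO (op_fderiv hO (op_fderiv hO hF))) hx₀ hx) hc) hb) ha)
  exact (hx.eventually (hO.mem_nhds hx₀)).mono fun n hn => (op_D3 hO hF hn _ _ _).symm

theorem op_D4_tendsto (hO : IsOpen O) (hF : ContDiffOn ℝ ∞ F O) (hx₀ : x₀ ∈ O)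
    (hx : Tendsto x l (𝓝 x₀)) (ha : Tendsto a l (𝓝 a₀)) (hb : Tendsto b l (𝓝 b₀))
    (hc : Tendsto c l (𝓝 c₀)) (hd : Tendsto d l (𝓝 d₀)) :
    Tendsto (fun n => D4 F (x n) (a n) (b n) (c n) (d n)) l (𝓝 (D4 F x₀ a₀ b₀ c₀ d₀)) := by
  rw [op_D4 hO hF hx₀]
  refine Tendsto.congr' ?_ (clm_tendsto (clm_tendsto (clm_tendsto (clm_tendsto
    (op_tendsto hO (op_fderiv hO (op_fderiv hO (op_fderiv hO (op_fderiv hO hF)))) hx₀ hx) hd) hc)
    hb) ha)
  exact (hx.eventually (hO.mem_nhds hx₀)).mono fun n hn => (op_D4 hO hF hn _ _ _ _).symm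

end OpenSet

/-! ### slices of smooth families -/

section Slice

variable {R E : Type*} [NormedAddCommGroup R] [NormedSpace ℝ R] [NormedAddCommGroup E]
  [NormedSpace ℝ E]

/-- the domain of a family -/
def parU (R E : Type*) [NormedAddCommGroup R] [NormedAddCommGroup E] : Set (R × E) :=
  Set.univ ×ˢ ({0}ᶜ : Set E)

theorem parU_open : IsOpen (parU R E) := isOpen_univ.prod isOpen_compl_singleton

theorem par_mem (p : R) {u : E} (hu : u ≠ 0) : (p, u) ∈ parU R E := ⟨Set.mem_univ _, hu⟩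

theorem par_slice {G : R × E → ℝ} (hG : ContDiffOn ℝ ∞ G (parU R E)) (p : R) :
    ContDiffOn ℝ ∞ (fun u => G (p, u)) {0}ᶜ :=
  hG.comp (contDiff_const.prodMk contDiff_id).contDiffOn fun _ hu => ⟨Set.mem_univ _, hu⟩

theorem par_D1 {G : R × E → ℝ} (hG : ContDiffOn ℝ ∞ G (parU R E)) (p : R) {u : E}
    (hu : u ≠ 0) (a : E) : D1 (fun z => G (p, z)) u a = D1 G (p, u) (0, a) := by
  have h1 : HasFDerivAt (fun z : E => (p, z)) (ContinuousLinearMap.inr ℝ R E) u :=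
    (hasFDerivAt_const p u).prodMk (hasFDerivAt_id u)
  have h2 : HasFDerivAt (fun z => G (p, z))
      ((fderiv ℝ G (p, u)).comp (ContinuousLinearMap.inr ℝ R E)) u :=
    (op_diff parU_open hG (par_mem p hu)).hasFDerivAt.comp u h1
  rw [D1, h2.fderiv]
  rfl

variable {F : R × E → ℝ}

theorem par_D2 (hF : ContDiffOn ℝ ∞ F (parU R E)) (p : R) {u : E} (hu : u ≠ 0) (a b : E) :
    D2 (fun z => F (p, z)) u a b = D2 F (p, u) (0, a) (0, b) := by
  rw [D2, fd_congr (fun z hz => par_D1 hF p hz a) hu]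
  exact par_D1 (op_D1_smooth parU_open hF (0, a)) p hu b

theorem par_D3 (hF : ContDiffOn ℝ ∞ F (parU R E)) (p : R) {u : E} (hu : u ≠ 0) (a b c : E) :
    D3 (fun z => F (p, z)) u a b c = D3 F (p, u) (0, a) (0, b) (0, c) := by
  rw [D3, fd_congr (fun z hz => par_D2 hF p hz a b) hu]
  exact par_D1 (op_D2_smooth parU_open hF (0, a) (0, b)) p hu c

theorem par_D4 (hF : ContDiffOn ℝ ∞ F (parU R E)) (p : R) {u : E} (hu : u ≠ 0) (a b c d : E) :
    D4 (fun z => F (p, z)) u a b c d = D4 F (p, u) (0, a) (0, b) (0, c) (0, d) := by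
  rw [D4, fd_congr (fun z hz => par_D3 hF p hz a b c) hu]
  exact par_D1 (op_D3_smooth parU_open hF (0, a) (0, b) (0, c)) p hu d

variable {ι : Type*} {l : Filter ι} {p : ι → R} {u a b c d : ι → E} {p₀ : R} {u₀ a₀ b₀ c₀ d₀ : E}

theorem par_dir (ha : Tendsto a l (𝓝 a₀)) :
    Tendsto (fun n => ((0 : R), a n)) l (𝓝 ((0 : R), a₀)) := tendsto_const_nhds.prodMk_nhds ha

theorem par_D1_tendsto (hF : ContDiffOn ℝ ∞ F (parU R E)) (hu₀ : u₀ ≠ 0)
    (hp : Tendsto p l (𝓝 p₀)) (hu : Tendsto u l (𝓝 u₀)) (ha : Tendsto a l (𝓝 a₀)) :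
    Tendsto (fun n => D1 (fun z => F (p n, z)) (u n) (a n)) l
      (𝓝 (D1 (fun z => F (p₀, z)) u₀ a₀)) := by
  rw [par_D1 hF p₀ hu₀]
  refine Tendsto.congr' ?_ (op_D1_tendsto parU_open hF (par_mem p₀ hu₀) (hp.prodMk_nhds hu)
    (par_dir ha))
  exact (hu.eventually (eventually_ne' hu₀)).mono fun n hn => (par_D1 hF _ hn _).symm

theorem par_D2_tendsto (hF : ContDiffOn ℝ ∞ F (parU R E)) (hu₀ : u₀ ≠ 0)
    (hp : Tendsto p l (𝓝 p₀)) (hu : Tendsto u l (𝓝 u₀)) (ha : Tendsto a l (𝓝 a₀))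
    (hb : Tendsto b l (𝓝 b₀)) :
    Tendsto (fun n => D2 (fun z => F (p n, z)) (u n) (a n) (b n)) l
      (𝓝 (D2 (fun z => F (p₀, z)) u₀ a₀ b₀)) := by
  rw [par_D2 hF p₀ hu₀]
  refine Tendsto.congr' ?_ (op_D2_tendsto parU_open hF (par_mem p₀ hu₀) (hp.prodMk_nhds hu)
    (par_dir ha) (par_dir hb))
  exact (hu.eventually (eventually_ne' hu₀)).mono fun n hn => (par_D2 hF _ hn _ _).symm

theorem par_D3_tendsto (hF : ContDiffOn ℝ ∞ F (parU R E)) (hu₀ : u₀ ≠ 0)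
    (hp : Tendsto p l (𝓝 p₀)) (hu : Tendsto u l (𝓝 u₀)) (ha : Tendsto a l (𝓝 a₀))
    (hb : Tendsto b l (𝓝 b₀)) (hc : Tendsto c l (𝓝 c₀)) :
    Tendsto (fun n => D3 (fun z => F (p n, z)) (u n) (a n) (b n) (c n)) l
      (𝓝 (D3 (fun z => F (p₀, z)) u₀ a₀ b₀ c₀)) := by
  rw [par_D3 hF p₀ hu₀]
  refine Tendsto.congr' ?_ (op_D3_tendsto parU_open hF (par_mem p₀ hu₀) (hp.prodMk_nhds hu)
    (par_dir ha) (par_dir hb) (par_dir hc))
  exact (hu.eventually (eventually_ne' hu₀)).mono fun n hn => (par_D3 hF _ hn _ _ _).symm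

theorem par_D4_tendsto (hF : ContDiffOn ℝ ∞ F (parU R E)) (hu₀ : u₀ ≠ 0)
    (hp : Tendsto p l (𝓝 p₀)) (hu : Tendsto u l (𝓝 u₀)) (ha : Tendsto a l (𝓝 a₀))
    (hb : Tendsto b l (𝓝 b₀)) (hc : Tendsto c l (𝓝 c₀)) (hd : Tendsto d l (𝓝 d₀)) :
    Tendsto (fun n => D4 (fun z => F (p n, z)) (u n) (a n) (b n) (c n) (d n)) l
      (𝓝 (D4 (fun z => F (p₀, z)) u₀ a₀ b₀ c₀ d₀)) := by
  rw [par_D4 hF p₀ hu₀]
  refine Tendsto.congr' ?_ (op_D4_tendsto parU_open hF (par_mem p₀ hu₀) (hp.prodMk_nhds hu)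
    (par_dir ha) (par_dir hb) (par_dir hc) (par_dir hd))
  exact (hu.eventually (eventually_ne' hu₀)).mono fun n hn => (par_D4 hF _ hn _ _ _ _).symm

end Slice

/-! ### compactness -/

theorem par_open {R X : Type*} [TopologicalSpace R] [TopologicalSpace X] {K : Set X}
    (hK : IsCompact K) {p₀ : R} {A : R × X → ℝ} {κ : Type*} {T : κ → R × X → ℝ}
    (hA : ContinuousOn A (Set.univ ×ˢ K)) (hT : ∀ i, ContinuousOn (T i) (Set.univ ×ˢ K))
    (h : ∀ x ∈ K, A (p₀, x) = 0 → ∃ i, 0 < T i (p₀, x)) :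
    ∀ᶠ p in 𝓝 p₀, ∀ x ∈ K, A (p, x) = 0 → ∃ i, 0 < T i (p, x) := by
  haveI : CompactSpace K := isCompact_iff_compactSpace.1 hK
  have hc : Continuous (fun z : R × K => ((z.1, (z.2 : X)) : R × X)) :=
    continuous_fst.prodMk (continuous_subtype_val.comp continuous_snd)
  have hA' : Continuous (fun z : R × K => A (z.1, (z.2 : X))) :=
    hA.comp_continuous hc fun z => ⟨Set.mem_univ _, z.2.2⟩
  have hT' : ∀ i, Continuous (fun z : R × K => T i (z.1, (z.2 : X))) := fun i =>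
    (hT i).comp_continuous hc fun z => ⟨Set.mem_univ _, z.2.2⟩
  have key : ∀ᶠ p in 𝓝 p₀, ∀ x ∈ (Set.univ : Set K), A (p, (x : X)) = 0 →
      ∃ i, 0 < T i (p, (x : X)) := by
    refine isCompact_univ.eventually_forall_of_forall_eventually
      (P := fun p (x : K) => A (p, (x : X)) = 0 → ∃ i, 0 < T i (p, (x : X))) fun x _ => ?_
    by_cases hx : A (p₀, (x : X)) = 0
    · obtain ⟨i, hi⟩ := h x x.2 hx
      have h1 := (hT' i).continuousAt (x := (p₀, x))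
      filter_upwards [h1.eventually (lt_mem_nhds hi)] with z hz _
      exact ⟨i, hz⟩
    · have h1 := hA'.continuousAt (x := (p₀, x))
      filter_upwards [h1.eventually (isOpen_compl_singleton.mem_nhds hx)] with z hz h0
      exact absurd h0 hz
  filter_upwards [key] with p hp x hx h0
  exact hp ⟨x, hx⟩ (Set.mem_univ _) h0

/-- version with finitely many equations -/
theorem par_open' {R X : Type*} [TopologicalSpace R] [TopologicalSpace X] {K : Set X}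
    (hK : IsCompact K) {p₀ : R} {σ : Type*} {A : σ → R × X → ℝ} {κ : Type*} {T : κ → R × X → ℝ}
    (hA : ∀ i, ContinuousOn (A i) (Set.univ ×ˢ K)) (hT : ∀ i, ContinuousOn (T i) (Set.univ ×ˢ K))
    (h : ∀ x ∈ K, (∀ i, A i (p₀, x) = 0) → ∃ i, 0 < T i (p₀, x)) :
    ∀ᶠ p in 𝓝 p₀, ∀ x ∈ K, (∀ i, A i (p, x) = 0) → ∃ i, 0 < T i (p, x) := by
  have h2 := par_open hK (p₀ := p₀) (A := fun _ => 0) (κ := σ ⊕ κ)
    (T := fun i z => Sum.elim (fun i => |A i z|) (fun i => T i z) i) continuousOn_const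
    (by rintro (i | i)
        · exact (hA i).abs
        · exact hT i)
    (by
      intro x hx _
      by_cases h0 : ∀ i, A i (p₀, x) = 0
      · obtain ⟨i, hi⟩ := h x hx h0
        exact ⟨Sum.inr i, hi⟩
      · push Not at h0
        obtain ⟨i, hi⟩ := h0
        exact ⟨Sum.inl i, abs_pos.2 hi⟩)
  filter_upwards [h2] with p hp x hx h0
  obtain ⟨i, hi⟩ := hp x hx rfl
  rcases i with i | i
  · simp [h0 i] at hi
  · exact ⟨i, hi⟩

/-! ### the third order form -/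

variable {𝔸 : Type*} [NormedRing 𝔸] [NormedAlgebra ℝ 𝔸] [FiniteDimensional ℝ 𝔸]
variable {g h m : Submodule ℝ 𝔸} {Q : 𝔸 →ₗ[ℝ] 𝔸 →ₗ[ℝ] ℝ} {P : 𝔸 →L[ℝ] m}
variable {h0 : 𝔸} {B : m → 𝔸} {c : m → ℝ} {H : Subgroup 𝔸ˣ}
variable {R : Type*} [NormedAddCommGroup R] [NormedSpace ℝ R] {F : R × m → ℝ}

theorem par_gx_tendsto (hN : NData g h m Q P) (hF : ContDiffOn ℝ ∞ F (parU R m)) {ι : Type*}
    {l : Filter ι} {p : ι → R} {u : ι → m} {p₀ : R} {u₀ : m} (hu₀ : u₀ ≠ 0)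
    (hp : Tendsto p l (𝓝 p₀)) (hu : Tendsto u l (𝓝 u₀)) :
    Tendsto (fun n => gx Q (fun z => F (p n, z)) (u n)) l (𝓝 (gx Q (fun z => F (p₀, z)) u₀)) := by
  refine solve0 hN fun w => ?_
  simp only [gx_spec hN]
  exact par_D1_tendsto hF hu₀ hp hu tendsto_const_nhds

theorem par_T3F_tendsto (hN : NData g h m Q P) (hF : ContDiffOn ℝ ∞ F (parU R m)) {ι : Type*}
    {l : Filter ι} {p : ι → R} {u b : ι → m} {p₀ : R} {u₀ b₀ : m} (hu₀ : u₀ ≠ 0)
    (hp : Tendsto p l (𝓝 p₀)) (hu : Tendsto u l (𝓝 u₀)) (hb : Tendsto b l (𝓝 b₀)) :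
    Tendsto (fun n => T3F Q P (fun z => F (p n, z)) (u n) (b n)) l
      (𝓝 (T3F Q P (fun z => F (p₀, z)) u₀ b₀)) := by
  have cst : ∀ w : m, Tendsto (fun _ : ι => w) l (𝓝 w) := fun w => tendsto_const_nhds
  have lx := par_gx_tendsto hN hF hu₀ hp hu
  have ls : Tendsto (fun n => gs Q (fun z => F (p n, z)) (u n) (b n)) l
      (𝓝 (gs Q (fun z => F (p₀, z)) u₀ b₀)) := by
    refine solve0 hN fun w => ?_
    simp only [gs_spec hN]
    exact par_D2_tendsto hF hu₀ hp hu hb (cst w)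
  have ly : Tendsto (fun n => gy Q (fun z => F (p n, z)) (u n) (b n)) l
      (𝓝 (gy Q (fun z => F (p₀, z)) u₀ b₀)) := by
    refine solve0 hN fun w => ?_
    simp only [gy_spec hN]
    exact par_D3_tendsto hF hu₀ hp hu hb hb (cst w)
  have e1 := P_tendsto (P := P) (Lim5.br_tendsto (val_tendsto hu) (val_tendsto lx))
  have p1 := P_tendsto (P := P) (Lim5.br_tendsto (val_tendsto hb) (val_tendsto lx))
  have q1 := P_tendsto (P := P) (Lim5.br_tendsto (val_tendsto hu) (val_tendsto ls))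
  have c2 : Tendsto (fun _ : ι => (2 : ℝ)) l (𝓝 2) := tendsto_const_nhds
  have r1 := P_tendsto (P := P) ((c2.smul (Lim5.br_tendsto (val_tendsto hb)
    (val_tendsto ls))).add (Lim5.br_tendsto (val_tendsto hu) (val_tendsto ly)))
  unfold T3F T3N
  refine (((((((tendsto_const_nhds.mul (par_D4_tendsto hF hu₀ hp hu hb hb e1 e1)).sub
    (par_D3_tendsto hF hu₀ hp hu hb e1 ((c2.smul p1).sub q1))).add
    (tendsto_const_nhds.mul (par_D2_tendsto hF hu₀ hp hu e1 r1))).sub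
    (par_D2_tendsto hF hu₀ hp hu p1 p1)).add (par_D2_tendsto hF hu₀ hp hu p1 q1)).sub
    (par_D2_tendsto hF hu₀ hp hu q1 q1)).sub
    (Lim5.Q_tendsto Q (val_tendsto (p1.sub q1))
      (Lim5.br_tendsto (val_tendsto lx) (val_tendsto ls)))).sub
    (tendsto_const_nhds.mul (Lim5.Q_tendsto Q
      (Lim5.br_tendsto (val_tendsto lx) (val_tendsto ly)) (val_tendsto e1)))

theorem par_contOn {N : Type*} [TopologicalSpace N] {G : R × (m × m) → N} {S : Set (m × m)}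
    (hS : ∀ q ∈ S, q.1 ≠ 0)
    (hG : ∀ (z : R × (m × m)), z.2.1 ≠ 0 → Tendsto G (𝓝 z) (𝓝 (G z))) :
    ContinuousOn G (Set.univ ×ˢ S) :=
  fun z hz => (hG z (hS z.2 hz.2)).mono_left nhdsWithin_le_nhds

theorem par_T3F_cont (hN : NData g h m Q P) (hF : ContDiffOn ℝ ∞ F (parU R m)) {S : Set (m × m)}
    (hS : ∀ q ∈ S, q.1 ≠ 0) : ContinuousOn (fun z : R × (m × m) =>
      T3F Q P (fun w => F (z.1, w)) z.2.1 z.2.2) (Set.univ ×ˢ S) :=
  par_contOn hS fun z hz => par_T3F_tendsto hN hF hz (continuous_fst.tendsto z)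
    ((continuous_fst.comp continuous_snd).tendsto z)
    ((continuous_snd.comp continuous_snd).tendsto z)

theorem par_al_cont (hF : ContDiffOn ℝ ∞ F (parU R m)) {S : Set (m × m)}
    (hS : ∀ q ∈ S, q.1 ≠ 0) : ContinuousOn (fun z : R × (m × m) =>
      al P h0 (fun w => F (z.1, w)) z.2.1 z.2.2) (Set.univ ×ˢ S) :=
  par_contOn hS fun z hz => par_D1_tendsto hF hz (continuous_fst.tendsto z)
    ((continuous_fst.comp continuous_snd).tendsto z)
    (h0b_tendsto ((continuous_snd.comp continuous_snd).tendsto z))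

theorem par_al'_cont (hF : ContDiffOn ℝ ∞ F (parU R m)) {S : Set (m × m)}
    (hS : ∀ q ∈ S, q.1 ≠ 0) : ContinuousOn (fun z : R × (m × m) =>
      al' P h0 (fun w => F (z.1, w)) z.2.1 z.2.2) (Set.univ ×ˢ S) :=
  par_contOn hS fun z hz => par_D2_tendsto hF hz (continuous_fst.tendsto z)
    ((continuous_fst.comp continuous_snd).tendsto z)
    ((continuous_snd.comp continuous_snd).tendsto z)
    (h0b_tendsto ((continuous_snd.comp continuous_snd).tendsto z))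

/-! ### finite-dimensional linear families -/

variable {κ : Type*} [Fintype κ]

/-- the family `v + ∑ p i * f i` -/
def linF (v : m → ℝ) (f : κ → m → ℝ) (z : (κ → ℝ) × m) : ℝ := v z.2 + ∑ i, z.1 i * f i z.2

theorem linF_smooth {v : m → ℝ} {f : κ → m → ℝ} (hv : ContDiffOn ℝ ∞ v {0}ᶜ)
    (hf : ∀ i, ContDiffOn ℝ ∞ (f i) {0}ᶜ) : ContDiffOn ℝ ∞ (linF v f) (parU (κ → ℝ) m) := by
  have h1 : ∀ {f : m → ℝ}, ContDiffOn ℝ ∞ f {0}ᶜ →
      ContDiffOn ℝ ∞ (fun z : (κ → ℝ) × m => f z.2) (parU (κ → ℝ) m) := fun hf =>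
    hf.comp contDiff_snd.contDiffOn fun _ hz => hz.2
  refine (h1 hv).add (ContDiffOn.sum fun i _ => ContDiffOn.mul ?_ (h1 (hf i)))
  exact ((contDiff_apply ℝ ℝ i).comp contDiff_fst).contDiffOn

theorem linF_zero (v : m → ℝ) (f : κ → m → ℝ) : (fun u => linF v f (0, u)) = v := by
  funext u; simp [linF]

theorem linF_phiN {v : m → ℝ} {f : κ → m → ℝ} (hv : PhiN h m P v) (hf : ∀ i, PhiN h m P (f i))
    (p : κ → ℝ) : PhiN h m P (fun u => linF v f (p, u)) :=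
  phiN_add hv (phiN_sum _ fun i _ => phiN_smul (hf i) (p i))

theorem linF_invH {v : m → ℝ} {f : κ → m → ℝ} (hv : InvH H v) (hf : ∀ i, InvH H (f i))
    (p : κ → ℝ) : InvH H (fun u => linF v f (p, u)) :=
  invH_add hv (invH_sum _ fun i _ => invH_smul (hf i) (p i))

/-- **openness of `T3 > 0` on a compact set of flags** -/
theorem par_T3F_open (hN : NData g h m Q P) (hF : ContDiffOn ℝ ∞ F (parU R m)) {K : Set (m × m)}
    (hK : IsCompact K) (hS : ∀ q ∈ K, q.1 ≠ 0) {p₀ : R}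
    (hT : ∀ q ∈ K, al P h0 (fun w => F (p₀, w)) q.1 q.2 = 0 →
      0 < T3F Q P (fun w => F (p₀, w)) q.1 q.2) :
    ∀ᶠ p in 𝓝 p₀, ∀ q ∈ K, al P h0 (fun w => F (p, w)) q.1 q.2 = 0 →
      0 < T3F Q P (fun w => F (p, w)) q.1 q.2 := by
  have h1 := par_open (κ := Unit) hK (p₀ := p₀)
    (A := fun z : R × (m × m) => al P h0 (fun w => F (z.1, w)) z.2.1 z.2.2)
    (T := fun _ z => T3F Q P (fun w => F (z.1, w)) z.2.1 z.2.2) (par_al_cont hF hS)
    (fun _ => par_T3F_cont hN hF hS) (fun q hq h0' => ⟨(), hT q hq h0'⟩)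
  filter_upwards [h1] with p hp q hq h0'
  obtain ⟨-, h2⟩ := hp q hq h0'
  exact h2

/-- the same for `T3 > 0 ∨ al' > 0` -/
theorem par_T3F_al'_open (hN : NData g h m Q P) (hF : ContDiffOn ℝ ∞ F (parU R m))
    {K : Set (m × m)} (hK : IsCompact K) (hS : ∀ q ∈ K, q.1 ≠ 0) {p₀ : R}
    (hT : ∀ q ∈ K, al P h0 (fun w => F (p₀, w)) q.1 q.2 = 0 →
      0 < T3F Q P (fun w => F (p₀, w)) q.1 q.2 ∨ 0 < al' P h0 (fun w => F (p₀, w)) q.1 q.2) :
    ∀ᶠ p in 𝓝 p₀, ∀ q ∈ K, al P h0 (fun w => F (p, w)) q.1 q.2 = 0 →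
      0 < T3F Q P (fun w => F (p, w)) q.1 q.2 ∨ 0 < al' P h0 (fun w => F (p, w)) q.1 q.2 := by
  have h1 := par_open (κ := Bool) hK (p₀ := p₀)
    (A := fun z : R × (m × m) => al P h0 (fun w => F (z.1, w)) z.2.1 z.2.2)
    (T := fun i z => if i then T3F Q P (fun w => F (z.1, w)) z.2.1 z.2.2
      else al' P h0 (fun w => F (z.1, w)) z.2.1 z.2.2) (par_al_cont hF hS)
    (fun i => by
      cases i
      · simpa using par_al'_cont hF hS
      · simpa using par_T3F_cont hN hF hS)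
    (fun q hq h0' => by
      rcases hT q hq h0' with h2 | h2
      · exact ⟨true, by simpa using h2⟩
      · exact ⟨false, by simpa using h2⟩)
  filter_upwards [h1] with p hp q hq h0'
  obtain ⟨i, h2⟩ := hp q hq h0'
  cases i
  · right; simpa using h2
  · left; simpa using h2

end Pool.Agent.FL
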