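import Pool.Agent.FL.FTdefs
import Pool.Agent.FL.Par
import Pool.Agent.FL.Pal53

/-!
# MP_f09395_gt, space (2): genericity on the base (FT1, FT2, FT3)
-/

set_option linter.unusedSectionVars false

noncomputable section

namespace Pool.Agent.FL

open Filter Topology Module
open scoped ContDiff
open Pool.Agent.helper90.FL

variable {M G : Type*} [NormedAddCommGroup M] [NormedSpace ℝ M] [FiniteDimensional ℝ M]
  [NormedAddCommGroup G] [NormedSpace ℝ G] [FiniteDimensional ℝ G]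
variable {U N : Set M} {Λ : M → ((M →L[ℝ] ℝ) →L[ℝ] M)} {ρ : M → G} {c : ℕ}
variable {ι σ : Type*} [Fintype ι] [DecidableEq ι] [Fintype σ] [DecidableEq σ] {J : ℕ}
variable {V₀ α₁ α₂ kk : M → ℝ} {om : (ι → Fin J → ℝ) → M → ℝ} {s : ι → M → ℝ} {pl : σ → M → ℝ}

theorem ft_fld (V : M → ℝ) : fld (fun _ => 0) Λ V = XV Λ V := by
  funext x; simp [fld, XV]

theorem ft_XV_smooth (hB : BaseD U N Λ ρ c) {V : M → ℝ} (hV : ContDiffOn ℝ ∞ V U) :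
    ContDiffOn ℝ ∞ (XV Λ V) U := hB.Λs.clm_apply (fder_smooth hB.hU hV)

/-! ### linear algebra -/

/-- rank of `(f, α)` when `α` does not vanish on the kernel of `f` -/
theorem ft_rank_prod {E F : Type*} [AddCommGroup E] [Module ℝ E] [FiniteDimensional ℝ E]
    [AddCommGroup F] [Module ℝ F] [FiniteDimensional ℝ F] (f : E →ₗ[ℝ] F) (α : E →ₗ[ℝ] ℝ) {a : E}
    (h1 : f a = 0) (h2 : α a ≠ 0) :
    finrank ℝ (LinearMap.range f) + 1 ≤ finrank ℝ (LinearMap.range (f.prod α)) := by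
  have e1 := LinearMap.finrank_range_add_finrank_ker f
  have e2 := LinearMap.finrank_range_add_finrank_ker (f.prod α)
  have e3 : finrank ℝ (LinearMap.ker (f.prod α)) < finrank ℝ (LinearMap.ker f) := by
    refine Submodule.finrank_lt_finrank_of_lt (lt_of_le_of_ne ?_ ?_)
    · intro x hx
      have hx' : (f x, α x) = 0 := hx
      rw [LinearMap.mem_ker]
      exact (Prod.mk_eq_zero.1 hx').1
    · intro h
      have h3 : a ∈ LinearMap.ker (f.prod α) := by rw [h]; exact h1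
      have h4 : (f a, α a) = 0 := h3
      exact h2 (Prod.mk_eq_zero.1 h4).2
  omega

/-- rank of a map into a product with an element `(0, r)` in the range -/
theorem ft_rank_snd {E F : Type*} [AddCommGroup E] [Module ℝ E] [FiniteDimensional ℝ E]
    [AddCommGroup F] [Module ℝ F] [FiniteDimensional ℝ F] (f : E →ₗ[ℝ] F) (α : E →ₗ[ℝ] ℝ) {a : E}
    (h1 : f a = 0) (h2 : α a ≠ 0) {k : ℕ} (hk : k ≤ finrank ℝ (LinearMap.range f)) :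
    k + 1 ≤ finrank ℝ (LinearMap.range (f.prod α)) :=
  (Nat.add_le_add_right hk 1).trans (ft_rank_prod f α h1 h2)

theorem ft_map_le {V A B : Type*} [AddCommGroup V] [Module ℝ V] [FiniteDimensional ℝ V]
    [AddCommGroup A] [Module ℝ A] [AddCommGroup B] [Module ℝ B] (W : Submodule ℝ V)
    (res : V →ₗ[ℝ] A) (L : V →ₗ[ℝ] B) (h : ∀ x, L x = 0 → res x = 0) :
    finrank ℝ (W.map res) ≤ finrank ℝ (W.map L) := by
  have e1 := LinearMap.finrank_range_add_finrank_ker (res.domRestrict W)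
  have e2 := LinearMap.finrank_range_add_finrank_ker (L.domRestrict W)
  have e3 : finrank ℝ (LinearMap.ker (L.domRestrict W)) ≤
      finrank ℝ (LinearMap.ker (res.domRestrict W)) := by
    refine Submodule.finrank_mono ?_
    intro ℓ hℓ
    rw [LinearMap.mem_ker, LinearMap.domRestrict_apply] at hℓ ⊢
    exact h _ hℓ
  rw [LinearMap.range_domRestrict] at e1 e2
  omega

/-- the separating functions give all directions of `T = ker f'` -/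
theorem ft_rank_dir {E F : Type*} [NormedAddCommGroup E] [NormedSpace ℝ E] [FiniteDimensional ℝ E]
    [AddCommGroup F] [Module ℝ F] [FiniteDimensional ℝ F] (f : E →ₗ[ℝ] F)
    (L : (E →L[ℝ] ℝ) →ₗ[ℝ] E) (hL : ∀ ℓ, L ℓ = 0 → ∀ a, f a = 0 → ℓ a = 0)
    (D : ι → (E →L[ℝ] ℝ)) (hD : ∀ a, f a = 0 → a ≠ 0 → ∃ i, D i a ≠ 0) {P : Type*}
    [AddCommGroup P] [Module ℝ P] [FiniteDimensional ℝ P] (T : P →ₗ[ℝ] E)
    (hT : ∀ i, ∃ q, T q = L (D i)) :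
    finrank ℝ E ≤ finrank ℝ (LinearMap.range f) + finrank ℝ (LinearMap.range T) := by
  classical
  -- the restriction to the kernel
  let res : (E →L[ℝ] ℝ) →ₗ[ℝ] Dual ℝ (LinearMap.ker f) :=
    { toFun := fun ℓ => (ℓ : E →ₗ[ℝ] ℝ) ∘ₗ (LinearMap.ker f).subtype
      map_add' := fun ℓ ℓ' => by ext x; simp
      map_smul' := fun r ℓ => by ext x; simp }
  let W : Submodule ℝ (E →L[ℝ] ℝ) := Submodule.span ℝ (Set.range D)
  have hW : W.map res = ⊤ := by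
    have h1 : (W.map res).dualCoannihilator = ⊥ := by
      rw [eq_bot_iff]
      intro a ha
      rw [Submodule.mem_dualCoannihilator] at ha
      rw [Submodule.mem_bot]
      by_contra hne
      obtain ⟨i, hi⟩ := hD a.1 a.2 (fun h => hne (Subtype.ext h))
      refine hi (ha (res (D i)) ⟨D i, Submodule.subset_span ⟨i, rfl⟩, rfl⟩)
    have h2 := Subspace.finrank_add_finrank_dualCoannihilator_eq (W.map res)
    rw [h1, finrank_bot, add_zero] at h2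
    apply Submodule.eq_top_of_finrank_eq
    rw [h2, Subspace.dual_finrank_eq]
  -- the image of the span under `L` is contained in the range of `T`
  have hLW : W.map L ≤ LinearMap.range T := by
    rw [Submodule.map_span_le]
    rintro _ ⟨i, rfl⟩
    obtain ⟨q, hq⟩ := hT i
    exact ⟨q, hq⟩
  have h3 : finrank ℝ (W.map res) ≤ finrank ℝ (W.map L) :=
    ft_map_le W res L fun ℓ hℓ => by
      ext a
      exact hL ℓ hℓ a.1 a.2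
  have h4 : finrank ℝ (W.map L) ≤ finrank ℝ (LinearMap.range T) := Submodule.finrank_mono hLW
  rw [hW, finrank_top, Subspace.dual_finrank_eq] at h3
  have h5 := LinearMap.finrank_range_add_finrank_ker f
  omega

/-! ### the family -/

/-- the field of the family as a function of `(x, τ)` -/
def ftX (Λ : M → ((M →L[ℝ] ℝ) →L[ℝ] M)) (V₀ : M → ℝ) (s : ι → M → ℝ)
    (z : M × (ι → Fin J → ℝ)) : M := XV Λ (pert V₀ s z.2) z.1

theorem ftX_smooth (hB : BaseD U N Λ ρ c) (hV : ContDiffOn ℝ ∞ V₀ U)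
    (hs : ∀ i, ContDiffOn ℝ ∞ (s i) U) :
    ContDiffOn ℝ ∞ (ftX (J := J) Λ V₀ s) (U ×ˢ Set.univ) := by
  have hUP : IsOpen (U ×ˢ (Set.univ : Set (ι → Fin J → ℝ))) := hB.hU.prod isOpen_univ
  have h1 := pert_smooth (J := J) hV hs
  have h2 : ContDiffOn ℝ ∞ (fun z : M × (ι → Fin J → ℝ) =>
      (fderiv ℝ (fun z : M × (ι → Fin J → ℝ) => pert V₀ s z.2 z.1) z) ∘L
        ContinuousLinearMap.inl ℝ M (ι → Fin J → ℝ)) (U ×ˢ Set.univ) :=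
    (fder_smooth hUP h1).clm_comp contDiffOn_const
  have h3 : ContDiffOn ℝ ∞ (fun z : M × (ι → Fin J → ℝ) => Λ z.1) (U ×ˢ Set.univ) :=
    hB.Λs.comp contDiff_fst.contDiffOn fun _ hz => hz.1
  refine (h3.clm_apply h2).congr ?_
  rintro ⟨x, τ⟩ hz
  have h4 := slice_fderiv (dif_at hUP h1 hz)
  show Λ x (fderiv ℝ (pert V₀ s τ) x) = _
  rw [← h4]

/-- the unit vector `(i, 0)` -/
def ftE (hJ : 0 < J) (i : ι) : ι → Fin J → ℝ := Pi.single i (Pi.single ⟨0, hJ⟩ 1)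

theorem ftX_dir (hB : BaseD U N Λ ρ c) (hV : ContDiffOn ℝ ∞ V₀ U)
    (hs : ∀ i, ContDiffOn ℝ ∞ (s i) U) (hJ : 0 < J) {x : M} (hx : x ∈ U) (τ : ι → Fin J → ℝ)
    (i : ι) (t : ℝ) : ftX Λ V₀ s (x, τ + t • ftE hJ i) =
      ftX Λ V₀ s (x, τ) + t • Λ x (fderiv ℝ (s i) x) := by
  have h1 : ∀ y, pert V₀ s (τ + t • ftE hJ i) y = pert V₀ s τ y + t * s i y := by
    intro y
    unfold pert
    have h2 : ∑ a, ∑ k : Fin J, (τ + t • ftE hJ i) a k * s a y ^ (k.1 + 1) =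
        ∑ a, ∑ k : Fin J, τ a k * s a y ^ (k.1 + 1) +
        ∑ a, ∑ k : Fin J, (t • ftE hJ i) a k * s a y ^ (k.1 + 1) := by
      rw [← Finset.sum_add_distrib]
      refine Finset.sum_congr rfl fun a _ => ?_
      rw [← Finset.sum_add_distrib]
      exact Finset.sum_congr rfl fun k _ => by rw [Pi.add_apply, Pi.add_apply]; ring
    have h3 : ∑ a, ∑ k : Fin J, (t • ftE hJ i) a k * s a y ^ (k.1 + 1) = t * s i y := by
      rw [Finset.sum_eq_single i]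
      · rw [Finset.sum_eq_single ⟨0, hJ⟩]
        · simp [ftE]
        · intro k _ hk; simp [ftE, Pi.single_eq_of_ne hk]
        · intro h; exact absurd (Finset.mem_univ _) h
      · intro a _ ha; simp [ftE, Pi.single_eq_of_ne ha]
      · intro h; exact absurd (Finset.mem_univ _) h
    rw [h2, h3]
    ring
  have h2 : pert V₀ s (τ + t • ftE hJ i) = fun y => pert V₀ s τ y + t * s i y := funext h1
  have h3 : HasFDerivAt (fun y => pert V₀ s τ y + t * s i y)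
      (fderiv ℝ (pert V₀ s τ) x + t • fderiv ℝ (s i) x) x :=
    (dif_at hB.hU (pert_smooth' hV hs τ) hx).hasFDerivAt.add
      ((dif_at hB.hU (hs i) hx).hasFDerivAt.const_mul t)
  show Λ x (fderiv ℝ (pert V₀ s (τ + t • ftE hJ i)) x) = Λ x (fderiv ℝ (pert V₀ s τ) x) + _
  rw [h2, h3.fderiv, map_add, map_smul]

theorem ft_dir_deriv {P F : Type*} [NormedAddCommGroup P] [NormedSpace ℝ P]
    [NormedAddCommGroup F] [NormedSpace ℝ F] {Φ : M × P → F} {x : M} {p q : P}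
    (hd : DifferentiableAt ℝ Φ (x, p)) {w : F} (h : ∀ t : ℝ, Φ (x, p + t • q) = Φ (x, p) + t • w) :
    fderiv ℝ Φ (x, p) (0, q) = w := by
  have h1 : HasDerivAt (fun t : ℝ => ((x, p) : M × P) + t • ((0 : M), q)) ((0 : M), q) 0 := by
    simpa using ((hasDerivAt_id (0 : ℝ)).smul_const (((0 : M), q) : M × P)).const_add (x, p)
  have h2 : HasFDerivAt Φ (fderiv ℝ Φ (x, p)) (((x, p) : M × P) + (0 : ℝ) • ((0 : M), q)) := by
    rw [zero_smul, add_zero]; exact hd.hasFDerivAt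
  have h3 := h2.comp_hasDerivAt (0 : ℝ) h1
  have h4 : HasDerivAt (fun t : ℝ => Φ (x, p) + t • w) w 0 := by
    simpa using ((hasDerivAt_id (0 : ℝ)).smul_const w).const_add (Φ (x, p))
  refine h3.unique (h4.congr_of_eventuallyEq (Filter.Eventually.of_forall fun t => ?_))
  show Φ (((x, p) : M × P) + t • ((0 : M), q)) = _
  have h5 : (((x, p) : M × P) + t • ((0 : M), q)) = (x, p + t • q) := by simp
  rw [h5, h]

/-! ### D1 -/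

theorem ft_D1 (hB : BaseD U N Λ ρ c) (hV : ContDiffOn ℝ ∞ V₀ U)
    (hs : ∀ i, ContDiffOn ℝ ∞ (s i) U) (hα₁ : ContDiffOn ℝ ∞ α₁ U) (hJ : 0 < J)
    (sep : ∀ x ∈ N, ∀ a, fderiv ℝ ρ x a = 0 → a ≠ 0 → ∃ i, fderiv ℝ (s i) x a ≠ 0)
    (fd : ∀ x ∈ N, α₁ x = 0 → α₂ x = 0 → ∃ a, fderiv ℝ ρ x a = 0 ∧ fderiv ℝ α₁ x a ≠ 0) :
    Pool.Agent.helper53.FL.Thin {τ : ι → Fin J → ℝ | ∃ x ∈ N, α₁ x = 0 ∧ α₂ x = 0 ∧
      ftX Λ V₀ s (x, τ) = 0} := by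
  have hsm := ftX_smooth (J := J) hB hV hs
  have key := Pool.Agent.helper53.FL.pal (E := M) (P := ι → Fin J → ℝ) (G := G × ℝ) (F := M)
    (S := {z : M × (ι → Fin J → ℝ) | z.1 ∈ N ∧ α₁ z.1 = 0 ∧ α₂ z.1 = 0 ∧ ftX Λ V₀ s z = 0})
    (r := c + 1) (k := finrank ℝ M - c) (by omega) (by
      rintro ⟨x, τ⟩ ⟨hx, h1, h2, h3⟩
      simp only at hx h1 h2
      have hxU := hB.hNU hx
      have hz : ((x, τ) : M × (ι → Fin J → ℝ)) ∈ U ×ˢ (Set.univ : Set (ι → Fin J → ℝ)) :=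
        ⟨hxU, Set.mem_univ _⟩
      have hcd := (hsm.contDiffAt ((hB.hU.prod isOpen_univ).mem_nhds hz)).of_le
        (show (1 : WithTop ℕ∞) ≤ ∞ by norm_cast)
      have hρ := (hB.ρs.contDiffAt (hB.hU.mem_nhds hxU)).of_le
        (show (1 : WithTop ℕ∞) ≤ ∞ by norm_cast)
      have hα := (hα₁.contDiffAt (hB.hU.mem_nhds hxU)).of_le
        (show (1 : WithTop ℕ∞) ≤ ∞ by norm_cast)
      refine ⟨fun y => (ρ y, α₁ y), (fderiv ℝ ρ x).prod (fderiv ℝ α₁ x), ftX Λ V₀ s,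
        fderiv ℝ (ftX Λ V₀ s) (x, τ), (hρ.hasStrictFDerivAt one_ne_zero).prodMk
        (hα.hasStrictFDerivAt one_ne_zero), ?_, ?_, hcd.hasStrictFDerivAt one_ne_zero, ?_, ?_⟩
      · filter_upwards [self_mem_nhdsWithin] with y hy
        rw [hB.ρN _ hy.1, hB.ρN _ hx, hy.2.1, h1]
      · obtain ⟨a, ha1, ha2⟩ := fd x hx h1 h2
        have h4 := ft_rank_prod (fderiv ℝ ρ x : M →ₗ[ℝ] G) (fderiv ℝ α₁ x : M →ₗ[ℝ] ℝ)
          (a := a) ha1 ha2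
        rw [hB.rank x hx] at h4
        exact h4
      · filter_upwards [self_mem_nhdsWithin] with y hy
        rw [hy.2.2.2, h3]
      · have h4 := ft_rank_dir (fderiv ℝ ρ x : M →ₗ[ℝ] G) (Λ x : (M →L[ℝ] ℝ) →ₗ[ℝ] M)
          (fun ℓ hℓ a ha => hB.nondeg x hx ℓ hℓ a ha) (fun i => fderiv ℝ (s i) x)
          (fun a ha hne => sep x hx a ha hne)
          ((fderiv ℝ (ftX Λ V₀ s) (x, τ) : M × (ι → Fin J → ℝ) →ₗ[ℝ] M) ∘ₗ
            LinearMap.inr ℝ M (ι → Fin J → ℝ))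
          (fun i => ⟨ftE hJ i, ft_dir_deriv (hcd.differentiableAt one_ne_zero)
            (fun t => ftX_dir hB hV hs hJ hxU τ i t)⟩)
        rw [hB.rank x hx] at h4
        omega)
  refine key.mono ?_
  rintro τ ⟨x, hx, h1, h2, h3⟩
  exact ⟨(x, τ), ⟨hx, h1, h2, h3⟩, rfl⟩

/-! ### D3 -/

/-- the joint field -/
def ftX2 (Λ : M → ((M →L[ℝ] ℝ) →L[ℝ] M)) (V₀ : M → ℝ) (s : ι → M → ℝ)
    (z : M × ((ι → Fin J → ℝ) × (ι × σ → Fin J → ℝ))) : M := ftX Λ V₀ s (z.1, z.2.1)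

/-- the joint `Δ` -/
def ftDl (Λ : M → ((M →L[ℝ] ℝ) →L[ℝ] M)) (V₀ α₁ α₂ : M → ℝ) (om : (ι → Fin J → ℝ) → M → ℝ)
    (kk : M → ℝ) (s : ι → M → ℝ)
    (pl : σ → M → ℝ) (z : M × ((ι → Fin J → ℝ) × (ι × σ → Fin J → ℝ))) : ℝ :=
  DelF (XV Λ (pert V₀ s z.2.1)) α₁ α₂ (fun y => om z.2.1 y + kk y * gF s pl z.2.2 y) z.1

theorem ftDl_eq (z : M × ((ι → Fin J → ℝ) × (ι × σ → Fin J → ℝ))) :
    ftDl Λ V₀ α₁ α₂ om kk s pl z = α₁ z.1 * fderiv ℝ α₂ z.1 (ftX2 Λ V₀ s z) -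
      α₂ z.1 * fderiv ℝ α₁ z.1 (ftX2 Λ V₀ s z) -
      (om z.2.1 z.1 + kk z.1 * gF s pl z.2.2 z.1) * (α₁ z.1 ^ 2 + α₂ z.1 ^ 2) := rfl

theorem ftX2_smooth (hB : BaseD U N Λ ρ c) (hV : ContDiffOn ℝ ∞ V₀ U)
    (hs : ∀ i, ContDiffOn ℝ ∞ (s i) U) :
    ContDiffOn ℝ ∞ (ftX2 (σ := σ) (J := J) Λ V₀ s) (U ×ˢ Set.univ) :=
  (ftX_smooth hB hV hs).comp (t := U ×ˢ Set.univ)
    (contDiff_fst.prodMk (contDiff_fst.comp contDiff_snd)).contDiffOn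
    fun _ hz => ⟨hz.1, Set.mem_univ _⟩

theorem gF_smooth (hs : ∀ i, ContDiffOn ℝ ∞ (s i) U) (hpl : ∀ l, ContDiffOn ℝ ∞ (pl l) U) :
    ContDiffOn ℝ ∞ (fun z : M × (ι × σ → Fin J → ℝ) => gF s pl z.2 z.1) (U ×ˢ Set.univ) := by
  have hf : ∀ {f : M → ℝ}, ContDiffOn ℝ ∞ f U →
      ContDiffOn ℝ ∞ (fun z : M × (ι × σ → Fin J → ℝ) => f z.1) (U ×ˢ Set.univ) := fun hf =>
    hf.comp contDiff_fst.contDiffOn fun _ hz => hz.1
  refine ContDiffOn.sum fun a _ => ContDiffOn.sum fun k _ => ?_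
  refine ContDiffOn.mul ?_ ((hf (hpl a.2)).mul ((hf (hs a.1)).pow _))
  have h2 : ContDiff ℝ ∞ (fun z : M × (ι × σ → Fin J → ℝ) => z.2 a k) := by
    have h3 : ContDiff ℝ ∞ (fun q : ι × σ → Fin J → ℝ => q a k) :=
      (contDiff_apply ℝ ℝ k).comp (contDiff_apply ℝ (Fin J → ℝ) a)
    exact h3.comp contDiff_snd
  exact h2.contDiffOn

theorem ftDl_smooth (hB : BaseD U N Λ ρ c) (hV : ContDiffOn ℝ ∞ V₀ U)
    (hs : ∀ i, ContDiffOn ℝ ∞ (s i) U) (hpl : ∀ l, ContDiffOn ℝ ∞ (pl l) U)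
    (hα₁ : ContDiffOn ℝ ∞ α₁ U) (hα₂ : ContDiffOn ℝ ∞ α₂ U)
    (hom : ContDiffOn ℝ ∞ (fun z : M × (ι → Fin J → ℝ) => om z.2 z.1) (U ×ˢ Set.univ))
    (hkk : ContDiffOn ℝ ∞ kk U) :
    ContDiffOn ℝ ∞ (ftDl (J := J) Λ V₀ α₁ α₂ om kk s pl) (U ×ˢ Set.univ) := by
  have hf : ∀ {f : M → ℝ}, ContDiffOn ℝ ∞ f U →
      ContDiffOn ℝ ∞ (fun z : M × ((ι → Fin J → ℝ) × (ι × σ → Fin J → ℝ)) => f z.1)
        (U ×ˢ Set.univ) := fun hf =>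
    hf.comp contDiff_fst.contDiffOn fun _ hz => hz.1
  have hf' : ∀ {f : M → (M →L[ℝ] ℝ)}, ContDiffOn ℝ ∞ f U →
      ContDiffOn ℝ ∞ (fun z : M × ((ι → Fin J → ℝ) × (ι × σ → Fin J → ℝ)) => f z.1)
        (U ×ˢ Set.univ) := fun hf =>
    hf.comp contDiff_fst.contDiffOn fun _ hz => hz.1
  have hX := ftX2_smooth (σ := σ) (J := J) hB hV hs
  have hg : ContDiffOn ℝ ∞ (fun z : M × ((ι → Fin J → ℝ) × (ι × σ → Fin J → ℝ)) =>
      gF s pl z.2.2 z.1) (U ×ˢ Set.univ) :=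
    (gF_smooth hs hpl).comp (t := U ×ˢ Set.univ)
      (contDiff_fst.prodMk (contDiff_snd.comp contDiff_snd)).contDiffOn
      fun _ hz => ⟨hz.1, Set.mem_univ _⟩
  have ho : ContDiffOn ℝ ∞ (fun z : M × ((ι → Fin J → ℝ) × (ι × σ → Fin J → ℝ)) =>
      om z.2.1 z.1) (U ×ˢ Set.univ) :=
    hom.comp (t := U ×ˢ Set.univ)
      (contDiff_fst.prodMk (contDiff_fst.comp contDiff_snd)).contDiffOn
      fun _ hz => ⟨hz.1, Set.mem_univ _⟩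
  exact (((hf hα₁).mul ((hf' (fder_smooth hB.hU hα₂)).clm_apply hX)).sub
    ((hf hα₂).mul ((hf' (fder_smooth hB.hU hα₁)).clm_apply hX))).sub
    ((ho.add ((hf hkk).mul hg)).mul (((hf hα₁).pow 2).add ((hf hα₂).pow 2)))

/-- the unit vector `((i, l), 0)` -/
def ftG (hJ : 0 < J) (a : ι × σ) : ι × σ → Fin J → ℝ := Pi.single a (Pi.single ⟨0, hJ⟩ 1)

theorem gF_dir (hJ : 0 < J) (γ : ι × σ → Fin J → ℝ) (a : ι × σ) (t : ℝ) (x : M) :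
    gF s pl (γ + t • ftG hJ a) x = gF s pl γ x + t * pl a.2 x := by
  unfold gF
  have h2 : ∑ b, ∑ k : Fin J, (γ + t • ftG hJ a) b k * (pl b.2 x * s b.1 x ^ k.1) =
      ∑ b, ∑ k : Fin J, γ b k * (pl b.2 x * s b.1 x ^ k.1) +
      ∑ b, ∑ k : Fin J, (t • ftG hJ a) b k * (pl b.2 x * s b.1 x ^ k.1) := by
    rw [← Finset.sum_add_distrib]
    refine Finset.sum_congr rfl fun b _ => ?_
    rw [← Finset.sum_add_distrib]
    exact Finset.sum_congr rfl fun k _ => by rw [Pi.add_apply, Pi.add_apply]; ring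
  have h3 : ∑ b, ∑ k : Fin J, (t • ftG hJ a) b k * (pl b.2 x * s b.1 x ^ k.1) =
      t * pl a.2 x := by
    rw [Finset.sum_eq_single a]
    · rw [Finset.sum_eq_single ⟨0, hJ⟩]
      · simp [ftG]
      · intro k _ hk; simp [ftG, Pi.single_eq_of_ne hk]
      · intro h; exact absurd (Finset.mem_univ _) h
    · intro b _ hb; simp [ftG, Pi.single_eq_of_ne hb]
    · intro h; exact absurd (Finset.mem_univ _) h
  rw [h2, h3]

theorem ft_D3 (hB : BaseD U N Λ ρ c) (hV : ContDiffOn ℝ ∞ V₀ U)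
    (hs : ∀ i, ContDiffOn ℝ ∞ (s i) U) (hpl : ∀ l, ContDiffOn ℝ ∞ (pl l) U)
    (hα₁ : ContDiffOn ℝ ∞ α₁ U) (hα₂ : ContDiffOn ℝ ∞ α₂ U)
    (hom : ContDiffOn ℝ ∞ (fun z : M × (ι → Fin J → ℝ) => om z.2 z.1) (U ×ˢ Set.univ))
    (hkk : ContDiffOn ℝ ∞ kk U) (hJ : 0 < J) (hne : Nonempty ι)
    (sep : ∀ x ∈ N, ∀ a, fderiv ℝ ρ x a = 0 → a ≠ 0 → ∃ i, fderiv ℝ (s i) x a ≠ 0)
    (hk : ∀ x ∈ N, kk x ≠ 0) (hp : ∀ x ∈ N, ∃ l, pl l x ≠ 0) :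
    Pool.Agent.helper53.FL.Thin {q : (ι → Fin J → ℝ) × (ι × σ → Fin J → ℝ) | ∃ x ∈ N,
      (α₁ x ≠ 0 ∨ α₂ x ≠ 0) ∧ ftX2 Λ V₀ s (x, q) = 0 ∧
      ftDl Λ V₀ α₁ α₂ om kk s pl (x, q) = 0} := by
  have hsm := ftX2_smooth (σ := σ) (J := J) hB hV hs
  have hsm' := ftDl_smooth (J := J) hB hV hs hpl hα₁ hα₂ hom hkk
  have key := Pool.Agent.helper53.FL.pal (E := M)
    (P := (ι → Fin J → ℝ) × (ι × σ → Fin J → ℝ)) (G := G) (F := M × ℝ)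
    (S := {z : M × ((ι → Fin J → ℝ) × (ι × σ → Fin J → ℝ)) | z.1 ∈ N ∧
      (α₁ z.1 ≠ 0 ∨ α₂ z.1 ≠ 0) ∧ ftX2 Λ V₀ s z = 0 ∧ ftDl Λ V₀ α₁ α₂ om kk s pl z = 0})
    (r := c) (k := finrank ℝ M - c + 1) (by omega) (by
      rintro ⟨x, τ, γ⟩ ⟨hx, h1, h2, h3⟩
      simp only at hx h1
      have hxU := hB.hNU hx
      have hz : ((x, (τ, γ)) : M × ((ι → Fin J → ℝ) × (ι × σ → Fin J → ℝ))) ∈
          U ×ˢ (Set.univ : Set ((ι → Fin J → ℝ) × (ι × σ → Fin J → ℝ))) :=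
        ⟨hxU, Set.mem_univ _⟩
      have hcd := (hsm.contDiffAt ((hB.hU.prod isOpen_univ).mem_nhds hz)).of_le
        (show (1 : WithTop ℕ∞) ≤ ∞ by norm_cast)
      have hcd' := (hsm'.contDiffAt ((hB.hU.prod isOpen_univ).mem_nhds hz)).of_le
        (show (1 : WithTop ℕ∞) ≤ ∞ by norm_cast)
      have hρ := (hB.ρs.contDiffAt (hB.hU.mem_nhds hxU)).of_le
        (show (1 : WithTop ℕ∞) ≤ ∞ by norm_cast)
      refine ⟨ρ, fderiv ℝ ρ x, fun z => (ftX2 Λ V₀ s z, ftDl Λ V₀ α₁ α₂ om kk s pl z),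
        (fderiv ℝ (ftX2 (σ := σ) Λ V₀ s) (x, (τ, γ))).prod
          (fderiv ℝ (ftDl Λ V₀ α₁ α₂ om kk s pl) (x, (τ, γ))),
        hρ.hasStrictFDerivAt one_ne_zero, ?_, ?_,
        (hcd.hasStrictFDerivAt one_ne_zero).prodMk (hcd'.hasStrictFDerivAt one_ne_zero), ?_, ?_⟩
      · filter_upwards [self_mem_nhdsWithin] with y hy
        rw [hB.ρN _ hy.1, hB.ρN _ hx]
      · exact (hB.rank x hx).ge
      · filter_upwards [self_mem_nhdsWithin] with y hy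
        rw [hy.2.2.1, h2, hy.2.2.2, h3]
      · have h4 := ft_rank_dir (fderiv ℝ ρ x : M →ₗ[ℝ] G) (Λ x : (M →L[ℝ] ℝ) →ₗ[ℝ] M)
          (fun ℓ hℓ a ha => hB.nondeg x hx ℓ hℓ a ha) (fun i => fderiv ℝ (s i) x)
          (fun a ha hne => sep x hx a ha hne)
          ((fderiv ℝ (ftX2 (σ := σ) Λ V₀ s) (x, (τ, γ)) :
            M × ((ι → Fin J → ℝ) × (ι × σ → Fin J → ℝ)) →ₗ[ℝ] M) ∘ₗ
            LinearMap.inr ℝ M ((ι → Fin J → ℝ) × (ι × σ → Fin J → ℝ)))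
          (fun i => ⟨(ftE hJ i, 0), ft_dir_deriv (hcd.differentiableAt one_ne_zero)
            (fun t => by
              have h5 := ftX_dir hB hV hs hJ hxU τ i t
              simpa [ftX2] using h5)⟩)
        rw [hB.rank x hx] at h4
        obtain ⟨i⟩ := hne
        obtain ⟨l, hl⟩ := hp x hx
        have h5 : fderiv ℝ (ftX2 (σ := σ) Λ V₀ s) (x, (τ, γ))
            (0, ((0 : ι → Fin J → ℝ), ftG hJ (i, l))) = 0 :=
          ft_dir_deriv (hcd.differentiableAt one_ne_zero) (fun t => by simp [ftX2])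
        have h6 : fderiv ℝ (ftDl Λ V₀ α₁ α₂ om kk s pl) (x, (τ, γ))
            (0, ((0 : ι → Fin J → ℝ), ftG hJ (i, l))) =
            -(kk x * pl l x * (α₁ x ^ 2 + α₂ x ^ 2)) :=
          ft_dir_deriv (hcd'.differentiableAt one_ne_zero) (fun t => by
            rw [ftDl_eq, ftDl_eq]
            have e1 : ftX2 (σ := σ) Λ V₀ s (x, (τ, γ) + t • ((0 : ι → Fin J → ℝ),
                ftG hJ (i, l))) = ftX2 Λ V₀ s (x, (τ, γ)) := by simp [ftX2]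
            have e2 := gF_dir (s := s) (pl := pl) hJ γ (i, l) t x
            rw [e1]
            simp only [Prod.smul_mk, Prod.mk_add_mk, smul_eq_mul, smul_zero, add_zero]
            rw [e2]
            ring)
        have h7 : -(kk x * pl l x * (α₁ x ^ 2 + α₂ x ^ 2)) ≠ 0 := by
          refine neg_ne_zero.2 (mul_ne_zero (mul_ne_zero (hk x hx) hl) ?_)
          rcases h1 with h1 | h1 <;> positivity
        have h8 := ft_rank_snd (k := finrank ℝ M - c)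
          ((fderiv ℝ (ftX2 (σ := σ) Λ V₀ s) (x, (τ, γ)) :
            M × ((ι → Fin J → ℝ) × (ι × σ → Fin J → ℝ)) →ₗ[ℝ] M) ∘ₗ
            LinearMap.inr ℝ M ((ι → Fin J → ℝ) × (ι × σ → Fin J → ℝ)))
          ((fderiv ℝ (ftDl Λ V₀ α₁ α₂ om kk s pl) (x, (τ, γ)) :
            M × ((ι → Fin J → ℝ) × (ι × σ → Fin J → ℝ)) →ₗ[ℝ] ℝ) ∘ₗ
            LinearMap.inr ℝ M ((ι → Fin J → ℝ) × (ι × σ → Fin J → ℝ)))
          (a := ((0 : ι → Fin J → ℝ), ftG hJ (i, l))) h5 (by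
            show fderiv ℝ (ftDl Λ V₀ α₁ α₂ om kk s pl) (x, (τ, γ))
              (0, ((0 : ι → Fin J → ℝ), ftG hJ (i, l))) ≠ 0
            rw [h6]; exact h7) (by omega)
        exact h8)
  refine key.mono ?_
  rintro q ⟨x, hx, h1, h2, h3⟩
  exact ⟨(x, q), ⟨hx, h1, h2, h3⟩, rfl⟩

/-! ### D2 -/

theorem ft_tow (hB : BaseD U N Λ ρ c) (V : M → ℝ) (j : ℕ) :
    ∀ x ∈ U, tow (fun x => -(Λ x (fderiv ℝ α₁ x))) (fun _ => 0) Λ V j x =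
      itd (XV Λ V) α₁ (j + 1) x := by
  induction j with
  | zero =>
    intro x hx
    show fderiv ℝ V x (-(Λ x (fderiv ℝ α₁ x))) = fderiv ℝ α₁ x (Λ x (fderiv ℝ V x))
    rw [map_neg, hB.anti x hx (fderiv ℝ α₁ x) (fderiv ℝ V x), neg_neg]
  | succ j ih =>
    intro x hx
    have h1 : tow (fun x => -(Λ x (fderiv ℝ α₁ x))) (fun _ => 0) Λ V j =ᶠ[𝓝 x]
        itd (XV Λ V) α₁ (j + 1) := by
      filter_upwards [hB.hU.mem_nhds hx] with y hy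
      exact ih y hy
    show fderiv ℝ (tow (fun x => -(Λ x (fderiv ℝ α₁ x))) (fun _ => 0) Λ V j) x
      (fld (fun _ => 0) Λ V x) = fderiv ℝ (itd (XV Λ V) α₁ (j + 1)) x (XV Λ V x)
    rw [h1.fderiv_eq, ft_fld]

theorem ft_A_smooth (hB : BaseD U N Λ ρ c) (hα₁ : ContDiffOn ℝ ∞ α₁ U) :
    ContDiffOn ℝ ∞ (fun x => -(Λ x (fderiv ℝ α₁ x))) U :=
  (hB.Λs.clm_apply (fder_smooth hB.hU hα₁)).neg

theorem ft_D2 (hB : BaseD U N Λ ρ c) (hV : ContDiffOn ℝ ∞ V₀ U)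
    (hs : ∀ i, ContDiffOn ℝ ∞ (s i) U) (hα₁ : ContDiffOn ℝ ∞ α₁ U) (hJ : finrank ℝ M < J)
    (sep : ∀ x ∈ N, ∀ a b, fderiv ℝ ρ x a = 0 → fderiv ℝ ρ x b = 0 → a ≠ 0 → b ≠ 0 →
      ∃ i, fderiv ℝ (s i) x a ≠ 0 ∧ fderiv ℝ (s i) x b ≠ 0)
    (fd : ∀ x ∈ N, α₁ x = 0 → α₂ x = 0 → ∃ a, fderiv ℝ ρ x a = 0 ∧ fderiv ℝ α₁ x a ≠ 0) :
    Negl {τ : ι → Fin J → ℝ | ∃ x ∈ N, α₁ x = 0 ∧ α₂ x = 0 ∧ ftX Λ V₀ s (x, τ) ≠ 0 ∧
      ∀ j : Fin J, itd (XV Λ (pert V₀ s τ)) α₁ (j + 1) x = 0} := by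
  refine (gft_negl (J := J) hB.hU (ft_A_smooth hB hα₁) (V := fun _ => 0) contDiffOn_const hB.Λs
    hs hV hJ).mono ?_
  rintro τ ⟨x, hx, h1, h2, h3, h4⟩
  refine ⟨x, hB.hNU hx, ?_, fun j => by rw [ft_tow hB]; exact h4 j; exact hB.hNU hx⟩
  rw [ft_fld]
  obtain ⟨a, ha1, ha2⟩ := fd x hx h1 h2
  refine sep x hx _ _ ?_ (hB.cas x hx _) ?_ h3
  · rw [map_neg, hB.cas x hx, neg_zero]
  · intro h5
    exact ha2 (hB.nondeg x hx _ (neg_eq_zero.1 h5) a ha1)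

/-! ### openness -/

theorem ftX_cont (hB : BaseD U N Λ ρ c) (hV : ContDiffOn ℝ ∞ V₀ U)
    (hs : ∀ i, ContDiffOn ℝ ∞ (s i) U) :
    ContinuousOn (fun z : (ι → Fin J → ℝ) × M => ftX Λ V₀ s (z.2, z.1)) (Set.univ ×ˢ N) :=
  (ftX_smooth hB hV hs).continuousOn.comp (t := U ×ˢ Set.univ)
    (continuous_snd.prodMk continuous_fst).continuousOn
    fun _ hz => ⟨hB.hNU hz.2, Set.mem_univ _⟩

theorem ft_tow_cont (hB : BaseD U N Λ ρ c) (hV : ContDiffOn ℝ ∞ V₀ U)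
    (hs : ∀ i, ContDiffOn ℝ ∞ (s i) U) (hα₁ : ContDiffOn ℝ ∞ α₁ U) (j : ℕ) :
    ContinuousOn (fun z : (ι → Fin J → ℝ) × M => itd (XV Λ (pert V₀ s z.1)) α₁ (j + 1) z.2)
      (Set.univ ×ˢ N) := by
  have hUP : IsOpen (U ×ˢ (Set.univ : Set (ι → Fin J → ℝ))) := hB.hU.prod isOpen_univ
  have h0 : ContDiffOn ℝ ∞ (fun _ : M => (0 : M)) U := contDiffOn_const
  have h1 := tow_smooth hUP (liftV_smooth (P := ι → Fin J → ℝ) (ft_A_smooth hB hα₁))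
    (liftV_smooth h0) (liftL_smooth hB.Λs) (pert_smooth hV hs) j
  have h2 := h1.continuousOn.comp (t := U ×ˢ Set.univ) (s := Set.univ ×ˢ N)
    (f := fun z : (ι → Fin J → ℝ) × M => (z.2, z.1))
    (continuous_snd.prodMk continuous_fst).continuousOn
    fun _ hz => ⟨hB.hNU hz.2, Set.mem_univ _⟩
  refine h2.congr ?_
  rintro ⟨τ, x⟩ hz
  have hx := hB.hNU hz.2
  have h3 := slice_tow hB.hU (ft_A_smooth hB hα₁) h0 hB.Λs (pert_smooth (J := J) hV hs)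
    (p := τ) j x hx
  show itd (XV Λ (pert V₀ s τ)) α₁ (j + 1) x = _
  rw [← ft_tow hB _ j x hx, ← h3]
  rfl

/-! ### D4 -/

theorem DelF_aff (X : M → M) {om₀ : M → ℝ} (γ : ι × σ → Fin J → ℝ) (x : M) :
    DelF X α₁ α₂ (fun y => om₀ y + kk y * gF s pl γ y) x =
      aff (DelF X α₁ α₂ om₀) (fun a : ι × σ => fun y => -(kk y * (α₁ y ^ 2 + α₂ y ^ 2) * pl a.2 y))
        (fun a : ι × σ => s a.1) γ x := by
  unfold aff gF DelF
  have h1 : ∑ a : ι × σ, ∑ k : Fin J, γ a k *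
      (-(kk x * (α₁ x ^ 2 + α₂ x ^ 2) * pl a.2 x) * s a.1 x ^ k.1) =
      -(kk x * (α₁ x ^ 2 + α₂ x ^ 2)) *
        ∑ a : ι × σ, ∑ k : Fin J, γ a k * (pl a.2 x * s a.1 x ^ k.1) := by
    rw [Finset.mul_sum]
    refine Finset.sum_congr rfl fun a _ => ?_
    rw [Finset.mul_sum]
    exact Finset.sum_congr rfl fun k _ => by ring
  rw [h1]
  ring

theorem ft_D4 (hB : BaseD U N Λ ρ c) {X : M → M} (hX : ContDiffOn ℝ ∞ X U)
    (hXt : ∀ x ∈ N, fderiv ℝ ρ x (X x) = 0)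
    (hs : ∀ i, ContDiffOn ℝ ∞ (s i) U) (hpl : ∀ l, ContDiffOn ℝ ∞ (pl l) U)
    (hα₁ : ContDiffOn ℝ ∞ α₁ U) (hα₂ : ContDiffOn ℝ ∞ α₂ U) {om₀ : M → ℝ}
    (hom : ContDiffOn ℝ ∞ om₀ U)
    (hkk : ContDiffOn ℝ ∞ kk U) (hJ : finrank ℝ M < J)
    (sep : ∀ x ∈ N, ∀ a, fderiv ℝ ρ x a = 0 → a ≠ 0 → ∃ i, fderiv ℝ (s i) x a ≠ 0)
    (hk : ∀ x ∈ N, kk x ≠ 0) (hp : ∀ x ∈ N, ∃ l, pl l x ≠ 0) :
    Negl {γ : ι × σ → Fin J → ℝ | ∃ x ∈ N, (α₁ x ≠ 0 ∨ α₂ x ≠ 0) ∧ X x ≠ 0 ∧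
      ∀ j : Fin J, itd X (DelF X α₁ α₂ (fun y => om₀ y + kk y * gF s pl γ y)) j x = 0} := by
  have h0 : ContDiffOn ℝ ∞ (DelF X α₁ α₂ om₀) U :=
    ((hα₁.mul (fder_app_smooth hB.hU hα₂ hX)).sub
      (hα₂.mul (fder_app_smooth hB.hU hα₁ hX))).sub (hom.mul ((hα₁.pow 2).add (hα₂.pow 2)))
  have h1 : ∀ a : ι × σ, ContDiffOn ℝ ∞
      (fun y => -(kk y * (α₁ y ^ 2 + α₂ y ^ 2) * pl a.2 y)) U := fun a =>
    ((hkk.mul ((hα₁.pow 2).add (hα₂.pow 2))).mul (hpl a.2)).neg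
  refine (gft_aff_negl (J := J) hB.hU hX h0 h1 (fun a : ι × σ => hs a.1) hJ).mono ?_
  rintro γ ⟨x, hx, h2, h3, h4⟩
  refine ⟨x, hB.hNU hx, ?_, fun j => ?_⟩
  · obtain ⟨i, hi⟩ := sep x hx _ (hXt x hx) h3
    obtain ⟨l, hl⟩ := hp x hx
    refine ⟨(i, l), ?_, hi⟩
    refine neg_ne_zero.2 (mul_ne_zero (mul_ne_zero (hk x hx) ?_) hl)
    rcases h2 with h2 | h2 <;> positivity
  · have h5 : DelF X α₁ α₂ (fun y => om₀ y + kk y * gF s pl γ y) =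
      aff (DelF X α₁ α₂ om₀) (fun a : ι × σ => fun y => -(kk y * (α₁ y ^ 2 + α₂ y ^ 2) * pl a.2 y))
        (fun a : ι × σ => s a.1) γ := funext (DelF_aff X γ)
    rw [← h5]
    exact h4 j

/-! ### pairwise sums separate pairs of vectors -/

theorem sumF_smooth (hs : ∀ i, ContDiffOn ℝ ∞ (s i) U) (i : ι ⊕ (ι × ι)) :
    ContDiffOn ℝ ∞ (sumF s i) U := by
  rcases i with i | ⟨i, j⟩
  · exact hs i
  · exact (hs i).add (hs j)

theorem sumF_sep (hU : IsOpen U) (hNU : N ⊆ U) (hs : ∀ i, ContDiffOn ℝ ∞ (s i) U)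
    (sep : ∀ x ∈ N, ∀ a, fderiv ℝ ρ x a = 0 → a ≠ 0 → ∃ i, fderiv ℝ (s i) x a ≠ 0) :
    ∀ x ∈ N, ∀ a b, fderiv ℝ ρ x a = 0 → fderiv ℝ ρ x b = 0 → a ≠ 0 → b ≠ 0 →
      ∃ i, fderiv ℝ (sumF s i) x a ≠ 0 ∧ fderiv ℝ (sumF s i) x b ≠ 0 := by
  intro x hx a b ha hb ha0 hb0
  obtain ⟨i, hi⟩ := sep x hx a ha ha0
  obtain ⟨j, hj⟩ := sep x hx b hb hb0
  by_cases h1 : fderiv ℝ (s i) x b = 0
  · by_cases h2 : fderiv ℝ (s j) x a = 0
    · refine ⟨Sum.inr (i, j), ?_⟩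
      have h3 : fderiv ℝ (sumF s (Sum.inr (i, j))) x = fderiv ℝ (s i) x + fderiv ℝ (s j) x :=
        ((dif_at hU (hs i) (hNU hx)).hasFDerivAt.add
          (dif_at hU (hs j) (hNU hx)).hasFDerivAt).fderiv
      rw [h3, add_apply, add_apply, h1, h2, add_zero, zero_add]
      exact ⟨hi, hj⟩
    · exact ⟨Sum.inl j, h2, hj⟩
  · exact ⟨Sum.inl i, hi, h1⟩

/-! ### the theorem -/

theorem thin_negl {P : Type*} [NormedAddCommGroup P] [NormedSpace ℝ P] [FiniteDimensional ℝ P]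
    {B : Set P} (h : Pool.Agent.helper53.FL.Thin B) : Negl B := by
  rcases h with h | ⟨h1, h2⟩
  · exact Or.inl h
  · right
    refine h2.trans_lt ?_
    have : finrank ℝ P - 1 < finrank ℝ P := by omega
    exact_mod_cast this

/-- **genericity on the base**: arbitrarily small parameters with FT1, FT2, FT3.  The rotation
rate `om` may depend on the first parameter -/
theorem ft_main' (hB : BaseD U N Λ ρ c) (hV : ContDiffOn ℝ ∞ V₀ U)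
    (hs : ∀ i, ContDiffOn ℝ ∞ (s i) U) (hpl : ∀ l, ContDiffOn ℝ ∞ (pl l) U)
    (hα₁ : ContDiffOn ℝ ∞ α₁ U) (hα₂ : ContDiffOn ℝ ∞ α₂ U)
    (hom : ContDiffOn ℝ ∞ (fun z : M × (ι → Fin J → ℝ) => om z.2 z.1) (U ×ˢ Set.univ))
    (hkk : ContDiffOn ℝ ∞ kk U) (hJ : finrank ℝ M < J) (hne : Nonempty ι)
    (sep : ∀ x ∈ N, ∀ a b, fderiv ℝ ρ x a = 0 → fderiv ℝ ρ x b = 0 → a ≠ 0 → b ≠ 0 →
      ∃ i, fderiv ℝ (s i) x a ≠ 0 ∧ fderiv ℝ (s i) x b ≠ 0)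
    (fd : ∀ x ∈ N, α₁ x = 0 → α₂ x = 0 → ∃ a, fderiv ℝ ρ x a = 0 ∧ fderiv ℝ α₁ x a ≠ 0)
    (hk : ∀ x ∈ N, kk x ≠ 0) (hp : ∀ x ∈ N, ∃ l, pl l x ≠ 0) {ε : ℝ} (hε : 0 < ε) :
    ∃ (τ : ι → Fin J → ℝ) (γ : ι × σ → Fin J → ℝ), ‖τ‖ < ε ∧ ‖γ‖ < ε ∧
      (∀ x ∈ N, XV Λ (pert V₀ s τ) x = 0 → DelF (XV Λ (pert V₀ s τ)) α₁ α₂
        (fun y => om τ y + kk y * gF s pl γ y) x ≠ 0) ∧
      (∀ x ∈ N, α₁ x = 0 → α₂ x = 0 →
        ∃ j, 1 ≤ j ∧ j ≤ J ∧ itd (XV Λ (pert V₀ s τ)) α₁ j x ≠ 0) ∧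
      (∀ x ∈ N, (α₁ x ≠ 0 ∨ α₂ x ≠ 0) → XV Λ (pert V₀ s τ) x ≠ 0 →
        ∃ j, j < J ∧ itd (XV Λ (pert V₀ s τ)) (DelF (XV Λ (pert V₀ s τ)) α₁ α₂
          (fun y => om τ y + kk y * gF s pl γ y)) j x ≠ 0) := by
  have hJ0 : 0 < J := by omega
  have sep1 : ∀ x ∈ N, ∀ a, fderiv ℝ ρ x a = 0 → a ≠ 0 → ∃ i, fderiv ℝ (s i) x a ≠ 0 := by
    intro x hx a ha hne
    obtain ⟨i, hi, -⟩ := sep x hx a a ha ha hne hne
    exact ⟨i, hi⟩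
  -- the first parameter
  have hD1 := thin_negl (ft_D1 (J := J) (α₂ := α₂) hB hV hs hα₁ hJ0 sep1 fd)
  have hD2 := ft_D2 (J := J) (α₂ := α₂) hB hV hs hα₁ hJ sep fd
  obtain ⟨τ₁, hτ₁, hτ₁ε⟩ := (hD1.union hD2).exists_small 0 (half_pos hε)
  have hτ1 : ∀ x ∈ N, α₁ x = 0 → α₂ x = 0 → ftX Λ V₀ s (x, τ₁) ≠ 0 := by
    intro x hx h1 h2 h3
    exact hτ₁ (Or.inl ⟨x, hx, h1, h2, h3⟩)
  have hτ2 : ∀ x ∈ N, α₁ x = 0 → α₂ x = 0 →
      ∃ j : Fin J, itd (XV Λ (pert V₀ s τ₁)) α₁ (j + 1) x ≠ 0 := by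
    intro x hx h1 h2
    by_contra hcon
    push Not at hcon
    exact hτ₁ (Or.inr ⟨x, hx, h1, h2, hτ1 x hx h1 h2, hcon⟩)
  -- openness
  have hc1 : ContinuousOn (fun z : (ι → Fin J → ℝ) × M => α₁ z.2) (Set.univ ×ˢ N) :=
    hα₁.continuousOn.comp continuous_snd.continuousOn fun _ hz => hB.hNU hz.2
  have hc2 : ContinuousOn (fun z : (ι → Fin J → ℝ) × M => α₂ z.2) (Set.univ ×ˢ N) :=
    hα₂.continuousOn.comp continuous_snd.continuousOn fun _ hz => hB.hNU hz.2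
  have hO1 := par_open' hB.hN (p₀ := τ₁) (σ := Bool) (κ := Unit)
    (A := fun i z => if i then α₁ z.2 else α₂ z.2)
    (T := fun _ z => ‖ftX Λ V₀ s (z.2, z.1)‖)
    (fun i => by cases i <;> simpa using ‹_›) (fun _ => (ftX_cont hB hV hs).norm)
    (fun x hx h => ⟨(), norm_pos_iff.2 (hτ1 x hx (by simpa using h true)
      (by simpa using h false))⟩)
  have hO2 := par_open' hB.hN (p₀ := τ₁) (σ := Bool) (κ := Fin J)
    (A := fun i z => if i then α₁ z.2 else α₂ z.2)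
    (T := fun j z => |itd (XV Λ (pert V₀ s z.1)) α₁ (j + 1) z.2|)
    (fun i => by cases i <;> simpa using ‹_›) (fun j => (ft_tow_cont hB hV hs hα₁ j).abs)
    (fun x hx h => by
      obtain ⟨j, hj⟩ := hτ2 x hx (by simpa using h true) (by simpa using h false)
      exact ⟨j, abs_pos.2 hj⟩)
  obtain ⟨δ, hδ, hδ'⟩ := Metric.eventually_nhds_iff.1 (hO1.and hO2)
  -- the second choice
  have hD3 := thin_negl (ft_D3 (J := J) (σ := σ) hB hV hs hpl hα₁ hα₂ hom hkk hJ0 hne sep1 hk hp)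
  obtain ⟨⟨τ, γ₁⟩, hq, hqε⟩ := hD3.exists_small (τ₁, 0) (lt_min hδ (half_pos hε))
  rw [Prod.mk_sub_mk, sub_zero, Prod.norm_def] at hqε
  have hτd : ‖τ - τ₁‖ < δ := (le_max_left _ _).trans_lt (hqε.trans_le (min_le_left _ _))
  have hτe : ‖τ - τ₁‖ < ε / 2 := (le_max_left _ _).trans_lt (hqε.trans_le (min_le_right _ _))
  have hγe : ‖γ₁‖ < ε / 2 := (le_max_right _ _).trans_lt (hqε.trans_le (min_le_right _ _))
  obtain ⟨hW1, hW2⟩ := hδ' (y := τ) (by rw [dist_eq_norm]; exact hτd)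
  have hX := ft_XV_smooth hB (pert_smooth' (J := J) hV hs τ)
  have hXc : ContinuousOn (fun z : (ι × σ → Fin J → ℝ) × M => XV Λ (pert V₀ s τ) z.2)
      (Set.univ ×ˢ N) :=
    hX.continuousOn.comp continuous_snd.continuousOn fun _ hz => hB.hNU hz.2
  have hDc : ContinuousOn (fun z : (ι × σ → Fin J → ℝ) × M =>
      DelF (XV Λ (pert V₀ s τ)) α₁ α₂ (fun y => om τ y + kk y * gF s pl z.1 y) z.2)
      (Set.univ ×ˢ N) :=
    (ftDl_smooth (J := J) hB hV hs hpl hα₁ hα₂ hom hkk).continuousOn.comp (t := U ×ˢ Set.univ)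
      (f := fun z : (ι × σ → Fin J → ℝ) × M => (z.2, (τ, z.1)))
      (continuous_snd.prodMk (continuous_const.prodMk continuous_fst)).continuousOn
      fun _ hz => ⟨hB.hNU hz.2, Set.mem_univ _⟩
  have hO3 := par_open' hB.hN (p₀ := γ₁) (σ := Unit) (κ := Unit)
    (A := fun _ z => ‖XV Λ (pert V₀ s τ) z.2‖)
    (T := fun _ z => |DelF (XV Λ (pert V₀ s τ)) α₁ α₂ (fun y => om τ y + kk y * gF s pl z.1 y) z.2|)
    (fun _ => hXc.norm) (fun _ => hDc.abs)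
    (fun x hx h => by
      have h0 : XV Λ (pert V₀ s τ) x = 0 := norm_eq_zero.1 (h ())
      refine ⟨(), abs_pos.2 fun h1 => ?_⟩
      have hα : α₁ x ≠ 0 ∨ α₂ x ≠ 0 := by
        by_contra hcon
        push Not at hcon
        obtain ⟨-, h2⟩ := hW1 x hx (fun i => by cases i <;> simp [hcon.1, hcon.2])
        have h3 : ftX Λ V₀ s (x, τ) = 0 := h0
        rw [h3, norm_zero] at h2
        exact lt_irrefl _ h2
      exact hq ⟨x, hx, hα, h0, h1⟩)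
  obtain ⟨δ', hδ'0, hδ''⟩ := Metric.eventually_nhds_iff.1 hO3
  -- the third choice
  have ho : ContDiffOn ℝ ∞ (om τ) U :=
    hom.comp (t := U ×ˢ Set.univ) (contDiff_id.prodMk contDiff_const).contDiffOn
      fun _ hz => ⟨hz, Set.mem_univ _⟩
  have hD4 := ft_D4 (J := J) hB hX (fun x hx => hB.cas x hx _) hs hpl hα₁ hα₂ ho hkk hJ sep1 hk hp
  obtain ⟨γ, hγ, hγ'⟩ := hD4.exists_small γ₁ (lt_min hδ'0 (half_pos hε))
  refine ⟨τ, γ, ?_, ?_, ?_, ?_, ?_⟩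
  · have h1 : ‖τ‖ ≤ ‖τ - τ₁‖ + ‖τ₁‖ := by simpa using norm_add_le (τ - τ₁) τ₁
    rw [sub_zero] at hτ₁ε
    linarith
  · have h1 : ‖γ‖ ≤ ‖γ - γ₁‖ + ‖γ₁‖ := by simpa using norm_add_le (γ - γ₁) γ₁
    have h2 := hγ'.trans_le (min_le_right _ _)
    linarith
  · intro x hx h0
    obtain ⟨-, h1⟩ := hδ'' (y := γ) (by
      rw [dist_eq_norm]; exact hγ'.trans_le (min_le_left _ _)) x hx
      (fun _ => by show ‖XV Λ (pert V₀ s τ) x‖ = 0; rw [h0, norm_zero])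
    exact abs_pos.1 h1
  · intro x hx h1 h2
    obtain ⟨j, hj⟩ := hW2 x hx (fun i => by cases i <;> simp [h1, h2])
    exact ⟨j + 1, by omega, by omega, abs_pos.1 hj⟩
  · intro x hx h1 h2
    by_contra hcon
    push Not at hcon
    exact hγ ⟨x, hx, h1, h2, fun j => hcon j j.2⟩

/-- **genericity on the base**: arbitrarily small parameters with FT1, FT2, FT3 (rotation rate
independent of the first parameter) -/
theorem ft_main (hB : BaseD U N Λ ρ c) (hV : ContDiffOn ℝ ∞ V₀ U)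
    (hs : ∀ i, ContDiffOn ℝ ∞ (s i) U) (hpl : ∀ l, ContDiffOn ℝ ∞ (pl l) U)
    (hα₁ : ContDiffOn ℝ ∞ α₁ U) (hα₂ : ContDiffOn ℝ ∞ α₂ U) {om₀ : M → ℝ}
    (hom : ContDiffOn ℝ ∞ om₀ U)
    (hkk : ContDiffOn ℝ ∞ kk U) (hJ : finrank ℝ M < J) (hne : Nonempty ι)
    (sep : ∀ x ∈ N, ∀ a b, fderiv ℝ ρ x a = 0 → fderiv ℝ ρ x b = 0 → a ≠ 0 → b ≠ 0 →
      ∃ i, fderiv ℝ (s i) x a ≠ 0 ∧ fderiv ℝ (s i) x b ≠ 0)
    (fd : ∀ x ∈ N, α₁ x = 0 → α₂ x = 0 → ∃ a, fderiv ℝ ρ x a = 0 ∧ fderiv ℝ α₁ x a ≠ 0)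
    (hk : ∀ x ∈ N, kk x ≠ 0) (hp : ∀ x ∈ N, ∃ l, pl l x ≠ 0) {ε : ℝ} (hε : 0 < ε) :
    ∃ (τ : ι → Fin J → ℝ) (γ : ι × σ → Fin J → ℝ), ‖τ‖ < ε ∧ ‖γ‖ < ε ∧
      (∀ x ∈ N, XV Λ (pert V₀ s τ) x = 0 → DelF (XV Λ (pert V₀ s τ)) α₁ α₂
        (fun y => om₀ y + kk y * gF s pl γ y) x ≠ 0) ∧
      (∀ x ∈ N, α₁ x = 0 → α₂ x = 0 →
        ∃ j, 1 ≤ j ∧ j ≤ J ∧ itd (XV Λ (pert V₀ s τ)) α₁ j x ≠ 0) ∧
      (∀ x ∈ N, (α₁ x ≠ 0 ∨ α₂ x ≠ 0) → XV Λ (pert V₀ s τ) x ≠ 0 →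
        ∃ j, j < J ∧ itd (XV Λ (pert V₀ s τ)) (DelF (XV Λ (pert V₀ s τ)) α₁ α₂
          (fun y => om₀ y + kk y * gF s pl γ y)) j x ≠ 0) :=
  ft_main' (om := fun _ => om₀) hB hV hs hpl hα₁ hα₂
    (hom.comp contDiff_fst.contDiffOn fun _ hz => hz.1) hkk hJ hne sep fd hk hp hε

end Pool.Agent.FL
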