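import Pool.Agent.helper90.FL.GftA

/-!
# MP_f09395_gt, space (2): genericity on the base, definitions (core file)
-/

set_option linter.unusedSectionVars false

noncomputable section

namespace Pool.Agent.FL

open Filter Topology Module
open scoped ContDiff
open Pool.Agent.helper90.FL

variable {M G : Type*} [NormedAddCommGroup M] [NormedSpace ℝ M] [NormedAddCommGroup G]
  [NormedSpace ℝ G]

/-- the Hamiltonian field of `V` for the bivector field `Λ` -/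
def XV (Λ : M → ((M →L[ℝ] ℝ) →L[ℝ] M)) (V : M → ℝ) (x : M) : M := Λ x (fderiv ℝ V x)

/-- a compact part `N` of the level set `ρ = 0` with a bivector field `Λ`, which is tangent to the
level set and nondegenerate on it -/
structure BaseD (U N : Set M) (Λ : M → ((M →L[ℝ] ℝ) →L[ℝ] M)) (ρ : M → G) (c : ℕ) : Prop where
  hU : IsOpen U
  hN : IsCompact N
  hNU : N ⊆ U
  Λs : ContDiffOn ℝ ∞ Λ U
  ρs : ContDiffOn ℝ ∞ ρ U
  ρN : ∀ x ∈ N, ρ x = 0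
  rank : ∀ x ∈ N, finrank ℝ (LinearMap.range (fderiv ℝ ρ x : M →ₗ[ℝ] G)) = c
  anti : ∀ x ∈ U, ∀ ℓ ℓ' : M →L[ℝ] ℝ, ℓ' (Λ x ℓ) = -ℓ (Λ x ℓ')
  cas : ∀ x ∈ N, ∀ ℓ : M →L[ℝ] ℝ, fderiv ℝ ρ x (Λ x ℓ) = 0
  nondeg : ∀ x ∈ N, ∀ ℓ : M →L[ℝ] ℝ, Λ x ℓ = 0 → ∀ a, fderiv ℝ ρ x a = 0 → ℓ a = 0

/-- `Δ = α₁ X α₂ - α₂ X α₁ - ω |α|²` -/
def DelF (X : M → M) (α₁ α₂ om : M → ℝ) (x : M) : ℝ :=
  α₁ x * fderiv ℝ α₂ x (X x) - α₂ x * fderiv ℝ α₁ x (X x) - om x * (α₁ x ^ 2 + α₂ x ^ 2)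

variable {ι σ : Type*} [Fintype ι] [Fintype σ] {J : ℕ}

/-- the perturbation `g = ∑ γ p l s i ^ k` -/
def gF (s : ι → M → ℝ) (pl : σ → M → ℝ) (γ : ι × σ → Fin J → ℝ) (x : M) : ℝ :=
  ∑ a : ι × σ, ∑ k : Fin J, γ a k * (pl a.2 x * s a.1 x ^ k.1)

/-- the family together with all its pairwise sums -/
def sumF (s : ι → M → ℝ) : ι ⊕ (ι × ι) → M → ℝ :=
  Sum.elim s fun q x => s q.1 x + s q.2 x

end Pool.Agent.FL
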