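import Pool.Agent.FL.S2Core
import Pool.Agent.FL.FTdefs

/-!
# MP_f09395_gt, space (2), FT0: base calculus on `R6 = {(p, q)}`

`Lam6` is the Poisson tensor with `XB V z = Lam6 z (fderiv V z)`, `rho = (p·q, |p|² + |q|² - 1)`.
-/

noncomputable section

namespace Pool.Agent.FL.S2.FT0

open scoped ContDiff Matrix
open Matrix Filter Topology Module
open Pool.Agent.helper90.FL

/-! ### covectors -/

/-- first component of a covector -/
def cp : (R6 →L[ℝ] ℝ) →ₗ[ℝ] R3 where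
  toFun L := fun i => L (Pi.single i 1, 0)
  map_add' L M := by ext i; rfl
  map_smul' r L := by ext i; rfl

/-- second component of a covector -/
def cq : (R6 →L[ℝ] ℝ) →ₗ[ℝ] R3 where
  toFun L := fun i => L (0, Pi.single i 1)
  map_add' L M := by ext i; rfl
  map_smul' r L := by ext i; rfl

theorem vec3_eq (w : R3) : w = ∑ i, w i • (Pi.single i 1 : R3) := by
  ext j
  simp [Finset.sum_apply, Pi.single_apply]

theorem cov_apply (L : R6 →L[ℝ] ℝ) (w : R6) : L w = cp L ⬝ᵥ w.1 + cq L ⬝ᵥ w.2 := by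
  have h1 : w = (w.1, 0) + (0, w.2) := by simp
  have h2 : ((w.1, 0) : R6) = ∑ i, w.1 i • ((Pi.single i 1, 0) : R6) := by
    ext j
    · simp [Prod.fst_sum, Finset.sum_apply, Pi.single_apply]
    · simp [Prod.snd_sum, Finset.sum_apply]
  have h3 : ((0, w.2) : R6) = ∑ i, w.2 i • ((0, Pi.single i 1) : R6) := by
    ext j
    · simp [Prod.fst_sum, Finset.sum_apply]
    · simp [Prod.snd_sum, Finset.sum_apply, Pi.single_apply]
  rw [h1, map_add, h2, h3, map_sum, map_sum]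
  simp only [map_smul, smul_eq_mul, dotProduct, cp, cq, LinearMap.coe_mk, AddHom.coe_mk,
    Prod.fst_add, Prod.snd_add]
  congr 1
  · refine Finset.sum_congr rfl fun i _ => ?_
    rw [mul_comm]
    simp [Prod.fst_sum, Finset.sum_apply, Pi.single_apply]
  · refine Finset.sum_congr rfl fun i _ => ?_
    rw [mul_comm]
    simp [Prod.snd_sum, Finset.sum_apply, Pi.single_apply]

/-- the covector with given components -/
def cov (ξ η : R3) : R6 →L[ℝ] ℝ :=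
  LinearMap.toContinuousLinearMap
    { toFun := fun w : R6 => ξ ⬝ᵥ w.1 + η ⬝ᵥ w.2
      map_add' := fun a b => by simp only [Prod.fst_add, Prod.snd_add, dotProduct_add]; ring
      map_smul' := fun r a => by
        simp only [Prod.smul_fst, Prod.smul_snd, dotProduct_smul, smul_eq_mul,
          RingHom.id_apply]; ring }

theorem cov_app (ξ η : R3) (w : R6) : cov ξ η w = ξ ⬝ᵥ w.1 + η ⬝ᵥ w.2 := rfl

theorem cp_cov (ξ η : R3) : cp (cov ξ η) = ξ := by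
  ext i
  show cov ξ η (Pi.single i 1, 0) = ξ i
  rw [cov_app]
  simp

theorem cq_cov (ξ η : R3) : cq (cov ξ η) = η := by
  ext i
  show cov ξ η (0, Pi.single i 1) = η i
  rw [cov_app]
  simp

theorem gp_eq (V : R6 → ℝ) (z : R6) : gp V z = cp (fderiv ℝ V z) := rfl

theorem gq_eq (V : R6 → ℝ) (z : R6) : gq V z = cq (fderiv ℝ V z) := rfl

/-! ### the Poisson tensor -/

/-- the Poisson tensor at `z` as a linear map -/
def lam0 (z : R6) : (R6 →L[ℝ] ℝ) →ₗ[ℝ] R6 where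
  toFun L := (z.1 ⨯₃ cp L + z.2 ⨯₃ cq L, z.1 ⨯₃ cq L + z.2 ⨯₃ cp L)
  map_add' L M := by
    simp only [map_add, Prod.mk_add_mk]
    congr 1 <;> abel
  map_smul' r L := by
    simp only [map_smul, RingHom.id_apply, Prod.smul_mk, smul_add]

/-- the Poisson tensor, linear in the point -/
def lamL : R6 →ₗ[ℝ] ((R6 →L[ℝ] ℝ) →L[ℝ] R6) where
  toFun z := LinearMap.toContinuousLinearMap (lam0 z)
  map_add' z w := by
    ext L : 1
    show lam0 (z + w) L = lam0 z L + lam0 w L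
    simp only [lam0, LinearMap.coe_mk, AddHom.coe_mk, Prod.fst_add, Prod.snd_add, map_add,
      LinearMap.add_apply, Prod.mk_add_mk]
    congr 1 <;> abel
  map_smul' r z := by
    ext L : 1
    show lam0 (r • z) L = r • lam0 z L
    simp only [lam0, LinearMap.coe_mk, AddHom.coe_mk, Prod.smul_fst, Prod.smul_snd, map_smul,
      LinearMap.smul_apply, Prod.smul_mk, smul_add]

/-- **the Poisson tensor** -/
def Lam6 (z : R6) : (R6 →L[ℝ] ℝ) →L[ℝ] R6 := lamL z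

theorem Lam6_apply (z : R6) (L : R6 →L[ℝ] ℝ) :
    Lam6 z L = (z.1 ⨯₃ cp L + z.2 ⨯₃ cq L, z.1 ⨯₃ cq L + z.2 ⨯₃ cp L) := rfl

theorem Lam6_smooth : ContDiff ℝ ∞ Lam6 := by
  have h : Lam6 = ⇑(LinearMap.toContinuousLinearMap lamL) := rfl
  rw [h]
  exact ContinuousLinearMap.contDiff _

theorem XB_eq (V : R6 → ℝ) (z : R6) : XB V z = Lam6 z (fderiv ℝ V z) := rfl

/-! ### vector algebra -/

theorem cross_self3 (a : R3) : a ⨯₃ a = 0 := by
  rw [cross_apply]; ext i; fin_cases i <;> simp <;> ring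

theorem cross_anti3 (a b : R3) : a ⨯₃ b = -(b ⨯₃ a) := by
  rw [cross_apply, cross_apply]; ext i; fin_cases i <;> simp <;> ring

theorem cross_add3 (a b c : R3) : a ⨯₃ (b + c) = a ⨯₃ b + a ⨯₃ c := map_add _ _ _

theorem cross_sub3 (a b c : R3) : a ⨯₃ (b - c) = a ⨯₃ b - a ⨯₃ c := map_sub _ _ _

theorem add_cross3 (a b c : R3) : (a + b) ⨯₃ c = a ⨯₃ c + b ⨯₃ c := by
  rw [map_add, LinearMap.add_apply]

theorem sub_cross3 (a b c : R3) : (a - b) ⨯₃ c = a ⨯₃ c - b ⨯₃ c := by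
  rw [map_sub, LinearMap.sub_apply]

theorem cross_cross3 (a b c : R3) : a ⨯₃ (b ⨯₃ c) = (a ⬝ᵥ c) • b - (a ⬝ᵥ b) • c := by
  simp only [cross_apply, vec3_dotProduct]
  ext i
  fin_cases i <;> simp <;> ring

theorem dot_cross3 (a b c : R3) : a ⬝ᵥ (b ⨯₃ c) = (a ⨯₃ b) ⬝ᵥ c := by
  simp only [cross_apply, vec3_dotProduct]
  simp
  ring

theorem dot_comm3 (a b : R3) : a ⬝ᵥ b = b ⬝ᵥ a := dotProduct_comm a b

theorem dot_self_ne {a : R3} (h : a ≠ 0) : a ⬝ᵥ a ≠ 0 := by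
  rwa [Ne, dotProduct_self_eq_zero]

theorem dot_self_nn (a : R3) : 0 ≤ a ⬝ᵥ a := by
  rw [vec3_dotProduct]; nlinarith [sq_nonneg (a 0), sq_nonneg (a 1), sq_nonneg (a 2)]

theorem dot_self_pos {a : R3} (h : a ≠ 0) : 0 < a ⬝ᵥ a :=
  lt_of_le_of_ne (dot_self_nn a) (dot_self_ne h).symm

theorem n3_pos {a : R3} (h : a ≠ 0) : 0 < n3 a := Real.sqrt_pos.2 (dot_self_pos h)

theorem n3_sq (a : R3) : n3 a ^ 2 = a ⬝ᵥ a := Real.sq_sqrt (dot_self_nn a)

/-- parallel vectors -/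
theorem par_of_cross {a b : R3} (ha : a ≠ 0) (h : a ⨯₃ b = 0) :
    b = ((a ⬝ᵥ b) / (a ⬝ᵥ a)) • a := by
  have h1 := cross_cross3 a a b
  rw [h, map_zero] at h1
  have h2 : (a ⬝ᵥ a) • b = (a ⬝ᵥ b) • a := (sub_eq_zero.1 h1.symm).symm
  rw [div_eq_inv_mul, mul_smul, ← h2, smul_smul, inv_mul_cancel₀ (dot_self_ne ha), one_smul]

/-! ### structure of the Poisson tensor -/

theorem Lam6_anti (z : R6) (L M : R6 →L[ℝ] ℝ) : M (Lam6 z L) = -L (Lam6 z M) := by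
  rw [cov_apply, cov_apply, Lam6_apply, Lam6_apply]
  simp only [cross_apply, vec3_dotProduct]
  simp
  ring

theorem Lam6_self (z : R6) (L : R6 →L[ℝ] ℝ) : L (Lam6 z L) = 0 := by
  have := Lam6_anti z L L
  linarith

/-- first constraint -/
def rho1 (z : R6) : ℝ := z.1 ⬝ᵥ z.2

/-- second constraint -/
def rho2 (z : R6) : ℝ := z.1 ⬝ᵥ z.1 + z.2 ⬝ᵥ z.2 - 1

theorem base_iff (z : R6) : z ∈ base ↔ rho1 z = 0 ∧ rho2 z = 0 := by
  simp only [base, rho1, rho2, Set.mem_ofPred_eq, sub_eq_zero]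

theorem cov_ext {L M : R6 →L[ℝ] ℝ} (h1 : cp L = cp M) (h2 : cq L = cq M) : L = M := by
  refine ContinuousLinearMap.ext fun w => ?_
  rw [cov_apply, cov_apply, h1, h2]

theorem cov_eq (L : R6 →L[ℝ] ℝ) : L = cov (cp L) (cq L) :=
  cov_ext (cp_cov _ _).symm (cq_cov _ _).symm

theorem hasFDerivAt_dot {E : Type*} [NormedAddCommGroup E] [NormedSpace ℝ E] {f g : E → R3}
    {f' g' : E →L[ℝ] R3} {x : E} (hf : HasFDerivAt f f' x) (hg : HasFDerivAt g g' x) :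
    ∃ L : E →L[ℝ] ℝ, HasFDerivAt (fun y => f y ⬝ᵥ g y) L x ∧
      ∀ w, L w = f' w ⬝ᵥ g x + f x ⬝ᵥ g' w := by
  have hfi : ∀ i, HasFDerivAt (fun y => f y i) ((ContinuousLinearMap.proj i).comp f') x :=
    fun i => (ContinuousLinearMap.proj (R := ℝ) (φ := fun _ : Fin 3 => ℝ) i).hasFDerivAt.comp x hf
  have hgi : ∀ i, HasFDerivAt (fun y => g y i) ((ContinuousLinearMap.proj i).comp g') x :=
    fun i => (ContinuousLinearMap.proj (R := ℝ) (φ := fun _ : Fin 3 => ℝ) i).hasFDerivAt.comp x hg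
  refine ⟨_, HasFDerivAt.fun_sum fun i _ => (hfi i).mul (hgi i), fun w => ?_⟩
  simp only [dotProduct, ← Finset.sum_add_distrib]
  rw [_root_.sum_apply]
  refine Finset.sum_congr rfl fun i _ => ?_
  simp
  ring

theorem hasFDerivAt_cross {E : Type*} [NormedAddCommGroup E] [NormedSpace ℝ E] {f g : E → R3}
    {f' g' : E →L[ℝ] R3} {x : E} (hf : HasFDerivAt f f' x) (hg : HasFDerivAt g g' x) :
    ∃ L : E →L[ℝ] R3, HasFDerivAt (fun y => f y ⨯₃ g y) L x ∧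
      ∀ w, L w = f' w ⨯₃ g x + f x ⨯₃ g' w := by
  have hfi : ∀ i, HasFDerivAt (fun y => f y i) ((ContinuousLinearMap.proj i).comp f') x :=
    fun i => (ContinuousLinearMap.proj (R := ℝ) (φ := fun _ : Fin 3 => ℝ) i).hasFDerivAt.comp x hf
  have hgi : ∀ i, HasFDerivAt (fun y => g y i) ((ContinuousLinearMap.proj i).comp g') x :=
    fun i => (ContinuousLinearMap.proj (R := ℝ) (φ := fun _ : Fin 3 => ℝ) i).hasFDerivAt.comp x hg
  have key : ∀ i j k l : Fin 3, HasFDerivAt (fun y => f y i * g y j - f y k * g y l)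
      ((f x i • (ContinuousLinearMap.proj j).comp g' + g x j • (ContinuousLinearMap.proj i).comp f')
      - (f x k • (ContinuousLinearMap.proj l).comp g' +
        g x l • (ContinuousLinearMap.proj k).comp f')) x :=
    fun i j k l => ((hfi i).mul (hgi j)).sub ((hfi k).mul (hgi l))
  let L3 : Fin 3 → (E →L[ℝ] ℝ) := ![
    (f x 1 • (ContinuousLinearMap.proj 2).comp g' + g x 2 • (ContinuousLinearMap.proj 1).comp f')
      - (f x 2 • (ContinuousLinearMap.proj 1).comp g' +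
        g x 1 • (ContinuousLinearMap.proj 2).comp f'),
    (f x 2 • (ContinuousLinearMap.proj 0).comp g' + g x 0 • (ContinuousLinearMap.proj 2).comp f')
      - (f x 0 • (ContinuousLinearMap.proj 2).comp g' +
        g x 2 • (ContinuousLinearMap.proj 0).comp f'),
    (f x 0 • (ContinuousLinearMap.proj 1).comp g' + g x 1 • (ContinuousLinearMap.proj 0).comp f')
      - (f x 1 • (ContinuousLinearMap.proj 0).comp g' +
        g x 0 • (ContinuousLinearMap.proj 1).comp f')]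
  refine ⟨ContinuousLinearMap.pi L3, hasFDerivAt_pi.2 fun i => ?_, fun w => ?_⟩
  · simp only [cross_apply]
    fin_cases i
    · exact key 1 2 2 1
    · exact key 2 0 0 2
    · exact key 0 1 1 0
  · simp only [cross_apply]
    ext i
    fin_cases i <;> simp [L3] <;> ring

/-! ### the constraints -/

/-- both constraints -/
def rho (z : R6) : ℝ × ℝ := (rho1 z, rho2 z)

theorem dot_smooth {E : Type*} [NormedAddCommGroup E] [NormedSpace ℝ E] {f g : E → R3}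
    {U : Set E} (hf : ContDiffOn ℝ ∞ f U) (hg : ContDiffOn ℝ ∞ g U) :
    ContDiffOn ℝ ∞ (fun y => f y ⬝ᵥ g y) U :=
  ContDiffOn.sum fun i _ => (contDiffOn_pi.1 hf i).mul (contDiffOn_pi.1 hg i)

theorem cross_smooth {E : Type*} [NormedAddCommGroup E] [NormedSpace ℝ E] {f g : E → R3}
    {U : Set E} (hf : ContDiffOn ℝ ∞ f U) (hg : ContDiffOn ℝ ∞ g U) :
    ContDiffOn ℝ ∞ (fun y => f y ⨯₃ g y) U := by
  have hf' := contDiffOn_pi.1 hf
  have hg' := contDiffOn_pi.1 hg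
  refine contDiffOn_pi.2 fun i => ?_
  simp only [cross_apply]
  fin_cases i
  · exact ((hf' 1).mul (hg' 2)).sub ((hf' 2).mul (hg' 1))
  · exact ((hf' 2).mul (hg' 0)).sub ((hf' 0).mul (hg' 2))
  · exact ((hf' 0).mul (hg' 1)).sub ((hf' 1).mul (hg' 0))

theorem fst_smooth {U : Set R6} : ContDiffOn ℝ ∞ (fun z : R6 => z.1) U :=
  contDiff_fst.contDiffOn

theorem snd_smooth {U : Set R6} : ContDiffOn ℝ ∞ (fun z : R6 => z.2) U :=
  contDiff_snd.contDiffOn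

theorem rho_smooth {U : Set R6} : ContDiffOn ℝ ∞ rho U :=
  (dot_smooth fst_smooth snd_smooth).prodMk
    (((dot_smooth fst_smooth fst_smooth).add (dot_smooth snd_smooth snd_smooth)).sub
      contDiffOn_const)

theorem rho1_fderiv (z w : R6) :
    DifferentiableAt ℝ rho1 z ∧ fderiv ℝ rho1 z w = w.1 ⬝ᵥ z.2 + z.1 ⬝ᵥ w.2 := by
  obtain ⟨L, hL, hL'⟩ := hasFDerivAt_dot (hasFDerivAt_fst (𝕜 := ℝ) (E := R3) (F := R3) (p := z))
    (hasFDerivAt_snd (𝕜 := ℝ) (E := R3) (F := R3) (p := z))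
  refine ⟨hL.differentiableAt, ?_⟩
  rw [show rho1 = fun y : R6 => y.1 ⬝ᵥ y.2 from rfl, hL.fderiv, hL']
  rfl

theorem rho2_fderiv (z w : R6) :
    DifferentiableAt ℝ rho2 z ∧ fderiv ℝ rho2 z w = 2 * (z.1 ⬝ᵥ w.1 + z.2 ⬝ᵥ w.2) := by
  obtain ⟨L, hL, hL'⟩ := hasFDerivAt_dot (hasFDerivAt_fst (𝕜 := ℝ) (E := R3) (F := R3) (p := z))
    (hasFDerivAt_fst (𝕜 := ℝ) (E := R3) (F := R3) (p := z))
  obtain ⟨M, hM, hM'⟩ := hasFDerivAt_dot (hasFDerivAt_snd (𝕜 := ℝ) (E := R3) (F := R3) (p := z))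
    (hasFDerivAt_snd (𝕜 := ℝ) (E := R3) (F := R3) (p := z))
  have h : HasFDerivAt (fun y : R6 => y.1 ⬝ᵥ y.1 + y.2 ⬝ᵥ y.2 - 1) (L + M) z :=
    (hL.add hM).sub_const 1
  refine ⟨h.differentiableAt, ?_⟩
  rw [show rho2 = fun y : R6 => y.1 ⬝ᵥ y.1 + y.2 ⬝ᵥ y.2 - 1 from rfl, h.fderiv, _root_.add_apply, hL',
    hM']
  simp only [ContinuousLinearMap.coe_fst', ContinuousLinearMap.coe_snd']
  rw [dot_comm3 w.1 z.1, dot_comm3 w.2 z.2]
  ring

theorem rho_fderiv (z w : R6) : fderiv ℝ rho z w =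
    (w.1 ⬝ᵥ z.2 + z.1 ⬝ᵥ w.2, 2 * (z.1 ⬝ᵥ w.1 + z.2 ⬝ᵥ w.2)) := by
  have h := (rho1_fderiv z w).1.hasFDerivAt.prodMk (rho2_fderiv z w).1.hasFDerivAt
  rw [show rho = fun y : R6 => (rho1 y, rho2 y) from rfl, h.fderiv]
  show (fderiv ℝ rho1 z w, fderiv ℝ rho2 z w) = _
  rw [(rho1_fderiv z w).2, (rho2_fderiv z w).2]

theorem rho_tan {z w : R6} (h : fderiv ℝ rho z w = 0) :
    z.2 ⬝ᵥ w.1 + z.1 ⬝ᵥ w.2 = 0 ∧ z.1 ⬝ᵥ w.1 + z.2 ⬝ᵥ w.2 = 0 := by
  rw [rho_fderiv, Prod.mk_eq_zero] at h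
  rw [dot_comm3 z.2 w.1]
  exact ⟨h.1, by linarith [h.2]⟩

theorem rho_cas (z : R6) (L : R6 →L[ℝ] ℝ) : fderiv ℝ rho z (Lam6 z L) = 0 := by
  rw [rho_fderiv, Lam6_apply, Prod.mk_eq_zero]
  simp only [cross_apply, vec3_dotProduct]
  simp
  constructor <;> ring

theorem rho_nondeg {z : R6} (hz : z ∈ base) (L : R6 →L[ℝ] ℝ) (hL : Lam6 z L = 0) (w : R6)
    (hw : fderiv ℝ rho z w = 0) : L w = 0 := by
  obtain ⟨h1, h2⟩ := rho_tan hw
  rw [Lam6_apply, Prod.mk_eq_zero] at hL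
  obtain ⟨h3, h4⟩ := hL
  obtain ⟨b1, b2⟩ := hz
  have e1 : (z.1 + z.2) ⨯₃ (cp L + cq L) = 0 := by
    rw [cross_add3, add_cross3, add_cross3]
    calc z.1 ⨯₃ cp L + z.2 ⨯₃ cp L + (z.1 ⨯₃ cq L + z.2 ⨯₃ cq L) =
        (z.1 ⨯₃ cp L + z.2 ⨯₃ cq L) + (z.1 ⨯₃ cq L + z.2 ⨯₃ cp L) := by abel
      _ = 0 := by rw [h3, h4, add_zero]
  have e2 : (z.1 - z.2) ⨯₃ (cp L - cq L) = 0 := by
    rw [cross_sub3, sub_cross3, sub_cross3]
    calc z.1 ⨯₃ cp L - z.2 ⨯₃ cp L - (z.1 ⨯₃ cq L - z.2 ⨯₃ cq L) =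
        (z.1 ⨯₃ cp L + z.2 ⨯₃ cq L) - (z.1 ⨯₃ cq L + z.2 ⨯₃ cp L) := by abel
      _ = 0 := by rw [h3, h4, sub_zero]
  have n1 : (z.1 + z.2) ⬝ᵥ (z.1 + z.2) = 1 := by
    rw [add_dotProduct, dotProduct_add, dotProduct_add, dot_comm3 z.2 z.1, b1]; linarith
  have n2 : (z.1 - z.2) ⬝ᵥ (z.1 - z.2) = 1 := by
    rw [sub_dotProduct, dotProduct_sub, dotProduct_sub, dot_comm3 z.2 z.1, b1]; linarith
  have z1 : z.1 + z.2 ≠ 0 := by
    intro h; rw [h, dotProduct_zero] at n1; exact zero_ne_one n1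
  have z2 : z.1 - z.2 ≠ 0 := by
    intro h; rw [h, dotProduct_zero] at n2; exact zero_ne_one n2
  have f1 := par_of_cross z1 e1
  have f2 := par_of_cross z2 e2
  have g1 : (z.1 + z.2) ⬝ᵥ (w.1 + w.2) = 0 := by
    rw [add_dotProduct, dotProduct_add, dotProduct_add]; linarith
  have g2 : (z.1 - z.2) ⬝ᵥ (w.1 - w.2) = 0 := by
    rw [sub_dotProduct, dotProduct_sub, dotProduct_sub]; linarith
  have k1 : (cp L + cq L) ⬝ᵥ (w.1 + w.2) = 0 := by
    rw [f1, smul_dotProduct, g1, smul_zero]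
  have k2 : (cp L - cq L) ⬝ᵥ (w.1 - w.2) = 0 := by
    rw [f2, smul_dotProduct, g2, smul_zero]
  rw [add_dotProduct, dotProduct_add, dotProduct_add] at k1
  rw [sub_dotProduct, dotProduct_sub, dotProduct_sub] at k2
  rw [cov_apply]
  linarith

/-- every tangent vector is Hamiltonian -/
theorem rho_onto {z : R6} (hz : z ∈ base) (w : R6) (hw : fderiv ℝ rho z w = 0) :
    ∃ L, Lam6 z L = w := by
  obtain ⟨h1, h2⟩ := rho_tan hw
  obtain ⟨b1, b2⟩ := hz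
  have n1 : (z.1 + z.2) ⬝ᵥ (z.1 + z.2) = 1 := by
    rw [add_dotProduct, dotProduct_add, dotProduct_add, dot_comm3 z.2 z.1, b1]; linarith
  have n2 : (z.1 - z.2) ⬝ᵥ (z.1 - z.2) = 1 := by
    rw [sub_dotProduct, dotProduct_sub, dotProduct_sub, dot_comm3 z.2 z.1, b1]; linarith
  have g1 : (z.1 + z.2) ⬝ᵥ (w.1 + w.2) = 0 := by
    rw [add_dotProduct, dotProduct_add, dotProduct_add]; linarith
  have g2 : (z.1 - z.2) ⬝ᵥ (w.1 - w.2) = 0 := by
    rw [sub_dotProduct, dotProduct_sub, dotProduct_sub]; linarith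
  have c1 : (z.1 + z.2) ⨯₃ ((w.1 + w.2) ⨯₃ (z.1 + z.2)) = w.1 + w.2 := by
    rw [cross_cross3, n1, g1, one_smul, zero_smul, sub_zero]
  have c2 : (z.1 - z.2) ⨯₃ ((w.1 - w.2) ⨯₃ (z.1 - z.2)) = w.1 - w.2 := by
    rw [cross_cross3, n2, g2, one_smul, zero_smul, sub_zero]
  obtain ⟨A, hA⟩ : ∃ A, A = (w.1 + w.2) ⨯₃ (z.1 + z.2) := ⟨_, rfl⟩
  obtain ⟨B, hB⟩ : ∃ B, B = (w.1 - w.2) ⨯₃ (z.1 - z.2) := ⟨_, rfl⟩
  rw [← hA] at c1
  rw [← hB] at c2
  refine ⟨cov ((1 / 2 : ℝ) • (A + B)) ((1 / 2 : ℝ) • (A - B)), ?_⟩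
  rw [Lam6_apply, cp_cov, cq_cov]
  rw [add_cross3] at c1
  rw [sub_cross3] at c2
  simp only [map_smul, cross_add3, cross_sub3]
  have d1 : z.1 ⨯₃ A + z.2 ⨯₃ A + (z.1 ⨯₃ B - z.2 ⨯₃ B) = (2 : ℝ) • w.1 := by
    rw [c1, c2, two_smul]; abel
  have d2 : z.1 ⨯₃ A + z.2 ⨯₃ A - (z.1 ⨯₃ B - z.2 ⨯₃ B) = (2 : ℝ) • w.2 := by
    rw [c1, c2, two_smul]; abel
  refine Prod.ext ?_ ?_
  · show (1 / 2 : ℝ) • (z.1 ⨯₃ A + z.1 ⨯₃ B) + (1 / 2 : ℝ) • (z.2 ⨯₃ A - z.2 ⨯₃ B) = w.1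
    rw [← smul_add]
    rw [show z.1 ⨯₃ A + z.1 ⨯₃ B + (z.2 ⨯₃ A - z.2 ⨯₃ B) =
      z.1 ⨯₃ A + z.2 ⨯₃ A + (z.1 ⨯₃ B - z.2 ⨯₃ B) from by abel, d1, smul_smul]
    norm_num
  · show (1 / 2 : ℝ) • (z.1 ⨯₃ A - z.1 ⨯₃ B) + (1 / 2 : ℝ) • (z.2 ⨯₃ A + z.2 ⨯₃ B) = w.2
    rw [← smul_add]
    rw [show z.1 ⨯₃ A - z.1 ⨯₃ B + (z.2 ⨯₃ A + z.2 ⨯₃ B) =
      z.1 ⨯₃ A + z.2 ⨯₃ A - (z.1 ⨯₃ B - z.2 ⨯₃ B) from by abel, d2, smul_smul]
    norm_num

/-! ### functions on the base -/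

theorem m_curve (a : ℝ) :
    HasDerivAt (fun t : ℝ => (√(1 + t ^ 2 * a))⁻¹) 0 0 := by
  have h1 : HasDerivAt (fun t : ℝ => 1 + t ^ 2 * a) (0 : ℝ) 0 := by
    have := (((hasDerivAt_id (0 : ℝ)).pow 2).mul_const a).const_add 1
    simpa using this
  have h2 : HasDerivAt (fun t : ℝ => √(1 + t ^ 2 * a)) 0 0 := by
    have := h1.sqrt (by norm_num)
    simpa using this
  have h3 : HasDerivAt (fun t : ℝ => (√(1 + t ^ 2 * a))⁻¹) _ 0 := h2.inv (by norm_num)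
  exact h3.congr_deriv (by simp)

/-- curves in the base -/
theorem base_curve {z : R6} (hz : z ∈ base) {w : R6} (hw : fderiv ℝ rho z w = 0) :
    ∃ γ : ℝ → R6, γ 0 = z ∧ HasDerivAt γ w 0 ∧ ∀ t, γ t ∈ base := by
  obtain ⟨h1, h2⟩ := rho_tan hw
  obtain ⟨b1, b2⟩ := hz
  have n1 : (z.1 + z.2) ⬝ᵥ (z.1 + z.2) = 1 := by
    rw [add_dotProduct, dotProduct_add, dotProduct_add, dot_comm3 z.2 z.1, b1]; linarith
  have n2 : (z.1 - z.2) ⬝ᵥ (z.1 - z.2) = 1 := by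
    rw [sub_dotProduct, dotProduct_sub, dotProduct_sub, dot_comm3 z.2 z.1, b1]; linarith
  have g1 : (z.1 + z.2) ⬝ᵥ (w.1 + w.2) = 0 := by
    rw [add_dotProduct, dotProduct_add, dotProduct_add]; linarith
  have g2 : (z.1 - z.2) ⬝ᵥ (w.1 - w.2) = 0 := by
    rw [sub_dotProduct, dotProduct_sub, dotProduct_sub]; linarith
  obtain ⟨a, ha⟩ : ∃ a, a = (w.1 + w.2) ⬝ᵥ (w.1 + w.2) := ⟨_, rfl⟩
  obtain ⟨b, hb⟩ : ∃ b, b = (w.1 - w.2) ⬝ᵥ (w.1 - w.2) := ⟨_, rfl⟩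
  have ha0 : 0 ≤ a := by rw [ha]; exact dot_self_nn _
  have hb0 : 0 ≤ b := by rw [hb]; exact dot_self_nn _
  obtain ⟨S, hS⟩ : ∃ S : ℝ → R3, S = fun t => (√(1 + t ^ 2 * a))⁻¹ • ((z.1 + z.2) +
    t • (w.1 + w.2)) := ⟨_, rfl⟩
  obtain ⟨T, hT⟩ : ∃ T : ℝ → R3, T = fun t => (√(1 + t ^ 2 * b))⁻¹ • ((z.1 - z.2) +
    t • (w.1 - w.2)) := ⟨_, rfl⟩
  have dS : HasDerivAt S (w.1 + w.2) 0 := by
    have h3 : HasDerivAt (fun t : ℝ => (√(1 + t ^ 2 * a))⁻¹ • ((z.1 + z.2) +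
        t • (w.1 + w.2))) _ 0 := (m_curve a).smul
      (((hasDerivAt_id (0 : ℝ)).smul_const (w.1 + w.2)).const_add (z.1 + z.2))
    rw [hS]
    exact h3.congr_deriv (by simp)
  have dT : HasDerivAt T (w.1 - w.2) 0 := by
    have h3 : HasDerivAt (fun t : ℝ => (√(1 + t ^ 2 * b))⁻¹ • ((z.1 - z.2) +
        t • (w.1 - w.2))) _ 0 := (m_curve b).smul
      (((hasDerivAt_id (0 : ℝ)).smul_const (w.1 - w.2)).const_add (z.1 - z.2))
    rw [hT]
    exact h3.congr_deriv (by simp)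
  have nS : ∀ t, S t ⬝ᵥ S t = 1 := by
    intro t
    have h3 : (z.1 + z.2 + t • (w.1 + w.2)) ⬝ᵥ (z.1 + z.2 + t • (w.1 + w.2)) =
        1 + t ^ 2 * a := by
      rw [add_dotProduct (z.1 + z.2), dotProduct_add (z.1 + z.2), dotProduct_add (t • (w.1 + w.2)),
        n1, dotProduct_smul, smul_dotProduct, smul_dotProduct, dotProduct_smul, g1,
        dot_comm3 (w.1 + w.2) (z.1 + z.2), g1, ← ha]
      simp only [smul_eq_mul]
      ring
    have h4 : (0 : ℝ) < 1 + t ^ 2 * a := by positivity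
    rw [hS]
    simp only
    rw [smul_dotProduct, dotProduct_smul, h3, smul_eq_mul, smul_eq_mul, ← mul_assoc, ← mul_inv,
      Real.mul_self_sqrt h4.le, inv_mul_cancel₀ h4.ne']
  have nT : ∀ t, T t ⬝ᵥ T t = 1 := by
    intro t
    have h3 : (z.1 - z.2 + t • (w.1 - w.2)) ⬝ᵥ (z.1 - z.2 + t • (w.1 - w.2)) =
        1 + t ^ 2 * b := by
      rw [add_dotProduct (z.1 - z.2), dotProduct_add (z.1 - z.2), dotProduct_add (t • (w.1 - w.2)),
        n2, dotProduct_smul, smul_dotProduct, smul_dotProduct, dotProduct_smul, g2,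
        dot_comm3 (w.1 - w.2) (z.1 - z.2), g2, ← hb]
      simp only [smul_eq_mul]
      ring
    have h4 : (0 : ℝ) < 1 + t ^ 2 * b := by positivity
    rw [hT]
    simp only
    rw [smul_dotProduct, dotProduct_smul, h3, smul_eq_mul, smul_eq_mul, ← mul_assoc, ← mul_inv,
      Real.mul_self_sqrt h4.le, inv_mul_cancel₀ h4.ne']
  have S0 : S 0 = z.1 + z.2 := by rw [hS]; simp
  have T0 : T 0 = z.1 - z.2 := by rw [hT]; simp
  refine ⟨fun t => ((1 / 2 : ℝ) • (S t + T t), (1 / 2 : ℝ) • (S t - T t)), ?_, ?_, ?_⟩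
  · simp only
    rw [S0, T0]
    refine Prod.ext ?_ ?_
    · show (1 / 2 : ℝ) • (z.1 + z.2 + (z.1 - z.2)) = z.1
      rw [show z.1 + z.2 + (z.1 - z.2) = (2 : ℝ) • z.1 from by rw [two_smul]; abel, smul_smul]
      norm_num
    · show (1 / 2 : ℝ) • (z.1 + z.2 - (z.1 - z.2)) = z.2
      rw [show z.1 + z.2 - (z.1 - z.2) = (2 : ℝ) • z.2 from by rw [two_smul]; abel, smul_smul]
      norm_num
  · have h3 := ((dS.add dT).const_smul (1 / 2 : ℝ)).prodMk ((dS.sub dT).const_smul (1 / 2 : ℝ))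
    refine h3.congr_deriv ?_
    refine Prod.ext ?_ ?_
    · show (1 / 2 : ℝ) • (w.1 + w.2 + (w.1 - w.2)) = w.1
      rw [show w.1 + w.2 + (w.1 - w.2) = (2 : ℝ) • w.1 from by rw [two_smul]; abel, smul_smul]
      norm_num
    · show (1 / 2 : ℝ) • (w.1 + w.2 - (w.1 - w.2)) = w.2
      rw [show w.1 + w.2 - (w.1 - w.2) = (2 : ℝ) • w.2 from by rw [two_smul]; abel, smul_smul]
      norm_num
  · intro t
    constructor
    · show ((1 / 2 : ℝ) • (S t + T t)) ⬝ᵥ ((1 / 2 : ℝ) • (S t - T t)) = 0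
      rw [smul_dotProduct, dotProduct_smul, add_dotProduct, dotProduct_sub, dotProduct_sub, nS, nT,
        dot_comm3 (T t) (S t)]
      simp only [smul_eq_mul]
      ring
    · show ((1 / 2 : ℝ) • (S t + T t)) ⬝ᵥ ((1 / 2 : ℝ) • (S t + T t)) +
        ((1 / 2 : ℝ) • (S t - T t)) ⬝ᵥ ((1 / 2 : ℝ) • (S t - T t)) = 1
      rw [smul_dotProduct, dotProduct_smul, add_dotProduct, dotProduct_add, dotProduct_add,
        smul_dotProduct, dotProduct_smul, sub_dotProduct, dotProduct_sub, dotProduct_sub, nS, nT,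
        dot_comm3 (T t) (S t)]
      simp only [smul_eq_mul]
      ring

/-- the derivative in a tangent direction depends on the restriction to the base only -/
theorem fderiv_congr_base {N : Type*} [NormedAddCommGroup N] [NormedSpace ℝ N] {F F' : R6 → N}
    {z : R6} (hz : z ∈ base) (hF : DifferentiableAt ℝ F z) (hF' : DifferentiableAt ℝ F' z)
    (h : ∀ᶠ y in 𝓝 z, y ∈ base → F y = F' y) {w : R6} (hw : fderiv ℝ rho z w = 0) :
    fderiv ℝ F z w = fderiv ℝ F' z w := by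
  obtain ⟨γ, g0, g1, g2⟩ := base_curve hz hw
  have h1 : HasDerivAt (fun t => F (γ t)) (fderiv ℝ F z w) 0 := by
    have : HasFDerivAt F (fderiv ℝ F z) (γ 0) := by rw [g0]; exact hF.hasFDerivAt
    exact this.comp_hasDerivAt (0 : ℝ) g1
  have h2 : HasDerivAt (fun t => F' (γ t)) (fderiv ℝ F' z w) 0 := by
    have : HasFDerivAt F' (fderiv ℝ F' z) (γ 0) := by rw [g0]; exact hF'.hasFDerivAt
    exact this.comp_hasDerivAt (0 : ℝ) g1
  refine h1.unique (h2.congr_of_eventuallyEq ?_)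
  have h3 : Tendsto γ (𝓝 0) (𝓝 z) := by
    have := g1.continuousAt.tendsto
    rwa [g0] at this
  filter_upwards [h3.eventually h] with t ht
  exact ht (g2 t)

/-- a vector on which all covectors vanish -/
theorem vec_zero {v : R6} (h : ∀ M : R6 →L[ℝ] ℝ, M v = 0) : v = 0 := by
  have h1 := h (cov v.1 v.2)
  rw [cov_app] at h1
  have h2 := dot_self_nn v.1
  have h3 := dot_self_nn v.2
  have h4 : v.1 = 0 := by
    by_contra hne
    exact (dot_self_pos hne).ne' (by linarith)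
  have h5 : v.2 = 0 := by
    by_contra hne
    exact (dot_self_pos hne).ne' (by linarith)
  exact Prod.ext h4 h5

theorem Lam6_congr {z : R6} {L L' : R6 →L[ℝ] ℝ}
    (h : ∀ w, fderiv ℝ rho z w = 0 → L w = L' w) : Lam6 z L = Lam6 z L' := by
  rw [← sub_eq_zero, ← map_sub]
  refine vec_zero fun M => ?_
  rw [Lam6_anti z (L - L') M, _root_.sub_apply, h _ (rho_cas z M)]
  ring

/-- the Hamiltonian field depends on the restriction to the base only -/
theorem XB_congr_base {V V' : R6 → ℝ} {z : R6} (hz : z ∈ base) (hV : DifferentiableAt ℝ V z)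
    (hV' : DifferentiableAt ℝ V' z) (h : ∀ᶠ y in 𝓝 z, y ∈ base → V y = V' y) :
    XB V z = XB V' z := by
  rw [XB_eq, XB_eq]
  exact Lam6_congr fun w hw => fderiv_congr_base hz hV hV' h hw

theorem XB_tan (V : R6 → ℝ) (z : R6) : fderiv ℝ rho z (XB V z) = 0 := by
  rw [XB_eq]; exact rho_cas z _

theorem XD_congr_base {V V' F F' : R6 → ℝ} {z : R6} (hz : z ∈ base)
    (hV : DifferentiableAt ℝ V z) (hV' : DifferentiableAt ℝ V' z) (hF : DifferentiableAt ℝ F z)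
    (hF' : DifferentiableAt ℝ F' z) (h1 : ∀ᶠ y in 𝓝 z, y ∈ base → V y = V' y)
    (h2 : ∀ᶠ y in 𝓝 z, y ∈ base → F y = F' y) : XD V F z = XD V' F' z := by
  rw [XD, XD, XB_congr_base hz hV hV' h1]
  exact fderiv_congr_base hz hF hF' h2 (XB_tan V' z)

/-! ### iterated derivatives -/

theorem Lam6_smoothOn (U : Set R6) : ContDiffOn ℝ ∞ Lam6 U := Lam6_smooth.contDiffOn

theorem XB_smooth {O : Set R6} (hO : IsOpen O) {V : R6 → ℝ} (hV : ContDiffOn ℝ ∞ V O) :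
    ContDiffOn ℝ ∞ (XB V) O :=
  (Lam6_smoothOn O).clm_apply (fder_smooth hO hV)

/-- iterated derivatives depend on the restrictions to the base only -/
theorem itd_congr_base {O : Set R6} (hO : IsOpen O) {V V' f f' : R6 → ℝ}
    (hV : ContDiffOn ℝ ∞ V O) (hV' : ContDiffOn ℝ ∞ V' O) (hf : ContDiffOn ℝ ∞ f O)
    (hf' : ContDiffOn ℝ ∞ f' O) (h1 : ∀ y ∈ O, y ∈ base → V y = V' y)
    (h2 : ∀ y ∈ O, y ∈ base → f y = f' y) (j : ℕ) :
    ∀ y ∈ O, y ∈ base → itd (XB V) f j y = itd (XB V') f' j y := by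
  induction j with
  | zero => exact h2
  | succ j ih =>
    intro y hy hb
    show fderiv ℝ (itd (XB V) f j) y (XB V y) = fderiv ℝ (itd (XB V') f' j) y (XB V' y)
    rw [XB_congr_base hb (dif_at hO hV hy) (dif_at hO hV' hy)
      (by filter_upwards [hO.mem_nhds hy] with x hx using h1 x hx)]
    exact fderiv_congr_base hb (dif_at hO (itd_smooth hO (XB_smooth hO hV) hf j) hy)
      (dif_at hO (itd_smooth hO (XB_smooth hO hV') hf' j) hy)
      (by filter_upwards [hO.mem_nhds hy] with x hx using ih x hx) (XB_tan V' y)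

/-! ### the structure `BaseD` -/

theorem U6_open : IsOpen U6 :=
  (isOpen_ne_fun continuous_fst continuous_const).inter
    (isOpen_ne_fun continuous_snd continuous_const)

theorem dot_cont {E : Type*} [TopologicalSpace E] {f g : E → R3} (hf : Continuous f)
    (hg : Continuous g) : Continuous fun y => f y ⬝ᵥ g y :=
  continuous_finsetSum _ fun i _ => ((continuous_apply i).comp hf).mul ((continuous_apply i).comp hg)

theorem base_closed : IsClosed base :=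
  (isClosed_eq (dot_cont continuous_fst continuous_snd) continuous_const).inter
    (isClosed_eq ((dot_cont continuous_fst continuous_fst).add
      (dot_cont continuous_snd continuous_snd)) continuous_const)

theorem coord_le (a : R3) (i : Fin 3) : a i ^ 2 ≤ a ⬝ᵥ a := by
  rw [vec3_dotProduct]
  fin_cases i
  · show a 0 ^ 2 ≤ _
    nlinarith [sq_nonneg (a 1), sq_nonneg (a 2)]
  · show a 1 ^ 2 ≤ _
    nlinarith [sq_nonneg (a 0), sq_nonneg (a 2)]
  · show a 2 ^ 2 ≤ _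
    nlinarith [sq_nonneg (a 0), sq_nonneg (a 1)]

theorem base_norm {z : R6} (hz : z ∈ base) : ‖z‖ ≤ 1 := by
  have h1 := dot_self_nn z.1
  have h2 := dot_self_nn z.2
  have h3 := hz.2
  refine norm_prod_le_iff.2 ⟨?_, ?_⟩
  · refine (pi_norm_le_iff_of_nonneg zero_le_one).2 fun i => ?_
    rw [Real.norm_eq_abs]
    exact abs_le_one_iff_mul_self_le_one.2 (by nlinarith [coord_le z.1 i])
  · refine (pi_norm_le_iff_of_nonneg zero_le_one).2 fun i => ?_
    rw [Real.norm_eq_abs]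
    exact abs_le_one_iff_mul_self_le_one.2 (by nlinarith [coord_le z.2 i])

theorem base_compact : IsCompact base :=
  Metric.isCompact_of_isClosed_isBounded base_closed
    ((Metric.isBounded_closedBall (x := (0 : R6)) (r := 1)).subset fun z hz => by
      rw [Metric.mem_closedBall, dist_zero_right]; exact base_norm hz)

/-- the part of the base with `|p|², |q|² ≥ δ` -/
def NN (δ : ℝ) : Set R6 := {z | z ∈ base ∧ δ ≤ z.1 ⬝ᵥ z.1 ∧ δ ≤ z.2 ⬝ᵥ z.2}

theorem NN_compact (δ : ℝ) : IsCompact (NN δ) :=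
  base_compact.inter_right ((isClosed_le continuous_const (dot_cont continuous_fst
    continuous_fst)).inter (isClosed_le continuous_const (dot_cont continuous_snd continuous_snd)))

theorem NN_base {δ : ℝ} : NN δ ⊆ base := fun _ hz => hz.1

theorem NN_U6 {δ : ℝ} (hδ : 0 < δ) : NN δ ⊆ U6 := by
  rintro z ⟨-, h1, h2⟩
  constructor
  · intro h
    rw [h, dotProduct_zero] at h1
    linarith
  · intro h
    rw [h, dotProduct_zero] at h2
    linarith

theorem rho_surj {z : R6} (hz : z ∈ base) : Function.Surjective (fderiv ℝ rho z) := by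
  rintro ⟨s, t⟩
  obtain ⟨b1, b2⟩ := hz
  refine ⟨(s • z.2 + (t / 2) • z.1, s • z.1 + (t / 2) • z.2), ?_⟩
  rw [rho_fderiv]
  simp only [add_dotProduct, dotProduct_add, smul_dotProduct, dotProduct_smul, smul_eq_mul,
    dot_comm3 z.2 z.1, b1]
  refine Prod.ext ?_ ?_
  · show s * z.2 ⬝ᵥ z.2 + t / 2 * 0 + (s * z.1 ⬝ᵥ z.1 + t / 2 * 0) = s
    linear_combination s * b2
  · show 2 * (s * 0 + t / 2 * z.1 ⬝ᵥ z.1 + (s * 0 + t / 2 * z.2 ⬝ᵥ z.2)) = t
    linear_combination t * b2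

/-- **the structure on the base**, with a constant factor `κ` -/
theorem baseD6 {N : Set R6} (hN : IsCompact N) (h1 : N ⊆ base) (h2 : N ⊆ U6) {κ : ℝ}
    (hκ : κ ≠ 0) : BaseD U6 N (fun z => κ • Lam6 z) rho 2 where
  hU := U6_open
  hN := hN
  hNU := h2
  Λs := (Lam6_smoothOn U6).const_smul κ
  ρs := rho_smooth
  ρN := fun x hx => by
    obtain ⟨h3, h4⟩ := (base_iff x).1 (h1 hx)
    rw [rho, h3, h4]; rfl
  rank := fun x hx => by
    have h3 : LinearMap.range (fderiv ℝ rho x : R6 →ₗ[ℝ] ℝ × ℝ) = ⊤ :=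
      LinearMap.range_eq_top.2 (rho_surj (h1 hx))
    rw [h3, finrank_top, Module.finrank_prod, Module.finrank_self]
  anti := fun x _ L M => by
    rw [_root_.smul_apply, _root_.smul_apply, map_smul, map_smul, Lam6_anti x L M, smul_neg]
  cas := fun x hx L => by
    rw [_root_.smul_apply, map_smul, rho_cas, smul_zero]
  nondeg := fun x hx L hL a ha => by
    rw [_root_.smul_apply] at hL
    exact rho_nondeg (h1 hx) L ((smul_eq_zero.1 hL).resolve_left hκ) a ha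

theorem XV6 (κ : ℝ) (V : R6 → ℝ) (z : R6) :
    Pool.Agent.FL.XV (fun z => κ • Lam6 z) V z = κ • XB V z := rfl

end Pool.Agent.FL.S2.FT0
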