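import Pool.Agent.FL.FTA
import Pool.Agent.FL.GE5

/-!
# MP_f09395_gt, space (2): genericity at wall A, the family of perturbations
-/

noncomputable section

namespace Pool.Agent.FL.S2

open scoped ContDiff Matrix
open Matrix Filter Topology Module
open Pool.Agent.helper90.FL

namespace FTA

/-! ### flags over `uA z` -/

theorem flgA1 {z : R6} (hz : z ∈ base) : Flg (uA z) (b1A z) where
  uu := by simp only [dot9, uA, dotProduct_zero, add_zero]; exact hz.2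
  bb := by simp only [dot9, b1A, dotProduct_zero, add_zero]; rw [add_comm]; exact hz.2
  ub := by
    simp only [dot9, uA, b1A, dotProduct_zero, add_zero]
    rw [FT0.dot_comm3 z.2 z.1, hz.1, add_zero]
  br := by
    simp only [br, uA, b1A, FT0.cross_self3, map_zero, sub_zero, add_zero]
    rw [FT0.cross_anti3 z.1 z.2, neg_add_cancel]
    rfl
  brh := by simp only [brh, uA, b1A, dotProduct_zero, zero_dotProduct, sub_zero]

theorem flgA2 {z : R6} (hz : z ∈ base) (hU : z ∈ U6) : Flg (uA z) (b2A z) where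
  uu := by simp only [dot9, uA, dotProduct_zero, add_zero]; exact hz.2
  bb := by
    simp only [dot9, b2A, dotProduct_zero, zero_add]
    rw [smul_dotProduct, dotProduct_smul, ← FT0.n3_sq]
    have := (FT0.n3_pos hU.1).ne'
    simp only [smul_eq_mul]
    field_simp
  ub := by simp only [dot9, uA, b2A, dotProduct_zero, zero_dotProduct, add_zero]
  br := by
    simp only [br, uA, b2A, map_zero, FT0.cross_self3, map_smul, smul_zero, sub_zero, add_zero,
      LinearMap.zero_apply]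
    rfl
  brh := by
    simp only [brh, uA, b2A, dotProduct_zero, sub_zero, dotProduct_smul]
    rw [FT0.dot_comm3 z.2 z.1, hz.1, smul_zero]

/-! ### functions of degree zero -/

/-- `a_i a_j / |u|²` and `BB_ij / |u|⁴` -/
def e9 : I0 → R9 → ℝ
  | Sum.inl a => fun u => u.1 a.1 * u.1 a.2 / dot9 u u
  | Sum.inr a => fun u => BBm u a.1 a.2 / dot9 u u ^ 2

/-- together with the pairwise sums -/
def s9 : IA → R9 → ℝ := sumF e9

/-- a function of degree zero of the invariants, even in `y` -/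
structure Deg0 (s : R9 → ℝ) : Prop where
  smooth : ContDiffOn ℝ ∞ s {0}ᶜ
  hom : ∀ (r : ℝ) (u : R9), r ≠ 0 → s (r • u) = s u
  inv : ∀ (t : ℝ) (u : R9), s (rotH t u) = s u
  al : ∀ u b, Flg u b → alM s u b = 0
  evy : ∀ a x y : R3, s (a, x, -y) = s (a, x, y)

theorem flg_ne {u b : R9} (h : Flg u b) : u ≠ 0 := by
  rintro rfl
  have := h.uu
  simp [dot9] at this

theorem Deg0.add {s t : R9 → ℝ} (hs : Deg0 s) (ht : Deg0 t) : Deg0 (fun u => s u + t u) where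
  smooth := hs.smooth.add ht.smooth
  hom := fun r u hr => by rw [hs.hom r u hr, ht.hom r u hr]
  inv := fun r u => by rw [hs.inv r u, ht.inv r u]
  al := fun u b h => by
    have h1 := (dif_at isOpen_compl_singleton hs.smooth (flg_ne h)).hasFDerivAt.add
      (dif_at isOpen_compl_singleton ht.smooth (flg_ne h)).hasFDerivAt
    have h2 := hs.al u b h
    have h3 := ht.al u b h
    unfold alM at h2 h3 ⊢
    rw [show (fun u => s u + t u) = s + t from rfl, h1.fderiv, _root_.add_apply, h2, h3, add_zero]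
  evy := fun a x y => by rw [hs.evy, ht.evy]

theorem Deg0.mul {s t : R9 → ℝ} (hs : Deg0 s) (ht : Deg0 t) : Deg0 (fun u => s u * t u) where
  smooth := hs.smooth.mul ht.smooth
  hom := fun r u hr => by rw [hs.hom r u hr, ht.hom r u hr]
  inv := fun r u => by rw [hs.inv r u, ht.inv r u]
  al := fun u b h => by
    have h1 := (dif_at isOpen_compl_singleton hs.smooth (flg_ne h)).hasFDerivAt.mul
      (dif_at isOpen_compl_singleton ht.smooth (flg_ne h)).hasFDerivAt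
    have h2 := hs.al u b h
    have h3 := ht.al u b h
    unfold alM at h2 h3 ⊢
    rw [show (fun u => s u * t u) = s * t from rfl, h1.fderiv, _root_.add_apply,
      _root_.smul_apply, _root_.smul_apply, h2, h3, smul_zero, smul_zero, add_zero]
  evy := fun a x y => by rw [hs.evy, ht.evy]

theorem Deg0.one : Deg0 (fun _ => 1) where
  smooth := contDiffOn_const
  hom := fun _ _ _ => rfl
  inv := fun _ _ => rfl
  al := fun u b _ => by simp [alM]
  evy := fun _ _ _ => rfl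

theorem Deg0.pow {s : R9 → ℝ} (hs : Deg0 s) (k : ℕ) : Deg0 (fun u => s u ^ k) := by
  induction k with
  | zero => simpa using Deg0.one
  | succ k ih =>
    have h := ih.mul hs
    simpa [pow_succ] using h

theorem dot9_evy (a x y : R3) : dot9 ((a, x, -y) : R9) (a, x, -y) = dot9 ((a, x, y) : R9) (a, x, y) := by
  simp [dot9]

theorem BBm_evy (a x y : R3) (i j : Fin 3) : BBm ((a, x, -y) : R9) i j = BBm ((a, x, y) : R9) i j := by
  simp [BBm]

theorem psi4_evy (a x y : R3) : psi4 ((a, x, -y) : R9) = psi4 ((a, x, y) : R9) := by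
  simp only [psi4, map_neg, neg_dotProduct, dotProduct_neg, neg_neg, neg_sq]

theorem cM_evy (a x y : R3) : cM ((a, x, -y) : R9) = cM ((a, x, y) : R9) := by
  simp only [cM, psi4_evy, dot9_evy]

/-- cut-off in `c` -/
def lA (c : ℝ) : ℝ := Real.smoothTransition (4 * c - 1)

theorem lA_smooth : ContDiff ℝ ∞ lA :=
  Real.smoothTransition.contDiff.comp ((contDiff_const.mul contDiff_id).sub contDiff_const)

theorem deg0_cut : Deg0 (fun u => lA (cM u)) where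
  smooth := lA_smooth.comp_contDiffOn GE5_smooth_cM
  hom := fun r u hr => by rw [GE5_smul_cM hr]
  inv := fun t u => by rw [GE5_rot_cM]
  al := fun u b h => GE5_comp (J := cM) (Φ := lA)
    (dif_at isOpen_compl_singleton GE5_smooth_cM (flg_ne h)) (GE5_D_cM h)
    (lA_smooth.contDiffAt.differentiableAt (by simp))
  evy := fun a x y => by rw [cM_evy]

theorem diff_div {E : Type*} [NormedAddCommGroup E] [NormedSpace ℝ E] {f g : E → ℝ} {x : E}
    (hf : DifferentiableAt ℝ f x) (hg : DifferentiableAt ℝ g x) (h : g x ≠ 0) :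
    DifferentiableAt ℝ (fun y => f y / g y) x := by
  simp only [div_eq_mul_inv]
  exact hf.mul (hg.inv h)

theorem deg0_e9 (i : I0) : Deg0 (e9 i) := by
  have hd : ∀ u : R9, u ≠ 0 → dot9 u u ≠ 0 := fun u hu => (GE5_dot9_pos hu).ne'
  rcases i with ⟨i, j⟩ | ⟨i, j⟩
  · refine ⟨?_, ?_, ?_, ?_, ?_⟩
    · exact ((app_smooth (f := fun u : R9 => u.1) GE5_smooth_fst.contDiffOn i).mul
        (app_smooth (f := fun u : R9 => u.1) GE5_smooth_fst.contDiffOn j)).div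
        GE5_smooth_dot9.contDiffOn fun u hu => hd u hu
    · intro r u hr
      show (r • u).1 i * (r • u).1 j / dot9 (r • u) (r • u) = u.1 i * u.1 j / dot9 u u
      rw [GE5_smul_dot9]
      show r * u.1 i * (r * u.1 j) / (r ^ 2 * dot9 u u) = _
      rw [show r * u.1 i * (r * u.1 j) = r ^ 2 * (u.1 i * u.1 j) from by ring]
      exact mul_div_mul_left _ _ (pow_ne_zero 2 hr)
    · intro t u
      show (rotH t u).1 i * (rotH t u).1 j / dot9 (rotH t u) (rotH t u) = _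
      rw [GE5_rot_dot9, GE5_rot_fst]
      rfl
    · intro u b h
      exact GE5_al_tau (Φ := fun w => w.1 i * w.1 j / w.2.2) h (by
        have h0 : dot9 u u ≠ 0 := hd u (flg_ne h)
        have c1 : ∀ i : Fin 3, DifferentiableAt ℝ
            (fun w : R3 × (Fin 3 → Fin 3 → ℝ) × ℝ => w.1 i) (u.1, BBm u, dot9 u u) := fun i => by
          fun_prop
        have c2 : DifferentiableAt ℝ
            (fun w : R3 × (Fin 3 → Fin 3 → ℝ) × ℝ => w.2.2) (u.1, BBm u, dot9 u u) := by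
          fun_prop
        exact diff_div (f := fun w : R3 × (Fin 3 → Fin 3 → ℝ) × ℝ => w.1 i * w.1 j)
          (g := fun w => w.2.2) ((c1 i).mul (c1 j)) c2 h0)
    · intro a x y
      show a i * a j / dot9 ((a, x, -y) : R9) (a, x, -y) = _
      rw [dot9_evy]
      rfl
  · refine ⟨?_, ?_, ?_, ?_, ?_⟩
    · exact ((contDiffOn_pi.1 (contDiffOn_pi.1 GE5_smooth_BBm.contDiffOn i) j)).div
        (GE5_smooth_dot9.contDiffOn.pow 2) fun u hu => pow_ne_zero 2 (hd u hu)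
    · intro r u hr
      show BBm (r • u) i j / dot9 (r • u) (r • u) ^ 2 = BBm u i j / dot9 u u ^ 2
      rw [GE5_smul_dot9, GE5_smul_BBm]
      show r ^ 4 * BBm u i j / (r ^ 2 * dot9 u u) ^ 2 = _
      rw [mul_pow, ← pow_mul]
      exact mul_div_mul_left _ _ (pow_ne_zero 4 hr)
    · intro t u
      show BBm (rotH t u) i j / dot9 (rotH t u) (rotH t u) ^ 2 = _
      rw [GE5_rot_dot9, GE5_rot_BBm]
      rfl
    · intro u b h
      exact GE5_al_tau (Φ := fun w => w.2.1 i j / w.2.2 ^ 2) h (by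
        have h0 : dot9 u u ≠ 0 := hd u (flg_ne h)
        have c1 : DifferentiableAt ℝ
            (fun w : R3 × (Fin 3 → Fin 3 → ℝ) × ℝ => w.2.1 i j) (u.1, BBm u, dot9 u u) := by
          fun_prop
        have c2 : DifferentiableAt ℝ
            (fun w : R3 × (Fin 3 → Fin 3 → ℝ) × ℝ => w.2.2 ^ 2) (u.1, BBm u, dot9 u u) := by
          fun_prop
        exact diff_div (f := fun w : R3 × (Fin 3 → Fin 3 → ℝ) × ℝ => w.2.1 i j)
          (g := fun w => w.2.2 ^ 2) c1 c2 (pow_ne_zero 2 h0))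
    · intro a x y
      show BBm ((a, x, -y) : R9) i j / dot9 ((a, x, -y) : R9) (a, x, -y) ^ 2 = _
      rw [dot9_evy, BBm_evy]
      rfl

theorem deg0_s9 (i : IA) : Deg0 (s9 i) := by
  rcases i with i | ⟨i, j⟩
  · exact deg0_e9 i
  · exact (deg0_e9 i).add (deg0_e9 j)

/-! ### the perturbations -/

/-- `|u|²` is W-invariant -/
theorem WM_dot9 : WM (fun u => dot9 u u) where
  phi :=
    { smooth := GE5_smooth_dot9.contDiffOn
      hom := GE5_smul_dot9
      inv := GE5_rot_dot9 }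
  al := fun _ _ h => GE5_D_dot9 h

/-- even perturbation -/
def psiE (a : IA) (k : ℕ) (u : R9) : ℝ := (lA (cM u) * s9 a u ^ (k + 1)) * dot9 u u

theorem psiE_WM (a : IA) (k : ℕ) : WM (psiE a k) := by
  have h := deg0_cut.mul ((deg0_s9 a).pow (k + 1))
  exact GE5_WM_mul h.smooth h.hom h.inv h.al WM_dot9

/-- the function `G` of an odd perturbation -/
def gO (a : IA) (l : Fin 3) (k : ℕ) (u : R9) : ℝ :=
  (lA (cM u) * s9 a u ^ k) * (u.1 l / dot9 u u)

/-- odd perturbation -/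
def psiO (a : IA) (l : Fin 3) (k : ℕ) (u : R9) : ℝ :=
  (u.1 ⬝ᵥ (u.2.1 ⨯₃ u.2.2)) * gO a l k u

theorem gO_smooth (a : IA) (l : Fin 3) (k : ℕ) : ContDiffOn ℝ ∞ (gO a l k) {0}ᶜ :=
  (deg0_cut.mul ((deg0_s9 a).pow k)).smooth.mul
    ((app_smooth (f := fun u : R9 => u.1) GE5_smooth_fst.contDiffOn l).div
      GE5_smooth_dot9.contDiffOn fun _ hu => (GE5_dot9_pos hu).ne')

theorem psiO_WM (a : IA) (l : Fin 3) (k : ℕ) : WM (psiO a l k) := by
  have h := deg0_cut.mul ((deg0_s9 a).pow k)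
  refine GE5_WM_det (gO_smooth a l k) (fun r u hr => ?_) (fun t u => ?_)
  · show (lA (cM (r • u)) * s9 a (r • u) ^ k) * ((r • u).1 l / dot9 (r • u) (r • u)) =
      r⁻¹ * ((lA (cM u) * s9 a u ^ k) * (u.1 l / dot9 u u))
    have e1 : lA (cM (r • u)) * s9 a (r • u) ^ k = lA (cM u) * s9 a u ^ k := h.hom r u hr
    rw [e1, GE5_smul_dot9]
    show lA (cM u) * s9 a u ^ k * (r * u.1 l / (r ^ 2 * dot9 u u)) = _
    have e2 : r * u.1 l / (r ^ 2 * dot9 u u) = r⁻¹ * (u.1 l / dot9 u u) := by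
      rw [show r ^ 2 * dot9 u u = r * (r * dot9 u u) from by ring, mul_div_mul_left _ _ hr,
        ← div_div, div_div, mul_comm r, ← div_div, div_eq_inv_mul _ r]
    rw [e2]
    ring
  · show (lA (cM (rotH t u)) * s9 a (rotH t u) ^ k) * ((rotH t u).1 l /
      dot9 (rotH t u) (rotH t u)) = (lA (cM u) * s9 a u ^ k) * (u.1 l / dot9 u u)
    have e1 : lA (cM (rotH t u)) * s9 a (rotH t u) ^ k = lA (cM u) * s9 a u ^ k := h.inv t u
    rw [e1, GE5_rot_dot9, GE5_rot_fst]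

/-- the cut-off vanishes where `c ≤ 0` -/
theorem lA_near {u : R9} (hu : u ≠ 0) (hc : cM u ≤ 0) : ∀ᶠ y in 𝓝 u, lA (cM y) = 0 := by
  have h1 : ContinuousAt cM u :=
    GE5_smooth_cM.continuousOn.continuousAt (isOpen_compl_singleton.mem_nhds hu)
  have h2 : ∀ᶠ y in 𝓝 u, cM y < 1 / 4 := h1.eventually (gt_mem_nhds (by linarith))
  filter_upwards [h2] with y hy
  exact Real.smoothTransition.zero_of_nonpos (by linarith)

theorem psiE_near {a : IA} {k : ℕ} {u : R9} (hu : u ≠ 0) (hc : cM u ≤ 0) :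
    psiE a k =ᶠ[𝓝 u] 0 := by
  filter_upwards [lA_near hu hc] with y hy
  simp [psiE, hy]

theorem psiO_near {a : IA} {l : Fin 3} {k : ℕ} {u : R9} (hu : u ≠ 0) (hc : cM u ≤ 0) :
    psiO a l k =ᶠ[𝓝 u] 0 := by
  filter_upwards [lA_near hu hc] with y hy
  simp [psiO, gO, hy]

/-! ### values on the section -/

theorem dot9_uA {z : R6} (hz : z ∈ base) : dot9 (uA z) (uA z) = 1 := (flgA1 hz).uu

theorem cM_uA {z : R6} (hz : z ∈ base) : cM (uA z) = 1 := by
  have h1 : psi4 (uA z) = 0 := by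
    simp only [psi4, uA, map_zero, dotProduct_zero, hz.1]
    norm_num
  rw [cM, h1]
  simp

theorem lA_uA {z : R6} (hz : z ∈ base) : lA (cM (uA z)) = 1 := by
  rw [cM_uA hz]
  exact Real.smoothTransition.one_of_one_le (by norm_num)

theorem e9_uA {z : R6} (hz : z ∈ base) (i : I0) : e9 i (uA z) = eA i z := by
  rcases i with ⟨i, j⟩ | ⟨i, j⟩
  · show (uA z).1 i * (uA z).1 j / dot9 (uA z) (uA z) = _
    rw [dot9_uA hz, div_one]
    rfl
  · show BBm (uA z) i j / dot9 (uA z) (uA z) ^ 2 = _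
    rw [dot9_uA hz, one_pow, div_one]
    simp [BBm, uA, eA]

theorem s9_uA {z : R6} (hz : z ∈ base) (i : IA) : s9 i (uA z) = sumF eA i z := by
  rcases i with i | ⟨i, j⟩
  · exact e9_uA hz i
  · show e9 i (uA z) + e9 j (uA z) = eA i z + eA j z
    rw [e9_uA hz, e9_uA hz]

theorem psiE_uA {z : R6} (hz : z ∈ base) (a : IA) (k : ℕ) :
    psiE a k (uA z) = sumF eA a z ^ (k + 1) := by
  rw [psiE, lA_uA hz, s9_uA hz, dot9_uA hz]
  ring

theorem psiO_uA (z : R6) (a : IA) (l : Fin 3) (k : ℕ) : psiO a l k (uA z) = 0 := by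
  simp [psiO, uA]

theorem gO_uA {z : R6} (hz : z ∈ base) (a : IA) (l : Fin 3) (k : ℕ) :
    gO a l k (uA z) = pA l z * sumF eA a z ^ k := by
  rw [gO, lA_uA hz, s9_uA hz, dot9_uA hz]
  show 1 * sumF eA a z ^ k * (z.1 l / 1) = z.1 l * sumF eA a z ^ k
  ring

/-! ### the rotation rate -/

/-- functions which are even in `y` do not change the rotation rate -/
theorem omA_even {f : R9 → ℝ} {z : R6} (hf : DifferentiableAt ℝ f (uA z))
    (he : ∀ a x y : R3, f (a, x, -y) = f (a, x, y)) : omA f z = 0 := by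
  have h1 : fderiv ℝ f (uA z) (0, 0, z.1 ⨯₃ z.2) = 0 := by
    have hd : HasFDerivAt f (fderiv ℝ f (uA z)) (uA z + (0 : ℝ) • (0, 0, z.1 ⨯₃ z.2)) := by
      simpa using hf.hasFDerivAt
    have hc : HasDerivAt (fun t : ℝ => uA z + t • ((0, 0, z.1 ⨯₃ z.2) : R9))
        (0, 0, z.1 ⨯₃ z.2) 0 := by
      simpa using ((hasDerivAt_id (0 : ℝ)).smul_const ((0, 0, z.1 ⨯₃ z.2) : R9)).const_add (uA z)
    have h2 : HasDerivAt (fun t : ℝ => f (uA z + t • ((0, 0, z.1 ⨯₃ z.2) : R9)))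
        (fderiv ℝ f (uA z) (0, 0, z.1 ⨯₃ z.2)) 0 := hd.comp_hasDerivAt (0 : ℝ) hc
    have h3 : (fun t : ℝ => f (uA z + t • ((0, 0, z.1 ⨯₃ z.2) : R9))) =
        fun t : ℝ => f (uA z + (-t) • ((0, 0, z.1 ⨯₃ z.2) : R9)) := by
      funext t
      have e1 : uA z + (-t) • ((0, 0, z.1 ⨯₃ z.2) : R9) = (z.1, z.2, -(t • (z.1 ⨯₃ z.2))) := by
        simp [uA]
      have e2 : uA z + t • ((0, 0, z.1 ⨯₃ z.2) : R9) = (z.1, z.2, t • (z.1 ⨯₃ z.2)) := by
        simp [uA]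
      rw [e1, e2, he]
    have h4 : HasDerivAt (fun t : ℝ => f (uA z + (-t) • ((0, 0, z.1 ⨯₃ z.2) : R9)))
        (-(fderiv ℝ f (uA z) (0, 0, z.1 ⨯₃ z.2))) 0 := by
      have h5 : HasDerivAt (fun t : ℝ => f (uA z + t • ((0, 0, z.1 ⨯₃ z.2) : R9)))
        (fderiv ℝ f (uA z) (0, 0, z.1 ⨯₃ z.2)) (-(0 : ℝ)) := by rw [neg_zero]; exact h2
      have h6 := h5.scomp (0 : ℝ) (hasDerivAt_neg (0 : ℝ))
      rw [neg_one_smul] at h6
      exact h6
    rw [h3] at h2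
    have h7 := h2.unique h4
    linarith
  rw [omA, h1, zero_div]

theorem omA_det {G : R9 → ℝ} {z : R6} (hG : DifferentiableAt ℝ G (uA z)) (hz : z ∈ base)
    (hU : z ∈ U6) : omA (fun u => (u.1 ⬝ᵥ (u.2.1 ⨯₃ u.2.2)) * G u) z = n3 z.1 * G (uA z) := by
  have h1 : fderiv ℝ (fun u : R9 => (u.1 ⬝ᵥ (u.2.1 ⨯₃ u.2.2)) * G u) (uA z)
      (0, 0, z.1 ⨯₃ z.2) = G (uA z) * ((z.1 ⬝ᵥ z.1) * (z.2 ⬝ᵥ z.2)) := by
    have hD := GE5_smooth_det.contDiffAt (x := uA z) |>.differentiableAt (by simp)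
    have h2 := hD.hasFDerivAt.mul hG.hasFDerivAt
    have h3 : (uA z).1 ⬝ᵥ ((uA z).2.1 ⨯₃ (uA z).2.2) = 0 := by simp [uA]
    rw [show (fun u : R9 => (u.1 ⬝ᵥ (u.2.1 ⨯₃ u.2.2)) * G u) =
      (fun u : R9 => u.1 ⬝ᵥ (u.2.1 ⨯₃ u.2.2)) * G from rfl, h2.fderiv, _root_.add_apply,
      _root_.smul_apply, _root_.smul_apply, h3, zero_smul, zero_add, smul_eq_mul]
    congr 1
    have hd : HasFDerivAt (fun u : R9 => u.1 ⬝ᵥ (u.2.1 ⨯₃ u.2.2))
        (fderiv ℝ (fun u : R9 => u.1 ⬝ᵥ (u.2.1 ⨯₃ u.2.2)) (uA z))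
        (uA z + (0 : ℝ) • (0, 0, z.1 ⨯₃ z.2)) := by
      simpa using hD.hasFDerivAt
    have hc : HasDerivAt (fun t : ℝ => uA z + t • ((0, 0, z.1 ⨯₃ z.2) : R9))
        (0, 0, z.1 ⨯₃ z.2) 0 := by
      simpa using ((hasDerivAt_id (0 : ℝ)).smul_const ((0, 0, z.1 ⨯₃ z.2) : R9)).const_add (uA z)
    have h4 := hd.comp_hasDerivAt (0 : ℝ) hc
    have h5 : HasDerivAt (fun t : ℝ => t * ((z.1 ⬝ᵥ z.1) * (z.2 ⬝ᵥ z.2)))
        ((z.1 ⬝ᵥ z.1) * (z.2 ⬝ᵥ z.2)) 0 := by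
      simpa using (hasDerivAt_id (0 : ℝ)).mul_const ((z.1 ⬝ᵥ z.1) * (z.2 ⬝ᵥ z.2))
    refine h4.unique (h5.congr_of_eventuallyEq (Filter.Eventually.of_forall fun t => ?_))
    show (uA z + t • ((0, 0, z.1 ⨯₃ z.2) : R9)).1 ⬝ᵥ
      ((uA z + t • ((0, 0, z.1 ⨯₃ z.2) : R9)).2.1 ⨯₃ (uA z + t • ((0, 0, z.1 ⨯₃ z.2) : R9)).2.2) =
      t * ((z.1 ⬝ᵥ z.1) * (z.2 ⬝ᵥ z.2))
    have e2 : uA z + t • ((0, 0, z.1 ⨯₃ z.2) : R9) = (z.1, z.2, t • (z.1 ⨯₃ z.2)) := by
      simp [uA]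
    rw [e2]
    simp only [map_smul, dotProduct_smul, smul_eq_mul]
    rw [FT0.cross_cross3, FT0.dot_comm3 z.2 z.1, hz.1, zero_smul, sub_zero, dotProduct_smul,
      smul_eq_mul]
    ring
  rw [omA, h1]
  have h6 := (FT0.n3_pos hU.1).ne'
  have h7 := FT0.dot_self_ne hU.2
  rw [← FT0.n3_sq z.1]
  field_simp

/-! ### the theorem -/

variable {J : ℕ}

/-- indices of the perturbations -/
abbrev PA (J : ℕ) : Type := (IA × Fin J) ⊕ ((IA × Fin 3) × Fin J)

theorem sum_PA (f : PA J → ℝ) : ∑ i, f i = ∑ a : IA, ∑ k : Fin J, f (Sum.inl (a, k)) +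
    ∑ a : IA × Fin 3, ∑ k : Fin J, f (Sum.inr (a, k)) := by
  have h1 := Fintype.sum_sum_type f
  have h2 := Fintype.sum_prod_type fun i : IA × Fin J => f (Sum.inl i)
  have h3 := Fintype.sum_prod_type fun i : (IA × Fin 3) × Fin J => f (Sum.inr i)
  rw [h1, h2, h3]

/-- the perturbations -/
def psiA : PA J → R9 → ℝ :=
  Sum.elim (fun i => psiE i.1 i.2) fun i => psiO i.1.1 i.1.2 i.2

theorem psiA_WM (i : PA J) : WM (psiA i) := by
  rcases i with i | i
  · exact psiE_WM _ _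
  · exact psiO_WM _ _ _

/-- parameters -/
def parA (τ : IA → Fin J → ℝ) (γ : IA × Fin 3 → Fin J → ℝ) : PA J → ℝ :=
  Sum.elim (fun i => τ i.1 i.2) fun i => γ i.1 i.2

theorem parA_norm {τ : IA → Fin J → ℝ} {γ : IA × Fin 3 → Fin J → ℝ} {ε : ℝ} (h1 : ‖τ‖ < ε)
    (h2 : ‖γ‖ < ε) : ‖parA τ γ‖ < ε := by
  have hε : 0 < ε := (norm_nonneg _).trans_lt h1
  refine (pi_norm_lt_iff hε).2 fun i => ?_
  rcases i with i | i
  · exact ((norm_le_pi_norm (τ i.1) i.2).trans (norm_le_pi_norm τ i.1)).trans_lt h1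
  · exact ((norm_le_pi_norm (γ i.1) i.2).trans (norm_le_pi_norm γ i.1)).trans_lt h2

/-- the perturbed function -/
def wA (v : R9 → ℝ) (t : PA J → ℝ) (u : R9) : ℝ := v u + ∑ i, t i * psiA i u

theorem wA_smooth {v : R9 → ℝ} (hv : ContDiffOn ℝ ∞ v {0}ᶜ) (t : PA J → ℝ) :
    ContDiffOn ℝ ∞ (wA v t) {0}ᶜ :=
  hv.add (ContDiffOn.sum fun i _ => contDiffOn_const.mul (psiA_WM i).phi.smooth)

theorem wA_fderiv {v : R9 → ℝ} (hv : ContDiffOn ℝ ∞ v {0}ᶜ) (t : PA J → ℝ) {u : R9} (hu : u ≠ 0)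
    (w : R9) : fderiv ℝ (wA v t) u w = fderiv ℝ v u w + ∑ i, t i * fderiv ℝ (psiA i) u w := by
  have h1 := (dif_at isOpen_compl_singleton hv (show u ∈ ({0}ᶜ : Set R9) from hu)).hasFDerivAt
  have h2 : ∀ i, HasFDerivAt (fun u => t i * psiA i u) (t i • fderiv ℝ (psiA i) u) u := fun i =>
    (dif_at isOpen_compl_singleton (psiA_WM i).phi.smooth
      (show u ∈ ({0}ᶜ : Set R9) from hu)).hasFDerivAt.const_mul (t i)
  have h3 := h1.add (HasFDerivAt.fun_sum (u := Finset.univ) fun i _ => h2 i)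
  rw [show wA v t = v + fun u => ∑ i, t i * psiA i u from rfl, h3.fderiv, _root_.add_apply,
    _root_.sum_apply]
  rfl

theorem wA_al {v : R9 → ℝ} (hv : ContDiffOn ℝ ∞ v {0}ᶜ) (t : PA J → ℝ) {u b : R9} (h : Flg u b) :
    alM (wA v t) u b = alM v u b := by
  rw [alM, wA_fderiv hv t (flg_ne h)]
  have h1 : ∀ i : PA J, fderiv ℝ (psiA i) u (rot b) = 0 := fun i => (psiA_WM i).al u b h
  simp [h1, alM]

theorem sum_uA (τ : IA → Fin J → ℝ) (γ : IA × Fin 3 → Fin J → ℝ) {z : R6} (hz : z ∈ base) :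
    ∑ i, parA τ γ i * psiA i (uA z) = ∑ a, ∑ k : Fin J, τ a k * sumF eA a z ^ (k.1 + 1) := by
  have h2 : ∑ a : IA × Fin 3, ∑ k : Fin J, parA τ γ (Sum.inr (a, k)) *
      psiA (Sum.inr (a, k)) (uA z) = 0 :=
    Finset.sum_eq_zero fun a _ => Finset.sum_eq_zero fun k _ => by
      have h3 : psiA (Sum.inr (a, k)) (uA z) = 0 := psiO_uA z a.1 a.2 k
      rw [h3, mul_zero]
  have h4 : ∑ a : IA, ∑ k : Fin J, parA τ γ (Sum.inl (a, k)) * psiA (Sum.inl (a, k)) (uA z) =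
      ∑ a, ∑ k : Fin J, τ a k * sumF eA a z ^ (k.1 + 1) :=
    Finset.sum_congr rfl fun a _ => Finset.sum_congr rfl fun k _ => by
      have h5 : psiA (Sum.inl (a, k)) (uA z) = sumF eA a z ^ (k.1 + 1) := psiE_uA hz a k
      rw [h5]
      rfl
  rw [sum_PA, h2, h4, add_zero]

theorem wA_uA {v : R9 → ℝ} (τ : IA → Fin J → ℝ) (γ : IA × Fin 3 → Fin J → ℝ) {z : R6}
    (hz : z ∈ base) : wA v (parA τ γ) (uA z) = pert (fun z => v (uA z)) (sumF eA) τ z := by
  rw [wA, pert, sum_uA τ γ hz]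

theorem om_lin {v : R9 → ℝ} (hv : ContDiffOn ℝ ∞ v {0}ᶜ) (t : PA J → ℝ) {z : R6}
    (hU : z ∈ U6) : omA (wA v t) z = omA v z + ∑ i, t i * omA (psiA i) z := by
  have h0 := uA_ne hU
  have hne := mul_ne_zero (FT0.n3_pos hU.1).ne' (FT0.dot_self_ne hU.2)
  have hom : ∀ f : R9 → ℝ, fderiv ℝ f (uA z) (0, 0, z.1 ⨯₃ z.2) =
      omA f z * (n3 z.1 * (z.2 ⬝ᵥ z.2)) := by
    intro f
    rw [omA, div_mul_cancel₀ _ hne]
  have h1 : ∑ i, t i * fderiv ℝ (psiA i) (uA z) (0, 0, z.1 ⨯₃ z.2) =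
      (∑ i, t i * omA (psiA i) z) * (n3 z.1 * (z.2 ⬝ᵥ z.2)) := by
    rw [Finset.sum_mul]
    exact Finset.sum_congr rfl fun i _ => by rw [hom, mul_assoc]
  apply mul_right_cancel₀ hne
  rw [← hom, wA_fderiv hv _ h0, add_mul, ← hom, h1]

theorem sum_om (τ : IA → Fin J → ℝ) (γ : IA × Fin 3 → Fin J → ℝ) {z : R6} (hz : z ∈ base)
    (hU : z ∈ U6) : ∑ i, parA τ γ i * omA (psiA i) z = n3 z.1 * gF (sumF eA) pA γ z := by
  have h0 := uA_ne hU
  have h2 : ∑ a : IA, ∑ k : Fin J, parA τ γ (Sum.inl (a, k)) * omA (psiA (Sum.inl (a, k))) z = 0 :=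
    Finset.sum_eq_zero fun a _ => Finset.sum_eq_zero fun k _ => by
      have h3 : omA (psiA (Sum.inl (a, k))) z = 0 := by
        refine omA_even (dif_at isOpen_compl_singleton (psiE_WM a k).phi.smooth h0) ?_
        intro x y w
        show (lA (cM ((x, y, -w) : R9)) * s9 a (x, y, -w) ^ (k.1 + 1)) *
          dot9 ((x, y, -w) : R9) (x, y, -w) =
          (lA (cM ((x, y, w) : R9)) * s9 a (x, y, w) ^ (k.1 + 1)) *
          dot9 ((x, y, w) : R9) (x, y, w)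
        rw [cM_evy, dot9_evy, (deg0_s9 a).evy]
      rw [h3, mul_zero]
  have h4 : ∑ a : IA × Fin 3, ∑ k : Fin J, parA τ γ (Sum.inr (a, k)) *
      omA (psiA (Sum.inr (a, k))) z =
      ∑ a : IA × Fin 3, ∑ k : Fin J, n3 z.1 * (γ a k * (pA a.2 z * sumF eA a.1 z ^ k.1)) :=
    Finset.sum_congr rfl fun a _ => Finset.sum_congr rfl fun k _ => by
      have h5 : omA (psiA (Sum.inr (a, k))) z = n3 z.1 * gO a.1 a.2 k (uA z) :=
        omA_det (dif_at isOpen_compl_singleton (gO_smooth a.1 a.2 k) h0) hz hU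
      have h6 : parA τ γ (Sum.inr (a, k)) = γ a k := rfl
      rw [h5, h6, gO_uA hz]
      ring
  have h7 : n3 z.1 * gF (sumF eA) pA γ z =
      ∑ a : IA × Fin 3, ∑ k : Fin J, n3 z.1 * (γ a k * (pA a.2 z * sumF eA a.1 z ^ k.1)) := by
    rw [gF, Finset.mul_sum]
    exact Finset.sum_congr rfl fun a _ => by rw [Finset.mul_sum]
  rw [sum_PA, h2, h4, zero_add, h7]

theorem wA_om {v : R9 → ℝ} (hv : ContDiffOn ℝ ∞ v {0}ᶜ) (τ : IA → Fin J → ℝ)
    (γ : IA × Fin 3 → Fin J → ℝ) {z : R6} (hz : z ∈ base) (hU : z ∈ U6) :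
    omA (wA v (parA τ γ)) z = omA v z + n3 z.1 * gF (sumF eA) pA γ z := by
  rw [om_lin hv _ hU, sum_om τ γ hz hU]

theorem ftA_step {v : R9 → ℝ} (hv : PhiM v) {N : Set R6} (hNb : N ⊆ base) (hNU : N ⊆ U6)
    (τ : IA → Fin J → ℝ) (γ : IA × Fin 3 → Fin J → ℝ)
    (hF : FT123 1 N J (pert (fun z => v (uA z)) (sumF eA) τ) (fun z => alM v (uA z) (b1A z))
      (fun z => alM v (uA z) (b2A z)) (fun z => omA v z + n3 z.1 * gF (sumF eA) pA γ z)) :
    FT123 1 N J (fun z => wA v (parA τ γ) (uA z)) (fun z => alM (wA v (parA τ γ)) (uA z) (b1A z))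
      (fun z => alM (wA v (parA τ γ)) (uA z) (b2A z)) (omA (wA v (parA τ γ))) := by
  obtain ⟨w, hw⟩ : ∃ w, w = wA v (parA τ γ) := ⟨_, rfl⟩
  have hws : ContDiffOn ℝ ∞ w {0}ᶜ := by rw [hw]; exact wA_smooth hv.smooth (parA τ γ)
  have hg : ContDiffOn ℝ ∞ (gF (sumF eA) pA γ) U6 :=
    FT0.gF_smooth1 (sumF_smooth eA_smooth) pA_smooth γ
  have hp : ContDiffOn ℝ ∞ (pert (fun z => v (uA z)) (sumF eA) τ) U6 :=
    FT0.pert_smooth1 (comp_uA_smooth hv.smooth) (sumF_smooth eA_smooth) τ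
  have e0 : ∀ z ∈ U6, z ∈ base → pert (fun z => v (uA z)) (sumF eA) τ z = w (uA z) := by
    intro z _ hz; rw [hw, wA_uA τ γ hz]
  have e1 : ∀ z ∈ U6, z ∈ base → alM v (uA z) (b1A z) = alM w (uA z) (b1A z) := by
    intro z _ hz; rw [hw, wA_al hv.smooth _ (flgA1 hz)]
  have e2 : ∀ z ∈ U6, z ∈ base → alM v (uA z) (b2A z) = alM w (uA z) (b2A z) := by
    intro z hU hz; rw [hw, wA_al hv.smooth _ (flgA2 hz hU)]
  have e3 : ∀ z ∈ U6, z ∈ base → omA v z + n3 z.1 * gF (sumF eA) pA γ z = omA w z := by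
    intro z hU hz; rw [hw, wA_om hv.smooth τ γ hz hU]
  rw [← hw]
  clear hw
  exact FT0.ft123_congr (O := U6) FT0.U6_open hNU hNb hp
    (al1A_smooth hv.smooth) (al2A_smooth hv.smooth)
    ((omA_smooth hv.smooth).add (n3_smooth.mul hg))
    (comp_uA_smooth hws) (al1A_smooth hws) (al2A_smooth hws) (omA_smooth hws) e0 e1 e2 e3 hF

/-- **genericity at wall A** -/
theorem ftA_core {v : R9 → ℝ} (hv : PhiM v) {ν : R3} (hν : ν ≠ 0)
    (h1 : ∀ z ∈ base, z ∈ U6 → alM v (uA z) (b1A z) = -(ν ⬝ᵥ (z.1 ⨯₃ z.2))) {N : Set R6}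
    (hN : IsCompact N) (hNb : N ⊆ base) (hNU : N ⊆ U6) (hJ : 6 < J) :
    ∃ (n : ℕ) (ψ : Fin n → R9 → ℝ), (∀ i, WM (ψ i)) ∧
      (∀ i u, u ≠ 0 → cM u * 1 ≤ 0 → ψ i =ᶠ[𝓝 u] 0) ∧
      ∀ ε > 0, ∃ τ : Fin n → ℝ, ‖τ‖ < ε ∧
        (fun w : R9 → ℝ => FT123 1 N J (fun z => w (uA z)) (fun z => alM w (uA z) (b1A z))
          (fun z => alM w (uA z) (b2A z)) (omA w)) (fun u => v u + ∑ i, τ i * ψ i u) := by
  refine FT0.to_fin (P := PA J) (ψ := psiA) (cw := 1) (v := v)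
    (Q := fun w : R9 → ℝ => FT123 1 N J (fun z => w (uA z)) (fun z => alM w (uA z) (b1A z))
      (fun z => alM w (uA z) (b2A z)) (omA w)) psiA_WM (fun i u hu hc => ?_) fun ε hε => ?_
  · rw [mul_one] at hc
    rcases i with i | i
    · exact psiE_near hu hc
    · exact psiO_near hu hc
  obtain ⟨τ, γ, hτ, hγ, hF⟩ := FT0.ft123_main (ι := I0) (σ := Fin 3) (J := J) (κ := 1) hN hNb hNU
    one_ne_zero (V₀ := fun z => v (uA z)) (α₁ := fun z => alM v (uA z) (b1A z))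
    (α₂ := fun z => alM v (uA z) (b2A z)) (kk := fun z => n3 z.1) (om := fun _ => omA v)
    (e := eA) (pl := pA) (comp_uA_smooth hv.smooth) eA_smooth pA_smooth
    (al1A_smooth hv.smooth) (al2A_smooth hv.smooth)
    ((omA_smooth hv.smooth).comp contDiff_fst.contDiffOn fun _ hz => hz.1) n3_smooth hJ
    ⟨Sum.inl (0, 0)⟩ (fun z hz w hw hw0 => eA_sep (hNb hz) (hNU hz) hw hw0)
    (fun z hz k1 _ => by
      have hzb := hNb hz
      have hzU := hNU hz
      rw [h1 z hzb hzU, neg_eq_zero] at k1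
      obtain ⟨w, hw1, hw2⟩ := factD_A hν hzb hzU k1
      refine ⟨w, hw1, ?_⟩
      have hs : ContDiffOn ℝ ∞ (fun y : R6 => -(ν ⬝ᵥ (y.1 ⨯₃ y.2))) U6 :=
        (FT0.dot_smooth contDiffOn_const (FT0.cross_smooth FT0.fst_smooth FT0.snd_smooth)).neg
      rw [FT0.fderiv_congr_base hzb (dif_at FT0.U6_open (al1A_smooth hv.smooth) hzU)
        (dif_at FT0.U6_open hs hzU) (by
          filter_upwards [FT0.U6_open.mem_nhds hzU] with y hy hyb
          exact h1 y hyb hy) hw1]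
      exact hw2)
    (fun z hz => (FT0.n3_pos (hNU hz).1).ne')
    (fun z hz => by
      by_contra hcon
      push Not at hcon
      exact (hNU hz).1 (funext fun l => hcon l))
    hε
  exact ⟨parA τ γ, parA_norm hτ hγ, ftA_step hv hNb hNU τ γ hF⟩

end FTA

end Pool.Agent.FL.S2
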