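import Pool.Agent.FL.FT0
import Pool.Agent.FL.FT

/-!
# MP_f09395_gt, space (2): genericity on the base, common part for both walls
-/

noncomputable section

namespace Pool.Agent.FL.S2

open scoped ContDiff Matrix
open Matrix Filter Topology Module
open Pool.Agent.helper90.FL
open FT0

/-- the three finite type conditions on the part `N` of the base -/
structure FT123 (κ : ℝ) (N : Set R6) (J : ℕ) (V α₁ α₂ om : R6 → ℝ) : Prop where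
  ft1 : ∀ z ∈ N, XB V z = 0 → DelB κ V α₁ α₂ om z ≠ 0
  ft2 : ∀ z ∈ N, α₁ z = 0 → α₂ z = 0 → ∃ j, 1 ≤ j ∧ j ≤ J ∧ itd (XB V) α₁ j z ≠ 0
  ft3 : ∀ z ∈ N, (α₁ z ≠ 0 ∨ α₂ z ≠ 0) → XB V z ≠ 0 →
    ∃ j, j < J ∧ itd (XB V) (DelB κ V α₁ α₂ om) j z ≠ 0

namespace FT0

theorem DelF_eq (κ : ℝ) (V α₁ α₂ om : R6 → ℝ) :
    DelF (Pool.Agent.FL.XV (fun z => κ • Lam6 z) V) α₁ α₂ om = DelB κ V α₁ α₂ om := by
  funext z
  rw [DelF, DelB, XV6, map_smul, map_smul, XD, XD, smul_eq_mul, smul_eq_mul]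
  ring

theorem DelB_smooth {O : Set R6} (hO : IsOpen O) {κ : ℝ} {V α₁ α₂ om : R6 → ℝ}
    (hV : ContDiffOn ℝ ∞ V O) (hα₁ : ContDiffOn ℝ ∞ α₁ O) (hα₂ : ContDiffOn ℝ ∞ α₂ O)
    (hom : ContDiffOn ℝ ∞ om O) : ContDiffOn ℝ ∞ (DelB κ V α₁ α₂ om) O :=
  (contDiffOn_const.mul ((hα₁.mul (fder_app_smooth hO hα₂ (XB_smooth hO hV))).sub
    (hα₂.mul (fder_app_smooth hO hα₁ (XB_smooth hO hV))))).sub
    (hom.mul ((hα₁.pow 2).add (hα₂.pow 2)))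

theorem itd_const_smul {O : Set R6} (hO : IsOpen O) {X : R6 → R6} (hX : ContDiffOn ℝ ∞ X O)
    {f : R6 → ℝ} (hf : ContDiffOn ℝ ∞ f O) (κ : ℝ) (j : ℕ) :
    ∀ z ∈ O, itd (fun z => κ • X z) f j z = κ ^ j * itd X f j z := by
  induction j with
  | zero => intro z _; simp [itd]
  | succ j ih =>
    intro z hz
    have h1 : itd (fun z => κ • X z) f j =ᶠ[𝓝 z] fun y => κ ^ j * itd X f j y := by
      filter_upwards [hO.mem_nhds hz] with y hy using ih y hy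
    show fderiv ℝ (itd (fun z => κ • X z) f j) z (κ • X z) = κ ^ (j + 1) *
      fderiv ℝ (itd X f j) z (X z)
    rw [h1.fderiv_eq, fderiv_const_mul (dif_at hO (itd_smooth hO hX hf j) hz), map_smul,
      _root_.smul_apply, smul_eq_mul, smul_eq_mul]
    ring

theorem itd_const_smul_ne {O : Set R6} (hO : IsOpen O) {X : R6 → R6} (hX : ContDiffOn ℝ ∞ X O)
    {f : R6 → ℝ} (hf : ContDiffOn ℝ ∞ f O) {κ : ℝ} {j : ℕ} {z : R6} (hz : z ∈ O)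
    (h : itd (fun z => κ • X z) f j z ≠ 0) : itd X f j z ≠ 0 := by
  intro h0
  exact h (by rw [itd_const_smul hO hX hf κ j z hz, h0, mul_zero])

/-- the conditions depend on the restrictions to the base near `N` only -/
theorem ft123_congr {κ : ℝ} {N O : Set R6} {J : ℕ} (hO : IsOpen O) (hNO : N ⊆ O)
    (hNb : N ⊆ base) {V α₁ α₂ om V' α₁' α₂' om' : R6 → ℝ}
    (hV : ContDiffOn ℝ ∞ V O) (hα₁ : ContDiffOn ℝ ∞ α₁ O) (hα₂ : ContDiffOn ℝ ∞ α₂ O)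
    (hom : ContDiffOn ℝ ∞ om O) (hV' : ContDiffOn ℝ ∞ V' O) (hα₁' : ContDiffOn ℝ ∞ α₁' O)
    (hα₂' : ContDiffOn ℝ ∞ α₂' O) (hom' : ContDiffOn ℝ ∞ om' O)
    (e0 : ∀ z ∈ O, z ∈ base → V z = V' z) (e1 : ∀ z ∈ O, z ∈ base → α₁ z = α₁' z)
    (e2 : ∀ z ∈ O, z ∈ base → α₂ z = α₂' z) (e3 : ∀ z ∈ O, z ∈ base → om z = om' z)
    (h : FT123 κ N J V α₁ α₂ om) : FT123 κ N J V' α₁' α₂' om' := by
  have hX : ∀ z ∈ O, z ∈ base → XB V z = XB V' z := fun z hz hb =>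
    XB_congr_base hb (dif_at hO hV hz) (dif_at hO hV' hz)
      (by filter_upwards [hO.mem_nhds hz] with x hx using e0 x hx)
  have hXD : ∀ {f f' : R6 → ℝ}, ContDiffOn ℝ ∞ f O → ContDiffOn ℝ ∞ f' O →
      (∀ z ∈ O, z ∈ base → f z = f' z) → ∀ z ∈ O, z ∈ base → XD V f z = XD V' f' z := by
    intro f f' hf hf' he z hz hb
    exact XD_congr_base hb (dif_at hO hV hz) (dif_at hO hV' hz) (dif_at hO hf hz)
      (dif_at hO hf' hz) (by filter_upwards [hO.mem_nhds hz] with x hx using e0 x hx)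
      (by filter_upwards [hO.mem_nhds hz] with x hx using he x hx)
  have hD : ∀ z ∈ O, z ∈ base → DelB κ V α₁ α₂ om z = DelB κ V' α₁' α₂' om' z := by
    intro z hz hb
    rw [DelB, DelB, e1 z hz hb, e2 z hz hb, e3 z hz hb, hXD hα₂ hα₂' e2 z hz hb,
      hXD hα₁ hα₁' e1 z hz hb]
  have sD := DelB_smooth (κ := κ) hO hV hα₁ hα₂ hom
  have sD' := DelB_smooth (κ := κ) hO hV' hα₁' hα₂' hom'
  refine ⟨fun z hz h0 => ?_, fun z hz h1 h2 => ?_, fun z hz h1 h2 => ?_⟩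
  · rw [← hD z (hNO hz) (hNb hz)]
    exact h.ft1 z hz (by rw [hX z (hNO hz) (hNb hz)]; exact h0)
  · obtain ⟨j, j1, j2, j3⟩ := h.ft2 z hz (by rw [e1 z (hNO hz) (hNb hz)]; exact h1)
      (by rw [e2 z (hNO hz) (hNb hz)]; exact h2)
    refine ⟨j, j1, j2, ?_⟩
    rw [← itd_congr_base hO hV hV' hα₁ hα₁' e0 e1 j z (hNO hz) (hNb hz)]
    exact j3
  · obtain ⟨j, j1, j2⟩ := h.ft3 z hz (by
        rw [e1 z (hNO hz) (hNb hz), e2 z (hNO hz) (hNb hz)]; exact h1)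
      (by rw [hX z (hNO hz) (hNb hz)]; exact h2)
    refine ⟨j, j1, ?_⟩
    rw [← itd_congr_base hO hV hV' sD sD' e0 hD j z (hNO hz) (hNb hz)]
    exact j2

variable {ι σ : Type*} [Fintype ι] [DecidableEq ι] [Fintype σ] [DecidableEq σ] {J : ℕ}

theorem gF_smooth1 {s : ι → R6 → ℝ} {pl : σ → R6 → ℝ} (hs : ∀ i, ContDiffOn ℝ ∞ (s i) U6)
    (hpl : ∀ l, ContDiffOn ℝ ∞ (pl l) U6) (γ : ι × σ → Fin J → ℝ) :
    ContDiffOn ℝ ∞ (gF s pl γ) U6 :=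
  (gF_smooth (J := J) hs hpl).comp
    (t := U6 ×ˢ (Set.univ : Set (ι × σ → Fin J → ℝ)))
    (contDiff_id.prodMk contDiff_const).contDiffOn fun _ hz => ⟨hz, Set.mem_univ _⟩

theorem pert_smooth1 {V : R6 → ℝ} {s : ι → R6 → ℝ} (hV : ContDiffOn ℝ ∞ V U6)
    (hs : ∀ i, ContDiffOn ℝ ∞ (s i) U6) (τ : ι → Fin J → ℝ) :
    ContDiffOn ℝ ∞ (pert V s τ) U6 := pert_smooth' hV hs τ

/-- **genericity on the base**, both walls -/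
theorem ft123_main {N : Set R6} (hN : IsCompact N) (hNb : N ⊆ base) (hNU : N ⊆ U6) {κ : ℝ}
    (hκ : κ ≠ 0) {V₀ α₁ α₂ kk : R6 → ℝ}
    {om : (ι ⊕ (ι × ι) → Fin J → ℝ) → R6 → ℝ} {e : ι → R6 → ℝ} {pl : σ → R6 → ℝ}
    (hV : ContDiffOn ℝ ∞ V₀ U6) (he : ∀ i, ContDiffOn ℝ ∞ (e i) U6)
    (hpl : ∀ l, ContDiffOn ℝ ∞ (pl l) U6) (hα₁ : ContDiffOn ℝ ∞ α₁ U6)
    (hα₂ : ContDiffOn ℝ ∞ α₂ U6)
    (hom : ContDiffOn ℝ ∞ (fun z : R6 × (ι ⊕ (ι × ι) → Fin J → ℝ) => om z.2 z.1)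
      (U6 ×ˢ Set.univ))
    (hkk : ContDiffOn ℝ ∞ kk U6) (hJ : 6 < J) (hne : Nonempty ι)
    (sep : ∀ z ∈ N, ∀ w, fderiv ℝ rho z w = 0 → w ≠ 0 → ∃ i, fderiv ℝ (e i) z w ≠ 0)
    (fd : ∀ z ∈ N, α₁ z = 0 → α₂ z = 0 → ∃ w, fderiv ℝ rho z w = 0 ∧ fderiv ℝ α₁ z w ≠ 0)
    (hk : ∀ z ∈ N, kk z ≠ 0) (hp : ∀ z ∈ N, ∃ l, pl l z ≠ 0) {ε : ℝ} (hε : 0 < ε) :
    ∃ (τ : ι ⊕ (ι × ι) → Fin J → ℝ) (γ : (ι ⊕ (ι × ι)) × σ → Fin J → ℝ), ‖τ‖ < ε ∧ ‖γ‖ < ε ∧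
      FT123 κ N J (pert V₀ (sumF e) τ) α₁ α₂
        (fun y => om τ y + kk y * gF (sumF e) pl γ y) := by
  have hB := baseD6 hN hNb hNU hκ
  have hfin : finrank ℝ R6 = 6 := by
    rw [Module.finrank_prod, Module.finrank_fintype_fun_eq_card]
    rfl
  obtain ⟨τ, γ, h1, h2, h3, h4, h5⟩ := ft_main' (J := J) (s := sumF e) (pl := pl) (kk := kk)
    (om := om) hB hV (sumF_smooth he) hpl hα₁ hα₂ hom hkk (by rw [hfin]; exact hJ)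
    ⟨Sum.inl hne.some⟩ (sumF_sep U6_open hNU he sep) fd hk hp hε
  have hVs : ContDiffOn ℝ ∞ (pert V₀ (sumF e) τ) U6 := pert_smooth' hV (sumF_smooth he) τ
  have hX := XB_smooth U6_open hVs
  have hom' : ContDiffOn ℝ ∞ (om τ) U6 :=
    hom.comp (t := U6 ×ˢ (Set.univ : Set (ι ⊕ (ι × ι) → Fin J → ℝ)))
      (contDiff_id.prodMk contDiff_const).contDiffOn fun _ hz => ⟨hz, Set.mem_univ _⟩
  have hg : ContDiffOn ℝ ∞ (gF (sumF e) pl γ) U6 :=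
    (gF_smooth (J := J) (sumF_smooth he) hpl).comp
      (t := U6 ×ˢ (Set.univ : Set ((ι ⊕ (ι × ι)) × σ → Fin J → ℝ)))
      (contDiff_id.prodMk contDiff_const).contDiffOn fun _ hz => ⟨hz, Set.mem_univ _⟩
  have hD := DelB_smooth (κ := κ) U6_open hVs hα₁ hα₂ (hom'.add (hkk.mul hg))
  refine ⟨τ, γ, h1, h2, fun z hz h0 => ?_, fun z hz k1 k2 => ?_, fun z hz k1 k2 => ?_⟩
  · have := h3 z hz (by rw [XV6, h0, smul_zero])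
    rwa [DelF_eq] at this
  · obtain ⟨j, j1, j2, j3⟩ := h4 z hz k1 k2
    exact ⟨j, j1, j2, itd_const_smul_ne U6_open hX hα₁ (hNU hz) j3⟩
  · obtain ⟨j, j1, j2⟩ := h5 z hz k1 (by
      rw [XV6]; exact smul_ne_zero hκ k2)
    rw [DelF_eq] at j2
    exact ⟨j, j1, itd_const_smul_ne U6_open hX hD (hNU hz) j2⟩

/-- from a finite index type to `Fin n` -/
theorem to_fin {P : Type*} [Fintype P] {ψ : P → R9 → ℝ} {Q : (R9 → ℝ) → Prop} {v : R9 → ℝ}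
    {cw : ℝ} (h1 : ∀ i, WM (ψ i)) (h2 : ∀ i u, u ≠ 0 → cM u * cw ≤ 0 → ψ i =ᶠ[𝓝 u] 0)
    (h3 : ∀ ε > 0, ∃ τ : P → ℝ, ‖τ‖ < ε ∧ Q (fun u => v u + ∑ i, τ i * ψ i u)) :
    ∃ (n : ℕ) (ψ' : Fin n → R9 → ℝ), (∀ i, WM (ψ' i)) ∧
      (∀ i u, u ≠ 0 → cM u * cw ≤ 0 → ψ' i =ᶠ[𝓝 u] 0) ∧
      ∀ ε > 0, ∃ τ : Fin n → ℝ, ‖τ‖ < ε ∧ Q (fun u => v u + ∑ i, τ i * ψ' i u) := by
  classical
  let e := Fintype.equivFin P
  refine ⟨Fintype.card P, fun i => ψ (e.symm i), fun i => h1 _, fun i => h2 _, fun ε hε => ?_⟩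
  obtain ⟨τ, hτ, hQ⟩ := h3 ε hε
  refine ⟨fun i => τ (e.symm i), ?_, ?_⟩
  · refine lt_of_le_of_lt ?_ hτ
    exact (pi_norm_le_iff_of_nonneg (norm_nonneg _)).2 fun i => norm_le_pi_norm τ _
  · have h4 : (fun u => v u + ∑ i, τ (e.symm i) * ψ (e.symm i) u) =
        fun u => v u + ∑ i, τ i * ψ i u := by
      funext u
      rw [Equiv.sum_comp e.symm fun i => τ i * ψ i u]
    rw [h4]
    exact hQ

end FT0

end Pool.Agent.FL.S2
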