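import Pool.Agent.FL.ExtB
import Pool.Agent.FL.FTC
import Pool.Agent.FL.GE5
import Pool.Agent.FL.S2SecB

/-!
# MP_f09395_gt, space (2): genericity at wall B
-/

set_option linter.unusedSectionVars false
set_option linter.unusedVariables false

noncomputable section

namespace Pool.Agent.FL.S2.FTB

open scoped ContDiff Matrix
open Matrix Filter Topology Module
open Pool.Agent.helper90.FL
open Pool.Agent.FL.S2.EB

/-- indices of the immersion family -/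
abbrev J0 : Type := (Fin 3 × Fin 3) ⊕ Fin 3

/-- indices of the separating family -/
abbrev JB : Type := J0 ⊕ (J0 × J0)

/-- immersion family at wall B: `p_i p_j` and `q_i` -/
def eB : J0 → R6 → ℝ
  | Sum.inl a => fun z => z.1 a.1 * z.1 a.2
  | Sum.inr i => fun z => z.2 i

/-- the components of `p` -/
def pB (l : Fin 3) (z : R6) : ℝ := z.1 l

theorem eB_smooth (i : J0) : ContDiffOn ℝ ∞ (eB i) U6 := by
  rcases i with a | a
  · exact (cd_comp3 cd_z1 a.1).mul (cd_comp3 cd_z1 a.2)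
  · exact cd_comp3 cd_z2 a

theorem pB_smooth (l : Fin 3) : ContDiffOn ℝ ∞ (pB l) U6 := cd_comp3 cd_z1 l

theorem sB_smooth (i : JB) : ContDiffOn ℝ ∞ (sumF eB i) U6 := sumF_smooth eB_smooth i

theorem eB_even (i : J0) (z : R6) : eB i (-z.1, z.2) = eB i z := by
  rcases i with a | a
  · show (-z.1) a.1 * (-z.1) a.2 = z.1 a.1 * z.1 a.2
    simp
  · rfl

theorem sB_even (i : JB) (z : R6) : sumF eB i (-z.1, z.2) = sumF eB i z := by
  rcases i with a | a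
  · exact eB_even a z
  · show eB a.1 (-z.1, z.2) + eB a.2 (-z.1, z.2) = eB a.1 z + eB a.2 z
    rw [eB_even, eB_even]

/-- the immersion property at wall B -/
theorem eB_sep {z : R6} (hU : z ∈ U6) {w : R6} (hw0 : w ≠ 0) :
    ∃ i, fderiv ℝ (eB i) z w ≠ 0 := by
  by_contra hcon
  push Not at hcon
  have hp : ∀ i, HasFDerivAt (fun y : R6 => y.1 i)
      ((ContinuousLinearMap.proj (R := ℝ) (φ := fun _ : Fin 3 => ℝ) i).comp
        (ContinuousLinearMap.fst ℝ R3 R3)) z := fun i =>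
    (ContinuousLinearMap.proj (R := ℝ) (φ := fun _ : Fin 3 => ℝ) i).hasFDerivAt.comp z
      hasFDerivAt_fst
  have hq : ∀ i, HasFDerivAt (fun y : R6 => y.2 i)
      ((ContinuousLinearMap.proj (R := ℝ) (φ := fun _ : Fin 3 => ℝ) i).comp
        (ContinuousLinearMap.snd ℝ R3 R3)) z := fun i =>
    (ContinuousLinearMap.proj (R := ℝ) (φ := fun _ : Fin 3 => ℝ) i).hasFDerivAt.comp z
      hasFDerivAt_snd
  have h2 : w.2 = 0 := by
    ext i
    have h := hcon (Sum.inr i)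
    rw [show eB (Sum.inr i) = fun y : R6 => y.2 i from rfl, (hq i).fderiv] at h
    exact h
  have h1 : ∀ i j, z.1 i * w.1 j + z.1 j * w.1 i = 0 := by
    intro i j
    have h := hcon (Sum.inl (i, j))
    have e : HasFDerivAt (eB (Sum.inl (i, j))) _ z := (hp i).mul (hp j)
    rw [e.fderiv] at h
    simpa using h
  have h3 : w.1 = 0 := by
    have hP := dot_pos hU.1
    have k1 : ∀ j, (z.1 ⬝ᵥ z.1) * w.1 j + z.1 j * (z.1 ⬝ᵥ w.1) = 0 := by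
      intro j
      rw [vec3_dotProduct, vec3_dotProduct]
      linear_combination z.1 0 * h1 0 j + z.1 1 * h1 1 j + z.1 2 * h1 2 j
    have k2 : (z.1 ⬝ᵥ z.1) * (z.1 ⬝ᵥ w.1) = 0 := by
      have e : (z.1 ⬝ᵥ z.1) * (z.1 ⬝ᵥ w.1) + (z.1 ⬝ᵥ z.1) * (z.1 ⬝ᵥ w.1) = 0 := by
        have g0 := k1 0
        have g1 := k1 1
        have g2 := k1 2
        obtain ⟨P, hP'⟩ : ∃ P, P = z.1 ⬝ᵥ z.1 := ⟨_, rfl⟩
        obtain ⟨W, hW'⟩ : ∃ W, W = z.1 ⬝ᵥ w.1 := ⟨_, rfl⟩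
        rw [← hP', ← hW'] at g0 g1 g2 ⊢
        have e1 : P = z.1 0 * z.1 0 + z.1 1 * z.1 1 + z.1 2 * z.1 2 := by
          rw [hP', vec3_dotProduct]
        have e2 : W = z.1 0 * w.1 0 + z.1 1 * w.1 1 + z.1 2 * w.1 2 := by
          rw [hW', vec3_dotProduct]
        have : P * W + P * W = P * (z.1 0 * w.1 0 + z.1 1 * w.1 1 + z.1 2 * w.1 2) +
            (z.1 0 * z.1 0 + z.1 1 * z.1 1 + z.1 2 * z.1 2) * W := by rw [← e1, ← e2]
        rw [this]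
        linear_combination z.1 0 * g0 + z.1 1 * g1 + z.1 2 * g2
      linarith
    have k3 : z.1 ⬝ᵥ w.1 = 0 := (mul_eq_zero.1 k2).resolve_left hP.ne'
    ext j
    have k4 := k1 j
    rw [k3, mul_zero, add_zero] at k4
    exact (mul_eq_zero.1 k4).resolve_left hP.ne'
  exact hw0 (Prod.ext h3 h2)

/-! ### smooth functions -/

theorem uB_ne' {z : R6} (hz : z.1 ≠ 0) : uB z ≠ 0 := by
  intro h
  have h1 : (uB z).1 = 0 := by rw [h]; rfl
  rw [uB_1] at h1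
  rcases smul_eq_zero.1 h1 with h2 | h2
  · have : Real.sqrt 2 ≠ 0 := by positivity
    exact inv_ne_zero this h2
  · exact hz h2

theorem cn1 : ContDiffOn ℝ ∞ (fun z : R6 => n3 z.1) U6 := cd_n3 cd_z1 fun z hz => hz.1

theorem cn2 : ContDiffOn ℝ ∞ (fun z : R6 => n3 z.2) U6 := cd_n3 cd_z2 fun z hz => hz.2

theorem cn1i : ContDiffOn ℝ ∞ (fun z : R6 => (n3 z.1)⁻¹) U6 :=
  cn1.inv fun _ hz => (EB.n3_pos hz.1).ne'

theorem cn2i : ContDiffOn ℝ ∞ (fun z : R6 => (n3 z.2)⁻¹) U6 :=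
  cn2.inv fun _ hz => (EB.n3_pos hz.2).ne'

theorem uB_smooth : ContDiffOn ℝ ∞ uB U6 :=
  (cd_z1.prodMk ((cn1i.smul cd_z1).prodMk (cn1i.smul (cd_cross cd_z2 cd_z1)))).const_smul _

theorem comp_uB_smooth {v : R9 → ℝ} (hv : ContDiffOn ℝ ∞ v {0}ᶜ) :
    ContDiffOn ℝ ∞ (fun z => v (uB z)) U6 :=
  hv.comp uB_smooth fun _ hz => uB_ne' hz.1

theorem fd_uB_smooth {v : R9 → ℝ} (hv : ContDiffOn ℝ ∞ v {0}ᶜ) {Y : R6 → R9}
    (hY : ContDiffOn ℝ ∞ Y U6) : ContDiffOn ℝ ∞ (fun z => fderiv ℝ v (uB z) (Y z)) U6 :=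
  ((fder_smooth isOpen_compl_singleton hv).comp uB_smooth fun _ hz => uB_ne' hz.1).clm_apply hY

theorem rot_smooth {Y : R6 → R9} (hY : ContDiffOn ℝ ∞ Y U6) :
    ContDiffOn ℝ ∞ (fun z => rot (Y z)) U6 := by
  unfold rot
  exact contDiffOn_const.prodMk ((hY.snd.snd.neg).prodMk hY.snd.fst)

theorem b1B_smooth : ContDiffOn ℝ ∞ b1B U6 :=
  (cd_z1.neg.prodMk ((cn1i.smul cd_z1).prodMk
    (cn1i.smul (cd_cross cd_z2 cd_z1)).neg)).const_smul _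

theorem b2B_smooth : ContDiffOn ℝ ∞ b2B U6 :=
  ((cn2i.smul (cd_cross cd_z2 cd_z1)).neg.prodMk
    (((cn1i.mul cn2i).smul (cd_cross cd_z2 cd_z1)).prodMk ((cn2.mul cn1i).smul cd_z1))).const_smul _

theorem al1B_smooth {v : R9 → ℝ} (hv : ContDiffOn ℝ ∞ v {0}ᶜ) :
    ContDiffOn ℝ ∞ (fun z => alM v (uB z) (b1B z)) U6 := fd_uB_smooth hv (rot_smooth b1B_smooth)

theorem al2B_smooth {v : R9 → ℝ} (hv : ContDiffOn ℝ ∞ v {0}ᶜ) :
    ContDiffOn ℝ ∞ (fun z => alM v (uB z) (b2B z)) U6 := fd_uB_smooth hv (rot_smooth b2B_smooth)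

theorem omB_smooth {v : R9 → ℝ} (hv : ContDiffOn ℝ ∞ v {0}ᶜ) : ContDiffOn ℝ ∞ (omB v) U6 :=
  (contDiffOn_const.mul (fd_uB_smooth hv (contDiffOn_const.prodMk
    (cd_z2.prodMk contDiffOn_const)))).div (cn1.mul cn2)
    fun _ hz => mul_ne_zero (EB.n3_pos hz.1).ne' (EB.n3_pos hz.2).ne'

/-! ### the cut-off -/

/-- cut-off in `|p|²`: `1` on `[d/2, 1 - d/2]`, `0` outside `(d/4, 1 - d/4)` -/
def zB (d t : ℝ) : ℝ :=
  Real.smoothTransition ((t - d / 4) / (d / 4)) *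
    Real.smoothTransition ((1 - d / 4 - t) / (d / 4))

theorem zB_smooth (d : ℝ) : ContDiff ℝ ∞ (zB d) :=
  (Real.smoothTransition.contDiff.comp ((contDiff_id.sub contDiff_const).div_const _)).mul
    (Real.smoothTransition.contDiff.comp ((contDiff_const.sub contDiff_id).div_const _))

theorem zB_one {d t : ℝ} (hd : 0 < d) (h1 : d / 2 ≤ t) (h2 : t ≤ 1 - d / 2) : zB d t = 1 := by
  unfold zB
  rw [Real.smoothTransition.one_of_one_le, Real.smoothTransition.one_of_one_le, one_mul]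
  · rw [le_div_iff₀ (by positivity)]; linarith
  · rw [le_div_iff₀ (by positivity)]; linarith

theorem zB_zero {d t : ℝ} (hd : 0 < d) (h : t < d / 4 ∨ 1 - d / 4 < t) : zB d t = 0 := by
  unfold zB
  rcases h with h | h
  · rw [Real.smoothTransition.zero_of_nonpos, zero_mul]
    exact div_nonpos_of_nonpos_of_nonneg (by linarith) (by positivity)
  · rw [Real.smoothTransition.zero_of_nonpos (x := (1 - d / 4 - t) / (d / 4)), mul_zero]
    exact div_nonpos_of_nonpos_of_nonneg (by linarith) (by positivity)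

theorem zBp_smooth (d : ℝ) : ContDiffOn ℝ ∞ (fun z : R6 => zB d (z.1 ⬝ᵥ z.1)) U6 :=
  (zB_smooth d).comp_contDiffOn (cd_dot cd_z1 cd_z1)

/-- even functions of the family -/
def nuE (d : ℝ) (i : JB) (k : ℕ) (z : R6) : ℝ := zB d (z.1 ⬝ᵥ z.1) * sumF eB i z ^ (k + 1)

/-- odd functions of the family -/
def nuO (d : ℝ) (i : JB) (l : Fin 3) (k : ℕ) (z : R6) : ℝ :=
  zB d (z.1 ⬝ᵥ z.1) * (pB l z * sumF eB i z ^ k)

theorem nuE_hyp {d : ℝ} (hd : 0 < d) (i : JB) (k : ℕ) :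
    ExtHypB (d / 4) (d ^ 2 / 128) 1 (nuE d i k) where
  δ0 := by positivity
  ε0 := by positivity
  small := by nlinarith [sq_nonneg d, mul_pos hd hd]
  smooth := (zBp_smooth d).mul ((sB_smooth i).pow _)
  van := fun z hz => by
    unfold nuE
    rw [zB_zero hd hz, zero_mul]
  evp := fun z _ => by
    unfold nuE
    rw [sB_even]
    simp

theorem nuO_hyp {d : ℝ} (hd : 0 < d) (i : JB) (l : Fin 3) (k : ℕ) :
    ExtHypB (d / 4) (d ^ 2 / 128) (-1) (nuO d i l k) where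
  δ0 := by positivity
  ε0 := by positivity
  small := by nlinarith [sq_nonneg d, mul_pos hd hd]
  smooth := (zBp_smooth d).mul ((pB_smooth l).mul ((sB_smooth i).pow _))
  van := fun z hz => by
    unfold nuO
    rw [zB_zero hd hz, zero_mul]
  evp := fun z _ => by
    unfold nuO pB
    rw [sB_even]
    simp

/-! ### the functions `det(a, x, y) G` -/

/-- the function of degree `-1` -/
def GB (d : ℝ) (i : JB) (l : Fin 3) (k : ℕ) (u : R9) : ℝ :=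
  (Real.sqrt (dot9 u u) * extB (d ^ 2 / 128) (nuO d i l k) u) / dot9 u u

theorem GB_smooth {d : ℝ} (hd : 0 < d) (i : JB) (l : Fin 3) (k : ℕ) :
    ContDiffOn ℝ ∞ (GB d i l k) {0}ᶜ :=
  (extB_odd (nuO_hyp hd i l k)).1.div cd_dot9 fun _ hu => (dot9_pos hu).ne'

/-- even members of the family -/
def psE (d : ℝ) (i : JB) (k : ℕ) (u : R9) : ℝ :=
  dot9 u u * extB (d ^ 2 / 128) (nuE d i k) u

/-- odd members of the family -/
def psO (d : ℝ) (i : JB) (l : Fin 3) (k : ℕ) (u : R9) : ℝ :=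
  (u.1 ⬝ᵥ (u.2.1 ⨯₃ u.2.2)) * GB d i l k u

theorem psE_WM {d : ℝ} (hd : 0 < d) (i : JB) (k : ℕ) : WM (psE d i k) := extB_WM (nuE_hyp hd i k)

theorem psO_WM {d : ℝ} (hd : 0 < d) (i : JB) (l : Fin 3) (k : ℕ) : WM (psO d i l k) := by
  obtain ⟨h1, h2, h3⟩ := extB_odd (nuO_hyp hd i l k)
  refine GE5_WM_det (GB_smooth hd i l k) (fun r u hr => ?_) (fun t u => ?_)
  · unfold GB
    rw [h2, EB.dot9_smul]
    by_cases hD : dot9 u u = 0
    · rw [hD]; simp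
    · field_simp
  · unfold GB
    rw [h3, EB.dot9_rotH]

/-- local vanishing off wall B -/
theorem ext_off {δ ε σ : ℝ} {ν : R6 → ℝ} (h : ExtHypB δ ε σ ν) (hε : ε < 1 / 8) {u : R9}
    (hu : u ≠ 0) (hc : 0 ≤ cM u) : extB ε ν =ᶠ[𝓝 u] fun _ => 0 := by
  have h1 := cM_kapB hu
  have h3 : ε < kapB u := by linarith
  have hck : ContinuousAt kapB u :=
    kapB_smooth.continuousOn.continuousAt (isOpen_compl_singleton.mem_nhds hu)
  filter_upwards [hck.eventually (lt_mem_nhds h3)] with w hw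
  unfold extB
  rw [Real.smoothTransition.zero_of_nonpos, zero_mul]
  have : 1 ≤ kapB w / ε := by rw [le_div_iff₀ h.ε0]; linarith
  linarith

theorem psE_off {d : ℝ} (hd : 0 < d) (hd1 : d < 1) (i : JB) (k : ℕ) {u : R9} (hu : u ≠ 0)
    (hc : 0 ≤ cM u) : psE d i k =ᶠ[𝓝 u] fun _ => 0 := by
  filter_upwards [ext_off (nuE_hyp hd i k) (by nlinarith) hu hc] with w hw
  unfold psE
  rw [hw, mul_zero]

theorem psO_off {d : ℝ} (hd : 0 < d) (hd1 : d < 1) (i : JB) (l : Fin 3) (k : ℕ) {u : R9}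
    (hu : u ≠ 0) (hc : 0 ≤ cM u) : psO d i l k =ᶠ[𝓝 u] fun _ => 0 := by
  filter_upwards [ext_off (nuO_hyp hd i l k) (by nlinarith) hu hc] with w hw
  unfold psO GB
  rw [hw, mul_zero, zero_div, mul_zero]

theorem psE_uB {d : ℝ} (hd : 0 < d) (i : JB) (k : ℕ) {z : R6} (hz : z ∈ base) (hU : z ∈ U6) :
    psE d i k (uB z) = nuE d i k z := extB_WM_uB (nuE_hyp hd i k) hz hU

theorem det_uB {z : R6} (hz : z ∈ base) (hp : z.1 ≠ 0) :
    (uB z).1 ⬝ᵥ ((uB z).2.1 ⨯₃ (uB z).2.2) = 0 := by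
  rw [uB_cross hz hp, uB_1, smul_dotProduct, dotProduct_smul, hz.1]
  simp

theorem psO_uB (d : ℝ) (i : JB) (l : Fin 3) (k : ℕ) {z : R6} (hz : z ∈ base)
    (hU : z ∈ U6) : psO d i l k (uB z) = 0 := by
  unfold psO
  rw [det_uB hz hU.1, zero_mul]

theorem psE_om {d : ℝ} (hd : 0 < d) (i : JB) (k : ℕ) {z : R6} (hz : z ∈ base) (hU : z ∈ U6) :
    fderiv ℝ (psE d i k) (uB z) ((0 : R3), z.2, (0 : R3)) = 0 := by
  have h := omB_extB (nuE_hyp hd i k) hz hU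
  unfold omB at h
  have h1 := EB.n3_pos hU.1
  have h2 := EB.n3_pos hU.2
  rcases div_eq_zero_iff.1 h with h3 | h3
  · have : fderiv ℝ (fun u : R9 => dot9 u u * extB (d ^ 2 / 128) (nuE d i k) u) (uB z)
        ((0 : R3), z.2, (0 : R3)) = 0 := by linarith
    exact this
  · exact absurd h3 (mul_ne_zero h1.ne' h2.ne')

theorem det_deriv {z : R6} (hz : z ∈ base) (hU : z ∈ U6) :
    DifferentiableAt ℝ (fun u : R9 => u.1 ⬝ᵥ (u.2.1 ⨯₃ u.2.2)) (uB z) ∧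
    fderiv ℝ (fun u : R9 => u.1 ⬝ᵥ (u.2.1 ⨯₃ u.2.2)) (uB z) ((0 : R3), z.2, (0 : R3)) =
      -(n3 z.2 ^ 2 * n3 z.1) / 2 := by
  have hd : DifferentiableAt ℝ (fun u : R9 => u.1 ⬝ᵥ (u.2.1 ⨯₃ u.2.2)) (uB z) :=
    ((cd_dot (s := Set.univ) cd_u1 (cd_cross cd_u2 cd_u3)).contDiffAt
      Filter.univ_mem).differentiableAt (by simp)
  refine ⟨hd, ?_⟩
  obtain ⟨v, hv⟩ : ∃ v : R9, v = ((0 : R3), z.2, (0 : R3)) := ⟨_, rfl⟩
  have v1 : v.1 = 0 := by rw [hv]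
  have v2 : v.2.1 = z.2 := by rw [hv]
  have v3 : v.2.2 = 0 := by rw [hv]
  rw [← hv]
  have h1 := line_hd (v := v) hd
  have h2 : (fun t : ℝ => (uB z + t • v).1 ⬝ᵥ ((uB z + t • v).2.1 ⨯₃ (uB z + t • v).2.2)) =
      fun t : ℝ => (uB z).1 ⬝ᵥ ((uB z).2.1 ⨯₃ (uB z).2.2) +
        t * ((uB z).1 ⬝ᵥ (z.2 ⨯₃ (uB z).2.2)) := by
    funext t
    simp only [Prod.fst_add, Prod.snd_add, Prod.smul_fst, Prod.smul_snd, v1, v2, v3, smul_zero,
      add_zero, map_add, map_smul, LinearMap.add_apply, LinearMap.smul_apply, dotProduct_add,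
      dotProduct_smul, smul_eq_mul]
  have h3 : HasDerivAt (fun t : ℝ => (uB z).1 ⬝ᵥ ((uB z).2.1 ⨯₃ (uB z).2.2) +
        t * ((uB z).1 ⬝ᵥ (z.2 ⨯₃ (uB z).2.2))) ((uB z).1 ⬝ᵥ (z.2 ⨯₃ (uB z).2.2)) 0 := by
    refine (((hasDerivAt_id (0 : ℝ)).mul_const _).const_add _).congr_deriv (by simp)
  rw [h2] at h1
  rw [h1.unique h3, uB_1, uB_3, map_smul, map_smul, cross_cross_eq_smul_sub_smul',
    dotProduct_comm z.2 z.1, hz.1, zero_smul, zero_sub, EB.n3_sq]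
  have hs : (Real.sqrt 2)⁻¹ * (Real.sqrt 2)⁻¹ = 1 / 2 := by
    rw [← mul_inv, Real.mul_self_sqrt (by norm_num)]; norm_num
  have hn := EB.n3_pos hU.1
  simp only [smul_dotProduct, dotProduct_smul, smul_eq_mul, dotProduct_neg]
  rw [← EB.n3_sq z.1]
  have e : (Real.sqrt 2)⁻¹ * ((n3 z.1)⁻¹ * -(z.2 ⬝ᵥ z.2 * ((Real.sqrt 2)⁻¹ * n3 z.1 ^ 2))) =
      ((Real.sqrt 2)⁻¹ * (Real.sqrt 2)⁻¹) * (-(z.2 ⬝ᵥ z.2 * ((n3 z.1)⁻¹ * n3 z.1 ^ 2))) := by ring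
  rw [e, hs]
  have e2 : (n3 z.1)⁻¹ * n3 z.1 ^ 2 = n3 z.1 := by field_simp
  rw [e2]
  ring

theorem GB_uB {d : ℝ} (hd : 0 < d) (i : JB) (l : Fin 3) (k : ℕ) {z : R6} (hz : z ∈ base)
    (hU : z ∈ U6) : GB d i l k (uB z) = nuO d i l k z := by
  unfold GB
  rw [uB_dot hz hU.1, extB_uB (nuO_hyp hd i l k) hz hU]
  simp

theorem psO_om {d : ℝ} (hd : 0 < d) (i : JB) (l : Fin 3) (k : ℕ) {z : R6} (hz : z ∈ base)
    (hU : z ∈ U6) : fderiv ℝ (psO d i l k) (uB z) ((0 : R3), z.2, (0 : R3)) =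
      -(n3 z.2 ^ 2 * n3 z.1) / 2 * nuO d i l k z := by
  obtain ⟨hd1, h1⟩ := det_deriv hz hU
  have hu := uB_ne' hU.1
  have hd2 : DifferentiableAt ℝ (GB d i l k) (uB z) :=
    ((GB_smooth hd i l k).contDiffAt (isOpen_compl_singleton.mem_nhds hu)).differentiableAt
      (by simp)
  have h3 : fderiv ℝ (psO d i l k) (uB z) =
      ((uB z).1 ⬝ᵥ ((uB z).2.1 ⨯₃ (uB z).2.2)) • fderiv ℝ (GB d i l k) (uB z) +
        GB d i l k (uB z) • fderiv ℝ (fun u : R9 => u.1 ⬝ᵥ (u.2.1 ⨯₃ u.2.2)) (uB z) :=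
    (hd1.hasFDerivAt.mul hd2.hasFDerivAt).fderiv
  rw [h3, det_uB hz hU.1, GB_uB hd i l k hz hU]
  simp only [zero_smul, zero_add]
  show nuO d i l k z * fderiv ℝ (fun u : R9 => u.1 ⬝ᵥ (u.2.1 ⨯₃ u.2.2)) (uB z)
    ((0 : R3), z.2, (0 : R3)) = _
  rw [h1]
  ring

/-! ### the family -/

/-- indices of the family -/
abbrev KB : Type := (JB × Fin 7) ⊕ ((JB × Fin 3) × Fin 7)

/-- the family -/
def psB (d : ℝ) : KB → R9 → ℝ :=
  Sum.elim (fun a => psE d a.1 a.2) (fun a => psO d a.1.1 a.1.2 a.2)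

/-- the parameters -/
def thB (τ : JB → Fin 7 → ℝ) (γ : JB × Fin 3 → Fin 7 → ℝ) : KB → ℝ :=
  Sum.elim (fun a => τ a.1 a.2) (fun a => γ a.1 a.2)

theorem psB_WM {d : ℝ} (hd : 0 < d) (a : KB) : WM (psB d a) := by
  rcases a with a | a
  · exact psE_WM hd a.1 a.2
  · exact psO_WM hd a.1.1 a.1.2 a.2

theorem psB_off {d : ℝ} (hd : 0 < d) (hd1 : d < 1) (a : KB) {u : R9} (hu : u ≠ 0)
    (hc : 0 ≤ cM u) : psB d a =ᶠ[𝓝 u] fun _ => 0 := by
  rcases a with a | a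
  · exact psE_off hd hd1 a.1 a.2 hu hc
  · exact psO_off hd hd1 a.1.1 a.1.2 a.2 hu hc

/-- linear combinations of functions of class `WM` -/
theorem fam_fderiv {κ : Type*} [Fintype κ] {v : R9 → ℝ} {ψ : κ → R9 → ℝ} {θ : κ → ℝ} {u : R9}
    (hv : DifferentiableAt ℝ v u) (hψ : ∀ a, DifferentiableAt ℝ (ψ a) u) (w : R9) :
    fderiv ℝ (fun y => v y + ∑ a, θ a * ψ a y) u w =
      fderiv ℝ v u w + ∑ a, θ a * fderiv ℝ (ψ a) u w := by
  have h1 : HasFDerivAt (fun y => v y + ∑ a, θ a * ψ a y)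
      (fderiv ℝ v u + ∑ a, θ a • fderiv ℝ (ψ a) u) u :=
    hv.hasFDerivAt.add (HasFDerivAt.fun_sum fun a _ => (hψ a).hasFDerivAt.const_mul (θ a))
  rw [h1.fderiv]
  simp

theorem fam_smooth {κ : Type*} [Fintype κ] {v : R9 → ℝ} {ψ : κ → R9 → ℝ} (θ : κ → ℝ)
    (hv : PhiM v) (hψ : ∀ a, WM (ψ a)) :
    ContDiffOn ℝ ∞ (fun y => v y + ∑ a, θ a * ψ a y) {0}ᶜ :=
  hv.smooth.add (ContDiffOn.sum fun a _ => contDiffOn_const.mul (hψ a).phi.smooth)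

theorem dAt9 {v : R9 → ℝ} (hv : ContDiffOn ℝ ∞ v {0}ᶜ) {u : R9} (hu : u ≠ 0) :
    DifferentiableAt ℝ v u :=
  (hv.contDiffAt (isOpen_compl_singleton.mem_nhds hu)).differentiableAt (by simp)

theorem fam_al {κ : Type*} [Fintype κ] {v : R9 → ℝ} {ψ : κ → R9 → ℝ} (θ : κ → ℝ)
    (hv : PhiM v) (hψ : ∀ a, WM (ψ a)) {u b : R9} (h : Flg u b) :
    alM (fun y => v y + ∑ a, θ a * ψ a y) u b = alM v u b := by
  have hu := flg_ne h
  unfold alM
  rw [fam_fderiv (dAt9 hv.smooth hu) (fun a => dAt9 (hψ a).phi.smooth hu)]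
  have : ∀ a, fderiv ℝ (ψ a) u (rot b) = 0 := fun a => (hψ a).al u b h
  simp [this]

theorem Flg_b1B {z : R6} (hz : z ∈ base) (hU : z ∈ U6) : Flg (uB z) (b1B z) := by
  have h := (secB_Flg hz hU 0).1
  rwa [Real.cos_zero, Real.sin_zero, one_smul, zero_smul, add_zero] at h

theorem Flg_b2B {z : R6} (hz : z ∈ base) (hU : z ∈ U6) : Flg (uB z) (b2B z) := by
  have h := (secB_Flg hz hU (Real.pi / 2)).1
  rwa [Real.cos_pi_div_two, Real.sin_pi_div_two, one_smul, zero_smul, zero_add] at h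

theorem w_sum {d : ℝ} (hd : 0 < d) (τ : JB → Fin 7 → ℝ) (γ : JB × Fin 3 → Fin 7 → ℝ)
    {z : R6} (hz : z ∈ base) (hU : z ∈ U6) (h1 : d / 2 ≤ z.1 ⬝ᵥ z.1)
    (h2 : z.1 ⬝ᵥ z.1 ≤ 1 - d / 2) :
    ∑ a, thB τ γ a * psB d a (uB z) = ∑ i, ∑ k : Fin 7, τ i k * sumF eB i z ^ (k.1 + 1) := by
  have e1 : ∑ a : (JB × Fin 3) × Fin 7, thB τ γ (Sum.inr a) * psB d (Sum.inr a) (uB z) = 0 := by
    refine Finset.sum_eq_zero fun a _ => ?_
    show _ * psO d a.1.1 a.1.2 a.2 (uB z) = 0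
    rw [psO_uB d _ _ _ hz hU, mul_zero]
  have e2 : ∑ a : JB × Fin 7, thB τ γ (Sum.inl a) * psB d (Sum.inl a) (uB z) =
      ∑ i, ∑ k : Fin 7, τ i k * sumF eB i z ^ (k.1 + 1) := by
    rw [Fintype.sum_prod_type]
    refine Finset.sum_congr rfl fun i _ => Finset.sum_congr rfl fun k _ => ?_
    show τ i k * psE d i k (uB z) = _
    rw [psE_uB hd i k hz hU]
    unfold nuE
    rw [zB_one hd h1 h2, one_mul]
  rw [Fintype.sum_sum_type, e1, e2, add_zero]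

/-- value of the perturbed function at wall B -/
theorem w_uB {v : R9 → ℝ} {d : ℝ} (hd : 0 < d) (τ : JB → Fin 7 → ℝ) (γ : JB × Fin 3 → Fin 7 → ℝ)
    {z : R6} (hz : z ∈ base) (hU : z ∈ U6) (h1 : d / 2 ≤ z.1 ⬝ᵥ z.1)
    (h2 : z.1 ⬝ᵥ z.1 ≤ 1 - d / 2) :
    v (uB z) + ∑ a, thB τ γ a * psB d a (uB z) =
      pert (fun z => v (uB z)) (sumF eB) τ z := by
  have key : ∑ a, thB τ γ a * psB d a (uB z) =
      ∑ i, ∑ k : Fin 7, τ i k * sumF eB i z ^ (k.1 + 1) := by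
    exact w_sum hd τ γ hz hU h1 h2
  rw [key]
  rfl

/-- rotation rate of the perturbed function at wall B -/
theorem w_omB {v : R9 → ℝ} (hv : PhiM v) {d : ℝ} (hd : 0 < d) (τ : JB → Fin 7 → ℝ)
    (γ : JB × Fin 3 → Fin 7 → ℝ)
    {z : R6} (hz : z ∈ base) (hU : z ∈ U6) (h1 : d / 2 ≤ z.1 ⬝ᵥ z.1)
    (h2 : z.1 ⬝ᵥ z.1 ≤ 1 - d / 2) :
    omB (fun u => v u + ∑ a, thB τ γ a * psB d a u) z =
      omB v z + (-n3 z.2) * gF (sumF eB) pB γ z := by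
  have hu := uB_ne' hU.1
  have hn1 := EB.n3_pos hU.1
  have hn2 := EB.n3_pos hU.2
  unfold omB
  rw [fam_fderiv (dAt9 hv.smooth hu) (fun a => dAt9 (psB_WM hd a).phi.smooth hu)]
  rw [Fintype.sum_sum_type]
  have e1 : ∑ a : JB × Fin 7, thB τ γ (Sum.inl a) * fderiv ℝ (psB d (Sum.inl a)) (uB z)
      ((0 : R3), z.2, (0 : R3)) = 0 := by
    refine Finset.sum_eq_zero fun a _ => ?_
    have : fderiv ℝ (psB d (Sum.inl a)) (uB z) ((0 : R3), z.2, (0 : R3)) = 0 :=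
      psE_om hd a.1 a.2 hz hU
    rw [this, mul_zero]
  have e2 : ∑ a : (JB × Fin 3) × Fin 7, thB τ γ (Sum.inr a) *
      fderiv ℝ (psB d (Sum.inr a)) (uB z) ((0 : R3), z.2, (0 : R3)) =
      -(n3 z.2 ^ 2 * n3 z.1) / 2 * gF (sumF eB) pB γ z := by
    unfold gF
    rw [Fintype.sum_prod_type, Finset.mul_sum]
    refine Finset.sum_congr rfl fun a _ => ?_
    rw [Finset.mul_sum]
    refine Finset.sum_congr rfl fun k _ => ?_
    have : fderiv ℝ (psB d (Sum.inr (a, k))) (uB z) ((0 : R3), z.2, (0 : R3)) =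
        -(n3 z.2 ^ 2 * n3 z.1) / 2 * nuO d a.1 a.2 k z := psO_om hd a.1 a.2 k hz hU
    rw [this]
    show γ a k * _ = _
    unfold nuO
    rw [zB_one hd h1 h2]
    ring
  rw [e1, e2, zero_add]
  field_simp

/-! ### the theorem -/

/-- the middle part of the base -/
def NB (d : ℝ) : Set R6 := {z | z ∈ base ∧ d ≤ z.1 ⬝ᵥ z.1 ∧ z.1 ⬝ᵥ z.1 ≤ 1 - d}

theorem NB_base (d : ℝ) : NB d ⊆ base := fun _ hz => hz.1

theorem NB_U6 {d : ℝ} (hd : 0 < d) : NB d ⊆ U6 := by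
  rintro z ⟨hz, h1, h2⟩
  refine ⟨?_, ?_⟩
  · intro h
    rw [h, zero_dotProduct] at h1
    linarith
  · intro h
    have h3 := hz.2
    rw [h, zero_dotProduct] at h3
    linarith

theorem NB_compact (d : ℝ) : IsCompact (NB d) := by
  have hc : Continuous fun z : R6 => z.1 ⬝ᵥ z.1 := FT0.dot_cont continuous_fst continuous_fst
  have e : NB d = base ∩ {z | d ≤ z.1 ⬝ᵥ z.1 ∧ z.1 ⬝ᵥ z.1 ≤ 1 - d} := rfl
  rw [e]
  exact FT0.base_compact.inter_right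
    ((isClosed_le continuous_const hc).inter (isClosed_le hc continuous_const))

/-- the open set around the middle part -/
def OB (d : ℝ) : Set R6 := U6 ∩ {z | d / 2 < z.1 ⬝ᵥ z.1 ∧ z.1 ⬝ᵥ z.1 < 1 - d / 2}

theorem OB_open (d : ℝ) : IsOpen (OB d) := by
  have hc : Continuous fun z : R6 => z.1 ⬝ᵥ z.1 := FT0.dot_cont continuous_fst continuous_fst
  exact isOpen_U6.inter ((isOpen_lt continuous_const hc).inter (isOpen_lt hc continuous_const))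

theorem NB_OB {d : ℝ} (hd : 0 < d) : NB d ⊆ OB d := fun z hz =>
  ⟨NB_U6 hd hz, by linarith [hz.2.1], by linarith [hz.2.2]⟩

/-- tangent form of Fact D -/
theorem factD_tan {v : R9 → ℝ} (hv : PhiM v) {S : Matrix (Fin 3) (Fin 3) ℝ} {ν : R3}
    (hQ : Q0c S ν) (h1 : ∀ z ∈ base, z ∈ U6 → alM v (uB z) (b1B z) = a1B S z)
    (h2 : ∀ z ∈ base, z ∈ U6 → alM v (uB z) (b2B z) = a2B S ν z) {z : R6} (hz : z ∈ base)
    (hU : z ∈ U6) (k1 : alM v (uB z) (b1B z) = 0) (k2 : alM v (uB z) (b2B z) = 0) :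
    ∃ w, fderiv ℝ FT0.rho z w = 0 ∧ fderiv ℝ (fun z => alM v (uB z) (b1B z)) z w ≠ 0 := by
  refine ⟨(z.2 ⨯₃ z.1, 0), ?_, ?_⟩
  · rw [FT0.rho_fderiv, Prod.mk_eq_zero]
    refine ⟨?_, ?_⟩
    · show (z.2 ⨯₃ z.1) ⬝ᵥ z.2 + z.1 ⬝ᵥ (0 : R3) = 0
      rw [dotProduct_comm, dot_self_cross, dotProduct_zero, add_zero]
    · show 2 * (z.1 ⬝ᵥ (z.2 ⨯₃ z.1) + z.2 ⬝ᵥ (0 : R3)) = 0
      rw [dot_cross_self, dotProduct_zero, add_zero, mul_zero]
  · have e := FT0.fderiv_congr_base (F := fun z => alM v (uB z) (b1B z)) (F' := a1B S) hz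
      (((al1B_smooth hv.smooth).contDiffAt (isOpen_U6.mem_nhds hU)).differentiableAt (by simp))
      (((a1B_smooth S).contDiffAt (isOpen_U6.mem_nhds hU)).differentiableAt (by simp))
      (by filter_upwards [isOpen_U6.mem_nhds hU] with y hy hyb using h1 y hyb hy)
      (w := (z.2 ⨯₃ z.1, 0)) (by
        rw [FT0.rho_fderiv, Prod.mk_eq_zero]
        refine ⟨?_, ?_⟩
        · show (z.2 ⨯₃ z.1) ⬝ᵥ z.2 + z.1 ⬝ᵥ (0 : R3) = 0
          rw [dotProduct_comm, dot_self_cross, dotProduct_zero, add_zero]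
        · show 2 * (z.1 ⬝ᵥ (z.2 ⨯₃ z.1) + z.2 ⬝ᵥ (0 : R3)) = 0
          rw [dot_cross_self, dotProduct_zero, add_zero, mul_zero])
    rw [e]
    exact factD_B hQ hz hU (by rw [← h1 z hz hU]; exact k1) (by rw [← h2 z hz hU]; exact k2)

theorem gF_sm {ι σ : Type*} [Fintype ι] [Fintype σ] {J : ℕ} {s : ι → R6 → ℝ}
    {pl : σ → R6 → ℝ} {U : Set R6} (hs : ∀ i, ContDiffOn ℝ ∞ (s i) U)
    (hpl : ∀ l, ContDiffOn ℝ ∞ (pl l) U) (γ : ι × σ → Fin J → ℝ) :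
    ContDiffOn ℝ ∞ (fun z => gF s pl γ z) U := by
  unfold gF
  exact ContDiffOn.sum fun a _ => ContDiffOn.sum fun k _ =>
    contDiffOn_const.mul ((hpl a.2).mul ((hs a.1).pow _))

/-- genericity at wall B, with the original index type -/
theorem ftB_ix {v : R9 → ℝ} (hv : PhiM v) {S : Matrix (Fin 3) (Fin 3) ℝ} {ν : R3}
    (hQ : Q0c S ν) (h1 : ∀ z ∈ base, z ∈ U6 → alM v (uB z) (b1B z) = a1B S z)
    (h2 : ∀ z ∈ base, z ∈ U6 → alM v (uB z) (b2B z) = a2B S ν z) {d : ℝ} (hd : 0 < d)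
    {ε : ℝ} (hε : 0 < ε) :
    ∃ θ : KB → ℝ, ‖θ‖ < ε ∧ FT123 (Real.sqrt 2) (NB d) 7
      (fun z => v (uB z) + ∑ a, θ a * psB d a (uB z))
      (fun z => alM (fun u => v u + ∑ a, θ a * psB d a u) (uB z) (b1B z))
      (fun z => alM (fun u => v u + ∑ a, θ a * psB d a u) (uB z) (b2B z))
      (omB (fun u => v u + ∑ a, θ a * psB d a u)) := by
  have hV := comp_uB_smooth hv.smooth
  have ha1 := al1B_smooth hv.smooth
  have ha2 := al2B_smooth hv.smooth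
  have hom := omB_smooth hv.smooth
  have hkk : ContDiffOn ℝ ∞ (fun z : R6 => -n3 z.2) U6 := cn2.neg
  obtain ⟨τ, γ, hτ, hγ, hF⟩ := FT0.ft123_main (N := NB d) (κ := Real.sqrt 2) (J := 7)
    (V₀ := fun z => v (uB z)) (α₁ := fun z => alM v (uB z) (b1B z))
    (α₂ := fun z => alM v (uB z) (b2B z)) (kk := fun z => -n3 z.2) (om := fun _ => omB v)
    (e := eB) (pl := pB) (NB_compact d) (NB_base d) (NB_U6 hd) (by positivity) hV eB_smooth
    pB_smooth ha1 ha2 (hom.comp contDiff_fst.contDiffOn fun _ hz => hz.1) hkk (by norm_num)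
    ⟨Sum.inr 0⟩ (fun z hz w _ hw => eB_sep (NB_U6 hd hz) hw)
    (fun z hz k1 k2 => factD_tan hv hQ h1 h2 hz.1 (NB_U6 hd hz) k1 k2)
    (fun z hz => neg_ne_zero.2 (EB.n3_pos (NB_U6 hd hz).2).ne')
    (fun z hz => by
      by_contra hcon
      push Not at hcon
      exact (NB_U6 hd hz).1 (funext fun i => hcon i)) hε
  have hW := fam_smooth (thB τ γ) hv (psB_WM hd)
  refine ⟨thB τ γ, ?_, ?_⟩
  · rw [pi_norm_lt_iff hε]
    rintro (a | a)
    · exact ((norm_le_pi_norm (τ a.1) a.2).trans (norm_le_pi_norm τ a.1)).trans_lt hτ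
    · exact ((norm_le_pi_norm (γ a.1) a.2).trans (norm_le_pi_norm γ a.1)).trans_lt hγ
  · have hOU : OB d ⊆ U6 := fun _ hz => hz.1
    have hg := gF_sm (U := U6) sB_smooth pB_smooth γ
    refine FT0.ft123_congr (OB_open d) (NB_OB hd) (NB_base d)
      ((pert_smooth' hV (sumF_smooth eB_smooth) τ).mono hOU) (ha1.mono hOU) (ha2.mono hOU)
      ((hom.add (hkk.mul hg)).mono hOU) ((comp_uB_smooth hW).mono hOU)
      ((al1B_smooth hW).mono hOU) ((al2B_smooth hW).mono hOU) ((omB_smooth hW).mono hOU)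
      ?_ ?_ ?_ ?_ hF
    · intro z hz hb
      exact (w_uB hd τ γ hb hz.1 hz.2.1.le hz.2.2.le).symm
    · intro z hz hb
      exact (fam_al (thB τ γ) hv (psB_WM hd) (Flg_b1B hb hz.1)).symm
    · intro z hz hb
      exact (fam_al (thB τ γ) hv (psB_WM hd) (Flg_b2B hb hz.1)).symm
    · intro z hz hb
      exact (w_omB hv hd τ γ hb hz.1 hz.2.1.le hz.2.2.le).symm

/-- **genericity at wall B** -/
theorem ftB_core {v : R9 → ℝ} (hv : PhiM v) {S : Matrix (Fin 3) (Fin 3) ℝ} {ν : R3}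
    (hQ : Q0c S ν) (h1 : ∀ z ∈ base, z ∈ U6 → alM v (uB z) (b1B z) = a1B S z)
    (h2 : ∀ z ∈ base, z ∈ U6 → alM v (uB z) (b2B z) = a2B S ν z) {d : ℝ} (hd : 0 < d)
    (hd1 : d < 1) :
    ∃ (n : ℕ) (ψ : Fin n → R9 → ℝ), (∀ i, WM (ψ i)) ∧
      (∀ i u, u ≠ 0 → cM u * (-1) ≤ 0 → ψ i =ᶠ[𝓝 u] 0) ∧
      ∀ ε > 0, ∃ τ : Fin n → ℝ, ‖τ‖ < ε ∧ FT123 (Real.sqrt 2) (NB d) 7
        (fun z => v (uB z) + ∑ i, τ i * ψ i (uB z))
        (fun z => alM (fun u => v u + ∑ i, τ i * ψ i u) (uB z) (b1B z))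
        (fun z => alM (fun u => v u + ∑ i, τ i * ψ i u) (uB z) (b2B z))
        (omB (fun u => v u + ∑ i, τ i * ψ i u)) := by
  have e := (Fintype.equivFin KB).symm
  refine ⟨Fintype.card KB, fun i => psB d (e i), fun i => psB_WM hd _, fun i u hu hc => ?_,
    fun ε hε => ?_⟩
  · exact psB_off hd hd1 _ hu (by linarith)
  · obtain ⟨θ, hθ, hF⟩ := ftB_ix hv hQ h1 h2 hd hε
    refine ⟨fun i => θ (e i), ?_, ?_⟩
    · rw [pi_norm_lt_iff hε]
      exact fun i => (norm_le_pi_norm θ (e i)).trans_lt hθ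
    · have key : ∀ u : R9, ∑ i, θ (e i) * psB d (e i) u = ∑ a, θ a * psB d a u := fun u =>
        Equiv.sum_comp e fun a => θ a * psB d a u
      simp only [key]
      exact hF

end Pool.Agent.FL.S2.FTB
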