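import Pool.Agent.FL.S2Core
import Pool.Agent.FL.FTdefs

/-!
# MP_f09395_gt, space (2), FT-B part 0: Fact D at wall B, the separating family at wall B

Closed forms of `α(u_B, b₁)`, `α(u_B, b₂)`, nondegeneracy of the first one where both vanish, and
the family `p_i p_j / 2`, `-|q|² q_i q_j / 4` (the functions `a_i a_j`, `BB_ij` on wall B).
-/

set_option linter.unusedSectionVars false

noncomputable section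

namespace Pool.Agent.FL.S2.EB

open scoped ContDiff Matrix
open Matrix
open Filter Topology

/-- condition (Q0): no zero of `ν` at the umbilic directions of `S` -/
def Q0c (S : Matrix (Fin 3) (Fin 3) ℝ) (ν : R3) : Prop :=
  ∀ p q : R3, p ≠ 0 → q ≠ 0 → p ⬝ᵥ q = 0 → p ⬝ᵥ S *ᵥ (q ⨯₃ p) = 0 →
    (q ⨯₃ p) ⬝ᵥ S *ᵥ (q ⨯₃ p) = (q ⬝ᵥ q) * (p ⬝ᵥ S *ᵥ p) → ν ⬝ᵥ q ≠ 0

/-- closed form of `α(u_B, b₁)` -/
def a1B (S : Matrix (Fin 3) (Fin 3) ℝ) (z : R6) : ℝ :=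
  (z.1 ⬝ᵥ S *ᵥ (z.2 ⨯₃ z.1)) / (z.1 ⬝ᵥ z.1)

/-- closed form of `α(u_B, b₂)` -/
def a2B (S : Matrix (Fin 3) (Fin 3) ℝ) (ν : R3) (z : R6) : ℝ :=
  (-((z.2 ⬝ᵥ z.2) * (z.1 ⬝ᵥ S *ᵥ z.1) - (z.2 ⨯₃ z.1) ⬝ᵥ S *ᵥ (z.2 ⨯₃ z.1)) / 2
    + (z.1 ⬝ᵥ z.1) ^ 2 * (ν ⬝ᵥ z.2) / 2) / ((z.1 ⬝ᵥ z.1) * n3 z.2)

/-! ### smoothness of vector expressions -/

theorem dot_pos {p : R3} (hp : p ≠ 0) : 0 < p ⬝ᵥ p := by
  have h0 : 0 ≤ p ⬝ᵥ p := by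
    simp only [dotProduct, Fin.sum_univ_three]
    nlinarith [mul_self_nonneg (p 0), mul_self_nonneg (p 1), mul_self_nonneg (p 2)]
  refine lt_of_le_of_ne h0 fun h => hp ?_
  exact dotProduct_self_eq_zero.1 h.symm

theorem n3_pos {p : R3} (hp : p ≠ 0) : 0 < n3 p := Real.sqrt_pos.2 (dot_pos hp)

theorem n3_sq (p : R3) : n3 p ^ 2 = p ⬝ᵥ p := by
  unfold n3
  refine Real.sq_sqrt ?_
  simp only [dotProduct, Fin.sum_univ_three]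
  nlinarith [mul_self_nonneg (p 0), mul_self_nonneg (p 1), mul_self_nonneg (p 2)]

theorem isOpen_U6 : IsOpen U6 :=
  (isOpen_compl_singleton.preimage continuous_fst).inter
    (isOpen_compl_singleton.preimage continuous_snd)

variable {E : Type*} [NormedAddCommGroup E] [NormedSpace ℝ E] {s : Set E}

theorem cd_comp3 {f : E → R3} (hf : ContDiffOn ℝ ∞ f s) (i : Fin 3) :
    ContDiffOn ℝ ∞ (fun z => f z i) s := (contDiffOn_pi.1 hf) i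

theorem cd_dot {f g : E → R3} (hf : ContDiffOn ℝ ∞ f s) (hg : ContDiffOn ℝ ∞ g s) :
    ContDiffOn ℝ ∞ (fun z => f z ⬝ᵥ g z) s := by
  simp only [dotProduct]
  exact ContDiffOn.sum fun i _ => (cd_comp3 hf i).mul (cd_comp3 hg i)

theorem cd_cross {f g : E → R3} (hf : ContDiffOn ℝ ∞ f s) (hg : ContDiffOn ℝ ∞ g s) :
    ContDiffOn ℝ ∞ (fun z => f z ⨯₃ g z) s := by
  refine contDiffOn_pi.2 fun i => ?_
  simp only [cross_apply]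
  fin_cases i
  · exact ((cd_comp3 hf 1).mul (cd_comp3 hg 2)).sub ((cd_comp3 hf 2).mul (cd_comp3 hg 1))
  · exact ((cd_comp3 hf 2).mul (cd_comp3 hg 0)).sub ((cd_comp3 hf 0).mul (cd_comp3 hg 2))
  · exact ((cd_comp3 hf 0).mul (cd_comp3 hg 1)).sub ((cd_comp3 hf 1).mul (cd_comp3 hg 0))

theorem cd_mulVec (S : Matrix (Fin 3) (Fin 3) ℝ) {f : E → R3} (hf : ContDiffOn ℝ ∞ f s) :
    ContDiffOn ℝ ∞ (fun z => S *ᵥ f z) s := by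
  refine contDiffOn_pi.2 fun i => ?_
  simp only [mulVec]
  exact cd_dot contDiffOn_const hf

theorem cd_n3 {f : E → R3} (hf : ContDiffOn ℝ ∞ f s) (h0 : ∀ z ∈ s, f z ≠ 0) :
    ContDiffOn ℝ ∞ (fun z => n3 (f z)) s :=
  (cd_dot hf hf).sqrt fun z hz => (dot_pos (h0 z hz)).ne'

theorem cd_z1 : ContDiffOn ℝ ∞ (fun z : R6 => z.1) U6 := contDiff_fst.contDiffOn

theorem cd_z2 : ContDiffOn ℝ ∞ (fun z : R6 => z.2) U6 := contDiff_snd.contDiffOn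

theorem a1B_smooth (S : Matrix (Fin 3) (Fin 3) ℝ) : ContDiffOn ℝ ∞ (a1B S) U6 :=
  (cd_dot cd_z1 (cd_mulVec S (cd_cross cd_z2 cd_z1))).div (cd_dot cd_z1 cd_z1)
    fun _ hz => (dot_pos hz.1).ne'

theorem a2B_smooth (S : Matrix (Fin 3) (Fin 3) ℝ) (ν : R3) : ContDiffOn ℝ ∞ (a2B S ν) U6 := by
  refine ContDiffOn.div (ContDiffOn.add (ContDiffOn.div_const (ContDiffOn.neg
    (((cd_dot cd_z2 cd_z2).mul (cd_dot cd_z1 (cd_mulVec S cd_z1))).sub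
    (cd_dot (cd_cross cd_z2 cd_z1) (cd_mulVec S (cd_cross cd_z2 cd_z1))))) 2)
    (ContDiffOn.div_const (((cd_dot cd_z1 cd_z1).pow 2).mul (cd_dot contDiffOn_const cd_z2)) 2))
    ((cd_dot cd_z1 cd_z1).mul (cd_n3 cd_z2 fun z hz => hz.2)) fun z hz => ?_
  exact mul_ne_zero (dot_pos hz.1).ne' (n3_pos hz.2).ne'

/-! ### Fact D -/

theorem a1B_deriv (S : Matrix (Fin 3) (Fin 3) ℝ) {z : R6} (hz : z.1 ⬝ᵥ z.2 = 0) (hU : z ∈ U6) :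
    fderiv ℝ (a1B S) z (z.2 ⨯₃ z.1, 0) =
      ((z.2 ⨯₃ z.1) ⬝ᵥ S *ᵥ (z.2 ⨯₃ z.1) - (z.2 ⬝ᵥ z.2) * (z.1 ⬝ᵥ S *ᵥ z.1)) / (z.1 ⬝ᵥ z.1) := by
  obtain ⟨p, q⟩ := z
  simp only at hz ⊢
  have hp : p ≠ 0 := hU.1
  obtain ⟨c, hc⟩ : ∃ c : R3, c = q ⨯₃ p := ⟨_, rfl⟩
  have hqc : q ⨯₃ c = -((q ⬝ᵥ q) • p) := by
    rw [hc, cross_cross_eq_smul_sub_smul']
    rw [dotProduct_comm q p, hz]
    simp
  have hpc : p ⬝ᵥ c = 0 := by rw [hc]; exact dot_cross_self q p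
  have hd : DifferentiableAt ℝ (a1B S) (p, q) :=
    ((a1B_smooth S).contDiffAt (isOpen_U6.mem_nhds hU)).differentiableAt (by simp)
  have h1 : HasDerivAt (fun t : ℝ => ((p, q) : R6) + t • ((c, 0) : R6)) (c, 0) 0 := by
    simpa using ((hasDerivAt_id (0 : ℝ)).smul_const ((c, 0) : R6)).const_add ((p, q) : R6)
  have h2 : HasFDerivAt (a1B S) (fderiv ℝ (a1B S) (p, q)) (((p, q) : R6) + (0 : ℝ) • ((c, 0) : R6)) := by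
    rw [zero_smul, add_zero]; exact hd.hasFDerivAt
  have h3 := h2.comp_hasDerivAt (0 : ℝ) h1
  have h4 : (a1B S ∘ fun t : ℝ => ((p, q) : R6) + t • ((c, 0) : R6)) = fun t : ℝ =>
      (p ⬝ᵥ S *ᵥ c + t * (c ⬝ᵥ S *ᵥ c - (q ⬝ᵥ q) * (p ⬝ᵥ S *ᵥ p)) -
        t ^ 2 * ((q ⬝ᵥ q) * (c ⬝ᵥ S *ᵥ p))) / (p ⬝ᵥ p + t ^ 2 * (c ⬝ᵥ c)) := by
    funext t
    have e1 : (((p, q) : R6) + t • ((c, 0) : R6)) = (p + t • c, q) := by simp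
    show a1B S (((p, q) : R6) + t • ((c, 0) : R6)) = _
    rw [e1]
    unfold a1B
    simp only
    have e2 : q ⨯₃ (p + t • c) = c - (t * (q ⬝ᵥ q)) • p := by
      rw [map_add, map_smul, hqc, ← hc, smul_neg, smul_smul, sub_eq_add_neg]
    rw [e2]
    simp only [mulVec_sub, mulVec_smul, dotProduct_sub, dotProduct_smul, add_dotProduct,
      smul_dotProduct, smul_eq_mul, dotProduct_add]
    rw [dotProduct_comm c p, hpc]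
    congr 1
    · ring
    · ring
  have h5 : HasDerivAt (fun t : ℝ => (p ⬝ᵥ S *ᵥ c + t * (c ⬝ᵥ S *ᵥ c - (q ⬝ᵥ q) * (p ⬝ᵥ S *ᵥ p)) -
        t ^ 2 * ((q ⬝ᵥ q) * (c ⬝ᵥ S *ᵥ p))) / (p ⬝ᵥ p + t ^ 2 * (c ⬝ᵥ c)))
      ((c ⬝ᵥ S *ᵥ c - (q ⬝ᵥ q) * (p ⬝ᵥ S *ᵥ p)) / (p ⬝ᵥ p)) 0 := by
    have hne : p ⬝ᵥ p ≠ 0 := (dot_pos hp).ne'
    have n1 : HasDerivAt (fun t : ℝ => p ⬝ᵥ S *ᵥ c + t * (c ⬝ᵥ S *ᵥ c - (q ⬝ᵥ q) *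
        (p ⬝ᵥ S *ᵥ p)) - t ^ 2 * ((q ⬝ᵥ q) * (c ⬝ᵥ S *ᵥ p)))
        (c ⬝ᵥ S *ᵥ c - (q ⬝ᵥ q) * (p ⬝ᵥ S *ᵥ p)) 0 := by
      have m1 := ((hasDerivAt_id (0 : ℝ)).mul_const (c ⬝ᵥ S *ᵥ c - (q ⬝ᵥ q) *
        (p ⬝ᵥ S *ᵥ p))).const_add (p ⬝ᵥ S *ᵥ c)
      have m2 := ((hasDerivAt_id (0 : ℝ)).pow 2).mul_const ((q ⬝ᵥ q) * (c ⬝ᵥ S *ᵥ p))
      exact (m1.sub m2).congr_deriv (by simp)
    have n2 : HasDerivAt (fun t : ℝ => p ⬝ᵥ p + t ^ 2 * (c ⬝ᵥ c)) 0 0 := by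
      have m2 := (((hasDerivAt_id (0 : ℝ)).pow 2).mul_const (c ⬝ᵥ c)).const_add (p ⬝ᵥ p)
      simpa using m2
    refine (n1.div n2 (by simpa using hne)).congr_deriv ?_
    simp
    field_simp
  rw [h4] at h3
  have h6 := h3.unique h5
  rw [← hc]
  exact h6

/-- **Fact D at wall B** -/
theorem factD_B {S : Matrix (Fin 3) (Fin 3) ℝ} {ν : R3} (h0 : Q0c S ν) {z : R6} (hz : z ∈ base)
    (hU : z ∈ U6) (h1 : a1B S z = 0) (h2 : a2B S ν z = 0) :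
    fderiv ℝ (a1B S) z (z.2 ⨯₃ z.1, 0) ≠ 0 := by
  have hp := dot_pos hU.1
  have hq := n3_pos hU.2
  rw [a1B_deriv S hz.1 hU]
  intro h3
  have k1 : z.1 ⬝ᵥ S *ᵥ (z.2 ⨯₃ z.1) = 0 := by
    rcases div_eq_zero_iff.1 h1 with h | h
    · exact h
    · exact absurd h hp.ne'
  have k3 : (z.2 ⨯₃ z.1) ⬝ᵥ S *ᵥ (z.2 ⨯₃ z.1) - (z.2 ⬝ᵥ z.2) * (z.1 ⬝ᵥ S *ᵥ z.1) = 0 := by
    rcases div_eq_zero_iff.1 h3 with h | h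
    · exact h
    · exact absurd h hp.ne'
  have k2 : -((z.2 ⬝ᵥ z.2) * (z.1 ⬝ᵥ S *ᵥ z.1) - (z.2 ⨯₃ z.1) ⬝ᵥ S *ᵥ (z.2 ⨯₃ z.1)) / 2
    + (z.1 ⬝ᵥ z.1) ^ 2 * (ν ⬝ᵥ z.2) / 2 = 0 := by
    rcases div_eq_zero_iff.1 h2 with h | h
    · exact h
    · exact absurd h (mul_ne_zero hp.ne' hq.ne')
  have k4 := h0 z.1 z.2 hU.1 hU.2 hz.1 k1 (by linarith)
  have k5 : (z.1 ⬝ᵥ z.1) ^ 2 * (ν ⬝ᵥ z.2) = 0 := by linarith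
  rcases mul_eq_zero.1 k5 with h | h
  · exact hp.ne' (pow_eq_zero_iff two_ne_zero |>.1 h)
  · exact k4 h

end Pool.Agent.FL.S2.EB
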