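import Pool.Agent.FL.S1Core

/-!
# MP_f09395_gt, space (1): the isotropy action in coordinates and the equilibria of `Re (C P)` on
the odd part (X2)
-/

set_option linter.unusedSectionVars false

noncomputable section

namespace Pool.Agent.FL.S1

open scoped ContDiff Quaternion Matrix ComplexConjugate
open Pool.Agent.Helper93.Fin Pool.Agent.helper79.FP Pool.Agent.helper79.FR
open Pool.Agent.helper79.FR.Sp2 (Mat QQ h0 m gg hh PP BB cc)

attribute [local instance] Matrix.linftyOpNormedRing Matrix.linftyOpNormedAlgebra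

/-! ### the isotropy action -/

namespace Act

/-- the action of `diag(z, z³)` -/
def rz (z : ℂ) (u : V) : V :=
  mkV (c0 u) (z ^ 2 * cP u) (z ^ 6 * cR u) (conj z ^ 2 * cC u) (z ^ 4 * cQ u)

theorem dg_00 (z : ℂ) : Sp2.dg 1 3 z 0 0 = qt z.re z.im 0 0 := by
  rw [Sp2.dg, Matrix.diagonal_apply_eq]
  ext <;> simp

theorem dg_11 (z : ℂ) : Sp2.dg 1 3 z 1 1 = qt (z ^ 3).re (z ^ 3).im 0 0 := by
  rw [Sp2.dg, Matrix.diagonal_apply_eq]
  ext <;> simp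

theorem dg_01 (z : ℂ) : Sp2.dg 1 3 z 0 1 = 0 := Sp2.dg_apply_ne z (by decide)

theorem dg_10 (z : ℂ) : Sp2.dg 1 3 z 1 0 = 0 := Sp2.dg_apply_ne z (by decide)

theorem normSq_one {z : ℂ} (hz : ‖z‖ = 1) : z.re * z.re + z.im * z.im = 1 := by
  have h1 := Complex.sq_norm z
  rw [hz, Complex.normSq_apply] at h1
  linarith

theorem Adj_dg {k : Matˣ} {z : ℂ} (hz : ‖z‖ = 1) (hk : (k : Mat) = Sp2.dg 1 3 z) (u : V) :
    Adj k (u : Mat) = (rz z u : Mat) := by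
  have hH : k ∈ Sp2.H 1 3 := ⟨z, hz, hk⟩
  have hn := normSq_one hz
  obtain ⟨x, y⟩ := z
  simp only at hn
  show (k : Mat) * (u : Mat) * ((k⁻¹ : Matˣ) : Mat) = _
  rw [Sp2.inv_of_mem_H hH, hk]
  conv_lhs => rw [coords u]
  rw [mkV_coe, rz, mkV_coe]
  ext i j : 1
  fin_cases i <;> fin_cases j <;> ext <;>
    simp [mkMat, Matrix.mul_apply, Fin.sum_univ_two, dg_00, dg_01, dg_10, dg_11, pow_succ,
      Quaternion.re_mul, Quaternion.imI_mul, Quaternion.imJ_mul, Quaternion.imK_mul]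
  · ring
  · linear_combination (-3 * c0 u) * hn
  · ring
  · ring
  · linear_combination ((x * x - y * y) * (cC u).re + 2 * x * y * (cC u).im) * hn
  · linear_combination ((x * x - y * y) * (cC u).im - 2 * x * y * (cC u).re) * hn
  · ring
  · ring
  · linear_combination (-((x * x - y * y) * (cC u).re + 2 * x * y * (cC u).im)) * hn
  · linear_combination ((x * x - y * y) * (cC u).im - 2 * x * y * (cC u).re) * hn
  · ring
  · ring
  · ring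
  · linear_combination (c0 u * ((x * x + y * y) ^ 2 + (x * x + y * y) + 1)) * hn
  · ring
  · ring

theorem dg_mul_inv {z : ℂ} (hz : z ≠ 0) : Sp2.dg 1 3 z * Sp2.dg 1 3 z⁻¹ = 1 := by
  have hzz : ∀ n : ℕ, ((z ^ n : ℂ) : ℍ[ℝ]) * ((z⁻¹ ^ n : ℂ) : ℍ[ℝ]) = 1 := by
    intro n
    rw [← Quaternion.coeComplex_mul, ← mul_pow, mul_inv_cancel₀ hz, one_pow,
      Quaternion.coeComplex_one]
  rw [Sp2.dg, Sp2.dg, Matrix.diagonal_mul_diagonal, ← Matrix.diagonal_one]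
  congr 1
  funext i
  fin_cases i
  · exact hzz 1
  · exact hzz 3

/-- every unit complex number gives an element of the isotropy group -/
theorem exists_k {z : ℂ} (hz : ‖z‖ = 1) :
    ∃ k : Matˣ, k ∈ Sp2.H 1 3 ∧ ∀ u : V, Adj k (u : Mat) = (rz z u : Mat) := by
  have hz0 : z ≠ 0 := by
    intro h0
    rw [h0, norm_zero] at hz
    exact zero_ne_one hz
  have h2 : Sp2.dg 1 3 z⁻¹ * Sp2.dg 1 3 z = 1 := by
    have h := dg_mul_inv (inv_ne_zero hz0)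
    rwa [inv_inv] at h
  let k : Matˣ := ⟨Sp2.dg 1 3 z, Sp2.dg 1 3 z⁻¹, dg_mul_inv hz0, h2⟩
  exact ⟨k, ⟨z, hz, rfl⟩, fun u => Adj_dg hz (k := k) rfl u⟩

/-- every element of the isotropy group acts by `rz` -/
theorem Adj_coords {k : Matˣ} (hk : k ∈ Sp2.H 1 3) :
    ∃ z : ℂ, ‖z‖ = 1 ∧ ∀ u : V, Adj k (u : Mat) = (rz z u : Mat) := by
  obtain ⟨z, hz, h⟩ := hk
  exact ⟨z, hz, fun u => Adj_dg hz h u⟩

/-- invariant functions in coordinates -/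
theorem invH_iff {f : V → ℝ} : InvH (Sp2.H 1 3) f ↔ ∀ z : ℂ, ‖z‖ = 1 → ∀ u : V, f (rz z u) = f u := by
  constructor
  · intro h z hz u
    obtain ⟨k, hk, hk'⟩ := exists_k hz
    exact h k hk u (rz z u) (hk' u).symm
  · intro h k hk u v huv
    obtain ⟨z, hz, hz'⟩ := Adj_coords hk
    rw [hz' u] at huv
    rw [show v = rz z u from Subtype.ext huv, h z hz]

theorem c0_rz (z : ℂ) (u : V) : c0 (rz z u) = c0 u := rfl
theorem cP_rz (z : ℂ) (u : V) : cP (rz z u) = z ^ 2 * cP u := rfl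
theorem cR_rz (z : ℂ) (u : V) : cR (rz z u) = z ^ 6 * cR u := rfl
theorem cC_rz (z : ℂ) (u : V) : cC (rz z u) = conj z ^ 2 * cC u := rfl
theorem cQ_rz (z : ℂ) (u : V) : cQ (rz z u) = z ^ 4 * cQ u := rfl

end Act

/-! ### the invariants on the odd part -/

theorem rip_self (z : ℂ) : rip z z = Complex.normSq z := (Complex.normSq_apply z).symm

theorem N_odd {u : V} (h0 : c0 u = 0) (hQ : cQ u = 0) : QQ (u : Mat) u =
    Complex.normSq (cP u) + Complex.normSq (cR u) + 2 * Complex.normSq (cC u) := by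
  rw [QQ_coords, h0, hQ, rip_self, rip_self, rip_self]
  simp [rip]

theorem s4_odd {u : V} (h0 : c0 u = 0) (hQ : cQ u = 0) : Sp2.s4 (u : Mat) =
    (Complex.normSq (cP u) + Complex.normSq (cC u)) ^ 2
      + (Complex.normSq (cC u) + Complex.normSq (cR u)) ^ 2
      + 2 * Complex.normSq (cP u * conj (cC u) + cC u * cR u) := by
  have h1 : (u : Mat) = mkMat 0 (cP u) (cR u) (cC u) 0 := by
    conv_lhs => rw [coords u, h0, hQ]
    rfl
  rw [Sp2.s4, h1, Sp2.retr_apply, show (4 : ℕ) = 2 + 2 from rfl, pow_add, sq]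
  obtain ⟨a, b⟩ := cP u
  obtain ⟨c, d⟩ := cR u
  obtain ⟨e, f⟩ := cC u
  simp [mkMat, Matrix.mul_apply, Fin.sum_univ_two, Quaternion.re_mul, Quaternion.imI_mul,
    Quaternion.imJ_mul, Quaternion.imK_mul, Complex.normSq_apply]
  ring

/-! ### equilibria -/

/-- the gradient of `Re (C P)` -/
def g1 (u : V) : V := mkV 0 (conj (cC u)) 0 (conj (cP u) / 2) 0

/-- the equilibrium equations on the odd part -/
theorem equil_iff {u : V} (h0 : c0 u = 0) (hQ : cQ u = 0) : br u (g1 u) = 0 ↔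
    (cC u * cP u).im = 0 ∧ cP u ^ 2 - 2 * conj (cC u) ^ 2 = conj (cP u) * cR u := by
  have eP : cP (br u (g1 u)) = 0 := by rw [br_P, h0, hQ]; simp [g1]
  have eR : cR (br u (g1 u)) = 0 := by rw [br_R, h0, hQ]; simp [g1]
  have eC : cC (br u (g1 u)) = 0 := by rw [br_C, h0, hQ]; simp [g1]
  have eQ : cQ (br u (g1 u)) =
      (cP u ^ 2 - 2 * conj (cC u) ^ 2 - conj (cP u) * cR u) / 2 := by
    have h2 : (starRingEnd ℂ) 2 = 2 := Complex.conj_ofNat 2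
    rw [br_Q, h0, hQ]
    simp [g1, h2]
    ring
  have e0 : c0 (br u (g1 u)) = (cC u * cP u).im := by
    rw [br_0, hQ]
    simp [g1, imp]
    ring
  constructor
  · intro h
    rw [h] at eQ e0
    simp only [map_zero] at eQ e0
    refine ⟨e0.symm, ?_⟩
    have h1 : cP u ^ 2 - 2 * conj (cC u) ^ 2 - conj (cP u) * cR u = 0 := by
      have := eQ.symm
      simpa using this
    linear_combination h1
  · rintro ⟨h1, h2⟩
    refine ext_coords ?_ ?_ ?_ ?_ ?_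
    · rw [e0, h1, map_zero]
    · rw [eP, map_zero]
    · rw [eR, map_zero]
    · rw [eC, map_zero]
    · rw [eQ, map_zero, h2]; simp

/-- the family of equilibria: `t = 1/(2a)` -/
def uT (p t : ℝ) : V := mkV 0 (p : ℂ) (((1 - 2 * t ^ 2) * p : ℝ) : ℂ) ((t * p : ℝ) : ℂ) 0

/-- **equilibria on the odd part**, up to the isotropy group -/
theorem equil_normal {u : V} (h0 : c0 u = 0) (hQ : cQ u = 0) (he : br u (g1 u) = 0) :
    (cP u = 0 ∧ cC u = 0) ∨ ∃ z : ℂ, ‖z‖ = 1 ∧ ∃ p t : ℝ, 0 < p ∧ Act.rz z u = uT p t := by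
  obtain ⟨h1, h2⟩ := (equil_iff h0 hQ).1 he
  by_cases hP : cP u = 0
  · left
    refine ⟨hP, ?_⟩
    rw [hP] at h2
    have h3 : conj (cC u) ^ 2 = 0 := by
      have : -2 * conj (cC u) ^ 2 = 0 := by simpa using h2
      simpa using this
    have h4 : conj (cC u) = 0 := by simpa using h3
    simpa using h4
  right
  have hp : 0 < ‖cP u‖ := norm_pos_iff.2 hP
  have hpc : ((‖cP u‖ : ℝ) : ℂ) ≠ 0 := by exact_mod_cast hp.ne'
  obtain ⟨z, hz⟩ := IsAlgClosed.exists_pow_nat_eq (conj (cP u) / (‖cP u‖ : ℂ))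
    (by norm_num : 0 < 2)
  have hz1 : ‖z‖ = 1 := by
    have h5 : ‖z‖ ^ 2 = 1 := by
      rw [← norm_pow, hz, norm_div, RCLike.norm_conj, Complex.norm_real, norm_norm, div_self hp.ne']
    nlinarith [norm_nonneg z]
  have hPP : conj (cP u) * cP u = (‖cP u‖ : ℂ) ^ 2 := Complex.conj_mul' (cP u)
  have hPP' : cP u * conj (cP u) = (‖cP u‖ : ℂ) ^ 2 := Complex.mul_conj' (cP u)
  have hre : cC u * cP u = ((cC u * cP u).re : ℂ) := by
    apply Complex.ext <;> simp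
    have := h1
    simp at this
    linarith
  have hre' : conj (cC u) * conj (cP u) = ((cC u * cP u).re : ℂ) := by
    rw [← map_mul, hre]; simp
  refine ⟨z, hz1, ‖cP u‖, (cC u * cP u).re / ‖cP u‖ ^ 2, hp, ?_⟩
  have z6 : z ^ 6 = (conj (cP u) / (‖cP u‖ : ℂ)) ^ 3 := by rw [← hz]; ring
  have z2 : conj z ^ 2 = cP u / (‖cP u‖ : ℂ) := by
    rw [← map_pow, hz]; simp
  refine ext_coords ?_ ?_ ?_ ?_ ?_
  · rw [Act.c0_rz, h0]; rfl
  · rw [Act.cP_rz, hz]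
    show _ = ((‖cP u‖ : ℝ) : ℂ)
    field_simp
    linear_combination hPP
  · have key : conj (cP u) ^ 3 * cR u =
        (‖cP u‖ : ℂ) ^ 4 - 2 * ((cC u * cP u).re : ℂ) ^ 2 := by
      linear_combination (-(conj (cP u) ^ 2)) * h2 +
        (conj (cP u) * cP u + (‖cP u‖ : ℂ) ^ 2) * hPP -
        2 * (conj (cC u) * conj (cP u) + ((cC u * cP u).re : ℂ)) * hre'
    rw [Act.cR_rz, z6, div_pow, div_mul_eq_mul_div, key]
    simp only [uT, cR_mk]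
    push_cast
    field_simp
  · rw [Act.cC_rz, z2, div_mul_eq_mul_div, mul_comm (cP u), hre]
    simp only [uT, cC_mk, Complex.ofReal_re]
    push_cast
    field_simp
  · rw [Act.cQ_rz, hQ]; simp [uT]

/-! ### the walls -/

theorem cc_rz {z : ℂ} (hz : ‖z‖ = 1) (u : V) : cc 1 3 (Act.rz z u) = cc 1 3 u := by
  obtain ⟨k, hk, hk'⟩ := Act.exists_k hz
  unfold cc Sp2.s4
  rw [← hk' u, Sp2.Adj_pow, Sp2.retr_Adj, Sp2.QQ_Adj]

theorem uT_N (p t : ℝ) : QQ (uT p t : Mat) (uT p t) = p ^ 2 * (2 - 2 * t ^ 2 + 4 * t ^ 4) := by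
  rw [N_odd rfl rfl]
  simp only [uT, cP_mk, cR_mk, cC_mk, Complex.normSq_ofReal]
  ring

theorem uT_s4 (p t : ℝ) : Sp2.s4 (uT p t : Mat) =
    p ^ 4 * ((1 + t ^ 2) ^ 2 + (t ^ 2 + (1 - 2 * t ^ 2) ^ 2) ^ 2 + 8 * t ^ 2 * (1 - t ^ 2) ^ 2) := by
  rw [s4_odd rfl rfl]
  have h1 : cP (uT p t) * conj (cC (uT p t)) + cC (uT p t) * cR (uT p t) =
      ((2 * t * (1 - t ^ 2) * p ^ 2 : ℝ) : ℂ) := by
    simp only [uT, cP_mk, cR_mk, cC_mk, Complex.conj_ofReal]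
    push_cast
    ring
  rw [h1]
  simp only [uT, cP_mk, cR_mk, cC_mk, Complex.normSq_ofReal]
  ring

theorem uT_NP (t : ℝ) : 0 < 2 - 2 * t ^ 2 + 4 * t ^ 4 := by nlinarith [sq_nonneg (t ^ 2 - 1 / 4)]

theorem cc_uT {p : ℝ} (hp : p ≠ 0) (t : ℝ) : cc 1 3 (uT p t) =
    1 - 8 * (3 * t ^ 2 - 1) ^ 2 / (2 - 2 * t ^ 2 + 4 * t ^ 4) ^ 2 := by
  unfold cc
  rw [uT_s4, uT_N]
  have h1 := (uT_NP t).ne'
  have hS : (1 + t ^ 2) ^ 2 + (t ^ 2 + (1 - 2 * t ^ 2) ^ 2) ^ 2 + 8 * t ^ 2 * (1 - t ^ 2) ^ 2 =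
      (2 - 2 * t ^ 2 + 4 * t ^ 4) ^ 2 - 2 * (3 * t ^ 2 - 1) ^ 2 := by ring
  rw [hS]
  generalize 2 - 2 * t ^ 2 + 4 * t ^ 4 = D at h1
  generalize (3 * t ^ 2 - 1) ^ 2 = E
  field_simp
  ring

theorem cc_uT' {p : ℝ} (hp : p ≠ 0) (t : ℝ) : cc 1 3 (uT p t) =
    -1 + 32 * t ^ 2 * (1 - t ^ 2) ^ 2 * (1 + t ^ 2) / (2 - 2 * t ^ 2 + 4 * t ^ 4) ^ 2 := by
  unfold cc
  rw [uT_s4, uT_N]
  have h1 := (uT_NP t).ne'
  have hS : (1 + t ^ 2) ^ 2 + (t ^ 2 + (1 - 2 * t ^ 2) ^ 2) ^ 2 + 8 * t ^ 2 * (1 - t ^ 2) ^ 2 =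
      (2 - 2 * t ^ 2 + 4 * t ^ 4) ^ 2 / 2 + 8 * (t ^ 2 * (1 - t ^ 2) ^ 2 * (1 + t ^ 2)) := by ring
  have hE : 32 * t ^ 2 * (1 - t ^ 2) ^ 2 * (1 + t ^ 2) =
      32 * (t ^ 2 * (1 - t ^ 2) ^ 2 * (1 + t ^ 2)) := by ring
  rw [hS, hE]
  generalize 2 - 2 * t ^ 2 + 4 * t ^ 4 = D at h1
  generalize t ^ 2 * (1 - t ^ 2) ^ 2 * (1 + t ^ 2) = E
  field_simp
  ring

theorem cc_uT_one {p : ℝ} (hp : p ≠ 0) {t : ℝ} (h : cc 1 3 (uT p t) = 1) : 3 * t ^ 2 = 1 := by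
  rw [cc_uT hp] at h
  have h1 : 8 * (3 * t ^ 2 - 1) ^ 2 / (2 - 2 * t ^ 2 + 4 * t ^ 4) ^ 2 = 0 := by linarith
  rw [div_eq_zero_iff] at h1
  have h2 : (3 * t ^ 2 - 1) ^ 2 = 0 := by
    rcases h1 with h1 | h1
    · linarith
    · exact absurd h1 (pow_ne_zero 2 (uT_NP t).ne')
  nlinarith [pow_eq_zero_iff (two_ne_zero) |>.1 h2]

theorem cc_uT_neg_one {p : ℝ} (hp : p ≠ 0) {t : ℝ} (h : cc 1 3 (uT p t) = -1) :
    t = 0 ∨ t = 1 ∨ t = -1 := by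
  rw [cc_uT' hp] at h
  have h1 : 32 * t ^ 2 * (1 - t ^ 2) ^ 2 * (1 + t ^ 2) / (2 - 2 * t ^ 2 + 4 * t ^ 4) ^ 2 = 0 := by
    linarith
  rw [div_eq_zero_iff] at h1
  rcases h1 with h1 | h1
  · have h2 : t * (1 - t ^ 2) = 0 := by
      have h3 : (t * (1 - t ^ 2)) ^ 2 * (1 + t ^ 2) = 0 := by nlinarith
      rcases mul_eq_zero.1 h3 with h4 | h4
      · simpa using h4
      · nlinarith [sq_nonneg t]
    rcases mul_eq_zero.1 h2 with h3 | h3
    · exact Or.inl h3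
    · have h4 : (t - 1) * (t + 1) = 0 := by linarith
      rcases mul_eq_zero.1 h4 with h5 | h5
      · exact Or.inr (Or.inl (by linarith))
      · exact Or.inr (Or.inr (by linarith))
  · exact absurd h1 (pow_ne_zero 2 (uT_NP t).ne')

/-- the pure `R` vectors lie on the wall `c = 1` -/
theorem cc_R {u : V} (h0 : c0 u = 0) (hQ : cQ u = 0) (hP : cP u = 0) (hC : cC u = 0)
    (hu : u ≠ 0) : cc 1 3 u = 1 := by
  have hR : cR u ≠ 0 := by
    intro hR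
    exact hu (ext_coords (by rw [h0, map_zero]) (by rw [hP, map_zero]) (by rw [hR, map_zero])
      (by rw [hC, map_zero]) (by rw [hQ, map_zero]))
  have h1 : Complex.normSq (cR u) ≠ 0 := by simpa using hR
  unfold cc
  rw [s4_odd h0 hQ, N_odd h0 hQ, hP, hC]
  simp
  field_simp
  norm_num

/-- **(X2)** the equilibria of `Re (C P)` on the odd part which lie on a wall -/
theorem equil_wall {u : V} (h0 : c0 u = 0) (hQ : cQ u = 0) (hu : u ≠ 0)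
    (he : br u (g1 u) = 0) (hw : cc 1 3 u = 1 ∨ cc 1 3 u = -1) :
    (cc 1 3 u = 1 ∧ cP u = 0 ∧ cC u = 0) ∨
    (cc 1 3 u = 1 ∧ ∃ z : ℂ, ‖z‖ = 1 ∧ ∃ p t : ℝ, 0 < p ∧ 3 * t ^ 2 = 1 ∧ Act.rz z u = uT p t) ∨
    (cc 1 3 u = -1 ∧ ∃ z : ℂ, ‖z‖ = 1 ∧ ∃ p t : ℝ, 0 < p ∧ (t = 0 ∨ t = 1 ∨ t = -1) ∧
      Act.rz z u = uT p t) := by
  rcases equil_normal h0 hQ he with ⟨hP, hC⟩ | ⟨z, hz, p, t, hp, h⟩
  · exact Or.inl ⟨cc_R h0 hQ hP hC hu, hP, hC⟩
  · right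
    have h1 := cc_rz hz u
    rw [h] at h1
    rcases hw with hw | hw
    · left
      exact ⟨hw, z, hz, p, t, hp, cc_uT_one hp.ne' (h1.trans hw), h⟩
    · right
      exact ⟨hw, z, hz, p, t, hp, cc_uT_neg_one hp.ne' (h1.trans hw), h⟩

end Pool.Agent.FL.S1
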