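import Pool.Agent.FL.S1Hub
import Pool.Agent.FL.S1X2

/-!
# MP_f09395_gt, space (1), I1 and I3: the families of invariants
-/

set_option linter.unusedSectionVars false

noncomputable section

namespace Pool.Agent.FL.S1

open scoped ContDiff Quaternion Matrix ComplexConjugate
open Pool.Agent.Helper93.Fin Pool.Agent.helper79.FP Pool.Agent.helper79.FR
open Pool.Agent.helper79.FR.Sp2 (Mat QQ h0 m gg hh PP BB cc)
open Pool.Agent.FL
open Filter Topology

attribute [local instance] Matrix.linftyOpNormedRing Matrix.linftyOpNormedAlgebra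

/-! ## general lemmas -/

theorem nr_pos {u : V} (hu : u ≠ 0) : 0 < nr u :=
  Qm_pos nD hu

theorem Fl.nr1 {u b : V} (h : Fl u b) : nr u = 1 := h.1

theorem BB_ne_zero_iff {u b : V} (h : Fl u b) : BB 1 3 u = 0 ↔ QQ (BB 1 3 u) (b : Mat) = 0 := by
  constructor
  · intro h0'
    rw [h0', map_zero, LinearMap.zero_apply]
  · intro h0'
    rw [cD.flat u b h, h0', zero_smul]

theorem nr_smul (r : ℝ) (u : V) : nr (r • u) = r ^ 2 * nr u := by
  unfold nr
  rw [Submodule.coe_smul, map_smul, map_smul, LinearMap.smul_apply, smul_eq_mul, smul_eq_mul]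
  ring

theorem nr_nonneg (u : V) : 0 ≤ nr u := by
  rcases eq_or_ne u 0 with h | h
  · subst h
    unfold nr
    simp
  · exact (nr_pos h).le

theorem nr_eq (u : V) : nr u = 10 * c0 u ^ 2 + Complex.normSq (cP u) + Complex.normSq (cR u)
    + 2 * Complex.normSq (cC u) + 2 * Complex.normSq (cQ u) := by
  unfold nr
  rw [QQ_coords]
  simp only [rip, Complex.normSq_apply]
  ring

namespace I1

theorem dP : ContDiff ℝ ∞ (fun u : V => conj (cP u)) := Complex.conjCLE.contDiff.comp cP.contDiff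
theorem dR : ContDiff ℝ ∞ (fun u : V => conj (cR u)) := Complex.conjCLE.contDiff.comp cR.contDiff
theorem dC : ContDiff ℝ ∞ (fun u : V => conj (cC u)) := Complex.conjCLE.contDiff.comp cC.contDiff
theorem dQ : ContDiff ℝ ∞ (fun u : V => conj (cQ u)) := Complex.conjCLE.contDiff.comp cQ.contDiff

theorem dre {f : V → ℂ} (h : ContDiff ℝ ∞ f) : ContDiff ℝ ∞ (fun u => (f u).re) :=
  Complex.reCLM.contDiff.comp h

theorem dim {f : V → ℂ} (h : ContDiff ℝ ∞ f) : ContDiff ℝ ∞ (fun u => (f u).im) :=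
  Complex.imCLM.contDiff.comp h

theorem nsq_eq (z : ℂ) : Complex.normSq z = (z * conj z).re := by
  rw [Complex.mul_conj, Complex.ofReal_re]

theorem dnsq {f : V → ℂ} (h : ContDiff ℝ ∞ f) : ContDiff ℝ ∞ (fun u => Complex.normSq (f u)) := by
  simp only [nsq_eq]
  exact dre (h.mul (Complex.conjCLE.contDiff.comp h))

theorem nr_smooth : ContDiff ℝ ∞ nr := by
  have h : nr = fun u => 10 * c0 u ^ 2 + Complex.normSq (cP u) + Complex.normSq (cR u)
    + 2 * Complex.normSq (cC u) + 2 * Complex.normSq (cQ u) := funext nr_eq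
  rw [h]
  exact ((((contDiff_const.mul (c0.contDiff.pow 2)).add (dnsq cP.contDiff)).add
    (dnsq cR.contDiff)).add (contDiff_const.mul (dnsq cC.contDiff))).add
    (contDiff_const.mul (dnsq cQ.contDiff))

theorem oddI_smooth (i : Fin 11) : ContDiff ℝ ∞ (oddI i) := by
  have hP : ContDiff ℝ ∞ (fun u : V => cP u) := cP.contDiff
  have hR : ContDiff ℝ ∞ (fun u : V => cR u) := cR.contDiff
  have hC : ContDiff ℝ ∞ (fun u : V => cC u) := cC.contDiff
  have hQ : ContDiff ℝ ∞ (fun u : V => cQ u) := cQ.contDiff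
  fin_cases i
  · exact c0.contDiff
  · exact dre (hQ.mul (hC.pow 2))
  · exact dim (hQ.mul (hC.pow 2))
  · exact dre (hQ.mul (dP.pow 2))
  · exact dim (hQ.mul (dP.pow 2))
  · exact dre ((hR.mul dQ).mul hC)
  · exact dim ((hR.mul dQ).mul hC)
  · exact dre ((hR.mul dQ).mul dP)
  · exact dim ((hR.mul dQ).mul dP)
  · exact dre ((hQ.pow 3).mul (dR.pow 2))
  · exact dim ((hQ.pow 3).mul (dR.pow 2))

theorem evI_smooth (i : Fin 10) : ContDiff ℝ ∞ (evI i) := by
  have hP : ContDiff ℝ ∞ (fun u : V => cP u) := cP.contDiff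
  have hR : ContDiff ℝ ∞ (fun u : V => cR u) := cR.contDiff
  have hC : ContDiff ℝ ∞ (fun u : V => cC u) := cC.contDiff
  have hQ : ContDiff ℝ ∞ (fun u : V => cQ u) := cQ.contDiff
  fin_cases i
  · exact dnsq hQ
  · exact dnsq hC
  · exact dnsq hP
  · exact dnsq hR
  · exact dre (hC.mul hP)
  · exact dim (hC.mul hP)
  · exact dre (hR.mul (hC.pow 3))
  · exact dim (hR.mul (hC.pow 3))
  · exact dre (hR.mul (dP.pow 3))
  · exact dim (hR.mul (dP.pow 3))

theorem re_sm {w z : ℂ} (r : ℝ) (n : ℕ) (h : w = (r : ℂ) ^ n * z) : w.re = r ^ n * z.re := by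
  rw [h, ← Complex.ofReal_pow, Complex.re_ofReal_mul]

theorem im_sm {w z : ℂ} (r : ℝ) (n : ℕ) (h : w = (r : ℂ) ^ n * z) : w.im = r ^ n * z.im := by
  rw [h, ← Complex.ofReal_pow, Complex.im_ofReal_mul]

theorem oddI_smul (i : Fin 11) (r : ℝ) (u : V) : oddI i (r • u) = r ^ oddD i * oddI i u := by
  fin_cases i
  · show c0 (r • u) = r ^ 1 * c0 u
    rw [map_smul, smul_eq_mul, pow_one]
  · exact re_sm r 3 (by simp only [map_smul, Complex.real_smul]; ring)
  · exact im_sm r 3 (by simp only [map_smul, Complex.real_smul]; ring)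
  · exact re_sm r 3 (by
      simp only [map_smul, Complex.real_smul, map_mul, Complex.conj_ofReal]; ring)
  · exact im_sm r 3 (by
      simp only [map_smul, Complex.real_smul, map_mul, Complex.conj_ofReal]; ring)
  · exact re_sm r 3 (by
      simp only [map_smul, Complex.real_smul, map_mul, Complex.conj_ofReal]; ring)
  · exact im_sm r 3 (by
      simp only [map_smul, Complex.real_smul, map_mul, Complex.conj_ofReal]; ring)
  · exact re_sm r 3 (by
      simp only [map_smul, Complex.real_smul, map_mul, Complex.conj_ofReal]; ring)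
  · exact im_sm r 3 (by
      simp only [map_smul, Complex.real_smul, map_mul, Complex.conj_ofReal]; ring)
  · exact re_sm r 5 (by
      simp only [map_smul, Complex.real_smul, map_mul, Complex.conj_ofReal]; ring)
  · exact im_sm r 5 (by
      simp only [map_smul, Complex.real_smul, map_mul, Complex.conj_ofReal]; ring)

theorem nsq_sm (r : ℝ) (z : ℂ) : Complex.normSq (r • z) = r ^ 2 * Complex.normSq z := by
  rw [Complex.real_smul, Complex.normSq_mul, Complex.normSq_ofReal]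
  ring

theorem evI_smul (i : Fin 10) (r : ℝ) (u : V) : evI i (r • u) = r ^ evD i * evI i u := by
  fin_cases i
  · show Complex.normSq (cQ (r • u)) = r ^ 2 * Complex.normSq (cQ u)
    rw [map_smul, nsq_sm]
  · show Complex.normSq (cC (r • u)) = r ^ 2 * Complex.normSq (cC u)
    rw [map_smul, nsq_sm]
  · show Complex.normSq (cP (r • u)) = r ^ 2 * Complex.normSq (cP u)
    rw [map_smul, nsq_sm]
  · show Complex.normSq (cR (r • u)) = r ^ 2 * Complex.normSq (cR u)
    rw [map_smul, nsq_sm]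
  · exact re_sm r 2 (by simp only [map_smul, Complex.real_smul]; ring)
  · exact im_sm r 2 (by simp only [map_smul, Complex.real_smul]; ring)
  · exact re_sm r 4 (by simp only [map_smul, Complex.real_smul]; ring)
  · exact im_sm r 4 (by simp only [map_smul, Complex.real_smul]; ring)
  · exact re_sm r 4 (by
      simp only [map_smul, Complex.real_smul, map_mul, Complex.conj_ofReal]; ring)
  · exact im_sm r 4 (by
      simp only [map_smul, Complex.real_smul, map_mul, Complex.conj_ofReal]; ring)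

theorem zz {z : ℂ} (hz : ‖z‖ = 1) : z * conj z = 1 := by
  rw [Complex.mul_conj, ← Complex.sq_norm, hz]; norm_num

theorem oddI_rz (i : Fin 11) {z : ℂ} (hz : ‖z‖ = 1) (u : V) : oddI i (Act.rz z u) = oddI i u := by
  have h := zz hz
  fin_cases i
  · rfl
  · exact congrArg Complex.re (show (z ^ 4 * cQ u) * (conj z ^ 2 * cC u) ^ 2 = cQ u * cC u ^ 2 by
      linear_combination (cQ u * cC u ^ 2) * ((z * conj z) ^ 3 + (z * conj z) ^ 2
        + (z * conj z) + 1) * h)
  · exact congrArg Complex.im (show (z ^ 4 * cQ u) * (conj z ^ 2 * cC u) ^ 2 = cQ u * cC u ^ 2 by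
      linear_combination (cQ u * cC u ^ 2) * ((z * conj z) ^ 3 + (z * conj z) ^ 2
        + (z * conj z) + 1) * h)
  · exact congrArg Complex.re (show (z ^ 4 * cQ u) * conj (z ^ 2 * cP u) ^ 2
        = cQ u * conj (cP u) ^ 2 by
      simp only [map_mul, map_pow]
      linear_combination (cQ u * conj (cP u) ^ 2) * ((z * conj z) ^ 3 + (z * conj z) ^ 2
        + (z * conj z) + 1) * h)
  · exact congrArg Complex.im (show (z ^ 4 * cQ u) * conj (z ^ 2 * cP u) ^ 2
        = cQ u * conj (cP u) ^ 2 by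
      simp only [map_mul, map_pow]
      linear_combination (cQ u * conj (cP u) ^ 2) * ((z * conj z) ^ 3 + (z * conj z) ^ 2
        + (z * conj z) + 1) * h)
  · exact congrArg Complex.re (show (z ^ 6 * cR u) * conj (z ^ 4 * cQ u) * (conj z ^ 2 * cC u)
        = cR u * conj (cQ u) * cC u by
      simp only [map_mul, map_pow]
      linear_combination (cR u * conj (cQ u) * cC u) * ((z * conj z) ^ 5 + (z * conj z) ^ 4
        + (z * conj z) ^ 3 + (z * conj z) ^ 2 + (z * conj z) + 1) * h)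
  · exact congrArg Complex.im (show (z ^ 6 * cR u) * conj (z ^ 4 * cQ u) * (conj z ^ 2 * cC u)
        = cR u * conj (cQ u) * cC u by
      simp only [map_mul, map_pow]
      linear_combination (cR u * conj (cQ u) * cC u) * ((z * conj z) ^ 5 + (z * conj z) ^ 4
        + (z * conj z) ^ 3 + (z * conj z) ^ 2 + (z * conj z) + 1) * h)
  · exact congrArg Complex.re (show (z ^ 6 * cR u) * conj (z ^ 4 * cQ u) * conj (z ^ 2 * cP u)
        = cR u * conj (cQ u) * conj (cP u) by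
      simp only [map_mul, map_pow]
      linear_combination (cR u * conj (cQ u) * conj (cP u)) * ((z * conj z) ^ 5
        + (z * conj z) ^ 4 + (z * conj z) ^ 3 + (z * conj z) ^ 2 + (z * conj z) + 1) * h)
  · exact congrArg Complex.im (show (z ^ 6 * cR u) * conj (z ^ 4 * cQ u) * conj (z ^ 2 * cP u)
        = cR u * conj (cQ u) * conj (cP u) by
      simp only [map_mul, map_pow]
      linear_combination (cR u * conj (cQ u) * conj (cP u)) * ((z * conj z) ^ 5
        + (z * conj z) ^ 4 + (z * conj z) ^ 3 + (z * conj z) ^ 2 + (z * conj z) + 1) * h)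
  · exact congrArg Complex.re (show (z ^ 4 * cQ u) ^ 3 * conj (z ^ 6 * cR u) ^ 2
        = cQ u ^ 3 * conj (cR u) ^ 2 by
      simp only [map_mul, map_pow]
      have h2 : (z * conj z) ^ 12 = 1 := by rw [h, one_pow]
      linear_combination (cQ u ^ 3 * conj (cR u) ^ 2) * h2)
  · exact congrArg Complex.im (show (z ^ 4 * cQ u) ^ 3 * conj (z ^ 6 * cR u) ^ 2
        = cQ u ^ 3 * conj (cR u) ^ 2 by
      simp only [map_mul, map_pow]
      have h2 : (z * conj z) ^ 12 = 1 := by rw [h, one_pow]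
      linear_combination (cQ u ^ 3 * conj (cR u) ^ 2) * h2)

theorem nsq_u {z : ℂ} (hz : ‖z‖ = 1) (n : ℕ) (w : ℂ) :
    Complex.normSq (z ^ n * w) = Complex.normSq w := by
  rw [Complex.normSq_mul, map_pow, ← Complex.sq_norm, hz]; norm_num

theorem evI_rz (i : Fin 10) {z : ℂ} (hz : ‖z‖ = 1) (u : V) : evI i (Act.rz z u) = evI i u := by
  have h := zz hz
  have hc : ‖conj z‖ = 1 := by rw [Complex.norm_conj, hz]
  fin_cases i
  · exact nsq_u hz 4 _
  · exact nsq_u hc 2 _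
  · exact nsq_u hz 2 _
  · exact nsq_u hz 6 _
  · exact congrArg Complex.re (show (conj z ^ 2 * cC u) * (z ^ 2 * cP u) = cC u * cP u by
      linear_combination (cC u * cP u) * ((z * conj z) + 1) * h)
  · exact congrArg Complex.im (show (conj z ^ 2 * cC u) * (z ^ 2 * cP u) = cC u * cP u by
      linear_combination (cC u * cP u) * ((z * conj z) + 1) * h)
  · exact congrArg Complex.re (show (z ^ 6 * cR u) * (conj z ^ 2 * cC u) ^ 3
        = cR u * cC u ^ 3 by
      have h2 : (z * conj z) ^ 6 = 1 := by rw [h, one_pow]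
      linear_combination (cR u * cC u ^ 3) * h2)
  · exact congrArg Complex.im (show (z ^ 6 * cR u) * (conj z ^ 2 * cC u) ^ 3
        = cR u * cC u ^ 3 by
      have h2 : (z * conj z) ^ 6 = 1 := by rw [h, one_pow]
      linear_combination (cR u * cC u ^ 3) * h2)
  · exact congrArg Complex.re (show (z ^ 6 * cR u) * conj (z ^ 2 * cP u) ^ 3
        = cR u * conj (cP u) ^ 3 by
      simp only [map_mul, map_pow]
      have h2 : (z * conj z) ^ 6 = 1 := by rw [h, one_pow]
      linear_combination (cR u * conj (cP u) ^ 3) * h2)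
  · exact congrArg Complex.im (show (z ^ 6 * cR u) * conj (z ^ 2 * cP u) ^ 3
        = cR u * conj (cP u) ^ 3 by
      simp only [map_mul, map_pow]
      have h2 : (z * conj z) ^ 6 = 1 := by rw [h, one_pow]
      linear_combination (cR u * conj (cP u) ^ 3) * h2)

theorem nr_rz {z : ℂ} (hz : ‖z‖ = 1) (u : V) : nr (Act.rz z u) = nr u := by
  have hc : ‖conj z‖ = 1 := by rw [Complex.norm_conj, hz]
  rw [nr_eq, nr_eq, Act.c0_rz, Act.cP_rz, Act.cR_rz, Act.cC_rz, Act.cQ_rz, nsq_u hz, nsq_u hz,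
    nsq_u hc, nsq_u hz]

theorem sq_smooth' : ContDiffOn ℝ ∞ (fun u : V => Real.sqrt (nr u)) {0}ᶜ := by
  refine ContDiffOn.sqrt nr_smooth.contDiffOn fun u hu => (nr_pos ?_).ne'
  exact hu

theorem sq_smul (r : ℝ) (u : V) : Real.sqrt (nr (r • u)) = |r| * Real.sqrt (nr u) := by
  rw [nr_smul, Real.sqrt_mul (sq_nonneg r), Real.sqrt_sq_eq_abs]

theorem norm_smooth {f : V → ℝ} (hf : ContDiff ℝ ∞ f) (d : ℕ) :
    ContDiffOn ℝ ∞ (fun u : V => f u / Real.sqrt (nr u) ^ d) {0}ᶜ := by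
  refine hf.contDiffOn.div (sq_smooth'.pow d) fun u hu => ?_
  exact pow_ne_zero _ (Real.sqrt_pos.2 (nr_pos hu)).ne'

theorem oddD_odd (i : Fin 11) : ∃ k, oddD i = 2 * k + 1 := by
  fin_cases i
  · exact ⟨0, rfl⟩
  · exact ⟨1, rfl⟩
  · exact ⟨1, rfl⟩
  · exact ⟨1, rfl⟩
  · exact ⟨1, rfl⟩
  · exact ⟨1, rfl⟩
  · exact ⟨1, rfl⟩
  · exact ⟨1, rfl⟩
  · exact ⟨1, rfl⟩
  · exact ⟨2, rfl⟩
  · exact ⟨2, rfl⟩

theorem evD_even (i : Fin 10) : ∃ k, evD i = 2 * k := by
  fin_cases i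
  · exact ⟨1, rfl⟩
  · exact ⟨1, rfl⟩
  · exact ⟨1, rfl⟩
  · exact ⟨1, rfl⟩
  · exact ⟨1, rfl⟩
  · exact ⟨1, rfl⟩
  · exact ⟨2, rfl⟩
  · exact ⟨2, rfl⟩
  · exact ⟨2, rfl⟩
  · exact ⟨2, rfl⟩

theorem oI_smul (i : Fin 11) {r : ℝ} (hr : r ≠ 0) (u : V) : oI i (r • u) = r / |r| * oI i u := by
  unfold oI
  rw [oddI_smul, sq_smul, mul_pow]
  have ha : |r| ≠ 0 := abs_ne_zero.2 hr
  obtain ⟨k, hk⟩ := oddD_odd i
  have h1 : r ^ oddD i = r * |r| ^ (2 * k) := by
    rw [hk, pow_succ, pow_mul, pow_mul, sq_abs]; ring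
  have h2 : |r| ^ oddD i = |r| * |r| ^ (2 * k) := by rw [hk, pow_succ]; ring
  rw [h1, h2]
  have hp : |r| ^ (2 * k) ≠ 0 := pow_ne_zero _ ha
  rw [show r * |r| ^ (2 * k) * oddI i u = |r| ^ (2 * k) * (r * oddI i u) by ring,
    show |r| * |r| ^ (2 * k) * Real.sqrt (nr u) ^ oddD i =
      |r| ^ (2 * k) * (|r| * Real.sqrt (nr u) ^ oddD i) by ring, mul_div_mul_left _ _ hp,
    mul_div_mul_comm]

theorem eI_smul (i : Fin 10) {r : ℝ} (hr : r ≠ 0) (u : V) : eI i (r • u) = eI i u := by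
  unfold eI
  rw [evI_smul, sq_smul, mul_pow]
  have ha : |r| ≠ 0 := abs_ne_zero.2 hr
  obtain ⟨k, hk⟩ := evD_even i
  have h1 : r ^ evD i = |r| ^ evD i := by
    rw [hk, pow_mul, pow_mul, sq_abs]
  rw [h1, mul_div_mul_left _ _ (pow_ne_zero _ ha)]

theorem radialE {E : Type*} [NormedAddCommGroup E] [NormedSpace ℝ E] {f : E → ℝ}
    (hf : ∀ (r : ℝ) (u : E), 0 < r → f (r • u) = f u) {u : E} (hd : DifferentiableAt ℝ f u) :
    fderiv ℝ f u u = 0 := by
  have h1 : HasFDerivAt f (fderiv ℝ f u) u := hd.hasFDerivAt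
  have h2 : HasDerivAt (fun t : ℝ => t • u) u 1 := by
    simpa using (hasDerivAt_id (1 : ℝ)).smul_const u
  have h3 : HasDerivAt (fun t : ℝ => f (t • u)) (fderiv ℝ f u u) 1 := by
    have h1' : HasFDerivAt f (fderiv ℝ f u) ((1 : ℝ) • u) := by rwa [one_smul]
    exact h1'.comp_hasDerivAt 1 h2
  have h4 : (fun t : ℝ => f (t • u)) =ᶠ[𝓝 1] fun _ => f u := by
    filter_upwards [lt_mem_nhds (zero_lt_one' ℝ)] with t ht
    exact hf t u ht
  exact (h3.congr_of_eventuallyEq h4.symm).unique (hasDerivAt_const (1 : ℝ) (f u))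

theorem radial {f : V → ℝ} (hf : ∀ (r : ℝ) (u : V), 0 < r → f (r • u) = f u)
    (hs : ContDiffOn ℝ ∞ f {0}ᶜ) {u : V} (hu : u ≠ 0) : D1 f u u = 0 :=
  radialE hf (dAt hs hu)

end I1

/-! ## I1: the families -/

open I1

theorem oI_smooth (i : Fin 11) : ContDiffOn ℝ ∞ (oI i) {0}ᶜ := norm_smooth (oddI_smooth i) _

theorem oI_pos (i : Fin 11) {r : ℝ} (hr : 0 < r) (u : V) : oI i (r • u) = oI i u := by
  rw [oI_smul i hr.ne', abs_of_pos hr, div_self hr.ne', one_mul]

theorem oI_neg (i : Fin 11) (u : V) : oI i (-u) = -oI i u := by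
  have h := oI_smul i (r := -1) (by norm_num) u
  have e : (-1 : ℝ) • u = -u := neg_one_smul ℝ u
  rw [← e, h]
  norm_num

theorem oI_inv (i : Fin 11) : InvH (Pool.Agent.helper79.FR.Sp2.H 1 3) (oI i) := by
  rw [Act.invH_iff]
  intro z hz u
  unfold oI
  rw [oddI_rz i hz, nr_rz hz]

theorem eI_I0 (i : Fin 10) : I0 (eI i) := by
  refine ⟨norm_smooth (evI_smooth i) _, fun r u hr => eI_smul i hr u, ?_⟩
  rw [Act.invH_iff]
  intro z hz u
  unfold eI
  rw [evI_rz i hz, nr_rz hz]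

theorem oo_I0 (i j : Fin 11) : I0 (fun u => oI i u * oI j u) := by
  refine ⟨(oI_smooth i).mul (oI_smooth j), fun r u hr => ?_, ?_⟩
  · simp only [oI_smul i hr, oI_smul j hr]
    have h : r / |r| * (r / |r|) = 1 := by
      rw [div_mul_div_comm, abs_mul_abs_self, div_self (mul_ne_zero hr hr)]
    linear_combination (oI i u * oI j u) * h
  · intro k hk u u' huu
    simp only [oI_inv i k hk u u' huu, oI_inv j k hk u u' huu]

theorem s0_I0 (a : E0) : I0 (s0 a) := by
  rcases a with i | ⟨i, j⟩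
  · exact eI_I0 i
  · exact oo_I0 i j

theorem sF_I0 (a : SI) : I0 (sF a) := by
  rcases a with ⟨a, _ | b⟩
  · exact s0_I0 a
  · exact (s0_I0 a).add (s0_I0 b)

theorem cF_smooth (a : CI) : ContDiffOn ℝ ∞ (cF a) {0}ᶜ := by
  rcases a with ⟨a, _ | b⟩
  · exact oI_smooth a
  · exact (oI_smooth a).add (oI_smooth b)

theorem cF_smul (a : CI) {r : ℝ} (hr : r ≠ 0) (u : V) : cF a (r • u) = r / |r| * cF a u := by
  rcases a with ⟨a, _ | b⟩
  · exact oI_smul a hr u
  · show oI a (r • u) + oI b (r • u) = r / |r| * (oI a u + oI b u)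
    rw [oI_smul a hr, oI_smul b hr]; ring

theorem cF_inv (a : CI) : InvH (Pool.Agent.helper79.FR.Sp2.H 1 3) (cF a) := by
  rcases a with ⟨a, _ | b⟩
  · exact oI_inv a
  · exact invH_add (oI_inv a) (oI_inv b)

theorem cF_sq_I0 (a : CI) (i : ℕ) : I0 (fun u => cF a u ^ (2 * i)) := by
  refine ⟨(cF_smooth a).pow _, fun r u hr => ?_, ?_⟩
  · simp only [cF_smul a hr, mul_pow, pow_mul]
    have h : (r / |r|) ^ 2 = 1 := by
      rw [div_pow, sq_abs, div_self (pow_ne_zero 2 hr)]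
    rw [h, one_pow, one_mul]
  · intro k hk u u' huu
    simp only [cF_inv a k hk u u' huu]

theorem f0_I0 (k : FI) : I0 (f0 k) := by
  rcases k with ⟨s, i⟩ | ⟨a, i, _ | s⟩
  · exact (sF_I0 s).pow i
  · exact cF_sq_I0 a i
  · exact (cF_sq_I0 a i).mul (sF_I0 s)

theorem mulN_Ph {s : V → ℝ} (hs : I0 s) : Ph (fun u => nr u * s u) := by
  obtain ⟨h1, h2⟩ := hs.phiN nD gD
  have e : (fun u => nr u * s u) = mulN QQ s := by
    funext u
    unfold mulN nr
    rw [BN_apply]
  rw [e]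
  exact ⟨h1, h2⟩

theorem fam_Ph (k : FI) : Ph (fam k) := mulN_Ph (f0_I0 k)

theorem Ph.mul {s v : V → ℝ} (hs : I0 s) (hv : Ph v) : Ph (fun u => s u * v u) := by
  obtain ⟨h1, h2⟩ := phiN_mul nD gD hs hv.phi hv.inv
  exact ⟨h1, h2⟩

theorem Ph.add {v w : V → ℝ} (hv : Ph v) (hw : Ph w) : Ph (fun u => v u + w u) :=
  ⟨phiN_add hv.phi hw.phi, invH_add hv.inv hw.inv⟩

theorem Ph.smul {v : V → ℝ} (hv : Ph v) (r : ℝ) : Ph (fun u => r * v u) :=
  ⟨phiN_smul hv.phi r, invH_smul hv.inv r⟩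

theorem Ph.sum {κ : Type*} (t : Finset κ) {f : κ → V → ℝ} (hf : ∀ i ∈ t, Ph (f i)) :
    Ph (fun u => ∑ i ∈ t, f i u) :=
  ⟨phiN_sum t fun i hi => (hf i hi).phi, invH_sum t fun i hi => (hf i hi).inv⟩

theorem pt_Ph {v χ : V → ℝ} (hv : Ph v) (hχ : I0 χ) (p : FI → ℝ) : Ph (pt v χ p) :=
  hv.add (Ph.sum Finset.univ fun k _ => (Ph.mul hχ (fam_Ph k)).smul (p k))

/-- radial derivatives vanish -/
theorem D1_s0_self (a : E0) {u : V} (hu : u ≠ 0) : D1 (s0 a) u u = 0 :=
  radial (fun r u hr => (s0_I0 a).hom r u hr.ne') (s0_I0 a).smooth hu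

theorem D1_oI_self (i : Fin 11) {u : V} (hu : u ≠ 0) : D1 (oI i) u u = 0 :=
  radial (fun _ u hr => oI_pos i hr u) (oI_smooth i) hu

/-! ## I3: two functionals -/

theorem two_sF {u x y : V} (hu : u ≠ 0) (hx : ∃ a, D1 (s0 a) u x ≠ 0)
    (hy : ∃ a, D1 (s0 a) u y ≠ 0) : ∃ s : SI, D1 (sF s) u x ≠ 0 ∧ D1 (sF s) u y ≠ 0 := by
  obtain ⟨a, ha⟩ := hx
  obtain ⟨b, hb⟩ := hy
  by_cases h1 : D1 (s0 a) u y = 0
  · by_cases h2 : D1 (s0 b) u x = 0
    · refine ⟨(a, some b), ?_, ?_⟩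
      · show D1 (fun u => s0 a u + s0 b u) u x ≠ 0
        rw [D1_sum (s0_I0 a).smooth (s0_I0 b).smooth hu, h2, add_zero]
        exact ha
      · show D1 (fun u => s0 a u + s0 b u) u y ≠ 0
        rw [D1_sum (s0_I0 a).smooth (s0_I0 b).smooth hu, h1, zero_add]
        exact hb
    · exact ⟨(b, none), h2, hb⟩
  · exact ⟨(a, none), ha, h1⟩

theorem two_cF {u x y : V} (hu : u ≠ 0) (hx : ∃ a, D1 (oI a) u x ≠ 0)
    (hy : ∃ a, D1 (oI a) u y ≠ 0) : ∃ s : CI, D1 (cF s) u x ≠ 0 ∧ D1 (cF s) u y ≠ 0 := by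
  obtain ⟨a, ha⟩ := hx
  obtain ⟨b, hb⟩ := hy
  by_cases h1 : D1 (oI a) u y = 0
  · by_cases h2 : D1 (oI b) u x = 0
    · refine ⟨(a, some b), ?_, ?_⟩
      · show D1 (fun u => oI a u + oI b u) u x ≠ 0
        rw [D1_sum (oI_smooth a) (oI_smooth b) hu, h2, add_zero]
        exact ha
      · show D1 (fun u => oI a u + oI b u) u y ≠ 0
        rw [D1_sum (oI_smooth a) (oI_smooth b) hu, h1, zero_add]
        exact hb
    · exact ⟨(b, none), h2, hb⟩
  · exact ⟨(a, none), ha, h1⟩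

end Pool.Agent.FL.S1
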