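import Pool.Agent.FL.S1Hub2
import Pool.Agent.FL.S1I1

/-!
# MP_f09395_gt, space (1), X0: the explicit function

`vE ε κ = -(3/2 K - K²/N + ε (Re(C P) + κ χ₂ Im(R P* (P*² + 2 C²))/N))` (Lean sign)
-/

set_option linter.unusedSectionVars false

noncomputable section

namespace Pool.Agent.FL.S1

open scoped ContDiff Quaternion Matrix ComplexConjugate
open Pool.Agent.Helper93.Fin Pool.Agent.helper79.FP Pool.Agent.helper79.FR
open Pool.Agent.helper79.FR.Sp2 (Mat QQ h0 m gg hh PP BB cc)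
open Pool.Agent.FL
open Filter Topology

attribute [local instance] Matrix.linftyOpNormedRing Matrix.linftyOpNormedAlgebra

/-- the square of the norm of the even part -/
def Kq (u : V) : ℝ := 10 * c0 u ^ 2 + 2 * Complex.normSq (cQ u)

/-- `3/2 K - K²/N` -/
def vK (u : V) : ℝ := 3 / 2 * Kq u - Kq u ^ 2 / nr u

/-- `Im (R P* (P*² + 2 C²)) / N` -/
def Gq (u : V) : ℝ := (cR u * conj (cP u) * (conj (cP u) ^ 2 + 2 * cC u ^ 2)).im / nr u

/-- cut-off: `1` on `[9/20, 11/20]`, `0` outside `(2/5, 3/5)` -/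
def chi1 (t : ℝ) : ℝ := Real.smoothTransition (20 * t - 8) * Real.smoothTransition (12 - 20 * t)

/-- the cut-off `χ₂` -/
def chi2 (u : V) : ℝ :=
  chi1 (Complex.normSq (cP u) / nr u) * Real.smoothTransition (-2 * cc 1 3 u)

/-- the explicit function (Lean sign) -/
def vE (ε κ : ℝ) (u : V) : ℝ := -(vK u + ε * (mq u + κ * (chi2 u * Gq u)))

namespace X0

open I1

theorem Kq_smooth : ContDiff ℝ ∞ Kq :=
  (contDiff_const.mul (c0.contDiff.pow 2)).add (contDiff_const.mul (dnsq cQ.contDiff))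

theorem mq_eq : (mq : V → ℝ) = evI 4 := rfl

theorem mq_smooth : ContDiff ℝ ∞ mq := evI_smooth 4

theorem inv_smooth : ContDiffOn ℝ ∞ (fun u : V => (nr u)⁻¹) {0}ᶜ :=
  nr_smooth.contDiffOn.inv fun _ hu => (nr_pos hu).ne'

theorem Gnum_smooth : ContDiff ℝ ∞
    (fun u : V => (cR u * conj (cP u) * (conj (cP u) ^ 2 + 2 * cC u ^ 2)).im) := by
  have hR : ContDiff ℝ ∞ (fun u : V => cR u) := cR.contDiff
  have hC : ContDiff ℝ ∞ (fun u : V => cC u) := cC.contDiff
  exact dim ((hR.mul dP).mul ((dP.pow 2).add (contDiff_const.mul (hC.pow 2))))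

theorem vK_smooth : ContDiffOn ℝ ∞ vK {0}ᶜ :=
  (contDiffOn_const.mul Kq_smooth.contDiffOn).sub
    ((Kq_smooth.contDiffOn.pow 2).div nr_smooth.contDiffOn fun _ hu => (nr_pos hu).ne')

theorem Gq_smooth : ContDiffOn ℝ ∞ Gq {0}ᶜ :=
  Gnum_smooth.contDiffOn.div nr_smooth.contDiffOn fun _ hu => (nr_pos hu).ne'

theorem chi1_smooth : ContDiff ℝ ∞ chi1 :=
  (Real.smoothTransition.contDiff.comp ((contDiff_const.mul contDiff_id).sub contDiff_const)).mul
    (Real.smoothTransition.contDiff.comp (contDiff_const.sub (contDiff_const.mul contDiff_id)))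

theorem Kq_smul (r : ℝ) (u : V) : Kq (r • u) = r ^ 2 * Kq u := by
  unfold Kq
  rw [map_smul, map_smul, nsq_sm, smul_eq_mul]; ring

theorem Kq_rz {z : ℂ} (hz : ‖z‖ = 1) (u : V) : Kq (Act.rz z u) = Kq u := by
  unfold Kq
  rw [Act.c0_rz, Act.cQ_rz, nsq_u hz]

/-- functions homogeneous of degree two, smooth off the origin and invariant are admissible -/
theorem Ph_of {f : V → ℝ} (hs : ContDiffOn ℝ ∞ f {0}ᶜ)
    (hh' : ∀ (r : ℝ) (u : V), f (r • u) = r ^ 2 * f u)
    (hi : ∀ z : ℂ, ‖z‖ = 1 → ∀ u : V, f (Act.rz z u) = f u) : Ph f := by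
  have h2 : InvH (Pool.Agent.helper79.FR.Sp2.H 1 3) f := Act.invH_iff.2 hi
  exact ⟨⟨hs, hh', inv_of_InvH nD gD hs h2⟩, h2⟩

theorem mq_Ph : Ph mq := by
  refine Ph_of mq_smooth.contDiffOn (fun r u => ?_) fun z hz u => ?_
  · exact evI_smul 4 r u
  · exact evI_rz 4 hz u

theorem vK_Ph : Ph vK := by
  refine Ph_of vK_smooth (fun r u => ?_) fun z hz u => ?_
  · unfold vK
    rw [Kq_smul, nr_smul]
    by_cases hr : r = 0
    · subst hr; simp
    · by_cases hn : nr u = 0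
      · simp [hn]; ring
      · field_simp
  · unfold vK
    rw [Kq_rz hz, nr_rz hz]

theorem Gq_smul (r : ℝ) (u : V) : Gq (r • u) = r ^ 2 * Gq u := by
  have h : (cR (r • u) * conj (cP (r • u)) * (conj (cP (r • u)) ^ 2 + 2 * cC (r • u) ^ 2)).im
      = r ^ 4 * (cR u * conj (cP u) * (conj (cP u) ^ 2 + 2 * cC u ^ 2)).im := by
    refine im_sm r 4 ?_
    simp only [map_smul, Complex.real_smul, map_mul, Complex.conj_ofReal]; ring
  unfold Gq
  rw [h, nr_smul]
  by_cases hr : r = 0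
  · subst hr; simp
  · by_cases hn : nr u = 0
    · simp [hn]
    · field_simp

theorem Gq_rz {z : ℂ} (hz : ‖z‖ = 1) (u : V) : Gq (Act.rz z u) = Gq u := by
  unfold Gq
  rw [nr_rz hz, Act.cP_rz, Act.cR_rz, Act.cC_rz]
  congr 2
  simp only [map_mul, map_pow]
  have h2 : (z * conj z) ^ 6 = 1 := by rw [zz hz, one_pow]
  linear_combination (cR u * conj (cP u) * (conj (cP u) ^ 2 + 2 * cC u ^ 2)) * h2

theorem Gq_Ph : Ph Gq := Ph_of Gq_smooth Gq_smul fun _ hz u => Gq_rz hz u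

theorem chi2_I0 : I0 chi2 := by
  refine ⟨?_, fun r u hr => ?_, ?_⟩
  · refine ContDiffOn.mul ?_ ?_
    · exact chi1_smooth.comp_contDiffOn
        ((dnsq cP.contDiff).contDiffOn.div nr_smooth.contDiffOn fun _ hu => (nr_pos hu).ne')
    · exact Real.smoothTransition.contDiff.comp_contDiffOn (contDiffOn_const.mul cD.csm)
  · unfold chi2
    rw [map_smul, nsq_sm, nr_smul, cD.chom r u hr, mul_div_mul_left _ _ (pow_ne_zero 2 hr)]
  · rw [Act.invH_iff]
    intro z hz u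
    unfold chi2
    rw [Act.cP_rz, nsq_u hz, nr_rz hz, cc_rz hz]

end X0

theorem vE_Ph (ε κ : ℝ) : Ph (vE ε κ) := by
  have h := ((X0.vK_Ph.add ((X0.mq_Ph.add ((X0.Gq_Ph.mul X0.chi2_I0).smul κ)).smul ε)).smul (-1))
  have e : vE ε κ = fun u => -1 * (vK u + ε * (mq u + κ * (chi2 u * Gq u))) := by
    funext u
    unfold vE
    ring
  rw [e]
  exact h

end Pool.Agent.FL.S1
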