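import Pool.Agent.FL.S1K

/-!
# MP_f09395_gt, space (1), X1a: the third order form at flags over `E15` and `x5`
-/

set_option linter.unusedSectionVars false

noncomputable section

namespace Pool.Agent.FL.S1

open scoped ContDiff Quaternion Matrix ComplexConjugate
open Pool.Agent.Helper93.Fin Pool.Agent.helper79.FP Pool.Agent.helper79.FR
open Pool.Agent.helper79.FR.Sp2 (Mat QQ h0 m gg hh PP BB cc)
open Pool.Agent.FL
open Filter Topology

attribute [local instance] Matrix.linftyOpNormedRing Matrix.linftyOpNormedAlgebra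

/-- the components of the equation `[u, b] = 0` -/
theorem flag_coords {u b : V} (h : ⁅(u : Mat), (b : Mat)⁆ = 0) :
    (-6 * Complex.I * (c0 u * cP b - c0 b * cP u) + 2 * (cC u * cQ b - cC b * cQ u) = 0) ∧
    (2 * Complex.I * (c0 u * cR b - c0 b * cR u)
      + 2 * (conj (cC b) * cQ u - conj (cC u) * cQ b) = 0) ∧
    (-4 * Complex.I * (c0 u * cC b - c0 b * cC u)
      - (cP u * conj (cQ b) - cP b * conj (cQ u)) - (cQ u * conj (cR b) - cQ b * conj (cR u)) = 0) ∧
    (-2 * Complex.I * (c0 u * cQ b - c0 b * cQ u)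
      + (cP u * conj (cC b) - cP b * conj (cC u)) + (cC u * cR b - cC b * cR u) = 0) ∧
    (4 * imp (cC u) (cC b) + 2 * imp (cQ u) (cQ b) - imp (cR u) (cR b)
      + 3 * imp (cP u) (cP b) = 0) ∧
    (4 * imp (cC u) (cC b) - 8 * imp (cQ u) (cQ b) - 6 * imp (cR u) (cR b)
      - 2 * imp (cP u) (cP b) = 0) := by
  obtain ⟨h1, h2⟩ := (lie_eq_zero_iff u b).1 h
  refine ⟨?_, ?_, ?_, ?_, ?_, ?_⟩
  · rw [← br_P, h1, map_zero]
  · rw [← br_R, h1, map_zero]
  · rw [← br_C, h1, map_zero]
  · rw [← br_Q, h1, map_zero]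
  · have e : c0 (br u b) = 0 := by rw [h1, map_zero]
    rw [br_0] at e; linarith
  · rw [← br_h, h2]

theorem nf_coords (r : V) : nf QQ r r = 10 * c0 r ^ 2 + Complex.normSq (cP r)
    + Complex.normSq (cR r) + 2 * Complex.normSq (cC r) + 2 * Complex.normSq (cQ r) := by
  change QQ (r : Mat) (r : Mat) = _
  rw [QQ_coords]
  simp only [rip, Complex.normSq_apply]
  ring

theorem posr {r : V} {ε : ℝ} (h0 : 0 < ε) (h1 : ε < 1) (h : cP r ≠ 0) :
    0 < nf QQ r r + 2 * ε * mq r := by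
  rw [nf_coords, mq]
  have hP : 0 < Complex.normSq (cP r) := Complex.normSq_pos.2 h
  rw [Complex.normSq_apply] at hP
  simp only [Complex.normSq_apply, Complex.mul_re]
  nlinarith [sq_nonneg (c0 r), sq_nonneg (cR r).re, sq_nonneg (cR r).im, sq_nonneg (cQ r).re,
    sq_nonneg (cQ r).im, sq_nonneg ((cC r).re + (cP r).re), sq_nonneg ((cC r).im - (cP r).im),
    sq_nonneg (cC r).re, sq_nonneg (cC r).im,
    mul_nonneg h0.le (sq_nonneg ((cC r).re + (cP r).re)),
    mul_nonneg h0.le (sq_nonneg ((cC r).im - (cP r).im)),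
    mul_pos (sub_pos.2 h1) hP, mul_nonneg (sub_pos.2 h1).le (sq_nonneg (cC r).re),
    mul_nonneg (sub_pos.2 h1).le (sq_nonneg (cC r).im)]

/-- the third order form at flags over the even part -/
theorem T3_even {ε : ℝ} {u b : V} (hF : Fl u b) (hE : Ev u) :
    T3 (phe ε) u b = ε ^ 2 * (nf QQ (br u (g1 b)) (br u (g1 b)) + 2 * ε * mq (br u (g1 b))) := by
  have huk : pkV u = u := by
    refine ext_coords ?_ ?_ ?_ ?_ ?_
    · rw [c0_pk]
    · rw [cP_pk, hE.1]
    · rw [cR_pk, hE.2.1]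
    · rw [cC_pk, hE.2.2]
    · rw [cQ_pk]
  have hfu : ∀ w, kf QQ g1C u w = 0 := fun w => by
    rw [kf_g1, hE.1, hE.2.2]; simp
  have h0 : PP 1 3 ⁅(u : Mat), (pkV b : Mat)⁆ = 0 := by
    obtain ⟨f1, _⟩ := flag_split nD symK (u := u) (v := b) hF.2.2.2
    rw [huk, sub_self] at f1
    have f2 : ⁅((b - pkV b : V) : Mat), (u : Mat)⁆ = 0 := by
      rw [← f1]
      have : (((0 : m 1 3) : m 1 3) : Mat) = 0 := rfl
      rw [this, Ring.lie_def, zero_mul, mul_zero, sub_zero]
    have f3 : ⁅(u : Mat), ((b - pkV b : V) : Mat)⁆ = 0 := by rw [skew, f2, neg_zero]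
    have f4 : ⁅(u : Mat), (pkV b : Mat)⁆ = ⁅(u : Mat), (b : Mat)⁆
        - ⁅(u : Mat), ((b - pkV b : V) : Mat)⁆ := by
      rw [Submodule.coe_sub]
      simp only [Ring.lie_def]
      noncomm_ring
    rw [f4, f3, hF.2.2.2, sub_zero, map_zero]
  have hpf : ∀ z : V, pkV (PP 1 3 ⁅(u : Mat), (g1C z : Mat)⁆) = 0 := by
    intro z
    have h1 := pk_kp u (g1 z) ((pkV_zero_iff _).2 ⟨by simp [g1], by simp [g1]⟩)
    rw [huk] at h1
    exact h1
  have key := T3F_baseG_even nD symK kf_g1_comm (a := -3 / 2) (b := 1) (e := -ε / 2) hF huk hfu h0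
    hpf
  change T3F QQ (PP 1 3) (phe ε) u b = _ at key
  change T3F QQ (PP 1 3) (phe ε) u b = _
  rw [key]
  change _ * nf QQ (br u (g1 b)) (br u (g1 b)) - _ * kf QQ g1C (br u (g1 b)) (br u (g1 b)) = _
  rw [kf_g1_self]
  ring

/-- (X1a) -/
theorem X1a {ε κ : ℝ} (h0 : 0 < ε) (h1 : ε < 1) {u b : V} (hF : Fl u b) (hE : Ev u)
    (hc : c0 u = 0 ∨ 10 * c0 u ^ 2 = 5 / 8) : 0 < T3 (vE ε κ) u b := by
  have hu : u ≠ 0 := ne_of_unit hF.1
  have hev : vE ε κ =ᶠ[𝓝 u] phe ε := vEK_ev hu (Or.inl (by rw [hE.1]; norm_num))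
  have e1 : T3 (vE ε κ) u b = T3 (phe ε) u b := T3F_congr nD hev
  rw [e1, T3_even hF hE]
  refine mul_pos (pow_pos h0 2) (posr h0 h1 ?_)
  obtain ⟨bP, bR, bC, bQ, b0, -⟩ := flag_coords hF.2.2.2
  have uu : nf QQ u u = 1 := hF.1
  have bb : nf QQ b b = 1 := hF.2.1
  have ub : QQ (u : Mat) (b : Mat) = 0 := hF.2.2.1
  have er : cP (br u (g1 b)) = -6 * Complex.I * (c0 u * conj (cC b)) - conj (cP b) * cQ u := by
    rw [br_P, hE.1, hE.2.2]; simp [g1]; ring
  rw [nf_coords] at uu bb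
  rw [QQ_coords] at ub
  simp only [hE.1, hE.2.1, hE.2.2, imp, rip] at uu ub bP bR bC bQ b0
  rw [er]
  intro hr
  obtain ⟨c, hc'⟩ : ∃ x, x = c0 u := ⟨_, rfl⟩
  obtain ⟨q, hq'⟩ : ∃ x, x = cQ u := ⟨_, rfl⟩
  obtain ⟨C, hC'⟩ : ∃ x, x = cC b := ⟨_, rfl⟩
  obtain ⟨D, hD'⟩ : ∃ x, x = cP b := ⟨_, rfl⟩
  obtain ⟨R, hR'⟩ : ∃ x, x = cR b := ⟨_, rfl⟩
  obtain ⟨q', hq''⟩ : ∃ x, x = cQ b := ⟨_, rfl⟩
  obtain ⟨c', hc''⟩ : ∃ x, x = c0 b := ⟨_, rfl⟩
  rw [← hc', ← hq', ← hC', ← hD'] at hr
  rw [← hc'] at hc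
  rw [← hc', ← hq'] at uu
  rw [← hC', ← hD', ← hR', ← hq'', ← hc''] at bb
  simp only [← hc', ← hq', ← hC', ← hD', ← hR', ← hq'', ← hc''] at ub bP bR bC bQ b0
  simp only [Complex.zero_re, Complex.zero_im, zero_mul, mul_zero, add_zero, zero_add, sub_zero,
    Complex.normSq_zero] at uu ub b0
  have hz : conj (0 : ℂ) = 0 := map_zero _
  rw [hz] at bR bC bQ
  have eP : C * q = -3 * Complex.I * c * D := by linear_combination (-1 / 2 : ℂ) * bP
  have eQ : (c : ℂ) * q' = c' * q := by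
    have h : (-2 * Complex.I) * ((c : ℂ) * q' - c' * q) = 0 := by linear_combination bQ
    rcases mul_eq_zero.1 h with h | h
    · simp at h
    · linear_combination h
  have eR : Complex.I * c * R = -(conj C * q) := by
    have : (2 : ℂ) * (Complex.I * c * R + conj C * q) = 0 := by linear_combination bR
    rcases mul_eq_zero.1 this with h | h
    · norm_num at h
    · linear_combination h
  have eC : D * conj q - q * conj R = 4 * Complex.I * c * C := by
    linear_combination bC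
  have eH : conj D * q = -6 * Complex.I * c * conj C := by linear_combination -hr
  have hq : 0 < Complex.normSq q := by
    rcases hc with h | h
    · rw [h] at uu; nlinarith
    · nlinarith
  have q0 : q ≠ 0 := fun h => by rw [h] at hq; simp at hq
  -- odd components vanish
  have hCDR : C = 0 ∧ D = 0 ∧ R = 0 := by
    rcases hc with h | h
    · rw [h] at eP eH eC
      simp only [Complex.ofReal_zero, mul_zero, zero_mul] at eP eH eC
      have h1 : C = 0 := (mul_eq_zero.1 eP).resolve_right q0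
      have h2 : D = 0 := by
        have := (mul_eq_zero.1 eH).resolve_right q0
        exact (map_eq_zero _).1 this
      rw [h2, zero_mul, zero_sub, neg_eq_zero] at eC
      have h3 := (mul_eq_zero.1 eC).resolve_left q0
      exact ⟨h1, h2, (map_eq_zero _).1 h3⟩
    · have hc2 : c ^ 2 = 1 / 16 := by linarith
      have hq2 : Complex.normSq q = 3 / 16 := by nlinarith
      have n1 := congrArg Complex.normSq eP
      have n2 := congrArg Complex.normSq eH
      simp only [Complex.normSq_mul, Complex.normSq_neg, Complex.normSq_I, Complex.normSq_ofReal,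
        Complex.normSq_conj] at n1 n2
      have m3 : Complex.normSq (3 : ℂ) = 9 := by rw [Complex.normSq_apply]; norm_num
      have m6 : Complex.normSq (6 : ℂ) = 36 := by rw [Complex.normSq_apply]; norm_num
      rw [m3, hq2] at n1
      rw [m6, hq2] at n2
      have hcc : c * c = 1 / 16 := by nlinarith
      rw [hcc] at n1 n2
      have h1 : Complex.normSq C = 0 := by linarith
      have h2 : Complex.normSq D = 0 := by linarith
      rw [Complex.normSq_eq_zero] at h1 h2
      refine ⟨h1, h2, ?_⟩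
      rw [h1, map_zero, zero_mul, neg_zero] at eR
      rcases mul_eq_zero.1 eR with h3 | h3
      · rcases mul_eq_zero.1 h3 with h4 | h4
        · simp at h4
        · have : c = 0 := Complex.ofReal_eq_zero.1 h4
          rw [this] at hc2; norm_num at hc2
      · exact h3
  have eQr := congrArg Complex.re eQ
  have eQi := congrArg Complex.im eQ
  simp only [Complex.mul_re, Complex.mul_im, Complex.ofReal_re, Complex.ofReal_im, zero_mul,
    sub_zero, add_zero] at eQr eQi
  rw [Complex.normSq_apply] at uu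
  have hcb : c' = 0 := by
    linear_combination (-c') * uu + c * ub - 2 * q.re * eQr - 2 * q.im * eQi
  rw [hcb, mul_zero, mul_zero, zero_add] at ub
  have hq3 : Complex.normSq q * Complex.normSq q' = 0 := by
    have e1 : q.re * q'.re + q.im * q'.im = 0 := by linarith
    have e2 : q.im * q'.re - q.re * q'.im = 0 := by linarith
    rw [Complex.normSq_apply, Complex.normSq_apply]
    linear_combination (q.re * q'.re + q.im * q'.im) * e1 + (q.im * q'.re - q.re * q'.im) * e2
  have hq4 : Complex.normSq q' = 0 := (mul_eq_zero.1 hq3).resolve_left hq.ne'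
  rw [hCDR.1, hCDR.2.1, hCDR.2.2, hq4, hcb] at bb
  simp at bb

end Pool.Agent.FL.S1
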