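import Pool.Agent.FL.S1Base

/-!
# MP_f09395_gt: the third order form of `a K + b K² / N` at flags of a symmetric pair
-/

set_option linter.unusedSectionVars false

noncomputable section

namespace Pool.Agent.FL

open scoped ContDiff
open Pool.Agent.Helper93.Fin Pool.Agent.helper79.FP Pool.Agent.helper79.FR
open Filter Topology Module

variable {𝔸 : Type*} [NormedRing 𝔸] [NormedAlgebra ℝ 𝔸] [FiniteDimensional ℝ 𝔸]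
variable {g h m : Submodule ℝ 𝔸} {Q : 𝔸 →ₗ[ℝ] 𝔸 →ₗ[ℝ] ℝ} {P : 𝔸 →L[ℝ] m} {pk : m →L[ℝ] m}

theorem baseF_eq (a b : ℝ) (z : m) :
    baseF Q pk a b z = a * kf Q pk z z + b * kqn Q pk z := rfl

theorem baseF_cmb (a b : ℝ) : baseF Q pk a b =
    fun z => (fun z => a * kf Q pk z z) z + (fun z => b * kqn Q pk z) z := rfl

theorem smul_D1 {f : m → ℝ} (hf : ContDiffOn ℝ ∞ f {0}ᶜ) (a : ℝ) {u : m} (hu : u ≠ 0) (v : m) :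
    D1 (fun z => a * f z) u v = a * D1 f u v := by
  rw [D1_mul (contDiffOn_const (c := a)) hf hu]
  simp [D1]

theorem fd_smul {f : m → ℝ} (hf : ContDiffOn ℝ ∞ f {0}ᶜ) (a : ℝ) {u : m} (hu : u ≠ 0) (v : m) :
    fderiv ℝ (fun z => a * f z) u v = a * fderiv ℝ f u v := smul_D1 hf a hu v

theorem smul_D2 {f : m → ℝ} (hf : ContDiffOn ℝ ∞ f {0}ᶜ) (a : ℝ) {u : m} (hu : u ≠ 0) (v w : m) :
    D2 (fun z => a * f z) u v w = a * D2 f u v w := by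
  rw [D2, fd_congr (fun z hz => smul_D1 hf a hz v) hu, fd_smul (D1_smooth hf v) a hu]; rfl

theorem smul_D3 {f : m → ℝ} (hf : ContDiffOn ℝ ∞ f {0}ᶜ) (a : ℝ) {u : m} (hu : u ≠ 0)
    (v w x : m) : D3 (fun z => a * f z) u v w x = a * D3 f u v w x := by
  rw [D3, fd_congr (fun z hz => smul_D2 hf a hz v w) hu, fd_smul (D2_smooth hf v w) a hu]; rfl

theorem smul_D4 {f : m → ℝ} (hf : ContDiffOn ℝ ∞ f {0}ᶜ) (a : ℝ) {u : m} (hu : u ≠ 0)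
    (v w x y : m) : D4 (fun z => a * f z) u v w x y = a * D4 f u v w x y := by
  rw [D4, fd_congr (fun z hz => smul_D3 hf a hz v w x) hu, fd_smul (D3_smooth hf v w x) a hu]; rfl

section
variable (hN : NData g h m Q P) (hS : SymP Q P pk) {a b : ℝ} {u : m}
include hN

theorem baseF_s1 (a : ℝ) : ContDiffOn ℝ ∞ (fun z : m => a * kf Q pk z z) {0}ᶜ :=
  contDiffOn_const.mul kq_smooth.contDiffOn

theorem baseF_s2 (b : ℝ) : ContDiffOn ℝ ∞ (fun z : m => b * kqn Q pk z) {0}ᶜ :=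
  contDiffOn_const.mul (kqn_smooth hN)

theorem baseF_smooth (a b : ℝ) : ContDiffOn ℝ ∞ (baseF Q pk a b) {0}ᶜ :=
  (baseF_s1 hN a).add (baseF_s2 hN b)

include hS

theorem baseF_D1 (h1 : nf Q u u = 1) (v : m) :
    D1 (baseF Q pk a b) u v = 2 * a * kf Q pk u v + b * sF1 Q pk u v := by
  have hu := ne_of_unit h1
  rw [baseF_cmb, D1_sum (baseF_s1 hN a) (baseF_s2 hN b) hu, smul_D1 kq_smooth.contDiffOn a hu,
    smul_D1 (kqn_smooth hN) b hu, kf_D1 hN hS, kqn_D1 hN hS h1]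
  ring

theorem baseF_D2 (h1 : nf Q u u = 1) (v w : m) :
    D2 (baseF Q pk a b) u v w = 2 * a * kf Q pk v w + b * sF2 Q pk u v w := by
  have hu := ne_of_unit h1
  rw [baseF_cmb, D2_sum (baseF_s1 hN a) (baseF_s2 hN b) hu, smul_D2 kq_smooth.contDiffOn a hu,
    smul_D2 (kqn_smooth hN) b hu, kf_D2 hN hS, kqn_D2 hN hS h1]
  ring

theorem baseF_D3 (h1 : nf Q u u = 1) (v w x : m) :
    D3 (baseF Q pk a b) u v w x = b * sF3 Q pk u v w x := by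
  have hu := ne_of_unit h1
  rw [baseF_cmb, D3_sum (baseF_s1 hN a) (baseF_s2 hN b) hu, smul_D3 kq_smooth.contDiffOn a hu,
    smul_D3 (kqn_smooth hN) b hu, kf_D3 hN hS, kqn_D3 hN hS h1]
  ring

theorem baseF_D4 (h1 : nf Q u u = 1) (v w x y : m) :
    D4 (baseF Q pk a b) u v w x y = b * sF4 Q pk u v w x y := by
  have hu := ne_of_unit h1
  rw [baseF_cmb, D4_sum (baseF_s1 hN a) (baseF_s2 hN b) hu, smul_D4 kq_smooth.contDiffOn a hu,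
    smul_D4 (kqn_smooth hN) b hu, kf_D4 hN hS, kqn_D4 hN hS h1]
  ring

end

/-! ### brackets of the components of a flag -/

section
variable (hN : NData g h m Q P) (hS : SymP Q P pk) {u v : m}
include hN hS

theorem pk_sub (z : m) : pk (z - pk z) = 0 := by rw [map_sub, hS.idem, sub_self]

theorem kp_coe (x y : m) (hy : pk y = 0) :
    ((P ⁅(y : 𝔸), (pk x : 𝔸)⁆ : m) : 𝔸) = ⁅(y : 𝔸), (pk x : 𝔸)⁆ := by
  have h1 := hS.kph x y hy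
  rw [skew (y : 𝔸) (pk x : 𝔸), map_neg]
  have h2 : ((-P ⁅(pk x : 𝔸), (y : 𝔸)⁆ : m) : 𝔸) = -((P ⁅(pk x : 𝔸), (y : 𝔸)⁆ : m) : 𝔸) := rfl
  rw [h2, h1]

theorem flag_split (huv : ⁅(u : 𝔸), (v : 𝔸)⁆ = 0) :
    ⁅((u - pk u : m) : 𝔸), (pk v : 𝔸)⁆ = ⁅((v - pk v : m) : 𝔸), (pk u : 𝔸)⁆ ∧
    ⁅((u - pk u : m) : 𝔸), ((v - pk v : m) : 𝔸)⁆ = -⁅(pk u : 𝔸), (pk v : 𝔸)⁆ := by
  obtain ⟨uk, huk⟩ : ∃ x, x = pk u := ⟨_, rfl⟩
  obtain ⟨vk, hvk⟩ : ∃ x, x = pk v := ⟨_, rfl⟩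
  obtain ⟨up, hup⟩ : ∃ x, x = u - pk u := ⟨_, rfl⟩
  obtain ⟨vp, hvp⟩ : ∃ x, x = v - pk v := ⟨_, rfl⟩
  have p1 : pk up = 0 := by rw [hup]; exact pk_sub hN hS u
  have p2 : pk vp = 0 := by rw [hvp]; exact pk_sub hN hS v
  have eu : (u : 𝔸) = (uk : 𝔸) + (up : 𝔸) := by rw [huk, hup, ← Submodule.coe_add]; congr 1; abel
  have ev : (v : 𝔸) = (vk : 𝔸) + (vp : 𝔸) := by rw [hvk, hvp, ← Submodule.coe_add]; congr 1; abel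
  have e0 : ⁅(uk : 𝔸), (vk : 𝔸)⁆ + ⁅(up : 𝔸), (vp : 𝔸)⁆ + (⁅(uk : 𝔸), (vp : 𝔸)⁆
      + ⁅(up : 𝔸), (vk : 𝔸)⁆) = 0 := by
    rw [← huv, eu, ev]
    simp only [Ring.lie_def]
    noncomm_ring
  have k1 : pk (P ⁅(uk : 𝔸), (vk : 𝔸)⁆) = P ⁅(uk : 𝔸), (vk : 𝔸)⁆ := by
    rw [huk, hvk]; exact hS.kk u v
  have k2 : pk (P ⁅(up : 𝔸), (vp : 𝔸)⁆) = P ⁅(up : 𝔸), (vp : 𝔸)⁆ := hS.pp up vp p1 p2
  have k3 : pk (P ⁅(uk : 𝔸), (vp : 𝔸)⁆) = 0 := by rw [huk]; exact hS.kp u vp p2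
  have k4 : pk (P ⁅(up : 𝔸), (vk : 𝔸)⁆) = 0 := by
    rw [skew, map_neg, map_neg, hvk, hS.kp v up p1, neg_zero]
  have c3 : ((P ⁅(uk : 𝔸), (vp : 𝔸)⁆ : m) : 𝔸) = ⁅(uk : 𝔸), (vp : 𝔸)⁆ := by
    rw [huk]; exact hS.kph u vp p2
  have c4 : ((P ⁅(up : 𝔸), (vk : 𝔸)⁆ : m) : 𝔸) = ⁅(up : 𝔸), (vk : 𝔸)⁆ := by
    rw [hvk]; exact kp_coe hN hS v up p1
  have e1 : P ⁅(uk : 𝔸), (vk : 𝔸)⁆ + P ⁅(up : 𝔸), (vp : 𝔸)⁆ + (P ⁅(uk : 𝔸), (vp : 𝔸)⁆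
      + P ⁅(up : 𝔸), (vk : 𝔸)⁆) = 0 := by
    rw [← map_add, ← map_add, ← map_add, e0, map_zero]
  have e2 : P ⁅(uk : 𝔸), (vk : 𝔸)⁆ + P ⁅(up : 𝔸), (vp : 𝔸)⁆ = 0 := by
    have := congrArg pk e1
    rw [map_add, map_add, map_add, k1, k2, k3, k4, map_zero, add_zero, add_zero] at this
    exact this
  have e3 : P ⁅(uk : 𝔸), (vp : 𝔸)⁆ + P ⁅(up : 𝔸), (vk : 𝔸)⁆ = 0 := by
    rw [e2, zero_add] at e1; exact e1
  have e4 : ⁅(uk : 𝔸), (vp : 𝔸)⁆ + ⁅(up : 𝔸), (vk : 𝔸)⁆ = 0 := by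
    rw [← c3, ← c4, ← Submodule.coe_add, e3]; rfl
  have e5 : ⁅(uk : 𝔸), (vk : 𝔸)⁆ + ⁅(up : 𝔸), (vp : 𝔸)⁆ = 0 := by
    rw [e4, add_zero] at e0; exact e0
  rw [← hup, ← hvp, ← huk, ← hvk]
  constructor
  · rw [skew (vp : 𝔸) (uk : 𝔸)]
    rw [eq_neg_iff_add_eq_zero, add_comm]; exact e4
  · rw [eq_neg_iff_add_eq_zero, add_comm]; exact e5

end

end Pool.Agent.FL
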