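import Pool.Agent.FL.S1X3b
import Pool.Agent.FL.S1BaseT

/-!
# MP_f09395_gt, space (1), X1b: the third order form of the explicit function over `x₄`
-/

set_option linter.unusedSectionVars false

noncomputable section

namespace Pool.Agent.FL.S1

open scoped ContDiff Quaternion Matrix ComplexConjugate
open Pool.Agent.Helper93.Fin Pool.Agent.helper79.FP Pool.Agent.helper79.FR
open Pool.Agent.helper79.FR.Sp2 (Mat QQ h0 m gg hh PP BB cc)
open Pool.Agent.FL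
open Filter Topology

attribute [local instance] Matrix.linftyOpNormedRing Matrix.linftyOpNormedAlgebra

namespace X1b

section general

variable {𝔸 : Type*} [NormedRing 𝔸] [NormedAlgebra ℝ 𝔸] [FiniteDimensional ℝ 𝔸]
variable {g h m : Submodule ℝ 𝔸} {Q : 𝔸 →ₗ[ℝ] 𝔸 →ₗ[ℝ] ℝ} {P : 𝔸 →L[ℝ] m}
variable {k q : m →L[ℝ] m →L[ℝ] ℝ}

/-- `K² / N` -/
def kn (Q : 𝔸 →ₗ[ℝ] 𝔸 →ₗ[ℝ] ℝ) (k : m →L[ℝ] m →L[ℝ] ℝ) (z : m) : ℝ :=
  k z z ^ 2 * (nf Q z z)⁻¹

/-- first derivative of `K² / N` at unit vectors -/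
def g1 (Q : 𝔸 →ₗ[ℝ] 𝔸 →ₗ[ℝ] ℝ) (k : m →L[ℝ] m →L[ℝ] ℝ) (u a : m) : ℝ :=
  4 * (k u u * k u a) - 2 * k u u ^ 2 * nf Q u a

/-- second derivative of `K² / N` at unit vectors -/
def g2 (Q : 𝔸 →ₗ[ℝ] 𝔸 →ₗ[ℝ] ℝ) (k : m →L[ℝ] m →L[ℝ] ℝ) (u a b : m) : ℝ :=
  4 * (k u u * k a b) + 8 * (k u a * k u b)
    - 2 * k u u ^ 2 * nf Q a b - 2 * nf Q u b * g1 Q k u a - 2 * nf Q u a * g1 Q k u b

/-- third derivative of `K² / N` at unit vectors -/
def g3 (Q : 𝔸 →ₗ[ℝ] 𝔸 →ₗ[ℝ] ℝ) (k : m →L[ℝ] m →L[ℝ] ℝ) (u a b c : m) : ℝ :=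
  8 * (k u a * k b c + k u b * k a c + k u c * k a b)
    - 2 * nf Q u a * g2 Q k u b c - 2 * nf Q u b * g2 Q k u a c - 2 * nf Q u c * g2 Q k u a b
    - 2 * nf Q a b * g1 Q k u c - 2 * nf Q a c * g1 Q k u b - 2 * nf Q b c * g1 Q k u a

/-- fourth derivative of `K² / N` at unit vectors -/
def g4 (Q : 𝔸 →ₗ[ℝ] 𝔸 →ₗ[ℝ] ℝ) (k : m →L[ℝ] m →L[ℝ] ℝ) (u a b c d : m) : ℝ :=
  8 * (k a d * k b c + k b d * k a c + k c d * k a b)
    - 2 * nf Q u a * g3 Q k u b c d - 2 * nf Q u b * g3 Q k u a c d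
    - 2 * nf Q u c * g3 Q k u a b d - 2 * nf Q u d * g3 Q k u a b c
    - 2 * nf Q a b * g2 Q k u c d - 2 * nf Q a c * g2 Q k u b d - 2 * nf Q a d * g2 Q k u b c
    - 2 * nf Q b c * g2 Q k u a d - 2 * nf Q b d * g2 Q k u a c - 2 * nf Q c d * g2 Q k u a b

theorem k_smooth (k : m →L[ℝ] m →L[ℝ] ℝ) : ContDiffOn ℝ ∞ (fun z : m => k z z) {0}ᶜ :=
  (k.contDiff.clm_apply contDiff_id).contDiffOn

theorem kn_smooth (hN : NData g h m Q P) : ContDiffOn ℝ ∞ (kn Q k) {0}ᶜ :=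
  ((k_smooth k).pow 2).mul (nf_smooth.inv fun _ hz => nf_ne hN hz)

theorem kn_mul (hN : NData g h m Q P) : (fun z : m => kn Q k z * nf Q z z) =
    QFG (ContinuousLinearMap.mul ℝ ℝ) k := by
  funext z
  unfold kn QFG
  rw [ContinuousLinearMap.mul_apply']
  by_cases hz : z = 0
  · rw [hz]
    simp
  · rw [mul_assoc, inv_mul_cancel₀ (nf_ne hN hz)]; ring

theorem kn_D1 (hN : NData g h m Q P) (hk : ∀ a b, k a b = k b a) {u : m}
    (h1 : nf Q u u = 1) (a : m) : D1 (kn Q k) u a = g1 Q k u a := by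
  have e := D1_mul (kn_smooth (k := k) hN) (nf_smooth (Q := Q)) (ne_of_unit h1) a
  rw [kn_mul hN, QFG_1 mulC hk, nf_D1 hN, h1] at e
  simp only [ContinuousLinearMap.mul_apply', kn, h1] at e
  unfold g1
  linear_combination -e

theorem kn_D2 (hN : NData g h m Q P) (hk : ∀ a b, k a b = k b a) {u : m}
    (h1 : nf Q u u = 1) (a b : m) : D2 (kn Q k) u a b = g2 Q k u a b := by
  have e := D2_mul (kn_smooth (k := k) hN) (nf_smooth (Q := Q)) (ne_of_unit h1) a b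
  rw [kn_mul hN, QFG_2 mulC hk, nf_D1 hN, nf_D1 hN, nf_D2 hN, h1, kn_D1 hN hk h1,
    kn_D1 hN hk h1] at e
  simp only [ContinuousLinearMap.mul_apply', kn, h1] at e
  unfold g2
  linear_combination -e

theorem kn_D3 (hN : NData g h m Q P) (hk : ∀ a b, k a b = k b a) {u : m}
    (h1 : nf Q u u = 1) (a b c : m) : D3 (kn Q k) u a b c = g3 Q k u a b c := by
  have e := Pool.Agent.helper75.FL.D3_mul (kn_smooth (k := k) hN) (nf_smooth (Q := Q))
    (ne_of_unit h1) a b c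
  rw [kn_mul hN, QFG_3 mulC hk] at e
  simp only [nf_D1 hN, nf_D2 hN, nf_D3 hN, h1, kn_D1 hN hk h1, kn_D2 hN hk h1,
    ContinuousLinearMap.mul_apply'] at e
  unfold g3
  linear_combination -e

theorem kn_D4 (hN : NData g h m Q P) (hk : ∀ a b, k a b = k b a) {u : m}
    (h1 : nf Q u u = 1) (a b c d : m) : D4 (kn Q k) u a b c d = g4 Q k u a b c d := by
  have e := Pool.Agent.helper75.FL.D4_mul (kn_smooth (k := k) hN) (nf_smooth (Q := Q))
    (ne_of_unit h1) a b c d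
  rw [kn_mul hN, QFG_4 mulC hk] at e
  simp only [nf_D1 hN, nf_D2 hN, nf_D3 hN, nf_D4 hN, h1, kn_D1 hN hk h1, kn_D2 hN hk h1,
    kn_D3 hN hk h1, ContinuousLinearMap.mul_apply'] at e
  unfold g4
  linear_combination -e

/-- `x K + y K² / N + z q` -/
def pF (Q : 𝔸 →ₗ[ℝ] 𝔸 →ₗ[ℝ] ℝ) (k q : m →L[ℝ] m →L[ℝ] ℝ) (x y z : ℝ) (w : m) : ℝ :=
  (x * k w w + y * kn Q k w) + z * q w w

variable {x y z : ℝ}

theorem pF_cmb : pF Q k q x y z =
    fun w => (fun w => (fun w => x * (fun w => k w w) w) w + (fun w => y * kn Q k w) w) w +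
      (fun w => z * (fun w => q w w) w) w := rfl

theorem cs (r : ℝ) {f : m → ℝ} (hf : ContDiffOn ℝ ∞ f {0}ᶜ) :
    ContDiffOn ℝ ∞ (fun z => r * f z) {0}ᶜ := contDiffOn_const.mul hf

theorem pF_D1 (hN : NData g h m Q P) (hk : ∀ a b, k a b = k b a) (hq : ∀ a b, q a b = q b a)
    {u : m} (h1 : nf Q u u = 1) (a : m) :
    D1 (pF Q k q x y z) u a = 2 * x * k u a + y * g1 Q k u a + 2 * z * q u a := by
  have hu := ne_of_unit h1
  have s1 := cs x (k_smooth k)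
  have s2 := cs y (kn_smooth (k := k) hN)
  have s3 := cs z (k_smooth q)
  rw [pF_cmb, D1_sum (s1.add s2) s3 hu, D1_sum s1 s2 hu, smul_D1 (k_smooth k) x hu,
    smul_D1 (kn_smooth hN) y hu, smul_D1 (k_smooth q) z hu, kn_D1 hN hk h1, QF_q1 hk, QF_q1 hq]
  ring

theorem pF_D2 (hN : NData g h m Q P) (hk : ∀ a b, k a b = k b a) (hq : ∀ a b, q a b = q b a)
    {u : m} (h1 : nf Q u u = 1) (a b : m) :
    D2 (pF Q k q x y z) u a b = 2 * x * k a b + y * g2 Q k u a b + 2 * z * q a b := by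
  have hu := ne_of_unit h1
  have s1 := cs x (k_smooth k)
  have s2 := cs y (kn_smooth (k := k) hN)
  have s3 := cs z (k_smooth q)
  rw [pF_cmb, D2_sum (s1.add s2) s3 hu, D2_sum s1 s2 hu, smul_D2 (k_smooth k) x hu,
    smul_D2 (kn_smooth hN) y hu, smul_D2 (k_smooth q) z hu, kn_D2 hN hk h1, QF_q2 hk, QF_q2 hq]
  ring

theorem pF_D3 (hN : NData g h m Q P) (hk : ∀ a b, k a b = k b a) (hq : ∀ a b, q a b = q b a)
    {u : m} (h1 : nf Q u u = 1) (a b c : m) :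
    D3 (pF Q k q x y z) u a b c = y * g3 Q k u a b c := by
  have hu := ne_of_unit h1
  have s1 := cs x (k_smooth k)
  have s2 := cs y (kn_smooth (k := k) hN)
  have s3 := cs z (k_smooth q)
  rw [pF_cmb, D3_sum (s1.add s2) s3 hu, D3_sum s1 s2 hu, smul_D3 (k_smooth k) x hu,
    smul_D3 (kn_smooth hN) y hu, smul_D3 (k_smooth q) z hu, kn_D3 hN hk h1, QF_q3 hk, QF_q3 hq]
  ring

theorem pF_D4 (hN : NData g h m Q P) (hk : ∀ a b, k a b = k b a) (hq : ∀ a b, q a b = q b a)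
    {u : m} (h1 : nf Q u u = 1) (a b c d : m) :
    D4 (pF Q k q x y z) u a b c d = y * g4 Q k u a b c d := by
  have hu := ne_of_unit h1
  have s1 := cs x (k_smooth k)
  have s2 := cs y (kn_smooth (k := k) hN)
  have s3 := cs z (k_smooth q)
  rw [pF_cmb, D4_sum (s1.add s2) s3 hu, D4_sum s1 s2 hu, smul_D4 (k_smooth k) x hu,
    smul_D4 (kn_smooth hN) y hu, smul_D4 (k_smooth q) z hu, kn_D4 hN hk h1, QF_q4 hk, QF_q4 hq]
  ring

/-- the third order form, in terms of the projections of the brackets -/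
theorem T3F_eq' {φ : m → ℝ} (hN : NData g h m Q P) {u b x s y : m}
    (hx : ∀ w : m, Q (x : 𝔸) w = D1 φ u w) (hs : ∀ w : m, Q (s : 𝔸) w = D2 φ u b w)
    (hy : ∀ w : m, Q (y : 𝔸) w = D3 φ u b b w) :
    T3F Q P φ u b =
      - (1 / 2) * D4 φ u b b (P ⁅(u : 𝔸), (x : 𝔸)⁆) (P ⁅(u : 𝔸), (x : 𝔸)⁆)
      - D3 φ u b (P ⁅(u : 𝔸), (x : 𝔸)⁆) ((2 : ℝ) • P ⁅(b : 𝔸), (x : 𝔸)⁆ - P ⁅(u : 𝔸), (s : 𝔸)⁆)
      + (1 / 2) * D2 φ u (P ⁅(u : 𝔸), (x : 𝔸)⁆)
          ((2 : ℝ) • P ⁅(b : 𝔸), (s : 𝔸)⁆ + P ⁅(u : 𝔸), (y : 𝔸)⁆)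
      - D2 φ u (P ⁅(b : 𝔸), (x : 𝔸)⁆) (P ⁅(b : 𝔸), (x : 𝔸)⁆)
      + D2 φ u (P ⁅(b : 𝔸), (x : 𝔸)⁆) (P ⁅(u : 𝔸), (s : 𝔸)⁆)
      - D2 φ u (P ⁅(u : 𝔸), (s : 𝔸)⁆) (P ⁅(u : 𝔸), (s : 𝔸)⁆)
      - Q (P ⁅(b : 𝔸), (x : 𝔸)⁆ - P ⁅(u : 𝔸), (s : 𝔸)⁆ : m) (P ⁅(x : 𝔸), (s : 𝔸)⁆ : m)
      - (1 / 2) * Q (P ⁅(u : 𝔸), (x : 𝔸)⁆ : m) (P ⁅(x : 𝔸), (y : 𝔸)⁆ : m) := by
  rw [← T3F_eq hN hx hs hy, T3N, map_add, map_smul, hN.Qsymm ⁅(x : 𝔸), (y : 𝔸)⁆,
    Q_P hN _ (lm hN x s), Q_P hN _ (lm hN x y)]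

end general


/-! ### the explicit function -/

theorem vX_pF (ε : ℝ) : vX ε = fun w : V =>
    (-(3 / 2) * kE w w + 1 * (kE w w ^ 2 * (QQ (w : Mat) w)⁻¹)) + (-ε) * mM w w := by
  funext w
  unfold vX
  rw [BN_apply]; ring

/-- first derivative of `K² / N` at unit vectors -/
def G1 (u a : V) : ℝ := 4 * (kE u u * kE u a) - 2 * kE u u ^ 2 * QQ (u : Mat) a

/-- second derivative of `K² / N` at unit vectors -/
def G2 (u a b : V) : ℝ :=
  4 * (kE u u * kE a b) + 8 * (kE u a * kE u b)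
    - 2 * kE u u ^ 2 * QQ (a : Mat) b - 2 * QQ (u : Mat) b * G1 u a - 2 * QQ (u : Mat) a * G1 u b

/-- third derivative of `K² / N` at unit vectors -/
def G3 (u a b c : V) : ℝ :=
  8 * (kE u a * kE b c + kE u b * kE a c + kE u c * kE a b)
    - 2 * QQ (u : Mat) a * G2 u b c - 2 * QQ (u : Mat) b * G2 u a c - 2 * QQ (u : Mat) c * G2 u a b
    - 2 * QQ (a : Mat) b * G1 u c - 2 * QQ (a : Mat) c * G1 u b - 2 * QQ (b : Mat) c * G1 u a

/-- fourth derivative of `K² / N` at unit vectors -/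
def G4 (u a b c d : V) : ℝ :=
  8 * (kE a d * kE b c + kE b d * kE a c + kE c d * kE a b)
    - 2 * QQ (u : Mat) a * G3 u b c d - 2 * QQ (u : Mat) b * G3 u a c d
    - 2 * QQ (u : Mat) c * G3 u a b d - 2 * QQ (u : Mat) d * G3 u a b c
    - 2 * QQ (a : Mat) b * G2 u c d - 2 * QQ (a : Mat) c * G2 u b d - 2 * QQ (a : Mat) d * G2 u b c
    - 2 * QQ (b : Mat) c * G2 u a d - 2 * QQ (b : Mat) d * G2 u a c - 2 * QQ (c : Mat) d * G2 u a b

theorem vX_D1 (ε : ℝ) {u : V} (h1 : QQ (u : Mat) u = 1) (a : V) :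
    D1 (vX ε) u a = 2 * (-(3 / 2)) * kE u a + 1 * G1 u a + 2 * (-ε) * mM u a := by
  rw [vX_pF]
  exact pF_D1 (k := X3.kEL) (q := X3.mML) nD X3.kE_comm X3.mM_comm h1 a

theorem vX_D2 (ε : ℝ) {u : V} (h1 : QQ (u : Mat) u = 1) (a b : V) :
    D2 (vX ε) u a b = 2 * (-(3 / 2)) * kE a b + 1 * G2 u a b + 2 * (-ε) * mM a b := by
  rw [vX_pF]
  exact pF_D2 (k := X3.kEL) (q := X3.mML) nD X3.kE_comm X3.mM_comm h1 a b

theorem vX_D3 (ε : ℝ) {u : V} (h1 : QQ (u : Mat) u = 1) (a b c : V) :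
    D3 (vX ε) u a b c = 1 * G3 u a b c := by
  rw [vX_pF]
  exact pF_D3 (k := X3.kEL) (q := X3.mML) nD X3.kE_comm X3.mM_comm h1 a b c

theorem vX_D4 (ε : ℝ) {u : V} (h1 : QQ (u : Mat) u = 1) (a b c d : V) :
    D4 (vX ε) u a b c d = 1 * G4 u a b c d := by
  rw [vX_pF]
  exact pF_D4 (k := X3.kEL) (q := X3.mML) nD X3.kE_comm X3.mM_comm h1 a b c d

/-- flags over `x4` -/
theorem flag {u b : V} (h : Fl u b) (hP : cP u = 0) (hC : cC u = 0)
    (hQ : cQ u = 0) (h0 : 10 * c0 u ^ 2 = 5 / 9) :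
    Complex.normSq (cR u) = 4 / 9 ∧ c0 b = 0 ∧ cP b = 0 ∧ cR b = 0 ∧
      cQ b * conj (cR u) = 4 * Complex.I * c0 u * cC b ∧
      cC b * cR u = -2 * Complex.I * c0 u * cQ b ∧
      Complex.normSq (cC b) = 1 / 6 ∧ Complex.normSq (cQ b) = 1 / 3 := by
  obtain ⟨huu, hbb, hub, hbr⟩ := h
  have hc : c0 u ≠ 0 := by
    intro h; rw [h] at h0; norm_num at h0
  have hcC : (c0 u : ℂ) ≠ 0 := by exact_mod_cast hc
  rw [QQ_coords, hP, hC, hQ] at huu hub
  simp only [rip, Complex.zero_re, Complex.zero_im, zero_mul, mul_zero, add_zero] at huu hub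
  have nR : Complex.normSq (cR u) = 4 / 9 := by
    rw [Complex.normSq_apply]; linarith
  obtain ⟨hb1, -⟩ := (lie_eq_zero_iff u b).1 hbr
  have e1 := br_P u b
  have e2 := br_R u b
  have e3 := br_C u b
  have e4 := br_Q u b
  rw [hb1] at e1 e2 e3 e4
  simp only [map_zero, hP, hC, hQ, mul_zero, zero_mul, sub_zero, zero_sub, add_zero,
    sub_self] at e1 e2 e3 e4
  have hPb : cP b = 0 := by
    have h6 : (-6 : ℂ) * Complex.I * (c0 u * cP b) = 0 := e1.symm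
    have h7 : (c0 u : ℂ) * cP b = 0 := by
      have : (-6 : ℂ) * Complex.I ≠ 0 := by simp
      exact (mul_eq_zero.1 h6).resolve_left this
    exact (mul_eq_zero.1 h7).resolve_left hcC
  have hRb : (c0 u : ℂ) * cR b = c0 b * cR u := by
    have h6 : (2 : ℂ) * Complex.I * (c0 u * cR b - c0 b * cR u) = 0 := e2.symm
    have : (2 : ℂ) * Complex.I ≠ 0 := by simp
    exact sub_eq_zero.1 ((mul_eq_zero.1 h6).resolve_left this)
  have r1 := congrArg Complex.re hRb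
  have r2 := congrArg Complex.im hRb
  simp at r1 r2
  have hd : c0 b = 0 := by
    have h6 : c0 u * (10 * (c0 u * c0 b) + ((cR u).re * (cR b).re + (cR u).im * (cR b).im)) = 0 := by
      rw [hub, mul_zero]
    have h7 : c0 b * (10 * c0 u ^ 2 + Complex.normSq (cR u)) = 0 := by
      rw [Complex.normSq_apply]
      linear_combination h6 - (cR u).re * r1 - (cR u).im * r2
    rw [h0, nR] at h7
    linarith
  have hR0 : cR b = 0 := by
    rw [hd] at hRb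
    simp only [Complex.ofReal_zero, zero_mul] at hRb
    exact (mul_eq_zero.1 hRb).resolve_left hcC
  have hq : cQ b * conj (cR u) = 4 * Complex.I * c0 u * cC b := by
    linear_combination -e3
  have hcR : cC b * cR u = -2 * Complex.I * c0 u * cQ b := by
    linear_combination e4
  have n1 : Complex.normSq (cQ b) * Complex.normSq (cR u) = 16 * c0 u ^ 2 * Complex.normSq (cC b) := by
    have := congrArg Complex.normSq hq
    simp only [Complex.normSq_mul, Complex.normSq_conj, Complex.normSq_I, Complex.normSq_ofReal] at this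
    rw [this]
    have h4 : Complex.normSq (4 : ℂ) = 16 := by
      have := Complex.normSq_ofReal 4
      norm_num at this ⊢
    rw [h4]; ring
  have nn : 2 * Complex.normSq (cC b) + 2 * Complex.normSq (cQ b) = 1 := by
    rw [QQ_coords, hd, hPb, hR0] at hbb
    simp only [rip, Complex.zero_re, Complex.zero_im, mul_zero, add_zero, zero_add] at hbb
    rw [Complex.normSq_apply, Complex.normSq_apply]; exact hbb
  rw [nR] at n1
  refine ⟨nR, hd, hPb, hR0, hq, hcR, ?_, ?_⟩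
  · nlinarith
  · nlinarith


/-- the third order form over `x₄` -/
theorem value {ε : ℝ} {u b : V} (h : Fl u b) (hP : cP u = 0) (hC : cC u = 0) (hQ : cQ u = 0)
    (h0 : 10 * c0 u ^ 2 = 5 / 9) :
    T3F QQ (PP 1 3) (vX ε) u b = 1372 / 19683 - 7 / 81 * ε ^ 2 := by
  obtain ⟨nR, b0, bP, bR, e1, e2, nC, nS⟩ := flag h hP hC hQ h0
  obtain ⟨huu, hbb, hub, hbr⟩ := h
  obtain ⟨c, hc⟩ : ∃ c, c = c0 u := ⟨_, rfl⟩
  obtain ⟨R, hR⟩ : ∃ R, R = cR u := ⟨_, rfl⟩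
  obtain ⟨C, hC'⟩ : ∃ C, C = cC b := ⟨_, rfl⟩
  obtain ⟨S, hS⟩ : ∃ S, S = cQ b := ⟨_, rfl⟩
  rw [← hc] at h0 e1 e2
  rw [← hR] at nR e1 e2
  rw [← hC'] at e1 e2 nC
  rw [← hS] at e1 e2 nS
  have c2 : c ^ 2 = 1 / 18 := by linarith
  obtain ⟨A, hA⟩ : ∃ A : ℝ, A = -50 / 81 := ⟨_, rfl⟩
  obtain ⟨B, hB⟩ : ∃ B : ℝ, B = -7 / 9 := ⟨_, rfl⟩
  -- the forms
  have kuu : kE u u = 5 / 9 := by
    unfold kE rip; rw [hQ, ← hc]; simp; linarith
  have ku : ∀ w : V, kE u w = 10 * (c * c0 w) := by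
    intro w; unfold kE rip; rw [hQ, ← hc]; simp
  have kb : ∀ w : V, kE b w = 2 * rip S (cQ w) := by
    intro w; unfold kE; rw [b0, ← hS]; simp
  have nu : ∀ w : V, QQ (u : Mat) w = 10 * (c * c0 w) + rip R (cR w) := by
    intro w; rw [QQ_coords, hP, hC, hQ, ← hc, ← hR]; simp [rip]
  have nb : ∀ w : V, QQ (b : Mat) w = 2 * rip C (cC w) + 2 * rip S (cQ w) := by
    intro w; rw [QQ_coords, b0, bP, bR, ← hC', ← hS]; simp [rip]
  have rS : rip S S = 1 / 3 := by rw [rip_self]; exact nS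
  have rC : rip C C = 1 / 6 := by rw [rip_self]; exact nC
  have rR : rip R R = 4 / 9 := by rw [rip_self]; exact nR
  have kub : kE u b = 0 := by rw [ku, b0]; ring
  have kbb : kE b b = 2 / 3 := by rw [kb, ← hS, rS]; norm_num
  have g1u : ∀ w, G1 u w = 20 / 9 * kE u w - 50 / 81 * QQ (u : Mat) w := by
    intro w; unfold G1; rw [kuu]; ring
  have g1b : G1 u b = 0 := by rw [g1u, kub, hub]; ring
  have g2b : ∀ w, G2 u b w = 20 / 9 * kE b w - 50 / 81 * QQ (b : Mat) w := by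
    intro w; unfold G2; rw [kuu, kub, hub, g1b]; ring
  -- the gradients
  obtain ⟨X, hX⟩ : ∃ X : V, X = mkV ((A + B) * c) 0 ((A : ℂ) * R) 0 0 := ⟨_, rfl⟩
  obtain ⟨Z, hZ⟩ : ∃ Z : V, Z = mkV 0 (-((ε : ℂ) * conj C)) 0 ((A : ℂ) * C)
    (((A + B : ℝ) : ℂ) * S) := ⟨_, rfl⟩
  obtain ⟨Y, hY⟩ : ∃ Y : V, Y = mkV (32 / 81 * c) 0 (((-40 / 81 : ℝ) : ℂ) * R) 0 0 := ⟨_, rfl⟩
  have X0 : c0 X = (A + B) * c := by rw [hX, c0_mk]
  have XP : cP X = 0 := by rw [hX, cP_mk]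
  have XR : cR X = (A : ℂ) * R := by rw [hX, cR_mk]
  have XC : cC X = 0 := by rw [hX, cC_mk]
  have XQ : cQ X = 0 := by rw [hX, cQ_mk]
  have Z0 : c0 Z = 0 := by rw [hZ, c0_mk]
  have ZP : cP Z = -((ε : ℂ) * conj C) := by rw [hZ, cP_mk]
  have ZR : cR Z = 0 := by rw [hZ, cR_mk]
  have ZC : cC Z = (A : ℂ) * C := by rw [hZ, cC_mk]
  have ZQ : cQ Z = ((A + B : ℝ) : ℂ) * S := by rw [hZ, cQ_mk]
  have Y0 : c0 Y = 32 / 81 * c := by rw [hY, c0_mk]
  have YP : cP Y = 0 := by rw [hY, cP_mk]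
  have YR : cR Y = ((-40 / 81 : ℝ) : ℂ) * R := by rw [hY, cR_mk]
  have YC : cC Y = 0 := by rw [hY, cC_mk]
  have YQ : cQ Y = 0 := by rw [hY, cQ_mk]
  have ripr : ∀ (r : ℝ) (z w : ℂ), rip ((r : ℂ) * z) w = r * rip z w := by
    intro r z w; unfold rip; rw [Complex.re_ofReal_mul, Complex.im_ofReal_mul]; ring
  have r0 : ∀ w : ℂ, rip 0 w = 0 := by intro w; simp [rip]
  have hx : ∀ w : V, QQ (X : Mat) w = D1 (vX ε) u w := by
    intro w
    rw [vX_D1 ε huu, g1u, ku, nu, QQ_coords, X0, XP, XR, XC, XQ, ripr, r0, r0, r0, mM, hP, hC, hA,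
      hB]
    simp
    ring
  have hz : ∀ w : V, QQ (Z : Mat) w = D2 (vX ε) u b w := by
    intro w
    rw [vX_D2 ε huu, g2b, kb, nb, QQ_coords, Z0, ZP, ZR, ZC, ZQ, ripr, ripr, r0, mM, bP, ← hC', hA,
      hB]
    unfold rip
    simp
    ring
  have hy : ∀ w : V, QQ (Y : Mat) w = D3 (vX ε) u b b w := by
    intro w
    rw [vX_D3 ε huu]
    unfold G3
    rw [g2b b, g1b, hub, kub, kbb, hbb, g1u, ku, nu, QQ_coords, Y0, YP, YR, YC, YQ, ripr, r0, r0, r0]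
    ring
  have key : T3F QQ (PP 1 3) (vX ε) u b =
      - (1 / 2) * D4 (vX ε) u b b (br u X) (br u X)
      - D3 (vX ε) u b (br u X) ((2 : ℝ) • br b X - br u Z)
      + (1 / 2) * D2 (vX ε) u (br u X) ((2 : ℝ) • br b Z + br u Y)
      - D2 (vX ε) u (br b X) (br b X)
      + D2 (vX ε) u (br b X) (br u Z)
      - D2 (vX ε) u (br u Z) (br u Z)
      - QQ ((br b X - br u Z : V) : Mat) (br X Z)
      - (1 / 2) * QQ ((br u X : V) : Mat) (br X Y) := by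
    exact T3F_eq' nD hx hz hy
  have i0 : ∀ w : ℂ, imp 0 w = 0 := by intro w; simp [imp]
  have i0' : ∀ w : ℂ, imp w 0 = 0 := by intro w; simp [imp]
  have r0' : ∀ w : ℂ, rip w 0 = 0 := by intro w; simp [rip]
  have hCS : conj C * S = (3 / 2 : ℂ) * Complex.I * c * R := by
    have h1 : (Complex.normSq C : ℂ) * R = -2 * Complex.I * c * (conj C * S) := by
      rw [Complex.normSq_eq_conj_mul_self]
      linear_combination conj C * e2
    rw [nC] at h1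
    have h2 : (c : ℂ) ^ 2 = 1 / 18 := by
      have := congrArg (fun t : ℝ => (t : ℂ)) c2
      simpa using this
    push_cast at h1
    linear_combination (-9 * Complex.I * c) * h1 + (18 * Complex.I ^ 2 * (conj C * S)) * h2
      + (conj C * S) * Complex.I_sq
  -- `e = [u, x]`
  obtain ⟨E, hE⟩ : ∃ E, E = br u X := ⟨_, rfl⟩
  have E0 : c0 E = 0 := by
    rw [hE, br_0, hC, hQ, hP, i0, i0, i0, ← hR, XR]
    simp [imp]; ring
  have EP : cP E = 0 := by rw [hE, br_P, hC, hP, XP, XC]; ring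
  have ER : cR E = -(2 * Complex.I * c * B * R) := by
    rw [hE, br_R, hC, hQ, ← hc, ← hR, X0, XR, XC, XQ]; push_cast; ring
  have EC : cC E = 0 := by rw [hE, br_C, hC, hQ, hP, XC, XP, XQ]; ring
  have EQ : cQ E = 0 := by rw [hE, br_Q, hC, hQ, hP, XC, XP, XQ]; ring
  -- `p = [b, x]`
  obtain ⟨p, hp⟩ : ∃ p, p = br b X := ⟨_, rfl⟩
  have p0 : c0 p = 0 := by
    rw [hp, br_0, XC, XQ, XP, bR, i0', i0', i0', i0]; ring
  have pP : cP p = 0 := by rw [hp, br_P, b0, bP, XP, XC, XQ]; simp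
  have pR : cR p = 0 := by rw [hp, br_R, b0, bR, XC, XQ]; simp
  have pC : cC p = 4 * Complex.I * c * B * C := by
    rw [hp, br_C, b0, bP, bR, ← hC', ← hS, X0, XR, XC, XP, XQ]
    simp only [map_mul, Complex.conj_ofReal, map_zero]
    push_cast
    linear_combination -(A : ℂ) * e1
  have pQ : cQ p = 2 * Complex.I * c * B * S := by
    rw [hp, br_Q, b0, bP, bR, ← hC', ← hS, X0, XR, XC, XP, XQ]
    push_cast
    linear_combination (A : ℂ) * e2
  -- `r = [u, s]`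
  obtain ⟨r, hr⟩ : ∃ r, r = br u Z := ⟨_, rfl⟩
  have rr0 : c0 r = 0 := by
    rw [hr, br_0, hC, hQ, hP, ZR, i0', i0, i0, i0]; ring
  have rP : cP r = 6 * Complex.I * ε * c * conj C := by
    rw [hr, br_P, hC, hQ, hP, ← hc, ZP, Z0]; push_cast; ring
  have rR' : cR r = 0 := by rw [hr, br_R, hC, hQ, ← hc, ZR, Z0]; simp
  have rC' : cC r = 4 * Complex.I * c * B * C := by
    rw [hr, br_C, hC, hQ, hP, ← hc, ← hR, Z0, ZR, ZC, ZP, ZQ]
    simp only [map_mul, Complex.conj_ofReal, map_zero]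
    push_cast
    linear_combination ((A : ℂ) + B) * e1
  have rQ : cQ r = -(2 * Complex.I * c * B * S) := by
    rw [hr, br_Q, hC, hQ, hP, ← hc, ← hR, Z0, ZR, ZC, ZP, ZQ]
    simp only [map_mul, Complex.conj_ofReal, map_zero]
    push_cast
    linear_combination -(A : ℂ) * e2
  -- `2 [b, s] + [u, y]`
  obtain ⟨T, hT⟩ : ∃ T, T = (2 : ℝ) • br b Z + br u Y := ⟨_, rfl⟩
  have TR : cR T = -((6 * B + 16 / 9) * (Complex.I * c * R)) := by
    rw [hT, map_add, map_smul, br_R, br_R, hC, hQ, b0, bR, ← hC', ← hS, ← hc, ← hR, Z0, ZR, ZC, ZQ,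
      Y0, YR, YC, YQ]
    simp only [map_mul, Complex.conj_ofReal, map_zero, Complex.real_smul]
    push_cast
    linear_combination -(4 * (B : ℂ)) * hCS
  -- `[x, s]`, `[x, y]`
  obtain ⟨F, hF⟩ : ∃ F, F = br X Z := ⟨_, rfl⟩
  have FP : cP F = 6 * Complex.I * (A + B) * c * ε * conj C := by
    rw [hF, br_P, X0, XP, XC, XQ, ZP, Z0]; push_cast; ring
  have FR' : cR F = 0 := by rw [hF, br_R, XC, XQ, ZR, Z0]; simp
  have FQ : cQ F = -(2 * Complex.I * c * S * (2 * A * B + B ^ 2)) := by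
    rw [hF, br_Q, X0, XP, XC, XQ, XR, ZP, Z0, ZQ, ZC, ZR]
    simp only [map_mul, Complex.conj_ofReal, map_zero]
    push_cast
    linear_combination -(A : ℂ) ^ 2 * e2
  obtain ⟨K, hK⟩ : ∃ K, K = br X Y := ⟨_, rfl⟩
  have KR : cR K = -(2 * Complex.I * c * R * ((72 * A + 40 * B) / 81)) := by
    rw [hK, br_R, X0, XC, XQ, XR, Y0, YR, YC, YQ]
    simp only [map_zero]
    push_cast
    ring
  rw [← hE, ← hp, ← hr, ← hT, ← hF, ← hK] at key
  -- real products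
  have ripI : ∀ (x y : ℝ) (z : ℂ), rip ((x : ℂ) * Complex.I * z) ((y : ℂ) * Complex.I * z) =
      x * y * rip z z := by
    intro x y z; unfold rip; simp; ring
  have rip1 : ∀ (y : ℝ) (z : ℂ), rip z ((y : ℂ) * Complex.I * z) = 0 := by
    intro y z; unfold rip; simp; ring
  have c4 : c * c = 1 / 18 := by rw [← pow_two]; exact c2
  have rCc : rip (conj C) (conj C) = 1 / 6 := by
    rw [← rC]; unfold rip; simp
  have ER1 : cR E = ((-(2 * c * B) : ℝ) : ℂ) * Complex.I * R := by rw [ER]; push_cast; ring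
  have pC1 : cC p = ((4 * c * B : ℝ) : ℂ) * Complex.I * C := by rw [pC]; push_cast; ring
  have pQ1 : cQ p = ((2 * c * B : ℝ) : ℂ) * Complex.I * S := by rw [pQ]; push_cast; ring
  have rP1 : cP r = ((6 * ε * c : ℝ) : ℂ) * Complex.I * conj C := by rw [rP]; push_cast; ring
  have rC1 : cC r = ((4 * c * B : ℝ) : ℂ) * Complex.I * C := by rw [rC']; push_cast; ring
  have rQ1 : cQ r = ((-(2 * c * B) : ℝ) : ℂ) * Complex.I * S := by rw [rQ]; push_cast; ring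
  have TR1 : cR T = ((-((6 * B + 16 / 9) * c) : ℝ) : ℂ) * Complex.I * R := by
    rw [TR]; push_cast; ring
  have FP1 : cP F = ((6 * (A + B) * c * ε : ℝ) : ℂ) * Complex.I * conj C := by
    rw [FP]; push_cast; ring
  have FQ1 : cQ F = ((-(2 * c * (2 * A * B + B ^ 2)) : ℝ) : ℂ) * Complex.I * S := by
    rw [FQ]; push_cast; ring
  have KR1 : cR K = ((-(2 * c * ((72 * A + 40 * B) / 81)) : ℝ) : ℂ) * Complex.I * R := by
    rw [KR]; push_cast; ring
  -- the forms at the brackets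
  have kE0 : ∀ w : V, kE E w = 0 := by
    intro w; unfold kE; rw [E0, EQ, r0]; ring
  have kuE : kE u E = 0 := by rw [ku, E0]; ring
  have kbE : kE b E = 0 := by rw [kb, EQ, r0']; ring
  have nuE : QQ (u : Mat) E = 0 := by rw [nu, E0, ER1, rip1]; ring
  have nbE : QQ (b : Mat) E = 0 := by rw [nb, EC, EQ, r0', r0']; ring
  have nEw : ∀ w : V, QQ (E : Mat) w = rip (cR E) (cR w) := by
    intro w; rw [QQ_coords, E0, EP, EC, EQ, r0, r0, r0]; ring
  have nEE : QQ (E : Mat) E = 8 / 81 * B ^ 2 := by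
    rw [nEw, ER1, ripI, rR]; linear_combination (16 / 9 * B ^ 2) * c4
  have g2E : ∀ w, G2 u E w = -(50 / 81) * QQ (E : Mat) w := by
    intro w; unfold G2; rw [kuu, kE0, kuE, nuE, g1u, kuE, nuE]; ring
  have nET : QQ (E : Mat) T = -(2 * B) * -(6 * B + 16 / 9) * (2 / 81) := by
    rw [nEw, ER1, TR1, ripI, rR]
    linear_combination (-(2 * B) * -(6 * B + 16 / 9) * (4 / 9)) * c4
  have nEK : QQ (E : Mat) K = 8 / 81 * B * ((72 * A + 40 * B) / 81) := by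
    rw [nEw, ER1, KR1, ripI, rR]
    linear_combination (16 / 9 * B * ((72 * A + 40 * B) / 81)) * c4
  have mEw : ∀ w : V, mM E w = 0 := by
    intro w; unfold mM; rw [EP, EC]; simp
  have kup : kE u p = 0 := by rw [ku, p0]; ring
  have kur : kE u r = 0 := by rw [ku, rr0]; ring
  have kbp : kE b p = 0 := by rw [kb, pQ1, rip1]; ring
  have kbr : kE b r = 0 := by rw [kb, rQ1, rip1]; ring
  have nup : QQ (u : Mat) p = 0 := by rw [nu, p0, pR, r0']; ring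
  have nur : QQ (u : Mat) r = 0 := by rw [nu, rr0, rR', r0']; ring
  have nbp : QQ (b : Mat) p = 0 := by rw [nb, pC1, pQ1, rip1, rip1]; ring
  have nbr : QQ (b : Mat) r = 0 := by rw [nb, rC1, rQ1, rip1, rip1]; ring
  have nEp : QQ (E : Mat) p = 0 := by rw [nEw, pR, r0']
  have nEr : QQ (E : Mat) r = 0 := by rw [nEw, rR', r0']
  have kpp : kE p p = 4 / 27 * B ^ 2 := by
    unfold kE; rw [p0, pQ1, ripI, rS]; linear_combination (8 / 3 * B ^ 2) * c4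
  have kpr : kE p r = -(4 / 27) * B ^ 2 := by
    unfold kE; rw [p0, pQ1, rQ1, ripI, rS]; linear_combination -(8 / 3 * B ^ 2) * c4
  have krr : kE r r = 4 / 27 * B ^ 2 := by
    unfold kE; rw [rr0, rQ1, ripI, rS]; linear_combination (8 / 3 * B ^ 2) * c4
  have npp : QQ (p : Mat) p = 4 / 9 * B ^ 2 := by
    rw [QQ_coords, p0, pP, pR, pC1, pQ1, ripI, ripI, r0, rC, rS]
    linear_combination (8 * B ^ 2) * c4
  have npr : QQ (p : Mat) r = 4 / 27 * B ^ 2 := by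
    rw [QQ_coords, p0, pP, pR, pC1, pQ1, rC1, rQ1, ripI, ripI, r0, r0, rC, rS]
    linear_combination (8 / 3 * B ^ 2) * c4
  have nrr : QQ (r : Mat) r = ε ^ 2 / 3 + 4 / 9 * B ^ 2 := by
    rw [QQ_coords, rr0, rP1, rR', rC1, rQ1, ripI, ripI, ripI, r0, rCc, rC, rS]
    linear_combination (8 * B ^ 2 + 6 * ε ^ 2) * c4
  have rem : ∀ x y : ℝ, (((x : ℂ) * Complex.I * C) * ((y : ℂ) * Complex.I * conj C)).re =
      -(x * y * (1 / 6)) := by
    intro x y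
    rw [← rC]; unfold rip; simp; ring
  have mpp : mM p p = 0 := by unfold mM; rw [pP]; simp
  have mpr : mM p r = -(1 / 9) * B * ε := by
    unfold mM; rw [pC1, rP1, pP, mul_zero, rem, Complex.zero_re]
    linear_combination (-2 * B * ε) * c4
  have mrr : mM r r = -(2 / 9) * B * ε := by
    unfold mM; rw [rC1, rP1, rem]
    linear_combination (-4 * B * ε) * c4
  -- the differences
  obtain ⟨W, hW⟩ : ∃ W, W = (2 : ℝ) • p - r := ⟨_, rfl⟩
  have W0 : c0 W = 0 := by rw [hW, map_sub, map_smul, p0, rr0]; simp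
  have WR : cR W = 0 := by rw [hW, map_sub, map_smul, pR, rR']; simp
  have WC : cC W = ((4 * c * B : ℝ) : ℂ) * Complex.I * C := by
    rw [hW, map_sub, map_smul, pC1, rC1, Complex.real_smul]; push_cast; ring
  have WQ : cQ W = ((6 * c * B : ℝ) : ℂ) * Complex.I * S := by
    rw [hW, map_sub, map_smul, pQ1, rQ1, Complex.real_smul]; push_cast; ring
  have kuW : kE u W = 0 := by rw [ku, W0]; ring
  have kbW : kE b W = 0 := by rw [kb, WQ, rip1]; ring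
  have nuW : QQ (u : Mat) W = 0 := by rw [nu, W0, WR, r0']; ring
  have nbW : QQ (b : Mat) W = 0 := by rw [nb, WC, WQ, rip1, rip1]; ring
  have nEW : QQ (E : Mat) W = 0 := by rw [nEw, WR, r0']
  obtain ⟨U, hU⟩ : ∃ U, U = p - r := ⟨_, rfl⟩
  have U0 : c0 U = 0 := by rw [hU, map_sub, p0, rr0]; simp
  have UP : cP U = ((-(6 * ε * c) : ℝ) : ℂ) * Complex.I * conj C := by
    rw [hU, map_sub, pP, rP1]; push_cast; ring
  have UC : cC U = 0 := by rw [hU, map_sub, pC1, rC1]; ring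
  have UQ : cQ U = ((4 * c * B : ℝ) : ℂ) * Complex.I * S := by
    rw [hU, map_sub, pQ1, rQ1]; push_cast; ring
  have nUF : QQ (U : Mat) F = -(A + B) * ε ^ 2 / 3 - 8 / 27 * B ^ 2 * (2 * A + B) := by
    rw [QQ_coords, U0, UP, UC, UQ, FP1, FR', FQ1, ripI, ripI, r0, r0', rCc, rS]
    linear_combination (-(6 * (A + B) * ε ^ 2) - 16 / 3 * B * (2 * A * B + B ^ 2)) * c4
  rw [← hW, ← hU] at key
  have d4 : D4 (vX ε) u b b E E = -(40 / 81) * (8 / 81 * B ^ 2) := by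
    rw [vX_D4 ε huu]
    unfold G4
    rw [kbE, kE0, kbb, hub, nuE, hbb, nbE, g2E, g2b b, kbb, hbb, nEE]
    ring
  have d3 : D3 (vX ε) u b E W = 0 := by
    rw [vX_D3 ε huu]
    unfold G3
    rw [kub, kuE, kbW, kuW, kbE, hub, nuE, nuW, nbE, nbW, nEW]
    ring
  have d2 : ∀ v w : V, kE u v = 0 → kE u w = 0 → QQ (u : Mat) v = 0 → QQ (u : Mat) w = 0 →
      D2 (vX ε) u v w = B * kE v w + A * QQ (v : Mat) w - 2 * ε * mM v w := by
    intro v w h1 h2 h3 h4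
    rw [vX_D2 ε huu]
    unfold G2
    rw [h1, h2, h3, h4, kuu, hA, hB]; ring
  have d2T : D2 (vX ε) u E T = A * QQ (E : Mat) T := by
    rw [vX_D2 ε huu, g2E, kE0, mEw, hA]; ring
  rw [d4, d3, d2T, d2 p p kup kup nup nup, d2 p r kup kur nup nur, d2 r r kur kur nur nur, kpp, kpr,
    krr, npp, npr, nrr, mpp, mpr, mrr, nUF, nET, nEK] at key
  rw [key, hA, hB]
  ring

end X1b

/-- **X1b**: the third order form of the explicit function is positive over `x₄` -/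
theorem X1b {ε κ : ℝ} (hε : |ε| ≤ 1 / 2) {u b : V} (h : Fl u b) (hP : cP u = 0) (hC : cC u = 0)
    (hQ : cQ u = 0) (h0 : 10 * c0 u ^ 2 = 5 / 9) : 0 < T3 (vE ε κ) u b := by
  have hne : u ≠ 0 := by
    rintro rfl
    have := h.1
    simp at this
  have hS : Spec u := Or.inr (Or.inr (Or.inl ⟨hP, hC, hQ, h0⟩))
  have e1 : T3 (vE ε κ) u b = T3 (vX ε) u b := T3F_congr nD (X3.vE_Spec ε κ hne hS)
  have e2 : T3 (vX ε) u b = 1372 / 19683 - 7 / 81 * ε ^ 2 := X1b.value h hP hC hQ h0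
  have h4 := abs_le.1 hε
  rw [e1, e2]
  nlinarith [h4.1, h4.2]

end Pool.Agent.FL.S1
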