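import Pool.Agent.helper79.FR.StepB

/-!
# MP_f09395_gt: derivatives of quadratic forms, of quartic forms `K(β(z, z), β(z, z))` and of
quotients of the latter by a quadratic form
-/

set_option linter.unusedSectionVars false

noncomputable section

namespace Pool.Agent.FL

open scoped ContDiff
open Pool.Agent.Helper93.Fin Pool.Agent.helper79.FP Pool.Agent.helper79.FR
open Filter Topology

variable {E F F' : Type*} [NormedAddCommGroup E] [NormedSpace ℝ E] [NormedAddCommGroup F]
  [NormedSpace ℝ F] [NormedAddCommGroup F'] [NormedSpace ℝ F']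

theorem QF_bil (B : F →L[ℝ] F' →L[ℝ] ℝ) {f : E → F} {k : E → F'} {f' : E →L[ℝ] F}
    {k' : E →L[ℝ] F'} {u : E} (hf : HasFDerivAt f f' u) (hk : HasFDerivAt k k' u) (a : E) :
    fderiv ℝ (fun z => B (f z) (k z)) u a = B (f u) (k' a) + B (f' a) (k u) := by
  have h1 := B.hasFDerivAt_of_bilinear hf hk
  rw [h1.fderiv]
  simp

theorem QF_sq (β : E →L[ℝ] E →L[ℝ] F) (u : E) :
    HasFDerivAt (fun z => β z z) (β u + β.flip u) u := by
  have h1 := (β.hasFDerivAt (x := u)).clm_apply (hasFDerivAt_id u)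
  refine h1.congr_fderiv ?_
  ext a
  simp

theorem QF_lin (β : E →L[ℝ] E →L[ℝ] F) (a u : E) :
    HasFDerivAt (fun z => β z a) (β.flip a) u := (β.flip a).hasFDerivAt

/-! ### quadratic forms -/

variable {q : E →L[ℝ] E →L[ℝ] ℝ}

theorem QF_q1 (hq : ∀ a b, q a b = q b a) (u a : E) : D1 (fun z => q z z) u a = 2 * q u a := by
  rw [D1, (QF_sq q u).fderiv]
  simp only [add_apply, ContinuousLinearMap.flip_apply]
  rw [hq a u]; ring

theorem QF_q2 (hq : ∀ a b, q a b = q b a) (u a b : E) :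
    D2 (fun z => q z z) u a b = 2 * q a b := by
  have h1 : (fun z => D1 (fun z => q z z) z a) = fun z => (2 : ℝ) * q z a :=
    funext fun z => QF_q1 hq z a
  rw [D2, h1, ((QF_lin q a u).const_mul 2).fderiv]
  simp only [smul_apply, ContinuousLinearMap.flip_apply, smul_eq_mul]
  rw [hq a b]

theorem QF_q3 (hq : ∀ a b, q a b = q b a) (u a b c : E) : D3 (fun z => q z z) u a b c = 0 := by
  have h1 : (fun z => D2 (fun z => q z z) z a b) = fun _ => (2 : ℝ) * q a b :=
    funext fun z => QF_q2 hq z a b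
  rw [D3, h1]
  simp

theorem QF_q4 (hq : ∀ a b, q a b = q b a) (u a b c d : E) :
    D4 (fun z => q z z) u a b c d = 0 := by
  have h1 : (fun z => D3 (fun z => q z z) z a b c) = fun _ => (0 : ℝ) :=
    funext fun z => QF_q3 hq z a b c
  rw [D4, h1]
  simp

/-! ### quartic forms -/

variable {K : F →L[ℝ] F →L[ℝ] ℝ} {β : E →L[ℝ] E →L[ℝ] F}

/-- the quartic form `K(β(z, z), β(z, z))` -/
def QFG (K : F →L[ℝ] F →L[ℝ] ℝ) (β : E →L[ℝ] E →L[ℝ] F) (z : E) : ℝ := K (β z z) (β z z)

theorem QFG_smooth : ContDiff ℝ ∞ (QFG K β) := by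
  have h1 : ContDiff ℝ ∞ fun z : E => β z z := β.contDiff.clm_apply contDiff_id
  exact (K.contDiff.comp h1).clm_apply h1

theorem QFG_1 (hK : ∀ a b, K a b = K b a) (hβ : ∀ a b, β a b = β b a) (u a : E) :
    D1 (QFG K β) u a = 4 * K (β u u) (β u a) := by
  have h1 := QF_bil K (QF_sq β u) (QF_sq β u) a
  have h2 : D1 (QFG K β) u a = fderiv ℝ (fun z => K (β z z) (β z z)) u a := rfl
  rw [h2, h1]
  simp only [add_apply, ContinuousLinearMap.flip_apply]
  rw [hβ a u, hK (β u a + β u a) (β u u), map_add]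
  ring

theorem QFG_2 (hK : ∀ a b, K a b = K b a) (hβ : ∀ a b, β a b = β b a) (u a b : E) :
    D2 (QFG K β) u a b = 4 * K (β u u) (β a b) + 8 * K (β u a) (β u b) := by
  have h1 : (fun z => D1 (QFG K β) z a) = fun z => (4 : ℝ) * K (β z z) (β z a) :=
    funext fun z => QFG_1 hK hβ z a
  have h2 : fderiv ℝ (fun z => (4 : ℝ) * K (β z z) (β z a)) u b =
      4 * fderiv ℝ (fun z => K (β z z) (β z a)) u b := by
    have hd : DifferentiableAt ℝ (fun z => K (β z z) (β z a)) u :=
      (K.hasFDerivAt_of_bilinear (QF_sq β u) (QF_lin β a u)).differentiableAt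
    rw [(hd.hasFDerivAt.const_mul 4).fderiv]
    simp
  rw [D2, h1, h2, QF_bil K (QF_sq β u) (QF_lin β a u) b]
  simp only [add_apply, ContinuousLinearMap.flip_apply]
  rw [hβ b a, hβ b u, map_add, add_apply, hK (β u b) (β u a)]
  ring

theorem QFG_3 (hK : ∀ a b, K a b = K b a) (hβ : ∀ a b, β a b = β b a) (u a b c : E) :
    D3 (QFG K β) u a b c =
      8 * (K (β u a) (β b c) + K (β u b) (β a c) + K (β u c) (β a b)) := by
  have h1 : (fun z => D2 (QFG K β) z a b) =
      fun z => (4 : ℝ) * K (β z z) (β a b) + 8 * K (β z a) (β z b) :=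
    funext fun z => QFG_2 hK hβ z a b
  have e1 := K.hasFDerivAt_of_bilinear (QF_sq β u) (hasFDerivAt_const (β a b) u)
  have e2 := K.hasFDerivAt_of_bilinear (QF_lin β a u) (QF_lin β b u)
  have e3 := (e1.const_mul 4).add (e2.const_mul 8)
  rw [D3, h1]
  have e4 : HasFDerivAt (fun z => (4 : ℝ) * K (β z z) (β a b) + 8 * K (β z a) (β z b)) _ u := e3
  rw [e4.fderiv]
  simp only [add_apply, smul_apply, ContinuousLinearMap.precompR_apply,
    ContinuousLinearMap.precompL_apply, zero_apply, map_zero, ContinuousLinearMap.flip_apply,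
    ContinuousLinearMap.precompR, ContinuousLinearMap.compL_apply, ContinuousLinearMap.comp_apply,
    smul_eq_mul, map_add]
  rw [hβ c u, hβ c b, hβ c a, hK (β a c) (β u b)]
  ring

theorem QFG_4 (hK : ∀ a b, K a b = K b a) (hβ : ∀ a b, β a b = β b a) (u a b c d : E) :
    D4 (QFG K β) u a b c d =
      8 * (K (β a d) (β b c) + K (β b d) (β a c) + K (β c d) (β a b)) := by
  have h1 : (fun z => D3 (QFG K β) z a b c) =
      fun z => (8 : ℝ) * (K (β z a) (β b c) + K (β z b) (β a c) + K (β z c) (β a b)) :=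
    funext fun z => QFG_3 hK hβ z a b c
  have e1 := K.hasFDerivAt_of_bilinear (QF_lin β a u) (hasFDerivAt_const (β b c) u)
  have e2 := K.hasFDerivAt_of_bilinear (QF_lin β b u) (hasFDerivAt_const (β a c) u)
  have e3 := K.hasFDerivAt_of_bilinear (QF_lin β c u) (hasFDerivAt_const (β a b) u)
  have e4 : HasFDerivAt (fun z => (8 : ℝ) *
      (K (β z a) (β b c) + K (β z b) (β a c) + K (β z c) (β a b))) _ u :=
    ((e1.add e2).add e3).const_mul 8
  rw [D4, h1, e4.fderiv]
  simp only [add_apply, smul_apply, ContinuousLinearMap.precompR_apply,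
    ContinuousLinearMap.precompL_apply, zero_apply, map_zero, ContinuousLinearMap.flip_apply,
    ContinuousLinearMap.precompR, ContinuousLinearMap.compL_apply, ContinuousLinearMap.comp_apply,
    smul_eq_mul]
  rw [hβ d a, hβ d b, hβ d c]
  ring

end Pool.Agent.FL
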