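import Pool.Agent.FL.S2Core

/-!
# MP_f09395_gt: invariance of the third order form under the isotropy group
-/

set_option linter.unusedSectionVars false

noncomputable section

namespace Pool.Agent.FL

open scoped ContDiff
open Pool.Agent.Helper93.Fin Pool.Agent.helper79.FP Pool.Agent.helper79.FR
open Filter Topology

variable {𝔸 : Type*} [NormedRing 𝔸] [NormedAlgebra ℝ 𝔸] [FiniteDimensional ℝ 𝔸]
variable {g h m : Submodule ℝ 𝔸} {Q : 𝔸 →ₗ[ℝ] 𝔸 →ₗ[ℝ] ℝ} {P : 𝔸 →L[ℝ] m} {φ v : m → ℝ}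
variable {h0 : 𝔸} {B : m → 𝔸} {c : m → ℝ} {H : Subgroup 𝔸ˣ} {k : 𝔸ˣ}

theorem T3Inv_add (k : 𝔸ˣ) (X Y : 𝔸) : Adj k (X + Y) = Adj k X + Adj k Y := by
  simp only [Adj, mul_add, add_mul]

theorem T3Inv_smul (k : 𝔸ˣ) (r : ℝ) (X : 𝔸) : Adj k (r • X) = r • Adj k X := by
  simp only [Adj, mul_smul_comm, smul_mul_assoc]

/-- `Ad(k)` commutes with the projection -/
theorem T3Inv_P (hN : NData g h m Q P) (hC : Cas g h m Q P h0 B c) (hG : GrpD H h m Q h0 B c)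
    (hk : k ∈ H) {Z : 𝔸} (hZ : Z ∈ g) : P (Adj k Z) = adM P k (P Z) := by
  obtain ⟨r, hr⟩ := hC.span _ (hN.red.res Z hZ)
  have h1 : Z = r • h0 + (P Z : 𝔸) := by rw [← hr]; abel
  have h2 : Adj k Z = r • h0 + Adj k (P Z : 𝔸) := by
    conv_lhs => rw [h1]
    rw [T3Inv_add, T3Inv_smul, hG.adh0 k hk]
  rw [h2, map_add, map_smul, hN.red.P_h h0 hC.mem, smul_zero, zero_add, adM_apply]

theorem T3Inv_br (hN : NData g h m Q P) (hC : Cas g h m Q P h0 B c) (hG : GrpD H h m Q h0 B c)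
    (hk : k ∈ H) (u x : m) :
    P ⁅(adM P k u : 𝔸), (adM P k x : 𝔸)⁆ = adM P k (P ⁅(u : 𝔸), (x : 𝔸)⁆) := by
  rw [adM_coe hN hG hk, adM_coe hN hG hk, ← Adj_lie, T3Inv_P hN hC hG hk (lm hN u x)]

theorem T3Inv_Q (hN : NData g h m Q P) (hG : GrpD H h m Q h0 B c) (hk : k ∈ H) (u x : m) :
    Q (adM P k u : 𝔸) (adM P k x : 𝔸) = Q (u : 𝔸) x := by
  have h1 := hG.Qm k hk ((u : 𝔸) + x) (m.add_mem u.2 x.2)
  have h2 := hG.Qm k hk (u : 𝔸) u.2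
  have h3 := hG.Qm k hk (x : 𝔸) x.2
  rw [T3Inv_add] at h1
  simp only [map_add, LinearMap.add_apply] at h1
  rw [adM_coe hN hG hk, adM_coe hN hG hk]
  rw [hN.Qsymm (Adj k (x : 𝔸)) (Adj k (u : 𝔸)), hN.Qsymm (x : 𝔸) u] at h1
  linarith

theorem T3Inv_Qbr (hN : NData g h m Q P) (hC : Cas g h m Q P h0 B c) (hG : GrpD H h m Q h0 B c)
    (hk : k ∈ H) (w x s : m) :
    Q (adM P k w : 𝔸) ⁅(adM P k x : 𝔸), (adM P k s : 𝔸)⁆ = Q (w : 𝔸) ⁅(x : 𝔸), (s : 𝔸)⁆ := by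
  rw [← Q_P hN _ (lm hN _ _), ← Q_P hN _ (lm hN _ _), T3Inv_br hN hC hG hk, T3Inv_Q hN hG hk]

/-- `Ad(k)` is invertible -/
theorem T3Inv_surj (hN : NData g h m Q P) (hG : GrpD H h m Q h0 B c) (hk : k ∈ H) (w : m) :
    adM P k (adM P k⁻¹ w) = w := by
  have hk' : k⁻¹ ∈ H := H.inv_mem hk
  apply Subtype.ext
  rw [adM_coe hN hG hk, adM_coe hN hG hk']
  unfold Adj
  rw [inv_inv]
  calc (k : 𝔸) * (((k⁻¹ : 𝔸ˣ) : 𝔸) * (w : 𝔸) * (k : 𝔸)) * ((k⁻¹ : 𝔸ˣ) : 𝔸)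
      = ((k : 𝔸) * ((k⁻¹ : 𝔸ˣ) : 𝔸)) * (w : 𝔸) * ((k : 𝔸) * ((k⁻¹ : 𝔸ˣ) : 𝔸)) := by
        noncomm_ring
    _ = w := by rw [Units.mul_inv]; simp

/-- chain rule -/
theorem T3Inv_fd (hN : NData g h m Q P) (hG : GrpD H h m Q h0 B c) (hk : k ∈ H) {F F' : m → ℝ}
    (hF : ContDiffOn ℝ ∞ F {0}ᶜ) (hFF : ∀ z : m, z ≠ 0 → F (adM P k z) = F' z) {u : m}
    (hu : u ≠ 0) (a : m) :
    fderiv ℝ F (adM P k u) (adM P k a) = fderiv ℝ F' u a := by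
  have h1 : HasFDerivAt (fun z => F (adM P k z)) ((fderiv ℝ F (adM P k u)).comp (adM P k)) u :=
    (differentiableAt_of_ne hF (adM_ne hN hG hk hu)).hasFDerivAt.comp u (adM P k).hasFDerivAt
  have h2 : (fun z => F (adM P k z)) =ᶠ[𝓝 u] F' := by
    filter_upwards [isOpen_compl_singleton.mem_nhds hu] with z hz
    exact hFF z hz
  rw [← h2.fderiv_eq, h1.fderiv]; rfl

theorem T3Inv_D1 (hN : NData g h m Q P) (hG : GrpD H h m Q h0 B c) (hφ : ContDiffOn ℝ ∞ φ {0}ᶜ)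
    (hH : InvH H φ) (hk : k ∈ H) {u : m} (hu : u ≠ 0) (a : m) :
    D1 φ (adM P k u) (adM P k a) = D1 φ u a :=
  T3Inv_fd hN hG hk hφ (fun z _ => hH k hk z _ (adM_coe hN hG hk z)) hu a

theorem T3Inv_D2 (hN : NData g h m Q P) (hG : GrpD H h m Q h0 B c) (hφ : ContDiffOn ℝ ∞ φ {0}ᶜ)
    (hH : InvH H φ) (hk : k ∈ H) {u : m} (hu : u ≠ 0) (a b : m) :
    D2 φ (adM P k u) (adM P k a) (adM P k b) = D2 φ u a b :=
  T3Inv_fd hN hG hk (D1_smooth hφ _) (fun _ hz => T3Inv_D1 hN hG hφ hH hk hz a) hu b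

theorem T3Inv_D3 (hN : NData g h m Q P) (hG : GrpD H h m Q h0 B c) (hφ : ContDiffOn ℝ ∞ φ {0}ᶜ)
    (hH : InvH H φ) (hk : k ∈ H) {u : m} (hu : u ≠ 0) (a b d : m) :
    D3 φ (adM P k u) (adM P k a) (adM P k b) (adM P k d) = D3 φ u a b d :=
  T3Inv_fd hN hG hk (D2_smooth hφ _ _) (fun _ hz => T3Inv_D2 hN hG hφ hH hk hz a b) hu d

theorem T3Inv_D4 (hN : NData g h m Q P) (hG : GrpD H h m Q h0 B c) (hφ : ContDiffOn ℝ ∞ φ {0}ᶜ)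
    (hH : InvH H φ) (hk : k ∈ H) {u : m} (hu : u ≠ 0) (a b d e : m) :
    D4 φ (adM P k u) (adM P k a) (adM P k b) (adM P k d) (adM P k e) = D4 φ u a b d e :=
  T3Inv_fd hN hG hk (D3_smooth hφ _ _ _) (fun _ hz => T3Inv_D3 hN hG hφ hH hk hz a b d) hu e

/-- **the third order form is invariant** -/
theorem T3Inv_T3F (hN : NData g h m Q P) (hC : Cas g h m Q P h0 B c) (hG : GrpD H h m Q h0 B c)
    (hφ : ContDiffOn ℝ ∞ φ {0}ᶜ) (hH : InvH H φ) (hk : k ∈ H) {u : m} (hu : u ≠ 0) (b : m) :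
    T3F Q P φ (adM P k u) (adM P k b) = T3F Q P φ u b := by
  have ex : ∀ w : m, Q (adM P k (gx Q φ u) : 𝔸) w = D1 φ (adM P k u) w := by
    intro w
    conv_lhs => rw [← T3Inv_surj hN hG hk w]
    conv_rhs => rw [← T3Inv_surj hN hG hk w]
    rw [T3Inv_Q hN hG hk, gx_spec hN, T3Inv_D1 hN hG hφ hH hk hu]
  have es : ∀ w : m, Q (adM P k (gs Q φ u b) : 𝔸) w = D2 φ (adM P k u) (adM P k b) w := by
    intro w
    conv_lhs => rw [← T3Inv_surj hN hG hk w]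
    conv_rhs => rw [← T3Inv_surj hN hG hk w]
    rw [T3Inv_Q hN hG hk, gs_spec hN, T3Inv_D2 hN hG hφ hH hk hu]
  have ey : ∀ w : m, Q (adM P k (gy Q φ u b) : 𝔸) w =
      D3 φ (adM P k u) (adM P k b) (adM P k b) w := by
    intro w
    conv_lhs => rw [← T3Inv_surj hN hG hk w]
    conv_rhs => rw [← T3Inv_surj hN hG hk w]
    rw [T3Inv_Q hN hG hk, gy_spec hN, T3Inv_D3 hN hG hφ hH hk hu]
  rw [← T3F_eq hN ex es ey]
  unfold T3F T3N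
  obtain ⟨x, hx⟩ : ∃ x, x = gx Q φ u := ⟨_, rfl⟩
  obtain ⟨s, hs⟩ : ∃ s, s = gs Q φ u b := ⟨_, rfl⟩
  obtain ⟨y, hy⟩ : ∃ y, y = gy Q φ u b := ⟨_, rfl⟩
  rw [← hx, ← hs, ← hy]
  have e1 : P ((2 : ℝ) • ⁅(adM P k b : 𝔸), (adM P k s : 𝔸)⁆ + ⁅(adM P k u : 𝔸), (adM P k y : 𝔸)⁆) =
      adM P k (P ((2 : ℝ) • ⁅(b : 𝔸), (s : 𝔸)⁆ + ⁅(u : 𝔸), (y : 𝔸)⁆)) := by
    rw [map_add, map_smul, T3Inv_br hN hC hG hk, T3Inv_br hN hC hG hk, map_add, map_smul,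
      map_add, map_smul]
  have e2 : ∀ a d : m, (2 : ℝ) • adM P k a - adM P k d = adM P k ((2 : ℝ) • a - d) := fun a d => by
    rw [map_sub, map_smul]
  have e3 : ∀ a d : m, adM P k a - adM P k d = adM P k (a - d) := fun a d => by
    rw [map_sub]
  rw [e1]
  simp only [T3Inv_br hN hC hG hk]
  rw [e2, e3, T3Inv_D4 hN hG hφ hH hk hu, T3Inv_D3 hN hG hφ hH hk hu,
    T3Inv_D2 hN hG hφ hH hk hu, T3Inv_D2 hN hG hφ hH hk hu, T3Inv_D2 hN hG hφ hH hk hu,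
    T3Inv_D2 hN hG hφ hH hk hu, T3Inv_Qbr hN hC hG hk]
  congr 1
  rw [hN.Qsymm, T3Inv_Qbr hN hC hG hk, hN.Qsymm]

end Pool.Agent.FL
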