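import Pool.Agent.FL.S1Hub
import Pool.Agent.FL.S1X2
import Pool.Agent.FL.QF
import Pool.Agent.FL.T3Inv
import Pool.Agent.helper79.FR.Hb

/-!
# MP_f09395_gt, space (1): the third order form of the explicit function at odd points (X1c, X3)

Near the points in question the explicit function is (Lean sign)
`vX ε = -(3/2) K + K² / N - ε Re (C P)`, `K` the square of the even part.
-/

set_option linter.unusedSectionVars false

noncomputable section

namespace Pool.Agent.FL.S1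

open scoped ContDiff Quaternion Matrix ComplexConjugate
open Pool.Agent.Helper93.Fin Pool.Agent.helper79.FP Pool.Agent.helper79.FR
open Pool.Agent.helper79.FR.Sp2 (Mat QQ h0 m gg hh PP BB cc)
open Pool.Agent.helper79.FR
open Pool.Agent.FL
open Filter Topology

attribute [local instance] Matrix.linftyOpNormedRing Matrix.linftyOpNormedAlgebra

section general

variable {𝔸 : Type*} [NormedRing 𝔸] [NormedAlgebra ℝ 𝔸] [FiniteDimensional ℝ 𝔸]
variable {g h m : Submodule ℝ 𝔸} {Q : 𝔸 →ₗ[ℝ] 𝔸 →ₗ[ℝ] ℝ} {P : 𝔸 →L[ℝ] m} {φ : m → ℝ}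

/-- the third order form at flags with `e(u) = 0` -/
theorem T3F_e0 (hN : NData g h m Q P) {u b x s : m} (hx : ∀ w : m, Q (x : 𝔸) w = D1 φ u w)
    (hs : ∀ w : m, Q (s : 𝔸) w = D2 φ u b w) (he : P ⁅(u : 𝔸), (x : 𝔸)⁆ = 0) :
    T3F Q P φ u b = - D2 φ u (P ⁅(b : 𝔸), (x : 𝔸)⁆) (P ⁅(b : 𝔸), (x : 𝔸)⁆)
      + D2 φ u (P ⁅(b : 𝔸), (x : 𝔸)⁆) (P ⁅(u : 𝔸), (s : 𝔸)⁆)
      - D2 φ u (P ⁅(u : 𝔸), (s : 𝔸)⁆) (P ⁅(u : 𝔸), (s : 𝔸)⁆)
      - Q (P ⁅(b : 𝔸), (x : 𝔸)⁆ - P ⁅(u : 𝔸), (s : 𝔸)⁆ : m) ⁅(x : 𝔸), (s : 𝔸)⁆ := by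
  have d2 : ∀ w, D2 φ u 0 w = 0 := by
    intro w
    have h1 : (fun z => D1 φ z 0) = fun _ => (0 : ℝ) := funext fun z => by rw [D1, map_zero]
    rw [D2, h1]; simp
  have d3 : ∀ a w, D3 φ u a 0 w = 0 := by
    intro a w
    have h1 : (fun z => D2 φ z a 0) = fun _ => (0 : ℝ) := funext fun z => by rw [D2, map_zero]
    rw [D3, h1]; simp
  have d4 : ∀ a b c, D4 φ u a b c 0 = 0 := fun a b c => by rw [D4, map_zero]
  rw [← T3F_eq hN hx hs (gy_spec hN u b), T3N, he, d4, d3, d2]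
  simp only [Submodule.coe_zero, map_zero]
  ring

variable {h0 : 𝔸} {B : m → 𝔸} {c : m → ℝ} {H : Subgroup 𝔸ˣ}

theorem al_adM (hN : NData g h m Q P) (hC : Cas g h m Q P h0 B c) (hG : GrpD H h m Q h0 B c)
    (hφ : ContDiffOn ℝ ∞ φ {0}ᶜ) (hH : InvH H φ) {k : 𝔸ˣ} (hk : k ∈ H) {u : m} (hu : u ≠ 0)
    (b : m) : al P h0 φ (adM P k u) (adM P k b) = al P h0 φ u b := by
  have h1 : P ⁅h0, (adM P k b : 𝔸)⁆ = adM P k (P ⁅h0, (b : 𝔸)⁆) := by
    have h2 : ⁅h0, Adj k (b : 𝔸)⁆ = Adj k ⁅h0, (b : 𝔸)⁆ := by rw [Adj_lie, hG.adh0 k hk]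
    rw [adM_coe hN hG hk, h2, T3Inv_P hN hC hG hk (lg hN (hN.red.h_le hC.mem) (mg hN b))]
  unfold al
  rw [h1, T3Inv_D1 hN hG hφ hH hk hu]

theorem flag_adM (hN : NData g h m Q P) (hG : GrpD H h m Q h0 B c) {k : 𝔸ˣ} (hk : k ∈ H)
    {u b : m} (hF : Flag Q u b) : Flag Q (adM P k u) (adM P k b) := by
  obtain ⟨f1, f2, f3, f4⟩ := hF
  refine ⟨?_, ?_, ?_, ?_⟩
  · rw [T3Inv_Q hN hG hk]; exact f1
  · rw [T3Inv_Q hN hG hk]; exact f2
  · rw [T3Inv_Q hN hG hk]; exact f3
  · rw [adM_coe hN hG hk, adM_coe hN hG hk, ← Adj_lie, f4]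
    simp [Adj]

end general

/-- the square of the even part, polarised -/
def kE (a b : V) : ℝ := 10 * (c0 a * c0 b) + 2 * rip (cQ a) (cQ b)

/-- `Re (C P)`, polarised -/
def mM (a b : V) : ℝ := ((cC a * cP b).re + (cC b * cP a).re) / 2

/-- gradient of `Re (C P)` -/
def gM (u : V) : V := mkV 0 (conj (cC u)) 0 (conj (cP u) / 2) 0

/-- the explicit function near the odd points -/
def vX (ε : ℝ) (u : V) : ℝ := -(3 / 2) * kE u u + kE u u ^ 2 / BN (m 1 3) QQ u u - ε * mM u u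

namespace X3

theorem rip_comm (z w : ℂ) : rip z w = rip w z := by unfold rip; ring

theorem kE_comm (a b : V) : kE a b = kE b a := by unfold kE; rw [rip_comm]; ring

theorem mM_comm (a b : V) : mM a b = mM b a := by unfold mM; ring

/-- `kE` as a continuous bilinear form -/
def kEL : V →L[ℝ] V →L[ℝ] ℝ :=
  (LinearMap.mk₂ ℝ kE
    (fun a b c => by simp only [kE, rip, map_add, Complex.add_re, Complex.add_im]; ring)
    (fun r a b => by
      simp only [kE, rip, map_smul, smul_eq_mul, Complex.smul_re, Complex.smul_im]; ring)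
    (fun a b c => by simp only [kE, rip, map_add, Complex.add_re, Complex.add_im]; ring)
    (fun r a b => by
      simp only [kE, rip, map_smul, smul_eq_mul, Complex.smul_re, Complex.smul_im];
        ring)).toContinuousBilinearMap

theorem kEL_apply (a b : V) : kEL a b = kE a b := rfl

/-- `mM` as a continuous bilinear form -/
def mML : V →L[ℝ] V →L[ℝ] ℝ :=
  (LinearMap.mk₂ ℝ mM
    (fun a b c => by
      simp only [mM, map_add, Complex.mul_re, Complex.add_re, Complex.add_im]; ring)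
    (fun r a b => by
      simp only [mM, map_smul, smul_eq_mul, Complex.mul_re, Complex.smul_re, Complex.smul_im]
      ring)
    (fun a b c => by
      simp only [mM, map_add, Complex.mul_re, Complex.add_re, Complex.add_im]; ring)
    (fun r a b => by
      simp only [mM, map_smul, smul_eq_mul, Complex.mul_re, Complex.smul_re, Complex.smul_im]
      ring)).toContinuousBilinearMap

theorem mML_apply (a b : V) : mML a b = mM a b := rfl

theorem hN : NData gg (hh 1 3) (m 1 3) QQ (PP 1 3) :=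
  Pool.Agent.helper79.FR.Sp2.nData (by norm_num) (by norm_num)

theorem kE_smooth : ContDiffOn ℝ ∞ (fun u : V => kE u u) {0}ᶜ :=
  (kEL.contDiff.clm_apply contDiff_id).contDiffOn

theorem mM_smooth : ContDiffOn ℝ ∞ (fun u : V => mM u u) {0}ᶜ :=
  (mML.contDiff.clm_apply contDiff_id).contDiffOn

theorem G_smooth : ContDiffOn ℝ ∞ (fun u : V => kE u u / BN (m 1 3) QQ u u) {0}ᶜ :=
  kE_smooth.div BNsq_smooth fun _ hu => BN_ne hN hu

theorem kE_odd {u : V} (hu : Od u) (a : V) : kE u a = 0 := by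
  unfold kE rip
  rw [hu.1, hu.2]; simp

theorem vX_eq (ε : ℝ) : vX ε = fun u => (-(3 / 2) * kE u u
    + kE u u * (kE u u / BN (m 1 3) QQ u u)) + (-ε) * mM u u := by
  funext u
  unfold vX
  rw [sq, mul_div_assoc]; ring

theorem cmul_smooth (r : ℝ) {f : V → ℝ} (hf : ContDiffOn ℝ ∞ f {0}ᶜ) :
    ContDiffOn ℝ ∞ (fun z => r * f z) {0}ᶜ := contDiffOn_const.mul hf

theorem D1_cmul (r : ℝ) {f : V → ℝ} (hf : ContDiffOn ℝ ∞ f {0}ᶜ) {u : V} (hu : u ≠ 0) (a : V) :
    D1 (fun z => r * f z) u a = r * D1 f u a := fd_cmul r hf hu a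

theorem D2_cmul (r : ℝ) {f : V → ℝ} (hf : ContDiffOn ℝ ∞ f {0}ᶜ) {u : V} (hu : u ≠ 0) (a b : V) :
    D2 (fun z => r * f z) u a b = r * D2 f u a b := by
  unfold D2
  rw [fd_congr (fun z hz => D1_cmul r hf hz a) hu, fd_cmul r (D1_smooth hf a) hu]

theorem vX_smooth (ε : ℝ) : ContDiffOn ℝ ∞ (vX ε) {0}ᶜ := by
  rw [vX_eq]
  exact ((cmul_smooth _ kE_smooth).add (kE_smooth.mul G_smooth)).add (cmul_smooth _ mM_smooth)

theorem D1_vX (ε : ℝ) {u : V} (h0 : u ≠ 0) (hu : Od u) (a : V) :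
    D1 (vX ε) u a = -ε * (2 * mM u a) := by
  rw [vX_eq, D1_sum ((cmul_smooth _ kE_smooth).add (kE_smooth.mul G_smooth))
    (cmul_smooth _ mM_smooth) h0, D1_sum (cmul_smooth _ kE_smooth) (kE_smooth.mul G_smooth) h0,
    D1_mul kE_smooth G_smooth h0, D1_cmul _ kE_smooth h0, D1_cmul _ mM_smooth h0]
  have h1 : D1 (fun u : V => kE u u) u a = 2 * kE u a := QF_q1 (q := kEL) kE_comm u a
  have h2 : D1 (fun u : V => mM u u) u a = 2 * mM u a := QF_q1 (q := mML) mM_comm u a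
  rw [h1, h2, kE_odd hu, kE_odd hu]
  ring

theorem D2_vX (ε : ℝ) {u : V} (h0 : u ≠ 0) (hu : Od u) (a b : V) :
    D2 (vX ε) u a b = -3 * kE a b - ε * (2 * mM a b) := by
  rw [vX_eq, D2_sum ((cmul_smooth _ kE_smooth).add (kE_smooth.mul G_smooth))
    (cmul_smooth _ mM_smooth) h0, D2_sum (cmul_smooth _ kE_smooth) (kE_smooth.mul G_smooth) h0,
    D2_mul kE_smooth G_smooth h0, D2_cmul _ kE_smooth h0, D2_cmul _ mM_smooth h0]
  have h1 : ∀ a, D1 (fun u : V => kE u u) u a = 2 * kE u a := QF_q1 (q := kEL) kE_comm u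
  have h3 : D2 (fun u : V => kE u u) u a b = 2 * kE a b := QF_q2 (q := kEL) kE_comm u a b
  have h2 : D2 (fun u : V => mM u u) u a b = 2 * mM a b := QF_q2 (q := mML) mM_comm u a b
  rw [h1, h1, h2, h3, kE_odd hu, kE_odd hu, kE_odd hu]
  ring

theorem gM_spec (u w : V) : QQ (gM u : Mat) w = 2 * mM u w := by
  rw [QQ_coords]
  simp only [gM, c0_mk, cP_mk, cR_mk, cC_mk, cQ_mk, rip, mM, Complex.conj_re, Complex.conj_im,
    Complex.div_ofNat_re, Complex.div_ofNat_im, Complex.mul_re, Complex.zero_re, Complex.zero_im]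
  ring

theorem br_P0 {X Y : V} (hX : Od X) (hY : Od Y) : cP (br X Y) = 0 := by
  rw [br_P, hX.1, hX.2, hY.1, hY.2]; simp

theorem br_C0 {X Y : V} (hX : Od X) (hY : Od Y) : cC (br X Y) = 0 := by
  rw [br_C, hX.1, hX.2, hY.1, hY.2]; simp

theorem gM_odd (u : V) : Od (gM u) := ⟨by simp [gM], by simp [gM]⟩

theorem D2_z (f : V → ℝ) (u w : V) : D2 f u 0 w = 0 := by
  have h1 : (fun z => D1 f z 0) = fun _ => (0 : ℝ) := funext fun z => by rw [D1, map_zero]
  rw [D2, h1]; simp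

theorem D3_z (f : V → ℝ) (u b w : V) : D3 f u b 0 w = 0 := by
  have h1 : (fun z => D2 f z b 0) = fun _ => (0 : ℝ) := funext fun z => by rw [D2, map_zero]
  rw [D3, h1]; simp

theorem D4_z (f : V → ℝ) (u a b c : V) : D4 f u a b c 0 = 0 := by rw [D4, map_zero]

theorem mlie_smul (r : ℝ) (A B : Mat) : ⁅A, r • B⁆ = r • ⁅A, B⁆ := by
  rw [Ring.lie_def, Ring.lie_def, mul_smul_comm, smul_mul_assoc, smul_sub]

theorem msmul_lie (r : ℝ) (A B : Mat) : ⁅r • A, B⁆ = r • ⁅A, B⁆ := by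
  rw [Ring.lie_def, Ring.lie_def, mul_smul_comm, smul_mul_assoc, smul_sub]

theorem br_smul (r : ℝ) (X Y : V) : br X (r • Y) = r • br X Y := by
  unfold br
  rw [Submodule.coe_smul, mlie_smul, map_smul]

theorem smul_br (r : ℝ) (X Y : V) : br (r • X) Y = r • br X Y := by
  unfold br
  rw [Submodule.coe_smul, msmul_lie, map_smul]

theorem kE_smul (r : ℝ) (a b : V) : kE (r • a) b = r * kE a b := by
  rw [← kEL_apply, map_smul]; rfl

theorem kE_smul' (r : ℝ) (a b : V) : kE a (r • b) = r * kE a b := by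
  rw [← kEL_apply, map_smul]; rfl

/-- the value of the third order form at odd flags with `e(u) = 0` -/
theorem T3F_odd (ε : ℝ) {u b : V} (hne : u ≠ 0) (hu : Od u) (hb : Od b)
    (he : br u (gM u) = 0) : T3F QQ (PP 1 3) (vX ε) u b =
      ε ^ 2 * (3 * (kE (br b (gM u)) (br b (gM u)) - kE (br b (gM u)) (br u (gM b))
        + kE (br u (gM b)) (br u (gM b)))
        + ε * QQ ((br b (gM u) - br u (gM b) : V) : Mat) (br (gM u) (gM b))) := by
  have hx : ∀ w : V, QQ (((-ε) • gM u : V) : Mat) w = D1 (vX ε) u w := fun w => by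
    rw [D1_vX ε hne hu, Submodule.coe_smul, map_smul, LinearMap.smul_apply, gM_spec, smul_eq_mul]
  have hs : ∀ w : V, QQ (((-ε) • gM b : V) : Mat) w = D2 (vX ε) u b w := fun w => by
    rw [D2_vX ε hne hu, Submodule.coe_smul, map_smul, LinearMap.smul_apply, gM_spec, smul_eq_mul,
      kE_odd hb]
    ring
  have e1 : br u ((-ε) • gM u) = 0 := by rw [br_smul, he, smul_zero]
  have key : T3F QQ (PP 1 3) (vX ε) u b =
      - D2 (vX ε) u (br b ((-ε) • gM u)) (br b ((-ε) • gM u))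
      + D2 (vX ε) u (br b ((-ε) • gM u)) (br u ((-ε) • gM b))
      - D2 (vX ε) u (br u ((-ε) • gM b)) (br u ((-ε) • gM b))
      - QQ ((br b ((-ε) • gM u) - br u ((-ε) • gM b) : V) : Mat)
        ⁅(((-ε) • gM u : V) : Mat), (((-ε) • gM b : V) : Mat)⁆ :=
    T3F_e0 hN hx hs e1
  rw [key, br_smul, br_smul]
  have m0 : ∀ X Y X' Y' : V, Od X → Od Y → Od X' → Od Y' →
      mM (br X Y) (br X' Y') = 0 := by
    intro X Y X' Y' hX hY hX' hY'
    unfold mM
    rw [br_P0 hX hY, br_C0 hX hY, br_P0 hX' hY', br_C0 hX' hY']; simp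
  have hgu := gM_odd u
  have hgb := gM_odd b
  simp only [D2_vX ε hne hu, kE_smul, kE_smul']
  have k1 : ∀ (r s : ℝ) (a c : V), mM (r • a) (s • c) = r * s * mM a c := by
    intro r s a c
    rw [← mML_apply, map_smul, map_smul]
    simp only [smul_apply, smul_eq_mul, mML_apply]
    ring
  rw [k1, k1, k1, m0 _ _ _ _ hb hgu hb hgu, m0 _ _ _ _ hb hgu hu hgb, m0 _ _ _ _ hu hgb hu hgb]
  have q1 : QQ (((-ε) • br b (gM u) - (-ε) • br u (gM b) : V) : Mat)
      ⁅(((-ε) • gM u : V) : Mat), (((-ε) • gM b : V) : Mat)⁆ =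
      (-ε) ^ 3 * QQ ((br b (gM u) - br u (gM b) : V) : Mat) (br (gM u) (gM b)) := by
    have e4 : ((-ε) • br b (gM u) - (-ε) • br u (gM b) : V)
        = (-ε) • (br b (gM u) - br u (gM b)) := (smul_sub _ _ _).symm
    rw [e4, Submodule.coe_smul, Submodule.coe_smul, Submodule.coe_smul, msmul_lie,
      mlie_smul, smul_smul, map_smul, map_smul, LinearMap.smul_apply, smul_eq_mul, smul_eq_mul, lie_coe,
      map_add, map_smul, smul_eq_mul]
    have : QQ ((br b (gM u) - br u (gM b) : V) : Mat) (h0 1 3) = 0 := by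
      rw [hN.Qsymm]
      exact hN.Qhm _ (by exact Submodule.mem_span_singleton_self _) _ (Submodule.coe_mem _)
    rw [this]
    ring
  rw [q1]
  ring

/-! ### representatives of the equilibria of `Re (C P)` -/

theorem rp_odd (p t : ℝ) : Od (uT p t) := ⟨by simp [uT], by simp [uT]⟩

theorem rp_ne {p : ℝ} (hp : p ≠ 0) (t : ℝ) : uT p t ≠ 0 := by
  intro h
  have : cP (uT p t) = 0 := by rw [h, map_zero]
  simp only [uT, cP_mk] at this
  exact hp (by exact_mod_cast this)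

theorem gM_rp (p t : ℝ) : gM (uT p t) = mkV 0 (t * p : ℝ) 0 (p / 2 : ℝ) 0 := by
  unfold gM uT
  simp only [cP_mk, cC_mk, Complex.conj_ofReal]
  push_cast
  rfl

theorem imp_real (a b : ℝ) : imp (a : ℂ) (b : ℂ) = 0 := by simp [imp]

theorem br_real (a r c a' r' c' : ℝ) :
    br (mkV 0 a r c 0) (mkV 0 a' r' c' 0) = mkV 0 0 0 0 (a * c' - a' * c + (c * r' - c' * r) : ℝ) := by
  apply ext_coords
  · rw [br_0]
    simp only [cC_mk, cQ_mk, cR_mk, cP_mk, imp_real, c0_mk]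
    simp [imp]
  · rw [br_P]; simp
  · rw [br_R]; simp
  · rw [br_C]; simp
  · rw [br_Q]
    simp only [c0_mk, cC_mk, cQ_mk, cR_mk, cP_mk, Complex.conj_ofReal]
    push_cast
    ring

theorem mkV_real_zero : mkV 0 0 0 0 ((0 : ℝ) : ℂ) = 0 := by
  apply ext_coords <;> simp

theorem flag_eqs {p r c : ℝ} {b : V} (hc : ⁅(mkV 0 p r c 0 : Mat), (b : Mat)⁆ = 0)
    (hub : QQ (mkV 0 p r c 0 : Mat) b = 0) (hal : mM (mkV 0 p r c 0) (rt b) = 0) :
    (6 * (c0 b * p) + 2 * (c * (cQ b).im) = 0 ∧ c * (cQ b).re = 0 ∧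
      -(2 * (c0 b * r)) - 2 * (c * (cQ b).im) = 0) ∧
    (p * (cC b).re - (cP b).re * c + (c * (cR b).re - (cC b).re * r) = 0 ∧
      p * (cP b).re + r * (cR b).re + 2 * (c * (cC b).re) = 0) ∧
    (-(4 * (c * (cC b).im)) + r * (cR b).im - 3 * (p * (cP b).im) = 0 ∧
      -(4 * (c * (cC b).im)) + 6 * (r * (cR b).im) + 2 * (p * (cP b).im) = 0 ∧
      p * (cC b).im - c * (cP b).im = 0) := by
  rw [lie_eq_zero_iff] at hc
  obtain ⟨hc, hh⟩ := hc
  have hP := congrArg cP hc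
  have hR := congrArg cR hc
  have hQ := congrArg cQ hc
  have h0' := congrArg c0 hc
  rw [br_P, map_zero] at hP
  rw [br_R, map_zero] at hR
  rw [br_Q, map_zero] at hQ
  rw [br_0, map_zero] at h0'
  rw [br_h] at hh
  rw [QQ_coords] at hub
  rw [rt_eq] at hal
  simp only [c0_mk, cP_mk, cR_mk, cC_mk, cQ_mk, mM, rip, imp] at hP hR hQ h0' hh hub hal
  generalize cP b = P' at *
  generalize cR b = R' at *
  generalize cC b = C' at *
  generalize cQ b = Q' at *
  generalize c0 b = z at *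
  have hPi := congrArg Complex.im hP
  have hPr := congrArg Complex.re hP
  have hRi := congrArg Complex.im hR
  have hQr := congrArg Complex.re hQ
  simp only [Complex.add_im, Complex.add_re, Complex.sub_im, Complex.sub_re, Complex.mul_re,
    Complex.mul_im, Complex.neg_re, Complex.neg_im, Complex.I_re, Complex.I_im, Complex.ofReal_re,
    Complex.ofReal_im, Complex.conj_re, Complex.conj_im, Complex.zero_re, Complex.zero_im,
    Complex.re_ofNat, Complex.im_ofNat] at hPi hPr hRi hQr h0' hh hub hal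
  refine ⟨⟨?_, ?_, ?_⟩, ⟨?_, ?_⟩, ?_, ?_, ?_⟩
  · linear_combination hPi
  · linear_combination (1 / 2 : ℝ) * hPr
  · linear_combination hRi
  · linear_combination hQr
  · linear_combination hub
  · linear_combination 5 * h0'
  · linear_combination hh
  · linear_combination hal

/-- flags over `uT p t` with `α = 0` -/
theorem flag_rp {p t : ℝ} (hp : p ≠ 0) (ht : t ≠ 0) (ht2 : 1 - 2 * t ^ 2 ≠ 0) {b : V}
    (hc : ⁅(uT p t : Mat), (b : Mat)⁆ = 0) (hub : QQ (uT p t : Mat) b = 0)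
    (hal : mM (uT p t) (rt b) = 0) :
    ∃ κ : ℝ, b = mkV 0 (2 * t ^ 3 * κ : ℝ) (2 * t * κ : ℝ) ((t ^ 2 - 1) * κ : ℝ) 0 := by
  obtain ⟨⟨h1, h2, h3⟩, ⟨h4, h5⟩, h6, h7, h8⟩ := flag_eqs hc hub hal
  generalize hP' : cP b = P' at *
  generalize hR' : cR b = R' at *
  generalize hC' : cC b = C' at *
  generalize hQ' : cQ b = Q' at *
  generalize hz' : c0 b = z at *
  have z0 : z = 0 := by
    have : z * (p * (4 + 4 * t ^ 2)) = 0 := by linear_combination h1 + h3
    exact (mul_eq_zero.1 this).resolve_right (by positivity)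
  have htp : t * p ≠ 0 := mul_ne_zero ht hp
  have q1 : Q'.im = 0 := by
    rw [z0] at h1
    have : t * p * Q'.im = 0 := by linear_combination (1 / 2 : ℝ) * h1
    exact (mul_eq_zero.1 this).resolve_left htp
  have q2 : Q'.re = 0 := (mul_eq_zero.1 h2).resolve_left htp
  have c1 : C'.im = t * P'.im := by
    have : p * (C'.im - t * P'.im) = 0 := by linear_combination h8
    have := (mul_eq_zero.1 this).resolve_left hp
    linarith
  have r1 : (1 - 2 * t ^ 2) * R'.im = - P'.im := by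
    have : p * ((1 - 2 * t ^ 2) * R'.im + P'.im) = 0 := by
      linear_combination (1 / 5 : ℝ) * (h7 - h6)
    have := (mul_eq_zero.1 this).resolve_left hp
    linarith
  have p1 : P'.im = 0 := by
    have : p * (4 * (1 + t ^ 2)) * P'.im = 0 := by
      rw [c1] at h6
      linear_combination -h6 + p * r1
    exact (mul_eq_zero.1 this).resolve_left (by positivity)
  rw [p1, neg_zero] at r1
  rw [p1, mul_zero] at c1
  have r2 := (mul_eq_zero.1 r1).resolve_left ht2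
  have e1 : P'.re = t ^ 2 * R'.re := by
    have : p * (P'.re - t ^ 2 * R'.re) = 0 := by
      have h4' : 2 * t ^ 2 * p * C'.re - t * p * (P'.re - R'.re) = 0 := by linear_combination h4
      have h4'' : t * (2 * t * p * C'.re - p * (P'.re - R'.re)) = 0 := by linear_combination h4'
      have h9 := (mul_eq_zero.1 h4'').resolve_left ht
      linear_combination (1 / 2 : ℝ) * (h5 - h9)
    have := (mul_eq_zero.1 this).resolve_left hp
    linarith
  have e2 : 2 * t * C'.re = (t ^ 2 - 1) * R'.re := by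
    have : p * (2 * t * C'.re - (t ^ 2 - 1) * R'.re) = 0 := by
      rw [e1] at h5
      linear_combination h5
    have := (mul_eq_zero.1 this).resolve_left hp
    linarith
  refine ⟨R'.re / (2 * t), ?_⟩
  apply ext_coords
  · rw [hz', z0, c0_mk]
  · rw [hP', cP_mk]
    apply Complex.ext
    · rw [Complex.ofReal_re, e1]; field_simp
    · rw [Complex.ofReal_im, p1]
  · rw [hR', cR_mk]
    apply Complex.ext
    · rw [Complex.ofReal_re]; field_simp
    · rw [Complex.ofReal_im, r2]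
  · rw [hC', cC_mk]
    apply Complex.ext
    · rw [Complex.ofReal_re]
      field_simp
      linear_combination e2
    · rw [Complex.ofReal_im, c1]
  · rw [hQ', cQ_mk]
    exact Complex.ext q2 q1

/-- **the third order form at the odd equilibria** -/
theorem T3F_rp {ε p t : ℝ} (hε : ε ≠ 0) (hεt : ε * t < 6 * t ^ 2) (hp : p ≠ 0) (ht : t ≠ 0)
    (ht2 : 1 - 2 * t ^ 2 ≠ 0) {b : V} (hF : Flag QQ (uT p t) b)
    (hal : al (PP 1 3) (h0 1 3) (vX ε) (uT p t) b = 0) :
    0 < T3F QQ (PP 1 3) (vX ε) (uT p t) b := by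
  obtain ⟨-, hbb, hub, hc⟩ := hF
  have hne := rp_ne hp t
  have hal' : mM (uT p t) (rt b) = 0 := by
    have h1 : D1 (vX ε) (uT p t) (rt b) = 0 := hal
    rw [D1_vX ε hne (rp_odd p t)] at h1
    have h2 := (mul_eq_zero.1 h1).resolve_left (neg_ne_zero.2 hε)
    linarith
  obtain ⟨κ, hb⟩ := flag_rp hp ht ht2 hc hub hal'
  have hbo : Od b := by rw [hb]; exact ⟨by simp, by simp⟩
  have gb : gM b = mkV 0 ((t ^ 2 - 1) * κ : ℝ) 0 (t ^ 3 * κ : ℝ) 0 := by
    rw [hb]
    unfold gM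
    simp only [cP_mk, cC_mk, Complex.conj_ofReal]
    push_cast
    congr 1
    ring
  have gu := gM_rp p t
  have b1 : br (uT p t) (gM (uT p t)) = 0 := by
    rw [gu]
    unfold uT
    have h := br_real p ((1 - 2 * t ^ 2) * p) (t * p) (t * p) 0 (p / 2)
    have e : p * (p / 2) - t * p * (t * p) + (t * p * 0 - p / 2 * ((1 - 2 * t ^ 2) * p)) = 0 := by
      ring
    rw [e] at h
    rw [← mkV_real_zero, ← h]
    simp
  have b2 : br b (gM (uT p t)) = 0 := by
    rw [gu, hb]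
    have h := br_real (2 * t ^ 3 * κ) (2 * t * κ) ((t ^ 2 - 1) * κ) (t * p) 0 (p / 2)
    have e : 2 * t ^ 3 * κ * (p / 2) - t * p * ((t ^ 2 - 1) * κ)
        + ((t ^ 2 - 1) * κ * 0 - p / 2 * (2 * t * κ)) = 0 := by
      ring
    rw [e] at h
    rw [← mkV_real_zero, ← h]
    simp
  have b3 : br (uT p t) (gM b) = mkV 0 0 0 0 (p * κ * t * (2 * t ^ 4 - t ^ 2 + 1) : ℝ) := by
    rw [gb]
    unfold uT
    have h := br_real p ((1 - 2 * t ^ 2) * p) (t * p) ((t ^ 2 - 1) * κ) 0 (t ^ 3 * κ)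
    have e : p * (t ^ 3 * κ) - (t ^ 2 - 1) * κ * (t * p)
        + (t * p * 0 - t ^ 3 * κ * ((1 - 2 * t ^ 2) * p)) = p * κ * t * (2 * t ^ 4 - t ^ 2 + 1) := by
      ring
    rw [e] at h
    rw [← h]
    simp
  have b4 : br (gM (uT p t)) (gM b) = mkV 0 0 0 0 (p * κ / 2 * (2 * t ^ 4 - t ^ 2 + 1) : ℝ) := by
    rw [gb, gu]
    have h := br_real (t * p) 0 (p / 2) ((t ^ 2 - 1) * κ) 0 (t ^ 3 * κ)
    have e : t * p * (t ^ 3 * κ) - (t ^ 2 - 1) * κ * (p / 2)
        + (p / 2 * 0 - t ^ 3 * κ * 0) = p * κ / 2 * (2 * t ^ 4 - t ^ 2 + 1) := by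
      ring
    rw [e] at h
    rw [← h]
    simp
  rw [T3F_odd ε hne (rp_odd p t) hbo b1, b2, b3, b4, zero_sub]
  have hκ : κ ≠ 0 := by
    rintro rfl
    rw [hb] at hbb
    rw [QQ_coords] at hbb
    simp [rip] at hbb
  have e5 : QQ ((-mkV 0 0 0 0 (p * κ * t * (2 * t ^ 4 - t ^ 2 + 1) : ℝ) : V) : Mat)
      (mkV 0 0 0 0 (p * κ / 2 * (2 * t ^ 4 - t ^ 2 + 1) : ℝ))
      = -(p ^ 2 * κ ^ 2 * t * (2 * t ^ 4 - t ^ 2 + 1) ^ 2) := by
    rw [Submodule.coe_neg, map_neg, LinearMap.neg_apply, QQ_coords]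
    simp only [c0_mk, cP_mk, cR_mk, cC_mk, cQ_mk, rip, Complex.ofReal_re, Complex.ofReal_im,
      Complex.zero_re, Complex.zero_im]
    ring
  have e6 : ∀ a : ℝ, kE (mkV 0 0 0 0 (a : ℂ)) (mkV 0 0 0 0 (a : ℂ)) = 2 * a ^ 2 := by
    intro a
    simp only [kE, rip, c0_mk, cQ_mk, Complex.ofReal_re, Complex.ofReal_im]
    ring
  have e7 : ∀ a : V, kE 0 a = 0 := fun a => by rw [← kEL_apply, map_zero]; rfl
  rw [e5, e6, e7, e7]
  have hW : 0 < 2 * t ^ 4 - t ^ 2 + 1 := by nlinarith [sq_nonneg (2 * t ^ 2 - 1 / 2)]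
  have h9 : 0 < p ^ 2 * κ ^ 2 * (2 * t ^ 4 - t ^ 2 + 1) ^ 2 * (6 * t ^ 2 - ε * t) := by
    have : 0 < 6 * t ^ 2 - ε * t := by linarith
    positivity
  have h10 : 0 < ε ^ 2 := by positivity
  have h11 : ε ^ 2 * (3 * (0 - 0 + 2 * (p * κ * t * (2 * t ^ 4 - t ^ 2 + 1)) ^ 2)
      + ε * -(p ^ 2 * κ ^ 2 * t * (2 * t ^ 4 - t ^ 2 + 1) ^ 2))
      = ε ^ 2 * (p ^ 2 * κ ^ 2 * (2 * t ^ 4 - t ^ 2 + 1) ^ 2 * (6 * t ^ 2 - ε * t)) := by ring
  rw [h11]
  positivity

/-- **the third order form over `Zp`** -/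
theorem T3F_Zp {ε : ℝ} {u b : V} (hu0 : c0 u = 0) (huP : cP u = 0) (huC : cC u = 0)
    (huQ : cQ u = 0) (hF : Flag QQ u b) : T3F QQ (PP 1 3) (vX ε) u b = 3 / 2 * ε ^ 2 := by
  obtain ⟨huu, hbb, hub, hc⟩ := hF
  rw [QQ_coords] at huu hub hbb
  rw [hu0, huP, huC, huQ] at huu hub
  have hne : u ≠ 0 := by
    rintro rfl
    simp [rip] at huu
  have hR : rip (cR u) (cR u) = 1 := by
    simp [rip] at huu ⊢
    linarith
  have hRne : cR u ≠ 0 := by
    intro h
    rw [h] at hR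
    simp [rip] at hR
  have hub' : rip (cR u) (cR b) = 0 := by
    simp [rip] at hub ⊢
    linarith
  rw [lie_eq_zero_iff] at hc
  obtain ⟨hc, hh⟩ := hc
  have h1 := congrArg cR hc
  have h2 := congrArg cC hc
  have h3 := congrArg cQ hc
  rw [br_R, map_zero, hu0, huC, huQ] at h1
  rw [br_C, map_zero, hu0, huC, huQ, huP] at h2
  rw [br_Q, map_zero, hu0, huC, huQ, huP] at h3
  rw [br_h, huP, huC, huQ] at hh
  have z0 : c0 b = 0 := by
    have h4 : ((c0 b : ℝ) : ℂ) * (2 * Complex.I * cR u) = 0 := by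
      have h5 := h1
      simp only [map_zero, mul_zero, zero_mul, zero_sub, sub_zero, Complex.ofReal_zero] at h5
      linear_combination -h5
    have h6 := (mul_eq_zero.1 h4).resolve_right (by simp [hRne])
    exact_mod_cast h6
  have hQ0 : cQ b = 0 := by
    have h4 : cQ b * conj (cR u) = 0 := by
      have h5 := h2
      simp only [mul_zero, zero_mul, zero_sub, sub_zero, map_zero, Complex.ofReal_zero] at h5
      linear_combination h5
    exact (mul_eq_zero.1 h4).resolve_right (by simpa using hRne)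
  have hC0 : cC b = 0 := by
    have h4 : cC b * cR u = 0 := by
      have h5 := h3
      simp only [mul_zero, zero_mul, zero_sub, sub_zero, map_zero, Complex.ofReal_zero] at h5
      linear_combination -h5
    exact (mul_eq_zero.1 h4).resolve_right hRne
  have hR0 : cR b = 0 := by
    have h6 : imp (cR u) (cR b) = 0 := by
      have h7 : ∀ z : ℂ, imp 0 z = 0 := fun z => by simp [imp]
      rw [h7, h7, h7] at hh
      linarith
    unfold imp at h6
    unfold rip at hub' hR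
    apply Complex.ext
    · rw [Complex.zero_re]
      linear_combination (cR u).re * hub' + (cR u).im * h6 - (cR b).re * hR
    · rw [Complex.zero_im]
      linear_combination (cR u).im * hub' - (cR u).re * h6 - (cR b).im * hR
  have hP1 : rip (cP b) (cP b) = 1 := by
    rw [z0, hR0, hC0, hQ0] at hbb
    simp [rip] at hbb ⊢
    linarith
  have gu : gM u = 0 := by
    unfold gM
    rw [huP, huC]
    apply ext_coords <;> simp
  have br0 : ∀ X : V, br X 0 = 0 := by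
    intro X
    have := br_smul 0 X 0
    rw [zero_smul, zero_smul] at this
    exact this
  have br0' : ∀ X : V, br 0 X = 0 := by
    intro X
    have := smul_br 0 0 X
    rw [zero_smul, zero_smul] at this
    exact this
  have b1 : br u (gM u) = 0 := by rw [gu, br0]
  have e8 : Od u := ⟨hu0, huQ⟩
  have e9 : Od b := ⟨z0, hQ0⟩
  rw [T3F_odd ε hne e8 e9 b1, gu, br0, br0', Submodule.coe_zero, map_zero]
  have e7 : ∀ a : V, kE 0 a = 0 := fun a => by rw [← kEL_apply, map_zero]; rfl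
  rw [e7, e7]
  have e10 : kE (br u (gM b)) (br u (gM b)) = 1 / 2 := by
    have k1 : cQ (br u (gM b)) = -(conj (cP b) / 2 * cR u) := by
      rw [br_Q, hu0, huC, huP, huQ]
      simp [gM]
    have k2 : c0 (br u (gM b)) = 0 := by
      rw [br_0, huC, huP, huQ]
      simp [gM, imp]
    unfold kE
    rw [k1, k2]
    unfold rip at hP1 hR ⊢
    simp only [Complex.neg_re, Complex.neg_im, Complex.mul_re, Complex.mul_im, Complex.conj_re,
      Complex.conj_im, Complex.div_ofNat_re, Complex.div_ofNat_im]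
    linear_combination (1 / 2 : ℝ) * ((cR u).re * (cR u).re + (cR u).im * (cR u).im) * hP1
      + (1 / 2 : ℝ) * hR
  rw [e10]
  ring

theorem kE_rz {z : ℂ} (hz : ‖z‖ = 1) (u : V) : kE (Act.rz z u) (Act.rz z u) = kE u u := by
  unfold kE
  rw [Act.c0_rz, Act.cQ_rz, rip_self, rip_self, map_mul, map_pow, Complex.normSq_eq_norm_sq, hz]
  norm_num

theorem QQ_rz {z : ℂ} (hz : ‖z‖ = 1) (u : V) :
    BN (m 1 3) QQ (Act.rz z u) (Act.rz z u) = BN (m 1 3) QQ u u := by
  rw [BN_apply, BN_apply, QQ_coords, QQ_coords]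
  simp only [Act.c0_rz, Act.cP_rz, Act.cR_rz, Act.cC_rz, Act.cQ_rz, rip_self, map_mul, map_pow,
    Complex.normSq_eq_norm_sq, Complex.norm_conj, hz]
  norm_num

theorem mM_rz {z : ℂ} (hz : ‖z‖ = 1) (u : V) : mM (Act.rz z u) (Act.rz z u) = mM u u := by
  have h1 : cC (Act.rz z u) * cP (Act.rz z u) = cC u * cP u := by
    rw [Act.cC_rz, Act.cP_rz]
    have h2 : conj z * z = 1 := by
      rw [← Complex.normSq_eq_conj_mul_self, Complex.normSq_eq_norm_sq, hz]; norm_num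
    calc conj z ^ 2 * cC u * (z ^ 2 * cP u) = (conj z * z) ^ 2 * (cC u * cP u) := by ring
      _ = cC u * cP u := by rw [h2]; ring
  unfold mM
  rw [h1]

theorem vX_invH (ε : ℝ) : InvH (Sp2.H 1 3) (vX ε) := by
  rw [Act.invH_iff]
  intro z hz u
  unfold vX
  rw [kE_rz hz, QQ_rz hz, mM_rz hz]

end X3

/-- the `X`-points: orbits of `Zp`, `u(± 1/2)`, `u(± √3/2)` -/
def XPt (u : V) : Prop :=
  (c0 u = 0 ∧ cP u = 0 ∧ cC u = 0 ∧ cQ u = 0) ∨
  ∃ z : ℂ, ‖z‖ = 1 ∧ ∃ p t : ℝ, 0 < p ∧ (t = 1 ∨ t = -1 ∨ 3 * t ^ 2 = 1) ∧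
    Act.rz z u = uT p t

open X3 in
/-- **X1c, X3**: at the flags with `α = 0` over the `X`-points the third order form of the explicit
function is positive -/
theorem X3_pos {ε : ℝ} (hε : 0 < ε) (hε1 : ε ≤ 1) {φ : V → ℝ} {u b : V} (hφ : φ =ᶠ[𝓝 u] vX ε)
    (hF : Fl u b) (hX : XPt u) (hal : alf φ u b = 0) : 0 < T3 φ u b := by
  have hN := nD
  have hT : T3 φ u b = T3 (vX ε) u b := T3F_congr hN hφ
  have hal1 : alf (vX ε) u b = 0 := (al_congr hφ).symm.trans hal
  rw [hT]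
  rcases hX with ⟨h1, h2, h3, h4⟩ | ⟨z, hz, p, t, hp, ht, hu⟩
  · have := T3F_Zp (ε := ε) h1 h2 h3 h4 hF
    show 0 < T3F QQ (PP 1 3) (vX ε) u b
    rw [this]
    positivity
  · obtain ⟨k, hk, hk'⟩ := Act.exists_k hz
    have hne : u ≠ 0 := by
      rintro rfl
      have := hF.1
      simp at this
    have e1 : adM (PP 1 3) k u = uT p t := by
      rw [← hu]
      apply Subtype.ext
      rw [← hk']
      exact adM_coe hN gD hk u
    have e2 : T3 (vX ε) (adM (PP 1 3) k u) (adM (PP 1 3) k b) = T3 (vX ε) u b :=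
      T3Inv_T3F hN cD gD (vX_smooth ε) (vX_invH ε) hk hne b
    have hF' : Fl (adM (PP 1 3) k u) (adM (PP 1 3) k b) := flag_adM hN gD hk hF
    have hal2 : alf (vX ε) (adM (PP 1 3) k u) (adM (PP 1 3) k b) = 0 :=
      (al_adM hN cD gD (vX_smooth ε) (vX_invH ε) hk hne b).trans hal1
    rw [e1] at e2 hF' hal2
    have ht0 : t ≠ 0 := by
      rintro rfl
      rcases ht with h | h | h <;> norm_num at h
    have ht2 : 1 / 3 ≤ t ^ 2 := by
      rcases ht with h | h | h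
      · rw [h]; norm_num
      · rw [h]; norm_num
      · linarith
    have ht3 : 1 - 2 * t ^ 2 ≠ 0 := by
      rcases ht with h | h | h
      · rw [h]; norm_num
      · rw [h]; norm_num
      · intro h'; linarith
    rw [← e2]
    refine T3F_rp hε.ne' ?_ hp.ne' ht0 ht3 hF' hal2
    have h5 : ε * t ≤ (ε ^ 2 + t ^ 2) / 2 := by nlinarith [sq_nonneg (ε - t)]
    have h6 : ε ^ 2 ≤ 1 := by nlinarith
    nlinarith

end Pool.Agent.FL.S1
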