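import Pool.Agent.FL.S1X0
import Pool.Agent.FL.S1X3

/-!
# MP_f09395_gt, space (1): X3 for the explicit function `vE`
-/

set_option linter.unusedSectionVars false

noncomputable section

namespace Pool.Agent.FL.S1

open scoped ContDiff Quaternion Matrix ComplexConjugate
open Pool.Agent.Helper93.Fin Pool.Agent.helper79.FP Pool.Agent.helper79.FR
open Pool.Agent.helper79.FR.Sp2 (Mat QQ h0 m gg hh PP BB cc)
open Pool.Agent.FL
open Filter Topology

attribute [local instance] Matrix.linftyOpNormedRing Matrix.linftyOpNormedAlgebra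

namespace X3

theorem kE_self (u : V) : kE u u = Kq u := by
  unfold kE Kq
  rw [rip_self]; ring

theorem mM_self (u : V) : mM u u = mq u := by
  unfold mM mq; ring

theorem vX_self (ε : ℝ) (u : V) : vX ε u = -(vK u + ε * mq u) := by
  unfold vX vK nr
  rw [kE_self, mM_self, BN_apply]
  ring

/-- where `χ₂ = 0` -/
theorem vE_eq (ε κ : ℝ) {u : V} (h : chi2 u = 0) : vE ε κ u = vX ε u := by
  rw [vX_self, vE, h]; ring

theorem vE_ev (ε κ : ℝ) {u : V} (h : ∀ᶠ w in 𝓝 u, chi2 w = 0) : vE ε κ =ᶠ[𝓝 u] vX ε :=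
  h.mono fun _ hw => vE_eq ε κ hw

theorem chi1_zero {t : ℝ} (h : t ≤ 2 / 5) : chi1 t = 0 := by
  unfold chi1
  rw [Real.smoothTransition.zero_of_nonpos (by linarith), zero_mul]

theorem chi1_zero' {t : ℝ} (h : 3 / 5 ≤ t) : chi1 t = 0 := by
  unfold chi1
  rw [Real.smoothTransition.zero_of_nonpos (x := 12 - 20 * t) (by linarith), mul_zero]

theorem nr_cont : Continuous nr := by
  have : nr = fun u : V => BN (m 1 3) QQ u u := by
    funext u; rw [BN_apply]; rfl
  rw [this]
  exact ((BN (m 1 3) QQ).continuous).clm_apply continuous_id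

theorem nr_ne {u : V} (hu : u ≠ 0) : nr u ≠ 0 := by
  have h := BN_ne hN hu
  rwa [BN_apply] at h

theorem nP_cont {u : V} (hu : u ≠ 0) :
    ContinuousAt (fun w : V => Complex.normSq (cP w) / nr w) u :=
  ((Complex.continuous_normSq.comp cP.continuous).continuousAt).div nr_cont.continuousAt (nr_ne hu)

/-- `χ₂ = 0` near points with `|P|² < 2/5 N` -/
theorem chi2_ev_P {u : V} (hu : u ≠ 0) (h : Complex.normSq (cP u) / nr u < 2 / 5) :
    ∀ᶠ w in 𝓝 u, chi2 w = 0 := by
  filter_upwards [(nP_cont hu).eventually (gt_mem_nhds h)] with w hw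
  rw [chi2, chi1_zero hw.le, zero_mul]

/-- `χ₂ = 0` near points with `c > 0` -/
theorem chi2_ev_c {u : V} (hu : u ≠ 0) (h : 0 < cc 1 3 u) : ∀ᶠ w in 𝓝 u, chi2 w = 0 := by
  have hc : ContinuousAt (cc 1 3) u :=
    (cD.csm.continuousOn).continuousAt (isOpen_compl_singleton.mem_nhds hu)
  filter_upwards [hc.eventually (lt_mem_nhds h)] with w hw
  rw [chi2, Real.smoothTransition.zero_of_nonpos (by linarith), mul_zero]

theorem nP_rz {z : ℂ} (hz : ‖z‖ = 1) (u : V) :
    Complex.normSq (cP (Act.rz z u)) / nr (Act.rz z u) = Complex.normSq (cP u) / nr u := by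
  have h1 : Complex.normSq (z ^ 2) = 1 := by
    rw [Complex.normSq_eq_norm_sq, norm_pow, hz]; norm_num
  have h2 : nr (Act.rz z u) = nr u := QQ_rz hz u
  rw [h2, Act.cP_rz, Complex.normSq_mul, h1, one_mul]

theorem chi2_XPt {u : V} (hu : u ≠ 0) (hX : XPt u) : ∀ᶠ w in 𝓝 u, chi2 w = 0 := by
  rcases hX with ⟨-, h2, -, -⟩ | ⟨z, hz, p, t, hp, ht, hut⟩
  · refine chi2_ev_P hu ?_
    rw [h2]; simp
  · have hP := nP_rz hz u
    have hc := cc_rz hz u
    rw [hut] at hP hc
    rcases ht with rfl | rfl | ht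
    · refine chi2_ev_P hu ?_
      rw [← hP, nr, uT_N]
      simp only [uT, cP_mk, Complex.normSq_ofReal]
      rw [div_lt_iff₀ (by positivity)]
      nlinarith [mul_pos hp hp]
    · refine chi2_ev_P hu ?_
      rw [← hP, nr, uT_N]
      simp only [uT, cP_mk, Complex.normSq_ofReal]
      rw [div_lt_iff₀ (by positivity)]
      nlinarith [mul_pos hp hp]
    · refine chi2_ev_c hu ?_
      rw [← hc, cc_uT hp.ne', ht]
      norm_num

theorem chi2_Spec {u : V} (hu : u ≠ 0) (hS : Spec u) : ∀ᶠ w in 𝓝 u, chi2 w = 0 := by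
  have hP : cP u = 0 := by
    rcases hS with h | h | h | h
    · exact h.2.1
    · exact h.1
    · exact h.1
    · exact h.2.1
  refine chi2_ev_P hu ?_
  rw [hP]; simp

/-- near the special points the explicit function is `vX` -/
theorem vE_Spec (ε κ : ℝ) {u : V} (hu : u ≠ 0) (hS : Spec u) : vE ε κ =ᶠ[𝓝 u] vX ε :=
  vE_ev ε κ (chi2_Spec hu hS)

/-- near the `X`-points the explicit function is `vX` -/
theorem vE_XPt (ε κ : ℝ) {u : V} (hu : u ≠ 0) (hX : XPt u) : vE ε κ =ᶠ[𝓝 u] vX ε :=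
  vE_ev ε κ (chi2_XPt hu hX)

end X3

/-- **X3** for the explicit function -/
theorem X3_vE {ε : ℝ} (hε : 0 < ε) (hε1 : ε ≤ 1) (κ : ℝ) {u b : V} (hF : Fl u b) (hX : XPt u)
    (hal : alf (vE ε κ) u b = 0) : 0 < T3 (vE ε κ) u b := by
  have hne : u ≠ 0 := by
    rintro rfl
    have := hF.1
    simp at this
  exact X3_pos hε hε1 (X3.vE_XPt ε κ hne hX) hF hX hal

end Pool.Agent.FL.S1
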