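import Pool.Agent.FL.S1Core

/-!
# MP_f09395_gt, space (1): the point `e₂'` and its flag vector (definitions only)
-/

noncomputable section

namespace Pool.Agent.FL.S1

open scoped ContDiff Quaternion Matrix ComplexConjugate
open Pool.Agent.Helper93.Fin Pool.Agent.helper79.FP Pool.Agent.helper79.FR
open Pool.Agent.helper79.FR.Sp2 (Mat QQ h0 m gg hh PP BB cc)

attribute [local instance] Matrix.linftyOpNormedRing Matrix.linftyOpNormedAlgebra

/-- the point `e₂'` (helper37's normal form) -/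
def e2p (κ a : ℝ) : V := mkV 0 (a : ℂ) (a : ℂ) (((-2 * κ * a ^ 3 : ℝ) : ℂ) * Complex.I) 0

/-- the flag vector over `e₂'` with `α = 0` -/
def e2b (κ a : ℝ) : V :=
  mkV 0 (((-2 * κ * a ^ 3 : ℝ) : ℂ) * Complex.I) (-(((-2 * κ * a ^ 3 : ℝ) : ℂ) * Complex.I))
    (a : ℂ) 0

end Pool.Agent.FL.S1
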