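import Mathlib

/-!
# MP_f09395_gt, space (1), module X4a: the real lemma
-/

namespace Pool.Agent.FL.S1

theorem x4a_core {κ C χs χd x y γ s : ℝ} (hs : s = x ^ 2 + y ^ 2) (hN : s + γ ^ 2 = 1 / 2)
    (hs2 : 2 / 5 ≤ s) (hκC : |κ| * (C + 2) ≤ 1 / 20) (hd : |χd| ≤ C)
    (h0 : 0 ≤ χs) (h1 : χs ≤ 1) (hone : 9 / 20 ≤ s → s ≤ 11 / 20 → χs = 1)
    (E1 : x ^ 2 - γ ^ 2 + 4 * κ * (χd * s + χs) * γ * x ^ 2 * y + 2 * κ * χs * s * γ * y = 0)
    (E2 : x * (y + 4 * κ * (χd * s + χs) * γ * y ^ 2 + 2 * κ * χs * s * γ) = 0)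
    (E3 : y * γ + 2 * κ * χs * s * (x ^ 2 - y ^ 2) = 0) :
    x = 0 ∧ γ = 2 * κ * y ^ 3 ∧ χs = 1 := by
  have hC0 : 0 ≤ C := (abs_nonneg _).trans hd
  have hκ0 : 0 ≤ |κ| := abs_nonneg _
  have hκ2 : |κ| ≤ 1 / 40 := by nlinarith
  have hs1 : s ≤ 1 / 2 := by nlinarith [sq_nonneg γ]
  have hs0 : 0 ≤ s := by linarith
  have hγ2 : γ ^ 2 ≤ 1 / 10 := by nlinarith
  have hγa : |γ| ≤ 1 / 3 := by
    rw [abs_le]; constructor <;> nlinarith
  have hya : |y| ≤ 3 / 4 := by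
    rw [abs_le]; constructor <;> nlinarith [sq_nonneg x]
  -- the coefficient
  have hT : |κ * (χd * s + χs)| ≤ 1 / 40 := by
    have h2 : |χd * s + χs| ≤ C * (1 / 2) + 1 := by
      refine (abs_add_le _ _).trans (add_le_add ?_ ?_)
      · rw [abs_mul, abs_of_nonneg hs0]
        exact mul_le_mul hd hs1 hs0 hC0
      · rw [abs_of_nonneg h0]; exact h1
    rw [abs_mul]
    nlinarith
  have hS : |κ * χs * s| ≤ 1 / 80 := by
    rw [abs_mul, abs_mul, abs_of_nonneg h0, abs_of_nonneg hs0]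
    have : |κ| * χs ≤ 1 / 40 := by nlinarith
    have h3 : 0 ≤ |κ| * χs := mul_nonneg hκ0 h0
    nlinarith
  obtain ⟨T, hTd⟩ : ∃ T, T = κ * (χd * s + χs) := ⟨_, rfl⟩
  obtain ⟨S, hSd⟩ : ∃ S, S = κ * χs * s := ⟨_, rfl⟩
  rw [← hTd] at hT
  rw [← hSd] at hS
  have E1' : x ^ 2 - γ ^ 2 + 4 * T * γ * x ^ 2 * y + 2 * S * γ * y = 0 := by
    rw [hTd, hSd]; linarith [E1]
  have E2' : x * (y + 4 * T * γ * y ^ 2 + 2 * S * γ) = 0 := by
    rw [hTd, hSd]; linarith [E2]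
  have E3' : y * γ + 2 * S * (x ^ 2 - y ^ 2) = 0 := by
    rw [hSd]; linarith [E3]
  have hgy : |γ * y| ≤ 1 / 4 := by
    rw [abs_mul]
    calc |γ| * |y| ≤ (1 / 3) * (3 / 4) := mul_le_mul hγa hya (abs_nonneg _) (by norm_num)
      _ = 1 / 4 := by norm_num
  have hx : x = 0 := by
    by_contra hx0
    have h4 : y + 4 * T * γ * y ^ 2 + 2 * S * γ = 0 := by
      rcases mul_eq_zero.1 E2' with h | h
      · exact absurd h hx0
      · exact h
    have hTg : |T * (γ * y)| ≤ 1 / 160 := by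
      rw [abs_mul]
      calc |T| * |γ * y| ≤ (1 / 40) * (1 / 4) := mul_le_mul hT hgy (abs_nonneg _) (by norm_num)
        _ = 1 / 160 := by norm_num
    have hSg : |S * γ| ≤ 1 / 240 := by
      rw [abs_mul]
      calc |S| * |γ| ≤ (1 / 80) * (1 / 3) := mul_le_mul hS hγa (abs_nonneg _) (by norm_num)
        _ = 1 / 240 := by norm_num
    have hSgy : |S * (γ * y)| ≤ 1 / 320 := by
      rw [abs_mul]
      calc |S| * |γ * y| ≤ (1 / 80) * (1 / 4) := mul_le_mul hS hgy (abs_nonneg _) (by norm_num)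
        _ = 1 / 320 := by norm_num
    rw [abs_le] at hTg hSg hSgy
    have h5 : y * (1 + 4 * (T * (γ * y))) = -(2 * (S * γ)) := by linarith [h4]
    have hy1 : y ^ 2 ≤ 1 / 1000 := by
      have h6 : |y| * (39 / 40) ≤ 1 / 120 := by
        have h7 : |y * (1 + 4 * (T * (γ * y)))| ≤ 1 / 120 := by
          rw [h5, abs_neg, abs_mul, abs_two]
          have : |S * γ| ≤ 1 / 240 := abs_le.2 hSg
          linarith
        rw [abs_mul] at h7
        have h8 : 39 / 40 ≤ |1 + 4 * (T * (γ * y))| := by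
          refine le_trans ?_ (le_abs_self _)
          linarith [hTg.1]
        exact (mul_le_mul_of_nonneg_left h8 (abs_nonneg _)).trans h7
      have h9 : |y| ≤ 1 / 100 := by linarith
      rw [← sq_abs]
      nlinarith [abs_nonneg y]
    have hx2 : 39 / 100 ≤ x ^ 2 := by linarith
    have hx3 : x ^ 2 ≤ 1 / 2 := by linarith [sq_nonneg y]
    obtain ⟨W, hW⟩ : ∃ W, W = T * (γ * y) := ⟨_, rfl⟩
    obtain ⟨W', hW'⟩ : ∃ W', W' = S * (γ * y) := ⟨_, rfl⟩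
    rw [← hW] at hTg
    rw [← hW'] at hSgy
    have h10 : x ^ 2 - γ ^ 2 + 4 * W * x ^ 2 + 2 * W' = 0 := by
      rw [hW, hW']; linarith [E1']
    obtain ⟨X, hX⟩ : ∃ X, X = x ^ 2 := ⟨_, rfl⟩
    obtain ⟨G, hG⟩ : ∃ G, G = γ ^ 2 := ⟨_, rfl⟩
    rw [← hX] at h10 hx2 hx3
    rw [← hG] at h10 hγ2
    have h12 : 0 ≤ (1 / 160 + W) * X := mul_nonneg (by linarith [hTg.1]) (by linarith)
    nlinarith [hSgy.1]
  subst hx
  have hy2 : s = y ^ 2 := by rw [hs]; ring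
  have hy0 : y ≠ 0 := by
    rintro rfl
    norm_num at hy2
    linarith
  have h12 : γ = 2 * S * y := by
    have : y * (γ - 2 * S * y) = 0 := by linarith [E3']
    rcases mul_eq_zero.1 this with h | h
    · exact absurd h hy0
    · linarith
  have h13 : |γ| ≤ 1 / 50 := by
    rw [h12, abs_mul, abs_mul, abs_two]
    calc 2 * |S| * |y| ≤ 2 * (1 / 80) * (3 / 4) := by
          apply mul_le_mul (by linarith) hya (abs_nonneg _) (by norm_num)
      _ ≤ 1 / 50 := by norm_num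
  have h14 : γ ^ 2 ≤ 1 / 2500 := by
    rw [← sq_abs]
    nlinarith [abs_nonneg γ]
  have h15 : χs = 1 := hone (by linarith) (by linarith)
  refine ⟨rfl, ?_, h15⟩
  rw [h12, hSd, h15, hy2]
  ring

end Pool.Agent.FL.S1
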