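import Pool.Agent.FL.S1X0
import Pool.Agent.FL.S1X2
import Pool.Agent.FL.S1E2p
import Pool.Agent.FL.S1X4aC

/-!
# MP_f09395_gt, space (1), module X4a: critical points near `e₂` on the wall `c = -1`

On the odd part and on the wall `c = -1` the points with `e(u) = 0`, where the function is
`A (Re (C P) - κ χ(|P|²/N) Im (R conj P ³ + l R conj P C²) / N)` with `|κ|` small, and with
`|P|² ≥ 2/5`, are equivalent to `P = i y`, `R = -i y`, `C = 2 κ y³`, `y² + 4 κ² y⁶ = 1/2`.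
-/

set_option linter.unusedSectionVars false

noncomputable section

namespace Pool.Agent.FL.S1

open scoped ContDiff Quaternion Matrix ComplexConjugate
open Pool.Agent.Helper93.Fin Pool.Agent.helper79.FP Pool.Agent.helper79.FR
open Pool.Agent.helper79.FR.Sp2 (Mat QQ h0 m gg hh PP BB cc)
open Filter Topology

attribute [local instance] Matrix.linftyOpNormedRing Matrix.linftyOpNormedAlgebra

namespace X4a

/-! ### transport by the isotropy group -/

theorem adM_rz {k : Matˣ} (hk : k ∈ Sp2.H 1 3) {z : ℂ}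
    (h : ∀ u : V, Adj k (u : Mat) = (Act.rz z u : Mat)) (u : V) :
    adM (PP 1 3) k u = Act.rz z u :=
  Subtype.ext (by rw [adM_coe nD gD hk, h])

theorem D1_rz {φ : V → ℝ} (hφ : PhiN (hh 1 3) (m 1 3) (PP 1 3) φ) (hH : InvH (Sp2.H 1 3) φ)
    {z : ℂ} (hz : ‖z‖ = 1) {u : V} (hu : u ≠ 0) (a : V) :
    D1 φ (Act.rz z u) (Act.rz z a) = D1 φ u a := by
  obtain ⟨k, hk, hk'⟩ := Act.exists_k hz
  rw [← adM_rz hk hk' u, ← adM_rz hk hk' a]
  exact D1_adM nD gD hφ.smooth hH hk hu a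

theorem br_rz {z : ℂ} (hz : ‖z‖ = 1) (a b : V) :
    br (Act.rz z a) (Act.rz z b) = Act.rz z (br a b) := by
  obtain ⟨k, hk, hk'⟩ := Act.exists_k hz
  obtain ⟨r, hr⟩ : ∃ r, r = QQ ⁅(a : Mat), (b : Mat)⁆ (h0 1 3) / 10 := ⟨_, rfl⟩
  have e0 := lie_coe a b
  rw [← hr] at e0
  have e1 : ⁅(Act.rz z a : Mat), (Act.rz z b : Mat)⁆ = (Act.rz z (br a b) : Mat) +
      r • h0 1 3 := by
    rw [← hk' a, ← hk' b, ← Adj_lie, e0, Sp2.Adj_add, Sp2.Adj_smul, Sp2.Adj_h0 hk, hk']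
  refine Subtype.ext ?_
  show (PP 1 3 ⁅(Act.rz z a : Mat), (Act.rz z b : Mat)⁆ : Mat) = _
  have e2 : QQ (Act.rz z (br a b) : Mat) (h0 1 3) = 0 := by
    rw [Sp2.QQ_comm]; exact (Sp2.mem_m_iff.1 (Act.rz z (br a b)).2).2
  have e3 : QQ ((Act.rz z (br a b) : Mat) + r • h0 1 3) (h0 1 3) = 10 * r := by
    rw [map_add, LinearMap.add_apply, e2, map_smul, LinearMap.smul_apply, Sp2.QQ_h0_h0,
      smul_eq_mul]
    norm_num
    ring
  rw [PP_gg (lie_mem _ _), e1, e3]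
  module

theorem QQ_rz {z : ℂ} (hz : ‖z‖ = 1) (a b : V) :
    QQ (Act.rz z a : Mat) (Act.rz z b) = QQ (a : Mat) b := by
  obtain ⟨k, hk, hk'⟩ := Act.exists_k hz
  rw [← hk' a, ← hk' b, Sp2.QQ_Adj]

theorem rz_conj {z : ℂ} (hz : ‖z‖ = 1) (u : V) : Act.rz z (Act.rz (conj z) u) = u := by
  have h1 : z * conj z = 1 := by
    rw [Complex.mul_conj', hz]; norm_num
  refine ext_coords ?_ ?_ ?_ ?_ ?_
  · rfl
  · show z ^ 2 * (conj z ^ 2 * cP u) = cP u
    linear_combination (cP u) * (z * conj z + 1) * h1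
  · show z ^ 6 * (conj z ^ 6 * cR u) = cR u
    have : z ^ 6 * conj z ^ 6 = 1 := by rw [← mul_pow, h1, one_pow]
    linear_combination (cR u) * this
  · show conj z ^ 2 * (conj (conj z) ^ 2 * cC u) = cC u
    rw [Complex.conj_conj]
    linear_combination (cC u) * (z * conj z + 1) * h1
  · show z ^ 4 * (conj z ^ 4 * cQ u) = cQ u
    have : z ^ 4 * conj z ^ 4 = 1 := by rw [← mul_pow, h1, one_pow]
    linear_combination (cQ u) * this

theorem QQ_br_adj (x k u : V) : QQ (x : Mat) (br k u : Mat) = QQ (k : Mat) (br u x : Mat) := by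
  have h1 : QQ (x : Mat) ⁅(k : Mat), (u : Mat)⁆ = QQ (k : Mat) ⁅(u : Mat), (x : Mat)⁆ := by
    rw [Sp2.QQ_comm, Sp2.QQ_inv]
  rw [lie_coe k u, lie_coe u x, map_add, map_add, map_smul, map_smul, Sp2.QQ_comm (x : Mat) (h0 1 3),
    Sp2.QQ_comm (k : Mat) (h0 1 3), (Sp2.mem_m_iff.1 x.2).2, (Sp2.mem_m_iff.1 k.2).2] at h1
  simpa using h1

/-- the equations `e(u) = 0`: derivatives of `φ` along `[k, u]` -/
theorem D1_br {φ : V → ℝ} {u : V} (he : eu φ u = 0) (k : V) : D1 φ u (br k u) = 0 := by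
  have h1 : QQ (gx QQ φ u : Mat) (br k u : Mat) = D1 φ u (br k u) := gx_spec nD u _
  rw [← h1, QQ_br_adj]
  have h2 : br u (gx QQ φ u) = 0 := he
  rw [h2]
  simp

theorem D1_rt {φ : V → ℝ} (hφ : PhiN (hh 1 3) (m 1 3) (PP 1 3) φ) {u : V} (hu : u ≠ 0) :
    D1 φ u (rt u) = 0 :=
  hφ.inv (h0 1 3) (Submodule.mem_span_singleton_self _) u hu

/-! ### the wall `c = -1` in the odd part -/

theorem wallA {u : V} (h0 : c0 u = 0) (hQ : cQ u = 0) (hN : QQ (u : Mat) u = 1)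
    (hc : cc 1 3 u = -1) : Complex.normSq (cP u) + Complex.normSq (cC u) = 1 / 2 ∧
      Complex.normSq (cR u) + Complex.normSq (cC u) = 1 / 2 ∧
      cP u * conj (cC u) + cC u * cR u = 0 := by
  have h1 : Sp2.s4 (u : Mat) = 1 / 2 := by
    have h2 : 4 * Sp2.s4 (u : Mat) * ((QQ (u : Mat) u) ^ 2)⁻¹ - 3 = -1 := hc
    rw [hN] at h2
    norm_num at h2
    linarith
  rw [s4_odd h0 hQ] at h1
  rw [N_odd h0 hQ] at hN
  have h3 := Complex.normSq_nonneg (cP u * conj (cC u) + cC u * cR u)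
  have h4 : Complex.normSq (cP u) = Complex.normSq (cR u) := by
    nlinarith [sq_nonneg (Complex.normSq (cP u) - Complex.normSq (cR u))]
  refine ⟨by linarith, by linarith, ?_⟩
  have h5 : Complex.normSq (cP u * conj (cC u) + cC u * cR u) = 0 := by
    have h6 : Complex.normSq (cP u) + Complex.normSq (cC u) = 1 / 2 := by linarith
    have h7 : Complex.normSq (cC u) + Complex.normSq (cR u) = 1 / 2 := by linarith
    rw [h6, h7] at h1
    linarith
  exact Complex.normSq_eq_zero.1 h5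

/-- the section -/
def sg (x y γ : ℝ) : V := mkV 0 ⟨x, y⟩ (-⟨x, y⟩) (γ : ℂ) 0

theorem gauge {u : V} (h0 : c0 u = 0) (hQ : cQ u = 0)
    (h1 : Complex.normSq (cP u) = Complex.normSq (cR u)) (hR0 : cR u ≠ 0)
    (h2 : cP u * conj (cC u) + cC u * cR u = 0) :
    ∃ z : ℂ, ‖z‖ = 1 ∧ ∃ x y γ : ℝ, Act.rz z u = sg x y γ := by
  have key : ∃ ζ : ℂ, ‖ζ‖ = 1 ∧ ζ ^ 2 * cR u = -cP u ∧ ∃ γ : ℝ, conj ζ * cC u = γ := by
    by_cases hC : cC u = 0
    · obtain ⟨ζ, hζ⟩ := IsAlgClosed.exists_pow_nat_eq (-cP u / cR u) (by norm_num : 0 < 2)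
      refine ⟨ζ, ?_, ?_, 0, ?_⟩
      · have h3 : ‖ζ‖ ^ 2 = 1 := by
          have h4 : ‖cP u‖ = ‖cR u‖ := by
            have h5 : ‖cP u‖ ^ 2 = ‖cR u‖ ^ 2 := by rw [Complex.sq_norm, Complex.sq_norm, h1]
            exact (sq_eq_sq₀ (norm_nonneg _) (norm_nonneg _)).1 h5
          rw [← norm_pow, hζ, norm_div, norm_neg, h4, div_self (norm_ne_zero_iff.2 hR0)]
        nlinarith [norm_nonneg ζ]
      · rw [hζ]; field_simp
      · rw [hC]; simp
    · have hn : ((‖cC u‖ : ℝ) : ℂ) ≠ 0 := by exact_mod_cast norm_ne_zero_iff.2 hC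
      refine ⟨cC u / (‖cC u‖ : ℂ), ?_, ?_, ‖cC u‖, ?_⟩
      · rw [norm_div, Complex.norm_real, norm_norm, div_self (norm_ne_zero_iff.2 hC)]
      · have h3 : conj (cC u) * cC u = (‖cC u‖ : ℂ) ^ 2 := Complex.conj_mul' (cC u)
        have h4 : cC u ^ 2 * cR u = -(cP u * (‖cC u‖ : ℂ) ^ 2) := by
          rw [← h3]; linear_combination cC u * h2
        rw [div_pow, div_mul_eq_mul_div, h4]
        field_simp
      · have h3 : conj (cC u) * cC u = (‖cC u‖ : ℂ) ^ 2 := Complex.conj_mul' (cC u)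
        rw [map_div₀, Complex.conj_ofReal, div_mul_eq_mul_div, h3]
        field_simp
  obtain ⟨ζ, hζ, e1, γ, e2⟩ := key
  obtain ⟨z, hz⟩ := IsAlgClosed.exists_pow_nat_eq ζ (by norm_num : 0 < 2)
  have hz1 : ‖z‖ = 1 := by
    have h3 : ‖z‖ ^ 2 = 1 := by rw [← norm_pow, hz, hζ]
    nlinarith [norm_nonneg z]
  refine ⟨z, hz1, (ζ * cP u).re, (ζ * cP u).im, γ, ?_⟩
  refine ext_coords ?_ ?_ ?_ ?_ ?_
  · rw [Act.c0_rz, h0]; rfl
  · rw [Act.cP_rz, hz]; rfl
  · rw [Act.cR_rz]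
    show _ = -(ζ * cP u)
    have h6 : z ^ 6 = ζ ^ 3 := by rw [← hz]; ring
    rw [h6]; linear_combination ζ * e1
  · rw [Act.cC_rz, ← map_pow, hz, e2]; rfl
  · rw [Act.cQ_rz, hQ]; simp [sg]

/-! ### the function on the section -/

theorem sg_line (x y γ a b c t : ℝ) :
    sg x y γ + t • sg a b c = sg (x + t * a) (y + t * b) (γ + t * c) := by
  refine ext_coords ?_ ?_ ?_ ?_ ?_
  · simp [sg]
  · rw [map_add, map_smul]
    apply Complex.ext <;> simp [sg]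
  · rw [map_add, map_smul]
    apply Complex.ext <;> simp [sg] <;> ring
  · rw [map_add, map_smul]
    apply Complex.ext <;> simp [sg]
  · simp [sg]

theorem nr_sg (x y γ : ℝ) : nr (sg x y γ) = 2 * (x ^ 2 + y ^ 2 + γ ^ 2) := by
  rw [nr, N_odd rfl rfl]
  simp [sg, Complex.normSq_apply]
  ring

theorem mq_sg (x y γ : ℝ) : mq (sg x y γ) = x * γ := by
  simp [mq, sg]
  ring

theorem Gq_sg (x y γ : ℝ) : Gq (sg x y γ) = 2 * (x ^ 2 + y ^ 2) * (x * y) / nr (sg x y γ) := by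
  rw [Gq]
  congr 1
  simp [sg, pow_two, Complex.mul_re, Complex.mul_im]
  ring

theorem normSq_sg (x y γ : ℝ) : Complex.normSq (cP (sg x y γ)) = x ^ 2 + y ^ 2 := by
  simp [sg, Complex.normSq_apply]
  ring

/-- the formula near a point of the odd part on the wall `c = -1` -/
theorem vE_loc (ε κ : ℝ) {u : V} (hu : u ≠ 0) (hc : cc 1 3 u = -1) :
    ∀ᶠ v in 𝓝 u, Od v → vE ε κ v =
      -ε * (mq v + κ * (chi1 (Complex.normSq (cP v) / nr v) * Gq v)) := by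
  have h1 : ContinuousAt (fun v => cc 1 3 v) u :=
    (cD.csm.contDiffAt (isOpen_compl_singleton.mem_nhds hu)).continuousAt
  have h2 : ∀ᶠ v in 𝓝 u, cc 1 3 v < -1 / 2 :=
    h1.eventually_lt continuousAt_const (by rw [hc]; norm_num)
  filter_upwards [h2] with v hv hO
  have h3 : Real.smoothTransition (-2 * cc 1 3 v) = 1 :=
    Real.smoothTransition.one_of_one_le (by linarith)
  have h4 : Kq v = 0 := by rw [Kq, hO.1, hO.2]; simp
  rw [vE, vK, h4, chi2, h3]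
  ring

theorem line_der {φ : V → ℝ} (hφ : ContDiffOn ℝ ∞ φ {0}ᶜ) {u : V} (hu : u ≠ 0) (w : V) :
    HasDerivAt (fun t : ℝ => φ (u + t • w)) (D1 φ u w) 0 := by
  have h1 : HasFDerivAt φ (fderiv ℝ φ u) (u + (0 : ℝ) • w) := by
    rw [zero_smul, add_zero]
    exact (differentiableAt_of_ne hφ hu).hasFDerivAt
  have h2 : HasDerivAt (fun t : ℝ => u + t • w) w 0 := by
    have h3 := ((hasDerivAt_id (0 : ℝ)).smul_const w).const_add u
    rw [one_smul] at h3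
    exact h3
  exact h1.comp_hasDerivAt 0 h2

theorem sec_der {χ : ℝ → ℝ} {κ x y γ a b c χd : ℝ} (hN : 2 * (x ^ 2 + y ^ 2 + γ ^ 2) = 1)
    (hw : x * a + y * b + γ * c = 0) (hχ : HasDerivAt χ χd (x ^ 2 + y ^ 2)) :
    HasDerivAt (fun t : ℝ => (x + t * a) * (γ + t * c) +
      κ * (χ (((x + t * a) ^ 2 + (y + t * b) ^ 2) /
          (2 * ((x + t * a) ^ 2 + (y + t * b) ^ 2 + (γ + t * c) ^ 2))) *
        (2 * ((x + t * a) ^ 2 + (y + t * b) ^ 2) * ((x + t * a) * (y + t * b)) /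
          (2 * ((x + t * a) ^ 2 + (y + t * b) ^ 2 + (γ + t * c) ^ 2)))))
      (x * c + γ * a + κ * (χd * (2 * (x * a + y * b)) * (2 * (x ^ 2 + y ^ 2) * (x * y)) +
        χ (x ^ 2 + y ^ 2) * (2 * (2 * (x * a + y * b)) * (x * y) +
          2 * (x ^ 2 + y ^ 2) * (x * b + y * a)))) 0 := by
  have hp : ∀ r s : ℝ, HasDerivAt (fun t : ℝ => r + t * s) s 0 := fun r s => by
    simpa using ((hasDerivAt_id (0 : ℝ)).mul_const s).const_add r
  have hS : HasDerivAt (fun t : ℝ => (x + t * a) ^ 2 + (y + t * b) ^ 2)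
      (2 * (x * a + y * b)) 0 := by
    exact (((hp x a).pow 2).add ((hp y b).pow 2)).congr_deriv (by simp; ring)
  have hNd : HasDerivAt (fun t : ℝ => 2 * ((x + t * a) ^ 2 + (y + t * b) ^ 2 + (γ + t * c) ^ 2))
      0 0 := by
    exact ((hS.add ((hp γ c).pow 2)).const_mul 2).congr_deriv (by simp; linarith)
  have hN0 : 2 * ((x + 0 * a) ^ 2 + (y + 0 * b) ^ 2 + (γ + 0 * c) ^ 2) = 1 := by
    simpa using hN
  have hSN := hS.div hNd (by simp only [hN0]; norm_num)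
  have hSNv : ((x + 0 * a) ^ 2 + (y + 0 * b) ^ 2) /
      (2 * ((x + 0 * a) ^ 2 + (y + 0 * b) ^ 2 + (γ + 0 * c) ^ 2)) = x ^ 2 + y ^ 2 := by
    rw [hN0]; simp
  have hχ' : HasDerivAt χ χd (((x + 0 * a) ^ 2 + (y + 0 * b) ^ 2) /
      (2 * ((x + 0 * a) ^ 2 + (y + 0 * b) ^ 2 + (γ + 0 * c) ^ 2))) := by rwa [hSNv]
  have hc := hχ'.comp (0 : ℝ) hSN
  have hG := ((hS.const_mul 2).mul ((hp x a).mul (hp y b))).div hNd
    (by simp only [hN0]; norm_num)
  refine (((hp x a).mul (hp γ c)).add ((hc.mul hG).const_mul κ)).congr_deriv ?_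
  simp only [Function.comp, Pi.mul_apply, Pi.div_apply, hN0]
  simp
  ring

/-! ### the cut-off -/

theorem chi1_diff : Differentiable ℝ chi1 :=
  (((Real.smoothTransition.contDiff (n := 1)).comp ((contDiff_const.mul contDiff_id).sub
    contDiff_const)).mul ((Real.smoothTransition.contDiff (n := 1)).comp (contDiff_const.sub
    (contDiff_const.mul contDiff_id)))).differentiable (by norm_num)

theorem chi1_cd : Continuous (deriv chi1) := by
  have h : ContDiff ℝ 1 chi1 :=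
    ((Real.smoothTransition.contDiff (n := 1)).comp ((contDiff_const.mul contDiff_id).sub
    contDiff_const)).mul ((Real.smoothTransition.contDiff (n := 1)).comp (contDiff_const.sub
    (contDiff_const.mul contDiff_id)))
  exact h.continuous_deriv le_rfl

theorem chi1_nonneg (t : ℝ) : 0 ≤ chi1 t :=
  mul_nonneg (Real.smoothTransition.nonneg _) (Real.smoothTransition.nonneg _)

theorem chi1_le_one (t : ℝ) : chi1 t ≤ 1 :=
  mul_le_one₀ (Real.smoothTransition.le_one _) (Real.smoothTransition.nonneg _)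
    (Real.smoothTransition.le_one _)

theorem chi1_one {t : ℝ} (h1 : 9 / 20 ≤ t) (h2 : t ≤ 11 / 20) : chi1 t = 1 := by
  rw [chi1, Real.smoothTransition.one_of_one_le (by linarith),
    Real.smoothTransition.one_of_one_le (by linarith), one_mul]

theorem chi1_zero {t : ℝ} (h1 : t ≤ 2 / 5) : chi1 t = 0 := by
  rw [chi1, Real.smoothTransition.zero_of_nonpos (by linarith), zero_mul]

theorem chi1_bound : ∃ C : ℝ, 0 ≤ C ∧ ∀ t, 2 / 5 ≤ t → t ≤ 1 / 2 → |deriv chi1 t| ≤ C := by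
  obtain ⟨C, hC⟩ := (isCompact_Icc (a := (2 / 5 : ℝ)) (b := 1 / 2)).exists_bound_of_continuousOn
    chi1_cd.continuousOn
  refine ⟨|C|, abs_nonneg _, fun t h1 h2 => ?_⟩
  exact (hC t ⟨h1, h2⟩).trans (le_abs_self C)

/-! ### the two cases -/

theorem rz_mul (z w : ℂ) (u : V) : Act.rz z (Act.rz w u) = Act.rz (z * w) u := by
  refine ext_coords ?_ ?_ ?_ ?_ ?_
  · rfl
  · show z ^ 2 * (w ^ 2 * cP u) = (z * w) ^ 2 * cP u
    ring
  · show z ^ 6 * (w ^ 6 * cR u) = (z * w) ^ 6 * cR u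
    ring
  · show conj z ^ 2 * (conj w ^ 2 * cC u) = conj (z * w) ^ 2 * cC u
    rw [map_mul]; ring
  · show z ^ 4 * (w ^ 4 * cQ u) = (z * w) ^ 4 * cQ u
    ring

theorem normSq_rz {z : ℂ} (hz : ‖z‖ = 1) (u : V) :
    Complex.normSq (cP (Act.rz z u)) = Complex.normSq (cP u) := by
  rw [Act.cP_rz, map_mul, map_pow, Complex.normSq_eq_norm_sq z, hz]
  norm_num

theorem D1_br_rz {φ : V → ℝ} (hφ : Ph φ) {z : ℂ} (hz : ‖z‖ = 1) {u : V} (hu : u ≠ 0)
    (he : eu φ u = 0) (k : V) : D1 φ (Act.rz z u) (br k (Act.rz z u)) = 0 := by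
  rw [← rz_conj hz k, br_rz hz, D1_rz hφ.phi hφ.inv hz hu]
  exact D1_br he _

/-- derivatives on the section -/
theorem D1_sec {ε κ x y γ : ℝ} (hN : 2 * (x ^ 2 + y ^ 2 + γ ^ 2) = 1)
    (hc : cc 1 3 (sg x y γ) = -1) {a b c : ℝ} (hw : x * a + y * b + γ * c = 0) :
    D1 (vE ε κ) (sg x y γ) (sg a b c) =
      -ε * (x * c + γ * a + κ * (deriv chi1 (x ^ 2 + y ^ 2) * (2 * (x * a + y * b)) *
          (2 * (x ^ 2 + y ^ 2) * (x * y)) +
        chi1 (x ^ 2 + y ^ 2) * (2 * (2 * (x * a + y * b)) * (x * y) +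
          2 * (x ^ 2 + y ^ 2) * (x * b + y * a)))) := by
  have hu : sg x y γ ≠ 0 := by
    intro h
    have h1 := nr_sg x y γ
    rw [h, hN] at h1
    simp [nr] at h1
  have h1 := line_der (vE_Ph ε κ).phi.smooth hu (sg a b c)
  have h2 := (sec_der (κ := κ) hN hw (chi1_diff (x ^ 2 + y ^ 2)).hasDerivAt).const_mul (-ε)
  have hct : Tendsto (fun t : ℝ => sg x y γ + t • sg a b c) (𝓝 0) (𝓝 (sg x y γ)) := by
    have h4 : ContinuousAt (fun t : ℝ => sg x y γ + t • sg a b c) 0 := by fun_prop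
    have h5 := h4.tendsto
    rwa [zero_smul, add_zero] at h5
  have h3 : ∀ᶠ t in 𝓝 (0 : ℝ), Od (sg x y γ + t • sg a b c) → vE ε κ (sg x y γ + t • sg a b c) =
      -ε * (mq (sg x y γ + t • sg a b c) + κ * (chi1 (Complex.normSq
        (cP (sg x y γ + t • sg a b c)) / nr (sg x y γ + t • sg a b c)) *
          Gq (sg x y γ + t • sg a b c))) := hct.eventually (vE_loc ε κ hu hc)
  refine (h1.congr_of_eventuallyEq ?_).unique h2
  filter_upwards [h3] with t ht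
  rw [sg_line] at ht ⊢
  rw [ht ⟨rfl, rfl⟩, mq_sg, Gq_sg, normSq_sg, nr_sg]

theorem br_one (x y γ : ℝ) : br (mkV 0 0 0 0 1) (sg x y γ) = sg (-2 * γ) 0 (2 * x) := by
  refine ext_coords ?_ ?_ ?_ ?_ ?_
  · rw [br_0]; simp [sg, imp]
  · rw [br_P]; apply Complex.ext <;> simp [sg]
  · rw [br_R]; apply Complex.ext <;> simp [sg]
  · rw [br_C]; apply Complex.ext <;> (simp [sg]; try ring)
  · rw [br_Q]; simp [sg]

theorem br_I (x y γ : ℝ) : br (mkV 0 0 0 0 Complex.I) (sg x y γ) = sg 0 (-2 * γ) (2 * y) := by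
  refine ext_coords ?_ ?_ ?_ ?_ ?_
  · rw [br_0]; simp [sg, imp]
  · rw [br_P]; apply Complex.ext <;> simp [sg]
  · rw [br_R]; apply Complex.ext <;> simp [sg]
  · rw [br_C]; apply Complex.ext <;> (simp [sg]; try ring)
  · rw [br_Q]; simp [sg]

theorem br_l (x y γ : ℝ) : br (mkV 1 0 0 0 0) (sg x y γ) - (2 : ℝ) • rt (sg x y γ) =
    sg (10 * y) (-10 * x) 0 := by
  rw [rt_eq]
  refine ext_coords ?_ ?_ ?_ ?_ ?_
  · rw [map_sub, map_smul, br_0]; simp [sg, imp]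
  · rw [map_sub, map_smul, br_P]; apply Complex.ext <;> simp [sg] <;> ring
  · rw [map_sub, map_smul, br_R]; apply Complex.ext <;> simp [sg] <;> ring
  · rw [map_sub, map_smul, br_C]; apply Complex.ext <;> simp [sg] <;> ring
  · rw [map_sub, map_smul, br_Q]; simp [sg]

/-- first case: `|P|² ≥ 2/5` -/
theorem case_big {C : ℝ} (hC : ∀ t, 2 / 5 ≤ t → t ≤ 1 / 2 → |deriv chi1 t| ≤ C) {κ : ℝ}
    (hκ : |κ| * (C + 2) ≤ 1 / 20) {ε : ℝ} (hε : ε ≠ 0) {u : V} (hO : Od u) (hN : nr u = 1)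
    (hc : cc 1 3 u = -1) (he : eu (vE ε κ) u = 0) (hP : 2 / 5 ≤ Complex.normSq (cP u)) :
    ∃ z : ℂ, ‖z‖ = 1 ∧ ∃ y : ℝ, y ^ 2 + 4 * κ ^ 2 * y ^ 6 = 1 / 2 ∧
      Act.rz z u = sg 0 y (-2 * κ * y ^ 3) := by
  have hu : u ≠ 0 := by
    rintro rfl
    simp [nr] at hN
  obtain ⟨w1, w2, w3⟩ := wallA hO.1 hO.2 hN hc
  have hR0 : cR u ≠ 0 := by
    intro h
    rw [h, map_zero] at w2
    linarith
  obtain ⟨z, hz, x, y, γ, hσ⟩ := gauge hO.1 hO.2 (by linarith) hR0 w3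
  have hN' : 2 * (x ^ 2 + y ^ 2 + γ ^ 2) = 1 := by
    rw [← nr_sg, ← hσ, nr, QQ_rz hz]; exact hN
  have hc' : cc 1 3 (sg x y γ) = -1 := by rw [← hσ, cc_rz hz, hc]
  have hP' : 2 / 5 ≤ x ^ 2 + y ^ 2 := by rw [← normSq_sg x y γ, ← hσ, normSq_rz hz]; exact hP
  have hφ := vE_Ph ε κ
  have hbr : ∀ k : V, D1 (vE ε κ) (sg x y γ) (br k (sg x y γ)) = 0 := by
    intro k
    rw [← hσ]
    exact D1_br_rz hφ hz hu he k
  have hσ0 : sg x y γ ≠ 0 := by
    intro h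
    have h1 := nr_sg x y γ
    rw [h, hN'] at h1
    simp [nr] at h1
  have q1 := hbr (mkV 0 0 0 0 1)
  rw [br_one, D1_sec hN' hc' (by ring)] at q1
  have q2 := hbr (mkV 0 0 0 0 Complex.I)
  rw [br_I, D1_sec hN' hc' (by ring)] at q2
  have q3 : D1 (vE ε κ) (sg x y γ) (sg (10 * y) (-10 * x) 0) = 0 := by
    rw [← br_l]
    have h1 := hbr (mkV 1 0 0 0 0)
    have h2 := D1_rt hφ.phi hσ0
    have h3 : D1 (vE ε κ) (sg x y γ) (br (mkV 1 0 0 0 0) (sg x y γ) - (2 : ℝ) • rt (sg x y γ)) =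
        D1 (vE ε κ) (sg x y γ) (br (mkV 1 0 0 0 0) (sg x y γ)) -
          2 * D1 (vE ε κ) (sg x y γ) (rt (sg x y γ)) := by
      unfold D1
      rw [map_sub, map_smul, smul_eq_mul]
    rw [h3, h1, h2]; ring
  rw [D1_sec hN' hc' (by ring)] at q3
  have hε' : -ε ≠ 0 := neg_ne_zero.2 hε
  replace q1 := (mul_eq_zero.1 q1).resolve_left hε'
  replace q2 := (mul_eq_zero.1 q2).resolve_left hε'
  replace q3 := (mul_eq_zero.1 q3).resolve_left hε'
  have hs12 : x ^ 2 + y ^ 2 ≤ 1 / 2 := by nlinarith [sq_nonneg γ]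
  obtain ⟨r1, r2, r3⟩ := x4a_core (κ := -κ) (C := C) (χs := chi1 (x ^ 2 + y ^ 2))
    (χd := deriv chi1 (x ^ 2 + y ^ 2)) (x := x) (y := y) (γ := γ) (s := x ^ 2 + y ^ 2) rfl
    (by linarith) hP' (by rwa [abs_neg]) (hC _ hP' hs12) (chi1_nonneg _) (chi1_le_one _)
    (fun h1 h2 => chi1_one h1 h2) (by linear_combination q1 / 2) (by linear_combination q2 / 2)
    (by linear_combination q3 / 10)
  subst r1
  have r4 : γ = -2 * κ * y ^ 3 := by rw [r2]; ring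
  subst r4
  exact ⟨z, hz, y, by linear_combination hN' / 2, hσ⟩

/-- the gradient of `vE` at points of the odd part near which the cut-off vanishes -/
theorem D1_small {ε κ : ℝ} {u : V} (hO : Od u) (hN : nr u = 1) (hc : cc 1 3 u = -1)
    (hP : Complex.normSq (cP u) < 2 / 5) (w : V) :
    D1 (vE ε κ) u w = -ε * QQ (g1 u : Mat) w := by
  have hu : u ≠ 0 := by
    rintro rfl
    simp [nr] at hN
  have hnr : Continuous (fun v : V => nr v) := by
    have h1 : (fun v : V => nr v) = fun v => BN (m 1 3) QQ v v := by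
      funext v; rw [BN_apply]; rfl
    rw [h1]
    fun_prop
  have h1 : ContinuousAt (fun v : V => Complex.normSq (cP v) / nr v) u :=
    (Complex.continuous_normSq.comp cP.continuous).continuousAt.div hnr.continuousAt
      (by rw [hN]; norm_num)
  have h2 : ∀ᶠ v in 𝓝 u, Complex.normSq (cP v) / nr v < 2 / 5 :=
    h1.eventually_lt continuousAt_const (by rw [hN]; simpa using hP)
  have h3 : ∀ᶠ v in 𝓝 u, vE ε κ v = -(3 / 2 * Kq v - Kq v ^ 2 / nr v + ε * mq v) := by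
    filter_upwards [h2] with v hv
    rw [vE, vK, chi2, chi1_zero hv.le]
    ring
  have hct : Tendsto (fun t : ℝ => u + t • w) (𝓝 0) (𝓝 u) := by
    have h4 : ContinuousAt (fun t : ℝ => u + t • w) 0 := by fun_prop
    have h5 := h4.tendsto
    rwa [zero_smul, add_zero] at h5
  have h4 := hct.eventually h3
  have h5 := line_der (vE_Ph ε κ).phi.smooth hu w
  have eK : ∀ t : ℝ, Kq (u + t • w) = t ^ 2 * Kq w := by
    intro t
    unfold Kq
    rw [map_add, map_smul, map_add, map_smul, hO.1, hO.2, Complex.normSq_apply,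
      Complex.normSq_apply]
    simp
    ring
  have em : ∀ t : ℝ, mq (u + t • w) = mq u + t * QQ (g1 u : Mat) w + t ^ 2 * mq w := by
    intro t
    rw [QQ_coords]
    unfold mq
    rw [map_add, map_smul, map_add, map_smul]
    simp [g1, rip]
    ring
  have en : ∀ t : ℝ, nr (u + t • w) = 1 + t * (2 * QQ (u : Mat) w) + t ^ 2 * nr w := by
    intro t
    have h6 : QQ (w : Mat) u = QQ (u : Mat) w := Sp2.QQ_comm _ _
    unfold nr at hN ⊢
    have h7 : ((u + t • w : V) : Mat) = (u : Mat) + t • (w : Mat) := rfl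
    rw [h7, map_add, map_add, LinearMap.add_apply, LinearMap.add_apply, map_smul, map_smul,
      LinearMap.smul_apply, LinearMap.smul_apply, map_smul, h6, hN]
    simp only [smul_eq_mul]
    ring
  have hp : ∀ r : ℝ, HasDerivAt (fun t : ℝ => t * r) r 0 := fun r => by
    simpa using (hasDerivAt_id (0 : ℝ)).mul_const r
  have hq : ∀ r : ℝ, HasDerivAt (fun t : ℝ => t ^ 2 * r) 0 0 := fun r => by
    simpa using (hasDerivAt_pow 2 (0 : ℝ)).mul_const r
  have h8 : HasDerivAt (fun t : ℝ => -(3 / 2 * (t ^ 2 * Kq w) -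
      (t ^ 2 * Kq w) ^ 2 / (1 + t * (2 * QQ (u : Mat) w) + t ^ 2 * nr w) +
      ε * (mq u + t * QQ (g1 u : Mat) w + t ^ 2 * mq w))) (-ε * QQ (g1 u : Mat) w) 0 := by
    have a1 := (hq (Kq w)).const_mul (3 / 2)
    have a2 := ((hq (Kq w)).pow 2).div (((hp (2 * QQ (u : Mat) w)).const_add 1).add (hq (nr w)))
      (by simp)
    have a3 := (((hp (QQ (g1 u : Mat) w)).const_add (mq u)).add (hq (mq w))).const_mul ε
    refine ((a1.sub a2).add a3).neg.congr_deriv ?_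
    simp
  refine (h5.congr_of_eventuallyEq ?_).unique h8
  filter_upwards [h4] with t ht
  rw [ht, eK, em, en]

theorem V_eq_zero {v : V} (h : QQ (v : Mat) v = 0) : v = 0 := by
  by_contra h0
  have h1 : (v : Mat) ≠ 0 := fun h2 => h0 (Subtype.ext h2)
  have h3 := Sp2.QQ_pos (Sp2.mem_m_iff.1 v.2).1 h1
  rw [h] at h3
  exact lt_irrefl _ h3

/-- second case: `|P|² < 2/5` -/
theorem case_small {κ ε : ℝ} (hε : ε ≠ 0) {u : V} (hO : Od u) (hN : nr u = 1)
    (hc : cc 1 3 u = -1) (he : eu (vE ε κ) u = 0) (hP : Complex.normSq (cP u) < 2 / 5) :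
    ∃ z : ℂ, ‖z‖ = 1 ∧ ∃ p t : ℝ, 0 < p ∧ (t = 1 ∨ t = -1) ∧ Act.rz z u = uT p t := by
  have hu : u ≠ 0 := by
    rintro rfl
    simp [nr] at hN
  have h1 : br u (g1 u) = 0 := by
    apply V_eq_zero
    have h2 := D1_br he (br u (g1 u))
    rw [D1_small hO hN hc hP, QQ_br_adj] at h2
    exact (mul_eq_zero.1 h2).resolve_left (neg_ne_zero.2 hε)
  rcases equil_wall hO.1 hO.2 hu h1 (Or.inr hc) with h | h | ⟨-, z, hz, p, t, hp, ht, h⟩
  · rw [hc] at h; exact absurd h.1 (by norm_num)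
  · rw [hc] at h; exact absurd h.1 (by norm_num)
  · rcases ht with ht | ht
    · exfalso
      subst ht
      have h3 : nr (Act.rz z u) = 1 := by rw [nr, QQ_rz hz]; exact hN
      rw [h, nr, uT_N] at h3
      have h4 := normSq_rz hz u
      rw [h] at h4
      simp only [uT, cP_mk, Complex.normSq_ofReal] at h4
      nlinarith
    · exact ⟨z, hz, p, t, hp, ht, h⟩

end X4a

open X4a in
theorem sg_e2p {κ y : ℝ} (hy : y ≠ 0) : ∃ z : ℂ, ‖z‖ = 1 ∧ ∃ a : ℝ, 0 < a ∧ a ^ 2 = y ^ 2 ∧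
    Act.rz z (sg 0 y (-2 * κ * y ^ 3)) = e2p κ a := by
  rcases lt_or_gt_of_ne hy with h | h
  · obtain ⟨z, hz⟩ := IsAlgClosed.exists_pow_nat_eq Complex.I (by norm_num : 0 < 2)
    have hz1 : ‖z‖ = 1 := by
      have h3 : ‖z‖ ^ 2 = 1 := by rw [← norm_pow, hz, Complex.norm_I]
      nlinarith [norm_nonneg z]
    refine ⟨z, hz1, -y, by linarith, by ring, ?_⟩
    have hz6 : z ^ 6 = -Complex.I := by
      have : z ^ 6 = (z ^ 2) ^ 3 := by ring
      rw [this, hz, pow_succ, Complex.I_sq]; ring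
    refine ext_coords ?_ ?_ ?_ ?_ ?_
    · rfl
    · rw [Act.cP_rz, hz]; apply Complex.ext <;> simp [sg, e2p]
    · rw [Act.cR_rz, hz6]; apply Complex.ext <;> simp [sg, e2p]
    · rw [Act.cC_rz, ← map_pow, hz]; apply Complex.ext <;> (simp [sg, e2p, pow_succ]; try ring)
    · rw [Act.cQ_rz]; simp [sg, e2p]
  · obtain ⟨z, hz⟩ := IsAlgClosed.exists_pow_nat_eq (-Complex.I) (by norm_num : 0 < 2)
    have hz1 : ‖z‖ = 1 := by
      have h3 : ‖z‖ ^ 2 = 1 := by rw [← norm_pow, hz, norm_neg, Complex.norm_I]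
      nlinarith [norm_nonneg z]
    refine ⟨z, hz1, y, h, rfl, ?_⟩
    have hz6 : z ^ 6 = Complex.I := by
      have : z ^ 6 = (z ^ 2) ^ 3 := by ring
      rw [this, hz, pow_succ, neg_sq, Complex.I_sq]; ring
    refine ext_coords ?_ ?_ ?_ ?_ ?_
    · rfl
    · rw [Act.cP_rz, hz]; apply Complex.ext <;> simp [sg, e2p]
    · rw [Act.cR_rz, hz6]; apply Complex.ext <;> simp [sg, e2p]
    · rw [Act.cC_rz, ← map_pow, hz]; apply Complex.ext <;> (simp [sg, e2p, pow_succ]; try ring)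
    · rw [Act.cQ_rz]; simp [sg, e2p]

open X4a in
/-- **(X4a)** the points of the odd part on the wall `c = -1` with `e(u) = 0` -/
theorem X4a : ∃ κ0 : ℝ, 0 < κ0 ∧ ∀ κ : ℝ, |κ| ≤ κ0 → ∀ ε : ℝ, ε ≠ 0 → ∀ u : V, Od u → nr u = 1 →
    cc 1 3 u = -1 → eu (vE ε κ) u = 0 →
    (∃ z : ℂ, ‖z‖ = 1 ∧ ∃ p t : ℝ, 0 < p ∧ (t = 1 ∨ t = -1) ∧ Act.rz z u = uT p t) ∨
    (∃ z : ℂ, ‖z‖ = 1 ∧ ∃ a : ℝ, 0 < a ∧ 2 * a ^ 2 + 2 * (2 * κ * a ^ 3) ^ 2 = 1 ∧
      Act.rz z u = e2p κ a) := by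
  obtain ⟨C, hC0, hC⟩ := chi1_bound
  refine ⟨1 / (20 * (C + 2)), by positivity, fun κ hκ ε hε u hO hN hc he => ?_⟩
  have hκ' : |κ| * (C + 2) ≤ 1 / 20 := by
    have h1 : |κ| * (C + 2) ≤ 1 / (20 * (C + 2)) * (C + 2) :=
      mul_le_mul_of_nonneg_right hκ (by linarith)
    have h2 : 1 / (20 * (C + 2)) * (C + 2) = 1 / 20 := by
      have : C + 2 ≠ 0 := by linarith
      field_simp
    linarith
  rcases lt_or_ge (Complex.normSq (cP u)) (2 / 5) with hP | hP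
  · exact Or.inl (case_small hε hO hN hc he hP)
  · right
    obtain ⟨z, hz, y, hy, h⟩ := case_big hC hκ' hε hO hN hc he hP
    have hy0 : y ≠ 0 := by
      rintro rfl
      norm_num at hy
    obtain ⟨z', hz', a, ha, hay, h'⟩ := sg_e2p (κ := κ) hy0
    refine ⟨z' * z, by rw [norm_mul, hz, hz', one_mul], a, ha, ?_, ?_⟩
    · have h6 : a ^ 6 = y ^ 6 := by
        have e1 : a ^ 6 = (a ^ 2) ^ 3 := by ring
        rw [e1, hay]; ring
      have e2 : (2 * κ * a ^ 3) ^ 2 = 4 * κ ^ 2 * a ^ 6 := by ring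
      rw [e2, h6, hay]
      linear_combination 2 * hy
    · rw [← rz_mul, h, h']

end Pool.Agent.FL.S1
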