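import Pool.Agent.helper79.FR.StepB

/-!
# MP_f09395_gt: the third order form at equilibrium flags
-/

set_option linter.unusedSectionVars false

noncomputable section

namespace Pool.Agent.FL

open scoped ContDiff
open Pool.Agent.Helper93.Fin Pool.Agent.helper79.FP Pool.Agent.helper79.FR

variable {𝔸 : Type*} [NormedRing 𝔸] [NormedAlgebra ℝ 𝔸] [FiniteDimensional ℝ 𝔸]
variable {g h m : Submodule ℝ 𝔸} {Q : 𝔸 →ₗ[ℝ] 𝔸 →ₗ[ℝ] ℝ} {P : 𝔸 →L[ℝ] m} {φ : m → ℝ}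

theorem T3E_D1_zero {E : Type*} [NormedAddCommGroup E] [NormedSpace ℝ E] (φ : E → ℝ) (u : E) :
    D1 φ u 0 = 0 := by
  unfold D1; exact map_zero _

theorem T3E_D2_zero {E : Type*} [NormedAddCommGroup E] [NormedSpace ℝ E] (φ : E → ℝ) (u a : E) :
    D2 φ u a 0 = 0 := by
  unfold D2; exact T3E_D1_zero _ _

theorem T3E_D2_zero' {E : Type*} [NormedAddCommGroup E] [NormedSpace ℝ E] (φ : E → ℝ) (u a : E) :
    D2 φ u 0 a = 0 := by
  unfold D2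
  rw [show (fun z => D1 φ z 0) = fun _ => (0 : ℝ) from funext fun z => T3E_D1_zero φ z]
  simp

theorem T3E_D3_zero {E : Type*} [NormedAddCommGroup E] [NormedSpace ℝ E] (φ : E → ℝ)
    (u a b : E) : D3 φ u a 0 b = 0 := by
  unfold D3
  rw [show (fun z => D2 φ z a 0) = fun _ => (0 : ℝ) from funext fun z => T3E_D2_zero φ z a]
  simp

theorem T3E_D4_zero {E : Type*} [NormedAddCommGroup E] [NormedSpace ℝ E] (φ : E → ℝ)
    (u a b c : E) : D4 φ u a b c 0 = 0 := by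
  unfold D4
  exact T3E_D1_zero _ _

theorem T3E_lie_smul (r : ℝ) (X Y : 𝔸) : ⁅X, r • Y⁆ = r • ⁅X, Y⁆ := by
  simp only [Ring.lie_def, mul_smul_comm, smul_mul_assoc, smul_sub]

theorem T3E_smul_lie (r : ℝ) (X Y : 𝔸) : ⁅r • X, Y⁆ = r • ⁅X, Y⁆ := by
  simp only [Ring.lie_def, mul_smul_comm, smul_mul_assoc, smul_sub]

theorem T3E_lie_add (X Y Z : 𝔸) : ⁅X, Y + Z⁆ = ⁅X, Y⁆ + ⁅X, Z⁆ := by
  simp only [Ring.lie_def, add_mul, mul_add]; abel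

theorem T3E_add_lie (X Y Z : 𝔸) : ⁅X + Y, Z⁆ = ⁅X, Z⁆ + ⁅Y, Z⁆ := by
  simp only [Ring.lie_def, add_mul, mul_add]; abel

theorem T3E_lie_self (X : 𝔸) : ⁅X, X⁆ = 0 := by
  simp only [Ring.lie_def, sub_self]

/-- **the third order form at a commuting pair with `gx φ u = lam u + mu b`**; `s` represents
`D2 φ u b ·`, `r = P ⁅u, s⁆` -/
theorem T3E_eq (hN : NData g h m Q P) {u b s r : m} {lam mu : ℝ}
    (hub : ⁅(u : 𝔸), (b : 𝔸)⁆ = 0)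
    (hx : ∀ w : m, D1 φ u w = lam * Q (u : 𝔸) w + mu * Q (b : 𝔸) w)
    (hs : ∀ w : m, Q (s : 𝔸) w = D2 φ u b w) (hr : P ⁅(u : 𝔸), (s : 𝔸)⁆ = r) :
    T3F Q P φ u b = - D2 φ u r r + lam * Q (r : 𝔸) r + mu * Q (r : 𝔸) ⁅(b : 𝔸), (s : 𝔸)⁆ := by
  obtain ⟨x, hxd⟩ : ∃ x : m, x = lam • u + mu • b := ⟨_, rfl⟩
  have hx' : ∀ w : m, Q (x : 𝔸) w = D1 φ u w := fun w => by
    rw [hx, hxd]
    simp only [Submodule.coe_add, Submodule.coe_smul, map_add, map_smul, LinearMap.add_apply,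
      LinearMap.smul_apply, smul_eq_mul]
  rw [← T3F_eq hN hx' hs (fun w => gy_spec hN u b w)]
  have hbu : ⁅(b : 𝔸), (u : 𝔸)⁆ = 0 := by
    rw [Ring.lie_def] at hub ⊢
    rw [← neg_sub, hub, neg_zero]
  have h1 : ⁅(u : 𝔸), (x : 𝔸)⁆ = 0 := by
    rw [hxd, Submodule.coe_add, Submodule.coe_smul, Submodule.coe_smul, T3E_lie_add, T3E_lie_smul,
      T3E_lie_smul, T3E_lie_self, hub, smul_zero, smul_zero, add_zero]
  have h2 : ⁅(b : 𝔸), (x : 𝔸)⁆ = 0 := by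
    rw [hxd, Submodule.coe_add, Submodule.coe_smul, Submodule.coe_smul, T3E_lie_add, T3E_lie_smul,
      T3E_lie_smul, T3E_lie_self, hbu, smul_zero, smul_zero, add_zero]
  have h3 : ⁅(x : 𝔸), (s : 𝔸)⁆ = lam • ⁅(u : 𝔸), (s : 𝔸)⁆ + mu • ⁅(b : 𝔸), (s : 𝔸)⁆ := by
    rw [hxd, Submodule.coe_add, Submodule.coe_smul, Submodule.coe_smul, T3E_add_lie, T3E_smul_lie,
      T3E_smul_lie]
  have h4 : Q (r : 𝔸) ⁅(u : 𝔸), (s : 𝔸)⁆ = Q (r : 𝔸) r := by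
    rw [← hr, Q_P hN _ (lg hN (mg hN u) (mg hN s))]
  unfold T3N
  rw [h1, h2, hr, map_zero, T3E_D4_zero, T3E_D3_zero, T3E_D2_zero', T3E_D2_zero', T3E_D2_zero',
    zero_sub, h3, map_add, map_smul, map_smul, smul_eq_mul, smul_eq_mul, Submodule.coe_neg,
    map_neg, LinearMap.neg_apply, LinearMap.neg_apply, h4]
  simp only [Submodule.coe_zero, map_zero]
  ring

end Pool.Agent.FL
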