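import Pool.Agent.FL.S1X4bF
import Pool.Agent.FL.T3E

/-!
# MP_f09395_gt, space (1), X4b: the third order form and `α'` at `e₂'`, from the derivatives
-/

set_option linter.unusedSectionVars false

noncomputable section

namespace Pool.Agent.FL.S1

open scoped ContDiff Quaternion Matrix ComplexConjugate
open Pool.Agent.Helper93.Fin Pool.Agent.helper79.FP Pool.Agent.helper79.FR
open Pool.Agent.helper79.FR.Sp2 (Mat QQ h0 m gg hh PP BB cc)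
open Pool.Agent.FL

attribute [local instance] Matrix.linftyOpNormedRing Matrix.linftyOpNormedAlgebra

namespace X4bT

open X4bF

/-- the vector which represents `Mm` -/
def Sv (κ a be : ℝ) : V :=
  mkV 0 ((a + κ * (-5 * a ^ 2 * be + 2 * be ^ 3 - 8 * a ^ 2 * be ^ 3) : ℝ) : ℂ)
    ((κ * (a ^ 2 * be + 2 * be ^ 3 - 8 * a ^ 2 * be ^ 3) : ℝ) : ℂ)
    ((((-be + κ * (4 * a ^ 3 + 8 * a * be ^ 2 - 16 * a * be ^ 4)) / 2 : ℝ) : ℂ) * Complex.I) 0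

theorem QQ_Sv (κ a : ℝ) (w : V) :
    QQ (Sv κ a (-2 * κ * a ^ 3) : Mat) w = Mm κ a w := by
  unfold Mm Mb
  rw [QQ_e2p, QQ_coords]
  simp only [Sv, c0_mk, cP_mk, cR_mk, cC_mk, cQ_mk, rip, Complex.mul_re, Complex.mul_im,
    Complex.ofReal_re, Complex.ofReal_im, Complex.I_re, Complex.I_im, Complex.zero_re,
    Complex.zero_im]
  ring

theorem br_I (p r c p' r' c' : ℝ) :
    br (mkV 0 (p : ℂ) (r : ℂ) ((c : ℂ) * Complex.I) 0)
      (mkV 0 (p' : ℂ) (r' : ℂ) ((c' : ℂ) * Complex.I) 0) =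
    mkV 0 0 0 0 (((c * (p' + r') - c' * (p + r) : ℝ) : ℂ) * Complex.I) := by
  apply ext_coords
  · rw [br_0]
    simp [imp]
  · rw [br_P]; simp
  · rw [br_R]; simp
  · rw [br_C]; simp
  · rw [br_Q]
    simp only [c0_mk, cC_mk, cQ_mk, cR_mk, cP_mk, map_mul, Complex.conj_ofReal, Complex.conj_I]
    push_cast
    ring

theorem brQ_I (p c p' r' c' : ℝ) :
    cQ (br (mkV 0 ((p : ℂ) * Complex.I) (-((p : ℂ) * Complex.I)) (c : ℂ) 0)
      (mkV 0 (p' : ℂ) (r' : ℂ) ((c' : ℂ) * Complex.I) 0)) = ((c * (r' - p') : ℝ) : ℂ) := by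
  rw [br_Q]
  simp only [c0_mk, cC_mk, cQ_mk, cR_mk, cP_mk, map_mul, Complex.conj_ofReal, Complex.conj_I]
  push_cast
  linear_combination (0 : ℂ) * Complex.I_sq

theorem D2_neg (f : V → ℝ) (u x w : V) : D2 f u (-x) w = -D2 f u x w := by
  unfold D2
  have h : (fun z => D1 f z (-x)) = fun z => -(D1 f z x) := funext fun z => by
    unfold D1; rw [map_neg]
  rw [h, fderiv_fun_neg]
  rfl

theorem hmm (X : V) : QQ (X : Mat) (h0 1 3) = 0 := by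
  rw [nD.Qsymm]
  exact nD.Qhm _ (by exact Submodule.mem_span_singleton_self _) _ (Submodule.coe_mem _)

/-- `q₀` -/
def q0 (κ a be : ℝ) : ℝ :=
  be * ((a + κ * (-5 * a ^ 2 * be + 2 * be ^ 3 - 8 * a ^ 2 * be ^ 3))
    + (κ * (a ^ 2 * be + 2 * be ^ 3 - 8 * a ^ 2 * be ^ 3)))
    - (-be + κ * (4 * a ^ 3 + 8 * a * be ^ 2 - 16 * a * be ^ 4)) / 2 * (a + a)

theorem q0_eq (κ a : ℝ) : q0 κ a (-2 * κ * a ^ 3) =
    -4 * κ * (2 * a ^ 4 + 3 * a ^ 2 * (-2 * κ * a ^ 3) ^ 2 - (-2 * κ * a ^ 3) ^ 4) := by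
  unfold q0; ring

theorem be_lt {κ a : ℝ} (ha : 0 < a) (hk : 0 < κ) (hk1 : κ ≤ 1 / 10)
    (hn : 2 * a ^ 2 + 2 * (2 * κ * a ^ 3) ^ 2 = 1) : (-2 * κ * a ^ 3) ^ 2 ≤ a ^ 2 / 100 := by
  have h1 : 2 * a ^ 2 ≤ 1 := by nlinarith [sq_nonneg (2 * κ * a ^ 3)]
  have h2 : 2 * κ * a ^ 3 ≤ a / 10 := by
    have h3 : κ * (2 * a ^ 2) ≤ 1 / 10 * 1 := by
      apply mul_le_mul hk1 h1 (by positivity) (by norm_num)
    nlinarith
  have h4 : 0 ≤ 2 * κ * a ^ 3 := by positivity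
  have h5 : (-2 * κ * a ^ 3) ^ 2 = (2 * κ * a ^ 3) ^ 2 := by ring
  rw [h5]
  calc (2 * κ * a ^ 3) ^ 2 ≤ (a / 10) ^ 2 := pow_le_pow_left₀ h4 h2 2
    _ = a ^ 2 / 100 := by ring

/-- **X4b**: the third order form and `α'` at `e₂'`, from the derivatives of the function -/
theorem main {ε κ a : ℝ} (hε : 0 < ε) (ha : 0 < a) (hk : 0 < κ) (hk1 : κ ≤ 1 / 10)
    (hn : 2 * a ^ 2 + 2 * (2 * κ * a ^ 3) ^ 2 = 1) {f : V → ℝ}
    (hD1 : ∀ w, D1 f (e2p κ a) w =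
      -ε * ((a ^ 2 - 2 * (-2 * κ * a ^ 3) ^ 2) / (2 * a ^ 2)) * QQ (e2b κ a : Mat) w)
    (hD2 : ∀ w, D2 f (e2p κ a) (e2b κ a) w = -ε * Mm κ a w)
    (hev' : ∀ x : V, cP x = 0 → cR x = 0 → cC x = 0 →
      D2 f (e2p κ a) x x = -3 * (10 * (c0 x * c0 x) + 2 * rip (cQ x) (cQ x)))
    {b : V} (hF : Fl (e2p κ a) b) (hal : alf f (e2p κ a) b = 0) :
    0 < T3 f (e2p κ a) b ∧ 0 < alf' f (e2p κ a) b := by
  have hev : ∀ q : ℝ, D2 f (e2p κ a) (mkV 0 0 0 0 ((q : ℂ) * Complex.I))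
      (mkV 0 0 0 0 ((q : ℂ) * Complex.I)) = -6 * q ^ 2 := by
    intro q
    rw [hev' _ (cP_mk _ _ _ _ _) (cR_mk _ _ _ _ _) (cC_mk _ _ _ _ _), c0_mk, cQ_mk]
    unfold rip
    simp only [Complex.mul_re, Complex.mul_im, Complex.ofReal_re, Complex.ofReal_im, Complex.I_re,
      Complex.I_im]
    ring
  have hbe := be_lt ha hk hk1 hn
  have ha2 : 0 < a ^ 2 := by positivity
  have hmu : (a ^ 2 - 2 * (-2 * κ * a ^ 3) ^ 2) / (2 * a ^ 2) ≠ 0 := by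
    have : 0 < a ^ 2 - 2 * (-2 * κ * a ^ 3) ^ 2 := by linarith
    positivity
  have h1 : QQ (e2b κ a : Mat) (rt b) = 0 := by
    have h2 : D1 f (e2p κ a) (rt b) = 0 := hal
    rw [hD1] at h2
    exact (mul_eq_zero.1 h2).resolve_left (mul_ne_zero (neg_ne_zero.2 hε.ne') hmu)
  have n1 : (-1 : ℝ) • e2b κ a = -e2b κ a := by
    apply Subtype.ext
    rw [Submodule.coe_smul, Submodule.coe_neg, neg_smul, one_smul]
  obtain ⟨σ, hσ, hb⟩ : ∃ σ : ℝ, (σ = 1 ∨ σ = -1) ∧ b = σ • e2b κ a := by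
    rcases flag ha hk.ne' hn hF h1 with h | h
    · exact ⟨1, Or.inl rfl, by rw [h, one_smul]⟩
    · exact ⟨-1, Or.inr rfl, by rw [h, n1]⟩
  have hσ2 : σ * σ = 1 := by rcases hσ with h | h <;> rw [h] <;> norm_num
  have hD2b : ∀ w, D2 f (e2p κ a) b w = σ * (-ε * Mm κ a w) := by
    intro w
    rcases hσ with h | h
    · rw [hb, h, one_smul, hD2, one_mul]
    · rw [hb, h, n1, D2_neg, hD2]; ring
  obtain ⟨S, hS⟩ : ∃ S : V, S = Sv κ a (-2 * κ * a ^ 3) := ⟨_, rfl⟩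
  have hs : ∀ w : V, QQ (((-(σ * ε)) • S : V) : Mat) w = D2 f (e2p κ a) b w := by
    intro w
    rw [hD2b, Submodule.coe_smul, map_smul, LinearMap.smul_apply, hS, QQ_Sv, smul_eq_mul]
    ring
  obtain ⟨q, hq⟩ : ∃ q : ℝ, q = q0 κ a (-2 * κ * a ^ 3) := ⟨_, rfl⟩
  have hbr : br (e2p κ a) S = mkV 0 0 0 0 ((q : ℂ) * Complex.I) := by
    rw [hS, hq]
    exact br_I a a (-2 * κ * a ^ 3) _ _ _
  have hr : PP 1 3 ⁅(e2p κ a : Mat), (((-(σ * ε)) • S : V) : Mat)⁆ =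
      mkV 0 0 0 0 (((-(σ * ε) * q : ℝ) : ℂ) * Complex.I) := by
    have h2 : PP 1 3 ⁅(e2p κ a : Mat), (((-(σ * ε)) • S : V) : Mat)⁆
        = (-(σ * ε)) • br (e2p κ a) S := by
      rw [Submodule.coe_smul, T3E_lie_smul, map_smul]; rfl
    rw [h2, hbr]
    apply ext_coords
    · rw [map_smul, c0_mk, c0_mk, smul_zero]
    · rw [map_smul, cP_mk, cP_mk, smul_zero]
    · rw [map_smul, cR_mk, cR_mk, smul_zero]
    · rw [map_smul, cC_mk, cC_mk, smul_zero]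
    · rw [map_smul, cQ_mk, cQ_mk, Complex.real_smul]
      push_cast
      ring
  have hx : ∀ w : V, D1 f (e2p κ a) w = 0 * QQ (e2p κ a : Mat) w
      + (-ε * ((a ^ 2 - 2 * (-2 * κ * a ^ 3) ^ 2) / (2 * a ^ 2)) * σ) * QQ (b : Mat) w := by
    intro w
    rw [hD1, hb, Submodule.coe_smul, map_smul, LinearMap.smul_apply, smul_eq_mul]
    linear_combination (-(-ε * ((a ^ 2 - 2 * (-2 * κ * a ^ 3) ^ 2) / (2 * a ^ 2))
      * QQ (e2b κ a : Mat) w)) * hσ2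
  have key := T3E_eq nD hF.2.2.2 hx hs hr
  have hz : QQ ((mkV 0 0 0 0 (((-(σ * ε) * q : ℝ) : ℂ) * Complex.I) : V) : Mat)
      ⁅(b : Mat), (((-(σ * ε)) • S : V) : Mat)⁆ = 0 := by
    rw [hb, Submodule.coe_smul, Submodule.coe_smul, T3E_lie_smul, T3E_smul_lie, map_smul,
      map_smul, lie_coe, map_add, map_smul, hmm, QQ_coords]
    obtain ⟨t, ht⟩ : ∃ t : ℝ, cQ (br (e2b κ a) S) = (t : ℂ) :=
      ⟨_, by rw [hS]; exact brQ_I (-2 * κ * a ^ 3) a _ _ _⟩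
    rw [ht]
    simp [rip]
  rw [hev, hz] at key
  have hq0 : q ≠ 0 := by
    rw [hq, q0_eq]
    have h4 : 0 < 2 * a ^ 4 + 3 * a ^ 2 * (-2 * κ * a ^ 3) ^ 2 - (-2 * κ * a ^ 3) ^ 4 := by
      have h5 : 0 ≤ (-2 * κ * a ^ 3) ^ 2 := sq_nonneg _
      have h6 : (-2 * κ * a ^ 3) ^ 4 = (-2 * κ * a ^ 3) ^ 2 * (-2 * κ * a ^ 3) ^ 2 := by ring
      have h7 : a ^ 4 = a ^ 2 * a ^ 2 := by ring
      rw [h6, h7]
      nlinarith [mul_le_mul hbe hbe h5 (by positivity)]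
    exact mul_ne_zero (mul_ne_zero (by norm_num) hk.ne') h4.ne'
  constructor
  · have h8 : T3 f (e2p κ a) b = 6 * (ε ^ 2 * q ^ 2) := by
      have h9 : T3 f (e2p κ a) b = T3F QQ (PP 1 3) f (e2p κ a) b := rfl
      rw [h9, key]
      linear_combination (6 * ε ^ 2 * q ^ 2) * hσ2
    rw [h8]
    positivity
  · have h8 : alf' f (e2p κ a) b = D2 f (e2p κ a) b (rt b) := rfl
    have h9 : rt b = σ • rt (e2b κ a) := by
      have h10 : rt (σ • e2b κ a) = σ • rt (e2b κ a) := by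
        unfold rt
        rw [Submodule.coe_smul, T3E_lie_smul, map_smul]
      rw [hb, h10]
    have h10 : D2 f (e2p κ a) b (σ • rt (e2b κ a)) = σ * D2 f (e2p κ a) b (rt (e2b κ a)) := by
      unfold D2
      rw [map_smul, smul_eq_mul]
    rw [h8, h9, h10, hD2b, rtb]
    have h11 : (-2 * κ * a ^ 3) ^ 4 < a ^ 4 := by
      have h5 : 0 ≤ (-2 * κ * a ^ 3) ^ 2 := sq_nonneg _
      have h6 : (-2 * κ * a ^ 3) ^ 4 = (-2 * κ * a ^ 3) ^ 2 * (-2 * κ * a ^ 3) ^ 2 := by ring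
      have h7 : a ^ 4 = a ^ 2 * a ^ 2 := by ring
      rw [h6, h7]
      nlinarith [mul_le_mul hbe hbe h5 (by positivity)]
    have h12 : σ * (σ * (-ε * (-8 * κ * (a ^ 4 - (-2 * κ * a ^ 3) ^ 4)))) =
        8 * (ε * κ) * (a ^ 4 - (-2 * κ * a ^ 3) ^ 4) := by
      linear_combination (8 * (ε * κ) * (a ^ 4 - (-2 * κ * a ^ 3) ^ 4)) * hσ2
    rw [h12]
    have h13 : 0 < a ^ 4 - (-2 * κ * a ^ 3) ^ 4 := by linarith
    positivity

end X4bT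

end Pool.Agent.FL.S1
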