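import Pool.Agent.FL.S1X0
import Pool.Agent.FL.S1X3
import Pool.Agent.FL.T3E
import Pool.Agent.FL.S1E2p
import Pool.Agent.FL.S1X4bT

/-!
# MP_f09395_gt, space (1), X4b: the explicit function at the point `e₂'`
-/

set_option linter.unusedSectionVars false

noncomputable section

namespace Pool.Agent.FL.S1

open scoped ContDiff Quaternion Matrix ComplexConjugate
open Pool.Agent.Helper93.Fin Pool.Agent.helper79.FP Pool.Agent.helper79.FR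
open Pool.Agent.helper79.FR.Sp2 (Mat QQ h0 m gg hh PP BB cc)
open Pool.Agent.FL
open Filter Topology

attribute [local instance] Matrix.linftyOpNormedRing Matrix.linftyOpNormedAlgebra

section general

variable {𝔸 : Type*} [NormedRing 𝔸] [NormedAlgebra ℝ 𝔸] [FiniteDimensional ℝ 𝔸]
variable {g h m : Submodule ℝ 𝔸} {Q : 𝔸 →ₗ[ℝ] 𝔸 →ₗ[ℝ] ℝ} {P : 𝔸 →L[ℝ] m} {φ : m → ℝ}
variable {h0 : 𝔸} {B : m → 𝔸} {c : m → ℝ} {H : Subgroup 𝔸ˣ}

theorem al'_adM (hN : NData g h m Q P) (hC : Cas g h m Q P h0 B c) (hG : GrpD H h m Q h0 B c)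
    (hφ : ContDiffOn ℝ ∞ φ {0}ᶜ) (hH : InvH H φ) {k : 𝔸ˣ} (hk : k ∈ H) {u : m} (hu : u ≠ 0)
    (b : m) : al' P h0 φ (adM P k u) (adM P k b) = al' P h0 φ u b := by
  have h1 : P ⁅h0, (adM P k b : 𝔸)⁆ = adM P k (P ⁅h0, (b : 𝔸)⁆) := by
    have h2 : ⁅h0, Adj k (b : 𝔸)⁆ = Adj k ⁅h0, (b : 𝔸)⁆ := by rw [Adj_lie, hG.adh0 k hk]
    rw [adM_coe hN hG hk, h2, T3Inv_P hN hC hG hk (lg hN (hN.red.h_le hC.mem) (mg hN b))]
  unfold al'
  rw [h1, T3Inv_D2 hN hG hφ hH hk hu]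

end general

namespace X4b

open X3

/-! ### the quartic form `N G` -/

def Q1 (a b : V) : ℝ := ((cR a).re * (cP b).re + (cR a).im * (cP b).im
  + ((cR b).re * (cP a).re + (cR b).im * (cP a).im)) / 2

def Q2 (a b : V) : ℝ := 2 * ((cC a).re * (cC b).im + (cC b).re * (cC a).im)
  - ((cP a).re * (cP b).im + (cP b).re * (cP a).im)

def Q3 (a b : V) : ℝ := ((cR a).im * (cP b).re - (cR a).re * (cP b).im
  + ((cR b).im * (cP a).re - (cR b).re * (cP a).im)) / 2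

def Q4 (a b : V) : ℝ := (cP a).re * (cP b).re - (cP a).im * (cP b).im
  + 2 * ((cC a).re * (cC b).re - (cC a).im * (cC b).im)

theorem Q1_comm (a b : V) : Q1 a b = Q1 b a := by unfold Q1; ring
theorem Q2_comm (a b : V) : Q2 a b = Q2 b a := by unfold Q2; ring
theorem Q3_comm (a b : V) : Q3 a b = Q3 b a := by unfold Q3; ring
theorem Q4_comm (a b : V) : Q4 a b = Q4 b a := by unfold Q4; ring

/-- `Q1` as a continuous bilinear form -/
def Q1L : V →L[ℝ] V →L[ℝ] ℝ :=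
  (LinearMap.mk₂ ℝ Q1
    (fun a b c => by simp only [Q1, map_add, Complex.add_re, Complex.add_im]; ring)
    (fun r a b => by simp only [Q1, map_smul, smul_eq_mul, Complex.smul_re, Complex.smul_im]; ring)
    (fun a b c => by simp only [Q1, map_add, Complex.add_re, Complex.add_im]; ring)
    (fun r a b => by
      simp only [Q1, map_smul, smul_eq_mul, Complex.smul_re,
        Complex.smul_im]; ring)).toContinuousBilinearMap

/-- `Q2` as a continuous bilinear form -/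
def Q2L : V →L[ℝ] V →L[ℝ] ℝ :=
  (LinearMap.mk₂ ℝ Q2
    (fun a b c => by simp only [Q2, map_add, Complex.add_re, Complex.add_im]; ring)
    (fun r a b => by simp only [Q2, map_smul, smul_eq_mul, Complex.smul_re, Complex.smul_im]; ring)
    (fun a b c => by simp only [Q2, map_add, Complex.add_re, Complex.add_im]; ring)
    (fun r a b => by
      simp only [Q2, map_smul, smul_eq_mul, Complex.smul_re,
        Complex.smul_im]; ring)).toContinuousBilinearMap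

/-- `Q3` as a continuous bilinear form -/
def Q3L : V →L[ℝ] V →L[ℝ] ℝ :=
  (LinearMap.mk₂ ℝ Q3
    (fun a b c => by simp only [Q3, map_add, Complex.add_re, Complex.add_im]; ring)
    (fun r a b => by simp only [Q3, map_smul, smul_eq_mul, Complex.smul_re, Complex.smul_im]; ring)
    (fun a b c => by simp only [Q3, map_add, Complex.add_re, Complex.add_im]; ring)
    (fun r a b => by
      simp only [Q3, map_smul, smul_eq_mul, Complex.smul_re,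
        Complex.smul_im]; ring)).toContinuousBilinearMap

/-- `Q4` as a continuous bilinear form -/
def Q4L : V →L[ℝ] V →L[ℝ] ℝ :=
  (LinearMap.mk₂ ℝ Q4
    (fun a b c => by simp only [Q4, map_add, Complex.add_re, Complex.add_im]; ring)
    (fun r a b => by simp only [Q4, map_smul, smul_eq_mul, Complex.smul_re, Complex.smul_im]; ring)
    (fun a b c => by simp only [Q4, map_add, Complex.add_re, Complex.add_im]; ring)
    (fun r a b => by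
      simp only [Q4, map_smul, smul_eq_mul, Complex.smul_re,
        Complex.smul_im]; ring)).toContinuousBilinearMap

theorem Q1_smooth : ContDiffOn ℝ ∞ (fun u : V => Q1 u u) {0}ᶜ :=
  (Q1L.contDiff.clm_apply contDiff_id).contDiffOn
theorem Q2_smooth : ContDiffOn ℝ ∞ (fun u : V => Q2 u u) {0}ᶜ :=
  (Q2L.contDiff.clm_apply contDiff_id).contDiffOn
theorem Q3_smooth : ContDiffOn ℝ ∞ (fun u : V => Q3 u u) {0}ᶜ :=
  (Q3L.contDiff.clm_apply contDiff_id).contDiffOn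
theorem Q4_smooth : ContDiffOn ℝ ∞ (fun u : V => Q4 u u) {0}ᶜ :=
  (Q4L.contDiff.clm_apply contDiff_id).contDiffOn

/-- `N G` -/
def G4 (u : V) : ℝ := Q1 u u * Q2 u u + Q3 u u * Q4 u u

theorem G4_smooth : ContDiffOn ℝ ∞ G4 {0}ᶜ :=
  (Q1_smooth.mul Q2_smooth).add (Q3_smooth.mul Q4_smooth)

theorem G4_eq (u : V) : (cR u * conj (cP u) * (conj (cP u) ^ 2 + 2 * cC u ^ 2)).im = G4 u := by
  unfold G4 Q1 Q2 Q3 Q4
  simp [sq]
  ring

theorem D1_G4 {u : V} (hu : u ≠ 0) (w : V) : D1 G4 u w =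
    Q1 u u * (2 * Q2 u w) + Q2 u u * (2 * Q1 u w)
      + (Q3 u u * (2 * Q4 u w) + Q4 u u * (2 * Q3 u w)) := by
  have e1 : ∀ a, D1 (fun u : V => Q1 u u) u a = 2 * Q1 u a := QF_q1 (q := Q1L) Q1_comm u
  have e2 : ∀ a, D1 (fun u : V => Q2 u u) u a = 2 * Q2 u a := QF_q1 (q := Q2L) Q2_comm u
  have e3 : ∀ a, D1 (fun u : V => Q3 u u) u a = 2 * Q3 u a := QF_q1 (q := Q3L) Q3_comm u
  have e4 : ∀ a, D1 (fun u : V => Q4 u u) u a = 2 * Q4 u a := QF_q1 (q := Q4L) Q4_comm u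
  have h : D1 G4 u w = D1 (fun z => Q1 z z * Q2 z z + Q3 z z * Q4 z z) u w := rfl
  rw [h, D1_sum (Q1_smooth.mul Q2_smooth) (Q3_smooth.mul Q4_smooth) hu,
    D1_mul Q1_smooth Q2_smooth hu, D1_mul Q3_smooth Q4_smooth hu, e1, e2, e3, e4]

theorem D2_G4 {u : V} (hu : u ≠ 0) (b w : V) : D2 G4 u b w =
    (Q1 u u * (2 * Q2 b w) + 2 * Q2 u b * (2 * Q1 u w))
      + (Q2 u u * (2 * Q1 b w) + 2 * Q1 u b * (2 * Q2 u w))
      + ((Q3 u u * (2 * Q4 b w) + 2 * Q4 u b * (2 * Q3 u w))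
      + (Q4 u u * (2 * Q3 b w) + 2 * Q3 u b * (2 * Q4 u w))) := by
  have e1 : ∀ a, D1 (fun u : V => Q1 u u) u a = 2 * Q1 u a := QF_q1 (q := Q1L) Q1_comm u
  have e2 : ∀ a, D1 (fun u : V => Q2 u u) u a = 2 * Q2 u a := QF_q1 (q := Q2L) Q2_comm u
  have e3 : ∀ a, D1 (fun u : V => Q3 u u) u a = 2 * Q3 u a := QF_q1 (q := Q3L) Q3_comm u
  have e4 : ∀ a, D1 (fun u : V => Q4 u u) u a = 2 * Q4 u a := QF_q1 (q := Q4L) Q4_comm u
  have f1 : ∀ a b, D2 (fun u : V => Q1 u u) u a b = 2 * Q1 a b := QF_q2 (q := Q1L) Q1_comm u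
  have f2 : ∀ a b, D2 (fun u : V => Q2 u u) u a b = 2 * Q2 a b := QF_q2 (q := Q2L) Q2_comm u
  have f3 : ∀ a b, D2 (fun u : V => Q3 u u) u a b = 2 * Q3 a b := QF_q2 (q := Q3L) Q3_comm u
  have f4 : ∀ a b, D2 (fun u : V => Q4 u u) u a b = 2 * Q4 a b := QF_q2 (q := Q4L) Q4_comm u
  have h : D2 G4 u b w = D2 (fun z => Q1 z z * Q2 z z + Q3 z z * Q4 z z) u b w := rfl
  rw [h, D2_sum (Q1_smooth.mul Q2_smooth) (Q3_smooth.mul Q4_smooth) hu,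
    D2_mul Q1_smooth Q2_smooth hu, D2_mul Q3_smooth Q4_smooth hu, e1, e1, e2, e2, e3, e3, e4, e4,
    f1, f2, f3, f4]

/-! ### the function `G` -/

theorem BN_nr (u : V) : BN (m 1 3) QQ u u = nr u := rfl

theorem BN_Gq {z : V} (hz : z ≠ 0) : BN (m 1 3) QQ z z * Gq z = G4 z := by
  unfold Gq
  rw [G4_eq, BN_nr, mul_div_cancel₀ _ (nr_pos hz).ne']

theorem BN_comm (a b : V) : BN (m 1 3) QQ a b = BN (m 1 3) QQ b a := by
  rw [BN_apply, BN_apply]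
  exact nD.Qsymm _ _

theorem D1_Gq {u : V} (hu : u ≠ 0) (hn : nr u = 1) (hG : Gq u = 0) (w : V) :
    D1 Gq u w = D1 G4 u w := by
  have h1 : D1 G4 u w = D1 (fun z => BN (m 1 3) QQ z z * Gq z) u w :=
    fd_congr (fun z hz => (BN_Gq hz).symm) hu w
  rw [h1, D1_mul BNsq_smooth X0.Gq_smooth hu, hG, BN_nr, hn]
  ring

theorem D2_Gq {u : V} (hu : u ≠ 0) (hn : nr u = 1) (hG : Gq u = 0) (b w : V) :
    D2 Gq u b w = D2 G4 u b w - 2 * (QQ (u : Mat) b * D1 G4 u w + QQ (u : Mat) w * D1 G4 u b) := by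
  have e0 : ∀ a, D1 (fun u : V => BN (m 1 3) QQ u u) u a = 2 * BN (m 1 3) QQ u a :=
    QF_q1 (q := BN (m 1 3) QQ) BN_comm u
  have h1 : D2 G4 u b w = D2 (fun z => BN (m 1 3) QQ z z * Gq z) u b w := by
    unfold D2
    exact fd_congr (fun z hz => fd_congr (fun y hy => (BN_Gq hy).symm) hz b) hu w
  rw [h1, D2_mul BNsq_smooth X0.Gq_smooth hu, hG, BN_nr, hn, e0, e0, D1_Gq hu hn hG,
    D1_Gq hu hn hG, BN_apply, BN_apply]
  ring

/-! ### the explicit function without cut-off -/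

/-- the explicit function near `e₂'` -/
def vW (ε κ : ℝ) (u : V) : ℝ := vX ε u + (-(ε * κ)) * Gq u

theorem vW_smooth (ε κ : ℝ) : ContDiffOn ℝ ∞ (vW ε κ) {0}ᶜ :=
  (vX_smooth ε).add (cmul_smooth _ X0.Gq_smooth)

theorem vE_eq (ε κ : ℝ) {u : V} (h : chi2 u = 1) : vE ε κ u = vW ε κ u := by
  unfold vE vW vX vK
  rw [h]
  have e1 : kE u u = Kq u := by
    unfold kE Kq
    rw [rip_self]; ring
  have e2 : mM u u = mq u := by
    unfold mM mq; ring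
  rw [e1, e2, BN_nr]
  ring

theorem chi1_one {t : ℝ} (h1 : 9 / 20 ≤ t) (h2 : t ≤ 11 / 20) : chi1 t = 1 := by
  unfold chi1
  rw [Real.smoothTransition.one_of_one_le (by linarith),
    Real.smoothTransition.one_of_one_le (by linarith), one_mul]

theorem chi2_ev {u : V} (hu : u ≠ 0) (h1 : 9 / 20 < Complex.normSq (cP u) / nr u)
    (h2 : Complex.normSq (cP u) / nr u < 11 / 20) (h3 : cc 1 3 u < -1 / 2) :
    ∀ᶠ z in 𝓝 u, chi2 z = 1 := by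
  have c1 : ContinuousAt (fun z : V => Complex.normSq (cP z) / nr z) u := by
    have h := ((I1.dnsq cP.contDiff).contDiffOn (s := {(0 : V)}ᶜ)).div I1.nr_smooth.contDiffOn
      (fun z hz => (nr_pos hz).ne')
    exact (h.contDiffAt (isOpen_compl_singleton.mem_nhds hu)).continuousAt
  have c2 : ContinuousAt (cc 1 3) u :=
    (cD.csm.contDiffAt (isOpen_compl_singleton.mem_nhds hu)).continuousAt
  filter_upwards [c1.eventually (lt_mem_nhds h1), c1.eventually (gt_mem_nhds h2),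
    c2.eventually (gt_mem_nhds h3)] with z e1 e2 e3
  unfold chi2
  rw [chi1_one e1.le e2.le, Real.smoothTransition.one_of_one_le (by linarith), one_mul]

theorem D1_vW (ε κ : ℝ) {u : V} (h0 : u ≠ 0) (hu : Od u) (hn : nr u = 1) (hG : Gq u = 0) (w : V) :
    D1 (vW ε κ) u w = -ε * (2 * mM u w + κ * D1 G4 u w) := by
  have h : D1 (vW ε κ) u w = D1 (fun z => vX ε z + (-(ε * κ)) * Gq z) u w := rfl
  rw [h, D1_sum (vX_smooth ε) (cmul_smooth _ X0.Gq_smooth) h0, D1_cmul _ X0.Gq_smooth h0,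
    D1_vX ε h0 hu, D1_Gq h0 hn hG]
  ring

theorem D2_vW (ε κ : ℝ) {u : V} (h0 : u ≠ 0) (hu : Od u) (hn : nr u = 1) (hG : Gq u = 0)
    (b w : V) : D2 (vW ε κ) u b w = -3 * kE b w - ε * (2 * mM b w + κ * (D2 G4 u b w
      - 2 * (QQ (u : Mat) b * D1 G4 u w + QQ (u : Mat) w * D1 G4 u b))) := by
  have h : D2 (vW ε κ) u b w = D2 (fun z => vX ε z + (-(ε * κ)) * Gq z) u b w := rfl
  rw [h, D2_sum (vX_smooth ε) (cmul_smooth _ X0.Gq_smooth) h0, D2_cmul _ X0.Gq_smooth h0,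
    D2_vX ε h0 hu, D2_Gq h0 hn hG]
  ring

/-! ### the values at `e₂'` -/

theorem e_odd (κ a : ℝ) : Od (e2p κ a) := ⟨by simp [e2p], by simp [e2p]⟩

theorem e_nr {κ a : ℝ} (hn : 2 * a ^ 2 + 2 * (2 * κ * a ^ 3) ^ 2 = 1) : nr (e2p κ a) = 1 := by
  unfold nr
  rw [X4bF.QQ_e2p]
  simp only [e2p, cP_mk, cR_mk, cC_mk, Complex.mul_im, Complex.ofReal_re, Complex.ofReal_im,
    Complex.I_re, Complex.I_im]
  linear_combination hn

theorem e_ne {κ a : ℝ} (ha : a ≠ 0) : e2p κ a ≠ 0 := by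
  intro h
  have : cP (e2p κ a) = 0 := by rw [h, map_zero]
  simp only [e2p, cP_mk] at this
  exact ha (by exact_mod_cast this)

theorem e_Q (κ a be : ℝ) (h : be = -2 * κ * a ^ 3) : Q1 (e2p κ a) (e2p κ a) = a ^ 2 ∧
    Q2 (e2p κ a) (e2p κ a) = 0 ∧ Q3 (e2p κ a) (e2p κ a) = 0 ∧
    Q4 (e2p κ a) (e2p κ a) = a ^ 2 - 2 * be ^ 2 := by
  refine ⟨?_, ?_, ?_, ?_⟩ <;>
  · simp only [Q1, Q2, Q3, Q4, e2p, cP_mk, cR_mk, cC_mk, Complex.mul_im, Complex.mul_re,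
      Complex.ofReal_re, Complex.ofReal_im, Complex.I_re, Complex.I_im, ← h]
    ring

theorem e_Qw (κ a be : ℝ) (h : be = -2 * κ * a ^ 3) (w : V) :
    Q1 (e2p κ a) w = a * ((cP w).re + (cR w).re) / 2 ∧
    Q2 (e2p κ a) w = 2 * be * (cC w).re - a * (cP w).im ∧
    Q3 (e2p κ a) w = a * ((cR w).im - (cP w).im) / 2 ∧
    Q4 (e2p κ a) w = a * (cP w).re - 2 * be * (cC w).im := by
  refine ⟨?_, ?_, ?_, ?_⟩ <;>
  · simp only [Q1, Q2, Q3, Q4, e2p, cP_mk, cR_mk, cC_mk, Complex.mul_im, Complex.mul_re,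
      Complex.ofReal_re, Complex.ofReal_im, Complex.I_re, Complex.I_im, ← h]
    ring

theorem e_Qb (κ a be : ℝ) (h : be = -2 * κ * a ^ 3) (w : V) :
    Q1 (e2b κ a) w = be * ((cR w).im - (cP w).im) / 2 ∧
    Q2 (e2b κ a) w = 2 * a * (cC w).im - be * (cP w).re ∧
    Q3 (e2b κ a) w = -(be * ((cP w).re + (cR w).re)) / 2 ∧
    Q4 (e2b κ a) w = 2 * a * (cC w).re - be * (cP w).im := by
  refine ⟨?_, ?_, ?_, ?_⟩ <;>
  · simp only [Q1, Q2, Q3, Q4, e2b, cP_mk, cR_mk, cC_mk, Complex.mul_im, Complex.mul_re,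
      Complex.ofReal_re, Complex.ofReal_im, Complex.I_re, Complex.I_im, Complex.neg_re,
      Complex.neg_im, ← h]
    ring

theorem e_Gq (κ a : ℝ) : Gq (e2p κ a) = 0 := by
  obtain ⟨h1, h2, h3, h4⟩ := e_Q κ a _ rfl
  unfold Gq
  rw [G4_eq, G4, h1, h2, h3, h4]
  simp

theorem e_D1G {κ a : ℝ} (ha : a ≠ 0) {be : ℝ} (h : be = -2 * κ * a ^ 3) (w : V) :
    D1 G4 (e2p κ a) w = (-3 * a ^ 3 + 2 * a * be ^ 2) * (cP w).im
      + (a ^ 3 - 2 * a * be ^ 2) * (cR w).im + 4 * a ^ 2 * be * (cC w).re := by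
  obtain ⟨h1, h2, h3, h4⟩ := e_Q κ a _ h
  obtain ⟨f1, f2, f3, f4⟩ := e_Qw κ a _ h w
  rw [D1_G4 (e_ne ha), h1, h2, h3, h4, f1, f2, f3, f4]
  ring

theorem e_D2G {κ a : ℝ} (ha : a ≠ 0) {be : ℝ} (h : be = -2 * κ * a ^ 3) (w : V) :
    D2 G4 (e2p κ a) (e2b κ a) w = (-5 * a ^ 2 * be + 2 * be ^ 3) * (cP w).re
      + (a ^ 2 * be + 2 * be ^ 3) * (cR w).re + (4 * a ^ 3 + 8 * a * be ^ 2) * (cC w).im := by
  obtain ⟨h1, h2, h3, h4⟩ := e_Q κ a _ h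
  obtain ⟨f1, f2, f3, f4⟩ := e_Qw κ a _ h w
  obtain ⟨g1, g2, g3, g4⟩ := e_Qw κ a _ h (e2b κ a)
  obtain ⟨k1, k2, k3, k4⟩ := e_Qb κ a _ h w
  rw [D2_G4 (e_ne ha), h1, h2, h3, h4, f1, f2, f3, f4, g1, g2, g3, g4, k1, k2, k3, k4]
  simp only [e2b, cP_mk, cR_mk, cC_mk, Complex.mul_im, Complex.mul_re,
      Complex.ofReal_re, Complex.ofReal_im, Complex.I_re, Complex.I_im, Complex.neg_re,
      Complex.neg_im, ← h]
  ring

/-- `D v` at `e₂'` -/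
theorem e_D1 (ε : ℝ) {κ a : ℝ} (ha : a ≠ 0) (hn : 2 * a ^ 2 + 2 * (2 * κ * a ^ 3) ^ 2 = 1)
    (w : V) : D1 (vW ε κ) (e2p κ a) w =
      -ε * ((a ^ 2 - 2 * (-2 * κ * a ^ 3) ^ 2) / (2 * a ^ 2)) * QQ (e2b κ a : Mat) w := by
  rw [D1_vW ε κ (e_ne ha) (e_odd κ a) (e_nr hn) (e_Gq κ a), e_D1G ha rfl, X4bF.QQ_e2b]
  have hm : mM (e2p κ a) w = (a * (cC w).re - (-2 * κ * a ^ 3) * (cP w).im) / 2 := by
    simp only [mM, e2p, cP_mk, cC_mk, Complex.mul_im, Complex.mul_re,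
      Complex.ofReal_re, Complex.ofReal_im, Complex.I_re, Complex.I_im]
    ring
  rw [hm]
  field_simp
  ring

/-- `D² v (b₀, ·)` at `e₂'` -/
theorem e_D2 (ε : ℝ) {κ a : ℝ} (ha : a ≠ 0) (hn : 2 * a ^ 2 + 2 * (2 * κ * a ^ 3) ^ 2 = 1)
    (w : V) : D2 (vW ε κ) (e2p κ a) (e2b κ a) w = -ε * X4bF.Mm κ a w := by
  obtain ⟨be, h⟩ : ∃ be : ℝ, be = -2 * κ * a ^ 3 := ⟨_, rfl⟩
  have hm : mM (e2b κ a) w = (a * (cP w).re - be * (cC w).im) / 2 := by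
    simp only [mM, e2b, cP_mk, cC_mk, Complex.mul_im, Complex.mul_re,
      Complex.ofReal_re, Complex.ofReal_im, Complex.I_re, Complex.I_im, ← h]
    ring
  have hk : kE (e2b κ a) w = 0 := by
    simp [kE, e2b, rip]
  have hub : QQ (e2p κ a : Mat) (e2b κ a) = 0 := by
    rw [X4bF.QQ_e2p]
    simp [e2b]
  have hDb : D1 G4 (e2p κ a) (e2b κ a) = 4 * a * be ^ 3 := by
    rw [e_D1G ha h]
    simp only [e2b, cP_mk, cR_mk, cC_mk, Complex.mul_im, Complex.mul_re,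
      Complex.ofReal_re, Complex.ofReal_im, Complex.I_re, Complex.I_im, Complex.neg_re,
      Complex.neg_im, ← h]
    ring
  rw [D2_vW ε κ (e_ne ha) (e_odd κ a) (e_nr hn) (e_Gq κ a), hk, hm, hub, hDb, e_D2G ha h]
  unfold X4bF.Mm X4bF.Mb
  rw [← h]
  ring

/-- `D² v` on the even part at `e₂'` -/
theorem e_D2e (ε : ℝ) {κ a : ℝ} (ha : a ≠ 0) (hn : 2 * a ^ 2 + 2 * (2 * κ * a ^ 3) ^ 2 = 1)
    {x : V} (hP : cP x = 0) (hR : cR x = 0) (hC : cC x = 0) :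
    D2 (vW ε κ) (e2p κ a) x x = -3 * kE x x := by
  obtain ⟨h1, h2, h3, h4⟩ := e_Q κ a _ rfl
  obtain ⟨f1, f2, f3, f4⟩ := e_Qw κ a _ rfl x
  have m1 : mM x x = 0 := by simp [mM, hP]
  have g1 : Q1 x x = 0 := by simp [Q1, hP]
  have g2 : Q2 x x = 0 := by simp [Q2, hP, hC]
  have g3 : Q3 x x = 0 := by simp [Q3, hP]
  have g4 : Q4 x x = 0 := by simp [Q4, hP, hC]
  have hq : QQ (e2p κ a : Mat) x = 0 := by
    rw [X4bF.QQ_e2p]
    simp [hP, hR, hC]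
  rw [D2_vW ε κ (e_ne ha) (e_odd κ a) (e_nr hn) (e_Gq κ a), m1, hq, D2_G4 (e_ne ha), g1, g2, g3,
    g4, f1, f2, f3, f4, hP, hR, hC]
  simp

/-! ### the cut-off -/

theorem e_small {κ a : ℝ} (hk : 0 < κ) (hk1 : κ ≤ 1 / 10) (ha : 0 < a)
    (hn : 2 * a ^ 2 + 2 * (2 * κ * a ^ 3) ^ 2 = 1) :
    9 / 20 < a ^ 2 ∧ a ^ 2 < 11 / 20 ∧ (-2 * κ * a ^ 3) ^ 2 ≤ 1 / 100 * a ^ 2 := by
  have h1 : a ^ 2 ≤ 1 / 2 := by nlinarith [sq_nonneg (2 * κ * a ^ 3)]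
  have h0 : 0 < a ^ 2 := by positivity
  have h2 : κ ^ 2 ≤ 1 / 100 := by nlinarith
  have h3 : (a ^ 2) ^ 2 ≤ 1 / 4 := by nlinarith
  have h4 : (-2 * κ * a ^ 3) ^ 2 ≤ 1 / 100 * a ^ 2 := by
    have e : (-2 * κ * a ^ 3) ^ 2 = 4 * (κ ^ 2 * (a ^ 2) ^ 2) * a ^ 2 := by ring
    rw [e]
    have h5 : κ ^ 2 * (a ^ 2) ^ 2 ≤ 1 / 100 * (1 / 4) :=
      mul_le_mul h2 h3 (by positivity) (by norm_num)
    nlinarith
  have e : (2 * κ * a ^ 3) ^ 2 = (-2 * κ * a ^ 3) ^ 2 := by ring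
  rw [e] at hn
  refine ⟨by nlinarith, by nlinarith, h4⟩

theorem e_cc {κ a : ℝ} (hn : 2 * a ^ 2 + 2 * (2 * κ * a ^ 3) ^ 2 = 1) :
    cc 1 3 (e2p κ a) = -1 := by
  have h1 : QQ (e2p κ a : Mat) (e2p κ a) = 1 := e_nr hn
  unfold cc
  rw [h1, s4_odd (e_odd κ a).1 (e_odd κ a).2]
  have h2 : cP (e2p κ a) * conj (cC (e2p κ a)) + cC (e2p κ a) * cR (e2p κ a) = 0 := by
    simp only [e2p, cP_mk, cR_mk, cC_mk, map_mul, Complex.conj_ofReal, Complex.conj_I]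
    ring
  rw [h2]
  simp only [e2p, cP_mk, cR_mk, cC_mk, map_mul, Complex.normSq_ofReal, Complex.normSq_I, map_zero]
  have h3 : (a * a + (-2 * κ * a ^ 3) * (-2 * κ * a ^ 3)) = 1 / 2 := by linear_combination hn / 2
  have h4 : (-2 * κ * a ^ 3 * (-2 * κ * a ^ 3) * 1 + a * a) = 1 / 2 := by
    linear_combination hn / 2
  rw [mul_one] at *
  rw [h3, h4]
  norm_num

theorem e_ev {κ a : ℝ} (hk : 0 < κ) (hk1 : κ ≤ 1 / 10) (ha : 0 < a)
    (hn : 2 * a ^ 2 + 2 * (2 * κ * a ^ 3) ^ 2 = 1) (ε : ℝ) :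
    vE ε κ =ᶠ[𝓝 (e2p κ a)] vW ε κ := by
  obtain ⟨h1, h2, -⟩ := e_small hk hk1 ha hn
  have h3 : Complex.normSq (cP (e2p κ a)) / nr (e2p κ a) = a ^ 2 := by
    rw [e_nr hn, div_one]
    simp only [e2p, cP_mk, Complex.normSq_ofReal]
    ring
  filter_upwards [chi2_ev (e_ne ha.ne') (h3 ▸ h1) (h3 ▸ h2) (by rw [e_cc hn]; norm_num)]
    with z hz using vE_eq ε κ hz

/-! ### transport -/

end X4b

open X4b in
/-- **(X4b)** the third order form and `α'` over the orbit of `e₂'` -/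
theorem X4b : ∃ κ0 : ℝ, 0 < κ0 ∧ ∀ κ : ℝ, 0 < κ → κ ≤ κ0 → ∀ ε : ℝ, 0 < ε → ∀ u b : V, Fl u b →
    (∃ z : ℂ, ‖z‖ = 1 ∧ ∃ a : ℝ, 0 < a ∧ 2 * a ^ 2 + 2 * (2 * κ * a ^ 3) ^ 2 = 1 ∧
      Act.rz z u = e2p κ a) → alf (vE ε κ) u b = 0 →
    0 < T3 (vE ε κ) u b ∧ 0 < alf' (vE ε κ) u b := by
  refine ⟨1 / 10, by norm_num, fun κ hκ hκ1 ε hε u b hF hX hal => ?_⟩
  obtain ⟨z, hz, a, ha, hn, hu⟩ := hX
  have hN := nD
  obtain ⟨k, hk, hk'⟩ := Act.exists_k hz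
  have hne : u ≠ 0 := by
    rintro rfl
    have := hF.1
    simp at this
  have hP := vE_Ph ε κ
  have e1 : adM (PP 1 3) k u = e2p κ a := by
    rw [← hu]
    apply Subtype.ext
    rw [← hk']
    exact adM_coe hN gD hk u
  have e2 : T3 (vE ε κ) (adM (PP 1 3) k u) (adM (PP 1 3) k b) = T3 (vE ε κ) u b :=
    T3Inv_T3F hN cD gD hP.phi.smooth hP.inv hk hne b
  have e3 : alf' (vE ε κ) (adM (PP 1 3) k u) (adM (PP 1 3) k b) = alf' (vE ε κ) u b :=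
    al'_adM hN cD gD hP.phi.smooth hP.inv hk hne b
  have hF' : Fl (adM (PP 1 3) k u) (adM (PP 1 3) k b) := flag_adM hN gD hk hF
  have hal2 : alf (vE ε κ) (adM (PP 1 3) k u) (adM (PP 1 3) k b) = 0 :=
    (al_adM hN cD gD hP.phi.smooth hP.inv hk hne b).trans hal
  rw [e1] at e2 e3 hF' hal2
  have hev := e_ev hκ hκ1 ha hn ε
  have e4 : T3 (vE ε κ) (e2p κ a) (adM (PP 1 3) k b) = T3 (vW ε κ) (e2p κ a) (adM (PP 1 3) k b) :=
    T3F_congr hN hev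
  have e5 : alf' (vE ε κ) (e2p κ a) (adM (PP 1 3) k b) =
      alf' (vW ε κ) (e2p κ a) (adM (PP 1 3) k b) := al'_congr hev
  have hal3 : alf (vW ε κ) (e2p κ a) (adM (PP 1 3) k b) = 0 := (al_congr hev).symm.trans hal2
  have hm := X4bT.main hε ha hκ hκ1 hn (f := vW ε κ) (e_D1 ε ha.ne' hn) (e_D2 ε ha.ne' hn)
    (fun x h1 h2 h3 => e_D2e ε ha.ne' hn h1 h2 h3) hF' hal3
  rw [← e2, ← e3, e4, e5]
  exact hm

end Pool.Agent.FL.S1
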