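import Pool.Agent.FL.S1Core

/-!
# MP_f09395_gt, space (1), module X6: `W² m ≠ 0` at the regular equilibria of `m` in the odd part
-/

set_option linter.unusedSectionVars false

noncomputable section

namespace Pool.Agent.FL.S1

open scoped ContDiff Quaternion Matrix ComplexConjugate
open Pool.Agent.Helper93.Fin Pool.Agent.helper79.FP Pool.Agent.helper79.FR
open Pool.Agent.helper79.FR.Sp2 (Mat QQ h0 m gg hh PP BB cc)

attribute [local instance] Matrix.linftyOpNormedRing Matrix.linftyOpNormedAlgebra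

namespace X6

open Pool.Agent.helper79.FR.Sp2 (H dg inv_of_mem_H retr lie_gg star_h0)
open Pool.Agent.helper46.FR (Qg Bgen fderiv_line line_deriv Bgen_deriv)

/-- the quadratic invariant `Re (C P)` -/
def mq6 (u : V) : ℝ := (cC u * cP u).re

/-! ### the action of `H` -/

theorem dg_mul (z w : ℂ) : dg 1 3 z * dg 1 3 w = dg 1 3 (z * w) := by
  rw [dg, dg, dg, Matrix.diagonal_mul_diagonal]
  congr 1
  ext i : 1
  fin_cases i <;> simp [mul_pow]

theorem dg_one : dg 1 3 1 = 1 := by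
  rw [dg, ← Matrix.diagonal_one]
  congr 1
  funext i
  fin_cases i <;> simp

/-- `diag(z, z³)` as a unit -/
def kz (z : ℂ) (hz : ‖z‖ = 1) : Matˣ :=
  ⟨dg 1 3 z, dg 1 3 z⁻¹, by
    have hz0 : z ≠ 0 := by intro h; simp [h] at hz
    rw [dg_mul, mul_inv_cancel₀ hz0, dg_one], by
    have hz0 : z ≠ 0 := by intro h; simp [h] at hz
    rw [dg_mul, inv_mul_cancel₀ hz0, dg_one]⟩

theorem kz_mem (z : ℂ) (hz : ‖z‖ = 1) : kz z hz ∈ H 1 3 := ⟨z, hz, rfl⟩

theorem conj_entry (k : Matˣ) (hk : k ∈ H 1 3) (z : ℂ) (h : (k : Mat) = dg 1 3 z) (X : Mat)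
    (i j : Fin 2) : Adj k X i j =
      (![((z ^ 1 : ℂ) : ℍ[ℝ]), ((z ^ 3 : ℂ) : ℍ[ℝ])] i) * X i j *
        star (![((z ^ 1 : ℂ) : ℍ[ℝ]), ((z ^ 3 : ℂ) : ℍ[ℝ])] j) := by
  show ((k : Mat) * X * ((k⁻¹ : Matˣ) : Mat)) i j = _
  rw [inv_of_mem_H hk, h, dg, Matrix.star_eq_conjTranspose, Matrix.diagonal_conjTranspose,
    Matrix.mul_diagonal, Matrix.diagonal_mul]
  rfl

theorem act_of {k : Matˣ} (hk : k ∈ H 1 3) {z : ℂ} (hz : ‖z‖ = 1) (h : (k : Mat) = dg 1 3 z)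
    (u v : V) (huv : (v : Mat) = Adj k u) :
    c0 v = c0 u ∧ cP v = z ^ 2 * cP u ∧ cR v = z ^ 6 * cR u ∧ cC v = conj z ^ 2 * cC u ∧
      cQ v = z ^ 4 * cQ u := by
  have hn : z.re * z.re + z.im * z.im = 1 := by
    have := Complex.normSq_eq_norm_sq z
    rw [hz, Complex.normSq_apply] at this
    linarith
  have hn3 : (z ^ 3).re * (z ^ 3).re + (z ^ 3).im * (z ^ 3).im = 1 := by
    have := Complex.normSq_eq_norm_sq (z ^ 3)
    rw [norm_pow, hz, Complex.normSq_apply] at this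
    linarith
  have e6 : z ^ 6 = z ^ 3 * z ^ 3 := by ring
  have e4 : z ^ 4 = z * z ^ 3 := by ring
  have ec : conj z ^ 2 = z * conj (z ^ 3) := by
    have h1 : z * conj z = 1 := by
      rw [Complex.mul_conj, Complex.normSq_eq_norm_sq, hz]; norm_num
    rw [map_pow]
    linear_combination (-(conj z) ^ 2) * h1
  have x00 := conj_entry k hk z h u 0 0
  have x01 := conj_entry k hk z h u 0 1
  have x11 := conj_entry k hk z h u 1 1
  rw [← huv] at x00 x01 x11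
  rw [coords u] at x00 x01 x11
  rw [e6, e4, ec]
  generalize z ^ 3 = w at *
  refine ⟨?_, ?_, ?_, ?_, ?_⟩
  · rw [c0_apply, x11]
    simp [mkMat, mkV_coe, Quaternion.imI_mul, Quaternion.re_mul, Quaternion.imJ_mul, Quaternion.imK_mul]
    linear_combination (c0 u) * hn3
  · rw [cP_apply, x00]
    apply Complex.ext <;>
    simp [mkMat, mkV_coe, Quaternion.imI_mul, Quaternion.re_mul, Quaternion.imJ_mul,
      Quaternion.imK_mul, pow_two] <;> ring
  · rw [cR_apply, x11]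
    apply Complex.ext <;>
    simp [mkMat, mkV_coe, Quaternion.imI_mul, Quaternion.re_mul, Quaternion.imJ_mul,
      Quaternion.imK_mul] <;> ring
  · rw [cC_apply, x01]
    apply Complex.ext <;>
    simp [mkMat, mkV_coe, Quaternion.imI_mul, Quaternion.re_mul, Quaternion.imJ_mul,
      Quaternion.imK_mul] <;> ring
  · rw [cQ_apply, x01]
    apply Complex.ext <;>
    simp [mkMat, mkV_coe, Quaternion.imI_mul, Quaternion.re_mul, Quaternion.imJ_mul,
      Quaternion.imK_mul] <;> ring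

theorem mq_inv : InvH (H 1 3) mq6 := by
  intro k hk u v huv
  obtain ⟨z, hz, h⟩ := hk
  obtain ⟨-, hP, -, hC, -⟩ := act_of ⟨z, hz, h⟩ hz h u v huv
  unfold mq6
  rw [hP, hC]
  congr 1
  have h1 : z * conj z = 1 := by
    rw [Complex.mul_conj, Complex.normSq_eq_norm_sq, hz]; norm_num
  linear_combination (cC u * cP u) * (z * conj z + 1) * h1

/-! ### first derivatives of `mq6` -/

theorem mq_smooth : ContDiff ℝ ∞ mq6 := by
  have h : ContDiff ℝ ∞ (fun u : V => cC u * cP u) := cC.contDiff.mul cP.contDiff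
  exact Complex.reCLM.contDiff.comp h

theorem mq_D1 (u y : V) : D1 mq6 u y = (cC u * cP y + cC y * cP u).re := by
  have h : HasFDerivAt (fun u : V => cC u * cP u) (cC u • cP + cP u • cC) u :=
    cC.hasFDerivAt.mul cP.hasFDerivAt
  have h2 := Complex.reCLM.hasFDerivAt.comp u h
  have h3 : HasFDerivAt mq6 (Complex.reCLM.comp (cC u • cP + cP u • cC)) u := h2
  refine (congrArg (fun L : V →L[ℝ] ℝ => L y) h3.fderiv).trans ?_
  show (cC u * cP y + cP u * cC y).re = _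
  rw [mul_comm (cP u)]

theorem mq_hom (r : ℝ) (u : V) : mq6 (r • u) = r ^ 2 * mq6 u := by
  unfold mq6
  rw [map_smul, map_smul]
  simp
  ring

/-- `X ↦ [h₀, X]` -/
def LL : Mat →L[ℝ] V :=
  (PP 1 3).comp (ContinuousLinearMap.mul ℝ Mat (h0 1 3) -
    (ContinuousLinearMap.mul ℝ Mat).flip (h0 1 3))

theorem LL_apply (X : Mat) : LL X = PP 1 3 ⁅h0 1 3, X⁆ := rfl

theorem LL_P {X : Mat} (hX : X ∈ gg) :
    cP (LL X) = 2 * Complex.I * ⟨(X 0 0).imJ, (X 0 0).imK⟩ := by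
  rw [LL_apply, (PP_entries (lie_gg star_h0 hX)).1]
  simp only [Ring.lie_def, Matrix.sub_apply, Matrix.mul_apply, Fin.sum_univ_two, h0_00,
    h0_01 0 1 (by decide), h0_01 1 0 (by decide)]
  apply Complex.ext <;>
    simp [Quaternion.imJ_mul, Quaternion.imK_mul] <;> ring

theorem LL_C {X : Mat} (hX : X ∈ gg) :
    cC (LL X) = -2 * Complex.I * ⟨(X 0 1).re, (X 0 1).imI⟩ := by
  rw [LL_apply, (PP_entries (lie_gg star_h0 hX)).2.2.1]
  simp only [Ring.lie_def, Matrix.sub_apply, Matrix.mul_apply, Fin.sum_univ_two, h0_00, h0_11,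
    h0_01 0 1 (by decide), h0_01 1 0 (by decide)]
  apply Complex.ext <;>
    simp [Quaternion.re_mul, Quaternion.imI_mul] <;> ring

theorem aW1_eq : aW (PP 1 3) (h0 1 3) (BB 1 3) mq6 1 =
    fun z : V => (cC z * cP (LL (BB 1 3 z)) + cC (LL (BB 1 3 z)) * cP z).re := by
  funext z
  show D1 mq6 z (Wt (PP 1 3) (h0 1 3) (BB 1 3) z) = _
  rw [mq_D1]
  rfl

/-! ### the second derivative -/

theorem Wt_LL (z : V) : Wt (PP 1 3) (h0 1 3) (BB 1 3) z = LL (BB 1 3 z) := rfl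

theorem aW2_eq {u : V} (hu : u ≠ 0) (B' : Mat)
    (hB : HasDerivAt (fun t : ℝ => BB 1 3 (u + t • LL (BB 1 3 u))) B' 0) :
    aW (PP 1 3) (h0 1 3) (BB 1 3) mq6 2 u =
      (cC u * cP (LL B') + cC (LL (BB 1 3 u)) * cP (LL (BB 1 3 u)) +
        (cC (LL B') * cP u + cC (LL (BB 1 3 u)) * cP (LL (BB 1 3 u)))).re := by
  have hC := Pool.Agent.helper79.FR.Sp2.cas (a := 1) (b := 3) le_rfl (by norm_num)
  have hs := aW_smooth hC mq_smooth.contDiffOn 1
  show D1 (aW (PP 1 3) (h0 1 3) (BB 1 3) mq6 1) u (Wt (PP 1 3) (h0 1 3) (BB 1 3) u) = _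
  rw [Wt_LL, D1]
  refine fderiv_line hs hu _ ?_
  rw [aW1_eq]
  set w := LL (BB 1 3 u) with hw
  have hx : HasDerivAt (fun t : ℝ => u + t • w) w 0 :=
    (((hasDerivAt_id (0 : ℝ)).smul_const w).const_add u).congr_deriv (one_smul ℝ w)
  have h1 : HasDerivAt (fun t : ℝ => LL (BB 1 3 (u + t • w))) (LL B') 0 :=
    LL.hasFDerivAt.comp_hasDerivAt 0 hB
  have c1 : HasDerivAt (fun t : ℝ => cC (u + t • w)) (cC w) 0 :=
    cC.hasFDerivAt.comp_hasDerivAt 0 hx
  have p1 : HasDerivAt (fun t : ℝ => cP (u + t • w)) (cP w) 0 :=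
    cP.hasFDerivAt.comp_hasDerivAt 0 hx
  have c2 : HasDerivAt (fun t : ℝ => cC (LL (BB 1 3 (u + t • w)))) (cC (LL B')) 0 :=
    cC.hasFDerivAt.comp_hasDerivAt 0 h1
  have p2 : HasDerivAt (fun t : ℝ => cP (LL (BB 1 3 (u + t • w)))) (cP (LL B')) 0 :=
    cP.hasFDerivAt.comp_hasDerivAt 0 h1
  have h3 := (c1.mul p2).add (c2.mul p1)
  have h4 := Complex.reCLM.hasFDerivAt.comp_hasDerivAt 0 h3
  refine h4.congr_deriv ?_
  simp only [zero_smul, add_zero, ← hw, Complex.reCLM_apply]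
  congr 1
  ring

/-! ### matrices -/

/-- the point with real coordinates `P, R, C` -/
def vA (P R C : ℝ) : V := mkV 0 (P : ℂ) (R : ℂ) (C : ℂ) 0

/-- the matrix of `vA` -/
def mA (P R C : ℝ) : Mat := !![qt 0 0 P 0, qt C 0 0 0; qt (-C) 0 0 0, qt 0 0 R 0]

/-- the matrix of a vector with imaginary coordinates `P, R, C` -/
def mY (p r q : ℝ) : Mat := !![qt 0 0 0 p, qt 0 q 0 0; qt 0 q 0 0, qt 0 0 0 r]

/-- the matrix of a square -/
def mS (a b d : ℝ) : Mat := !![qt a 0 0 0, qt 0 0 b 0; qt 0 0 (-b) 0, qt d 0 0 0]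

theorem vA_coe (P R C : ℝ) : (vA P R C : Mat) = mA P R C := by
  rw [vA, mkV_coe, mkMat, mA]
  simp

theorem vY_coe (p r q : ℝ) : (mkV 0 (Complex.I * p) (Complex.I * r) (Complex.I * q) 0 : Mat) =
    mY p r q := by
  rw [mkV_coe, mkMat, mY]
  simp

theorem mA_sq (P R C : ℝ) : mA P R C * mA P R C =
    mS (-(P ^ 2 + C ^ 2)) ((P + R) * C) (-(R ^ 2 + C ^ 2)) := by
  rw [mA, mS]
  ext i j : 1
  fin_cases i <;> fin_cases j <;> ext <;>
    simp [Matrix.mul_apply, Fin.sum_univ_two, Quaternion.re_mul, Quaternion.imI_mul,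
      Quaternion.imJ_mul, Quaternion.imK_mul] <;> ring

theorem mA_cube (P R C : ℝ) : mS (-(P ^ 2 + C ^ 2)) ((P + R) * C) (-(R ^ 2 + C ^ 2)) *
    mA P R C = mA (-(P ^ 2 + C ^ 2) * P - (P + R) * C ^ 2) (-(R ^ 2 + C ^ 2) * R - (P + R) * C ^ 2)
      (-(P ^ 2 + C ^ 2) * C - (P + R) * R * C) := by
  rw [mA, mS, mA]
  ext i j : 1
  fin_cases i <;> fin_cases j <;> ext <;>
    simp [Matrix.mul_apply, Fin.sum_univ_two, Quaternion.re_mul, Quaternion.imI_mul,
      Quaternion.imJ_mul, Quaternion.imK_mul] <;> ring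

theorem mA_pow3 (P R C : ℝ) : mA P R C ^ 3 =
    mA (-(P ^ 2 + C ^ 2) * P - (P + R) * C ^ 2) (-(R ^ 2 + C ^ 2) * R - (P + R) * C ^ 2)
      (-(P ^ 2 + C ^ 2) * C - (P + R) * R * C) := by
  rw [← mA_cube, ← mA_sq]
  noncomm_ring

/-- `|u|²` -/
def nn (P R C : ℝ) : ℝ := P ^ 2 + R ^ 2 + 2 * C ^ 2

/-- `Re tr u⁴` -/
def ss (P R C : ℝ) : ℝ := (P ^ 2 + C ^ 2) ^ 2 + (R ^ 2 + C ^ 2) ^ 2 + 2 * ((P + R) * C) ^ 2

theorem QQ_mA (P R C : ℝ) : QQ (mA P R C) (mA P R C) = nn P R C := by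
  rw [Pool.Agent.helper79.FR.Sp2.QQ_apply, mA_sq, Pool.Agent.helper79.FR.Sp2.retr_apply, mS, nn]
  simp
  ring

theorem s4_mA (P R C : ℝ) : Pool.Agent.helper79.FR.Sp2.s4 (mA P R C) = ss P R C := by
  rw [Pool.Agent.helper79.FR.Sp2.s4]
  have e : mA P R C ^ 4 = (mA P R C * mA P R C) * (mA P R C * mA P R C) := by noncomm_ring
  rw [e, mA_sq, Pool.Agent.helper79.FR.Sp2.retr_apply, mS, ss]
  simp [Matrix.mul_apply, Fin.sum_univ_two, Quaternion.re_mul]
  ring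

/-- the coordinates of `B u` -/
def bP (P R C : ℝ) : ℝ := 4 * ((-(P ^ 2 + C ^ 2) * P - (P + R) * C ^ 2) / nn P R C +
  ss P R C / nn P R C ^ 2 * P)
def bR (P R C : ℝ) : ℝ := 4 * ((-(R ^ 2 + C ^ 2) * R - (P + R) * C ^ 2) / nn P R C +
  ss P R C / nn P R C ^ 2 * R)
def bC (P R C : ℝ) : ℝ := 4 * ((-(P ^ 2 + C ^ 2) * C - (P + R) * R * C) / nn P R C +
  ss P R C / nn P R C ^ 2 * C)

theorem BB_vA (P R C : ℝ) : BB 1 3 (vA P R C) = mA (bP P R C) (bR P R C) (bC P R C) := by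
  rw [BB, vA_coe, QQ_mA, s4_mA, mA_pow3]
  rw [mA, mA, mA, bP, bR, bC]
  ext i j : 1
  fin_cases i <;> fin_cases j <;> ext <;> simp <;> ring

theorem LL_vA (P R C : ℝ) : (LL (BB 1 3 (vA P R C)) : V) =
    mkV 0 (Complex.I * (2 * bP P R C : ℝ)) (Complex.I * (6 * bR P R C : ℝ))
      (Complex.I * (-2 * bC P R C : ℝ)) 0 := by
  have h1 : LL (BB 1 3 (vA P R C)) = rt (vA (bP P R C) (bR P R C) (bC P R C)) := by
    rw [BB_vA, ← vA_coe]
    rfl
  rw [h1, rt_eq, vA]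
  simp only [cP_mk, cR_mk, cC_mk, cQ_mk]
  congr 1
  · push_cast; ring
  · push_cast; ring
  · push_cast; ring
  · ring

/-- the derivative of the cubic part -/
theorem dcub (P R C p r q : ℝ) :
    ((mY p r q * mA P R C * mA P R C + mA P R C * mY p r q * mA P R C +
      mA P R C * mA P R C * mY p r q) 0 0).imJ = 0 ∧
    ((mY p r q * mA P R C * mA P R C + mA P R C * mY p r q * mA P R C +
      mA P R C * mA P R C * mY p r q) 0 0).imK =
        -p * (P ^ 2 + 2 * C ^ 2) - 2 * q * R * C - r * C ^ 2 ∧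
    ((mY p r q * mA P R C * mA P R C + mA P R C * mY p r q * mA P R C +
      mA P R C * mA P R C * mY p r q) 0 1).re = 0 ∧
    ((mY p r q * mA P R C * mA P R C + mA P R C * mY p r q * mA P R C +
      mA P R C * mA P R C * mY p r q) 0 1).imI =
        C * (P * r - R * p) + q * (P * R - P ^ 2 - R ^ 2 - C ^ 2) := by
  rw [mA, mY]
  refine ⟨?_, ?_, ?_, ?_⟩ <;>
  simp [Matrix.mul_apply, Fin.sum_univ_two, Quaternion.re_mul, Quaternion.imI_mul,
      Quaternion.imJ_mul, Quaternion.imK_mul] <;> ring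

theorem nn_pos {P R C : ℝ} (h : vA P R C ≠ 0) : 0 < nn P R C := by
  rw [← QQ_mA, ← vA_coe]
  exact Pool.Agent.helper79.FR.Sp2.QQ_pos (vA P R C).2.1 fun h0 => h (Subtype.ext h0)

/-- the derivative of `B` along `W` -/
def dB (P R C p r q : ℝ) : Mat :=
  (4 : ℝ) • ((nn P R C)⁻¹ • (mY p r q * mA P R C * mA P R C + mA P R C * mY p r q * mA P R C +
      mA P R C * mA P R C * mY p r q) + (ss P R C * ((nn P R C) ^ 2)⁻¹) • mY p r q)

theorem BB_deriv {P R C : ℝ} (h : vA P R C ≠ 0) :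
    HasDerivAt (fun t : ℝ => BB 1 3 (vA P R C + t • LL (BB 1 3 (vA P R C))))
      (dB P R C (2 * bP P R C) (6 * bR P R C) (-2 * bC P R C)) 0 := by
  have hw : ((LL (BB 1 3 (vA P R C)) : V) : Mat) =
      mY (2 * bP P R C) (6 * bR P R C) (-2 * bC P R C) := by
    rw [LL_vA, vY_coe]
  have hx := line_deriv (vA P R C : Mat) (mY (2 * bP P R C) (6 * bR P R C) (-2 * bC P R C))
  have hx0 : (vA P R C : Mat) + (0 : ℝ) • mY (2 * bP P R C) (6 * bR P R C) (-2 * bC P R C) =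
      mA P R C := by
    rw [zero_smul, add_zero, vA_coe]
  have hq : Qg retr (mA P R C) = nn P R C := by
    rw [Pool.Agent.helper79.FR.Sp2.Qg_eq, QQ_mA]
  have key := Bgen_deriv Pool.Agent.helper79.FR.Sp2.retr_mul_comm hx
    (by rw [hx0, hq]; exact (nn_pos h).ne')
    (by
      rw [hx0, Pool.Agent.helper79.FR.Sp2.retr_apply, mA, mY]
      simp [Matrix.mul_apply, Fin.sum_univ_two, Quaternion.re_mul])
    (by
      rw [hx0, mA_pow3, Pool.Agent.helper79.FR.Sp2.retr_apply, mA, mY]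
      simp [Matrix.mul_apply, Fin.sum_univ_two, Quaternion.re_mul])
  rw [hx0, hq] at key
  have e1 : (fun t : ℝ => BB 1 3 (vA P R C + t • LL (BB 1 3 (vA P R C)))) =
      fun t : ℝ => Bgen retr ((vA P R C : Mat) + t • mY (2 * bP P R C) (6 * bR P R C)
        (-2 * bC P R C)) := by
    funext t
    rw [Pool.Agent.helper79.FR.Sp2.BB_eq, Submodule.coe_add, Submodule.coe_smul, hw]
  rw [e1]
  refine key.congr_deriv ?_
  rw [dB]
  have e2 : retr (mA P R C ^ 4) = ss P R C := s4_mA P R C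
  rw [e2]

theorem star_mA (P R C : ℝ) : star (mA P R C) = -mA P R C := by
  rw [← vA_coe]
  exact (vA P R C).2.1

theorem star_mY (p r q : ℝ) : star (mY p r q) = -mY p r q := by
  rw [← vY_coe]
  exact (mkV 0 (Complex.I * p) (Complex.I * r) (Complex.I * q) 0).2.1

theorem dB_gg (P R C p r q : ℝ) : dB P R C p r q ∈ gg := by
  have h1 : mY p r q * mA P R C * mA P R C + mA P R C * mY p r q * mA P R C +
      mA P R C * mA P R C * mY p r q ∈ gg := by
    show star _ = -_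
    rw [star_add, star_add, star_mul, star_mul, star_mul, star_mul, star_mul, star_mul,
      star_mA, star_mY]
    noncomm_ring
  exact gg.smul_mem _ (gg.add_mem (gg.smul_mem _ h1) (gg.smul_mem _ (star_mY p r q)))

/-- `p'` and `q'` -/
def pp (P R C p r q : ℝ) : ℝ := 4 * ((-p * (P ^ 2 + 2 * C ^ 2) - 2 * q * R * C - r * C ^ 2) /
  nn P R C + ss P R C / nn P R C ^ 2 * p)
def qq (P R C p r q : ℝ) : ℝ := 4 * ((C * (P * r - R * p) + q * (P * R - P ^ 2 - R ^ 2 - C ^ 2)) /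
  nn P R C + ss P R C / nn P R C ^ 2 * q)

theorem dB_P (P R C p r q : ℝ) : cP (LL (dB P R C p r q)) = ((-2 * pp P R C p r q : ℝ) : ℂ) := by
  obtain ⟨h1, h2, -, -⟩ := dcub P R C p r q
  have e1 : (dB P R C p r q 0 0).imJ = 0 := by
    rw [dB, Matrix.smul_apply, Matrix.add_apply, Matrix.smul_apply, Matrix.smul_apply,
      Quaternion.imJ_smul, Quaternion.imJ_add, Quaternion.imJ_smul, Quaternion.imJ_smul, h1, mY]
    simp
  have e2 : (dB P R C p r q 0 0).imK = pp P R C p r q := by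
    rw [dB, Matrix.smul_apply, Matrix.add_apply, Matrix.smul_apply, Matrix.smul_apply,
      Quaternion.imK_smul, Quaternion.imK_add, Quaternion.imK_smul, Quaternion.imK_smul, h2, mY, pp]
    simp
    ring
  rw [LL_P (dB_gg P R C p r q), e1, e2]
  generalize pp P R C p r q = X
  apply Complex.ext <;> simp

theorem dB_C (P R C p r q : ℝ) : cC (LL (dB P R C p r q)) = ((2 * qq P R C p r q : ℝ) : ℂ) := by
  obtain ⟨-, -, h1, h2⟩ := dcub P R C p r q
  have e1 : (dB P R C p r q 0 1).re = 0 := by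
    rw [dB, Matrix.smul_apply, Matrix.add_apply, Matrix.smul_apply, Matrix.smul_apply,
      Quaternion.re_smul, Quaternion.re_add, Quaternion.re_smul, Quaternion.re_smul, h1, mY]
    simp
  have e2 : (dB P R C p r q 0 1).imI = qq P R C p r q := by
    rw [dB, Matrix.smul_apply, Matrix.add_apply, Matrix.smul_apply, Matrix.smul_apply,
      Quaternion.imI_smul, Quaternion.imI_add, Quaternion.imI_smul, Quaternion.imI_smul, h2, mY, qq]
    simp
    ring
  rw [LL_C (dB_gg P R C p r q), e1, e2]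
  generalize qq P R C p r q = X
  apply Complex.ext <;> simp

/-- the closed form at real odd points -/
theorem aW2_vA {P R C : ℝ} (h : vA P R C ≠ 0) :
    aW (PP 1 3) (h0 1 3) (BB 1 3) mq6 2 (vA P R C) =
      8 * bP P R C * bC P R C
        - 2 * C * pp P R C (2 * bP P R C) (6 * bR P R C) (-2 * bC P R C)
        + 2 * P * qq P R C (2 * bP P R C) (6 * bR P R C) (-2 * bC P R C) := by
  rw [aW2_eq h _ (BB_deriv h), dB_P, dB_C, LL_vA, vA]
  simp only [cP_mk, cC_mk]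
  simp
  ring

/-- the closed form at the equilibria -/
theorem aW2_c (c : ℝ) :
    aW (PP 1 3) (h0 1 3) (BB 1 3) mq6 2 (vA 1 (1 - 2 * c ^ 2) c) =
      512 * c ^ 3 * (1 - 3 * c ^ 2) * (1 - c ^ 2) * (3 - c ^ 2) /
        (2 - 2 * c ^ 2 + 4 * c ^ 4) ^ 2 := by
  have h : vA 1 (1 - 2 * c ^ 2) c ≠ 0 := by
    intro h
    have := congrArg cP h
    rw [vA, cP_mk, map_zero] at this
    simp at this
  have hn : nn 1 (1 - 2 * c ^ 2) c = 2 - 2 * c ^ 2 + 4 * c ^ 4 := by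
    rw [nn]; ring
  have hs : ss 1 (1 - 2 * c ^ 2) c = (2 - 2 * c ^ 2 + 4 * c ^ 4) ^ 2 - 2 * (1 - 3 * c ^ 2) ^ 2 := by
    rw [ss]; ring
  have hp : 0 < 2 - 2 * c ^ 2 + 4 * c ^ 4 := by nlinarith [sq_nonneg (c ^ 2 - 1 / 4)]
  rw [aW2_vA h, pp, qq, bP, bR, bC, hs, hn]
  obtain ⟨N, hN⟩ : ∃ N, N = 2 - 2 * c ^ 2 + 4 * c ^ 4 := ⟨_, rfl⟩
  rw [← hN] at hp ⊢
  have hN0 : N ≠ 0 := hp.ne'
  field_simp
  rw [hN]
  ring

/-- `B` vanishes at the non-regular equilibria -/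
theorem BB_c {c : ℝ} (h : c * (1 - c ^ 2) * (1 - 3 * c ^ 2) = 0) :
    BB 1 3 (vA 1 (1 - 2 * c ^ 2) c) = 0 := by
  have hn : nn 1 (1 - 2 * c ^ 2) c = 2 - 2 * c ^ 2 + 4 * c ^ 4 := by
    rw [nn]; ring
  have hs : ss 1 (1 - 2 * c ^ 2) c = (2 - 2 * c ^ 2 + 4 * c ^ 4) ^ 2 - 2 * (1 - 3 * c ^ 2) ^ 2 := by
    rw [ss]; ring
  have hp : 0 < 2 - 2 * c ^ 2 + 4 * c ^ 4 := by nlinarith [sq_nonneg (c ^ 2 - 1 / 4)]
  have e1 : bP 1 (1 - 2 * c ^ 2) c = 0 := by
    rw [bP, hs, hn]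
    obtain ⟨N, hN⟩ : ∃ N, N = 2 - 2 * c ^ 2 + 4 * c ^ 4 := ⟨_, rfl⟩
    rw [← hN] at hp ⊢
    have hN0 : N ≠ 0 := hp.ne'
    field_simp
    rw [hN]
    linear_combination (32 * c ^ 3) * h
  have e2 : bR 1 (1 - 2 * c ^ 2) c = 0 := by
    rw [bR, hs, hn]
    obtain ⟨N, hN⟩ : ∃ N, N = 2 - 2 * c ^ 2 + 4 * c ^ 4 := ⟨_, rfl⟩
    rw [← hN] at hp ⊢
    have hN0 : N ≠ 0 := hp.ne'
    field_simp
    rw [hN]
    linear_combination (32 * c) * h
  have e3 : bC 1 (1 - 2 * c ^ 2) c = 0 := by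
    rw [bC, hs, hn]
    obtain ⟨N, hN⟩ : ∃ N, N = 2 - 2 * c ^ 2 + 4 * c ^ 4 := ⟨_, rfl⟩
    rw [← hN] at hp ⊢
    have hN0 : N ≠ 0 := hp.ne'
    field_simp
    rw [hN]
    linear_combination (-16 * (1 - c ^ 2)) * h
  rw [BB_vA, e1, e2, e3, mA]
  ext i j : 1
  fin_cases i <;> fin_cases j <;> ext <;> simp

/-- `B` vanishes on the line `R` -/
theorem BB_R (R : ℂ) : BB 1 3 (mkV 0 0 R 0 0) = 0 := by
  by_cases hR : R = 0
  · subst hR
    have h0' : mkV 0 0 0 0 0 = (0 : V) := by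
      apply ext_coords <;> simp
    rw [h0']
    have h := (Pool.Agent.helper79.FR.Sp2.cas (a := 1) (b := 3) le_rfl (by norm_num)).Bhom 0
      (0 : V)
    rw [zero_smul, zero_smul] at h
    exact h
  have hn : R.re ^ 2 + R.im ^ 2 ≠ 0 := by
    intro h
    apply hR
    apply Complex.ext
    · simp; nlinarith [sq_nonneg R.re, sq_nonneg R.im]
    · simp; nlinarith [sq_nonneg R.re, sq_nonneg R.im]
  have e1 : (mkV 0 0 R 0 0 : Mat) * (mkV 0 0 R 0 0 : Mat) =
      !![0, 0; 0, qt (-(R.re ^ 2 + R.im ^ 2)) 0 0 0] := by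
    rw [mkV_coe, mkMat]
    ext i j : 1
    fin_cases i <;> fin_cases j <;> ext <;>
      simp [Matrix.mul_apply, Fin.sum_univ_two, Quaternion.re_mul, Quaternion.imI_mul,
        Quaternion.imJ_mul, Quaternion.imK_mul] <;> ring
  have e2 : (mkV 0 0 R 0 0 : Mat) ^ 3 = (-(R.re ^ 2 + R.im ^ 2)) • (mkV 0 0 R 0 0 : Mat) := by
    have : (mkV 0 0 R 0 0 : Mat) ^ 3 =
      ((mkV 0 0 R 0 0 : Mat) * (mkV 0 0 R 0 0 : Mat)) * (mkV 0 0 R 0 0 : Mat) := by noncomm_ring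
    rw [this, e1, mkV_coe, mkMat]
    ext i j : 1
    fin_cases i <;> fin_cases j <;> ext <;>
      simp [Matrix.mul_apply, Fin.sum_univ_two, Quaternion.re_mul, Quaternion.imI_mul,
        Quaternion.imJ_mul, Quaternion.imK_mul]
  have e3 : QQ (mkV 0 0 R 0 0 : Mat) (mkV 0 0 R 0 0 : Mat) = R.re ^ 2 + R.im ^ 2 := by
    rw [Pool.Agent.helper79.FR.Sp2.QQ_apply, e1, Pool.Agent.helper79.FR.Sp2.retr_apply]
    simp
  have e4 : Pool.Agent.helper79.FR.Sp2.s4 (mkV 0 0 R 0 0 : Mat) = (R.re ^ 2 + R.im ^ 2) ^ 2 := by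
    rw [Pool.Agent.helper79.FR.Sp2.s4]
    have : (mkV 0 0 R 0 0 : Mat) ^ 4 =
      ((mkV 0 0 R 0 0 : Mat) * (mkV 0 0 R 0 0 : Mat)) * ((mkV 0 0 R 0 0 : Mat) *
        (mkV 0 0 R 0 0 : Mat)) := by noncomm_ring
    rw [this, e1, Pool.Agent.helper79.FR.Sp2.retr_apply]
    simp [Matrix.mul_apply, Fin.sum_univ_two, Quaternion.re_mul]
    ring
  rw [BB, e2, e3, e4, smul_smul, ← add_smul, smul_smul]
  have : 4 * ((R.re ^ 2 + R.im ^ 2)⁻¹ * -(R.re ^ 2 + R.im ^ 2) +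
      (R.re ^ 2 + R.im ^ 2) ^ 2 * ((R.re ^ 2 + R.im ^ 2) ^ 2)⁻¹) = 0 := by
    rw [mul_inv_cancel₀ (pow_ne_zero 2 hn), mul_neg, inv_mul_cancel₀ hn]
    ring
  rw [this, zero_smul]

/-! ### the gradient -/

theorem gx_mq (u : V) : gx QQ (fun z : V => (cC z * cP z).re) u =
    mkV 0 (conj (cC u)) 0 (conj (cP u) / 2) 0 := by
  have hN := Pool.Agent.helper79.FR.Sp2.nData (a := 1) (b := 3) le_rfl (by norm_num)
  refine rep_unique hN fun w => ?_
  rw [gx_spec hN]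
  refine (mq_D1 u w).trans ?_
  rw [QQ_coords]
  simp only [c0_mk, cP_mk, cR_mk, cC_mk, cQ_mk, rip]
  simp
  ring

theorem e_mq {u : V} (hu0 : c0 u = 0) (huQ : cQ u = 0) :
    br u (gx QQ (fun z : V => (cC z * cP z).re) u) =
      mkV (cC u * cP u).im 0 0 0
        ((cP u ^ 2 - 2 * conj (cC u) ^ 2 - conj (cP u) * cR u) / 2) := by
  rw [gx_mq]
  apply ext_coords
  · rw [br_0]
    simp [imp, huQ]
    ring
  · rw [br_P]
    simp [huQ, hu0]
  · rw [br_R]
    simp [huQ]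
  · rw [br_C]
    simp [huQ, hu0]
  · rw [br_Q]
    have h2 : conj (2 : ℂ) = 2 := map_ofNat _ 2
    simp [huQ, hu0, h2]
    ring

/-! ### classification -/

theorem classify {u : V} (hu0 : c0 u = 0) (huQ : cQ u = 0)
    (he : br u (gx QQ (fun z : V => (cC z * cP z).re) u) = 0) :
    (cP u = 0 ∧ cC u = 0) ∨ ∃ (k : Matˣ) (r c : ℝ),
      k ∈ Pool.Agent.helper79.FR.Sp2.H 1 3 ∧ 0 < r ∧
      Adj k (u : Mat) = r • (mkV 0 1 (1 - 2 * (c : ℂ) ^ 2) c 0 : Mat) ∧
      r ^ 2 = Complex.normSq (cP u) ∧ Complex.normSq (cC u) = c ^ 2 * Complex.normSq (cP u) := by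
  rw [e_mq hu0 huQ] at he
  have h1 : (cC u * cP u).im = 0 := by
    have := congrArg c0 he
    rwa [c0_mk, map_zero] at this
  have h2 : cP u ^ 2 - 2 * conj (cC u) ^ 2 - conj (cP u) * cR u = 0 := by
    have := congrArg cQ he
    rw [cQ_mk, map_zero] at this
    have h := (div_eq_zero_iff.mp this)
    rcases h with h | h
    · exact h
    · norm_num at h
  by_cases hP : cP u = 0
  · left
    refine ⟨hP, ?_⟩
    rw [hP] at h2
    have h3 : conj (cC u) ^ 2 = 0 := by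
      linear_combination (-1 / 2 : ℂ) * h2 - (1 / 2 : ℂ) * (cR u) * (map_zero (starRingEnd ℂ))
    have h4 : conj (cC u) = 0 := by
      exact pow_eq_zero_iff (two_ne_zero) |>.mp h3
    have h5 := congrArg (starRingEnd ℂ) h4
    rwa [Complex.conj_conj, map_zero] at h5
  right
  -- the rotation
  have hr : 0 < ‖cP u‖ := norm_pos_iff.mpr hP
  obtain ⟨z, hz⟩ : ∃ z : ℂ, z ^ 2 = conj (cP u) / ‖cP u‖ := by
    obtain ⟨z, hz⟩ := IsAlgClosed.exists_pow_nat_eq (conj (cP u) / ‖cP u‖ : ℂ) (n := 2) (by norm_num)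
    exact ⟨z, hz⟩
  have hzn : ‖z‖ = 1 := by
    have h := congrArg norm hz
    rw [norm_pow, norm_div, Complex.norm_conj, Complex.norm_real, Real.norm_of_nonneg hr.le,
      div_self hr.ne'] at h
    have := norm_nonneg z
    nlinarith
  have hzP : z ^ 2 * cP u = (‖cP u‖ : ℂ) := by
    rw [hz]
    have h : conj (cP u) * cP u = (‖cP u‖ : ℂ) ^ 2 := by
      rw [mul_comm, Complex.mul_conj, Complex.normSq_eq_norm_sq]; push_cast; rfl
    have hr' : (‖cP u‖ : ℂ) ≠ 0 := by exact_mod_cast hr.ne'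
    field_simp
    linear_combination h
  set k := kz z hzn with hk
  have hkH := kz_mem z hzn
  have hN := Pool.Agent.helper79.FR.Sp2.nData (a := 1) (b := 3) le_rfl (by norm_num)
  have hG := Pool.Agent.helper79.FR.Sp2.grpD (a := 1) (b := 3) le_rfl (by norm_num)
  obtain ⟨a0, aP, aR, aC, aQ⟩ := act_of hkH hzn rfl u (adM (PP 1 3) k u) (adM_coe hN hG hkH u)
  set v := adM (PP 1 3) k u with hv
  have hzz : z * conj z = 1 := by
    rw [Complex.mul_conj, Complex.normSq_eq_norm_sq, hzn]; norm_num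
  have vP : cP v = (‖cP u‖ : ℂ) := by rw [aP, hzP]
  -- `C` is real
  have vC : cC v = (((cC v).re : ℝ) : ℂ) := by
    apply Complex.ext
    · simp
    · simp only [Complex.ofReal_im]
      have h5 : cC v * cP v = cC u * cP u := by
        rw [aC, aP]
        linear_combination (cC u * cP u) * (z * conj z + 1) * hzz
      have h6 := congrArg Complex.im h5
      rw [h1, vP, Complex.mul_im, Complex.ofReal_im, Complex.ofReal_re, mul_zero, zero_add] at h6
      exact (mul_eq_zero.mp h6).resolve_right hr.ne'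
  have vE : cP v ^ 2 - 2 * conj (cC v) ^ 2 - conj (cP v) * cR v = 0 := by
    rw [aP, aC, aR, map_mul, map_pow, map_mul, map_pow, Complex.conj_conj]
    linear_combination (z ^ 4) * h2 - (conj (cP u) * cR u * z ^ 4 * (z * conj z + 1)) * hzz
  refine ⟨k, ‖cP u‖, (cC v).re / ‖cP u‖, hkH, hr, ?_, ?_, ?_⟩
  · rw [← adM_coe hN hG hkH u, ← Submodule.coe_smul]
    congr 1
    have hr' : (‖cP u‖ : ℂ) ≠ 0 := by exact_mod_cast hr.ne'
    apply ext_coords
    · rw [map_smul, c0_mk, a0, hu0, smul_zero]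
    · rw [map_smul, cP_mk]
      show cP v = _
      rw [vP]; simp
    · rw [map_smul, cR_mk]
      show cR v = _
      rw [vP, vC, Complex.conj_ofReal, Complex.conj_ofReal] at vE
      rw [Complex.real_smul]
      push_cast
      field_simp
      linear_combination -vE
    · rw [map_smul, cC_mk]
      show cC v = _
      rw [Complex.real_smul]
      push_cast
      field_simp
      exact vC
    · rw [map_smul, cQ_mk, smul_zero]
      show cQ v = _
      rw [aQ, huQ, mul_zero]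
  · rw [Complex.normSq_eq_norm_sq]
  · have h7 : Complex.normSq (cC v) = Complex.normSq (cC u) := by
      rw [aC, map_mul, map_pow, Complex.normSq_conj, Complex.normSq_eq_norm_sq z, hzn]; norm_num
    rw [← h7, vC, Complex.normSq_ofReal, Complex.normSq_eq_norm_sq, Complex.ofReal_re]
    field_simp

/-! ### the theorem -/

theorem main {u b : V} (hF : Flag QQ u b) (hw : QQ (BB 1 3 u) (b : Mat) ≠ 0)
    (hu0 : c0 u = 0) (huQ : cQ u = 0)
    (he : br u (gx QQ (fun z : V => (cC z * cP z).re) u) = 0)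
    (hne : Complex.normSq (cC u) ≠ 3 * Complex.normSq (cP u)) :
    aW (PP 1 3) (h0 1 3) (BB 1 3) (fun z : V => (cC z * cP z).re) 2 u ≠ 0 := by
  have hN := Pool.Agent.helper79.FR.Sp2.nData (a := 1) (b := 3) le_rfl (by norm_num)
  have hC := Pool.Agent.helper79.FR.Sp2.cas (a := 1) (b := 3) le_rfl (by norm_num)
  have hG := Pool.Agent.helper79.FR.Sp2.grpD (a := 1) (b := 3) le_rfl (by norm_num)
  have hB : BB 1 3 u ≠ 0 := by
    intro h
    rw [h, map_zero, LinearMap.zero_apply] at hw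
    exact hw rfl
  rcases classify hu0 huQ he with ⟨hP, hC0⟩ | ⟨k, r, c, hk, hr, hA, hrP, hcC⟩
  · exfalso
    apply hB
    have h1 : u = mkV 0 0 (cR u) 0 0 := by
      apply ext_coords <;> simp [hu0, hP, hC0, huQ]
    rw [h1]
    exact BB_R _
  · have hvA : (mkV 0 1 (1 - 2 * (c : ℂ) ^ 2) c 0 : V) = vA 1 (1 - 2 * c ^ 2) c := by
      rw [vA]
      push_cast
      rfl
    have hA' : ((r • vA 1 (1 - 2 * c ^ 2) c : V) : Mat) = Adj k (u : Mat) := by
      rw [Submodule.coe_smul, ← hvA, hA]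
    have hc : c * (1 - c ^ 2) * (1 - 3 * c ^ 2) ≠ 0 := by
      intro hc
      apply hB
      have h1 := hG.B k hk u _ hA'
      rw [hC.Bhom, BB_c hc, smul_zero] at h1
      have h4 : ((k⁻¹ : Matˣ) : Mat) * Adj k (BB 1 3 u) * (k : Mat) = BB 1 3 u := by
        unfold Adj
        calc _ = (((k⁻¹ : Matˣ) : Mat) * (k : Mat)) * (BB 1 3 u) *
              (((k⁻¹ : Matˣ) : Mat) * (k : Mat)) := by noncomm_ring
          _ = _ := by rw [Units.inv_mul]; simp
      rw [← h4, ← h1]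
      simp
    have h3 : c ^ 2 ≠ 3 := by
      intro h3
      apply hne
      rw [hcC, h3]
    have h5 := aW_inv hN hC hG mq_smooth.contDiffOn mq_inv 2 k hk u _ hA'
    have h6 := aW_hom hC mq_smooth.contDiffOn mq_hom 2 r (vA 1 (1 - 2 * c ^ 2) c)
    show aW (PP 1 3) (h0 1 3) (BB 1 3) mq6 2 u ≠ 0
    rw [← h5, h6, aW2_c]
    have hp : 0 < 2 - 2 * c ^ 2 + 4 * c ^ 4 := by nlinarith [sq_nonneg (c ^ 2 - 1 / 4)]
    have c1 : c ≠ 0 := by rintro rfl; simp at hc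
    have c2 : 1 - c ^ 2 ≠ 0 := by intro h; rw [h] at hc; simp at hc
    have c3 : 1 - 3 * c ^ 2 ≠ 0 := by intro h; rw [h] at hc; simp at hc
    have c4 : 3 - c ^ 2 ≠ 0 := fun h => h3 (by linarith)
    refine mul_ne_zero (pow_ne_zero 2 hr.ne') (div_ne_zero ?_ (pow_ne_zero 2 hp.ne'))
    exact mul_ne_zero (mul_ne_zero (mul_ne_zero (mul_ne_zero (by norm_num) (pow_ne_zero 3 c1)) c3)
      c2) c4

end X6

/-- the module X6: `W² m ≠ 0` at regular odd flags over equilibria of `m`, except on the level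
`|C|² = 3 |P|²` (`12 a² = 1` in the text) -/
theorem X6 {u b : V} (hF : Flag QQ u b) (hw : QQ (BB 1 3 u) (b : Mat) ≠ 0)
    (hu0 : c0 u = 0) (huQ : cQ u = 0)
    (he : br u (gx QQ (fun z : V => (cC z * cP z).re) u) = 0)
    (hne : Complex.normSq (cC u) ≠ 3 * Complex.normSq (cP u)) :
    aW (PP 1 3) (h0 1 3) (BB 1 3) (fun z : V => (cC z * cP z).re) 2 u ≠ 0 :=
  X6.main hF hw hu0 huQ he hne

end Pool.Agent.FL.S1
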