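import Pool.Agent.FL.S1XF
import Pool.Agent.FL.S1X0
import Pool.Agent.FL.S1X3b
import Pool.Agent.FL.S1X4a
import Pool.Agent.FL.S1X1a
import Pool.Agent.FL.S1X1b
import Pool.Agent.FL.S1X4b
import Pool.Agent.FL.X6

/-!
# MP_f09395_gt, space (1), XF: existence of the explicit function
-/

set_option linter.unusedSectionVars false

noncomputable section

namespace Pool.Agent.FL.S1

open scoped ContDiff Quaternion Matrix ComplexConjugate
open Pool.Agent.Helper93.Fin Pool.Agent.helper79.FP Pool.Agent.helper79.FR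
open Pool.Agent.helper79.FR.Sp2 (Mat QQ h0 m gg hh PP BB cc)
open Pool.Agent.FL
open Pool.Agent.FL.Wall (ef EE LamE LamW)
open Filter Topology

attribute [local instance] Matrix.linftyOpNormedRing Matrix.linftyOpNormedAlgebra

namespace XF

theorem chi1_zero {t : ℝ} (h : ¬ (2 / 5 ≤ t ∧ t ≤ 3 / 5)) : chi1 t = 0 := by
  unfold chi1
  by_cases h1 : 2 / 5 ≤ t
  · have h2 : 12 - 20 * t ≤ 0 := by
      have : ¬ t ≤ 3 / 5 := fun h3 => h ⟨h1, h3⟩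
      linarith [not_le.1 this]
    rw [Real.smoothTransition.zero_of_nonpos h2, mul_zero]
  · have h2 : 20 * t - 8 ≤ 0 := by linarith [not_le.1 h1]
    rw [Real.smoothTransition.zero_of_nonpos h2, zero_mul]

theorem chi2_zero {u : V} (h : ¬ Act2 u) : chi2 u = 0 := by
  unfold chi2
  by_cases h1 : 2 / 5 ≤ qx u ∧ qx u ≤ 3 / 5
  · have h2 : -2 * cc 1 3 u ≤ 0 := by
      have : ¬ cc 1 3 u ≤ 0 := fun h3 => h ⟨h1.1, h1.2, h3⟩
      linarith [not_le.1 this]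
    rw [Real.smoothTransition.zero_of_nonpos h2, mul_zero]
  · have := chi1_zero h1
    unfold qx at this
    rw [this, zero_mul]

theorem vE_odd {ε κ : ℝ} {u : V} (hu : Od u) (h : ¬ Act2 u) : vE ε κ u = -ε * mq u := by
  unfold vE vK Kq
  rw [chi2_zero h, hu.1, hu.2]
  simp

theorem XPt_of {u : V} (hu : u ≠ 0) (h : gX u = 0) : XPt u := by
  obtain ⟨hod, -, -, -⟩ := gX_zero hu h
  rcases gX_zero' hu h with ⟨_, hP, hC⟩ | ⟨_, z, hz, p, t, hp, ht, h1⟩ | ⟨_, z, hz, p, t, hp, ht, h1⟩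
  · left
    exact ⟨hod.1, hP, hC, hod.2⟩
  · right
    exact ⟨z, hz, p, t, hp, Or.inr (Or.inr ht), h1⟩
  · right
    refine ⟨z, hz, p, t, hp, ?_, h1⟩
    rcases ht with ht | ht
    · exact Or.inl ht
    · exact Or.inr (Or.inl ht)

theorem vE_ev_wallB {ε κ : ℝ} {u : V} (hu : u ≠ 0) (hc : cc 1 3 u = 1) :
    ∀ᶠ z in 𝓝 u, Od z → vE ε κ z = -ε * mq z := by
  have c1 : ContinuousAt (cc 1 3) u := contOn_cc.continuousAt (isOpen_compl_singleton.mem_nhds hu)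
  have c2 : ∀ᶠ z in 𝓝 u, 0 < cc 1 3 z := c1.eventually_const_lt (by rw [hc]; norm_num)
  filter_upwards [c2] with z hz hzo
  exact vE_odd hzo fun hA => absurd hA.2.2 (not_le.2 hz)

/-- at the points `Zp` the function `α` vanishes -/
theorem al_R {ε κ : ℝ} {u b : V} (hF : Fl u b) (k0 : c0 u = 0) (hP : cP u = 0) (hC : cC u = 0)
    (hQ : cQ u = 0) : alf (vE ε κ) u b = 0 := by
  have hu := flag_ne hF
  have hc := cc_R k0 hQ hP hC hu
  have h1 := gd_odd (vE_Ph ε κ) hu ⟨k0, hQ⟩ (vE_ev_wallB (ε := ε) (κ := κ) hu hc)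
  have h2 : g1 u = 0 := by
    unfold g1
    rw [hP, hC]
    refine ext_coords ?_ ?_ ?_ ?_ ?_ <;> simp
  rw [h2, smul_zero] at h1
  have h3 : D1 (vE ε κ) u (PP 1 3 ⁅h0 1 3, (b : Mat)⁆) =
      QQ (gd (vE ε κ) u : Mat) (PP 1 3 ⁅h0 1 3, (b : Mat)⁆ : Mat) := (gx_spec nD u _).symm
  show D1 (vE ε κ) u (PP 1 3 ⁅h0 1 3, (b : Mat)⁆) = 0
  rw [h3, h1]
  simp

theorem wall_cc {u b : V} (h : Wl u b) : cc 1 3 u = 1 ∨ cc 1 3 u = -1 := by
  have h1 := cD.cw u b h.1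
  rw [h.2] at h1
  have h2 : (cc 1 3 u - 1) * (cc 1 3 u + 1) = 0 := by linarith
  rcases mul_eq_zero.1 h2 with h3 | h3
  · left; linarith
  · right; linarith

theorem xin {ε κ : ℝ} (hε : 0 < ε) (hε1 : ε ≤ 1 / 2)
    (h4a : ∀ u : V, Od u → nr u = 1 → cc 1 3 u = -1 → eu (vE ε κ) u = 0 →
      (∃ z : ℂ, ‖z‖ = 1 ∧ ∃ p t : ℝ, 0 < p ∧ (t = 1 ∨ t = -1) ∧ Act.rz z u = uT p t) ∨
      (∃ z : ℂ, ‖z‖ = 1 ∧ ∃ a : ℝ, 0 < a ∧ 2 * a ^ 2 + 2 * (2 * κ * a ^ 3) ^ 2 = 1 ∧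
        Act.rz z u = e2p κ a))
    (h4b : ∀ u b : V, Fl u b →
      (∃ z : ℂ, ‖z‖ = 1 ∧ ∃ a : ℝ, 0 < a ∧ 2 * a ^ 2 + 2 * (2 * κ * a ^ 3) ^ 2 = 1 ∧
        Act.rz z u = e2p κ a) →
      alf (vE ε κ) u b = 0 → 0 < T3 (vE ε κ) u b ∧ 0 < alf' (vE ε κ) u b)
    (h1a : ∀ u b : V, Fl u b → cP u = 0 → cR u = 0 → cC u = 0 →
      (c0 u = 0 ∨ 10 * c0 u ^ 2 = 5 / 8) → 0 < T3 (vE ε κ) u b) : XIn (vE ε κ) (-ε) := by
  refine ⟨vE_Ph ε κ, neg_ne_zero.2 hε.ne', ?_, ?_, ?_, ?_, ?_⟩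
  · rintro u b hw (⟨a, b', c, d⟩ | ⟨a, b', c, d⟩ | ⟨a, b', c, d⟩ | ⟨a, b', c, d⟩)
    · exact h1a u b hw.1 b' c d (Or.inl a)
    · exact h1a u b hw.1 a b' c (Or.inr d)
    · exact X1b (by rw [abs_of_pos hε]; exact hε1) hw.1 a b' c d
    · exact X3_vE hε (by linarith) κ hw.1 (Or.inl ⟨a, b', c, d⟩) (al_R hw.1 a b' c d)
  · intro u b hw hg ha
    exact X3_vE hε (by linarith) κ hw.1 (XPt_of (flag_ne hw.1) hg) ha
  · intro u hod _ hA
    exact vE_odd hod hA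
  · intro u b hw hod he
    have hu := flag_ne hw.1
    rcases wall_cc hw with hc | hc
    · left
      have hbr := eu_odd (vE_Ph ε κ) (neg_ne_zero.2 hε.ne') hu hod
        (vE_ev_wallB (ε := ε) (κ := κ) hu hc) he
      rcases equil_wall hod.1 hod.2 hu hbr (Or.inl hc) with ⟨_, hP, hC⟩ |
        ⟨_, z, hz, p, t, hp, ht, h1⟩ | ⟨hc', _⟩
      · exact gX_R hod.1 hod.2 hP hC hu
      · rw [← gX_rz hz u, h1, gX_uT3 hp.ne' ht]
      · rw [hc] at hc'; norm_num at hc'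
    · rcases h4a u hod hw.1.1 hc he with ⟨z, hz, p, t, hp, ht, h1⟩ | h1
      · left
        rw [← gX_rz hz u, h1, gX_uT1 hp.ne' ht]
      · right
        intro b' hw' ha
        have := h4b u b' hw'.1 h1 ha
        exact ⟨this.1, fun _ => this.2⟩
  · intro u b hF hw hod he hne
    exact X6 hF hw hod.1 hod.2 (by rw [X6.gx_mq]; exact he) hne

end XF

open XF in
/-- **the explicit function** (P1)-(P5) -/
theorem expl : ∃ (ve ρ : V → ℝ) (κ : ℝ), EXPL ve ρ κ := by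
  obtain ⟨κa, hκa, h4a⟩ := X4a
  obtain ⟨κb, hκb, h4b⟩ := X4b
  have hκ : 0 < min κa κb := lt_min hκa hκb
  have hε : (0 : ℝ) < 1 / 2 := by norm_num
  have hE : XIn (vE (1 / 2) (min κa κb)) (-(1 / 2)) := by
    refine xin hε le_rfl ?_ ?_ ?_
    · exact h4a _ (by rw [abs_of_pos hκ]; exact min_le_left _ _) _ hε.ne'
    · exact h4b _ hκ (min_le_right _ _) _ hε
    · intro u b hF h1 h2 h3 h4
      exact X1a hε (by norm_num) hF ⟨h1, h2, h3⟩ h4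
  obtain ⟨ρ, hρ⟩ := hE.expl
  exact ⟨_, ρ, _, hρ⟩

end Pool.Agent.FL.S1
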