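import Pool.Agent.FL.AB8
import Pool.Agent.FL.Par
import Pool.Agent.helper75.FL.SB

/-!
# MP_f09395_gt, space (1): the levels (L1), (L2), (L3)

`v₂ = v + τ k(c) n*`, `k(x) = x (s² - x²) / (2 s²)`, `n* = W q · W² q / |u|²`.
-/

set_option linter.unusedSectionVars false

noncomputable section

namespace Pool.Agent.FL.Lev

open scoped ContDiff
open Pool.Agent.Helper93.Fin Pool.Agent.helper79.FP Pool.Agent.helper79.FR
open Pool.Agent.helper75.FL
open Filter Topology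

variable {𝔸 : Type*} [NormedRing 𝔸] [NormedAlgebra ℝ 𝔸] [FiniteDimensional ℝ 𝔸]
variable {g h m : Submodule ℝ 𝔸} {Q : 𝔸 →ₗ[ℝ] 𝔸 →ₗ[ℝ] ℝ} {P : 𝔸 →L[ℝ] m} {v n q : m → ℝ}
variable {h0 : 𝔸} {B : m → 𝔸} {c : m → ℝ} {H : Subgroup 𝔸ˣ} {u b : m}

/-! ### regular flags with `e = 0` -/

theorem ee_mem (hN : NData g h m Q P) (hv : PhiN h m P v) (hu : u ≠ 0) :
    (ee Q P v u : 𝔸) = ⁅(u : 𝔸), (gx Q v u : 𝔸)⁆ :=
  e_mem hN hv hu (gx_spec hN u)

/-- at a regular flag with `e = 0` the gradient commutes with `b` -/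
theorem comm_of_ee (hN : NData g h m Q P) (hC : Cas g h m Q P h0 B c) (hv : PhiN h m P v)
    (hF : Flag Q u b) (hw : Q (B u) b ≠ 0) (he : ee Q P v u = 0) :
    ⁅(b : 𝔸), (gx Q v u : 𝔸)⁆ = 0 := by
  have hu := hF.ne hN
  have h1 : ⁅(u : 𝔸), (gx Q v u : 𝔸)⁆ = 0 := by
    rw [← ee_mem hN hv hu, he, Submodule.coe_zero]
  have h2 := hC.Bequi u hu (gx Q v u) (mg hN _) (by rw [h1]; exact m.zero_mem)
  rw [h1, map_zero, map_zero] at h2
  have h3 : ⁅B u, (gx Q v u : 𝔸)⁆ = (Q (B u) b) • ⁅(b : 𝔸), (gx Q v u : 𝔸)⁆ := by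
    conv_lhs => rw [hC.flat u b hF]
    rw [smul_lie']
  rw [h3] at h2
  exact (smul_eq_zero.1 h2.symm).resolve_left hw

theorem al_of_ee (hN : NData g h m Q P) (hC : Cas g h m Q P h0 B c) (hv : PhiN h m P v)
    (hF : Flag Q u b) (hw : Q (B u) b ≠ 0) (he : ee Q P v u = 0) : al P h0 v u b = 0 := by
  rw [al_eq hN hC, comm_of_ee hN hC hv hF hw he, map_zero]

/-! ### compactness -/

theorem exists_level (hC : Cas g h m Q P h0 B c) {K : Set (m × m)} (hK : IsCompact K)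
    (hKF : ∀ p ∈ K, Flag Q p.1 p.2) (hne : ∀ p ∈ K, p.1 ≠ 0)
    (hw : ∀ p ∈ K, Q (B p.1) p.2 ≠ 0) : ∃ s : ℝ, s < 1 ∧ ∀ p ∈ K, |c p.1| < s := by
  rcases K.eq_empty_or_nonempty with h | h
  · exact ⟨0, one_pos, by rw [h]; simp⟩
  · obtain ⟨p, hp, hmax⟩ := hK.exists_isMaxOn h (cont_fst hC.csm hne).abs
    have h1 : |c p.1| < 1 := by
      have h2 := hC.cw p.1 p.2 (hKF p hp)
      have h3 : 0 < Q (B p.1) p.2 ^ 2 := pow_two_pos_of_ne_zero (hw p hp)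
      exact abs_lt.2 ⟨by nlinarith, by nlinarith⟩
    refine ⟨(|c p.1| + 1) / 2, by linarith, fun x hx => ?_⟩
    have h4 : |c x.1| ≤ |c p.1| := hmax hx
    linarith

theorem closed_sub {K : Set (m × m)} (hK : IsCompact K) {N : Type*} [TopologicalSpace N]
    {f : m × m → N} (hf : ContinuousOn f K) {T : Set N} (hT : IsClosed T) :
    IsCompact (K ∩ f ⁻¹' T) :=
  hK.of_isClosed_subset (hf.preimage_isClosed_of_isClosed hK.isClosed hT) Set.inter_subset_left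

/-- (L1): the levels can be chosen so close to the walls that `T3 > 0` up to the levels -/
theorem level1 (hN : NData g h m Q P) (hC : Cas g h m Q P h0 B c) (hv : PhiN h m P v)
    (hT : ∀ u b : m, Flag Q u b → Q (B u) b = 0 → al P h0 v u b = 0 → 0 < T3F Q P v u b) :
    ∃ s : ℝ, s < 1 ∧ ∀ u b : m, Flag Q u b → s ≤ |c u| → al P h0 v u b = 0 →
      0 < T3F Q P v u b := by
  have hne : ∀ p ∈ (FlagSet Q : Set (m × m)), p.1 ≠ 0 := fun p hp => flag_ne hN hp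
  have c1 := closed_sub (flagSet_compact hN) (al_cont (P := P) (h0 := h0) hv.smooth hne)
    (isClosed_singleton (x := (0 : ℝ)))
  have c2 := closed_sub c1 (T3F_cont hN hv.smooth fun p hp => hne p hp.1)
    (isClosed_Iic (a := (0 : ℝ)))
  obtain ⟨s, hs, h⟩ := exists_level hC c2 (fun p hp => hp.1.1) (fun p hp => hne p hp.1.1)
    fun p hp hw => absurd (hT p.1 p.2 hp.1.1 hw hp.1.2) (not_lt.2 hp.2)
  refine ⟨s, hs, fun u b hF hc ha => ?_⟩
  by_contra hcon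
  exact absurd (h (u, b) ⟨⟨hF, ha⟩, not_lt.1 hcon⟩) (not_lt.2 hc)

/-- (L2) -/
theorem level2 (hN : NData g h m Q P) (hC : Cas g h m Q P h0 B c) (hv : PhiN h m P v)
    (V : Submodule ℝ m) {O : Set m} (hO : IsOpen O)
    (hE : ∀ u b : m, Flag Q u b → Q (B u) b = 0 → u ∈ V → b ∈ V → al P h0 v u b = 0 →
      ee Q P v u = 0 → u ∈ O ∨ 0 < al' P h0 v u b) :
    ∃ s : ℝ, s < 1 ∧ ∀ u b : m, Flag Q u b → s ≤ |c u| → u ∈ V → b ∈ V →
      al P h0 v u b = 0 → ee Q P v u = 0 → u ∈ O ∨ 0 < al' P h0 v u b := by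
  have hVc : IsClosed (V : Set m) := V.closed_of_finiteDimensional
  have hne : ∀ p ∈ (FlagSet Q : Set (m × m)), p.1 ≠ 0 := fun p hp => flag_ne hN hp
  have c1 := closed_sub (flagSet_compact hN) (al_cont (P := P) (h0 := h0) hv.smooth hne)
    (isClosed_singleton (x := (0 : ℝ)))
  have c2 := closed_sub c1 (al'_cont (P := P) (h0 := h0) hv.smooth fun p hp => hne p hp.1)
    (isClosed_Iic (a := (0 : ℝ)))
  have c3 := closed_sub c2 continuous_fst.continuousOn hVc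
  have c4 := closed_sub c3 continuous_snd.continuousOn hVc
  have c5 := closed_sub c4 continuous_fst.continuousOn hO.isClosed_compl
  have he : ContinuousOn (fun p : m × m => ee Q P v p.1)
      (FlagSet Q : Set (m × m)) :=
    (ee_smooth hN hv.smooth).continuousOn.comp continuous_fst.continuousOn
      fun p hp => hne p hp
  have c6 := closed_sub c5 (he.mono fun p hp => hp.1.1.1.1.1)
    (isClosed_singleton (x := (0 : m)))
  obtain ⟨s, hs, h⟩ := exists_level hC c6 (fun p hp => hp.1.1.1.1.1.1)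
    (fun p hp => hne p hp.1.1.1.1.1.1) fun p hp hw => by
      rcases hE p.1 p.2 hp.1.1.1.1.1.1 hw hp.1.1.1.2 hp.1.1.2 hp.1.1.1.1.1.2 hp.2 with h1 | h1
      · exact hp.1.2 h1
      · exact absurd h1 (not_lt.2 hp.1.1.1.1.2)
  refine ⟨s, hs, fun u b hF hc hu hb ha he => ?_⟩
  by_contra hcon
  push Not at hcon
  exact absurd (h (u, b) ⟨⟨⟨⟨⟨⟨hF, ha⟩, hcon.2⟩, hu⟩, hb⟩, hcon.1⟩, he⟩) (not_lt.2 hc)

/-! ### derivatives along a subspace -/

theorem line_eq {f1 f2 : m → ℝ} (hf1 : DifferentiableAt ℝ f1 u) (hf2 : DifferentiableAt ℝ f2 u)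
    (y : m) (h : ∀ᶠ t in 𝓝 (0 : ℝ), f1 (u + t • y) = f2 (u + t • y)) :
    fderiv ℝ f1 u y = fderiv ℝ f2 u y := by
  have hl : HasDerivAt (fun t : ℝ => u + t • y) y 0 := by
    simpa using ((hasDerivAt_id (0 : ℝ)).smul_const y).const_add u
  have hz : u + (0 : ℝ) • y = u := by rw [zero_smul, add_zero]
  have d : ∀ {f : m → ℝ}, DifferentiableAt ℝ f u →
      HasDerivAt (fun t : ℝ => f (u + t • y)) (fderiv ℝ f u y) 0 := by
    intro f hf
    have h1 : DifferentiableAt ℝ f (u + (0 : ℝ) • y) := by rw [hz]; exact hf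
    have h2 := h1.hasFDerivAt.comp_hasDerivAt (0 : ℝ) hl
    rw [hz] at h2
    exact h2
  exact ((d hf1).congr_of_eventuallyEq (h.mono fun t ht => ht.symm)).unique (d hf2)

theorem line_mem {V : Submodule ℝ m} {O : Set m} (hO : IsOpen O) (hu : u ∈ V) (huO : u ∈ O)
    (hu0 : u ≠ 0) {y : m} (hy : y ∈ V) :
    ∀ᶠ t in 𝓝 (0 : ℝ), u + t • y ∈ V ∧ u + t • y ∈ O ∧ u + t • y ≠ 0 := by
  have hc : Continuous fun t : ℝ => u + t • y := by fun_prop
  have hz : u + (0 : ℝ) • y = u := by rw [zero_smul, add_zero]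
  have h1 : ∀ᶠ t in 𝓝 (0 : ℝ), u + t • y ∈ O :=
    hc.continuousAt.eventually_mem (hO.mem_nhds (by rw [hz]; exact huO))
  have h2 : ∀ᶠ t in 𝓝 (0 : ℝ), u + t • y ≠ 0 :=
    hc.continuousAt.eventually_mem (isOpen_compl_singleton.mem_nhds (by rw [hz]; exact hu0))
  filter_upwards [h1, h2] with t h3 h4
  exact ⟨V.add_mem hu (V.smul_mem _ hy), h3, h4⟩

theorem D1_V (hv : ContDiffOn ℝ ∞ v {0}ᶜ) (hq : ContDiffOn ℝ ∞ q {0}ᶜ) {V : Submodule ℝ m}
    {O : Set m} (hO : IsOpen O) {κ : ℝ} (hP3 : ∀ u ∈ V, u ∈ O → v u = κ * q u) (hu : u ∈ V)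
    (huO : u ∈ O) (hu0 : u ≠ 0) {y : m} (hy : y ∈ V) : D1 v u y = κ * D1 q u y := by
  have h1 : D1 (fun z => κ * q z) u y = κ * D1 q u y := fd_cmul κ hq hu0 y
  rw [← h1]
  exact line_eq (diffAt_ne hv hu0) (diffAt_ne (contDiffOn_const.mul hq) hu0) y
    ((line_mem hO hu huO hu0 hy).mono fun t ht => hP3 _ ht.1 ht.2.1)

theorem D2_V (hv : ContDiffOn ℝ ∞ v {0}ᶜ) (hq : ContDiffOn ℝ ∞ q {0}ᶜ) {V : Submodule ℝ m}
    {O : Set m} (hO : IsOpen O) {κ : ℝ} (hP3 : ∀ u ∈ V, u ∈ O → v u = κ * q u) (hu : u ∈ V)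
    (huO : u ∈ O) (hu0 : u ≠ 0) {a y : m} (ha : a ∈ V) (hy : y ∈ V) :
    D2 v u a y = κ * D2 q u a y := by
  have h1 : fderiv ℝ (fun z => κ * D1 q z a) u y = κ * D2 q u a y :=
    fd_cmul κ (D1_smooth hq a) hu0 y
  rw [← h1]
  exact line_eq (diffAt_ne (D1_smooth hv a) hu0)
    (diffAt_ne (contDiffOn_const.mul (D1_smooth hq a)) hu0) y
    ((line_mem hO hu huO hu0 hy).mono fun t ht => D1_V hv hq hO hP3 ht.1 ht.2.1 ht.2.2 ha)

/-! ### the correction -/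

/-- `n* = W q · W² q / |u|²` -/
def nst (P : 𝔸 →L[ℝ] m) (Q : 𝔸 →ₗ[ℝ] 𝔸 →ₗ[ℝ] ℝ) (h0 : 𝔸) (B : m → 𝔸) (q : m → ℝ) (u : m) : ℝ :=
  ((BN m Q u u)⁻¹ * aW P h0 B q 2 u) * aW P h0 B q 1 u

theorem nst_phi (hN : NData g h m Q P) (hC : Cas g h m Q P h0 B c) (hG : GrpD H h m Q h0 B c)
    (hq : PhiN h m P q) (hqH : InvH H q) :
    PhiN h m P (nst P Q h0 B q) ∧ InvH H (nst P Q h0 B q) := by
  obtain ⟨h1, h1'⟩ := AB8_F0_phi hN hC hG hq hqH 1
  obtain ⟨h2, h2'⟩ := AB8_F0_phi hN hC hG hq hqH 2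
  exact phiN_mul hN hG (Inv0.of_phiN hN hG h2 h2') h1 h1'

theorem nst_al (hN : NData g h m Q P) (hC : Cas g h m Q P h0 B c)
    (hq : ContDiffOn ℝ ∞ q {0}ᶜ) (hF : Flag Q u b) (ha : al P h0 q u b = 0) :
    Q (B u) b * al P h0 (nst P Q h0 B q) u b = aW P h0 B q 2 u ^ 2 := by
  have hu := hF.ne hN
  have h1 : aW P h0 B q 1 u = 0 := by
    show D1 q u (Wt P h0 B u) = 0
    rw [flag_D1W hN hC hF, ha, mul_zero]
  have h2 : BN m Q u u = 1 := by rw [BN_apply]; exact hF.1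
  rw [← flag_D1W hN hC hF]
  have h3 : D1 (nst P Q h0 B q) u (Wt P h0 B u) = ((BN m Q u u)⁻¹ * aW P h0 B q 2 u) *
      D1 (aW P h0 B q 1) u (Wt P h0 B u) + aW P h0 B q 1 u *
      D1 (fun z => (BN m Q z z)⁻¹ * aW P h0 B q 2 z) u (Wt P h0 B u) :=
    D1_mul ((BNinv_smooth hN).mul (aW_smooth hC hq 2)) (aW_smooth hC hq 1) hu _
  rw [h3, h1, h2, zero_mul, add_zero, inv_one, one_mul]
  show aW P h0 B q 2 u * aW P h0 B q 2 u = _
  ring

/-- the profile -/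
def kk (s τ x : ℝ) : ℝ := τ * (x * (s ^ 2 - x ^ 2) / (2 * s ^ 2))

theorem kk_smooth (s τ : ℝ) : ContDiff ℝ ∞ (kk s τ) := by
  unfold kk
  fun_prop

theorem kk_zero {s x : ℝ} (τ : ℝ) (hx : |x| = s) : kk s τ x = 0 := by
  have : x ^ 2 = s ^ 2 := by rw [← hx, sq_abs]
  unfold kk
  rw [this]; ring

theorem kk_deriv {s x : ℝ} (hs : 0 < s) (τ : ℝ) (hx : |x| = s) : deriv (kk s τ) x = -τ := by
  have hx2 : x ^ 2 = s ^ 2 := by rw [← hx, sq_abs]
  have h1 : HasDerivAt (fun y : ℝ => τ * (y * (s ^ 2 - y ^ 2) / (2 * s ^ 2)))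
      (τ * ((s ^ 2 - x ^ 2 + -(x * (2 * x))) / (2 * s ^ 2))) x := by
    have := ((((hasDerivAt_id x).mul ((hasDerivAt_const x (s ^ 2)).sub
      ((hasDerivAt_id x).pow 2))).div_const (2 * s ^ 2)).const_mul τ)
    simpa using this
  have h0 : deriv (kk s τ) x = τ * ((s ^ 2 - x ^ 2 + -(x * (2 * x))) / (2 * s ^ 2)) := h1.deriv
  rw [h0, hx2]
  have h2 : -(x * (2 * x)) = -2 * s ^ 2 := by rw [← hx2]; ring
  rw [h2]
  field_simp
  ring

/-- the corrected function -/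
def v2 (c v n : m → ℝ) (s τ : ℝ) : m → ℝ := ccmb c (fun _ => 1) (kk s τ) v n

theorem v2_phi (hN : NData g h m Q P) (hC : Cas g h m Q P h0 B c) (hG : GrpD H h m Q h0 B c)
    (hv : PhiN h m P v) (hvH : InvH H v) (hn : PhiN h m P n) (hnH : InvH H n) (s τ : ℝ) :
    PhiN h m P (v2 c v n s τ) ∧ InvH H (v2 c v n s τ) :=
  ccmb_PhiN hN hC hG contDiff_const (kk_smooth s τ) hv hvH hn hnH

theorem v2_ee (hN : NData g h m Q P) (hC : Cas g h m Q P h0 B c) (hv : PhiN h m P v)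
    (hn : PhiN h m P n) {s : ℝ} (τ : ℝ) (hF : Flag Q u b) (hs : |c u| = s) :
    ee Q P (v2 c v n s τ) u = ee Q P v u := by
  unfold v2
  rw [ccmb_ee hN hC contDiff_const (kk_smooth s τ) hv.smooth hn.smooth hF, kk_zero τ hs]
  congr 1
  exact kcmb_one v n

theorem v2_al' (hN : NData g h m Q P) (hC : Cas g h m Q P h0 B c) (hv : PhiN h m P v)
    (hn : PhiN h m P n) {s : ℝ} (hs0 : 0 < s) (τ : ℝ) (hF : Flag Q u b) (hs : |c u| = s) :
    al' P h0 (v2 c v n s τ) u b = al' P h0 v u b + 4 * τ * (Q (B u) b * al P h0 n u b) := by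
  have hu := hF.ne hN
  have h3 : al' P h0 (v2 c v n s τ) u b = al' P h0 (fun z => (1 : ℝ) * v z) u b +
      al' P h0 (fun z => kk s τ (c z) * n z) u b :=
    D2_sum (contDiffOn_const.mul hv.smooth)
      ((comp_smooth (kk_smooth s τ) hC.csm).mul hn.smooth) hu _ _
  have h4 : (fun z => (1 : ℝ) * v z) = v := by funext z; rw [one_mul]
  rw [h3, h4, cas_al' hN hC (kk_smooth s τ) hn.smooth hF, kk_zero τ hs, kk_deriv hs0 τ hs]
  ring

theorem v2_par (hC : Cas g h m Q P h0 B c) (hv : ContDiffOn ℝ ∞ v {0}ᶜ)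
    (hn : ContDiffOn ℝ ∞ n {0}ᶜ) (s : ℝ) :
    ContDiffOn ℝ ∞ (fun z : ℝ × m => v2 c v n s z.1 z.2) (parU ℝ m) := by
  have h1 : ∀ {f : m → ℝ}, ContDiffOn ℝ ∞ f {0}ᶜ →
      ContDiffOn ℝ ∞ (fun z : ℝ × m => f z.2) (parU ℝ m) := fun hf =>
    hf.comp contDiff_snd.contDiffOn fun _ hz => hz.2
  have h2 : ContDiffOn ℝ ∞ (fun z : ℝ × m => (1 : ℝ) * v z.2 +
      (z.1 * kk s 1 (c z.2)) * n z.2) (parU ℝ m) :=
    (contDiffOn_const.mul (h1 hv)).add ((contDiff_fst.contDiffOn.mul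
      (h1 (comp_smooth (kk_smooth s 1) hC.csm))).mul (h1 hn))
  refine h2.congr fun z _ => ?_
  show (1 : ℝ) * v z.2 + kk s z.1 (c z.2) * n z.2 = _
  unfold kk
  ring

theorem v2_zero (c v n : m → ℝ) (s : ℝ) : v2 c v n s 0 = v := by
  funext z
  unfold v2 ccmb kk
  ring

/-- **(L1), (L2), (L3)** -/
theorem lev1 (hN : NData g h m Q P) (hC : Cas g h m Q P h0 B c) (hG : GrpD H h m Q h0 B c)
    (hv : PhiN h m P v) (hvH : InvH H v) (V : Submodule ℝ m)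
    (hVh : ∀ b ∈ V, P ⁅h0, (b : 𝔸)⁆ ∈ V)
    (hVb : ∀ u b : m, Flag Q u b → Q (B u) b ≠ 0 → u ∈ V → b ∈ V)
    (hq : PhiN h m P q) (hqH : InvH H q)
    (hq' : ∀ u b : m, Flag Q u b → u ∈ V → b ∈ V → al' P h0 q u b = 0)
    {κ : ℝ} (hκ : κ ≠ 0) {O : Set m} (hO : IsOpen O)
    (hT : ∀ u b : m, Flag Q u b → Q (B u) b = 0 → al P h0 v u b = 0 → 0 < T3F Q P v u b)
    (hE : ∀ u b : m, Flag Q u b → Q (B u) b = 0 → u ∈ V → b ∈ V → al P h0 v u b = 0 →
      ee Q P v u = 0 → u ∈ O ∨ 0 < al' P h0 v u b)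
    (hP3 : ∀ u ∈ V, u ∈ O → v u = κ * q u)
    (hP5 : ∀ u b : m, Flag Q u b → Q (B u) b ≠ 0 → u ∈ V → u ∈ O → ee Q P v u = 0 →
      aW P h0 B q 2 u ≠ 0) :
    ∃ s : ℝ, 0 < s ∧ s < 1 ∧ ∃ v' : m → ℝ, PhiN h m P v' ∧ InvH H v' ∧
      (∀ u b : m, Flag Q u b → s ≤ |c u| → al P h0 v' u b = 0 → 0 < T3F Q P v' u b) ∧
      ∀ u b : m, Flag Q u b → |c u| = s → u ∈ V → ee Q P v' u = 0 →
        0 < al' P h0 v' u b := by
  obtain ⟨s1, hs1, hL1⟩ := level1 hN hC hv hT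
  obtain ⟨s2, hs2, hL2⟩ := level2 hN hC hv V hO hE
  obtain ⟨s, hs⟩ : ∃ s, s = max (max s1 s2) (1 / 2) := ⟨_, rfl⟩
  have hs1' : s1 ≤ s := by rw [hs]; exact (le_max_left _ _).trans (le_max_left _ _)
  have hs2' : s2 ≤ s := by rw [hs]; exact (le_max_right _ _).trans (le_max_left _ _)
  have hs0 : 0 < s := lt_of_lt_of_le (by norm_num) (hs ▸ le_max_right _ _ : (1 / 2 : ℝ) ≤ s)
  have hslt : s < 1 := by rw [hs]; exact max_lt (max_lt hs1 hs2) (by norm_num)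
  obtain ⟨hn, hnH⟩ := nst_phi hN hC hG hq hqH
  have hpar := v2_par hC hv.smooth hn.smooth s
  have hne : ∀ p ∈ (FlagSet Q : Set (m × m)), p.1 ≠ 0 := fun p hp => flag_ne hN hp
  have hVc : IsClosed (V : Set m) := V.closed_of_finiteDimensional
  -- the compact sets
  have habs : ContinuousOn (fun p : m × m => |c p.1|) (FlagSet Q : Set (m × m)) :=
    (cont_fst hC.csm hne).abs
  have k1 := closed_sub (flagSet_compact hN) habs (isClosed_Ici (a := s))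
  have k2 := closed_sub (flagSet_compact hN) habs (isClosed_singleton (x := s))
  have k3 := closed_sub k2 continuous_fst.continuousOn hVc
  have k4 := closed_sub k3 continuous_fst.continuousOn hO.isClosed_compl
  have he : ContinuousOn (fun p : m × m => ee Q P v p.1) (FlagSet Q : Set (m × m)) :=
    (ee_smooth hN hv.smooth).continuousOn.comp continuous_fst.continuousOn
      fun p hp => hne p hp
  have k5 := closed_sub k4 (he.mono fun p hp => hp.1.1.1) (isClosed_singleton (x := (0 : m)))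
  have hreg : ∀ u b : m, Flag Q u b → |c u| = s → Q (B u) b ≠ 0 := by
    intro u b hF hc hw
    have h1 := hC.cw u b hF
    rw [hw, ← sq_abs (c u), hc] at h1
    nlinarith
  have e1 := par_T3F_open (h0 := h0) hN hpar k1 (fun p hp => hne p hp.1) (p₀ := (0 : ℝ))
    (fun p hp ha => by
      simp only [v2_zero] at ha ⊢
      exact hL1 p.1 p.2 hp.1 (hs1'.trans hp.2) ha)
  have e2 := par_open (κ := Unit) k5 (p₀ := (0 : ℝ)) (A := fun _ => 0)
    (T := fun _ z => al' P h0 (fun w => v2 c v (nst P Q h0 B q) s z.1 w) z.2.1 z.2.2)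
    continuousOn_const (fun _ => par_al'_cont hpar fun p hp => hne p hp.1.1.1.1)
    (fun p hp _ => by
      refine ⟨(), ?_⟩
      simp only [v2_zero]
      have hF : Flag Q p.1 p.2 := hp.1.1.1.1
      have hcs : |c p.1| = s := hp.1.1.1.2
      have hw := hreg _ _ hF hcs
      have hu : p.1 ∈ V := hp.1.1.2
      have hbV := hVb _ _ hF hw hu
      have hee : ee Q P v p.1 = 0 := hp.2
      exact (hL2 p.1 p.2 hF (hs2'.trans hcs.ge) hu hbV (al_of_ee hN hC hv hF hw hee) hee).resolve_left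
        hp.1.2)
  have e3 : ∃ᶠ τ in 𝓝 (0 : ℝ), 0 < τ := by
    have h1 : ∃ᶠ τ in 𝓝[>] (0 : ℝ), 0 < τ :=
      (eventually_mem_nhdsWithin (a := (0 : ℝ)) (s := Set.Ioi 0)).frequently
    exact h1.filter_mono nhdsWithin_le_nhds
  obtain ⟨τ, hτ, h1, h2⟩ := (e3.and_eventually (e1.and e2)).exists
  obtain ⟨w1, w2⟩ := v2_phi hN hC hG hv hvH hn hnH s τ
  refine ⟨s, hs0, hslt, v2 c v (nst P Q h0 B q) s τ, w1, w2, fun u b hF hc ha => ?_,
    fun u b hF hc hu hee => ?_⟩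
  · exact h1 (u, b) ⟨hF, hc⟩ ha
  · rw [v2_ee hN hC hv hn τ hF hc] at hee
    have hw := hreg _ _ hF hc
    have hbV := hVb _ _ hF hw hu
    by_cases huO : u ∈ O
    · have hu0 := hF.ne hN
      have ha := al_of_ee hN hC hv hF hw hee
      have ha' : al P h0 q u b = 0 := by
        have h3 : al P h0 v u b = κ * al P h0 q u b :=
          D1_V hv.smooth hq.smooth hO hP3 hu huO hu0 (hVh b hbV)
        rw [ha] at h3
        exact (mul_eq_zero.1 h3.symm).resolve_left hκ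
      have h4 : al' P h0 v u b = 0 := by
        have h5 : al' P h0 v u b = κ * al' P h0 q u b :=
          D2_V hv.smooth hq.smooth hO hP3 hu huO hu0 hbV (hVh b hbV)
        rw [h5, hq' u b hF hu hbV, mul_zero]
      rw [v2_al' hN hC hv hn hs0 τ hF hc, h4, nst_al hN hC hq.smooth hF ha', zero_add]
      have h6 : 0 < aW P h0 B q 2 u ^ 2 := pow_two_pos_of_ne_zero (hP5 u b hF hw hu huO hee)
      positivity
    · obtain ⟨-, h3⟩ := h2 (u, b) ⟨⟨⟨⟨hF, hc⟩, hu⟩, huO⟩, hee⟩ rfl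
      exact h3

/-! ### openness -/

variable {R : Type*} [NormedAddCommGroup R] [NormedSpace ℝ R] {F : R × m → ℝ}

theorem par_ee_cont (hN : NData g h m Q P) (hF : ContDiffOn ℝ ∞ F (parU R m)) {S : Set (m × m)}
    (hS : ∀ q ∈ S, q.1 ≠ 0) : ContinuousOn (fun z : R × (m × m) =>
      ee Q P (fun w => F (z.1, w)) z.2.1) (Set.univ ×ˢ S) :=
  par_contOn hS fun z hz => P_tendsto (P := P) (Lim5.br_tendsto
    (val_tendsto ((continuous_fst.comp continuous_snd).tendsto z))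
    (val_tendsto (par_gx_tendsto hN hF hz (continuous_fst.tendsto z)
      ((continuous_fst.comp continuous_snd).tendsto z))))

/-- the two conclusions of `lev1` are open in the function -/
theorem lev_open (hN : NData g h m Q P) (hC : Cas g h m Q P h0 B c)
    (hF : ContDiffOn ℝ ∞ F (parU R m)) (V : Submodule ℝ m) {s : ℝ} {p₀ : R}
    (h1 : ∀ u b : m, Flag Q u b → s ≤ |c u| → al P h0 (fun w => F (p₀, w)) u b = 0 →
      0 < T3F Q P (fun w => F (p₀, w)) u b)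
    (h2 : ∀ u b : m, Flag Q u b → |c u| = s → u ∈ V → ee Q P (fun w => F (p₀, w)) u = 0 →
      0 < al' P h0 (fun w => F (p₀, w)) u b) :
    ∀ᶠ p in 𝓝 p₀,
      (∀ u b : m, Flag Q u b → s ≤ |c u| → al P h0 (fun w => F (p, w)) u b = 0 →
        0 < T3F Q P (fun w => F (p, w)) u b) ∧
      ∀ u b : m, Flag Q u b → |c u| = s → u ∈ V → ee Q P (fun w => F (p, w)) u = 0 →
        0 < al' P h0 (fun w => F (p, w)) u b := by
  have hne : ∀ p ∈ (FlagSet Q : Set (m × m)), p.1 ≠ 0 := fun p hp => flag_ne hN hp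
  have hVc : IsClosed (V : Set m) := V.closed_of_finiteDimensional
  have habs : ContinuousOn (fun p : m × m => |c p.1|) (FlagSet Q : Set (m × m)) :=
    (cont_fst hC.csm hne).abs
  have k1 := closed_sub (flagSet_compact hN) habs (isClosed_Ici (a := s))
  have k2 := closed_sub (flagSet_compact hN) habs (isClosed_singleton (x := s))
  have k3 := closed_sub k2 continuous_fst.continuousOn hVc
  have e1 := par_T3F_open (h0 := h0) hN hF k1 (fun p hp => hne p hp.1) (p₀ := p₀)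
    (fun p hp ha => h1 p.1 p.2 hp.1 hp.2 ha)
  have e2 := par_open (κ := Unit) k3 (p₀ := p₀)
    (A := fun z => ‖ee Q P (fun w => F (z.1, w)) z.2.1‖)
    (T := fun _ z => al' P h0 (fun w => F (z.1, w)) z.2.1 z.2.2)
    (par_ee_cont hN hF fun p hp => hne p hp.1.1).norm
    (fun _ => par_al'_cont hF fun p hp => hne p hp.1.1)
    (fun p hp h0' => ⟨(), h2 p.1 p.2 hp.1.1 hp.1.2 hp.2 (norm_eq_zero.1 h0')⟩)
  filter_upwards [e1, e2] with p g1 g2
  refine ⟨fun u b hf hc ha => g1 (u, b) ⟨hf, hc⟩ ha, fun u b hf hc hu hee => ?_⟩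
  obtain ⟨-, g3⟩ := g2 (u, b) ⟨⟨hf, hc⟩, hu⟩ (norm_eq_zero.2 hee)
  exact g3

end Pool.Agent.FL.Lev
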