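import Pool.Agent.FL.S1Hub

/-!
# MP_f09395_gt, space (1): the quadratic form `m = Re (C P)`
-/

set_option linter.unusedSectionVars false

noncomputable section

namespace Pool.Agent.FL.S1

open scoped ContDiff Quaternion Matrix ComplexConjugate
open Pool.Agent.Helper93.Fin Pool.Agent.helper79.FP Pool.Agent.helper79.FR
open Pool.Agent.helper79.FR.Sp2 (Mat QQ h0 m gg hh PP BB cc dg)
open Pool.Agent.FL
open Filter Topology

attribute [local instance] Matrix.linftyOpNormedRing Matrix.linftyOpNormedAlgebra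

namespace Mq

/-- the form -/
def mq0 (u : V) : ℝ := (cC u * cP u).re

theorem adj_entry {k : Matˣ} {z : ℂ} (hz : ‖z‖ = 1) (hk : (k : Mat) = dg 1 3 z) {u v : V}
    (h : (v : Mat) = Adj k u) (i j : Fin 2) : (v : Mat) i j =
      ((![z, z ^ 3] i : ℂ) : ℍ[ℝ]) * (u : Mat) i j * star ((![z, z ^ 3] j : ℂ) : ℍ[ℝ]) := by
  have hH : k ∈ Pool.Agent.helper79.FR.Sp2.H 1 3 := ⟨z, hz, hk⟩
  have h1 : (v : Mat) = dg 1 3 z * (u : Mat) * star (dg 1 3 z) := by
    rw [h]
    show (k : Mat) * (u : Mat) * ((k⁻¹ : Matˣ) : Mat) = _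
    rw [Pool.Agent.helper79.FR.Sp2.inv_of_mem_H hH, hk]
  rw [h1, dg, Matrix.star_eq_conjTranspose, Matrix.diagonal_conjTranspose,
    Matrix.mul_diagonal, Matrix.diagonal_mul]
  fin_cases i <;> fin_cases j <;> simp

theorem adj_P {k : Matˣ} {z : ℂ} (hz : ‖z‖ = 1) (hk : (k : Mat) = dg 1 3 z) {u v : V}
    (h : (v : Mat) = Adj k u) : cP v = z ^ 2 * cP u := by
  have h1 := adj_entry hz hk h 0 0
  rw [cP_apply, cP_apply, h1]
  apply Complex.ext
  · simp [pow_two, Complex.mul_re, Complex.mul_im]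
    ring
  · simp [pow_two, Complex.mul_re, Complex.mul_im]
    ring

theorem adj_C {k : Matˣ} {z : ℂ} (hz : ‖z‖ = 1) (hk : (k : Mat) = dg 1 3 z) {u v : V}
    (h : (v : Mat) = Adj k u) : cC v = z * cC u * conj (z ^ 3) := by
  have h1 := adj_entry hz hk h 0 1
  rw [cC_apply, cC_apply, h1]
  generalize z ^ 3 = w
  apply Complex.ext
  · simp [Complex.mul_re, Complex.mul_im]
  · simp [Complex.mul_re, Complex.mul_im]

theorem mq0_inv : InvH (Pool.Agent.helper79.FR.Sp2.H 1 3) mq0 := by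
  rintro k ⟨z, hz, hk⟩ u v h
  have hzz : z * conj z = 1 := by
    rw [Complex.mul_conj, Complex.normSq_eq_norm_sq, hz]
    simp
  unfold mq0
  congr 1
  rw [adj_C hz hk h, adj_P hz hk h, map_pow]
  calc z * cC u * conj z ^ 3 * (z ^ 2 * cP u) = (z * conj z) ^ 3 * (cC u * cP u) := by ring
    _ = cC u * cP u := by rw [hzz, one_pow, one_mul]

theorem mq0_smooth : ContDiff ℝ ∞ mq0 := by
  unfold mq0
  exact Complex.reCLM.contDiff.comp (cC.contDiff.mul cP.contDiff)

theorem mq0_Ph : Ph mq0 := by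
  refine ⟨⟨mq0_smooth.contDiffOn, fun r u => ?_, inv_of_InvH nD gD mq0_smooth.contDiffOn
    mq0_inv⟩, mq0_inv⟩
  unfold mq0
  rw [map_smul, map_smul]
  simp
  ring

/-- the derivative of the form -/
theorem mq0_D1 (u w : V) : D1 mq0 u w = (cC u * cP w + cC w * cP u).re := by
  have h1 : HasFDerivAt (fun z : V => cC z * cP z)
      (cC u • (cP : V →L[ℝ] ℂ) + cP u • (cC : V →L[ℝ] ℂ)) u :=
    cC.hasFDerivAt.mul cP.hasFDerivAt
  have h2 : HasFDerivAt mq0 (Complex.reCLM.comp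
      (cC u • (cP : V →L[ℝ] ℂ) + cP u • (cC : V →L[ℝ] ℂ))) u :=
    Complex.reCLM.hasFDerivAt.comp u h1
  refine (DFunLike.congr_fun h2.fderiv w).trans ?_
  simp
  ring

theorem mq0_D2 (u b w : V) : D2 mq0 u b w = D1 mq0 b w := by
  have h0' : (fun z => D1 mq0 z b) = fun z : V => (cC z * cP b + cC b * cP z).re := by
    funext z
    exact mq0_D1 z b
  have h1 : HasFDerivAt (fun z : V => (cC z * cP b + cC b * cP z).re)
      (Complex.reCLM.comp (cP b • (cC : V →L[ℝ] ℂ) + cC b • (cP : V →L[ℝ] ℂ))) u := by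
    refine Complex.reCLM.hasFDerivAt.comp u (HasFDerivAt.add ?_ ?_)
    · exact cC.hasFDerivAt.mul_const (cP b)
    · exact cP.hasFDerivAt.const_mul (cC b)
  unfold D2
  rw [h0', mq0_D1]
  refine (DFunLike.congr_fun h1.fderiv w).trans ?_
  simp
  ring

theorem mq0_al' {u b : V} (hb : b ≠ 0) : alf' mq0 u b = 0 := by
  show D2 mq0 u b (PP 1 3 ⁅h0 1 3, (b : Mat)⁆) = 0
  rw [mq0_D2]
  exact mq0_Ph.phi.inv _ cD.mem b hb

/-! ### the odd part -/

/-- the odd part as a subspace -/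
def OdS : Submodule ℝ V where
  carrier := {u | Od u}
  zero_mem' := ⟨map_zero _, map_zero _⟩
  add_mem' := by
    rintro u v ⟨h1, h2⟩ ⟨k1, k2⟩
    exact ⟨by rw [map_add, h1, k1, add_zero], by rw [map_add, h2, k2, add_zero]⟩
  smul_mem' := by
    rintro r u ⟨h1, h2⟩
    exact ⟨by rw [map_smul, h1, smul_zero], by rw [map_smul, h2, smul_zero]⟩

theorem rt_Od {b : V} (hb : b ∈ OdS) : PP 1 3 ⁅h0 1 3, (b : Mat)⁆ ∈ OdS := by
  have h1 : PP 1 3 ⁅h0 1 3, (b : Mat)⁆ = rt b := rfl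
  have hb' : cQ b = 0 := hb.2
  rw [h1, rt_eq]
  refine ⟨c0_mk _ _ _ _ _, ?_⟩
  rw [cQ_mk, hb', mul_zero]

theorem adj_R {k : Matˣ} {z : ℂ} (hz : ‖z‖ = 1) (hk : (k : Mat) = dg 1 3 z) {u v : V}
    (h : (v : Mat) = Adj k u) : cR v = z ^ 6 * cR u := by
  have h1 := adj_entry hz hk h 1 1
  have e : z ^ 6 = z ^ 3 * z ^ 3 := by ring
  rw [cR_apply, cR_apply, h1, e]
  generalize hw : z ^ 3 = w
  apply Complex.ext
  · simp [Complex.mul_re, Complex.mul_im]
    ring
  · simp [Complex.mul_re, Complex.mul_im]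
    ring

theorem adj_Q {k : Matˣ} {z : ℂ} (hz : ‖z‖ = 1) (hk : (k : Mat) = dg 1 3 z) {u v : V}
    (h : (v : Mat) = Adj k u) : cQ v = z ^ 4 * cQ u := by
  have h1 := adj_entry hz hk h 0 1
  have e : z ^ 4 = z * z ^ 3 := by ring
  rw [cQ_apply, cQ_apply, h1, e]
  generalize hw : z ^ 3 = w
  apply Complex.ext
  · simp [Complex.mul_re, Complex.mul_im]
    ring
  · simp [Complex.mul_re, Complex.mul_im]
    ring

theorem adj_0 {k : Matˣ} {z : ℂ} (hz : ‖z‖ = 1) (hk : (k : Mat) = dg 1 3 z) {u v : V}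
    (h : (v : Mat) = Adj k u) : c0 v = c0 u := by
  have h1 := adj_entry hz hk h 1 1
  have hw : ‖z ^ 3‖ = 1 := by rw [norm_pow, hz, one_pow]
  have h2 : (z ^ 3).re * (z ^ 3).re + (z ^ 3).im * (z ^ 3).im = 1 := by
    have := Complex.normSq_eq_norm_sq (z ^ 3)
    rw [hw, Complex.normSq_apply] at this
    simpa using this
  rw [c0_apply, c0_apply, h1]
  generalize z ^ 3 = w at h2
  simp [Complex.mul_re, Complex.mul_im]
  linear_combination ((u : Mat) 1 1).imI * h2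

theorem exists_unit {z : ℂ} (hz : ‖z‖ = 1) : ∃ k : Matˣ, (k : Mat) = dg 1 3 z := by
  have h : ∀ w : ℂ, w ≠ 0 → dg 1 3 w * dg 1 3 w⁻¹ = 1 := by
    intro w hw
    have hzz : ∀ n : ℕ, ((w ^ n : ℂ) : ℍ[ℝ]) * ((w⁻¹ ^ n : ℂ) : ℍ[ℝ]) = 1 := by
      intro n
      rw [← Quaternion.coeComplex_mul, ← mul_pow, mul_inv_cancel₀ hw, one_pow,
        Quaternion.coeComplex_one]
    rw [dg, dg, Matrix.diagonal_mul_diagonal, ← Matrix.diagonal_one]
    congr 1
    funext i
    fin_cases i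
    · exact hzz 1
    · exact hzz 3
  have hz0 : z ≠ 0 := by intro h0; simp [h0] at hz
  refine ⟨⟨dg 1 3 z, dg 1 3 z⁻¹, h z hz0, ?_⟩, rfl⟩
  have h1 := h z⁻¹ (inv_ne_zero hz0)
  rwa [inv_inv] at h1

/-- regular flags over the odd part lie in the odd part -/
theorem odd_b {u b : V} (h : Fl u b) (hw : QQ (BB 1 3 u) (b : Mat) ≠ 0) (hu : Od u) : Od b := by
  have hI : ‖Complex.I‖ = 1 := by simp
  obtain ⟨k, hk⟩ := exists_unit hI
  have hkH : k ∈ Pool.Agent.helper79.FR.Sp2.H 1 3 := ⟨Complex.I, hI, hk⟩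
  have h1 : ((-u : V) : Mat) = Adj k u := by
    obtain ⟨v, hv⟩ : ∃ v : V, (v : Mat) = Adj k u := ⟨⟨_, gD.adm k hkH u u.2⟩, rfl⟩
    have e : v = -u := by
      refine ext_coords ?_ ?_ ?_ ?_ ?_
      · rw [adj_0 hI hk hv, map_neg, hu.1, neg_zero]
      · rw [adj_P hI hk hv, map_neg, Complex.I_sq]; ring
      · have : Complex.I ^ 6 = -1 := by
          calc Complex.I ^ 6 = (Complex.I ^ 2) ^ 3 := by ring
            _ = -1 := by rw [Complex.I_sq]; ring
        rw [adj_R hI hk hv, map_neg, this]; ring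
      · have : conj (Complex.I ^ 3) = Complex.I := by
          rw [map_pow, Complex.conj_I]
          calc (-Complex.I) ^ 3 = -(Complex.I ^ 2) * Complex.I := by ring
            _ = Complex.I := by rw [Complex.I_sq]; ring
        rw [adj_C hI hk hv, map_neg, this]
        calc Complex.I * cC u * Complex.I = Complex.I ^ 2 * cC u := by ring
          _ = -cC u := by rw [Complex.I_sq]; ring
      · rw [adj_Q hI hk hv, map_neg, hu.2, neg_zero, mul_zero]
    rw [← e]; exact hv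
  have h2 := gD.B k hkH u (-u) h1
  have h3 : BB 1 3 (-u) = -BB 1 3 u := by
    have := cD.Bhom (-1) u
    simpa using this
  have h4 := cD.flat u b h
  have h5 : Adj k (b : Mat) = -(b : Mat) := by
    rw [h3, h4, Pool.Agent.helper79.FR.Sp2.Adj_smul] at h2
    have h6 : QQ (BB 1 3 u) (b : Mat) • (Adj k (b : Mat) + (b : Mat)) = 0 := by
      rw [smul_add, ← h2]
      abel
    have h7 := (smul_eq_zero.1 h6).resolve_left hw
    exact eq_neg_of_add_eq_zero_left h7
  have h8 : ((-b : V) : Mat) = Adj k b := by rw [h5]; rfl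
  have h9 := adj_0 hI hk h8
  have h10 := adj_Q hI hk h8
  have hI4 : Complex.I ^ 4 = 1 := Complex.I_pow_four
  rw [hI4, one_mul, map_neg] at h10
  rw [map_neg] at h9
  exact ⟨by linarith, by
    have h11 : (2 : ℂ) * cQ b = 0 := by linear_combination -h10
    exact (mul_eq_zero.1 h11).resolve_left two_ne_zero⟩

end Mq

end Pool.Agent.FL.S1
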