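import Pool.Agent.FL.S1Hub2
import Pool.Agent.FL.S1Mq
import Pool.Agent.FL.Lev1

/-!
# MP_f09395_gt, space (1): the levels (L1, L2, L3)
-/

set_option linter.unusedSectionVars false

noncomputable section

namespace Pool.Agent.FL.S1

open scoped ContDiff Quaternion Matrix ComplexConjugate
open Pool.Agent.Helper93.Fin Pool.Agent.helper79.FP Pool.Agent.helper79.FR
open Pool.Agent.helper79.FR.Sp2 (Mat QQ h0 m gg hh PP BB cc)
open Pool.Agent.FL
open Filter Topology

attribute [local instance] Matrix.linftyOpNormedRing Matrix.linftyOpNormedAlgebra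

/-- L1, L2, L3 -/
theorem lev_exists {ve ρ v1 : V → ℝ} {κ : ℝ} (E : EXPL ve ρ κ) (h : W1 ve ρ v1) :
    ∃ v2 s, Lev v2 s := by
  have hO : IsOpen {u : V | u ≠ 0 ∧ ρ u < 1 / 2} :=
    E.ρ0.smooth.continuousOn.isOpen_inter_preimage isOpen_compl_singleton isOpen_Iio
  obtain ⟨s, hs0, hs1, v', hv', hvH', hL1, hL3⟩ := Pool.Agent.FL.Lev.lev1 nD cD gD h.ph.phi h.ph.inv
    Mq.OdS (fun b hb => Mq.rt_Od hb) (fun u b hF hw hu => Mq.odd_b hF hw hu)
    Mq.mq0_Ph.phi Mq.mq0_Ph.inv (fun u b hF _ _ => Mq.mq0_al' (by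
      rintro rfl
      have := hF.2.1
      simp at this)) E.κ0 hO
    (fun u b hF hw ha => h.pos u b ⟨hF, hw⟩ ha)
    (fun u b hF hw hu hb ha he => by
      rcases h.odd u b ⟨hF, hw⟩ hu hb ha he with h1 | h1
      · exact Or.inl ⟨hF.ne nD, by linarith⟩
      · exact Or.inr h1)
    (fun u hu hO' => by
      have h1 : v1 u = ve u := (h.eq u hO'.1 hO'.2).self_of_nhds
      rw [h1]
      exact E.p3 u hu hO'.1 (by linarith [hO'.2]))
    (fun u b hF hw hu hO' he => by
      refine E.p5 u b hF hw hu (by linarith [hO'.2]) ?_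
      have h1 := h.eq u hO'.1 hO'.2
      have h2 : gx QQ v1 u = gx QQ ve u := by
        unfold gx
        exact congrArg _ (Filter.EventuallyEq.fderiv_eq h1)
      have h3 : eu v1 u = eu ve u := by
        show PP 1 3 ⁅(u : Mat), (gx QQ v1 u : Mat)⁆ = PP 1 3 ⁅(u : Mat), (gx QQ ve u : Mat)⁆
        rw [h2]
      rw [← h3]
      exact he)
  refine ⟨v', s, ⟨hv', hvH'⟩, hs0, hs1, fun u b hF hc ha => hL1 u b hF hc ha,
    fun u b hF hc hu _ he => hL3 u b hF hc hu he⟩

end Pool.Agent.FL.S1
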