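import Pool.Agent.FL.S1Hub

/-!
# MP_f09395_gt, space (1), I2: the invariants separate the directions transverse to the orbits
-/

set_option linter.unusedSectionVars false

noncomputable section

namespace Pool.Agent.FL.S1

open scoped ContDiff Quaternion Matrix ComplexConjugate
open Pool.Agent.Helper93.Fin Pool.Agent.helper79.FP Pool.Agent.helper79.FR
open Pool.Agent.helper79.FR.Sp2 (Mat QQ h0 m gg hh PP BB cc)
open Pool.Agent.FL
open Filter Topology

attribute [local instance] Matrix.linftyOpNormedRing Matrix.linftyOpNormedAlgebra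

/-! ### derivatives along lines -/

theorem i2_line {f : V → ℝ} {u x : V} {f' : ℝ} (hf : DifferentiableAt ℝ f u)
    (h : HasDerivAt (fun t : ℝ => f (u + t • x)) f' 0) : D1 f u x = f' := by
  have h1 : HasLineDerivAt ℝ f f' u x := h
  rw [D1, ← hf.lineDeriv_eq_fderiv, h1.lineDeriv]

theorem i2_dre {F : ℝ → ℂ} {F' : ℂ} {t : ℝ} (h : HasDerivAt F F' t) :
    HasDerivAt (fun t => (F t).re) F'.re t :=
  (Complex.reCLM.hasFDerivAt.comp_hasDerivAt t h)

theorem i2_dim {F : ℝ → ℂ} {F' : ℂ} {t : ℝ} (h : HasDerivAt F F' t) :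
    HasDerivAt (fun t => (F t).im) F'.im t :=
  (Complex.imCLM.hasFDerivAt.comp_hasDerivAt t h)

theorem i2_dconj {F : ℝ → ℂ} {F' : ℂ} {t : ℝ} (h : HasDerivAt F F' t) :
    HasDerivAt (fun t => conj (F t)) (conj F') t :=
  ((Complex.conjCLE : ℂ →L[ℝ] ℂ).hasFDerivAt.comp_hasDerivAt t h)

theorem i2_dC (L : V →L[ℝ] ℂ) (u x : V) :
    HasDerivAt (fun t : ℝ => L (u + t • x)) (L x) 0 := by
  have h1 : HasDerivAt (fun t : ℝ => u + t • x) x 0 :=
    (((hasDerivAt_id (0 : ℝ)).smul_const x).const_add u).congr_deriv (one_smul ℝ x)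
  exact L.hasFDerivAt.comp_hasDerivAt (0 : ℝ) h1

theorem i2_dR (L : V →L[ℝ] ℝ) (u x : V) :
    HasDerivAt (fun t : ℝ => L (u + t • x)) (L x) 0 := by
  have h1 : HasDerivAt (fun t : ℝ => u + t • x) x 0 :=
    (((hasDerivAt_id (0 : ℝ)).smul_const x).const_add u).congr_deriv (one_smul ℝ x)
  exact L.hasFDerivAt.comp_hasDerivAt (0 : ℝ) h1

/-- the complex derivatives of the odd invariants -/
def i2dO (u x : V) : Fin 11 → ℝ
  | 0 => c0 x
  | 1 => (cQ x * cC u ^ 2 + cQ u * (2 * cC u * cC x)).re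
  | 2 => (cQ x * cC u ^ 2 + cQ u * (2 * cC u * cC x)).im
  | 3 => (cQ x * conj (cP u) ^ 2 + cQ u * (2 * conj (cP u) * conj (cP x))).re
  | 4 => (cQ x * conj (cP u) ^ 2 + cQ u * (2 * conj (cP u) * conj (cP x))).im
  | 5 => (cR x * conj (cQ u) * cC u + cR u * conj (cQ x) * cC u
      + cR u * conj (cQ u) * cC x).re
  | 6 => (cR x * conj (cQ u) * cC u + cR u * conj (cQ x) * cC u
      + cR u * conj (cQ u) * cC x).im
  | 7 => (cR x * conj (cQ u) * conj (cP u) + cR u * conj (cQ x) * conj (cP u)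
      + cR u * conj (cQ u) * conj (cP x)).re
  | 8 => (cR x * conj (cQ u) * conj (cP u) + cR u * conj (cQ x) * conj (cP u)
      + cR u * conj (cQ u) * conj (cP x)).im
  | 9 => (3 * cQ u ^ 2 * cQ x * conj (cR u) ^ 2 + cQ u ^ 3 * (2 * conj (cR u) * conj (cR x))).re
  | 10 => (3 * cQ u ^ 2 * cQ x * conj (cR u) ^ 2
      + cQ u ^ 3 * (2 * conj (cR u) * conj (cR x))).im

/-- the derivatives of the even invariants -/
def i2dE (u x : V) : Fin 10 → ℝ
  | 0 => 2 * rip (cQ u) (cQ x)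
  | 1 => 2 * rip (cC u) (cC x)
  | 2 => 2 * rip (cP u) (cP x)
  | 3 => 2 * rip (cR u) (cR x)
  | 4 => (cC x * cP u + cC u * cP x).re
  | 5 => (cC x * cP u + cC u * cP x).im
  | 6 => (cR x * cC u ^ 3 + cR u * (3 * cC u ^ 2 * cC x)).re
  | 7 => (cR x * cC u ^ 3 + cR u * (3 * cC u ^ 2 * cC x)).im
  | 8 => (cR x * conj (cP u) ^ 3 + cR u * (3 * conj (cP u) ^ 2 * conj (cP x))).re
  | 9 => (cR x * conj (cP u) ^ 3 + cR u * (3 * conj (cP u) ^ 2 * conj (cP x))).im

theorem i2_dQCC (u x : V) : HasDerivAt (fun t : ℝ => cQ (u + t • x) * cC (u + t • x) ^ 2)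
    (cQ x * cC u ^ 2 + cQ u * (2 * cC u * cC x)) 0 := by
  have h := (i2_dC cQ u x).mul ((i2_dC cC u x).pow 2)
  refine h.congr_deriv ?_
  simp

theorem i2_dQPP (u x : V) : HasDerivAt (fun t : ℝ => cQ (u + t • x) * conj (cP (u + t • x)) ^ 2)
    (cQ x * conj (cP u) ^ 2 + cQ u * (2 * conj (cP u) * conj (cP x))) 0 := by
  have h := (i2_dC cQ u x).mul ((i2_dconj (i2_dC cP u x)).pow 2)
  refine h.congr_deriv ?_
  simp

theorem i2_dRQC (u x : V) :
    HasDerivAt (fun t : ℝ => cR (u + t • x) * conj (cQ (u + t • x)) * cC (u + t • x))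
    (cR x * conj (cQ u) * cC u + cR u * conj (cQ x) * cC u + cR u * conj (cQ u) * cC x) 0 := by
  have h := ((i2_dC cR u x).mul (i2_dconj (i2_dC cQ u x))).mul (i2_dC cC u x)
  refine h.congr_deriv ?_
  simp
  ring

theorem i2_dRQP (u x : V) :
    HasDerivAt (fun t : ℝ => cR (u + t • x) * conj (cQ (u + t • x)) * conj (cP (u + t • x)))
    (cR x * conj (cQ u) * conj (cP u) + cR u * conj (cQ x) * conj (cP u)
      + cR u * conj (cQ u) * conj (cP x)) 0 := by
  have h := ((i2_dC cR u x).mul (i2_dconj (i2_dC cQ u x))).mul (i2_dconj (i2_dC cP u x))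
  refine h.congr_deriv ?_
  simp
  ring

theorem i2_dQR (u x : V) :
    HasDerivAt (fun t : ℝ => cQ (u + t • x) ^ 3 * conj (cR (u + t • x)) ^ 2)
    (3 * cQ u ^ 2 * cQ x * conj (cR u) ^ 2 + cQ u ^ 3 * (2 * conj (cR u) * conj (cR x))) 0 := by
  have h := ((i2_dC cQ u x).pow 3).mul ((i2_dconj (i2_dC cR u x)).pow 2)
  refine h.congr_deriv ?_
  simp

theorem i2_dCP (u x : V) : HasDerivAt (fun t : ℝ => cC (u + t • x) * cP (u + t • x))
    (cC x * cP u + cC u * cP x) 0 := by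
  have h := (i2_dC cC u x).mul (i2_dC cP u x)
  refine h.congr_deriv ?_
  simp

theorem i2_dRCC (u x : V) : HasDerivAt (fun t : ℝ => cR (u + t • x) * cC (u + t • x) ^ 3)
    (cR x * cC u ^ 3 + cR u * (3 * cC u ^ 2 * cC x)) 0 := by
  have h := (i2_dC cR u x).mul ((i2_dC cC u x).pow 3)
  refine h.congr_deriv ?_
  simp

theorem i2_dRPP (u x : V) : HasDerivAt (fun t : ℝ => cR (u + t • x) * conj (cP (u + t • x)) ^ 3)
    (cR x * conj (cP u) ^ 3 + cR u * (3 * conj (cP u) ^ 2 * conj (cP x))) 0 := by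
  have h := (i2_dC cR u x).mul ((i2_dconj (i2_dC cP u x)).pow 3)
  refine h.congr_deriv ?_
  simp

theorem i2_dns (L : V →L[ℝ] ℂ) (u x : V) :
    HasDerivAt (fun t : ℝ => Complex.normSq (L (u + t • x))) (2 * rip (L u) (L x)) 0 := by
  have h1 := i2_dre (i2_dC L u x)
  have h2 := i2_dim (i2_dC L u x)
  have h := (h1.mul h1).add (h2.mul h2)
  have e : (fun t : ℝ => Complex.normSq (L (u + t • x))) = fun t : ℝ =>
      (L (u + t • x)).re * (L (u + t • x)).re + (L (u + t • x)).im * (L (u + t • x)).im :=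
    funext fun t => Complex.normSq_apply _
  rw [e]
  refine h.congr_deriv ?_
  simp [rip]
  ring

theorem i2_odd_line (i : Fin 11) (u x : V) :
    HasDerivAt (fun t : ℝ => oddI i (u + t • x)) (i2dO u x i) 0 := by
  fin_cases i
  · exact i2_dR c0 u x
  · exact i2_dre (i2_dQCC u x)
  · exact i2_dim (i2_dQCC u x)
  · exact i2_dre (i2_dQPP u x)
  · exact i2_dim (i2_dQPP u x)
  · exact i2_dre (i2_dRQC u x)
  · exact i2_dim (i2_dRQC u x)
  · exact i2_dre (i2_dRQP u x)
  · exact i2_dim (i2_dRQP u x)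
  · exact i2_dre (i2_dQR u x)
  · exact i2_dim (i2_dQR u x)

theorem i2_ev_line (i : Fin 10) (u x : V) :
    HasDerivAt (fun t : ℝ => evI i (u + t • x)) (i2dE u x i) 0 := by
  fin_cases i
  · exact i2_dns cQ u x
  · exact i2_dns cC u x
  · exact i2_dns cP u x
  · exact i2_dns cR u x
  · exact i2_dre (i2_dCP u x)
  · exact i2_dim (i2_dCP u x)
  · exact i2_dre (i2_dRCC u x)
  · exact i2_dim (i2_dRCC u x)
  · exact i2_dre (i2_dRPP u x)
  · exact i2_dim (i2_dRPP u x)

/-! ### smoothness and normalisation -/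

theorem i2_diff_re {F : V → ℂ} {u : V} (h : DifferentiableAt ℝ F u) :
    DifferentiableAt ℝ (fun u => (F u).re) u :=
  Complex.reCLM.differentiableAt.comp u h

theorem i2_diff_im {F : V → ℂ} {u : V} (h : DifferentiableAt ℝ F u) :
    DifferentiableAt ℝ (fun u => (F u).im) u :=
  Complex.imCLM.differentiableAt.comp u h

theorem i2_diff_conj {F : V → ℂ} {u : V} (h : DifferentiableAt ℝ F u) :
    DifferentiableAt ℝ (fun u => conj (F u)) u :=
  (Complex.conjCLE : ℂ →L[ℝ] ℂ).differentiableAt.comp u h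

theorem i2_diff_ns {F : V → ℂ} {u : V} (h : DifferentiableAt ℝ F u) :
    DifferentiableAt ℝ (fun u => Complex.normSq (F u)) u := by
  have e : (fun u => Complex.normSq (F u)) = fun u => (F u).re * (F u).re + (F u).im * (F u).im :=
    funext fun _ => Complex.normSq_apply _
  rw [e]
  exact ((i2_diff_re h).mul (i2_diff_re h)).add ((i2_diff_im h).mul (i2_diff_im h))

theorem i2_odd_diff (i : Fin 11) (u : V) : DifferentiableAt ℝ (oddI i) u := by
  have hQ : DifferentiableAt ℝ (fun u : V => cQ u) u := cQ.differentiableAt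
  have hC : DifferentiableAt ℝ (fun u : V => cC u) u := cC.differentiableAt
  have hP := i2_diff_conj (F := fun u : V => cP u) (u := u) cP.differentiableAt
  have hR : DifferentiableAt ℝ (fun u : V => cR u) u := cR.differentiableAt
  have hQ' := i2_diff_conj hQ
  have hR' := i2_diff_conj hR
  fin_cases i
  · exact c0.differentiableAt
  · exact i2_diff_re (hQ.mul (hC.pow 2))
  · exact i2_diff_im (hQ.mul (hC.pow 2))
  · exact i2_diff_re (hQ.mul (hP.pow 2))
  · exact i2_diff_im (hQ.mul (hP.pow 2))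
  · exact i2_diff_re ((hR.mul hQ').mul hC)
  · exact i2_diff_im ((hR.mul hQ').mul hC)
  · exact i2_diff_re ((hR.mul hQ').mul hP)
  · exact i2_diff_im ((hR.mul hQ').mul hP)
  · exact i2_diff_re ((hQ.pow 3).mul (hR'.pow 2))
  · exact i2_diff_im ((hQ.pow 3).mul (hR'.pow 2))

theorem i2_ev_diff (i : Fin 10) (u : V) : DifferentiableAt ℝ (evI i) u := by
  have hQ : DifferentiableAt ℝ (fun u : V => cQ u) u := cQ.differentiableAt
  have hC : DifferentiableAt ℝ (fun u : V => cC u) u := cC.differentiableAt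
  have hP : DifferentiableAt ℝ (fun u : V => cP u) u := cP.differentiableAt
  have hR : DifferentiableAt ℝ (fun u : V => cR u) u := cR.differentiableAt
  have hP' := i2_diff_conj hP
  fin_cases i
  · exact i2_diff_ns hQ
  · exact i2_diff_ns hC
  · exact i2_diff_ns hP
  · exact i2_diff_ns hR
  · exact i2_diff_re (hC.mul hP)
  · exact i2_diff_im (hC.mul hP)
  · exact i2_diff_re (hR.mul (hC.pow 3))
  · exact i2_diff_im (hR.mul (hC.pow 3))
  · exact i2_diff_re (hR.mul (hP'.pow 3))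
  · exact i2_diff_im (hR.mul (hP'.pow 3))

theorem i2_nr (u : V) : nr u = 10 * (c0 u * c0 u) + Complex.normSq (cP u)
    + Complex.normSq (cR u) + 2 * Complex.normSq (cC u) + 2 * Complex.normSq (cQ u) := by
  unfold nr
  rw [QQ_coords]
  simp only [rip, Complex.normSq_apply]

theorem i2_nr_pos {u : V} (hu : u ≠ 0) : 0 < nr u := by
  have a1 := Complex.normSq_nonneg (cP u)
  have a2 := Complex.normSq_nonneg (cR u)
  have a3 := Complex.normSq_nonneg (cC u)
  have a4 := Complex.normSq_nonneg (cQ u)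
  have a0 := mul_self_nonneg (c0 u)
  by_contra hn
  apply hu
  rw [i2_nr] at hn
  have b0 : c0 u = 0 := mul_self_eq_zero.1 (by linarith)
  have b1 : cP u = 0 := Complex.normSq_eq_zero.1 (by linarith)
  have b2 : cR u = 0 := Complex.normSq_eq_zero.1 (by linarith)
  have b3 : cC u = 0 := Complex.normSq_eq_zero.1 (by linarith)
  have b4 : cQ u = 0 := Complex.normSq_eq_zero.1 (by linarith)
  apply ext_coords
  · rw [b0, map_zero]
  · rw [b1, map_zero]
  · rw [b2, map_zero]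
  · rw [b3, map_zero]
  · rw [b4, map_zero]

theorem i2_nr_diff (u : V) : DifferentiableAt ℝ nr u := by
  have e : nr = fun u : V => 10 * (c0 u * c0 u) + Complex.normSq (cP u)
    + Complex.normSq (cR u) + 2 * Complex.normSq (cC u) + 2 * Complex.normSq (cQ u) :=
    funext i2_nr
  rw [e]
  have h0 : DifferentiableAt ℝ (fun u : V => c0 u) u := c0.differentiableAt
  have hQ := i2_diff_ns (F := fun u : V => cQ u) (u := u) cQ.differentiableAt
  have hC := i2_diff_ns (F := fun u : V => cC u) (u := u) cC.differentiableAt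
  have hP := i2_diff_ns (F := fun u : V => cP u) (u := u) cP.differentiableAt
  have hR := i2_diff_ns (F := fun u : V => cR u) (u := u) cR.differentiableAt
  exact (((((h0.mul h0).const_mul 10).add hP).add hR).add (hC.const_mul 2)).add (hQ.const_mul 2)

theorem i2_nr_line (u x : V) : HasDerivAt (fun t : ℝ => nr (u + t • x))
    (2 * QQ (u : Mat) (x : Mat)) 0 := by
  have e : (fun t : ℝ => nr (u + t • x)) = fun t : ℝ => 10 * (c0 (u + t • x) * c0 (u + t • x))
    + Complex.normSq (cP (u + t • x)) + Complex.normSq (cR (u + t • x))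
    + 2 * Complex.normSq (cC (u + t • x)) + 2 * Complex.normSq (cQ (u + t • x)) :=
    funext fun t => i2_nr _
  rw [e]
  have h0 := i2_dR c0 u x
  have h := (((((h0.mul h0).const_mul 10).add (i2_dns cP u x)).add (i2_dns cR u x)).add
    ((i2_dns cC u x).const_mul 2)).add ((i2_dns cQ u x).const_mul 2)
  refine h.congr_deriv ?_
  rw [QQ_coords]
  simp
  ring

theorem i2_quot_line {f : V → ℝ} {f' : ℝ} (d : ℕ) {u x : V} (hu : u ≠ 0)
    (hx : QQ (u : Mat) (x : Mat) = 0) (hf : HasDerivAt (fun t : ℝ => f (u + t • x)) f' 0) :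
    HasDerivAt (fun t : ℝ => f (u + t • x) / Real.sqrt (nr (u + t • x)) ^ d)
      (f' / Real.sqrt (nr u) ^ d) 0 := by
  have hp := i2_nr_pos hu
  have h1 := i2_nr_line u x
  rw [hx, mul_zero] at h1
  have e0 : nr (u + (0 : ℝ) • x) = nr u := by rw [zero_smul, add_zero]
  have h2 : HasDerivAt (fun t : ℝ => Real.sqrt (nr (u + t • x)) ^ d) 0 0 := by
    refine ((h1.sqrt (by rw [e0]; exact hp.ne')).pow d).congr_deriv ?_
    simp
  have hs : Real.sqrt (nr (u + (0 : ℝ) • x)) ^ d ≠ 0 := by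
    rw [e0]
    exact pow_ne_zero _ (Real.sqrt_ne_zero'.2 hp)
  refine (hf.fun_div h2 hs).congr_deriv ?_
  rw [e0] at hs ⊢
  rw [mul_zero, sub_zero]
  field_simp

theorem i2_quot_diff {f : V → ℝ} (d : ℕ) {u : V} (hu : u ≠ 0) (hf : DifferentiableAt ℝ f u) :
    DifferentiableAt ℝ (fun u => f u / Real.sqrt (nr u) ^ d) u := by
  have hp := i2_nr_pos hu
  have h2 : DifferentiableAt ℝ (fun u => Real.sqrt (nr u) ^ d) u :=
    ((i2_nr_diff u).sqrt hp.ne').pow d
  have hs : Real.sqrt (nr u) ^ d ≠ 0 := pow_ne_zero _ (Real.sqrt_ne_zero'.2 hp)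
  have e : (fun u => f u / Real.sqrt (nr u) ^ d) = fun u => f u * (Real.sqrt (nr u) ^ d)⁻¹ :=
    funext fun _ => div_eq_mul_inv _ _
  rw [e]
  exact hf.mul (h2.inv hs)

theorem i2_D1_oI (i : Fin 11) {u x : V} (hu : u ≠ 0) (hx : QQ (u : Mat) (x : Mat) = 0) :
    D1 (oI i) u x = i2dO u x i / Real.sqrt (nr u) ^ oddD i :=
  i2_line (i2_quot_diff _ hu (i2_odd_diff i u)) (i2_quot_line _ hu hx (i2_odd_line i u x))

theorem i2_D1_eI (i : Fin 10) {u x : V} (hu : u ≠ 0) (hx : QQ (u : Mat) (x : Mat) = 0) :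
    D1 (eI i) u x = i2dE u x i / Real.sqrt (nr u) ^ evD i :=
  i2_line (i2_quot_diff _ hu (i2_ev_diff i u)) (i2_quot_line _ hu hx (i2_ev_line i u x))

theorem i2_D1_oo (i j : Fin 11) {u x : V} (hu : u ≠ 0) :
    D1 (fun u => oI i u * oI j u) u x = D1 (oI i) u x * oI j u + oI i u * D1 (oI j) u x := by
  have hi := i2_quot_diff (oddD i) hu (i2_odd_diff i u)
  have hj := i2_quot_diff (oddD j) hu (i2_odd_diff j u)
  have h := (hi.hasFDerivAt.mul hj.hasFDerivAt).fderiv
  have h' : D1 (fun u => oI i u * oI j u) u x = oI i u * D1 (oI j) u x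
      + oI j u * D1 (oI i) u x := congrArg (fun T : V →L[ℝ] ℝ => T x) h
  rw [h']
  ring

/-! ### consequences -/

theorem i2_odd0 {u x : V} (hu : u ≠ 0) (hx : QQ (u : Mat) (x : Mat) = 0) {i : Fin 11}
    (h : D1 (oI i) u x = 0) : i2dO u x i = 0 := by
  rw [i2_D1_oI i hu hx] at h
  exact (div_eq_zero_iff.1 h).resolve_right (pow_ne_zero _ (Real.sqrt_ne_zero'.2 (i2_nr_pos hu)))

theorem i2_ev0 {u x : V} (hu : u ≠ 0) (hx : QQ (u : Mat) (x : Mat) = 0) {i : Fin 10}
    (h : D1 (eI i) u x = 0) : i2dE u x i = 0 := by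
  rw [i2_D1_eI i hu hx] at h
  exact (div_eq_zero_iff.1 h).resolve_right (pow_ne_zero _ (Real.sqrt_ne_zero'.2 (i2_nr_pos hu)))

theorem i2_odd_ne {u : V} (hu : u ≠ 0) {i : Fin 11} (h : oddI i u ≠ 0) : oI i u ≠ 0 :=
  div_ne_zero h (pow_ne_zero _ (Real.sqrt_ne_zero'.2 (i2_nr_pos hu)))

/-- a complex number with vanishing real and imaginary parts -/
theorem i2_z {z : ℂ} (h1 : z.re = 0) (h2 : z.im = 0) : z = 0 := Complex.ext h1 h2

theorem i2_ne {z : ℂ} (h : z ≠ 0) : z.re ≠ 0 ∨ z.im ≠ 0 := by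
  by_contra hn
  push Not at hn
  exact h (i2_z hn.1 hn.2)

/-- infinitesimal rotations -/
theorem i2_rot {z w : ℂ} (hz : z ≠ 0) (h : rip z w = 0) (k : ℝ) (hk : k ≠ 0) :
    ∃ r : ℝ, w = k * Complex.I * r * z := by
  have hn : Complex.normSq z ≠ 0 := fun h => hz (Complex.normSq_eq_zero.1 h)
  rw [Complex.normSq_apply] at hn
  obtain ⟨r, hr⟩ : ∃ r : ℝ, r * (k * (z.re * z.re + z.im * z.im)) =
      z.re * w.im - z.im * w.re := ⟨_, div_mul_cancel₀ _ (mul_ne_zero hk hn)⟩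
  refine ⟨r, ?_⟩
  unfold rip at h
  have e1 : (k * Complex.I * r * z).re = -(k * r * z.im) := by simp
  have e2 : (k * Complex.I * r * z).im = k * r * z.re := by simp
  apply Complex.ext
  · apply mul_left_cancel₀ hn
    rw [e1]
    linear_combination (z.re) * h + z.im * hr
  · apply mul_left_cancel₀ hn
    rw [e2]
    linear_combination (z.im) * h - z.re * hr

theorem i2_conj {z w : ℂ} (k r : ℝ) (h : conj w = -(k * Complex.I * r) * conj z) :
    w = k * Complex.I * r * z := by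
  have h' := congrArg conj h
  simpa using h'

/-- the vector of an infinitesimal rotation -/
theorem i2_rt {u x : V} (r : ℝ) (h0 : c0 x = 0) (hP : cP x = (2 : ℝ) * Complex.I * r * cP u)
    (hR : cR x = (6 : ℝ) * Complex.I * r * cR u) (hC : cC x = (-2 : ℝ) * Complex.I * r * cC u)
    (hQ : cQ x = (4 : ℝ) * Complex.I * r * cQ u) : x = r • rt u := by
  rw [rt_eq]
  apply ext_coords
  · rw [h0, map_smul, c0_mk]; simp
  · rw [hP, map_smul, cP_mk, Complex.real_smul]; push_cast; ring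
  · rw [hR, map_smul, cR_mk, Complex.real_smul]; push_cast; ring
  · rw [hC, map_smul, cC_mk, Complex.real_smul]; push_cast; ring
  · rw [hQ, map_smul, cQ_mk, Complex.real_smul]; push_cast; ring

/-- the part common to all cases with `C ≠ 0` -/
theorem i2_caseC {u x : V} (r : ℝ) (hC0 : cC u ≠ 0)
    (hC : cC x = (-2 : ℝ) * Complex.I * r * cC u)
    (hCP : cC x * cP u + cC u * cP x = 0)
    (hRC : cR x * cC u ^ 3 + cR u * (3 * cC u ^ 2 * cC x) = 0) :
    cP x = (2 : ℝ) * Complex.I * r * cP u ∧ cR x = (6 : ℝ) * Complex.I * r * cR u := by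
  rw [hC] at hCP hRC
  constructor
  · apply mul_left_cancel₀ hC0
    push_cast at hCP ⊢
    linear_combination hCP
  · apply mul_left_cancel₀ (pow_ne_zero 3 hC0)
    push_cast at hRC ⊢
    linear_combination hRC

/-- the part common to all cases with `C = 0`, `P ≠ 0` -/
theorem i2_caseP {u x : V} (r : ℝ) (hC0 : cC u = 0) (hP0 : cP u ≠ 0)
    (hP : cP x = (2 : ℝ) * Complex.I * r * cP u)
    (hCP : cC x * cP u + cC u * cP x = 0)
    (hRP : cR x * conj (cP u) ^ 3 + cR u * (3 * conj (cP u) ^ 2 * conj (cP x)) = 0) :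
    cC x = (-2 : ℝ) * Complex.I * r * cC u ∧ cR x = (6 : ℝ) * Complex.I * r * cR u := by
  have hP0' : conj (cP u) ≠ 0 := fun h => hP0 (by simpa using congrArg conj h)
  rw [hP] at hRP
  rw [hC0, zero_mul, add_zero] at hCP
  constructor
  · rw [hC0, mul_zero]
    exact (mul_eq_zero.1 hCP).resolve_right hP0
  · apply mul_left_cancel₀ (pow_ne_zero 3 hP0')
    simp only [map_mul, Complex.conj_ofReal, Complex.conj_I] at hRP
    push_cast at hRP ⊢
    linear_combination hRP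

/-! ### the statements -/

theorem i2_ev_all {u x : V} (hu : u ≠ 0) (hx : QQ (u : Mat) (x : Mat) = 0)
    (h : ∀ j, D1 (eI j) u x = 0) :
    (rip (cQ u) (cQ x) = 0 ∧ rip (cC u) (cC x) = 0 ∧ rip (cP u) (cP x) = 0 ∧
      rip (cR u) (cR x) = 0) ∧ cC x * cP u + cC u * cP x = 0 ∧
      cR x * cC u ^ 3 + cR u * (3 * cC u ^ 2 * cC x) = 0 ∧
      cR x * conj (cP u) ^ 3 + cR u * (3 * conj (cP u) ^ 2 * conj (cP x)) = 0 := by
  have k := fun j => i2_ev0 hu hx (h j)
  have k0 : 2 * rip (cQ u) (cQ x) = 0 := k 0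
  have k1 : 2 * rip (cC u) (cC x) = 0 := k 1
  have k2 : 2 * rip (cP u) (cP x) = 0 := k 2
  have k3 : 2 * rip (cR u) (cR x) = 0 := k 3
  refine ⟨⟨by linarith, by linarith, by linarith, by linarith⟩, i2_z (k 4) (k 5),
    i2_z (k 6) (k 7), i2_z (k 8) (k 9)⟩

theorem i2_odd_all {u x : V} (hu : u ≠ 0) (hx : QQ (u : Mat) (x : Mat) = 0)
    (h : ∀ j, D1 (oI j) u x = 0) :
    c0 x = 0 ∧ cQ x * cC u ^ 2 + cQ u * (2 * cC u * cC x) = 0 ∧
      cQ x * conj (cP u) ^ 2 + cQ u * (2 * conj (cP u) * conj (cP x)) = 0 ∧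
      cR x * conj (cQ u) * cC u + cR u * conj (cQ x) * cC u + cR u * conj (cQ u) * cC x = 0 ∧
      cR x * conj (cQ u) * conj (cP u) + cR u * conj (cQ x) * conj (cP u)
        + cR u * conj (cQ u) * conj (cP x) = 0 ∧
      3 * cQ u ^ 2 * cQ x * conj (cR u) ^ 2 + cQ u ^ 3 * (2 * conj (cR u) * conj (cR x)) = 0 := by
  have k := fun j => i2_odd0 hu hx (h j)
  exact ⟨k 0, i2_z (k 1) (k 2), i2_z (k 3) (k 4), i2_z (k 5) (k 6), i2_z (k 7) (k 8),
    i2_z (k 9) (k 10)⟩

/-- some odd invariant does not vanish at a generic point -/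
theorem i2_some {u : V} (hu : Gen u) : ∃ i, oddI i u ≠ 0 := by
  have hc : ∀ z : ℂ, z ≠ 0 → conj z ≠ 0 := fun z hz h => hz (by simpa using congrArg conj h)
  rcases hu with ⟨hQ, hC | hP | hR⟩ | ⟨h0, -⟩
  · rcases i2_ne (mul_ne_zero hQ (pow_ne_zero 2 hC)) with h | h
    · exact ⟨1, h⟩
    · exact ⟨2, h⟩
  · rcases i2_ne (mul_ne_zero hQ (pow_ne_zero 2 (hc _ hP))) with h | h
    · exact ⟨3, h⟩
    · exact ⟨4, h⟩
  · rcases i2_ne (mul_ne_zero (pow_ne_zero 3 hQ) (pow_ne_zero 2 (hc _ hR))) with h | h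
    · exact ⟨9, h⟩
    · exact ⟨10, h⟩
  · exact ⟨0, h0⟩

theorem i2_Gen_ne {u : V} (hu : Gen u) : u ≠ 0 := by
  rintro rfl
  rcases hu with ⟨hQ, -⟩ | ⟨h0, -⟩
  · exact hQ (map_zero _)
  · exact h0 (map_zero _)

theorem i2_Od_ne {u : V} (hu : Od' u) : u ≠ 0 := by
  rintro rfl
  rcases hu.2 with h | h
  · exact h (map_zero _)
  · exact h (map_zero _)

theorem INV {u x : V} (hu : Gen u) (hx : QQ (u : Mat) (x : Mat) = 0)
    (h : ∀ a : E0, D1 (s0 a) u x = 0) : ∃ r : ℝ, x = r • rt u := by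
  have hu0 := i2_Gen_ne hu
  obtain ⟨⟨nQ, nC, nP, nR⟩, eCP, eRC, eRP⟩ := i2_ev_all hu0 hx fun j => h (Sum.inl j)
  have hO : ∀ j, D1 (oI j) u x = 0 := by
    obtain ⟨i, hi⟩ := i2_some hu
    have hi' := i2_odd_ne hu0 hi
    have k1 : D1 (oI i) u x = 0 := by
      have k := h (Sum.inr (i, i))
      have k' : D1 (fun u => oI i u * oI i u) u x = 0 := k
      rw [i2_D1_oo i i hu0] at k'
      have k2 : 2 * oI i u * D1 (oI i) u x = 0 := by linarith
      exact (mul_eq_zero.1 k2).resolve_left (mul_ne_zero two_ne_zero hi')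
    intro j
    have k := h (Sum.inr (i, j))
    have k' : D1 (fun u => oI i u * oI j u) u x = 0 := k
    rw [i2_D1_oo i j hu0, k1, zero_mul, zero_add] at k'
    exact (mul_eq_zero.1 k').resolve_left hi'
  obtain ⟨e0, eQC, eQP, eRQC, eRQP, eQR⟩ := i2_odd_all hu0 hx hO
  have hc : ∀ z : ℂ, z ≠ 0 → conj z ≠ 0 := fun z hz h => hz (by simpa using congrArg conj h)
  by_cases hQ0 : cQ u = 0
  · have hCP : cC u ≠ 0 ∨ cP u ≠ 0 := by
      rcases hu with ⟨hQ, -⟩ | ⟨-, h⟩
      · exact absurd hQ0 hQ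
      · exact h
    rw [hQ0] at eQC eQP
    by_cases hC0 : cC u = 0
    · have hP0 := hCP.resolve_left (fun h => h hC0)
      obtain ⟨r, hr⟩ := i2_rot hP0 nP 2 two_ne_zero
      obtain ⟨f1, f2⟩ := i2_caseP r hC0 hP0 hr eCP eRP
      refine ⟨r, i2_rt r e0 hr f2 f1 ?_⟩
      rw [hQ0, mul_zero]
      have := (mul_eq_zero.1 (by linear_combination eQP : cQ x * conj (cP u) ^ 2 = 0))
      exact this.resolve_right (pow_ne_zero 2 (hc _ hP0))
    · obtain ⟨r, hr⟩ := i2_rot hC0 nC (-2) (by norm_num)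
      obtain ⟨f1, f2⟩ := i2_caseC r hC0 hr eCP eRC
      refine ⟨r, i2_rt r e0 f1 f2 hr ?_⟩
      rw [hQ0, mul_zero]
      have := (mul_eq_zero.1 (by linear_combination eQC : cQ x * cC u ^ 2 = 0))
      exact this.resolve_right (pow_ne_zero 2 hC0)
  · obtain ⟨r, hr⟩ := i2_rot hQ0 nQ 4 (by norm_num)
    have hQ0' := hc _ hQ0
    have hr' : conj (cQ x) = -((4 : ℝ) * Complex.I * r) * conj (cQ u) := by
      rw [hr]
      simp only [map_mul, Complex.conj_ofReal, Complex.conj_I]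
      ring
    by_cases hC0 : cC u = 0
    · by_cases hP0 : cP u = 0
      · have hR0 : cR u ≠ 0 := by
          rcases hu with ⟨-, h | h | h⟩ | ⟨-, h | h⟩
          · exact absurd hC0 h
          · exact absurd hP0 h
          · exact h
          · exact absurd hC0 h
          · exact absurd hP0 h
        have hR0' := hc _ hR0
        have fR : conj (cR x) = -((6 : ℝ) * Complex.I * r) * conj (cR u) := by
          apply mul_left_cancel₀ (mul_ne_zero (mul_ne_zero two_ne_zero (pow_ne_zero 3 hQ0)) hR0')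
          rw [hr] at eQR
          push_cast at eQR ⊢
          linear_combination eQR
        have fR' : cR x = (6 : ℝ) * Complex.I * r * cR u := i2_conj 6 r fR
        have fC : cC x = 0 := by
          rw [hC0, mul_zero, mul_zero, zero_add, zero_add] at eRQC
          exact (mul_eq_zero.1 eRQC).resolve_left (mul_ne_zero hR0 hQ0')
        have fP : cP x = 0 := by
          rw [hP0, map_zero, mul_zero, mul_zero, zero_add, zero_add] at eRQP
          have := (mul_eq_zero.1 eRQP).resolve_left (mul_ne_zero hR0 hQ0')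
          simpa using congrArg conj this
        refine ⟨r, i2_rt r e0 ?_ fR' ?_ hr⟩
        · rw [fP, hP0, mul_zero]
        · rw [fC, hC0, mul_zero]
      · have hP0' := hc _ hP0
        have fP : conj (cP x) = -((2 : ℝ) * Complex.I * r) * conj (cP u) := by
          apply mul_left_cancel₀ (mul_ne_zero (mul_ne_zero two_ne_zero hQ0) hP0')
          rw [hr] at eQP
          push_cast at eQP ⊢
          linear_combination eQP
        have fP' : cP x = (2 : ℝ) * Complex.I * r * cP u := i2_conj 2 r fP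
        obtain ⟨f1, f2⟩ := i2_caseP r hC0 hP0 fP' eCP eRP
        exact ⟨r, i2_rt r e0 fP' f2 f1 hr⟩
    · have fC : cC x = (-2 : ℝ) * Complex.I * r * cC u := by
        apply mul_left_cancel₀ (mul_ne_zero (mul_ne_zero two_ne_zero hQ0) hC0)
        rw [hr] at eQC
        push_cast at eQC ⊢
        linear_combination eQC
      obtain ⟨f1, f2⟩ := i2_caseC r hC0 fC eCP eRC
      exact ⟨r, i2_rt r e0 f1 f2 fC hr⟩

theorem INV_odd {u x : V} (hu : Od' u) (hxo : Od x) (hx : QQ (u : Mat) (x : Mat) = 0)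
    (h : ∀ j, D1 (eI j) u x = 0) : ∃ r : ℝ, x = r • rt u := by
  have hu0 := i2_Od_ne hu
  obtain ⟨⟨nQ, nC, nP, nR⟩, eCP, eRC, eRP⟩ := i2_ev_all hu0 hx h
  obtain ⟨hc0, hcQ⟩ := hu.1
  obtain ⟨hx0, hxQ⟩ := hxo
  by_cases hC0 : cC u = 0
  · have hP0 := hu.2.resolve_left (fun h => h hC0)
    obtain ⟨r, hr⟩ := i2_rot hP0 nP 2 two_ne_zero
    obtain ⟨f1, f2⟩ := i2_caseP r hC0 hP0 hr eCP eRP
    refine ⟨r, i2_rt r hx0 hr f2 f1 ?_⟩
    rw [hcQ, hxQ, mul_zero]
  · obtain ⟨r, hr⟩ := i2_rot hC0 nC (-2) (by norm_num)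
    obtain ⟨f1, f2⟩ := i2_caseC r hC0 hr eCP eRC
    refine ⟨r, i2_rt r hx0 f1 f2 hr ?_⟩
    rw [hcQ, hxQ, mul_zero]

theorem i2_orth {u x : V} (hu : Od u) (hx : Ev x) : QQ (u : Mat) (x : Mat) = 0 := by
  rw [QQ_coords, hu.1, hu.2, hx.1, hx.2.1, hx.2.2]
  simp [rip]

theorem INV_odd' {u x : V} (hu : Od' u) (hxe : Ev x) (h : ∀ k, D1 (oI k) u x = 0) : x = 0 := by
  have hu0 := i2_Od_ne hu
  obtain ⟨e0, eQC, eQP, -, -, -⟩ := i2_odd_all hu0 (i2_orth hu.1 hxe) h
  have hc : ∀ z : ℂ, z ≠ 0 → conj z ≠ 0 := fun z hz h => hz (by simpa using congrArg conj h)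
  rw [hu.1.2, zero_mul, add_zero] at eQC eQP
  have fQ : cQ x = 0 := by
    rcases hu.2 with h1 | h1
    · exact (mul_eq_zero.1 eQC).resolve_right (pow_ne_zero 2 h1)
    · exact (mul_eq_zero.1 eQP).resolve_right (pow_ne_zero 2 (hc _ h1))
  apply ext_coords
  · rw [e0, map_zero]
  · rw [hxe.1, map_zero]
  · rw [hxe.2.1, map_zero]
  · rw [hxe.2.2, map_zero]
  · rw [fQ, map_zero]

theorem i2_oddI_Od {u : V} (hu : Od u) (k : Fin 11) : oddI k u = 0 := by
  obtain ⟨h0, hQ⟩ := hu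
  fin_cases k <;> simp [oddI, h0, hQ]

theorem oI_Od {u : V} (hu : Od u) (k : Fin 11) : oI k u = 0 := by
  unfold oI
  rw [i2_oddI_Od hu, zero_div]

theorem D1_oI_Od {u x : V} (h0' : u ≠ 0) (hu : Od u) (hx : Od x) (k : Fin 11) :
    D1 (oI k) u x = 0 := by
  refine i2_line (i2_quot_diff _ h0' (i2_odd_diff k u)) ?_
  have e : (fun t : ℝ => oI k (u + t • x)) = fun _ => 0 := funext fun t => by
    have h1 : Od (u + t • x) := by
      refine ⟨?_, ?_⟩
      · rw [map_add, map_smul, hu.1, hx.1, smul_zero, add_zero]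
      · rw [map_add, map_smul, hu.2, hx.2, smul_zero, add_zero]
    exact oI_Od h1 k
  rw [e]
  exact hasDerivAt_const _ _

theorem D1_eI_Ev {u x : V} (h0' : u ≠ 0) (hu : Od u) (hx : Ev x) (j : Fin 10) :
    D1 (eI j) u x = 0 := by
  rw [i2_D1_eI j h0' (i2_orth hu hx)]
  obtain ⟨h0, hQ⟩ := hu
  obtain ⟨hP, hR, hC⟩ := hx
  have : i2dE u x j = 0 := by
    fin_cases j <;> simp [i2dE, rip, hQ, hP, hR, hC]
  rw [this, zero_div]

end Pool.Agent.FL.S1
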