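import Pool.Agent.FL.S1Hub
import Pool.Agent.helper79.FR.Cont

/-!
# MP_f09395_gt, space (1): the odd and even parts of `𝔪`, modules S2, S3, S4

`VEvn = {P = R = C = 0}` (weights `0, 4`), `VOdd = {c0 = Q = 0}` (weights `2, 6, -2`);
`τ = -Ad(diag(i, -i))` is `1` on `VOdd` and `-1` on `VEvn`.
-/

noncomputable section

namespace Pool.Agent.FL.S1

open scoped ContDiff Quaternion Matrix ComplexConjugate
open Pool.Agent.Helper93.Fin Pool.Agent.helper79.FP Pool.Agent.helper79.FR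
open Pool.Agent.helper79.FR.Sp2 (Mat QQ h0 m gg hh PP BB cc)
open Pool.Agent.FL

attribute [local instance] Matrix.linftyOpNormedRing Matrix.linftyOpNormedAlgebra

/-- the odd part of `𝔪` -/
def VOdd : Submodule ℝ V where
  carrier := {u | c0 u = 0 ∧ cQ u = 0}
  zero_mem' := by simp
  add_mem' := by
    rintro u v ⟨h1, h2⟩ ⟨k1, k2⟩
    exact ⟨by rw [map_add, h1, k1, add_zero], by rw [map_add, h2, k2, add_zero]⟩
  smul_mem' := by
    rintro r u ⟨h1, h2⟩
    exact ⟨by rw [map_smul, h1, smul_zero], by rw [map_smul, h2, smul_zero]⟩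

/-- the even part of `𝔪` -/
def VEvn : Submodule ℝ V where
  carrier := {u | cP u = 0 ∧ cR u = 0 ∧ cC u = 0}
  zero_mem' := by simp
  add_mem' := by
    rintro u v ⟨h1, h2, h3⟩ ⟨k1, k2, k3⟩
    exact ⟨by rw [map_add, h1, k1, add_zero], by rw [map_add, h2, k2, add_zero],
      by rw [map_add, h3, k3, add_zero]⟩
  smul_mem' := by
    rintro r u ⟨h1, h2, h3⟩
    exact ⟨by rw [map_smul, h1, smul_zero], by rw [map_smul, h2, smul_zero],
      by rw [map_smul, h3, smul_zero]⟩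

theorem mem_VOdd {u : V} : u ∈ VOdd ↔ Od u := Iff.rfl
theorem mem_VEvn {u : V} : u ∈ VEvn ↔ Ev u := Iff.rfl

/-- `τ` -/
def tau (u : V) : V := mkV (-(c0 u)) (cP u) (cR u) (cC u) (-(cQ u))

@[simp] theorem c0_tau (u : V) : c0 (tau u) = -(c0 u) := rfl
@[simp] theorem cP_tau (u : V) : cP (tau u) = cP u := rfl
@[simp] theorem cR_tau (u : V) : cR (tau u) = cR u := rfl
@[simp] theorem cC_tau (u : V) : cC (tau u) = cC u := rfl
@[simp] theorem cQ_tau (u : V) : cQ (tau u) = -(cQ u) := rfl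

/-! ### coordinates of `[h₀, X]` -/

theorem rt_0 (X : V) : c0 (rt X) = 0 := by rw [rt_eq]; rfl
theorem rt_P (X : V) : cP (rt X) = 2 * Complex.I * cP X := by rw [rt_eq]; rfl
theorem rt_R (X : V) : cR (rt X) = 6 * Complex.I * cR X := by rw [rt_eq]; rfl
theorem rt_C (X : V) : cC (rt X) = -2 * Complex.I * cC X := by rw [rt_eq]; rfl
theorem rt_Q (X : V) : cQ (rt X) = 4 * Complex.I * cQ X := by rw [rt_eq]; rfl

/-! ### brackets -/

theorem br_odd_odd {u x : V} (hu : u ∈ VOdd) (hx : x ∈ VOdd) : br u x ∈ VEvn := by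
  obtain ⟨a1, a2⟩ := hu
  obtain ⟨b1, b2⟩ := hx
  refine ⟨?_, ?_, ?_⟩
  · rw [br_P, a1, a2, b1, b2]; simp
  · rw [br_R, a1, a2, b1, b2]; simp
  · rw [br_C, a1, a2, b1, b2]; simp

theorem br_odd_evn {u x : V} (hu : u ∈ VOdd) (hx : x ∈ VEvn) : br u x ∈ VOdd := by
  obtain ⟨a1, a2⟩ := hu
  obtain ⟨b1, b2, b3⟩ := hx
  refine ⟨?_, ?_⟩
  · rw [br_0, a2, b1, b2, b3]; simp [imp]
  · rw [br_Q, a1, a2, b1, b2, b3]; simp

theorem br_evn_odd {u x : V} (hu : u ∈ VEvn) (hx : x ∈ VOdd) : br u x ∈ VOdd := by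
  obtain ⟨a1, a2, a3⟩ := hu
  obtain ⟨b1, b2⟩ := hx
  refine ⟨?_, ?_⟩
  · rw [br_0, a1, a2, a3, b2]; simp [imp]
  · rw [br_Q, a1, a2, a3, b1, b2]; simp

theorem br_evn_evn {u x : V} (hu : u ∈ VEvn) (hx : x ∈ VEvn) : br u x ∈ VEvn := by
  obtain ⟨a1, a2, a3⟩ := hu
  obtain ⟨b1, b2, b3⟩ := hx
  refine ⟨?_, ?_, ?_⟩
  · rw [br_P, a1, a3, b1, b3]; simp
  · rw [br_R, a2, a3, b2, b3]; simp
  · rw [br_C, a1, a2, a3, b1, b2, b3]; simp

theorem rt_odd {u : V} (hu : u ∈ VOdd) : rt u ∈ VOdd := by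
  obtain ⟨a1, a2⟩ := hu
  refine ⟨rt_0 u, ?_⟩
  rw [rt_Q, a2, mul_zero]

theorem rt_evn {u : V} (hu : u ∈ VEvn) : rt u ∈ VEvn := by
  obtain ⟨a1, a2, a3⟩ := hu
  refine ⟨?_, ?_, ?_⟩
  · rw [rt_P, a1, mul_zero]
  · rw [rt_R, a2, mul_zero]
  · rw [rt_C, a3, mul_zero]

theorem odd_evn_zero {u : V} (h1 : u ∈ VOdd) (h2 : u ∈ VEvn) : u = 0 := by
  obtain ⟨a1, a2⟩ := h1
  obtain ⟨b1, b2, b3⟩ := h2
  exact ext_coords (by rw [a1, map_zero]) (by rw [b1, map_zero]) (by rw [b2, map_zero])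
    (by rw [b3, map_zero]) (by rw [a2, map_zero])

/-- the odd part -/
def oddP (u : V) : V := mkV 0 (cP u) (cR u) (cC u) 0

/-- the even part -/
def evnP (u : V) : V := mkV (c0 u) 0 0 0 (cQ u)

theorem oddP_mem (u : V) : oddP u ∈ VOdd := ⟨rfl, rfl⟩
theorem evnP_mem (u : V) : evnP u ∈ VEvn := ⟨rfl, rfl, rfl⟩

theorem oddP_add_evnP (u : V) : u = oddP u + evnP u := by
  apply ext_coords
  · rw [map_add]; simp [oddP, evnP]
  · rw [map_add]; simp [oddP, evnP]
  · rw [map_add]; simp [oddP, evnP]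
  · rw [map_add]; simp [oddP, evnP]
  · rw [map_add]; simp [oddP, evnP]

/-- decomposition -/
theorem odd_evn_split (u : V) : ∃ x ∈ VOdd, ∃ y ∈ VEvn, u = x + y :=
  ⟨oddP u, oddP_mem u, evnP u, evnP_mem u, oddP_add_evnP u⟩

/-- the two parts are orthogonal -/
theorem odd_evn_perp {u x : V} (hu : u ∈ VOdd) (hx : x ∈ VEvn) : QQ (u : Mat) x = 0 := by
  obtain ⟨a1, a2⟩ := hu
  obtain ⟨b1, b2, b3⟩ := hx
  rw [QQ_coords, a1, a2, b1, b2, b3]
  simp [rip]

theorem evn_odd_perp {u x : V} (hu : u ∈ VEvn) (hx : x ∈ VOdd) : QQ (u : Mat) x = 0 := by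
  rw [Pool.Agent.helper79.FR.Sp2.QQ_comm]; exact odd_evn_perp hx hu

/-! ### `τ` -/

theorem tau_odd {u : V} : tau u = u ↔ u ∈ VOdd := by
  constructor
  · intro h
    have h1 : c0 (tau u) = c0 u := by rw [h]
    have h2 : cQ (tau u) = cQ u := by rw [h]
    rw [c0_tau] at h1
    rw [cQ_tau] at h2
    refine ⟨by linarith, ?_⟩
    have h3 : (2 : ℂ) * cQ u = 0 := by linear_combination -h2
    simpa using h3
  · rintro ⟨a1, a2⟩
    exact ext_coords (by rw [c0_tau, a1, neg_zero]) rfl rfl rfl (by rw [cQ_tau, a2, neg_zero])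

theorem tau_evn {u : V} : tau u = -u ↔ u ∈ VEvn := by
  constructor
  · intro h
    have h1 : cP (tau u) = cP (-u) := by rw [h]
    have h2 : cR (tau u) = cR (-u) := by rw [h]
    have h3 : cC (tau u) = cC (-u) := by rw [h]
    rw [cP_tau, map_neg] at h1
    rw [cR_tau, map_neg] at h2
    rw [cC_tau, map_neg] at h3
    refine ⟨?_, ?_, ?_⟩
    · have : (2 : ℂ) * cP u = 0 := by linear_combination h1
      simpa using this
    · have : (2 : ℂ) * cR u = 0 := by linear_combination h2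
      simpa using this
    · have : (2 : ℂ) * cC u = 0 := by linear_combination h3
      simpa using this
  · rintro ⟨b1, b2, b3⟩
    exact ext_coords (by rw [c0_tau, map_neg]) (by rw [cP_tau, map_neg, b1, neg_zero])
      (by rw [cR_tau, map_neg, b2, neg_zero]) (by rw [cC_tau, map_neg, b3, neg_zero])
      (by rw [cQ_tau, map_neg])

theorem tau_tau (u : V) : tau (tau u) = u :=
  ext_coords (by simp) (by simp) (by simp) (by simp) (by simp)

theorem tau_add (u x : V) : tau (u + x) = tau u + tau x := by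
  apply ext_coords <;> simp [add_comm]

theorem tau_smul (r : ℝ) (u : V) : tau (r • u) = r • tau u := by
  apply ext_coords <;> simp

theorem tau_neg (u : V) : tau (-u) = -tau u := by
  apply ext_coords <;> simp

/-- `τ` is orthogonal -/
theorem QQ_tau (u x : V) : QQ (tau u : Mat) (tau x) = QQ (u : Mat) x := by
  rw [QQ_coords, QQ_coords]
  simp [rip]

/-- the element `diag(i, -i)` -/
def kI : Matˣ where
  val := Pool.Agent.helper79.FR.Sp2.dg 1 3 Complex.I
  inv := Pool.Agent.helper79.FR.Sp2.dg 1 3 (-Complex.I)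
  val_inv := by
    rw [Pool.Agent.helper79.FR.Sp2.dg, Pool.Agent.helper79.FR.Sp2.dg,
      Matrix.diagonal_mul_diagonal, ← Matrix.diagonal_one]
    congr 1
    funext i
    fin_cases i
    · show ((Complex.I ^ 1 : ℂ) : ℍ[ℝ]) * (((-Complex.I) ^ 1 : ℂ) : ℍ[ℝ]) = 1
      rw [← Quaternion.coeComplex_mul]
      simp
    · show ((Complex.I ^ 3 : ℂ) : ℍ[ℝ]) * (((-Complex.I) ^ 3 : ℂ) : ℍ[ℝ]) = 1
      rw [← Quaternion.coeComplex_mul, ← mul_pow]
      simp
  inv_val := by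
    rw [Pool.Agent.helper79.FR.Sp2.dg, Pool.Agent.helper79.FR.Sp2.dg,
      Matrix.diagonal_mul_diagonal, ← Matrix.diagonal_one]
    congr 1
    funext i
    fin_cases i
    · show (((-Complex.I) ^ 1 : ℂ) : ℍ[ℝ]) * ((Complex.I ^ 1 : ℂ) : ℍ[ℝ]) = 1
      rw [← Quaternion.coeComplex_mul]
      simp
    · show (((-Complex.I) ^ 3 : ℂ) : ℍ[ℝ]) * ((Complex.I ^ 3 : ℂ) : ℍ[ℝ]) = 1
      rw [← Quaternion.coeComplex_mul, ← mul_pow]
      simp

theorem kI_mem : kI ∈ Pool.Agent.helper79.FR.Sp2.H 1 3 :=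
  ⟨Complex.I, by simp, rfl⟩

theorem kI_mat : (kI : Mat) = !![qt 0 1 0 0, 0; 0, qt 0 (-1) 0 0] := by
  show Pool.Agent.helper79.FR.Sp2.dg 1 3 Complex.I = _
  rw [Pool.Agent.helper79.FR.Sp2.dg]
  ext i j : 1
  fin_cases i <;> fin_cases j
  · ext <;> simp
  · ext <;> simp
  · ext <;> simp
  · have : Complex.I ^ 3 = -Complex.I := by
      rw [pow_succ, Complex.I_sq]; ring
    ext <;> simp [this]

theorem kI_inv_mat : ((kI⁻¹ : Matˣ) : Mat) = !![qt 0 (-1) 0 0, 0; 0, qt 0 1 0 0] := by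
  show Pool.Agent.helper79.FR.Sp2.dg 1 3 (-Complex.I) = _
  rw [Pool.Agent.helper79.FR.Sp2.dg]
  ext i j : 1
  fin_cases i <;> fin_cases j
  · ext <;> simp
  · ext <;> simp
  · ext <;> simp
  · have : (-Complex.I) ^ 3 = Complex.I := by
      have h : Complex.I ^ 2 = -1 := Complex.I_sq
      linear_combination -Complex.I * h
    ext <;> simp [this]

/-- `Ad(diag(i, -i)) = -τ` -/
theorem Adj_kI (u : V) : Adj kI (u : Mat) = ((-tau u : V) : Mat) := by
  have h1 : (-tau u : V) = mkV (c0 u) (-cP u) (-cR u) (-cC u) (cQ u) :=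
    ext_coords (by simp) (by simp) (by simp) (by simp) (by simp)
  rw [h1, mkV_coe, Adj, kI_mat, kI_inv_mat]
  conv_lhs => rw [coords u, mkV_coe]
  ext i j : 1
  fin_cases i <;> fin_cases j <;> ext <;>
    simp [mkMat, Matrix.mul_apply, Fin.sum_univ_two, Quaternion.re_mul, Quaternion.imI_mul,
      Quaternion.imJ_mul, Quaternion.imK_mul]

section adm

variable {v : V → ℝ}

/-- every admissible function is `τ`-invariant -/
theorem v_tau (hv : PhiN (hh 1 3) (m 1 3) (PP 1 3) v)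
    (hH : InvH (Pool.Agent.helper79.FR.Sp2.H 1 3) v) (u : V) : v (tau u) = v u := by
  have h1 : v (-tau u) = v u := hH kI kI_mem u (-tau u) (Adj_kI u).symm
  have h2 : v (-tau u) = v (tau u) := by
    have := hv.hom (-1) (tau u)
    rw [neg_one_smul] at this
    rw [this]; ring
  rw [← h2, h1]

/-- `τ` as a continuous linear equivalence -/
def tauL : V ≃L[ℝ] V :=
  LinearEquiv.toContinuousLinearEquiv
    { toFun := tau
      invFun := tau
      map_add' := tau_add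
      map_smul' := tau_smul
      left_inv := tau_tau
      right_inv := tau_tau }

theorem tauL_apply (u : V) : tauL u = tau u := rfl

theorem fd_tau (hv : PhiN (hh 1 3) (m 1 3) (PP 1 3) v)
    (hH : InvH (Pool.Agent.helper79.FR.Sp2.H 1 3) v) (u w : V) :
    fderiv ℝ v (tau u) (tau w) = fderiv ℝ v u w := by
  have h1 : v ∘ tauL = v := funext fun z => v_tau hv hH z
  have h2 : fderiv ℝ (v ∘ tauL) u = (fderiv ℝ v (tauL u)).comp (tauL : V →L[ℝ] V) :=
    tauL.comp_right_fderiv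
  rw [h1] at h2
  rw [h2]; rfl

/-- the gradient is `τ`-equivariant -/
theorem gx_tau (hv : PhiN (hh 1 3) (m 1 3) (PP 1 3) v)
    (hH : InvH (Pool.Agent.helper79.FR.Sp2.H 1 3) v) (u : V) :
    gx QQ v (tau u) = tau (gx QQ v u) := by
  apply rep_unique nD
  intro w
  have h1 : w = tau (tau w) := (tau_tau w).symm
  have h2 : QQ (gx QQ v (tau u) : Mat) w = fderiv ℝ v u (tau w) := by
    rw [gx_spec nD, D1]
    conv_lhs => rw [h1]
    exact fd_tau hv hH u (tau w)
  have h3 : QQ (tau (gx QQ v u) : Mat) w = fderiv ℝ v u (tau w) := by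
    conv_lhs => rw [h1]
    rw [QQ_tau, gx_spec nD]
    rfl
  rw [h2, h3]

/-- (S4) the gradient at an odd point is odd -/
theorem S4o (hv : PhiN (hh 1 3) (m 1 3) (PP 1 3) v)
    (hH : InvH (Pool.Agent.helper79.FR.Sp2.H 1 3) v) {u : V} (hu : u ∈ VOdd) :
    gx QQ v u ∈ VOdd := by
  rw [← tau_odd, ← gx_tau hv hH, tau_odd.2 hu]

/-- (S4) `e(u)` is even at odd points -/
theorem S4e' (hv : PhiN (hh 1 3) (m 1 3) (PP 1 3) v)
    (hH : InvH (Pool.Agent.helper79.FR.Sp2.H 1 3) v) {u : V} (hu : u ∈ VOdd) :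
    br u (gx QQ v u) ∈ VEvn := br_odd_odd hu (S4o hv hH hu)

/-- S4: the gradient -/
theorem S4g (hv : Ph v) {u : V} (_hu0 : u ≠ 0) (hu : Od u) : Od (gd v u) := S4o hv.phi hv.inv hu

/-- S4: the Euler field -/
theorem S4e (hv : Ph v) {u : V} (_hu0 : u ≠ 0) (hu : Od u) : Ev (eu v u) :=
  S4e' hv.phi hv.inv hu

end adm

/-! ### S3 -/

theorem BB_neg (u : V) : BB 1 3 (-u) = -BB 1 3 u := by
  have := cD.Bhom (-1) u
  rwa [neg_one_smul, neg_one_smul] at this

theorem Adj_neg' (k : Matˣ) (X : Mat) : Adj k (-X) = -Adj k X := by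
  simp [Adj]

theorem BB_tau (u : V) : BB 1 3 (tau u) = -Adj kI (BB 1 3 u) := by
  have h1 := gD.B kI kI_mem u (-tau u) (Adj_kI u).symm
  rw [BB_neg] at h1
  rw [← h1, neg_neg]

theorem QQ_BB_tau (u x : V) : QQ (BB 1 3 (tau u)) (tau x : Mat) = QQ (BB 1 3 u) x := by
  have h1 : ((tau x : V) : Mat) = -Adj kI (x : Mat) := by
    rw [Adj_kI]; simp
  rw [h1, BB_tau, map_neg, map_neg, LinearMap.neg_apply, neg_neg,
    Pool.Agent.helper79.FR.Sp2.QQ_Adj]

/-- (S3) a regular flag at an odd `u` is odd -/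
theorem S3 {u b : V} (hF : Fl u b) (hw : QQ (BB 1 3 u) (b : Mat) ≠ 0) (hu : Od u) : Od b := by
  have h1 := cD.flat u b hF
  have h2 : BB 1 3 u = -Adj kI (BB 1 3 u) := by
    have := BB_tau u
    rwa [tau_odd.2 hu] at this
  rw [← mem_VOdd, ← tau_odd]
  apply Subtype.ext
  have h3 : ((tau b : V) : Mat) = -Adj kI (b : Mat) := by
    rw [Adj_kI]; simp
  rw [h3]
  rw [h1, Pool.Agent.helper79.FR.Sp2.Adj_smul, ← smul_neg] at h2
  exact (smul_right_injective Mat hw h2).symm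

/-! ### S2 -/

theorem rt_eq_zero {x : V} (h : rt x = 0) : cP x = 0 ∧ cR x = 0 ∧ cC x = 0 ∧ cQ x = 0 := by
  have hP := rt_P x
  have hR := rt_R x
  have hC := rt_C x
  have hQ := rt_Q x
  rw [h, map_zero] at hP hR hC hQ
  refine ⟨?_, ?_, ?_, ?_⟩
  · simpa using hP.symm
  · simpa using hR.symm
  · simpa using hC.symm
  · simpa using hQ.symm

theorem rt_sub_smul (b u : V) (t : ℝ) : rt (b - t • u) = rt b - t • rt u := by
  apply ext_coords
  · simp [rt_0]
  · rw [map_sub, map_smul, rt_P, rt_P, rt_P, map_sub, map_smul]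
    simp only [Complex.real_smul]; ring
  · rw [map_sub, map_smul, rt_R, rt_R, rt_R, map_sub, map_smul]
    simp only [Complex.real_smul]; ring
  · rw [map_sub, map_smul, rt_C, rt_C, rt_C, map_sub, map_smul]
    simp only [Complex.real_smul]; ring
  · rw [map_sub, map_smul, rt_Q, rt_Q, rt_Q, map_sub, map_smul]
    simp only [Complex.real_smul]; ring

/-- the centraliser of the diagonal element -/
theorem cent_l {u z : V} (h : br u z = 0) (hP : cP z = 0) (hR : cR z = 0) (hC : cC z = 0)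
    (hQ : cQ z = 0) (h0 : c0 z ≠ 0) : cP u = 0 ∧ cR u = 0 ∧ cC u = 0 ∧ cQ u = 0 := by
  have k0 : ((c0 z : ℝ) : ℂ) ≠ 0 := by exact_mod_cast h0
  have hI : Complex.I ≠ 0 := Complex.I_ne_zero
  have key : ∀ (n : ℂ) (x : ℂ), n ≠ 0 → (n * Complex.I * (c0 z : ℂ)) * x = 0 → x = 0 := by
    intro n x hn hx
    rcases mul_eq_zero.1 hx with h' | h'
    · exact absurd h' (mul_ne_zero (mul_ne_zero hn hI) k0)
    · exact h'
  refine ⟨?_, ?_, ?_, ?_⟩
  · have e := br_P u z
    rw [h, map_zero, hP, hC, hQ] at e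
    exact key 6 _ (by norm_num) (by linear_combination -e)
  · have e := br_R u z
    rw [h, map_zero, hR, hC, hQ, map_zero] at e
    exact key 2 _ (by norm_num) (by linear_combination e)
  · have e := br_C u z
    rw [h, map_zero, hP, hR, hC, hQ, map_zero] at e
    exact key 4 _ (by norm_num) (by linear_combination -e)
  · have e := br_Q u z
    rw [h, map_zero, hP, hR, hC, hQ, map_zero] at e
    exact key 2 _ (by norm_num) (by linear_combination -e)

/-- (S2) -/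
theorem S2n {u b : V} (hF : Fl u b) (t : ℝ) : rt b ≠ t • rt u := by
  intro h
  have h1 : rt (b - t • u) = 0 := by rw [rt_sub_smul, h, sub_self]
  obtain ⟨hP, hR, hC, hQ⟩ := rt_eq_zero h1
  obtain ⟨f1, f2, f3, f4⟩ := hF
  have hlie : ⁅(u : Mat), ((b - t • u : V) : Mat)⁆ = 0 := by
    rw [Submodule.coe_sub, Submodule.coe_smul, Ring.lie_def, mul_sub, sub_mul, mul_smul_comm,
      smul_mul_assoc]
    rw [Ring.lie_def] at f4
    have : (u : Mat) * b - t • ((u : Mat) * u) - ((b : Mat) * u - t • ((u : Mat) * u)) =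
      (u : Mat) * b - (b : Mat) * u := by abel
    rw [this, f4]
  have h2 := ((lie_eq_zero_iff u (b - t • u)).1 hlie).1
  have hne : c0 (b - t • u) ≠ 0 := by
    intro h0
    have h3 : b - t • u = 0 := ext_coords (by rw [h0, map_zero]) (by rw [hP, map_zero])
      (by rw [hR, map_zero]) (by rw [hC, map_zero]) (by rw [hQ, map_zero])
    have h4 : b = t • u := sub_eq_zero.1 h3
    rw [h4, Submodule.coe_smul, map_smul, smul_eq_mul, f1, mul_one] at f3
    rw [h4, f3, zero_smul] at f2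
    simp at f2
  obtain ⟨uP, uR, uC, uQ⟩ := cent_l h2 hP hR hC hQ hne
  have bP : cP b = 0 := by
    have := hP; rw [map_sub, map_smul, uP] at this; simpa using this
  have bR : cR b = 0 := by
    have := hR; rw [map_sub, map_smul, uR] at this; simpa using this
  have bC : cC b = 0 := by
    have := hC; rw [map_sub, map_smul, uC] at this; simpa using this
  have bQ : cQ b = 0 := by
    have := hQ; rw [map_sub, map_smul, uQ] at this; simpa using this
  rw [QQ_coords, uP, uR, uC, uQ] at f1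
  rw [QQ_coords, bP, bR, bC, bQ] at f2
  rw [QQ_coords, uP, uR, uC, uQ] at f3
  simp only [rip, Complex.zero_re, Complex.zero_im, zero_mul, mul_zero, add_zero] at f1 f2 f3
  have g1 : (c0 u * c0 b) = 0 := by linarith
  rcases mul_eq_zero.1 g1 with h' | h'
  · rw [h'] at f1; norm_num at f1
  · rw [h'] at f2; norm_num at f2

end Pool.Agent.FL.S1
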