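import Pool.Agent.FL.S1G1core
import Pool.Agent.FL.S1I1
import Pool.Agent.FL.S1I2
import Pool.Agent.FL.S1S2

/-!
# MP_f09395_gt, space (1): generic finite type of the tower at generic points with `e ∉ ℝ [h₀,u]`
-/

set_option linter.unusedSectionVars false

noncomputable section

namespace Pool.Agent.FL.S1

open scoped ContDiff Quaternion Matrix ComplexConjugate
open Pool.Agent.Helper93.Fin Pool.Agent.helper79.FP Pool.Agent.helper79.FR
open Pool.Agent.helper79.FR.Sp2 (Mat QQ h0 m gg hh PP BB cc)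
open Pool.Agent.FL
open Pool.Agent.FL.Wall (ef EE LamE LamW)
open Pool.Agent.helper90.FL (Negl)
open Filter Topology Module

attribute [local instance] Matrix.linftyOpNormedRing Matrix.linftyOpNormedAlgebra

/-- G1 -/
theorem G1 {v χ : V → ℝ} (hv : Ph v) (hχ : I0 χ) :
    Negl {p : FI → ℝ | ∃ u b, Fl u b ∧ (χ =ᶠ[𝓝 u] fun _ => 1) ∧ Gen u ∧
      (∀ r : ℝ, eu (pt v χ p) u ≠ r • rt u) ∧ ∀ j < NT, Aj (pt v χ p) j u (b : Mat) = 0} :=
  G1_core hv hχ fam_Ph sF_I0 two_sF INV S2n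

end Pool.Agent.FL.S1
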