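import Pool.Agent.FL.ETow
import Pool.Agent.FL.S1I1
import Pool.Agent.FL.S1S2
import Pool.Agent.FL.S1I2

/-!
# MP_f09395_gt, space (1), module G2: generic finite type at odd points with `e ≠ 0`
-/

set_option linter.unusedSectionVars false

noncomputable section

namespace Pool.Agent.FL.S1

open scoped ContDiff Quaternion Matrix ComplexConjugate
open Pool.Agent.Helper93.Fin Pool.Agent.helper79.FP Pool.Agent.helper79.FR
open Pool.Agent.helper79.FR.Sp2 (Mat QQ h0 m gg hh PP BB cc)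
open Pool.Agent.FL
open Pool.Agent.FL.Wall (ef EE LamE LamW)
open Pool.Agent.helper90.FL (Negl)
open Filter Topology Module

attribute [local instance] Matrix.linftyOpNormedRing Matrix.linftyOpNormedAlgebra

namespace G2

/-- the towers of the hub are those of `ETow` -/
theorem Aj_lamT (v : V → ℝ) (j : ℕ) : Aj v j = lamT QQ (PP 1 3) (h0 1 3) v j := by
  induction j with
  | zero => rfl
  | succ j ih =>
    show LamE QQ (PP 1 3) v (Aj v j) = LamE QQ (PP 1 3) v (lamT QQ (PP 1 3) (h0 1 3) v j)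
    rw [ih]

/-- the coordinates as one linear map -/
def coL : V →ₗ[ℝ] ℝ × ℂ × ℂ × ℂ × ℂ :=
  (c0 : V →ₗ[ℝ] ℝ).prod ((cP : V →ₗ[ℝ] ℂ).prod ((cR : V →ₗ[ℝ] ℂ).prod
    ((cC : V →ₗ[ℝ] ℂ).prod (cQ : V →ₗ[ℝ] ℂ))))

theorem coL_inj : Function.Injective coL := by
  intro u v h
  have h0 : c0 u = c0 v := congrArg (fun z => z.1) h
  have hP : cP u = cP v := congrArg (fun z => z.2.1) h
  have hR : cR u = cR v := congrArg (fun z => z.2.2.1) h
  have hC : cC u = cC v := congrArg (fun z => z.2.2.2.1) h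
  have hQ : cQ u = cQ v := congrArg (fun z => z.2.2.2.2) h
  exact ext_coords h0 hP hR hC hQ

theorem finrank_V_le : finrank ℝ V ≤ 9 := by
  refine (LinearMap.finrank_le_finrank_of_injective coL_inj).trans ?_
  simp [Complex.finrank_real_complex]

theorem finrank_Mat : finrank ℝ Mat = 16 := by
  unfold Mat
  rw [Module.finrank_matrix, Quaternion.finrank_eq_four]
  simp

theorem finrank_lt : finrank ℝ (V × Mat) < 26 := by
  rw [Module.finrank_prod, finrank_Mat]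
  have := finrank_V_le
  omega

theorem QQ_rt {u b : V} (h : Fl u b) : QQ (u : Mat) (rt b : Mat) = 0 := by
  have e1 : QQ (u : Mat) (rt b : Mat) = QQ (u : Mat) ⁅h0 1 3, (b : Mat)⁆ :=
    Q_P nD u (lg nD (nD.red.h_le cD.mem) (mg nD b))
  have e2 : ⁅(b : Mat), (u : Mat)⁆ = 0 := by
    have e3 := h.2.2.2
    rw [Ring.lie_def, sub_eq_zero] at e3 ⊢
    exact e3.symm
  rw [e1, nD.Qsymm, nD.Qinv, e2, map_zero]

theorem split (x : V) : ∃ y z : V, Od y ∧ Ev z ∧ x = y + z :=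
  ⟨mkV 0 (cP x) (cR x) (cC x) 0, mkV (c0 x) 0 0 0 (cQ x), ⟨rfl, rfl⟩, ⟨rfl, rfl, rfl⟩, by
    apply ext_coords <;> rw [map_add] <;> simp⟩

end G2

open G2

/-- G2 (helper38) -/
theorem G2 {v χ : V → ℝ} (hv : Ph v) (hχ : I0 χ) :
    Negl {p : FI → ℝ | ∃ u b, Fl u b ∧ (χ =ᶠ[𝓝 u] fun _ => 1) ∧ Od' u ∧
      eu (pt v χ p) u ≠ 0 ∧ ∀ j < NT, Aj (pt v χ p) j u (b : Mat) = 0} := by
  obtain ⟨U, hUdef⟩ : ∃ U : Set V, U = {u : V | u ≠ 0 ∧ χ =ᶠ[𝓝 u] fun _ => 1} := ⟨_, rfl⟩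
  have hU : IsOpen U := by
    rw [hUdef]
    exact isOpen_ne.inter (isOpen_setOfPred_eventually_nhds)
  have hU0 : ∀ u ∈ U, u ≠ 0 := fun u hu => by rw [hUdef] at hu; exact hu.1
  have hU1 : ∀ u ∈ U, χ u = 1 := fun u hu => by rw [hUdef] at hu; exact hu.2.self_of_nhds
  obtain ⟨f, hf⟩ : ∃ f : FI → V → ℝ, f = fun k u => χ u * fam k u := ⟨_, rfl⟩
  have hfs : ∀ k, ContDiffOn ℝ ∞ (f k) {0}ᶜ := fun k => by
    rw [hf]; exact hχ.smooth.mul (fam_Ph k).phi.smooth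
  have hpt : ∀ p : FI → ℝ, (fun u => linG v f (u, p)) = pt v χ p := fun p => by rw [hf]; rfl
  have hnr : ContDiffOn ℝ ∞ nr {0}ᶜ := BNsq_smooth (m := m 1 3) (Q := QQ)
  have hnr0 : ∀ u ∈ U, nr u ≠ 0 := fun u hu => (nr_pos (hU0 u hu)).ne'
  have k1 := gftE_zero (h0 := h0 1 3) nD hU hU0 hv.phi.smooth hfs (s := cF) cF_smooth hnr hnr0
    finrank_lt (ν := fun k : Fin 26 => 2 * (k : ℕ) + 1)
    (fun a b hab => by
      have : (a : ℕ) < b := hab
      show 2 * (a : ℕ) + 1 < 2 * (b : ℕ) + 1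
      omega)
    (fun i k => ⟨Sum.inr (i, ⟨(k : ℕ) + 1, by have := k.2; unfold NT; omega⟩, none),
      fun u hu => by
        rw [hf]
        simp only
        rw [hU1 u hu]
        show 1 * (nr u * cF i u ^ (2 * ((k : ℕ) + 1))) = _
        rw [one_mul]
        rfl⟩)
  have k2 := gftE_odd (h0 := h0 1 3) nD hU hU0 hv.phi.smooth hfs (s := cF) cF_smooth (t := sF)
    (fun l => (sF_I0 l).smooth) hnr hnr0
    finrank_lt (ν := fun k : Fin 26 => 2 * (k : ℕ))
    (fun a b hab => by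
      have : (a : ℕ) < b := hab
      show 2 * (a : ℕ) < 2 * (b : ℕ)
      omega)
    (fun i k => ⟨Sum.inr (i, ⟨(k : ℕ), by have := k.2; unfold NT; omega⟩, none),
      fun u hu => by
        rw [hf]
        simp only
        rw [hU1 u hu]
        show 1 * (nr u * cF i u ^ (2 * (k : ℕ))) = _
        rw [one_mul]⟩)
    (fun l i k => ⟨Sum.inr (i, ⟨(k : ℕ), by have := k.2; unfold NT; omega⟩, some l),
      fun u hu => by
        rw [hf]
        simp only
        rw [hU1 u hu]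
        show 1 * (nr u * (cF i u ^ (2 * (k : ℕ)) * sF l u)) = _
        rw [one_mul, mul_comm (cF i u ^ (2 * (k : ℕ)))]⟩)
  refine (k1.union k2).mono ?_
  rintro p ⟨u, b, hF, hc, hOd, he, hA⟩
  have hu0 : u ≠ 0 := hF.ne nD
  have huU : u ∈ U := by rw [hUdef]; exact ⟨hu0, hc⟩
  have hP := pt_Ph hv hχ p
  have hA' : ∀ j < NT, lamT QQ (PP 1 3) (h0 1 3) (fun u => linG v f (u, p)) j u (b : Mat) = 0 := by
    intro j hj
    rw [hpt, ← Aj_lamT]
    exact hA j hj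
  have hEv : Ev (eu (pt v χ p) u) := S4e hP hu0 hOd.1
  have h1 : ∃ k, D1 (oI k) u (eu (pt v χ p) u) ≠ 0 := by
    by_contra hcon
    push Not at hcon
    exact he (INV_odd' hOd hEv hcon)
  by_cases h2 : ∃ k, D1 (oI k) u (rt b) ≠ 0
  · obtain ⟨i, hi1, hi2⟩ := two_cF hu0 h2 h1
    refine Or.inl ⟨u, (b : Mat), huU, ⟨i, ?_, hi1, ?_⟩, fun k => hA' _ ?_⟩
    · rcases i with ⟨a, _ | a'⟩
      · exact oI_Od hOd.1 a
      · show oI a u + oI a' u = 0
        rw [oI_Od hOd.1, oI_Od hOd.1, add_zero]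
    · rw [hpt]; exact hi2
    · have := k.2
      show 2 * (k : ℕ) + 1 < NT
      unfold NT
      omega
  · push Not at h2
    obtain ⟨i, hi⟩ := h1
    obtain ⟨y, z, hy, hz, hyz⟩ := split (rt b)
    have hz0 : z = 0 := by
      refine INV_odd' hOd hz fun k => ?_
      have h3 := h2 k
      rw [hyz] at h3
      have h4 : D1 (oI k) u (y + z) = D1 (oI k) u y + D1 (oI k) u z := map_add _ _ _
      rw [h4, D1_oI_Od hu0 hOd.1 hy, zero_add] at h3
      exact h3
    have hrt : Od (rt b) := by rw [hyz, hz0, add_zero]; exact hy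
    have h5 : ∃ j, D1 (eI j) u (rt b) ≠ 0 := by
      by_contra hcon
      push Not at hcon
      obtain ⟨r, hr⟩ := INV_odd hOd hrt (QQ_rt hF) hcon
      exact S2n hF r hr
    obtain ⟨j, hj⟩ := h5
    refine Or.inr ⟨u, (b : Mat), huU, ⟨(i, none), oI_Od hOd.1 i, h2 i, ?_⟩,
      ⟨(Sum.inl j, none), hj⟩, fun k => hA' _ ?_⟩
    · rw [hpt]; exact hi
    · have := k.2
      show 2 * (k : ℕ) < NT
      unfold NT
      omega

end Pool.Agent.FL.S1
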