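import Pool.Agent.helper90.FL.Gft
import Pool.Agent.FL.Inv0

/-!
# MP_f09395_gt: generic finite type in the form W3

`v` is perturbed by `|u|² ∑ p i k (s i) ^ (k + 1)` with invariant functions `s i` of degree zero.
-/

set_option linter.unusedSectionVars false

noncomputable section

namespace Pool.Agent.FL

open scoped ContDiff
open Pool.Agent.Helper93.Fin Pool.Agent.helper79.FP Pool.Agent.helper79.FR
open Pool.Agent.helper90.FL
open Filter Topology Module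

variable {𝔸 : Type*} [NormedRing 𝔸] [NormedAlgebra ℝ 𝔸] [FiniteDimensional ℝ 𝔸]
variable {g h m : Submodule ℝ 𝔸} {Q : 𝔸 →ₗ[ℝ] 𝔸 →ₗ[ℝ] ℝ} {P : 𝔸 →L[ℝ] m} {v : m → ℝ}
variable {h0 : 𝔸} {B : m → 𝔸} {c : m → ℝ} {H : Subgroup 𝔸ˣ}
variable {ι : Type*} [Fintype ι] [DecidableEq ι] {J : ℕ}

/-- the perturbed function -/
def pertQ (Q : 𝔸 →ₗ[ℝ] 𝔸 →ₗ[ℝ] ℝ) (v : m → ℝ) (s : ι → m → ℝ) (p : ι → Fin J → ℝ) (u : m) : ℝ :=
  v u + mulN Q (fun u => ∑ i, ∑ k : Fin J, p i k * s i u ^ (k.1 + 1)) u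

theorem pertQ_sum0 {s : ι → m → ℝ} (hs : ∀ i, Inv0 H (s i)) (p : ι → Fin J → ℝ) :
    Inv0 H (fun u => ∑ i, ∑ k : Fin J, p i k * s i u ^ (k.1 + 1)) :=
  Inv0.sum _ fun i _ => Inv0.sum _ fun k _ => (Inv0.const H m (p i k)).mul ((hs i).pow _)

theorem pertQ_phiN (hN : NData g h m Q P) (hG : GrpD H h m Q h0 B c) (hv : PhiN h m P v)
    (hvH : InvH H v) {s : ι → m → ℝ} (hs : ∀ i, Inv0 H (s i)) (p : ι → Fin J → ℝ) :
    PhiN h m P (pertQ Q v s p) ∧ InvH H (pertQ Q v s p) := by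
  obtain ⟨h1, h2⟩ := (pertQ_sum0 hs p).phiN hN hG
  exact ⟨phiN_add hv h1, invH_add hvH h2⟩

/-- `W` kills `|u|²` -/
theorem fd_BN_Wt (hN : NData g h m Q P) (hC : Cas g h m Q P h0 B c) {u : m} :
    fderiv ℝ (fun u : m => BN m Q u u) u (Wt P h0 B u) = 0 := by
  have h1 : HasFDerivAt (fun u : m => BN m Q u u)
      ((BN m Q u).comp (ContinuousLinearMap.id ℝ m) + (BN m Q).flip (id u)) u :=
    ((BN m Q).hasFDerivAt).clm_apply (hasFDerivAt_id u)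
  rw [h1.fderiv]
  have h2 : Q (u : 𝔸) (Wt P h0 B u : 𝔸) = 0 := by
    rw [Wt_coe hN hC, hN.Qsymm, hN.Qinv, hN.Qsymm]
    have h3 : ⁅B u, (u : 𝔸)⁆ = 0 := by
      have := hC.Bcomm u
      rw [Ring.lie_def] at this ⊢
      rw [← neg_eq_zero, ← this]; abel
    rw [h3]; simp
  have h3 : Q (Wt P h0 B u : 𝔸) (u : 𝔸) = 0 := by rw [hN.Qsymm, h2]
  simp [BN_apply, h2, h3]

theorem aW_mulN (hN : NData g h m Q P) (hC : Cas g h m Q P h0 B c) {f : m → ℝ}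
    (hf : ContDiffOn ℝ ∞ f {0}ᶜ) (j : ℕ) :
    ∀ u : m, u ≠ 0 → aW P h0 B (mulN Q f) j u = BN m Q u u * aW P h0 B f j u := by
  induction j with
  | zero => intro u _; rfl
  | succ j ih =>
    intro u hu
    show fderiv ℝ (aW P h0 B (mulN Q f) j) u (Wt P h0 B u) = _
    rw [fd_congr ih hu, fd_mul BNsq_smooth (aW_smooth hC hf j) hu, fd_BN_Wt hN hC, mul_zero,
      add_zero]
    rfl

theorem aW_congr {f f' : m → ℝ} (hf : ∀ u : m, u ≠ 0 → f u = f' u) (j : ℕ) :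
    ∀ u : m, u ≠ 0 → aW P h0 B f j u = aW P h0 B f' j u := by
  induction j with
  | zero => exact hf
  | succ j ih =>
    intro u hu
    exact fd_congr ih hu _

theorem aW_tow (f : m → ℝ) (j : ℕ) :
    tow (Wt P h0 B) (Wt P h0 B) (zeroL m) f j = aW P h0 B f (j + 1) := by
  induction j with
  | zero => rfl
  | succ j ih =>
    funext u
    show fderiv ℝ (tow (Wt P h0 B) (Wt P h0 B) (zeroL m) f j) u
      (fld (Wt P h0 B) (zeroL m) f u) = D1 (aW P h0 B f (j + 1)) u (Wt P h0 B u)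
    rw [ih, fld_zeroL]
    rfl

/-- **generic finite type**, form W3 -/
theorem negl_W3 (hN : NData g h m Q P) (hC : Cas g h m Q P h0 B c) (hG : GrpD H h m Q h0 B c)
    (hv : PhiN h m P v) (hvH : InvH H v) {s : ι → m → ℝ} (hs : ∀ i, Inv0 H (s i))
    (hJ : finrank ℝ m < J) :
    Negl {p : ι → Fin J → ℝ | ∃ u : m, u ≠ 0 ∧ (∃ i, D1 (s i) u (Wt P h0 B u) ≠ 0) ∧
      ∀ j, 1 ≤ j → j ≤ J → aW P h0 B (pertQ Q v s p) j u = 0} := by
  have hv0 := Inv0.of_phiN hN hG hv hvH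
  have key := gft_negl (M := m) (U := {0}ᶜ) isOpen_compl_singleton (Wt_smooth hC) (Wt_smooth hC)
    (Λ := zeroL m) (zeroL_smooth _) (fun i => (hs i).smooth)
    hv0.smooth hJ
  refine key.mono ?_
  rintro p ⟨u, hu, ⟨i, hi⟩, hj⟩
  refine ⟨u, hu, ⟨i, hi, ?_⟩, fun j => ?_⟩
  · rw [fld_zeroL]
    exact hi
  have h3 := hj (j.1 + 1) (by omega) (by omega)
  have h1 : ∀ u : m, u ≠ 0 → pertQ Q v s p u =
      mulN Q (Pool.Agent.helper90.FL.pert (fun u => (BN m Q u u)⁻¹ * v u) s p) u := by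
    intro u hu
    unfold pertQ mulN Pool.Agent.helper90.FL.pert
    rw [mul_add, mul_inv_cancel_left₀ (BN_ne hN hu)]
  have h2 : ContDiffOn ℝ ∞ (Pool.Agent.helper90.FL.pert (fun u => (BN m Q u u)⁻¹ * v u) s p) {0}ᶜ :=
    pert_smooth' hv0.smooth (fun i => (hs i).smooth) p
  rw [aW_congr h1 _ u hu, aW_mulN hN hC h2 _ u hu, ← aW_tow] at h3
  exact (mul_eq_zero.1 h3).resolve_left (BN_ne hN hu)

end Pool.Agent.FL
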