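import Pool.Agent.FL.S1Hub
import Pool.Agent.FL.W3

/-!
# MP_f09395_gt, space (1): GW, the tower of `W` is generically nonzero (abstract part)
-/

set_option linter.unusedSectionVars false

noncomputable section

namespace Pool.Agent.FL.S1

open scoped ContDiff Quaternion Matrix ComplexConjugate
open Pool.Agent.Helper93.Fin Pool.Agent.helper79.FP Pool.Agent.helper79.FR
open Pool.Agent.helper79.FR.Sp2 (Mat QQ h0 m gg hh PP BB cc)
open Pool.Agent.FL
open Pool.Agent.FL.Wall (ef EE LamE LamW)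
open Pool.Agent.helper90.FL
open Filter Topology

attribute [local instance] Matrix.linftyOpNormedRing Matrix.linftyOpNormedAlgebra

/-- the open set where the cut-off function is locally one -/
def UX (χ : V → ℝ) : Set V := {u | u ≠ 0 ∧ χ =ᶠ[𝓝 u] fun _ => 1}

theorem UX_open (χ : V → ℝ) : IsOpen (UX χ) :=
  isOpen_compl_singleton.inter isOpen_setOfPred_eventually_nhds

theorem UX_sub (χ : V → ℝ) : UX χ ⊆ {0}ᶜ := fun _ h => h.1

theorem UX_one {χ : V → ℝ} {u : V} (h : u ∈ UX χ) : χ u = 1 := h.2.eq_of_nhds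

theorem aW_congr_on {f f' : V → ℝ} {U : Set V} (hU : IsOpen U) (h : ∀ u ∈ U, f u = f' u)
    (j : ℕ) : ∀ u ∈ U, aWt f j u = aWt f' j u := by
  induction j with
  | zero => exact h
  | succ j ih =>
    intro u hu
    have h1 : aWt f j =ᶠ[𝓝 u] aWt f' j := by
      filter_upwards [hU.mem_nhds hu] with y hy
      exact ih y hy
    exact congrArg (fun L : V →L[ℝ] ℝ => L (Wt (PP 1 3) (h0 1 3) (BB 1 3) u)) h1.fderiv_eq

theorem finrank_V : Module.finrank ℝ V < NT := by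
  have h1 : Module.finrank ℝ V ≤ Module.finrank ℝ Mat := Submodule.finrank_le (m 1 3)
  have h2 : Module.finrank ℝ Mat = 16 := by
    have : Module.finrank ℝ (Matrix (Fin 2) (Fin 2) ℍ[ℝ]) = _ :=
      Module.finrank_matrix ℝ ℍ[ℝ] (Fin 2) (Fin 2)
    show Module.finrank ℝ (Matrix (Fin 2) (Fin 2) ℍ[ℝ]) = 16
    rw [this, Quaternion.finrank_eq_four]
    simp
  unfold NT
  omega

/-- the direction of the parameter space realising `(s - c) ^ (K + 1)` -/
def dirS (a : SI) (c : ℝ) (K : ℕ) : FI → ℝ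
  | Sum.inl (s, i) => if s = a then ((K + 1).choose i : ℝ) * (-c) ^ (K + 1 - i) else 0
  | Sum.inr _ => 0

theorem dirS_sum (a : SI) (c : ℝ) {K : ℕ} (hK : K < NT) (y : V) :
    ∑ k, dirS a c K k * f0 k y = (sF a y - c) ^ (K + 1) := by
  rw [Fintype.sum_sum_type]
  have h2 : ∑ k : CI × Fin (NT + 1) × Option SI, dirS a c K (Sum.inr k) * f0 (Sum.inr k) y = 0 :=
    Finset.sum_eq_zero fun k _ => by simp [dirS]
  rw [h2, add_zero, Fintype.sum_prod_type, Finset.sum_eq_single a]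
  · have h3 : ∀ i : Fin (NT + 1), dirS a c K (Sum.inl (a, i)) * f0 (Sum.inl (a, i)) y =
        (fun i : ℕ => ((K + 1).choose i : ℝ) * (-c) ^ (K + 1 - i) * sF a y ^ i) i := by
      intro i
      simp [dirS, f0]
    rw [Finset.sum_congr rfl fun i _ => h3 i]
    rw [Fin.sum_univ_eq_sum_range
      (fun i : ℕ => ((K + 1).choose i : ℝ) * (-c) ^ (K + 1 - i) * sF a y ^ i) (NT + 1)]
    rw [sub_eq_add_neg, add_pow]
    symm
    have h4 : ∀ i ∈ Finset.range (K + 1 + 1), sF a y ^ i * (-c) ^ (K + 1 - i) *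
        ((K + 1).choose i : ℝ) = ((K + 1).choose i : ℝ) * (-c) ^ (K + 1 - i) * sF a y ^ i :=
      fun i _ => by ring
    rw [Finset.sum_congr rfl h4]
    refine Finset.sum_subset (Finset.range_mono (by omega)) fun k _ hk => ?_
    rw [Finset.mem_range, not_lt] at hk
    rw [Nat.choose_eq_zero_of_lt (by omega)]
    simp
  · intro s _ hs
    refine Finset.sum_eq_zero fun i _ => ?_
    simp [dirS, hs]
  · intro h
    exact absurd (Finset.mem_univ _) h

/-- the vector field `W` -/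
abbrev WW (u : V) : V := Wt (PP 1 3) (h0 1 3) (BB 1 3) u

theorem pt_on {v χ : V → ℝ} (p : FI → ℝ) {u : V} (hu : u ∈ UX χ) :
    pt v χ p u = mulN QQ (fun x => linG (fun u => (BN (m 1 3) QQ u u)⁻¹ * v u) f0 (x, p)) u := by
  have h1 : BN (m 1 3) QQ u u ≠ 0 := BN_ne nD hu.1
  have h2 : ∀ k ∈ (Finset.univ : Finset FI), p k * (χ u * fam k u) =
      BN (m 1 3) QQ u u * (p k * f0 k u) := fun k _ => by
    rw [UX_one hu, one_mul]
    unfold fam nr
    rw [BN_apply]
    ring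
  unfold pt mulN linG
  rw [mul_add, mul_inv_cancel_left₀ h1, Finset.mul_sum, Finset.sum_congr rfl h2]

theorem GW_of {v χ : V → ℝ} (hv : Ph v) (hf : ∀ k, I0 (f0 k)) (hs : ∀ a, I0 (sF a)) :
    Negl {p : FI → ℝ | ∃ u : V, u ∈ UX χ ∧ (∃ a : SI, D1 (sF a) u (WW u) ≠ 0) ∧
      ∀ j, 1 ≤ j → j ≤ NT → aWt (pt v χ p) j u = 0} := by
  have hv0 := Inv0.of_phiN nD gD hv.phi hv.inv
  have hW : ContDiffOn ℝ ∞ WW {0}ᶜ := Wt_smooth cD
  have key := gft_gen (M := V) (U := UX χ) (A := WW) (V := WW) (Λ := zeroL V)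
    (v := fun u : V => (BN (m 1 3) QQ u u)⁻¹ * v u) (f := f0) (J := NT) (UX_open χ)
    (hW.mono (UX_sub χ)) (hW.mono (UX_sub χ)) (zeroL_smooth _) (hv0.smooth.mono (UX_sub χ))
    (fun k => (hf k).smooth.mono (UX_sub χ)) finrank_V (ν := fun j => j.1)
    (fun i j hij => hij)
    (S := {z : V × (FI → ℝ) | z.1 ∈ UX χ ∧ ∃ a : SI, D1 (sF a) z.1 (WW z.1) ≠ 0})
    (fun z hz => hz.1) (by
      rintro ⟨x, p⟩ ⟨hx, a, ha⟩ K
      simp only at hx ha
      have hsm : ContDiffOn ℝ ∞ (sF a) (UX χ) := (hs a).smooth.mono (UX_sub χ)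
      refine ⟨dirS a (sF a x) K.1, 0, fun y => (sF a y - sF a x) ^ (K.1 + 1),
        (hsm.sub contDiffOn_const).pow _, fun y => ?_, ?_, ?_⟩
      · rw [dirS_sum a _ K.2, add_zero]
      · exact ord_pow (UX_open χ) hx (hsm.sub contDiffOn_const) (sub_self _) _
      · have e1 : fld WW (zeroL V) (fun y => linG (fun u : V => (BN (m 1 3) QQ u u)⁻¹ * v u) f0
            (y, p)) = WW := funext fun y => fld_zeroL _ _ _
        simp only
        rw [e1, lead_pow (UX_open χ) (hW.mono (UX_sub χ)) (hW.mono (UX_sub χ)) hsm hx]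
        exact mul_ne_zero (mul_ne_zero (by positivity) (pow_ne_zero _ ha)) ha)
  refine key.mono ?_
  rintro p ⟨u, hu, ha, hj⟩
  refine ⟨u, ⟨hu, ha⟩, fun j => ?_⟩
  have h3 := hj (j.1 + 1) (by omega) (by have := j.2; omega)
  have h2 : ContDiffOn ℝ ∞ (fun x => linG (fun u : V => (BN (m 1 3) QQ u u)⁻¹ * v u) f0 (x, p))
      {0}ᶜ := linG_smooth' hv0.smooth (fun k => (hf k).smooth) p
  rw [aW_congr_on (UX_open χ) (fun y hy => pt_on p hy) _ u hu, aWt,
    aW_mulN nD cD h2 _ u hu.1, ← aW_tow] at h3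
  exact (mul_eq_zero.1 h3).resolve_left (BN_ne nD hu.1)

end Pool.Agent.FL.S1
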