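import Pool.Agent.FL.S1GWa
import Pool.Agent.FL.S1GWb
import Pool.Agent.FL.S1I1

/-!
# MP_f09395_gt, space (1): GW, the tower of `W` is generically nonzero at regular flags
-/

set_option linter.unusedSectionVars false

noncomputable section

namespace Pool.Agent.FL.S1

open scoped ContDiff Quaternion Matrix ComplexConjugate
open Pool.Agent.Helper93.Fin Pool.Agent.helper79.FP Pool.Agent.helper79.FR
open Pool.Agent.helper79.FR.Sp2 (Mat QQ h0 m gg hh PP BB cc)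
open Pool.Agent.FL
open Pool.Agent.FL.Wall (ef EE LamE LamW)
open Pool.Agent.helper90.FL (Negl)
open Filter Topology

attribute [local instance] Matrix.linftyOpNormedRing Matrix.linftyOpNormedAlgebra

theorem GW {v χ : V → ℝ} (hv : Ph v) (hχ : I0 χ) :
    Negl {p : FI → ℝ | ∃ u b, Fl u b ∧ QQ (BB 1 3 u) (b : Mat) ≠ 0 ∧
      (χ =ᶠ[𝓝 u] fun _ => 1) ∧ ∀ j, 1 ≤ j → j ≤ NT → aWt (pt v χ p) j u = 0} := by
  refine (GW_of (χ := χ) hv f0_I0 sF_I0).mono ?_
  rintro p ⟨u, b, hF, hw, h1, hj⟩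
  obtain ⟨a, ha⟩ := GW_dir hF hw
  exact ⟨u, ⟨hF.ne nD, h1⟩, ⟨(a, none), ha⟩, hj⟩

end Pool.Agent.FL.S1
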