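import Pool.Agent.FL.S1M3core
import Pool.Agent.FL.S1I1
import Pool.Agent.FL.S1I2
import Pool.Agent.FL.S1S2

/-!
# MP_f09395_gt, space (1), module M3: no generic equilibria at a level of the Casimir
-/

set_option linter.unusedSectionVars false

noncomputable section

namespace Pool.Agent.FL.S1

open scoped ContDiff Quaternion Matrix ComplexConjugate
open Pool.Agent.Helper93.Fin Pool.Agent.helper79.FP Pool.Agent.helper79.FR
open Pool.Agent.helper79.FR.Sp2 (Mat QQ h0 m gg hh PP BB cc)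
open Pool.Agent.FL
open Pool.Agent.helper90.FL (Negl)
open Filter Topology

attribute [local instance] Matrix.linftyOpNormedRing Matrix.linftyOpNormedAlgebra

/-- M3 -/
theorem M3 {v χ : V → ℝ} (hv : Ph v) (hχ : I0 χ) {c1 : ℝ} (h1 : -1 < c1) (h2 : c1 < 1) :
    Negl {p : FI → ℝ | ∃ u b, Fl u b ∧ cc 1 3 u = c1 ∧ (χ =ᶠ[𝓝 u] fun _ => 1) ∧ Gen u ∧
      eu (pt v χ p) u = 0} :=
  M3_core hv hχ fam_Ph s0_I0 INV S2n h1 h2

end Pool.Agent.FL.S1
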