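import Pool.Agent.FL.S1Core

/-!
# MP_f09395_gt, space (1), module S5: centralisers

Module path `Pool.Agent.FL.S1Cent` (store name `FL1_S1Cent.lean`).
`cent u` is the centraliser of `u` in `𝔤 = 𝔰𝔭(2)`, `sw u` its part orthogonal to `u`.
-/

noncomputable section

namespace Pool.Agent.FL.S1

open scoped ContDiff Quaternion Matrix ComplexConjugate
open Pool.Agent.Helper93.Fin Pool.Agent.helper79.FP Pool.Agent.helper79.FR
open Pool.Agent.helper79.FR.Sp2 (Mat QQ h0 m gg hh PP BB cc)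

attribute [local instance] Matrix.linftyOpNormedRing Matrix.linftyOpNormedAlgebra

/-- the centraliser of `u` in `𝔤` -/
def cent (u : Mat) : Submodule ℝ Mat where
  carrier := {Y | Y ∈ gg ∧ ⁅u, Y⁆ = 0}
  zero_mem' := ⟨gg.zero_mem, by rw [Ring.lie_def, mul_zero, zero_mul, sub_zero]⟩
  add_mem' := by
    rintro X Y ⟨h1, h2⟩ ⟨k1, k2⟩
    refine ⟨gg.add_mem h1 k1, ?_⟩
    rw [Ring.lie_def] at *
    rw [mul_add, add_mul, add_sub_add_comm, h2, k2, add_zero]
  smul_mem' := by
    rintro r X ⟨h1, h2⟩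
    refine ⟨gg.smul_mem r h1, ?_⟩
    rw [Ring.lie_def] at *
    rw [mul_smul_comm, smul_mul_assoc, ← smul_sub, h2, smul_zero]

/-- the part of the centraliser orthogonal to `u` -/
def sw (u : Mat) : Submodule ℝ Mat where
  carrier := {Y | Y ∈ gg ∧ ⁅u, Y⁆ = 0 ∧ QQ u Y = 0}
  zero_mem' := ⟨gg.zero_mem, by rw [Ring.lie_def, mul_zero, zero_mul, sub_zero], map_zero _⟩
  add_mem' := by
    rintro X Y ⟨h1, h2, h3⟩ ⟨k1, k2, k3⟩
    refine ⟨gg.add_mem h1 k1, ?_, by rw [map_add, h3, k3, add_zero]⟩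
    rw [Ring.lie_def] at *
    rw [mul_add, add_mul, add_sub_add_comm, h2, k2, add_zero]
  smul_mem' := by
    rintro r X ⟨h1, h2, h3⟩
    refine ⟨gg.smul_mem r h1, ?_, by rw [map_smul, h3, smul_zero]⟩
    rw [Ring.lie_def] at *
    rw [mul_smul_comm, smul_mul_assoc, ← smul_sub, h2, smul_zero]

/-- the centraliser of `u` in `𝔪` -/
def centM (u : V) : Submodule ℝ V := (cent (u : Mat)).comap (m 1 3).subtype

/-- projection to `sw u` at the wall `u² = -1/2` (`c = -1`) -/
def pjA (u X : Mat) : Mat := (1 / 2 : ℝ) • X - u * X * u - (QQ X u) • u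

/-- projection to `sw u` at the wall `u³ = -u` (`c = 1`) -/
def pjB (u X : Mat) : Mat := (1 + u * u) * X * (1 + u * u)

theorem lie_zero_iff {X Y : Mat} : ⁅X, Y⁆ = 0 ↔ X * Y = Y * X := by
  rw [Ring.lie_def, sub_eq_zero]

theorem QQ_eq_retr (X Y : Mat) : QQ X Y = -Sp2.retr (X * Y) := Sp2.QQ_apply X Y

theorem retr_eq_QQ (X Y : Mat) : Sp2.retr (X * Y) = -QQ X Y := by
  rw [QQ_eq_retr, neg_neg]

theorem mem_sw {u Y : Mat} : Y ∈ sw u ↔ Y ∈ gg ∧ ⁅u, Y⁆ = 0 ∧ QQ u Y = 0 := Iff.rfl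

theorem mem_cent {u Y : Mat} : Y ∈ cent u ↔ Y ∈ gg ∧ ⁅u, Y⁆ = 0 := Iff.rfl

theorem star_mul_self_zero {X : Mat} (h : star X * X = 0) : X = 0 := by
  have key : ∀ j : Fin 2, Quaternion.normSq (X 0 j) + Quaternion.normSq (X 1 j) = 0 := by
    intro j
    have h1 := congrArg QuaternionAlgebra.re (congrFun (congrFun h j) j)
    rw [Matrix.mul_apply, Fin.sum_univ_two, Matrix.star_apply, Matrix.star_apply,
      Quaternion.star_mul_self, Quaternion.star_mul_self] at h1
    simpa using h1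
  ext i j : 1
  have h1 := key j
  have n0 := Quaternion.normSq_nonneg (a := X 0 j)
  have n1 := Quaternion.normSq_nonneg (a := X 1 j)
  have a0 : Quaternion.normSq (X 0 j) = 0 := by linarith
  have a1 : Quaternion.normSq (X 1 j) = 0 := by linarith
  fin_cases i
  · exact Quaternion.normSq_eq_zero.mp a0
  · exact Quaternion.normSq_eq_zero.mp a1

theorem herm_sq_zero {X : Mat} (hX : star X = X) (h : X * X = 0) : X = 0 :=
  star_mul_self_zero (by rw [hX, h])

/-- **regular flags**: the centraliser is the span of `u, b` -/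
theorem cent_regular {u b : V} (h : Flag QQ u b) (hw : QQ (BB 1 3 u) b ≠ 0) {Y : Mat}
    (hY : Y ∈ gg) (hc : ⁅(u : Mat), Y⁆ = 0) :
    Y = QQ Y (u : Mat) • (u : Mat) + QQ Y (b : Mat) • (b : Mat) := by
  obtain ⟨huu, hbb, hub, hlie⟩ := h
  have hu : star (u : Mat) = -(u : Mat) := u.2.1
  have hb : star (b : Mat) = -(b : Mat) := b.2.1
  set Z : Mat := Y - QQ Y (u : Mat) • (u : Mat) - QQ Y (b : Mat) • (b : Mat) with hZ
  have hZg : Z ∈ gg := gg.sub_mem (gg.sub_mem hY (gg.smul_mem _ hu)) (gg.smul_mem _ hb)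
  have hZu : QQ (u : Mat) Z = 0 := by
    rw [hZ, map_sub, map_sub, map_smul, map_smul, huu, hub, Sp2.QQ_comm (u : Mat) Y]
    simp
  have hZb : QQ (b : Mat) Z = 0 := by
    rw [hZ, map_sub, map_sub, map_smul, map_smul, hbb, Sp2.QQ_comm (b : Mat) (u : Mat), hub,
      Sp2.QQ_comm (b : Mat) Y]
    simp
  have hZc : ⁅(u : Mat), Z⁆ = 0 := by
    rw [lie_zero_iff] at hc hlie ⊢
    rw [hZ, mul_sub, mul_sub, sub_mul, sub_mul, mul_smul_comm, mul_smul_comm, smul_mul_assoc,
      smul_mul_assoc, hc, hlie]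
  have hZ0 : Z = 0 := by
    by_contra hne
    have hpos := Sp2.QQ_pos hZg hne
    set r : ℝ := Real.sqrt (QQ Z Z) with hr
    have hr0 : 0 < r := Real.sqrt_pos.mpr hpos
    have hr2 : r * r = QQ Z Z := Real.mul_self_sqrt hpos.le
    have hv : star (r⁻¹ • Z) = -(r⁻¹ • Z) := gg.smul_mem _ hZg
    have hvv : QQ (r⁻¹ • Z) (r⁻¹ • Z) = 1 := by
      rw [map_smul, map_smul, LinearMap.smul_apply, smul_eq_mul, smul_eq_mul, ← hr2]
      field_simp
    have huv : QQ (u : Mat) (r⁻¹ • Z) = 0 := by rw [map_smul, hZu, smul_zero]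
    have hcv : ⁅(u : Mat), r⁻¹ • Z⁆ = 0 := by
      rw [lie_zero_iff] at hZc ⊢
      rw [mul_smul_comm, smul_mul_assoc, hZc]
    have h1 := (Sp2.flat_cas hu hv huu hvv huv hcv).1
    apply hw
    have h2 : QQ (r⁻¹ • Z) (b : Mat) = 0 := by
      rw [map_smul, LinearMap.smul_apply, Sp2.QQ_comm Z (b : Mat), hZb, smul_zero]
    rw [Sp2.BB_eq, h1, map_smul, LinearMap.smul_apply, h2, smul_zero]
  have : Y = Z + (QQ Y (u : Mat) • (u : Mat) + QQ Y (b : Mat) • (b : Mat)) := by rw [hZ]; abel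
  rw [hZ0, zero_add] at this
  exact this

/-- regular flags: the centraliser in `𝔪` has dimension at most two -/
theorem centM_regular {u b : V} (h : Flag QQ u b) (hw : QQ (BB 1 3 u) b ≠ 0) :
    Module.finrank ℝ (centM u) ≤ 2 := by
  classical
  have h1 : centM u ≤ Submodule.span ℝ (({u, b} : Finset V) : Set V) := by
    intro x hx
    have hx' : (x : Mat) ∈ cent (u : Mat) := hx
    have h2 := cent_regular h hw hx'.1 hx'.2
    have h3 : x = QQ (x : Mat) (u : Mat) • u + QQ (x : Mat) (b : Mat) • b := Subtype.ext h2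
    rw [h3]
    exact Submodule.add_mem _ (Submodule.smul_mem _ _ (Submodule.subset_span (by simp)))
      (Submodule.smul_mem _ _ (Submodule.subset_span (by simp)))
  exact (Submodule.finrank_mono h1).trans ((finrank_span_finset_le_card _).trans
    Finset.card_le_two)

/-- unit vectors with `B u = 0` -/
theorem wall_alg {u : V} (hu : QQ (u : Mat) u = 1) (hB : BB 1 3 u = 0) :
    (cc 1 3 u = -1 ∧ (u : Mat) * u = -(1 / 2 : ℝ) • (1 : Mat)) ∨
      (cc 1 3 u = 1 ∧ (u : Mat) * u * u = -(u : Mat)) := by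
  set M : Mat := (u : Mat) with hM
  have hs : star M = -M := u.2.1
  set σ : ℝ := Sp2.s4 M with hσ
  have hcc : cc 1 3 u = 4 * σ - 3 := by
    show 4 * Sp2.s4 (u : Mat) * ((QQ (u : Mat) u) ^ 2)⁻¹ - 3 = _
    rw [hu]; simp [hσ, hM]
  have h3 : M * M * M = -(σ • M) := by
    have h1 : (4 : ℝ) • ((QQ (u : Mat) u)⁻¹ • (u : Mat) ^ 3 +
      (Sp2.s4 (u : Mat) * ((QQ (u : Mat) u) ^ 2)⁻¹) • (u : Mat)) = 0 := hB
    rw [hu, inv_one, one_smul, one_pow, inv_one, mul_one] at h1
    have h2 := (smul_eq_zero.mp h1).resolve_left (by norm_num)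
    have h4 : M * M * M = M ^ 3 := by noncomm_ring
    rw [h4]
    exact eq_neg_of_add_eq_zero_left h2
  have star_half : star ((1 / 2 : ℝ) • (1 : Mat)) = (1 / 2 : ℝ) • 1 := by
    rw [Sp2.star_smul_mat, star_one]
  obtain ⟨s, hS⟩ := Sp2.sq_scal (X := M * M + (1 / 2 : ℝ) • 1)
    (by rw [star_add, star_mul, hs, star_half]; noncomm_ring)
    (by rw [map_add, retr_eq_QQ, hu, map_smul, Sp2.retr_one, smul_eq_mul]; norm_num)
  have h5 : (1 - σ) • (M * M) = (s - 1 / 4) • (1 : Mat) := by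
    have e : (M * M + (1 / 2 : ℝ) • 1) * (M * M + (1 / 2 : ℝ) • 1) =
        M * M * M * M + M * M + (1 / 4 : ℝ) • (1 : Mat) := by
      rw [mul_add, add_mul, add_mul, mul_smul_comm, smul_mul_assoc, mul_one, one_mul,
        smul_mul_smul_comm, one_mul, mul_assoc (M * M) M M]
      module
    rw [e, h3] at hS
    rw [sub_smul, sub_smul, ← hS, neg_mul, smul_mul_assoc]
    module
  by_cases h1 : σ = 1
  · right
    refine ⟨by rw [hcc, h1]; norm_num, ?_⟩
    rw [h3, h1, one_smul]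
  · left
    have h6 : (1 - σ) ≠ 0 := sub_ne_zero.mpr fun h => h1 h.symm
    have h7 : M * M = ((1 - σ)⁻¹ * (s - 1 / 4)) • (1 : Mat) := by
      rw [mul_smul, ← h5, smul_smul, inv_mul_cancel₀ h6, one_smul]
    set t : ℝ := (1 - σ)⁻¹ * (s - 1 / 4) with ht
    have h8 : t = -(1 / 2) := by
      have := congrArg Sp2.retr h7
      rw [retr_eq_QQ, hu, map_smul, Sp2.retr_one, smul_eq_mul] at this
      linarith
    rw [h8] at h7
    have h9 : σ = 1 / 2 := by
      have e4 : M ^ 4 = (1 / 4 : ℝ) • (1 : Mat) := by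
        have : M ^ 4 = (M * M) * (M * M) := by noncomm_ring
        rw [this, h7, smul_mul_smul_comm, one_mul]
        norm_num
      show Sp2.retr (M ^ 4) = 1 / 2
      rw [e4, map_smul, Sp2.retr_one, smul_eq_mul]; norm_num
    refine ⟨by rw [hcc, h9]; norm_num, ?_⟩
    exact h7

/-- the Clifford relations -/
theorem sw_clif {u : V} (hu : QQ (u : Mat) u = 1) (hB : BB 1 3 u = 0) :
    ∃ F : Mat, F ≠ 0 ∧ ∀ y ∈ sw (u : Mat), F * y = y ∧ y * F = y ∧
      y * y = -(((3 + cc 1 3 u) / 4 * QQ y y) • F) := by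
  have hs : star (u : Mat) = -(u : Mat) := u.2.1
  rcases wall_alg hu hB with ⟨hc, hw⟩ | ⟨hc, hw⟩
  · refine ⟨1, one_ne_zero, fun y hy => ⟨one_mul y, mul_one y, ?_⟩⟩
    obtain ⟨hy1, hy2, hy3⟩ := hy
    have hy1' : star y = -y := hy1
    rw [lie_zero_iff] at hy2
    obtain ⟨s, hS⟩ := Sp2.sq_scal (X := (u : Mat) * y)
      (by rw [star_mul, hs, hy1', neg_mul_neg, hy2]) (by rw [retr_eq_QQ, hy3, neg_zero])
    have e : (u : Mat) * y * ((u : Mat) * y) = -(1 / 2 : ℝ) • (y * y) := by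
      have : (u : Mat) * y * ((u : Mat) * y) = (u : Mat) * (y * (u : Mat)) * y := by noncomm_ring
      rw [this, ← hy2]
      have : (u : Mat) * ((u : Mat) * y) * y = (u : Mat) * (u : Mat) * (y * y) := by noncomm_ring
      rw [this, hw, smul_mul_assoc, one_mul]
    rw [e] at hS
    have h1 : y * y = (-2 * s) • (1 : Mat) := by
      rw [mul_smul, ← hS, smul_smul]; norm_num
    have h2 := congrArg Sp2.retr h1
    rw [retr_eq_QQ, map_smul, Sp2.retr_one, smul_eq_mul] at h2
    rw [h1, hc, ← neg_smul]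
    congr 1
    linarith
  · set F : Mat := 1 + (u : Mat) * u with hF
    have hFs : star F = F := by
      rw [hF, star_add, star_one, star_mul, hs, neg_mul_neg]
    have huF : (u : Mat) * F = 0 := by
      rw [hF, mul_add, mul_one, ← mul_assoc, hw]; abel
    have hFu : F * (u : Mat) = 0 := by
      rw [hF, add_mul, one_mul, hw]; abel
    have hFr : Sp2.retr F = 1 := by
      rw [hF, map_add, Sp2.retr_one, retr_eq_QQ, hu]; norm_num
    have hF0 : F ≠ 0 := by
      intro h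
      rw [h, map_zero] at hFr
      exact zero_ne_one hFr
    have hu0 : (u : Mat) ≠ 0 := by
      intro h
      rw [h, map_zero] at hu
      exact zero_ne_one hu
    refine ⟨F, hF0, fun y hy => ?_⟩
    obtain ⟨hy1, hy2, hy3⟩ := hy
    have hy1' : star y = -y := hy1
    rw [lie_zero_iff] at hy2
    have hz : (u : Mat) * y = 0 := by
      have hst : star ((u : Mat) * y) = (u : Mat) * y := by
        rw [star_mul, hs, hy1', neg_mul_neg, hy2]
      obtain ⟨s, hS⟩ := Sp2.sq_scal (X := (u : Mat) * y) hst (by rw [retr_eq_QQ, hy3, neg_zero])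
      have h1 : (u : Mat) * y * ((u : Mat) * y) * F = 0 := by
        have : (u : Mat) * y * ((u : Mat) * y) * F = (u : Mat) * y * (y * ((u : Mat) * F)) := by
          rw [hy2]; noncomm_ring
        rw [this, huF, mul_zero, mul_zero]
      rw [hS, smul_mul_assoc, one_mul] at h1
      have h2 : s = 0 := (smul_eq_zero.mp h1).resolve_right hF0
      rw [h2, zero_smul] at hS
      exact herm_sq_zero hst hS
    have hz' : y * (u : Mat) = 0 := by rw [← hy2, hz]
    have hFy : F * y = y := by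
      rw [hF, add_mul, one_mul, mul_assoc, hz, mul_zero, add_zero]
    have hyF : y * F = y := by
      rw [hF, mul_add, mul_one, ← mul_assoc, hz', zero_mul, add_zero]
    refine ⟨hFy, hyF, ?_⟩
    have hst : star (y * y + QQ y y • F) = y * y + QQ y y • F := by
      rw [star_add, star_mul, hy1', neg_mul_neg, Sp2.star_smul_mat, hFs]
    obtain ⟨s, hS⟩ := Sp2.sq_scal hst
      (by rw [map_add, retr_eq_QQ, map_smul, hFr, smul_eq_mul]; ring)
    have h1 : (y * y + QQ y y • F) * (u : Mat) = 0 := by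
      rw [add_mul, mul_assoc, hz', mul_zero, smul_mul_assoc, hFu, smul_zero, add_zero]
    have h2 : s • (u : Mat) = 0 := by
      rw [← one_mul (u : Mat), ← smul_mul_assoc, ← hS, mul_assoc, h1, mul_zero]
    have h3 : s = 0 := (smul_eq_zero.mp h2).resolve_right hu0
    rw [h3, zero_smul] at hS
    have h4 := herm_sq_zero hst hS
    rw [hc]
    have : ((3 + 1 : ℝ) / 4 * QQ y y) = QQ y y := by ring
    rw [this]
    exact eq_neg_of_add_eq_zero_left h4

theorem sw_anti {u : V} {F : Mat} {c : ℝ} (hF : ∀ y ∈ sw (u : Mat), F * y = y ∧ y * F = y ∧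
    y * y = -((c * QQ y y) • F)) {y b : Mat} (hy : y ∈ sw (u : Mat)) (hb : b ∈ sw (u : Mat)) :
    y * b + b * y = -((2 * c * QQ y b) • F) := by
  have h1 := (hF (y + b) (Submodule.add_mem _ hy hb)).2.2
  have h2 := (hF y hy).2.2
  have h3 := (hF b hb).2.2
  have e : y * b + b * y = (y + b) * (y + b) - y * y - b * b := by noncomm_ring
  have hq : QQ (y + b) (y + b) = QQ y y + 2 * QQ y b + QQ b b := by
    simp only [map_add, LinearMap.add_apply]
    rw [Sp2.QQ_comm b y]
    ring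
  rw [e, h1, h2, h3, hq]
  module

/-- the bracket at walls, `κ = 3 + c` (so `κ = 2` or `4`) -/
theorem sw_brk {u : V} (hu : QQ (u : Mat) u = 1) (hB : BB 1 3 u = 0) {y b : Mat}
    (hy : y ∈ sw (u : Mat)) (hb : b ∈ sw (u : Mat)) :
    ⁅⁅b, y⁆, y⁆ = (3 + cc 1 3 u) • (QQ b y • y - QQ y y • b) := by
  obtain ⟨F, -, hF⟩ := sw_clif hu hB
  have h1 := sw_anti hF hy hb
  obtain ⟨-, yF, yy⟩ := hF y hy
  obtain ⟨Fb, bF, -⟩ := hF b hb
  set c : ℝ := (3 + cc 1 3 u) / 4 with hc
  have e : ⁅⁅b, y⁆, y⁆ = b * (y * y) + (y * y) * b - (2 : ℝ) • (y * b * y) := by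
    rw [two_smul]
    simp only [Ring.lie_def]
    noncomm_ring
  have e2 : y * b * y = -((2 * c * QQ y b) • y) + (c * QQ y y) • b := by
    have : y * b * y = y * (y * b + b * y) - (y * y) * b := by noncomm_ring
    rw [this, h1, yy, mul_neg, mul_smul_comm, yF, neg_mul, smul_mul_assoc, Fb]
    module
  rw [e, e2, yy, mul_neg, mul_smul_comm, bF, neg_mul, smul_mul_assoc, Fb, Sp2.QQ_comm b y]
  have hc' : 3 + cc 1 3 u = 4 * c := by rw [hc]; ring
  rw [hc']
  module

/-- orthogonal nonzero elements of `sw u` do not commute -/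
theorem sw_lie_ne {u : V} (hu : QQ (u : Mat) u = 1) (hB : BB 1 3 u = 0) {y b : Mat}
    (hy : y ∈ sw (u : Mat)) (hb : b ∈ sw (u : Mat)) (hy0 : y ≠ 0) (hb0 : b ≠ 0)
    (hyb : QQ b y = 0) : ⁅b, y⁆ ≠ 0 := by
  intro h
  have h1 := sw_brk hu hB hy hb
  rw [h, hyb, zero_smul, zero_sub, Ring.lie_def, zero_mul, mul_zero, sub_zero] at h1
  have hk : (3 + cc 1 3 u) ≠ 0 := by
    rcases wall_alg hu hB with ⟨hc, -⟩ | ⟨hc, -⟩ <;> rw [hc] <;> norm_num
  have h2 := (smul_eq_zero.mp h1.symm).resolve_left hk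
  rw [neg_eq_zero] at h2
  exact (smul_eq_zero.mp h2).elim (fun h3 => (Sp2.QQ_pos hy.1 hy0).ne' h3) hb0

theorem sw_lie_mem {u y b : Mat} (hy : y ∈ sw u) (hb : b ∈ sw u) :
    ⁅b, y⁆ ∈ sw u := by
  obtain ⟨hy1, hy2, hy3⟩ := hy
  obtain ⟨hb1, hb2, hb3⟩ := hb
  refine ⟨Sp2.lie_gg hb1 hy1, ?_, ?_⟩
  · rw [lie_zero_iff] at hy2 hb2 ⊢
    rw [Ring.lie_def, mul_sub, sub_mul, ← mul_assoc, ← mul_assoc, hy2, hb2]
    have e1 : b * u * y = b * (u * y) := mul_assoc _ _ _
    have e2 : y * u * b = y * (u * b) := mul_assoc _ _ _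
    rw [e1, e2, hy2, hb2]
    noncomm_ring
  · rw [← Sp2.QQ_inv, hb2, map_zero, LinearMap.zero_apply]

/-- `sw u` is three-dimensional: it is spanned by `y, b, [b, y]` for orthogonal `y, b ≠ 0` -/
theorem sw_span {u : V} (hu : QQ (u : Mat) u = 1) (hB : BB 1 3 u = 0) {y b : Mat}
    (hy : y ∈ sw (u : Mat)) (hb : b ∈ sw (u : Mat)) (hy0 : y ≠ 0) (hb0 : b ≠ 0)
    (hyb : QQ b y = 0) : sw (u : Mat) = Submodule.span ℝ {y, b, ⁅b, y⁆} := by
  have hl := sw_lie_mem hy hb
  have hl0 := sw_lie_ne hu hB hy hb hy0 hb0 hyb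
  have py := Sp2.QQ_pos hy.1 hy0
  have pb := Sp2.QQ_pos hb.1 hb0
  have pl := Sp2.QQ_pos hl.1 hl0
  have oy : QQ y ⁅b, y⁆ = 0 := by
    rw [Sp2.QQ_comm, Sp2.QQ_inv, Ring.lie_def, sub_self, map_zero]
  have ob : QQ b ⁅b, y⁆ = 0 := by
    rw [← Sp2.QQ_inv, Ring.lie_def, sub_self, map_zero, LinearMap.zero_apply]
  have hyb' : QQ y b = 0 := by rw [Sp2.QQ_comm, hyb]
  apply le_antisymm
  · intro x hx
    set z : Mat := x - (QQ x y / QQ y y) • y - (QQ x b / QQ b b) • b -
      (QQ x ⁅b, y⁆ / QQ ⁅b, y⁆ ⁅b, y⁆) • ⁅b, y⁆ with hz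
    have hzm : z ∈ sw (u : Mat) := Submodule.sub_mem _ (Submodule.sub_mem _
      (Submodule.sub_mem _ hx (Submodule.smul_mem _ _ hy)) (Submodule.smul_mem _ _ hb))
      (Submodule.smul_mem _ _ hl)
    have zy : QQ y z = 0 := by
      rw [hz, map_sub, map_sub, map_sub, map_smul, map_smul, map_smul, oy, hyb',
        Sp2.QQ_comm y x]
      simp only [smul_eq_mul]
      field_simp
      ring
    have zb : QQ b z = 0 := by
      rw [hz, map_sub, map_sub, map_sub, map_smul, map_smul, map_smul, ob, hyb,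
        Sp2.QQ_comm b x]
      simp only [smul_eq_mul]
      field_simp
      ring
    have zl : QQ ⁅b, y⁆ z = 0 := by
      rw [hz, map_sub, map_sub, map_sub, map_smul, map_smul, map_smul,
        Sp2.QQ_comm ⁅b, y⁆ y, oy, Sp2.QQ_comm ⁅b, y⁆ b, ob, Sp2.QQ_comm ⁅b, y⁆ x]
      simp only [smul_eq_mul]
      field_simp
      ring
    obtain ⟨F, -, hF⟩ := sw_clif hu hB
    set c : ℝ := (3 + cc 1 3 u) / 4 with hc
    have hc0 : c ≠ 0 := by
      rcases wall_alg hu hB with ⟨hc', -⟩ | ⟨hc', -⟩ <;> rw [hc, hc'] <;> norm_num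
    have a1 : y * z = -(z * y) := by
      have := sw_anti hF hy hzm
      rw [zy, mul_zero, zero_smul, neg_zero] at this
      exact eq_neg_of_add_eq_zero_left this
    have a2 : b * z = -(z * b) := by
      have := sw_anti hF hb hzm
      rw [zb, mul_zero, zero_smul, neg_zero] at this
      exact eq_neg_of_add_eq_zero_left this
    have a3 : ⁅b, y⁆ * z = -(z * ⁅b, y⁆) := by
      have := sw_anti hF hl hzm
      rw [zl, mul_zero, zero_smul, neg_zero] at this
      exact eq_neg_of_add_eq_zero_left this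
    have a4 : b * y = -(y * b) := by
      have := sw_anti hF hb hy
      rw [hyb, mul_zero, zero_smul, neg_zero] at this
      exact eq_neg_of_add_eq_zero_left this
    have a5 : ⁅b, y⁆ = (2 : ℝ) • (b * y) := by
      rw [Ring.lie_def, two_smul, a4]; abel
    have a6 : b * y * z = z * (b * y) := by
      rw [mul_assoc, a1, mul_neg, ← mul_assoc, a2]
      noncomm_ring
    have a7 : z * (b * y) = 0 := by
      rw [a5, smul_mul_assoc, mul_smul_comm, ← smul_neg, a6] at a3
      have h1 := smul_right_injective Mat (two_ne_zero (α := ℝ)) a3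
      have h2 : (2 : ℝ) • (z * (b * y)) = 0 := by
        rw [two_smul]
        nth_rewrite 1 [h1]
        abel
      exact (smul_eq_zero.mp h2).resolve_left two_ne_zero
    have a8 : z * b = 0 := by
      have h1 : z * (b * y) * y = 0 := by rw [a7, zero_mul]
      have h2 : z * (b * y) * y = z * b * (y * y) := by noncomm_ring
      rw [h2, (hF y hy).2.2, mul_neg, mul_smul_comm, mul_assoc, (hF b hb).2.1, neg_eq_zero] at h1
      exact (smul_eq_zero.mp h1).resolve_left (mul_ne_zero hc0 py.ne')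
    have a9 : z = 0 := by
      have h1 : z * b * b = 0 := by rw [a8, zero_mul]
      rw [mul_assoc, (hF b hb).2.2, mul_neg, mul_smul_comm, (hF z hzm).2.1, neg_eq_zero] at h1
      exact (smul_eq_zero.mp h1).resolve_left (mul_ne_zero hc0 pb.ne')
    have hx2 : x = (QQ x y / QQ y y) • y + (QQ x b / QQ b b) • b +
        (QQ x ⁅b, y⁆ / QQ ⁅b, y⁆ ⁅b, y⁆) • ⁅b, y⁆ := by
      have : x = z + ((QQ x y / QQ y y) • y + (QQ x b / QQ b b) • b +
        (QQ x ⁅b, y⁆ / QQ ⁅b, y⁆ ⁅b, y⁆) • ⁅b, y⁆) := by rw [hz]; abel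
      rw [a9, zero_add] at this
      exact this
    rw [hx2]
    exact Submodule.add_mem _ (Submodule.add_mem _
      (Submodule.smul_mem _ _ (Submodule.subset_span (by simp)))
      (Submodule.smul_mem _ _ (Submodule.subset_span (by simp))))
      (Submodule.smul_mem _ _ (Submodule.subset_span (by simp)))
  · rw [Submodule.span_le]
    rintro x (rfl | rfl | rfl)
    · exact hy
    · exact hb
    · exact hl

theorem sw_finrank {u : V} (hu : QQ (u : Mat) u = 1) (hB : BB 1 3 u = 0) :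
    Module.finrank ℝ (sw (u : Mat)) ≤ 3 := by
  classical
  by_cases h1 : ∃ y ∈ sw (u : Mat), y ≠ 0
  · obtain ⟨y, hy, hy0⟩ := h1
    have py := Sp2.QQ_pos hy.1 hy0
    by_cases h2 : ∃ b ∈ sw (u : Mat), b ≠ 0 ∧ QQ b y = 0
    · obtain ⟨b, hb, hb0, hyb⟩ := h2
      rw [sw_span hu hB hy hb hy0 hb0 hyb]
      have : ({y, b, ⁅b, y⁆} : Set Mat) = (({y, b, ⁅b, y⁆} : Finset Mat) : Set Mat) := by simp
      rw [this]
      exact (finrank_span_finset_le_card _).trans Finset.card_le_three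
    · push Not at h2
      have h3 : sw (u : Mat) ≤ Submodule.span ℝ (({y} : Finset Mat) : Set Mat) := by
        intro x hx
        have hz : x - (QQ x y / QQ y y) • y ∈ sw (u : Mat) :=
          Submodule.sub_mem _ hx (Submodule.smul_mem _ _ hy)
        by_cases h4 : x - (QQ x y / QQ y y) • y = 0
        · rw [sub_eq_zero] at h4
          rw [h4]
          exact Submodule.smul_mem _ _ (Submodule.subset_span (by simp))
        · exfalso
          apply h2 _ hz h4
          rw [map_sub, LinearMap.sub_apply, map_smul, LinearMap.smul_apply, smul_eq_mul]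
          field_simp
          ring
      exact (Submodule.finrank_mono h3).trans ((finrank_span_finset_le_card _).trans (by simp))
  · push Not at h1
    have : sw (u : Mat) = ⊥ := (Submodule.eq_bot_iff _).mpr h1
    rw [this, finrank_bot]
    exact Nat.zero_le _

/-- decomposition of the centraliser -/
theorem cent_dec {u : V} (hu : QQ (u : Mat) u = 1) {Y : Mat} (hY : Y ∈ cent (u : Mat)) :
    Y - QQ (u : Mat) Y • (u : Mat) ∈ sw (u : Mat) := by
  refine ⟨gg.sub_mem hY.1 (gg.smul_mem _ u.2.1), ?_, ?_⟩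
  · have h1 := hY.2
    rw [lie_zero_iff] at h1 ⊢
    rw [mul_sub, sub_mul, h1, mul_smul_comm, smul_mul_assoc]
  · rw [map_sub, map_smul, hu, smul_eq_mul, mul_one, sub_self]

theorem cent_finrank {u : V} (hu : QQ (u : Mat) u = 1) (hB : BB 1 3 u = 0) :
    Module.finrank ℝ (cent (u : Mat)) ≤ 4 := by
  classical
  have h1 : cent (u : Mat) ≤ Submodule.span ℝ (({(u : Mat)} : Finset Mat) : Set Mat) ⊔
      sw (u : Mat) := by
    intro Y hY
    have : Y = QQ (u : Mat) Y • (u : Mat) + (Y - QQ (u : Mat) Y • (u : Mat)) := by abel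
    rw [this]
    exact Submodule.add_mem_sup (Submodule.smul_mem _ _ (Submodule.subset_span (by simp)))
      (cent_dec hu hY)
  have h2 := Submodule.finrank_mono h1
  have h3 := Submodule.finrank_add_le_finrank_add_finrank
    (Submodule.span ℝ (({(u : Mat)} : Finset Mat) : Set Mat)) (sw (u : Mat))
  have h4 : Module.finrank ℝ (Submodule.span ℝ (({(u : Mat)} : Finset Mat) : Set Mat)) ≤ 1 :=
    (finrank_span_finset_le_card _).trans (by simp)
  have h5 := sw_finrank hu hB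
  omega

/-- if `h₀` is not orthogonal to `sw u` then the centraliser in `𝔪` has dimension at most 3 -/
theorem centM_finrank {u : V} (hu : QQ (u : Mat) u = 1) (hB : BB 1 3 u = 0) {Z : Mat}
    (hZ : Z ∈ sw (u : Mat)) (hZ0 : QQ (h0 1 3) Z ≠ 0) : Module.finrank ℝ (centM u) ≤ 3 := by
  have hle : (centM u).map (m 1 3).subtype ≤ cent (u : Mat) := by
    rintro _ ⟨x, hx, rfl⟩
    exact hx
  have hlt : (centM u).map (m 1 3).subtype < cent (u : Mat) := by
    refine lt_of_le_of_ne hle fun h => ?_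
    have hZc : Z ∈ cent (u : Mat) := ⟨hZ.1, hZ.2.1⟩
    rw [← h] at hZc
    obtain ⟨x, -, hx⟩ := hZc
    apply hZ0
    rw [← hx]
    exact (Sp2.mem_m_iff.mp x.2).2
  have h1 := Submodule.finrank_lt_finrank_of_lt hlt
  have h2 := cent_finrank hu hB
  have h3 : Module.finrank ℝ ((centM u).map (m 1 3).subtype) = Module.finrank ℝ (centM u) :=
    Submodule.finrank_map_subtype_eq _ _
  omega

/-- the projection to `sw u` at the wall `c = -1` -/
theorem pjA_mem {u : V} (hu : QQ (u : Mat) u = 1) (hw : (u : Mat) * u = -(1 / 2 : ℝ) • (1 : Mat))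
    {X : Mat} (hX : X ∈ gg) : pjA (u : Mat) X ∈ sw (u : Mat) := by
  have hs : star (u : Mat) = -(u : Mat) := u.2.1
  have hx : star X = -X := hX
  have e1 : (u : Mat) * X * u ∈ gg := by
    show star ((u : Mat) * X * u) = -((u : Mat) * X * u)
    rw [star_mul, star_mul, hs, hx]; noncomm_ring
  refine ⟨gg.sub_mem (gg.sub_mem (gg.smul_mem _ hX) e1) (gg.smul_mem _ u.2.1), ?_, ?_⟩
  · rw [lie_zero_iff]
    unfold pjA
    have a1 : (u : Mat) * ((u : Mat) * X * u) = -(1 / 2 : ℝ) • (X * u) := by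
      rw [← mul_assoc, ← mul_assoc, hw]
      simp only [smul_mul_assoc, one_mul]
    have a2 : (u : Mat) * X * u * u = -(1 / 2 : ℝ) • ((u : Mat) * X) := by
      rw [mul_assoc ((u : Mat) * X), hw]
      simp only [mul_smul_comm, mul_one]
    rw [mul_sub, mul_sub, sub_mul, sub_mul, a1, a2, mul_smul_comm, smul_mul_assoc,
      mul_smul_comm, smul_mul_assoc]
    module
  · unfold pjA
    have a1 : QQ (u : Mat) ((u : Mat) * X * u) = -(1 / 2) * QQ X (u : Mat) := by
      rw [QQ_eq_retr, Sp2.retr_mul_comm]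
      have : (u : Mat) * X * u * u = (u : Mat) * X * ((u : Mat) * u) := mul_assoc _ _ _
      rw [this, hw, mul_smul_comm, mul_one, map_smul, Sp2.retr_mul_comm, retr_eq_QQ, smul_eq_mul]
      ring
    rw [map_sub, map_sub, map_smul, map_smul, a1, hu, Sp2.QQ_comm (u : Mat) X, smul_eq_mul,
      smul_eq_mul]
    ring

theorem pjA_QQ {u : V} (hw : (u : Mat) * u = -(1 / 2 : ℝ) • (1 : Mat))
    {X y : Mat} (hy : y ∈ sw (u : Mat)) : QQ (pjA (u : Mat) X) y = QQ X y := by
  obtain ⟨-, h2, h3⟩ := hy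
  rw [lie_zero_iff] at h2
  unfold pjA
  have a1 : QQ ((u : Mat) * X * u) y = -(1 / 2) * QQ X y := by
    rw [QQ_eq_retr]
    have : (u : Mat) * X * u * y = (u : Mat) * (X * ((u : Mat) * y)) := by noncomm_ring
    rw [this, h2, Sp2.retr_mul_comm]
    have : X * (y * (u : Mat)) * u = X * y * ((u : Mat) * u) := by noncomm_ring
    rw [this, hw, mul_smul_comm, mul_one, map_smul, retr_eq_QQ, smul_eq_mul]
    ring
  rw [map_sub, LinearMap.sub_apply, map_sub, LinearMap.sub_apply, map_smul, LinearMap.smul_apply,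
    map_smul, LinearMap.smul_apply, a1, h3, smul_eq_mul, smul_eq_mul]
  ring

theorem pjB_F {u : Mat} (hw : u * u * u = -u) : u * (1 + u * u) = 0 ∧ (1 + u * u) * u = 0 := by
  constructor
  · rw [mul_add, mul_one, ← mul_assoc, hw]; abel
  · rw [add_mul, one_mul, hw]; abel

/-- the projection to `sw u` at the wall `c = 1` -/
theorem pjB_mem {u : V} (hw : (u : Mat) * u * u = -(u : Mat)) {X : Mat} (hX : X ∈ gg) :
    pjB (u : Mat) X ∈ sw (u : Mat) := by
  have hs : star (u : Mat) = -(u : Mat) := u.2.1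
  have hx : star X = -X := hX
  obtain ⟨h1, h2⟩ := pjB_F hw
  refine ⟨?_, ?_, ?_⟩
  · show star (pjB (u : Mat) X) = -pjB (u : Mat) X
    unfold pjB
    simp only [star_mul, star_add, star_one, hs, hx]
    noncomm_ring
  · rw [lie_zero_iff]
    unfold pjB
    have e1 : (u : Mat) * ((1 + (u : Mat) * u) * X * (1 + (u : Mat) * u)) =
      ((u : Mat) * (1 + (u : Mat) * u)) * X * (1 + (u : Mat) * u) := by noncomm_ring
    have e2 : (1 + (u : Mat) * u) * X * (1 + (u : Mat) * u) * (u : Mat) =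
      (1 + (u : Mat) * u) * X * ((1 + (u : Mat) * u) * (u : Mat)) := by noncomm_ring
    rw [e1, e2, h1, h2, zero_mul, zero_mul, mul_zero]
  · unfold pjB
    rw [QQ_eq_retr]
    have e1 : (u : Mat) * ((1 + (u : Mat) * u) * X * (1 + (u : Mat) * u)) =
      ((u : Mat) * (1 + (u : Mat) * u)) * X * (1 + (u : Mat) * u) := by noncomm_ring
    rw [e1, h1, zero_mul, zero_mul, map_zero, neg_zero]

theorem sw_zeroB {u : V} (hu : QQ (u : Mat) u = 1) (hw : (u : Mat) * u * u = -(u : Mat))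
    {y : Mat} (hy : y ∈ sw (u : Mat)) : (u : Mat) * y = 0 ∧ y * (u : Mat) = 0 := by
  have hs : star (u : Mat) = -(u : Mat) := u.2.1
  obtain ⟨huF, hFu⟩ := pjB_F hw
  have hFr : Sp2.retr (1 + (u : Mat) * u) = 1 := by
    rw [map_add, Sp2.retr_one, retr_eq_QQ, hu]; norm_num
  have hF0 : (1 + (u : Mat) * u) ≠ 0 := by
    intro h
    rw [h, map_zero] at hFr
    exact zero_ne_one hFr
  obtain ⟨hy1, hy2, hy3⟩ := hy
  have hy1' : star y = -y := hy1
  rw [lie_zero_iff] at hy2
  have hz : (u : Mat) * y = 0 := by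
    have hst : star ((u : Mat) * y) = (u : Mat) * y := by
      rw [star_mul, hs, hy1', neg_mul_neg, hy2]
    obtain ⟨s, hS⟩ := Sp2.sq_scal (X := (u : Mat) * y) hst (by rw [retr_eq_QQ, hy3, neg_zero])
    have h1 : (u : Mat) * y * ((u : Mat) * y) * (1 + (u : Mat) * u) = 0 := by
      have : (u : Mat) * y * ((u : Mat) * y) * (1 + (u : Mat) * u) =
          (u : Mat) * y * (y * ((u : Mat) * (1 + (u : Mat) * u))) := by
        rw [hy2]; noncomm_ring
      rw [this, huF, mul_zero, mul_zero]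
    rw [hS, smul_mul_assoc, one_mul] at h1
    have h2 : s = 0 := (smul_eq_zero.mp h1).resolve_right hF0
    rw [h2, zero_smul] at hS
    exact herm_sq_zero hst hS
  exact ⟨hz, by rw [← hy2, hz]⟩

theorem pjB_QQ {u : V} (hu : QQ (u : Mat) u = 1) (hw : (u : Mat) * u * u = -(u : Mat))
    {X y : Mat} (hy : y ∈ sw (u : Mat)) : QQ (pjB (u : Mat) X) y = QQ X y := by
  obtain ⟨h1, h2⟩ := sw_zeroB hu hw hy
  unfold pjB
  rw [QQ_eq_retr, QQ_eq_retr]
  have e0 : (1 + (u : Mat) * u) * y = y := by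
    rw [add_mul, one_mul, mul_assoc, h1, mul_zero, add_zero]
  have e1 : (1 + (u : Mat) * u) * X * (1 + (u : Mat) * u) * y =
      (1 + (u : Mat) * u) * (X * ((1 + (u : Mat) * u) * y)) := by noncomm_ring
  have e2 : X * y * (1 + (u : Mat) * u) = X * (y * (1 + (u : Mat) * u)) := mul_assoc _ _ _
  have e3 : y * (1 + (u : Mat) * u) = y := by
    rw [mul_add, mul_one, ← mul_assoc, h2, zero_mul, add_zero]
  rw [e1, e0, Sp2.retr_mul_comm, e2, e3]

end Pool.Agent.FL.S1
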