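import Pool.Agent.FL.Gen

/-!
# MP_f09395_gt: generic finite type, general theorem and corollaries
-/

set_option linter.unusedSectionVars false

noncomputable section

namespace Pool.Agent.FL

open Filter Topology Module
open scoped ContDiff
open Pool.Agent.helper90.FL

variable {M : Type*} [NormedAddCommGroup M] [NormedSpace ℝ M] [FiniteDimensional ℝ M]
variable {U : Set M} {A V : M → M} {Λ : M → ((M →L[ℝ] ℝ) →L[ℝ] M)} {v : M → ℝ}
variable {κ : Type*} [Fintype κ] {J : ℕ}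

/-- linear family of functions -/
def linG (v : M → ℝ) (f : κ → M → ℝ) (z : M × (κ → ℝ)) : ℝ := v z.1 + ∑ i, z.2 i * f i z.1

theorem linG_smooth {f : κ → M → ℝ} (hv : ContDiffOn ℝ ∞ v U) (hf : ∀ i, ContDiffOn ℝ ∞ (f i) U) :
    ContDiffOn ℝ ∞ (linG v f) (U ×ˢ Set.univ) := by
  have h1 : ∀ {f : M → ℝ}, ContDiffOn ℝ ∞ f U →
      ContDiffOn ℝ ∞ (fun z : M × (κ → ℝ) => f z.1) (U ×ˢ Set.univ) := fun hf =>
    hf.comp contDiff_fst.contDiffOn fun _ hz => hz.1
  refine (h1 hv).add (ContDiffOn.sum fun i _ => ContDiffOn.mul ?_ (h1 (hf i)))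
  exact ((contDiff_apply ℝ ℝ i).comp contDiff_snd).contDiffOn

theorem linG_smooth' {f : κ → M → ℝ} (hv : ContDiffOn ℝ ∞ v U) (hf : ∀ i, ContDiffOn ℝ ∞ (f i) U)
    (p : κ → ℝ) : ContDiffOn ℝ ∞ (fun x => linG v f (x, p)) U :=
  (linG_smooth hv hf).comp (contDiff_id.prodMk contDiff_const).contDiffOn
    fun _ hx => ⟨hx, Set.mem_univ _⟩

/-- the tower of the family -/
def genT (A V : M → M) (Λ : M → ((M →L[ℝ] ℝ) →L[ℝ] M)) (v : M → ℝ) (f : κ → M → ℝ)
    (ν : Fin J → ℕ) (z : M × (κ → ℝ)) (j : Fin J) : ℝ :=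
  tow (liftV (κ → ℝ) A) (liftV (κ → ℝ) V) (liftL (κ → ℝ) Λ) (linG v f) (ν j) z

/-- **generic finite type, general theorem**: `ν` is a strictly increasing list of tower indices -/
theorem gft_gen (hU : IsOpen U) (hA : ContDiffOn ℝ ∞ A U) (hV : ContDiffOn ℝ ∞ V U)
    (hΛ : ContDiffOn ℝ ∞ Λ U) (hv : ContDiffOn ℝ ∞ v U) {f : κ → M → ℝ}
    (hf : ∀ i, ContDiffOn ℝ ∞ (f i) U) (hJ : finrank ℝ M < J) {ν : Fin J → ℕ}
    (hν : StrictMono ν) {S : Set (M × (κ → ℝ))} (hS : ∀ z ∈ S, z.1 ∈ U)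
    (h : ∀ z ∈ S, ∀ K : Fin J, ∃ (q : κ → ℝ) (C : ℝ) (φ : M → ℝ), ContDiffOn ℝ ∞ φ U ∧
      (∀ x, ∑ i, q i * f i x = φ x + C) ∧ Ord U z.1 (ν K + 1) φ ∧
      itd (fld V Λ (fun x => linG v f (x, z.2))) (fun x => fderiv ℝ φ x (A x)) (ν K) z.1 ≠ 0) :
    Negl {p : κ → ℝ | ∃ x, (x, p) ∈ S ∧
      ∀ j : Fin J, tow A V Λ (fun x => linG v f (x, p)) (ν j) x = 0} := by
  have hUP : IsOpen (U ×ˢ (Set.univ : Set (κ → ℝ))) := hU.prod isOpen_univ
  have hF := linG_smooth hv hf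
  have hΦ : ∀ j : ℕ, ContDiffOn ℝ ∞ (tow (liftV (κ → ℝ) A) (liftV (κ → ℝ) V)
      (liftL (κ → ℝ) Λ) (linG v f) j) (U ×ˢ Set.univ) := fun j =>
    tow_smooth hUP (liftV_smooth hA) (liftV_smooth hV) (liftL_smooth hΛ) hF j
  have key := negl_param' (Y := M) (P := κ → ℝ) (F := Fin J → ℝ)
    (Φ := genT A V Λ v f ν) (S := S)
    (by rw [finrank_fin_fun]; exact hJ)
    (by
      rintro ⟨x, p⟩ hz -
      have hx : x ∈ U := hS _ hz
      have hx' : ((x, p) : M × (κ → ℝ)) ∈ U ×ˢ (Set.univ : Set (κ → ℝ)) :=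
        ⟨hx, Set.mem_univ _⟩
      have hcd : ContDiffAt ℝ 1 (genT (J := J) A V Λ v f ν) (x, p) := by
        rw [contDiffAt_pi]
        intro j
        exact ((hΦ (ν j)).contDiffAt (hUP.mem_nhds hx')).of_le (by norm_cast)
      refine ⟨hcd, ?_⟩
      have hd := (hcd.differentiableAt one_ne_zero).hasFDerivAt
      choose q C φ hφ1 hφ2 hφ3 hφ4 using h (x, p) hz
      have hval : ∀ K j : Fin J, j ≤ K →
          fderiv ℝ (genT (J := J) A V Λ v f ν) (x, p) (0, q K) j =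
          itd (fld V Λ (fun x => linG v f (x, p))) (fun x => fderiv ℝ (φ K) x (A x)) (ν j) x := by
        intro K j hj
        have h1 : HasDerivAt (fun τ : ℝ => ((x, p) : M × (κ → ℝ)) + τ • ((0 : M), q K))
            ((0 : M), q K) 0 := by
          simpa using ((hasDerivAt_id (0 : ℝ)).smul_const
            (((0 : M), q K) : M × (κ → ℝ))).const_add (x, p)
        have h2 : HasFDerivAt (genT (J := J) A V Λ v f ν)
            (fderiv ℝ (genT (J := J) A V Λ v f ν) (x, p))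
            (((x, p) : M × (κ → ℝ)) + (0 : ℝ) • ((0 : M), q K)) := by
          rw [zero_smul, add_zero]; exact hd
        have h3 := (hasDerivAt_pi.1 (h2.comp_hasDerivAt (0 : ℝ) h1)) j
        have h4 : ∀ τ : ℝ, genT (J := J) A V Λ v f ν
            (((x, p) : M × (κ → ℝ)) + τ • ((0 : M), q K)) j =
            tow A V Λ (fun x => linG v f (x, p)) (ν j) x + τ *
            itd (fld V Λ (fun x => linG v f (x, p))) (fun x => fderiv ℝ (φ K) x (A x)) (ν j) x := by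
          intro τ
          have h5 : (((x, p) : M × (κ → ℝ)) + τ • ((0 : M), q K)) = (x, p + τ • q K) := by
            simp
          unfold genT
          rw [h5, slice_tow hU hA hV hΛ hF (ν j) x hx]
          refine tow_add_val hU hA hV hΛ (linG_smooth' hv hf p) (hφ1 K) hx τ (τ * C K) (hφ3 K) ?_
            (hν.monotone hj)
          intro y
          have h6 := hφ2 K y
          simp only [linG, Pi.add_apply, Pi.smul_apply, smul_eq_mul, add_mul, Finset.sum_add_distrib,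
            mul_assoc]
          rw [← Finset.mul_sum, h6]
          ring
        have h6 : HasDerivAt (fun τ : ℝ => tow A V Λ (fun x => linG v f (x, p)) (ν j) x + τ *
            itd (fld V Λ (fun x => linG v f (x, p))) (fun x => fderiv ℝ (φ K) x (A x)) (ν j) x)
            (itd (fld V Λ (fun x => linG v f (x, p))) (fun x => fderiv ℝ (φ K) x (A x)) (ν j) x)
            0 := by
          simpa using ((hasDerivAt_id (0 : ℝ)).mul_const _).const_add
            (tow A V Λ (fun x => linG v f (x, p)) (ν j) x)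
        exact h3.unique (h6.congr_of_eventuallyEq (Filter.Eventually.of_forall h4))
      have hX : ContDiffOn ℝ ∞ (fld V Λ (fun x => linG v f (x, p))) U :=
        fld_smooth hU hV hΛ (linG_smooth' hv hf p)
      exact tri_surj (J := J) ((fderiv ℝ (genT (J := J) A V Λ v f ν) (x, p)).toLinearMap ∘ₗ
            (LinearMap.inr ℝ M (κ → ℝ))) q
        (fun K j hjK => by
          show fderiv ℝ (genT (J := J) A V Λ v f ν) (x, p) (0, q K) j = 0
          rw [hval K j hjK.le]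
          exact ord_itd_val hX (hν hjK) ((hφ3 K).2 A hA))
        (fun K => by
          show fderiv ℝ (genT (J := J) A V Λ v f ν) (x, p) (0, q K) K ≠ 0
          rw [hval K K le_rfl]
          exact hφ4 K))
  refine key.mono ?_
  rintro p ⟨x, hx, h0⟩
  refine ⟨x, hx, ?_⟩
  funext j
  simp only [Pi.zero_apply]
  unfold genT
  rw [slice_tow hU hA hV hΛ hF (ν j) x (hS _ hx)]
  exact h0 j

/-! ### leading coefficients -/

/-- `φ = σ ^ (n + 1)` -/
theorem lead_pow (hU : IsOpen U) {X : M → M} (hX : ContDiffOn ℝ ∞ X U)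
    (hA : ContDiffOn ℝ ∞ A U) {s : M → ℝ} (hs : ContDiffOn ℝ ∞ s U) {x₀ : M} (hx : x₀ ∈ U)
    (n : ℕ) : itd X (fun x => fderiv ℝ (fun y => (s y - s x₀) ^ (n + 1)) x (A x)) n x₀ =
      ((n + 1) * n.factorial : ℝ) * (fderiv ℝ s x₀ (X x₀)) ^ n * fderiv ℝ s x₀ (A x₀) := by
  have h1 : ∀ x ∈ U, fderiv ℝ (fun y => (s y - s x₀) ^ (n + 1)) x (A x) =
      (((n : ℝ) + 1) * fderiv ℝ s x (A x)) * (s x - s x₀) ^ n := by
    intro x hxU
    have h2 : HasFDerivAt (fun y => (s y - s x₀) ^ (n + 1))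
        (((n + 1 : ℕ) • (s x - s x₀) ^ (n + 1 - 1)) • fderiv ℝ s x) x :=
      ((dif_at hU hs hxU).hasFDerivAt.sub_const (s x₀)).pow (n + 1)
    rw [h2.fderiv]
    simp [nsmul_eq_mul]
    ring
  rw [itd_congr hU h1 n x₀ hx]
  obtain ⟨R, -, hR1, hR2⟩ := itd_mul_pow hU hX (g := fun x => ((n : ℝ) + 1) * fderiv ℝ s x (A x))
    (contDiffOn_const.mul (fder_app_smooth hU hs hA)) hs x₀ n n le_rfl
  rw [hR1 x₀ hx, hR2, Nat.descFactorial_self, Nat.sub_self, pow_zero]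
  ring

/-- `φ = (g - g(x₀)) s ^ n` with `s(x₀) = 0`, `Ds(A) = 0` at `x₀` -/
theorem lead_mul (hU : IsOpen U) {X : M → M} (hX : ContDiffOn ℝ ∞ X U)
    (hA : ContDiffOn ℝ ∞ A U) {s g : M → ℝ} (hs : ContDiffOn ℝ ∞ s U) (hg : ContDiffOn ℝ ∞ g U)
    {x₀ : M} (hx : x₀ ∈ U) (hs0 : s x₀ = 0) (hsA : fderiv ℝ s x₀ (A x₀) = 0) (n : ℕ) :
    itd X (fun x => fderiv ℝ (fun y => (g y - g x₀) * s y ^ n) x (A x)) n x₀ =
      (n.factorial : ℝ) * (fderiv ℝ s x₀ (X x₀)) ^ n * fderiv ℝ g x₀ (A x₀) := by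
  have hσ : ContDiffOn ℝ ∞ (fun x => g x - g x₀) U := hg.sub contDiffOn_const
  have h1 : ∀ x ∈ U, fderiv ℝ (fun y => (g y - g x₀) * s y ^ n) x (A x) =
      fderiv ℝ g x (A x) * (s x - s x₀) ^ n +
        (g x - g x₀) * ((n : ℝ) * s x ^ (n - 1) * fderiv ℝ s x (A x)) := by
    intro x hxU
    have h2 : HasFDerivAt (fun y => (g y - g x₀) * s y ^ n)
        ((g x - g x₀) • ((n • s x ^ (n - 1)) • fderiv ℝ s x) + (s x ^ n) • fderiv ℝ g x) x :=
      ((dif_at hU hg hxU).hasFDerivAt.sub_const (g x₀)).mul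
        ((dif_at hU hs hxU).hasFDerivAt.pow n)
    rw [h2.fderiv, hs0]
    simp [nsmul_eq_mul]
    ring
  have sA := fder_app_smooth hU hs hA
  have s2 : ContDiffOn ℝ ∞ (fun x => (g x - g x₀) *
      ((n : ℝ) * s x ^ (n - 1) * fderiv ℝ s x (A x))) U :=
    hσ.mul ((contDiffOn_const.mul (hs.pow _)).mul sA)
  have s1 : ContDiffOn ℝ ∞ (fun x => fderiv ℝ g x (A x) * (s x - s x₀) ^ n) U :=
    (fder_app_smooth hU hg hA).mul ((hs.sub contDiffOn_const).pow n)
  rw [itd_congr hU h1 n x₀ hx, itd_add hU hX s1 s2 n x₀ hx]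
  obtain ⟨R, -, hR1, hR2⟩ := itd_mul_pow hU hX (fder_app_smooth hU hg hA) hs x₀ n n le_rfl
  rw [hR1 x₀ hx, hR2, Nat.descFactorial_self, Nat.sub_self, pow_zero]
  have h3 : itd X (fun x => (g x - g x₀) *
      ((n : ℝ) * s x ^ (n - 1) * fderiv ℝ s x (A x))) n x₀ = 0 := by
    rcases Nat.eq_zero_or_pos n with h0 | h0
    · subst h0; simp [itd]
    · obtain ⟨n', rfl⟩ : ∃ n', n = n' + 1 := ⟨n - 1, by omega⟩
      refine ord_itd_val hX (r := n' + 1 + 1) (by omega) ?_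
      refine ord_mul hU hx _ 1 (n' + 1) (by omega) hσ ((contDiffOn_const.mul (hs.pow _)).mul sA)
        (ord_one (sub_self _)) ?_
      refine ord_mul hU hx _ n' 1 rfl (contDiffOn_const.mul (hs.pow _)) sA ?_ (ord_one hsA)
      have : n' + 1 - 1 = n' := by omega
      rw [this]
      exact ord_smul hU hx n' _ (hs.pow _) (ord_pow hU hx hs hs0 n')
  rw [h3, add_zero, one_mul]

/-! ### corollaries -/

section Cor

variable {ι : Type*} [Fintype ι] [DecidableEq ι]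

/-- the family `s i ^ (ν k + 1)` -/
def famP (s : ι → M → ℝ) (ν : Fin J → ℕ) (a : ι × Fin J) (x : M) : ℝ := s a.1 x ^ (ν a.2 + 1)

/-- **exponents in a prescribed set, at zeros of `s i`** -/
theorem gft_zero (hU : IsOpen U) (hA : ContDiffOn ℝ ∞ A U) (hV : ContDiffOn ℝ ∞ V U)
    (hΛ : ContDiffOn ℝ ∞ Λ U) (hv : ContDiffOn ℝ ∞ v U) {s : ι → M → ℝ}
    (hs : ∀ i, ContDiffOn ℝ ∞ (s i) U) (hJ : finrank ℝ M < J) {ν : Fin J → ℕ}
    (hν : StrictMono ν) :
    Negl {p : ι × Fin J → ℝ | ∃ x ∈ U, (∃ i, s i x = 0 ∧ fderiv ℝ (s i) x (A x) ≠ 0 ∧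
      fderiv ℝ (s i) x (fld V Λ (fun x => linG v (famP s ν) (x, p)) x) ≠ 0) ∧
      ∀ j : Fin J, tow A V Λ (fun x => linG v (famP s ν) (x, p)) (ν j) x = 0} := by
  have hf : ∀ a : ι × Fin J, ContDiffOn ℝ ∞ (famP s ν a) U := fun a => (hs a.1).pow _
  have key := gft_gen hU hA hV hΛ hv hf hJ hν
    (S := {z : M × (ι × Fin J → ℝ) | z.1 ∈ U ∧ ∃ i, s i z.1 = 0 ∧
      fderiv ℝ (s i) z.1 (A z.1) ≠ 0 ∧
      fderiv ℝ (s i) z.1 (fld V Λ (fun x => linG v (famP s ν) (x, z.2)) z.1) ≠ 0})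
    (fun z hz => hz.1) (by
      rintro ⟨x, p⟩ ⟨hx, i, hi0, hi1, hi2⟩ K
      simp only at hx hi0 hi1 hi2
      refine ⟨Pi.single (i, K) 1, 0, fun y => (s i y - s i x) ^ (ν K + 1), ?_, ?_, ?_, ?_⟩
      · exact ((hs i).sub contDiffOn_const).pow _
      · intro y
        rw [Finset.sum_eq_single (i, K)]
        · simp [famP, hi0]
        · intro a _ ha; simp [Pi.single_eq_of_ne ha]
        · intro h; exact absurd (Finset.mem_univ _) h
      · exact ord_pow hU hx ((hs i).sub contDiffOn_const) (sub_self _) _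
      · rw [lead_pow hU (fld_smooth hU hV hΛ (linG_smooth' hv hf p)) hA (hs i) hx]
        exact mul_ne_zero (mul_ne_zero (by positivity) (pow_ne_zero _ hi2)) hi1)
  refine key.mono ?_
  rintro p ⟨x, hx, hi, h0⟩
  exact ⟨x, ⟨hx, hi⟩, h0⟩

/-- the family `s i ^ (ν k)` and `g l * s i ^ (ν k)` -/
def famM {σ : Type*} (s : ι → M → ℝ) (g : σ → M → ℝ) (ν : Fin J → ℕ) (a : Option σ × ι × Fin J)
    (x : M) : ℝ := (Option.elim a.1 1 (fun l => g l x)) * s a.2.1 x ^ ν a.2.2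

/-- **products `g l * s i ^ (ν k)`, at zeros of `s i` where `D(s i)(A) = 0`** -/
theorem gft_odd {σ : Type*} [Fintype σ] [DecidableEq σ] (hU : IsOpen U)
    (hA : ContDiffOn ℝ ∞ A U) (hV : ContDiffOn ℝ ∞ V U)
    (hΛ : ContDiffOn ℝ ∞ Λ U) (hv : ContDiffOn ℝ ∞ v U) {s : ι → M → ℝ} {g : σ → M → ℝ}
    (hs : ∀ i, ContDiffOn ℝ ∞ (s i) U) (hg : ∀ l, ContDiffOn ℝ ∞ (g l) U)
    (hJ : finrank ℝ M < J) {ν : Fin J → ℕ} (hν : StrictMono ν) :
    Negl {p : Option σ × ι × Fin J → ℝ | ∃ x ∈ U, (∃ i, s i x = 0 ∧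
      fderiv ℝ (s i) x (A x) = 0 ∧
      fderiv ℝ (s i) x (fld V Λ (fun x => linG v (famM s g ν) (x, p)) x) ≠ 0) ∧
      (∃ l, fderiv ℝ (g l) x (A x) ≠ 0) ∧
      ∀ j : Fin J, tow A V Λ (fun x => linG v (famM s g ν) (x, p)) (ν j) x = 0} := by
  have hf : ∀ a : Option σ × ι × Fin J, ContDiffOn ℝ ∞ (famM s g ν a) U := by
    rintro ⟨a, i, k⟩
    rcases a with _ | l
    · exact contDiffOn_const.mul ((hs i).pow _)
    · exact (hg l).mul ((hs i).pow _)
  have key := gft_gen hU hA hV hΛ hv hf hJ hν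
    (S := {z : M × (Option σ × ι × Fin J → ℝ) | z.1 ∈ U ∧ (∃ i, s i z.1 = 0 ∧
      fderiv ℝ (s i) z.1 (A z.1) = 0 ∧
      fderiv ℝ (s i) z.1 (fld V Λ (fun x => linG v (famM s g ν) (x, z.2)) z.1) ≠ 0) ∧
      (∃ l, fderiv ℝ (g l) z.1 (A z.1) ≠ 0)})
    (fun z hz => hz.1) (by
      rintro ⟨x, p⟩ ⟨hx, ⟨i, hi0, hi1, hi2⟩, l, hl⟩ K
      simp only at hx hi0 hi1 hi2 hl
      refine ⟨Pi.single (some l, i, K) 1 + Pi.single (none, i, K) (-(g l x)), 0,
        fun y => (g l y - g l x) * s i y ^ ν K, ?_, ?_, ?_, ?_⟩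
      · exact ((hg l).sub contDiffOn_const).mul ((hs i).pow _)
      · intro y
        have e1 : ∑ a, (Pi.single (some l, i, K) 1 + Pi.single (none, i, K) (-(g l x)) :
            Option σ × ι × Fin J → ℝ) a * famM s g ν a y =
            ∑ a, (Pi.single (some l, i, K) (1 : ℝ) : Option σ × ι × Fin J → ℝ) a *
              famM s g ν a y +
            ∑ a, (Pi.single (none, i, K) (-(g l x)) : Option σ × ι × Fin J → ℝ) a *
              famM s g ν a y := by
          rw [← Finset.sum_add_distrib]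
          exact Finset.sum_congr rfl fun a _ => by rw [Pi.add_apply]; ring
        have e2 : ∀ (b : Option σ × ι × Fin J) (r : ℝ), ∑ a, (Pi.single b r :
            Option σ × ι × Fin J → ℝ) a * famM s g ν a y = r * famM s g ν b y := by
          intro b r
          rw [Finset.sum_eq_single b]
          · simp
          · intro a _ ha; simp [Pi.single_eq_of_ne ha]
          · intro h; exact absurd (Finset.mem_univ _) h
        rw [e1, e2, e2]
        simp only [famM, Option.elim]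
        ring
      · refine ord_mul hU hx _ 1 (ν K) (by omega) ((hg l).sub contDiffOn_const)
          ((hs i).pow _) (ord_one (sub_self _)) (ord_pow hU hx (hs i) hi0 _)
      · rw [lead_mul hU (fld_smooth hU hV hΛ (linG_smooth' hv hf p)) hA (hs i) (hg l) hx hi0 hi1]
        exact mul_ne_zero (mul_ne_zero (by positivity) (pow_ne_zero _ hi2)) hl)
  refine key.mono ?_
  rintro p ⟨x, hx, hi, hl, h0⟩
  exact ⟨x, ⟨hx, hi, hl⟩, h0⟩

end Cor

end Pool.Agent.FL
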