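import Pool.Agent.FL.S1Core
import Pool.Agent.FL.GenT
import Pool.Agent.FL.BLin
import Pool.Agent.FL.Inv0

/-!
# MP_f09395_gt, space (1): the hub (definitions only)

Everything is in the sign convention of `T3F` (Lean sign).  `c = cc 1 3`, wall B: `c = 1`,
wall A: `c = -1`.  Dictionary: `P = Zm`, `R = -Zp`, `z₂ = √2 conj C`, `z₁ = √2 Q`.
-/

set_option linter.unusedSectionVars false

noncomputable section

namespace Pool.Agent.FL.S1

open scoped ContDiff Quaternion Matrix ComplexConjugate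
open Pool.Agent.Helper93.Fin Pool.Agent.helper79.FP Pool.Agent.helper79.FR
open Pool.Agent.helper79.FR.Sp2 (Mat QQ h0 m gg hh PP BB cc)
open Pool.Agent.FL
open Pool.Agent.FL.Wall (ef EE LamE LamW)
open Filter Topology

attribute [local instance] Matrix.linftyOpNormedRing Matrix.linftyOpNormedAlgebra

/-! ### the standard data -/

theorem nD : NData gg (hh 1 3) (m 1 3) QQ (PP 1 3) :=
  Pool.Agent.helper79.FR.Sp2.nData le_rfl (by norm_num)

theorem cD : Cas gg (hh 1 3) (m 1 3) QQ (PP 1 3) (h0 1 3) (BB 1 3) (cc 1 3) :=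
  Pool.Agent.helper79.FR.Sp2.cas le_rfl (by norm_num)

theorem gD : GrpD (Pool.Agent.helper79.FR.Sp2.H 1 3) (hh 1 3) (m 1 3) QQ (h0 1 3) (BB 1 3)
    (cc 1 3) :=
  Pool.Agent.helper79.FR.Sp2.grpD le_rfl (by norm_num)

/-! ### abbreviations -/

/-- flags -/
abbrev Fl (u b : V) : Prop := Flag QQ u b

/-- wall flags -/
def Wl (u b : V) : Prop := Fl u b ∧ QQ (BB 1 3 u) (b : Mat) = 0

/-- admissible functions: smooth off the origin, homogeneous of degree two, invariant -/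
structure Ph (v : V → ℝ) : Prop where
  phi : PhiN (hh 1 3) (m 1 3) (PP 1 3) v
  inv : InvH (Pool.Agent.helper79.FR.Sp2.H 1 3) v

/-- invariant functions of degree zero -/
abbrev I0 (s : V → ℝ) : Prop := Inv0 (Pool.Agent.helper79.FR.Sp2.H 1 3) s

/-- the square of the norm -/
def nr (u : V) : ℝ := QQ (u : Mat) (u : Mat)

/-- the gradient -/
abbrev gd (v : V → ℝ) (u : V) : V := gx QQ v u

/-- the Euler field `[u, ∇v(u)]` -/
abbrev eu (v : V → ℝ) (u : V) : V := ef QQ (PP 1 3) v u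

/-- `α` -/
abbrev alf (v : V → ℝ) (u b : V) : ℝ := al (PP 1 3) (h0 1 3) v u b

/-- `α'` -/
abbrev alf' (v : V → ℝ) (u b : V) : ℝ := al' (PP 1 3) (h0 1 3) v u b

/-- the third order form -/
abbrev T3 (v : V → ℝ) (u b : V) : ℝ := T3F QQ (PP 1 3) v u b

/-- the `W`-tower -/
abbrev aWt (v : V → ℝ) (j : ℕ) (u : V) : ℝ := aW (PP 1 3) (h0 1 3) (BB 1 3) v j u

/-- the towers `A_j(u, ·)`: `A_0(u, Y) = Dv(u)[h₀, Y]`, `A_{j+1} = D_e A_j + A_j(u, [Y, ∇v])` -/
def Aj (v : V → ℝ) : ℕ → V → Mat →L[ℝ] ℝ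
  | 0 => LamW (PP 1 3) (h0 1 3) v
  | j + 1 => LamE QQ (PP 1 3) v (Aj v j)

/-- the functions `F_j = E^j (W v)`, `F_j(u) = A_j(u, B u)` -/
def Fj (v : V → ℝ) : ℕ → V → ℝ
  | 0 => aWt v 1
  | j + 1 => EE QQ (PP 1 3) v (Fj v j)

/-- the bound for the number of members of the towers -/
def NT : ℕ := 60

/-! ### strata -/

/-- even part: `P = R = C = 0` -/
def Ev (u : V) : Prop := cP u = 0 ∧ cR u = 0 ∧ cC u = 0

/-- odd part: `r₀ = 0`, `Q = 0` -/
def Od (u : V) : Prop := c0 u = 0 ∧ cQ u = 0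

/-- generic points -/
def Gen (u : V) : Prop :=
  (cQ u ≠ 0 ∧ (cC u ≠ 0 ∨ cP u ≠ 0 ∨ cR u ≠ 0)) ∨ (c0 u ≠ 0 ∧ (cC u ≠ 0 ∨ cP u ≠ 0))

/-- generic points of the odd part -/
def Od' (u : V) : Prop := Od u ∧ (cC u ≠ 0 ∨ cP u ≠ 0)

/-- the special points (on the walls): `E15`, `x5`, `x4`, `Zp` -/
def Spec (u : V) : Prop :=
  (c0 u = 0 ∧ cP u = 0 ∧ cR u = 0 ∧ cC u = 0) ∨
  (cP u = 0 ∧ cR u = 0 ∧ cC u = 0 ∧ 10 * c0 u ^ 2 = 5 / 8) ∨
  (cP u = 0 ∧ cC u = 0 ∧ cQ u = 0 ∧ 10 * c0 u ^ 2 = 5 / 9) ∨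
  (c0 u = 0 ∧ cP u = 0 ∧ cC u = 0 ∧ cQ u = 0)

/-! ### invariants -/

/-- odd invariants (degree, real or imaginary parts), not normalised -/
def oddI : Fin 11 → (V → ℝ)
  | 0 => fun u => c0 u
  | 1 => fun u => (cQ u * cC u ^ 2).re
  | 2 => fun u => (cQ u * cC u ^ 2).im
  | 3 => fun u => (cQ u * conj (cP u) ^ 2).re
  | 4 => fun u => (cQ u * conj (cP u) ^ 2).im
  | 5 => fun u => (cR u * conj (cQ u) * cC u).re
  | 6 => fun u => (cR u * conj (cQ u) * cC u).im
  | 7 => fun u => (cR u * conj (cQ u) * conj (cP u)).re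
  | 8 => fun u => (cR u * conj (cQ u) * conj (cP u)).im
  | 9 => fun u => (cQ u ^ 3 * conj (cR u) ^ 2).re
  | 10 => fun u => (cQ u ^ 3 * conj (cR u) ^ 2).im

/-- degrees of the odd invariants -/
def oddD : Fin 11 → ℕ := ![1, 3, 3, 3, 3, 3, 3, 3, 3, 5, 5]

/-- even invariants, not normalised -/
def evI : Fin 10 → (V → ℝ)
  | 0 => fun u => Complex.normSq (cQ u)
  | 1 => fun u => Complex.normSq (cC u)
  | 2 => fun u => Complex.normSq (cP u)
  | 3 => fun u => Complex.normSq (cR u)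
  | 4 => fun u => (cC u * cP u).re
  | 5 => fun u => (cC u * cP u).im
  | 6 => fun u => (cR u * cC u ^ 3).re
  | 7 => fun u => (cR u * cC u ^ 3).im
  | 8 => fun u => (cR u * conj (cP u) ^ 3).re
  | 9 => fun u => (cR u * conj (cP u) ^ 3).im

/-- degrees of the even invariants -/
def evD : Fin 10 → ℕ := ![2, 2, 2, 2, 2, 2, 4, 4, 4, 4]

/-- normalised odd invariants (degree zero, `c(-u) = -c(u)`) -/
def oI (i : Fin 11) (u : V) : ℝ := oddI i u / Real.sqrt (nr u) ^ oddD i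

/-- normalised even invariants -/
def eI (i : Fin 10) (u : V) : ℝ := evI i u / Real.sqrt (nr u) ^ evD i

/-- index set of the basic even functions -/
abbrev E0 : Type := Fin 10 ⊕ Fin 11 × Fin 11

/-- basic even functions: `e_j` and `c_j c_k` -/
def s0 : E0 → V → ℝ
  | Sum.inl i => eI i
  | Sum.inr (i, j) => fun u => oI i u * oI j u

/-- index set of the even functions and their pairwise sums -/
abbrev SI : Type := E0 × Option E0

/-- even functions and their pairwise sums -/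
def sF : SI → V → ℝ
  | (a, none) => s0 a
  | (a, some b) => fun u => s0 a u + s0 b u

/-- index set of the odd functions and their pairwise sums -/
abbrev CI : Type := Fin 11 × Option (Fin 11)

/-- odd functions and their pairwise sums -/
def cF : CI → V → ℝ
  | (a, none) => oI a
  | (a, some b) => fun u => oI a u + oI b u

/-- index set of the family of perturbations -/
abbrev FI : Type := (SI × Fin (NT + 1)) ⊕ (CI × Fin (NT + 1) × Option SI)

/-- the family of perturbations (degree zero part): `s ^ i`, `c ^ (2 i)`, `c ^ (2 i) s` -/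
def f0 : FI → V → ℝ
  | Sum.inl (s, i) => fun u => sF s u ^ (i : ℕ)
  | Sum.inr (a, i, none) => fun u => cF a u ^ (2 * (i : ℕ))
  | Sum.inr (a, i, some s) => fun u => cF a u ^ (2 * (i : ℕ)) * sF s u

/-- the family of perturbations: `|u|² f` -/
def fam (k : FI) (u : V) : ℝ := nr u * f0 k u

/-- the perturbed function `v + χ Σ p_k f_k` -/
def pt (v χ : V → ℝ) (p : FI → ℝ) (u : V) : ℝ := v u + ∑ k, p k * (χ u * fam k u)

end Pool.Agent.FL.S1
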