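import Pool.Agent.FL.BLin
import Pool.Agent.FL.S1Hub
import Pool.Agent.FL.S1Cent

/-!
# MP_f09395_gt, space (1), S7: relative equilibria `e(u) ∈ ℝ [h₀, u]` at flags

(a) at a regular flag `e(u) ∈ ℝ [h₀, u]` implies `e(u) = 0`;
(b) at a wall flag with `α = 0`, `e(u) = k [u, h₀]`, `k ≠ 0` and `A₁(u, b) = 0` the gradient is
`l u + k (h₀ - (Q h₀ h₀ / Q h_s h_s) h_s)`, where `h_s ≠ 0` is the projection of `h₀` to `s_u`.
-/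

set_option linter.unusedSectionVars false

noncomputable section

namespace Pool.Agent.FL.S1S7

open scoped ContDiff
open Pool.Agent.Helper93.Fin Pool.Agent.helper79.FP Pool.Agent.helper79.FR Pool.Agent.FL.Wall

variable {𝔸 : Type*} [NormedRing 𝔸] [NormedAlgebra ℝ 𝔸]

/-- `y ∈ s_u`: the centraliser of `u` in `𝔤`, orthogonal to `u` -/
def InS {m : Submodule ℝ 𝔸} (g : Submodule ℝ 𝔸) (Q : 𝔸 →ₗ[ℝ] 𝔸 →ₗ[ℝ] ℝ) (u : m) (y : 𝔸) :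
    Prop :=
  y ∈ g ∧ ⁅(u : 𝔸), y⁆ = 0 ∧ Q (u : 𝔸) y = 0

/-- `k` is the orthogonal projection of `h₀` to `s_u` -/
structure IsHs {m : Submodule ℝ 𝔸} (g : Submodule ℝ 𝔸) (Q : 𝔸 →ₗ[ℝ] 𝔸 →ₗ[ℝ] ℝ) (h0 : 𝔸) (u : m)
    (k : 𝔸) : Prop where
  mem : InS g Q u k
  proj : ∀ y, InS g Q u y → Q h0 y = Q k y

/-- `s_u` is `𝔰𝔲(2)` (or zero): the double bracket relation -/
def SRel {m : Submodule ℝ 𝔸} (g : Submodule ℝ 𝔸) (Q : 𝔸 →ₗ[ℝ] 𝔸 →ₗ[ℝ] ℝ) (u : m) (κ : ℝ) :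
    Prop :=
  ∀ b y, InS g Q u b → InS g Q u y → ⁅⁅b, y⁆, y⁆ = κ • (Q y b • y - Q y y • b)

variable [FiniteDimensional ℝ 𝔸]
variable {g h m : Submodule ℝ 𝔸} {Q : 𝔸 →ₗ[ℝ] 𝔸 →ₗ[ℝ] ℝ} {P : 𝔸 →L[ℝ] m}
variable {v : m → ℝ} {h0 : 𝔸} {B : m → 𝔸} {c : m → ℝ} {u b : m} {κ : ℝ}

theorem lie_add' (X Y Z : 𝔸) : ⁅X, Y + Z⁆ = ⁅X, Y⁆ + ⁅X, Z⁆ := by
  simp only [Ring.lie_def]; noncomm_ring

theorem lie_smul' (r : ℝ) (X Y : 𝔸) : ⁅X, r • Y⁆ = r • ⁅X, Y⁆ := by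
  simp only [Ring.lie_def, mul_smul_comm, smul_mul_assoc, smul_sub]

theorem add_lie' (X Y Z : 𝔸) : ⁅X + Y, Z⁆ = ⁅X, Z⁆ + ⁅Y, Z⁆ := by
  simp only [Ring.lie_def]; noncomm_ring

theorem smul_lie' (r : ℝ) (X Y : 𝔸) : ⁅r • X, Y⁆ = r • ⁅X, Y⁆ := by
  simp only [Ring.lie_def, mul_smul_comm, smul_mul_assoc, smul_sub]

theorem jac (X Y Z : 𝔸) : ⁅⁅X, Y⁆, Z⁆ + ⁅⁅Y, Z⁆, X⁆ + ⁅⁅Z, X⁆, Y⁆ = 0 := by
  simp only [Ring.lie_def]; noncomm_ring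

theorem jac' (X Y Z : 𝔸) : ⁅X, ⁅Y, Z⁆⁆ = ⁅⁅X, Y⁆, Z⁆ + ⁅Y, ⁅X, Z⁆⁆ := by
  simp only [Ring.lie_def]; noncomm_ring

theorem InS.add {y z : 𝔸} (hy : InS g Q u y) (hz : InS g Q u z) : InS g Q u (y + z) :=
  ⟨g.add_mem hy.1 hz.1, by rw [lie_add', hy.2.1, hz.2.1, add_zero],
    by rw [map_add, hy.2.2, hz.2.2, add_zero]⟩

theorem InS.smul {y : 𝔸} (hy : InS g Q u y) (r : ℝ) : InS g Q u (r • y) :=
  ⟨g.smul_mem r hy.1, by rw [lie_smul', hy.2.1, smul_zero],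
    by rw [map_smul, hy.2.2, smul_zero]⟩

theorem InS.lie (hN : NData g h m Q P) {y z : 𝔸} (hy : InS g Q u y) (hz : InS g Q u z) :
    InS g Q u ⁅y, z⁆ := by
  refine ⟨lg hN hy.1 hz.1, ?_, ?_⟩
  · rw [jac', hy.2.1, hz.2.1]
    simp [Ring.lie_def]
  · rw [← hN.Qinv, hy.2.1, map_zero, LinearMap.zero_apply]

theorem SRel.pol (hN : NData g h m Q P) (hS : SRel g Q u κ) {a y z : 𝔸} (ha : InS g Q u a)
    (hy : InS g Q u y) (hz : InS g Q u z) :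
    ⁅⁅a, y⁆, z⁆ + ⁅⁅a, z⁆, y⁆ = κ • (Q y a • z + Q z a • y - (2 * Q y z) • a) := by
  have h1 := hS a (y + z) ha (hy.add hz)
  have h2 := hS a y ha hy
  have h3 := hS a z ha hz
  have h4 : ⁅⁅a, y + z⁆, y + z⁆ = ⁅⁅a, y⁆, y⁆ + ⁅⁅a, z⁆, z⁆ + (⁅⁅a, y⁆, z⁆ + ⁅⁅a, z⁆, y⁆) := by
    simp only [lie_add', add_lie']; abel
  rw [h4, h2, h3] at h1
  have h5 : Q z y = Q y z := hN.Qsymm z y
  have h6 := sub_eq_zero.2 h1
  rw [← sub_eq_zero, ← h6]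
  simp only [map_add, LinearMap.add_apply, h5]
  module

/-- three-dimensionality of `s_u` -/
theorem SRel.line (hN : NData g h m Q P) (hS : SRel g Q u κ) (hκ : κ ≠ 0) {b y k : 𝔸}
    (hb : InS g Q u b) (hy : InS g Q u y) (hk : InS g Q u k) (hb0 : b ≠ 0) (hy0 : y ≠ 0)
    (hyb : Q y b = 0) (hkb : Q k b = 0) (hkn : Q k ⁅b, y⁆ = 0) : ∃ t : ℝ, k = t • y := by
  have hyy := hN.Qpos y hy.1 hy0
  have hby : Q b y = 0 := by rw [hN.Qsymm]; exact hyb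
  refine ⟨Q k y / Q y y, ?_⟩
  obtain ⟨w, hw⟩ : ∃ w, w = k + (-(Q k y / Q y y)) • y := ⟨_, rfl⟩
  have hwS : InS g Q u w := by rw [hw]; exact hk.add (hy.smul _)
  have wy : Q w y = 0 := by
    rw [hw, map_add, map_smul, LinearMap.add_apply, LinearMap.smul_apply, smul_eq_mul]
    field_simp
    ring
  have wb : Q w b = 0 := by
    rw [hw, map_add, map_smul, LinearMap.add_apply, LinearMap.smul_apply, smul_eq_mul, hyb, hkb]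
    ring
  have yn : Q y ⁅b, y⁆ = 0 := Q_self_lie hN y b
  have wn : Q w ⁅b, y⁆ = 0 := by
    rw [hw, map_add, map_smul, LinearMap.add_apply, LinearMap.smul_apply, smul_eq_mul, hkn, yn]
    ring
  have hnS : InS g Q u ⁅b, y⁆ := hb.lie hN hy
  have e1 := hS.pol hN hwS hb hy
  have e2 := hS.pol hN hb hwS hy
  have e3 := jac w b y
  rw [hN.Qsymm b w, hN.Qsymm y w, wb, wy, hby] at e1
  rw [wb, wy, hyb] at e2
  simp only [zero_smul, mul_zero, add_zero, sub_zero, smul_zero] at e1 e2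
  have s1 : ⁅⁅y, w⁆, b⁆ = -⁅⁅w, y⁆, b⁆ := by simp only [Ring.lie_def]; noncomm_ring
  have s2 : ⁅⁅b, w⁆, y⁆ = -⁅⁅w, b⁆, y⁆ := by simp only [Ring.lie_def]; noncomm_ring
  have e4 : (3 : ℝ) • ⁅⁅w, b⁆, y⁆ = 0 := by
    have h1 : ⁅⁅w, y⁆, b⁆ = -⁅⁅w, b⁆, y⁆ := by
      rw [eq_neg_iff_add_eq_zero, add_comm]; exact e1
    have h2 : ⁅⁅b, y⁆, w⁆ = ⁅⁅w, b⁆, y⁆ := by
      rw [s2] at e2
      rw [neg_add_eq_zero] at e2
      exact e2.symm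
    rw [s1, h1, h2] at e3
    rw [← e3]
    module
  have e5 : ⁅⁅w, b⁆, y⁆ = 0 := by
    rcases smul_eq_zero.1 e4 with h | h
    · norm_num at h
    · exact h
  have e6 : ⁅⁅b, y⁆, w⁆ = 0 := by
    rw [s2, e5, neg_zero, zero_add] at e2
    exact e2
  have e7 : ⁅w, ⁅b, y⁆⁆ = 0 := by rw [skew, e6, neg_zero]
  have e8 := hS w ⁅b, y⁆ hwS hnS
  rw [e7, hN.Qsymm _ w, wn] at e8
  have z1 : ⁅(0 : 𝔸), ⁅b, y⁆⁆ = 0 := by simp [Ring.lie_def]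
  rw [z1, zero_smul, zero_sub, smul_neg, zero_eq_neg, smul_smul] at e8
  have hn0 : ⁅b, y⁆ ≠ 0 := by
    intro h1
    have h2 := hS b y hb hy
    rw [h1, hyb] at h2
    have z2 : ⁅(0 : 𝔸), y⁆ = 0 := by simp [Ring.lie_def]
    rw [z2, zero_smul, zero_sub, smul_neg, zero_eq_neg, smul_smul] at h2
    rcases smul_eq_zero.1 h2 with h3 | h3
    · rcases mul_eq_zero.1 h3 with h4 | h4
      · exact hκ h4
      · exact hyy.ne' h4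
    · exact hb0 h3
  rcases smul_eq_zero.1 e8 with h3 | h3
  · rcases mul_eq_zero.1 h3 with h4 | h4
    · exact absurd h4 hκ
    · exact absurd h4 (hN.Qpos _ hnS.1 hn0).ne'
  · rw [hw] at h3
    rw [neg_smul, ← sub_eq_add_neg, sub_eq_zero] at h3
    exact h3

/-- a functional vanishing on `b, w, [b, w]` vanishes on `s_u`, if `[b, w] ≠ 0` -/
theorem SRel.kill (hN : NData g h m Q P) (hS : SRel g Q u κ) (hκ : κ ≠ 0) {b w z : 𝔸}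
    (hb : InS g Q u b) (hw : InS g Q u w) (hz : InS g Q u z) (f : 𝔸 →ₗ[ℝ] ℝ) (fb : f b = 0)
    (fw : f w = 0) (fn : f ⁅b, w⁆ = 0) (hne : ⁅b, w⁆ ≠ 0) : f z = 0 := by
  have hb0 : b ≠ 0 := by
    rintro rfl
    exact hne (by simp [Ring.lie_def])
  have hbb := hN.Qpos b hb.1 hb0
  obtain ⟨y, hy⟩ : ∃ y, y = w + (-(Q w b / Q b b)) • b := ⟨_, rfl⟩
  have hyS : InS g Q u y := by rw [hy]; exact hw.add (hb.smul _)
  have hby : ⁅b, y⁆ = ⁅b, w⁆ := by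
    rw [hy, lie_add', lie_smul']
    simp [Ring.lie_def]
  have hy0 : y ≠ 0 := by
    intro h1
    rw [h1] at hby
    exact hne (by rw [← hby]; simp [Ring.lie_def])
  have hyb : Q y b = 0 := by
    rw [hy, map_add, map_smul, LinearMap.add_apply, LinearMap.smul_apply, smul_eq_mul]
    field_simp
    ring
  have hyy := hN.Qpos y hyS.1 hy0
  have fy : f y = 0 := by rw [hy, map_add, map_smul, fw, fb]; simp
  have fn' : f ⁅b, y⁆ = 0 := by rw [hby]; exact fn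
  have hnS := hb.lie hN hyS
  have hn0 : ⁅b, y⁆ ≠ 0 := by rw [hby]; exact hne
  have hnn := hN.Qpos _ hnS.1 hn0
  obtain ⟨n, hn⟩ : ∃ n, n = ⁅b, y⁆ := ⟨_, rfl⟩
  have nb : Q n b = 0 := by rw [hn, hN.Qsymm]; exact Q_self_lie' hN b y
  have ny : Q n y = 0 := by rw [hn, hN.Qsymm]; exact Q_self_lie hN y b
  have bn : Q b n = 0 := by rw [hN.Qsymm]; exact nb
  have yn : Q y n = 0 := by rw [hN.Qsymm]; exact ny
  rw [← hn] at fn' hnS hn0 hnn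
  obtain ⟨k, hk⟩ : ∃ k, k = z + (-(Q z b / Q b b)) • b + (-(Q z n / Q n n)) • n := ⟨_, rfl⟩
  have hkS : InS g Q u k := by rw [hk]; exact (hz.add (hb.smul _)).add (hnS.smul _)
  have kb : Q k b = 0 := by
    rw [hk]
    simp only [map_add, map_smul, LinearMap.add_apply, LinearMap.smul_apply, smul_eq_mul, nb]
    field_simp
    ring
  have kn : Q k n = 0 := by
    rw [hk]
    simp only [map_add, map_smul, LinearMap.add_apply, LinearMap.smul_apply, smul_eq_mul, bn]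
    field_simp
    ring
  obtain ⟨t, ht⟩ := hS.line hN hκ hb hyS hkS hb0 hy0 hyb kb (by rw [← hn]; exact kn)
  have fk : f k = 0 := by rw [ht, map_smul, fy, smul_zero]
  rw [hk, map_add, map_add, map_smul, map_smul, fb, fn', smul_zero, smul_zero, add_zero,
    add_zero] at fk
  exact fk

/-- at a wall flag with `α = 0`, `e(u) = 0` and `h_s ≠ 0` the gradient commutes with `b` -/
theorem wall_comm (hN : NData g h m Q P) (hC : Cas g h m Q P h0 B c) (hφ : PhiN h m P v)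
    (hFl : Flag Q u b) (hS : SRel g Q u κ) (hκ : κ ≠ 0)
    (hh : ∃ y ∈ g, ⁅(u : 𝔸), y⁆ = 0 ∧ Q h0 y ≠ 0) (ha : al P h0 v u b = 0)
    (he : ef Q P v u = 0) : ⁅(b : 𝔸), (gx Q v u : 𝔸)⁆ = 0 := by
  obtain ⟨y, hyg, hyu, hyh⟩ := hh
  have hu := hFl.ne hN
  have em : (ef Q P v u : 𝔸) = ⁅(u : 𝔸), (gx Q v u : 𝔸)⁆ := e_mem hN hφ hu (gx_spec hN u)
  obtain ⟨x, hx⟩ : ∃ x : m, x = gx Q v u := ⟨_, rfl⟩
  rw [← hx] at em ⊢
  have hux : ⁅(u : 𝔸), (x : 𝔸)⁆ = 0 := by rw [← em, he]; rfl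
  have hbS : InS g Q u b := ⟨mg hN b, hFl.2.2.2, hFl.2.2.1⟩
  have hbu : ⁅(b : 𝔸), (u : 𝔸)⁆ = 0 := by rw [skew, hFl.2.2.2, neg_zero]
  obtain ⟨w, hw⟩ : ∃ w, w = (x : 𝔸) + (-(Q (u : 𝔸) x)) • (u : 𝔸) := ⟨_, rfl⟩
  obtain ⟨z, hz⟩ : ∃ z, z = y + (-(Q (u : 𝔸) y)) • (u : 𝔸) := ⟨_, rfl⟩
  have key : ∀ X ∈ g, ⁅(u : 𝔸), X⁆ = 0 → InS g Q u (X + (-(Q (u : 𝔸) X)) • (u : 𝔸)) := by
    intro X hX hXu
    refine ⟨g.add_mem hX (g.smul_mem _ (mg hN _)), ?_, ?_⟩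
    · rw [lie_add', lie_smul', hXu]
      simp [Ring.lie_def]
    · rw [map_add, map_smul, hFl.1]
      simp
  have hwS : InS g Q u w := by rw [hw]; exact key _ (mg hN x) hux
  have hzS : InS g Q u z := by rw [hz]; exact key _ hyg hyu
  have hbw : ⁅(b : 𝔸), (x : 𝔸)⁆ = ⁅(b : 𝔸), w⁆ := by
    rw [hw, lie_add', lie_smul', hbu, smul_zero, add_zero]
  rw [hbw]
  by_contra hne
  have h1 : Q h0 z = 0 := by
    refine hS.kill hN hκ hbS hwS hzS (Q h0) (hN.Qhm h0 hC.mem _ b.2) ?_ ?_ hne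
    · rw [hw, map_add, map_smul, hN.Qhm h0 hC.mem _ x.2, hN.Qhm h0 hC.mem _ u.2]
      simp
    · rw [← hbw, hx, ← al_eq hN hC]
      exact ha
  rw [hz, map_add, map_smul, hN.Qhm h0 hC.mem _ u.2, smul_zero, add_zero] at h1
  exact hyh h1

theorem LamE_zero {Λ : m → 𝔸 →L[ℝ] ℝ} {Y : 𝔸} (he : ef Q P v u = 0)
    (hc : ⁅Y, (gx Q v u : 𝔸)⁆ = 0) : LamE Q P v Λ u Y = 0 := by
  rw [LamE_apply, he, hc, map_zero, map_zero, _root_.zero_apply, add_zero]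

theorem LamE_ef {Λ : m → 𝔸 →L[ℝ] ℝ} {Y : 𝔸} (he : ef Q P v u = 0) :
    LamE Q P v Λ u Y = Λ u ⁅Y, (gx Q v u : 𝔸)⁆ := by
  rw [LamE_apply, he, map_zero, _root_.zero_apply, zero_add]

/-- **S7o**: at a wall flag with `α = 0` and `e(u) = 0` the tower vanishes -/
theorem tower_zero (hN : NData g h m Q P) (hC : Cas g h m Q P h0 B c) (hφ : PhiN h m P v)
    (hFl : Flag Q u b) (hS : SRel g Q u κ) (ha : al P h0 v u b = 0) (he : ef Q P v u = 0)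
    (A : ℕ → m → 𝔸 →L[ℝ] ℝ) (hA0 : A 0 = LamW P h0 v) (hA : ∀ j, A (j + 1) = LamE Q P v (A j))
    (j : ℕ) : A j u (b : 𝔸) = 0 := by
  have hu := hFl.ne hN
  have hg0 : h0 ∈ g := hN.red.h_le hC.mem
  have em : (ef Q P v u : 𝔸) = ⁅(u : 𝔸), (gx Q v u : 𝔸)⁆ := e_mem hN hφ hu (gx_spec hN u)
  obtain ⟨x, hx⟩ : ∃ x : m, x = gx Q v u := ⟨_, rfl⟩
  rw [← hx] at em
  have hxD : ∀ w : m, Q (x : 𝔸) w = D1 v u w := fun w => by rw [hx, gx_spec hN]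
  have hux : ⁅(u : 𝔸), (x : 𝔸)⁆ = 0 := by rw [← em, he]; rfl
  have hbS : InS g Q u b := ⟨mg hN b, hFl.2.2.2, hFl.2.2.1⟩
  have hbu : ⁅(b : 𝔸), (u : 𝔸)⁆ = 0 := by rw [skew, hFl.2.2.2, neg_zero]
  obtain ⟨y, hy⟩ : ∃ y, y = x + (-(Q (u : 𝔸) x)) • u := ⟨_, rfl⟩
  have hyc : (y : 𝔸) = (x : 𝔸) + (-(Q (u : 𝔸) x)) • (u : 𝔸) := by rw [hy]; rfl
  have hyS : InS g Q u y := by
    refine ⟨mg hN y, ?_, ?_⟩
    · rw [hyc, lie_add', lie_smul', hux]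
      simp [Ring.lie_def]
    · rw [hyc, map_add, map_smul, hFl.1]
      simp
  have hyx : ⁅(y : 𝔸), (x : 𝔸)⁆ = 0 := by
    rw [hyc, add_lie', smul_lie', hux]
    simp [Ring.lie_def]
  have hbx : ⁅(b : 𝔸), (x : 𝔸)⁆ = ⁅(b : 𝔸), (y : 𝔸)⁆ := by
    rw [hyc, lie_add', lie_smul', hbu, smul_zero, add_zero]
  obtain ⟨n, hn⟩ : ∃ n, n = ⁅(b : 𝔸), (y : 𝔸)⁆ := ⟨_, rfl⟩
  have hnS : InS g Q u n := by rw [hn]; exact hbS.lie hN hyS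
  have hnx : ⁅n, (x : 𝔸)⁆ = κ • (Q (y : 𝔸) b • (y : 𝔸) - Q (y : 𝔸) y • (b : 𝔸)) := by
    have h1 : ⁅n, (u : 𝔸)⁆ = 0 := by rw [skew, hnS.2.1, neg_zero]
    have h2 : ⁅n, (x : 𝔸)⁆ = ⁅n, (y : 𝔸)⁆ := by
      rw [hyc, lie_add', lie_smul', h1, smul_zero, add_zero]
    rw [h2, hn, hS _ _ hbS hyS]
  have m1 : ∀ Z ∈ g, LamW P h0 v u Z = Q h0 ⁅Z, (x : 𝔸)⁆ := by
    intro Z hZ
    rw [LamW_apply, ← hxD, Q_P hN x (lg hN hg0 hZ), hN.Qsymm, hN.Qinv]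
  have key : ∀ j, A j u (b : 𝔸) = 0 ∧ A j u (y : 𝔸) = 0 ∧ A j u n = 0 := by
    intro j
    induction j with
    | zero =>
      rw [hA0]
      refine ⟨?_, ?_, ?_⟩
      · rw [m1 _ (mg hN b), hx, ← al_eq hN hC]; exact ha
      · rw [m1 _ (mg hN y), hyx, map_zero]
      · rw [m1 _ hnS.1, hnx, map_smul, map_sub, map_smul, map_smul, hN.Qhm h0 hC.mem _ y.2,
          hN.Qhm h0 hC.mem _ b.2]
        simp
    | succ j ih =>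
      rw [hA]
      refine ⟨?_, ?_, ?_⟩
      · rw [LamE_ef he, ← hx, hbx, ← hn]; exact ih.2.2
      · rw [LamE_ef he, ← hx, hyx, map_zero]
      · rw [LamE_ef he, ← hx, hnx, map_smul, map_sub, map_smul, map_smul, ih.1, ih.2.1]
        simp
  exact (key j).1

/-- `[u, h₀] ∈ 𝔪` -/
theorem uh_mem (hN : NData g h m Q P) (hC : Cas g h m Q P h0 B c) (u : m) :
    (P ⁅(u : 𝔸), h0⁆ : 𝔸) = ⁅(u : 𝔸), h0⁆ := by
  have h1 := h0b_mem hN hC u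
  rw [skew (u : 𝔸) h0, map_neg, Submodule.coe_neg, h1]

/-- **S7(a)** at a regular flag `e(u) ∈ ℝ [h₀, u]` implies `e(u) = 0` -/
theorem re_reg (hN : NData g h m Q P) (hC : Cas g h m Q P h0 B c) (hφ : PhiN h m P v) (hu : u ≠ 0)
    (hcent : ∀ Y ∈ g, ⁅(u : 𝔸), Y⁆ = 0 → ∃ s t : ℝ, Y = s • (u : 𝔸) + t • (b : 𝔸)) {k : ℝ}
    (he : ef Q P v u = k • P ⁅h0, (u : 𝔸)⁆) : ef Q P v u = 0 := by
  have em : (ef Q P v u : 𝔸) = ⁅(u : 𝔸), (gx Q v u : 𝔸)⁆ := e_mem hN hφ hu (gx_spec hN u)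
  have h1 : ⁅(u : 𝔸), (gx Q v u : 𝔸)⁆ = k • ⁅h0, (u : 𝔸)⁆ := by
    rw [← em, he, Submodule.coe_smul, h0b_mem hN hC]
  have h2 : ⁅(u : 𝔸), (gx Q v u : 𝔸) + k • h0⁆ = 0 := by
    rw [lie_add', lie_smul', h1, skew (u : 𝔸) h0]
    module
  obtain ⟨s, t, h3⟩ := hcent _ (g.add_mem (mg hN _) (g.smul_mem k (hN.red.h_le hC.mem))) h2
  have h4 := congrArg (fun X => Q h0 X) h3
  simp only [map_add, map_smul, hN.Qhm h0 hC.mem _ (gx Q v u).2, hN.Qhm h0 hC.mem _ u.2,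
    hN.Qhm h0 hC.mem _ b.2, zero_add, smul_eq_mul] at h4
  have h6 : k • h0 = 0 := by
    have h4' : k * Q h0 h0 = 0 := by rw [h4]; ring
    rcases mul_eq_zero.1 h4' with h5 | h5
    · rw [h5, zero_smul]
    · rw [Q_zero hN (hN.red.h_le hC.mem) h5.le, smul_zero]
  rw [he]
  have h7 : k • P ⁅h0, (u : 𝔸)⁆ = P ⁅k • h0, (u : 𝔸)⁆ := by rw [smul_lie', map_smul]
  rw [h7, h6]
  simp [Ring.lie_def]

/-- the value of `A₁` at a wall flag which is a relative equilibrium -/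
theorem A1_eq (hN : NData g h m Q P) (hC : Cas g h m Q P h0 B c) (hφ : PhiN h m P v)
    (hFl : Flag Q u b) (hS : SRel g Q u κ) {k : ℝ} (he : ef Q P v u = k • P ⁅(u : 𝔸), h0⁆) :
    ∃ (l : ℝ) (y : 𝔸), InS g Q u y ∧ (gx Q v u : 𝔸) = l • (u : 𝔸) + k • h0 + y ∧
      Q h0 y = -k * Q h0 h0 ∧ al P h0 v u b = Q h0 ⁅(b : 𝔸), y⁆ ∧
      a2 Q P h0 v u b = -κ * k * Q h0 h0 * Q y b := by
  have hu := hFl.ne hN
  have hg0 : h0 ∈ g := hN.red.h_le hC.mem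
  have em : (ef Q P v u : 𝔸) = ⁅(u : 𝔸), (gx Q v u : 𝔸)⁆ := e_mem hN hφ hu (gx_spec hN u)
  obtain ⟨x, hx⟩ : ∃ x : m, x = gx Q v u := ⟨_, rfl⟩
  rw [← hx] at em ⊢
  have hxD : ∀ w : m, Q (x : 𝔸) w = D1 v u w := fun w => by rw [hx, gx_spec hN]
  have h1 : ⁅(u : 𝔸), (x : 𝔸)⁆ = k • ⁅(u : 𝔸), h0⁆ := by
    rw [← em, he, Submodule.coe_smul, uh_mem hN hC]
  obtain ⟨y, hy⟩ : ∃ y, y = (x : 𝔸) + (-k) • h0 + (-(Q (u : 𝔸) x)) • (u : 𝔸) := ⟨_, rfl⟩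
  have hbS : InS g Q u b := ⟨mg hN b, hFl.2.2.2, hFl.2.2.1⟩
  have hyS : InS g Q u y := by
    rw [hy]
    refine ⟨g.add_mem (g.add_mem (mg hN _) (g.smul_mem _ hg0)) (g.smul_mem _ (mg hN _)), ?_, ?_⟩
    · rw [lie_add', lie_add', lie_smul', lie_smul', h1]
      simp [Ring.lie_def]
    · rw [map_add, map_add, map_smul, map_smul, hFl.1, Qmh hN u hC.mem]
      simp
  have hxy : (x : 𝔸) = Q (u : 𝔸) x • (u : 𝔸) + k • h0 + y := by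
    rw [hy]; module
  have q0 : Q h0 y = -k * Q h0 h0 := by
    rw [hy, map_add, map_add, map_smul, map_smul, hN.Qhm h0 hC.mem _ x.2,
      hN.Qhm h0 hC.mem _ u.2]
    simp
  have hal : al P h0 v u b = Q h0 ⁅(b : 𝔸), y⁆ := by
    rw [al_eq hN hC, ← hx, hxy, lie_add', lie_add', lie_smul', lie_smul']
    have z1 : ⁅(b : 𝔸), (u : 𝔸)⁆ = 0 := by rw [skew, hFl.2.2.2, neg_zero]
    rw [z1]
    simp only [map_add, map_smul, Q_self_lie hN h0 b, smul_zero, zero_add]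
  refine ⟨Q (u : 𝔸) x, y, hyS, hxy, q0, hal, ?_⟩
  have t1 : ef Q P v u = (-k) • P ⁅h0, (u : 𝔸)⁆ := by
    rw [he, skew (u : 𝔸) h0, map_neg]
    module
  have t2 : D2 v u (P ⁅h0, (b : 𝔸)⁆) (ef Q P v u) = k * D1 v u (P ⁅h0, ⁅h0, (b : 𝔸)⁆⁆) := by
    have := phi_inv2 hφ hC.mem hu (P ⁅h0, (b : 𝔸)⁆)
    rw [t1, D2_smul_right hφ.smooth hu, this, h0b_mem hN hC]
    ring
  have m1 : ∀ Z ∈ g, D1 v u (P ⁅h0, Z⁆) = Q ⁅(x : 𝔸), h0⁆ Z := by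
    intro Z hZ
    rw [← hxD, Q_P hN x (lg hN hg0 hZ), hN.Qinv]
  rw [a2, t2, m1 _ (lg hN hg0 (mg hN b)), m1 _ (lg hN (mg hN b) (mg hN _)), ← hx]
  have t3 : ⁅(x : 𝔸), h0⁆ = Q (u : 𝔸) x • ⁅(u : 𝔸), h0⁆ + ⁅y, h0⁆ := by
    conv_lhs => rw [hxy]
    rw [add_lie', add_lie', smul_lie', smul_lie']
    simp [Ring.lie_def]
  have t4 : k • ⁅h0, (b : 𝔸)⁆ + ⁅(b : 𝔸), (x : 𝔸)⁆ = ⁅(b : 𝔸), y⁆ := by
    conv_lhs => rw [hxy]
    rw [lie_add', lie_add', lie_smul', lie_smul', skew (b : 𝔸) u, hFl.2.2.2, skew h0 (b : 𝔸)]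
    module
  have t5 : k * Q ⁅(x : 𝔸), h0⁆ ⁅h0, (b : 𝔸)⁆ + Q ⁅(x : 𝔸), h0⁆ ⁅(b : 𝔸), (x : 𝔸)⁆ =
      Q ⁅(x : 𝔸), h0⁆ ⁅(b : 𝔸), y⁆ := by
    rw [← t4, map_add, map_smul, smul_eq_mul]
  rw [t5, t3, map_add, map_smul, LinearMap.add_apply, LinearMap.smul_apply, smul_eq_mul]
  have hZ := hbS.lie hN hyS
  have t6 : Q ⁅(u : 𝔸), h0⁆ ⁅(b : 𝔸), y⁆ = 0 := by
    rw [skew (u : 𝔸) h0, map_neg, LinearMap.neg_apply, hN.Qinv, hZ.2.1, map_zero, neg_zero]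
  have t7 : Q ⁅y, h0⁆ ⁅(b : 𝔸), y⁆ = Q h0 ⁅⁅(b : 𝔸), y⁆, y⁆ := by
    rw [skew y h0, map_neg, LinearMap.neg_apply, hN.Qinv, skew y ⁅(b : 𝔸), y⁆, map_neg, neg_neg]
  rw [t6, t7, hS _ _ hbS hyS, map_smul, map_sub, map_smul, map_smul, q0,
    hN.Qhm h0 hC.mem _ b.2]
  simp only [smul_eq_mul]
  ring

/-- **S7(b)**: a wall flag with `α = 0`, `e(u) = k [u, h₀]`, `k ≠ 0` and `A₁(u, b) = 0` -/
theorem re_wall (hN : NData g h m Q P) (hC : Cas g h m Q P h0 B c) (hφ : PhiN h m P v)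
    (hFl : Flag Q u b) (hS : SRel g Q u κ) (hκ : κ ≠ 0) (h00 : h0 ≠ 0) {hs : 𝔸}
    (hhs : IsHs g Q h0 u hs) (ha : al P h0 v u b = 0) (hA : a2 Q P h0 v u b = 0) {k : ℝ}
    (hk : k ≠ 0) (he : ef Q P v u = k • P ⁅(u : 𝔸), h0⁆) :
    hs ≠ 0 ∧ ∃ l : ℝ, (gx Q v u : 𝔸) = l • (u : 𝔸) + k • (h0 - (Q h0 h0 / Q hs hs) • hs) := by
  obtain ⟨l, y, hyS, hx, q0, hal, hA2⟩ := A1_eq hN hC hφ hFl hS he
  have hbS : InS g Q u b := ⟨mg hN b, hFl.2.2.2, hFl.2.2.1⟩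
  have hq := hN.Qpos h0 (hN.red.h_le hC.mem) h00
  have hb0 : (b : 𝔸) ≠ 0 := by
    intro h1
    have h2 := hFl.2.1
    simp [h1] at h2
  have hy0 : y ≠ 0 := by
    intro h1
    rw [h1, map_zero] at q0
    rcases mul_eq_zero.1 q0.symm with h2 | h2
    · exact hk (neg_eq_zero.1 h2)
    · exact hq.ne' h2
  have hyb : Q y b = 0 := by
    rw [hA] at hA2
    rcases mul_eq_zero.1 hA2.symm with h2 | h2
    · rcases mul_eq_zero.1 h2 with h3 | h3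
      · rcases mul_eq_zero.1 h3 with h4 | h4
        · exact absurd (neg_eq_zero.1 h4) hκ
        · exact absurd h4 hk
      · exact absurd h3 hq.ne'
    · exact h2
  have hkb : Q hs b = 0 := by
    rw [← hhs.proj _ hbS]; exact hN.Qhm h0 hC.mem _ b.2
  have hkn : Q hs ⁅(b : 𝔸), y⁆ = 0 := by
    rw [← hhs.proj _ (hbS.lie hN hyS), ← hal, ha]
  obtain ⟨t, ht⟩ := hS.line hN hκ hbS hyS hhs.mem hb0 hy0 hyb hkb hkn
  have hyy := hN.Qpos y hyS.1 hy0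
  have h1 : t * Q y y = -k * Q h0 h0 := by
    rw [← q0, hhs.proj _ hyS, ht, map_smul, LinearMap.smul_apply, smul_eq_mul]
  have ht0 : t ≠ 0 := by
    intro h2
    rw [h2, zero_mul] at h1
    rcases mul_eq_zero.1 h1.symm with h3 | h3
    · exact hk (neg_eq_zero.1 h3)
    · exact hq.ne' h3
  refine ⟨by rw [ht]; exact smul_ne_zero ht0 hy0, l, ?_⟩
  have h2 : Q hs hs = t ^ 2 * Q y y := by
    rw [ht, map_smul, map_smul, LinearMap.smul_apply, smul_eq_mul, smul_eq_mul]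
    ring
  have h3 : -(k * (Q h0 h0 / Q hs hs)) * t = 1 := by
    rw [h2]
    have h4 : k * Q h0 h0 = -(t * Q y y) := by linarith
    field_simp
    linear_combination -h4
  rw [hx]
  have h5 : y = (-(k * (Q h0 h0 / Q hs hs)) * t) • y := by rw [h3, one_smul]
  conv_lhs => rw [h5, mul_smul, ← ht]
  module

/-- the same with `A₁` in the form of the tower -/
theorem re_wall' (hN : NData g h m Q P) (hC : Cas g h m Q P h0 B c) (hφ : PhiN h m P v)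
    (hFl : Flag Q u b) (hS : SRel g Q u κ) (hκ : κ ≠ 0) (h00 : h0 ≠ 0) {hs : 𝔸}
    (hhs : IsHs g Q h0 u hs) (ha : al P h0 v u b = 0)
    (hA : LamE Q P v (LamW P h0 v) u (b : 𝔸) = 0) {k : ℝ}
    (hk : k ≠ 0) (he : ef Q P v u = k • P ⁅(u : 𝔸), h0⁆) :
    hs ≠ 0 ∧ ∃ l : ℝ, (gx Q v u : 𝔸) = l • (u : 𝔸) + k • (h0 - (Q h0 h0 / Q hs hs) • hs) := by
  refine re_wall hN hC hφ hFl hS hκ h00 hhs ha ?_ hk he
  rw [LamE_LamW hφ.smooth (hFl.ne hN)] at hA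
  exact hA

end Pool.Agent.FL.S1S7

/-! ### the statements of the hub -/

namespace Pool.Agent.FL.S1

open scoped ContDiff Quaternion Matrix ComplexConjugate
open Pool.Agent.Helper93.Fin Pool.Agent.helper79.FP Pool.Agent.helper79.FR
open Pool.Agent.helper79.FR.Sp2 (Mat QQ h0 m gg hh PP BB cc)
open Pool.Agent.FL
open Pool.Agent.FL.Wall (ef EE LamE LamW)
open Pool.Agent.FL.S1S7 (SRel InS IsHs)

attribute [local instance] Matrix.linftyOpNormedRing Matrix.linftyOpNormedAlgebra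

theorem S1S7_h0 : h0 1 3 ≠ 0 := by
  intro h
  have h1 := Pool.Agent.helper79.FR.Sp2.QQ_h0_h0 (a := 1) (b := 3)
  rw [h] at h1
  norm_num at h1

theorem Wl.BB0 {u b : V} (h : Wl u b) : BB 1 3 u = 0 := by
  rw [cD.flat u b h.1, h.2, zero_smul]

theorem Wl.kap {u b : V} (h : Wl u b) : 3 + cc 1 3 u ≠ 0 := by
  have h1 := cD.cw u b h.1
  rw [h.2] at h1
  nlinarith

/-- the double bracket relation at wall flags -/
theorem Wl.srel {u b : V} (h : Wl u b) : SRel gg QQ u (3 + cc 1 3 u) := by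
  intro b y hb hy
  rw [sw_brk h.1.1 h.BB0 hy hb, nD.Qsymm b y]

/-- **S7a**: regular flags -/
theorem S7a {v : V → ℝ} (hv : Ph v) {u b : V} (h : Fl u b)
    (hw : QQ (BB 1 3 u) (b : Mat) ≠ 0) {r : ℝ} (he : eu v u = r • rt u) : eu v u = 0 :=
  S1S7.re_reg nD cD hv.phi (h.ne nD) (fun _ hY hc => ⟨_, _, cent_regular h hw hY hc⟩) he

/-- **S7b**: wall flags with `α = 0`, `e(u) = r [h₀, u]`, `r ≠ 0` and `A₁(u, b) = 0` -/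
theorem S7b {v : V → ℝ} (hv : Ph v) {u b : V} (h : Wl u b) (ha : alf v u b = 0)
    (hA : Aj v 1 u (b : Mat) = 0) {r : ℝ} (hr : r ≠ 0) (he : eu v u = r • rt u) {hs : Mat}
    (hhs : IsHs gg QQ (h0 1 3) u hs) :
    hs ≠ 0 ∧ ∃ l : ℝ, (gd v u : Mat) =
      l • (u : Mat) - r • (h0 1 3 - (10 / QQ hs hs) • hs) := by
  have he' : ef QQ (PP 1 3) v u = (-r) • PP 1 3 ⁅(u : Mat), h0 1 3⁆ := by
    have h1 : eu v u = r • PP 1 3 ⁅h0 1 3, (u : Mat)⁆ := he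
    rw [skew (u : Mat) (h0 1 3), map_neg, neg_smul_neg]
    exact h1
  obtain ⟨h1, l, h2⟩ := S1S7.re_wall' nD cD hv.phi h.1 h.srel h.kap S1S7_h0 hhs ha hA
    (neg_ne_zero.2 hr) he'
  refine ⟨h1, l, ?_⟩
  have h3 : QQ (h0 1 3) (h0 1 3) = 10 := by
    rw [Pool.Agent.helper79.FR.Sp2.QQ_h0_h0]; norm_num
  rw [h3] at h2
  rw [h2]
  module

/-- **S7o**: wall flags with `e = 0`, `α = 0`: the towers vanish -/
theorem S7o {v : V → ℝ} (hv : Ph v) {u b : V} (h : Wl u b) (ha : alf v u b = 0)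
    (he : eu v u = 0) (j : ℕ) : Aj v j u (b : Mat) = 0 :=
  S1S7.tower_zero nD cD hv.phi h.1 h.srel ha he (Aj v) rfl (fun _ => rfl) j

end Pool.Agent.FL.S1
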