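import Pool.Agent.FL.S1Hub

/-!
# MP_f09395_gt, space (1), S1: every flag is generic, odd, or over one of the special points

`c0, cQ` = coordinates `l, z1` (weights 0, 2: even part), `cC, cP, cR` = `z2, Zm, Zp`
(weights 1, 1, 3: odd part).  Also the explicit form of the flags over the special points.
-/

set_option linter.unusedSectionVars false

noncomputable section

namespace Pool.Agent.FL.S1

open scoped ContDiff Quaternion Matrix ComplexConjugate
open Pool.Agent.Helper93.Fin Pool.Agent.helper79.FP Pool.Agent.helper79.FR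
open Pool.Agent.helper79.FR.Sp2 (Mat QQ h0 m gg hh PP BB cc)

attribute [local instance] Matrix.linftyOpNormedRing Matrix.linftyOpNormedAlgebra

theorem Spec_cdiv {z w : ℂ} (hz : z ≠ 0) (h : imp z w = 0) : ∃ t : ℝ, w = (t : ℂ) * z := by
  refine ⟨rip z w / Complex.normSq z, ?_⟩
  have h1 : Complex.normSq z ≠ 0 := by rwa [Ne, Complex.normSq_eq_zero]
  have h2 : Complex.normSq z = z.re * z.re + z.im * z.im := rfl
  unfold imp at h
  unfold rip
  apply Complex.ext
  · rw [Complex.re_ofReal_mul, div_mul_eq_mul_div, eq_div_iff h1, h2]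
    linear_combination z.im * h
  · rw [Complex.im_ofReal_mul, div_mul_eq_mul_div, eq_div_iff h1, h2]
    linear_combination (-z.re) * h

/-- the equations of a flat flag -/
structure SpecEq (u b : V) : Prop where
  eP : -6 * Complex.I * (c0 u * cP b - c0 b * cP u) + 2 * (cC u * cQ b - cC b * cQ u) = 0
  eR : 2 * Complex.I * (c0 u * cR b - c0 b * cR u)
      + 2 * (conj (cC b) * cQ u - conj (cC u) * cQ b) = 0
  eC : -4 * Complex.I * (c0 u * cC b - c0 b * cC u)
      - (cP u * conj (cQ b) - cP b * conj (cQ u)) - (cQ u * conj (cR b) - cQ b * conj (cR u)) = 0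
  eQ : -2 * Complex.I * (c0 u * cQ b - c0 b * cQ u)
      + (cP u * conj (cC b) - cP b * conj (cC u)) + (cC u * cR b - cC b * cR u) = 0
  e0 : (4 * imp (cC u) (cC b) + 2 * imp (cQ u) (cQ b) - imp (cR u) (cR b)
      + 3 * imp (cP u) (cP b)) / 5 = 0
  eh : 4 * imp (cC u) (cC b) - 8 * imp (cQ u) (cQ b) - 6 * imp (cR u) (cR b)
      - 2 * imp (cP u) (cP b) = 0
  eo : 10 * (c0 u * c0 b) + rip (cP u) (cP b)
    + rip (cR u) (cR b) + 2 * rip (cC u) (cC b) + 2 * rip (cQ u) (cQ b) = 0

theorem SpecEq_of {u b : V} (h : ⁅(u : Mat), (b : Mat)⁆ = 0) (ho : QQ (u : Mat) b = 0) :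
    SpecEq u b := by
  obtain ⟨h1, h2⟩ := (lie_eq_zero_iff u b).1 h
  refine ⟨?_, ?_, ?_, ?_, ?_, ?_, ?_⟩
  · rw [← br_P, h1, map_zero]
  · rw [← br_R, h1, map_zero]
  · rw [← br_C, h1, map_zero]
  · rw [← br_Q, h1, map_zero]
  · rw [← br_0, h1, map_zero]
  · rw [← br_h]; exact h2
  · rw [← QQ_coords]; exact ho

/-- flags over points of `V_even` -/
theorem Spec_even {u b : V} (hb : b ≠ 0) (hu : u ≠ 0) (uP : cP u = 0) (uR : cR u = 0) (uC : cC u = 0) (h : SpecEq u b) :
    c0 b = 0 ∧ cQ b = 0 ∧
    ((c0 u = 0 ∧ cC b = 0 ∧ cP b * conj (cQ u) = cQ u * conj (cR b)) ∨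
     (c0 u ≠ 0 ∧ Complex.normSq (cQ u) = 3 * c0 u ^ 2 ∧ cC b ≠ 0 ∧ cP b = Complex.I * cC b * cQ u / (3 * c0 u) ∧
        cR b = Complex.I * conj (cC b) * cQ u / c0 u)) := by
  obtain ⟨eP, eR, eC, eQ, e0, eh, eo⟩ := h
  simp only [uC, uP, uR, map_zero, zero_mul, mul_zero, sub_zero, zero_sub, add_zero, zero_add,
    imp, rip, Complex.zero_re, Complex.zero_im] at eP eR eC eQ e0 eh eo
  have hQi : imp (cQ u) (cQ b) = 0 := by unfold imp; linarith
  -- `b` has no even part
  have hev : c0 b = 0 ∧ cQ b = 0 := by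
    by_cases hQ : cQ u = 0
    · have hr : c0 u ≠ 0 := by
        intro hr
        apply hu
        exact ext_coords (by rw [hr, map_zero]) (by rw [uP, map_zero]) (by rw [uR, map_zero])
          (by rw [uC, map_zero]) (by rw [hQ, map_zero])
      rw [hQ] at eQ eo
      simp only [Complex.zero_re, Complex.zero_im, zero_mul, mul_zero, add_zero, sub_zero] at eQ eo
      constructor
      · have : c0 u * c0 b = 0 := by linarith
        exact (mul_eq_zero.1 this).resolve_left hr
      · have h2 : (c0 u : ℂ) ≠ 0 := by exact_mod_cast hr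
        have : (c0 u : ℂ) * cQ b = 0 := by
          have := eQ
          simpa using this
        exact (mul_eq_zero.1 this).resolve_left h2
    · obtain ⟨t, ht⟩ := Spec_cdiv hQ hQi
      have h1 : (c0 u : ℂ) * t = c0 b := by
        rw [ht] at eQ
        have h2 : (-2 * Complex.I * cQ u) * ((c0 u : ℂ) * t - c0 b) = 0 := by
          linear_combination eQ
        have h3 : (-2 * Complex.I * cQ u) ≠ 0 := by
          simp [hQ]
        have h4 := (mul_eq_zero.1 h2).resolve_left h3
        linear_combination h4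
      have h1' : c0 u * t = c0 b := by exact_mod_cast h1
      have h5 : (cQ b).re = t * (cQ u).re := by rw [ht, Complex.re_ofReal_mul]
      have h6 : (cQ b).im = t * (cQ u).im := by rw [ht, Complex.im_ofReal_mul]
      have h7 : t * (10 * c0 u ^ 2 + 2 * Complex.normSq (cQ u)) = 0 := by
        rw [h5, h6, ← h1'] at eo
        rw [Complex.normSq_apply]
        linear_combination eo
      have h8 : 0 < Complex.normSq (cQ u) := Complex.normSq_pos.2 hQ
      have h9 : t = 0 := by
        refine (mul_eq_zero.1 h7).resolve_right ?_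
        positivity
      rw [h9] at ht h1'
      constructor
      · rw [← h1']; ring
      · rw [ht]; simp
  refine ⟨hev.1, hev.2, ?_⟩
  have hbne : cC b ≠ 0 ∨ cP b ≠ 0 ∨ cR b ≠ 0 := by
    by_contra hc
    push Not at hc
    exact hb (ext_coords (by rw [hev.1, map_zero]) (by rw [hc.2.1, map_zero])
      (by rw [hc.2.2, map_zero]) (by rw [hc.1, map_zero]) (by rw [hev.2, map_zero]))
  by_cases hr : c0 u = 0
  · left
    have hQ : cQ u ≠ 0 := by
      intro hQ
      exact hu (ext_coords (by rw [hr, map_zero]) (by rw [uP, map_zero]) (by rw [uR, map_zero])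
          (by rw [uC, map_zero]) (by rw [hQ, map_zero]))
    rw [hr] at eP eR eC
    simp only [zero_mul, mul_zero, zero_sub, zero_add, Complex.ofReal_zero] at eP eR eC
    refine ⟨hr, ?_, ?_⟩
    · have : cC b * cQ u = 0 := by linear_combination (-1 / 2 : ℂ) * eP
      exact (mul_eq_zero.1 this).resolve_right hQ
    · linear_combination eC
  · right
    have hr' : (c0 u : ℂ) ≠ 0 := by exact_mod_cast hr
    have hI : Complex.I ^ 2 = -1 := Complex.I_sq
    have k1 : cP b = Complex.I * cC b * cQ u / (3 * c0 u) := by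
      rw [eq_div_iff (by simpa using hr')]
      linear_combination (Complex.I / 2) * eP + (3 * c0 u * cP b) * hI
    have k2 : cR b = Complex.I * conj (cC b) * cQ u / c0 u := by
      rw [eq_div_iff hr']
      linear_combination (-Complex.I / 2) * eR + (c0 u * cR b) * hI
    have hC : cC b ≠ 0 := by
      intro hC
      rw [hC] at k1 k2
      simp only [map_zero, mul_zero, zero_mul, zero_div] at k1 k2
      rcases hbne with h | h | h
      · exact h hC
      · exact h k1
      · exact h k2
    refine ⟨hr, ?_, hC, k1, k2⟩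
    have k3 : conj (cR b) = -Complex.I * cC b * conj (cQ u) / c0 u := by
      rw [k2]
      simp
    rw [k1, k3] at eC
    have k4 : (cC b * (4 * Complex.I)) * (cQ u * conj (cQ u) - 3 * c0 u ^ 2) = 0 := by
      field_simp at eC
      linear_combination eC
    have k5 := (mul_eq_zero.1 k4).resolve_left (by simp [hC])
    rw [Complex.mul_conj] at k5
    have k6 : ((Complex.normSq (cQ u) - 3 * c0 u ^ 2 : ℝ) : ℂ) = 0 := by
      push_cast; exact k5
    have k7 : Complex.normSq (cQ u) - 3 * c0 u ^ 2 = 0 := by exact_mod_cast k6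
    linarith

/-- flags over points of the span of `l` and `Zp` -/
theorem Spec_lR {u b : V} (hb : b ≠ 0) (hu : u ≠ 0) (uC : cC u = 0) (uP : cP u = 0)
    (uQ : cQ u = 0) (h : SpecEq u b) :
    c0 b = 0 ∧ cR b = 0 ∧
    ((c0 u = 0 ∧ cQ b = 0 ∧ cC b = 0) ∨
     (c0 u ≠ 0 ∧ Complex.normSq (cR u) = 8 * c0 u ^ 2 ∧ cP b = 0 ∧ cQ b ≠ 0 ∧ cC b = -(Complex.I * cQ b * conj (cR u) / (4 * c0 u)))) := by
  obtain ⟨eP, eR, eC, eQ, e0, eh, eo⟩ := h
  simp only [uC, uP, uQ, map_zero, zero_mul, mul_zero, sub_zero, zero_sub, add_zero,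
    imp, rip, Complex.zero_re, Complex.zero_im] at eP eR eC eQ e0 eh eo
  have hQi : imp (cR u) (cR b) = 0 := by unfold imp; linarith
  have hev : c0 b = 0 ∧ cR b = 0 := by
    by_cases hQ : cR u = 0
    · have hr : c0 u ≠ 0 := by
        intro hr
        apply hu
        exact ext_coords (by rw [hr, map_zero]) (by rw [uP, map_zero]) (by rw [hQ, map_zero])
          (by rw [uC, map_zero]) (by rw [uQ, map_zero])
      rw [hQ] at eR eo
      simp only [Complex.zero_re, Complex.zero_im, zero_mul, mul_zero, add_zero, sub_zero] at eR eo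
      constructor
      · have : c0 u * c0 b = 0 := by linarith
        exact (mul_eq_zero.1 this).resolve_left hr
      · have h2 : (c0 u : ℂ) ≠ 0 := by exact_mod_cast hr
        have : (c0 u : ℂ) * cR b = 0 := by
          have := eR
          simpa using this
        exact (mul_eq_zero.1 this).resolve_left h2
    · obtain ⟨t, ht⟩ := Spec_cdiv hQ hQi
      have h1 : (c0 u : ℂ) * t = c0 b := by
        rw [ht] at eR
        have h2 : (2 * Complex.I * cR u) * ((c0 u : ℂ) * t - c0 b) = 0 := by
          linear_combination eR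
        have h3 : (2 * Complex.I * cR u) ≠ 0 := by
          simp [hQ]
        have h4 := (mul_eq_zero.1 h2).resolve_left h3
        linear_combination h4
      have h1' : c0 u * t = c0 b := by exact_mod_cast h1
      have h5 : (cR b).re = t * (cR u).re := by rw [ht, Complex.re_ofReal_mul]
      have h6 : (cR b).im = t * (cR u).im := by rw [ht, Complex.im_ofReal_mul]
      have h7 : t * (10 * c0 u ^ 2 + Complex.normSq (cR u)) = 0 := by
        rw [h5, h6, ← h1'] at eo
        rw [Complex.normSq_apply]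
        linear_combination eo
      have h8 : 0 < Complex.normSq (cR u) := Complex.normSq_pos.2 hQ
      have h9 : t = 0 := by
        refine (mul_eq_zero.1 h7).resolve_right ?_
        positivity
      rw [h9] at ht h1'
      constructor
      · rw [← h1']; ring
      · rw [ht]; simp
  refine ⟨hev.1, hev.2, ?_⟩
  have hbne : cC b ≠ 0 ∨ cP b ≠ 0 ∨ cQ b ≠ 0 := by
    by_contra hc
    push Not at hc
    exact hb (ext_coords (by rw [hev.1, map_zero]) (by rw [hc.2.1, map_zero])
      (by rw [hev.2, map_zero]) (by rw [hc.1, map_zero]) (by rw [hc.2.2, map_zero]))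
  by_cases hr : c0 u = 0
  · left
    have hQ : cR u ≠ 0 := by
      intro hQ
      exact hu (ext_coords (by rw [hr, map_zero]) (by rw [uP, map_zero]) (by rw [hQ, map_zero])
          (by rw [uC, map_zero]) (by rw [uQ, map_zero]))
    have hQ' : conj (cR u) ≠ 0 := by simpa using hQ
    rw [hr] at eC eQ
    simp only [zero_mul, mul_zero, zero_sub, zero_add, Complex.ofReal_zero] at eC eQ
    refine ⟨hr, ?_, ?_⟩
    · have : cQ b * conj (cR u) = 0 := by linear_combination eC
      exact (mul_eq_zero.1 this).resolve_right hQ'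
    · have : cC b * cR u = 0 := by linear_combination -eQ
      exact (mul_eq_zero.1 this).resolve_right hQ
  · right
    have hr' : (c0 u : ℂ) ≠ 0 := by exact_mod_cast hr
    have hI : Complex.I ^ 2 = -1 := Complex.I_sq
    have k0 : cP b = 0 := by
      have : (-6 * Complex.I * c0 u) * cP b = 0 := by linear_combination eP
      exact (mul_eq_zero.1 this).resolve_left (by simp [hr'])
    have k1 : cC b = -(Complex.I * cQ b * conj (cR u) / (4 * c0 u)) := by
      rw [eq_neg_iff_add_eq_zero]
      field_simp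
      linear_combination Complex.I * eC + (4 * c0 u * cC b) * hI
    have hQb : cQ b ≠ 0 := by
      intro hQb
      rw [hQb] at k1
      simp only [mul_zero, zero_mul, zero_div, neg_zero] at k1
      rcases hbne with h | h | h
      · exact h k1
      · exact h k0
      · exact h hQb
    refine ⟨hr, ?_, k0, hQb, k1⟩
    rw [k1] at eQ
    have k4 : (cQ b * Complex.I) * (cR u * conj (cR u) - 8 * c0 u ^ 2) = 0 := by
      field_simp at eQ
      linear_combination eQ
    have k5 := (mul_eq_zero.1 k4).resolve_left (by simp [hQb])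
    rw [Complex.mul_conj] at k5
    have k6 : ((Complex.normSq (cR u) - 8 * c0 u ^ 2 : ℝ) : ℂ) = 0 := by
      push_cast; exact k5
    have k7 : Complex.normSq (cR u) - 8 * c0 u ^ 2 = 0 := by exact_mod_cast k6
    linarith

theorem Spec_w {u b : V} (h : QQ ((u : Mat) ^ 3) b = 0) (h' : QQ (u : Mat) b = 0) :
    QQ (BB 1 3 u) (b : Mat) = 0 := by
  unfold BB
  rw [map_smul, map_add, map_smul, map_smul, LinearMap.smul_apply, LinearMap.add_apply,
    LinearMap.smul_apply, LinearMap.smul_apply, h, h']
  simp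

/-- the wall condition over the even part -/
theorem Spec_w_even {u b : V} (uP : cP u = 0) (uR : cR u = 0) (uC : cC u = 0) (b0 : c0 b = 0)
    (bQ : cQ b = 0) : QQ ((u : Mat) ^ 3) b = 0 := by
  rw [coords u, coords b, uP, uR, uC, b0, bQ, mkV_coe, mkV_coe,
    Pool.Agent.helper79.FR.Sp2.QQ_apply, Pool.Agent.helper79.FR.Sp2.retr_apply]
  simp [mkMat, pow_succ, Matrix.mul_apply, Fin.sum_univ_two, Quaternion.re_mul]

/-- the wall condition over the span of `l` and `Zp` -/
theorem Spec_w_lR {u b : V} (uP : cP u = 0) (uC : cC u = 0) (uQ : cQ u = 0) (b0 : c0 b = 0)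
    (bR : cR b = 0) : QQ ((u : Mat) ^ 3) b = 0 := by
  rw [coords u, coords b, uP, uC, uQ, b0, bR, mkV_coe, mkV_coe,
    Pool.Agent.helper79.FR.Sp2.QQ_apply, Pool.Agent.helper79.FR.Sp2.retr_apply]
  simp [mkMat, pow_succ, Matrix.mul_apply, Fin.sum_univ_two, Quaternion.re_mul]

/-- **S1** -/
theorem SPEC {u b : V} (h : Fl u b) :
    Gen u ∨ Od' u ∨ (QQ (BB 1 3 u) (b : Mat) = 0 ∧ Spec u) := by
  obtain ⟨hu, hb, hub, hl⟩ := h
  have hE := SpecEq_of hl hub
  have hu0 : u ≠ 0 := by
    rintro rfl
    simp at hu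
  have hb0 : b ≠ 0 := by
    rintro rfl
    simp at hb
  have hn := QQ_coords u u
  rw [hu] at hn
  simp only [rip] at hn
  by_cases hCP : cC u = 0 ∧ cP u = 0
  · obtain ⟨uC, uP⟩ := hCP
    by_cases hR : cR u = 0
    · right; right
      obtain ⟨b0, bQ, hh⟩ := Spec_even hb0 hu0 uP hR uC hE
      refine ⟨Spec_w (Spec_w_even uP hR uC b0 bQ) hub, ?_⟩
      rcases hh with ⟨h0, -⟩ | ⟨-, hq, -⟩
      · exact Or.inl ⟨h0, uP, hR, uC⟩
      · right; left
        refine ⟨uP, hR, uC, ?_⟩
        rw [Complex.normSq_apply] at hq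
        rw [uP, hR, uC] at hn
        simp only [Complex.zero_re, Complex.zero_im, mul_zero, add_zero] at hn
        linarith
    · by_cases hQ : cQ u = 0
      · right; right
        obtain ⟨b0, bR, hh⟩ := Spec_lR hb0 hu0 uC uP hQ hE
        refine ⟨Spec_w (Spec_w_lR uP uC hQ b0 bR) hub, ?_⟩
        rcases hh with ⟨h0, -⟩ | ⟨-, hq, -⟩
        · exact Or.inr (Or.inr (Or.inr ⟨h0, uP, uC, hQ⟩))
        · right; right; left
          refine ⟨uP, uC, hQ, ?_⟩
          rw [Complex.normSq_apply] at hq
          rw [uP, uC, hQ] at hn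
          simp only [Complex.zero_re, Complex.zero_im, mul_zero, add_zero] at hn
          linarith
      · left
        exact Or.inl ⟨hQ, Or.inr (Or.inr hR)⟩
  · have hCP' : cC u ≠ 0 ∨ cP u ≠ 0 := by
      by_cases hC : cC u = 0
      · exact Or.inr fun hP => hCP ⟨hC, hP⟩
      · exact Or.inl hC
    by_cases h0 : c0 u = 0
    · by_cases hQ : cQ u = 0
      · right; left
        exact ⟨⟨h0, hQ⟩, hCP'⟩
      · left; left
        refine ⟨hQ, ?_⟩
        rcases hCP' with h | h
        · exact Or.inl h
        · exact Or.inr (Or.inl h)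
    · left; right
      exact ⟨h0, hCP'⟩

end Pool.Agent.FL.S1
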