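import Pool.Agent.FL.S1V2core
import Pool.Agent.FL.S1I1
import Pool.Agent.FL.S1Spec
import Pool.Agent.FL.S1S7
import Pool.Agent.FL.S1G1
import Pool.Agent.FL.S1G2
import Pool.Agent.FL.S1GW
import Pool.Agent.FL.S1M3

/-!
# MP_f09395_gt, space (1): the last generic perturbation
-/

set_option linter.unusedSectionVars false

noncomputable section

namespace Pool.Agent.FL.S1

open scoped ContDiff Quaternion Matrix ComplexConjugate
open Pool.Agent.Helper93.Fin Pool.Agent.helper79.FP Pool.Agent.helper79.FR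
open Pool.Agent.helper79.FR.Sp2 (Mat QQ h0 m gg hh PP BB cc)
open Filter Topology

attribute [local instance] Matrix.linftyOpNormedRing Matrix.linftyOpNormedAlgebra

/-- V2 -/
theorem V2 {v : V → ℝ} {s : ℝ} (h : Lev v s) : ∃ v2 : V → ℝ, Lev v2 s ∧
    (∀ u b, Fl u b → |cc 1 3 u| ≤ s → ∃ j, 1 ≤ j ∧ aWt v2 j u ≠ 0) ∧
    (∀ u b, Fl u b → |cc 1 3 u| = s → alf v2 u b = 0 → alf' v2 u b ≤ 0 →
      ∃ j, 1 ≤ j ∧ j < NT ∧ Aj v2 j u (b : Mat) ≠ 0) :=
  V2_core fam_Ph (fun _ _ h => SPEC h) (fun _ hv _ _ h hw _ he => S7a hv h hw he)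
    (fun _ _ hv hχ => G1 hv hχ) (fun _ _ hv hχ => G2 hv hχ) (fun _ _ hv hχ => GW hv hχ)
    (fun _ _ hv hχ _ h1 h2 => M3 hv hχ h1 h2) h

end Pool.Agent.FL.S1
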