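import Pool.Agent.FL.G3
import Pool.Agent.FL.S1I2

/-!
# MP_f09395_gt, space (1), module G3 (RE1)
-/

noncomputable section

namespace Pool.Agent.FL.S1

open scoped ContDiff Quaternion Matrix ComplexConjugate
open Pool.Agent.Helper93.Fin Pool.Agent.helper79.FP Pool.Agent.helper79.FR
open Pool.Agent.helper79.FR.Sp2 (Mat QQ h0 m gg hh PP BB cc)
open Pool.Agent.helper90.FL (Negl)
open Filter Topology

attribute [local instance] Matrix.linftyOpNormedRing Matrix.linftyOpNormedAlgebra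

/-- **G3 (RE1)**: outside a negligible set of parameters no generic wall point `u` (`χ = 1` near
`u`) has `[u, ∇v(u)]_𝔪 = 0` -/
theorem G3 {v χ : V → ℝ} (hv : Ph v) (hχ : I0 χ) :
    Negl {p : FI → ℝ | ∃ u b, Wl u b ∧ (χ =ᶠ[𝓝 u] fun _ => 1) ∧ Gen u ∧
      eu (pt v χ p) u = 0} :=
  G3G.G3_of (fun hu hx h => INV hu hx h) hv hχ

end Pool.Agent.FL.S1
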