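import Pool.Agent.FL.S1Core

/-!
# MP_f09395_gt, space (1), S6: the projection `h_s` of `h₀` to the centraliser of a wall point

Walls: `cc 1 3 u = -1` (then `u² = -(|u|²/2)`) and `cc 1 3 u = 1` (then `u³ = -|u|² u`, rank one).
`hsm u`, `hsp u` are the orthogonal projections of `h₀` to the centraliser of `u`.
-/

noncomputable section

namespace Pool.Agent.FL.S1

open scoped ContDiff Quaternion Matrix ComplexConjugate
open Pool.Agent.Helper93.Fin Pool.Agent.helper79.FP Pool.Agent.helper79.FR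
open Pool.Agent.helper79.FR.Sp2 (Mat QQ h0 m gg hh PP BB cc retr s4 retr_mul_comm retr_one
  QQ_apply star_smul_mat QQ_pos sq_scal mul_scal star_h0 lie_gg)

attribute [local instance] Matrix.linftyOpNormedRing Matrix.linftyOpNormedAlgebra

/-- the projection of `h₀` to the centraliser of `u` at the wall `c = -1` -/
def hsm (u : Mat) : Mat := (1 / 2 : ℝ) • h0 1 3 - (QQ u u)⁻¹ • (u * h0 1 3 * u)

/-- the projection of `h₀` to the centraliser of `u` at the wall `c = 1` -/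
def hsp (u : Mat) : Mat :=
  (1 + (QQ u u)⁻¹ • (u * u)) * h0 1 3 * (1 + (QQ u u)⁻¹ • (u * u))

/-! ### positivity -/

theorem s6_retr_star_mul (X : Mat) : retr (star X * X) =
    Quaternion.normSq (X 0 0) + Quaternion.normSq (X 0 1) + Quaternion.normSq (X 1 0) +
      Quaternion.normSq (X 1 1) := by
  rw [Sp2.retr_apply]
  simp only [Matrix.mul_apply, Matrix.star_apply, Fin.sum_univ_two, Quaternion.re_add,
    Quaternion.re_mul, Quaternion.re_star, Quaternion.imI_star, Quaternion.imJ_star,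
    Quaternion.imK_star, Quaternion.normSq_def']
  ring

theorem s6_eq_zero {X : Mat} (h : retr (star X * X) = 0) : X = 0 := by
  rw [s6_retr_star_mul] at h
  have n0 := Quaternion.normSq_nonneg (a := X 0 0)
  have n1 := Quaternion.normSq_nonneg (a := X 0 1)
  have n2 := Quaternion.normSq_nonneg (a := X 1 0)
  have n3 := Quaternion.normSq_nonneg (a := X 1 1)
  have e0 : X 0 0 = 0 := Quaternion.normSq_eq_zero.1 (by linarith)
  have e1 : X 0 1 = 0 := Quaternion.normSq_eq_zero.1 (by linarith)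
  have e2 : X 1 0 = 0 := Quaternion.normSq_eq_zero.1 (by linarith)
  have e3 : X 1 1 = 0 := Quaternion.normSq_eq_zero.1 (by linarith)
  ext i j : 1
  fin_cases i <;> fin_cases j
  · exact e0
  · exact e1
  · exact e2
  · exact e3

variable {u : V}

theorem s6_star (u : V) : star (u : Mat) = -(u : Mat) := u.2.1

theorem s6_Q_pos (hu : u ≠ 0) : 0 < QQ (u : Mat) u :=
  QQ_pos u.2.1 fun h => hu (Subtype.ext h)

theorem s6_retr_sq (u : V) : retr ((u : Mat) * u) = -QQ (u : Mat) u := by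
  rw [QQ_apply, neg_neg]

/-- `S = u² + |u|²/2` is a traceless self-adjoint matrix with `S² = (s₄ - |u|⁴/2)/2` -/
theorem s6_S (u : V) : ∃ S : Mat, S = (u : Mat) * u + (QQ (u : Mat) u / 2) • 1 ∧ star S = S ∧
    retr S = 0 ∧ S * S = ((s4 (u : Mat) - QQ (u : Mat) u ^ 2 / 2) / 2) • (1 : Mat) := by
  set q := QQ (u : Mat) u with hq
  have hs : star ((u : Mat) * u + (q / 2) • (1 : Mat)) = (u : Mat) * u + (q / 2) • 1 := by
    rw [star_add, star_mul, star_smul_mat, star_one, s6_star]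
    noncomm_ring
  have ht : retr ((u : Mat) * u + (q / 2) • (1 : Mat)) = 0 := by
    rw [map_add, map_smul, retr_one, s6_retr_sq, smul_eq_mul, ← hq]; ring
  obtain ⟨s, h⟩ := sq_scal hs ht
  have h2 := congrArg retr h
  have e : ((u : Mat) * u + (q / 2) • (1 : Mat)) * ((u : Mat) * u + (q / 2) • (1 : Mat)) =
      (u : Mat) ^ 4 + q • ((u : Mat) * u) + (q ^ 2 / 4) • 1 := by
    simp only [add_mul, mul_add, smul_mul_assoc, mul_smul_comm, one_mul, mul_one]
    have : (u : Mat) * u * (u * u) = (u : Mat) ^ 4 := by noncomm_ring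
    rw [this]
    module
  rw [e, map_add, map_add, map_smul, map_smul, map_smul, retr_one, s6_retr_sq, ← hq] at h2
  simp only [smul_eq_mul] at h2
  refine ⟨_, rfl, hs, ht, ?_⟩
  rw [h]
  congr 1
  have : s4 (u : Mat) = retr ((u : Mat) ^ 4) := rfl
  rw [this]
  linarith

theorem s6_s4 (hu : u ≠ 0) : 4 * s4 (u : Mat) = (cc 1 3 u + 3) * QQ (u : Mat) u ^ 2 := by
  have h := (s6_Q_pos hu).ne'
  rw [cc]
  field_simp
  ring

theorem wall_m (hu : u ≠ 0) (hc : cc 1 3 u = -1) :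
    (u : Mat) * u = -((QQ (u : Mat) u / 2) • (1 : Mat)) := by
  obtain ⟨S, h1, h2, h3, h4⟩ := s6_S u
  have h5 := s6_s4 hu
  rw [hc] at h5
  have h6 : (s4 (u : Mat) - QQ (u : Mat) u ^ 2 / 2) / 2 = 0 := by linarith
  rw [h6, zero_smul] at h4
  have h7 : S = 0 := s6_eq_zero (by rw [h2, h4, map_zero])
  rw [h7] at h1
  rw [eq_neg_iff_add_eq_zero]
  exact h1.symm

theorem s6_four (hu : u ≠ 0) (hc : cc 1 3 u = 1) :
    (u : Mat) * u * (u * u) = -(QQ (u : Mat) u • ((u : Mat) * u)) := by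
  obtain ⟨S, h1, h2, h3, h4⟩ := s6_S u
  have h5 := s6_s4 hu
  rw [hc] at h5
  have h6 : (s4 (u : Mat) - QQ (u : Mat) u ^ 2 / 2) / 2 = QQ (u : Mat) u ^ 2 / 4 := by linarith
  rw [h6, h1] at h4
  have e : ((u : Mat) * u + (QQ (u : Mat) u / 2) • (1 : Mat)) *
      ((u : Mat) * u + (QQ (u : Mat) u / 2) • (1 : Mat)) =
      (u : Mat) * u * (u * u) + QQ (u : Mat) u • ((u : Mat) * u) +
        (QQ (u : Mat) u ^ 2 / 4) • 1 := by
    simp only [add_mul, mul_add, smul_mul_assoc, mul_smul_comm, one_mul, mul_one]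
    module
  rw [e] at h4
  rw [eq_neg_iff_add_eq_zero]
  have h7 := sub_eq_zero.2 h4
  rw [add_sub_cancel_right] at h7
  exact h7

theorem wall_p (hu : u ≠ 0) (hc : cc 1 3 u = 1) :
    (u : Mat) * u * u = -(QQ (u : Mat) u • (u : Mat)) := by
  set q := QQ (u : Mat) u with hq
  have h1 := s6_four hu hc
  rw [← hq] at h1
  have hY : star ((u : Mat) * u * u + q • (u : Mat)) = -((u : Mat) * u * u + q • (u : Mat)) := by
    rw [star_add, star_mul, star_mul, star_smul_mat, s6_star]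
    simp only [smul_neg]
    noncomm_ring
  have h2 : star ((u : Mat) * u * u + q • (u : Mat)) * ((u : Mat) * u * u + q • (u : Mat)) = 0 := by
    rw [hY]
    have e : -((u : Mat) * u * u + q • (u : Mat)) * ((u : Mat) * u * u + q • (u : Mat)) =
        -(((u : Mat) * u * (u * u) + q • ((u : Mat) * u)) * ((u : Mat) * u + q • (1 : Mat))) := by
      simp only [add_mul, mul_add, smul_mul_assoc, mul_smul_comm, mul_one, neg_mul,
        neg_add_rev, mul_assoc]
      module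
    rw [e, h1, neg_add_cancel, zero_mul, neg_zero]
  have h3 := s6_eq_zero (by rw [h2, map_zero])
  rw [eq_neg_iff_add_eq_zero]
  exact h3

/-! ### the projection `F = 1 + u²/|u|²` at the wall `c = 1` -/

/-- the projection to the kernel -/
def Fp (u : Mat) : Mat := 1 + (QQ u u)⁻¹ • (u * u)

theorem hsp_eq (u : Mat) : hsp u = Fp u * h0 1 3 * Fp u := rfl

theorem Fp_star (u : V) : star (Fp (u : Mat)) = Fp (u : Mat) := by
  rw [Fp, star_add, star_one, star_smul_mat, star_mul, s6_star]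
  simp only [neg_mul, mul_neg, neg_neg]

theorem Fp_mul (hu : u ≠ 0) (hc : cc 1 3 u = 1) : (u : Mat) * Fp (u : Mat) = 0 := by
  have h := (s6_Q_pos hu).ne'
  rw [Fp, mul_add, mul_one, mul_smul_comm, ← mul_assoc, wall_p hu hc, smul_neg, smul_smul,
    inv_mul_cancel₀ h, one_smul, add_neg_cancel]

theorem mul_Fp (hu : u ≠ 0) (hc : cc 1 3 u = 1) : Fp (u : Mat) * (u : Mat) = 0 := by
  have h := (s6_Q_pos hu).ne'
  rw [Fp, add_mul, one_mul, smul_mul_assoc, wall_p hu hc, smul_neg, smul_smul,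
    inv_mul_cancel₀ h, one_smul, add_neg_cancel]

theorem Fp_sq (hu : u ≠ 0) (hc : cc 1 3 u = 1) :
    Fp (u : Mat) * Fp (u : Mat) = Fp (u : Mat) := by
  conv_lhs => enter [1]; rw [Fp]
  rw [add_mul, one_mul, smul_mul_assoc, mul_assoc, Fp_mul hu hc, mul_zero, smul_zero, add_zero]

theorem Fp_retr (hu : u ≠ 0) : retr (Fp (u : Mat)) = 1 := by
  have h := (s6_Q_pos hu).ne'
  rw [Fp, map_add, map_smul, retr_one, s6_retr_sq, smul_eq_mul]
  field_simp
  norm_num

/-! ### `h_s` -/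

theorem hsm_gg (u : V) : hsm u ∈ gg := by
  show star (hsm u) = -hsm u
  rw [hsm, star_sub, star_smul_mat, star_smul_mat, star_mul, star_mul, star_h0, s6_star]
  simp only [mul_neg, neg_mul, neg_neg, smul_neg, mul_assoc]
  abel

theorem hsp_gg (u : V) : hsp u ∈ gg := by
  show star (hsp u) = -hsp u
  rw [hsp_eq, star_mul, star_mul, star_h0, Fp_star]
  simp only [mul_neg, neg_mul, mul_assoc]

theorem hsm_comm (hu : u ≠ 0) (hc : cc 1 3 u = -1) : ⁅(u : Mat), hsm u⁆ = 0 := by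
  have h := (s6_Q_pos hu).ne'
  have h1 := wall_m hu hc
  have e1 : (u : Mat) * hsm u = (1 / 2 : ℝ) • ((u : Mat) * h0 1 3) +
      (1 / 2 : ℝ) • (h0 1 3 * (u : Mat)) := by
    rw [hsm, mul_sub, mul_smul_comm, mul_smul_comm, ← mul_assoc, ← mul_assoc, h1]
    simp only [neg_mul, smul_mul_assoc, one_mul, smul_neg, smul_smul]
    rw [show (QQ (u : Mat) u)⁻¹ * (QQ (u : Mat) u / 2) = 1 / 2 by field_simp]
    abel
  have e2 : hsm u * (u : Mat) = (1 / 2 : ℝ) • (h0 1 3 * (u : Mat)) +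
      (1 / 2 : ℝ) • ((u : Mat) * h0 1 3) := by
    rw [hsm, sub_mul, smul_mul_assoc, smul_mul_assoc, mul_assoc ((u : Mat) * h0 1 3), h1]
    simp only [mul_neg, mul_smul_comm, mul_one, smul_neg, smul_smul]
    rw [show (QQ (u : Mat) u)⁻¹ * (QQ (u : Mat) u / 2) = 1 / 2 by field_simp]
    abel
  rw [Ring.lie_def, e1, e2]
  abel

theorem hsp_comm (hu : u ≠ 0) (hc : cc 1 3 u = 1) : ⁅(u : Mat), hsp u⁆ = 0 := by
  rw [Ring.lie_def, hsp_eq, ← mul_assoc, ← mul_assoc, Fp_mul hu hc,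
    mul_assoc (Fp (u : Mat) * h0 1 3), mul_Fp hu hc]
  simp

/-- `h₀ - h_s` is orthogonal to the centraliser of `u` -/
theorem hsm_proj (hu : u ≠ 0) (hc : cc 1 3 u = -1) {y : Mat}
    (h : ⁅(u : Mat), y⁆ = 0) : QQ (h0 1 3 - hsm u) y = 0 := by
  have hq := (s6_Q_pos hu).ne'
  have h1 := wall_m hu hc
  have hy : (u : Mat) * y = y * u := sub_eq_zero.1 h
  have e : retr ((u : Mat) * h0 1 3 * u * y) = -(QQ (u : Mat) u / 2) * retr (h0 1 3 * y) := by
    rw [mul_assoc, hy, ← mul_assoc, retr_mul_comm, ← mul_assoc, ← mul_assoc, h1]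
    simp only [neg_mul, smul_mul_assoc, one_mul, map_neg, map_smul, smul_eq_mul]
  rw [QQ_apply, hsm, sub_mul, sub_mul, smul_mul_assoc, smul_mul_assoc, map_sub, map_sub, map_smul,
    map_smul, e]
  simp only [smul_eq_mul]
  field_simp
  ring

theorem hsp_proj (hu : u ≠ 0) (hc : cc 1 3 u = 1) {y : Mat} (hyg : y ∈ gg)
    (h : ⁅(u : Mat), y⁆ = 0) : QQ (h0 1 3 - hsp u) y = 0 := by
  have hq := (s6_Q_pos hu).ne'
  have hy : (u : Mat) * y = y * u := sub_eq_zero.1 h
  have hys : star y = -y := hyg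
  set F := Fp (u : Mat) with hF
  set E : Mat := -((QQ (u : Mat) u)⁻¹ • ((u : Mat) * u)) with hE
  have hFE : F = 1 - E := by rw [hF, hE, Fp, sub_neg_eq_add]
  have hFy : F * y = y * F := by
    rw [hF, Fp, add_mul, mul_add, one_mul, mul_one, smul_mul_assoc, mul_smul_comm, mul_assoc, hy,
      ← mul_assoc, hy, mul_assoc]
  have hFF : F * F = F := Fp_sq hu hc
  have hFr : retr F = 1 := Fp_retr hu
  have hFs : star F = F := Fp_star u
  have hFu : F * (u : Mat) = 0 := mul_Fp hu hc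
  -- `a = u y`
  set a : Mat := (u : Mat) * y with ha
  have has : star a = a := by
    rw [ha, star_mul, s6_star, hys, neg_mul_neg, ← hy]
  have hFa : F * a = 0 := by rw [ha, ← mul_assoc, hFu, zero_mul]
  have haF : a * F = 0 := by rw [ha, mul_assoc, ← hFy, ← mul_assoc, Fp_mul hu hc, zero_mul]
  -- `a` is a multiple of `1 - F`
  obtain ⟨r, hr⟩ : ∃ r : ℝ, a = r • ((1 : Mat) - F) := by
    have s1 : star (F - (1 / 2 : ℝ) • (1 : Mat)) = F - (1 / 2 : ℝ) • 1 := by
      rw [star_sub, hFs, star_smul_mat, star_one]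
    have s2 : star (a - (retr a / 2) • (1 : Mat)) = a - (retr a / 2) • 1 := by
      rw [star_sub, has, star_smul_mat, star_one]
    have t1 : retr (F - (1 / 2 : ℝ) • (1 : Mat)) = 0 := by
      rw [map_sub, map_smul, retr_one, hFr, smul_eq_mul]; norm_num
    have t2 : retr (a - (retr a / 2) • (1 : Mat)) = 0 := by
      rw [map_sub, map_smul, retr_one, smul_eq_mul]; ring
    have c1 : (F - (1 / 2 : ℝ) • (1 : Mat)) * (a - (retr a / 2) • (1 : Mat)) =
        -((retr a / 2) • F) - (1 / 2 : ℝ) • a + (retr a / 4) • 1 := by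
      simp only [sub_mul, mul_sub, smul_mul_assoc, mul_smul_comm, mul_one, one_mul, hFa]
      module
    have c2 : (a - (retr a / 2) • (1 : Mat)) * (F - (1 / 2 : ℝ) • (1 : Mat)) =
        -((retr a / 2) • F) - (1 / 2 : ℝ) • a + (retr a / 4) • 1 := by
      simp only [sub_mul, mul_sub, smul_mul_assoc, mul_smul_comm, mul_one, one_mul, haF]
      module
    obtain ⟨x, hx⟩ := mul_scal s1 s2 t1 t2 (c1.trans c2.symm)
    rw [c1] at hx
    have h2 := congrArg (fun Z => F * Z) hx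
    simp only [mul_add, mul_sub, mul_neg, mul_smul_comm, hFF, hFa, mul_one, smul_zero,
      sub_zero] at h2
    have h3 := congrArg retr h2
    simp only [map_add, map_neg, map_smul, hFr, smul_eq_mul, mul_one] at h3
    have h4 : x = -(retr a / 4) := by linarith
    rw [h4] at hx
    refine ⟨retr a, ?_⟩
    have h5 : (1 / 2 : ℝ) • a = (retr a / 2) • ((1 : Mat) - F) := by
      have : (1 / 2 : ℝ) • a = -((retr a / 2) • F) + (retr a / 4) • (1 : Mat) -
        (-(retr a / 4) • (1 : Mat)) := by rw [← hx]; abel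
      rw [this]; module
    calc a = (2 : ℝ) • ((1 / 2 : ℝ) • a) := by rw [smul_smul]; norm_num
      _ = _ := by rw [h5, smul_smul]; congr 1; ring
  -- `u² y = r u`
  have h6 : (u : Mat) * u * y = r • (u : Mat) := by
    rw [mul_assoc, ← ha, hr, mul_smul_comm, mul_sub, mul_one, Fp_mul hu hc, sub_zero]
  have h7 : QQ (h0 1 3) (u : Mat) = 0 := by
    have h8 := u.2.2
    rw [Sp2.QQ_h0]
    exact h8
  have h8 : retr (h0 1 3 * (u : Mat)) = 0 := by
    rw [QQ_apply] at h7; linarith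
  have h9 : retr (F * (h0 1 3) * F * y) = retr (h0 1 3 * y) := by
    have e1 : retr (F * (h0 1 3) * F * y) = retr (h0 1 3 * (y * F)) := by
      rw [mul_assoc, hFy, mul_assoc, retr_mul_comm]
      rw [mul_assoc, mul_assoc, hFF]
    rw [e1, ← hFy, hFE, sub_mul, one_mul, mul_sub, map_sub, hE, neg_mul, smul_mul_assoc, h6,
      mul_neg, mul_smul_comm, mul_smul_comm, map_neg, map_smul, map_smul, h8]
    simp
  rw [QQ_apply, sub_mul, map_sub, hsp_eq, ← hF, h9, sub_self, neg_zero]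

theorem s6_QQ_h0 (u : V) : QQ (h0 1 3) (u : Mat) = 0 := by
  rw [Sp2.QQ_h0]
  exact u.2.2

theorem hsm_perp (hu : u ≠ 0) (hc : cc 1 3 u = -1) : QQ (u : Mat) (hsm u) = 0 := by
  have h := hsm_proj hu hc (y := (u : Mat)) (by rw [Ring.lie_def, sub_self])
  rw [map_sub, LinearMap.sub_apply, s6_QQ_h0, zero_sub, neg_eq_zero] at h
  rw [Sp2.QQ_comm]
  exact h

theorem hsp_perp (hu : u ≠ 0) (hc : cc 1 3 u = 1) : QQ (u : Mat) (hsp u) = 0 := by
  have h := hsp_proj hu hc (y := (u : Mat)) u.2.1 (by rw [Ring.lie_def, sub_self])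
  rw [map_sub, LinearMap.sub_apply, s6_QQ_h0, zero_sub, neg_eq_zero] at h
  rw [Sp2.QQ_comm]
  exact h

/-! ### S6 -/

/-- S6, first wall -/
theorem hsm_eq_zero (hu : u ≠ 0) (hc : cc 1 3 u = -1) (h : hsm u = 0) :
    c0 u = 0 ∧ cQ u = 0 := by
  have hq := (s6_Q_pos hu).ne'
  have h1 := wall_m hu hc
  -- `u h₀ = -h₀ u`
  have h2 : (u : Mat) * h0 1 3 + h0 1 3 * u = 0 := by
    have e1 : (u : Mat) * hsm u = (1 / 2 : ℝ) • ((u : Mat) * h0 1 3) +
        (1 / 2 : ℝ) • (h0 1 3 * (u : Mat)) := by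
      rw [hsm, mul_sub, mul_smul_comm, mul_smul_comm, ← mul_assoc, ← mul_assoc, h1]
      simp only [neg_mul, smul_mul_assoc, one_mul, smul_neg, smul_smul]
      rw [show (QQ (u : Mat) u)⁻¹ * (QQ (u : Mat) u / 2) = 1 / 2 by field_simp]
      abel
    rw [h, mul_zero] at e1
    calc (u : Mat) * h0 1 3 + h0 1 3 * u = (2 : ℝ) • ((1 / 2 : ℝ) • ((u : Mat) * h0 1 3) +
        (1 / 2 : ℝ) • (h0 1 3 * (u : Mat))) := by module
      _ = 0 := by rw [← e1, smul_zero]
  have h3 := congrFun (congrFun h2 0) 0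
  have h4 := congrFun (congrFun h2 0) 1
  rw [coords u, mkV_coe, h0_mat] at h3 h4
  have a1 := congrArg QuaternionAlgebra.re h3
  have b1 := congrArg QuaternionAlgebra.imJ h4
  have b2 := congrArg QuaternionAlgebra.imK h4
  simp [mkMat] at a1 b1 b2
  refine ⟨by linarith, Complex.ext ?_ ?_⟩
  · show (cQ u).re = 0
    linarith
  · show (cQ u).im = 0
    linarith

/-- S6, second wall -/
theorem hsp_eq_zero (hu : u ≠ 0) (hc : cc 1 3 u = 1) (h : hsp u = 0) :
    c0 u = 0 ∧ cQ u = 0 := by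
  have hFF := Fp_sq hu hc
  have hFr := Fp_retr hu
  have hFs := Fp_star u
  have huF := Fp_mul hu hc
  rw [hsp_eq] at h
  generalize Fp (u : Mat) = F at h hFF hFr hFs huF
  have s00 := congrFun (congrFun hFs 0) 0
  have s01 := congrFun (congrFun hFs 0) 1
  have s11 := congrFun (congrFun hFs 1) 1
  rw [Matrix.star_apply] at s00 s01 s11
  have i00 := congrArg QuaternionAlgebra.imI s00
  have j00 := congrArg QuaternionAlgebra.imJ s00
  have k00 := congrArg QuaternionAlgebra.imK s00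
  have i11 := congrArg QuaternionAlgebra.imI s11
  have j11 := congrArg QuaternionAlgebra.imJ s11
  have k11 := congrArg QuaternionAlgebra.imK s11
  have r01 := congrArg QuaternionAlgebra.re s01
  have i01 := congrArg QuaternionAlgebra.imI s01
  have j01 := congrArg QuaternionAlgebra.imJ s01
  have k01 := congrArg QuaternionAlgebra.imK s01
  simp only [Quaternion.re_star, Quaternion.imI_star, Quaternion.imJ_star,
    Quaternion.imK_star] at i00 j00 k00 i11 j11 k11 r01 i01 j01 k01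
  rw [Sp2.retr_apply] at hFr
  have A0 : (F 0 0).imI = 0 := by linarith
  have A1 : (F 0 0).imJ = 0 := by linarith
  have A2 : (F 0 0).imK = 0 := by linarith
  have B0 : (F 1 1).imI = 0 := by linarith
  have B1 : (F 1 1).imJ = 0 := by linarith
  have B2 : (F 1 1).imK = 0 := by linarith
  have C0 : (F 1 0).re = (F 0 1).re := r01
  have C1 : (F 1 0).imI = -(F 0 1).imI := by linarith
  have C2 : (F 1 0).imJ = -(F 0 1).imJ := by linarith
  have C3 : (F 1 0).imK = -(F 0 1).imK := by linarith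
  have D : (F 1 1).re = 1 - (F 0 0).re := by linarith
  have e1 := congrArg QuaternionAlgebra.re (congrFun (congrFun hFF 0) 0)
  have e2 := congrArg QuaternionAlgebra.imI (congrFun (congrFun h 0) 0)
  have e3 := congrArg QuaternionAlgebra.imI (congrFun (congrFun h 1) 1)
  have e4 := congrArg QuaternionAlgebra.imJ (congrFun (congrFun huF 0) 1)
  have e5 := congrArg QuaternionAlgebra.imK (congrFun (congrFun huF 0) 1)
  have e6 := congrArg QuaternionAlgebra.imI (congrFun (congrFun huF 1) 1)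
  rw [coords u] at e4 e5 e6
  simp only [mkV_coe, mkMat, Matrix.mul_apply, Fin.sum_univ_two, h0_mat, Matrix.zero_apply,
    Matrix.of_apply, Matrix.cons_val', Matrix.cons_val_zero, Matrix.cons_val_one,
    Matrix.cons_val_fin_one, Quaternion.re_add, Quaternion.imI_add, Quaternion.imJ_add,
    Quaternion.imK_add, Quaternion.re_mul, Quaternion.imI_mul, Quaternion.imJ_mul,
    Quaternion.imK_mul, qt_re, qt_imI, qt_imJ, qt_imK, Quaternion.re_zero, Quaternion.imI_zero,
    Quaternion.imJ_zero, Quaternion.imK_zero, A0, A1, A2, B0, B1, B2, C0, C1, C2, C3, D]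
    at e1 e2 e3 e4 e5 e6
  generalize (F 0 0).re = f at *
  generalize (F 0 1).re = g0 at *
  generalize (F 0 1).imI = g1 at *
  generalize (F 0 1).imJ = g2 at *
  generalize (F 0 1).imK = g3 at *
  have E1 : g0 ^ 2 + g1 ^ 2 + g2 ^ 2 + g3 ^ 2 = f - f ^ 2 := by linarith
  have E2 : f ^ 2 = 3 * (g2 ^ 2 + g3 ^ 2 - g0 ^ 2 - g1 ^ 2) := by linarith
  have E3 : g2 ^ 2 + g3 ^ 2 - g0 ^ 2 - g1 ^ 2 = 3 * (1 - f) ^ 2 := by linarith
  have E4 : (4 * f - 3) * (3 - 2 * f) = 0 := by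
    linear_combination E2 + 3 * E3
  have E5 : f = 3 / 4 := by
    rcases mul_eq_zero.1 E4 with h5 | h5
    · linarith
    · have h6 : f = 3 / 2 := by linarith
      rw [h6] at E1
      nlinarith [sq_nonneg g0, sq_nonneg g1, sq_nonneg g2, sq_nonneg g3]
  rw [E5] at E1 E3 e4 e5 e6
  have G0 : g0 = 0 := by nlinarith [sq_nonneg g0, sq_nonneg g1]
  have G1 : g1 = 0 := by nlinarith [sq_nonneg g0, sq_nonneg g1]
  rw [G0, G1] at E1 e4 e5 e6
  have q1 : (cQ u).re = -12 * c0 u * g3 := by linarith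
  have q2 : (cQ u).im = 12 * c0 u * g2 := by linarith
  rw [q1, q2] at e6
  have hc0 : c0 u = 0 := by
    linear_combination (-1 / 2) * e6 - 6 * c0 u * E1
  rw [hc0] at q1 q2
  refine ⟨hc0, Complex.ext ?_ ?_⟩
  · show (cQ u).re = 0
    linarith
  · show (cQ u).im = 0
    linarith

/-- S6: a wall point outside `V_odd` has `h_s ≠ 0` -/
theorem S6 (hu : u ≠ 0) (hc : cc 1 3 u = 1 ∨ cc 1 3 u = -1)
    (h : ¬ (c0 u = 0 ∧ cQ u = 0)) :
    ∃ y ∈ gg, ⁅(u : Mat), y⁆ = 0 ∧ QQ (u : Mat) y = 0 ∧ QQ (h0 1 3) y ≠ 0 := by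
  rcases hc with hc | hc
  · have h1 : hsp (u : Mat) ≠ 0 := fun h0 => h (hsp_eq_zero hu hc h0)
    refine ⟨hsp u, hsp_gg u, hsp_comm hu hc, hsp_perp hu hc, ?_⟩
    have h2 := hsp_proj hu hc (hsp_gg u) (hsp_comm hu hc)
    rw [map_sub, LinearMap.sub_apply, sub_eq_zero] at h2
    rw [h2]
    exact (QQ_pos (hsp_gg u) h1).ne'
  · have h1 : hsm (u : Mat) ≠ 0 := fun h0 => h (hsm_eq_zero hu hc h0)
    refine ⟨hsm u, hsm_gg u, hsm_comm hu hc, hsm_perp hu hc, ?_⟩
    have h2 := hsm_proj hu hc (hsm_comm hu hc)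
    rw [map_sub, LinearMap.sub_apply, sub_eq_zero] at h2
    rw [h2]
    exact (QQ_pos (hsm_gg u) h1).ne'

/-- `h₀` does not commute with wall points -/
theorem S6_lie (hu : u ≠ 0) (hc : cc 1 3 u = 1 ∨ cc 1 3 u = -1) :
    ⁅h0 1 3, (u : Mat)⁆ ≠ 0 := by
  intro h
  have h1 : rt u = 0 := by rw [rt, h, map_zero]
  rw [rt_eq] at h1
  have hP := congrArg cP h1
  have hR := congrArg cR h1
  have hC := congrArg cC h1
  have hQ := congrArg cQ h1
  simp only [cP_mk, cR_mk, cC_mk, cQ_mk, map_zero] at hP hR hC hQ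
  simp at hP hR hC hQ
  have hu' : u = mkV (c0 u) 0 0 0 0 := by
    rw [coords u, hP, hR, hC, hQ]; simp
  have hr : c0 u ≠ 0 := by
    intro h0
    apply hu
    rw [hu', h0]
    apply ext_coords <;> simp
  have hs : s4 (u : Mat) = 82 * c0 u ^ 4 := by
    rw [hu']
    show retr (_ ^ 4) = _
    rw [Sp2.retr_apply, show (4 : ℕ) = 2 + 2 from rfl, pow_add, pow_two]
    simp [mkV_coe, mkMat, Matrix.mul_apply, Fin.sum_univ_two, Quaternion.re_mul]
    ring
  have hq : QQ (u : Mat) u = 10 * c0 u ^ 2 := by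
    rw [QQ_coords, hP, hR, hC, hQ]
    simp [rip]
    ring
  have h4 := s6_s4 hu
  rw [hs, hq] at h4
  have h5 : cc 1 3 u = 28 / 100 := by
    have h6 : c0 u ^ 4 ≠ 0 := pow_ne_zero 4 hr
    have h7 : c0 u ^ 4 * (cc 1 3 u - 28 / 100) = 0 := by linear_combination (-1 / 100) * h4
    rcases mul_eq_zero.1 h7 with h8 | h8
    · exact absurd h8 h6
    · linarith
  rcases hc with hc | hc <;> rw [hc] at h5 <;> norm_num at h5

theorem s6_lt {y : Mat} (hy : y ∈ gg) (h : ⁅(u : Mat), y⁆ = 0) (h0' : ⁅h0 1 3, (u : Mat)⁆ ≠ 0)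
    (hp : QQ (h0 1 3 - y) y = 0) : QQ y y < 10 := by
  have hg : h0 1 3 - y ∈ gg := gg.sub_mem star_h0 hy
  have hne : h0 1 3 - y ≠ 0 := by
    intro h1
    apply h0'
    rw [sub_eq_zero.1 h1]
    rw [Ring.lie_def] at h ⊢
    rw [← neg_sub, h, neg_zero]
  have h1 := QQ_pos hg hne
  have h2 : QQ (h0 1 3) (h0 1 3) = 10 := by
    rw [Sp2.QQ_h0_h0]; norm_num
  rw [map_sub, LinearMap.sub_apply, sub_eq_zero] at hp
  have h3 : QQ y (h0 1 3) = QQ y y := by rw [Sp2.QQ_comm, hp]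
  simp only [map_sub, LinearMap.sub_apply, h2, h3, hp] at h1
  linarith

/-- `|h_s|² < |h₀|² = 10` -/
theorem hsm_lt (hu : u ≠ 0) (hc : cc 1 3 u = -1) : QQ (hsm u) (hsm u) < 10 :=
  s6_lt (hsm_gg u) (hsm_comm hu hc) (S6_lie hu (Or.inr hc))
    (hsm_proj hu hc (hsm_comm hu hc))

theorem hsp_lt (hu : u ≠ 0) (hc : cc 1 3 u = 1) : QQ (hsp u) (hsp u) < 10 :=
  s6_lt (hsp_gg u) (hsp_comm hu hc) (S6_lie hu (Or.inl hc))
    (hsp_proj hu hc (hsp_gg u) (hsp_comm hu hc))

end Pool.Agent.FL.S1
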