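import Pool.Agent.FL.S1Core

/-!
# MP_f09395_gt, space (1), S8: the derivative of `B` has rank at least three at the walls

A wall point is `u ≠ 0` with `B u = 0`, i.e. `u³ = -μ u`.  Either `u² = -μ` or `1 + u²/μ` is a
projection of rank one.
-/

set_option linter.unusedSectionVars false

noncomputable section

namespace Pool.Agent.FL.S1

open scoped ContDiff Quaternion Matrix ComplexConjugate
open Pool.Agent.Helper93.Fin Pool.Agent.helper79.FP Pool.Agent.helper79.FR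
open Pool.Agent.helper79.FR.Sp2
open Pool.Agent.helper46.FR (Qg Bgen cgen Qg_smul Bgen_smul cgen_smul Bgen_comm Bgen_smooth
  cgen_smooth fderiv_line line_deriv Bgen_deriv cgen_deriv)

attribute [local instance] Matrix.linftyOpNormedRing Matrix.linftyOpNormedAlgebra

namespace S8

variable {a b : ℕ}

/-- the derivative of `B` at a wall up to a factor -/
def TT (μ : ℝ) (u v : Mat) : Mat := v * u * u + u * v * u + u * u * v + μ • v

theorem wall_cube {u : m a b} (hu : u ≠ 0) (hB : BB a b u = 0) :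
    (u : Mat) ^ 3 = -((retr ((u : Mat) ^ 4) * (QQ (u : Mat) u)⁻¹) • (u : Mat)) := by
  have hN : QQ (u : Mat) u ≠ 0 := by
    have h1 : (u : Mat) ≠ 0 := fun h => hu (Subtype.ext h)
    exact (QQ_pos u.2.1 h1).ne'
  unfold BB s4 at hB
  have h2 := congrArg (fun Z : Mat => (1 / 4 * QQ (u : Mat) u) • Z) hB
  simp only [smul_smul, smul_add, smul_zero] at h2
  have e1 : 1 / 4 * QQ (u : Mat) u * (4 * (QQ (u : Mat) u)⁻¹) = 1 := by field_simp
  have e2 : 1 / 4 * QQ (u : Mat) u * (4 * (retr ((u : Mat) ^ 4) * (QQ (u : Mat) u ^ 2)⁻¹)) =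
      retr ((u : Mat) ^ 4) * (QQ (u : Mat) u)⁻¹ := by field_simp
  rw [e1, e2, one_smul] at h2
  exact eq_neg_of_add_eq_zero_left h2

/-- the derivative of `B` at a wall -/
theorem wall_deriv {u x : m a b} (hu : u ≠ 0) (hB : BB a b u = 0) (hx : QQ (u : Mat) x = 0) :
    fderiv ℝ (BB a b) u x = (4 * (QQ (u : Mat) u)⁻¹) •
      TT (retr ((u : Mat) ^ 4) * (QQ (u : Mat) u)⁻¹) u x := by
  have h1 : (u : Mat) ≠ 0 := fun h => hu (Subtype.ext h)
  have hN : QQ (u : Mat) u ≠ 0 := (QQ_pos u.2.1 h1).ne'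
  have hpos : ∀ u : m a b, u ≠ 0 → Qg retr (u : Mat) ≠ 0 := fun u hu => (Qg_pos hu).ne'
  have hl : HasDerivAt (fun t : ℝ => ((u : Mat) + t • (x : Mat))) (x : Mat) 0 :=
    line_deriv (u : Mat) (x : Mat)
  have hx0 : retr ((u : Mat) * x) = 0 := by
    rw [QQ_apply] at hx
    linarith
  have hx3 : retr ((u : Mat) ^ 3 * x) = 0 := by
    rw [wall_cube hu hB, neg_mul, smul_mul_assoc, map_neg, map_smul, hx0, smul_zero, neg_zero]
  have e0 : (u : Mat) + (0 : ℝ) • (x : Mat) = u := by rw [zero_smul, add_zero]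
  have key := Bgen_deriv retr_mul_comm hl (by rw [e0]; exact hpos u hu)
    (by rw [e0]; exact hx0) (by rw [e0]; exact hx3)
  rw [e0, Qg_eq] at key
  have hs : ContDiffOn ℝ ∞ (BB a b) {0}ᶜ := by
    rw [BB_fun]; exact Bgen_smooth hpos
  have h4 : (fun t : ℝ => BB a b (u + t • x)) =
      fun t : ℝ => Bgen retr ((u : Mat) + t • (x : Mat)) := by
    funext t
    rw [BB_eq]
    rfl
  rw [← h4] at key
  refine (fderiv_line hs hu x key).trans ?_
  rw [TT]
  generalize (x : Mat) * u * u + u * x * u + u * u * x = Y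
  rw [smul_add (4 : ℝ), smul_smul, smul_smul, smul_add (4 * (QQ (u : Mat) u)⁻¹), smul_smul]
  congr 2
  field_simp

theorem corr {A : Type*} [AddCommGroup A] [Module ℝ A] (Q : A →ₗ[ℝ] A →ₗ[ℝ] ℝ)
    (hQ : ∀ x y, Q x y = Q y x) {u k h v0 : A} (h1 : Q u u ≠ 0) (h2 : Q k h ≠ 0)
    (h3 : Q u k = 0) (h4 : Q u h = 0) :
    ∃ t1 t2 : ℝ, Q h (v0 + t1 • u + t2 • k) = 0 ∧ Q u (v0 + t1 • u + t2 • k) = 0 := by
  refine ⟨-(Q u v0 / Q u u), -(Q v0 h / Q k h), ?_, ?_⟩
  · rw [map_add, map_add, map_smul, map_smul, hQ h u, h4, smul_zero, add_zero, hQ h k, hQ h v0,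
      smul_eq_mul, neg_mul, div_mul_cancel₀ _ h2, add_neg_cancel]
  · rw [map_add, map_add, map_smul, map_smul, h3, smul_zero, add_zero,
      smul_eq_mul, neg_mul, div_mul_cancel₀ _ h1, add_neg_cancel]

/-- the general criterion -/
theorem crit {u : m a b} (hu : u ≠ 0) (hB : BB a b u = 0) (hh : ⁅h0 a b, (u : Mat)⁆ ≠ 0)
    {Λ : Mat →ₗ[ℝ] (Fin 3 → ℝ)} {c : ℝ} (hc : c ≠ 0)
    (h1 : ∀ v ∈ gg, Λ (TT (retr ((u : Mat) ^ 4) * (QQ (u : Mat) u)⁻¹) u v) = c • Λ v)
    (h2 : ∀ X : Mat, Λ ⁅(u : Mat), X⁆ = 0) (h3 : Λ (u : Mat) = 0)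
    (h4 : ∀ y, ∃ v ∈ gg, Λ v = y) :
    Function.Surjective fun x : m a b => Λ (fderiv ℝ (BB a b) u x) := by
  intro y
  have hu' : (u : Mat) ≠ 0 := fun h => hu (Subtype.ext h)
  have hN : QQ (u : Mat) u ≠ 0 := (QQ_pos u.2.1 hu').ne'
  obtain ⟨v0, hv0, e0⟩ := h4 (((4 * (QQ (u : Mat) u)⁻¹) * c)⁻¹ • y)
  have hhg : ⁅h0 a b, (u : Mat)⁆ ∈ gg := lie_gg h0_gg u.2.1
  have hD : QQ (⁅(u : Mat), ⁅h0 a b, (u : Mat)⁆⁆) (h0 a b) ≠ 0 := by
    rw [QQ_inv, QQ_comm, QQ_inv]
    exact (QQ_pos hhg hh).ne'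
  obtain ⟨k, hk⟩ : ∃ k, k = ⁅(u : Mat), ⁅h0 a b, (u : Mat)⁆⁆ := ⟨_, rfl⟩
  rw [← hk] at hD
  have hkg : k ∈ gg := by rw [hk]; exact lie_gg u.2.1 hhg
  have hku : QQ (u : Mat) k = 0 := by
    rw [QQ_comm, hk, QQ_inv, QQ_comm, QQ_inv, Ring.lie_def (u : Mat), sub_self, map_zero]
  have huh : QQ (u : Mat) (h0 a b) = 0 := by
    rw [QQ_comm]; exact (mem_m_iff.1 u.2).2
  obtain ⟨t1, t2, hvh, hvu⟩ := corr QQ QQ_comm (v0 := v0) hN hD hku huh
  have hvg : v0 + t1 • (u : Mat) + t2 • k ∈ gg :=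
    gg.add_mem (gg.add_mem hv0 (gg.smul_mem _ u.2.1)) (gg.smul_mem _ hkg)
  obtain ⟨w, hw⟩ : ∃ w, w = v0 + t1 • (u : Mat) + t2 • k := ⟨_, rfl⟩
  rw [← hw] at hvh hvu hvg
  refine ⟨⟨w, mem_m_iff.2 ⟨hvg, hvh⟩⟩, ?_⟩
  have e1 : Λ w = (4 * (QQ (u : Mat) u)⁻¹ * c)⁻¹ • y := by
    rw [hw, map_add, map_add, map_smul, map_smul, h3, hk, h2, smul_zero, smul_zero, add_zero,
      add_zero, e0]
  have e2 := wall_deriv (x := ⟨w, mem_m_iff.2 ⟨hvg, hvh⟩⟩) hu hB hvu
  have e3 := congrArg Λ e2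
  refine e3.trans ?_
  rw [map_smul]
  refine (congrArg (fun z => (4 * (QQ (u : Mat) u)⁻¹) • z) (h1 w hvg)).trans ?_
  rw [e1, smul_smul, smul_smul, mul_inv_cancel₀ (mul_ne_zero (mul_ne_zero four_ne_zero
    (inv_ne_zero hN)) hc), one_smul]

/-! ### the two kinds of walls -/

/-- `u² = -ν` or `u³ = -N u` -/
theorem split {u : m a b} (hu : u ≠ 0) (hB : BB a b u = 0) :
    (retr ((u : Mat) ^ 4) * (QQ (u : Mat) u)⁻¹ = QQ (u : Mat) u) ∨
    ((u : Mat) * u = -((QQ (u : Mat) u / 2) • (1 : Mat)) ∧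
      retr ((u : Mat) ^ 4) * (QQ (u : Mat) u)⁻¹ = QQ (u : Mat) u / 2) := by
  have hu' : (u : Mat) ≠ 0 := fun h => hu (Subtype.ext h)
  have hNp : 0 < QQ (u : Mat) u := QQ_pos u.2.1 hu'
  have hc := wall_cube hu hB
  obtain ⟨N, hN⟩ : ∃ N, N = QQ (u : Mat) u := ⟨_, rfl⟩
  obtain ⟨μ, hμ⟩ : ∃ μ, μ = retr ((u : Mat) ^ 4) * (QQ (u : Mat) u)⁻¹ := ⟨_, rfl⟩
  rw [← hμ] at hc ⊢
  rw [← hN] at hNp ⊢
  have hr : retr ((u : Mat) * u) = -N := by rw [hN, QQ_apply]; ring
  have hsu : star (u : Mat) = -(u : Mat) := u.2.1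
  obtain ⟨s, hs⟩ := sq_scal (X := (u : Mat) * u + (N / 2) • 1) (by
    rw [star_add, star_mul, hsu, star_smul_mat, star_one]; noncomm_ring) (by
    rw [map_add, hr, map_smul, retr_one, smul_eq_mul]; ring)
  have e1 : (u : Mat) * u * ((u : Mat) * u) = -(μ • ((u : Mat) * u)) := by
    calc (u : Mat) * u * ((u : Mat) * u) = (u : Mat) ^ 3 * u := by noncomm_ring
      _ = _ := by rw [hc, neg_mul, smul_mul_assoc]
  have e2 : (N - μ) • ((u : Mat) * u) = (s - N ^ 2 / 4) • (1 : Mat) := by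
    have e3 : ((u : Mat) * u + (N / 2) • 1) * ((u : Mat) * u + (N / 2) • 1) =
        (u : Mat) * u * ((u : Mat) * u) + N • ((u : Mat) * u) + (N ^ 2 / 4) • 1 := by
      rw [add_mul, mul_add, mul_add, smul_mul_assoc, mul_smul_comm, smul_mul_smul_comm, one_mul,
        mul_one, mul_one]
      module
    rw [e3, e1] at hs
    rw [sub_smul, sub_smul, ← hs]
    module
  by_cases h : N = μ
  · exact Or.inl h.symm
  · right
    have hd : N - μ ≠ 0 := sub_ne_zero.2 h
    have e4 : (u : Mat) * u = ((N - μ)⁻¹ * (s - N ^ 2 / 4)) • (1 : Mat) := by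
      rw [← smul_smul, ← e2, smul_smul, inv_mul_cancel₀ hd, one_smul]
    have e5 : (N - μ)⁻¹ * (s - N ^ 2 / 4) = -(N / 2) := by
      have := congrArg retr e4
      rw [hr, map_smul, retr_one, smul_eq_mul] at this
      linarith
    rw [e5] at e4
    refine ⟨by rw [e4, neg_smul], ?_⟩
    rw [e4, smul_mul_smul_comm, one_mul, smul_smul, ← neg_smul] at e1
    have := smul_one_inj e1
    have hN2 : N ≠ 0 := hNp.ne'
    have h6 : N * (μ - N / 2) = 0 := by nlinarith
    rcases mul_eq_zero.1 h6 with h7 | h7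
    · exact absurd h7 hN2
    · linarith

/-- the three imaginary components -/
def imV : ℍ[ℝ] →ₗ[ℝ] (Fin 3 → ℝ) where
  toFun q := ![q.imI, q.imJ, q.imK]
  map_add' p q := by ext i; fin_cases i <;> simp
  map_smul' r q := by ext i; fin_cases i <;> simp

theorem imV_apply (q : ℍ[ℝ]) : imV q = ![q.imI, q.imJ, q.imK] := rfl

/-- walls with a projection of rank one -/
theorem case1 {u : m a b} (hu : u ≠ 0) (hB : BB a b u = 0) (hh : ⁅h0 a b, (u : Mat)⁆ ≠ 0)
    (hμ : retr ((u : Mat) ^ 4) * (QQ (u : Mat) u)⁻¹ = QQ (u : Mat) u) :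
    ∃ Λ : Mat →ₗ[ℝ] (Fin 3 → ℝ),
      Function.Surjective fun x : m a b => Λ (fderiv ℝ (BB a b) u x) := by
  have hu' : (u : Mat) ≠ 0 := fun h => hu (Subtype.ext h)
  have hNp : 0 < QQ (u : Mat) u := QQ_pos u.2.1 hu'
  have hcube := wall_cube hu hB
  rw [hμ] at hcube
  obtain ⟨N, hN⟩ : ∃ N, N = QQ (u : Mat) u := ⟨_, rfl⟩
  have hsu : star (u : Mat) = -(u : Mat) := u.2.1
  have hr : retr ((u : Mat) * u) = -N := by rw [hN, QQ_apply]; ring
  rw [← hN] at hNp hcube
  obtain ⟨e, he⟩ : ∃ e : Mat, e = 1 + N⁻¹ • ((u : Mat) * u) := ⟨_, rfl⟩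
  have hN0 : N ≠ 0 := hNp.ne'
  have heu : e * u = 0 := by
    have : (u : Mat) * u * u = (u : Mat) ^ 3 := by noncomm_ring
    rw [he, add_mul, one_mul, smul_mul_assoc, this, hcube, smul_neg, smul_smul,
      inv_mul_cancel₀ hN0, one_smul, add_neg_cancel]
  have hue : (u : Mat) * e = 0 := by
    have : (u : Mat) * (u * u) = (u : Mat) ^ 3 := by noncomm_ring
    rw [he, mul_add, mul_one, mul_smul_comm, this, hcube, smul_neg, smul_smul,
      inv_mul_cancel₀ hN0, one_smul, add_neg_cancel]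
  have hee : e * e = e := by
    conv_lhs => rw [he, mul_add, mul_one, mul_smul_comm, ← he, ← mul_assoc, heu, zero_mul,
      smul_zero, add_zero]
  have hse : star e = e := by
    rw [he, star_add, star_one, star_smul_mat, star_mul, hsu, neg_mul_neg]
  have hre : retr e = 1 := by
    rw [he, map_add, map_smul, retr_one, hr, smul_eq_mul, mul_neg, inv_mul_cancel₀ hN0]
    norm_num
  obtain ⟨i, hi⟩ : ∃ i : Fin 2, (e i i).re ≠ 0 := by
    by_contra hcon
    have h0 : ∀ i : Fin 2, (e i i).re = 0 := fun i => by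
      by_contra h
      exact hcon ⟨i, h⟩
    rw [retr_apply, h0, h0] at hre
    norm_num at hre
  have hreal : e i i = ((e i i).re : ℍ[ℝ]) := by
    have h1 := congrFun (congrFun hse i) i
    rw [Matrix.star_apply] at h1
    exact (Quaternion.star_eq_self.1 h1).symm ▸ rfl
  obtain ⟨r, hr0⟩ : ∃ r : ℝ, r = (e i i).re := ⟨_, rfl⟩
  rw [← hr0] at hi hreal
  -- the functional
  obtain ⟨Λ, hΛ⟩ : ∃ Λ : Mat →ₗ[ℝ] (Fin 3 → ℝ), ∀ z, Λ z = imV ((e * z * e) i i) :=
    ⟨imV ∘ₗ entL i i ∘ₗ (LinearMap.mulRight ℝ e ∘ₗ LinearMap.mulLeft ℝ e), fun z => rfl⟩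
  refine ⟨Λ, crit hu hB hh (c := N) hN0 (fun v _ => ?_) (fun X => ?_) ?_ (fun y => ?_)⟩
  · rw [hμ, ← hN, hΛ, hΛ, ← map_smul]
    have e1 : e * TT N u v * e = N • (e * v * e) := by
      rw [TT]
      have a1 : e * (v * u * u + u * v * u + u * u * v + N • v) * e =
          e * v * u * (u * e) + (e * u) * v * (u * e) + (e * u) * (u * v * e) +
            N • (e * v * e) := by
        simp only [mul_add, add_mul, mul_smul_comm, smul_mul_assoc, mul_assoc]
      rw [a1, hue, heu]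
      simp
    rw [e1]
    rfl
  · rw [hΛ]
    have e1 : e * ⁅(u : Mat), X⁆ * e = 0 := by
      have a1 : e * ((u : Mat) * X - X * u) * e = (e * u) * (X * e) - e * X * (u * e) := by
        noncomm_ring
      rw [Ring.lie_def, a1, hue, heu]
      simp
    rw [e1]
    exact map_zero imV
  · rw [hΛ, heu, zero_mul]
    exact map_zero imV
  · obtain ⟨q, hq⟩ : ∃ q, q = qt 0 (y 0 / r ^ 2) (y 1 / r ^ 2) (y 2 / r ^ 2) := ⟨_, rfl⟩
    have hsq : star q = -q := by rw [hq]; ext <;> simp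
    obtain ⟨D, hD⟩ : ∃ D : Mat, D = Matrix.single i i q := ⟨_, rfl⟩
    have hsD : star D = -D := by
      rw [hD, Matrix.star_eq_conjTranspose, Matrix.conjTranspose_single, hsq]
      ext j k : 1
      rw [Matrix.neg_apply, Matrix.single_apply, Matrix.single_apply]
      split_ifs <;> simp
    refine ⟨e * D * e, ?_, ?_⟩
    · show star (e * D * e) = -(e * D * e)
      rw [star_mul, star_mul, hse, hsD]
      noncomm_ring
    · have e1 : e * (e * D * e) * e = e * D * e := by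
        calc e * (e * D * e) * e = (e * e) * D * (e * e) := by noncomm_ring
          _ = _ := by rw [hee]
      have e2 : (e * D * e) i i = e i i * q * e i i := by
        rw [hD, Matrix.mul_apply]
        simp only [Matrix.mul_apply, Matrix.single_apply]
        fin_cases i <;> simp [Fin.sum_univ_two]
      have e3 : (r : ℍ[ℝ]) * q * (r : ℍ[ℝ]) = (r ^ 2) • q := by
        rw [Quaternion.mul_coe_eq_smul, Quaternion.coe_mul_eq_smul, smul_smul, sq]
      rw [hΛ, e1, e2, hreal, e3, map_smul, hq, imV_apply]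
      ext j
      fin_cases j <;> simp <;> field_simp

/-- walls with `u² = -ν`: reduction -/
theorem case2_core {u : m a b} (hu : u ≠ 0) (hB : BB a b u = 0) (hh : ⁅h0 a b, (u : Mat)⁆ ≠ 0)
    {ν : ℝ} (hν : 0 < ν) (hsq : (u : Mat) * u = -(ν • (1 : Mat)))
    (hμ : retr ((u : Mat) ^ 4) * (QQ (u : Mat) u)⁻¹ = ν) {ℓ : Mat →ₗ[ℝ] (Fin 3 → ℝ)}
    (h1 : ℓ 1 = 0) (h4 : ∀ y, ∃ v ∈ gg, ℓ ((u : Mat) * v + v * u) = y) :
    ∃ Λ : Mat →ₗ[ℝ] (Fin 3 → ℝ),
      Function.Surjective fun x : m a b => Λ (fderiv ℝ (BB a b) u x) := by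
  obtain ⟨Λ, hΛ⟩ : ∃ Λ : Mat →ₗ[ℝ] (Fin 3 → ℝ), ∀ z, Λ z = ℓ ((u : Mat) * z + z * u) :=
    ⟨ℓ ∘ₗ (LinearMap.mulLeft ℝ (u : Mat) + LinearMap.mulRight ℝ (u : Mat)), fun z => rfl⟩
  refine ⟨Λ, crit hu hB hh (c := -2 * ν) (by nlinarith) (fun v _ => ?_) (fun X => ?_) ?_
    (fun y => ?_)⟩
  · rw [hμ, hΛ, hΛ, ← map_smul]
    congr 1
    have a1 : TT ν u v = u * v * u - ν • v := by
      rw [TT, mul_assoc v, hsq]
      simp only [mul_neg, neg_mul, mul_smul_comm, smul_mul_assoc, mul_one, one_mul]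
      abel
    have a2 : (u : Mat) * (u * v * u) = -(ν • (v * u)) := by
      rw [mul_assoc (u : Mat) v, ← mul_assoc (u : Mat) (u : Mat), hsq, neg_mul, smul_mul_assoc,
        one_mul]
    have a3 : (u : Mat) * v * u * u = -(ν • (u * v)) := by
      rw [mul_assoc ((u : Mat) * v), hsq, mul_neg, mul_smul_comm, mul_one]
    rw [a1, mul_sub, sub_mul, a2, a3, mul_smul_comm, smul_mul_assoc]
    module
  · rw [hΛ]
    have a1 : (u : Mat) * ⁅(u : Mat), X⁆ + ⁅(u : Mat), X⁆ * u = u * u * X - X * (u * u) := by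
      rw [Ring.lie_def]; noncomm_ring
    rw [a1, hsq]
    have a2 : -(ν • (1 : Mat)) * X - X * -(ν • (1 : Mat)) = 0 := by
      simp only [mul_neg, neg_mul, mul_smul_comm, smul_mul_assoc, mul_one, one_mul, sub_self]
    rw [a2, map_zero]
  · rw [hΛ, hsq, ← neg_add, map_neg, map_add, map_smul, h1, smul_zero, add_zero, neg_zero]
  · obtain ⟨v, hv, e⟩ := h4 y
    exact ⟨v, hv, by rw [hΛ, e]⟩

/-- walls with `u² = -ν` -/
theorem case2 {u : m a b} (hu : u ≠ 0) (hB : BB a b u = 0) (hh : ⁅h0 a b, (u : Mat)⁆ ≠ 0)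
    {ν : ℝ} (hν : 0 < ν) (hsq : (u : Mat) * u = -(ν • (1 : Mat)))
    (hμ : retr ((u : Mat) ^ 4) * (QQ (u : Mat) u)⁻¹ = ν) :
    ∃ Λ : Mat →ₗ[ℝ] (Fin 3 → ℝ),
      Function.Surjective fun x : m a b => Λ (fderiv ℝ (BB a b) u x) := by
  have hsu : star (u : Mat) = -(u : Mat) := u.2.1
  by_cases hq : (u : Mat) 0 1 = 0
  · -- diagonal
    obtain ⟨p, hp⟩ : ∃ p, p = (u : Mat) 0 0 := ⟨_, rfl⟩
    obtain ⟨r, hr⟩ : ∃ r, r = (u : Mat) 1 1 := ⟨_, rfl⟩
    have hq' : (u : Mat) 1 0 = 0 := by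
      have h1 := congrFun (congrFun hsu 1) 0
      rw [Matrix.star_apply, Matrix.neg_apply, hq, star_zero] at h1
      exact (neg_eq_zero.1 h1.symm)
    have sp : star p = -p := by
      have h1 := congrFun (congrFun hsu 0) 0
      rw [Matrix.star_apply, Matrix.neg_apply] at h1
      rw [hp]; exact h1
    have sr : star r = -r := by
      have h1 := congrFun (congrFun hsu 1) 1
      rw [Matrix.star_apply, Matrix.neg_apply] at h1
      rw [hr]; exact h1
    have hone : ν • (1 : ℍ[ℝ]) = (ν : ℍ[ℝ]) := by rw [← Quaternion.coe_mul_eq_smul, mul_one]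
    have pp : p * p = -(ν : ℍ[ℝ]) := by
      have h1 := congrFun (congrFun hsq 0) 0
      rw [Matrix.mul_apply, Fin.sum_univ_two, hq, zero_mul, add_zero, ← hp] at h1
      rw [h1, Matrix.neg_apply, Matrix.smul_apply, Matrix.one_apply_eq, hone]
    have rr : r * r = -(ν : ℍ[ℝ]) := by
      have h1 := congrFun (congrFun hsq 1) 1
      rw [Matrix.mul_apply, Fin.sum_univ_two, hq', zero_mul, zero_add, ← hr] at h1
      rw [h1, Matrix.neg_apply, Matrix.smul_apply, Matrix.one_apply_eq, hone]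
    have preal : p.re = 0 := by
      have h1 := congrArg QuaternionAlgebra.re sp
      simp only [Quaternion.re_star, Quaternion.re_neg] at h1
      linarith
    obtain ⟨w, hw0, hw⟩ : ∃ w : ℍ[ℝ], w ≠ 0 ∧ p * w = w * r := by
      by_contra hcon
      have h0 : ∀ x : ℍ[ℝ], p * x + x * r = 0 := by
        intro x
        by_contra hx
        refine hcon ⟨_, hx, ?_⟩
        have a1 : p * (p * x + x * r) = p * p * x + p * x * r := by noncomm_ring
        have a2 : (p * x + x * r) * r = p * x * r + x * (r * r) := by noncomm_ring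
        rw [a1, a2, pp, rr, neg_mul, mul_neg, Quaternion.coe_mul_eq_smul,
          Quaternion.mul_coe_eq_smul]
        abel
      have h1 := h0 1
      rw [mul_one, one_mul] at h1
      have h2 : r = -p := by rw [eq_neg_iff_add_eq_zero, add_comm]; exact h1
      have h3 := h0 (qt 0 1 0 0)
      have h4 := h0 (qt 0 0 1 0)
      rw [h2] at h3 h4
      have b1 := congrArg QuaternionAlgebra.imJ h3
      have b2 := congrArg QuaternionAlgebra.imK h3
      have b3 := congrArg QuaternionAlgebra.imK h4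
      simp [Quaternion.imJ_mul, Quaternion.imK_mul] at b1 b2 b3
      have c2 : p.imJ = 0 := by linarith
      have c3 : p.imK = 0 := by linarith
      have c1 : p.imI = 0 := by linarith
      have c0 : p = 0 := by ext <;> simp [preal, c1, c2, c3]
      rw [c0, zero_mul] at pp
      have := congrArg QuaternionAlgebra.re pp
      simp at this
      linarith
    obtain ⟨n, hn⟩ : ∃ n, n = Quaternion.normSq w := ⟨_, rfl⟩
    have hn0 : n ≠ 0 := by rw [hn]; exact (Quaternion.normSq_ne_zero).2 hw0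
    obtain ⟨ℓ, hℓ⟩ : ∃ ℓ : Mat →ₗ[ℝ] (Fin 3 → ℝ), ∀ z, ℓ z =
        ![(z 0 0).re - (z 1 1).re, (z 0 1 * star w).re, (z 0 1 * star w * star p).re] :=
      ⟨{ toFun := fun z =>
          ![(z 0 0).re - (z 1 1).re, (z 0 1 * star w).re, (z 0 1 * star w * star p).re]
         map_add' := fun x y => by
          ext i; fin_cases i <;> (simp [add_mul]; try ring)
         map_smul' := fun t x => by
          ext i; fin_cases i <;> (simp; try ring) }, fun z => rfl⟩
    refine case2_core hu hB hh hν hsq hμ (ℓ := ℓ) (by rw [hℓ]; ext i; fin_cases i <;> simp)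
      (fun y => ?_)
    obtain ⟨s0, h0⟩ : ∃ s0, s0 = -y 0 / (2 * ν) := ⟨_, rfl⟩
    obtain ⟨s1, h1⟩ : ∃ s1, s1 = y 2 / (2 * n * ν) := ⟨_, rfl⟩
    obtain ⟨s2, h2⟩ : ∃ s2, s2 = -y 1 / (2 * ν * n) := ⟨_, rfl⟩
    obtain ⟨β, hβ⟩ : ∃ β, β = s1 • w + s2 • (p * w) := ⟨_, rfl⟩
    obtain ⟨v, hv⟩ : ∃ v : Mat, v = !![s0 • p, β; -star β, 0] := ⟨_, rfl⟩
    have v00 : v 0 0 = s0 • p := by rw [hv]; rfl
    have v01 : v 0 1 = β := by rw [hv]; rfl
    have v10 : v 1 0 = -star β := by rw [hv]; rfl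
    have v11 : v 1 1 = 0 := by rw [hv]; rfl
    have hν0 : ν ≠ 0 := hν.ne'
    refine ⟨v, ?_, ?_⟩
    · show star v = -v
      ext j k : 1
      rw [Matrix.star_apply, Matrix.neg_apply]
      fin_cases j <;> fin_cases k
      · show star (v 0 0) = -v 0 0
        rw [v00, Quaternion.star_smul, sp, smul_neg]
      · show star (v 1 0) = -v 0 1
        rw [v10, v01, star_neg, star_star]
      · show star (v 0 1) = -v 1 0
        rw [v10, v01, neg_neg]
      · show star (v 1 1) = -v 1 1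
        rw [v11, star_zero, neg_zero]
    · have e00 : ((u : Mat) * v + v * u) 0 0 = -((2 * s0 * ν : ℝ) : ℍ[ℝ]) := by
        rw [Matrix.add_apply, Matrix.mul_apply, Matrix.mul_apply, Fin.sum_univ_two,
          Fin.sum_univ_two, hq, hq', zero_mul, mul_zero, add_zero, add_zero, ← hp, v00,
          mul_smul_comm, smul_mul_assoc, pp, ← smul_add, ← neg_add, ← Quaternion.coe_add, smul_neg,
          ← Quaternion.coe_mul_eq_smul, ← Quaternion.coe_mul]
        congr 2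
        ring
      have e11 : ((u : Mat) * v + v * u) 1 1 = 0 := by
        rw [Matrix.add_apply, Matrix.mul_apply, Matrix.mul_apply, Fin.sum_univ_two,
          Fin.sum_univ_two, hq, hq', v11]
        simp
      have e01 : ((u : Mat) * v + v * u) 0 1 = (2 * s1) • (p * w) - (2 * s2 * ν) • w := by
        rw [Matrix.add_apply, Matrix.mul_apply, Matrix.mul_apply, Fin.sum_univ_two,
          Fin.sum_univ_two, hq, v11, v01, ← hp, ← hr, mul_zero, mul_zero, add_zero, zero_add, hβ]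
        have a1 : p * (s1 • w + s2 • (p * w)) = s1 • (p * w) - (s2 * ν) • w := by
          rw [mul_add, mul_smul_comm, mul_smul_comm, ← mul_assoc, pp, neg_mul,
            Quaternion.coe_mul_eq_smul, smul_neg, smul_smul, sub_eq_add_neg]
        have a2 : (s1 • w + s2 • (p * w)) * r = s1 • (p * w) - (s2 * ν) • w := by
          rw [add_mul, smul_mul_assoc, smul_mul_assoc, mul_assoc p w r, ← hw, ← mul_assoc, pp,
            neg_mul, Quaternion.coe_mul_eq_smul, smul_neg, smul_smul, sub_eq_add_neg]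
        rw [a1, a2]
        module
      have e2 : ((u : Mat) * v + v * u) 0 1 * star w = (2 * s1 * n) • p -
          ((2 * s2 * ν * n : ℝ) : ℍ[ℝ]) := by
        have a3 : (2 * s2 * ν) • ((n : ℝ) : ℍ[ℝ]) = ((2 * s2 * ν * n : ℝ) : ℍ[ℝ]) := by
          rw [← Quaternion.coe_mul_eq_smul, ← Quaternion.coe_mul]
        rw [e01, sub_mul, smul_mul_assoc, smul_mul_assoc, mul_assoc p, Quaternion.self_mul_star,
          ← hn, Quaternion.mul_coe_eq_smul, smul_smul, a3]
      have e3 : (((u : Mat) * v + v * u) 0 1 * star w * star p).re = 2 * s1 * n * ν := by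
        rw [e2, sp, sub_mul, smul_mul_assoc, mul_neg, pp, neg_neg, ← Quaternion.coe_mul_eq_smul,
          ← Quaternion.coe_mul, mul_neg, Quaternion.coe_mul_eq_smul, sub_neg_eq_add]
        simp [preal]
      rw [hℓ, e00, e11, e3, e2]
      ext j
      fin_cases j
      · simp
        rw [h0]
        field_simp
      · simp [preal]
        rw [h2]
        field_simp
      · simp
        rw [h1]
        field_simp
  · -- off-diagonal entry not zero
    obtain ⟨q, hqq⟩ : ∃ q, q = (u : Mat) 0 1 := ⟨_, rfl⟩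
    rw [← hqq] at hq
    obtain ⟨n, hn⟩ : ∃ n, n = Quaternion.normSq q := ⟨_, rfl⟩
    have hn0 : n ≠ 0 := by rw [hn]; exact (Quaternion.normSq_ne_zero).2 hq
    obtain ⟨ℓ, hℓ⟩ : ∃ ℓ : Mat →ₗ[ℝ] (Fin 3 → ℝ), ∀ z, ℓ z = imV (z 0 1 * star q) :=
      ⟨imV ∘ₗ LinearMap.mulRight ℝ (star q) ∘ₗ entL 0 1, fun z => rfl⟩
    refine case2_core hu hB hh hν hsq hμ (ℓ := ℓ) (by rw [hℓ]; simp) (fun y => ?_)
    obtain ⟨α, hα⟩ : ∃ α, α = qt 0 (y 0 / n) (y 1 / n) (y 2 / n) := ⟨_, rfl⟩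
    have hsα : star α = -α := by rw [hα]; ext <;> simp
    refine ⟨Matrix.single 0 0 α, ?_, ?_⟩
    · show star (Matrix.single 0 0 α : Mat) = -(Matrix.single 0 0 α)
      rw [Matrix.star_eq_conjTranspose, Matrix.conjTranspose_single, hsα]
      ext j k : 1
      rw [Matrix.neg_apply, Matrix.single_apply, Matrix.single_apply]
      split_ifs <;> simp
    · have e1 : ((u : Mat) * (Matrix.single 0 0 α : Mat) + (Matrix.single 0 0 α : Mat) * u) 0 1 = α * q := by
        rw [Matrix.add_apply, Matrix.mul_apply, Matrix.mul_apply, hqq]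
        simp [Matrix.single_apply]
      rw [hℓ, e1, mul_assoc, Quaternion.self_mul_star, ← hn, Quaternion.mul_coe_eq_smul, map_smul,
        hα, imV_apply]
      ext j
      fin_cases j <;> simp <;> field_simp

/-- both kinds of walls -/
theorem S8_gen {u : m a b} (hu : u ≠ 0) (hB : BB a b u = 0) (hh : ⁅h0 a b, (u : Mat)⁆ ≠ 0) :
    ∃ Λ : Mat →ₗ[ℝ] (Fin 3 → ℝ),
      Function.Surjective fun x : m a b => Λ (fderiv ℝ (BB a b) u x) := by
  have hNp : 0 < QQ (u : Mat) u := QQ_pos u.2.1 fun h => hu (Subtype.ext h)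
  rcases split hu hB with h | ⟨h1, h2⟩
  · exact case1 hu hB hh h
  · exact case2 hu hB hh (ν := QQ (u : Mat) u / 2) (by linarith) h1 h2

/-- at the walls of space (1) the isotropy algebra does not commute with `u` -/
theorem h0_ne {u : V} (hu : u ≠ 0) (hB : BB 1 3 u = 0) : ⁅h0 1 3, (u : Mat)⁆ ≠ 0 := by
  intro h
  have h1 : rt u = 0 := by rw [rt, h, map_zero]
  rw [rt_eq] at h1
  have hP : cP u = 0 := by
    have := congrArg cP h1
    rw [cP_mk, map_zero] at this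
    simpa using this
  have hR : cR u = 0 := by
    have := congrArg cR h1
    rw [cR_mk, map_zero] at this
    simpa using this
  have hC : cC u = 0 := by
    have := congrArg cC h1
    rw [cC_mk, map_zero] at this
    simpa using this
  have hQ : cQ u = 0 := by
    have := congrArg cQ h1
    rw [cQ_mk, map_zero] at this
    simpa using this
  have hr : c0 u ≠ 0 := by
    intro h0
    apply hu
    apply ext_coords <;> simp [h0, hP, hR, hC, hQ]
  have hc := wall_cube hu hB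
  obtain ⟨μ, hμ⟩ : ∃ μ, μ = retr ((u : Mat) ^ 4) * (QQ (u : Mat) u)⁻¹ := ⟨_, rfl⟩
  rw [← hμ] at hc
  have hm : (u : Mat) = mkMat (c0 u) 0 0 0 0 := by
    conv_lhs => rw [coords u, hP, hR, hC, hQ, mkV_coe]
  rw [hm] at hc
  have e0 := congrArg QuaternionAlgebra.imI (congrFun (congrFun hc 0) 0)
  have e1 := congrArg QuaternionAlgebra.imI (congrFun (congrFun hc 1) 1)
  simp [mkMat, pow_succ, Matrix.mul_apply, Fin.sum_univ_two, Quaternion.imI_mul,
    Quaternion.re_mul, Quaternion.imJ_mul, Quaternion.imK_mul] at e0 e1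
  have k2 := e0.resolve_right hr
  have k3 := e1.resolve_right hr
  have k4 : c0 u * c0 u = 0 := by linarith
  exact hr (mul_self_eq_zero.1 k4)

end S8

/-- **S8**: at a wall point the derivative of `B` has rank at least three -/
theorem S8 {u : V} (hu : u ≠ 0) (hB : BB 1 3 u = 0) :
    ∃ L : Mat →L[ℝ] (Fin 3 → ℝ), Function.Surjective fun x : V => L (fderiv ℝ (BB 1 3) u x) := by
  obtain ⟨Λ, hΛ⟩ := S8.S8_gen hu hB (S8.h0_ne hu hB)
  exact ⟨LinearMap.toContinuousLinearMap Λ, hΛ⟩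

theorem S8_u {u : V} (hu : u ≠ 0) (hB : BB 1 3 u = 0) : fderiv ℝ (BB 1 3) u u = 0 := by
  have hC := cas (a := 1) (b := 3) (by norm_num) (by norm_num)
  refine fderiv_line hC.Bsm hu u ?_
  have h1 : (fun t : ℝ => BB 1 3 (u + t • u)) = fun _ => 0 := by
    funext t
    have h2 : u + t • u = (1 + t) • u := by rw [add_smul, one_smul]
    rw [h2, hC.Bhom, hB, smul_zero]
  rw [h1]
  exact hasDerivAt_const _ _

theorem S8_rt {u : V} (hu : u ≠ 0) (hB : BB 1 3 u = 0) : fderiv ℝ (BB 1 3) u (rt u) = 0 := by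
  have hC := cas (a := 1) (b := 3) (by norm_num) (by norm_num)
  have hN := nData (a := 1) (b := 3) (by norm_num) (by norm_num)
  have h0g : -h0 1 3 ∈ gg := gg.neg_mem h0_gg
  have h1 : ⁅(u : Mat), -h0 1 3⁆ = ⁅h0 1 3, (u : Mat)⁆ := by
    rw [Ring.lie_def, Ring.lie_def]; noncomm_ring
  have h2 : ⁅(u : Mat), -h0 1 3⁆ ∈ m 1 3 := by
    rw [h1, mem_m_iff]
    refine ⟨lie_gg h0_gg u.2.1, ?_⟩
    rw [QQ_comm, QQ_inv, QQ_comm, QQ_inv, Ring.lie_def (h0 1 3), sub_self, map_zero]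
  have h3 := hC.Bequi u hu (-h0 1 3) h0g h2
  rw [hB, Ring.lie_def (0 : Mat), zero_mul, mul_zero, sub_self, h1] at h3
  exact h3

end Pool.Agent.FL.S1
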