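import Pool.Agent.FL.G4
import Pool.Agent.FL.S1I1
import Pool.Agent.FL.S1S7
import Pool.Agent.FL.S6
import Pool.Agent.FL.S8
import Pool.Agent.FL.S1I2

/-!
# MP_f09395_gt, space (1), module G4: no relative equilibria over generic wall points
-/

set_option linter.unusedSectionVars false

noncomputable section

namespace Pool.Agent.FL.S1

open scoped ContDiff Quaternion Matrix ComplexConjugate
open Pool.Agent.Helper93.Fin Pool.Agent.helper79.FP Pool.Agent.helper79.FR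
open Pool.Agent.helper79.FR.Sp2 (Mat QQ h0 m gg hh PP BB cc)
open Pool.Agent.FL
open Pool.Agent.FL.Wall (ef EE LamE LamW rr rr_D1)
open Pool.Agent.FL.S1S7
open Pool.Agent.helper90.FL (Negl)
open Filter Topology

attribute [local instance] Matrix.linftyOpNormedRing Matrix.linftyOpNormedAlgebra

/-- the statement of I2 -/
def INVst : Prop := ∀ {u x : V}, Gen u → QQ (u : Mat) (x : Mat) = 0 →
  (∀ a : E0, D1 (s0 a) u x = 0) → ∃ r : ℝ, x = r • rt u

theorem D1_nr (u x : V) : D1 nr u x = 2 * QQ (u : Mat) x := rr_D1 nD u x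

/-- the family separates all directions but `[h₀, u]` -/
theorem fam_sep (I2 : INVst) {χ : V → ℝ} {u : V} (hu : u ≠ 0)
    (hχ1 : χ =ᶠ[𝓝 u] fun _ => 1) (hG : Gen u) {x : V}
    (h : ∀ a : FI, D1 (fun z => χ z * fam a z) u x = 0) : ∃ r : ℝ, x = r • rt u := by
  have h1 : ∀ a : FI, D1 (fam a) u x = 0 := by
    intro a
    rw [← h a]
    have e1 : (fun z => χ z * fam a z) =ᶠ[𝓝 u] fam a := by
      filter_upwards [hχ1] with z hz
      rw [hz, one_mul]
    show fderiv ℝ (fam a) u x = fderiv ℝ (fun z => χ z * fam a z) u x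
    rw [Filter.EventuallyEq.fderiv_eq e1]
  have h2 : D1 nr u x = 0 := by
    have e1 := h1 (Sum.inl ((Sum.inl 0, none), 0))
    have e2 : fam (Sum.inl ((Sum.inl 0, none), 0)) = nr := by
      funext z
      show nr z * sF _ z ^ 0 = nr z
      rw [pow_zero, mul_one]
    rwa [e2] at e1
  have h3 : ∀ a : E0, D1 (s0 a) u x = 0 := by
    intro a
    have e1 := h1 (Sum.inl ((a, none), 1))
    have e2 : fam (Sum.inl ((a, none), 1)) = fun z => nr z * s0 a z := by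
      funext z
      show nr z * s0 a z ^ 1 = nr z * s0 a z
      rw [pow_one]
    rw [e2, D1_mul I1.nr_smooth.contDiffOn (s0_I0 a).smooth hu, h2, mul_zero, add_zero] at e1
    exact (mul_eq_zero.1 e1).resolve_left (nr_pos hu).ne'
  refine I2 hG ?_ h3
  rw [D1_nr] at h2
  linarith

/-- the projection to `𝔪` of `h_s`, wall `c = -1` -/
def km (u : V) : V := PP 1 3 (hsm u)

/-- the projection to `𝔪` of `h_s`, wall `c = 1` -/
def kp (u : V) : V := PP 1 3 (hsp u)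

theorem km_smooth : ContDiffOn ℝ ∞ km {0}ᶜ := by
  refine (PP 1 3).contDiff.comp_contDiffOn ?_
  have h1 : ContDiffOn ℝ ∞ (fun u : V => (u : Mat)) {0}ᶜ := (m 1 3).subtypeL.contDiff.contDiffOn
  have h2 : ContDiffOn ℝ ∞ (fun u : V => (QQ (u : Mat) u)⁻¹) {0}ᶜ := BNinv_smooth nD
  exact contDiffOn_const.sub (h2.smul ((h1.mul contDiffOn_const).mul h1))

theorem kp_smooth : ContDiffOn ℝ ∞ kp {0}ᶜ := by
  refine (PP 1 3).contDiff.comp_contDiffOn ?_
  have h1 : ContDiffOn ℝ ∞ (fun u : V => (u : Mat)) {0}ᶜ := (m 1 3).subtypeL.contDiff.contDiffOn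
  have h2 : ContDiffOn ℝ ∞ (fun u : V => (QQ (u : Mat) u)⁻¹) {0}ᶜ := BNinv_smooth nD
  have h3 : ContDiffOn ℝ ∞ (fun u : V => 1 + (QQ (u : Mat) u)⁻¹ • ((u : Mat) * u)) {0}ᶜ :=
    contDiffOn_const.add (h2.smul (h1.mul h1))
  exact (h3.mul contDiffOn_const).mul h3

/-- the gradient is not in the span of `u, k u` at generic wall points, outside a negligible set of
parameters -/
theorem G4_k (I2 : INVst) {v χ : V → ℝ} (hv : Ph v) (hχ : I0 χ) {k : V → V}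
    (hk : ContDiffOn ℝ ∞ k {0}ᶜ) :
    Negl {p : FI → ℝ | ∃ u ∈ {u : V | (χ =ᶠ[𝓝 u] fun _ => 1) ∧ Gen u},
      QQ (u : Mat) u = 1 ∧ BB 1 3 u = 0 ∧ ∃ lam r : ℝ,
        gx QQ (fun z => v z + ∑ a, p a * (χ z * fam a z)) u = lam • u + r • k u} := by
  have hne : ∀ u : V, QQ (u : Mat) u = 1 → u ≠ 0 := by
    rintro u h1 rfl
    simp at h1
  refine G4.negl_of_thin (G4.g4_thin nD cD hv.phi.smooth
    (fun a => hχ.smooth.mul (fam_Ph a).phi.smooth) hk ?_ ?_)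
  · exact fun u _ h1 h2 => S8 (hne u h1) h2
  · intro u hu h1 _ x hx
    exact fam_sep I2 (hne u h1) hu.1 hu.2 hx

theorem isHs_m {u : V} (hu : u ≠ 0) (hc : cc 1 3 u = -1) :
    IsHs gg QQ (h0 1 3) u (hsm u) := by
  refine ⟨⟨hsm_gg u, hsm_comm hu hc, hsm_perp hu hc⟩, fun y hy => ?_⟩
  have h1 := hsm_proj hu hc hy.2.1
  rw [map_sub, LinearMap.sub_apply] at h1
  linarith

theorem isHs_p {u : V} (hu : u ≠ 0) (hc : cc 1 3 u = 1) :
    IsHs gg QQ (h0 1 3) u (hsp u) := by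
  refine ⟨⟨hsp_gg u, hsp_comm hu hc, hsp_perp hu hc⟩, fun y hy => ?_⟩
  have h1 := hsp_proj hu hc hy.1 hy.2.1
  rw [map_sub, LinearMap.sub_apply] at h1
  linarith

/-- G4, with I2 as a hypothesis -/
theorem G4_of (I2 : INVst) {v χ : V → ℝ} (hv : Ph v) (hχ : I0 χ) :
    Negl {p : FI → ℝ | ∃ u b, Wl u b ∧ (χ =ᶠ[𝓝 u] fun _ => 1) ∧ Gen u ∧
      alf (pt v χ p) u b = 0 ∧ (∃ r : ℝ, r ≠ 0 ∧ eu (pt v χ p) u = r • rt u) ∧
      Aj (pt v χ p) 1 u (b : Mat) = 0} := by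
  refine ((G4_k I2 hv hχ km_smooth).union (G4_k I2 hv hχ kp_smooth)).mono ?_
  rintro p ⟨u, b, hW, h1, hG, ha, ⟨r, hr, he⟩, hA⟩
  have hu1 : QQ (u : Mat) u = 1 := hW.1.1
  have hu : u ≠ 0 := by
    rintro rfl
    simp at hu1
  have hB := hW.BB0
  have hP := pt_Ph hv hχ p
  -- the projection of the conclusion of S7b
  have key : ∀ hs : Mat, IsHs gg QQ (h0 1 3) u hs →
      ∃ lam t : ℝ, gx QQ (fun z => v z + ∑ a, p a * (χ z * fam a z)) u =
        lam • u + t • PP 1 3 hs := by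
    intro hs hhs
    obtain ⟨-, l, hl⟩ := S7b hP hW ha hA hr he hhs
    refine ⟨l, r * (10 / QQ hs hs), ?_⟩
    have e1 := congrArg (PP 1 3) hl
    have e2 : PP 1 3 (h0 1 3) = 0 := nD.red.P_h _ cD.mem
    have e3 : ∀ z : V, PP 1 3 (z : Mat) = z := nD.red.P_m
    rw [e3, map_sub, map_smul, e3, map_smul, map_sub, e2, map_smul, zero_sub,
      smul_neg, sub_neg_eq_add, smul_smul] at e1
    exact e1
  have hc2 := cD.cw u b hW.1
  rw [hW.2] at hc2
  have hc3 : (cc 1 3 u - 1) * (cc 1 3 u + 1) = 0 := by linarith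
  rcases mul_eq_zero.1 hc3 with hc | hc
  · right
    obtain ⟨lam, t, ht⟩ := key _ (isHs_p hu (by linarith))
    exact ⟨u, ⟨h1, hG⟩, hu1, hB, lam, t, ht⟩
  · left
    obtain ⟨lam, t, ht⟩ := key _ (isHs_m hu (by linarith))
    exact ⟨u, ⟨h1, hG⟩, hu1, hB, lam, t, ht⟩

/-- **G4**: outside a negligible set of parameters there are no wall flags over generic points with
`α = 0`, `e(u) = r [h₀, u]`, `r ≠ 0`, and `A₁(u, b) = 0` -/
theorem G4 {v χ : V → ℝ} (hv : Ph v) (hχ : I0 χ) :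
    Negl {p : FI → ℝ | ∃ u b, Wl u b ∧ (χ =ᶠ[𝓝 u] fun _ => 1) ∧ Gen u ∧
      alf (pt v χ p) u b = 0 ∧ (∃ r : ℝ, r ≠ 0 ∧ eu (pt v χ p) u = r • rt u) ∧
      Aj (pt v χ p) 1 u (b : Mat) = 0} :=
  G4_of (fun hG hx h => INV hG hx h) hv hχ

end Pool.Agent.FL.S1
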