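import Pool.Agent.helper46.FR.Comp

/-!
# MP_f09395_gt, kinks, part 4: the choice of the constants (pure compactness)
-/

noncomputable section

namespace Pool.Agent.helper53.FL

open Filter Topology
open Pool.Agent.helper79.FR

variable {X : Type*} [TopologicalSpace X] [T2Space X]

/-- **K3** -/
theorem K3 {K : Set X} (hK : IsCompact K) {T z : X → ℝ} {t q A : ℕ → X → ℝ} {J : ℕ}
    (hT : ContinuousOn T K) (ht : ∀ j, ContinuousOn (t j) K) (hq : ∀ j, ContinuousOn (q j) K)
    (hA : ∀ j, ContinuousOn (A j) K) (hA0 : ∀ x ∈ K, A 0 x = 0)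
    (h2 : ∀ j < J, ∀ x ∈ K, (∀ k ≤ j, A k x = 0) → t j x = q j x ^ 2)
    (h2' : ∀ j < J, ∀ x ∈ K, q j x = 0 → z x = 0 ∨ A (j + 1) x = 0)
    (h3 : ∀ j < J, ∀ x ∈ K, z x = 0 → 0 ≤ t j x)
    (h4 : ∀ x ∈ K, 0 < T x ∨ (z x ≠ 0 ∧ ∃ j, 1 ≤ j ∧ j ≤ J ∧ A j x ≠ 0)) :
    ∃ C : ℕ → ℝ, (∀ j, 0 < C j) ∧ ∀ x ∈ K, 0 < T x + ∑ j ∈ Finset.range J, C j * t j x := by
  have key : ∀ n i : ℕ, i + n = J → ∃ C : ℕ → ℝ, (∀ j, 0 < C j) ∧ ∀ x ∈ K,
      (∀ k ≤ i, A k x = 0) → 0 < T x + ∑ j ∈ Finset.range n, C (i + j) * t (i + j) x := by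
    intro n
    induction n with
    | zero =>
      intro i hi
      refine ⟨fun _ => 1, fun _ => one_pos, fun x hx hAx => ?_⟩
      rw [Finset.range_zero, Finset.sum_empty, add_zero]
      rcases h4 x hx with h5 | ⟨-, j, -, hj, hj'⟩
      · exact h5
      · exact absurd (hAx j (by omega)) hj'
    | succ n ih =>
      intro i hi
      obtain ⟨C', hC'0, hC'⟩ := ih (i + 1) (by omega)
      have hKi : IsCompact (K ∩ ⋂ k ∈ Finset.range (i + 1), K ∩ A k ⁻¹' {0}) := by
        refine hK.inter_right ?_
        refine isClosed_biInter fun k _ => ?_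
        exact (hA k).preimage_isClosed_of_isClosed hK.isClosed isClosed_singleton
      have hmem : ∀ x, x ∈ K ∩ ⋂ k ∈ Finset.range (i + 1), K ∩ A k ⁻¹' {0} ↔
          x ∈ K ∧ ∀ k ≤ i, A k x = 0 := by
        intro x
        simp only [Set.mem_inter_iff, Set.mem_iInter, Finset.mem_range, Set.mem_preimage,
          Set.mem_singleton_iff]
        constructor
        · rintro ⟨hx, h⟩
          exact ⟨hx, fun k hk => (h k (by omega)).2⟩
        · rintro ⟨hx, h⟩
          exact ⟨hx, fun k hk => ⟨hx, h k (by omega)⟩⟩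
      obtain ⟨L, hL⟩ : ∃ L : Set X, L = K ∩ ⋂ k ∈ Finset.range (i + 1), K ∩ A k ⁻¹' {0} :=
        ⟨_, rfl⟩
      rw [← hL] at hKi
      simp only [← hL] at hmem
      have hLK : L ⊆ K := fun x hx => ((hmem x).1 hx).1
      have hiJ : i < J := by omega
      have hf : ContinuousOn (fun x => T x + ∑ j ∈ Finset.range n,
          C' (i + 1 + j) * t (i + 1 + j) x) L :=
        (hT.mono hLK).add (continuousOn_finsetSum _ fun j _ =>
          continuousOn_const.mul ((ht _).mono hLK))
      obtain ⟨D, hD0, hD⟩ := pos_add_sq hKi hf ((hq i).mono hLK) (by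
        intro x hx hqx
        obtain ⟨hxK, hAx⟩ := (hmem x).1 hx
        rcases h2' i hiJ x hxK hqx with h5 | h5
        · have h6 : 0 < T x := by
            rcases h4 x hxK with h7 | ⟨h7, -⟩
            · exact h7
            · exact absurd h5 h7
          have h8 : 0 ≤ ∑ j ∈ Finset.range n, C' (i + 1 + j) * t (i + 1 + j) x := by
            refine Finset.sum_nonneg fun j hj => ?_
            have := Finset.mem_range.1 hj
            exact mul_nonneg (hC'0 _).le (h3 _ (by omega) x hxK h5)
          linarith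
        · refine hC' x hxK fun k hk => ?_
          rcases Nat.lt_or_ge k (i + 1) with h6 | h6
          · exact hAx k (by omega)
          · have : k = i + 1 := by omega
            rw [this]; exact h5)
      refine ⟨fun j => if j = i then D else C' j, fun j => ?_, fun x hx hAx => ?_⟩
      · by_cases hj : j = i
        · simp only [hj, if_true]; exact hD0
        · simp only [hj, if_false]; exact hC'0 j
      · have h5 := hD x ((hmem x).2 ⟨hx, hAx⟩)
        rw [Finset.sum_range_succ']
        have h6 : ∀ j, (if i + (j + 1) = i then D else C' (i + (j + 1))) = C' (i + 1 + j) := by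
          intro j
          rw [if_neg (by omega)]
          congr 1; ring
        simp only [h6, add_zero, if_true]
        rw [h2 i hiJ x hx hAx]
        have h8 : ∑ j ∈ Finset.range n, C' (i + 1 + j) * t (i + (j + 1)) x =
            ∑ j ∈ Finset.range n, C' (i + 1 + j) * t (i + 1 + j) x := by
          refine Finset.sum_congr rfl fun j _ => ?_
          rw [show i + (j + 1) = i + 1 + j by ring]
        rw [h8]
        linarith
  obtain ⟨C, hC0, hC⟩ := key J 0 (by omega)
  refine ⟨C, hC0, fun x hx => ?_⟩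
  have h5 := hC x hx (fun k hk => by
    have : k = 0 := by omega
    rw [this]; exact hA0 x hx)
  simpa using h5

end Pool.Agent.helper53.FL
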