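import Pool.Agent.FL.K1s_53
import Pool.Agent.FL.K3_53
import Pool.Agent.FL.T3Inv
import Pool.Agent.FL.Inv0

/-!
# MP_f09395_gt, kinks at the walls (space (1), KW)

`v' = v - Σ C_j (ζ |u|^{-(j+1)} F_j)²`, `F_0 = W v`, `F_{j+1} = E F_j`.
-/

set_option linter.unusedSectionVars false

noncomputable section

namespace Pool.Agent.FL.KW

open scoped ContDiff
open Pool.Agent.Helper93.Fin Pool.Agent.helper79.FP Pool.Agent.helper79.FR
open Pool.Agent.FL Pool.Agent.FL.Wall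
open Pool.Agent.helper53.FL (K3 K1_BLin)
open Filter Topology

variable {𝔸 : Type*} [NormedRing 𝔸] [NormedAlgebra ℝ 𝔸] [FiniteDimensional ℝ 𝔸]
variable {g h m : Submodule ℝ 𝔸} {Q : 𝔸 →ₗ[ℝ] 𝔸 →ₗ[ℝ] ℝ} {P : 𝔸 →L[ℝ] m} {v F f s : m → ℝ}
variable {h0 : 𝔸} {B : m → 𝔸} {c : m → ℝ} {H : Subgroup 𝔸ˣ} {u b : m}
variable {Λ : m → 𝔸 →L[ℝ] ℝ}

/-- the towers `A_j(u, ·)` -/
def AG {m : Submodule ℝ 𝔸} (Q : 𝔸 →ₗ[ℝ] 𝔸 →ₗ[ℝ] ℝ) (P : 𝔸 →L[ℝ] m) (h0 : 𝔸) (v : m → ℝ) :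
    ℕ → m → 𝔸 →L[ℝ] ℝ
  | 0 => LamW P h0 v
  | j + 1 => LamE Q P v (AG Q P h0 v j)

/-- the functions `F_j` -/
def FG {m : Submodule ℝ 𝔸} (Q : 𝔸 →ₗ[ℝ] 𝔸 →ₗ[ℝ] ℝ) (P : 𝔸 →L[ℝ] m) (h0 : 𝔸) (B : m → 𝔸)
    (v : m → ℝ) : ℕ → m → ℝ
  | 0 => aW P h0 B v 1
  | j + 1 => EE Q P v (FG Q P h0 B v j)

theorem BLin_FG (hN : NData g h m Q P) (hC : Cas g h m Q P h0 B c) (hv : PhiN h m P v) (j : ℕ) :
    BLin B (FG Q P h0 B v j) (AG Q P h0 v j) := by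
  induction j with
  | zero => exact BLin_aW hv.smooth
  | succ j ih => exact ih.dE hN hC hv

/-! ### homogeneity and invariance -/

theorem gx_smul (hN : NData g h m Q P) (hv : PhiN h m P v) {r : ℝ} (hr : r ≠ 0) (hu : u ≠ 0) :
    gx Q v (r • u) = r • gx Q v u := by
  refine rep_unique hN fun w => ?_
  rw [gx_spec hN, Submodule.coe_smul, map_smul, LinearMap.smul_apply, gx_spec hN,
    D1_scale hv.smooth hv.hom hr hu, smul_eq_mul]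

theorem ef_smul (hN : NData g h m Q P) (hv : PhiN h m P v) {r : ℝ} (hr : r ≠ 0) (hu : u ≠ 0) :
    ef Q P v (r • u) = r ^ 2 • ef Q P v u := by
  unfold ef
  rw [gx_smul hN hv hr hu, Submodule.coe_smul, Submodule.coe_smul, ← map_smul]
  congr 1
  simp only [Ring.lie_def, mul_smul_comm, smul_mul_assoc, smul_sub, smul_smul, pow_two]

theorem ef_zero : ef Q P v (0 : m) = 0 := by
  unfold ef
  simp [Ring.lie_def]

theorem fd_scale {F : m → ℝ} (hF : ContDiffOn ℝ ∞ F {0}ᶜ) {r : ℝ} (hr : r ≠ 0) {k : ℕ}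
    (hh : ∀ z : m, F (r • z) = r ^ k * F z) (hu : u ≠ 0) (a : m) :
    r * D1 F (r • u) a = r ^ k * D1 F u a := by
  have hru : r • u ≠ 0 := smul_ne_zero hr hu
  have h1 : HasFDerivAt (fun z : m => F (r • z))
      ((fderiv ℝ F (r • u)).comp (r • ContinuousLinearMap.id ℝ m)) u :=
    (differentiableAt_of_ne hF hru).hasFDerivAt.comp u ((hasFDerivAt_id u).const_smul r)
  have h2 : (fun z : m => F (r • z)) = fun z => r ^ k * F z := funext hh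
  rw [h2] at h1
  have h3 := ((differentiableAt_of_ne hF hu).hasFDerivAt.const_mul (r ^ k)).unique h1
  have h4 := congrArg (fun L : m →L[ℝ] ℝ => L a) h3
  simp only [ContinuousLinearMap.smul_apply, ContinuousLinearMap.comp_apply,
    ContinuousLinearMap.id_apply, map_smul, smul_eq_mul] at h4
  unfold D1
  rw [h4]

theorem EE_hom (hN : NData g h m Q P) (hv : PhiN h m P v) {F : m → ℝ}
    (hF : ContDiffOn ℝ ∞ F {0}ᶜ) {r : ℝ} (hr : r ≠ 0) {k : ℕ}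
    (hh : ∀ z : m, F (r • z) = r ^ k * F z) (z : m) :
    EE Q P v F (r • z) = r ^ (k + 1) * EE Q P v F z := by
  by_cases hz : z = 0
  · rw [hz, smul_zero]
    unfold EE D1
    rw [ef_zero]
    simp
  · have h1 := fd_scale hF hr hh hz (ef Q P v z)
    have h2 : EE Q P v F (r • z) = r ^ 2 * D1 F (r • z) (ef Q P v z) := by
      unfold EE
      rw [ef_smul hN hv hr hz]
      unfold D1
      rw [map_smul, smul_eq_mul]
    rw [h2]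
    unfold EE
    calc r ^ 2 * D1 F (r • z) (ef Q P v z) = r * (r * D1 F (r • z) (ef Q P v z)) := by ring
      _ = r * (r ^ k * D1 F z (ef Q P v z)) := by rw [h1]
      _ = _ := by ring

theorem FG_hom (hN : NData g h m Q P) (hC : Cas g h m Q P h0 B c) (hv : PhiN h m P v) (j : ℕ)
    {r : ℝ} (hr : r ≠ 0) (z : m) :
    FG Q P h0 B v j (r • z) = r ^ (j + 2) * FG Q P h0 B v j z := by
  induction j generalizing z with
  | zero => exact aW_hom hC hv.smooth hv.hom 1 r z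
  | succ j ih =>
    have := EE_hom hN hv ((BLin_FG hN hC hv j).smooth hC) hr ih z
    exact this

theorem gx_adM (hN : NData g h m Q P) (hG : GrpD H h m Q h0 B c) (hv : PhiN h m P v)
    (hvH : InvH H v) {k : 𝔸ˣ} (hk : k ∈ H) (hu : u ≠ 0) :
    gx Q v (adM P k u) = adM P k (gx Q v u) := by
  refine rep_unique hN fun w => ?_
  rw [gx_spec hN]
  conv_lhs => rw [← T3Inv_surj hN hG hk w]
  conv_rhs => rw [← T3Inv_surj hN hG hk w]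
  rw [T3Inv_Q hN hG hk, gx_spec hN, T3Inv_D1 hN hG hv.smooth hvH hk hu]

theorem EE_inv (hN : NData g h m Q P) (hC : Cas g h m Q P h0 B c) (hG : GrpD H h m Q h0 B c)
    (hv : PhiN h m P v) (hvH : InvH H v) {F : m → ℝ} (hF : ContDiffOn ℝ ∞ F {0}ᶜ)
    (hFH : InvH H F) : InvH H (EE Q P v F) := by
  intro k hk u u' huu
  have h4 : u' = adM P k u := Subtype.ext (by rw [adM_coe hN hG hk, huu])
  by_cases hu : u = 0
  · rw [h4, hu, map_zero]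
  · rw [h4]
    unfold EE ef
    rw [gx_adM hN hG hv hvH hk hu, T3Inv_br hN hC hG hk, T3Inv_D1 hN hG hF hFH hk hu]

theorem FG_inv (hN : NData g h m Q P) (hC : Cas g h m Q P h0 B c) (hG : GrpD H h m Q h0 B c)
    (hv : PhiN h m P v) (hvH : InvH H v) (j : ℕ) : InvH H (FG Q P h0 B v j) := by
  induction j with
  | zero => exact aW_inv hN hC hG hv.smooth hvH 1
  | succ j ih => exact EE_inv hN hC hG hv hvH ((BLin_FG hN hC hv j).smooth hC) ih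

/-! ### the weights -/

/-- `z_j = ζ |u|^{-(j+1)}` -/
def zz (m : Submodule ℝ 𝔸) (Q : 𝔸 →ₗ[ℝ] 𝔸 →ₗ[ℝ] ℝ) (ζ : m → ℝ) (j : ℕ) (z : m) : ℝ :=
  ζ z * ((√(BN m Q z z))⁻¹) ^ (j + 1)

theorem zz_smooth (hN : NData g h m Q P) {ζ : m → ℝ} (hζ : ContDiffOn ℝ ∞ ζ {0}ᶜ) (j : ℕ) :
    ContDiffOn ℝ ∞ (zz m Q ζ j) {0}ᶜ := by
  have h1 : ContDiffOn ℝ ∞ (fun z : m => √(BN m Q z z)) {0}ᶜ :=
    BNsq_smooth.sqrt fun z hz => (BN_pos hN z hz).ne'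
  have h2 : ContDiffOn ℝ ∞ (fun z : m => (√(BN m Q z z))⁻¹) {0}ᶜ :=
    h1.inv fun z hz => (Real.sqrt_pos.2 (BN_pos hN z hz)).ne'
  exact hζ.mul (h2.pow (j + 1))

theorem zz_unit (hF : Flag Q u b) (ζ : m → ℝ) (j : ℕ) : zz m Q ζ j u = ζ u := by
  unfold zz
  rw [BN_apply, hF.1]; simp

/-- `G_j = z_j F_j` -/
def GG (m : Submodule ℝ 𝔸) (Q : 𝔸 →ₗ[ℝ] 𝔸 →ₗ[ℝ] ℝ) (P : 𝔸 →L[ℝ] m) (h0 : 𝔸) (B : m → 𝔸)
    (v ζ : m → ℝ) (j : ℕ) (z : m) : ℝ :=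
  zz m Q ζ j z * FG Q P h0 B v j z

/-- the coefficient of `G_j` -/
def LG (m : Submodule ℝ 𝔸) (Q : 𝔸 →ₗ[ℝ] 𝔸 →ₗ[ℝ] ℝ) (P : 𝔸 →L[ℝ] m) (h0 : 𝔸)
    (v ζ : m → ℝ) (j : ℕ) (z : m) : 𝔸 →L[ℝ] ℝ :=
  zz m Q ζ j z • AG Q P h0 v j z

theorem BLin_smul (hs : ContDiffOn ℝ ∞ s {0}ᶜ) (hF : BLin B F Λ) :
    BLin B (fun z => s z * F z) (fun z => s z • Λ z) := by
  refine ⟨hs.smul hF.sm, fun z hz => ?_⟩
  rw [hF.eq z hz]; simp

theorem LamE_smul (hs : ContDiffOn ℝ ∞ s {0}ᶜ) (hΛ : ContDiffOn ℝ ∞ Λ {0}ᶜ) (hu : u ≠ 0)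
    (Y : 𝔸) : LamE Q P v (fun z => s z • Λ z) u Y =
      D1 s u (ef Q P v u) * Λ u Y + s u * LamE Q P v Λ u Y := by
  have h1 : HasFDerivAt (fun z => s z • Λ z) _ u :=
    (dAt hs hu).hasFDerivAt.smul (dAt hΛ hu).hasFDerivAt
  rw [LamE_apply, LamE_apply, h1.fderiv]
  simp only [ContinuousLinearMap.add_apply, ContinuousLinearMap.smul_apply,
    ContinuousLinearMap.smulRight_apply, smul_eq_mul, D1]
  ring

theorem BLin_GG (hN : NData g h m Q P) (hC : Cas g h m Q P h0 B c) (hv : PhiN h m P v)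
    {ζ : m → ℝ} (hζ : ContDiffOn ℝ ∞ ζ {0}ᶜ) (j : ℕ) :
    BLin B (GG m Q P h0 B v ζ j) (LG m Q P h0 v ζ j) :=
  BLin_smul (zz_smooth hN hζ j) (BLin_FG hN hC hv j)

theorem GG_hom (hN : NData g h m Q P) (hC : Cas g h m Q P h0 B c) (hv : PhiN h m P v)
    {ζ : m → ℝ} (hζ : Inv0 H ζ) (j : ℕ) (r : ℝ) (z : m) :
    GG m Q P h0 B v ζ j (r • z) ^ 2 = r ^ 2 * GG m Q P h0 B v ζ j z ^ 2 := by
  rcases eq_or_ne r 0 with hr | hr
  · rw [hr, zero_smul]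
    have h1 : BN m Q (0 : m) (0 : m) = 0 := by simp
    unfold GG zz
    rw [h1]
    simp
  · unfold GG zz
    rw [FG_hom hN hC hv j hr, hζ.hom r z hr]
    have h2 : √(BN m Q (r • z) (r • z)) = |r| * √(BN m Q z z) := by
      have h3 : BN m Q (r • z) (r • z) = r ^ 2 * BN m Q z z := by
        rw [BN_apply, BN_apply]
        simp only [Submodule.coe_smul, map_smul, LinearMap.smul_apply, smul_eq_mul]
        ring
      rw [h3, Real.sqrt_mul (sq_nonneg r), Real.sqrt_sq_eq_abs]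
    rw [h2]
    have h4 : |r| ^ 2 = r ^ 2 := sq_abs r
    have hr' : |r| ≠ 0 := abs_ne_zero.2 hr
    obtain ⟨y, hy⟩ : ∃ y, y = (√(BN m Q z z))⁻¹ := ⟨_, rfl⟩
    obtain ⟨x, hx⟩ : ∃ x, x = FG Q P h0 B v j z := ⟨_, rfl⟩
    rw [mul_inv, ← hy, ← hx]
    have h5 : (ζ z * (|r|⁻¹ * y) ^ (j + 1) * (r ^ (j + 2) * x)) ^ 2 =
        (ζ z * y ^ (j + 1) * x) ^ 2 * ((|r| ^ 2)⁻¹ ^ (j + 1) * (r ^ 2) ^ (j + 2)) := by
      rw [← inv_pow]
      ring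
    have h6 : ((r ^ 2)⁻¹) ^ (j + 1) * (r ^ 2) ^ (j + 2) = r ^ 2 := by
      rw [pow_succ (r ^ 2) (j + 1), ← mul_assoc, ← mul_pow,
        inv_mul_cancel₀ (pow_ne_zero 2 hr), one_pow, one_mul]
    rw [h5, h4, h6]
    ring

theorem GG_inv (hN : NData g h m Q P) (hC : Cas g h m Q P h0 B c) (hG : GrpD H h m Q h0 B c)
    (hv : PhiN h m P v) (hvH : InvH H v) {ζ : m → ℝ} (hζ : Inv0 H ζ) (j : ℕ) :
    InvH H (GG m Q P h0 B v ζ j) := by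
  intro k hk u u' huu
  unfold GG zz
  rw [FG_inv hN hC hG hv hvH j k hk u u' huu, hζ.inv k hk u u' huu, BN_apply, BN_apply, huu,
    hG.Qm k hk u u.2]

/-- the new function -/
def vK (m : Submodule ℝ 𝔸) (Q : 𝔸 →ₗ[ℝ] 𝔸 →ₗ[ℝ] ℝ) (P : 𝔸 →L[ℝ] m) (h0 : 𝔸) (B : m → 𝔸)
    (v ζ : m → ℝ) (κ : ℕ → ℝ) (J : ℕ) (z : m) : ℝ :=
  v z + ∑ j ∈ Finset.range J, κ j * GG m Q P h0 B v ζ j z ^ 2

theorem vK_phi (hN : NData g h m Q P) (hC : Cas g h m Q P h0 B c) (hG : GrpD H h m Q h0 B c)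
    (hv : PhiN h m P v) (hvH : InvH H v) {ζ : m → ℝ} (hζ : Inv0 H ζ) (κ : ℕ → ℝ) (J : ℕ) :
    PhiN h m P (vK m Q P h0 B v ζ κ J) ∧ InvH H (vK m Q P h0 B v ζ κ J) := by
  have h1 : ∀ j, InvH H (fun z => κ j * GG m Q P h0 B v ζ j z ^ 2) := fun j k hk u u' huu => by
    simp only [GG_inv hN hC hG hv hvH hζ j k hk u u' huu]
  have h2 : ∀ j, PhiN h m P (fun z => κ j * GG m Q P h0 B v ζ j z ^ 2) := fun j => by
    have h3 := sq_smooth (κ j) ((BLin_GG hN hC hv hζ.smooth j).smooth hC)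
    exact ⟨h3, fun r z => by rw [GG_hom hN hC hv hζ j r z]; ring, inv_of_InvH hN hG h3 (h1 j)⟩
  exact ⟨phiN_add hv (phiN_sum _ fun j _ => h2 j), invH_add hvH (invH_sum _ fun j _ => h1 j)⟩

theorem vK_near {ζ : m → ℝ} (κ : ℕ → ℝ) (J : ℕ) (h : ζ =ᶠ[𝓝 u] fun _ => 0) :
    vK m Q P h0 B v ζ κ J =ᶠ[𝓝 u] v := by
  filter_upwards [h] with z hz
  unfold vK GG zz
  rw [hz]
  simp

/-- at the walls the first derivatives are unchanged -/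
theorem vK_D1 (hN : NData g h m Q P) (hC : Cas g h m Q P h0 B c) (hv : PhiN h m P v)
    {ζ : m → ℝ} (hζ : ContDiffOn ℝ ∞ ζ {0}ᶜ) (κ : ℕ → ℝ) (J : ℕ) (hFl : Flag Q u b)
    (hw : Q (B u) b = 0) (a : m) : D1 (vK m Q P h0 B v ζ κ J) u a = D1 v u a := by
  have hu := hFl.ne hN
  have h1 : ∀ j, ContDiffOn ℝ ∞ (fun z => κ j * GG m Q P h0 B v ζ j z ^ 2) {0}ᶜ := fun j =>
    sq_smooth (κ j) ((BLin_GG hN hC hv hζ j).smooth hC)
  have h2 : ∀ n, ContDiffOn ℝ ∞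
      (fun z => ∑ j ∈ Finset.range n, κ j * GG m Q P h0 B v ζ j z ^ 2) {0}ᶜ := fun n =>
    ContDiffOn.sum fun j _ => h1 j
  have h3 : ∀ n, D1 (fun z => ∑ j ∈ Finset.range n, κ j * GG m Q P h0 B v ζ j z ^ 2) u a = 0 := by
    intro n
    induction n with
    | zero => simp [D1]
    | succ n ih =>
      have h4 : (fun z => ∑ j ∈ Finset.range (n + 1), κ j * GG m Q P h0 B v ζ j z ^ 2) =
          fun z => (∑ j ∈ Finset.range n, κ j * GG m Q P h0 B v ζ j z ^ 2) +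
            κ n * GG m Q P h0 B v ζ n z ^ 2 := funext fun z => Finset.sum_range_succ _ _
      rw [h4, D1_sum (h2 n) (h1 n) hu, ih,
        sq_D1 _ ((BLin_GG hN hC hv hζ n).smooth hC) hu,
        (BLin_GG hN hC hv hζ n).wall0 hN hC hFl hw]
      ring
  have h5 : vK m Q P h0 B v ζ κ J =
      fun z => v z + ∑ j ∈ Finset.range J, κ j * GG m Q P h0 B v ζ j z ^ 2 := rfl
  rw [h5, D1_sum hv.smooth (h2 J) hu, h3, add_zero]

theorem vK_al (hN : NData g h m Q P) (hC : Cas g h m Q P h0 B c) (hv : PhiN h m P v)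
    {ζ : m → ℝ} (hζ : ContDiffOn ℝ ∞ ζ {0}ᶜ) (κ : ℕ → ℝ) (J : ℕ) (hFl : Flag Q u b)
    (hw : Q (B u) b = 0) : al P h0 (vK m Q P h0 B v ζ κ J) u b = al P h0 v u b :=
  vK_D1 hN hC hv hζ κ J hFl hw _

theorem vK_gx (hN : NData g h m Q P) (hC : Cas g h m Q P h0 B c) (hv : PhiN h m P v)
    {ζ : m → ℝ} (hζ : ContDiffOn ℝ ∞ ζ {0}ᶜ) (κ : ℕ → ℝ) (J : ℕ) (hFl : Flag Q u b)
    (hw : Q (B u) b = 0) : gx Q (vK m Q P h0 B v ζ κ J) u = gx Q v u := by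
  refine rep_unique hN fun w => ?_
  rw [gx_spec hN, gx_spec hN, vK_D1 hN hC hv hζ κ J hFl hw]

/-- at the walls, where the towers vanish, the second derivatives in the direction `b` are
unchanged -/
theorem vK_D2 (hN : NData g h m Q P) (hC : Cas g h m Q P h0 B c) (hW : CasW Q B c)
    (hv : PhiN h m P v) {ζ : m → ℝ} (hζ : ContDiffOn ℝ ∞ ζ {0}ᶜ) (κ : ℕ → ℝ) (J : ℕ)
    (hFl : Flag Q u b) (hw : Q (B u) b = 0)
    (hA : ∀ j < J, zz m Q ζ j u = 0 ∨ AG Q P h0 v j u (b : 𝔸) = 0) (a : m) :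
    D2 (vK m Q P h0 B v ζ κ J) u b a = D2 v u b a := by
  have hu := hFl.ne hN
  have h1 : ∀ j, ContDiffOn ℝ ∞ (fun z => κ j * GG m Q P h0 B v ζ j z ^ 2) {0}ᶜ := fun j =>
    sq_smooth (κ j) ((BLin_GG hN hC hv hζ j).smooth hC)
  have h2 : ∀ n, ContDiffOn ℝ ∞
      (fun z => ∑ j ∈ Finset.range n, κ j * GG m Q P h0 B v ζ j z ^ 2) {0}ᶜ := fun n =>
    ContDiffOn.sum fun j _ => h1 j
  have h3 : ∀ n ≤ J,
      D2 (fun z => ∑ j ∈ Finset.range n, κ j * GG m Q P h0 B v ζ j z ^ 2) u b a = 0 := by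
    intro n
    induction n with
    | zero =>
      intro _
      simp [D2, D1]
    | succ n ih =>
      intro hn
      have h4 : (fun z => ∑ j ∈ Finset.range (n + 1), κ j * GG m Q P h0 B v ζ j z ^ 2) =
          fun z => (∑ j ∈ Finset.range n, κ j * GG m Q P h0 B v ζ j z ^ 2) +
            κ n * GG m Q P h0 B v ζ n z ^ 2 := funext fun z => Finset.sum_range_succ _ _
      have h6 : D1 (GG m Q P h0 B v ζ n) u b = 0 := by
        rw [(BLin_GG hN hC hv hζ n).wallb hN hC hW hFl hw]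
        unfold LG
        rcases hA n (by omega) with h7 | h7
        · rw [h7]; simp
        · simp [h7]
      rw [h4, D2_sum (h2 n) (h1 n) hu, ih (by omega),
        sq_D2 _ ((BLin_GG hN hC hv hζ n).smooth hC) hu,
        (BLin_GG hN hC hv hζ n).wall0 hN hC hFl hw, h6]
      ring
  have h5 : vK m Q P h0 B v ζ κ J =
      fun z => v z + ∑ j ∈ Finset.range J, κ j * GG m Q P h0 B v ζ j z ^ 2 := rfl
  rw [h5, D2_sum hv.smooth (h2 J) hu, h3 J le_rfl, add_zero]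

/-! ### the theorem -/

/-- the terms -/
def tt (m : Submodule ℝ 𝔸) (Q : 𝔸 →ₗ[ℝ] 𝔸 →ₗ[ℝ] ℝ) (P : 𝔸 →L[ℝ] m) (h0 : 𝔸)
    (v ζ : m → ℝ) (j : ℕ) (p : m × m) : ℝ :=
  LamE Q P v (LG m Q P h0 v ζ j) p.1 (p.2 : 𝔸) ^ 2 +
    LG m Q P h0 v ζ j p.1 (p.2 : 𝔸) *
      LamE Q P v (LamE Q P v (LG m Q P h0 v ζ j)) p.1 (p.2 : 𝔸)

theorem clm_cont {Λ : m → 𝔸 →L[ℝ] ℝ} (hΛ : ContDiffOn ℝ ∞ Λ {0}ᶜ) {S : Set (m × m)}
    (hS : ∀ p ∈ S, p.1 ≠ 0) : ContinuousOn (fun p : m × m => Λ p.1 (p.2 : 𝔸)) S :=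
  (cont_fst hΛ hS).clm_apply (continuous_subtype_val.comp continuous_snd).continuousOn

/-- **KW** -/
theorem kw (hN : NData g h m Q P) (hC : Cas g h m Q P h0 B c) (hG : GrpD H h m Q h0 B c)
    (hW : CasW Q B c) (hv : PhiN h m P v) (hvH : InvH H v) {ζ : m → ℝ} (hζ : Inv0 H ζ) (J : ℕ)
    (hyp : ∀ u b : m, Flag Q u b → Q (B u) b = 0 → al P h0 v u b = 0 →
      0 < T3F Q P v u b ∨ (ζ u ≠ 0 ∧ ∃ j, 1 ≤ j ∧ j ≤ J ∧ AG Q P h0 v j u (b : 𝔸) ≠ 0)) :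
    ∃ κ : ℕ → ℝ, (∀ j, κ j < 0) ∧ ∀ u b : m, Flag Q u b → Q (B u) b = 0 →
      al P h0 v u b = 0 → 0 < T3F Q P (vK m Q P h0 B v ζ κ J) u b := by
  have hS : ∀ p ∈ (FlagSet Q : Set (m × m)), p.1 ≠ 0 := fun p hp => flag_ne hN hp
  obtain ⟨K0, hK0d⟩ : ∃ K0 : Set (m × m), K0 = (FlagSet Q : Set (m × m)) ∩
      (fun p : m × m => al P h0 v p.1 p.2) ⁻¹' {0} := ⟨_, rfl⟩
  have hK0 : IsCompact K0 := by
    rw [hK0d]
    exact compact_sub hN (al_cont (P := P) (h0 := h0) hv.smooth hS) isClosed_singleton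
  have hS0 : ∀ p ∈ K0, p.1 ≠ 0 := fun p hp => hS p (by rw [hK0d] at hp; exact hp.1)
  obtain ⟨K1, hK1d⟩ : ∃ K1 : Set (m × m), K1 = K0 ∩
      (fun p : m × m => Q (B p.1) p.2) ⁻¹' {0} := ⟨_, rfl⟩
  have hK1 : IsCompact K1 := by
    rw [hK1d]
    exact hK0.of_isClosed_subset ((w_cont hC hS0).preimage_isClosed_of_isClosed
      hK0.isClosed isClosed_singleton) Set.inter_subset_left
  have hS1 : ∀ p ∈ K1, p.1 ≠ 0 := fun p hp => hS0 p (by rw [hK1d] at hp; exact hp.1)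
  have hm0 : ∀ u b : m, (u, b) ∈ K0 ↔ Flag Q u b ∧ al P h0 v u b = 0 := by
    intro u b; rw [hK0d]; exact Iff.rfl
  have hm1 : ∀ u b : m, (u, b) ∈ K1 ↔ (u, b) ∈ K0 ∧ Q (B u) b = 0 := by
    intro u b; rw [hK1d]; exact Iff.rfl
  have hLG : ∀ j, ContDiffOn ℝ ∞ (LG m Q P h0 v ζ j) {0}ᶜ := fun j =>
    (BLin_GG (B := B) hN hC hv hζ.smooth j).sm
  have hAG : ∀ j, ContDiffOn ℝ ∞ (AG Q P h0 v j) {0}ᶜ := fun j =>
    (BLin_FG (B := B) hN hC hv j).sm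
  have htc : ∀ j, ContinuousOn (tt m Q P h0 v ζ j) K1 := fun j =>
    ((clm_cont (LamE_smooth hN hv.smooth (hLG j)) hS1).pow 2).add
      ((clm_cont (hLG j) hS1).mul
        (clm_cont (LamE_smooth hN hv.smooth (LamE_smooth hN hv.smooth (hLG j))) hS1))
  have hAc : ∀ j, ContinuousOn (fun p : m × m => AG Q P h0 v j p.1 (p.2 : 𝔸)) K1 := fun j =>
    clm_cont (hAG j) hS1
  have hqc : ∀ j, ContinuousOn
      (fun p : m × m => zz m Q ζ j p.1 * AG Q P h0 v (j + 1) p.1 (p.2 : 𝔸)) K1 := fun j =>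
    (cont_fst (zz_smooth hN hζ.smooth j) hS1).mul (hAc (j + 1))
  have hE : ∀ (j : ℕ) (u : m) (_ : u ≠ 0) (Y : 𝔸), LamE Q P v (LG m Q P h0 v ζ j) u Y =
      D1 (zz m Q ζ j) u (ef Q P v u) * AG Q P h0 v j u Y +
        zz m Q ζ j u * AG Q P h0 v (j + 1) u Y := fun j u hu Y =>
    LamE_smul (zz_smooth hN hζ.smooth j) (hAG j) hu Y
  obtain ⟨C, hC0, hCp⟩ := K3 hK1 (T := fun p : m × m => T3F Q P v p.1 p.2)
    (z := fun p : m × m => ζ p.1) (t := fun j => tt m Q P h0 v ζ j)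
    (q := fun j p => zz m Q ζ j p.1 * AG Q P h0 v (j + 1) p.1 (p.2 : 𝔸))
    (A := fun j p => AG Q P h0 v j p.1 (p.2 : 𝔸)) (J := J)
    (T3F_cont hN hv.smooth hS1) htc hqc hAc (by
      rintro ⟨u, b⟩ hp
      have ha := ((hm0 u b).1 ((hm1 u b).1 hp).1).2
      change LamW P h0 v u (b : 𝔸) = 0
      rw [LamW_apply]; exact ha) (by
      rintro j hj ⟨u, b⟩ hp hA
      have hu : u ≠ 0 := hS1 _ hp
      have h0j : AG Q P h0 v j u (b : 𝔸) = 0 := hA j le_rfl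
      have h1 : LG m Q P h0 v ζ j u (b : 𝔸) = 0 := by
        unfold LG; simp [h0j]
      change LamE Q P v (LG m Q P h0 v ζ j) u (b : 𝔸) ^ 2 +
        LG m Q P h0 v ζ j u (b : 𝔸) * _ = (zz m Q ζ j u * AG Q P h0 v (j + 1) u (b : 𝔸)) ^ 2
      rw [h1, hE j u hu, h0j]
      ring) (by
      rintro j hj ⟨u, b⟩ hp hq
      have hFl := ((hm0 u b).1 ((hm1 u b).1 hp).1).1
      change zz m Q ζ j u * AG Q P h0 v (j + 1) u (b : 𝔸) = 0 at hq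
      rw [zz_unit hFl] at hq
      exact mul_eq_zero.1 hq) (by
      rintro j hj ⟨u, b⟩ hp hz
      have hFl := ((hm0 u b).1 ((hm1 u b).1 hp).1).1
      have h1 : LG m Q P h0 v ζ j u (b : 𝔸) = 0 := by
        unfold LG
        rw [zz_unit hFl]
        change ζ u = 0 at hz
        rw [hz]; simp
      change 0 ≤ LamE Q P v (LG m Q P h0 v ζ j) u (b : 𝔸) ^ 2 +
        LG m Q P h0 v ζ j u (b : 𝔸) * _
      rw [h1, zero_mul, add_zero]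
      exact sq_nonneg _) (by
      rintro ⟨u, b⟩ hp
      obtain ⟨hp0, hw⟩ := (hm1 u b).1 hp
      obtain ⟨hFl, ha⟩ := (hm0 u b).1 hp0
      rcases hyp u b hFl hw ha with h5 | ⟨h5, j, h6, h7, h8⟩
      · exact Or.inl h5
      · exact Or.inr ⟨h5, j, h6, h7, h8⟩)
  refine ⟨fun j => -(C j) / 32, fun j => by have := hC0 j; linarith, fun u b hFl hw ha => ?_⟩
  have h4 := hCp (u, b) ((hm1 u b).2 ⟨(hm0 u b).2 ⟨hFl, ha⟩, hw⟩)
  have h5 := (vK_phi hN hC hG hv hvH hζ (fun j => -(C j) / 32) J).1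
  have h6 := K1_BLin hN hC hW hv hFl hw ha (Finset.range J) (fun j => -(C j) / 32)
    (F := fun j => GG m Q P h0 B v ζ j) (Λ := fun j => LG m Q P h0 v ζ j)
    (fun j _ => BLin_GG hN hC hv hζ.smooth j) h5
  have h7 : T3F Q P (vK m Q P h0 B v ζ (fun j => -(C j) / 32) J) u b =
      T3F Q P v u b + ∑ j ∈ Finset.range J, C j * tt m Q P h0 v ζ j (u, b) := by
    refine h6.trans ?_
    congr 1
    refine Finset.sum_congr rfl fun j _ => ?_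
    unfold tt
    ring
  rw [h7]
  exact h4

end Pool.Agent.FL.KW
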