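import Pool.Agent.FL.S1Hub
import Pool.Agent.FL.CasWSp
import Pool.Agent.FL.KW

/-!
# MP_f09395_gt, space (1): kinks at the walls
-/

set_option linter.unusedSectionVars false

noncomputable section

namespace Pool.Agent.FL.S1

open scoped ContDiff Quaternion Matrix ComplexConjugate
open Pool.Agent.Helper93.Fin Pool.Agent.helper79.FP Pool.Agent.helper79.FR
open Pool.Agent.helper79.FR.Sp2 (Mat QQ h0 m gg hh PP BB cc)
open Pool.Agent.FL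
open Pool.Agent.FL.Wall (ef EE LamE LamW)
open Filter Topology

attribute [local instance] Matrix.linftyOpNormedRing Matrix.linftyOpNormedAlgebra

theorem Aj_eq (v : V → ℝ) (j : ℕ) : Aj v j = KW.AG QQ (PP 1 3) (h0 1 3) v j := by
  induction j with
  | zero => rfl
  | succ j ih =>
    change LamE QQ (PP 1 3) v (Aj v j) = LamE QQ (PP 1 3) v (KW.AG QQ (PP 1 3) (h0 1 3) v j)
    rw [ih]

theorem KW {v ζ : V → ℝ} (hv : Ph v) (hζ : I0 ζ) (hζ0 : ∀ u, 0 ≤ ζ u)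
    (h : ∀ u b, Wl u b → alf v u b = 0 → 0 < T3 v u b ∨
      (0 < ζ u ∧ ∃ j, 1 ≤ j ∧ j < NT ∧ Aj v j u (b : Mat) ≠ 0)) :
    ∃ v' : V → ℝ, Ph v' ∧ (∀ u, u ≠ 0 → (ζ =ᶠ[𝓝 u] fun _ => 0) → v' =ᶠ[𝓝 u] v) ∧
      (∀ u b, Wl u b → alf v' u b = 0 → 0 < T3 v' u b) ∧
      (∀ u b, Wl u b → eu v' u = eu v u ∧ alf v' u b = alf v u b) ∧
      (∀ u b, Wl u b → (∀ j < NT, Aj v j u (b : Mat) = 0) → alf' v' u b = alf' v u b) := by
  obtain ⟨κ, -, hκ⟩ := KW.kw nD cD gD (Wall.casW (a := 1) (b := 3)) hv.phi hv.inv hζ NT (fun u b hF hw ha => by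
    rcases h u b ⟨hF, hw⟩ ha with h1 | ⟨h1, j, h2, h3, h4⟩
    · exact Or.inl h1
    · exact Or.inr ⟨h1.ne', j, h2, h3.le, by rw [← Aj_eq]; exact h4⟩)
  obtain ⟨p1, p2⟩ := KW.vK_phi nD cD gD hv.phi hv.inv hζ κ NT
  have hal : ∀ u b, Wl u b → alf (KW.vK (m 1 3) QQ (PP 1 3) (h0 1 3) (BB 1 3) v ζ κ NT) u b =
      alf v u b := fun u b hW => KW.vK_al nD cD hv.phi hζ.smooth κ NT hW.1 hW.2
  refine ⟨_, ⟨p1, p2⟩, fun u _ hz => KW.vK_near κ NT hz, fun u b hW ha => ?_, fun u b hW => ?_,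
    fun u b hW hA => ?_⟩
  · exact hκ u b hW.1 hW.2 ((hal u b hW).symm.trans ha)
  · refine ⟨?_, hal u b hW⟩
    unfold eu ef
    rw [KW.vK_gx nD cD hv.phi hζ.smooth κ NT hW.1 hW.2]
  · exact KW.vK_D2 nD cD (Wall.casW (a := 1) (b := 3)) hv.phi hζ.smooth κ NT hW.1 hW.2
      (fun j hj => Or.inr (by rw [← Aj_eq]; exact hA j hj)) _

end Pool.Agent.FL.S1
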