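import Pool.Agent.FL.S1WallC
import Pool.Agent.FL.S1I1
import Pool.Agent.FL.S1Spec
import Pool.Agent.FL.S1S7
import Pool.Agent.FL.S1G1
import Pool.Agent.FL.S1G2
import Pool.Agent.FL.S1G3
import Pool.Agent.FL.S1G4
import Pool.Agent.FL.S1KW

/-!
# MP_f09395_gt, space (1): the wall step
-/

noncomputable section

namespace Pool.Agent.FL.S1

theorem wall_step {ve ρ : V → ℝ} {κ : ℝ} (E : EXPL ve ρ κ) : ∃ v1, W1 ve ρ v1 :=
  wall_core E fam_Ph SPEC (fun hv _ _ h ha he j => S7o hv h ha he j) G1 G2 G3 G4 KW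

end Pool.Agent.FL.S1
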