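import Mathlib

/-!
# MP_f09395_gt, team FL: the kink lemma with control of the loss (copy of Pool.Agent.FL.Kink in a
namespace of its own, so that it can be used beside Pool.Agent.FL.KinkC)

`T` is a continuous function on a compact set `K`; the `i`-th kink adds
`C i * d i * (ζ * (d i)² (g' i)² / sqrt ((d i)² + (g i)²)³ - M i)`.
If on `{T ≤ t0}` the function `g i` vanishes as soon as `g' 0, ..., g' (i-1)` vanish, and if the
functions `g' i`, `i < r`, have no common zero on `{T ≤ 0}`, then suitable constants make the sum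
positive on `K`, and the total loss is as small as we like.
-/

noncomputable section

namespace Pool.Agent.FL.S1ZK

open Filter Topology

variable {X : Type*} [TopologicalSpace X]

/-- the contribution of one kink -/
def kinkTerm (C d M : ℝ) (ζ g g' : ℝ) : ℝ :=
  C * d * (ζ * (d ^ 2 * g' ^ 2 / Real.sqrt (d ^ 2 + g ^ 2) ^ 3) - M)

theorem kinkTerm_ge {C d M ζ g g' : ℝ} (hC : 0 < C) (hd : 0 < d) (hζ : 0 ≤ ζ) :
    -(C * d * M) ≤ kinkTerm C d M ζ g g' := by
  unfold kinkTerm
  have h1 : 0 ≤ ζ * (d ^ 2 * g' ^ 2 / Real.sqrt (d ^ 2 + g ^ 2) ^ 3) := by positivity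
  have h2 : 0 < C * d := mul_pos hC hd
  nlinarith [mul_nonneg h2.le h1]

theorem kinkTerm_zero {C d M g' : ℝ} (hd : 0 < d) :
    kinkTerm C d M 1 0 g' = C * g' ^ 2 - C * d * M := by
  unfold kinkTerm
  have h1 : Real.sqrt (d ^ 2 + 0 ^ 2) = d := by
    rw [zero_pow two_ne_zero, add_zero, Real.sqrt_sq hd.le]
  rw [h1]
  field_simp

theorem kinkTerm_cont {K : Set X} {C d M : ℝ} (hd : 0 < d) {ζ g g' : X → ℝ}
    (hζ : ContinuousOn ζ K) (hg : ContinuousOn g K) (hg' : ContinuousOn g' K) :
    ContinuousOn (fun p => kinkTerm C d M (ζ p) (g p) (g' p)) K := by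
  unfold kinkTerm
  refine continuousOn_const.mul ((hζ.mul ((continuousOn_const.mul (hg'.pow 2)).div
    ((Real.continuous_sqrt.comp_continuousOn (continuousOn_const.add (hg.pow 2))).pow 3)
    fun p _ => ?_)).sub continuousOn_const)
  have h1 : 0 < d ^ 2 := pow_pos hd 2
  have h2 : 0 ≤ g p ^ 2 := sq_nonneg _
  exact pow_ne_zero _ (Real.sqrt_ne_zero'.2 (show 0 < d ^ 2 + g p ^ 2 by linarith))

/-- compactness: a function which is positive on the zeros of `q ≥ 0` becomes positive after
adding a large multiple of `q` -/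
theorem exists_large {K : Set X} (hK : IsCompact K) {T q : X → ℝ} (hT : ContinuousOn T K)
    (hq : ContinuousOn q K) (hq0 : ∀ p ∈ K, 0 ≤ q p) (h : ∀ p ∈ K, q p = 0 → 0 < T p) :
    ∃ C : ℝ, 0 < C ∧ ∃ μ : ℝ, 0 < μ ∧ ∀ p ∈ K, μ ≤ T p + C * q p := by
  obtain ⟨B, hB⟩ : ∃ B : ℝ, ∀ p ∈ K, -B ≤ T p := by
    obtain ⟨B, hB⟩ := (hK.image_of_continuousOn hT).bddBelow
    exact ⟨-B, fun p hp => by rw [neg_neg]; exact hB ⟨p, hp, rfl⟩⟩
  -- the set where `T ≤ 0`
  have hS : IsCompact (K ∩ T ⁻¹' Set.Iic 0) := by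
    obtain ⟨u, hu, hu2⟩ := (continuousOn_iff_isClosed.1 hT) (Set.Iic 0) isClosed_Iic
    have : K ∩ T ⁻¹' Set.Iic 0 = K ∩ u := by
      rw [Set.inter_comm, hu2, Set.inter_comm]
    rw [this]
    exact hK.inter_right hu
  have hq' : ContinuousOn q (K ∩ T ⁻¹' Set.Iic 0) := hq.mono Set.inter_subset_left
  obtain ⟨γ, hγ, hγ2⟩ : ∃ γ : ℝ, 0 < γ ∧ ∀ p ∈ K, T p ≤ 0 → γ ≤ q p := by
    rcases (K ∩ T ⁻¹' Set.Iic 0).eq_empty_or_nonempty with he | hne
    · refine ⟨1, one_pos, fun p hp hp2 => ?_⟩
      have : p ∈ K ∩ T ⁻¹' Set.Iic 0 := ⟨hp, hp2⟩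
      rw [he] at this
      exact absurd this (Set.notMem_empty p)
    · obtain ⟨p0, hp0, hmin⟩ := hS.exists_isMinOn hne hq'
      refine ⟨q p0, ?_, fun p hp hp2 => hmin (show p ∈ K ∩ T ⁻¹' Set.Iic 0 from ⟨hp, hp2⟩)⟩
      refine lt_of_le_of_ne (hq0 p0 hp0.1) fun he => ?_
      exact absurd (h p0 hp0.1 he.symm) (not_lt.2 hp0.2)
  refine ⟨(|B| + 1) / γ, by positivity, ?_⟩
  have hpos : ∀ p ∈ K, 0 < T p + (|B| + 1) / γ * q p := by
    intro p hp
    by_cases hp2 : T p ≤ 0
    · have h1 := hγ2 p hp hp2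
      have h2 : |B| + 1 ≤ (|B| + 1) / γ * q p := by
        rw [div_mul_eq_mul_div, le_div_iff₀ hγ]
        exact mul_le_mul_of_nonneg_left h1 (by positivity)
      have h3 := hB p hp
      have h4 := le_abs_self B
      linarith
    · have h1 : 0 ≤ (|B| + 1) / γ * q p := mul_nonneg (by positivity) (hq0 p hp)
      linarith
  rcases K.eq_empty_or_nonempty with he | hne
  · refine ⟨1, one_pos, fun p hp => ?_⟩
    rw [he] at hp
    exact absurd hp (Set.notMem_empty p)
  · obtain ⟨p0, hp0, hmin⟩ := hK.exists_isMinOn hne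
      (hT.add (continuousOn_const.mul hq) : ContinuousOn (fun p => T p + (|B| + 1) / γ * q p) K)
    exact ⟨_, hpos p0 hp0, fun p hp => hmin hp⟩

/-- **Kink lemma** -/
theorem kink {K : Set X} (hK : IsCompact K) (r : ℕ) {T ζ : X → ℝ} {g g' : ℕ → X → ℝ} {M : ℕ → ℝ}
    {t0 : ℝ} (ht0 : 0 < t0) (hT : ContinuousOn T K) (hζ : ContinuousOn ζ K)
    (hg : ∀ i < r, ContinuousOn (g i) K) (hg' : ∀ i < r, ContinuousOn (g' i) K)
    (hζ0 : ∀ p ∈ K, 0 ≤ ζ p) (hζ1 : ∀ p ∈ K, T p ≤ t0 → ζ p = 1)
    (hM : ∀ i < r, 0 ≤ M i)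
    (hz : ∀ i < r, ∀ p ∈ K, T p ≤ t0 → (∀ j < i, g' j p = 0) → g i p = 0)
    (hend : ∀ p ∈ K, T p ≤ 0 → ∃ i < r, g' i p ≠ 0) {ε : ℝ} (hε : 0 < ε) :
    ∃ C d : ℕ → ℝ, (∀ i, 0 < C i) ∧ (∀ i, 0 < d i) ∧ (∀ i, d i ≤ ε) ∧
      (∀ i < r, C i * d i * M i ≤ ε) ∧
      ∀ p ∈ K, 0 < T p + ∑ i ∈ Finset.range r, kinkTerm (C i) (d i) (M i) (ζ p) (g i p) (g' i p) := by
  -- the loss allowed for one kink
  obtain ⟨ε', hε', hε1, hε2⟩ : ∃ ε' : ℝ, 0 < ε' ∧ ε' ≤ ε ∧ (r : ℝ) * ε' < t0 := by
    refine ⟨min ε (t0 / (r + 1)), lt_min hε (by positivity), min_le_left _ _, ?_⟩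
    have h1 : min ε (t0 / (r + 1)) ≤ t0 / (r + 1) := min_le_right _ _
    have h2 : (r : ℝ) * (t0 / (r + 1)) < t0 := by
      rw [mul_div_assoc', div_lt_iff₀ (by positivity)]
      nlinarith
    exact lt_of_le_of_lt (mul_le_mul_of_nonneg_left h1 (Nat.cast_nonneg r)) h2
  -- downward induction
  have main : ∀ k, k ≤ r → ∃ C d : ℕ → ℝ, (∀ i, 0 < C i) ∧ (∀ i, 0 < d i) ∧ (∀ i, d i ≤ ε) ∧
      (∀ i < r, C i * d i * M i ≤ ε') ∧
      ∀ p ∈ K, T p ≤ t0 → (∀ j < r - k, g' j p = 0) →
        0 < T p + ∑ i ∈ Finset.Ico (r - k) r,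
          kinkTerm (C i) (d i) (M i) (ζ p) (g i p) (g' i p) := by
    intro k
    induction k with
    | zero =>
      intro _
      -- here all `g' j`, `j < r`, vanish, so `T > 0`
      refine ⟨fun _ => 1, fun i => min ε (ε' / (|M i| + 1)), fun _ => one_pos,
        fun i => lt_min hε (by positivity), fun i => min_le_left _ _, fun i hi => ?_,
        fun p hp _ hj => ?_⟩
      · rw [one_mul]
        have h1 : min ε (ε' / (|M i| + 1)) ≤ ε' / (|M i| + 1) := min_le_right _ _
        have h2 : ε' / (|M i| + 1) * M i ≤ ε' := by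
          rw [div_mul_eq_mul_div, div_le_iff₀ (by positivity)]
          have := le_abs_self (M i)
          nlinarith
        exact (mul_le_mul_of_nonneg_right h1 (hM i hi)).trans h2
      · rw [Nat.sub_zero, Finset.Ico_self, Finset.sum_empty, add_zero]
        by_contra hcon
        obtain ⟨i, hi, hi2⟩ := hend p hp (not_lt.1 hcon)
        exact hi2 (hj i (by omega))
    | succ k ih =>
      intro hk
      obtain ⟨C, d, hC, hd, hdε, hCd, hpos⟩ := ih (by omega)
      set i0 := r - (k + 1) with hi0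
      have hi0r : i0 < r := by omega
      have hi1 : r - k = i0 + 1 := by omega
      rw [hi1] at hpos
      -- the compact set `{T ≤ t0} ∩ {g' j = 0, j < i0}`
      set L : Set X := K ∩ {p | T p ≤ t0 ∧ ∀ j < i0, g' j p = 0} with hL
      have hLK : L ⊆ K := Set.inter_subset_left
      have hLc : IsCompact L := by
        -- closedness relative to the compact set `K`
        obtain ⟨u, hu, hu2⟩ := (continuousOn_iff_isClosed.1 hT) (Set.Iic t0) isClosed_Iic
        have hv : ∀ j : Fin i0, ∃ w : Set X, IsClosed w ∧ g' j ⁻¹' {0} ∩ K = w ∩ K := fun j =>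
          (continuousOn_iff_isClosed.1 (hg' j (by omega))) {0} isClosed_singleton
        choose w hw hw2 using hv
        have e2 : L = K ∩ (u ∩ ⋂ j : Fin i0, w j) := by
          ext p
          simp only [hL, Set.mem_inter_iff, Set.mem_ofPred_eq, Set.mem_iInter]
          constructor
          · rintro ⟨h1, h2, h3⟩
            refine ⟨h1, ?_, fun j => ?_⟩
            · have : p ∈ T ⁻¹' Set.Iic t0 ∩ K := ⟨h2, h1⟩
              rw [hu2] at this
              exact this.1
            · have : p ∈ g' j ⁻¹' {0} ∩ K := ⟨h3 j j.2, h1⟩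
              rw [hw2] at this
              exact this.1
          · rintro ⟨h1, h2, h3⟩
            refine ⟨h1, ?_, fun j hj => ?_⟩
            · have : p ∈ u ∩ K := ⟨h2, h1⟩
              rw [← hu2] at this
              exact this.1
            · have : p ∈ w ⟨j, hj⟩ ∩ K := ⟨h3 ⟨j, hj⟩, h1⟩
              rw [← hw2] at this
              exact this.1
        rw [e2]
        exact hK.inter_right (hu.inter (isClosed_iInter hw))
      set S : X → ℝ := fun p => T p + ∑ i ∈ Finset.Ico (i0 + 1) r,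
          kinkTerm (C i) (d i) (M i) (ζ p) (g i p) (g' i p) with hS
      have hSc : ContinuousOn S L := by
        refine (hT.mono hLK).add (continuousOn_finsetSum _ fun i hi => ?_)
        have hir := (Finset.mem_Ico.1 hi).2
        exact (kinkTerm_cont (hd i) hζ (hg i hir) (hg' i hir)).mono hLK
      obtain ⟨C0, hC0, μ, hμ, hC0μ⟩ := exists_large hLc hSc (((hg' i0 hi0r).mono hLK).pow 2)
        (fun p _ => sq_nonneg _) (fun p hp hq => by
          refine hpos p hp.1 hp.2.1 fun j hj => ?_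
          rcases Nat.lt_succ_iff_lt_or_eq.1 hj with h1 | h1
          · exact hp.2.2 j h1
          · rw [h1]; exact pow_eq_zero_iff two_ne_zero |>.1 hq)
      -- the width of the new kink
      set d0 : ℝ := min ε (min ε' (μ / 2) / (C0 * (|M i0| + 1))) with hd0
      have hd0p : 0 < d0 := lt_min hε (by positivity)
      have hd0M : C0 * d0 * M i0 ≤ min ε' (μ / 2) := by
        have h1 : d0 ≤ min ε' (μ / 2) / (C0 * (|M i0| + 1)) := min_le_right _ _
        have h2 : C0 * d0 * (|M i0| + 1) ≤ min ε' (μ / 2) := by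
          have := (le_div_iff₀ (by positivity)).1 h1
          nlinarith
        have h3 := le_abs_self (M i0)
        have h4 : 0 < C0 * d0 := mul_pos hC0 hd0p
        nlinarith
      refine ⟨Function.update C i0 C0, Function.update d i0 d0, fun i => ?_, fun i => ?_,
        fun i => ?_, fun i hi => ?_, fun p hp hpt hpj => ?_⟩
      · by_cases hi : i = i0
        · rw [hi, Function.update_self]; exact hC0
        · rw [Function.update_of_ne hi]; exact hC i
      · by_cases hi : i = i0
        · rw [hi, Function.update_self]; exact hd0p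
        · rw [Function.update_of_ne hi]; exact hd i
      · by_cases hi : i = i0
        · rw [hi, Function.update_self]; exact min_le_left _ _
        · rw [Function.update_of_ne hi]; exact hdε i
      · by_cases hi2 : i = i0
        · rw [hi2, Function.update_self, Function.update_self]
          exact hd0M.trans (min_le_left _ _)
        · rw [Function.update_of_ne hi2, Function.update_of_ne hi2]; exact hCd i hi
      · have hpL : p ∈ L := ⟨hp, hpt, hpj⟩
        rw [Finset.sum_eq_sum_Ico_succ_bot hi0r, Function.update_self, Function.update_self]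
        have h1 : ∑ i ∈ Finset.Ico (i0 + 1) r,
            kinkTerm (Function.update C i0 C0 i) (Function.update d i0 d0 i) (M i) (ζ p) (g i p)
              (g' i p) = ∑ i ∈ Finset.Ico (i0 + 1) r,
            kinkTerm (C i) (d i) (M i) (ζ p) (g i p) (g' i p) := by
          refine Finset.sum_congr rfl fun i hi => ?_
          have hne : i ≠ i0 := by have := (Finset.mem_Ico.1 hi).1; omega
          rw [Function.update_of_ne hne, Function.update_of_ne hne]
        rw [h1, hζ1 p hp hpt, hz i0 hi0r p hp hpt hpj, kinkTerm_zero hd0p]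
        have h2 := hC0μ p hpL
        have h3 : S p = T p + ∑ i ∈ Finset.Ico (i0 + 1) r,
            kinkTerm (C i) (d i) (M i) 1 (g i p) (g' i p) := by
          rw [hS]
          simp only
          rw [hζ1 p hp hpt]
        rw [h3] at h2
        have h4 := hd0M.trans (min_le_right _ _)
        simp only [Pi.pow_apply] at h2
        linarith
  obtain ⟨C, d, hC, hd, hdε, hCd, hpos⟩ := main r le_rfl
  refine ⟨C, d, hC, hd, hdε, fun i hi => (hCd i hi).trans hε1, fun p hp => ?_⟩
  by_cases hpt : T p ≤ t0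
  · have h1 := hpos p hp hpt (fun j hj => by omega)
    rw [Nat.sub_self, ← Finset.range_eq_Ico] at h1
    exact h1
  · have h1 : ∑ i ∈ Finset.range r, -(C i * d i * M i) ≤
        ∑ i ∈ Finset.range r, kinkTerm (C i) (d i) (M i) (ζ p) (g i p) (g' i p) :=
      Finset.sum_le_sum fun i _ => kinkTerm_ge (hC i) (hd i) (hζ0 p hp)
    have h2 : -((r : ℝ) * ε') ≤ ∑ i ∈ Finset.range r, -(C i * d i * M i) := by
      have h3 : ∑ i ∈ Finset.range r, -ε' ≤ ∑ i ∈ Finset.range r, -(C i * d i * M i) :=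
        Finset.sum_le_sum fun i hi => neg_le_neg (hCd i (Finset.mem_range.1 hi))
      rw [Finset.sum_const, Finset.card_range, nsmul_eq_mul] at h3
      linarith
    push Not at hpt
    linarith

end Pool.Agent.FL.S1ZK
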