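import Pool.Agent.helper75.FL.SB
import Pool.Agent.FL.BLin
import Pool.Agent.FL.S1ZK
import Pool.Agent.FL.KinkC
import Pool.Agent.FL.T3Inv

/-!
# MP_f09395_gt, space (1), module Z: the second function `z` of the two level step

`z = hb(v) - χ₊(c) k + χ₋(c) k`, `k` a sum of kinks of the tower `F_j = E^j (W v)`.
-/

set_option linter.unusedSectionVars false

noncomputable section

namespace Pool.Agent.FL.S1Z

open scoped ContDiff
open Pool.Agent.Helper93.Fin Pool.Agent.helper79.FP Pool.Agent.helper79.FR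
open Pool.Agent.helper75.FL Pool.Agent.FL.Wall Pool.Agent.helper90.FL
open Filter Topology

variable {𝔸 : Type*} [NormedRing 𝔸] [NormedAlgebra ℝ 𝔸] [FiniteDimensional ℝ 𝔸]
variable {g h m : Submodule ℝ 𝔸} {Q : 𝔸 →ₗ[ℝ] 𝔸 →ₗ[ℝ] ℝ} {P : 𝔸 →L[ℝ] m} {v z : m → ℝ}
variable {h0 : 𝔸} {B : m → 𝔸} {c : m → ℝ} {H : Subgroup 𝔸ˣ}

/-- the tower `F_0 = W v`, `F_(j+1) = E F_j` on `𝔪` -/
def FTow {m : Submodule ℝ 𝔸} (Q : 𝔸 →ₗ[ℝ] 𝔸 →ₗ[ℝ] ℝ) (P : 𝔸 →L[ℝ] m) (h0 : 𝔸) (B : m → 𝔸)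
    (v : m → ℝ) : ℕ → m → ℝ
  | 0 => aW P h0 B v 1
  | j + 1 => Wall.EE Q P v (FTow Q P h0 B v j)

/-- the coefficients: `A_j(u, y) = LamT j u y` -/
def LamT {m : Submodule ℝ 𝔸} (Q : 𝔸 →ₗ[ℝ] 𝔸 →ₗ[ℝ] ℝ) (P : 𝔸 →L[ℝ] m) (h0 : 𝔸) (v : m → ℝ) :
    ℕ → m → 𝔸 →L[ℝ] ℝ
  | 0 => LamW P h0 v
  | j + 1 => LamE Q P v (LamT Q P h0 v j)

theorem FTow_BLin (hN : NData g h m Q P) (hC : Cas g h m Q P h0 B c) (hv : PhiN h m P v) (j : ℕ) :
    BLin B (FTow Q P h0 B v j) (LamT Q P h0 v j) := by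
  induction j with
  | zero => exact BLin_W hv.smooth
  | succ j ih => exact ih.dE hN hC hv

/-- on flags `F_j(u) = w A_j(u, b)` -/
theorem FTow_flag (hN : NData g h m Q P) (hC : Cas g h m Q P h0 B c) (hv : PhiN h m P v) (j : ℕ)
    {u b : m} (hF : Flag Q u b) :
    FTow Q P h0 B v j u = Q (B u) b * LamT Q P h0 v j u (b : 𝔸) := by
  rw [(FTow_BLin hN hC hv j).eq u (hF.ne hN)]
  conv_lhs => rw [hC.flat u b hF]
  rw [map_smul, smul_eq_mul]

/-! ### derivatives along a field on which a factor is constant -/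

theorem itd_const_mul {E : Type*} [NormedAddCommGroup E] [NormedSpace ℝ E] {U : Set E}
    (hU : IsOpen U) {X : E → E} (hX : ContDiffOn ℝ ∞ X U) {ρ f : E → ℝ}
    (hρ : ContDiffOn ℝ ∞ ρ U) (h0ρ : ∀ x ∈ U, fderiv ℝ ρ x (X x) = 0)
    (hf : ContDiffOn ℝ ∞ f U) (j : ℕ) :
    ∀ x ∈ U, itd X (fun x => ρ x * f x) j x = ρ x * itd X f j x := by
  induction j with
  | zero => intro x _; rfl
  | succ j ih =>
    intro x hx
    have h1 : itd X (fun x => ρ x * f x) j =ᶠ[𝓝 x] fun x => ρ x * itd X f j x := by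
      filter_upwards [hU.mem_nhds hx] with y hy
      exact ih y hy
    show fderiv ℝ (itd X (fun x => ρ x * f x) j) x (X x) = ρ x * fderiv ℝ (itd X f j) x (X x)
    have hd1 : DifferentiableAt ℝ ρ x := KinkC_diff hU hρ hx
    have hd2 : DifferentiableAt ℝ (itd X f j) x := KinkC_diff hU (itd_smooth hU hX hf j) hx
    rw [h1.fderiv_eq, fderiv_fun_mul hd1 hd2]
    simp only [_root_.add_apply, _root_.smul_apply, smul_eq_mul]
    rw [h0ρ x hx]
    ring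

/-! ### radial functions -/

theorem rad_fd (hN : NData g h m Q P) {ρ : ℝ → ℝ} {u a : m}
    (hρ : DifferentiableAt ℝ ρ (BN m Q u u)) (ha : Q (u : 𝔸) a = 0) :
    fderiv ℝ (fun z : m => ρ (BN m Q z z)) u a = 0 := by
  have h1 : HasFDerivAt (fun u : m => BN m Q u u)
      ((BN m Q u).comp (ContinuousLinearMap.id ℝ m) + (BN m Q).flip (id u)) u :=
    ((BN m Q).hasFDerivAt).clm_apply (hasFDerivAt_id u)
  have h3 := HasDerivAt.comp_hasFDerivAt (h₂ := ρ) (f := fun u : m => BN m Q u u) u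
    hρ.hasDerivAt h1
  have h5 : (fun z : m => ρ (BN m Q z z)) = ρ ∘ fun z : m => BN m Q z z := rfl
  rw [h5, h3.fderiv]
  have h4 : Q (a : 𝔸) u = 0 := by rw [hN.Qsymm]; exact ha
  simp [ha, h4]

/-- `|u|^(-n)` -/
def radn (m : Submodule ℝ 𝔸) (Q : 𝔸 →ₗ[ℝ] 𝔸 →ₗ[ℝ] ℝ) (n : ℕ) (u : m) : ℝ :=
  ((Real.sqrt (BN m Q u u))⁻¹) ^ n

theorem radn_smooth (hN : NData g h m Q P) (n : ℕ) : ContDiffOn ℝ ∞ (radn m Q n) {0}ᶜ := by
  unfold radn
  refine ContDiffOn.pow (ContDiffOn.inv (ContDiffOn.sqrt BNsq_smooth fun u hu => ?_) ?_) n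
  · exact BN_ne hN hu
  · intro u hu
    exact (Real.sqrt_pos.2 (BN_pos hN u hu)).ne'

theorem radn_pos (hN : NData g h m Q P) (n : ℕ) {u : m} (hu : u ≠ 0) : 0 < radn m Q n u :=
  pow_pos (inv_pos.2 (Real.sqrt_pos.2 (BN_pos hN u hu))) n

theorem radn_fd (hN : NData g h m Q P) (n : ℕ) {u a : m} (hu : u ≠ 0) (ha : Q (u : 𝔸) a = 0) :
    fderiv ℝ (radn m Q n) u a = 0 := by
  refine rad_fd (ρ := fun x => ((Real.sqrt x)⁻¹) ^ n) hN ?_ ha
  have h1 := BN_pos hN u hu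
  have h2 : DifferentiableAt ℝ (fun x => Real.sqrt x) (BN m Q u u) :=
    (Real.hasDerivAt_sqrt h1.ne').differentiableAt
  exact (h2.inv (Real.sqrt_pos.2 h1).ne').pow n

theorem BN_fd (hN : NData g h m Q P) {u a : m} (ha : Q (u : 𝔸) a = 0) :
    fderiv ℝ (fun u : m => BN m Q u u) u a = 0 :=
  rad_fd (ρ := fun x => x) hN differentiableAt_id ha

/-! ### the two fields are tangent to the spheres and to the levels of `c` -/

theorem ef_tan (hN : NData g h m Q P) (u : m) : Q (u : 𝔸) (ef Q P v u) = 0 := by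
  rw [ef, Q_P hN u (lm hN _ _), Q_self_lie' hN]

theorem Wt_tan (hN : NData g h m Q P) (hC : Cas g h m Q P h0 B c) (u : m) :
    Q (u : 𝔸) (Wt P h0 B u) = 0 := by
  rw [Wt_coe hN hC, skew h0, map_neg, ← hN.Qinv, hC.Bcomm u]; simp

theorem c_fd (hN : NData g h m Q P) (hC : Cas g h m Q P h0 B c) {u a : m} (hu : u ≠ 0)
    (ha : Q (B u) a = 0) : fderiv ℝ c u a = 0 := by
  have h1 := hC.cD u hu a
  rw [ha, mul_zero] at h1
  rcases mul_eq_zero.1 h1 with h2 | h2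
  · exact h2
  · have h3 := BN_pos hN u hu
    rw [BN_apply] at h3
    exact absurd h2 h3.ne'

theorem ef_B (hN : NData g h m Q P) (hC : Cas g h m Q P h0 B c) (hv : PhiN h m P v) {u : m}
    (hu : u ≠ 0) : Q (B u) (ef Q P v u) = 0 := by
  rw [ef, e_mem hN hv hu (gx_spec hN u), ← hN.Qinv, skew, hC.Bcomm u]
  simp

theorem Wt_B (hN : NData g h m Q P) (hC : Cas g h m Q P h0 B c) (u : m) :
    Q (B u) (Wt P h0 B u) = 0 := by
  rw [Wt_coe hN hC, Q_self_lie hN]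

/-! ### scaling -/

theorem fd_scale {m : Submodule ℝ 𝔸} {f : m → ℝ} {n : ℕ} {r : ℝ} (hr : r ≠ 0)
    (hf : ContDiffOn ℝ ∞ f {0}ᶜ) (hh : ∀ u : m, u ≠ 0 → f (r • u) = r ^ n * f u)
    {u : m} (hu : u ≠ 0) (a : m) : fderiv ℝ f (r • u) (r • a) = r ^ n * fderiv ℝ f u a := by
  have h1 : HasFDerivAt (fun z : m => r • z) (r • ContinuousLinearMap.id ℝ m) u :=
    (hasFDerivAt_id u).const_smul r
  have h2 : HasFDerivAt (fun z : m => f (r • z))
      ((fderiv ℝ f (r • u)).comp (r • ContinuousLinearMap.id ℝ m)) u :=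
    (dAt hf (smul_ne_zero hr hu)).hasFDerivAt.comp u h1
  have h3 : (fun z : m => f (r • z)) =ᶠ[𝓝 u] fun z => r ^ n * f z := by
    filter_upwards [isOpen_compl_singleton.mem_nhds hu] with z hz
    exact hh z hz
  have h4 := Filter.EventuallyEq.fderiv_eq (𝕜 := ℝ) h3
  rw [h2.fderiv] at h4
  have h5 := congrArg (fun L : m →L[ℝ] ℝ => L a) h4
  simp only [ContinuousLinearMap.comp_apply, _root_.smul_apply, ContinuousLinearMap.id_apply]
    at h5
  rw [h5, fd_cmul _ hf hu]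

theorem gx_scale (hN : NData g h m Q P) (hv : PhiN h m P v) {r : ℝ} (hr : r ≠ 0) {u : m}
    (hu : u ≠ 0) : gx Q v (r • u) = r • gx Q v u := by
  refine rep_unique hN fun w => ?_
  have h1 := fd_scale hr hv.smooth (fun u _ => hv.hom r u) hu (r⁻¹ • w)
  rw [smul_smul, mul_inv_cancel₀ hr, one_smul, map_smul, smul_eq_mul] at h1
  rw [gx_spec hN, D1, h1, Submodule.coe_smul, map_smul, LinearMap.smul_apply, gx_spec hN, D1,
    smul_eq_mul]
  field_simp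

theorem ef_scale (hN : NData g h m Q P) (hv : PhiN h m P v) {r : ℝ} (hr : r ≠ 0) {u : m}
    (hu : u ≠ 0) : ef Q P v (r • u) = r • (r • ef Q P v u) := by
  unfold ef
  rw [gx_scale hN hv hr hu, ← map_smul, ← map_smul]
  congr 1
  simp only [Ring.lie_def, Submodule.coe_smul, mul_smul_comm, smul_mul_assoc, smul_sub]

theorem gx_adM (hN : NData g h m Q P) (hG : GrpD H h m Q h0 B c) (hv : ContDiffOn ℝ ∞ v {0}ᶜ)
    (hvH : InvH H v) {k : 𝔸ˣ} (hk : k ∈ H) {u : m} (hu : u ≠ 0) :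
    gx Q v (adM P k u) = adM P k (gx Q v u) := by
  refine rep_unique hN fun w => ?_
  rw [gx_spec hN]
  conv_rhs => rw [← T3Inv_surj hN hG hk w]
  conv_lhs => rw [← T3Inv_surj hN hG hk w]
  rw [T3Inv_Q hN hG hk, gx_spec hN, T3Inv_D1 hN hG hv hvH hk hu]

theorem ef_adM (hN : NData g h m Q P) (hC : Cas g h m Q P h0 B c) (hG : GrpD H h m Q h0 B c)
    (hv : ContDiffOn ℝ ∞ v {0}ᶜ) (hvH : InvH H v) {k : 𝔸ˣ} (hk : k ∈ H) {u : m} (hu : u ≠ 0) :
    ef Q P v (adM P k u) = adM P k (ef Q P v u) := by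
  unfold ef
  rw [gx_adM hN hG hv hvH hk hu, T3Inv_br hN hC hG hk]

/-! ### the tower -/

theorem FTow_smooth (hN : NData g h m Q P) (hC : Cas g h m Q P h0 B c) (hv : PhiN h m P v)
    (j : ℕ) : ContDiffOn ℝ ∞ (FTow Q P h0 B v j) {0}ᶜ := (FTow_BLin hN hC hv j).smooth hC

theorem FTow_scale (hN : NData g h m Q P) (hC : Cas g h m Q P h0 B c) (hv : PhiN h m P v)
    {r : ℝ} (hr : r ≠ 0) (j : ℕ) : ∀ u : m, u ≠ 0 →
    FTow Q P h0 B v j (r • u) = r ^ (j + 2) * FTow Q P h0 B v j u := by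
  induction j with
  | zero => exact fun u _ => aW_hom hC hv.smooth hv.hom 1 r u
  | succ j ih =>
    intro u hu
    show fderiv ℝ (FTow Q P h0 B v j) (r • u) (ef Q P v (r • u)) =
      r ^ (j + 1 + 2) * fderiv ℝ (FTow Q P h0 B v j) u (ef Q P v u)
    rw [ef_scale hN hv hr hu, fd_scale hr (FTow_smooth hN hC hv j) ih hu, map_smul, smul_eq_mul]
    ring

theorem FTow_inv (hN : NData g h m Q P) (hC : Cas g h m Q P h0 B c) (hG : GrpD H h m Q h0 B c)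
    (hv : PhiN h m P v) (hvH : InvH H v) (j : ℕ) : InvH H (FTow Q P h0 B v j) := by
  induction j with
  | zero => exact aW_inv hN hC hG hv.smooth hvH 1
  | succ j ih =>
    intro k hk u u' huu
    have h4 : u' = adM P k u := Subtype.ext (by rw [adM_coe hN hG hk, huu])
    by_cases hu : u = 0
    · rw [h4, hu, map_zero]
    · show D1 (FTow Q P h0 B v j) u' (ef Q P v u') = D1 (FTow Q P h0 B v j) u (ef Q P v u)
      rw [h4, ef_adM hN hC hG hv.smooth hvH hk hu, D1_adM hN hG (FTow_smooth hN hC hv j) ih hk hu]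

/-! ### the normalised tower -/

theorem radn_scale (n : ℕ) (r : ℝ) (u : m) :
    radn m Q n (r • u) = (|r|⁻¹) ^ n * radn m Q n u := by
  have h1 : BN m Q (r • u) (r • u) = r ^ 2 * BN m Q u u := by
    rw [BN_apply, BN_apply]
    simp only [Submodule.coe_smul, map_smul, LinearMap.smul_apply, smul_eq_mul]
    ring
  unfold radn
  rw [h1, Real.sqrt_mul (sq_nonneg r), Real.sqrt_sq_eq_abs, mul_inv, mul_pow]

theorem radn_inv (hG : GrpD H h m Q h0 B c) (n : ℕ) : InvH H (radn m Q n) := by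
  intro l hl u u' huu
  unfold radn
  rw [BN_apply, BN_apply, huu, hG.Qm l hl u u.2]

/-- `F_j / |u|^(j+2)` -/
def GT {m : Submodule ℝ 𝔸} (Q : 𝔸 →ₗ[ℝ] 𝔸 →ₗ[ℝ] ℝ) (P : 𝔸 →L[ℝ] m) (h0 : 𝔸) (B : m → 𝔸)
    (v : m → ℝ) (j : ℕ) (u : m) : ℝ := radn m Q (j + 2) u * FTow Q P h0 B v j u

theorem GT_smooth (hN : NData g h m Q P) (hC : Cas g h m Q P h0 B c) (hv : PhiN h m P v)
    (j : ℕ) : ContDiffOn ℝ ∞ (GT Q P h0 B v j) {0}ᶜ :=
  (radn_smooth hN _).mul (FTow_smooth hN hC hv j)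

theorem GT_scale (hN : NData g h m Q P) (hC : Cas g h m Q P h0 B c) (hv : PhiN h m P v)
    {r : ℝ} (hr : r ≠ 0) (j : ℕ) {u : m} (hu : u ≠ 0) :
    GT Q P h0 B v j (r • u) ^ 2 = GT Q P h0 B v j u ^ 2 := by
  unfold GT
  rw [radn_scale, FTow_scale hN hC hv hr j u hu]
  have h1 : (|r|⁻¹ ^ (j + 2)) ^ 2 * (r ^ (j + 2)) ^ 2 = 1 := by
    rw [← mul_pow, ← mul_pow, pow_right_comm, mul_pow, inv_pow, sq_abs,
      inv_mul_cancel₀ (pow_ne_zero 2 hr), one_pow]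
  calc (|r|⁻¹ ^ (j + 2) * radn m Q (j + 2) u * (r ^ (j + 2) * FTow Q P h0 B v j u)) ^ 2
      = ((|r|⁻¹ ^ (j + 2)) ^ 2 * (r ^ (j + 2)) ^ 2) *
        (radn m Q (j + 2) u * FTow Q P h0 B v j u) ^ 2 := by ring
    _ = _ := by rw [h1, one_mul]

theorem GT_inv (hN : NData g h m Q P) (hC : Cas g h m Q P h0 B c) (hG : GrpD H h m Q h0 B c)
    (hv : PhiN h m P v) (hvH : InvH H v) (j : ℕ) : InvH H (GT Q P h0 B v j) := by
  intro l hl u u' huu
  unfold GT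
  rw [radn_inv hG _ l hl u u' huu, FTow_inv hN hC hG hv hvH j l hl u u' huu]

theorem itd_FTow (j n : ℕ) : itd (ef Q P v) (FTow Q P h0 B v j) n = FTow Q P h0 B v (j + n) := by
  induction n with
  | zero => rfl
  | succ n ih =>
    funext x
    show fderiv ℝ (itd (ef Q P v) (FTow Q P h0 B v j) n) x (ef Q P v x) = _
    rw [ih]
    rfl

theorem itd_GT (hN : NData g h m Q P) (hC : Cas g h m Q P h0 B c) (hv : PhiN h m P v)
    (j n : ℕ) {u : m} (hu : u ≠ 0) :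
    itd (ef Q P v) (GT Q P h0 B v j) n u = radn m Q (j + 2) u * FTow Q P h0 B v (j + n) u := by
  have h1 := itd_const_mul (isOpen_compl_singleton (x := (0 : m))) (ef_smooth hN hv.smooth)
    (ρ := radn m Q (j + 2)) (f := FTow Q P h0 B v j) (radn_smooth hN _)
    (fun x hx => radn_fd hN _ hx (ef_tan hN x)) (FTow_smooth hN hC hv j) n u hu
  rw [itd_FTow] at h1
  exact h1

/-! ### the sum of kinks -/

/-- the sum of the kinks of the normalised tower -/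
def KS {m : Submodule ℝ 𝔸} (Q : 𝔸 →ₗ[ℝ] 𝔸 →ₗ[ℝ] ℝ) (P : 𝔸 →L[ℝ] m) (h0 : 𝔸) (B : m → 𝔸)
    (v : m → ℝ) (r : ℕ) (C d : ℕ → ℝ) (u : m) : ℝ :=
  ∑ i ∈ Finset.range r, Pool.Agent.FL.kink (C i) (d i) (fun _ : Unit => GT Q P h0 B v i) u

/-- the function `|u|²` times the sum of the kinks -/
def kf {m : Submodule ℝ 𝔸} (Q : 𝔸 →ₗ[ℝ] 𝔸 →ₗ[ℝ] ℝ) (P : 𝔸 →L[ℝ] m) (h0 : 𝔸) (B : m → 𝔸)
    (v : m → ℝ) (r : ℕ) (C d : ℕ → ℝ) (u : m) : ℝ :=
  BN m Q u u * KS Q P h0 B v r C d u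

theorem kink_smooth (hN : NData g h m Q P) (hC : Cas g h m Q P h0 B c) (hv : PhiN h m P v)
    (C : ℝ) {d : ℝ} (hd : 0 < d) (i : ℕ) :
    ContDiffOn ℝ ∞ (Pool.Agent.FL.kink C d (fun _ : Unit => GT Q P h0 B v i)) {0}ᶜ :=
  KinkC_smooth hd C fun _ => GT_smooth hN hC hv i

theorem KS_smooth (hN : NData g h m Q P) (hC : Cas g h m Q P h0 B c) (hv : PhiN h m P v)
    (r : ℕ) (C : ℕ → ℝ) {d : ℕ → ℝ} (hd : ∀ i, 0 < d i) :
    ContDiffOn ℝ ∞ (KS Q P h0 B v r C d) {0}ᶜ :=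
  ContDiffOn.sum fun i _ => kink_smooth hN hC hv (C i) (hd i) i

theorem kf_smooth (hN : NData g h m Q P) (hC : Cas g h m Q P h0 B c) (hv : PhiN h m P v)
    (r : ℕ) (C : ℕ → ℝ) {d : ℕ → ℝ} (hd : ∀ i, 0 < d i) :
    ContDiffOn ℝ ∞ (kf Q P h0 B v r C d) {0}ᶜ :=
  BNsq_smooth.mul (KS_smooth hN hC hv r C hd)

theorem kf_hom (hN : NData g h m Q P) (hC : Cas g h m Q P h0 B c) (hv : PhiN h m P v)
    (r : ℕ) (C d : ℕ → ℝ) (t : ℝ) (u : m) :
    kf Q P h0 B v r C d (t • u) = t ^ 2 * kf Q P h0 B v r C d u := by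
  have e1 : BN m Q (t • u) (t • u) = t ^ 2 * BN m Q u u := by
    rw [BN_apply, BN_apply]
    simp only [Submodule.coe_smul, map_smul, LinearMap.smul_apply, smul_eq_mul]
    ring
  unfold kf
  rw [e1]
  by_cases ht : t = 0
  · simp [ht]
  by_cases hu : u = 0
  · have h1 : BN m Q u u = 0 := by rw [hu, BN_apply]; simp
    rw [h1]; simp
  have h2 : KS Q P h0 B v r C d (t • u) = KS Q P h0 B v r C d u := by
    unfold KS Pool.Agent.FL.kink
    refine Finset.sum_congr rfl fun i _ => ?_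
    simp only [GT_scale hN hC hv ht i hu]
  rw [h2]; ring

theorem kf_inv (hN : NData g h m Q P) (hC : Cas g h m Q P h0 B c) (hG : GrpD H h m Q h0 B c)
    (hv : PhiN h m P v) (hvH : InvH H v) (r : ℕ) (C d : ℕ → ℝ) :
    InvH H (kf Q P h0 B v r C d) := by
  intro l hl u u' huu
  unfold kf KS Pool.Agent.FL.kink
  have e1 : BN m Q u' u' = BN m Q u u := by
    rw [BN_apply, BN_apply, huu, hG.Qm l hl u u.2]
  have e2 : ∀ j, GT Q P h0 B v j u' = GT Q P h0 B v j u := fun j =>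
    GT_inv hN hC hG hv hvH j l hl u u' huu
  simp only [e1, e2]

theorem E2_itd (hN : NData g h m Q P) (hv : ContDiffOn ℝ ∞ v {0}ᶜ) {f : m → ℝ}
    (hf : ContDiffOn ℝ ∞ f {0}ᶜ) {u : m} (hu : u ≠ 0) : E2 Q P v f u = itd (ef Q P v) f 2 u :=
  (Ev_Ev hN hv hf hu).symm

theorem kf_E2 (hN : NData g h m Q P) (hC : Cas g h m Q P h0 B c) (hv : PhiN h m P v)
    {r : ℕ} {C d M : ℕ → ℝ} (hCp : ∀ i, 0 < C i) (hd : ∀ i, 0 < d i) {u : m} (hu : u ≠ 0)
    (hM : ∀ i < r, knorm (fun _ : Unit => itd (ef Q P v) (GT Q P h0 B v i) 2) u ≤ M i) :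
    BN m Q u u * ∑ i ∈ Finset.range r, S1ZK.kinkTerm (C i) (d i) (M i) 1
      (knorm (fun _ : Unit => GT Q P h0 B v i) u)
      (knorm (fun _ : Unit => itd (ef Q P v) (GT Q P h0 B v i) 1) u) ≤
      E2 Q P v (kf Q P h0 B v r C d) u := by
  have hU : IsOpen ({0}ᶜ : Set m) := isOpen_compl_singleton
  have hX := ef_smooth hN hv.smooth
  have hKS := KS_smooth hN hC hv r C hd
  rw [E2_itd hN hv.smooth (kf_smooth hN hC hv r C hd) hu]
  have h1 := itd_const_mul hU hX (ρ := fun u : m => BN m Q u u)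
    (f := KS Q P h0 B v r C d) BNsq_smooth (fun x _ => BN_fd hN (ef_tan hN x)) hKS 2 u hu
  have h2 := itd_sum hU hX (Finset.range r)
    (F := fun i => Pool.Agent.FL.kink (C i) (d i) (fun _ : Unit => GT Q P h0 B v i))
    (fun i _ => kink_smooth hN hC hv (C i) (hd i) i) 2 u hu
  have h3 : itd (ef Q P v) (kf Q P h0 B v r C d) 2 u = BN m Q u u *
      ∑ i ∈ Finset.range r, itd (ef Q P v)
        (Pool.Agent.FL.kink (C i) (d i) (fun _ : Unit => GT Q P h0 B v i)) 2 u := by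
    rw [← h2]; exact h1
  rw [h3]
  refine mul_le_mul_of_nonneg_left (Finset.sum_le_sum fun i hi => ?_) (BN_pos hN u hu).le
  refine le_trans ?_ (KinkC_D2_ge hU hX (hd i) (hCp i) (fun _ => GT_smooth hN hC hv i) hu)
  unfold S1ZK.kinkTerm
  have h4 := hM i (Finset.mem_range.1 hi)
  have h5 : 0 < C i * d i := mul_pos (hCp i) (hd i)
  rw [one_mul]
  exact mul_le_mul_of_nonneg_left (sub_le_sub_left h4 _) h5.le

theorem kf_W (hN : NData g h m Q P) (hC : Cas g h m Q P h0 B c) (hv : PhiN h m P v)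
    {r : ℕ} {C d : ℕ → ℝ} (hCp : ∀ i, 0 < C i) (hd : ∀ i, 0 < d i) {u : m} (hu : u ≠ 0) :
    |D1 (kf Q P h0 B v r C d) u (Wt P h0 B u)| ≤ BN m Q u u * ∑ i ∈ Finset.range r,
      C i * d i * knorm (fun _ : Unit => itd (Wt P h0 B) (GT Q P h0 B v i) 1) u := by
  have hU : IsOpen ({0}ᶜ : Set m) := isOpen_compl_singleton
  have hX : ContDiffOn ℝ ∞ (Wt P h0 B) {0}ᶜ := Wt_smooth hC
  have hKS := KS_smooth hN hC hv r C hd
  have h1 := itd_const_mul hU hX (ρ := fun u : m => BN m Q u u)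
    (f := KS Q P h0 B v r C d) BNsq_smooth (fun x _ => BN_fd hN (Wt_tan hN hC x)) hKS 1 u hu
  have h2 := itd_sum hU hX (Finset.range r)
    (F := fun i => Pool.Agent.FL.kink (C i) (d i) (fun _ : Unit => GT Q P h0 B v i))
    (fun i _ => kink_smooth hN hC hv (C i) (hd i) i) 1 u hu
  have h3 : D1 (kf Q P h0 B v r C d) u (Wt P h0 B u) = BN m Q u u *
      ∑ i ∈ Finset.range r, itd (Wt P h0 B)
        (Pool.Agent.FL.kink (C i) (d i) (fun _ : Unit => GT Q P h0 B v i)) 1 u := by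
    rw [← h2]; exact h1
  rw [h3, abs_mul, abs_of_pos (BN_pos hN u hu)]
  refine mul_le_mul_of_nonneg_left ?_ (BN_pos hN u hu).le
  refine (Finset.abs_sum_le_sum_abs _ _).trans (Finset.sum_le_sum fun i _ => ?_)
  exact KinkC_D1_abs hU (hd i) (hCp i) (fun _ => GT_smooth hN hC hv i) hu

/-! ### the function -/

/-- the affine cut-off, `1` at the level `cB` and `-1` at the level `cA` -/
def chi (cA cB t : ℝ) : ℝ := (cA + cB - 2 * t) * (cA - cB)⁻¹

/-- the function `z` -/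
def zf {m : Submodule ℝ 𝔸} (Q : 𝔸 →ₗ[ℝ] 𝔸 →ₗ[ℝ] ℝ) (P : 𝔸 →L[ℝ] m) (h0 : 𝔸) (B : m → 𝔸)
    (c : m → ℝ) (v : m → ℝ) (cA cB : ℝ) (J : ℕ) (k : ℕ → ℝ) (r : ℕ) (C d : ℕ → ℝ) (u : m) : ℝ :=
  hb Q P h0 B v J k u + chi cA cB (c u) * kf Q P h0 B v r C d u

theorem chi_smooth (hC : Cas g h m Q P h0 B c) (cA cB : ℝ) :
    ContDiffOn ℝ ∞ (fun u => chi cA cB (c u)) {0}ᶜ := by
  unfold chi
  exact (contDiffOn_const.sub (contDiffOn_const.mul hC.csm)).mul contDiffOn_const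

theorem chi_fd (hN : NData g h m Q P) (hC : Cas g h m Q P h0 B c) (cA cB : ℝ) {u a : m}
    (hu : u ≠ 0) (ha : Q (B u) a = 0) : fderiv ℝ (fun u => chi cA cB (c u)) u a = 0 := by
  have h1 := (dAt hC.csm hu).hasFDerivAt
  have h2 := ((h1.const_mul 2).const_sub (cA + cB)).mul_const (cA - cB)⁻¹
  have h3 : (fun u => chi cA cB (c u)) = fun u => (cA + cB - 2 * c u) * (cA - cB)⁻¹ := rfl
  rw [h3, h2.fderiv]
  simp [c_fd hN hC hu ha]

theorem zf_smooth (hN : NData g h m Q P) (hC : Cas g h m Q P h0 B c) (hv : PhiN h m P v)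
    (cA cB : ℝ) (J : ℕ) (k : ℕ → ℝ) (r : ℕ) (C : ℕ → ℝ) {d : ℕ → ℝ} (hd : ∀ i, 0 < d i) :
    ContDiffOn ℝ ∞ (zf Q P h0 B c v cA cB J k r C d) {0}ᶜ :=
  (hb_smooth hN hC hv.smooth J k).add
    ((chi_smooth hC cA cB).mul (kf_smooth hN hC hv r C hd))

theorem zf_hom (hN : NData g h m Q P) (hC : Cas g h m Q P h0 B c) (hv : PhiN h m P v)
    (cA cB : ℝ) (J : ℕ) (k : ℕ → ℝ) (r : ℕ) (C d : ℕ → ℝ) (t : ℝ) (u : m) :
    zf Q P h0 B c v cA cB J k r C d (t • u) = t ^ 2 * zf Q P h0 B c v cA cB J k r C d u := by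
  unfold zf
  rw [hb_hom hC hv.smooth hv.hom, kf_hom hN hC hv]
  by_cases ht : t = 0
  · simp [ht]
  · rw [hC.chom t u ht]; ring

theorem zf_inv (hN : NData g h m Q P) (hC : Cas g h m Q P h0 B c) (hG : GrpD H h m Q h0 B c)
    (hv : PhiN h m P v) (hvH : InvH H v) (cA cB : ℝ) (J : ℕ) (k : ℕ → ℝ) (r : ℕ)
    (C d : ℕ → ℝ) : InvH H (zf Q P h0 B c v cA cB J k r C d) := by
  intro l hl u u' huu
  unfold zf
  rw [hb_inv hN hC hG hv.smooth hvH J k l hl u u' huu,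
    kf_inv hN hC hG hv hvH r C d l hl u u' huu, hG.c l hl u u' huu]

theorem zf_Phi (hN : NData g h m Q P) (hC : Cas g h m Q P h0 B c) (hG : GrpD H h m Q h0 B c)
    (hv : PhiN h m P v) (hvH : InvH H v) (cA cB : ℝ) (J : ℕ) (k : ℕ → ℝ) (r : ℕ)
    (C : ℕ → ℝ) {d : ℕ → ℝ} (hd : ∀ i, 0 < d i) :
    PhiN h m P (zf Q P h0 B c v cA cB J k r C d) :=
  ⟨zf_smooth hN hC hv cA cB J k r C hd, zf_hom hN hC hv cA cB J k r C d,
    inv_of_InvH hN hG (zf_smooth hN hC hv cA cB J k r C hd)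
      (zf_inv hN hC hG hv hvH cA cB J k r C d)⟩

theorem zf_itd (hN : NData g h m Q P) (hC : Cas g h m Q P h0 B c) (hv : PhiN h m P v)
    (cA cB : ℝ) (J : ℕ) (k : ℕ → ℝ) (r : ℕ) (C : ℕ → ℝ) {d : ℕ → ℝ} (hd : ∀ i, 0 < d i)
    {X : m → m} (hX : ContDiffOn ℝ ∞ X {0}ᶜ) (hXB : ∀ u : m, u ≠ 0 → Q (B u) (X u) = 0)
    (n : ℕ) {u : m} (hu : u ≠ 0) :
    itd X (zf Q P h0 B c v cA cB J k r C d) n u = itd X (hb Q P h0 B v J k) n u +
      chi cA cB (c u) * itd X (kf Q P h0 B v r C d) n u := by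
  have hU : IsOpen ({0}ᶜ : Set m) := isOpen_compl_singleton
  have h1 := itd_add hU hX (hb_smooth hN hC hv.smooth J k)
    ((chi_smooth hC cA cB).mul (kf_smooth hN hC hv r C hd)) n u hu
  have h2 := itd_const_mul hU hX (ρ := fun u => chi cA cB (c u)) (chi_smooth hC cA cB)
    (fun x hx => chi_fd hN hC cA cB hx (hXB x hx)) (kf_smooth hN hC hv r C hd) n u hu
  rw [← h2]
  exact h1

/-! ### compactness -/

theorem unif_index {X : Type*} [TopologicalSpace X] {K : Set X} (hK : IsCompact K)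
    {g : ℕ → X → ℝ} (hg : ∀ i, ContinuousOn (g i) K) (h : ∀ x ∈ K, ∃ i, g i x ≠ 0) :
    ∃ r : ℕ, ∀ x ∈ K, ∃ i < r, g i x ≠ 0 := by
  have : CompactSpace K := isCompact_iff_compactSpace.mp hK
  let b : ℕ → K → ℝ := fun j x => g j x
  have hb : ∀ j, Continuous (b j) := fun j => continuousOn_iff_continuous_domRestrict.mp (hg j)
  obtain ⟨t, ht⟩ := isCompact_univ.elim_finite_subcover (fun j : ℕ => {x : K | b j x ≠ 0})
    (fun j => isOpen_ne_fun (hb _) continuous_const) (by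
      intro x _
      obtain ⟨j, h2⟩ := h x x.2
      exact Set.mem_iUnion.mpr ⟨j, h2⟩)
  refine ⟨t.sup id + 1, fun x hx => ?_⟩
  have hx1 := ht (Set.mem_univ ⟨x, hx⟩)
  simp only [Set.mem_iUnion] at hx1
  obtain ⟨j, hj, hj2⟩ := hx1
  have : j ≤ t.sup id := Finset.le_sup (f := id) hj
  exact ⟨j, by omega, hj2⟩

theorem lower_exists {X : Type*} [TopologicalSpace X] {K : Set X} (hK : IsCompact K)
    {f : X → ℝ} (hf : ContinuousOn f K) (h : ∀ x ∈ K, 0 < f x) : ∃ e > 0, ∀ x ∈ K, e ≤ f x := by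
  by_cases hne : K.Nonempty
  · obtain ⟨x1, hx1, hmin⟩ := hK.exists_isMinOn hne hf
    exact ⟨f x1, h x1 hx1, fun x hx => hmin hx⟩
  · exact ⟨1, one_pos, fun x hx => absurd ⟨x, hx⟩ hne⟩

theorem upper_exists {X : Type*} [TopologicalSpace X] {K : Set X} (hK : IsCompact K)
    {f : X → ℝ} (hf : ContinuousOn f K) : ∃ M ≥ 0, ∀ x ∈ K, |f x| ≤ M := by
  obtain ⟨M, hM⟩ := hK.exists_bound_of_continuousOn hf
  refine ⟨|M|, abs_nonneg _, fun x hx => ?_⟩
  have := hM x hx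
  rw [Real.norm_eq_abs] at this
  exact this.trans (le_abs_self M)

theorem chi_abs {cA cB t : ℝ} (hcc : cB < cA) (h1 : cB ≤ t) (h2 : t ≤ cA) :
    |chi cA cB t| ≤ 1 := by
  have h3 : 0 < cA - cB := by linarith
  unfold chi
  rw [← div_eq_mul_inv, abs_div, abs_of_pos h3, div_le_one h3, abs_le]
  constructor <;> linarith

theorem chi_A {cA cB : ℝ} (hcc : cB < cA) : chi cA cB cA = -1 := by
  have h3 : cA - cB ≠ 0 := by intro h; linarith
  unfold chi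
  field_simp
  ring

theorem chi_B {cA cB : ℝ} (hcc : cB < cA) : chi cA cB cB = 1 := by
  have h3 : cA - cB ≠ 0 := by intro h; linarith
  unfold chi
  field_simp
  ring

/-- **module Z** -/
theorem Z_exists (hN : NData g h m Q P) (hC : Cas g h m Q P h0 B c) (hG : GrpD H h m Q h0 B c)
    (hv : PhiN h m P v) (hvH : InvH H v) {cB cA : ℝ} (hcc : cB < cA) (hA1 : cA < 1)
    (hB1 : -1 < cB)
    (M1 : ∀ u b : m, Flag Q u b → cB ≤ c u → c u ≤ cA → ∃ j, 1 ≤ j ∧ aW P h0 B v j u ≠ 0)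
    (K : ∀ u b : m, Flag Q u b → (c u = cA ∨ c u = cB) → al P h0 v u b = 0 →
      al' P h0 v u b ≤ 0 → ∃ j, 1 ≤ j ∧ LamT Q P h0 v j u (b : 𝔸) ≠ 0) :
    ∃ z : m → ℝ, PhiN h m P z ∧ InvH H z ∧
      (∀ u b : m, Flag Q u b → cB ≤ c u → c u ≤ cA → al P h0 v u b = 0 →
        0 < Q (B u) b * al P h0 z u b) ∧
      (∀ u b : m, Flag Q u b → c u = cA → al P h0 v u b = 0 →
        E2 Q P v z u < 0 ∨ 0 < al' P h0 v u b) ∧
      (∀ u b : m, Flag Q u b → c u = cB → al P h0 v u b = 0 →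
        0 < E2 Q P v z u ∨ 0 < al' P h0 v u b) := by
  have hne : ∀ p ∈ (FlagSet Q : Set (m × m)), p.1 ≠ 0 := fun p hp => Flag.ne hN hp
  have hFc : IsCompact (FlagSet Q : Set (m × m)) := flagSet_compact hN
  have hfst : ∀ {f : m → ℝ}, ContinuousOn f {0}ᶜ →
      ContinuousOn (fun p : m × m => f p.1) (FlagSet Q) := fun hf =>
    hf.comp continuous_fst.continuousOn fun p hp => hne p hp
  have hU : IsOpen ({0}ᶜ : Set m) := isOpen_compl_singleton
  have hX : ContDiffOn ℝ ∞ (ef Q P v) {0}ᶜ := ef_smooth hN hv.smooth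
  have hWs : ContDiffOn ℝ ∞ (Wt P h0 B) {0}ᶜ := Wt_smooth hC
  -- the middle region
  obtain ⟨K3, hK3d⟩ : ∃ K3 : Set (m × m),
      K3 = FlagSet Q ∩ (fun p : m × m => c p.1) ⁻¹' (Set.Icc cB cA) := ⟨_, rfl⟩
  have hK3m : ∀ u b : m, (u, b) ∈ K3 ↔ Flag Q u b ∧ cB ≤ c u ∧ c u ≤ cA := by
    intro u b; rw [hK3d]; rfl
  have hK3s : K3 ⊆ FlagSet Q := by rw [hK3d]; exact Set.inter_subset_left
  have hK3 : IsCompact K3 := by
    rw [hK3d]
    exact KinkL_compact_sub hFc (cont_fst hC.csm hne) isClosed_Icc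
  obtain ⟨K2, hK2d⟩ : ∃ K2 : Set (m × m),
      K2 = K3 ∩ (fun p : m × m => al P h0 v p.1 p.2) ⁻¹' {0} := ⟨_, rfl⟩
  have hK2m : ∀ u b : m, (u, b) ∈ K2 ↔ (u, b) ∈ K3 ∧ al P h0 v u b = 0 := by
    intro u b; rw [hK2d]; rfl
  have hK2s : K2 ⊆ K3 := by rw [hK2d]; exact Set.inter_subset_left
  have hK2 : IsCompact K2 := by
    rw [hK2d]
    exact KinkL_compact_sub hK3 ((al_cont hv.smooth hne).mono hK3s) isClosed_singleton
  obtain ⟨K0, hK0d⟩ : ∃ K0 : Set (m × m),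
      K0 = (K2 ∩ (fun p : m × m => c p.1) ⁻¹' {cA, cB}) ∩
        (fun p : m × m => al' P h0 v p.1 p.2) ⁻¹' (Set.Iic 0) := ⟨_, rfl⟩
  have hK0m : ∀ u b : m, (u, b) ∈ K0 ↔
      ((u, b) ∈ K2 ∧ (c u = cA ∨ c u = cB)) ∧ al' P h0 v u b ≤ 0 := by
    intro u b; rw [hK0d]; rfl
  have hK0s : K0 ⊆ K2 := by
    rw [hK0d]; exact Set.inter_subset_left.trans Set.inter_subset_left
  have hK0 : IsCompact K0 := by
    rw [hK0d]
    refine KinkL_compact_sub (KinkL_compact_sub hK2 ((cont_fst hC.csm hne).mono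
      (hK2s.trans hK3s)) (Set.toFinite {cA, cB}).isClosed) ?_ isClosed_Iic
    exact (al'_cont hv.smooth hne).mono ((Set.inter_subset_left.trans hK2s).trans hK3s)
  have hK0F : K0 ⊆ FlagSet Q := (hK0s.trans hK2s).trans hK3s
  -- the Hilbert-Bernstein part
  obtain ⟨J, kk, hJk⟩ := hb_exists hK3 (a := fun j p => aW P h0 B v j p.1)
    (fun j => (cont_fst (aW_smooth hC hv.smooth j) hne).mono hK3s) (by
      rintro ⟨u, b⟩ hp
      obtain ⟨h1, h2, h3⟩ := (hK3m u b).1 hp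
      exact M1 u b h1 h2 h3)
  have hbs : ContDiffOn ℝ ∞ (hb Q P h0 B v J kk) {0}ᶜ := hb_smooth hN hC hv.smooth J kk
  obtain ⟨e', he', hlow⟩ := lower_exists hK2
    (f := fun p : m × m => itd (Wt P h0 B) (hb Q P h0 B v J kk) 1 p.1)
    ((hfst (itd_smooth hU hWs hbs 1).continuousOn).mono (hK2s.trans hK3s)) (by
      rintro ⟨u, b⟩ hp
      obtain ⟨h1, ha⟩ := (hK2m u b).1 hp
      have hF := ((hK3m u b).1 h1).1
      have hu := hF.ne hN
      have h2 := flag_D1W hN hC hF v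
      rw [ha, mul_zero] at h2
      have h3 := hJk (u, b) h1 h2
      have h4 := hb_W hN hC hv.smooth J kk hu
      rw [BN_apply, hF.1, inv_one, mul_one] at h4
      show 0 < D1 (hb Q P h0 B v J kk) u (Wt P h0 B u)
      rw [h4]; exact h3)
  -- the number of kinks
  have hGc : ∀ i n, ContDiffOn ℝ ∞ (itd (ef Q P v) (GT Q P h0 B v i) n) {0}ᶜ := fun i n =>
    itd_smooth hU hX (GT_smooth hN hC hv i) n
  have hGW : ∀ i n, ContDiffOn ℝ ∞ (itd (Wt P h0 B) (GT Q P h0 B v i) n) {0}ᶜ := fun i n =>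
    itd_smooth hU hWs (GT_smooth hN hC hv i) n
  obtain ⟨r, hr⟩ := unif_index hK0
    (g := fun i (p : m × m) => itd (ef Q P v) (GT Q P h0 B v i) 1 p.1)
    (fun i => (hfst (hGc i 1).continuousOn).mono hK0F) (by
      rintro ⟨u, b⟩ hp
      obtain ⟨⟨h1, h2⟩, h3⟩ := (hK0m u b).1 hp
      obtain ⟨h4, ha⟩ := (hK2m u b).1 h1
      have hF := ((hK3m u b).1 h4).1
      have hu := hF.ne hN
      obtain ⟨j, hj, hjj⟩ := K u b hF h2 ha h3
      refine ⟨j - 1, ?_⟩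
      show itd (ef Q P v) (GT Q P h0 B v (j - 1)) 1 u ≠ 0
      rw [itd_GT hN hC hv _ _ hu, Nat.sub_add_cancel hj, FTow_flag hN hC hv j hF]
      have h5 := hC.cw u b hF
      have h6 : Q (B u) b ≠ 0 := by
        intro h7
        rw [h7] at h5
        rcases h2 with h2 | h2 <;> rw [h2] at h5 <;> nlinarith
      exact mul_ne_zero (radn_pos hN _ hu).ne' (mul_ne_zero h6 hjj))
  -- bounds
  obtain ⟨S, hS0, hS⟩ := upper_exists hK0
    (f := fun p : m × m => itd (ef Q P v) (hb Q P h0 B v J kk) 2 p.1)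
    ((hfst (itd_smooth hU hX hbs 2).continuousOn).mono hK0F)
  have hMx : ∀ i, ∃ M ≥ 0, ∀ p ∈ K3,
      |knorm (fun _ : Unit => itd (ef Q P v) (GT Q P h0 B v i) 2) p.1| ≤ M := fun i =>
    upper_exists hK3 ((hfst (KinkC_knorm_cont fun _ => (hGc i 2).continuousOn)).mono hK3s)
  have hMy : ∀ i, ∃ M ≥ 0, ∀ p ∈ K3,
      |knorm (fun _ : Unit => itd (Wt P h0 B) (GT Q P h0 B v i) 1) p.1| ≤ M := fun i =>
    upper_exists hK3 ((hfst (KinkC_knorm_cont fun _ => (hGW i 1).continuousOn)).mono hK3s)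
  choose Mx hMx0 hMx using hMx
  choose My hMy0 hMy using hMy
  obtain ⟨ε, hεd⟩ : ∃ ε : ℝ, ε = e' / (2 * (r + 1)) := ⟨_, rfl⟩
  have hε : 0 < ε := by rw [hεd]; positivity
  have hrε : (r : ℝ) * ε < e' := by
    have h1 : (2 * ((r : ℝ) + 1)) * ε = e' := by rw [hεd]; field_simp
    have h2 : (0 : ℝ) ≤ r := Nat.cast_nonneg r
    nlinarith
  -- the kinks
  obtain ⟨C, d, hCp, hdp, -, hCM, hpos⟩ := S1ZK.kink hK0 r (T := fun _ => -(S + 1))
    (ζ := fun _ => 1) (g := fun i p => knorm (fun _ : Unit => GT Q P h0 B v i) p.1)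
    (g' := fun i p => knorm (fun _ : Unit => itd (ef Q P v) (GT Q P h0 B v i) 1) p.1)
    (M := fun i => Mx i + My i) (t0 := 1) one_pos continuousOn_const continuousOn_const
    (fun i _ => (hfst (KinkC_knorm_cont fun _ =>
      (GT_smooth hN hC hv i).continuousOn)).mono hK0F)
    (fun i _ => (hfst (KinkC_knorm_cont fun _ => (hGc i 1).continuousOn)).mono hK0F)
    (fun _ _ => zero_le_one) (fun _ _ _ => rfl)
    (fun i _ => add_nonneg (hMx0 i) (hMy0 i)) (by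
      rintro i - ⟨u, b⟩ hp - hj
      have hF : Flag Q u b := hK0F hp
      have hu := hF.ne hN
      refine KinkC_knorm_zero.2 fun _ => ?_
      show GT Q P h0 B v i u = 0
      rcases i with _ | i
      · have h1 : FTow Q P h0 B v 0 u = 0 := by
          have ha : al P h0 v u b = 0 := ((hK2m u b).1 (hK0s hp)).2
          have h2 := flag_D1W hN hC hF v
          rw [ha, mul_zero] at h2
          exact h2
        unfold GT
        rw [h1, mul_zero]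
      · have h1 := KinkC_knorm_zero.1 (hj i (Nat.lt_succ_self i)) ()
        have h2 : itd (ef Q P v) (GT Q P h0 B v i) 1 u = 0 := h1
        rw [itd_GT hN hC hv _ _ hu] at h2
        have h3 : FTow Q P h0 B v (i + 1) u = 0 :=
          (mul_eq_zero.1 h2).resolve_left (radn_pos hN _ hu).ne'
        unfold GT
        rw [h3, mul_zero])
    (by
      rintro ⟨u, b⟩ hp -
      obtain ⟨i, hi, hi2⟩ := hr (u, b) hp
      exact ⟨i, hi, fun h => hi2 (KinkC_knorm_zero.1 h ())⟩) hε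
  -- the second derivative of the kinks on `K0`
  have hkE : ∀ u b : m, (u, b) ∈ K0 → S + 1 < E2 Q P v (kf Q P h0 B v r C d) u := by
    intro u b hp
    have hF : Flag Q u b := hK0F hp
    have hu := hF.ne hN
    have h1 := kf_E2 hN hC hv (r := r) (M := fun i => Mx i + My i) hCp hdp hu fun i _ =>
      (le_abs_self _).trans ((hMx i (u, b) (hK2s (hK0s hp))).trans
        (le_add_of_nonneg_right (hMy0 i)))
    rw [BN_apply, hF.1, one_mul] at h1
    have h2 := hpos (u, b) hp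
    have h3 : 0 < -(S + 1) + ∑ i ∈ Finset.range r, S1ZK.kinkTerm (C i) (d i) (Mx i + My i) 1
      (knorm (fun _ : Unit => GT Q P h0 B v i) u)
      (knorm (fun _ : Unit => itd (ef Q P v) (GT Q P h0 B v i) 1) u) := h2
    linarith
  have hzE : ∀ u b : m, (u, b) ∈ K0 → E2 Q P v (zf Q P h0 B c v cA cB J kk r C d) u =
      itd (ef Q P v) (hb Q P h0 B v J kk) 2 u +
        chi cA cB (c u) * E2 Q P v (kf Q P h0 B v r C d) u := by
    intro u b hp
    have hu := Flag.ne hN (hK0F hp)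
    rw [E2_itd hN hv.smooth (zf_smooth hN hC hv cA cB J kk r C hdp) hu,
      E2_itd hN hv.smooth (kf_smooth hN hC hv r C hdp) hu]
    exact zf_itd hN hC hv cA cB J kk r C hdp hX (fun x hx => ef_B hN hC hv hx) 2 hu
  have hin : ∀ u b : m, Flag Q u b → (c u = cA ∨ c u = cB) → al P h0 v u b = 0 →
      ¬ 0 < al' P h0 v u b → (u, b) ∈ K0 := by
    intro u b hF h1 h2 h3
    refine (hK0m u b).2 ⟨⟨(hK2m u b).2 ⟨(hK3m u b).2 ⟨hF, ?_⟩, h2⟩, h1⟩, not_lt.1 h3⟩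
    rcases h1 with h1 | h1 <;> rw [h1] <;> exact ⟨by linarith, by linarith⟩
  refine ⟨zf Q P h0 B c v cA cB J kk r C d, zf_Phi hN hC hG hv hvH cA cB J kk r C hdp,
    zf_inv hN hC hG hv hvH cA cB J kk r C d, ?_, ?_, ?_⟩
  · intro u b hF h1 h2 ha
    have hp3 : (u, b) ∈ K3 := (hK3m u b).2 ⟨hF, h1, h2⟩
    have hp : (u, b) ∈ K2 := (hK2m u b).2 ⟨hp3, ha⟩
    have hu := hF.ne hN
    have h3 := flag_D1W hN hC hF (zf Q P h0 B c v cA cB J kk r C d)
    rw [← h3]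
    have h4 : D1 (zf Q P h0 B c v cA cB J kk r C d) u (Wt P h0 B u) =
        itd (Wt P h0 B) (hb Q P h0 B v J kk) 1 u +
          chi cA cB (c u) * D1 (kf Q P h0 B v r C d) u (Wt P h0 B u) :=
      zf_itd hN hC hv cA cB J kk r C hdp hWs (fun x hx => Wt_B hN hC x) 1 hu
    have h5 := kf_W hN hC hv (r := r) hCp hdp hu
    rw [BN_apply, hF.1, one_mul] at h5
    have h6 : ∑ i ∈ Finset.range r,
        C i * d i * knorm (fun _ : Unit => itd (Wt P h0 B) (GT Q P h0 B v i) 1) u ≤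
        ∑ _i ∈ Finset.range r, ε := by
      refine Finset.sum_le_sum fun i hi => ?_
      refine le_trans ?_ (hCM i (Finset.mem_range.1 hi))
      refine mul_le_mul_of_nonneg_left ?_ (mul_pos (hCp i) (hdp i)).le
      exact (le_abs_self _).trans ((hMy i (u, b) hp3).trans
        (le_add_of_nonneg_left (hMx0 i)))
    rw [Finset.sum_const, Finset.card_range, nsmul_eq_mul] at h6
    have h7 := hlow (u, b) hp
    have h8 : |chi cA cB (c u) * D1 (kf Q P h0 B v r C d) u (Wt P h0 B u)| < e' := by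
      rw [abs_mul]
      calc |chi cA cB (c u)| * |D1 (kf Q P h0 B v r C d) u (Wt P h0 B u)|
          ≤ 1 * |D1 (kf Q P h0 B v r C d) u (Wt P h0 B u)| :=
            mul_le_mul_of_nonneg_right (chi_abs hcc h1 h2) (abs_nonneg _)
        _ < e' := by rw [one_mul]; exact lt_of_le_of_lt (h5.trans h6) hrε
    have h9 := (abs_lt.1 h8).1
    have h10 : e' ≤ itd (Wt P h0 B) (hb Q P h0 B v J kk) 1 u := h7
    rw [h4]
    linarith
  · intro u b hF h1 ha
    by_cases h2 : 0 < al' P h0 v u b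
    · exact Or.inr h2
    · left
      have hp := hin u b hF (Or.inl h1) ha h2
      rw [hzE u b hp, h1, chi_A hcc]
      have h3 := hkE u b hp
      have h4 := (abs_le.1 (hS (u, b) hp)).2
      have h5 : itd (ef Q P v) (hb Q P h0 B v J kk) 2 u ≤ S := h4
      linarith
  · intro u b hF h1 ha
    by_cases h2 : 0 < al' P h0 v u b
    · exact Or.inr h2
    · left
      have hp := hin u b hF (Or.inr h1) ha h2
      rw [hzE u b hp, h1, chi_B hcc]
      have h3 := hkE u b hp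
      have h4 := (abs_le.1 (hS (u, b) hp)).1
      have h5 : -S ≤ itd (ef Q P v) (hb Q P h0 B v J kk) 2 u := h4
      linarith

/-- **module Z with the generalised step B** -/
theorem Z_T3Pos (hN : NData g h m Q P) (hC : Cas g h m Q P h0 B c) (hG : GrpD H h m Q h0 B c)
    (hv : PhiN h m P v) (hvH : InvH H v) {cB cA : ℝ} (hcc : cB < cA) (hA1 : cA < 1)
    (hB1 : -1 < cB)
    (TA : ∀ u b : m, Flag Q u b → cA ≤ c u → al P h0 v u b = 0 → 0 < T3F Q P v u b)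
    (TB : ∀ u b : m, Flag Q u b → c u ≤ cB → al P h0 v u b = 0 → 0 < T3F Q P v u b)
    (M1 : ∀ u b : m, Flag Q u b → cB ≤ c u → c u ≤ cA → ∃ j, 1 ≤ j ∧ aW P h0 B v j u ≠ 0)
    (K : ∀ u b : m, Flag Q u b → (c u = cA ∨ c u = cB) → al P h0 v u b = 0 →
      al' P h0 v u b ≤ 0 → ∃ j, 1 ≤ j ∧ LamT Q P h0 v j u (b : 𝔸) ≠ 0) :
    ∃ φ : m → ℝ, PhiN h m P φ ∧ InvH H φ ∧ T3Pos h Q P φ := by
  obtain ⟨z, hz, hzH, R, EA, EB⟩ := Z_exists hN hC hG hv hvH hcc hA1 hB1 M1 K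
  exact SB_T3Pos hN hC hG hv hvH hz hzH hcc hA1 hB1 R TA TB EA EB

end Pool.Agent.FL.S1Z
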