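import Pool.Agent.FL.S1Hub2
import Pool.Agent.FL.S1Zcore

/-!
# MP_f09395_gt, space (1), module Z in the form of the hub
-/

set_option linter.unusedSectionVars false

noncomputable section

namespace Pool.Agent.FL.S1

open scoped ContDiff Quaternion Matrix ComplexConjugate
open Pool.Agent.Helper93.Fin Pool.Agent.helper79.FP Pool.Agent.helper79.FR
open Pool.Agent.helper79.FR.Sp2 (Mat QQ h0 m gg hh PP BB cc)
open Pool.Agent.FL
open Pool.Agent.FL.Wall (ef EE LamE LamW)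
open Filter Topology

attribute [local instance] Matrix.linftyOpNormedRing Matrix.linftyOpNormedAlgebra

theorem Aj_eq_LamT (v : V → ℝ) (j : ℕ) : Aj v j = S1Z.LamT QQ (PP 1 3) (h0 1 3) v j := by
  induction j with
  | zero => rfl
  | succ j ih =>
    show LamE QQ (PP 1 3) v (Aj v j) = LamE QQ (PP 1 3) v (S1Z.LamT QQ (PP 1 3) (h0 1 3) v j)
    rw [ih]

/-- Z (helper57) -/
theorem Zz {v : V → ℝ} {s : ℝ} (h : Lev v s)
    (hW : ∀ u b, Fl u b → |cc 1 3 u| ≤ s → ∃ j, 1 ≤ j ∧ aWt v j u ≠ 0)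
    (hE : ∀ u b, Fl u b → |cc 1 3 u| = s → alf v u b = 0 → alf' v u b ≤ 0 →
      ∃ j, 1 ≤ j ∧ j < NT ∧ Aj v j u (b : Mat) ≠ 0) :
    ∃ z : V → ℝ, Ph z ∧
      (∀ u b, Fl u b → |cc 1 3 u| ≤ s → alf v u b = 0 →
        0 < QQ (BB 1 3 u) (b : Mat) * alf z u b) ∧
      (∀ u b, Fl u b → cc 1 3 u = s → alf v u b = 0 →
        Pool.Agent.helper75.FL.E2 QQ (PP 1 3) v z u < 0 ∨ 0 < alf' v u b) ∧
      (∀ u b, Fl u b → cc 1 3 u = -s → alf v u b = 0 →
        0 < Pool.Agent.helper75.FL.E2 QQ (PP 1 3) v z u ∨ 0 < alf' v u b) := by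
  have h0 := h.s0
  have h1 := h.s1
  obtain ⟨z, hz, hzH, R, EA, EB⟩ := S1Z.Z_exists nD cD gD h.ph.phi h.ph.inv (cB := -s) (cA := s)
    (by linarith) h1 (by linarith)
    (fun u b hF a1 a2 => hW u b hF (abs_le.2 ⟨a1, a2⟩))
    (fun u b hF a1 a2 a3 => by
      have a4 : |cc 1 3 u| = s := by
        rcases a1 with a1 | a1
        · rw [a1, abs_of_pos h0]
        · rw [a1, abs_neg, abs_of_pos h0]
      obtain ⟨j, j1, -, j3⟩ := hE u b hF a4 a2 a3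
      rw [Aj_eq_LamT] at j3
      exact ⟨j, j1, j3⟩)
  exact ⟨z, ⟨hz, hzH⟩, fun u b hF a1 a2 => R u b hF (abs_le.1 a1).1 (abs_le.1 a1).2 a2, EA, EB⟩

end Pool.Agent.FL.S1
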