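import Pool.Agent.FL.S1FinCore
import Pool.Agent.FL.S1Expl
import Pool.Agent.FL.S1Wall
import Pool.Agent.FL.S1Lev
import Pool.Agent.FL.S1V2
import Pool.Agent.FL.S1Z

/-!
# MP_f09395_gt, space (1): the final assembly
-/

set_option linter.unusedSectionVars false

noncomputable section

namespace Pool.Agent.FL.S1

open scoped ContDiff Quaternion Matrix ComplexConjugate
open Pool.Agent.Helper93.Fin Pool.Agent.helper79.FP Pool.Agent.helper79.FR
open Pool.Agent.helper79.FR.Sp2 (Mat QQ h0 m gg hh PP BB cc)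
open Filter Topology

attribute [local instance] Matrix.linftyOpNormedRing Matrix.linftyOpNormedAlgebra

/-- FIN -/
theorem fin1 : ∃ ψ : V → ℝ, PhiN (hh 1 3) (m 1 3) (PP 1 3) ψ ∧
    InvH (Pool.Agent.helper79.FR.Sp2.H 1 3) ψ ∧ T3Pos (hh 1 3) QQ (PP 1 3) ψ := by
  obtain ⟨ve, ρ, κ, E⟩ := expl
  obtain ⟨v1, hw⟩ := wall_step E
  obtain ⟨v2, s, h2⟩ := lev_exists E hw
  obtain ⟨v3, h3, hW, hE⟩ := V2 h2
  obtain ⟨z, hz, q1, q2, q3⟩ := Zz h3 hW hE
  exact fin_core h3 hz q1 q2 q3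

end Pool.Agent.FL.S1
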