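import Pool.Agent.FL.Adm
import Pool.Agent.FL.S1Fin

/-!
# MP_f09395_gt: `Sp(2)/diag(z, z³)` admits an invariant metric of positive flag curvature
-/

noncomputable section

namespace Pool.Agent.FL

open Pool.Agent.Helper93.Fin Pool.Agent.helper79.FR

attribute [local instance] Matrix.linftyOpNormedRing Matrix.linftyOpNormedAlgebra

theorem admits1 : AdmitsPositive Sp2.G (Sp2.H 1 3) (Sp2.m 1 3) :=
  Adm_of le_rfl (by norm_num) S1.fin1

end Pool.Agent.FL
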