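import Pool.Agent.FL.S2Trans
import Pool.Agent.FL.GE3

/-!
# MP_f09395_gt, space (2): glue, core definitions

SIGNS: everything is in the Lean sign (`v = -v_paper`); `cc 1 1 (iota u) = -cM u` (helper8), so
wall A (`psi4 = 0`) is `cM = 1`, i.e. `c = -1` in the `FR` library, and wall B is `cM = -1`.
-/

set_option linter.unusedSectionVars false

noncomputable section

namespace Pool.Agent.FL.S2

open scoped ContDiff Quaternion Matrix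
open Pool.Agent.Helper93.Fin Pool.Agent.helper79.FP Pool.Agent.helper79.FR
open Pool.Agent.helper79.FR.Sp2 (Mat QQ h0 m gg hh PP BB cc)
open Pool.Agent.helper79.FR
open Filter Topology

attribute [local instance] Matrix.linftyOpNormedRing Matrix.linftyOpNormedAlgebra

/-- the third order form in coordinates -/
def T3C (v : R9 → ℝ) (u b : R9) : ℝ := T3F Q2 (PP 1 1) (toM v) (iota u) (iota b)

/-- `T3(v) - E² n` -/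
def TE (v n : R9 → ℝ) (k : R9 × R9) : ℝ := T3C v k.1 k.2 - ED v (ED v n) k.1

/-- wall flags with `α = 0` -/
def KW (v : R9 → ℝ) (cw : ℝ) : Set (R9 × R9) :=
  {k | Flg k.1 k.2 ∧ cM k.1 = cw ∧ alM v k.1 k.2 = 0}

/-- `|a|²` -/
def aa (u : R9) : ℝ := u.1 ⬝ᵥ u.1

/-- `a, x, y` parallel -/
def Par3 (u : R9) : Prop := u.1 ⨯₃ u.2.1 = 0 ∧ u.1 ⨯₃ u.2.2 = 0 ∧ u.2.1 ⨯₃ u.2.2 = 0

/-- `f` is an umbilic direction of `S` -/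
def Umb2 (S : Matrix (Fin 3) (Fin 3) ℝ) (f : R3) : Prop :=
  ∃ l : ℝ, ∀ g h : R3, g ⬝ᵥ f = 0 → h ⬝ᵥ f = 0 → g ⬝ᵥ S *ᵥ h = l * (g ⬝ᵥ h)

/-- the exceptional set: `a, x, y` parallel, or `a = 0` and `x × y ≠ 0` umbilic -/
def T0p (p : Par) (u : R9) : Prop :=
  Par3 u ∨ (u.1 = 0 ∧ u.2.1 ⨯₃ u.2.2 ≠ 0 ∧ Umb2 p.S (u.2.1 ⨯₃ u.2.2))

/-- conditions on the parameters (all in the Lean sign) -/
structure ParOK (p : Par) : Prop where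
  R : p.Rᵀ = p.R
  S : p.Sᵀ = p.S
  N : p.Nᵀ = p.N
  /-- (Q0) -/
  q0 : ∀ f : R3, f ≠ 0 → Umb2 p.S f → p.ν ⬝ᵥ f ≠ 0
  ν : p.ν ≠ 0
  /-- (Q1), (Q2): regular flags of the exceptional set, and its wall flags in the closure -/
  q1 : ∀ (t τ : ℝ) (n : R3), n ⬝ᵥ n = 1 →
    0 < T3C (v0 p) (Real.cos τ • n, Real.sin τ • n, 0) (-(Real.sin τ) • n, Real.cos τ • n, 0)
  q2 : ∀ (τ : ℝ) (f g : R3), f ⬝ᵥ f = 1 → g ⬝ᵥ g = 1 → f ⬝ᵥ g = 0 → Umb2 p.S (f ⨯₃ g) →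
    0 < T3C (v0 p) (0, Real.cos τ • f, Real.sin τ • g) (0, -(Real.sin τ) • f, Real.cos τ • g)
  /-- (Q3') wall A, `a = 0`, `X p = 0` -/
  q3 : ∀ k ∈ KW (v0 p) 1, k.1.1 = 0 → (eM (v0 p) k.1).1 = 0 → 0 < T3C (v0 p) k.1 k.2
  /-- (Q4') wall B, `x × y = 0`, `X q = 0` -/
  q4 : ∀ k ∈ KW (v0 p) (-1), k.1.2.1 ⨯₃ k.1.2.2 = 0 →
    (eM (v0 p) k.1).2.1 ⨯₃ k.1.2.2 + k.1.2.1 ⨯₃ (eM (v0 p) k.1).2.2 = 0 →
    0 < T3C (v0 p) k.1 k.2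
  /-- (Q5) wall B, `a = 0`, `X p = 0` -/
  q5 : ∀ k ∈ KW (v0 p) (-1), k.1.1 = 0 → (eM (v0 p) k.1).1 = 0 → 0 < T3C (v0 p) k.1 k.2

end Pool.Agent.FL.S2
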