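import Pool.Agent.FL.Q1Br
import Pool.Agent.FL.S2Glue

/-!
# MP_f09395_gt, space (2), Q1: the third order form on the flags with `a, x, y` parallel
-/

set_option linter.unusedSectionVars false

noncomputable section

namespace Pool.Agent.FL.S2

open scoped ContDiff Quaternion Matrix
open Pool.Agent.Helper93.Fin Pool.Agent.helper79.FP Pool.Agent.helper79.FR
open Pool.Agent.helper79.FR.Sp2 (Mat QQ h0 m gg hh PP BB cc)
open Pool.Agent.helper79.FR

attribute [local instance] Matrix.linftyOpNormedRing Matrix.linftyOpNormedAlgebra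

theorem q1_flg {c s : ℝ} (H : c ^ 2 + s ^ 2 = 1) {n : R3} (hn : n ⬝ᵥ n = 1) :
    Flg (c • n, s • n, 0) (-s • n, c • n, 0) := by
  refine ⟨?_, ?_, ?_, ?_, ?_⟩
  · unfold dot9
    simp only [smul_dotProduct, dotProduct_smul, hn, smul_eq_mul, dotProduct_zero]
    linear_combination H
  · unfold dot9
    simp only [smul_dotProduct, dotProduct_smul, hn, smul_eq_mul, dotProduct_zero]
    linear_combination H
  · unfold dot9
    simp only [smul_dotProduct, dotProduct_smul, hn, smul_eq_mul, dotProduct_zero]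
    ring
  · unfold br
    refine Prod.ext ?_ (Prod.ext ?_ ?_)
    · simp
    · simp
    · simp
  · unfold brh
    simp

/-- **(Q1)**, for the function -/
theorem q1_T3C {p : Par} (hR : p.R = !![6, -5, 5; -5, 4, 1; 5, 1, 5])
    (hS : p.S = !![169 / 25, 0, 0; 0, 1, 0; 0, 0, 0])
    (hN : p.N = !![-12, -4, 4; -4, -1, 1; 4, 1, -1]) (hν : p.ν = ![13, 7, -6])
    (τ : ℝ) (n : R3) (hn : n ⬝ᵥ n = 1) :
    0 < T3C (v0 p) (Real.cos τ • n, Real.sin τ • n, 0)
      (-(Real.sin τ) • n, Real.cos τ • n, 0) := by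
  have H : Real.cos τ ^ 2 + Real.sin τ ^ 2 = 1 := by
    rw [add_comm]; exact Real.sin_sq_add_cos_sq τ
  have hp : Q1Num p := ⟨hR, hS, hN, hν⟩
  have h1 := q1_pos hp τ hn
  rw [← T3F_v0 nData2 hp.symm (q1_flg H hn)] at h1
  exact h1

end Pool.Agent.FL.S2
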