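import Mathlib

/-!
# MP_f09395_gt, space (2), quantitative part (Q2): two positive biforms

Polynomial part of (Q2) for the final numbers: `T3` on the flats `a = 0` over the umbilic
directions `(12/13, 0, 5/13)` (`Q2p`) and `(-12/13, 0, 5/13)` (`Q2n`), as biforms of
bidegree `(6, 4)` in `(c, s)` and `(C, S)`; explicit sums of squares.
-/

set_option linter.style.longLine false

noncomputable section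

namespace Pool.Agent.FL.S2

/-- the form `T3` of (Q2) over the umbilic direction `(12/13, 0, 5/13)` -/
def Q2p (c s C S : ℝ) : ℝ :=
  955499 / 845 * c ^ 6 * C ^ 4 - 153989442 / 54925 * c ^ 6 * C ^ 3 * S + 1050743126 / 714025 * c
    ^ 6 * C ^ 2 * S ^ 2 - 35577078 / 54925 * c ^ 6 * C * S ^ 3 + 342618911 / 142805 * c ^ 6 * S
    ^ 4 + 5723472 / 2197 * c ^ 5 * s * C ^ 4 - 1156420404 / 142805 * c ^ 5 * s * C ^ 3 * S +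
    9754531008 / 1856465 * c ^ 5 * s * C ^ 2 * S ^ 2 - 354057204 / 142805 * c ^ 5 * s * C * S ^
    3 + 12753403968 / 1856465 * c ^ 5 * s * S ^ 4 + 1932264213 / 142805 * c ^ 4 * s ^ 2 * C ^ 4
    - 46685359254 / 9282325 * c ^ 4 * s ^ 2 * C ^ 3 * S + 2373953369982 / 120670225 * c ^ 4 * s
    ^ 2 * C ^ 2 * S ^ 2 + 46961015094 / 9282325 * c ^ 4 * s ^ 2 * C * S ^ 3 + 346753202877 /
    24134045 * c ^ 4 * s ^ 2 * S ^ 4 + 33512924344 / 1856465 * c ^ 3 * s ^ 3 * C ^ 4 - 160472640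
    / 28561 * c ^ 3 * s ^ 3 * C ^ 3 * S + 51355435088 / 1856465 * c ^ 3 * s ^ 3 * C ^ 2 * S ^ 2
    + 160472640 / 28561 * c ^ 3 * s ^ 3 * C * S ^ 3 + 33512924344 / 1856465 * c ^ 3 * s ^ 3 * S
    ^ 4 + 346753202877 / 24134045 * c ^ 2 * s ^ 4 * C ^ 4 - 46961015094 / 9282325 * c ^ 2 * s ^
    4 * C ^ 3 * S + 2373953369982 / 120670225 * c ^ 2 * s ^ 4 * C ^ 2 * S ^ 2 + 46685359254 /
    9282325 * c ^ 2 * s ^ 4 * C * S ^ 3 + 1932264213 / 142805 * c ^ 2 * s ^ 4 * S ^ 4 +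
    12753403968 / 1856465 * c * s ^ 5 * C ^ 4 + 354057204 / 142805 * c * s ^ 5 * C ^ 3 * S +
    9754531008 / 1856465 * c * s ^ 5 * C ^ 2 * S ^ 2 + 1156420404 / 142805 * c * s ^ 5 * C * S ^
    3 + 5723472 / 2197 * c * s ^ 5 * S ^ 4 + 342618911 / 142805 * s ^ 6 * C ^ 4 + 35577078 /
    54925 * s ^ 6 * C ^ 3 * S + 1050743126 / 714025 * s ^ 6 * C ^ 2 * S ^ 2 + 153989442 / 54925
    * s ^ 6 * C * S ^ 3 + 955499 / 845 * s ^ 6 * S ^ 4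

/-- a sum of squares -/
def Q2p_ge_c0 (c s C S : ℝ) : ℝ :=
    (1 / 256 * (521 * c ^ 3 * C ^ 2 - 689 * c ^ 3 * C * S - 306 * c ^ 3 * S ^ 2 + 640 * c ^ 2 *
      s * C ^ 2 - 1127 * c ^ 2 * s * C * S - 422 * c ^ 2 * s * S ^ 2 - 84 * c * s ^ 2 * C ^ 2 -
      140 * c * s ^ 2 * C * S + 2 * c * s ^ 2 * S ^ 2 - 102 * s ^ 3 * C ^ 2 + 71 * s ^ 3 * C * S
      + 78 * s ^ 3 * S ^ 2) ^ 2)
    + (1 / 256 * (440 * c ^ 3 * C * S - 668 * c ^ 3 * S ^ 2 - 19 * c ^ 2 * s * C ^ 2 + 707 * c ^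
      2 * s * C * S - 1004 * c ^ 2 * s * S ^ 2 + 5 * c * s ^ 2 * C ^ 2 + 134 * c * s ^ 2 * C * S
      - 6 * c * s ^ 2 * S ^ 2 - s ^ 3 * C ^ 2 + 63 * s ^ 3 * C * S + 38 * s ^ 3 * S ^ 2) ^ 2)
    + (1 / 256 * (238 * c ^ 3 * S ^ 2 - 49 * c ^ 2 * s * C ^ 2 - 167 * c ^ 2 * s * C * S + 336 *
      c ^ 2 * s * S ^ 2 - 6 * c * s ^ 2 * C ^ 2 - 46 * c * s ^ 2 * C * S - c * s ^ 2 * S ^ 2 + 7
      * s ^ 3 * C ^ 2 - 26 * s ^ 3 * C * S - 15 * s ^ 3 * S ^ 2) ^ 2)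
    + (1 / 256 * (1761 * c ^ 2 * s * C ^ 2 + 55 * c ^ 2 * s * C * S - 535 * c ^ 2 * s * S ^ 2 +
      1373 * c * s ^ 2 * C ^ 2 - 209 * c * s ^ 2 * C * S - 473 * c * s ^ 2 * S ^ 2 + 39 * s ^ 3
      * C ^ 2 - 24 * s ^ 3 * C * S - 28 * s ^ 3 * S ^ 2) ^ 2)
    + (1 / 256 * (2287 * c ^ 2 * s * C * S + 449 * c ^ 2 * s * S ^ 2 - 237 * c * s ^ 2 * C ^ 2 +
      2132 * c * s ^ 2 * C * S + 214 * c * s ^ 2 * S ^ 2 - 25 * s ^ 3 * C ^ 2 + 82 * s ^ 3 * C *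
      S + 58 * s ^ 3 * S ^ 2) ^ 2)
    + (1 / 256 * (1359 * c ^ 2 * s * S ^ 2 + 5 * c * s ^ 2 * C ^ 2 - 450 * c * s ^ 2 * C * S +
      1479 * c * s ^ 2 * S ^ 2 + 5 * s ^ 3 * C ^ 2 - 6 * s ^ 3 * C * S - 6 * s ^ 3 * S ^ 2) ^ 2)

theorem Q2p_ge_p0 (c s C S : ℝ) : 0 ≤ Q2p_ge_c0 c s C S := by
  unfold Q2p_ge_c0
  positivity

/-- a sum of squares -/
def Q2p_ge_c1 (c s C S : ℝ) : ℝ :=
    (1 / 256 * (1299 * c * s ^ 2 * C ^ 2 + 56 * c * s ^ 2 * C * S - 399 * c * s ^ 2 * S ^ 2 +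
      625 * s ^ 3 * C ^ 2 + 160 * s ^ 3 * C * S - 125 * s ^ 3 * S ^ 2) ^ 2)
    + (1 / 256 * (1482 * c * s ^ 2 * C * S + 515 * c * s ^ 2 * S ^ 2 + 123 * s ^ 3 * C ^ 2 + 604
      * s ^ 3 * C * S + 315 * s ^ 3 * S ^ 2) ^ 2)
    + (1 / 256 * (795 * c * s ^ 2 * S ^ 2 + 9 * s ^ 3 * C ^ 2 + 229 * s ^ 3 * C * S + 132 * s ^
      3 * S ^ 2) ^ 2)
    + (1 / 256 * (422 * s ^ 3 * C ^ 2 - 197 * s ^ 3 * C * S - 263 * s ^ 3 * S ^ 2) ^ 2)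
    + (1 / 256 * (411 * s ^ 3 * C * S + 226 * s ^ 3 * S ^ 2) ^ 2)
    + (1 / 256 * (86 * s ^ 3 * S ^ 2) ^ 2)

theorem Q2p_ge_p1 (c s C S : ℝ) : 0 ≤ Q2p_ge_c1 c s C S := by
  unfold Q2p_ge_c1
  positivity

/-- a sum of squares -/
def Q2p_ge_c2 (c s C S : ℝ) : ℝ :=
    (5723749 / 14060800 * (c ^ 3 * C ^ 2 + c ^ 3 * C * S) ^ 2)
    + (59320997 / 274185600 * (c ^ 3 * C ^ 2 - c ^ 3 * S ^ 2) ^ 2)
    + (287 / 4394 * (c ^ 3 * C ^ 2 + c ^ 2 * s * C ^ 2) ^ 2)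
    + (49483061 / 36558080 * (c ^ 3 * C ^ 2 - c ^ 2 * s * C * S) ^ 2)
    + (104031781 / 237627520 * (c ^ 3 * C ^ 2 - c ^ 2 * s * S ^ 2) ^ 2)
    + (1972929 / 9139520 * (c ^ 3 * C ^ 2 + c * s ^ 2 * C ^ 2) ^ 2)

theorem Q2p_ge_p2 (c s C S : ℝ) : 0 ≤ Q2p_ge_c2 c s C S := by
  unfold Q2p_ge_c2
  positivity

/-- a sum of squares -/
def Q2p_ge_c3 (c s C S : ℝ) : ℝ :=
    (490957001 / 594068800 * (c ^ 3 * C ^ 2 - c * s ^ 2 * C * S) ^ 2)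
    + (15104755957 / 46337366400 * (c ^ 3 * C ^ 2 + c * s ^ 2 * S ^ 2) ^ 2)
    + (139816123 / 237627520 * (c ^ 3 * C ^ 2 + s ^ 3 * C ^ 2) ^ 2)
    + (4970129 / 7311616 * (c ^ 3 * C ^ 2 + s ^ 3 * C * S) ^ 2)
    + (363412051 / 712882560 * (c ^ 3 * C ^ 2 + s ^ 3 * S ^ 2) ^ 2)
    + (4816283 / 7030400 * (c ^ 3 * C * S + c ^ 3 * S ^ 2) ^ 2)

theorem Q2p_ge_p3 (c s C S : ℝ) : 0 ≤ Q2p_ge_c3 c s C S := by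
  unfold Q2p_ge_c3
  positivity

/-- a sum of squares -/
def Q2p_ge_c4 (c s C S : ℝ) : ℝ :=
    (5399673 / 4569760 * (c ^ 3 * C * S + c ^ 2 * s * C ^ 2) ^ 2)
    + (544083727 / 475255040 * (c ^ 3 * C * S - c ^ 2 * s * C * S) ^ 2)
    + (37019057 / 18279040 * (c ^ 3 * C * S + c ^ 2 * s * S ^ 2) ^ 2)
    + (47417849 / 594068800 * (c ^ 3 * C * S + c * s ^ 2 * C ^ 2) ^ 2)
    + (6647351291 / 23168683200 * (c ^ 3 * C * S + c * s ^ 2 * C * S) ^ 2)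
    + (467049997 / 1188137600 * (c ^ 3 * C * S + c * s ^ 2 * S ^ 2) ^ 2)

theorem Q2p_ge_p4 (c s C S : ℝ) : 0 ≤ Q2p_ge_c4 c s C S := by
  unfold Q2p_ge_c4
  positivity

/-- a sum of squares -/
def Q2p_ge_c5 (c s C S : ℝ) : ℝ :=
    (470999 / 3655808 * (c ^ 3 * C * S - s ^ 3 * C ^ 2) ^ 2)
    + (2052304003 / 1425765120 * (c ^ 3 * C * S - s ^ 3 * C * S) ^ 2)
    + (2042369 / 3655808 * (c ^ 3 * C * S - s ^ 3 * S ^ 2) ^ 2)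
    + (48198349 / 237627520 * (c ^ 3 * S ^ 2 + c ^ 2 * s * C ^ 2) ^ 2)
    + (5220523 / 4569760 * (c ^ 3 * S ^ 2 + c ^ 2 * s * C * S) ^ 2)
    + (207554519 / 118813760 * (c ^ 3 * S ^ 2 - c ^ 2 * s * S ^ 2) ^ 2)

theorem Q2p_ge_p5 (c s C S : ℝ) : 0 ≤ Q2p_ge_c5 c s C S := by
  unfold Q2p_ge_c5
  positivity

/-- a sum of squares -/
def Q2p_ge_c6 (c s C S : ℝ) : ℝ :=
    (16043895467 / 11584341600 * (c ^ 3 * S ^ 2 - c * s ^ 2 * C ^ 2) ^ 2)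
    + (460941961 / 594068800 * (c ^ 3 * S ^ 2 + c * s ^ 2 * C * S) ^ 2)
    + (3300111583 / 3089157760 * (c ^ 3 * S ^ 2 - c * s ^ 2 * S ^ 2) ^ 2)
    + (1273990079 / 712882560 * (c ^ 3 * S ^ 2 - s ^ 3 * C ^ 2) ^ 2)
    + (2755879 / 3655808 * (c ^ 3 * S ^ 2 + s ^ 3 * C * S) ^ 2)
    + (157218277 / 237627520 * (c ^ 3 * S ^ 2 - s ^ 3 * S ^ 2) ^ 2)

theorem Q2p_ge_p6 (c s C S : ℝ) : 0 ≤ Q2p_ge_c6 c s C S := by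
  unfold Q2p_ge_c6
  positivity

/-- a sum of squares -/
def Q2p_ge_c7 (c s C S : ℝ) : ℝ :=
    (9696004729 / 2376275200 * (c ^ 2 * s * C ^ 2 - c ^ 2 * s * C * S) ^ 2)
    + (286549828711 / 92674732800 * (c ^ 2 * s * C ^ 2 - c ^ 2 * s * S ^ 2) ^ 2)
    + (298600241 / 118813760 * (c ^ 2 * s * C ^ 2 - c * s ^ 2 * C ^ 2) ^ 2)
    + (18221403 / 7311616 * (c ^ 2 * s * C ^ 2 - c * s ^ 2 * C * S) ^ 2)
    + (597326641 / 712882560 * (c ^ 2 * s * C ^ 2 + c * s ^ 2 * S ^ 2) ^ 2)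
    + (4597097431 / 6178315520 * (c ^ 2 * s * C ^ 2 - s ^ 3 * C ^ 2) ^ 2)

theorem Q2p_ge_p7 (c s C S : ℝ) : 0 ≤ Q2p_ge_c7 c s C S := by
  unfold Q2p_ge_c7
  positivity

/-- a sum of squares -/
def Q2p_ge_c8 (c s C S : ℝ) : ℝ :=
    (6166878631 / 2376275200 * (c ^ 2 * s * C ^ 2 + s ^ 3 * C * S) ^ 2)
    + (181167963389 / 92674732800 * (c ^ 2 * s * C ^ 2 + s ^ 3 * S ^ 2) ^ 2)
    + (4229565911 / 594068800 * (c ^ 2 * s * C * S + c ^ 2 * s * S ^ 2) ^ 2)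
    + (7768077 / 7311616 * (c ^ 2 * s * C * S - c * s ^ 2 * C ^ 2) ^ 2)
    + (10445418377 / 1425765120 * (c ^ 2 * s * C * S + c * s ^ 2 * C * S) ^ 2)
    + (21491895 / 3655808 * (c ^ 2 * s * C * S + c * s ^ 2 * S ^ 2) ^ 2)

theorem Q2p_ge_p8 (c s C S : ℝ) : 0 ≤ Q2p_ge_c8 c s C S := by
  unfold Q2p_ge_c8
  positivity

/-- a sum of squares -/
def Q2p_ge_c9 (c s C S : ℝ) : ℝ :=
    (90884421 / 37129300 * (c ^ 2 * s * C * S - s ^ 3 * C ^ 2) ^ 2)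
    + (18709129333 / 11584341600 * (c ^ 2 * s * C * S + s ^ 3 * C * S) ^ 2)
    + (5389005929 / 2376275200 * (c ^ 2 * s * C * S + s ^ 3 * S ^ 2) ^ 2)
    + (4625364493 / 1425765120 * (c ^ 2 * s * S ^ 2 - c * s ^ 2 * C ^ 2) ^ 2)
    + (27132435 / 7311616 * (c ^ 2 * s * S ^ 2 + c * s ^ 2 * C * S) ^ 2)
    + (276032037 / 237627520 * (c ^ 2 * s * S ^ 2 - c * s ^ 2 * S ^ 2) ^ 2)

theorem Q2p_ge_p9 (c s C S : ℝ) : 0 ≤ Q2p_ge_c9 c s C S := by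
  unfold Q2p_ge_c9
  positivity

/-- a sum of squares -/
def Q2p_ge_c10 (c s C S : ℝ) : ℝ :=
    (189530967811 / 92674732800 * (c ^ 2 * s * S ^ 2 - s ^ 3 * C ^ 2) ^ 2)
    + (1622394427 / 1188137600 * (c ^ 2 * s * S ^ 2 + s ^ 3 * C * S) ^ 2)
    + (8367263 / 4569760 * (c ^ 2 * s * S ^ 2 - s ^ 3 * S ^ 2) ^ 2)
    + (1172987781 / 2376275200 * (c * s ^ 2 * C ^ 2 + c * s ^ 2 * C * S) ^ 2)
    + (307871699639 / 92674732800 * (c * s ^ 2 * C ^ 2 + c * s ^ 2 * S ^ 2) ^ 2)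
    + (1054850341 / 475255040 * (c * s ^ 2 * C ^ 2 - s ^ 3 * C ^ 2) ^ 2)

theorem Q2p_ge_p10 (c s C S : ℝ) : 0 ≤ Q2p_ge_c10 c s C S := by
  unfold Q2p_ge_c10
  positivity

/-- a sum of squares -/
def Q2p_ge_c11 (c s C S : ℝ) : ℝ :=
    (78906041 / 36558080 * (c * s ^ 2 * C ^ 2 + s ^ 3 * C * S) ^ 2)
    + (1657683763 / 475255040 * (c * s ^ 2 * C ^ 2 + s ^ 3 * S ^ 2) ^ 2)
    + (12220797129 / 2376275200 * (c * s ^ 2 * C * S + c * s ^ 2 * S ^ 2) ^ 2)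
    + (77322629 / 36558080 * (c * s ^ 2 * C * S - s ^ 3 * C ^ 2) ^ 2)
    + (894746389 / 237627520 * (c * s ^ 2 * C * S + s ^ 3 * C * S) ^ 2)
    + (21902999 / 9139520 * (c * s ^ 2 * C * S + s ^ 3 * S ^ 2) ^ 2)

theorem Q2p_ge_p11 (c s C S : ℝ) : 0 ≤ Q2p_ge_c11 c s C S := by
  unfold Q2p_ge_c11
  positivity

/-- a sum of squares -/
def Q2p_ge_c12 (c s C S : ℝ) : ℝ :=
    (671970589 / 237627520 * (c * s ^ 2 * S ^ 2 + s ^ 3 * C ^ 2) ^ 2)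
    + (10495039 / 36558080 * (c * s ^ 2 * S ^ 2 - s ^ 3 * C * S) ^ 2)
    + (677289 / 562432 * (c * s ^ 2 * S ^ 2 - s ^ 3 * S ^ 2) ^ 2)
    + (2672421 / 3515200 * (s ^ 3 * C ^ 2 + s ^ 3 * C * S) ^ 2)
    + (787455731 / 548371200 * (s ^ 3 * C ^ 2 + s ^ 3 * S ^ 2) ^ 2)
    + (5833599 / 14060800 * (s ^ 3 * C * S - s ^ 3 * S ^ 2) ^ 2)

theorem Q2p_ge_p12 (c s C S : ℝ) : 0 ≤ Q2p_ge_c12 c s C S := by
  unfold Q2p_ge_c12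
  positivity

/-- a sum of squares -/
def Q2p_ge_c13 (c s C S : ℝ) : ℝ :=
    (230068430201 / 9267473280 * (c ^ 3 * C ^ 2) ^ 2)
    + (86031684173 / 4633736640 * (c ^ 3 * C * S) ^ 2)
    + (866002917703 / 46337366400 * (c ^ 3 * S ^ 2) ^ 2)
    + (147544624969 / 18534946560 * (c ^ 2 * s * C ^ 2) ^ 2)
    + (25621910897 / 7128825600 * (c ^ 2 * s * C * S) ^ 2)
    + (309118327751 / 92674732800 * (c ^ 2 * s * S ^ 2) ^ 2)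

theorem Q2p_ge_p13 (c s C S : ℝ) : 0 ≤ Q2p_ge_c13 c s C S := by
  unfold Q2p_ge_c13
  positivity

/-- a sum of squares -/
def Q2p_ge_c14 (c s C S : ℝ) : ℝ :=
    (59815872283 / 23168683200 * (c * s ^ 2 * C ^ 2) ^ 2)
    + (83750090171 / 7128825600 * (c * s ^ 2 * C * S) ^ 2)
    + (49744913821 / 9267473280 * (c * s ^ 2 * S ^ 2) ^ 2)
    + (43957934395 / 3706989312 * (s ^ 3 * C ^ 2) ^ 2)
    + (1282943666527 / 92674732800 * (s ^ 3 * C * S) ^ 2)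
    + (561738484211 / 46337366400 * (s ^ 3 * S ^ 2) ^ 2)

theorem Q2p_ge_p14 (c s C S : ℝ) : 0 ≤ Q2p_ge_c14 c s C S := by
  unfold Q2p_ge_c14
  positivity

theorem Q2p_ge_id (c s C S : ℝ) : Q2p c s C S = 40 * ((c ^ 2 + s ^ 2) ^ 3 * (C ^ 2 + S ^ 2) ^ 2)
      + (Q2p_ge_c0 c s C S + Q2p_ge_c1 c s C S + Q2p_ge_c2 c s C S + Q2p_ge_c3 c s C S +
        Q2p_ge_c4 c s C S + Q2p_ge_c5 c s C S + Q2p_ge_c6 c s C S + Q2p_ge_c7 c s C S +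
        Q2p_ge_c8 c s C S + Q2p_ge_c9 c s C S + Q2p_ge_c10 c s C S + Q2p_ge_c11 c s C S +
        Q2p_ge_c12 c s C S + Q2p_ge_c13 c s C S + Q2p_ge_c14 c s C S) := by
  unfold Q2p Q2p_ge_c0 Q2p_ge_c1 Q2p_ge_c2 Q2p_ge_c3 Q2p_ge_c4 Q2p_ge_c5 Q2p_ge_c6 Q2p_ge_c7 Q2p_ge_c8 Q2p_ge_c9 Q2p_ge_c10 Q2p_ge_c11 Q2p_ge_c12 Q2p_ge_c13 Q2p_ge_c14
  ring

theorem Q2p_ge (c s C S : ℝ) : 40 * ((c ^ 2 + s ^ 2) ^ 3 * (C ^ 2 + S ^ 2) ^ 2) ≤ Q2p c s C S := by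
  rw [Q2p_ge_id]
  have h0 := Q2p_ge_p0 c s C S
  have h1 := Q2p_ge_p1 c s C S
  have h2 := Q2p_ge_p2 c s C S
  have h3 := Q2p_ge_p3 c s C S
  have h4 := Q2p_ge_p4 c s C S
  have h5 := Q2p_ge_p5 c s C S
  have h6 := Q2p_ge_p6 c s C S
  have h7 := Q2p_ge_p7 c s C S
  have h8 := Q2p_ge_p8 c s C S
  have h9 := Q2p_ge_p9 c s C S
  have h10 := Q2p_ge_p10 c s C S
  have h11 := Q2p_ge_p11 c s C S
  have h12 := Q2p_ge_p12 c s C S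
  have h13 := Q2p_ge_p13 c s C S
  have h14 := Q2p_ge_p14 c s C S
  linarith

/-- the form `T3` of (Q2) over the umbilic direction `(-12/13, 0, 5/13)` -/
def Q2n (c s C S : ℝ) : ℝ :=
  776531 / 845 * c ^ 6 * C ^ 4 - 23578578 / 54925 * c ^ 6 * C ^ 3 * S + 1293888806 / 714025 * c
    ^ 6 * C ^ 2 * S ^ 2 - 33162342 / 54925 * c ^ 6 * C * S ^ 3 + 26906279 / 142805 * c ^ 6 * S ^
    4 - 7016352 / 2197 * c ^ 5 * s * C ^ 4 + 141998364 / 142805 * c ^ 5 * s * C ^ 3 * S -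
    9083754192 / 1856465 * c ^ 5 * s * C ^ 2 * S ^ 2 + 285503964 / 142805 * c ^ 5 * s * C * S ^
    3 - 348353952 / 1856465 * c ^ 5 * s * S ^ 4 + 912756237 / 142805 * c ^ 4 * s ^ 2 * C ^ 4 +
    1997083194 / 9282325 * c ^ 4 * s ^ 2 * C ^ 3 * S + 1730911882542 / 120670225 * c ^ 4 * s ^ 2
    * C ^ 2 * S ^ 2 - 10946484954 / 9282325 * c ^ 4 * s ^ 2 * C * S ^ 3 + 125042462613 /
    24134045 * c ^ 4 * s ^ 2 * S ^ 4 - 15266967416 / 1856465 * c ^ 3 * s ^ 3 * C ^ 4 - 28701120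
    / 28561 * c ^ 3 * s ^ 3 * C ^ 3 * S - 36147100432 / 1856465 * c ^ 3 * s ^ 3 * C ^ 2 * S ^ 2
    + 28701120 / 28561 * c ^ 3 * s ^ 3 * C * S ^ 3 - 15266967416 / 1856465 * c ^ 3 * s ^ 3 * S ^
    4 + 125042462613 / 24134045 * c ^ 2 * s ^ 4 * C ^ 4 + 10946484954 / 9282325 * c ^ 2 * s ^ 4
    * C ^ 3 * S + 1730911882542 / 120670225 * c ^ 2 * s ^ 4 * C ^ 2 * S ^ 2 - 1997083194 /
    9282325 * c ^ 2 * s ^ 4 * C * S ^ 3 + 912756237 / 142805 * c ^ 2 * s ^ 4 * S ^ 4 - 348353952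
    / 1856465 * c * s ^ 5 * C ^ 4 - 285503964 / 142805 * c * s ^ 5 * C ^ 3 * S - 9083754192 /
    1856465 * c * s ^ 5 * C ^ 2 * S ^ 2 - 141998364 / 142805 * c * s ^ 5 * C * S ^ 3 - 7016352 /
    2197 * c * s ^ 5 * S ^ 4 + 26906279 / 142805 * s ^ 6 * C ^ 4 + 33162342 / 54925 * s ^ 6 * C
    ^ 3 * S + 1293888806 / 714025 * s ^ 6 * C ^ 2 * S ^ 2 + 23578578 / 54925 * s ^ 6 * C * S ^ 3
    + 776531 / 845 * s ^ 6 * S ^ 4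

/-- a sum of squares -/
def Q2n_ge_c0 (c s C S : ℝ) : ℝ :=
    (1 / 256 * (469 * c ^ 3 * C ^ 2 - 117 * c ^ 3 * C * S - 10 * c ^ 3 * S ^ 2 - 872 * c ^ 2 * s
      * C ^ 2 + 122 * c ^ 2 * s * C * S + 96 * c ^ 2 * s * S ^ 2 + 276 * c * s ^ 2 * C ^ 2 + 61
      * c * s ^ 2 * C * S - 87 * c * s ^ 2 * S ^ 2 + 9 * s ^ 3 * C ^ 2 - 3 * s ^ 3 * C * S + 16
      * s ^ 3 * S ^ 2) ^ 2)
    + (1 / 256 * (658 * c ^ 3 * C * S - 119 * c ^ 3 * S ^ 2 - 48 * c ^ 2 * s * C ^ 2 - 1023 * c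
      ^ 2 * s * C * S + 197 * c ^ 2 * s * S ^ 2 + 65 * c * s ^ 2 * C ^ 2 + 176 * c * s ^ 2 * C *
      S - 84 * c * s ^ 2 * S ^ 2 + 15 * s ^ 3 * C ^ 2 + 83 * s ^ 3 * C * S + 5 * s ^ 3 * S ^ 2)
      ^ 2)
    + (1 / 256 * (136 * c ^ 3 * S ^ 2 + 15 * c ^ 2 * s * C ^ 2 + 125 * c ^ 2 * s * C * S + 2 * c
      ^ 2 * s * S ^ 2 - 16 * c * s ^ 2 * C ^ 2 - 87 * c * s ^ 2 * C * S - 111 * c * s ^ 2 * S ^
      2 - s ^ 3 * C ^ 2 + 9 * s ^ 3 * C * S + 37 * s ^ 3 * S ^ 2) ^ 2)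
    + (1 / 256 * (761 * c ^ 2 * s * C ^ 2 + 57 * c ^ 2 * s * C * S - 51 * c ^ 2 * s * S ^ 2 -
      1068 * c * s ^ 2 * C ^ 2 + 34 * c * s ^ 2 * C * S + 83 * c * s ^ 2 * S ^ 2 + 6 * s ^ 3 * C
      ^ 2 + 61 * s ^ 3 * C * S - 36 * s ^ 3 * S ^ 2) ^ 2)
    + (1 / 256 * (1637 * c ^ 2 * s * C * S + 73 * c ^ 2 * s * S ^ 2 - 2 * c * s ^ 2 * C ^ 2 -
      1602 * c * s ^ 2 * C * S - 18 * c * s ^ 2 * S ^ 2 + 29 * s ^ 3 * C ^ 2 + 116 * s ^ 3 * C *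
      S - 17 * s ^ 3 * S ^ 2) ^ 2)
    + (1 / 256 * (1115 * c ^ 2 * s * S ^ 2 + 15 * c * s ^ 2 * C ^ 2 + 159 * c * s ^ 2 * C * S -
      920 * c * s ^ 2 * S ^ 2 - 16 * s ^ 3 * C ^ 2 - 29 * s ^ 3 * C * S + 113 * s ^ 3 * S ^ 2) ^
      2)

theorem Q2n_ge_p0 (c s C S : ℝ) : 0 ≤ Q2n_ge_c0 c s C S := by
  unfold Q2n_ge_c0
  positivity

/-- a sum of squares -/
def Q2n_ge_c1 (c s C S : ℝ) : ℝ :=
    (1 / 256 * (278 * c * s ^ 2 * C ^ 2 + 265 * c * s ^ 2 * C * S - 9 * c * s ^ 2 * S ^ 2 - 76 *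
      s ^ 3 * C ^ 2 - 206 * s ^ 3 * C * S + 4 * s ^ 3 * S ^ 2) ^ 2)
    + (1 / 256 * (1026 * c * s ^ 2 * C * S + 136 * c * s ^ 2 * S ^ 2 - 70 * s ^ 3 * C ^ 2 - 447
      * s ^ 3 * C * S - 98 * s ^ 3 * S ^ 2) ^ 2)
    + (1 / 256 * (665 * c * s ^ 2 * S ^ 2 + 18 * s ^ 3 * C ^ 2 - 50 * s ^ 3 * C * S - 425 * s ^
      3 * S ^ 2) ^ 2)
    + (1 / 256 * (143 * s ^ 3 * C ^ 2 + 180 * s ^ 3 * C * S - 7 * s ^ 3 * S ^ 2) ^ 2)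
    + (1 / 256 * (381 * s ^ 3 * C * S - 3 * s ^ 3 * S ^ 2) ^ 2)
    + (1 / 256 * (115 * s ^ 3 * S ^ 2) ^ 2)

theorem Q2n_ge_p1 (c s C S : ℝ) : 0 ≤ Q2n_ge_c1 c s C S := by
  unfold Q2n_ge_c1
  positivity

/-- a sum of squares -/
def Q2n_ge_c2 (c s C S : ℝ) : ℝ :=
    (4158459 / 14060800 * (c ^ 3 * C ^ 2 - c ^ 3 * C * S) ^ 2)
    + (234582643 / 274185600 * (c ^ 3 * C ^ 2 + c ^ 3 * S ^ 2) ^ 2)
    + (51205 / 70304 * (c ^ 3 * C ^ 2 + c ^ 2 * s * C ^ 2) ^ 2)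
    + (16815637 / 18279040 * (c ^ 3 * C ^ 2 - c ^ 2 * s * C * S) ^ 2)
    + (9187729 / 14851720 * (c ^ 3 * C ^ 2 + c ^ 2 * s * S ^ 2) ^ 2)
    + (899549 / 9139520 * (c ^ 3 * C ^ 2 - c * s ^ 2 * C ^ 2) ^ 2)

theorem Q2n_ge_p2 (c s C S : ℝ) : 0 ≤ Q2n_ge_c2 c s C S := by
  unfold Q2n_ge_c2
  positivity

/-- a sum of squares -/
def Q2n_ge_c3 (c s C S : ℝ) : ℝ :=
    (2128512981 / 2376275200 * (c ^ 3 * C ^ 2 - c * s ^ 2 * C * S) ^ 2)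
    + (75879115591 / 92674732800 * (c ^ 3 * C ^ 2 - c * s ^ 2 * S ^ 2) ^ 2)
    + (44017011 / 475255040 * (c ^ 3 * C ^ 2 + s ^ 3 * C ^ 2) ^ 2)
    + (856593 / 7311616 * (c ^ 3 * C ^ 2 - s ^ 3 * C * S) ^ 2)
    + (54355817 / 89110320 * (c ^ 3 * C ^ 2 + s ^ 3 * S ^ 2) ^ 2)
    + (2076169 / 3515200 * (c ^ 3 * C * S - c ^ 3 * S ^ 2) ^ 2)

theorem Q2n_ge_p3 (c s C S : ℝ) : 0 ≤ Q2n_ge_c3 c s C S := by
  unfold Q2n_ge_c3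
  positivity

/-- a sum of squares -/
def Q2n_ge_c4 (c s C S : ℝ) : ℝ :=
    (2597353 / 4569760 * (c ^ 3 * C * S - c ^ 2 * s * C ^ 2) ^ 2)
    + (24323237 / 29703440 * (c ^ 3 * C * S - c ^ 2 * s * C * S) ^ 2)
    + (12104257 / 18279040 * (c ^ 3 * C * S - c ^ 2 * s * S ^ 2) ^ 2)
    + (1103166397 / 1188137600 * (c ^ 3 * C * S + c * s ^ 2 * C ^ 2) ^ 2)
    + (73993303859 / 92674732800 * (c ^ 3 * C * S + c * s ^ 2 * C * S) ^ 2)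
    + (1419635721 / 2376275200 * (c ^ 3 * C * S + c * s ^ 2 * S ^ 2) ^ 2)

theorem Q2n_ge_p4 (c s C S : ℝ) : 0 ≤ Q2n_ge_c4 c s C S := by
  unfold Q2n_ge_c4
  positivity

/-- a sum of squares -/
def Q2n_ge_c5 (c s C S : ℝ) : ℝ :=
    (7711233 / 7311616 * (c ^ 3 * C * S - s ^ 3 * C ^ 2) ^ 2)
    + (1118580943 / 1425765120 * (c ^ 3 * C * S - s ^ 3 * C * S) ^ 2)
    + (271211 / 3655808 * (c ^ 3 * C * S + s ^ 3 * S ^ 2) ^ 2)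
    + (80206379 / 59406880 * (c ^ 3 * S ^ 2 - c ^ 2 * s * C ^ 2) ^ 2)
    + (23345551 / 36558080 * (c ^ 3 * S ^ 2 + c ^ 2 * s * C * S) ^ 2)
    + (209051059 / 475255040 * (c ^ 3 * S ^ 2 + c ^ 2 * s * S ^ 2) ^ 2)

theorem Q2n_ge_p5 (c s C S : ℝ) : 0 ≤ Q2n_ge_c5 c s C S := by
  unfold Q2n_ge_c5
  positivity

/-- a sum of squares -/
def Q2n_ge_c6 (c s C S : ℝ) : ℝ :=
    (26931916109 / 92674732800 * (c ^ 3 * S ^ 2 + c * s ^ 2 * C ^ 2) ^ 2)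
    + (158079527 / 1188137600 * (c ^ 3 * S ^ 2 - c * s ^ 2 * C * S) ^ 2)
    + (1302556777 / 3089157760 * (c ^ 3 * S ^ 2 - c * s ^ 2 * S ^ 2) ^ 2)
    + (396294497 / 1425765120 * (c ^ 3 * S ^ 2 + s ^ 3 * C ^ 2) ^ 2)
    + (2170399 / 7311616 * (c ^ 3 * S ^ 2 + s ^ 3 * C * S) ^ 2)
    + (59945029 / 475255040 * (c ^ 3 * S ^ 2 - s ^ 3 * S ^ 2) ^ 2)

theorem Q2n_ge_p6 (c s C S : ℝ) : 0 ≤ Q2n_ge_c6 c s C S := by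
  unfold Q2n_ge_c6
  positivity

/-- a sum of squares -/
def Q2n_ge_c7 (c s C S : ℝ) : ℝ :=
    (1094599211 / 594068800 * (c ^ 2 * s * C ^ 2 + c ^ 2 * s * C * S) ^ 2)
    + (25921642441 / 92674732800 * (c ^ 2 * s * C ^ 2 - c ^ 2 * s * S ^ 2) ^ 2)
    + (44225581 / 118813760 * (c ^ 2 * s * C ^ 2 - c * s ^ 2 * C ^ 2) ^ 2)
    + (12395711 / 7311616 * (c ^ 2 * s * C ^ 2 + c * s ^ 2 * C * S) ^ 2)
    + (72835861 / 712882560 * (c ^ 2 * s * C ^ 2 + c * s ^ 2 * S ^ 2) ^ 2)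
    + (7745665139 / 6178315520 * (c ^ 2 * s * C ^ 2 - s ^ 3 * C ^ 2) ^ 2)

theorem Q2n_ge_p7 (c s C S : ℝ) : 0 ≤ Q2n_ge_c7 c s C S := by
  unfold Q2n_ge_c7
  positivity

/-- a sum of squares -/
def Q2n_ge_c8 (c s C S : ℝ) : ℝ :=
    (575364149 / 594068800 * (c ^ 2 * s * C ^ 2 - s ^ 3 * C * S) ^ 2)
    + (7383339659 / 92674732800 * (c ^ 2 * s * C ^ 2 + s ^ 3 * S ^ 2) ^ 2)
    + (3591699771 / 2376275200 * (c ^ 2 * s * C * S + c ^ 2 * s * S ^ 2) ^ 2)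
    + (3655571 / 7311616 * (c ^ 2 * s * C * S - c * s ^ 2 * C ^ 2) ^ 2)
    + (550502653 / 1425765120 * (c ^ 2 * s * C * S - c * s ^ 2 * C * S) ^ 2)
    + (507017 / 1827904 * (c ^ 2 * s * C * S - c * s ^ 2 * S ^ 2) ^ 2)

theorem Q2n_ge_p8 (c s C S : ℝ) : 0 ≤ Q2n_ge_c8 c s C S := by
  unfold Q2n_ge_c8
  positivity

/-- a sum of squares -/
def Q2n_ge_c9 (c s C S : ℝ) : ℝ :=
    (212933471 / 2376275200 * (c ^ 2 * s * C * S - s ^ 3 * C ^ 2) ^ 2)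
    + (124388546041 / 92674732800 * (c ^ 2 * s * C * S - s ^ 3 * C * S) ^ 2)
    + (364871231 / 2376275200 * (c ^ 2 * s * C * S + s ^ 3 * S ^ 2) ^ 2)
    + (534445057 / 356441280 * (c ^ 2 * s * S ^ 2 - c * s ^ 2 * C ^ 2) ^ 2)
    + (4055425 / 7311616 * (c ^ 2 * s * S ^ 2 + c * s ^ 2 * C * S) ^ 2)
    + (754262939 / 475255040 * (c ^ 2 * s * S ^ 2 - c * s ^ 2 * S ^ 2) ^ 2)

theorem Q2n_ge_p9 (c s C S : ℝ) : 0 ≤ Q2n_ge_c9 c s C S := by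
  unfold Q2n_ge_c9
  positivity

/-- a sum of squares -/
def Q2n_ge_c10 (c s C S : ℝ) : ℝ :=
    (34807745929 / 23168683200 * (c ^ 2 * s * S ^ 2 - s ^ 3 * C ^ 2) ^ 2)
    + (1682961381 / 2376275200 * (c ^ 2 * s * S ^ 2 + s ^ 3 * C * S) ^ 2)
    + (33388299 / 36558080 * (c ^ 2 * s * S ^ 2 + s ^ 3 * S ^ 2) ^ 2)
    + (250062771 / 2376275200 * (c * s ^ 2 * C ^ 2 - c * s ^ 2 * C * S) ^ 2)
    + (105959685517 / 46337366400 * (c * s ^ 2 * C ^ 2 + c * s ^ 2 * S ^ 2) ^ 2)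
    + (632325079 / 475255040 * (c * s ^ 2 * C ^ 2 + s ^ 3 * C ^ 2) ^ 2)

theorem Q2n_ge_p10 (c s C S : ℝ) : 0 ≤ Q2n_ge_c10 c s C S := by
  unfold Q2n_ge_c10
  positivity

/-- a sum of squares -/
def Q2n_ge_c11 (c s C S : ℝ) : ℝ :=
    (15548661 / 9139520 * (c * s ^ 2 * C ^ 2 + s ^ 3 * C * S) ^ 2)
    + (237284591 / 237627520 * (c * s ^ 2 * C ^ 2 - s ^ 3 * S ^ 2) ^ 2)
    + (5000312619 / 2376275200 * (c * s ^ 2 * C * S - c * s ^ 2 * S ^ 2) ^ 2)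
    + (14171863 / 18279040 * (c * s ^ 2 * C * S - s ^ 3 * C ^ 2) ^ 2)
    + (596611123 / 475255040 * (c * s ^ 2 * C * S + s ^ 3 * C * S) ^ 2)
    + (7746823 / 18279040 * (c * s ^ 2 * C * S - s ^ 3 * S ^ 2) ^ 2)

theorem Q2n_ge_p11 (c s C S : ℝ) : 0 ≤ Q2n_ge_c11 c s C S := by
  unfold Q2n_ge_c11
  positivity

/-- a sum of squares -/
def Q2n_ge_c12 (c s C S : ℝ) : ℝ :=
    (211979939 / 237627520 * (c * s ^ 2 * S ^ 2 + s ^ 3 * C ^ 2) ^ 2)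
    + (7353761 / 36558080 * (c * s ^ 2 * S ^ 2 - s ^ 3 * C * S) ^ 2)
    + (254353 / 281216 * (c * s ^ 2 * S ^ 2 - s ^ 3 * S ^ 2) ^ 2)
    + (5173951 / 14060800 * (s ^ 3 * C ^ 2 + s ^ 3 * C * S) ^ 2)
    + (43887107 / 274185600 * (s ^ 3 * C ^ 2 - s ^ 3 * S ^ 2) ^ 2)
    + (1857679 / 3515200 * (s ^ 3 * C * S - s ^ 3 * S ^ 2) ^ 2)

theorem Q2n_ge_p12 (c s C S : ℝ) : 0 ≤ Q2n_ge_c12 c s C S := by
  unfold Q2n_ge_c12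
  positivity

/-- a sum of squares -/
def Q2n_ge_c13 (c s C S : ℝ) : ℝ :=
    (634731078901 / 46337366400 * (c ^ 3 * C ^ 2) ^ 2)
    + (140156068999 / 9267473280 * (c ^ 3 * C * S) ^ 2)
    + (55733433667 / 3706989312 * (c ^ 3 * S ^ 2) ^ 2)
    + (83232944243 / 9267473280 * (c ^ 2 * s * C ^ 2) ^ 2)
    + (140782561759 / 18534946560 * (c ^ 2 * s * C * S) ^ 2)
    + (182393441707 / 18534946560 * (c ^ 2 * s * S ^ 2) ^ 2)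

theorem Q2n_ge_p13 (c s C S : ℝ) : 0 ≤ Q2n_ge_c13 c s C S := by
  unfold Q2n_ge_c13
  positivity

/-- a sum of squares -/
def Q2n_ge_c14 (c s C S : ℝ) : ℝ :=
    (22260283629 / 1930723600 * (c * s ^ 2 * C ^ 2) ^ 2)
    + (1065651565 / 71288256 * (c * s ^ 2 * C * S) ^ 2)
    + (49384847977 / 4633736640 * (c * s ^ 2 * S ^ 2) ^ 2)
    + (187562574773 / 15445788800 * (s ^ 3 * C ^ 2) ^ 2)
    + (1064481121763 / 92674732800 * (s ^ 3 * C * S) ^ 2)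
    + (30494683099 / 1853494656 * (s ^ 3 * S ^ 2) ^ 2)

theorem Q2n_ge_p14 (c s C S : ℝ) : 0 ≤ Q2n_ge_c14 c s C S := by
  unfold Q2n_ge_c14
  positivity

theorem Q2n_ge_id (c s C S : ℝ) : Q2n c s C S = 40 * ((c ^ 2 + s ^ 2) ^ 3 * (C ^ 2 + S ^ 2) ^ 2)
      + (Q2n_ge_c0 c s C S + Q2n_ge_c1 c s C S + Q2n_ge_c2 c s C S + Q2n_ge_c3 c s C S +
        Q2n_ge_c4 c s C S + Q2n_ge_c5 c s C S + Q2n_ge_c6 c s C S + Q2n_ge_c7 c s C S +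
        Q2n_ge_c8 c s C S + Q2n_ge_c9 c s C S + Q2n_ge_c10 c s C S + Q2n_ge_c11 c s C S +
        Q2n_ge_c12 c s C S + Q2n_ge_c13 c s C S + Q2n_ge_c14 c s C S) := by
  unfold Q2n Q2n_ge_c0 Q2n_ge_c1 Q2n_ge_c2 Q2n_ge_c3 Q2n_ge_c4 Q2n_ge_c5 Q2n_ge_c6 Q2n_ge_c7 Q2n_ge_c8 Q2n_ge_c9 Q2n_ge_c10 Q2n_ge_c11 Q2n_ge_c12 Q2n_ge_c13 Q2n_ge_c14
  ring

theorem Q2n_ge (c s C S : ℝ) : 40 * ((c ^ 2 + s ^ 2) ^ 3 * (C ^ 2 + S ^ 2) ^ 2) ≤ Q2n c s C S := by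
  rw [Q2n_ge_id]
  have h0 := Q2n_ge_p0 c s C S
  have h1 := Q2n_ge_p1 c s C S
  have h2 := Q2n_ge_p2 c s C S
  have h3 := Q2n_ge_p3 c s C S
  have h4 := Q2n_ge_p4 c s C S
  have h5 := Q2n_ge_p5 c s C S
  have h6 := Q2n_ge_p6 c s C S
  have h7 := Q2n_ge_p7 c s C S
  have h8 := Q2n_ge_p8 c s C S
  have h9 := Q2n_ge_p9 c s C S
  have h10 := Q2n_ge_p10 c s C S
  have h11 := Q2n_ge_p11 c s C S
  have h12 := Q2n_ge_p12 c s C S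
  have h13 := Q2n_ge_p13 c s C S
  have h14 := Q2n_ge_p14 c s C S
  linarith

end Pool.Agent.FL.S2
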