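import Pool.Agent.FL.S2T3
import Pool.Agent.FL.S2Glue
import Pool.Agent.FL.QP2

/-!
# MP_f09395_gt, space (2), block QU, Q2: the third order form at `a = 0` over umbilic directions
-/

set_option linter.unusedSectionVars false
set_option linter.unusedSimpArgs false

noncomputable section

namespace Pool.Agent.FL.S2

open scoped ContDiff Quaternion Matrix
open Pool.Agent.Helper93.Fin Pool.Agent.helper79.FP Pool.Agent.helper79.FR
open Pool.Agent.helper79.FR.Sp2 (Mat QQ h0 m gg hh PP BB cc)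
open Pool.Agent.helper79.FR

attribute [local instance] Matrix.linftyOpNormedRing Matrix.linftyOpNormedAlgebra

/-- a right-handed orthonormal frame -/
structure Q2Fr (f g n : R3) : Prop where
  ff : f ⬝ᵥ f = 1
  gg : g ⬝ᵥ g = 1
  nn : n ⬝ᵥ n = 1
  fg : f ⬝ᵥ g = 0
  gf : g ⬝ᵥ f = 0
  fn : f ⬝ᵥ n = 0
  nf : n ⬝ᵥ f = 0
  gn : g ⬝ᵥ n = 0
  ng : n ⬝ᵥ g = 0
  cfg : f ⨯₃ g = n
  cgn : g ⨯₃ n = f
  cnf : n ⨯₃ f = g
  cgf : g ⨯₃ f = -n
  cng : n ⨯₃ g = -f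
  cfn : f ⨯₃ n = -g

/-- the data of `p` in the frame -/
structure Q2Dat (p : Par) (f g n : R3) (l S13 S23 n1 n2 n3 N13 N23 N33 : ℝ) : Prop where
  Sf : p.S *ᵥ f = l • f + S13 • n
  Sg : p.S *ᵥ g = l • g + S23 • n
  nu : p.ν = n1 • f + n2 • g + n3 • n
  Nn : p.N *ᵥ n = N13 • f + N23 • g + N33 • n

variable {p : Par} {f g n : R3} {c s l S13 S23 n1 n2 n3 N13 N23 N33 : ℝ}

theorem q2b_om (h : Q2Fr f g n) (c s c' s' : ℝ) :
    t3om (0, c • f, s • g) (0, c' • f, s' • g) = (0, 0, ((c * s' + c' * s) / 2) • n) := by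
  unfold t3om
  refine Prod.ext ?_ (Prod.ext ?_ ?_)
  · simp
  · simp
  · simp only [map_smul, LinearMap.smul_apply, h.cfg]
    module

theorem q2b_om' (h : Q2Fr f g n) (c s a b : ℝ) :
    t3om (0, c • f, s • g) (a • f + b • g, 0, 0) = (-(b * c / 2) • n, (a * s / 2) • n, 0) := by
  unfold t3om
  refine Prod.ext ?_ (Prod.ext ?_ ?_)
  · simp only [map_smul, LinearMap.smul_apply, map_add, LinearMap.add_apply, h.cfg, h.cgf,
      cross_self, map_zero, LinearMap.zero_apply]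
    module
  · simp only [map_smul, LinearMap.smul_apply, map_add, LinearMap.add_apply, h.cfg, h.cgf,
      cross_self, map_zero, LinearMap.zero_apply]
    module
  · simp

theorem q2b_om'' (v w : R3) : t3om (v, 0, 0) (w, 0, 0) = 0 := by
  unfold t3om
  simp

theorem q2b_K (h : Q2Fr f g n) (d : Q2Dat p f g n l S13 S23 n1 n2 n3 N13 N23 N33) (a b : ℝ) :
    t3K p (0, 0, a • n) (0, 0, b • n) = -(a * b * N33) := by
  unfold t3K
  simp only [Matrix.mulVec_smul, d.Nn, smul_dotProduct, dotProduct_smul, dotProduct_add, h.nf,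
    h.ng, h.nn, Matrix.mulVec_zero, dotProduct_zero, smul_eq_mul]
  ring

theorem q2b_K' (h : Q2Fr f g n) (d : Q2Dat p f g n l S13 S23 n1 n2 n3 N13 N23 N33)
    (a b a' b' : ℝ) :
    t3K p (a • n, b • n, 0) (a' • n, b' • n, 0) = (a * a' + b * b') * N33 := by
  unfold t3K
  simp only [Matrix.mulVec_smul, d.Nn, smul_dotProduct, dotProduct_smul, dotProduct_add, h.nf,
    h.ng, h.nn, Matrix.mulVec_zero, dotProduct_zero, smul_eq_mul]
  ring

theorem q2b_K'' (a b : R3) (a' : R3) : t3K p (a, b, 0) (0, 0, a') = 0 := by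
  unfold t3K
  simp

theorem q2b_K''' (a b : R3) (a' : R3) : t3K p (0, 0, a') (a, b, 0) = 0 := by
  unfold t3K
  simp

theorem q2b_Kg (h : Q2Fr f g n) (d : Q2Dat p f g n l S13 S23 n1 n2 n3 N13 N23 N33)
    (a c s : ℝ) :
    t3Kg p (0, 0, a • n) (0, c • f, s • g) =
      (0, (-(a * s / 2) * N33) • f + (a * s / 2 * N13) • n,
        (-(a * c / 2) * N33) • g + (a * c / 2 * N23) • n) := by
  unfold t3Kg
  refine Prod.ext ?_ (Prod.ext ?_ ?_)
  · simp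
  · simp only [Matrix.mulVec_smul, d.Nn, map_smul, map_add, LinearMap.smul_apply,
      LinearMap.add_apply, h.cgf, h.cgn, h.cfg, h.cfn, h.cnf, h.cng, cross_self, smul_zero,
      Matrix.mulVec_zero, map_zero, LinearMap.zero_apply]
    module
  · simp only [Matrix.mulVec_smul, d.Nn, map_smul, map_add, LinearMap.smul_apply,
      LinearMap.add_apply, h.cgf, h.cgn, h.cfg, h.cfn, h.cnf, h.cng, cross_self, smul_zero,
      Matrix.mulVec_zero, map_zero, LinearMap.zero_apply]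
    module

theorem q2b_qg (h : Q2Fr f g n) (d : Q2Dat p f g n l S13 S23 n1 n2 n3 N13 N23 N33)
    (c s : ℝ) :
    t3qg p (0, c • f, s • g) =
      (0, ((c * l + s * n3) / 2) • f + ((c * S13 - s * n1) / 2) • n,
        ((s * l + c * n3) / 2) • g + ((s * S23 - c * n2) / 2) • n) := by
  unfold t3qg
  refine Prod.ext ?_ (Prod.ext ?_ ?_)
  · simp
  · simp only [Matrix.mulVec_smul, d.Sf, d.Sg, d.nu, map_smul, map_add, LinearMap.smul_apply,
      LinearMap.add_apply, h.cgf, h.cgn, h.cfg, h.cfn, h.cnf, h.cng, cross_self, smul_zero,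
      Matrix.mulVec_zero, map_zero, LinearMap.zero_apply]
    module
  · simp only [Matrix.mulVec_smul, d.Sf, d.Sg, d.nu, map_smul, map_add, LinearMap.smul_apply,
      LinearMap.add_apply, h.cgf, h.cgn, h.cfg, h.cfn, h.cnf, h.cng, cross_self, smul_zero,
      Matrix.mulVec_zero, map_zero, LinearMap.zero_apply]
    module

theorem q2b_dot (h : Q2Fr f g n) (a b c s : ℝ) :
    dot9 (0, a • f, b • g) (0, c • f, s • g) = a * c + b * s := by
  unfold dot9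
  simp only [smul_dotProduct, dotProduct_smul, h.ff, h.gg, zero_dotProduct, smul_eq_mul]
  ring

theorem q2b_dot' (u v : R3) (a : R3) : dot9 (0, u, v) (a, 0, 0) = 0 := by
  unfold dot9
  simp

theorem q2b_dot'' (h : Q2Fr f g n) (a b c s : ℝ) :
    dot9 (a • f + b • g, 0, 0) (c • f + s • g, 0, 0) = a * c + b * s := by
  unfold dot9
  simp only [smul_dotProduct, dotProduct_smul, add_dotProduct, dotProduct_add, h.ff, h.gg, h.fg,
    h.gf, zero_dotProduct, smul_eq_mul]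
  ring

theorem q2b_F1 (h : Q2Fr f g n) (d : Q2Dat p f g n l S13 S23 n1 n2 n3 N13 N23 N33)
    (c s : ℝ) :
    t3F1 p (0, c • f, s • g) (0, (-s) • f, c • g) = -(2 * c * s * (c ^ 2 - s ^ 2) * N33) := by
  unfold t3F1
  rw [q2b_om h, q2b_om h, q2b_K h d, q2b_K h d, q2b_dot h]
  ring

theorem q2b_F1' (h : Q2Fr f g n) (_d : Q2Dat p f g n l S13 S23 n1 n2 n3 N13 N23 N33)
    (c s a b : ℝ) :
    t3F1 p (0, c • f, s • g) (a • f + b • g, 0, 0) = 0 := by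
  unfold t3F1
  rw [q2b_om h, q2b_om' h, q2b_K''', q2b_dot']
  ring

theorem q2b_F2 (h : Q2Fr f g n) (d : Q2Dat p f g n l S13 S23 n1 n2 n3 N13 N23 N33)
    (H : c ^ 2 + s ^ 2 = 1) :
    t3F2 p (0, c • f, s • g) (0, (-s) • f, c • g) (0, (-s) • f, c • g) =
      (14 * c ^ 2 * s ^ 2 - 2) * N33 := by
  unfold t3F2
  rw [q2b_F1 h d, q2b_om h, q2b_om h, q2b_om h, q2b_K h d, q2b_K h d, q2b_K h d, q2b_dot h,
    q2b_dot h]
  linear_combination (2 * N33 * (c ^ 2 * s ^ 2 - c ^ 2 - s ^ 2 - 1)) * H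

theorem q2b_F2' (h : Q2Fr f g n) (d : Q2Dat p f g n l S13 S23 n1 n2 n3 N13 N23 N33)
    (c s a b a' b' : ℝ) :
    t3F2 p (0, c • f, s • g) (a • f + b • g, 0, 0) (a' • f + b' • g, 0, 0) =
      2 * (b * b' * c ^ 2 + a * a' * s ^ 2) * N33
        + 2 * c ^ 2 * s ^ 2 * N33 * (a * a' + b * b') := by
  unfold t3F2
  rw [q2b_om'', q2b_om h, q2b_om' h, q2b_om' h, q2b_K h d, q2b_K' h d, q2b_dot'' h, q2b_dot',
    q2b_dot']
  have e : t3K p (0, 0, ((c * s + c * s) / 2) • n) 0 = 0 := by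
    unfold t3K
    simp
  rw [e]
  ring

theorem q2b_x (h : Q2Fr f g n) (d : Q2Dat p f g n l S13 S23 n1 n2 n3 N13 N23 N33)
    (H : c ^ 2 + s ^ 2 = 1) :
    t3x p (0, c • f, s • g) =
      (0, (c * l + s * n3 - 2 * c * s ^ 4 * N33) • f
          + (c * S13 - s * n1 + 2 * c * s ^ 2 * N13) • n,
        (s * l + c * n3 - 2 * c ^ 4 * s * N33) • g
          + (s * S23 - c * n2 + 2 * c ^ 2 * s * N23) • n) := by
  unfold t3x
  rw [q2b_om h, q2b_qg h d, q2b_Kg h d, q2b_K h d]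
  refine Prod.ext ?_ (Prod.ext ?_ ?_)
  · simp
  · simp only [Prod.smul_mk, Prod.mk_add_mk, Prod.mk_sub_mk]
    match_scalars
    · linear_combination (2 * c * s ^ 2 * N33) * H
    · ring
  · simp only [Prod.smul_mk, Prod.mk_add_mk, Prod.mk_sub_mk]
    match_scalars
    · linear_combination (2 * c ^ 2 * s * N33) * H
    · ring

theorem q2b_s (h : Q2Fr f g n) (d : Q2Dat p f g n l S13 S23 n1 n2 n3 N13 N23 N33)
    (H : c ^ 2 + s ^ 2 = 1) :
    t3s p (0, c • f, s • g) (0, (-s) • f, c • g) =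
      (0, (10 * c ^ 4 * s * N33 - 12 * c ^ 2 * s * N33 + 2 * s * N33 + c * n3 - s * l) • f
          + (6 * c ^ 2 * s * N13 - 2 * s * N13 - s * S13 - c * n1) • n,
        (-10 * c ^ 5 * N33 + 8 * c ^ 3 * N33 + c * l - s * n3) • g
          + (6 * c ^ 3 * N23 - 4 * c * N23 + c * S23 + s * n2) • n) := by
  unfold t3s
  rw [q2b_F1 h d, q2b_om h, q2b_om h, q2b_qg h d, q2b_Kg h d, q2b_Kg h d, q2b_K h d]
  refine Prod.ext ?_ (Prod.ext ?_ ?_)
  · simp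
  · simp only [Prod.smul_mk, Prod.mk_add_mk, Prod.mk_sub_mk]
    match_scalars
    · linear_combination (-6 * N33 * c ^ 2 * s + 2 * N33 * s) * H
    · linear_combination (-2 * N13 * s) * H
  · simp only [Prod.smul_mk, Prod.mk_add_mk, Prod.mk_sub_mk]
    match_scalars
    · linear_combination (-4 * N33 * c * s ^ 2 + 10 * N33 * c ^ 3) * H
    · linear_combination (-4 * N23 * c) * H

theorem q2b_y (h : Q2Fr f g n) (d : Q2Dat p f g n l S13 S23 n1 n2 n3 N13 N23 N33)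
    (H : c ^ 2 + s ^ 2 = 1) :
    t3y p (0, c • f, s • g) (0, (-s) • f, c • g) =
      (0, (48 * c ^ 5 * N33 - 72 * c ^ 3 * N33 + 24 * c * N33) • f
          + (16 * c ^ 3 * N13 - 12 * c * N13) • n,
        (48 * c ^ 4 * s * N33 - 24 * c ^ 2 * s * N33) • g
          + (-16 * c ^ 2 * s * N23 + 4 * s * N23) • n) := by
  unfold t3y
  rw [q2b_F1 h d, q2b_F2 h d H, q2b_om h, q2b_om h, q2b_om h, q2b_Kg h d, q2b_Kg h d,
    q2b_Kg h d, q2b_K h d]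
  refine Prod.ext ?_ (Prod.ext ?_ ?_)
  · simp
  · simp only [Prod.smul_mk, Prod.mk_add_mk, Prod.mk_sub_mk]
    match_scalars
    · linear_combination (8 * N33 * c * s ^ 2 - 48 * N33 * c ^ 3 + 20 * N33 * c) * H
    · linear_combination (-12 * N13 * c) * H
  · simp only [Prod.smul_mk, Prod.mk_add_mk, Prod.mk_sub_mk]
    match_scalars
    · linear_combination (-40 * N33 * c ^ 2 * s - 4 * N33 * s) * H
    · linear_combination (4 * N23 * s) * H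

theorem q2b_br (h : Q2Fr f g n) (c s A B D E : ℝ) :
    br (0, c • f, s • g) (0, A • f + B • n, D • g + E • n) =
      ((s * E) • f + (-(c * B)) • g, 0, 0) := by
  unfold br
  refine Prod.ext ?_ (Prod.ext ?_ ?_)
  · simp only [map_smul, map_add, LinearMap.smul_apply, LinearMap.add_apply, h.cgf, h.cgn, h.cfg,
      h.cfn, h.cnf, h.cng, cross_self, smul_zero, map_zero, LinearMap.zero_apply]
    module
  · simp
  · simp

theorem q2b_br' (h : Q2Fr f g n) (A B D E A' B' D' E' : ℝ) :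
    br (0, A • f + B • n, D • g + E • n) (0, A' • f + B' • n, D' • g + E' • n) =
      ((D * E' - E * D') • f + (B * A' - A * B') • g, 0, 0) := by
  unfold br
  refine Prod.ext ?_ (Prod.ext ?_ ?_)
  · simp only [map_smul, map_add, LinearMap.smul_apply, LinearMap.add_apply, h.cgf, h.cgn, h.cfg,
      h.cfn, h.cnf, h.cng, cross_self, smul_zero, map_zero, LinearMap.zero_apply]
    module
  · simp
  · simp

/-- the entries of `R` in the frame -/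
structure Q2R (p : Par) (f g : R3) (R11 R12 R22 : ℝ) : Prop where
  ff : f ⬝ᵥ p.R *ᵥ f = R11
  fg : f ⬝ᵥ p.R *ᵥ g = R12
  gf : g ⬝ᵥ p.R *ᵥ f = R12
  gg : g ⬝ᵥ p.R *ᵥ g = R22

theorem q2b_q {R11 R12 R22 : ℝ} (hR : Q2R p f g R11 R12 R22) (a b a' b' : ℝ) :
    t3q p (a • f + b • g, 0, 0) (a' • f + b' • g, 0, 0) =
      (a * a' * R11 + (a * b' + b * a') * R12 + b * b' * R22) / 2 := by
  unfold t3q
  simp only [Matrix.mulVec_add, Matrix.mulVec_smul, smul_dotProduct, dotProduct_smul,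
    add_dotProduct, dotProduct_add, hR.ff, hR.fg, hR.gf, hR.gg, zero_dotProduct,
    dotProduct_zero, map_zero, smul_eq_mul, LinearMap.zero_apply]
  ring

/-- the third order form in frame coordinates -/
def q2T (c s N33 R11 R12 R22 A B D E A' B' D' E' A'' B'' D'' E'' e1 e2 P1 P2 r1 r2 z1 z2 : ℝ) :
    ℝ :=
  -(1 / 2) * (4 * (e2 ^ 2 * s ^ 2 + e1 ^ 2 * c ^ 2) * N33
      - 2 * (2 * (e2 ^ 2 * c ^ 2 + e1 ^ 2 * s ^ 2) * N33
        + 2 * c ^ 2 * s ^ 2 * N33 * (e1 ^ 2 + e2 ^ 2))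
      - 2 * (e1 ^ 2 + e2 ^ 2) * ((14 * c ^ 2 * s ^ 2 - 2) * N33))
    - (4 * c * s * (e1 * (2 * P1 - r1) - e2 * (2 * P2 - r2)) * N33
      + 4 * (e1 * (2 * P1 - r1) + e2 * (2 * P2 - r2)) * (c * s * (c ^ 2 - s ^ 2) * N33))
    + (1 / 2) * (e1 * z1 * R11 + (e1 * z2 + e2 * z1) * R12 + e2 * z2 * R22
      + 2 * (e2 * z2 * c ^ 2 + e1 * z1 * s ^ 2) * N33
      + 2 * c ^ 2 * s ^ 2 * N33 * (e1 * z1 + e2 * z2))
    - (P1 * P1 * R11 + (P1 * P2 + P2 * P1) * R12 + P2 * P2 * R22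
      + 2 * (P2 * P2 * c ^ 2 + P1 * P1 * s ^ 2) * N33
      + 2 * c ^ 2 * s ^ 2 * N33 * (P1 * P1 + P2 * P2))
    + (P1 * r1 * R11 + (P1 * r2 + P2 * r1) * R12 + P2 * r2 * R22
      + 2 * (P2 * r2 * c ^ 2 + P1 * r1 * s ^ 2) * N33
      + 2 * c ^ 2 * s ^ 2 * N33 * (P1 * r1 + P2 * r2))
    - (r1 * r1 * R11 + (r1 * r2 + r2 * r1) * R12 + r2 * r2 * R22
      + 2 * (r2 * r2 * c ^ 2 + r1 * r1 * s ^ 2) * N33
      + 2 * c ^ 2 * s ^ 2 * N33 * (r1 * r1 + r2 * r2))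
    - ((P1 - r1) * (D * E' - E * D') + (P2 - r2) * (B * A' - A * B'))
    - (1 / 2) * ((D * E'' - E * D'') * e1 + (B * A'' - A * B'') * e2)

theorem q2b_z (h : Q2Fr f g n) (d : Q2Dat p f g n l S13 S23 n1 n2 n3 N13 N23 N33)
    {R11 R12 R22 : ℝ} (hR : Q2R p f g R11 R12 R22)
    (H : c ^ 2 + s ^ 2 = 1) (A B D E A' B' D' E' A'' B'' D'' E'' e1 e2 P1 P2 r1 r2 : ℝ) :
    t3z p (0, c • f, s • g) (0, (-s) • f, c • g) (0, A • f + B • n, D • g + E • n)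
      (0, A' • f + B' • n, D' • g + E' • n) (0, A'' • f + B'' • n, D'' • g + E'' • n)
      (e1 • f + e2 • g, 0, 0) (P1 • f + P2 • g, 0, 0) (r1 • f + r2 • g, 0, 0) =
    q2T c s N33 R11 R12 R22 A B D E A' B' D' E' A'' B'' D'' E'' e1 e2 P1 P2 r1 r2
      (2 * c * E' + s * E'') (2 * s * B' - c * B'') := by
  have hw : (2 : ℝ) • ((P1 • f + P2 • g, 0, 0) : R9) - (r1 • f + r2 • g, 0, 0) =
      ((2 * P1 - r1) • f + (2 * P2 - r2) • g, 0, 0) := by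
    refine Prod.ext ?_ (Prod.ext ?_ ?_)
    · simp only [Prod.smul_mk, Prod.mk_sub_mk]
      module
    · simp
    · simp
  have hv : ((P1 • f + P2 • g, 0, 0) : R9) - (r1 • f + r2 • g, 0, 0) =
      ((P1 - r1) • f + (P2 - r2) • g, 0, 0) := by
    refine Prod.ext ?_ (Prod.ext ?_ ?_)
    · simp only [Prod.mk_sub_mk]
      module
    · simp
    · simp
  have hz : (2 : ℝ) • br (0, (-s) • f, c • g) (0, A' • f + B' • n, D' • g + E' • n)
      + br (0, c • f, s • g) (0, A'' • f + B'' • n, D'' • g + E'' • n) =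
      ((2 * c * E' + s * E'') • f + (2 * s * B' - c * B'') • g, 0, 0) := by
    rw [q2b_br h, q2b_br h]
    refine Prod.ext ?_ (Prod.ext ?_ ?_)
    · simp only [Prod.smul_mk, Prod.mk_add_mk]
      module
    · simp
    · simp
  have z1 : ∀ v : R9, t3K p v 0 = 0 := fun v => by
    unfold t3K
    simp
  unfold t3z
  rw [hw, hv, hz]
  rw [q2b_om'', q2b_om'', z1, z1]
  rw [q2b_F1 h d, q2b_F1' h d, q2b_F2 h d H]
  rw [q2b_F2' h d, q2b_F2' h d, q2b_F2' h d, q2b_F2' h d, q2b_F2' h d]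
  rw [q2b_q hR, q2b_q hR, q2b_q hR, q2b_q hR]
  rw [q2b_br' h, q2b_br' h]
  rw [q2b_dot', q2b_dot', q2b_dot'' h, q2b_dot'' h, q2b_dot'' h, q2b_dot'' h]
  rw [q2b_om' h, q2b_om' h, q2b_om' h, q2b_om' h, q2b_K' h d, q2b_K' h d, q2b_K' h d]
  unfold q2T
  ring

/-- the third order form in terms of the data -/
def q2F (c s l S13 S23 n1 n2 n3 N13 N23 N33 R11 R12 R22 : ℝ) : ℝ :=
  q2T c s N33 R11 R12 R22
    (c * l + s * n3 - 2 * c * s ^ 4 * N33) (c * S13 - s * n1 + 2 * c * s ^ 2 * N13)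
    (s * l + c * n3 - 2 * c ^ 4 * s * N33) (s * S23 - c * n2 + 2 * c ^ 2 * s * N23)
    (10 * c ^ 4 * s * N33 - 12 * c ^ 2 * s * N33 + 2 * s * N33 + c * n3 - s * l)
    (6 * c ^ 2 * s * N13 - 2 * s * N13 - s * S13 - c * n1)
    (-10 * c ^ 5 * N33 + 8 * c ^ 3 * N33 + c * l - s * n3)
    (6 * c ^ 3 * N23 - 4 * c * N23 + c * S23 + s * n2)
    (48 * c ^ 5 * N33 - 72 * c ^ 3 * N33 + 24 * c * N33) (16 * c ^ 3 * N13 - 12 * c * N13)
    (48 * c ^ 4 * s * N33 - 24 * c ^ 2 * s * N33) (-16 * c ^ 2 * s * N23 + 4 * s * N23)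
    (s * (s * S23 - c * n2 + 2 * c ^ 2 * s * N23))
    (-(c * (c * S13 - s * n1 + 2 * c * s ^ 2 * N13)))
    (c * (s * S23 - c * n2 + 2 * c ^ 2 * s * N23))
    (-(-s * (c * S13 - s * n1 + 2 * c * s ^ 2 * N13)))
    (s * (6 * c ^ 3 * N23 - 4 * c * N23 + c * S23 + s * n2))
    (-(c * (6 * c ^ 2 * s * N13 - 2 * s * N13 - s * S13 - c * n1)))
    (2 * c * (6 * c ^ 3 * N23 - 4 * c * N23 + c * S23 + s * n2)
      + s * (-16 * c ^ 2 * s * N23 + 4 * s * N23))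
    (2 * s * (6 * c ^ 2 * s * N13 - 2 * s * N13 - s * S13 - c * n1)
      - c * (16 * c ^ 3 * N13 - 12 * c * N13))

/-- **the third order form at `a = 0` over an umbilic direction** -/
theorem q2b_T3x (h : Q2Fr f g n) (d : Q2Dat p f g n l S13 S23 n1 n2 n3 N13 N23 N33)
    {R11 R12 R22 : ℝ} (hR : Q2R p f g R11 R12 R22) (H : c ^ 2 + s ^ 2 = 1) :
    T3x p (0, c • f, s • g) (0, (-s) • f, c • g) =
      q2F c s l S13 S23 n1 n2 n3 N13 N23 N33 R11 R12 R22 := by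
  unfold T3x
  rw [q2b_x h d H, q2b_s h d H, q2b_y h d H, q2b_br h, q2b_br h, q2b_br h, q2b_z h d hR H]
  rfl

theorem q2b_dat_p1 {p : Par} (hS : p.S = !![169 / 25, 0, 0; 0, 1, 0; 0, 0, 0])
    (hN : p.N = !![-12, -4, 4; -4, -1, 1; 4, 1, -1]) (hν : p.ν = ![13, 7, -6])
    {C S : ℝ} (K : C ^ 2 + S ^ 2 = 1) :
    Q2Dat p ![-5 / 13 * S, C, 12 / 13 * S] ![-5 / 13 * C, -S, 12 / 13 * C] ![12/13, 0, 5/13]
      1 (-12 / 5 * S) (-12 / 5 * C) (7 * C - 137 / 13 * S) (-137 / 13 * C - 7 * S) (126/13)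
      (-43 / 13 * C + 1136 / 169 * S) (1136 / 169 * C + 43 / 13 * S) (-1273/169) := by
  refine ⟨?_, ?_, ?_, ?_⟩
  · rw [hS]
    ext i
    fin_cases i <;> simp [Matrix.mulVec, dotProduct, Fin.sum_univ_three] <;> ring
  · rw [hS]
    ext i
    fin_cases i <;> simp [Matrix.mulVec, dotProduct, Fin.sum_univ_three] <;> ring
  · rw [hν]
    ext i
    fin_cases i <;> simp
    · linear_combination (-685 / 169) * K
    · linear_combination (-7) * K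
    · linear_combination (1644 / 169) * K
  · rw [hN]
    ext i
    fin_cases i <;> simp [Matrix.mulVec, dotProduct, Fin.sum_univ_three]
    · linear_combination (5680 / 2197) * K
    · linear_combination (43 / 13) * K
    · linear_combination (-13632 / 2197) * K

theorem q2b_R_p1 {p : Par} (hR : p.R = !![6, -5, 5; -5, 4, 1; 5, 1, 5]) (C S : ℝ) :
    Q2R p ![-5 / 13 * S, C, 12 / 13 * S] ![-5 / 13 * C, -S, 12 / 13 * C]
      (74 / 13 * C * S + 4 * C ^ 2 + 270 / 169 * S ^ 2)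
      (-406 / 169 * C * S + 37 / 13 * C ^ 2 - 37 / 13 * S ^ 2)
      (-74 / 13 * C * S + 270 / 169 * C ^ 2 + 4 * S ^ 2) := by
  refine ⟨?_, ?_, ?_, ?_⟩ <;> rw [hR] <;>
    simp [Matrix.mulVec, dotProduct, Fin.sum_univ_three] <;> ring

theorem q2b_dat_n1 {p : Par} (hS : p.S = !![169 / 25, 0, 0; 0, 1, 0; 0, 0, 0])
    (hN : p.N = !![-12, -4, 4; -4, -1, 1; 4, 1, -1]) (hν : p.ν = ![13, 7, -6])
    {C S : ℝ} (K : C ^ 2 + S ^ 2 = 1) :
    Q2Dat p ![5 / 13 * S, C, 12 / 13 * S] ![5 / 13 * C, -S, 12 / 13 * C] ![12/13, 0, -5/13]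
      1 (12 / 5 * S) (12 / 5 * C) (7 * C - 7 / 13 * S) (-7 / 13 * C - 7 * S) (186/13)
      (-53 / 13 * C - 184 / 169 * S) (-184 / 169 * C + 53 / 13 * S) (-2233/169) := by
  refine ⟨?_, ?_, ?_, ?_⟩
  · rw [hS]
    ext i
    fin_cases i <;> simp [Matrix.mulVec, dotProduct, Fin.sum_univ_three] <;> ring
  · rw [hS]
    ext i
    fin_cases i <;> simp [Matrix.mulVec, dotProduct, Fin.sum_univ_three] <;> ring
  · rw [hν]
    ext i
    fin_cases i <;> simp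
    · linear_combination (35 / 169) * K
    · linear_combination (-7) * K
    · linear_combination (84 / 169) * K
  · rw [hN]
    ext i
    fin_cases i <;> simp [Matrix.mulVec, dotProduct, Fin.sum_univ_three]
    · linear_combination (920 / 2197) * K
    · linear_combination (53 / 13) * K
    · linear_combination (2208 / 2197) * K

theorem q2b_R_n1 {p : Par} (hR : p.R = !![6, -5, 5; -5, 4, 1; 5, 1, 5]) (C S : ℝ) :
    Q2R p ![5 / 13 * S, C, 12 / 13 * S] ![5 / 13 * C, -S, 12 / 13 * C]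
      (-2 * C * S + 4 * C ^ 2 + 1470 / 169 * S ^ 2)
      (794 / 169 * C * S - C ^ 2 + S ^ 2)
      (2 * C * S + 1470 / 169 * C ^ 2 + 4 * S ^ 2) := by
  refine ⟨?_, ?_, ?_, ?_⟩ <;> rw [hR] <;>
    simp [Matrix.mulVec, dotProduct, Fin.sum_univ_three] <;> ring

theorem q2b_dat_p2 {p : Par} (hS : p.S = !![169 / 25, 0, 0; 0, 1, 0; 0, 0, 0])
    (hN : p.N = !![-12, -4, 4; -4, -1, 1; 4, 1, -1]) (hν : p.ν = ![13, 7, -6])
    {C S : ℝ} (K : C ^ 2 + S ^ 2 = 1) :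
    Q2Dat p ![-5 / 13 * S, C, 12 / 13 * S] ![5 / 13 * C, S, -12 / 13 * C] ![-12/13, 0, -5/13]
      1 (12 / 5 * S) (-12 / 5 * C) (7 * C - 137 / 13 * S) (137 / 13 * C + 7 * S) (-126/13)
      (43 / 13 * C - 1136 / 169 * S) (1136 / 169 * C + 43 / 13 * S) (-1273/169) := by
  refine ⟨?_, ?_, ?_, ?_⟩
  · rw [hS]
    ext i
    fin_cases i <;> simp [Matrix.mulVec, dotProduct, Fin.sum_univ_three] <;> ring
  · rw [hS]
    ext i
    fin_cases i <;> simp [Matrix.mulVec, dotProduct, Fin.sum_univ_three] <;> ring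
  · rw [hν]
    ext i
    fin_cases i <;> simp
    · linear_combination (-685 / 169) * K
    · linear_combination (-7) * K
    · linear_combination (1644 / 169) * K
  · rw [hN]
    ext i
    fin_cases i <;> simp [Matrix.mulVec, dotProduct, Fin.sum_univ_three]
    · linear_combination (-5680 / 2197) * K
    · linear_combination (-43 / 13) * K
    · linear_combination (13632 / 2197) * K

theorem q2b_R_p2 {p : Par} (hR : p.R = !![6, -5, 5; -5, 4, 1; 5, 1, 5]) (C S : ℝ) :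
    Q2R p ![-5 / 13 * S, C, 12 / 13 * S] ![5 / 13 * C, S, -12 / 13 * C]
      (74 / 13 * C * S + 4 * C ^ 2 + 270 / 169 * S ^ 2)
      (406 / 169 * C * S - 37 / 13 * C ^ 2 + 37 / 13 * S ^ 2)
      (-74 / 13 * C * S + 270 / 169 * C ^ 2 + 4 * S ^ 2) := by
  refine ⟨?_, ?_, ?_, ?_⟩ <;> rw [hR] <;>
    simp [Matrix.mulVec, dotProduct, Fin.sum_univ_three] <;> ring

theorem q2b_dat_n2 {p : Par} (hS : p.S = !![169 / 25, 0, 0; 0, 1, 0; 0, 0, 0])
    (hN : p.N = !![-12, -4, 4; -4, -1, 1; 4, 1, -1]) (hν : p.ν = ![13, 7, -6])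
    {C S : ℝ} (K : C ^ 2 + S ^ 2 = 1) :
    Q2Dat p ![5 / 13 * S, C, 12 / 13 * S] ![-5 / 13 * C, S, -12 / 13 * C] ![-12/13, 0, 5/13]
      1 (-12 / 5 * S) (12 / 5 * C) (7 * C - 7 / 13 * S) (7 / 13 * C + 7 * S) (-186/13)
      (53 / 13 * C + 184 / 169 * S) (-184 / 169 * C + 53 / 13 * S) (-2233/169) := by
  refine ⟨?_, ?_, ?_, ?_⟩
  · rw [hS]
    ext i
    fin_cases i <;> simp [Matrix.mulVec, dotProduct, Fin.sum_univ_three] <;> ring
  · rw [hS]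
    ext i
    fin_cases i <;> simp [Matrix.mulVec, dotProduct, Fin.sum_univ_three] <;> ring
  · rw [hν]
    ext i
    fin_cases i <;> simp
    · linear_combination (35 / 169) * K
    · linear_combination (-7) * K
    · linear_combination (84 / 169) * K
  · rw [hN]
    ext i
    fin_cases i <;> simp [Matrix.mulVec, dotProduct, Fin.sum_univ_three]
    · linear_combination (-920 / 2197) * K
    · linear_combination (-53 / 13) * K
    · linear_combination (-2208 / 2197) * K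

theorem q2b_R_n2 {p : Par} (hR : p.R = !![6, -5, 5; -5, 4, 1; 5, 1, 5]) (C S : ℝ) :
    Q2R p ![5 / 13 * S, C, 12 / 13 * S] ![-5 / 13 * C, S, -12 / 13 * C]
      (-2 * C * S + 4 * C ^ 2 + 1470 / 169 * S ^ 2)
      (-794 / 169 * C * S + C ^ 2 - S ^ 2)
      (2 * C * S + 1470 / 169 * C ^ 2 + 4 * S ^ 2) := by
  refine ⟨?_, ?_, ?_, ?_⟩ <;> rw [hR] <;>
    simp [Matrix.mulVec, dotProduct, Fin.sum_univ_three] <;> ring

theorem q2b_num_p1 {c s C S : ℝ} (H : c ^ 2 + s ^ 2 = 1) (K : C ^ 2 + S ^ 2 = 1) :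
    q2F c s 1 (-12 / 5 * S) (-12 / 5 * C) (7 * C - 137 / 13 * S) (-137 / 13 * C - 7 * S) (126/13)
      (-43 / 13 * C + 1136 / 169 * S) (1136 / 169 * C + 43 / 13 * S) (-1273/169)
      (74 / 13 * C * S + 4 * C ^ 2 + 270 / 169 * S ^ 2)
      (-406 / 169 * C * S + 37 / 13 * C ^ 2 - 37 / 13 * S ^ 2)
      (-74 / 13 * C * S + 270 / 169 * C ^ 2 + 4 * S ^ 2) =
    Q2p c s C S := by
  unfold q2F q2T Q2p
  linear_combination
    (-7959488512 / 371293 * C * S * c ^ 4 * s ^ 6 - 3979744256 / 371293 * C * S * c ^ 6 * s ^ 4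
      - 3979744256 / 371293 * C * S * c ^ 8 * s ^ 2 + 150641728 / 28561 * C ^ 2 * c ^ 4 * s ^ 6 -
      19920209520 / 4826809 * C ^ 2 * c ^ 6 * s ^ 4 - 52569645056 / 4826809 * C ^ 2 * c ^ 8 * s ^
      2 + 105139290112 / 4826809 * S ^ 2 * c ^ 4 * s ^ 6 + 19920209520 / 4826809 * S ^ 2 * c ^ 6
      * s ^ 4 - 75320864 / 28561 * S ^ 2 * c ^ 8 * s ^ 2 + 4530637552 / 1856465 * C * S * c ^ 2 *
      s ^ 6 - 1127816896 / 28561 * C * S * c ^ 3 * s ^ 5 - 12794036992 / 1856465 * C * S * c ^ 4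
      * s ^ 4 - 281954224 / 28561 * C * S * c ^ 5 * s ^ 3 - 9859150768 / 1856465 * C * S * c ^ 6
      * s ^ 2 - 563908448 / 28561 * C * S * c ^ 7 * s + 646156800 / 371293 * C * S ^ 3 * c ^ 2 *
      s ^ 4 + 646156800 / 371293 * C * S ^ 3 * c ^ 4 * s ^ 2 - 7125829008 / 4826809 * C ^ 2 * S ^
      2 * c ^ 2 * s ^ 4 - 57290253136 / 4826809 * C ^ 2 * S ^ 2 * c ^ 4 * s ^ 2 - 18830216 /
      28561 * C ^ 2 * c ^ 2 * s ^ 6 + 2041392984 / 371293 * C ^ 2 * c ^ 3 * s ^ 5 + 41170836432 /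
      24134045 * C ^ 2 * c ^ 4 * s ^ 4 - 13684943496 / 371293 * C ^ 2 * c ^ 5 * s ^ 3 +
      436253810568 / 24134045 * C ^ 2 * c ^ 6 * s ^ 2 - 6339825152 / 371293 * C ^ 2 * c ^ 7 * s +
      198006056 / 371293 * C ^ 3 * S * c ^ 2 * s ^ 4 + 198006056 / 371293 * C ^ 3 * S * c ^ 4 * s
      ^ 2 - 1996920 / 28561 * C ^ 4 * c ^ 2 * s ^ 4 - 150412376 / 28561 * C ^ 4 * c ^ 4 * s ^ 2 -
      53981065984 / 24134045 * S ^ 2 * c ^ 2 * s ^ 6 + 10576644120 / 371293 * S ^ 2 * c ^ 3 * s ^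
      5 + 52677086256 / 24134045 * S ^ 2 * c ^ 4 * s ^ 4 - 11551130712 / 371293 * S ^ 2 * c ^ 5 *
      s ^ 3 + 615095228064 / 24134045 * S ^ 2 * c ^ 6 * s ^ 2 - 12261536 / 2197 * S ^ 2 * c ^ 7 *
      s - 20647936 / 28561 * S ^ 4 * c ^ 2 * s ^ 4 - 169063392 / 28561 * S ^ 4 * c ^ 4 * s ^ 2 +
      388585796 / 142805 * C * S * c * s ^ 5 - 37831738436 / 1856465 * C * S * c ^ 2 * s ^ 4 -
      4911597156 / 142805 * C * S * c ^ 3 * s ^ 3 - 2470960568 / 1856465 * C * S * c ^ 4 * s ^ 2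
      + 537648960 / 28561 * C * S * c ^ 5 * s + 111570812 / 10985 * C * S * c ^ 6 - 667880254 /
      142805 * C * S ^ 3 * c * s ^ 3 - 8017211036 / 9282325 * C * S ^ 3 * c ^ 2 * s ^ 2 +
      1443599034 / 142805 * C * S ^ 3 * c ^ 3 * s + 33867360822 / 9282325 * C * S ^ 3 * c ^ 4 -
      153989442 / 54925 * C * S ^ 3 * s ^ 4 - 15185368858 / 1856465 * C ^ 2 * S ^ 2 * c * s ^ 3 -
      1853209280768 / 120670225 * C ^ 2 * S ^ 2 * c ^ 2 * s ^ 2 - 11050365514 / 371293 * C ^ 2 *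
      S ^ 2 * c ^ 3 * s - 1525333886 / 714025 * C ^ 2 * S ^ 2 * c ^ 4 - 1050743126 / 714025 * C ^
      2 * S ^ 2 * s ^ 4 + 707788 / 10985 * C ^ 2 * c * s ^ 5 + 6404048630 / 4826809 * C ^ 2 * c ^
      2 * s ^ 4 + 17961897168 / 1856465 * C ^ 2 * c ^ 3 * s ^ 3 - 2509436472 / 142805 * C ^ 2 * c
      ^ 4 * s ^ 2 + 50972192936 / 1856465 * C ^ 2 * c ^ 5 * s + 238929370 / 28561 * C ^ 2 * c ^ 6
      - 266698654 / 142805 * C ^ 3 * S * c * s ^ 3 + 49386535076 / 9282325 * C ^ 3 * S * c ^ 2 *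
      s ^ 2 + 1844780634 / 142805 * C ^ 3 * S * c ^ 3 * s + 51820184178 / 9282325 * C ^ 3 * S * c
      ^ 4 - 35577078 / 54925 * C ^ 3 * S * s ^ 4 - 12659732338 / 1856465 * C ^ 4 * c * s ^ 3 -
      230639839966 / 24134045 * C ^ 4 * c ^ 2 * s ^ 2 - 23461936846 / 1856465 * C ^ 4 * c ^ 3 * s
      - 7243006079 / 24134045 * C ^ 4 * c ^ 4 - 342618911 / 142805 * C ^ 4 * s ^ 4 - 3255020264 /
      1856465 * S ^ 2 * c * s ^ 5 + 55724257298 / 4826809 * S ^ 2 * c ^ 2 * s ^ 4 + 45923191524 /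
      1856465 * S ^ 2 * c ^ 3 * s ^ 3 - 1751978565132 / 120670225 * S ^ 2 * c ^ 4 * s ^ 2 +
      37865271656 / 1856465 * S ^ 2 * c ^ 5 * s + 3280197658 / 714025 * S ^ 2 * c ^ 6 - 7625136 /
      2197 * S ^ 4 * c * s ^ 3 - 1519423618 / 142805 * S ^ 4 * c ^ 2 * s ^ 2 - 35707494124 /
      1856465 * S ^ 4 * c ^ 3 * s - 18736062031 / 4826809 * S ^ 4 * c ^ 4 - 955499 / 845 * S ^ 4
      * s ^ 4 + 70650596 / 10985 * C * S * c * s ^ 3 - 16000810712 / 1856465 * C * S * c ^ 2 * s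
      ^ 2 - 2054963568 / 142805 * C * S * c ^ 3 * s - 13864515516 / 1856465 * C * S * c ^ 4 +
      27043612 / 10985 * C * S * s ^ 4 - 1193438574 / 142805 * C * S ^ 3 * c * s + 238310460 /
      371293 * C * S ^ 3 * c ^ 2 - 4048812 / 2197 * C * S ^ 3 * s ^ 2 - 18561185298 / 1856465 * C
      ^ 2 * S ^ 2 * c * s - 554385527868 / 24134045 * C ^ 2 * S ^ 2 * c ^ 2 - 618252672 / 142805
      * C ^ 2 * S ^ 2 * s ^ 2 + 13981522912 / 1856465 * C ^ 2 * c * s ^ 3 + 55495048386 / 4826809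
      * C ^ 2 * c ^ 2 * s ^ 2 + 12979192384 / 1856465 * C ^ 2 * c ^ 3 * s - 12254655320 / 4826809
      * C ^ 2 * c ^ 4 + 1479758114 / 714025 * C ^ 2 * s ^ 4 - 1193438574 / 142805 * C ^ 3 * S * c
      * s + 238310460 / 371293 * C ^ 3 * S * c ^ 2 - 4048812 / 2197 * C ^ 3 * S * s ^ 2 -
      14417905248 / 1856465 * C ^ 4 * c * s - 269807309034 / 24134045 * C ^ 4 * c ^ 2 - 412137906
      / 142805 * C ^ 4 * s ^ 2 + 37927108 / 10985 * S ^ 2 * c * s ^ 3 + 2048070606 / 142805 * S ^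
      2 * c ^ 2 * s ^ 2 + 30760380784 / 1856465 * S ^ 2 * c ^ 3 * s + 71062311596 / 24134045 * S
      ^ 2 * c ^ 4 + 124754 / 169 * S ^ 2 * s ^ 4 - 4903290 / 2197 * S ^ 4 * c * s - 1683894786 /
      142805 * S ^ 4 * c ^ 2 - 1219614 / 845 * S ^ 4 * s ^ 2 + 1193438574 / 142805 * C * S * c *
      s - 238310460 / 371293 * C * S * c ^ 2 + 4048812 / 2197 * C * S * s ^ 2 - 4048812 / 2197 *
      C * S ^ 3 - 618252672 / 142805 * C ^ 2 * S ^ 2 + 14417905248 / 1856465 * C ^ 2 * c * s +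
      269807309034 / 24134045 * C ^ 2 * c ^ 2 + 412137906 / 142805 * C ^ 2 * s ^ 2 - 4048812 /
      2197 * C ^ 3 * S - 412137906 / 142805 * C ^ 4 + 4903290 / 2197 * S ^ 2 * c * s + 1683894786
      / 142805 * S ^ 2 * c ^ 2 + 1219614 / 845 * S ^ 2 * s ^ 2 - 1219614 / 845 * S ^ 4 + 4048812
      / 2197 * C * S + 412137906 / 142805 * C ^ 2 + 1219614 / 845 * S ^ 2) * H
    + (-891877536 / 371293 * C * S * c ^ 6 + 24143272176 / 1856465 * C ^ 2 * c ^ 5 * s -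
      4009400172 / 4826809 * C ^ 2 * c ^ 6 + 24143272176 / 1856465 * S ^ 2 * c ^ 5 * s +
      4009400172 / 4826809 * S ^ 2 * c ^ 6 + 2386877148 / 142805 * C * S * c ^ 3 * s + 1337816304
      / 371293 * C * S * c ^ 4 - 13868646978 / 1856465 * C ^ 2 * c ^ 3 * s + 51004182888 /
      4826809 * C ^ 2 * c ^ 4 - 34417897374 / 1856465 * S ^ 2 * c ^ 3 * s + 38975982372 / 4826809
      * S ^ 2 * c ^ 4 - 1193438574 / 142805 * C * S * c * s + 922559688 / 371293 * C * S * c ^ 2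
      - 14417905248 / 1856465 * C ^ 2 * c * s - 40031200584 / 4826809 * C ^ 2 * c ^ 2 - 4903290 /
      2197 * S ^ 2 * c * s - 295556004 / 28561 * S ^ 2 * c ^ 2 - 4048812 / 2197 * C * S -
      412137906 / 142805 * C ^ 2 - 1219614 / 845 * S ^ 2) * K

theorem q2b_num_n1 {c s C S : ℝ} (H : c ^ 2 + s ^ 2 = 1) (K : C ^ 2 + S ^ 2 = 1) :
    q2F c s 1 (12 / 5 * S) (12 / 5 * C) (7 * C - 7 / 13 * S) (-7 / 13 * C - 7 * S) (186/13)
      (-53 / 13 * C - 184 / 169 * S) (-184 / 169 * C + 53 / 13 * S) (-2233/169)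
      (-2 * C * S + 4 * C ^ 2 + 1470 / 169 * S ^ 2)
      (794 / 169 * C * S - C ^ 2 + S ^ 2)
      (2 * C * S + 1470 / 169 * C ^ 2 + 4 * S ^ 2) =
    Q2n c (-s) C (-S) := by
  unfold q2F q2T Q2n
  linear_combination
    (2787355648 / 371293 * C * S * c ^ 4 * s ^ 6 + 1393677824 / 371293 * C * S * c ^ 6 * s ^ 4 +
      1393677824 / 371293 * C * S * c ^ 8 * s ^ 2 + 401439808 / 28561 * C ^ 2 * c ^ 4 * s ^ 6 +
      15751224720 / 4826809 * C ^ 2 * c ^ 6 * s ^ 4 - 2419214336 / 4826809 * C ^ 2 * c ^ 8 * s ^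
      2 + 4838428672 / 4826809 * S ^ 2 * c ^ 4 * s ^ 6 - 15751224720 / 4826809 * S ^ 2 * c ^ 6 *
      s ^ 4 - 200719904 / 28561 * S ^ 2 * c ^ 8 * s ^ 2 - 782050192 / 1856465 * C * S * c ^ 2 * s
      ^ 6 + 131050304 / 28561 * C * S * c ^ 3 * s ^ 5 - 8392364288 / 1856465 * C * S * c ^ 4 * s
      ^ 4 + 32762576 / 28561 * C * S * c ^ 5 * s ^ 3 + 12302615248 / 1856465 * C * S * c ^ 6 * s
      ^ 2 + 65525152 / 28561 * C * S * c ^ 7 * s - 4327680 / 28561 * C * S ^ 3 * c ^ 2 * s ^ 4 -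
      4327680 / 28561 * C * S ^ 3 * c ^ 4 * s ^ 2 - 1825521168 / 4826809 * C ^ 2 * S ^ 2 * c ^ 2
      * s ^ 4 - 26259979216 / 4826809 * C ^ 2 * S ^ 2 * c ^ 4 * s ^ 2 - 50179976 / 28561 * C ^ 2
      * c ^ 2 * s ^ 6 + 7863393384 / 371293 * C ^ 2 * c ^ 3 * s ^ 5 + 118752047568 / 24134045 * C
      ^ 2 * c ^ 4 * s ^ 4 - 5439212856 / 371293 * C ^ 2 * c ^ 5 * s ^ 3 + 250770419592 / 24134045
      * C ^ 2 * c ^ 6 * s ^ 2 + 92035328 / 371293 * C ^ 2 * c ^ 7 * s - 164054504 / 371293 * C ^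
      3 * S * c ^ 2 * s ^ 4 - 164054504 / 371293 * C ^ 3 * S * c ^ 4 * s ^ 2 - 16516920 / 28561 *
      C ^ 4 * c ^ 2 * s ^ 4 - 88808216 / 28561 * C ^ 4 * c ^ 4 * s ^ 2 + 308975744 / 24134045 * S
      ^ 2 * c ^ 2 * s ^ 6 - 1281116760 / 371293 * S ^ 2 * c ^ 3 * s ^ 5 - 92088098256 / 24134045
      * S ^ 2 * c ^ 4 * s ^ 4 - 7725340392 / 371293 * S ^ 2 * c ^ 5 * s ^ 3 + 248055288096 /
      24134045 * S ^ 2 * c ^ 6 * s ^ 2 - 26510176 / 2197 * S ^ 2 * c ^ 7 * s - 541696 / 28561 * S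
      ^ 4 * c ^ 2 * s ^ 4 - 72832992 / 28561 * S ^ 4 * c ^ 4 * s ^ 2 - 104352556 / 142805 * C * S
      * c * s ^ 5 - 1918829404 / 1856465 * C * S * c ^ 2 * s ^ 4 - 762176004 / 142805 * C * S * c
      ^ 3 * s ^ 3 + 5249824088 / 1856465 * C * S * c ^ 4 * s ^ 2 + 180786960 / 28561 * C * S * c
      ^ 5 * s + 33664708 / 10985 * C * S * c ^ 6 + 148815314 / 142805 * C * S ^ 3 * c * s ^ 3 -
      10508988196 / 9282325 * C * S ^ 3 * c ^ 2 * s ^ 2 - 297288534 / 142805 * C * S ^ 3 * c ^ 3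
      * s - 14169186438 / 9282325 * C * S ^ 3 * c ^ 4 + 23578578 / 54925 * C * S ^ 3 * s ^ 4 -
      9486253142 / 1856465 * C ^ 2 * S ^ 2 * c * s ^ 3 - 1262581532048 / 120670225 * C ^ 2 * S ^
      2 * c ^ 2 * s ^ 2 - 6239660966 / 371293 * C ^ 2 * S ^ 2 * c ^ 3 * s - 1440989246 / 714025 *
      C ^ 2 * S ^ 2 * c ^ 4 - 1293888806 / 714025 * C ^ 2 * S ^ 2 * s ^ 4 - 17319148 / 10985 * C
      ^ 2 * c * s ^ 5 + 201564834574 / 24134045 * C ^ 2 * c ^ 2 * s ^ 4 + 36164950512 / 1856465 *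
      C ^ 2 * c ^ 3 * s ^ 3 - 1091677368 / 142805 * C ^ 2 * c ^ 4 * s ^ 2 + 6149361304 / 1856465
      * C ^ 2 * c ^ 5 * s + 1094170 / 28561 * C ^ 2 * c ^ 6 + 16966778 / 10985 * C ^ 3 * S * c *
      s ^ 3 - 2305599044 / 9282325 * C ^ 3 * S * c ^ 2 * s ^ 2 - 225535734 / 142805 * C ^ 3 * S *
      c ^ 3 * s - 13305933762 / 9282325 * C ^ 3 * S * c ^ 4 + 33162342 / 54925 * C ^ 3 * S * s ^
      4 - 2199855422 / 1856465 * C ^ 4 * c * s ^ 3 - 101404184014 / 24134045 * C ^ 4 * c ^ 2 * s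
      ^ 2 - 20642902034 / 1856465 * C ^ 4 * c ^ 3 * s - 78164840231 / 24134045 * C ^ 4 * c ^ 4 -
      26906279 / 142805 * C ^ 4 * s ^ 4 - 5877256 / 1856465 * S ^ 2 * c * s ^ 5 - 13880945902 /
      4826809 * S ^ 2 * c ^ 2 * s ^ 4 - 8458392324 / 1856465 * S ^ 2 * c ^ 3 * s ^ 3 -
      959641511052 / 120670225 * S ^ 2 * c ^ 4 * s ^ 2 + 31550441224 / 1856465 * S ^ 2 * c ^ 5 *
      s + 3713090458 / 714025 * S ^ 2 * c ^ 6 - 6962256 / 2197 * S ^ 4 * c * s ^ 3 - 688881922 /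
      142805 * S ^ 4 * c ^ 2 * s ^ 2 - 9152111396 / 1856465 * S ^ 4 * c ^ 3 * s + 9600863417 /
      4826809 * S ^ 4 * c ^ 4 - 776531 / 845 * S ^ 4 * s ^ 4 - 13444396 / 10985 * C * S * c * s ^
      3 - 3185230168 / 1856465 * C * S * c ^ 2 * s ^ 2 + 211639968 / 142805 * C * S * c ^ 3 * s +
      2541227916 / 1856465 * C * S * c ^ 4 - 3492412 / 10985 * C * S * s ^ 4 + 247460994 / 142805
      * C * S ^ 3 * c * s - 199813980 / 371293 * C * S ^ 3 * c ^ 2 + 1520268 / 2197 * C * S ^ 3 *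
      s ^ 2 - 8955637182 / 1856465 * C ^ 2 * S ^ 2 * c * s - 285017002572 / 24134045 * C ^ 2 * S
      ^ 2 * c ^ 2 - 287058288 / 142805 * C ^ 2 * S ^ 2 * s ^ 2 + 946732928 / 1856465 * C ^ 2 * c
      * s ^ 3 + 44205503106 / 4826809 * C ^ 2 * c ^ 2 * s ^ 2 + 20561894816 / 1856465 * C ^ 2 * c
      ^ 3 * s + 17727290440 / 4826809 * C ^ 2 * c ^ 4 - 4604446 / 714025 * C ^ 2 * s ^ 4 +
      247460994 / 142805 * C ^ 3 * S * c * s - 199813980 / 371293 * C ^ 3 * S * c ^ 2 + 1520268 /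
      2197 * C ^ 3 * S * s ^ 2 - 237341232 / 1856465 * C ^ 4 * c * s - 122842609386 / 24134045 *
      C ^ 4 * c ^ 2 - 94255314 / 142805 * C ^ 4 * s ^ 2 + 49041452 / 10985 * S ^ 2 * c * s ^ 3 +
      792874494 / 142805 * S ^ 2 * c ^ 2 * s ^ 2 + 6599924096 / 1856465 * S ^ 2 * c ^ 3 * s -
      61472056708 / 24134045 * S ^ 2 * c ^ 4 + 218834 / 169 * S ^ 2 * s ^ 4 - 10317510 / 2197 * S
      ^ 4 * c * s - 959611794 / 142805 * S ^ 4 * c ^ 2 - 1140846 / 845 * S ^ 4 * s ^ 2 -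
      247460994 / 142805 * C * S * c * s + 199813980 / 371293 * C * S * c ^ 2 - 1520268 / 2197 *
      C * S * s ^ 2 + 1520268 / 2197 * C * S ^ 3 - 287058288 / 142805 * C ^ 2 * S ^ 2 + 237341232
      / 1856465 * C ^ 2 * c * s + 122842609386 / 24134045 * C ^ 2 * c ^ 2 + 94255314 / 142805 * C
      ^ 2 * s ^ 2 + 1520268 / 2197 * C ^ 3 * S - 94255314 / 142805 * C ^ 4 + 10317510 / 2197 * S
      ^ 2 * c * s + 959611794 / 142805 * S ^ 2 * c ^ 2 + 1140846 / 845 * S ^ 2 * s ^ 2 - 1140846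
      / 845 * S ^ 4 - 1520268 / 2197 * C * S + 94255314 / 142805 * C ^ 2 + 1140846 / 845 * S ^ 2) * H
    + (114222624 / 371293 * C * S * c ^ 6 + 12722255664 / 1856465 * C ^ 2 * c ^ 5 * s +
      11197267668 / 4826809 * C ^ 2 * c ^ 6 + 12722255664 / 1856465 * S ^ 2 * c ^ 5 * s -
      11197267668 / 4826809 * S ^ 2 * c ^ 6 - 494921988 / 142805 * C * S * c ^ 3 * s - 171333936
      / 371293 * C * S * c ^ 4 - 21203210382 / 1856465 * C ^ 2 * c ^ 3 * s + 6854513688 / 4826809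
      * C ^ 2 * c ^ 4 - 4241300946 / 1856465 * S ^ 2 * c ^ 3 * s + 40446316692 / 4826809 * S ^ 2
      * c ^ 4 + 247460994 / 142805 * C * S * c * s - 456739272 / 371293 * C * S * c ^ 2 -
      237341232 / 1856465 * C ^ 2 * c * s - 21382692264 / 4826809 * C ^ 2 * c ^ 2 - 10317510 /
      2197 * S ^ 2 * c * s - 153361764 / 28561 * S ^ 2 * c ^ 2 + 1520268 / 2197 * C * S -
      94255314 / 142805 * C ^ 2 - 1140846 / 845 * S ^ 2) * K

theorem q2b_num_p2 {c s C S : ℝ} (H : c ^ 2 + s ^ 2 = 1) (K : C ^ 2 + S ^ 2 = 1) :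
    q2F c s 1 (12 / 5 * S) (-12 / 5 * C) (7 * C - 137 / 13 * S) (137 / 13 * C + 7 * S) (-126/13)
      (43 / 13 * C - 1136 / 169 * S) (1136 / 169 * C + 43 / 13 * S) (-1273/169)
      (74 / 13 * C * S + 4 * C ^ 2 + 270 / 169 * S ^ 2)
      (406 / 169 * C * S - 37 / 13 * C ^ 2 + 37 / 13 * S ^ 2)
      (-74 / 13 * C * S + 270 / 169 * C ^ 2 + 4 * S ^ 2) =
    Q2p c (-s) C S := by
  unfold q2F q2T Q2p
  linear_combination
    (-7959488512 / 371293 * C * S * c ^ 4 * s ^ 6 - 3979744256 / 371293 * C * S * c ^ 6 * s ^ 4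
      - 3979744256 / 371293 * C * S * c ^ 8 * s ^ 2 + 150641728 / 28561 * C ^ 2 * c ^ 4 * s ^ 6 -
      19920209520 / 4826809 * C ^ 2 * c ^ 6 * s ^ 4 - 52569645056 / 4826809 * C ^ 2 * c ^ 8 * s ^
      2 + 105139290112 / 4826809 * S ^ 2 * c ^ 4 * s ^ 6 + 19920209520 / 4826809 * S ^ 2 * c ^ 6
      * s ^ 4 - 75320864 / 28561 * S ^ 2 * c ^ 8 * s ^ 2 + 4530637552 / 1856465 * C * S * c ^ 2 *
      s ^ 6 + 1127816896 / 28561 * C * S * c ^ 3 * s ^ 5 - 12794036992 / 1856465 * C * S * c ^ 4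
      * s ^ 4 + 281954224 / 28561 * C * S * c ^ 5 * s ^ 3 - 9859150768 / 1856465 * C * S * c ^ 6
      * s ^ 2 + 563908448 / 28561 * C * S * c ^ 7 * s + 646156800 / 371293 * C * S ^ 3 * c ^ 2 *
      s ^ 4 + 646156800 / 371293 * C * S ^ 3 * c ^ 4 * s ^ 2 - 7125829008 / 4826809 * C ^ 2 * S ^
      2 * c ^ 2 * s ^ 4 - 57290253136 / 4826809 * C ^ 2 * S ^ 2 * c ^ 4 * s ^ 2 - 18830216 /
      28561 * C ^ 2 * c ^ 2 * s ^ 6 - 2041392984 / 371293 * C ^ 2 * c ^ 3 * s ^ 5 + 41170836432 /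
      24134045 * C ^ 2 * c ^ 4 * s ^ 4 + 13684943496 / 371293 * C ^ 2 * c ^ 5 * s ^ 3 +
      436253810568 / 24134045 * C ^ 2 * c ^ 6 * s ^ 2 + 6339825152 / 371293 * C ^ 2 * c ^ 7 * s +
      198006056 / 371293 * C ^ 3 * S * c ^ 2 * s ^ 4 + 198006056 / 371293 * C ^ 3 * S * c ^ 4 * s
      ^ 2 - 1996920 / 28561 * C ^ 4 * c ^ 2 * s ^ 4 - 150412376 / 28561 * C ^ 4 * c ^ 4 * s ^ 2 -
      53981065984 / 24134045 * S ^ 2 * c ^ 2 * s ^ 6 - 10576644120 / 371293 * S ^ 2 * c ^ 3 * s ^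
      5 + 52677086256 / 24134045 * S ^ 2 * c ^ 4 * s ^ 4 + 11551130712 / 371293 * S ^ 2 * c ^ 5 *
      s ^ 3 + 615095228064 / 24134045 * S ^ 2 * c ^ 6 * s ^ 2 + 12261536 / 2197 * S ^ 2 * c ^ 7 *
      s - 20647936 / 28561 * S ^ 4 * c ^ 2 * s ^ 4 - 169063392 / 28561 * S ^ 4 * c ^ 4 * s ^ 2 -
      388585796 / 142805 * C * S * c * s ^ 5 - 37831738436 / 1856465 * C * S * c ^ 2 * s ^ 4 +
      4911597156 / 142805 * C * S * c ^ 3 * s ^ 3 - 2470960568 / 1856465 * C * S * c ^ 4 * s ^ 2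
      - 537648960 / 28561 * C * S * c ^ 5 * s + 111570812 / 10985 * C * S * c ^ 6 + 667880254 /
      142805 * C * S ^ 3 * c * s ^ 3 - 8017211036 / 9282325 * C * S ^ 3 * c ^ 2 * s ^ 2 -
      1443599034 / 142805 * C * S ^ 3 * c ^ 3 * s + 33867360822 / 9282325 * C * S ^ 3 * c ^ 4 -
      153989442 / 54925 * C * S ^ 3 * s ^ 4 + 15185368858 / 1856465 * C ^ 2 * S ^ 2 * c * s ^ 3 -
      1853209280768 / 120670225 * C ^ 2 * S ^ 2 * c ^ 2 * s ^ 2 + 11050365514 / 371293 * C ^ 2 *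
      S ^ 2 * c ^ 3 * s - 1525333886 / 714025 * C ^ 2 * S ^ 2 * c ^ 4 - 1050743126 / 714025 * C ^
      2 * S ^ 2 * s ^ 4 - 707788 / 10985 * C ^ 2 * c * s ^ 5 + 6404048630 / 4826809 * C ^ 2 * c ^
      2 * s ^ 4 - 17961897168 / 1856465 * C ^ 2 * c ^ 3 * s ^ 3 - 2509436472 / 142805 * C ^ 2 * c
      ^ 4 * s ^ 2 - 50972192936 / 1856465 * C ^ 2 * c ^ 5 * s + 238929370 / 28561 * C ^ 2 * c ^ 6
      + 266698654 / 142805 * C ^ 3 * S * c * s ^ 3 + 49386535076 / 9282325 * C ^ 3 * S * c ^ 2 *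
      s ^ 2 - 1844780634 / 142805 * C ^ 3 * S * c ^ 3 * s + 51820184178 / 9282325 * C ^ 3 * S * c
      ^ 4 - 35577078 / 54925 * C ^ 3 * S * s ^ 4 + 12659732338 / 1856465 * C ^ 4 * c * s ^ 3 -
      230639839966 / 24134045 * C ^ 4 * c ^ 2 * s ^ 2 + 23461936846 / 1856465 * C ^ 4 * c ^ 3 * s
      - 7243006079 / 24134045 * C ^ 4 * c ^ 4 - 342618911 / 142805 * C ^ 4 * s ^ 4 + 3255020264 /
      1856465 * S ^ 2 * c * s ^ 5 + 55724257298 / 4826809 * S ^ 2 * c ^ 2 * s ^ 4 - 45923191524 /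
      1856465 * S ^ 2 * c ^ 3 * s ^ 3 - 1751978565132 / 120670225 * S ^ 2 * c ^ 4 * s ^ 2 -
      37865271656 / 1856465 * S ^ 2 * c ^ 5 * s + 3280197658 / 714025 * S ^ 2 * c ^ 6 + 7625136 /
      2197 * S ^ 4 * c * s ^ 3 - 1519423618 / 142805 * S ^ 4 * c ^ 2 * s ^ 2 + 35707494124 /
      1856465 * S ^ 4 * c ^ 3 * s - 18736062031 / 4826809 * S ^ 4 * c ^ 4 - 955499 / 845 * S ^ 4
      * s ^ 4 - 70650596 / 10985 * C * S * c * s ^ 3 - 16000810712 / 1856465 * C * S * c ^ 2 * s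
      ^ 2 + 2054963568 / 142805 * C * S * c ^ 3 * s - 13864515516 / 1856465 * C * S * c ^ 4 +
      27043612 / 10985 * C * S * s ^ 4 + 1193438574 / 142805 * C * S ^ 3 * c * s + 238310460 /
      371293 * C * S ^ 3 * c ^ 2 - 4048812 / 2197 * C * S ^ 3 * s ^ 2 + 18561185298 / 1856465 * C
      ^ 2 * S ^ 2 * c * s - 554385527868 / 24134045 * C ^ 2 * S ^ 2 * c ^ 2 - 618252672 / 142805
      * C ^ 2 * S ^ 2 * s ^ 2 - 13981522912 / 1856465 * C ^ 2 * c * s ^ 3 + 55495048386 / 4826809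
      * C ^ 2 * c ^ 2 * s ^ 2 - 12979192384 / 1856465 * C ^ 2 * c ^ 3 * s - 12254655320 / 4826809
      * C ^ 2 * c ^ 4 + 1479758114 / 714025 * C ^ 2 * s ^ 4 + 1193438574 / 142805 * C ^ 3 * S * c
      * s + 238310460 / 371293 * C ^ 3 * S * c ^ 2 - 4048812 / 2197 * C ^ 3 * S * s ^ 2 +
      14417905248 / 1856465 * C ^ 4 * c * s - 269807309034 / 24134045 * C ^ 4 * c ^ 2 - 412137906
      / 142805 * C ^ 4 * s ^ 2 - 37927108 / 10985 * S ^ 2 * c * s ^ 3 + 2048070606 / 142805 * S ^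
      2 * c ^ 2 * s ^ 2 - 30760380784 / 1856465 * S ^ 2 * c ^ 3 * s + 71062311596 / 24134045 * S
      ^ 2 * c ^ 4 + 124754 / 169 * S ^ 2 * s ^ 4 + 4903290 / 2197 * S ^ 4 * c * s - 1683894786 /
      142805 * S ^ 4 * c ^ 2 - 1219614 / 845 * S ^ 4 * s ^ 2 - 1193438574 / 142805 * C * S * c *
      s - 238310460 / 371293 * C * S * c ^ 2 + 4048812 / 2197 * C * S * s ^ 2 - 4048812 / 2197 *
      C * S ^ 3 - 618252672 / 142805 * C ^ 2 * S ^ 2 - 14417905248 / 1856465 * C ^ 2 * c * s +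
      269807309034 / 24134045 * C ^ 2 * c ^ 2 + 412137906 / 142805 * C ^ 2 * s ^ 2 - 4048812 /
      2197 * C ^ 3 * S - 412137906 / 142805 * C ^ 4 - 4903290 / 2197 * S ^ 2 * c * s + 1683894786
      / 142805 * S ^ 2 * c ^ 2 + 1219614 / 845 * S ^ 2 * s ^ 2 - 1219614 / 845 * S ^ 4 + 4048812
      / 2197 * C * S + 412137906 / 142805 * C ^ 2 + 1219614 / 845 * S ^ 2) * H
    + (-891877536 / 371293 * C * S * c ^ 6 - 24143272176 / 1856465 * C ^ 2 * c ^ 5 * s -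
      4009400172 / 4826809 * C ^ 2 * c ^ 6 - 24143272176 / 1856465 * S ^ 2 * c ^ 5 * s +
      4009400172 / 4826809 * S ^ 2 * c ^ 6 - 2386877148 / 142805 * C * S * c ^ 3 * s + 1337816304
      / 371293 * C * S * c ^ 4 + 13868646978 / 1856465 * C ^ 2 * c ^ 3 * s + 51004182888 /
      4826809 * C ^ 2 * c ^ 4 + 34417897374 / 1856465 * S ^ 2 * c ^ 3 * s + 38975982372 / 4826809
      * S ^ 2 * c ^ 4 + 1193438574 / 142805 * C * S * c * s + 922559688 / 371293 * C * S * c ^ 2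
      + 14417905248 / 1856465 * C ^ 2 * c * s - 40031200584 / 4826809 * C ^ 2 * c ^ 2 + 4903290 /
      2197 * S ^ 2 * c * s - 295556004 / 28561 * S ^ 2 * c ^ 2 - 4048812 / 2197 * C * S -
      412137906 / 142805 * C ^ 2 - 1219614 / 845 * S ^ 2) * K

theorem q2b_num_n2 {c s C S : ℝ} (H : c ^ 2 + s ^ 2 = 1) (K : C ^ 2 + S ^ 2 = 1) :
    q2F c s 1 (-12 / 5 * S) (12 / 5 * C) (7 * C - 7 / 13 * S) (7 / 13 * C + 7 * S) (-186/13)
      (53 / 13 * C + 184 / 169 * S) (-184 / 169 * C + 53 / 13 * S) (-2233/169)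
      (-2 * C * S + 4 * C ^ 2 + 1470 / 169 * S ^ 2)
      (-794 / 169 * C * S + C ^ 2 - S ^ 2)
      (2 * C * S + 1470 / 169 * C ^ 2 + 4 * S ^ 2) =
    Q2n c s C (-S) := by
  unfold q2F q2T Q2n
  linear_combination
    (2787355648 / 371293 * C * S * c ^ 4 * s ^ 6 + 1393677824 / 371293 * C * S * c ^ 6 * s ^ 4 +
      1393677824 / 371293 * C * S * c ^ 8 * s ^ 2 + 401439808 / 28561 * C ^ 2 * c ^ 4 * s ^ 6 +
      15751224720 / 4826809 * C ^ 2 * c ^ 6 * s ^ 4 - 2419214336 / 4826809 * C ^ 2 * c ^ 8 * s ^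
      2 + 4838428672 / 4826809 * S ^ 2 * c ^ 4 * s ^ 6 - 15751224720 / 4826809 * S ^ 2 * c ^ 6 *
      s ^ 4 - 200719904 / 28561 * S ^ 2 * c ^ 8 * s ^ 2 - 782050192 / 1856465 * C * S * c ^ 2 * s
      ^ 6 - 131050304 / 28561 * C * S * c ^ 3 * s ^ 5 - 8392364288 / 1856465 * C * S * c ^ 4 * s
      ^ 4 - 32762576 / 28561 * C * S * c ^ 5 * s ^ 3 + 12302615248 / 1856465 * C * S * c ^ 6 * s
      ^ 2 - 65525152 / 28561 * C * S * c ^ 7 * s - 4327680 / 28561 * C * S ^ 3 * c ^ 2 * s ^ 4 -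
      4327680 / 28561 * C * S ^ 3 * c ^ 4 * s ^ 2 - 1825521168 / 4826809 * C ^ 2 * S ^ 2 * c ^ 2
      * s ^ 4 - 26259979216 / 4826809 * C ^ 2 * S ^ 2 * c ^ 4 * s ^ 2 - 50179976 / 28561 * C ^ 2
      * c ^ 2 * s ^ 6 - 7863393384 / 371293 * C ^ 2 * c ^ 3 * s ^ 5 + 118752047568 / 24134045 * C
      ^ 2 * c ^ 4 * s ^ 4 + 5439212856 / 371293 * C ^ 2 * c ^ 5 * s ^ 3 + 250770419592 / 24134045
      * C ^ 2 * c ^ 6 * s ^ 2 - 92035328 / 371293 * C ^ 2 * c ^ 7 * s - 164054504 / 371293 * C ^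
      3 * S * c ^ 2 * s ^ 4 - 164054504 / 371293 * C ^ 3 * S * c ^ 4 * s ^ 2 - 16516920 / 28561 *
      C ^ 4 * c ^ 2 * s ^ 4 - 88808216 / 28561 * C ^ 4 * c ^ 4 * s ^ 2 + 308975744 / 24134045 * S
      ^ 2 * c ^ 2 * s ^ 6 + 1281116760 / 371293 * S ^ 2 * c ^ 3 * s ^ 5 - 92088098256 / 24134045
      * S ^ 2 * c ^ 4 * s ^ 4 + 7725340392 / 371293 * S ^ 2 * c ^ 5 * s ^ 3 + 248055288096 /
      24134045 * S ^ 2 * c ^ 6 * s ^ 2 + 26510176 / 2197 * S ^ 2 * c ^ 7 * s - 541696 / 28561 * S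
      ^ 4 * c ^ 2 * s ^ 4 - 72832992 / 28561 * S ^ 4 * c ^ 4 * s ^ 2 + 104352556 / 142805 * C * S
      * c * s ^ 5 - 1918829404 / 1856465 * C * S * c ^ 2 * s ^ 4 + 762176004 / 142805 * C * S * c
      ^ 3 * s ^ 3 + 5249824088 / 1856465 * C * S * c ^ 4 * s ^ 2 - 180786960 / 28561 * C * S * c
      ^ 5 * s + 33664708 / 10985 * C * S * c ^ 6 - 148815314 / 142805 * C * S ^ 3 * c * s ^ 3 -
      10508988196 / 9282325 * C * S ^ 3 * c ^ 2 * s ^ 2 + 297288534 / 142805 * C * S ^ 3 * c ^ 3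
      * s - 14169186438 / 9282325 * C * S ^ 3 * c ^ 4 + 23578578 / 54925 * C * S ^ 3 * s ^ 4 +
      9486253142 / 1856465 * C ^ 2 * S ^ 2 * c * s ^ 3 - 1262581532048 / 120670225 * C ^ 2 * S ^
      2 * c ^ 2 * s ^ 2 + 6239660966 / 371293 * C ^ 2 * S ^ 2 * c ^ 3 * s - 1440989246 / 714025 *
      C ^ 2 * S ^ 2 * c ^ 4 - 1293888806 / 714025 * C ^ 2 * S ^ 2 * s ^ 4 + 17319148 / 10985 * C
      ^ 2 * c * s ^ 5 + 201564834574 / 24134045 * C ^ 2 * c ^ 2 * s ^ 4 - 36164950512 / 1856465 *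
      C ^ 2 * c ^ 3 * s ^ 3 - 1091677368 / 142805 * C ^ 2 * c ^ 4 * s ^ 2 - 6149361304 / 1856465
      * C ^ 2 * c ^ 5 * s + 1094170 / 28561 * C ^ 2 * c ^ 6 - 16966778 / 10985 * C ^ 3 * S * c *
      s ^ 3 - 2305599044 / 9282325 * C ^ 3 * S * c ^ 2 * s ^ 2 + 225535734 / 142805 * C ^ 3 * S *
      c ^ 3 * s - 13305933762 / 9282325 * C ^ 3 * S * c ^ 4 + 33162342 / 54925 * C ^ 3 * S * s ^
      4 + 2199855422 / 1856465 * C ^ 4 * c * s ^ 3 - 101404184014 / 24134045 * C ^ 4 * c ^ 2 * s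
      ^ 2 + 20642902034 / 1856465 * C ^ 4 * c ^ 3 * s - 78164840231 / 24134045 * C ^ 4 * c ^ 4 -
      26906279 / 142805 * C ^ 4 * s ^ 4 + 5877256 / 1856465 * S ^ 2 * c * s ^ 5 - 13880945902 /
      4826809 * S ^ 2 * c ^ 2 * s ^ 4 + 8458392324 / 1856465 * S ^ 2 * c ^ 3 * s ^ 3 -
      959641511052 / 120670225 * S ^ 2 * c ^ 4 * s ^ 2 - 31550441224 / 1856465 * S ^ 2 * c ^ 5 *
      s + 3713090458 / 714025 * S ^ 2 * c ^ 6 + 6962256 / 2197 * S ^ 4 * c * s ^ 3 - 688881922 /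
      142805 * S ^ 4 * c ^ 2 * s ^ 2 + 9152111396 / 1856465 * S ^ 4 * c ^ 3 * s + 9600863417 /
      4826809 * S ^ 4 * c ^ 4 - 776531 / 845 * S ^ 4 * s ^ 4 + 13444396 / 10985 * C * S * c * s ^
      3 - 3185230168 / 1856465 * C * S * c ^ 2 * s ^ 2 - 211639968 / 142805 * C * S * c ^ 3 * s +
      2541227916 / 1856465 * C * S * c ^ 4 - 3492412 / 10985 * C * S * s ^ 4 - 247460994 / 142805
      * C * S ^ 3 * c * s - 199813980 / 371293 * C * S ^ 3 * c ^ 2 + 1520268 / 2197 * C * S ^ 3 *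
      s ^ 2 + 8955637182 / 1856465 * C ^ 2 * S ^ 2 * c * s - 285017002572 / 24134045 * C ^ 2 * S
      ^ 2 * c ^ 2 - 287058288 / 142805 * C ^ 2 * S ^ 2 * s ^ 2 - 946732928 / 1856465 * C ^ 2 * c
      * s ^ 3 + 44205503106 / 4826809 * C ^ 2 * c ^ 2 * s ^ 2 - 20561894816 / 1856465 * C ^ 2 * c
      ^ 3 * s + 17727290440 / 4826809 * C ^ 2 * c ^ 4 - 4604446 / 714025 * C ^ 2 * s ^ 4 -
      247460994 / 142805 * C ^ 3 * S * c * s - 199813980 / 371293 * C ^ 3 * S * c ^ 2 + 1520268 /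
      2197 * C ^ 3 * S * s ^ 2 + 237341232 / 1856465 * C ^ 4 * c * s - 122842609386 / 24134045 *
      C ^ 4 * c ^ 2 - 94255314 / 142805 * C ^ 4 * s ^ 2 - 49041452 / 10985 * S ^ 2 * c * s ^ 3 +
      792874494 / 142805 * S ^ 2 * c ^ 2 * s ^ 2 - 6599924096 / 1856465 * S ^ 2 * c ^ 3 * s -
      61472056708 / 24134045 * S ^ 2 * c ^ 4 + 218834 / 169 * S ^ 2 * s ^ 4 + 10317510 / 2197 * S
      ^ 4 * c * s - 959611794 / 142805 * S ^ 4 * c ^ 2 - 1140846 / 845 * S ^ 4 * s ^ 2 +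
      247460994 / 142805 * C * S * c * s + 199813980 / 371293 * C * S * c ^ 2 - 1520268 / 2197 *
      C * S * s ^ 2 + 1520268 / 2197 * C * S ^ 3 - 287058288 / 142805 * C ^ 2 * S ^ 2 - 237341232
      / 1856465 * C ^ 2 * c * s + 122842609386 / 24134045 * C ^ 2 * c ^ 2 + 94255314 / 142805 * C
      ^ 2 * s ^ 2 + 1520268 / 2197 * C ^ 3 * S - 94255314 / 142805 * C ^ 4 - 10317510 / 2197 * S
      ^ 2 * c * s + 959611794 / 142805 * S ^ 2 * c ^ 2 + 1140846 / 845 * S ^ 2 * s ^ 2 - 1140846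
      / 845 * S ^ 4 - 1520268 / 2197 * C * S + 94255314 / 142805 * C ^ 2 + 1140846 / 845 * S ^ 2) * H
    + (114222624 / 371293 * C * S * c ^ 6 - 12722255664 / 1856465 * C ^ 2 * c ^ 5 * s +
      11197267668 / 4826809 * C ^ 2 * c ^ 6 - 12722255664 / 1856465 * S ^ 2 * c ^ 5 * s -
      11197267668 / 4826809 * S ^ 2 * c ^ 6 + 494921988 / 142805 * C * S * c ^ 3 * s - 171333936
      / 371293 * C * S * c ^ 4 + 21203210382 / 1856465 * C ^ 2 * c ^ 3 * s + 6854513688 / 4826809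
      * C ^ 2 * c ^ 4 + 4241300946 / 1856465 * S ^ 2 * c ^ 3 * s + 40446316692 / 4826809 * S ^ 2
      * c ^ 4 - 247460994 / 142805 * C * S * c * s - 456739272 / 371293 * C * S * c ^ 2 +
      237341232 / 1856465 * C ^ 2 * c * s - 21382692264 / 4826809 * C ^ 2 * c ^ 2 + 10317510 /
      2197 * S ^ 2 * c * s - 153361764 / 28561 * S ^ 2 * c ^ 2 + 1520268 / 2197 * C * S -
      94255314 / 142805 * C ^ 2 - 1140846 / 845 * S ^ 2) * K

/-! ### umbilic directions -/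

theorem q2b_umb {n : R3} (hn : n ⬝ᵥ n = 1)
    (h : Umb2 !![169 / 25, 0, 0; 0, 1, 0; 0, 0, 0] n) :
    n 1 = 0 ∧ n 0 ^ 2 = (12 / 13) ^ 2 ∧ n 2 ^ 2 = (5 / 13) ^ 2 := by
  obtain ⟨l, hl⟩ := h
  obtain ⟨x, hx⟩ : ∃ x, n 0 = x := ⟨_, rfl⟩
  obtain ⟨y, hy⟩ : ∃ y, n 1 = y := ⟨_, rfl⟩
  obtain ⟨z, hz⟩ : ∃ z, n 2 = z := ⟨_, rfl⟩
  have hN : x ^ 2 + y ^ 2 + z ^ 2 = 1 := by
    rw [← hn, ← hx, ← hy, ← hz]
    simp only [dotProduct, Fin.sum_univ_three]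
    ring
  have v1 : (![0, z, -y] : R3) ⬝ᵥ n = 0 := by
    simp [dotProduct, Fin.sum_univ_three, hx, hy, hz]; ring
  have v2 : (![-z, 0, x] : R3) ⬝ᵥ n = 0 := by
    simp [dotProduct, Fin.sum_univ_three, hx, hy, hz]; ring
  have v3 : (![y, -x, 0] : R3) ⬝ᵥ n = 0 := by
    simp [dotProduct, Fin.sum_univ_three, hx, hy, hz]; ring
  have k11 := hl _ _ v1 v1
  have k22 := hl _ _ v2 v2
  have k33 := hl _ _ v3 v3
  have k12 := hl _ _ v1 v2
  have k13 := hl _ _ v1 v3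
  have k23 := hl _ _ v2 v3
  simp only [Matrix.mulVec, dotProduct, Fin.sum_univ_three, Matrix.cons_val, Matrix.of_apply]
    at k11 k22 k33 k12 k13 k23
  rw [hx, hy, hz]
  have e12 : l * (x * y) = 0 := by linear_combination k12
  have e13 : (l - 1) * (x * z) = 0 := by linear_combination (1 : ℝ) * k13
  have e11 : (1 - l) * z ^ 2 = l * y ^ 2 := by linear_combination k11
  have e22 : (169 / 25 - l) * z ^ 2 = l * x ^ 2 := by linear_combination k22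
  have e33 : (169 / 25 - l) * y ^ 2 + (1 - l) * x ^ 2 = 0 := by linear_combination k33
  have hy0 : y = 0 := by
    by_contra hy0
    have y2 : 0 < y ^ 2 := by positivity
    by_cases hl0 : l = 0
    · rw [hl0] at e33
      nlinarith [sq_nonneg x]
    · have hx0 : x = 0 := by
        have h1 := (mul_eq_zero.1 e12).resolve_left hl0
        exact (mul_eq_zero.1 h1).resolve_right hy0
      rw [hx0] at e33
      have h2 : 169 / 25 - l = 0 := by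
        have h3 : (169 / 25 - l) * y ^ 2 = 0 := by linarith
        exact (mul_eq_zero.1 h3).resolve_right y2.ne'
      have h4 : l = 169 / 25 := by linarith
      rw [h4] at e11
      nlinarith [sq_nonneg z]
  rw [hy0] at e11 e33 hN
  have hl1 : l = 1 := by
    by_contra hl1
    have h1 : 1 - l ≠ 0 := fun h => hl1 (by linarith)
    have h2 : z ^ 2 = 0 := (mul_eq_zero.1 (by linarith : (1 - l) * z ^ 2 = 0)).resolve_left h1
    have h3 : x ^ 2 = 0 := (mul_eq_zero.1 (by linarith : (1 - l) * x ^ 2 = 0)).resolve_left h1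
    rw [h2, h3] at hN
    norm_num at hN
  rw [hl1] at e22
  refine ⟨hy0, ?_, ?_⟩
  · linarith
  · linarith

theorem q2b_frame {f g : R3} (hf : f ⬝ᵥ f = 1) (hg : g ⬝ᵥ g = 1) (hfg : f ⬝ᵥ g = 0) :
    Q2Fr f g (f ⨯₃ g) := by
  have e : ∀ v w : R3, v ⬝ᵥ w = v 0 * w 0 + v 1 * w 1 + v 2 * w 2 := fun v w => by
    simp [dotProduct, Fin.sum_univ_three]
  have c0 : ∀ v w : R3, (v ⨯₃ w) 0 = v 1 * w 2 - v 2 * w 1 := fun v w => by simp [crossProduct]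
  have c1 : ∀ v w : R3, (v ⨯₃ w) 1 = v 2 * w 0 - v 0 * w 2 := fun v w => by simp [crossProduct]
  have c2 : ∀ v w : R3, (v ⨯₃ w) 2 = v 0 * w 1 - v 1 * w 0 := fun v w => by simp [crossProduct]
  have hff := hf
  have hgg := hg
  have hfg' := hfg
  rw [e] at hf hg hfg
  have k1 : g ⨯₃ (f ⨯₃ g) = f := by
    ext i
    fin_cases i
    · show (g ⨯₃ (f ⨯₃ g)) 0 = f 0
      rw [c0, c1, c2]
      linear_combination f 0 * hg - g 0 * hfg
    · show (g ⨯₃ (f ⨯₃ g)) 1 = f 1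
      rw [c1, c0, c2]
      linear_combination f 1 * hg - g 1 * hfg
    · show (g ⨯₃ (f ⨯₃ g)) 2 = f 2
      rw [c2, c0, c1]
      linear_combination f 2 * hg - g 2 * hfg
  have k2 : (f ⨯₃ g) ⨯₃ f = g := by
    ext i
    fin_cases i
    · show ((f ⨯₃ g) ⨯₃ f) 0 = g 0
      rw [c0, c1, c2]
      linear_combination g 0 * hf - f 0 * hfg
    · show ((f ⨯₃ g) ⨯₃ f) 1 = g 1
      rw [c1, c0, c2]
      linear_combination g 1 * hf - f 1 * hfg
    · show ((f ⨯₃ g) ⨯₃ f) 2 = g 2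
      rw [c2, c0, c1]
      linear_combination g 2 * hf - f 2 * hfg
  refine ⟨hff, hgg, ?_, hfg', ?_, ?_, ?_, ?_, ?_, rfl, k1, k2, ?_, ?_, ?_⟩
  · rw [e, c0, c1, c2]
    linear_combination (g 0 * g 0 + g 1 * g 1 + g 2 * g 2) * hf
      + hg - (f 0 * g 0 + f 1 * g 1 + f 2 * g 2) * hfg
  · rw [dotProduct_comm]; exact hfg'
  · rw [e, c0, c1, c2]; ring
  · rw [e, c0, c1, c2]; ring
  · rw [e, c0, c1, c2]; ring
  · rw [e, c0, c1, c2]; ring
  · rw [← cross_anticomm]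
  · rw [← cross_anticomm, k1]
  · rw [← cross_anticomm, k2]

/-- **(Q2)** -/
theorem q2_T3x {p : Par} (hR : p.R = !![6, -5, 5; -5, 4, 1; 5, 1, 5])
    (hS : p.S = !![169 / 25, 0, 0; 0, 1, 0; 0, 0, 0])
    (hN : p.N = !![-12, -4, 4; -4, -1, 1; 4, 1, -1]) (hν : p.ν = ![13, 7, -6])
    {c s : ℝ} (H : c ^ 2 + s ^ 2 = 1) {f g : R3} (hf : f ⬝ᵥ f = 1) (hg : g ⬝ᵥ g = 1)
    (hfg : f ⬝ᵥ g = 0) (hu : Umb2 p.S (f ⨯₃ g)) :
    0 < T3x p (0, c • f, s • g) (0, -s • f, c • g) := by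
  have hF := q2b_frame hf hg hfg
  rw [hS] at hu
  obtain ⟨h1, h0, h2⟩ := q2b_umb hF.nn hu
  obtain ⟨C, hC⟩ : ∃ C, f 1 = C := ⟨_, rfl⟩
  obtain ⟨S, hS'⟩ : ∃ S, 13 / 12 * f 2 = S := ⟨_, rfl⟩
  have hfn := hF.fn
  have e : ∀ v w : R3, v ⬝ᵥ w = v 0 * w 0 + v 1 * w 1 + v 2 * w 2 := fun v w => by
    simp [dotProduct, Fin.sum_univ_three]
  rw [e] at hf hfn
  have hcnf := hF.cnf
  have fin : ∀ v : R3, v = ![v 0, v 1, v 2] := fun v => by
    ext i; fin_cases i <;> rfl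
  have H' : c ^ 2 + (-s) ^ 2 = 1 := by rw [neg_sq]; exact H
  rcases sq_eq_sq_iff_eq_or_eq_neg.1 h0 with a0 | a0 <;>
    rcases sq_eq_sq_iff_eq_or_eq_neg.1 h2 with a2 | a2
  · have f0 : f 0 = -5 / 13 * S := by rw [a0, h1, a2] at hfn; rw [← hS']; linarith
    have K : C ^ 2 + S ^ 2 = 1 := by rw [← hf, f0, hC, ← hS']; ring
    have hn : f ⨯₃ g = ![12 / 13, 0, 5 / 13] := by rw [fin (f ⨯₃ g), a0, h1, a2]
    have hf' : f = ![-5 / 13 * S, C, 12 / 13 * S] := by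
      rw [fin f, f0, hC, ← hS']
      congr 3; ring
    have hg' : g = ![-5 / 13 * C, -S, 12 / 13 * C] := by
      rw [← hcnf, hn, hf']
      ext i
      fin_cases i <;> simp [crossProduct] <;> ring
    have hF' : Q2Fr ![-5 / 13 * S, C, 12 / 13 * S] ![-5 / 13 * C, -S, 12 / 13 * C]
        ![12 / 13, 0, 5 / 13] := by
      rw [← hn, ← hf', ← hg']; exact hF
    rw [hf', hg', q2b_T3x hF' (q2b_dat_p1 hS hN hν K) (q2b_R_p1 hR C S) H, q2b_num_p1 H K]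
    have := Q2p_ge c s C S
    rw [H, K] at this
    linarith
  · have f0 : f 0 = 5 / 13 * S := by rw [a0, h1, a2] at hfn; rw [← hS']; linarith
    have K : C ^ 2 + S ^ 2 = 1 := by rw [← hf, f0, hC, ← hS']; ring
    have hn : f ⨯₃ g = ![12 / 13, 0, -5 / 13] := by
      rw [fin (f ⨯₃ g), a0, h1, a2]
      congr 3; ring
    have hf' : f = ![5 / 13 * S, C, 12 / 13 * S] := by
      rw [fin f, f0, hC, ← hS']
      congr 3; ring
    have hg' : g = ![5 / 13 * C, -S, 12 / 13 * C] := by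
      rw [← hcnf, hn, hf']
      ext i
      fin_cases i <;> simp [crossProduct] <;> ring
    have hF' : Q2Fr ![5 / 13 * S, C, 12 / 13 * S] ![5 / 13 * C, -S, 12 / 13 * C]
        ![12 / 13, 0, -5 / 13] := by
      rw [← hn, ← hf', ← hg']; exact hF
    rw [hf', hg', q2b_T3x hF' (q2b_dat_n1 hS hN hν K) (q2b_R_n1 hR C S) H, q2b_num_n1 H K]
    have := Q2n_ge c (-s) C (-S)
    rw [H', neg_sq, K] at this
    linarith
  · have f0 : f 0 = 5 / 13 * S := by rw [a0, h1, a2] at hfn; rw [← hS']; linarith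
    have K : C ^ 2 + S ^ 2 = 1 := by rw [← hf, f0, hC, ← hS']; ring
    have hn : f ⨯₃ g = ![-12 / 13, 0, 5 / 13] := by
      rw [fin (f ⨯₃ g), a0, h1, a2]
      congr 1; ring
    have hf' : f = ![5 / 13 * S, C, 12 / 13 * S] := by
      rw [fin f, f0, hC, ← hS']
      congr 3; ring
    have hg' : g = ![-5 / 13 * C, S, -12 / 13 * C] := by
      rw [← hcnf, hn, hf']
      ext i
      fin_cases i <;> simp [crossProduct] <;> ring
    have hF' : Q2Fr ![5 / 13 * S, C, 12 / 13 * S] ![-5 / 13 * C, S, -12 / 13 * C]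
        ![-12 / 13, 0, 5 / 13] := by
      rw [← hn, ← hf', ← hg']; exact hF
    rw [hf', hg', q2b_T3x hF' (q2b_dat_n2 hS hN hν K) (q2b_R_n2 hR C S) H, q2b_num_n2 H K]
    have := Q2n_ge c s C (-S)
    rw [H, neg_sq, K] at this
    linarith
  · have f0 : f 0 = -5 / 13 * S := by rw [a0, h1, a2] at hfn; rw [← hS']; linarith
    have K : C ^ 2 + S ^ 2 = 1 := by rw [← hf, f0, hC, ← hS']; ring
    have hn : f ⨯₃ g = ![-12 / 13, 0, -5 / 13] := by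
      rw [fin (f ⨯₃ g), a0, h1, a2]
      congr 1
      · ring
      · congr 2; ring
    have hf' : f = ![-5 / 13 * S, C, 12 / 13 * S] := by
      rw [fin f, f0, hC, ← hS']
      congr 3; ring
    have hg' : g = ![5 / 13 * C, S, -12 / 13 * C] := by
      rw [← hcnf, hn, hf']
      ext i
      fin_cases i <;> simp [crossProduct] <;> ring
    have hF' : Q2Fr ![-5 / 13 * S, C, 12 / 13 * S] ![5 / 13 * C, S, -12 / 13 * C]
        ![-12 / 13, 0, -5 / 13] := by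
      rw [← hn, ← hf', ← hg']; exact hF
    rw [hf', hg', q2b_T3x hF' (q2b_dat_p2 hS hN hν K) (q2b_R_p2 hR C S) H, q2b_num_p2 H K]
    have := Q2p_ge c (-s) C S
    rw [H', K] at this
    linarith

theorem q2_flg {c s : ℝ} (H : c ^ 2 + s ^ 2 = 1) {f g : R3} (hf : f ⬝ᵥ f = 1)
    (hg : g ⬝ᵥ g = 1) (hfg : f ⬝ᵥ g = 0) : Flg (0, c • f, s • g) (0, -s • f, c • g) := by
  have hF := q2b_frame hf hg hfg
  refine ⟨?_, ?_, ?_, ?_, ?_⟩
  · rw [q2b_dot hF]; linear_combination H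
  · rw [q2b_dot hF]; linear_combination H
  · rw [q2b_dot hF]; ring
  · unfold br
    refine Prod.ext ?_ (Prod.ext ?_ ?_)
    · simp only [map_smul, LinearMap.smul_apply, cross_self, smul_zero, add_zero, map_zero]
      rfl
    · simp
    · simp
  · unfold brh
    simp only [smul_dotProduct, dotProduct_smul, hfg, hF.gf, smul_zero, sub_zero]

/-- **(Q2)**, for the function -/
theorem q2_T3C {p : Par} (hR : p.R = !![6, -5, 5; -5, 4, 1; 5, 1, 5])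
    (hS : p.S = !![169 / 25, 0, 0; 0, 1, 0; 0, 0, 0])
    (hN : p.N = !![-12, -4, 4; -4, -1, 1; 4, 1, -1]) (hν : p.ν = ![13, 7, -6])
    (τ : ℝ) (f g : R3) (hf : f ⬝ᵥ f = 1) (hg : g ⬝ᵥ g = 1)
    (hfg : f ⬝ᵥ g = 0) (hu : Umb2 p.S (f ⨯₃ g)) :
    0 < T3C (v0 p) (0, Real.cos τ • f, Real.sin τ • g)
      (0, -(Real.sin τ) • f, Real.cos τ • g) := by
  have H : Real.cos τ ^ 2 + Real.sin τ ^ 2 = 1 := by
    rw [add_comm]; exact Real.sin_sq_add_cos_sq τ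
  have hp : p.Symm := by
    refine ⟨?_, ?_, ?_⟩
    · rw [hR]; ext i j; fin_cases i <;> fin_cases j <;> simp
    · rw [hS]; ext i j; fin_cases i <;> fin_cases j <;> simp
    · rw [hN]; ext i j; fin_cases i <;> fin_cases j <;> simp
  have h1 := q2_T3x hR hS hN hν H hf hg hfg hu
  rw [← T3F_v0 nData2 hp (q2_flg H hf hg hfg)] at h1
  exact h1

end Pool.Agent.FL.S2
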