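import Pool.Agent.FL.S2Core

/-!
# MP_f09395_gt, space (2), locus Q5: definitions
-/

noncomputable section

namespace Pool.Agent.FL.S2

open scoped Matrix

/-- `q × S q` -/
def wq (p : Par) (q : R3) : R3 := q ⨯₃ (p.S *ᵥ q)

/-- trace of `S` on the plane orthogonal to the unit vector `q` -/
def tq (p : Par) (q : R3) : ℝ := p.S 0 0 + p.S 1 1 + p.S 2 2 - q ⬝ᵥ (p.S *ᵥ q)

/-- discriminant of `S` on the plane orthogonal to the unit vector `q` -/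
def Dq (p : Par) (q : R3) : ℝ := tq p q ^ 2 - 4 * (q ⬝ᵥ (p.S.adjugate *ᵥ q))

/-- `2 S w - t w` -/
def w1q (p : Par) (q : R3) : R3 := (2 : ℝ) • (p.S *ᵥ wq p q) - tq p q • wq p q

/-- the polynomial of the locus Q5 -/
def P5 (p : Par) (q : R3) : ℝ :=
  w1q p q ⬝ᵥ (p.R *ᵥ w1q p q)
    + Dq p q * ((2 * (q ⬝ᵥ (p.N *ᵥ q)) - p.ν ⬝ᵥ q) * (wq p q ⬝ᵥ wq p q)
      - (tq p q * (wq p q ⬝ᵥ wq p q) - wq p q ⬝ᵥ (p.S *ᵥ wq p q)))

end Pool.Agent.FL.S2
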