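import Pool.Agent.FL.QCov
import Pool.Agent.FL.QP5D
import Pool.Agent.FL.GE6S

/-!
# MP_f09395_gt, space (2), locus Q5: wall B, `a = 0`, critical points of `V_B`

`Q5_bridge`: for flags over wall B with `α = 0`, `a = 0` and `(eM (v0 p) u).1 = 0` there is a unit
vector `q` with `q × ((S + N) q - ν) = 0` and `Dq p q * T3x p u b = - P5 p q`.
-/

noncomputable section

namespace Pool.Agent.FL.S2

open scoped Matrix

/-- the third order form when `[u, x] = 0` and `[b, x] = 0` -/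
theorem Q5_t3z (p : Par) (u b x s y r : R9) :
    t3z p u b x s y 0 0 r = -(2 * t3q p r r + t3F2 p u r r) + dot9 r (br x s) := by
  have z1 : ∀ w : R9, t3om w 0 = 0 := fun w => by simp [t3om]
  have z2 : ∀ w : R9, t3K p w 0 = 0 := fun w => by simp [t3K]
  have z3 : ∀ w : R9, dot9 w 0 = 0 := fun w => by simp [dot9]
  have z4 : ∀ w : R9, dot9 0 w = 0 := fun w => by simp [dot9]
  have z5 : ∀ w : R9, t3K p 0 w = 0 := fun w => by simp [t3K]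
  have z6 : ∀ w : R9, t3om 0 w = 0 := fun w => by simp [t3om]
  have z7 : ∀ w : R9, t3q p 0 w = 0 := fun w => by simp [t3q]
  have z8 : ∀ w : R9, t3F1 p w 0 = 0 := fun w => by simp [t3F1, z1, z2, z3]
  have z9 : ∀ w w' : R9, t3F2 p w 0 w' = 0 := fun w w' => by
    simp [t3F2, z1, z2, z3, z4, z5, z6, z8]
  have z10 : ∀ w w' : R9, t3F2 p w w' 0 = 0 := fun w w' => by
    simp [t3F2, z1, z2, z3, z8]
  unfold t3z
  simp only [z1, z2, z3, z4, z5, z6, z7, z8, z9, z10]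
  have e1 : dot9 (0 - r) (br x s) = -dot9 r (br x s) := by
    simp only [dot9, Prod.fst_sub, Prod.snd_sub, sub_dotProduct, Prod.fst_zero, Prod.snd_zero,
      zero_dotProduct]
    ring
  rw [e1]
  simp only [t3q, Prod.snd_zero, Prod.fst_zero, zero_dotProduct]
  ring

/-! ### components -/

theorem Q5_mv (M : Matrix (Fin 3) (Fin 3) ℝ) (v : R3) (i : Fin 3) :
    (M *ᵥ v) i = M i 0 * v 0 + M i 1 * v 1 + M i 2 * v 2 := by
  simp only [Matrix.mulVec, dotProduct, Fin.sum_univ_three]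

theorem Q5_dot (a b : R3) : a ⬝ᵥ b = a 0 * b 0 + a 1 * b 1 + a 2 * b 2 := by
  simp only [dotProduct, Fin.sum_univ_three]

theorem Q5_cr0 (a b : R3) : (a ⨯₃ b) 0 = a 1 * b 2 - a 2 * b 1 := by
  simp only [cross_apply, Matrix.cons_val_zero]

theorem Q5_cr1 (a b : R3) : (a ⨯₃ b) 1 = a 2 * b 0 - a 0 * b 2 := by
  simp only [cross_apply, Matrix.cons_val_one, Matrix.cons_val_zero]

theorem Q5_cr2 (a b : R3) : (a ⨯₃ b) 2 = a 0 * b 1 - a 1 * b 0 := by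
  simp only [cross_apply, Matrix.cons_val]

theorem Q5_ext {a b : R3} (h0 : a 0 = b 0) (h1 : a 1 = b 1) (h2 : a 2 = b 2) : a = b := by
  ext i
  fin_cases i
  · exact h0
  · exact h1
  · exact h2

theorem Q5_sym {M : Matrix (Fin 3) (Fin 3) ℝ} (h : M.transpose = M) (i j : Fin 3) :
    M i j = M j i := by
  conv_lhs => rw [← h]
  rfl

/-- the gradient at `(0, e1, e2) / √2` -/
theorem Q5_x {p : Par} (hp : p.Symm) {r : ℝ} (hr : r ^ 2 = 1 / 2) :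
    t3x p (0, ![r, 0, 0], ![0, r, 0]) =
      (0, ![r * (p.S 0 0 + p.ν 2 - p.N 2 2 / 2), r * p.S 0 1, r * (p.S 0 2 + p.N 0 2 - p.ν 0)],
        ![r * p.S 0 1, r * (p.S 1 1 + p.ν 2 - p.N 2 2 / 2), r * (p.S 1 2 + p.N 1 2 - p.ν 1)]) := by
  have hr3 : r ^ 3 = r / 2 := by rw [pow_succ, hr]; ring
  have hr5 : r ^ 5 = r / 4 := by
    rw [show r ^ 5 = (r ^ 2) ^ 2 * r by ring, hr]; ring
  have s10 := Q5_sym hp.S 1 0
  have s20 := Q5_sym hp.S 2 0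
  have s21 := Q5_sym hp.S 2 1
  have k10 := Q5_sym hp.N 1 0
  have k20 := Q5_sym hp.N 2 0
  have k21 := Q5_sym hp.N 2 1
  refine Prod.ext (Q5_ext ?_ ?_ ?_) (Prod.ext (Q5_ext ?_ ?_ ?_) (Q5_ext ?_ ?_ ?_)) <;>
  simp only [t3x, t3qg, t3Kg, t3K, t3om, Q5_mv, Q5_dot, Q5_cr0, Q5_cr1, Q5_cr2, Prod.fst_add,
    Prod.snd_add, Prod.fst_sub, Prod.snd_sub, Prod.smul_fst, Prod.smul_snd, Pi.add_apply,
    Pi.sub_apply, Pi.smul_apply, Pi.zero_apply, smul_eq_mul, Matrix.cons_val_zero,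
    Matrix.cons_val_one, Matrix.cons_val, s10, s20, s21, k10, k20, k21]
  all_goals ring_nf
  all_goals (try rw [hr5])
  all_goals (try rw [hr3])
  all_goals (try ring)

/-- the derivative of the gradient in the direction `b` -/
theorem Q5_s {p : Par} (hp : p.Symm) {r s1 s2 : ℝ} (hr : r ^ 2 = 1 / 2) :
    t3s p (0, ![r, 0, 0], ![0, r, 0]) (0, ![r * s1, r * s2, 0], ![r * s2, -(r * s1), 0]) =
      (0, ![r * (3 / 2 * p.N 2 2 * s1 + p.S 0 0 * s1 + p.S 0 1 * s2 - p.ν 2 * s1),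
          r * (3 / 2 * p.N 2 2 * s2 + p.S 0 1 * s1 + p.S 1 1 * s2 - p.ν 2 * s2),
          r * ((p.S 0 2 - p.N 0 2 + p.ν 0) * s1 + (p.S 1 2 - p.N 1 2 + p.ν 1) * s2)],
        ![r * (3 / 2 * p.N 2 2 * s2 + p.S 0 0 * s2 - p.S 0 1 * s1 - p.ν 2 * s2),
          r * (-(3 / 2) * p.N 2 2 * s1 + p.S 0 1 * s2 - p.S 1 1 * s1 + p.ν 2 * s1),
          r * ((p.S 0 2 - p.N 0 2 + p.ν 0) * s2 - (p.S 1 2 - p.N 1 2 + p.ν 1) * s1)]) := by
  have hr3 : r ^ 3 = r / 2 := by rw [pow_succ, hr]; ring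
  have hr5 : r ^ 5 = r / 4 := by
    rw [show r ^ 5 = (r ^ 2) ^ 2 * r by ring, hr]; ring
  have s10 := Q5_sym hp.S 1 0
  have s20 := Q5_sym hp.S 2 0
  have s21 := Q5_sym hp.S 2 1
  have k10 := Q5_sym hp.N 1 0
  have k20 := Q5_sym hp.N 2 0
  have k21 := Q5_sym hp.N 2 1
  refine Prod.ext (Q5_ext ?_ ?_ ?_) (Prod.ext (Q5_ext ?_ ?_ ?_) (Q5_ext ?_ ?_ ?_)) <;>
  simp only [t3s, t3qg, t3Kg, t3K, t3om, t3F1, dot9, Q5_mv, Q5_dot, Q5_cr0, Q5_cr1, Q5_cr2,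
    Prod.fst_add,
    Prod.snd_add, Prod.fst_sub, Prod.snd_sub, Prod.smul_fst, Prod.smul_snd, Pi.add_apply,
    Pi.sub_apply, Pi.smul_apply, Pi.zero_apply, smul_eq_mul, Matrix.cons_val_zero,
    Matrix.cons_val_one, Matrix.cons_val, s10, s20, s21, k10, k20, k21]
  all_goals ring_nf
  all_goals (try rw [hr5])
  all_goals (try rw [hr3])
  all_goals (try ring)

/-- the value at the standard position -/
theorem Q5_T {p : Par} (hp : p.Symm) {r s1 s2 ρ : ℝ} (hr : r ^ 2 = 1 / 2)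
    (hs : s1 ^ 2 + s2 ^ 2 = 1) (hA : p.S 0 0 - p.S 1 1 = ρ * s1) (hB : 2 * p.S 0 1 = ρ * s2)
    (h0 : p.S 0 2 + p.N 0 2 - p.ν 0 = 0) (h1 : p.S 1 2 + p.N 1 2 - p.ν 1 = 0) :
    T3x p (0, ![r, 0, 0], ![0, r, 0]) (0, ![r * s1, r * s2, 0], ![r * s2, -(r * s1), 0]) =
      -((p.S 0 2 * s2 - p.S 1 2 * s1) ^ 2 * p.R 0 0
        - 2 * (p.S 0 2 * s2 - p.S 1 2 * s1) * (p.S 0 2 * s1 + p.S 1 2 * s2) * p.R 0 1
        + (p.S 0 2 * s1 + p.S 1 2 * s2) ^ 2 * p.R 1 1)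
      - (2 * p.N 2 2 - p.ν 2) * (p.S 0 2 ^ 2 + p.S 1 2 ^ 2)
      + ((p.S 0 0 + p.S 1 1) * (p.S 0 2 ^ 2 + p.S 1 2 ^ 2)
        - (p.S 0 2 ^ 2 * p.S 1 1 + p.S 1 2 ^ 2 * p.S 0 0 - 2 * p.S 0 2 * p.S 1 2 * p.S 0 1)) := by
  have hn0 : p.ν 0 = p.S 0 2 + p.N 0 2 := by linarith
  have hn1 : p.ν 1 = p.S 1 2 + p.N 1 2 := by linarith
  have hS00 : p.S 0 0 = p.S 1 1 + ρ * s1 := by linarith
  have hS01 : p.S 0 1 = ρ * s2 / 2 := by linarith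
  unfold T3x
  rw [Q5_x hp hr, Q5_s hp hr, h0, h1, mul_zero]
  obtain ⟨y, -⟩ : ∃ y, y = t3y p (0, ![r, 0, 0], ![0, r, 0])
    (0, ![r * s1, r * s2, 0], ![r * s2, -(r * s1), 0]) := ⟨_, rfl⟩
  obtain ⟨x, hx⟩ : ∃ x : R9, x = (0, ![r * (p.S 0 0 + p.ν 2 - p.N 2 2 / 2), r * p.S 0 1, 0],
        ![r * p.S 0 1, r * (p.S 1 1 + p.ν 2 - p.N 2 2 / 2), 0]) := ⟨_, rfl⟩
  rw [← hx]
  have e1 : br (0, ![r, 0, 0], ![0, r, 0]) x = 0 := by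
    rw [hx]
    refine Prod.ext (Q5_ext ?_ ?_ ?_) (Prod.ext (Q5_ext ?_ ?_ ?_) (Q5_ext ?_ ?_ ?_)) <;>
    simp only [br, Q5_cr0, Q5_cr1, Q5_cr2, Pi.add_apply, Pi.sub_apply, Pi.zero_apply,
      Matrix.cons_val_zero, Matrix.cons_val_one, Matrix.cons_val, Prod.fst_zero, Prod.snd_zero] <;>
    ring
  have e2 : br (0, ![r * s1, r * s2, 0], ![r * s2, -(r * s1), 0]) x = 0 := by
    rw [hx, hS00, hS01]
    refine Prod.ext (Q5_ext ?_ ?_ ?_) (Prod.ext (Q5_ext ?_ ?_ ?_) (Q5_ext ?_ ?_ ?_)) <;>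
    simp only [br, Q5_cr0, Q5_cr1, Q5_cr2, Pi.add_apply, Pi.sub_apply, Pi.zero_apply,
      Matrix.cons_val_zero, Matrix.cons_val_one, Matrix.cons_val, Prod.fst_zero, Prod.snd_zero] <;>
    ring
  rw [e1, e2, Q5_t3z]
  have e3 : br (0, ![r, 0, 0], ![0, r, 0])
      (0, ![r * (3 / 2 * p.N 2 2 * s1 + p.S 0 0 * s1 + p.S 0 1 * s2 - p.ν 2 * s1),
          r * (3 / 2 * p.N 2 2 * s2 + p.S 0 1 * s1 + p.S 1 1 * s2 - p.ν 2 * s2),
          r * ((p.S 0 2 - p.N 0 2 + p.ν 0) * s1 + (p.S 1 2 - p.N 1 2 + p.ν 1) * s2)],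
        ![r * (3 / 2 * p.N 2 2 * s2 + p.S 0 0 * s2 - p.S 0 1 * s1 - p.ν 2 * s2),
          r * (-(3 / 2) * p.N 2 2 * s1 + p.S 0 1 * s2 - p.S 1 1 * s1 + p.ν 2 * s1),
          r * ((p.S 0 2 - p.N 0 2 + p.ν 0) * s2 - (p.S 1 2 - p.N 1 2 + p.ν 1) * s1)]) =
      (![p.S 0 2 * s2 - p.S 1 2 * s1, -(p.S 0 2 * s1 + p.S 1 2 * s2), 0], 0, 0) := by
    rw [hS00, hS01, hn0, hn1]
    refine Prod.ext (Q5_ext ?_ ?_ ?_) (Prod.ext (Q5_ext ?_ ?_ ?_) (Q5_ext ?_ ?_ ?_)) <;>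
    simp only [br, Q5_cr0, Q5_cr1, Q5_cr2, Pi.add_apply, Pi.sub_apply, Pi.zero_apply,
      Matrix.cons_val_zero, Matrix.cons_val_one, Matrix.cons_val, Prod.fst_zero, Prod.snd_zero]
    · linear_combination (2 * (p.S 0 2 * s2 - p.S 1 2 * s1)) * hr
    · linear_combination (-2 * (p.S 0 2 * s1 + p.S 1 2 * s2)) * hr
    all_goals ring
  rw [e3, hx, hS00, hS01, hn0, hn1]
  have s10 := Q5_sym hp.S 1 0
  have s20 := Q5_sym hp.S 2 0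
  have s21 := Q5_sym hp.S 2 1
  have k10 := Q5_sym hp.N 1 0
  have k20 := Q5_sym hp.N 2 0
  have k21 := Q5_sym hp.N 2 1
  have r10 := Q5_sym hp.R 1 0
  have r20 := Q5_sym hp.R 2 0
  have r21 := Q5_sym hp.R 2 1
  simp only [t3q, t3F2, t3F1, t3K, t3om, dot9, br, Q5_mv, Q5_dot, Q5_cr0, Q5_cr1, Q5_cr2,
    Pi.add_apply, Pi.sub_apply, Pi.smul_apply, Pi.zero_apply, smul_eq_mul, Matrix.cons_val_zero,
    Matrix.cons_val_one, Matrix.cons_val, s10, s20, s21, k10, k20, k21, r10, r20, r21]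
  rw [hS01]
  linear_combination
    ((-2) * p.N 2 2 * p.S 0 2 ^ 2 + (-2) * p.N 2 2 * p.S 1 2 ^ 2 + (1) * p.S 0 2 * p.S 1 2 * ρ
      * s2 + (1) * p.S 0 2 ^ 2 * p.S 1 1 + (1) * p.S 0 2 ^ 2 * p.ν 2 + (1) * p.S 0 2 ^ 2 * ρ *
      s1 + (1) * p.S 1 1 * p.S 1 2 ^ 2 + (1) * p.S 1 2 ^ 2 * p.ν 2) * hs
    + ((-2) * p.N 2 2 * p.S 0 2 ^ 2 * r ^ 2 * s1 ^ 2 + (-2) * p.N 2 2 * p.S 0 2 ^ 2 * r ^ 2 * s2
      ^ 2 + (-4) * p.N 2 2 * p.S 0 2 ^ 2 * s1 ^ 2 + (-4) * p.N 2 2 * p.S 0 2 ^ 2 * s2 ^ 2 + (-2)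
      * p.N 2 2 * p.S 1 2 ^ 2 * r ^ 2 * s1 ^ 2 + (-2) * p.N 2 2 * p.S 1 2 ^ 2 * r ^ 2 * s2 ^ 2 +
      (-4) * p.N 2 2 * p.S 1 2 ^ 2 * s1 ^ 2 + (-4) * p.N 2 2 * p.S 1 2 ^ 2 * s2 ^ 2 + (2) * p.S
      0 2 * p.S 1 2 * ρ * s1 ^ 2 * s2 + (2) * p.S 0 2 * p.S 1 2 * ρ * s2 ^ 3 + (2) * p.S 0 2 ^ 2
      * p.S 1 1 * s1 ^ 2 + (2) * p.S 0 2 ^ 2 * p.S 1 1 * s2 ^ 2 + (2) * p.S 0 2 ^ 2 * p.ν 2 * s1
      ^ 2 + (2) * p.S 0 2 ^ 2 * p.ν 2 * s2 ^ 2 + (2) * p.S 0 2 ^ 2 * ρ * s1 * s2 ^ 2 + (2) * p.S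
      0 2 ^ 2 * ρ * s1 ^ 3 + (2) * p.S 1 1 * p.S 1 2 ^ 2 * s1 ^ 2 + (2) * p.S 1 1 * p.S 1 2 ^ 2
      * s2 ^ 2 + (2) * p.S 1 2 ^ 2 * p.ν 2 * s1 ^ 2 + (2) * p.S 1 2 ^ 2 * p.ν 2 * s2 ^ 2) * hr

/-! ### the polynomial in a frame -/

section frame

variable {e1 e2 e3 : R3} (h : Frame3 e1 e2 e3)

theorem Q5_fr3 (e1 e2 e3 : R3) : frL e1 e2 e3 ![0, 0, 1] = e3 := by
  rw [frL_apply]
  simp

include h

theorem Q5_trace (M : Matrix (Fin 3) (Fin 3) ℝ) :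
    M 0 0 + M 1 1 + M 2 2 = e1 ⬝ᵥ M *ᵥ e1 + e2 ⬝ᵥ M *ᵥ e2 + e3 ⬝ᵥ M *ᵥ e3 := by
  have ht := GE3.frame_transpose h
  have n1 := ht.n1
  have n2 := ht.n2
  have n3 := ht.n3
  have o12 := ht.o12
  have o13 := ht.o13
  have o23 := ht.o23
  simp only [Q5_dot, Matrix.cons_val_zero, Matrix.cons_val_one, Matrix.cons_val]
    at n1 n2 n3 o12 o13 o23
  simp only [Q5_dot, Q5_mv]
  linear_combination -(M 0 0) * n1 - M 1 1 * n2 - M 2 2 * n3 - (M 0 1 + M 1 0) * o12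
    - (M 0 2 + M 2 0) * o13 - (M 1 2 + M 2 1) * o23

theorem Q5_adj {M : Matrix (Fin 3) (Fin 3) ℝ} (hM : M.transpose = M) :
    e3 ⬝ᵥ (M.adjugate *ᵥ e3) = (e1 ⬝ᵥ M *ᵥ e1) * (e2 ⬝ᵥ M *ᵥ e2) - (e1 ⬝ᵥ M *ᵥ e2) ^ 2 := by
  rw [← h.c12, Matrix.adjugate_fin_three]
  have s10 := Q5_sym hM 1 0
  have s20 := Q5_sym hM 2 0
  have s21 := Q5_sym hM 2 1
  simp only [Q5_dot, Q5_mv, Q5_cr0, Q5_cr1, Q5_cr2, Matrix.of_apply, Matrix.cons_val',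
    Matrix.cons_val_zero, Matrix.cons_val_one, Matrix.cons_val, Matrix.cons_val_fin_one,
    s10, s20, s21]
  ring

theorem Q5_wq (p : Par) : wq p e3 =
    frL e1 e2 e3 ![-(pullP e1 e2 e3 p).S 1 2, (pullP e1 e2 e3 p).S 0 2, 0] := by
  unfold wq
  conv_lhs => rw [← Q5_fr3 e1 e2 e3]
  rw [frL_mulVec h, frL_cross h]
  congr 1
  refine Q5_ext ?_ ?_ ?_ <;>
  simp only [Q5_cr0, Q5_cr1, Q5_cr2, Q5_mv, Matrix.cons_val_zero, Matrix.cons_val_one,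
    Matrix.cons_val] <;> simp [pullP]

theorem Q5_tq (p : Par) : tq p e3 = (pullP e1 e2 e3 p).S 0 0 + (pullP e1 e2 e3 p).S 1 1 := by
  unfold tq
  have h1 := Q5_trace h p.S
  simp only [pullP, pullM, Matrix.of_apply, Matrix.cons_val', Matrix.cons_val_zero,
    Matrix.cons_val_one, Matrix.cons_val_fin_one]
  linarith

theorem Q5_Dq (p : Par) (hp : p.Symm) : Dq p e3 =
    ((pullP e1 e2 e3 p).S 0 0 - (pullP e1 e2 e3 p).S 1 1) ^ 2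
      + 4 * (pullP e1 e2 e3 p).S 0 1 ^ 2 := by
  unfold Dq
  rw [Q5_adj h hp.S, Q5_tq h]
  simp only [pullP, pullM, Matrix.of_apply, Matrix.cons_val', Matrix.cons_val_zero,
    Matrix.cons_val_one, Matrix.cons_val_fin_one]
  ring

omit h in
theorem pullM_symm {M : Matrix (Fin 3) (Fin 3) ℝ} (hM : M.transpose = M) :
    (pullM e1 e2 e3 M).transpose = pullM e1 e2 e3 M := by
  have h1 : ∀ a b : R3, a ⬝ᵥ M *ᵥ b = b ⬝ᵥ M *ᵥ a := t3_dot_mulVec_comm hM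
  ext i j
  fin_cases i <;> fin_cases j <;> simp [pullM, h1 e2 e1, h1 e3 e1, h1 e3 e2]

omit h in
theorem pullP_symm {p : Par} (hp : p.Symm) : (pullP e1 e2 e3 p).Symm :=
  ⟨pullM_symm hp.R, pullM_symm hp.S, pullM_symm hp.N⟩

/-- the polynomial `P5` in the frame -/
theorem Q5_P5 {p : Par} (hp : p.Symm) {s1 s2 ρ : ℝ} (hs : s1 ^ 2 + s2 ^ 2 = 1)
    (hA : (pullP e1 e2 e3 p).S 0 0 - (pullP e1 e2 e3 p).S 1 1 = ρ * s1)
    (hB : 2 * (pullP e1 e2 e3 p).S 0 1 = ρ * s2) :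
    P5 p e3 = -(ρ ^ 2 * (-(((pullP e1 e2 e3 p).S 0 2 * s2 - (pullP e1 e2 e3 p).S 1 2 * s1) ^ 2
          * (pullP e1 e2 e3 p).R 0 0
        - 2 * ((pullP e1 e2 e3 p).S 0 2 * s2 - (pullP e1 e2 e3 p).S 1 2 * s1)
          * ((pullP e1 e2 e3 p).S 0 2 * s1 + (pullP e1 e2 e3 p).S 1 2 * s2)
          * (pullP e1 e2 e3 p).R 0 1
        + ((pullP e1 e2 e3 p).S 0 2 * s1 + (pullP e1 e2 e3 p).S 1 2 * s2) ^ 2
          * (pullP e1 e2 e3 p).R 1 1)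
      - (2 * (pullP e1 e2 e3 p).N 2 2 - (pullP e1 e2 e3 p).ν 2)
        * ((pullP e1 e2 e3 p).S 0 2 ^ 2 + (pullP e1 e2 e3 p).S 1 2 ^ 2)
      + (((pullP e1 e2 e3 p).S 0 0 + (pullP e1 e2 e3 p).S 1 1)
          * ((pullP e1 e2 e3 p).S 0 2 ^ 2 + (pullP e1 e2 e3 p).S 1 2 ^ 2)
        - ((pullP e1 e2 e3 p).S 0 2 ^ 2 * (pullP e1 e2 e3 p).S 1 1
          + (pullP e1 e2 e3 p).S 1 2 ^ 2 * (pullP e1 e2 e3 p).S 0 0
          - 2 * (pullP e1 e2 e3 p).S 0 2 * (pullP e1 e2 e3 p).S 1 2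
            * (pullP e1 e2 e3 p).S 0 1)))) := by
  have hN : e3 ⬝ᵥ (p.N *ᵥ e3) = (pullP e1 e2 e3 p).N 2 2 := by
    simp [pullP, pullM]
  have hν : p.ν ⬝ᵥ e3 = (pullP e1 e2 e3 p).ν 2 := by
    rw [dotProduct_comm]
    simp [pullP]
  have hw := Q5_wq h p
  have ht := Q5_tq h p
  have hD := Q5_Dq h p hp
  have hsy := pullP_symm (e1 := e1) (e2 := e2) (e3 := e3) hp
  obtain ⟨p', hp'⟩ : ∃ p', p' = pullP e1 e2 e3 p := ⟨_, rfl⟩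
  rw [← hp'] at hN hν hw ht hD hsy hA hB ⊢
  have hS : ∀ v, p.S *ᵥ frL e1 e2 e3 v = frL e1 e2 e3 (p'.S *ᵥ v) := fun v => by
    rw [frL_mulVec h, hp']; rfl
  have hR : ∀ v, p.R *ᵥ frL e1 e2 e3 v = frL e1 e2 e3 (p'.R *ᵥ v) := fun v => by
    rw [frL_mulVec h, hp']; rfl
  have s10 := Q5_sym hsy.S 1 0
  have s20 := Q5_sym hsy.S 2 0
  have s21 := Q5_sym hsy.S 2 1
  have r10 := Q5_sym hsy.R 1 0
  have r20 := Q5_sym hsy.R 2 0
  have r21 := Q5_sym hsy.R 2 1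
  have hS00 : p'.S 0 0 = p'.S 1 1 + ρ * s1 := by linarith
  have hS01 : p'.S 0 1 = ρ * s2 / 2 := by linarith
  have hD' : Dq p e3 = ρ ^ 2 := by
    rw [hD]
    linear_combination (p'.S 0 0 - p'.S 1 1 + ρ * s1) * hA + (2 * p'.S 0 1 + ρ * s2) * hB
      + ρ ^ 2 * hs
  have hw1 : w1q p e3 = frL e1 e2 e3 (ρ • ![p'.S 0 2 * s2 - p'.S 1 2 * s1,
      -(p'.S 0 2 * s1 + p'.S 1 2 * s2), 0]) := by
    unfold w1q
    rw [hw, ht, hS, ← map_smul, ← map_smul, ← map_sub]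
    congr 1
    refine Q5_ext ?_ ?_ ?_ <;>
    simp only [Q5_mv, Pi.sub_apply, Pi.smul_apply, smul_eq_mul, Matrix.cons_val_zero,
      Matrix.cons_val_one, Matrix.cons_val, s10, s20, s21, hS00, hS01] <;> ring
  unfold P5
  rw [hN, hν, hD', ht, hw1, hw, hS, hR, frL_dot h, frL_dot h, frL_dot h]
  simp only [Q5_dot, Q5_mv, Pi.smul_apply, smul_eq_mul, Matrix.cons_val_zero,
    Matrix.cons_val_one, Matrix.cons_val, s10, s20, s21, r10, r20, r21]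
  ring

omit h

/-- the gradient of `v0 p` -/
theorem Q5_grad {p : Par} (hp : p.Symm) {u : R9} (hu : dot9 u u = 1) :
    grad9 (v0 p) u = t3x p u := by
  have h1 : ∀ w, fderiv ℝ (v0 p) u w = dot9 (t3x p u) w := fun w => (t3x_dot hp hu w).symm
  unfold grad9
  refine Prod.ext (Q5_ext ?_ ?_ ?_) (Prod.ext (Q5_ext ?_ ?_ ?_) (Q5_ext ?_ ?_ ?_)) <;>
  simp [h1, dot9]

theorem Q5_frL_zero {e1 e2 e3 : R3} (h : Frame3 e1 e2 e3) {v : R3}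
    (hv : frL e1 e2 e3 v = 0) : v = 0 := by
  have h1 := frL_dot h v v
  rw [hv, zero_dotProduct] at h1
  exact dotProduct_self_eq_zero.1 h1.symm

end frame

/-- **bridge for the locus Q5** -/
theorem Q5_bridge {p : Par} (hp : p.Symm) {u b : R9} (hF : Flg u b) (hc : cM u = -1)
    (hal : alM (v0 p) u b = 0) (ha : u.1 = 0) (he : (eM (v0 p) u).1 = 0) :
    ∃ q : R3, q ⬝ᵥ q = 1 ∧ q ⨯₃ ((p.S + p.N) *ᵥ q - p.ν) = 0 ∧
      Dq p q * T3x p u b = -P5 p q ∧ 0 ≤ Dq p q := by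
  have hpsi : psi4 u = 1 / 4 := by
    unfold cM at hc
    rw [hF.uu] at hc
    linarith
  obtain ⟨f, g, hf, hg, hfg, hu⟩ := wallB_exists0 hF.uu hpsi ha
  have hF' := hF
  rw [hu] at hF'
  obtain ⟨s1, s2, hs, hb⟩ := (flgB_p0 hf hg hfg b).1 hF'
  -- the frame
  have h : Frame3 f g (f ⨯₃ g) := by
    have hgf : g ⬝ᵥ f = 0 := by rw [dotProduct_comm]; exact hfg
    refine ⟨hf, hg, ?_, hfg, dot_self_cross f g, ?_, rfl, ?_, ?_⟩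
    · rw [cross_dot_cross, hf, hg, hfg, hgf]; ring
    · exact dot_cross_self f g
    · rw [cross_cross_eq_smul_sub_smul', hg, hfg, one_smul, zero_smul, sub_zero]
    · rw [cross_cross_eq_smul_sub_smul, hf, hgf, one_smul, zero_smul, sub_zero]
  obtain ⟨q, hq⟩ : ∃ q, q = f ⨯₃ g := ⟨_, rfl⟩
  rw [← hq] at h
  obtain ⟨r, hr⟩ : ∃ r, r = (Real.sqrt 2)⁻¹ := ⟨_, rfl⟩
  have hr2 : r ^ 2 = 1 / 2 := by
    rw [hr, inv_pow, Real.sq_sqrt (by norm_num)]; norm_num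
  have hu' : u = fr9 f g q (0, ![r, 0, 0], ![0, r, 0]) := by
    rw [hu, ← hr]
    unfold fr9
    refine Prod.ext ?_ (Prod.ext ?_ ?_) <;> simp [frL_apply]
  have hb' : b = fr9 f g q (0, ![r * s1, r * s2, 0], ![r * s2, -(r * s1), 0]) := by
    rw [hb, ← hr]
    unfold fr9
    refine Prod.ext ?_ (Prod.ext ?_ ?_)
    · simp [frL_apply]
    · simp [frL_apply, smul_smul]
    · simp [frL_apply, smul_smul]
      module
  have hrne : r ^ 2 ≠ 0 := by rw [hr2]; norm_num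
  have hsy := pullP_symm (e1 := f) (e2 := g) (e3 := q) hp
  have hx := Q5_x hsy hr2
  have hT : T3x p u b = T3x (pullP f g q p) (0, ![r, 0, 0], ![0, r, 0])
      (0, ![r * s1, r * s2, 0], ![r * s2, -(r * s1), 0]) := by
    rw [hu', hb', T3x_fr9 h]
  have hP := @Q5_P5 f g q h p hp
  have hD := Q5_Dq h p hp
  -- `α = 0`
  have hα : s2 * ((pullP f g q p).S 0 0 - (pullP f g q p).S 1 1) =
      s1 * (2 * (pullP f g q p).S 0 1) := by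
    have h1 := alM_v0 p hF
    rw [hal, ha, hu', hb'] at h1
    have hS : ∀ v, p.S *ᵥ frL f g q v = frL f g q ((pullP f g q p).S *ᵥ v) := fun v => by
      rw [frL_mulVec h]; rfl
    have s10 := Q5_sym hsy.S 1 0
    simp only [fr9, hS, frL_dot h, map_zero, dotProduct_zero] at h1
    simp only [Q5_dot, Q5_mv, Matrix.cons_val_zero, Matrix.cons_val_one, Matrix.cons_val,
      s10] at h1
    have h2 : r ^ 2 * (s2 * ((pullP f g q p).S 0 0 - (pullP f g q p).S 1 1)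
      - s1 * (2 * (pullP f g q p).S 0 1)) = 0 := by linear_combination h1
    have h3 := (mul_eq_zero.1 h2).resolve_left hrne
    linarith
  -- the critical equation
  have hcr : (pullP f g q p).S 0 2 + (pullP f g q p).N 0 2 - (pullP f g q p).ν 0 = 0 ∧
      (pullP f g q p).S 1 2 + (pullP f g q p).N 1 2 - (pullP f g q p).ν 1 = 0 := by
    have h1 : eM (v0 p) u = fr9 f g q (br (0, ![r, 0, 0], ![0, r, 0])
        (t3x (pullP f g q p) (0, ![r, 0, 0], ![0, r, 0]))) := by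
      unfold eM
      rw [Q5_grad hp hF.uu, hu', t3x_fr9 h, br_fr9 h]
    rw [h1, hx] at he
    have h2 := Q5_frL_zero h (show frL f g q _ = 0 from he)
    have h3 := congrFun h2 0
    have h4 := congrFun h2 1
    simp only [br, Q5_cr0, Q5_cr1, Pi.add_apply, Pi.zero_apply, Matrix.cons_val_zero,
      Matrix.cons_val_one, Matrix.cons_val] at h3 h4
    constructor
    · have h5 : r ^ 2 * ((pullP f g q p).S 0 2 + (pullP f g q p).N 0 2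
          - (pullP f g q p).ν 0) = 0 := by linear_combination (-1 : ℝ) * h4
      exact (mul_eq_zero.1 h5).resolve_left hrne
    · have h5 : r ^ 2 * ((pullP f g q p).S 1 2 + (pullP f g q p).N 1 2
          - (pullP f g q p).ν 1) = 0 := by linear_combination h3
      exact (mul_eq_zero.1 h5).resolve_left hrne
  have hSN : (p.S + p.N) *ᵥ q - p.ν = frL f g q (((pullP f g q p).S + (pullP f g q p).N)
      *ᵥ ![0, 0, 1] - (pullP f g q p).ν) := by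
    have h6 : p.S *ᵥ q = frL f g q ((pullP f g q p).S *ᵥ ![0, 0, 1]) := by
      conv_lhs => rw [← Q5_fr3 f g q]
      rw [frL_mulVec h]; rfl
    have h7 : p.N *ᵥ q = frL f g q ((pullP f g q p).N *ᵥ ![0, 0, 1]) := by
      conv_lhs => rw [← Q5_fr3 f g q]
      rw [frL_mulVec h]; rfl
    rw [map_sub, frL_nu h, Matrix.add_mulVec, Matrix.add_mulVec, map_add, h6, h7]
  obtain ⟨p', hp'⟩ : ∃ p', p' = pullP f g q p := ⟨_, rfl⟩
  rw [← hp'] at hsy hT hP hD hα hcr hSN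
  obtain ⟨ρ, hρ⟩ : ∃ ρ, ρ = s1 * (p'.S 0 0 - p'.S 1 1) + s2 * (2 * p'.S 0 1) := ⟨_, rfl⟩
  have hA : p'.S 0 0 - p'.S 1 1 = ρ * s1 := by
    rw [hρ]
    linear_combination (-(p'.S 0 0 - p'.S 1 1)) * hs + s2 * hα
  have hB : 2 * p'.S 0 1 = ρ * s2 := by
    rw [hρ]
    linear_combination (-(2 * p'.S 0 1)) * hs - s1 * hα
  have hD' : Dq p q = ρ ^ 2 := by
    rw [hD]
    linear_combination (p'.S 0 0 - p'.S 1 1 + ρ * s1) * hA + (2 * p'.S 0 1 + ρ * s2) * hB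
      + ρ ^ 2 * hs
  refine ⟨q, h.n3, ?_, ?_, by rw [hD']; positivity⟩
  · have h8 : q ⨯₃ frL f g q ((p'.S + p'.N) *ᵥ ![0, 0, 1] - p'.ν) =
        frL f g q (![0, 0, 1] ⨯₃ ((p'.S + p'.N) *ᵥ ![0, 0, 1] - p'.ν)) := by
      rw [← frL_cross h, Q5_fr3]
    rw [hSN, h8]
    have h9 : (![0, 0, 1] : R3) ⨯₃ ((p'.S + p'.N) *ᵥ ![0, 0, 1] - p'.ν) = 0 := by
      refine Q5_ext ?_ ?_ ?_ <;>
      simp only [Q5_cr0, Q5_cr1, Q5_cr2, Q5_mv, Pi.sub_apply, Matrix.add_apply,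
        Matrix.cons_val_zero, Matrix.cons_val_one, Matrix.cons_val, Pi.zero_apply]
      · linear_combination (-1 : ℝ) * hcr.2
      · linear_combination hcr.1
      · ring
    rw [h9, map_zero]
  · rw [hD', hP hs hA hB, hT, Q5_T hsy hr2 hs hA hB hcr.1 hcr.2]
    ring

end Pool.Agent.FL.S2
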