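import Pool.Agent.FL.S2Core

/-!
# MP_f09395_gt, space (2), block QU: gradient of `v0` where `a × x = a × y = x × y = 0`
-/

set_option linter.unusedSectionVars false

noncomputable section

namespace Pool.Agent.FL.S2

open scoped ContDiff Matrix

/-- explicit derivative of the quadratic part -/
def QU_Lq (p : Par) (u w : R9) : ℝ :=
  w.1 ⬝ᵥ p.R *ᵥ u.1 + (w.2.1 ⬝ᵥ p.S *ᵥ u.2.1 + w.2.2 ⬝ᵥ p.S *ᵥ u.2.2)
    + w.2.1 ⬝ᵥ (u.2.2 ⨯₃ p.ν) + w.2.2 ⬝ᵥ (p.ν ⨯₃ u.2.1)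

theorem QU_differentiable_vq (p : Par) : Differentiable ℝ (vq p) := by
  unfold vq
  simp only [dotProduct, Matrix.mulVec, Fin.sum_univ_three, cross_apply, Matrix.cons_val_zero,
    Matrix.cons_val_one, Matrix.cons_val]
  fun_prop

theorem QU_vq_line (p : Par) (hR : p.Rᵀ = p.R) (hS : p.Sᵀ = p.S) (u w : R9) (t : ℝ) :
    vq p (u + t • w) = vq p u + t * QU_Lq p u w + t ^ 2 * vq p w := by
  have r1 : p.R 1 0 = p.R 0 1 := congrFun (congrFun hR 0) 1
  have r2 : p.R 2 0 = p.R 0 2 := congrFun (congrFun hR 0) 2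
  have r3 : p.R 2 1 = p.R 1 2 := congrFun (congrFun hR 1) 2
  have s1 : p.S 1 0 = p.S 0 1 := congrFun (congrFun hS 0) 1
  have s2 : p.S 2 0 = p.S 0 2 := congrFun (congrFun hS 0) 2
  have s3 : p.S 2 1 = p.S 1 2 := congrFun (congrFun hS 1) 2
  unfold vq QU_Lq
  simp only [dotProduct, Matrix.mulVec, Fin.sum_univ_three, cross_apply, Matrix.cons_val_zero,
    Matrix.cons_val_one, Matrix.cons_val, Prod.fst_add, Prod.snd_add, Prod.smul_fst,
    Prod.smul_snd, Pi.add_apply, Pi.smul_apply, smul_eq_mul]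
  rw [r1, r2, r3, s1, s2, s3]
  ring

theorem QU_fderiv_vq (p : Par) (hR : p.Rᵀ = p.R) (hS : p.Sᵀ = p.S) (u w : R9) :
    fderiv ℝ (vq p) u w = QU_Lq p u w := by
  have h1 : HasFDerivAt (vq p) (fderiv ℝ (vq p) u) u := (QU_differentiable_vq p u).hasFDerivAt
  have h2 : HasDerivAt (fun t : ℝ => u + t • w) w 0 := by
    simpa using ((hasDerivAt_id (0 : ℝ)).smul_const w).const_add u
  have h3 : HasDerivAt (fun t : ℝ => vq p (u + t • w)) (fderiv ℝ (vq p) u w) 0 := by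
    have h1' : HasFDerivAt (vq p) (fderiv ℝ (vq p) u) (u + (0 : ℝ) • w) := by simpa using h1
    exact h1'.comp_hasDerivAt (0 : ℝ) h2
  have h4 : HasDerivAt (fun t : ℝ => vq p u + t * QU_Lq p u w + t ^ 2 * vq p w) (QU_Lq p u w) 0 := by
    have := (((hasDerivAt_id (0 : ℝ)).mul_const (QU_Lq p u w)).const_add (vq p u)).add
      ((hasDerivAt_pow 2 (0 : ℝ)).mul_const (vq p w))
    refine this.congr_deriv ?_
    simp
  have h5 : (fun t : ℝ => vq p (u + t • w))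
      = fun t : ℝ => vq p u + t * QU_Lq p u w + t ^ 2 * vq p w :=
    funext (QU_vq_line p hR hS u w)
  rw [h5] at h3
  exact h3.unique h4

/-- the three cross products vanish -/
def Wz (u : R9) : Prop := u.1 ⨯₃ u.2.1 = 0 ∧ u.1 ⨯₃ u.2.2 = 0 ∧ u.2.1 ⨯₃ u.2.2 = 0

theorem QU_hasFDerivAt_BBm {u : R9} (h : Wz u) (i j : Fin 3) :
    HasFDerivAt (fun y : R9 => BBm y i j) (0 : R9 →L[ℝ] ℝ) u := by
  obtain ⟨h1, h2, h3⟩ := h
  have d1 : ∀ i, Differentiable ℝ (fun y : R9 => (y.1 ⨯₃ y.2.1) i) := by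
    intro i
    fin_cases i <;> simp [cross_apply] <;> fun_prop
  have d2 : ∀ i, Differentiable ℝ (fun y : R9 => (y.1 ⨯₃ y.2.2) i) := by
    intro i
    fin_cases i <;> simp [cross_apply] <;> fun_prop
  have d3 : ∀ i, Differentiable ℝ (fun y : R9 => (y.2.1 ⨯₃ y.2.2) i) := by
    intro i
    fin_cases i <;> simp [cross_apply] <;> fun_prop
  have m1 := ((d1 i u).hasFDerivAt).mul ((d1 j u).hasFDerivAt)
  have m2 := ((d2 i u).hasFDerivAt).mul ((d2 j u).hasFDerivAt)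
  have m3 := ((d3 i u).hasFDerivAt).mul ((d3 j u).hasFDerivAt)
  have := (m1.add m2).sub m3
  refine this.congr_fderiv ?_
  simp [h1, h2, h3]

theorem QU_BBm_zero {u : R9} (h : Wz u) (i j : Fin 3) : BBm u i j = 0 := by
  obtain ⟨h1, h2, h3⟩ := h
  simp [BBm, h1, h2, h3]

theorem QU_dot9_pos {u : R9} (hu : u ≠ 0) : dot9 u u ≠ 0 := by
  intro h
  apply hu
  have e1 : ∀ v : R3, 0 ≤ v ⬝ᵥ v := fun v => by
    simp only [dotProduct, Fin.sum_univ_three]
    nlinarith [mul_self_nonneg (v 0), mul_self_nonneg (v 1), mul_self_nonneg (v 2)]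
  have e2 : ∀ v : R3, v ⬝ᵥ v = 0 → v = 0 := fun v hv => by
    simp only [dotProduct, Fin.sum_univ_three] at hv
    funext i
    fin_cases i <;> simp <;> nlinarith [sq_nonneg (v 0), sq_nonneg (v 1), sq_nonneg (v 2)]
  unfold dot9 at h
  have a1 := e1 u.1
  have a2 := e1 u.2.1
  have a3 := e1 u.2.2
  have b1 : u.1 = 0 := e2 _ (by linarith)
  have b2 : u.2.1 = 0 := e2 _ (by linarith)
  have b3 : u.2.2 = 0 := e2 _ (by linarith)
  exact Prod.ext b1 (Prod.ext b2 b3)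

theorem QU_hasFDerivAt_vN (p : Par) {u : R9} (hu : u ≠ 0) (h : Wz u) :
    HasFDerivAt (vN p) (0 : R9 →L[ℝ] ℝ) u := by
  have h1 : HasFDerivAt (fun y : R9 => ∑ i, ∑ j, p.N i j * BBm y i j) (0 : R9 →L[ℝ] ℝ) u := by
    have := HasFDerivAt.fun_sum (u := (Finset.univ : Finset (Fin 3))) (x := u)
      (A := fun i y => ∑ j, p.N i j * BBm y i j) (A' := fun _ => (0 : R9 →L[ℝ] ℝ))
      (fun i _ => by
        have := HasFDerivAt.fun_sum (u := (Finset.univ : Finset (Fin 3))) (x := u)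
          (A := fun j y => p.N i j * BBm y i j) (A' := fun _ => (0 : R9 →L[ℝ] ℝ))
          (fun j _ => by simpa using (QU_hasFDerivAt_BBm h i j).const_mul (p.N i j))
        simpa using this)
    simpa using this
  have h2 : Differentiable ℝ (fun y : R9 => dot9 y y) := by
    unfold dot9
    simp only [dotProduct, Fin.sum_univ_three]
    fun_prop
  have h3 : HasFDerivAt (fun y : R9 => (dot9 y y)⁻¹)
      (fderiv ℝ (fun y : R9 => (dot9 y y)⁻¹) u) u :=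
    (DifferentiableAt.inv (h2 u) (QU_dot9_pos hu)).hasFDerivAt
  have h4 := h1.mul h3
  have h5 : (∑ i, ∑ j, p.N i j * BBm u i j) = 0 := by
    simp [QU_BBm_zero h]
  have h6 : vN p = fun y : R9 => (∑ i, ∑ j, p.N i j * BBm y i j) * (dot9 y y)⁻¹ := by
    funext y; simp [vN, div_eq_mul_inv]
  rw [h6]
  refine h4.congr_fderiv ?_
  rw [h5]
  simp

theorem QU_fderiv_v0 (p : Par) (hR : p.Rᵀ = p.R) (hS : p.Sᵀ = p.S) {u : R9} (hu : u ≠ 0)
    (h : Wz u) (w : R9) : fderiv ℝ (v0 p) u w = QU_Lq p u w := by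
  have h1 := (QU_differentiable_vq p u).hasFDerivAt.add (QU_hasFDerivAt_vN p hu h)
  have h2 : HasFDerivAt (v0 p) (fderiv ℝ (vq p) u) u := by
    refine h1.congr_fderiv ?_
    simp
  rw [h2.fderiv, QU_fderiv_vq p hR hS]

theorem QU_grad9_v0 (p : Par) (hR : p.Rᵀ = p.R) (hS : p.Sᵀ = p.S) {u : R9} (hu : u ≠ 0)
    (h : Wz u) : grad9 (v0 p) u =
      (p.R *ᵥ u.1, p.S *ᵥ u.2.1 + u.2.2 ⨯₃ p.ν, p.S *ᵥ u.2.2 + p.ν ⨯₃ u.2.1) := by
  unfold grad9
  simp only [QU_fderiv_v0 p hR hS hu h]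
  refine Prod.ext (funext fun i => ?_) (Prod.ext (funext fun i => ?_) (funext fun i => ?_))
  · simp [QU_Lq]
  · simp [QU_Lq]
  · simp [QU_Lq]

end Pool.Agent.FL.S2
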