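import Pool.Agent.FL.S2Glue
import Pool.Agent.FL.T3Inv

/-!
# MP_f09395_gt, space (2): invariance of `T3C`; continuity and compactness in coordinates
-/

set_option linter.unusedSectionVars false

noncomputable section

namespace Pool.Agent.FL.S2

open scoped ContDiff Quaternion Matrix
open Pool.Agent.Helper93.Fin Pool.Agent.helper79.FP Pool.Agent.helper79.FR
open Pool.Agent.helper79.FR.Sp2 (Mat QQ h0 m gg hh PP BB cc)
open Pool.Agent.helper79.FR
open Filter Topology

attribute [local instance] Matrix.linftyOpNormedRing Matrix.linftyOpNormedAlgebra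

theorem T3CRot_iota_ne {u : R9} (hu : u ≠ 0) : (iota u : m 1 1) ≠ 0 := by
  intro h
  apply hu
  have := congrArg iota.symm h
  simpa using this

/-- **`T3C` is invariant under the isotropy rotations** -/
theorem T3C_rotH {v : R9 → ℝ} (hv : PhiM v) (t : ℝ) {u : R9} (hu : u ≠ 0) (b : R9) :
    T3C v (rotH t u) (rotH t b) = T3C v u b := by
  obtain ⟨k, hk, hkk⟩ := Adj_iota' t
  obtain ⟨h1, h2⟩ := phiN_toM hv
  have e : ∀ w : R9, adM (PP 1 1) k (iota w : m 1 1) = (iota (rotH t w) : m 1 1) := fun w =>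
    Subtype.ext (by rw [adM_coe nData2 grpD2 hk]; exact hkk w)
  unfold T3C
  rw [← e, ← e]
  exact T3Inv_T3F nData2 cas2 grpD2 h1.smooth h2 hk (T3CRot_iota_ne hu) (iota b)

theorem T3CRot_dot9_zero : dot9 (0 : R9) 0 = 0 := by simp [dot9]

theorem T3CRot_flg_ne {u b : R9} (h : Flg u b) : u ≠ 0 := by
  intro h0
  have h1 := h.uu
  rw [h0, T3CRot_dot9_zero] at h1
  exact zero_ne_one h1

/-- the third order form is continuous -/
theorem T3C_cont {v : R9 → ℝ} (hv : PhiM v) {S : Set (R9 × R9)} (hS : ∀ k ∈ S, k.1 ≠ 0) :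
    ContinuousOn (fun k : R9 × R9 => T3C v k.1 k.2) S := by
  obtain ⟨F, hF⟩ : ∃ F : (m 1 1) × (m 1 1) → ℝ,
    F = fun q => T3F Q2 (PP 1 1) (toM v) q.1 q.2 := ⟨_, rfl⟩
  have h3 : ContinuousOn F {q : (m 1 1) × (m 1 1) | q.1 ≠ 0} := by
    rw [hF]
    exact T3F_cont nData2 (phiN_toM hv).1.smooth (fun q hq => hq)
  obtain ⟨G, hG⟩ : ∃ G : R9 × R9 → (m 1 1) × (m 1 1),
    G = fun k => ((iota k.1 : m 1 1), (iota k.2 : m 1 1)) := ⟨_, rfl⟩
  have h4 : Continuous G := by
    rw [hG]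
    exact (iota.continuous.comp continuous_fst).prodMk (iota.continuous.comp continuous_snd)
  have h5 : ∀ k ∈ S, G k ∈ {q : (m 1 1) × (m 1 1) | q.1 ≠ 0} := by
    intro k hk
    rw [hG]
    exact T3CRot_iota_ne (hS k hk)
  have e : (fun k : R9 × R9 => T3C v k.1 k.2) = F ∘ G := by
    funext k
    rw [Function.comp_apply, hF, hG]
    rfl
  rw [e]
  exact h3.comp h4.continuousOn h5

theorem T3CRot_cdot {Y : Type*} [TopologicalSpace Y] {f g : Y → R3} (hf : Continuous f)
    (hg : Continuous g) : Continuous (fun y => f y ⬝ᵥ g y) := by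
  unfold dotProduct
  exact continuous_finsetSum _ fun i _ =>
    ((continuous_apply i).comp hf).mul ((continuous_apply i).comp hg)

theorem T3CRot_ccross {Y : Type*} [TopologicalSpace Y] {f g : Y → R3} (hf : Continuous f)
    (hg : Continuous g) : Continuous (fun y => f y ⨯₃ g y) := by
  have hf' : ∀ i, Continuous fun y => f y i := fun i => (continuous_apply i).comp hf
  have hg' : ∀ i, Continuous fun y => g y i := fun i => (continuous_apply i).comp hg
  simp only [cross_apply]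
  refine continuous_pi fun i => ?_
  fin_cases i
  · exact ((hf' 1).mul (hg' 2)).sub ((hf' 2).mul (hg' 1))
  · exact ((hf' 2).mul (hg' 0)).sub ((hf' 0).mul (hg' 2))
  · exact ((hf' 0).mul (hg' 1)).sub ((hf' 1).mul (hg' 0))

theorem T3CRot_abs_le {p : R3} (h : p ⬝ᵥ p ≤ 1) (i : Fin 3) : |p i| ≤ 1 := by
  have h1 : p i * p i ≤ p ⬝ᵥ p := by
    unfold dotProduct
    exact Finset.single_le_sum (f := fun j => p j * p j) (fun j _ => mul_self_nonneg (p j))
      (Finset.mem_univ i)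
  exact abs_le.2 (abs_le_of_sq_le_sq' (by nlinarith) zero_le_one)

theorem T3CRot_norm_le {u : R9} (h : dot9 u u = 1) : ‖u‖ ≤ 1 := by
  have hn : ∀ p : R3, 0 ≤ p ⬝ᵥ p := fun p => by
    unfold dotProduct; exact Finset.sum_nonneg fun i _ => mul_self_nonneg _
  have h1 := hn u.1
  have h2 := hn u.2.1
  have h3 := hn u.2.2
  unfold dot9 at h
  have k : ∀ p : R3, p ⬝ᵥ p ≤ 1 → ‖p‖ ≤ 1 := fun p hp =>
    (pi_norm_le_iff_of_nonneg zero_le_one).2 fun i => by
      rw [Real.norm_eq_abs]; exact T3CRot_abs_le hp i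
  exact max_le (k _ (by linarith)) (max_le (k _ (by linarith)) (k _ (by linarith)))

/-- the set of unit flags is compact -/
theorem Flg_compact : IsCompact {k : R9 × R9 | Flg k.1 k.2} := by
  have a1 : Continuous fun k : R9 × R9 => k.1.1 := continuous_fst.comp continuous_fst
  have x1 : Continuous fun k : R9 × R9 => k.1.2.1 :=
    continuous_fst.comp (continuous_snd.comp continuous_fst)
  have y1 : Continuous fun k : R9 × R9 => k.1.2.2 :=
    continuous_snd.comp (continuous_snd.comp continuous_fst)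
  have a2 : Continuous fun k : R9 × R9 => k.2.1 := continuous_fst.comp continuous_snd
  have x2 : Continuous fun k : R9 × R9 => k.2.2.1 :=
    continuous_fst.comp (continuous_snd.comp continuous_snd)
  have y2 : Continuous fun k : R9 × R9 => k.2.2.2 :=
    continuous_snd.comp (continuous_snd.comp continuous_snd)
  have c1 : Continuous fun k : R9 × R9 => dot9 k.1 k.1 :=
    ((T3CRot_cdot a1 a1).add (T3CRot_cdot x1 x1)).add (T3CRot_cdot y1 y1)
  have c2 : Continuous fun k : R9 × R9 => dot9 k.2 k.2 :=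
    ((T3CRot_cdot a2 a2).add (T3CRot_cdot x2 x2)).add (T3CRot_cdot y2 y2)
  have c3 : Continuous fun k : R9 × R9 => dot9 k.1 k.2 :=
    ((T3CRot_cdot a1 a2).add (T3CRot_cdot x1 x2)).add (T3CRot_cdot y1 y2)
  have c4 : Continuous fun k : R9 × R9 => br k.1 k.2 :=
    (((T3CRot_ccross a1 a2).add (T3CRot_ccross x1 x2)).add (T3CRot_ccross y1 y2)).prodMk
      (((T3CRot_ccross a1 x2).sub (T3CRot_ccross a2 x1)).prodMk
        ((T3CRot_ccross a1 y2).sub (T3CRot_ccross a2 y1)))
  have c5 : Continuous fun k : R9 × R9 => brh k.1 k.2 :=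
    (T3CRot_cdot x1 y2).sub (T3CRot_cdot y1 x2)
  have e : {k : R9 × R9 | Flg k.1 k.2} = (((({k | dot9 k.1 k.1 = 1} ∩ {k | dot9 k.2 k.2 = 1}) ∩
      {k | dot9 k.1 k.2 = 0}) ∩ {k | br k.1 k.2 = 0}) ∩ {k | brh k.1 k.2 = 0}) := by
    ext k
    exact ⟨fun h => ⟨⟨⟨⟨h.uu, h.bb⟩, h.ub⟩, h.br⟩, h.brh⟩,
      fun h => ⟨h.1.1.1.1, h.1.1.1.2, h.1.1.2, h.1.2, h.2⟩⟩
  have hc : IsClosed {k : R9 × R9 | Flg k.1 k.2} := by
    rw [e]
    exact ((((isClosed_eq c1 continuous_const).inter (isClosed_eq c2 continuous_const)).inter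
      (isClosed_eq c3 continuous_const)).inter (isClosed_eq c4 continuous_const)).inter
      (isClosed_eq c5 continuous_const)
  refine (isCompact_closedBall (0 : R9 × R9) 1).of_isClosed_subset hc fun k hk => ?_
  rw [mem_closedBall_zero_iff]
  exact max_le (T3CRot_norm_le hk.uu) (T3CRot_norm_le hk.bb)

theorem alM_cont {v : R9 → ℝ} (hv : ContDiffOn ℝ ∞ v {0}ᶜ) {S : Set (R9 × R9)}
    (hS : ∀ k ∈ S, k.1 ≠ 0) : ContinuousOn (fun k : R9 × R9 => alM v k.1 k.2) S := by
  have h1 : ContinuousOn (fun k : R9 × R9 => fderiv ℝ v k.1) S :=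
    (hv.fderiv_of_isOpen isOpen_compl_singleton (m := ∞) (by norm_cast)).continuousOn.comp
      continuous_fst.continuousOn fun k hk => hS k hk
  have h2 : Continuous (fun k : R9 × R9 => rot k.2) := by
    unfold rot
    exact continuous_const.prodMk
      ((continuous_snd.comp (continuous_snd.comp continuous_snd)).neg.prodMk
        (continuous_fst.comp (continuous_snd.comp continuous_snd)))
  exact h1.clm_apply h2.continuousOn

/-- the wall flags with `α = 0` form a compact set -/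
theorem KW_compact {v : R9 → ℝ} (hv : ContDiffOn ℝ ∞ v {0}ᶜ) (cw : ℝ) : IsCompact (KW v cw) := by
  have h0 : ∀ k ∈ {k : R9 × R9 | Flg k.1 k.2}, k.1 ≠ 0 := fun k hk => T3CRot_flg_ne hk
  have h1 : ContinuousOn (fun k : R9 × R9 => cM k.1) {k : R9 × R9 | Flg k.1 k.2} :=
    cM_smooth.continuousOn.comp continuous_fst.continuousOn fun k hk => h0 k hk
  have h2 := alM_cont hv h0
  obtain ⟨F1, hF1, e1⟩ := continuousOn_iff_isClosed.1 h1 {cw} isClosed_singleton
  obtain ⟨F2, hF2, e2⟩ := continuousOn_iff_isClosed.1 h2 {0} isClosed_singleton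
  have e : KW v cw = {k : R9 × R9 | Flg k.1 k.2} ∩ (F1 ∩ F2) := by
    ext k
    constructor
    · rintro ⟨a, b, c⟩
      have k1 : k ∈ F1 ∩ {k : R9 × R9 | Flg k.1 k.2} := by rw [← e1]; exact ⟨b, a⟩
      have k2 : k ∈ F2 ∩ {k : R9 × R9 | Flg k.1 k.2} := by rw [← e2]; exact ⟨c, a⟩
      exact ⟨a, k1.1, k2.1⟩
    · rintro ⟨a, b, c⟩
      have k1 : k ∈ F1 ∩ {k : R9 × R9 | Flg k.1 k.2} := ⟨b, a⟩
      have k2 : k ∈ F2 ∩ {k : R9 × R9 | Flg k.1 k.2} := ⟨c, a⟩
      rw [← e1] at k1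
      rw [← e2] at k2
      exact ⟨a, k1.1, k2.1⟩
  rw [e]
  exact Flg_compact.inter_right (hF1.inter hF2)

end Pool.Agent.FL.S2
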