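import Pool.Agent.FL.S2T3
import Pool.Agent.FL.S2SecA
import Pool.Agent.FL.T3CRot
import Pool.Agent.FL.GE5
import Pool.Agent.FL.QU34a

/-!
# MP_f09395_gt, space (2), block QU: condition (Q3')
-/

set_option linter.unusedSectionVars false

noncomputable section

namespace Pool.Agent.FL.S2

open scoped ContDiff Matrix

/-- the parameters (local copy) -/
def QU3_p : Par where
  R := !![6, -5, 5; -5, 4, 1; 5, 1, 5]
  S := !![169 / 25, 0, 0; 0, 1, 0; 0, 0, 0]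
  N := !![-12, -4, 4; -4, -1, 1; 4, 1, -1]
  ν := ![13, 7, -6]

/-! ### vector calculus in coordinates -/

theorem QU3_cr (a b c d e f : ℝ) : (![a, b, c] : R3) ⨯₃ ![d, e, f] =
    ![b * f - c * e, c * d - a * f, a * e - b * d] := by
  simp [cross_apply]

theorem QU3_dt (a b c d e f : ℝ) : (![a, b, c] : R3) ⬝ᵥ ![d, e, f] = a * d + b * e + c * f := by
  simp [dotProduct, Fin.sum_univ_three]

theorem QU3_sm (r a b c : ℝ) : r • (![a, b, c] : R3) = ![r * a, r * b, r * c] := by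
  funext i; fin_cases i <;> simp

theorem QU3_add (a b c d e f : ℝ) : (![a, b, c] : R3) + ![d, e, f] = ![a + d, b + e, c + f] := by
  funext i; fin_cases i <;> simp

theorem QU3_sub (a b c d e f : ℝ) : (![a, b, c] : R3) - ![d, e, f] = ![a - d, b - e, c - f] := by
  funext i; fin_cases i <;> simp

theorem QU3_zero : (0 : R3) = ![0, 0, 0] := by
  funext i; fin_cases i <;> simp

theorem QU3_R (a b c : ℝ) : QU3_p.R *ᵥ ![a, b, c] =
    ![6 * a - 5 * b + 5 * c, -5 * a + 4 * b + c, 5 * a + b + 5 * c] := by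
  funext i; fin_cases i <;> simp [QU3_p, Matrix.mulVec, dotProduct, Fin.sum_univ_three] <;> ring

theorem QU3_S (a b c : ℝ) : QU3_p.S *ᵥ ![a, b, c] = ![169 / 25 * a, b, 0] := by
  funext i; fin_cases i <;> simp [QU3_p, Matrix.mulVec, dotProduct, Fin.sum_univ_three]

theorem QU3_N (a b c : ℝ) : QU3_p.N *ᵥ ![a, b, c] =
    ![-12 * a - 4 * b + 4 * c, -4 * a - b + c, 4 * a + b - c] := by
  funext i; fin_cases i <;> simp [QU3_p, Matrix.mulVec, dotProduct, Fin.sum_univ_three] <;> ring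

theorem QU3_nu : QU3_p.ν = ![13, 7, -6] := rfl

theorem QU3_symm : QU3_p.Symm := by
  constructor <;> (ext i j; fin_cases i <;> fin_cases j <;> simp [QU3_p])

/-! ### zeros -/

theorem QU3_om0 (u : R9) : t3om u 0 = 0 := by
  simp [t3om]

theorem QU3_om0' (u : R9) : t3om 0 u = 0 := by
  simp [t3om]

theorem QU3_K0 (p : Par) (u : R9) : t3K p u 0 = 0 := by
  simp [t3K]

theorem QU3_K0' (p : Par) (u : R9) : t3K p 0 u = 0 := by
  simp [t3K]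

theorem QU3_q0' (p : Par) (u : R9) : t3q p 0 u = 0 := by
  simp [t3q]

theorem QU3_dot0 (u : R9) : dot9 u 0 = 0 := by
  simp [dot9]

theorem QU3_dot0' (u : R9) : dot9 0 u = 0 := by
  simp [dot9]

/-- the third order form where `om u u = 0` and `e = 0` -/
theorem QU3_z (p : Par) (u b x s y P r : R9) (hu : t3om u u = 0) :
    t3z p u b x s y 0 P r = - (2 * t3q p P P + 8 * t3K p (t3om u P) (t3om u P))
      + (2 * t3q p P r + 8 * t3K p (t3om u P) (t3om u r))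
      - (2 * t3q p r r + 8 * t3K p (t3om u r) (t3om u r)) - dot9 (P - r) (br x s) := by
  unfold t3z t3F2 t3F1
  rw [hu]
  simp only [QU3_om0, QU3_om0', QU3_K0, QU3_K0', QU3_q0', QU3_dot0, QU3_dot0']
  ring

theorem QU3_mk {a b c d e f : ℝ} (h1 : a = d) (h2 : b = e) (h3 : c = f) :
    (![a, b, c] : R3) = ![d, e, f] := by
  rw [h1, h2, h3]

theorem QU3_ax1 (h y z : ℝ) : T3x QU3_p (0, ![1, 0, 0], 0) (![h, 0, 0], 0, ![0, y, z]) =
    1617 * h ^ 2 + 25711 / 25 * y ^ 2 - 43 * y * z + 19936 / 25 * z ^ 2 := by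
  have hu : t3om ((0, ![1, 0, 0], 0) : R9) (0, ![1, 0, 0], 0) = 0 := by
    simp [t3om]
  have hx : t3x QU3_p (0, ![1, 0, 0], 0) = (0, ![169 / 25, 0, 0], ![0, -6, -7]) := by
    unfold t3x
    rw [hu, QU3_K0]
    simp only [t3qg, t3Kg, QU3_zero, QU3_S, QU3_R, QU3_N, QU3_nu, QU3_cr, QU3_sm, QU3_add, Prod.smul_mk, Prod.mk_add_mk,
      Prod.mk_sub_mk, QU3_sub, Prod.fst_zero, Prod.snd_zero]
    refine Prod.ext ?_ (Prod.ext ?_ ?_) <;> refine QU3_mk ?_ ?_ ?_ <;> norm_num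
  have hs : t3s QU3_p (0, ![1, 0, 0], 0) (![h, 0, 0], 0, ![0, y, z]) =
      (![6 * h, -5 * h, 5 * h], ![-6 * y - 7 * z, 13 * z, -13 * y],
        ![0, 3 * y + 2 * z, 2 * y + 2 * z]) := by
    unfold t3s t3F1
    rw [hu, QU3_K0, QU3_K0']
    simp only [t3qg, t3Kg, t3om, QU3_zero, QU3_S, QU3_R, QU3_N, QU3_nu, QU3_cr, QU3_sm, QU3_add, Prod.smul_mk, Prod.mk_add_mk,
      Prod.mk_sub_mk, QU3_sub, Prod.fst_zero, Prod.snd_zero]
    refine Prod.ext ?_ (Prod.ext ?_ ?_) <;> refine QU3_mk ?_ ?_ ?_ <;> ring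
  have he : br ((0, ![1, 0, 0], 0) : R9) (0, ![169 / 25, 0, 0], ![0, -6, -7]) = 0 := by
    simp only [br, QU3_zero, QU3_cr, QU3_add, QU3_sub]
    refine Prod.ext ?_ (Prod.ext ?_ ?_) <;> simp
  have hP : br ((![h, 0, 0], 0, ![0, y, z]) : R9) (0, ![169 / 25, 0, 0], ![0, -6, -7]) =
      (![-7 * y + 6 * z, 0, 0], 0, ![0, 7 * h, -6 * h]) := by
    simp only [br, QU3_zero, QU3_cr, QU3_add, QU3_sub]
    refine Prod.ext ?_ (Prod.ext ?_ ?_) <;> refine QU3_mk ?_ ?_ ?_ <;> ring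
  have hr : br ((0, ![1, 0, 0], 0) : R9) (![6 * h, -5 * h, 5 * h],
      ![-6 * y - 7 * z, 13 * z, -13 * y], ![0, 3 * y + 2 * z, 2 * y + 2 * z]) =
      (![0, 13 * y, 13 * z], ![0, -5 * h, -5 * h], 0) := by
    simp only [br, QU3_zero, QU3_cr, QU3_add, QU3_sub]
    refine Prod.ext ?_ (Prod.ext ?_ ?_) <;> refine QU3_mk ?_ ?_ ?_ <;> ring
  unfold T3x
  rw [hx, hs, he, hP, hr, QU3_z _ _ _ _ _ _ _ _ hu]
  simp only [t3q, t3K, t3om, dot9, br, QU3_zero, QU3_S, QU3_R, QU3_N, QU3_nu, QU3_cr, QU3_sm,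
    QU3_add, QU3_sub, QU3_dt, Prod.mk_sub_mk]
  ring

theorem QU3_ax2 (h y z : ℝ) : T3x QU3_p (0, ![0, 1, 0], 0) (![0, h, 0], 0, ![z, 0, y]) =
    1199 / 5 * h ^ 2 + 1118 * y ^ 2 - 7457 / 25 * y * z + 12211 / 25 * z ^ 2 := by
  have hu : t3om ((0, ![0, 1, 0], 0) : R9) (0, ![0, 1, 0], 0) = 0 := by
    simp [t3om]
  have hx : t3x QU3_p (0, ![0, 1, 0], 0) = (0, ![0, 1, 0], ![6, 0, 13]) := by
    unfold t3x
    rw [hu, QU3_K0]
    simp only [t3qg, t3Kg, QU3_zero, QU3_S, QU3_R, QU3_N, QU3_nu, QU3_cr, QU3_sm, QU3_add,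
      Prod.smul_mk, Prod.mk_add_mk, Prod.mk_sub_mk, QU3_sub, Prod.fst_zero, Prod.snd_zero]
    refine Prod.ext ?_ (Prod.ext ?_ ?_) <;> refine QU3_mk ?_ ?_ ?_ <;> norm_num
  have hs : t3s QU3_p (0, ![0, 1, 0], 0) (![0, h, 0], 0, ![z, 0, y]) =
      (![-5 * h, 4 * h, h], ![-7 * y, 13 * y + 6 * z, 7 * z],
        ![8 * y + 219 / 25 * z, 0, 24 * y + 8 * z]) := by
    unfold t3s t3F1
    rw [hu, QU3_K0, QU3_K0']
    simp only [t3qg, t3Kg, t3om, QU3_zero, QU3_S, QU3_R, QU3_N, QU3_nu, QU3_cr, QU3_sm, QU3_add,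
      Prod.smul_mk, Prod.mk_add_mk, Prod.mk_sub_mk, QU3_sub, Prod.fst_zero, Prod.snd_zero]
    refine Prod.ext ?_ (Prod.ext ?_ ?_) <;> refine QU3_mk ?_ ?_ ?_ <;> ring
  have he : br ((0, ![0, 1, 0], 0) : R9) (0, ![0, 1, 0], ![6, 0, 13]) = 0 := by
    simp only [br, QU3_zero, QU3_cr, QU3_add, QU3_sub]
    refine Prod.ext ?_ (Prod.ext ?_ ?_) <;> simp
  have hP : br ((![0, h, 0], 0, ![z, 0, y]) : R9) (0, ![0, 1, 0], ![6, 0, 13]) =
      (![0, 6 * y - 13 * z, 0], 0, ![13 * h, 0, -6 * h]) := by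
    simp only [br, QU3_zero, QU3_cr, QU3_add, QU3_sub]
    refine Prod.ext ?_ (Prod.ext ?_ ?_) <;> refine QU3_mk ?_ ?_ ?_ <;> ring
  have hr : br ((0, ![0, 1, 0], 0) : R9) (![-5 * h, 4 * h, h], ![-7 * y, 13 * y + 6 * z, 7 * z],
        ![8 * y + 219 / 25 * z, 0, 24 * y + 8 * z]) =
      (![7 * z, 0, 7 * y], ![h, 0, 5 * h], 0) := by
    simp only [br, QU3_zero, QU3_cr, QU3_add, QU3_sub]
    refine Prod.ext ?_ (Prod.ext ?_ ?_) <;> refine QU3_mk ?_ ?_ ?_ <;> ring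
  unfold T3x
  rw [hx, hs, he, hP, hr, QU3_z _ _ _ _ _ _ _ _ hu]
  simp only [t3q, t3K, t3om, dot9, br, QU3_zero, QU3_S, QU3_R, QU3_N, QU3_nu, QU3_cr, QU3_sm,
    QU3_add, QU3_sub, QU3_dt, Prod.mk_sub_mk]
  ring

theorem QU3_ax3 (h y z : ℝ) : T3x QU3_p (0, ![0, 0, 1], 0) (![0, 0, h], 0, ![y, z, 0]) =
    1204 / 5 * h ^ 2 + 3836 / 25 * y ^ 2 + 12254 / 25 * y * z + 1014 * z ^ 2 := by
  have hu : t3om ((0, ![0, 0, 1], 0) : R9) (0, ![0, 0, 1], 0) = 0 := by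
    simp [t3om]
  have hx : t3x QU3_p (0, ![0, 0, 1], 0) = (0, 0, ![7, -13, 0]) := by
    unfold t3x
    rw [hu, QU3_K0]
    simp only [t3qg, t3Kg, QU3_zero, QU3_S, QU3_R, QU3_N, QU3_nu, QU3_cr, QU3_sm, QU3_add,
      Prod.smul_mk, Prod.mk_add_mk, Prod.mk_sub_mk, QU3_sub, Prod.fst_zero, Prod.snd_zero]
    refine Prod.ext ?_ (Prod.ext ?_ ?_) <;> refine QU3_mk ?_ ?_ ?_ <;> norm_num
  have hs : t3s QU3_p (0, ![0, 0, 1], 0) (![0, 0, h], 0, ![y, z, 0]) =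
      (![5 * h, h, 5 * h], ![-6 * z, 6 * y, 7 * y - 13 * z],
        ![219 / 25 * y - 8 * z, -8 * y + 25 * z, 0]) := by
    unfold t3s t3F1
    rw [hu, QU3_K0, QU3_K0']
    simp only [t3qg, t3Kg, t3om, QU3_zero, QU3_S, QU3_R, QU3_N, QU3_nu, QU3_cr, QU3_sm, QU3_add,
      Prod.smul_mk, Prod.mk_add_mk, Prod.mk_sub_mk, QU3_sub, Prod.fst_zero, Prod.snd_zero]
    refine Prod.ext ?_ (Prod.ext ?_ ?_) <;> refine QU3_mk ?_ ?_ ?_ <;> ring
  have he : br ((0, ![0, 0, 1], 0) : R9) (0, 0, ![7, -13, 0]) = 0 := by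
    simp only [br, QU3_zero, QU3_cr, QU3_add, QU3_sub]
    refine Prod.ext ?_ (Prod.ext ?_ ?_) <;> simp
  have hP : br ((![0, 0, h], 0, ![y, z, 0]) : R9) (0, 0, ![7, -13, 0]) =
      (![0, 0, -13 * y - 7 * z], 0, ![13 * h, 7 * h, 0]) := by
    simp only [br, QU3_zero, QU3_cr, QU3_add, QU3_sub]
    refine Prod.ext ?_ (Prod.ext ?_ ?_) <;> refine QU3_mk ?_ ?_ ?_ <;> ring
  have hr : br ((0, ![0, 0, 1], 0) : R9) (![5 * h, h, 5 * h], ![-6 * z, 6 * y, 7 * y - 13 * z],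
        ![219 / 25 * y - 8 * z, -8 * y + 25 * z, 0]) =
      (![-6 * y, -6 * z, 0], ![-h, 5 * h, 0], 0) := by
    simp only [br, QU3_zero, QU3_cr, QU3_add, QU3_sub]
    refine Prod.ext ?_ (Prod.ext ?_ ?_) <;> refine QU3_mk ?_ ?_ ?_ <;> ring
  unfold T3x
  rw [hx, hs, he, hP, hr, QU3_z _ _ _ _ _ _ _ _ hu]
  simp only [t3q, t3K, t3om, dot9, br, QU3_zero, QU3_S, QU3_R, QU3_N, QU3_nu, QU3_cr, QU3_sm,
    QU3_add, QU3_sub, QU3_dt, Prod.mk_sub_mk]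
  ring

theorem QU3_pos1 (h y z : ℝ) (hh : h ^ 2 + (y ^ 2 + z ^ 2) = 1) :
    0 < 1617 * h ^ 2 + 25711 / 25 * y ^ 2 - 43 * y * z + 19936 / 25 * z ^ 2 := by
  nlinarith [sq_nonneg (y - z), sq_nonneg h, sq_nonneg y, sq_nonneg z]

theorem QU3_pos2 (h y z : ℝ) (hh : h ^ 2 + (y ^ 2 + z ^ 2) = 1) :
    0 < 1199 / 5 * h ^ 2 + 1118 * y ^ 2 - 7457 / 25 * y * z + 12211 / 25 * z ^ 2 := by
  nlinarith [sq_nonneg (y - z), sq_nonneg h, sq_nonneg y, sq_nonneg z]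

theorem QU3_pos3 (h y z : ℝ) (hh : h ^ 2 + (y ^ 2 + z ^ 2) = 1) :
    0 < 1204 / 5 * h ^ 2 + 3836 / 25 * y ^ 2 + 12254 / 25 * y * z + 1014 * z ^ 2 := by
  nlinarith [sq_nonneg (2 * y + z), sq_nonneg (y + 2 * z), sq_nonneg h, sq_nonneg y, sq_nonneg z]

theorem QU3_vec (f : R3) : f = ![f 0, f 1, f 2] := by
  funext i; fin_cases i <;> rfl

theorem QU3_rotpi (v : R9 → ℝ) (hv : PhiM v) (f ζ : R3) (η : ℝ) (hf : f ⬝ᵥ f = 1) :
    T3C v (0, f, 0) (η • f, 0, ζ) = T3C v (0, -f, 0) ((-η) • (-f), 0, -ζ) := by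
  have h0 : ((0, f, 0) : R9) ≠ 0 := by
    intro h
    have h1 : f = 0 := congrArg (fun w : R9 => w.2.1) h
    rw [h1, zero_dotProduct] at hf
    exact zero_ne_one hf
  rw [← T3C_rotH hv Real.pi h0]
  congr 1
  · simp [rotH]
  · simp [rotH]

/-- the form at the normal form of the flags at wall A with `a = 0`, for `f = e₁, e₂, e₃` -/
theorem QU3_T3C {η : ℝ} {f ζ : R3} (hf : f ⬝ᵥ f = 1) (hζ : ζ ⬝ᵥ f = 0)
    (hη : η ^ 2 + ζ ⬝ᵥ ζ = 1) :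
    T3C (v0 QU3_p) (0, f, 0) (η • f, 0, ζ) = T3x QU3_p (0, f, 0) (η • f, 0, ζ) := by
  unfold T3C
  refine T3F_v0 nData2 QU3_symm ⟨?_, ?_, ?_, ?_, ?_⟩
  · simp [dot9, hf]
  · simp only [dot9, smul_dotProduct, dotProduct_smul, hf, zero_dotProduct, smul_eq_mul]
    linarith
  · simp [dot9]
  · simp [br]
  · simp [brh, dotProduct_comm f ζ, hζ]

theorem QU3_e1 {η : ℝ} {ζ : R3} (hζ : ζ ⬝ᵥ ![1, 0, 0] = 0) (hη : η ^ 2 + ζ ⬝ᵥ ζ = 1) :
    0 < T3C (v0 QU3_p) (0, ![1, 0, 0], 0) (η • ![1, 0, 0], 0, ζ) := by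
  rw [QU3_T3C (by rw [QU3_dt]; norm_num) hζ hη]
  rw [QU3_vec ζ, QU3_dt] at hζ hη
  have h0 : ζ 0 = 0 := by linarith
  have h1 : η • (![1, 0, 0] : R3) = ![η, 0, 0] := by
    rw [QU3_sm]; simp
  rw [QU3_vec ζ, h0, h1, QU3_ax1]
  apply QU3_pos1
  rw [h0] at hη
  linarith

theorem QU3_e2 {η : ℝ} {ζ : R3} (hζ : ζ ⬝ᵥ ![0, 1, 0] = 0) (hη : η ^ 2 + ζ ⬝ᵥ ζ = 1) :
    0 < T3C (v0 QU3_p) (0, ![0, 1, 0], 0) (η • ![0, 1, 0], 0, ζ) := by
  rw [QU3_T3C (by rw [QU3_dt]; norm_num) hζ hη]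
  rw [QU3_vec ζ, QU3_dt] at hζ hη
  have h0 : ζ 1 = 0 := by linarith
  have h1 : η • (![0, 1, 0] : R3) = ![0, η, 0] := by
    rw [QU3_sm]; simp
  rw [QU3_vec ζ, h0, h1, QU3_ax2]
  apply QU3_pos2
  rw [h0] at hη
  linarith

theorem QU3_e3 {η : ℝ} {ζ : R3} (hζ : ζ ⬝ᵥ ![0, 0, 1] = 0) (hη : η ^ 2 + ζ ⬝ᵥ ζ = 1) :
    0 < T3C (v0 QU3_p) (0, ![0, 0, 1], 0) (η • ![0, 0, 1], 0, ζ) := by
  rw [QU3_T3C (by rw [QU3_dt]; norm_num) hζ hη]
  rw [QU3_vec ζ, QU3_dt] at hζ hη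
  have h0 : ζ 2 = 0 := by linarith
  have h1 : η • (![0, 0, 1] : R3) = ![0, 0, η] := by
    rw [QU3_sm]; simp
  rw [QU3_vec ζ, h0, h1, QU3_ax3]
  apply QU3_pos3
  rw [h0] at hη
  linarith

/-- `f × S f = 0` forces an axis -/
theorem QU3_axis {f : R3} (hf : f ⬝ᵥ f = 1) (h : f ⨯₃ (QU3_p.S *ᵥ f) = 0) :
    (f = ![1, 0, 0] ∨ f = ![0, 1, 0] ∨ f = ![0, 0, 1]) ∨
      (-f = ![1, 0, 0] ∨ -f = ![0, 1, 0] ∨ -f = ![0, 0, 1]) := by
  rw [QU3_vec f] at hf h ⊢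
  rw [QU3_dt] at hf
  rw [QU3_S, QU3_cr, QU3_zero] at h
  have k0 := congrFun h 0
  have k1 := congrFun h 1
  have k2 := congrFun h 2
  simp at k0 k1 k2
  have m1 : f 1 * f 2 = 0 := by
    rcases k0 with k | k
    · rw [k, mul_zero]
    · rw [k, zero_mul]
  have m2 : f 0 * f 2 = 0 := by
    rcases k1 with k | k
    · rw [k, mul_zero]
    · rw [k, zero_mul]
  have m3 : f 0 * f 1 = 0 := by linarith
  have neg : -(![f 0, f 1, f 2] : R3) = ![-f 0, -f 1, -f 2] := by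
    funext i; fin_cases i <;> simp
  rw [neg]
  rcases mul_eq_zero.1 m1 with a | a
  · rcases mul_eq_zero.1 m2 with b | b
    · have c : f 2 * f 2 = 1 := by rw [a, b] at hf; linarith
      rcases mul_self_eq_one_iff.1 c with d | d
      · left; right; right; rw [a, b, d]
      · right; right; right; rw [a, b, d]; simp
    · have c : f 0 * f 0 = 1 := by rw [a, b] at hf; linarith
      rcases mul_self_eq_one_iff.1 c with d | d
      · left; left; rw [a, b, d]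
      · right; left; rw [a, b, d]; simp
  · rcases mul_eq_zero.1 m3 with b | b
    · have c : f 1 * f 1 = 1 := by rw [a, b] at hf; linarith
      rcases mul_self_eq_one_iff.1 c with d | d
      · left; right; left; rw [a, b, d]
      · right; right; left; rw [a, b, d]; simp
    · have c : f 0 * f 0 = 1 := by rw [a, b] at hf; linarith
      rcases mul_self_eq_one_iff.1 c with d | d
      · left; left; rw [a, b, d]
      · right; left; rw [a, b, d]; simp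

/-- **condition (Q3')** -/
theorem QU3_q3 : ∀ k ∈ KW (v0 QU3_p) 1, k.1.1 = 0 → (eM (v0 QU3_p) k.1).1 = 0 →
    0 < T3C (v0 QU3_p) k.1 k.2 := by
  rintro ⟨u, b⟩ ⟨hF, hc, -⟩ h1 h2
  dsimp only at hF hc h1 h2 ⊢
  have hu0 : u ≠ 0 := T3CRot_flg_ne hF
  obtain ⟨t, η, f, ζ, hf, hζ, hη, hu, hb⟩ := wallA_a0 hF hc h1
  have hf0 : ((0, f, 0) : R9) ≠ 0 := by
    intro h
    have h1 : f = 0 := congrArg (fun w : R9 => w.2.1) h
    rw [h1, zero_dotProduct] at hf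
    exact zero_ne_one hf
  have hu' : u = (0, Real.cos t • f, Real.sin t • f) := by
    rw [hu]; simp [rotH]
  have hW : Wz u := by
    rw [hu']
    refine ⟨?_, ?_, ?_⟩ <;> simp
  have hx : f ⨯₃ (QU3_p.S *ᵥ f) = 0 := by
    have h3 : (eM (v0 QU3_p) u).1 = 0 := h2
    unfold eM at h3
    rw [QU_grad9_v0 QU3_p QU3_symm.R QU3_symm.S hu0 hW] at h3
    rw [hu'] at h3
    simp only [br, map_zero, LinearMap.zero_apply, zero_add, map_add, map_smul,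
      LinearMap.smul_apply, Matrix.mulVec_smul] at h3
    have h4 : Real.cos t • Real.cos t • f ⨯₃ (QU3_p.S *ᵥ f) +
        Real.sin t • Real.sin t • f ⨯₃ (QU3_p.S *ᵥ f) = 0 := by
      rw [← h3, ← cross_anticomm f QU3_p.ν]
      simp only [map_neg]
      module
    rw [smul_smul, smul_smul, ← add_smul] at h4
    have h5 : Real.cos t * Real.cos t + Real.sin t * Real.sin t = 1 := by
      nlinarith [Real.cos_sq_add_sin_sq t]
    rw [h5, one_smul] at h4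
    exact h4
  rw [hu, hb, T3C_rotH (GE5_v0 QU3_p) t hf0]
  rcases QU3_axis hf hx with (h | h | h) | (h | h | h)
  · rw [h] at hζ ⊢; exact QU3_e1 hζ hη
  · rw [h] at hζ ⊢; exact QU3_e2 hζ hη
  · rw [h] at hζ ⊢; exact QU3_e3 hζ hη
  · rw [QU3_rotpi _ (GE5_v0 QU3_p) _ _ _ hf, h]
    refine QU3_e1 ?_ ?_
    · rw [← h, dotProduct_neg, neg_dotProduct, hζ]; simp
    · rw [neg_dotProduct, dotProduct_neg, neg_neg, neg_sq]; exact hη
  · rw [QU3_rotpi _ (GE5_v0 QU3_p) _ _ _ hf, h]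
    refine QU3_e2 ?_ ?_
    · rw [← h, dotProduct_neg, neg_dotProduct, hζ]; simp
    · rw [neg_dotProduct, dotProduct_neg, neg_neg, neg_sq]; exact hη
  · rw [QU3_rotpi _ (GE5_v0 QU3_p) _ _ _ hf, h]
    refine QU3_e3 ?_ ?_
    · rw [← h, dotProduct_neg, neg_dotProduct, hζ]; simp
    · rw [neg_dotProduct, dotProduct_neg, neg_neg, neg_sq]; exact hη

/-- parameters with the same entries -/
theorem QU3_eq {p : Par} (hR : p.R = !![6, -5, 5; -5, 4, 1; 5, 1, 5])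
    (hS : p.S = !![169 / 25, 0, 0; 0, 1, 0; 0, 0, 0]) (hN : p.N = !![-12, -4, 4; -4, -1, 1; 4, 1, -1])
    (hν : p.ν = ![13, 7, -6]) : p = QU3_p := by
  obtain ⟨R, S, N, ν⟩ := p
  dsimp only at hR hS hN hν
  subst hR hS hN hν
  rfl

/-- **condition (Q3')** for parameters equal to `QU3_p` -/
theorem QU3_q3_of {p : Par} (hp : p = QU3_p) : ∀ k ∈ KW (v0 p) 1, k.1.1 = 0 →
    (eM (v0 p) k.1).1 = 0 → 0 < T3C (v0 p) k.1 k.2 := by
  subst hp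
  exact QU3_q3

end Pool.Agent.FL.S2
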