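import Pool.Agent.FL.S2T3
import Pool.Agent.FL.S2Glue
import Pool.Agent.FL.T3CRot
import Pool.Agent.FL.S2SecB
import Pool.Agent.FL.QU34a
import Pool.Agent.FL.GE5

/-!
# MP_f09395_gt, space (2), block QU: the condition (Q4') for `pStar`
-/

set_option linter.unusedSectionVars false
set_option linter.unusedVariables false

noncomputable section

namespace Pool.Agent.FL.S2

open scoped ContDiff Quaternion Matrix
open Pool.Agent.Helper93.Fin Pool.Agent.helper79.FP Pool.Agent.helper79.FR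
open Pool.Agent.helper79.FR.Sp2 (Mat QQ h0 m gg hh PP BB cc)

attribute [local instance] Matrix.linftyOpNormedRing Matrix.linftyOpNormedAlgebra

namespace QU4

/-- the parameters (same entries as `pStar`, Lean sign) -/
def pStar : Par where
  R := !![6, -5, 5; -5, 4, 1; 5, 1, 5]
  S := !![169 / 25, 0, 0; 0, 1, 0; 0, 0, 0]
  N := !![-12, -4, 4; -4, -1, 1; 4, 1, -1]
  ν := ![13, 7, -6]

/-- `u = (ρ ν, ρ ν, 0)` -/
def U (r : ℝ) : R9 := (![13 * r, 7 * r, -6 * r], ![13 * r, 7 * r, -6 * r], ![0, 0, 0])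

/-- `b = (μ, -μ, 0)` -/
def B (m0 m1 m2 : ℝ) : R9 := (![m0, m1, m2], ![-m0, -m1, -m2], ![0, 0, 0])

def X (r : ℝ) : R9 :=
  (![(13) * r, (-43) * r, (42) * r], ![(2197 / 25) * r, (7) * r, 0], ![0, 0, 0])

def S (r m0 m1 m2 : ℝ) : R9 :=
  (![(-4) * r ^ 2 * m0 + (-44) * r ^ 2 * m1 + (-60) * r ^ 2 * m2 + (6) * m0 + (-5) * m1 + (5) * m2, (-44) * r ^ 2 * m0 + (92) * r ^ 2 * m1 + (12) * r ^ 2 * m2 + (-5) * m0 + (4) * m1 + (1) * m2, (-60) * r ^ 2 * m0 + (12) * r ^ 2 * m1 + (-116) * r ^ 2 * m2 + (5) * m0 + (1) * m1 + (5) * m2], ![(4) * r ^ 2 * m0 + (44) * r ^ 2 * m1 + (60) * r ^ 2 * m2 + (-169 / 25) * m0, (44) * r ^ 2 * m0 + (-92) * r ^ 2 * m1 + (-12) * r ^ 2 * m2 + (-1) * m1, (60) * r ^ 2 * m0 + (-12) * r ^ 2 * m1 + (116) * r ^ 2 * m2], ![(-6) * m1 + (-7) * m2, (6) * m0 + (13) * m2, (7) * m0 + (-13) * m1])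

def Y (r m0 m1 m2 : ℝ) : R9 :=
  (![(208) * r ^ 3 * m0 ^ 2 + (4576) * r ^ 3 * m0 * m1 + (6240) * r ^ 3 * m0 * m2 + (-4784) * r ^ 3 * m1 ^ 2 + (-1248) * r ^ 3 * m1 * m2 + (6032) * r ^ 3 * m2 ^ 2 + (8) * r * m0 * m1 + (8) * r * m0 * m2 + (88) * r * m1 ^ 2 + (208) * r * m1 * m2 + (120) * r * m2 ^ 2, (112) * r ^ 3 * m0 ^ 2 + (2464) * r ^ 3 * m0 * m1 + (3360) * r ^ 3 * m0 * m2 + (-2576) * r ^ 3 * m1 ^ 2 + (-672) * r ^ 3 * m1 * m2 + (3248) * r ^ 3 * m2 ^ 2 + (-8) * r * m0 ^ 2 + (-88) * r * m0 * m1 + (-152) * r * m0 * m2 + (-160) * r * m1 * m2 + (-256) * r * m2 ^ 2, (-96) * r ^ 3 * m0 ^ 2 + (-2112) * r ^ 3 * m0 * m1 + (-2880) * r ^ 3 * m0 * m2 + (2208) * r ^ 3 * m1 ^ 2 + (576) * r ^ 3 * m1 * m2 + (-2784) * r ^ 3 * m2 ^ 2 + (-8) * r * m0 ^ 2 + (-56) * r * m0 * m1 + (-120) * r * m0 * m2 + (160) * r * m1 ^ 2 + (256) * r * m1 * m2], ![(208) * r ^ 3 * m0 ^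 2 + (4576) * r ^ 3 * m0 * m1 + (6240) * r ^ 3 * m0 * m2 + (-4784) * r ^ 3 * m1 ^ 2 + (-1248) * r ^ 3 * m1 * m2 + (6032) * r ^ 3 * m2 ^ 2 + (8) * r * m0 * m1 + (8) * r * m0 * m2 + (88) * r * m1 ^ 2 + (208) * r * m1 * m2 + (120) * r * m2 ^ 2, (112) * r ^ 3 * m0 ^ 2 + (2464) * r ^ 3 * m0 * m1 + (3360) * r ^ 3 * m0 * m2 + (-2576) * r ^ 3 * m1 ^ 2 + (-672) * r ^ 3 * m1 * m2 + (3248) * r ^ 3 * m2 ^ 2 + (-8) * r * m0 ^ 2 + (-88) * r * m0 * m1 + (-152) * r * m0 * m2 + (-160) * r * m1 * m2 + (-256) * r * m2 ^ 2, (-96) * r ^ 3 * m0 ^ 2 + (-2112) * r ^ 3 * m0 * m1 + (-2880) * r ^ 3 * m0 * m2 + (2208) * r ^ 3 * m1 ^ 2 + (576) * r ^ 3 * m1 * m2 + (-2784) * r ^ 3 * m2 ^ 2 + (-8) * r * m0 ^ 2 + (-56) * r * m0 * m1 + (-120) * r * m0 * m2 + (160) * r * m1 ^ 2 + (256) * r * m1 * m2], ![0, 0, 0])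

def E (r : ℝ) : R9 :=
  (![(78) * r ^ 2, (-28782 / 25) * r ^ 2, (-29354 / 25) * r ^ 2], ![(78) * r ^ 2, (-28782 / 25) * r ^ 2, (-29354 / 25) * r ^ 2], ![0, 0, 0])

def PP (r m0 m1 m2 : ℝ) : R9 :=
  (![(42) * r * m1 + (50) * r * m2, (-42) * r * m0 + (-1872 / 25) * r * m2, (-50) * r * m0 + (1872 / 25) * r * m1], ![(-42) * r * m1 + (-50) * r * m2, (42) * r * m0 + (1872 / 25) * r * m2, (50) * r * m0 + (-1872 / 25) * r * m1], ![0, 0, 0])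

def RR (r m0 m1 m2 : ℝ) : R9 :=
  (![(5) * r * m0 + (25) * r * m1 + (41) * r * m2, (-1511 / 25) * r * m0 + (17) * r * m1 + (-95) * r * m2, (-1492 / 25) * r * m0 + (74) * r * m1 + (-22) * r * m2], ![(5) * r * m0 + (25) * r * m1 + (41) * r * m2, (-1511 / 25) * r * m0 + (17) * r * m1 + (-95) * r * m2, (-1492 / 25) * r * m0 + (74) * r * m1 + (-22) * r * m2], ![(85) * r * m0 + (-91) * r * m1 + (78) * r * m2, (-91) * r * m0 + (205) * r * m1 + (42) * r * m2, (78) * r * m0 + (42) * r * m1 + (218) * r * m2])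

def CC (r m0 m1 m2 : ℝ) : R9 :=
  (![(-5) * r * m0 + (59) * r * m1 + (59) * r * m2, (-589 / 25) * r * m0 + (-17) * r * m1 + (-1369 / 25) * r * m2, (-1008 / 25) * r * m0 + (1894 / 25) * r * m1 + (22) * r * m2], ![(-5) * r * m0 + (-109) * r * m1 + (-141) * r * m2, (3611 / 25) * r * m0 + (-17) * r * m1 + (6119 / 25) * r * m2, (3992 / 25) * r * m0 + (-5594 / 25) * r * m1 + (22) * r * m2], ![(-85) * r * m0 + (91) * r * m1 + (-78) * r * m2, (91) * r * m0 + (-205) * r * m1 + (-42) * r * m2, (-78) * r * m0 + (-42) * r * m1 + (-218) * r * m2])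

def DD (r m0 m1 m2 : ℝ) : R9 :=
  (![(-208) * r ^ 2 * m0 ^ 2 + (-2080) * r ^ 2 * m0 * m1 + (-3328) * r ^ 2 * m0 * m2 + (2288) * r ^ 2 * m1 ^ 2 + (832) * r ^ 2 * m1 * m2 + (-3120) * r ^ 2 * m2 ^ 2 + (10) * m0 * m1 + (10) * m0 * m2 + (2) * m1 ^ 2 + (-2) * m2 ^ 2, (448) * r ^ 2 * m0 ^ 2 + (1312) * r ^ 2 * m0 * m1 + (3472) * r ^ 2 * m0 * m2 + (-5216) * r ^ 2 * m1 ^ 2 + (-9328) * r ^ 2 * m1 * m2 + (-1680) * r ^ 2 * m2 ^ 2 + (-10) * m0 ^ 2 + (-2) * m0 * m1 + (388 / 25) * m0 * m2 + (-10) * m1 * m2 + (10) * m2 ^ 2, (-384) * r ^ 2 * m0 ^ 2 + (-2016) * r ^ 2 * m0 * m1 + (-4016) * r ^ 2 * m0 * m2 + (-1056) * r ^ 2 * m1 ^ 2 + (-6832) * r ^ 2 * m1 * m2 + (-8336) * r ^ 2 * m2 ^ 2 + (-10) * m0 ^ 2 + (-388 / 25) * m0 * m1 + (2) * m0 * m2 + (10) * m1 ^ 2 + (-10) * m1 * m2], ![(-208) * r ^ 2 * m0 ^ 2 + (-1600) * r ^ 2 * m0 * m1 + (-3680) * r ^ 2 * m0 * m2 + (2192)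 * r ^ 2 * m1 ^ 2 + (2496) * r ^ 2 * m1 * m2 + (-3024) * r ^ 2 * m2 ^ 2 + (-10) * m0 * m1 + (-10) * m0 * m2 + (-2) * m1 ^ 2 + (2) * m2 ^ 2, (-32) * r ^ 2 * m0 ^ 2 + (1408) * r ^ 2 * m0 * m1 + (2576) * r ^ 2 * m0 * m2 + (-5216) * r ^ 2 * m1 ^ 2 + (-8976) * r ^ 2 * m1 * m2 + (-1200) * r ^ 2 * m2 ^ 2 + (10) * m0 ^ 2 + (2) * m0 * m1 + (-388 / 25) * m0 * m2 + (10) * m1 * m2 + (-10) * m2 ^ 2, (-32) * r ^ 2 * m0 ^ 2 + (-2784) * r ^ 2 * m0 * m1 + (-4112) * r ^ 2 * m0 * m2 + (-1408) * r ^ 2 * m1 ^ 2 + (-7312) * r ^ 2 * m1 * m2 + (-8336) * r ^ 2 * m2 ^ 2 + (10) * m0 ^ 2 + (388 / 25) * m0 * m1 + (-2) * m0 * m2 + (-10) * m1 ^ 2 + (10) * m1 * m2], ![(14) * m0 * m1 + (-12) * m0 * m2 + (-26) * m1 ^ 2 + (-26) * m2 ^ 2, (-14) * m0 ^ 2 + (26) * m0 * m1 + (-12) * m1 * m2 + (-14) * m2 ^ 2, (12) * m0 ^ 2 + (26) * m0 * m2 + (12) * m1 ^ 2 + (14) * m1 * m2])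

def XS (r m0 m1 m2 : ℝ) : R9 :=
  (![(4848) * r ^ 3 * m0 + (-4464) * r ^ 3 * m1 + (5296) * r ^ 3 * m2 + (-5) * r * m0 + (-211) * r * m1 + (-257) * r * m2, (-23304 / 5) * r ^ 3 * m0 + (-23736 / 25) * r ^ 3 * m1 + (-280152 / 25) * r ^ 3 * m2 + (187) * r * m0 + (-223) * r * m1 + (145) * r * m2, (77368 / 25) * r ^ 3 * m0 + (-227224 / 25) * r ^ 3 * m1 + (-97464 / 25) * r ^ 3 * m2 + (6008 / 25) * r * m0 + (-6272 / 25) * r * m1 + (228) * r * m2], ![(-4848) * r ^ 3 * m0 + (4464) * r ^ 3 * m1 + (-5296) * r ^ 3 * m2 + (35) * r * m0 + (49) * r * m1 + (35) * r * m2, (23304 / 5) * r ^ 3 * m0 + (23736 / 25) * r ^ 3 * m1 + (280152 / 25) * r ^ 3 * m2 + (-18083 / 25) * r * m0 + (-2197 / 25) * r * m1 + (-2197 / 5) * r * m2, (-77368 / 25) * r ^ 3 * m0 + (227224 / 25) * r ^ 3 * m1 + (97464 / 25) * r ^ 3 * m2 + (-19302 / 25) * r * m0 + (9338 / 25) * r * m1 + (1322 /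 25) * r * m2], ![(-553) * r * m0 + (559) * r * m1 + (-546) * r * m2, (-91) * r * m0 + (-83) * r * m1 + (-294) * r * m2, (78) * r * m0 + (-258) * r * m1 + (-132) * r * m2])

def XY (r m0 m1 m2 : ℝ) : R9 :=
  (![(-1248) * r ^ 4 * m0 ^ 2 + (-27456) * r ^ 4 * m0 * m1 + (-37440) * r ^ 4 * m0 * m2 + (28704) * r ^ 4 * m1 ^ 2 + (7488) * r ^ 4 * m1 * m2 + (-36192) * r ^ 4 * m2 ^ 2 + (624) * r ^ 2 * m0 ^ 2 + (5712) * r ^ 2 * m0 * m1 + (10704) * r ^ 2 * m0 * m2 + (-5760) * r ^ 2 * m1 ^ 2 + (-2496) * r ^ 2 * m1 * m2 + (10752) * r ^ 2 * m2 ^ 2, (460512 / 25) * r ^ 4 * m0 ^ 2 + (10131264 / 25) * r ^ 4 * m0 * m1 + (2763072 / 5) * r ^ 4 * m0 * m2 + (-10591776 / 25) * r ^ 4 * m1 ^ 2 + (-2763072 / 25) * r ^ 4 * m1 * m2 + (13354848 / 25) * r ^ 4 * m2 ^ 2 + (20176 / 25) * r ^ 2 * m0 ^ 2 + (149632 / 25) * r ^ 2 * m0 * m1 + (62208 / 5) * r ^ 2 * m0 * m2 + (-62224 / 5)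 * r ^ 2 * m1 ^ 2 + (-427232 / 25) * r ^ 2 * m1 * m2 + (5040) * r ^ 2 * m2 ^ 2, (469664 / 25) * r ^ 4 * m0 ^ 2 + (10332608 / 25) * r ^ 4 * m0 * m1 + (2817984 / 5) * r ^ 4 * m0 * m2 + (-10802272 / 25) * r ^ 4 * m1 ^ 2 + (-2817984 / 25) * r ^ 4 * m1 * m2 + (13620256 / 25) * r ^ 4 * m2 ^ 2 + (-20176 / 25) * r ^ 2 * m0 ^ 2 + (-214736 / 25) * r ^ 2 * m0 * m1 + (-376144 / 25) * r ^ 2 * m0 * m2 + (3168) * r ^ 2 * m1 ^ 2 + (-43264 / 5) * r ^ 2 * m1 * m2 + (-537632 / 25) * r ^ 2 * m2 ^ 2], ![(-1248) * r ^ 4 * m0 ^ 2 + (-27456) * r ^ 4 * m0 * m1 + (-37440) * r ^ 4 * m0 * m2 + (28704) * r ^ 4 * m1 ^ 2 + (7488) * r ^ 4 * m1 * m2 + (-36192) * r ^ 4 * m2 ^ 2 + (624) * r ^ 2 * m0 ^ 2 + (5712) * r ^ 2 * m0 * m1 + (10704) * r ^ 2 * m0 * m2 + (-5760) * r ^ 2 * m1 ^ 2 + (-2496) * r ^ 2 * m1 * m2 + (10752) * r ^ 2 * m2 ^ 2, (460512 / 25) * r ^ 4 * m0 ^ 2 + (10131264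 / 25) * r ^ 4 * m0 * m1 + (2763072 / 5) * r ^ 4 * m0 * m2 + (-10591776 / 25) * r ^ 4 * m1 ^ 2 + (-2763072 / 25) * r ^ 4 * m1 * m2 + (13354848 / 25) * r ^ 4 * m2 ^ 2 + (20176 / 25) * r ^ 2 * m0 ^ 2 + (149632 / 25) * r ^ 2 * m0 * m1 + (62208 / 5) * r ^ 2 * m0 * m2 + (-62224 / 5) * r ^ 2 * m1 ^ 2 + (-427232 / 25) * r ^ 2 * m1 * m2 + (5040) * r ^ 2 * m2 ^ 2, (469664 / 25) * r ^ 4 * m0 ^ 2 + (10332608 / 25) * r ^ 4 * m0 * m1 + (2817984 / 5) * r ^ 4 * m0 * m2 + (-10802272 / 25) * r ^ 4 * m1 ^ 2 + (-2817984 / 25) * r ^ 4 * m1 * m2 + (13620256 / 25) * r ^ 4 * m2 ^ 2 + (-20176 / 25) * r ^ 2 * m0 ^ 2 + (-214736 / 25) * r ^ 2 * m0 * m1 + (-376144 / 25) * r ^ 2 * m0 * m2 + (3168) * r ^ 2 * m1 ^ 2 + (-43264 / 5) * r ^ 2 * m1 * m2 + (-537632 / 25) * r ^ 2 * m2 ^ 2], ![0, 0, 0])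

def PR (r m0 m1 m2 : ℝ) : R9 :=
  (![(-5) * r * m0 + (17) * r * m1 + (9) * r * m2, (461 / 25) * r * m0 + (-17) * r * m1 + (503 / 25) * r * m2, (242 / 25) * r * m0 + (22 / 25) * r * m1 + (22) * r * m2], ![(-5) * r * m0 + (-67) * r * m1 + (-91) * r * m2, (2561 / 25) * r * m0 + (-17) * r * m1 + (4247 / 25) * r * m2, (2742 / 25) * r * m0 + (-3722 / 25) * r * m1 + (22) * r * m2], ![(-85) * r * m0 + (91) * r * m1 + (-78) * r * m2, (91) * r * m0 + (-205) * r * m1 + (-42) * r * m2, (-78) * r * m0 + (-42) * r * m1 + (-218) * r * m2])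

def oBE (r m0 m1 m2 : ℝ) : R9 :=
  (![(-29354 / 25) * r ^ 2 * m1 + (28782 / 25) * r ^ 2 * m2, (29354 / 25) * r ^ 2 * m0 + (78) * r ^ 2 * m2, (-28782 / 25) * r ^ 2 * m0 + (-78) * r ^ 2 * m1], ![0, 0, 0], ![0, 0, 0])

def oUE (r m0 m1 m2 : ℝ) : R9 :=
  (![0, 0, 0], ![0, 0, 0], ![0, 0, 0])

def oEC (r m0 m1 m2 : ℝ) : R9 :=
  (![(-412464 / 25) * r ^ 3 * m0 + (107759808 / 625) * r ^ 3 * m1 + (109901376 / 625) * r ^ 3 * m2, (-7800) * r ^ 3 * m0 + (2757768 / 25) * r ^ 3 * m1 + (117416) * r ^ 3 * m2, (6552) * r ^ 3 * m0 + (-2417688 / 25) * r ^ 3 * m1 + (-2586168 / 25) * r ^ 3 * m2], ![(491621 / 5) * r ^ 3 * m0 + (-2404363 / 25) * r ^ 3 * m1 + (2520804 / 25) * r ^ 3 * m2, (264719 / 5) * r ^ 3 * m0 + (-1294657 / 25) * r ^ 3 * m1 + (1357356 / 25) * r ^ 3 * m2, (-226902 / 5) * r ^ 3 * m0 + (1109706 / 25) * r ^ 3 * m1 + (-1163448 / 25) * r ^ 3 * m2], ![(491621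 / 5) * r ^ 3 * m0 + (-2404363 / 25) * r ^ 3 * m1 + (2520804 / 25) * r ^ 3 * m2, (264719 / 5) * r ^ 3 * m0 + (-1294657 / 25) * r ^ 3 * m1 + (1357356 / 25) * r ^ 3 * m2, (-226902 / 5) * r ^ 3 * m0 + (1109706 / 25) * r ^ 3 * m1 + (-1163448 / 25) * r ^ 3 * m2])

def oUC (r m0 m1 m2 : ℝ) : R9 :=
  (![(1204) * r ^ 2 * m0 + (-26208 / 25) * r ^ 2 * m1 + (22464 / 25) * r ^ 2 * m2, (-1300) * r ^ 2 * m0 + (61272 / 25) * r ^ 2 * m1 + (600) * r ^ 2 * m2, (1092) * r ^ 2 * m0 + (588) * r ^ 2 * m1 + (66172 / 25) * r ^ 2 * m2], ![(-762) * r ^ 2 * m1 + (-889) * r ^ 2 * m2, (762) * r ^ 2 * m0 + (1651) * r ^ 2 * m2, (889) * r ^ 2 * m0 + (-1651) * r ^ 2 * m1], ![(-762) * r ^ 2 * m1 + (-889) * r ^ 2 * m2, (762) * r ^ 2 * m0 + (1651) * r ^ 2 * m2, (889) * r ^ 2 * m0 + (-1651) * r ^ 2 * m1])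

def oBC (r m0 m1 m2 : ℝ) : R9 :=
  (![(1492 / 25) * r * m0 * m1 + (-1511 / 25) * r * m0 * m2 + (-74) * r * m1 ^ 2 + (39) * r * m1 * m2 + (-95) * r * m2 ^ 2, (-1492 / 25) * r * m0 ^ 2 + (74) * r * m0 * m1 + (-27) * r * m0 * m2 + (-25) * r * m1 * m2 + (-41) * r * m2 ^ 2, (1511 / 25) * r * m0 ^ 2 + (-12) * r * m0 * m1 + (95) * r * m0 * m2 + (25) * r * m1 ^ 2 + (41) * r * m1 * m2], ![(-39) * r * m0 * m1 + (-91 / 2) * r * m0 * m2 + (-21) * r * m1 ^ 2 + (-13 / 2) * r * m1 * m2 + (21) * r * m2 ^ 2, (39) * r * m0 ^ 2 + (21) * r * m0 * m1 + (133 / 2) * r * m0 * m2 + (91 / 2) * r * m1 * m2 + (-39) * r * m2 ^ 2, (91 / 2) * r * m0 ^ 2 + (-60) * r * m0 * m1 + (-21) * r * m0 * m2 + (-91 / 2) * r * m1 ^ 2 + (39) * r * m1 * m2], ![(39) * r * m0 * m1 + (91 / 2) * r * m0 * m2 + (21) * r * m1 ^ 2 + (13 / 2) * r * m1 * m2 + (-21) * r * m2 ^ 2, (-39) * r * m0 ^ 2 +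 (-21) * r * m0 * m1 + (-133 / 2) * r * m0 * m2 + (-91 / 2) * r * m1 * m2 + (39) * r * m2 ^ 2, (-91 / 2) * r * m0 ^ 2 + (60) * r * m0 * m1 + (21) * r * m0 * m2 + (91 / 2) * r * m1 ^ 2 + (-39) * r * m1 * m2])

def oUB (r m0 m1 m2 : ℝ) : R9 :=
  (![(-6) * r * m1 + (-7) * r * m2, (6) * r * m0 + (13) * r * m2, (7) * r * m0 + (-13) * r * m1], ![0, 0, 0], ![0, 0, 0])

def oUP (r m0 m1 m2 : ℝ) : R9 :=
  (![(602) * r ^ 2 * m0 + (-13104 / 25) * r ^ 2 * m1 + (11232 / 25) * r ^ 2 * m2, (-650) * r ^ 2 * m0 + (30636 / 25) * r ^ 2 * m1 + (300) * r ^ 2 * m2, (546) * r ^ 2 * m0 + (294) * r ^ 2 * m1 + (33086 / 25) * r ^ 2 * m2], ![0, 0, 0], ![0, 0, 0])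

def oUR (r m0 m1 m2 : ℝ) : R9 :=
  (![0, 0, 0], ![(762) * r ^ 2 * m1 + (889) * r ^ 2 * m2, (-762) * r ^ 2 * m0 + (-1651) * r ^ 2 * m2, (-889) * r ^ 2 * m0 + (1651) * r ^ 2 * m1], ![(762) * r ^ 2 * m1 + (889) * r ^ 2 * m2, (-762) * r ^ 2 * m0 + (-1651) * r ^ 2 * m2, (-889) * r ^ 2 * m0 + (1651) * r ^ 2 * m1])

variable (r m0 m1 m2 : ℝ)

theorem om_UU : t3om (U r) (U r) = 0 := by
  unfold t3om U
  refine Prod.ext ?_ (Prod.ext ?_ ?_) <;> (funext i; fin_cases i) <;>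
    simp [cross_apply, Matrix.mulVec, dotProduct, Fin.sum_univ_three, Matrix.vecHead,
      Matrix.vecTail] <;> ring

theorem om_BB : t3om (B m0 m1 m2) (B m0 m1 m2) = 0 := by
  unfold t3om B
  refine Prod.ext ?_ (Prod.ext ?_ ?_) <;> (funext i; fin_cases i) <;>
    simp [cross_apply, Matrix.mulVec, dotProduct, Fin.sum_univ_three, Matrix.vecHead,
      Matrix.vecTail] <;> ring

theorem om_UB : t3om (U r) (B m0 m1 m2) = oUB r m0 m1 m2 := by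
  unfold t3om U B oUB
  refine Prod.ext ?_ (Prod.ext ?_ ?_) <;> (funext i; fin_cases i) <;>
    simp [cross_apply, Matrix.mulVec, dotProduct, Fin.sum_univ_three, Matrix.vecHead,
      Matrix.vecTail] <;> ring

theorem om_BE : t3om (B m0 m1 m2) (E r) = oBE r m0 m1 m2 := by
  unfold t3om E B oBE
  refine Prod.ext ?_ (Prod.ext ?_ ?_) <;> (funext i; fin_cases i) <;>
    simp [cross_apply, Matrix.mulVec, dotProduct, Fin.sum_univ_three, Matrix.vecHead,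
      Matrix.vecTail] <;> ring

theorem om_UE : t3om (U r) (E r) = 0 := by
  unfold t3om E U
  refine Prod.ext ?_ (Prod.ext ?_ ?_) <;> (funext i; fin_cases i) <;>
    simp [cross_apply, Matrix.mulVec, dotProduct, Fin.sum_univ_three, Matrix.vecHead,
      Matrix.vecTail] <;> ring

theorem om_EC : t3om (E r) (CC r m0 m1 m2) = oEC r m0 m1 m2 := by
  unfold t3om E CC oEC
  refine Prod.ext ?_ (Prod.ext ?_ ?_) <;> (funext i; fin_cases i) <;>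
    simp [cross_apply, Matrix.mulVec, dotProduct, Fin.sum_univ_three, Matrix.vecHead,
      Matrix.vecTail] <;> ring

theorem om_UC : t3om (U r) (CC r m0 m1 m2) = oUC r m0 m1 m2 := by
  unfold t3om U CC oUC
  refine Prod.ext ?_ (Prod.ext ?_ ?_) <;> (funext i; fin_cases i) <;>
    simp [cross_apply, Matrix.mulVec, dotProduct, Fin.sum_univ_three, Matrix.vecHead,
      Matrix.vecTail] <;> ring

theorem om_UP : t3om (U r) (PP r m0 m1 m2) = oUP r m0 m1 m2 := by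
  unfold t3om U PP oUP
  refine Prod.ext ?_ (Prod.ext ?_ ?_) <;> (funext i; fin_cases i) <;>
    simp [cross_apply, Matrix.mulVec, dotProduct, Fin.sum_univ_three, Matrix.vecHead,
      Matrix.vecTail] <;> ring

theorem om_UR : t3om (U r) (RR r m0 m1 m2) = oUR r m0 m1 m2 := by
  unfold t3om U RR oUR
  refine Prod.ext ?_ (Prod.ext ?_ ?_) <;> (funext i; fin_cases i) <;>
    simp [cross_apply, Matrix.mulVec, dotProduct, Fin.sum_univ_three, Matrix.vecHead,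
      Matrix.vecTail] <;> ring

theorem K0 (p : Par) (w : R9) : t3K p 0 w = 0 := by
  simp [t3K]

theorem K0' (p : Par) (w : R9) : t3K p w 0 = 0 := by
  simp [t3K]

theorem F1z (p : Par) (a : R9) : t3F1 p (U r) a = 0 := by
  unfold t3F1
  rw [om_UU, K0, K0]
  ring

theorem F2z (p : Par) (a b : R9) : t3F2 p (U r) a b = 8 * t3K p (t3om (U r) a) (t3om (U r) b) := by
  unfold t3F2
  rw [om_UU, K0, K0, F1z, F1z]
  ring

theorem Kg0 (p : Par) (w : R9) : t3Kg p 0 w = 0 := by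
  simp [t3Kg]

theorem hx : t3x pStar (U r) = X r := by
  unfold t3x
  rw [om_UU, K0, Kg0]
  unfold t3qg pStar U X
  refine Prod.ext ?_ (Prod.ext ?_ ?_) <;> (funext i; fin_cases i) <;>
    simp [cross_apply, Matrix.mulVec, dotProduct, Fin.sum_univ_three, Matrix.vecHead,
      Matrix.vecTail] <;> ring

theorem hs : t3s pStar (U r) (B m0 m1 m2) = S r m0 m1 m2 := by
  unfold t3s
  rw [om_UU, K0, Kg0, F1z, om_UB]
  unfold t3qg t3Kg pStar U B S oUB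
  refine Prod.ext ?_ (Prod.ext ?_ ?_) <;> (funext i; fin_cases i) <;>
    simp [cross_apply, Matrix.mulVec, dotProduct, Fin.sum_univ_three, Matrix.vecHead,
      Matrix.vecTail] <;> ring

theorem F2bb : t3F2 pStar (U r) (B m0 m1 m2) (B m0 m1 m2) =
    8 * t3K pStar (oUB r m0 m1 m2) (oUB r m0 m1 m2) := by
  rw [F2z, om_UB]

theorem hy : t3y pStar (U r) (B m0 m1 m2) = Y r m0 m1 m2 := by
  unfold t3y
  rw [om_UU, K0, Kg0, F1z, om_UB, om_BB, Kg0, F2bb]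
  unfold t3Kg t3K pStar U B Y oUB
  refine Prod.ext ?_ (Prod.ext ?_ ?_) <;> (funext i; fin_cases i) <;>
    simp [cross_apply, Matrix.mulVec, dotProduct, Fin.sum_univ_three, Matrix.vecHead,
      Matrix.vecTail] <;> ring

theorem he : br (U r) (X r) = E r := by
  unfold br U X E
  refine Prod.ext ?_ (Prod.ext ?_ ?_) <;> (funext i; fin_cases i) <;>
    simp [cross_apply, Matrix.mulVec, dotProduct, Fin.sum_univ_three, Matrix.vecHead,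
      Matrix.vecTail] <;> ring

theorem hP : br (B m0 m1 m2) (X r) = PP r m0 m1 m2 := by
  unfold br B X PP
  refine Prod.ext ?_ (Prod.ext ?_ ?_) <;> (funext i; fin_cases i) <;>
    simp [cross_apply, Matrix.mulVec, dotProduct, Fin.sum_univ_three, Matrix.vecHead,
      Matrix.vecTail] <;> ring

theorem hr : br (U r) (S r m0 m1 m2) = RR r m0 m1 m2 := by
  unfold br U S RR
  refine Prod.ext ?_ (Prod.ext ?_ ?_) <;> (funext i; fin_cases i) <;>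
    simp [cross_apply, Matrix.mulVec, dotProduct, Fin.sum_univ_three, Matrix.vecHead,
      Matrix.vecTail] <;> ring

theorem hC : (2 : ℝ) • PP r m0 m1 m2 - RR r m0 m1 m2 = CC r m0 m1 m2 := by
  unfold PP RR CC
  refine Prod.ext ?_ (Prod.ext ?_ ?_) <;> (funext i; fin_cases i) <;>
    simp [cross_apply, Matrix.mulVec, dotProduct, Fin.sum_univ_three, Matrix.vecHead,
      Matrix.vecTail] <;> ring

theorem hPR : PP r m0 m1 m2 - RR r m0 m1 m2 = PR r m0 m1 m2 := by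
  unfold PP RR PR
  refine Prod.ext ?_ (Prod.ext ?_ ?_) <;> (funext i; fin_cases i) <;>
    simp [cross_apply, Matrix.mulVec, dotProduct, Fin.sum_univ_three, Matrix.vecHead,
      Matrix.vecTail] <;> ring

theorem hD : (2 : ℝ) • br (B m0 m1 m2) (S r m0 m1 m2) + br (U r) (Y r m0 m1 m2) =
    DD r m0 m1 m2 := by
  unfold br B S U Y DD
  refine Prod.ext ?_ (Prod.ext ?_ ?_) <;> (funext i; fin_cases i) <;>
    simp [cross_apply, Matrix.mulVec, dotProduct, Fin.sum_univ_three, Matrix.vecHead,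
      Matrix.vecTail] <;> ring

theorem hXS : br (X r) (S r m0 m1 m2) = XS r m0 m1 m2 := by
  unfold br X S XS
  refine Prod.ext ?_ (Prod.ext ?_ ?_) <;> (funext i; fin_cases i) <;>
    simp [cross_apply, Matrix.mulVec, dotProduct, Fin.sum_univ_three, Matrix.vecHead,
      Matrix.vecTail] <;> ring

theorem hXY : br (X r) (Y r m0 m1 m2) = XY r m0 m1 m2 := by
  unfold br X Y XY
  refine Prod.ext ?_ (Prod.ext ?_ ?_) <;> (funext i; fin_cases i) <;>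
    simp [cross_apply, Matrix.mulVec, dotProduct, Fin.sum_univ_three, Matrix.vecHead,
      Matrix.vecTail] <;> ring

theorem k_BE : t3K pStar (oBE r m0 m1 m2) (oBE r m0 m1 m2) =
    (-3379794496 / 625) * r ^ 4 * m0 ^ 2 + (13425462752 / 625) * r ^ 4 * m0 * m1 + (-13612893216 / 625) * r ^ 4 * m0 * m2 + (-9885767892 / 625) * r ^ 4 * m1 ^ 2 + (20278122072 / 625) * r ^ 4 * m1 * m2 + (-10393643988 / 625) * r ^ 4 * m2 ^ 2 := by
  unfold t3K pStar oBE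
  simp [cross_apply, Matrix.mulVec, dotProduct, Fin.sum_univ_three, Matrix.vecHead,
      Matrix.vecTail] <;> ring

theorem k_UB : t3K pStar (oUB r m0 m1 m2) (oUB r m0 m1 m2) =
    (-1) * r ^ 2 * m0 ^ 2 + (-22) * r ^ 2 * m0 * m1 + (-30) * r ^ 2 * m0 * m2 + (23) * r ^ 2 * m1 ^ 2 + (6) * r ^ 2 * m1 * m2 + (-29) * r ^ 2 * m2 ^ 2 := by
  unfold t3K pStar oUB
  simp [cross_apply, Matrix.mulVec, dotProduct, Fin.sum_univ_three, Matrix.vecHead,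
      Matrix.vecTail] <;> ring

theorem k_UBEC : t3K pStar (oUB r m0 m1 m2) (oEC r m0 m1 m2) =
    (-2008656 / 25) * r ^ 4 * m0 ^ 2 + (255523632 / 625) * r ^ 4 * m0 * m1 + (113123504 / 625) * r ^ 4 * m0 * m2 + (715689312 / 125) * r ^ 4 * m1 ^ 2 + (9105568576 / 625) * r ^ 4 * m1 * m2 + (5587432032 / 625) * r ^ 4 * m2 ^ 2 := by
  unfold t3K pStar oUB oEC
  simp [cross_apply, Matrix.mulVec, dotProduct, Fin.sum_univ_three, Matrix.vecHead,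
      Matrix.vecTail] <;> ring

theorem k_UCBE : t3K pStar (oUC r m0 m1 m2) (oBE r m0 m1 m2) =
    (-140921664 / 25) * r ^ 4 * m0 ^ 2 + (1370004272 / 125) * r ^ 4 * m0 * m1 + (-5878507024 / 625) * r ^ 4 * m0 * m2 + (-3649810632 / 625) * r ^ 4 * m1 ^ 2 + (5632743376 / 625) * r ^ 4 * m1 * m2 + (-388561992 / 125) * r ^ 4 * m2 ^ 2 := by
  unfold t3K pStar oUC oBE
  simp [cross_apply, Matrix.mulVec, dotProduct, Fin.sum_univ_three, Matrix.vecHead,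
      Matrix.vecTail] <;> ring

theorem k_UP : t3K pStar (oUP r m0 m1 m2) (oUP r m0 m1 m2) =
    (-19328) * r ^ 4 * m0 ^ 2 + (7502256 / 25) * r ^ 4 * m0 * m1 + (7208304 / 25) * r ^ 4 * m0 * m2 + (-161697636 / 625) * r ^ 4 * m1 ^ 2 + (-50608104 / 625) * r ^ 4 * m1 * m2 + (130518332 / 625) * r ^ 4 * m2 ^ 2 := by
  unfold t3K pStar oUP
  simp [cross_apply, Matrix.mulVec, dotProduct, Fin.sum_univ_three, Matrix.vecHead,
      Matrix.vecTail] <;> ring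

theorem k_UPUR : t3K pStar (oUP r m0 m1 m2) (oUR r m0 m1 m2) =
    0 := by
  unfold t3K pStar oUP oUR
  simp [cross_apply, Matrix.mulVec, dotProduct, Fin.sum_univ_three, Matrix.vecHead,
      Matrix.vecTail] <;> ring

theorem k_UR : t3K pStar (oUR r m0 m1 m2) (oUR r m0 m1 m2) =
    0 := by
  unfold t3K pStar oUR
  simp [cross_apply, Matrix.mulVec, dotProduct, Fin.sum_univ_three, Matrix.vecHead,
      Matrix.vecTail] <;> ring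

theorem d_EE : dot9 (E r) (E r) =
    (677545336 / 125) * r ^ 4 := by
  unfold dot9 E
  simp [cross_apply, Matrix.mulVec, dotProduct, Fin.sum_univ_three, Matrix.vecHead,
      Matrix.vecTail] <;> ring

theorem q_ED : t3q pStar (E r) (DD r m0 m1 m2) =
    (-908752 / 5) * r ^ 4 * m0 ^ 2 + (25950496 / 25) * r ^ 4 * m0 * m1 + (-10852192 / 25) * r ^ 4 * m0 * m2 + (23576176) * r ^ 4 * m1 ^ 2 + (1435019872 / 25) * r ^ 4 * m1 * m2 + (804165232 / 25) * r ^ 4 * m2 ^ 2 + (-138398) * r ^ 2 * m0 ^ 2 + (88797488 / 625) * r ^ 2 * m0 * m1 + (-3933592 / 25) * r ^ 2 * m0 * m2 + (1755962 / 25) * r ^ 2 * m1 ^ 2 + (-3477864 / 25) * r ^ 2 * m1 * m2 + (1703988 / 25) * r ^ 2 * m2 ^ 2 := by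
  unfold t3q pStar E DD
  simp [cross_apply, Matrix.mulVec, dotProduct, Fin.sum_univ_three, Matrix.vecHead,
      Matrix.vecTail] <;> ring

theorem q_PP : t3q pStar (PP r m0 m1 m2) (PP r m0 m1 m2) =
    (12760) * r ^ 2 * m0 ^ 2 + (-588624 / 25) * r ^ 2 * m0 * m1 + (87344 / 5) * r ^ 2 * m0 * m2 + (5124582 / 125) * r ^ 2 * m1 ^ 2 + (34771116 / 625) * r ^ 2 * m1 * m2 + (6085942 / 125) * r ^ 2 * m2 ^ 2 := by
  unfold t3q pStar PP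
  simp [cross_apply, Matrix.mulVec, dotProduct, Fin.sum_univ_three, Matrix.vecHead,
      Matrix.vecTail] <;> ring

theorem q_PR : t3q pStar (PP r m0 m1 m2) (RR r m0 m1 m2) =
    (90386) * r ^ 2 * m0 ^ 2 + (-109010806 / 625) * r ^ 2 * m0 * m1 + (735558 / 5) * r ^ 2 * m0 * m2 + (4509654 / 25) * r ^ 2 * m1 ^ 2 + (2227466 / 25) * r ^ 2 * m1 * m2 + (4889804 / 25) * r ^ 2 * m2 ^ 2 := by
  unfold t3q pStar PP RR
  simp [cross_apply, Matrix.mulVec, dotProduct, Fin.sum_univ_three, Matrix.vecHead,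
      Matrix.vecTail] <;> ring

theorem q_RR : t3q pStar (RR r m0 m1 m2) (RR r m0 m1 m2) =
    (-92398938 / 625) * r ^ 2 * m0 ^ 2 + (6159716 / 25) * r ^ 2 * m0 * m1 + (-1522462 / 5) * r ^ 2 * m0 * m2 + (-5166568 / 25) * r ^ 2 * m1 ^ 2 + (-181462 / 25) * r ^ 2 * m1 * m2 + (-1567949 / 5) * r ^ 2 * m2 ^ 2 := by
  unfold t3q pStar RR
  simp [cross_apply, Matrix.mulVec, dotProduct, Fin.sum_univ_three, Matrix.vecHead,
      Matrix.vecTail] <;> ring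

theorem d_PRXS : dot9 (PR r m0 m1 m2) (XS r m0 m1 m2) =
    (410176 / 5) * r ^ 4 * m0 ^ 2 + (1162091392 / 625) * r ^ 4 * m0 * m1 + (314246016 / 125) * r ^ 4 * m0 * m2 + (-1085086656 / 625) * r ^ 4 * m1 ^ 2 + (-276997632 / 625) * r ^ 4 * m1 * m2 + (1379889088 / 625) * r ^ 4 * m2 ^ 2 + (-75321286 / 625) * r ^ 2 * m0 ^ 2 + (390964 / 5) * r ^ 2 * m0 * m1 + (-67100812 / 625) * r ^ 2 * m0 * m2 + (2663066 / 125) * r ^ 2 * m1 ^ 2 + (-125668 / 625) * r ^ 2 * m1 * m2 + (1583186 / 125) * r ^ 2 * m2 ^ 2 := by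
  unfold dot9 PR XS
  simp [cross_apply, Matrix.mulVec, dotProduct, Fin.sum_univ_three, Matrix.vecHead,
      Matrix.vecTail] <;> ring

theorem d_XYE : dot9 (XY r m0 m1 m2) (E r) =
    (-10840725376 / 125) * r ^ 6 * m0 ^ 2 + (-238495958272 / 125) * r ^ 6 * m0 * m1 + (-65044352256 / 25) * r ^ 6 * m0 * m2 + (249336683648 / 125) * r ^ 6 * m1 ^ 2 + (65044352256 / 125) * r ^ 6 * m1 * m2 + (-314381035904 / 125) * r ^ 6 * m2 ^ 2 + (83921344 / 625) * r ^ 4 * m0 ^ 2 + (910044928 / 125) * r ^ 4 * m0 * m1 + (5221595392 / 625) * r ^ 4 * m0 * m2 + (2539607616 / 125) * r ^ 4 * m1 ^ 2 + (37049537408 / 625) * r ^ 4 * m1 * m2 + (25358555456 / 625) * r ^ 4 * m2 ^ 2 := by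
  unfold dot9 XY E
  simp [cross_apply, Matrix.mulVec, dotProduct, Fin.sum_univ_three, Matrix.vecHead,
      Matrix.vecTail] <;> ring

theorem T3x_eq : T3x pStar (U r) (B m0 m1 m2) =
    (55514233296 / 625) * r ^ 4 * m0 ^ 2 + (-168536954464 / 625) * r ^ 4 * m0 * m1 + (149131220512 / 625) * r ^ 4 * m0 * m2 + (90421814416 / 625) * r ^ 4 * m1 ^ 2 + (-262098881632 / 625) * r ^ 4 * m1 * m2 + (58992992656 / 625) * r ^ 4 * m2 ^ 2 + (270652912 / 625) * r ^ 2 * m0 ^ 2 + (-456649224 / 625) * r ^ 2 * m0 * m1 + (511430012 / 625) * r ^ 2 * m0 * m2 + (3705192 / 5) * r ^ 2 * m1 ^ 2 + (-35916764 / 625) * r ^ 2 * m1 * m2 + (24412072 / 25) * r ^ 2 * m2 ^ 2 := by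
  unfold T3x
  rw [hx, hs, hy, he, hP, hr]
  unfold t3z
  rw [hC, hPR, hD, hXS, hXY]
  simp only [F1z, F2z, om_BB, om_UB, om_BE, om_UE, om_EC, om_UC, om_UP, om_UR, K0, K0',
    k_BE, k_UB, k_UBEC, k_UCBE, k_UP, k_UPUR, k_UR, d_EE, q_ED, q_PP, q_PR, q_RR, d_PRXS, d_XYE]
  ring

end QU4

namespace QU4

open GE6 SecB

/-- the value of the third order form at the critical flags of `x × y = 0` on wall B -/
theorem T3x_pos {r m0 m1 m2 : ℝ} (hr : r ^ 2 = 1 / 508) (hm : m0 ^ 2 + m1 ^ 2 + m2 ^ 2 = 1 / 2) :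
    0 < T3x pStar (U r) (B m0 m1 m2) := by
  rw [T3x_eq]
  have h4 : r ^ 4 = 1 / 258064 := by
    have : r ^ 4 = (r ^ 2) ^ 2 := by ring
    rw [this, hr]; norm_num
  rw [hr, h4]
  nlinarith [sq_nonneg (m0 - 26 / 25 * m1 + 53 / 50 * m2), sq_nonneg (m1 + 3 / 5 * m2),
    sq_nonneg m0, sq_nonneg m1, sq_nonneg m2, sq_nonneg (m0 - m1), sq_nonneg (m0 + m1),
    sq_nonneg (m0 - m2), sq_nonneg (m0 + m2), sq_nonneg (m1 + m2), sq_nonneg (m1 - m2)]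

theorem symm_pStar : pStar.Symm := by
  refine ⟨?_, ?_, ?_⟩ <;> (ext i j; fin_cases i <;> fin_cases j <;> simp [pStar])

theorem nu_dot : pStar.ν ⬝ᵥ pStar.ν = 254 := by
  simp [pStar, dotProduct, Fin.sum_univ_three]; norm_num

/-- the direction `n` is `± ν / |ν|` -/
theorem par_nu {n : R3} (hn : n ⬝ᵥ n = 1) (h : n ⨯₃ pStar.ν = 0) :
    ∃ r : ℝ, r ^ 2 = 1 / 254 ∧ n = r • pStar.ν := by
  have e := par_of_cross hn h
  set c := n ⬝ᵥ pStar.ν with hc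
  have h1 : c ^ 2 = 254 := by
    have := nu_dot
    rw [e] at this
    simp only [smul_dotProduct, dotProduct_smul, hn, smul_eq_mul] at this
    linarith
  have hc0 : c ≠ 0 := by rintro h0; rw [h0] at h1; norm_num at h1
  refine ⟨c⁻¹, ?_, ?_⟩
  · rw [inv_pow, h1]; norm_num
  · have : c⁻¹ • pStar.ν = c⁻¹ • (c • n) := by rw [← e]
    rw [this, smul_smul, inv_mul_cancel₀ hc0, one_smul]

theorem station_id (a RA SA ν : R3) (c d : ℝ) :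
    (a ⨯₃ (c • SA + (d • a) ⨯₃ ν) - RA ⨯₃ (c • a)) ⨯₃ (d • a) +
      (c • a) ⨯₃ (a ⨯₃ (d • SA + ν ⨯₃ (c • a)) - RA ⨯₃ (d • a)) =
      ((c ^ 2 + d ^ 2) * (a ⬝ᵥ a)) • (a ⨯₃ ν) := by
  funext i
  fin_cases i <;>
  · simp only [cross_apply, dotProduct, Fin.sum_univ_three, Matrix.cons_val_zero,
      Matrix.cons_val_one, Matrix.cons_val, Pi.add_apply, Pi.sub_apply, Pi.smul_apply,
      smul_eq_mul, Fin.zero_eta, Fin.mk_one, Fin.reduceFinMk]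
    ring

/-- `x × y` is stationary at `(n, cos t n, sin t n)` only for `n` parallel to `ν` -/
theorem station {t s : ℝ} {n : R3} (hs : s ≠ 0) (hn : n ⬝ᵥ n = 1)
    (h : (eM (v0 pStar) (rotH t (s • (n, n, 0)))).2.1 ⨯₃ (rotH t (s • ((n, n, 0) : R9))).2.2 +
      (rotH t (s • ((n, n, 0) : R9))).2.1 ⨯₃ (eM (v0 pStar) (rotH t (s • (n, n, 0)))).2.2 = 0) :
    n ⨯₃ pStar.ν = 0 := by
  set a : R3 := s • n with ha
  have hu : rotH t (s • ((n, n, 0) : R9)) = (a, Real.cos t • a, Real.sin t • a) := by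
    unfold rotH
    simp [ha]
  have haa : a ⬝ᵥ a = s ^ 2 := by
    rw [ha, smul_dotProduct, dotProduct_smul, hn]
    simp only [smul_eq_mul]; ring
  have hu0 : rotH t (s • ((n, n, 0) : R9)) ≠ 0 := by
    rw [hu]
    intro h0
    have : a = 0 := congrArg Prod.fst h0
    rw [this] at haa
    simp at haa
    exact hs ((pow_eq_zero_iff two_ne_zero).1 haa.symm)
  have hW : Wz (rotH t (s • ((n, n, 0) : R9))) := by
    rw [hu]
    refine ⟨?_, ?_, ?_⟩ <;> simp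
  have hg := QU_grad9_v0 pStar symm_pStar.R symm_pStar.S hu0 hW
  unfold eM at h
  rw [hg, hu] at h
  unfold br at h
  simp only [Matrix.mulVec_smul] at h
  rw [station_id, Real.cos_sq_add_sin_sq, haa, one_mul, ha, LinearMap.map_smul,
    LinearMap.smul_apply, smul_smul] at h
  exact (smul_eq_zero.1 h).resolve_left (mul_ne_zero (pow_ne_zero 2 hs) hs)

end QU4

open QU4 in
/-- **condition (Q4')** -/
theorem QU4_q4 : ∀ k ∈ KW (v0 QU4.pStar) (-1), k.1.2.1 ⨯₃ k.1.2.2 = 0 →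
    (eM (v0 QU4.pStar) k.1).2.1 ⨯₃ k.1.2.2 + k.1.2.1 ⨯₃ (eM (v0 QU4.pStar) k.1).2.2 = 0 →
    0 < T3C (v0 QU4.pStar) k.1 k.2 := by
  rintro ⟨u, b⟩ ⟨hF, hc, -⟩ hq hX
  simp only at hF hc hq hX ⊢
  obtain ⟨t, n, k, hn, hk, hu, hb⟩ := wallB_q0 hF hc hq
  have hs0 : (Real.sqrt 2)⁻¹ ≠ 0 := GE6.s2_pos.ne'
  rw [hu] at hX
  have hpar := station hs0 hn hX
  obtain ⟨r, hr, hnr⟩ := par_nu hn hpar
  have hF0 : Flg ((Real.sqrt 2)⁻¹ • ((n, n, 0) : R9)) ((Real.sqrt 2)⁻¹ • ((k, -k, 0) : R9)) :=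
    (flgB_q0 hn _).2 ⟨k, hk, rfl⟩
  rw [hu, hb, T3C_rotH (GE5_v0 pStar) t (T3CRot_flg_ne hF0)]
  unfold T3C
  rw [T3F_v0 nData2 symm_pStar hF0]
  have hs2 := GE6.s2_sq
  set s := (Real.sqrt 2)⁻¹ with hsd
  have e1 : s • ((n, n, 0) : R9) = U (s * r) := by
    rw [hnr]
    unfold U pStar
    refine Prod.ext ?_ (Prod.ext ?_ ?_) <;> (funext i; fin_cases i) <;> simp <;> ring
  have e2 : s • ((k, -k, 0) : R9) = B (s * k 0) (s * k 1) (s * k 2) := by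
    unfold B
    refine Prod.ext ?_ (Prod.ext ?_ ?_) <;> (funext i; fin_cases i) <;> simp
  rw [e1, e2]
  apply T3x_pos
  · rw [mul_pow, hs2, hr]; norm_num
  · have h3 : k 0 * k 0 + k 1 * k 1 + k 2 * k 2 = 1 := by
      simpa [dotProduct, Fin.sum_univ_three] using hk
    linear_combination (k 0 ^ 2 + k 1 ^ 2 + k 2 ^ 2) * hs2 + (1 / 2 : ℝ) * h3

/-- the field `q4` of `ParOK` for every `p` with these entries (use `rfl`) -/
theorem QU4_q4_of {p : Par} (hp : p = QU4.pStar) : ∀ k ∈ KW (v0 p) (-1),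
    k.1.2.1 ⨯₃ k.1.2.2 = 0 →
    (eM (v0 p) k.1).2.1 ⨯₃ k.1.2.2 + k.1.2.1 ⨯₃ (eM (v0 p) k.1).2.2 = 0 →
    0 < T3C (v0 p) k.1 k.2 := by
  subst hp
  exact QU4_q4

end Pool.Agent.FL.S2
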