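import Pool.Agent.FL.PQ0
import Pool.Agent.FL.Q1B
import Pool.Agent.FL.Q2B
import Pool.Agent.FL.QU3
import Pool.Agent.FL.QU4
import Pool.Agent.FL.Q5B
import Pool.Agent.FL.QP5

/-!
# MP_f09395_gt, space (2): the explicit parameters satisfy all conditions
-/

set_option linter.unusedSectionVars false

noncomputable section

namespace Pool.Agent.FL.S2

open scoped ContDiff Quaternion Matrix
open Pool.Agent.Helper93.Fin Pool.Agent.helper79.FP Pool.Agent.helper79.FR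
open Pool.Agent.helper79.FR.Sp2 (Mat QQ h0 m gg hh PP BB cc)
open Pool.Agent.helper79.FR

attribute [local instance] Matrix.linftyOpNormedRing Matrix.linftyOpNormedAlgebra

/-- (Q5) -/
theorem pStar_q5 : ∀ k ∈ KW (v0 QU3_p) (-1), k.1.1 = 0 → (eM (v0 QU3_p) k.1).1 = 0 →
    0 < T3C (v0 QU3_p) k.1 k.2 := by
  rintro ⟨u, b⟩ ⟨hF, hc, hal⟩ ha he
  obtain ⟨q, hq, hk, h1, h2⟩ := Q5_bridge QU3_symm hF hc hal ha he
  have h3 := P5_neg (p := QU3_p) rfl rfl rfl rfl hq hk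
  have h4 : T3C (v0 QU3_p) u b = T3x QU3_p u b := T3F_v0 nData2 QU3_symm hF
  show 0 < T3C (v0 QU3_p) u b
  rw [h4]
  by_contra h5
  push Not at h5
  have h6 : Dq QU3_p q * T3x QU3_p u b ≤ 0 := mul_nonpos_of_nonneg_of_nonpos h2 h5
  linarith

/-- the explicit parameters satisfy all conditions -/
theorem pStar_ok : ParOK QU3_p where
  R := PQ0_R
  S := PQ0_SS
  N := PQ0_N
  q0 := fun _ hf h => PQ0_star hf h
  ν := PQ0_ν
  q1 := fun t τ n hn => q1_T3C rfl rfl rfl rfl τ n hn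
  q2 := fun τ f g hf hg hfg h => q2_T3C rfl rfl rfl rfl τ f g hf hg hfg h
  q3 := QU3_q3_of rfl
  q4 := QU4_q4_of rfl
  q5 := pStar_q5

end Pool.Agent.FL.S2
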