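import Pool.Agent.FL.GE4
import Pool.Agent.FL.GE5
import Pool.Agent.FL.S2Glue

/-!
# MP_f09395_gt, space (2): `W`-finite type of `v₀` outside the exceptional set
-/

set_option linter.unusedSectionVars false

noncomputable section

namespace Pool.Agent.FL.S2

open scoped ContDiff Quaternion Matrix
open Pool.Agent.Helper93.Fin Pool.Agent.helper79.FP Pool.Agent.helper79.FR
open Pool.Agent.helper79.FR.Sp2 (Mat QQ h0 m gg hh PP BB cc)
open Pool.Agent.helper79.FR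
open Filter Topology Matrix

attribute [local instance] Matrix.linftyOpNormedRing Matrix.linftyOpNormedAlgebra

theorem GE4_expand {f1 f2 f3 : Fin 3 → ℝ} (h : Frame3 f1 f2 f3) (p : Fin 3 → ℝ) :
    p = (p ⬝ᵥ f1) • f1 + (p ⬝ᵥ f2) • f2 + (p ⬝ᵥ f3) • f3 := by
  funext i
  have h0 := h.col i 0
  have h1 := h.col i 1
  have h2 := h.col i 2
  simp only [Pi.add_apply, Pi.smul_apply, smul_eq_mul, dot3]
  have e : p i = p 0 * (1 : Matrix (Fin 3) (Fin 3) ℝ) i 0 + p 1 * (1 : Matrix (Fin 3) (Fin 3) ℝ) i 1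
      + p 2 * (1 : Matrix (Fin 3) (Fin 3) ℝ) i 2 := by
    fin_cases i <;> simp [Matrix.one_apply]
  rw [e, ← h0, ← h1, ← h2]
  ring

/-- the third vector of a frame with `P = T = 0` is umbilic -/
theorem GE4_umb {S : Matrix (Fin 3) (Fin 3) ℝ} (hS : Sᵀ = S) {f1 f2 f3 : Fin 3 → ℝ}
    (h : Frame3 f1 f2 f3) (hP : f1 ⬝ᵥ S *ᵥ f2 = 0) (hT : f2 ⬝ᵥ S *ᵥ f2 = f1 ⬝ᵥ S *ᵥ f1)
    {r : ℝ} (hr : r ≠ 0) : Umb2 S (r • f3) := by
  have hsym : f2 ⬝ᵥ S *ᵥ f1 = f1 ⬝ᵥ S *ᵥ f2 := by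
    rw [dotProduct_mulVec, ← mulVec_transpose, hS, dotProduct_comm]
  refine ⟨f1 ⬝ᵥ S *ᵥ f1, fun g k hg hk => ?_⟩
  have hg' : g ⬝ᵥ f3 = 0 := by
    rw [dotProduct_smul, smul_eq_mul] at hg
    exact (mul_eq_zero.1 hg).resolve_left hr
  have hk' : k ⬝ᵥ f3 = 0 := by
    rw [dotProduct_smul, smul_eq_mul] at hk
    exact (mul_eq_zero.1 hk).resolve_left hr
  have eg := GE4_expand h g
  have ek := GE4_expand h k
  rw [hg', zero_smul, add_zero] at eg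
  rw [hk', zero_smul, add_zero] at ek
  have o21 : f2 ⬝ᵥ f1 = 0 := by rw [dotProduct_comm, h.o12]
  generalize g ⬝ᵥ f1 = g1 at eg
  generalize g ⬝ᵥ f2 = g2 at eg
  generalize k ⬝ᵥ f1 = k1 at ek
  generalize k ⬝ᵥ f2 = k2 at ek
  subst eg ek
  simp only [mulVec_add, mulVec_smul, dotProduct_add, dotProduct_smul, add_dotProduct,
    smul_dotProduct, smul_eq_mul, hsym, hP, hT, h.n1, h.n2, h.o12, o21]
  ring

theorem wft {p : Par} (hp : ParOK p) {u b : R9} (h : Flg u b) (h1 : cM u ≠ 1) (h2 : cM u ≠ -1)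
    (h0 : ¬ T0p p u) :
    ∃ j, 1 ≤ j ∧ aW (PP 1 1) hU (BB 1 1) (toM (v0 p)) j (iota u) ≠ 0 := by
  by_contra hc
  push Not at hc
  apply h0
  rcases wft_gen (GE5_v0 p) hp.S (ν := p.ν) (fun u b hF => by
      rw [GE5_al_v0 p hp.S hF]; ring)
    (fun f1 f2 f3 hf k1 k2 => by
      have k3 := GE4_umb hp.S hf k1 k2 (r := 1) one_ne_zero
      rw [one_smul] at k3
      refine hp.q0 f3 ?_ k3
      rintro rfl
      have := hf.n3
      simp at this) h h1 h2 (fun j hj _ => hc j hj) with k | ⟨k, f1, f2, f3, r, hf, k1, k2, k3, k4⟩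
  · exact Or.inl k
  · refine Or.inr ⟨k, ?_, ?_⟩
    · rw [k4]
      refine smul_ne_zero k3 ?_
      rintro rfl
      have := hf.n3
      simp at this
    · rw [k4]
      exact GE4_umb hp.S hf k1 k2 k3

end Pool.Agent.FL.S2
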