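import Pool.Agent.FL.S2Core

/-!
# MP_f09395_gt, space (2): extension of functions of wall A to W-invariant functions (GE9A)

`extA ε ν u` is a smooth function of the invariants `a, BB, |u|²` of `u = (a, x, y)`; it is
homogeneous of degree zero, invariant, has `α = 0` on all flags, is equal to `ν(p, q)` at
`u_A(p, q)` for `(p, q)` in the base, and vanishes outside
`δ |u|² ≤ |a|² ≤ (1 - δ) |u|²`, `c > 1 - 8 ε`.
-/

noncomputable section

namespace Pool.Agent.FL.S2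

open scoped ContDiff Matrix

/-- values of the invariants `(a, BB, |u|²)` -/
abbrev TA : Type := R3 × (Fin 3 → Fin 3 → ℝ) × ℝ

/-- the invariants -/
def tauA (u : R9) : TA := (u.1, BBm u, dot9 u u)

/-- trace -/
def trA (w : TA) : ℝ := w.2.1 0 0 + w.2.1 1 1 + w.2.1 2 2

/-- `psi4 u / |u|⁴` in terms of the invariants -/
def kapA (w : TA) : ℝ := ((w.1 ⬝ᵥ w.1) * (w.2.2 - w.1 ⬝ᵥ w.1) - trA w) / w.2.2 ^ 2

/-- weights -/
def etaA (j : Fin 3) (w : TA) : ℝ := Real.smoothTransition (6 * (w.2.1 j j / trA w) - 1)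

/-- reconstruction of `q` from the `j`-th column of `BB` -/
def qA (j : Fin 3) (w : TA) : R3 :=
  (Real.sqrt (w.2.1 j j) * (w.1 ⬝ᵥ w.1) * Real.sqrt w.2.2)⁻¹ •
    ((fun i => w.2.1 i j) ⨯₃ w.1)

/-- the extension in terms of the invariants -/
def extT (ε : ℝ) (ν : R6 → ℝ) (w : TA) : ℝ :=
  Real.smoothTransition (2 - 2 * (kapA w / ε)) *
    ((∑ j, etaA j w * ν ((Real.sqrt w.2.2)⁻¹ • w.1, qA j w)) / ∑ j, etaA j w)

/-- the extension of `ν` from wall A -/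
def extA (ε : ℝ) (ν : R6 → ℝ) (u : R9) : ℝ := extT ε ν (tauA u)

/-- hypotheses on the function `ν` on the base of wall A (`σ = 1` even, `σ = -1` odd) -/
structure ExtHypA (δ ε σ : ℝ) (ν : R6 → ℝ) : Prop where
  δ0 : 0 < δ
  ε0 : 0 < ε
  small : 8 * ε ≤ δ * (1 - δ)
  smooth : ContDiffOn ℝ ∞ ν U6
  van : ∀ z : R6, (z.1 ⬝ᵥ z.1 < δ ∨ 1 - δ < z.1 ⬝ᵥ z.1) → ν z = 0
  evq : ∀ z ∈ U6, ν (z.1, -z.2) = ν z
  evp : ∀ z ∈ U6, ν (-z.1, z.2) = σ * ν z

namespace GE9A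

/-! ### algebra -/

theorem lagr3 (v a : R3) : (v ⨯₃ a) ⬝ᵥ (v ⨯₃ a) = (v ⬝ᵥ v) * (a ⬝ᵥ a) - (v ⬝ᵥ a) ^ 2 := by
  simp only [cross_apply, dotProduct, Fin.sum_univ_three, Matrix.cons_val_zero,
    Matrix.cons_val_one, Matrix.cons_val]
  ring

theorem dd_nonneg (v : R3) : 0 ≤ v ⬝ᵥ v := by
  simp only [dotProduct, Fin.sum_univ_three]
  nlinarith [sq_nonneg (v 0), sq_nonneg (v 1), sq_nonneg (v 2)]

theorem dd_pos {v : R3} (h : v ≠ 0) : 0 < v ⬝ᵥ v := by
  rcases (dd_nonneg v).lt_or_eq with h1 | h1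
  · exact h1
  · exact absurd (dotProduct_self_eq_zero.1 h1.symm) h

theorem ne_of_dd {v : R3} (h : 0 < v ⬝ᵥ v) : v ≠ 0 := by
  rintro rfl
  simp at h

theorem csq3 (v a : R3) : (v ⬝ᵥ a) ^ 2 ≤ (v ⬝ᵥ v) * (a ⬝ᵥ a) := by
  have h := dd_nonneg (v ⨯₃ a)
  rw [lagr3] at h
  linarith

theorem psi4_nn (u : R9) : 0 ≤ psi4 u := by
  unfold psi4
  have := dd_nonneg (u.2.1 ⨯₃ u.2.2)
  positivity

theorem trA_tau (u : R9) :
    trA (tauA u) = (u.1 ⬝ᵥ u.1) * (dot9 u u - u.1 ⬝ᵥ u.1) - psi4 u := by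
  simp only [trA, tauA, BBm, dot9, psi4, cross_apply, dotProduct, Fin.sum_univ_three,
    Matrix.cons_val_zero, Matrix.cons_val_one, Matrix.cons_val]
  ring

theorem kapA_tau (u : R9) : kapA (tauA u) = psi4 u / dot9 u u ^ 2 := by
  unfold kapA
  rw [trA_tau]
  simp only [tauA]
  ring

theorem col_dot (u : R9) (j : Fin 3) :
    ((fun i => BBm u i j) ⬝ᵥ u.1) ^ 2 ≤ psi4 u ^ 2 * (u.1 ⬝ᵥ u.1) := by
  have e : (fun i => BBm u i j) ⬝ᵥ u.1
      = -((u.2.1 ⨯₃ u.2.2) j * ((u.2.1 ⨯₃ u.2.2) ⬝ᵥ u.1)) := by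
    simp only [BBm, dotProduct, Fin.sum_univ_three]
    fin_cases j <;>
    · simp only [cross_apply, Matrix.cons_val_zero, Matrix.cons_val_one, Matrix.cons_val]
      simp
      ring
  have h1 : ((u.2.1 ⨯₃ u.2.2) j) ^ 2 ≤ psi4 u := by
    have h2 : ((u.2.1 ⨯₃ u.2.2) j) ^ 2 ≤ (u.2.1 ⨯₃ u.2.2) ⬝ᵥ (u.2.1 ⨯₃ u.2.2) := by
      generalize u.2.1 ⨯₃ u.2.2 = c
      simp only [dotProduct, Fin.sum_univ_three]
      fin_cases j <;> simp <;>
        nlinarith [sq_nonneg (c 0), sq_nonneg (c 1), sq_nonneg (c 2)]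
    unfold psi4
    nlinarith [sq_nonneg (u.1 ⬝ᵥ u.2.1), sq_nonneg (u.1 ⬝ᵥ u.2.2)]
  have h3 : ((u.2.1 ⨯₃ u.2.2) ⬝ᵥ u.1) ^ 2 ≤ psi4 u * (u.1 ⬝ᵥ u.1) := by
    refine (csq3 _ _).trans (mul_le_mul_of_nonneg_right ?_ (dd_nonneg _))
    unfold psi4
    nlinarith [sq_nonneg (u.1 ⬝ᵥ u.2.1), sq_nonneg (u.1 ⬝ᵥ u.2.2)]
  rw [e, neg_sq, mul_pow]
  calc ((u.2.1 ⨯₃ u.2.2) j) ^ 2 * ((u.2.1 ⨯₃ u.2.2) ⬝ᵥ u.1) ^ 2
      ≤ psi4 u * (psi4 u * (u.1 ⬝ᵥ u.1)) := mul_le_mul h1 h3 (sq_nonneg _) (psi4_nn u)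
    _ = psi4 u ^ 2 * (u.1 ⬝ᵥ u.1) := by ring

/-- the column of `BB` and its cross product with `a` -/
theorem col_cross_pos {u : R9} {j : Fin 3} (ha : u.1 ≠ 0) (h : psi4 u < BBm u j j) :
    0 < ((fun i => BBm u i j) ⨯₃ u.1) ⬝ᵥ ((fun i => BBm u i j) ⨯₃ u.1) := by
  rw [lagr3]
  have h1 := col_dot u j
  have ha' := dd_pos ha
  have h0 := psi4_nn u
  have h2 : (BBm u j j) ^ 2 ≤ (fun i => BBm u i j) ⬝ᵥ (fun i => BBm u i j) := by
    generalize hc : (fun i => BBm u i j) = c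
    have : BBm u j j = c j := by rw [← hc]
    rw [this]
    simp only [dotProduct, Fin.sum_univ_three]
    fin_cases j <;> simp <;>
      nlinarith [sq_nonneg (c 0), sq_nonneg (c 1), sq_nonneg (c 2)]
  have h3 : psi4 u ^ 2 < (BBm u j j) ^ 2 := by nlinarith
  nlinarith [mul_lt_mul_of_pos_right (lt_of_lt_of_le h3 h2) ha']

theorem dot9_nn (u : R9) : 0 ≤ dot9 u u := by
  unfold dot9
  linarith [dd_nonneg u.1, dd_nonneg u.2.1, dd_nonneg u.2.2]

theorem dot9_pos {u : R9} (h : u ≠ 0) : 0 < dot9 u u := by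
  rcases (dot9_nn u).lt_or_eq with h1 | h1
  · exact h1
  · exfalso
    apply h
    unfold dot9 at h1
    have ha := dd_nonneg u.1
    have hx := dd_nonneg u.2.1
    have hy := dd_nonneg u.2.2
    have h1' : u.1 = 0 := dotProduct_self_eq_zero.1 (by linarith)
    have h2' : u.2.1 = 0 := dotProduct_self_eq_zero.1 (by linarith)
    have h3' : u.2.2 = 0 := dotProduct_self_eq_zero.1 (by linarith)
    exact Prod.ext h1' (Prod.ext h2' h3')

theorem a_le_dot9 (u : R9) : u.1 ⬝ᵥ u.1 ≤ dot9 u u := by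
  unfold dot9
  linarith [dd_nonneg u.1, dd_nonneg u.2.1, dd_nonneg u.2.2]

/-! ### smoothness of the ingredients -/

theorem cd_dot {E : Type*} [NormedAddCommGroup E] [NormedSpace ℝ E] {f g : E → R3} {x : E}
    (hf : ContDiffAt ℝ ∞ f x) (hg : ContDiffAt ℝ ∞ g x) :
    ContDiffAt ℝ ∞ (fun y => f y ⬝ᵥ g y) x := by
  simp only [dotProduct, Fin.sum_univ_three]
  have hf' := contDiffAt_pi.1 hf
  have hg' := contDiffAt_pi.1 hg
  exact (((hf' 0).mul (hg' 0)).add ((hf' 1).mul (hg' 1))).add ((hf' 2).mul (hg' 2))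

theorem cd_cross {E : Type*} [NormedAddCommGroup E] [NormedSpace ℝ E] {f g : E → R3} {x : E}
    (hf : ContDiffAt ℝ ∞ f x) (hg : ContDiffAt ℝ ∞ g x) :
    ContDiffAt ℝ ∞ (fun y => f y ⨯₃ g y) x := by
  have hf' := contDiffAt_pi.1 hf
  have hg' := contDiffAt_pi.1 hg
  rw [contDiffAt_pi]
  intro i
  fin_cases i
  · simpa [cross_apply] using ((hf' 1).mul (hg' 2)).sub ((hf' 2).mul (hg' 1))
  · simpa [cross_apply] using ((hf' 2).mul (hg' 0)).sub ((hf' 0).mul (hg' 2))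
  · simpa [cross_apply] using ((hf' 0).mul (hg' 1)).sub ((hf' 1).mul (hg' 0))

theorem cd_bb (i j : Fin 3) (w : TA) : ContDiffAt ℝ ∞ (fun w : TA => w.2.1 i j) w := by
  have h : ContDiff ℝ ∞ (fun w : TA => w.2.1 i j) := by
    have h1 : ContDiff ℝ ∞ (fun w : TA => w.2.1) := contDiff_fst.comp contDiff_snd
    exact (contDiff_pi.1 ((contDiff_pi.1 h1) i)) j
  exact h.contDiffAt

theorem cd_tr (w : TA) : ContDiffAt ℝ ∞ trA w :=
  ((cd_bb 0 0 w).add (cd_bb 1 1 w)).add (cd_bb 2 2 w)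

theorem cd_a (w : TA) : ContDiffAt ℝ ∞ (fun w : TA => w.1) w := contDiff_fst.contDiffAt

theorem cd_s (w : TA) : ContDiffAt ℝ ∞ (fun w : TA => w.2.2) w :=
  (contDiff_snd.comp contDiff_snd).contDiffAt

theorem cd_kap {w : TA} (hw : w.2.2 ≠ 0) : ContDiffAt ℝ ∞ kapA w := by
  unfold kapA
  exact (((cd_dot (cd_a w) (cd_a w)).mul ((cd_s w).sub (cd_dot (cd_a w) (cd_a w)))).sub
    (cd_tr w)).div ((cd_s w).pow 2) (pow_ne_zero 2 hw)

theorem cd_eta {w : TA} (j : Fin 3) (hw : trA w ≠ 0) : ContDiffAt ℝ ∞ (etaA j) w := by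
  unfold etaA
  exact Real.smoothTransition.contDiff.contDiffAt.comp w
    ((contDiffAt_const.mul ((cd_bb j j w).div (cd_tr w) hw)).sub contDiffAt_const)

theorem cd_p {w : TA} (hw : 0 < w.2.2) :
    ContDiffAt ℝ ∞ (fun w : TA => (Real.sqrt w.2.2)⁻¹ • w.1) w := by
  have h1 : ContDiffAt ℝ ∞ (fun w : TA => Real.sqrt w.2.2) w := (cd_s w).sqrt hw.ne'
  exact (h1.inv (Real.sqrt_pos.2 hw).ne').smul (cd_a w)

theorem cd_q {w : TA} {j : Fin 3} (hw : 0 < w.2.2) (hj : 0 < w.2.1 j j) (ha : w.1 ≠ 0) :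
    ContDiffAt ℝ ∞ (qA j) w := by
  unfold qA
  have h1 : ContDiffAt ℝ ∞ (fun w : TA => Real.sqrt w.2.2) w := (cd_s w).sqrt hw.ne'
  have h2 : ContDiffAt ℝ ∞ (fun w : TA => Real.sqrt (w.2.1 j j)) w := (cd_bb j j w).sqrt hj.ne'
  have h3 := (h2.mul (cd_dot (cd_a w) (cd_a w))).mul h1
  have h4 : ContDiffAt ℝ ∞ (fun w : TA => fun i => w.2.1 i j) w :=
    contDiffAt_pi.2 fun i => cd_bb i j w
  refine (h3.inv ?_).smul (cd_cross h4 (cd_a w))
  exact mul_ne_zero (mul_ne_zero (Real.sqrt_pos.2 hj).ne' (dd_pos ha).ne')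
    (Real.sqrt_pos.2 hw).ne'

theorem isOpen_U6 : IsOpen U6 := by
  have h : U6 = (Prod.fst ⁻¹' {0}ᶜ) ∩ (Prod.snd ⁻¹' {0}ᶜ) := by
    ext z; simp [U6]
  rw [h]
  exact (isOpen_compl_singleton.preimage continuous_fst).inter
    (isOpen_compl_singleton.preimage continuous_snd)

/-! ### values -/

theorem pp_eq {w : TA} (hw : 0 < w.2.2) :
    ((Real.sqrt w.2.2)⁻¹ • w.1) ⬝ᵥ ((Real.sqrt w.2.2)⁻¹ • w.1) = (w.1 ⬝ᵥ w.1) / w.2.2 := by
  rw [smul_dotProduct, dotProduct_smul, smul_smul, smul_eq_mul, ← mul_inv,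
    Real.mul_self_sqrt hw.le]
  ring

theorem qq_pos {w : TA} {j : Fin 3} (hw : 0 < w.2.2) (hj : 0 < w.2.1 j j) (ha : w.1 ≠ 0)
    (hc : 0 < ((fun i => w.2.1 i j) ⨯₃ w.1) ⬝ᵥ ((fun i => w.2.1 i j) ⨯₃ w.1)) :
    qA j w ≠ 0 := by
  unfold qA
  refine smul_ne_zero (inv_ne_zero ?_) (ne_of_dd hc)
  exact mul_ne_zero (mul_ne_zero (Real.sqrt_pos.2 hj).ne' (dd_pos ha).ne')
    (Real.sqrt_pos.2 hw).ne'

variable {δ ε σ : ℝ} {ν : R6 → ℝ}

/-- in the nice range, the trace of `BB` is large -/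
theorem tr_large (h : ExtHypA δ ε σ ν) {u : R9} (hu : u ≠ 0) (hk : kapA (tauA u) ≤ ε)
    (h1 : δ ≤ (u.1 ⬝ᵥ u.1) / dot9 u u) (h2 : (u.1 ⬝ᵥ u.1) / dot9 u u ≤ 1 - δ) :
    7 * psi4 u ≤ trA (tauA u) ∧ 0 < trA (tauA u) ∧ u.1 ≠ 0 := by
  have hs := dot9_pos hu
  have hδ := h.δ0
  have hε := h.ε0
  have hsm := h.small
  rw [kapA_tau, div_le_iff₀ (pow_pos hs 2)] at hk
  rw [le_div_iff₀ hs] at h1
  rw [div_le_iff₀ hs] at h2
  have h0 := psi4_nn u
  have hδ1 : δ < 1 := by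
    by_contra hc
    push Not at hc
    nlinarith
  rw [trA_tau]
  set s := dot9 u u
  set A := u.1 ⬝ᵥ u.1
  have h3 : δ * (1 - δ) * s ^ 2 ≤ A * (s - A) := by
    nlinarith [mul_nonneg (sub_nonneg.2 h1) (sub_nonneg.2 h2)]
  have h4 : 8 * ε * s ^ 2 ≤ A * (s - A) :=
    (mul_le_mul_of_nonneg_right hsm (sq_nonneg s)).trans h3
  have h5 : 0 < ε * s ^ 2 := mul_pos hε (pow_pos hs 2)
  refine ⟨by linarith, by linarith, ?_⟩
  apply ne_of_dd
  have : 0 < δ * s := mul_pos hδ hs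
  linarith

/-- in the nice range, a nonzero weight implies that the point is in `U6` -/
theorem mem_U6_of (h : ExtHypA δ ε σ ν) {u : R9} (hu : u ≠ 0) (hk : kapA (tauA u) ≤ ε)
    (h1 : δ ≤ (u.1 ⬝ᵥ u.1) / dot9 u u) (h2 : (u.1 ⬝ᵥ u.1) / dot9 u u ≤ 1 - δ) {j : Fin 3}
    (hj : 1 / 6 ≤ BBm u j j / trA (tauA u)) :
    0 < BBm u j j ∧ (((Real.sqrt (tauA u).2.2)⁻¹ • (tauA u).1, qA j (tauA u)) : R6) ∈ U6 := by
  obtain ⟨h3, h4, h5⟩ := tr_large h hu hk h1 h2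
  have hs := dot9_pos hu
  rw [le_div_iff₀ h4] at hj
  have h6 : psi4 u < BBm u j j := by linarith
  have h0 := psi4_nn u
  have h7 : 0 < BBm u j j := by linarith
  refine ⟨h7, ?_, ?_⟩
  · exact smul_ne_zero (inv_ne_zero (Real.sqrt_pos.2 hs).ne') h5
  · exact qq_pos (w := tauA u) hs h7 h5 (col_cross_pos h5 h6)

theorem sum_eta_pos (h : ExtHypA δ ε σ ν) {u : R9} (hu : u ≠ 0) (hk : kapA (tauA u) ≤ ε)
    (h1 : δ ≤ (u.1 ⬝ᵥ u.1) / dot9 u u) (h2 : (u.1 ⬝ᵥ u.1) / dot9 u u ≤ 1 - δ) :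
    0 < ∑ j, etaA j (tauA u) := by
  obtain ⟨h3, h4, h5⟩ := tr_large h hu hk h1 h2
  have key : ∃ j, 1 / 3 ≤ (tauA u).2.1 j j / trA (tauA u) := by
    by_contra hc
    push Not at hc
    have h6 := hc 0
    have h7 := hc 1
    have h8 := hc 2
    rw [div_lt_iff₀ h4] at h6 h7 h8
    have h9 : trA (tauA u) = (tauA u).2.1 0 0 + (tauA u).2.1 1 1 + (tauA u).2.1 2 2 := rfl
    linarith
  obtain ⟨j, hj⟩ := key
  have h6 : 0 < etaA j (tauA u) := by
    unfold etaA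
    apply Real.smoothTransition.pos_of_pos
    linarith
  exact Finset.sum_pos' (fun i _ => Real.smoothTransition.nonneg _) ⟨j, Finset.mem_univ j, h6⟩

theorem extT_zero_of_t (h : ExtHypA δ ε σ ν) {w : TA} (hw : 0 < w.2.2)
    (ht : (w.1 ⬝ᵥ w.1) / w.2.2 < δ ∨ 1 - δ < (w.1 ⬝ᵥ w.1) / w.2.2) : extT ε ν w = 0 := by
  unfold extT
  have : ∀ j, ν ((Real.sqrt w.2.2)⁻¹ • w.1, qA j w) = 0 := by
    intro j
    apply h.van
    rw [pp_eq hw]
    exact ht
  simp [this]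

theorem extT_zero_of_k (h : ExtHypA δ ε σ ν) {w : TA} (hw : ε ≤ kapA w) : extT ε ν w = 0 := by
  unfold extT
  rw [Real.smoothTransition.zero_of_nonpos, zero_mul]
  have : 1 ≤ kapA w / ε := by rwa [le_div_iff₀ h.ε0, one_mul]
  linarith

/-- smoothness of the extension in the space of invariants -/
theorem extT_smooth (h : ExtHypA δ ε σ ν) {u : R9} (hu : u ≠ 0) :
    ContDiffAt ℝ ∞ (extT ε ν) (tauA u) := by
  have hs : 0 < (tauA u).2.2 := dot9_pos hu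
  have hcs : ∀ᶠ w in nhds (tauA u), 0 < w.2.2 :=
    (continuous_snd.comp continuous_snd).continuousAt.eventually (lt_mem_nhds hs)
  have hct : ContinuousAt (fun w : TA => (w.1 ⬝ᵥ w.1) / w.2.2) (tauA u) :=
    ((cd_dot (cd_a _) (cd_a _)).div (cd_s _) hs.ne').continuousAt
  have hck : ContinuousAt kapA (tauA u) := (cd_kap hs.ne').continuousAt
  by_cases h1 : (u.1 ⬝ᵥ u.1) / dot9 u u < δ
  · have h2 : ∀ᶠ w in nhds (tauA u), (w.1 ⬝ᵥ w.1) / w.2.2 < δ :=
      hct.eventually (gt_mem_nhds (show (fun w : TA => (w.1 ⬝ᵥ w.1) / w.2.2) (tauA u) < δ from h1))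
    have h3 : extT ε ν =ᶠ[nhds (tauA u)] fun _ => 0 := by
      filter_upwards [h2, hcs] with w hw hws
      exact extT_zero_of_t h hws (Or.inl hw)
    exact contDiffAt_const.congr_of_eventuallyEq h3
  by_cases h2 : 1 - δ < (u.1 ⬝ᵥ u.1) / dot9 u u
  · have h2 : ∀ᶠ w in nhds (tauA u), 1 - δ < (w.1 ⬝ᵥ w.1) / w.2.2 :=
      hct.eventually (lt_mem_nhds
        (show 1 - δ < (fun w : TA => (w.1 ⬝ᵥ w.1) / w.2.2) (tauA u) from h2))
    have h3 : extT ε ν =ᶠ[nhds (tauA u)] fun _ => 0 := by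
      filter_upwards [h2, hcs] with w hw hws
      exact extT_zero_of_t h hws (Or.inr hw)
    exact contDiffAt_const.congr_of_eventuallyEq h3
  by_cases h3 : ε < kapA (tauA u)
  · have h4 : ∀ᶠ w in nhds (tauA u), ε < kapA w := hck.eventually (lt_mem_nhds h3)
    have h5 : extT ε ν =ᶠ[nhds (tauA u)] fun _ => 0 := by
      filter_upwards [h4] with w hw
      exact extT_zero_of_k h hw.le
    exact contDiffAt_const.congr_of_eventuallyEq h5
  push Not at h1 h2 h3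
  obtain ⟨h4, h5, h6⟩ := tr_large h hu h3 h1 h2
  have hterm : ∀ j, ContDiffAt ℝ ∞
      (fun w : TA => etaA j w * ν ((Real.sqrt w.2.2)⁻¹ • w.1, qA j w)) (tauA u) := by
    intro j
    by_cases hj : (tauA u).2.1 j j / trA (tauA u) < 1 / 6
    · have h7 : ContinuousAt (fun w : TA => w.2.1 j j / trA w) (tauA u) :=
        ((cd_bb j j _).div (cd_tr _) h5.ne').continuousAt
      have h8 : ∀ᶠ w in nhds (tauA u), w.2.1 j j / trA w < 1 / 6 :=
        h7.eventually (gt_mem_nhds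
          (show (fun w : TA => w.2.1 j j / trA w) (tauA u) < 1 / 6 from hj))
      have h9 : (fun w : TA => etaA j w * ν ((Real.sqrt w.2.2)⁻¹ • w.1, qA j w))
          =ᶠ[nhds (tauA u)] fun _ => 0 := by
        filter_upwards [h8] with w hw
        unfold etaA
        rw [Real.smoothTransition.zero_of_nonpos (by linarith), zero_mul]
      exact contDiffAt_const.congr_of_eventuallyEq h9
    · push Not at hj
      obtain ⟨h7, h8⟩ := mem_U6_of h hu h3 h1 h2 (j := j) hj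
      have h9 : ContDiffAt ℝ ∞ ν ((Real.sqrt (tauA u).2.2)⁻¹ • (tauA u).1, qA j (tauA u)) :=
        h.smooth.contDiffAt (isOpen_U6.mem_nhds h8)
      have h10 : ContDiffAt ℝ ∞
          (fun w : TA => (((Real.sqrt w.2.2)⁻¹ • w.1, qA j w) : R6)) (tauA u) :=
        (cd_p hs).prodMk (cd_q hs h7 h6)
      exact (cd_eta j h5.ne').mul (h9.comp (tauA u) h10)
  unfold extT
  refine ContDiffAt.mul ?_ (ContDiffAt.div ?_ ?_ (sum_eta_pos h hu h3 h1 h2).ne')
  · exact Real.smoothTransition.contDiff.contDiffAt.comp (tauA u)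
      (contDiffAt_const.sub (contDiffAt_const.mul ((cd_kap hs.ne').div_const ε)))
  · exact ContDiffAt.sum fun j _ => hterm j
  · exact ContDiffAt.sum fun j _ => cd_eta j h5.ne'

/-! ### the invariants as functions of `u` -/

theorem cd_tauA (u : R9) : ContDiffAt ℝ ∞ tauA u := by
  have ha : ContDiffAt ℝ ∞ (fun u : R9 => u.1) u := contDiff_fst.contDiffAt
  have hx : ContDiffAt ℝ ∞ (fun u : R9 => u.2.1) u :=
    (contDiff_fst.comp contDiff_snd).contDiffAt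
  have hy : ContDiffAt ℝ ∞ (fun u : R9 => u.2.2) u :=
    (contDiff_snd.comp contDiff_snd).contDiffAt
  have h1 := contDiffAt_pi.1 (cd_cross ha hx)
  have h2 := contDiffAt_pi.1 (cd_cross ha hy)
  have h3 := contDiffAt_pi.1 (cd_cross hx hy)
  refine ha.prodMk (ContDiffAt.prodMk ?_ ?_)
  · refine contDiffAt_pi.2 fun i => contDiffAt_pi.2 fun j => ?_
    exact (((h1 i).mul (h1 j)).add ((h2 i).mul (h2 j))).sub ((h3 i).mul (h3 j))
  · exact ((cd_dot ha ha).add (cd_dot hx hx)).add (cd_dot hy hy)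

theorem extA_smoothAt (h : ExtHypA δ ε σ ν) {u : R9} (hu : u ≠ 0) :
    ContDiffAt ℝ ∞ (extA ε ν) u :=
  (extT_smooth h hu).comp u (cd_tauA u)

theorem extA_smooth (h : ExtHypA δ ε σ ν) : ContDiffOn ℝ ∞ (extA ε ν) {0}ᶜ :=
  fun _ hu => (extA_smoothAt h hu).contDiffWithinAt

theorem BBm_smul (r : ℝ) (u : R9) (i j : Fin 3) : BBm (r • u) i j = r ^ 4 * BBm u i j := by
  simp only [BBm, Prod.smul_fst, Prod.smul_snd, LinearMap.map_smul, LinearMap.smul_apply,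
    Pi.smul_apply, smul_eq_mul]
  ring

theorem dot9_smul (r : ℝ) (u : R9) : dot9 (r • u) (r • u) = r ^ 2 * dot9 u u := by
  simp only [dot9, Prod.smul_fst, Prod.smul_snd, smul_dotProduct, dotProduct_smul, smul_eq_mul]
  ring

theorem psi4_smul (r : ℝ) (u : R9) : psi4 (r • u) = r ^ 4 * psi4 u := by
  simp only [psi4, Prod.smul_fst, Prod.smul_snd, LinearMap.map_smul, LinearMap.smul_apply,
    smul_dotProduct, dotProduct_smul, smul_eq_mul]
  ring

theorem extT_zero_s {ε : ℝ} {ν : R6 → ℝ} {u : R9} (hu : u = 0) : extA ε ν u = 0 := by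
  subst hu
  unfold extA extT
  have h : ∀ j, etaA j (tauA 0) = 0 := by
    intro j
    unfold etaA
    apply Real.smoothTransition.zero_of_nonpos
    have : (tauA 0).2.1 j j = 0 := by
      simp [tauA, BBm]
    rw [this]
    simp
  simp [h]

theorem extA_smul {r : ℝ} (hr : 0 < r) (u : R9) : extA ε ν (r • u) = extA ε ν u := by
  by_cases hu : u = 0
  · subst hu; simp
  have hs := dot9_pos hu
  have h4 : (0 : ℝ) < r ^ 4 := pow_pos hr 4
  have h2 : (0 : ℝ) < r ^ 2 := pow_pos hr 2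
  have e1 : ((r • u).1) ⬝ᵥ ((r • u).1) = r ^ 2 * (u.1 ⬝ᵥ u.1) := by
    simp only [Prod.smul_fst, smul_dotProduct, dotProduct_smul, smul_eq_mul]
    ring
  have etr : trA (tauA (r • u)) = r ^ 4 * trA (tauA u) := by
    simp only [trA, tauA, BBm_smul]; ring
  have ek : kapA (tauA (r • u)) = kapA (tauA u) := by
    have h5 : (r ^ 2 * dot9 u u) ^ 2 = r ^ 4 * dot9 u u ^ 2 := by ring
    rw [kapA_tau, kapA_tau, psi4_smul, dot9_smul, h5, mul_div_mul_left _ _ h4.ne']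
  have ee : ∀ j, etaA j (tauA (r • u)) = etaA j (tauA u) := by
    intro j
    unfold etaA
    rw [etr]
    simp only [tauA, BBm_smul]
    rw [mul_div_mul_left _ _ h4.ne']
  have esq : Real.sqrt (dot9 (r • u) (r • u)) = r * Real.sqrt (dot9 u u) := by
    rw [dot9_smul, Real.sqrt_mul h2.le, Real.sqrt_sq hr.le]
  have ep : (Real.sqrt (tauA (r • u)).2.2)⁻¹ • (tauA (r • u)).1
      = (Real.sqrt (tauA u).2.2)⁻¹ • (tauA u).1 := by
    simp only [tauA]
    rw [esq]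
    simp only [Prod.smul_fst]
    rw [smul_smul]
    congr 1
    field_simp
  have eq' : ∀ j, qA j (tauA (r • u)) = qA j (tauA u) := by
    intro j
    unfold qA
    simp only [tauA]
    rw [esq, e1, BBm_smul]
    have e3 : (fun i => BBm (r • u) i j) = r ^ 4 • fun i => BBm u i j := by
      ext i; simp [BBm_smul]
    have e4 : Real.sqrt (r ^ 4 * BBm u j j) = r ^ 2 * Real.sqrt (BBm u j j) := by
      rw [Real.sqrt_mul h4.le]
      congr 1
      rw [show r ^ 4 = (r ^ 2) ^ 2 by ring, Real.sqrt_sq h2.le]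
    rw [e3, e4]
    simp only [Prod.smul_fst, LinearMap.map_smul, LinearMap.smul_apply, smul_smul]
    congr 1
    by_cases hb : Real.sqrt (BBm u j j) = 0
    · rw [hb]; simp
    by_cases ha : u.1 ⬝ᵥ u.1 = 0
    · rw [ha]; simp
    have hss : Real.sqrt (dot9 u u) ≠ 0 := (Real.sqrt_pos.2 hs).ne'
    field_simp
  unfold extA extT
  rw [ek, ep]
  simp only [ee, eq']

theorem extA_supp' (h : ExtHypA δ ε σ ν) {u : R9} (hu : extA ε ν u ≠ 0) :
    u ≠ 0 ∧ kapA (tauA u) < ε ∧ δ ≤ (u.1 ⬝ᵥ u.1) / dot9 u u ∧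
      (u.1 ⬝ᵥ u.1) / dot9 u u ≤ 1 - δ := by
  have hu0 : u ≠ 0 := fun h0 => hu (extT_zero_s h0)
  have hs := dot9_pos hu0
  refine ⟨hu0, ?_, ?_, ?_⟩
  · by_contra hc
    push Not at hc
    exact hu (extT_zero_of_k h hc)
  · by_contra hc
    push Not at hc
    exact hu (extT_zero_of_t h (w := tauA u) hs (Or.inl hc))
  · by_contra hc
    push Not at hc
    exact hu (extT_zero_of_t h (w := tauA u) hs (Or.inr hc))

theorem extA_supp (h : ExtHypA δ ε σ ν) {u : R9} (hu : extA ε ν u ≠ 0) :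
    δ * dot9 u u ≤ u.1 ⬝ᵥ u.1 ∧ u.1 ⬝ᵥ u.1 ≤ (1 - δ) * dot9 u u ∧ 1 - 8 * ε < cM u := by
  obtain ⟨h0, h1, h2, h3⟩ := extA_supp' h hu
  have hs := dot9_pos h0
  rw [le_div_iff₀ hs] at h2
  rw [div_le_iff₀ hs] at h3
  refine ⟨h2, h3, ?_⟩
  rw [kapA_tau] at h1
  unfold cM
  rw [mul_div_assoc]
  linarith

theorem tauA_neg (u : R9) : tauA (-u) = (-u.1, BBm u, dot9 u u) := by
  have h1 : (-u) = (-1 : ℝ) • u := by simp
  have h2 : BBm (-u) = BBm u := by
    ext i j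
    rw [h1, BBm_smul]; norm_num
  have h3 : dot9 (-u) (-u) = dot9 u u := by
    rw [h1, dot9_smul]; norm_num
  unfold tauA
  rw [h2, h3]
  rfl

theorem extA_neg (h : ExtHypA δ ε σ ν) (u : R9) : extA ε ν (-u) = σ * extA ε ν u := by
  by_cases hu : u = 0
  · rw [extT_zero_s hu, extT_zero_s (by simp [hu])]; simp
  have hs := dot9_pos hu
  have e1 : trA (tauA (-u)) = trA (tauA u) := by rw [tauA_neg]; rfl
  have e2 : kapA (tauA (-u)) = kapA (tauA u) := by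
    unfold kapA
    rw [e1, tauA_neg]
    simp [tauA]
  have e3 : ∀ j, etaA j (tauA (-u)) = etaA j (tauA u) := by
    intro j
    unfold etaA
    rw [e1, tauA_neg]
    rfl
  have e4 : (Real.sqrt (tauA (-u)).2.2)⁻¹ • (tauA (-u)).1
      = -((Real.sqrt (tauA u).2.2)⁻¹ • (tauA u).1) := by
    rw [tauA_neg]
    simp [tauA]
  have e5 : ∀ j, qA j (tauA (-u)) = -qA j (tauA u) := by
    intro j
    unfold qA
    rw [tauA_neg]
    simp only [tauA, map_neg, neg_dotProduct, dotProduct_neg, neg_neg, smul_neg]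
  by_cases hk : ε ≤ kapA (tauA u)
  · have hk' : ε ≤ kapA (tauA (-u)) := by rwa [e2]
    unfold extA
    rw [extT_zero_of_k h hk, extT_zero_of_k h hk', mul_zero]
  push Not at hk
  have et : (((-u).1) ⬝ᵥ ((-u).1)) / dot9 (-u) (-u) = (u.1 ⬝ᵥ u.1) / dot9 u u := by
    have h3 : dot9 (-u) (-u) = dot9 u u := congrArg (fun w : TA => w.2.2) (tauA_neg u)
    rw [h3]; simp
  have hs' : 0 < (tauA (-u)).2.2 := dot9_pos (neg_ne_zero.2 hu)
  by_cases h1 : (u.1 ⬝ᵥ u.1) / dot9 u u < δ ∨ 1 - δ < (u.1 ⬝ᵥ u.1) / dot9 u u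
  · have h1' : (((-u).1) ⬝ᵥ ((-u).1)) / dot9 (-u) (-u) < δ ∨
        1 - δ < (((-u).1) ⬝ᵥ ((-u).1)) / dot9 (-u) (-u) := by rwa [et]
    unfold extA
    rw [extT_zero_of_t h (w := tauA u) hs h1, extT_zero_of_t h (w := tauA (-u)) hs' h1', mul_zero]
  push Not at h1
  unfold extA extT
  rw [e2, e4]
  simp only [e3, e5]
  have key : ∀ j, etaA j (tauA u) * ν (-((Real.sqrt (tauA u).2.2)⁻¹ • (tauA u).1),
      -qA j (tauA u)) = σ * (etaA j (tauA u) *
        ν ((Real.sqrt (tauA u).2.2)⁻¹ • (tauA u).1, qA j (tauA u))) := by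
    intro j
    by_cases hj : (tauA u).2.1 j j / trA (tauA u) < 1 / 6
    · have : etaA j (tauA u) = 0 := by
        unfold etaA
        exact Real.smoothTransition.zero_of_nonpos (by linarith)
      rw [this]; ring
    · push Not at hj
      obtain ⟨h7, h8⟩ := mem_U6_of h hu hk.le h1.1 h1.2 (j := j) hj
      have h9 : ((-((Real.sqrt (tauA u).2.2)⁻¹ • (tauA u).1), qA j (tauA u)) : R6) ∈ U6 :=
        ⟨neg_ne_zero.2 h8.1, h8.2⟩
      have h10 := h.evq _ h9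
      have h11 := h.evp _ h8
      simp only at h10 h11
      rw [h10, h11]
      ring
  rw [Finset.sum_congr rfl fun j _ => key j, ← Finset.mul_sum]
  ring

theorem BBm_rotH (t : ℝ) (u : R9) : BBm (rotH t u) = BBm u := by
  ext i j
  have h1 : Real.cos t ^ 2 + Real.sin t ^ 2 = 1 := Real.cos_sq_add_sin_sq t
  have e1 : (rotH t u).1 ⨯₃ (rotH t u).2.1
      = Real.cos t • (u.1 ⨯₃ u.2.1) - Real.sin t • (u.1 ⨯₃ u.2.2) := by
    simp [rotH]
  have e2 : (rotH t u).1 ⨯₃ (rotH t u).2.2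
      = Real.sin t • (u.1 ⨯₃ u.2.1) + Real.cos t • (u.1 ⨯₃ u.2.2) := by
    simp [rotH]
  have e3 : (rotH t u).2.1 ⨯₃ (rotH t u).2.2 = u.2.1 ⨯₃ u.2.2 := by
    have : (rotH t u).2.1 ⨯₃ (rotH t u).2.2
        = (Real.cos t ^ 2 + Real.sin t ^ 2) • (u.2.1 ⨯₃ u.2.2) := by
      simp only [rotH]
      ext k
      simp only [Pi.smul_apply, smul_eq_mul]
      fin_cases k <;>
      · simp only [cross_apply, Matrix.cons_val_zero, Matrix.cons_val_one, Matrix.cons_val,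
          Pi.sub_apply, Pi.add_apply, Pi.smul_apply, smul_eq_mul, Fin.zero_eta, Fin.mk_one,
          Fin.reduceFinMk]
        ring
    rw [this, h1, one_smul]
  unfold BBm
  rw [e1, e2, e3]
  simp only [Pi.sub_apply, Pi.add_apply, Pi.smul_apply, smul_eq_mul]
  linear_combination ((u.1 ⨯₃ u.2.1) i * (u.1 ⨯₃ u.2.1) j
    + (u.1 ⨯₃ u.2.2) i * (u.1 ⨯₃ u.2.2) j) * h1

theorem dot9_rotH (t : ℝ) (u : R9) : dot9 (rotH t u) (rotH t u) = dot9 u u := by
  have h1 : Real.cos t ^ 2 + Real.sin t ^ 2 = 1 := Real.cos_sq_add_sin_sq t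
  simp only [dot9, rotH, dotProduct, Fin.sum_univ_three, Pi.sub_apply, Pi.add_apply,
    Pi.smul_apply, smul_eq_mul]
  linear_combination ((u.2.1 0) ^ 2 + (u.2.1 1) ^ 2 + (u.2.1 2) ^ 2
    + (u.2.2 0) ^ 2 + (u.2.2 1) ^ 2 + (u.2.2 2) ^ 2) * h1

theorem tauA_rotH (t : ℝ) (u : R9) : tauA (rotH t u) = tauA u := by
  unfold tauA
  rw [BBm_rotH, dot9_rotH]
  rfl

theorem extA_rotH (t : ℝ) (u : R9) : extA ε ν (rotH t u) = extA ε ν u := by
  unfold extA
  rw [tauA_rotH]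

/-! ### `α = 0` -/

theorem flg_C1 {u b : R9} (hf : Flg u b) :
    u.1 ⨯₃ b.1 + u.2.1 ⨯₃ b.2.1 + u.2.2 ⨯₃ b.2.2 = 0 := congrArg Prod.fst hf.br

theorem flg_C2 {u b : R9} (hf : Flg u b) : u.1 ⨯₃ b.2.1 = b.1 ⨯₃ u.2.1 :=
  sub_eq_zero.1 (congrArg (fun w : R9 => w.2.1) hf.br)

theorem flg_C3 {u b : R9} (hf : Flg u b) : u.1 ⨯₃ b.2.2 = b.1 ⨯₃ u.2.2 :=
  sub_eq_zero.1 (congrArg (fun w : R9 => w.2.2) hf.br)

/-- three-term Plücker relation -/
theorem plucker (a b x y : R3) (i j : Fin 3) :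
    -((b ⨯₃ y) i * (a ⨯₃ x) j + (a ⨯₃ x) i * (b ⨯₃ y) j)
      + ((b ⨯₃ x) i * (a ⨯₃ y) j + (a ⨯₃ y) i * (b ⨯₃ x) j)
      + ((a ⨯₃ b) i * (x ⨯₃ y) j + (x ⨯₃ y) i * (a ⨯₃ b) j) = 0 := by
  fin_cases i <;> fin_cases j <;> simp [cross_apply] <;> ring

theorem hasFDerivAt_tauA (u : R9) : HasFDerivAt tauA (fderiv ℝ tauA u) u :=
  ((cd_tauA u).differentiableAt (by simp)).hasFDerivAt

/-- the derivative of the invariants along `[h, b]` vanishes on flags -/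
theorem tauA_deriv {u b : R9} (hf : Flg u b) : fderiv ℝ tauA u (rot b) = 0 := by
  -- the curve `t ↦ u + t [h, b]`
  have hd : HasFDerivAt tauA (fderiv ℝ tauA u) (u + (0 : ℝ) • rot b) := by
    simpa using hasFDerivAt_tauA u
  have hc : HasDerivAt (fun t : ℝ => u + t • rot b) (rot b) 0 := by
    simpa using ((hasDerivAt_id (0 : ℝ)).smul_const (rot b)).const_add u
  have h1 : HasDerivAt (tauA ∘ fun t : ℝ => u + t • rot b) (fderiv ℝ tauA u (rot b)) 0 :=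
    HasFDerivAt.comp_hasDerivAt (0 : ℝ) hd hc
  have h2 : HasDerivAt (fun t : ℝ => tauA (u + t • rot b)) 0 0 := by
    have e1 : u.2.1 ⨯₃ b.2.1 + u.2.2 ⨯₃ b.2.2 = -(u.1 ⨯₃ b.1) := by
      have := flg_C1 hf
      rw [add_assoc] at this
      exact eq_neg_of_add_eq_zero_right this
    have e2 := flg_C2 hf
    have e3 := flg_C3 hf
    have cx : ∀ t : ℝ, (u + t • rot b).1 ⨯₃ (u + t • rot b).2.1
        = u.1 ⨯₃ u.2.1 - t • (b.1 ⨯₃ u.2.2) := by
      intro t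
      rw [← e3]
      simp [rot, sub_eq_add_neg]
    have cy : ∀ t : ℝ, (u + t • rot b).1 ⨯₃ (u + t • rot b).2.2
        = u.1 ⨯₃ u.2.2 + t • (b.1 ⨯₃ u.2.1) := by
      intro t
      rw [← e2]
      simp [rot]
    have cz : ∀ t : ℝ, (u + t • rot b).2.1 ⨯₃ (u + t • rot b).2.2
        = u.2.1 ⨯₃ u.2.2 - t • (u.1 ⨯₃ b.1) - t ^ 2 • (b.2.2 ⨯₃ b.2.1) := by
      intro t
      have e4 : u.1 ⨯₃ b.1 = -(u.2.1 ⨯₃ b.2.1 + u.2.2 ⨯₃ b.2.2) := by rw [e1, neg_neg]
      rw [e4]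
      simp only [rot]
      ext k
      fin_cases k <;> simp [cross_apply] <;> ring
    have g : ∀ (p q r : ℝ), HasDerivAt (fun t : ℝ => p + t * q + t ^ 2 * r) q 0 := by
      intro p q r
      have := (((hasDerivAt_id' (0 : ℝ)).mul_const q).const_add p).fun_add
        ((hasDerivAt_pow 2 (0 : ℝ)).mul_const r)
      simpa using this
    have ga : HasDerivAt (fun t : ℝ => (u + t • rot b).1) 0 0 := by
      have : (fun t : ℝ => (u + t • rot b).1) = fun _ => u.1 := by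
        ext t; simp [rot]
      rw [this]
      exact hasDerivAt_const _ _
    have gs : HasDerivAt (fun t : ℝ => dot9 (u + t • rot b) (u + t • rot b)) 0 0 := by
      have e5 : ∀ t : ℝ, dot9 (u + t • rot b) (u + t • rot b)
          = dot9 u u + t * 0 + t ^ 2 * dot9 (rot b) (rot b) := by
        intro t
        have h5 := hf.brh
        unfold brh at h5
        simp only [dot9, rot, dotProduct, Fin.sum_univ_three] at h5 ⊢
        simp
        linear_combination (-2 * t) * h5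
      have e6 : (fun t : ℝ => dot9 (u + t • rot b) (u + t • rot b))
          = fun t => dot9 u u + t * 0 + t ^ 2 * dot9 (rot b) (rot b) := funext e5
      rw [e6]
      exact g _ _ _
    have gp : ∀ (c d e : R3) (i j : Fin 3), HasDerivAt
        (fun t : ℝ => (c + t • d + t ^ 2 • e) i * (c + t • d + t ^ 2 • e) j)
        (d i * c j + c i * d j) 0 := by
      intro c d e i j
      have := (g (c i) (d i) (e i)).fun_mul (g (c j) (d j) (e j))
      simp only [Pi.add_apply, Pi.smul_apply, smul_eq_mul]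
      simpa using this
    have gb : HasDerivAt (fun t : ℝ => BBm (u + t • rot b)) 0 0 := by
      rw [hasDerivAt_pi]
      intro i
      rw [hasDerivAt_pi]
      intro j
      have e7 : (fun t : ℝ => BBm (u + t • rot b) i j) = fun t : ℝ =>
          (u.1 ⨯₃ u.2.1 + t • (-(b.1 ⨯₃ u.2.2)) + t ^ 2 • (0 : R3)) i
            * (u.1 ⨯₃ u.2.1 + t • (-(b.1 ⨯₃ u.2.2)) + t ^ 2 • (0 : R3)) j
          + (u.1 ⨯₃ u.2.2 + t • (b.1 ⨯₃ u.2.1) + t ^ 2 • (0 : R3)) i
            * (u.1 ⨯₃ u.2.2 + t • (b.1 ⨯₃ u.2.1) + t ^ 2 • (0 : R3)) j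
          - (u.2.1 ⨯₃ u.2.2 + t • (-(u.1 ⨯₃ b.1)) + t ^ 2 • (-(b.2.2 ⨯₃ b.2.1))) i
            * (u.2.1 ⨯₃ u.2.2 + t • (-(u.1 ⨯₃ b.1)) + t ^ 2 • (-(b.2.2 ⨯₃ b.2.1))) j := by
        funext t
        unfold BBm
        rw [cx, cy, cz]
        simp only [Pi.add_apply, Pi.sub_apply, Pi.smul_apply, Pi.neg_apply, Pi.zero_apply,
          smul_eq_mul]
        ring
      rw [e7]
      have h8 := ((gp (u.1 ⨯₃ u.2.1) (-(b.1 ⨯₃ u.2.2)) 0 i j).fun_add
        (gp (u.1 ⨯₃ u.2.2) (b.1 ⨯₃ u.2.1) 0 i j)).fun_sub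
        (gp (u.2.1 ⨯₃ u.2.2) (-(u.1 ⨯₃ b.1)) (-(b.2.2 ⨯₃ b.2.1)) i j)
      have h9 := plucker u.1 b.1 u.2.1 u.2.2 i j
      refine h8.congr_deriv ?_
      simp only [Pi.neg_apply, Pi.zero_apply]
      linear_combination h9
    exact ga.prodMk (gb.prodMk gs)
  exact h1.unique h2

theorem extA_al (h : ExtHypA δ ε σ ν) {u b : R9} (hf : Flg u b) : alM (extA ε ν) u b = 0 := by
  have hu : u ≠ 0 := by
    rintro rfl
    have := hf.uu
    simp [dot9] at this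
  have h1 : HasFDerivAt (extA ε ν) ((fderiv ℝ (extT ε ν) (tauA u)).comp (fderiv ℝ tauA u)) u :=
    (((extT_smooth h hu).differentiableAt (by simp)).hasFDerivAt).comp u (hasFDerivAt_tauA u)
  unfold alM
  rw [h1.fderiv, ContinuousLinearMap.comp_apply, tauA_deriv hf, map_zero]

/-! ### values at wall A -/

theorem BBm_uA (z : R6) (i j : Fin 3) : BBm (uA z) i j = (z.1 ⨯₃ z.2) i * (z.1 ⨯₃ z.2) j := by
  simp [BBm, uA]

theorem dot9_uA {z : R6} (hz : z ∈ base) : dot9 (uA z) (uA z) = 1 := by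
  have := hz.2
  simpa [dot9, uA] using this

theorem psi4_uA {z : R6} (hz : z ∈ base) : psi4 (uA z) = 0 := by
  have := hz.1
  simp [psi4, uA, this]

theorem extA_uA (h : ExtHypA δ ε σ ν) {z : R6} (hz : z ∈ base) : extA ε ν (uA z) = ν z := by
  have hs : dot9 (uA z) (uA z) = 1 := dot9_uA hz
  have hs0 : 0 < (tauA (uA z)).2.2 := by
    show 0 < dot9 (uA z) (uA z)
    rw [hs]; norm_num
  have hu : uA z ≠ 0 := by
    intro h0
    rw [h0] at hs
    simp [dot9] at hs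
  have e1 : (uA z).1 = z.1 := rfl
  by_cases h1 : z.1 ⬝ᵥ z.1 < δ ∨ 1 - δ < z.1 ⬝ᵥ z.1
  · rw [h.van z h1]
    refine extT_zero_of_t h hs0 ?_
    show (z.1 ⬝ᵥ z.1) / dot9 (uA z) (uA z) < δ ∨ 1 - δ < (z.1 ⬝ᵥ z.1) / dot9 (uA z) (uA z)
    rwa [hs, div_one]
  push Not at h1
  have hk : kapA (tauA (uA z)) = 0 := by rw [kapA_tau, psi4_uA hz]; simp
  have hk' : kapA (tauA (uA z)) ≤ ε := by rw [hk]; exact h.ε0.le
  have ht1 : δ ≤ ((uA z).1 ⬝ᵥ (uA z).1) / dot9 (uA z) (uA z) := by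
    rw [hs, div_one]; exact h1.1
  have ht2 : ((uA z).1 ⬝ᵥ (uA z).1) / dot9 (uA z) (uA z) ≤ 1 - δ := by
    rw [hs, div_one]; exact h1.2
  have hsum := sum_eta_pos h hu hk' ht1 ht2
  have hp : 0 < z.1 ⬝ᵥ z.1 := lt_of_lt_of_le h.δ0 h1.1
  have hq : 0 < z.2 ⬝ᵥ z.2 := by
    have := hz.2
    linarith [h.δ0, h1.2]
  have hzU : z ∈ U6 := ⟨ne_of_dd hp, ne_of_dd hq⟩
  have hpp : (Real.sqrt (tauA (uA z)).2.2)⁻¹ • (tauA (uA z)).1 = z.1 := by
    show (Real.sqrt (dot9 (uA z) (uA z)))⁻¹ • z.1 = z.1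
    rw [hs]; simp
  have hterm : ∀ j, etaA j (tauA (uA z)) *
      ν ((Real.sqrt (tauA (uA z)).2.2)⁻¹ • (tauA (uA z)).1, qA j (tauA (uA z)))
        = etaA j (tauA (uA z)) * ν z := by
    intro j
    by_cases hc : (z.1 ⨯₃ z.2) j = 0
    · have : etaA j (tauA (uA z)) = 0 := by
        unfold etaA
        apply Real.smoothTransition.zero_of_nonpos
        have h2 : (tauA (uA z)).2.1 j j = 0 := by
          show BBm (uA z) j j = 0
          rw [BBm_uA, hc]; simp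
        rw [h2]; simp
      rw [this]; simp
    · congr 1
      have hcol : (fun i => BBm (uA z) i j) = (z.1 ⨯₃ z.2) j • (z.1 ⨯₃ z.2) := by
        ext i
        rw [BBm_uA]
        simp [mul_comm]
      have hcr : (z.1 ⨯₃ z.2) ⨯₃ z.1 = (z.1 ⬝ᵥ z.1) • z.2 := by
        have h3 := hz.1
        ext k
        simp only [dotProduct, Fin.sum_univ_three] at h3 ⊢
        simp only [Pi.smul_apply, smul_eq_mul]
        fin_cases k
        · simp only [cross_apply, Matrix.cons_val_zero, Matrix.cons_val_one, Matrix.cons_val,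
            Fin.zero_eta]
          linear_combination (-(z.1 0)) * h3
        · simp only [cross_apply, Matrix.cons_val_zero, Matrix.cons_val_one, Matrix.cons_val,
            Fin.mk_one]
          linear_combination (-(z.1 1)) * h3
        · simp only [cross_apply, Matrix.cons_val_zero, Matrix.cons_val_one, Matrix.cons_val,
            Fin.reduceFinMk]
          linear_combination (-(z.1 2)) * h3
      have hq' : qA j (tauA (uA z)) = ((z.1 ⨯₃ z.2) j / |(z.1 ⨯₃ z.2) j|) • z.2 := by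
        unfold qA
        show (Real.sqrt (BBm (uA z) j j) * (z.1 ⬝ᵥ z.1) * Real.sqrt (dot9 (uA z) (uA z)))⁻¹ •
          ((fun i => BBm (uA z) i j) ⨯₃ z.1) = _
        rw [hcol, hs, BBm_uA, Real.sqrt_mul_self_eq_abs, LinearMap.map_smul,
          LinearMap.smul_apply, hcr, smul_smul, smul_smul]
        congr 1
        have hab : |(z.1 ⨯₃ z.2) j| ≠ 0 := abs_ne_zero.2 hc
        rw [Real.sqrt_one]
        field_simp
      rw [hpp, hq']
      rcases lt_or_gt_of_ne hc with hneg | hpos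
      · rw [abs_of_neg hneg, div_neg, div_self hc, neg_one_smul]
        exact h.evq z hzU
      · rw [abs_of_pos hpos, div_self hc, one_smul]
  unfold extA extT
  rw [hk, Finset.sum_congr rfl fun j _ => hterm j, ← Finset.sum_mul,
    Real.smoothTransition.one_of_one_le (by simp), one_mul, mul_div_assoc, mul_comm,
    div_mul_cancel₀ _ hsum.ne']

/-! ### the two final forms -/

theorem cd_dot9 (u : R9) : ContDiffAt ℝ ∞ (fun u : R9 => dot9 u u) u :=
  (cd_s (tauA u)).comp u (cd_tauA u)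

theorem dot9_deriv {u b : R9} (hf : Flg u b) : fderiv ℝ (fun u : R9 => dot9 u u) u (rot b) = 0 := by
  have h0 : HasFDerivAt (fun w : TA => w.2.2) (fderiv ℝ (fun w : TA => w.2.2) (tauA u)) (tauA u) :=
    ((cd_s (tauA u)).differentiableAt (by simp)).hasFDerivAt
  have h1 := h0.comp u (hasFDerivAt_tauA u)
  have h2 : fderiv ℝ (fun u : R9 => dot9 u u) u
      = (fderiv ℝ (fun w : TA => w.2.2) (tauA u)).comp (fderiv ℝ tauA u) := h1.fderiv
  rw [h2, ContinuousLinearMap.comp_apply, tauA_deriv hf, map_zero]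

/-- the extension of an even function as a `W`-invariant admissible function -/
theorem extA_WM (h : ExtHypA δ ε 1 ν) : WM (fun u => dot9 u u * extA ε ν u) where
  phi :=
    { smooth := fun u hu => ((cd_dot9 u).mul (extA_smoothAt h hu)).contDiffWithinAt
      hom := by
        intro r u
        show dot9 (r • u) (r • u) * extA ε ν (r • u) = r ^ 2 * (dot9 u u * extA ε ν u)
        rw [dot9_smul]
        rcases lt_trichotomy r 0 with hr | hr | hr
        · have e : r • u = (-r) • (-u) := by simp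
          rw [e, extA_smul (neg_pos.2 hr), extA_neg h, one_mul]
          ring
        · rw [hr]; simp
        · rw [extA_smul hr]; ring
      inv := by
        intro t u
        show dot9 (rotH t u) (rotH t u) * extA ε ν (rotH t u) = dot9 u u * extA ε ν u
        rw [dot9_rotH, extA_rotH] }
  al := by
    intro u b hf
    have hu : u ≠ 0 := by
      rintro rfl
      have := hf.uu
      simp [dot9] at this
    have h1 : DifferentiableAt ℝ (fun u : R9 => dot9 u u) u :=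
      (cd_dot9 u).differentiableAt (by simp)
    have h2 : DifferentiableAt ℝ (extA ε ν) u := (extA_smoothAt h hu).differentiableAt (by simp)
    have h3 := extA_al h hf
    unfold alM at h3 ⊢
    rw [fderiv_fun_mul h1 h2]
    simp [dot9_deriv hf, h3]

theorem extA_WM_uA (h : ExtHypA δ ε 1 ν) {z : R6} (hz : z ∈ base) :
    dot9 (uA z) (uA z) * extA ε ν (uA z) = ν z := by
  rw [dot9_uA hz, one_mul, extA_uA h hz]

/-- extension of an odd function: homogeneous of degree one -/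
theorem extA_odd (h : ExtHypA δ ε (-1) ν) :
    ContDiffOn ℝ ∞ (fun u => Real.sqrt (dot9 u u) * extA ε ν u) {0}ᶜ ∧
      (∀ (r : ℝ) (u : R9), Real.sqrt (dot9 (r • u) (r • u)) * extA ε ν (r • u) =
        r * (Real.sqrt (dot9 u u) * extA ε ν u)) ∧
      (∀ (t : ℝ) (u : R9), Real.sqrt (dot9 (rotH t u) (rotH t u)) * extA ε ν (rotH t u) =
        Real.sqrt (dot9 u u) * extA ε ν u) := by
  refine ⟨?_, ?_, ?_⟩
  · intro u hu
    exact (((cd_dot9 u).sqrt (dot9_pos hu).ne').mul (extA_smoothAt h hu)).contDiffWithinAt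
  · intro r u
    rw [dot9_smul, Real.sqrt_mul (sq_nonneg r), Real.sqrt_sq_eq_abs]
    rcases lt_trichotomy r 0 with hr | hr | hr
    · have e : r • u = (-r) • (-u) := by simp
      rw [e, extA_smul (neg_pos.2 hr), extA_neg h, abs_of_neg hr]
      ring
    · rw [hr]; simp
    · rw [extA_smul hr, abs_of_pos hr]; ring
  · intro t u
    rw [dot9_rotH, extA_rotH]

end GE9A

/-! ### main statements -/

variable {δ ε σ : ℝ} {ν : R6 → ℝ}

theorem extA_smooth (h : ExtHypA δ ε σ ν) : ContDiffOn ℝ ∞ (extA ε ν) {0}ᶜ :=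
  GE9A.extA_smooth h

theorem extA_smul {r : ℝ} (hr : 0 < r) (u : R9) : extA ε ν (r • u) = extA ε ν u :=
  GE9A.extA_smul hr u

theorem extA_neg (h : ExtHypA δ ε σ ν) (u : R9) : extA ε ν (-u) = σ * extA ε ν u :=
  GE9A.extA_neg h u

theorem extA_rotH (t : ℝ) (u : R9) : extA ε ν (rotH t u) = extA ε ν u :=
  GE9A.extA_rotH t u

theorem extA_al (h : ExtHypA δ ε σ ν) {u b : R9} (hf : Flg u b) : alM (extA ε ν) u b = 0 :=
  GE9A.extA_al h hf

theorem extA_uA (h : ExtHypA δ ε σ ν) {z : R6} (hz : z ∈ base) : extA ε ν (uA z) = ν z :=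
  GE9A.extA_uA h hz

theorem extA_supp (h : ExtHypA δ ε σ ν) {u : R9} (hu : extA ε ν u ≠ 0) :
    δ * dot9 u u ≤ u.1 ⬝ᵥ u.1 ∧ u.1 ⬝ᵥ u.1 ≤ (1 - δ) * dot9 u u ∧ 1 - 8 * ε < cM u :=
  GE9A.extA_supp h hu

/-- the extension of an even function as a `W`-invariant admissible function -/
theorem extA_WM (h : ExtHypA δ ε 1 ν) : WM (fun u => dot9 u u * extA ε ν u) :=
  GE9A.extA_WM h

theorem extA_WM_uA (h : ExtHypA δ ε 1 ν) {z : R6} (hz : z ∈ base) :
    dot9 (uA z) (uA z) * extA ε ν (uA z) = ν z :=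
  GE9A.extA_WM_uA h hz

/-- extension of an odd function: homogeneous of degree one -/
theorem extA_odd (h : ExtHypA δ ε (-1) ν) :
    ContDiffOn ℝ ∞ (fun u => Real.sqrt (dot9 u u) * extA ε ν u) {0}ᶜ ∧
      (∀ (r : ℝ) (u : R9), Real.sqrt (dot9 (r • u) (r • u)) * extA ε ν (r • u) =
        r * (Real.sqrt (dot9 u u) * extA ε ν u)) ∧
      (∀ (t : ℝ) (u : R9), Real.sqrt (dot9 (rotH t u) (rotH t u)) * extA ε ν (rotH t u) =
        Real.sqrt (dot9 u u) * extA ε ν u) :=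
  GE9A.extA_odd h

end Pool.Agent.FL.S2
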