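import Pool.Agent.FL.MidG
import Pool.Agent.FL.GE9A

/-!
# MP_f09395_gt, space (2): the extension property at wall A

`extP_A : ExtP 1 1 True uA`.
-/

set_option linter.unusedSectionVars false

noncomputable section

namespace Pool.Agent.FL.S2

open scoped ContDiff Matrix
open Matrix Filter Topology

namespace MidE

/-! ### continuity -/

theorem cont_dot9 : Continuous fun u : R9 => dot9 u u := by
  unfold dot9
  simp only [dotProduct]
  fun_prop

theorem cont_aa : Continuous fun u : R9 => aa u := by
  unfold aa
  simp only [dotProduct]
  fun_prop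

theorem cont_psi4 : Continuous fun u : R9 => psi4 u := by
  unfold psi4
  simp only [dotProduct, cross_apply, Fin.sum_univ_three, Matrix.cons_val_zero,
    Matrix.cons_val_one, Matrix.cons_val]
  fun_prop

theorem cont_cM {u : R9} (hu : u ≠ 0) : ContinuousAt cM u := by
  have h : dot9 u u ^ 2 ≠ 0 := pow_ne_zero 2 (GE9A.dot9_pos hu).ne'
  exact continuousAt_const.sub ((continuousAt_const.mul cont_psi4.continuousAt).div
    (cont_dot9.continuousAt.pow 2) h)

end MidE

open MidE

/-- the extension property at wall A -/
theorem extP_A : ExtP 1 1 True uA := by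
  intro d hd hd4 F hF hvan hP hQ
  have hε : 0 < d * (1 - d) / 16 := by
    have : 0 < 1 - d := by linarith
    positivity
  have hy : ExtHypA d (d * (1 - d) / 16) 1 F :=
    { δ0 := hd
      ε0 := hε
      small := by nlinarith
      smooth := hF
      van := hvan
      evq := fun z hz => hQ trivial z hz
      evp := fun z hz => by rw [one_mul]; exact hP z hz }
  refine ⟨fun u => dot9 u u * extA (d * (1 - d) / 16) F u, extA_WM hy,
    fun z hz _ => extA_WM_uA hy hz, fun u hu hc => ?_, fun u hu ha => ?_⟩
  · have h1 : cM u < 1 / 2 := by linarith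
    filter_upwards [(cont_cM hu).eventually (eventually_lt_nhds h1)] with y hy1
    by_contra hne
    have h2 : extA (d * (1 - d) / 16) F y ≠ 0 := by
      intro h3
      apply hne
      show dot9 y y * extA (d * (1 - d) / 16) F y = 0
      rw [h3, mul_zero]
    have h3 := (extA_supp hy h2).2.2
    nlinarith
  · have h1 : ∀ᶠ y in 𝓝 u, aa y < 1 * d * dot9 y y ∨ 1 * (1 - d) * dot9 y y < aa y := by
      rcases ha with ha | ha
      · have hc : ContinuousAt (fun y : R9 => 1 * d * dot9 y y - aa y) u :=
          ((continuous_const.mul cont_dot9).sub cont_aa).continuousAt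
        filter_upwards [hc.eventually (eventually_gt_nhds (sub_pos.2 ha))] with y hy1
        exact Or.inl (sub_pos.1 hy1)
      · have hc : ContinuousAt (fun y : R9 => aa y - 1 * (1 - d) * dot9 y y) u :=
          (cont_aa.sub (continuous_const.mul cont_dot9)).continuousAt
        filter_upwards [hc.eventually (eventually_gt_nhds (sub_pos.2 ha))] with y hy1
        exact Or.inr (sub_pos.1 hy1)
    filter_upwards [h1] with y hy1
    by_contra hne
    have h2 : extA (d * (1 - d) / 16) F y ≠ 0 := by
      intro h3
      apply hne
      show dot9 y y * extA (d * (1 - d) / 16) F y = 0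
      rw [h3, mul_zero]
    obtain ⟨h3, h4, -⟩ := extA_supp hy h2
    unfold aa at hy1
    rcases hy1 with h5 | h5 <;> linarith

end Pool.Agent.FL.S2
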