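import Pool.Agent.FL.MidEA
import Pool.Agent.FL.ExtB

/-!
# MP_f09395_gt, space (2): the extension property at wall B

`extP_B : ExtP (-1) (1 / 2) False uB`.
-/

set_option linter.unusedSectionVars false

noncomputable section

namespace Pool.Agent.FL.S2

open scoped ContDiff Matrix
open Matrix Filter Topology
open MidE

/-- the extension property at wall B -/
theorem extP_B : ExtP (-1) (1 / 2) False uB := by
  intro d hd hd4 F hF hvan hP _
  have hε : 0 < d ^ 2 / 16 := by positivity
  have hy : EB.ExtHypB d (d ^ 2 / 16) 1 F :=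
    { δ0 := hd
      ε0 := hε
      small := by nlinarith
      smooth := hF
      van := hvan
      evp := fun z hz => by rw [one_mul]; exact hP z hz }
  refine ⟨fun u => dot9 u u * EB.extB (d ^ 2 / 16) F u, EB.extB_WM hy,
    fun z hz hU => EB.extB_WM_uB hy hz hU, fun u hu hc => ?_, fun u hu ha => ?_⟩
  · have h1 : -(1 / 2) < cM u := by linarith
    filter_upwards [(cont_cM hu).eventually (eventually_gt_nhds h1),
      isOpen_compl_singleton.mem_nhds hu] with y hy1 hy0
    by_contra hne
    have h2 : EB.extB (d ^ 2 / 16) F y ≠ 0 := by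
      intro h3
      apply hne
      show dot9 y y * EB.extB (d ^ 2 / 16) F y = 0
      rw [h3, mul_zero]
    have h3 := (EB.extB_supp hy hy0 h2).2.2
    nlinarith
  · have h1 : ∀ᶠ y in 𝓝 u, aa y < 1 / 2 * d * dot9 y y ∨
        1 / 2 * (1 - d) * dot9 y y < aa y := by
      rcases ha with ha | ha
      · have hc : ContinuousAt (fun y : R9 => 1 / 2 * d * dot9 y y - aa y) u :=
          ((continuous_const.mul cont_dot9).sub cont_aa).continuousAt
        filter_upwards [hc.eventually (eventually_gt_nhds (sub_pos.2 ha))] with y hy1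
        exact Or.inl (sub_pos.1 hy1)
      · have hc : ContinuousAt (fun y : R9 => aa y - 1 / 2 * (1 - d) * dot9 y y) u :=
          (cont_aa.sub (continuous_const.mul cont_dot9)).continuousAt
        filter_upwards [hc.eventually (eventually_gt_nhds (sub_pos.2 ha))] with y hy1
        exact Or.inr (sub_pos.1 hy1)
    filter_upwards [h1, isOpen_compl_singleton.mem_nhds hu] with y hy1 hy0
    by_contra hne
    have h2 : EB.extB (d ^ 2 / 16) F y ≠ 0 := by
      intro h3
      apply hne
      show dot9 y y * EB.extB (d ^ 2 / 16) F y = 0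
      rw [h3, mul_zero]
    obtain ⟨h3, h4, -⟩ := EB.extB_supp hy hy0 h2
    unfold aa at hy1
    rcases hy1 with h5 | h5 <;> linarith

end Pool.Agent.FL.S2
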