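import Pool.Agent.FL.S2Glue
import Pool.Agent.FL.FTC
import Pool.Agent.FL.KinkC

/-!
# MP_f09395_gt, space (2): the middle regions of the walls, interface (definitions only, no sorry)

`WallD` = data of a wall, `ExtP` = extension property, `GenP` = generic perturbations (G1).
-/

set_option linter.unusedSectionVars false

noncomputable section

namespace Pool.Agent.FL.S2

open scoped ContDiff Matrix
open Filter Topology

/-- the perturbation family of a wall: finitely many functions of class WM, supported near the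
wall; for arbitrarily small parameters there is a function `n'` such that the third order form of
the perturbed function is positive on all wall flags with `α = 0` which have `a₂ = 0` or lie in
the end regions (the same definition as in `S2Fin`) -/
def MidW (v : R9 → ℝ) (cw δ A : ℝ) (n : R9 → ℝ) : Prop :=
  ∃ (N : ℕ) (ψ : Fin N → R9 → ℝ), (∀ i, WM (ψ i)) ∧
    (∀ i u, u ≠ 0 → cM u * cw ≤ 0 → ψ i =ᶠ[𝓝 u] 0) ∧
    ∀ ε > 0, ∃ τ : Fin N → ℝ, ‖τ‖ < ε ∧ ∃ n' : R9 → ℝ, WM n' ∧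
      ∀ k ∈ KW v cw, (a2M (fun u => v u + ∑ i, τ i * ψ i u) k.1 k.2 = 0 ∨
        aa k.1 ≤ 2 * δ ∨ A - 2 * δ ≤ aa k.1) →
        0 < TE (fun u => v u + ∑ i, τ i * ψ i u) (fun u => n u + n' u) k

/-- symmetries of the base -/
def sP (z : R6) : R6 := (-z.1, z.2)

/-- symmetries of the base -/
def sQ (z : R6) : R6 := (z.1, -z.2)

/-- the part `d ≤ |p|² ≤ 1 - d` of the base -/
def mid (d : ℝ) : Set R6 := {z | z ∈ base ∧ d ≤ z.1 ⬝ᵥ z.1 ∧ z.1 ⬝ᵥ z.1 ≤ 1 - d}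

/-- the data of a wall: `cM = cw` on it, `|a|² = A |p|²`, `κ` = factor of the `E`-transfer,
`ev` = `True` at wall A (where `q` and `-q` have to be identified), `False` at wall B -/
structure WallD (cw A κ : ℝ) (ev : Prop) (uW b1 b2 : R6 → R9) (om : (R9 → ℝ) → R6 → ℝ) :
    Prop where
  κpos : 0 < κ
  Apos : 0 < A
  us : ContDiffOn ℝ ∞ uW U6
  b1s : ContDiffOn ℝ ∞ b1 U6
  b2s : ContDiffOn ℝ ∞ b2 U6
  une : ∀ z ∈ U6, uW z ≠ 0
  c : ∀ z ∈ base, z ∈ U6 → cM (uW z) = cw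
  a : ∀ z ∈ base, z ∈ U6 → aa (uW z) = A * (z.1 ⬝ᵥ z.1)
  flg : ∀ z ∈ base, z ∈ U6 → ∀ r s : ℝ, r ^ 2 + s ^ 2 = 1 → Flg (uW z) (r • b1 z + s • b2 z)
  surj : ∀ u b : R9, Flg u b → cM u = cw → 0 < aa u → aa u < A →
    ∃ z : R6, z ∈ base ∧ z ∈ U6 ∧ ∃ t r s : ℝ, r ^ 2 + s ^ 2 = 1 ∧ u = rotH t (uW z) ∧
      b = rotH t (r • b1 z + s • b2 z)
  link : ∀ (v f : R9 → ℝ) (z : R6), PhiM v → DifferentiableAt ℝ f (uW z) →
    (∀ (t : ℝ) (u : R9), f (rotH t u) = f u) → ∀ F : R6 → ℝ, DifferentiableAt ℝ F z →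
    z ∈ base → z ∈ U6 → (∀ᶠ w in 𝓝 z, w ∈ base → f (uW w) = F w) →
    ED v f (uW z) = κ * XD (fun w => v (uW w)) F z
  a2 : ∀ (v : R9 → ℝ) (z : R6), PhiM v → z ∈ base → z ∈ U6 → ∀ r s : ℝ, r ^ 2 + s ^ 2 = 1 →
    alM v (uW z) (r • b1 z + s • b2 z) = 0 →
    a2M v (uW z) (r • b1 z + s • b2 z) =
      r * (κ * XD (fun w => v (uW w)) (fun w => alM v (uW w) (b1 w)) z
        + om v z * alM v (uW z) (b2 z)) +
      s * (κ * XD (fun w => v (uW w)) (fun w => alM v (uW w) (b2 w)) z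
        - om v z * alM v (uW z) (b1 z))
  oms : ∀ v : R9 → ℝ, PhiM v → ContDiffOn ℝ ∞ (om v) U6
  parP : ∃ η : ℝ, η ^ 2 = 1 ∧ ∀ v : R9 → ℝ, PhiM v → ∀ z ∈ U6, v (uW (sP z)) = v (uW z) ∧
    alM v (uW (sP z)) (b1 (sP z)) = η * alM v (uW z) (b1 z) ∧
    alM v (uW (sP z)) (b2 (sP z)) = η * alM v (uW z) (b2 z) ∧ om v (sP z) = - om v z
  parQ : ev → ∃ η : ℝ, η ^ 2 = 1 ∧ ∀ v : R9 → ℝ, PhiM v → ∀ z ∈ U6, v (uW (sQ z)) = v (uW z) ∧
    alM v (uW (sQ z)) (b1 (sQ z)) = η * alM v (uW z) (b1 z) ∧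
    alM v (uW (sQ z)) (b2 (sQ z)) = η * alM v (uW z) (b2 z) ∧ om v (sQ z) = om v z

/-- functions on the base with the right parity which vanish near the ends extend to functions of
class WM, with support near the wall and away from the ends -/
def ExtP (cw A : ℝ) (ev : Prop) (uW : R6 → R9) : Prop :=
  ∀ d : ℝ, 0 < d → d < 1 / 4 → ∀ F : R6 → ℝ, ContDiffOn ℝ ∞ F U6 →
    (∀ z : R6, (z.1 ⬝ᵥ z.1 < d ∨ 1 - d < z.1 ⬝ᵥ z.1) → F z = 0) →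
    (∀ z ∈ U6, F (sP z) = F z) → (ev → ∀ z ∈ U6, F (sQ z) = F z) →
    ∃ f : R9 → ℝ, WM f ∧ (∀ z ∈ base, z ∈ U6 → f (uW z) = F z) ∧
      (∀ u : R9, u ≠ 0 → cM u * cw ≤ 0 → f =ᶠ[𝓝 u] 0) ∧
      ∀ u : R9, u ≠ 0 → (aa u < A * d * dot9 u u ∨ A * (1 - d) * dot9 u u < aa u) →
        f =ᶠ[𝓝 u] 0

/-- the finite type conditions of `v` at a wall, on the middle part of the base -/
def FTW (κ : ℝ) (uW b1 b2 : R6 → R9) (om : (R9 → ℝ) → R6 → ℝ) (v : R9 → ℝ) (d : ℝ) (J : ℕ) :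
    Prop :=
  FT123 κ (mid d) J (fun w => v (uW w)) (fun w => alM v (uW w) (b1 w))
    (fun w => alM v (uW w) (b2 w)) (om v)

/-- (G1) generic perturbations of `v₀` at a wall -/
def GenP (cw κ : ℝ) (uW b1 b2 : R6 → R9) (om : (R9 → ℝ) → R6 → ℝ) (v₀ : R9 → ℝ) : Prop :=
  ∀ d : ℝ, 0 < d → d < 1 / 4 → ∃ (N : ℕ) (ψ : Fin N → R9 → ℝ) (J : ℕ), (∀ i, WM (ψ i)) ∧
    (∀ i u, u ≠ 0 → cM u * cw ≤ 0 → ψ i =ᶠ[𝓝 u] 0) ∧
    ∀ ε > 0, ∃ τ : Fin N → ℝ, ‖τ‖ < ε ∧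
      FTW κ uW b1 b2 om (fun u => v₀ u + ∑ i, τ i * ψ i u) d J

end Pool.Agent.FL.S2
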