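import Pool.Agent.FL.FTA2
import Pool.Agent.FL.MidG

/-!
# MP_f09395_gt, space (2): generic perturbations at wall A
-/

noncomputable section

namespace Pool.Agent.FL.S2

open scoped ContDiff Matrix
open Filter Topology

namespace FTA

theorem mid_compact (d : ℝ) : IsCompact (mid d) :=
  FT0.base_compact.inter_right ((isClosed_le continuous_const (FT0.dot_cont continuous_fst
    continuous_fst)).inter (isClosed_le (FT0.dot_cont continuous_fst continuous_fst)
    continuous_const))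

theorem mid_base (d : ℝ) : mid d ⊆ base := fun _ hz => hz.1

theorem mid_U6 {d : ℝ} (hd : 0 < d) : mid d ⊆ U6 := by
  rintro z ⟨⟨-, h0⟩, h1, h2⟩
  constructor
  · intro h
    rw [h, dotProduct_zero] at h1
    linarith
  · intro h
    rw [h, dotProduct_zero] at h0
    linarith

theorem al1A_v0' (p : Par) (hS : p.Sᵀ = p.S) {z : R6} (hz : z ∈ base) :
    alM (v0 p) (uA z) (b1A z) = -(p.ν ⬝ᵥ (z.1 ⨯₃ z.2)) := by
  rw [GE5_al_v0 p hS (flgA1 hz)]
  simp [uA, b1A]

end FTA

/-- **(G1) at wall A** -/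
theorem genP_A {p : Par} (hp : ParOK p) : GenP 1 1 uA b1A b2A omA (v0 p) := by
  intro d hd _
  obtain ⟨n, ψ, h1, h2, h3⟩ := FTA.ftA_core (J := 7) (GE5_v0 p) hp.ν
    (fun z hz _ => FTA.al1A_v0' p hp.S hz) (FTA.mid_compact d) (FTA.mid_base d) (FTA.mid_U6 hd) (by norm_num)
  exact ⟨n, ψ, 7, h1, h2, h3⟩

end Pool.Agent.FL.S2
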