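import Pool.Agent.FL.MidG
import Pool.Agent.FL.FTB

/-!
# MP_f09395_gt, space (2): generic perturbations at wall B (`genP_B`)
-/

set_option linter.unusedSectionVars false

noncomputable section

namespace Pool.Agent.FL.S2

open scoped ContDiff Matrix
open Matrix Filter Topology

namespace GB

theorem cross_expand (p q g : R3) :
    ((q ⨯₃ p) ⬝ᵥ (q ⨯₃ p)) • g = (g ⬝ᵥ (q ⨯₃ p)) • (q ⨯₃ p) +
      (g ⬝ᵥ p) • ((q ⬝ᵥ q) • p - (p ⬝ᵥ q) • q) - (g ⬝ᵥ q) • ((p ⬝ᵥ q) • p - (p ⬝ᵥ p) • q) := by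
  ext i
  simp only [Pi.add_apply, Pi.sub_apply, Pi.smul_apply, smul_eq_mul]
  fin_cases i <;>
    simp [cross_apply, dotProduct, Fin.sum_univ_three] <;> ring

theorem cross_expand' {p q g : R3} (h0 : p ⬝ᵥ q = 0) (hg : g ⬝ᵥ q = 0) :
    ((q ⨯₃ p) ⬝ᵥ (q ⨯₃ p)) • g = (g ⬝ᵥ (q ⨯₃ p)) • (q ⨯₃ p) +
      ((q ⬝ᵥ q) * (g ⬝ᵥ p)) • p := by
  rw [cross_expand, h0, hg, zero_smul, sub_zero, zero_smul, sub_zero, smul_smul, mul_comm]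

theorem quad_symm {S : Matrix (Fin 3) (Fin 3) ℝ} (hS : Sᵀ = S) (f g : R3) :
    f ⬝ᵥ S *ᵥ g = g ⬝ᵥ S *ᵥ f := by
  rw [Matrix.dotProduct_mulVec, ← Matrix.mulVec_transpose, hS, dotProduct_comm]

/-- an orthogonal basis of `q^⊥` on which `S` is a multiple of the identity -/
theorem umb_of {S : Matrix (Fin 3) (Fin 3) ℝ} (hS : Sᵀ = S) {p q : R3} (hp : p ≠ 0)
    (hq : q ≠ 0) (h0 : p ⬝ᵥ q = 0) (h1 : p ⬝ᵥ S *ᵥ (q ⨯₃ p) = 0)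
    (h2 : (q ⨯₃ p) ⬝ᵥ S *ᵥ (q ⨯₃ p) = (q ⬝ᵥ q) * (p ⬝ᵥ S *ᵥ p)) : Umb2 S q := by
  have h1' : (q ⨯₃ p) ⬝ᵥ S *ᵥ p = 0 := by rw [quad_symm hS]; exact h1
  have hm : (q ⨯₃ p) ⬝ᵥ (q ⨯₃ p) = (q ⬝ᵥ q) * (p ⬝ᵥ p) := by
    rw [cross_dot_cross, dotProduct_comm q p, h0, zero_mul, sub_zero]
  have hm0 : (q ⨯₃ p) ⬝ᵥ (q ⨯₃ p) ≠ 0 := by
    rw [hm]
    exact mul_ne_zero (EB.dot_pos hq).ne' (EB.dot_pos hp).ne'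
  refine ⟨(q ⬝ᵥ q) * (p ⬝ᵥ S *ᵥ p) / ((q ⨯₃ p) ⬝ᵥ (q ⨯₃ p)), fun g h hg hh => ?_⟩
  generalize hmm : q ⨯₃ p = m at *
  have eg := hmm ▸ cross_expand' h0 hg
  have eh := hmm ▸ cross_expand' h0 hh
  have k1 : ((m ⬝ᵥ m) • g) ⬝ᵥ S *ᵥ ((m ⬝ᵥ m) • h) =
      ((g ⬝ᵥ m) • m + ((q ⬝ᵥ q) * (g ⬝ᵥ p)) • p) ⬝ᵥ
        S *ᵥ ((h ⬝ᵥ m) • m + ((q ⬝ᵥ q) * (h ⬝ᵥ p)) • p) := by
    rw [← eg, ← eh]
  have k2 : ((m ⬝ᵥ m) • g) ⬝ᵥ h = ((g ⬝ᵥ m) • m + ((q ⬝ᵥ q) * (g ⬝ᵥ p)) • p) ⬝ᵥ h := by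
    rw [← eg]
  simp only [Matrix.mulVec_smul, Matrix.mulVec_add, smul_dotProduct, dotProduct_smul,
    add_dotProduct, dotProduct_add, smul_eq_mul, h1, h1', h2] at k1 k2
  rw [dotProduct_comm m h, dotProduct_comm p h] at k2
  rw [div_mul_eq_mul_div, eq_div_iff hm0]
  apply mul_left_cancel₀ hm0
  linear_combination k1 - (q ⬝ᵥ q) * (p ⬝ᵥ S *ᵥ p) * k2

theorem q0c {p : Par} (hp : ParOK p) : EB.Q0c p.S p.ν := fun _ q ha hq h0 h1 h2 =>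
  hp.q0 q hq (umb_of hp.S ha hq h0 h1 h2)

theorem hs2 : (Real.sqrt 2)⁻¹ * (Real.sqrt 2)⁻¹ = 1 / 2 := by
  rw [← mul_inv, Real.mul_self_sqrt (by norm_num)]
  norm_num

theorem al1 {p : Par} (hp : ParOK p) {z : R6} (hz : z ∈ base) (hU : z ∈ U6) :
    alM (v0 p) (uB z) (b1B z) = EB.a1B p.S z := by
  have hn := EB.n3_pos hU.1
  have hn2 : n3 z.1 ^ 2 = z.1 ⬝ᵥ z.1 := EB.n3_sq z.1
  have hs := hs2
  have hsy := quad_symm hp.S (z.2 ⨯₃ z.1) z.1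
  rw [GE5_al_v0 p hp.S (FTB.Flg_b1B hz hU)]
  unfold uB b1B EB.a1B
  simp only [Prod.smul_mk, Matrix.mulVec_smul, Matrix.mulVec_neg, smul_dotProduct,
    dotProduct_smul, dotProduct_neg, smul_eq_mul, LinearMap.map_smul, LinearMap.map_neg,
    LinearMap.smul_apply, cross_self, smul_zero, neg_zero, dotProduct_zero, smul_neg]
  rw [hsy, ← hn2]
  generalize (Real.sqrt 2)⁻¹ = s at hs ⊢
  generalize z.1 ⬝ᵥ p.S *ᵥ (z.2 ⨯₃ z.1) = a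
  field_simp
  linear_combination (2 * a) * hs

theorem al2 {p : Par} (hp : ParOK p) {z : R6} (hz : z ∈ base) (hU : z ∈ U6) :
    alM (v0 p) (uB z) (b2B z) = EB.a2B p.S p.ν z := by
  have hn := EB.n3_pos hU.1
  have hm := EB.n3_pos hU.2
  have hn2 : n3 z.1 ^ 2 = z.1 ⬝ᵥ z.1 := EB.n3_sq z.1
  have hm2 : n3 z.2 ^ 2 = z.2 ⬝ᵥ z.2 := EB.n3_sq z.2
  have hs := hs2
  have hc : z.1 ⨯₃ (z.2 ⨯₃ z.1) = (z.1 ⬝ᵥ z.1) • z.2 := by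
    have h3 : z.1 ⨯₃ (z.2 ⨯₃ z.1) = (z.1 ⬝ᵥ z.1) • z.2 - (z.1 ⬝ᵥ z.2) • z.1 := by
      ext i
      fin_cases i <;>
        simp [cross_apply, dotProduct, Fin.sum_univ_three] <;> ring
    rw [h3, hz.1, zero_smul, sub_zero]
  rw [GE5_al_v0 p hp.S (FTB.Flg_b2B hz hU)]
  unfold uB b2B EB.a2B
  simp only [Prod.smul_mk, Matrix.mulVec_smul, smul_dotProduct,
    dotProduct_smul, dotProduct_neg, smul_eq_mul, LinearMap.map_smul, LinearMap.map_neg,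
    LinearMap.smul_apply, hc, smul_neg]
  rw [← hn2, ← hm2]
  generalize (Real.sqrt 2)⁻¹ = s at hs ⊢
  generalize (z.2 ⨯₃ z.1) ⬝ᵥ p.S *ᵥ (z.2 ⨯₃ z.1) = a
  generalize z.1 ⬝ᵥ p.S *ᵥ z.1 = b
  generalize p.ν ⬝ᵥ z.2 = c
  field_simp
  linear_combination (2 * (a - n3 z.2 ^ 2 * b + n3 z.1 ^ 4 * c)) * hs

end GB

/-- **(G1) at wall B** -/
theorem genP_B {p : Par} (hp : ParOK p) :
    GenP (-1) (Real.sqrt 2) uB b1B b2B omB (v0 p) := by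
  intro d hd hd4
  obtain ⟨n, ψ, h1, h2, h3⟩ := FTB.ftB_core (GE5_v0 p) (GB.q0c hp)
    (fun z hz hU => GB.al1 hp hz hU) (fun z hz hU => GB.al2 hp hz hU) hd (by linarith)
  exact ⟨n, ψ, 7, h1, h2, h3⟩

end Pool.Agent.FL.S2
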