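import Pool.Agent.FL.FT0

/-!
# MP_f09395_gt, space (2): parity of the Hamiltonian calculus on `R6 = {(p, q)}`

`sA1 (p, q) = (-p, q)` changes the sign of `XD`, `sA2 (p, q) = (p, -q)` keeps it.
-/

set_option linter.unusedSectionVars false

noncomputable section

namespace Pool.Agent.FL.S2

open scoped ContDiff Matrix
open Matrix Filter Topology
open Pool.Agent.helper90.FL
open FT0

/-- `(p, q) ↦ (-p, q)` -/
def sA1 : R6 ≃L[ℝ] R6 := (ContinuousLinearEquiv.neg ℝ).prodCongr (ContinuousLinearEquiv.refl ℝ R3)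

/-- `(p, q) ↦ (p, -q)` -/
def sA2 : R6 ≃L[ℝ] R6 := (ContinuousLinearEquiv.refl ℝ R3).prodCongr (ContinuousLinearEquiv.neg ℝ)

theorem sA1_apply (z : R6) : sA1 z = (-z.1, z.2) := rfl

theorem sA2_apply (z : R6) : sA2 z = (z.1, -z.2) := rfl

/-- a symmetry of the base with the sign `e` -/
structure Sym6 (s : R6 ≃L[ℝ] R6) (e : ℝ) : Prop where
  ee : e * e = 1
  inv : ∀ z, s (s z) = z
  XBs : ∀ (V : R6 → ℝ) (z : R6), XB V (s z) = e • s (XB (V ∘ s) z)
  base : ∀ z, s z ∈ base ↔ z ∈ base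
  U6 : ∀ z, s z ∈ U6 ↔ z ∈ U6
  p2 : ∀ z : R6, (s z).1 ⬝ᵥ (s z).1 = z.1 ⬝ᵥ z.1
  q2 : ∀ z : R6, (s z).2 ⬝ᵥ (s z).2 = z.2 ⬝ᵥ z.2

theorem gp_comp (s : R6 ≃L[ℝ] R6) (V : R6 → ℝ) (z : R6) :
    fderiv ℝ (V ∘ s) z = (fderiv ℝ V (s z)).comp (s : R6 →L[ℝ] R6) :=
  s.comp_right_fderiv

theorem cross_neg_left (a b : R3) : (-a) ⨯₃ b = -(a ⨯₃ b) := by
  rw [map_neg, LinearMap.neg_apply]

theorem cross_neg_right (a b : R3) : a ⨯₃ (-b) = -(a ⨯₃ b) := map_neg _ _

theorem sym6_sA1 : Sym6 sA1 (-1) where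
  ee := by norm_num
  inv z := by simp [sA1_apply]
  XBs V z := by
    have h1 : gp (V ∘ sA1) z = -gp V (sA1 z) := by
      funext i
      show fderiv ℝ (V ∘ sA1) z (Pi.single i 1, 0) = -(fderiv ℝ V (sA1 z) (Pi.single i 1, 0))
      rw [gp_comp, ContinuousLinearMap.comp_apply, ← map_neg]
      congr 1
      show sA1 (Pi.single i 1, 0) = _
      rw [sA1_apply]
      ext j <;> simp
    have h2 : gq (V ∘ sA1) z = gq V (sA1 z) := by
      funext i
      show fderiv ℝ (V ∘ sA1) z (0, Pi.single i 1) = fderiv ℝ V (sA1 z) (0, Pi.single i 1)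
      rw [gp_comp, ContinuousLinearMap.comp_apply]
      congr 1
      show sA1 (0, Pi.single i 1) = _
      rw [sA1_apply]
      ext j <;> simp
    rw [XB, XB, h1, h2, sA1_apply, sA1_apply]
    simp only [cross_neg_left, cross_neg_right]
    ext j <;> simp <;> ring
  base z := by
    rw [sA1_apply]
    simp [Pool.Agent.FL.S2.base]
  U6 z := by
    rw [sA1_apply]
    simp [Pool.Agent.FL.S2.U6]
  p2 z := by rw [sA1_apply]; simp
  q2 z := by rw [sA1_apply]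

theorem sym6_sA2 : Sym6 sA2 1 where
  ee := by norm_num
  inv z := by simp [sA2_apply]
  XBs V z := by
    have h1 : gp (V ∘ sA2) z = gp V (sA2 z) := by
      funext i
      show fderiv ℝ (V ∘ sA2) z (Pi.single i 1, 0) = fderiv ℝ V (sA2 z) (Pi.single i 1, 0)
      rw [gp_comp, ContinuousLinearMap.comp_apply]
      congr 1
      show sA2 (Pi.single i 1, 0) = _
      rw [sA2_apply]
      ext j <;> simp
    have h2 : gq (V ∘ sA2) z = -gq V (sA2 z) := by
      funext i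
      show fderiv ℝ (V ∘ sA2) z (0, Pi.single i 1) = -(fderiv ℝ V (sA2 z) (0, Pi.single i 1))
      rw [gp_comp, ContinuousLinearMap.comp_apply, ← map_neg]
      congr 1
      show sA2 (0, Pi.single i 1) = _
      rw [sA2_apply]
      ext j <;> simp
    rw [XB, XB, h1, h2, sA2_apply, sA2_apply]
    simp only [cross_neg_left, cross_neg_right]
    ext j <;> simp <;> ring
  base z := by
    rw [sA2_apply]
    simp [Pool.Agent.FL.S2.base]
  U6 z := by
    rw [sA2_apply]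
    simp [Pool.Agent.FL.S2.U6]
  p2 z := by rw [sA2_apply]
  q2 z := by rw [sA2_apply]; simp

section

variable {s : R6 ≃L[ℝ] R6} {e : ℝ}

/-- parity of the Hamiltonian field -/
theorem XB_par (hs : Sym6 s e) {V : R6 → ℝ} {z : R6} (hV : ∀ᶠ y in 𝓝 z, V (s y) = V y) :
    XB V (s z) = e • s (XB V z) := by
  have h1 : V ∘ s =ᶠ[𝓝 z] V := by
    filter_upwards [hV] with y hy using hy
  rw [hs.XBs]
  congr 2
  rw [XB_eq, XB_eq, h1.fderiv_eq]

/-- parity of the derivative along the Hamiltonian field -/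
theorem XD_par (hs : Sym6 s e) {V F : R6 → ℝ} {z : R6} {η : ℝ}
    (hV : ∀ᶠ y in 𝓝 z, V (s y) = V y) (hF : ∀ᶠ y in 𝓝 z, F (s y) = η * F y)
    (hFd : DifferentiableAt ℝ F z) :
    XD V F (s z) = e * η * XD V F z := by
  have h1 : F ∘ s =ᶠ[𝓝 z] fun y => η * F y := by
    filter_upwards [hF] with y hy using hy
  have h2 : fderiv ℝ F (s z) (s (XB V z)) = fderiv ℝ (F ∘ s) z (XB V z) := by
    rw [gp_comp]; rfl
  rw [XD, XB_par hs hV, map_smul, h2, h1.fderiv_eq, fderiv_const_mul hFd, XD]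
  simp only [smul_eq_mul, _root_.smul_apply]
  ring

/-- parity of the iterated derivatives along `XB V` -/
theorem itd_par (hs : Sym6 s e) {O : Set R6} (hO : IsOpen O) {V F : R6 → ℝ} {η : ℝ}
    (hVs : ContDiffOn ℝ ∞ V O) (hFs : ContDiffOn ℝ ∞ F O)
    (hV : ∀ z ∈ O, V (s z) = V z) (hF : ∀ z ∈ O, F (s z) = η * F z) (j : ℕ) :
    ∀ z ∈ O, itd (XB V) F j (s z) = e ^ j * η * itd (XB V) F j z := by
  induction j with
  | zero => intro z hz; simp only [itd, pow_zero, one_mul]; exact hF z hz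
  | succ j ih =>
    intro z hz
    have h1 := XD_par hs (V := V) (F := itd (XB V) F j) (z := z) (η := e ^ j * η)
      (by filter_upwards [hO.mem_nhds hz] with y hy using hV y hy)
      (by filter_upwards [hO.mem_nhds hz] with y hy using ih y hy)
      (dif_at hO (itd_smooth hO (XB_smooth hO hVs) hFs j) hz)
    show XD V (itd (XB V) F j) (s z) = e ^ (j + 1) * η * XD V (itd (XB V) F j) z
    rw [h1]; ring

/-- the squares of the iterated derivatives are even -/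
theorem itd_par_sq (hs : Sym6 s e) {O : Set R6} (hO : IsOpen O) {V F : R6 → ℝ} {η : ℝ}
    (hη : η * η = 1) (hVs : ContDiffOn ℝ ∞ V O) (hFs : ContDiffOn ℝ ∞ F O)
    (hV : ∀ z ∈ O, V (s z) = V z) (hF : ∀ z ∈ O, F (s z) = η * F z) (j : ℕ) :
    ∀ z ∈ O, itd (XB V) F j (s z) ^ 2 = itd (XB V) F j z ^ 2 := by
  intro z hz
  have h1 : (e ^ j) * (e ^ j) = 1 := by rw [← mul_pow, hs.ee, one_pow]
  rw [itd_par hs hO hVs hFs hV hF j z hz]
  linear_combination (itd (XB V) F j z ^ 2) * (η * η) * h1 + (itd (XB V) F j z ^ 2) * hη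

/-- the same for the field `κ • XB V` -/
theorem itd_par_smul (hs : Sym6 s e) {O : Set R6} (hO : IsOpen O)
    {V F : R6 → ℝ} {η : ℝ} (κ : ℝ)
    (hVs : ContDiffOn ℝ ∞ V O) (hFs : ContDiffOn ℝ ∞ F O)
    (hV : ∀ z ∈ O, V (s z) = V z) (hF : ∀ z ∈ O, F (s z) = η * F z) (j : ℕ) :
    ∀ z ∈ O, itd (fun y => κ • XB V y) F j (s z) =
      e ^ j * η * itd (fun y => κ • XB V y) F j z := by
  have hXs : ContDiffOn ℝ ∞ (fun y => κ • XB V y) O := (XB_smooth hO hVs).const_smul κ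
  induction j with
  | zero => intro z hz; simp only [itd, pow_zero, one_mul]; exact hF z hz
  | succ j ih =>
    intro z hz
    have h1 := XD_par hs (V := V) (F := itd (fun y => κ • XB V y) F j) (z := z)
      (η := e ^ j * η)
      (by filter_upwards [hO.mem_nhds hz] with y hy using hV y hy)
      (by filter_upwards [hO.mem_nhds hz] with y hy using ih y hy)
      (dif_at hO (itd_smooth hO hXs hFs j) hz)
    have h2 : ∀ y, itd (fun y => κ • XB V y) F (j + 1) y =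
        κ * XD V (itd (fun y => κ • XB V y) F j) y := by
      intro y
      show fderiv ℝ (itd (fun y => κ • XB V y) F j) y (κ • XB V y) = _
      rw [map_smul, smul_eq_mul, XD]
    rw [h2, h2, h1]; ring

/-- the squares of the iterated derivatives along `κ • XB V` are even -/
theorem itd_par_smul_sq (hs : Sym6 s e) {O : Set R6} (hO : IsOpen O) {V F : R6 → ℝ} {η : ℝ}
    (κ : ℝ) (hη : η * η = 1) (hVs : ContDiffOn ℝ ∞ V O) (hFs : ContDiffOn ℝ ∞ F O)
    (hV : ∀ z ∈ O, V (s z) = V z) (hF : ∀ z ∈ O, F (s z) = η * F z) (j : ℕ) :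
    ∀ z ∈ O, itd (fun y => κ • XB V y) F j (s z) ^ 2 = itd (fun y => κ • XB V y) F j z ^ 2 := by
  intro z hz
  have h1 : (e ^ j) * (e ^ j) = 1 := by rw [← mul_pow, hs.ee, one_pow]
  rw [itd_par_smul hs hO κ hVs hFs hV hF j z hz]
  linear_combination (itd (fun y => κ • XB V y) F j z ^ 2) * (η * η) * h1 +
    (itd (fun y => κ • XB V y) F j z ^ 2) * hη

/-- parity of `Δ` -/
theorem DelB_par (hs : Sym6 s e) {O : Set R6} (hO : IsOpen O) {V α₁ α₂ om : R6 → ℝ} {η : ℝ}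
    (κ : ℝ) (hη : η * η = 1) (h1s : ContDiffOn ℝ ∞ α₁ O)
    (h2s : ContDiffOn ℝ ∞ α₂ O) (hV : ∀ z ∈ O, V (s z) = V z)
    (h1 : ∀ z ∈ O, α₁ (s z) = η * α₁ z) (h2 : ∀ z ∈ O, α₂ (s z) = η * α₂ z)
    (hom : ∀ z ∈ O, om (s z) = e * om z) :
    ∀ z ∈ O, DelB κ V α₁ α₂ om (s z) = e * DelB κ V α₁ α₂ om z := by
  intro z hz
  have k0 : ∀ᶠ y in 𝓝 z, V (s y) = V y := by
    filter_upwards [hO.mem_nhds hz] with y hy using hV y hy
  have k1 := XD_par hs (F := α₁) k0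
    (by filter_upwards [hO.mem_nhds hz] with y hy using h1 y hy) (dif_at hO h1s hz)
  have k2 := XD_par hs (F := α₂) k0
    (by filter_upwards [hO.mem_nhds hz] with y hy using h2 y hy) (dif_at hO h2s hz)
  rw [DelB, DelB, k1, k2, h1 z hz, h2 z hz, hom z hz]
  linear_combination (e * κ * (α₁ z * XD V α₂ z - α₂ z * XD V α₁ z) -
    e * om z * (α₁ z ^ 2 + α₂ z ^ 2)) * hη

end

/-! ### symmetries of invariant functions on `R9` -/

/-- `(a, x, y) ↦ (-a, x, y)` -/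
def sR : R9 ≃L[ℝ] R9 := (ContinuousLinearEquiv.neg ℝ).prodCongr (ContinuousLinearEquiv.refl ℝ (R3 × R3))

/-- `(a, x, y) ↦ (a, -x, -y)` -/
def sH : R9 ≃L[ℝ] R9 := (ContinuousLinearEquiv.refl ℝ R3).prodCongr (ContinuousLinearEquiv.neg ℝ)

theorem sR_apply (u : R9) : sR u = (-u.1, u.2.1, u.2.2) := rfl

theorem sH_apply (u : R9) : sH u = (u.1, -u.2.1, -u.2.2) := rfl

theorem rotH_pi (u : R9) : rotH Real.pi u = sH u := by
  rw [rotH, sH_apply]
  simp

theorem phiM_sH {f : R9 → ℝ} (hf : PhiM f) (u : R9) : f (sH u) = f u := by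
  rw [← rotH_pi]; exact hf.inv _ _

theorem phiM_neg {f : R9 → ℝ} (hf : PhiM f) (u : R9) : f (-u) = f u := by
  have h := hf.hom (-1) u
  rw [neg_one_smul] at h
  rw [h]; ring

theorem phiM_sR {f : R9 → ℝ} (hf : PhiM f) (u : R9) : f (sR u) = f u := by
  have h : sR u = -(sH u) := by
    rw [sR_apply, sH_apply]
    ext j <;> simp
  rw [h, phiM_neg hf, phiM_sH hf]

theorem fd_equiv {f : R9 → ℝ} (s : R9 ≃L[ℝ] R9) (hf : ∀ u, f (s u) = f u) (u w : R9) :
    fderiv ℝ f (s u) (s w) = fderiv ℝ f u w := by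
  have h1 : f ∘ s = f := funext hf
  have h2 : fderiv ℝ (f ∘ s) u = (fderiv ℝ f (s u)).comp (s : R9 →L[ℝ] R9) := s.comp_right_fderiv
  rw [h1] at h2
  rw [h2]; rfl

theorem rot_sR (b : R9) : rot (sR b) = sR (rot b) := by
  rw [rot, sR_apply, rot, sR_apply]; simp

theorem rot_sH (b : R9) : rot (sH b) = sH (rot b) := by
  rw [rot, sH_apply, rot, sH_apply]

theorem rot_neg (b : R9) : rot (-b) = -rot b := by
  rw [rot, rot]; ext j <;> simp

theorem alM_sR {f : R9 → ℝ} (hf : PhiM f) (u b : R9) : alM f (sR u) (sR b) = alM f u b := by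
  rw [alM, alM, rot_sR, fd_equiv sR (phiM_sR hf)]

theorem alM_sH {f : R9 → ℝ} (hf : PhiM f) (u b : R9) : alM f (sH u) (sH b) = alM f u b := by
  rw [alM, alM, rot_sH, fd_equiv sH (phiM_sH hf)]

theorem alM_neg_right (f : R9 → ℝ) (u b : R9) : alM f u (-b) = -alM f u b := by
  rw [alM, alM, rot_neg, map_neg]

/-! ### parities at wall A -/

theorem n3_neg (p : R3) : n3 (-p) = n3 p := by
  rw [n3, n3]; simp

theorem uA_sA1 (z : R6) : uA (sA1 z) = sR (uA z) := by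
  rw [uA, sA1_apply, uA, sR_apply]

theorem uA_sA2 (z : R6) : uA (sA2 z) = sH (uA z) := by
  rw [uA, sA2_apply, uA, sH_apply]; simp

theorem b1A_sA1 (z : R6) : b1A (sA1 z) = -sR (b1A z) := by
  rw [b1A, sA1_apply, b1A, sR_apply]; ext j <;> simp

theorem b2A_sA1 (z : R6) : b2A (sA1 z) = -sR (b2A z) := by
  rw [b2A, sA1_apply, b2A, sR_apply]; ext j <;> simp [n3_neg]

theorem b1A_sA2 (z : R6) : b1A (sA2 z) = -sH (b1A z) := by
  rw [b1A, sA2_apply, b1A, sH_apply]; ext j <;> simp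

theorem b2A_sA2 (z : R6) : b2A (sA2 z) = -sH (b2A z) := by
  rw [b2A, sA2_apply, b2A, sH_apply]; ext j <;> simp

theorem VA_sA1 {v : R9 → ℝ} (hv : PhiM v) (z : R6) : v (uA (sA1 z)) = v (uA z) := by
  rw [uA_sA1, (phiM_sR hv)]

theorem VA_sA2 {v : R9 → ℝ} (hv : PhiM v) (z : R6) : v (uA (sA2 z)) = v (uA z) := by
  rw [uA_sA2, (phiM_sH hv)]

theorem al1A_sA1 {v : R9 → ℝ} (hv : PhiM v) (z : R6) :
    alM v (uA (sA1 z)) (b1A (sA1 z)) = -1 * alM v (uA z) (b1A z) := by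
  rw [uA_sA1, b1A_sA1, alM_neg_right, alM_sR hv]; ring

theorem al2A_sA1 {v : R9 → ℝ} (hv : PhiM v) (z : R6) :
    alM v (uA (sA1 z)) (b2A (sA1 z)) = -1 * alM v (uA z) (b2A z) := by
  rw [uA_sA1, b2A_sA1, alM_neg_right, alM_sR hv]; ring

theorem al1A_sA2 {v : R9 → ℝ} (hv : PhiM v) (z : R6) :
    alM v (uA (sA2 z)) (b1A (sA2 z)) = -1 * alM v (uA z) (b1A z) := by
  rw [uA_sA2, b1A_sA2, alM_neg_right, alM_sH hv]; ring

theorem al2A_sA2 {v : R9 → ℝ} (hv : PhiM v) (z : R6) :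
    alM v (uA (sA2 z)) (b2A (sA2 z)) = -1 * alM v (uA z) (b2A z) := by
  rw [uA_sA2, b2A_sA2, alM_neg_right, alM_sH hv]; ring

theorem omA_sA1 {v : R9 → ℝ} (hv : PhiM v) (z : R6) : omA v (sA1 z) = -1 * omA v z := by
  have h1 : fderiv ℝ v (uA (sA1 z)) (0, 0, (sA1 z).1 ⨯₃ (sA1 z).2) =
      -fderiv ℝ v (uA z) (0, 0, z.1 ⨯₃ z.2) := by
    rw [uA_sA1, ← fd_equiv sR (phiM_sR hv) (uA z), ← map_neg]
    congr 1
    rw [sR_apply, sA1_apply]
    simp only [cross_neg_left, neg_zero, Prod.neg_mk]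
  rw [omA, omA, h1, sA1_apply]
  simp only [n3_neg]
  ring

theorem omA_sA2 {v : R9 → ℝ} (hv : PhiM v) (z : R6) : omA v (sA2 z) = 1 * omA v z := by
  have h1 : fderiv ℝ v (uA (sA2 z)) (0, 0, (sA2 z).1 ⨯₃ (sA2 z).2) =
      fderiv ℝ v (uA z) (0, 0, z.1 ⨯₃ z.2) := by
    rw [uA_sA2, ← fd_equiv sH (phiM_sH hv) (uA z)]
    congr 1
    rw [sH_apply, sA2_apply]
    simp only [cross_neg_right, neg_zero]
  rw [omA, omA, h1, sA2_apply, one_mul]
  simp

/-! ### parities at wall B -/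

theorem uB_sA1 (z : R6) : uB (sA1 z) = -uB z := by
  rw [uB, sA1_apply, uB]
  simp only [n3_neg, cross_neg_right, smul_neg, Prod.neg_mk, Prod.smul_mk]

theorem b1B_sA1 (z : R6) : b1B (sA1 z) = -b1B z := by
  rw [b1B, sA1_apply, b1B]
  simp only [n3_neg, cross_neg_right, smul_neg, Prod.neg_mk, Prod.smul_mk]

theorem b2B_sA1 (z : R6) : b2B (sA1 z) = -b2B z := by
  rw [b2B, sA1_apply, b2B]
  simp only [n3_neg, cross_neg_right, smul_neg, Prod.neg_mk, Prod.smul_mk]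

theorem fd_neg9 {f : R9 → ℝ} (hf : PhiM f) (u w : R9) :
    fderiv ℝ f (-u) w = -fderiv ℝ f u w := by
  have h := fd_equiv (ContinuousLinearEquiv.neg ℝ) (f := f) (fun u => phiM_neg hf u) u (-w)
  have h2 : fderiv ℝ f (-u) (-(-w)) = fderiv ℝ f u (-w) := h
  rw [neg_neg, map_neg] at h2
  exact h2

theorem VB_sA1 {v : R9 → ℝ} (hv : PhiM v) (z : R6) : v (uB (sA1 z)) = v (uB z) := by
  rw [uB_sA1, (phiM_neg hv)]

theorem alM_neg_neg {v : R9 → ℝ} (hv : PhiM v) (u b : R9) : alM v (-u) (-b) = alM v u b := by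
  rw [alM, alM, rot_neg, fd_neg9 hv, map_neg, neg_neg]

theorem al1B_sA1 {v : R9 → ℝ} (hv : PhiM v) (z : R6) :
    alM v (uB (sA1 z)) (b1B (sA1 z)) = 1 * alM v (uB z) (b1B z) := by
  rw [uB_sA1, b1B_sA1, alM_neg_neg hv, one_mul]

theorem al2B_sA1 {v : R9 → ℝ} (hv : PhiM v) (z : R6) :
    alM v (uB (sA1 z)) (b2B (sA1 z)) = 1 * alM v (uB z) (b2B z) := by
  rw [uB_sA1, b2B_sA1, alM_neg_neg hv, one_mul]

theorem omB_sA1 {v : R9 → ℝ} (hv : PhiM v) (z : R6) : omB v (sA1 z) = -1 * omB v z := by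
  rw [omB, omB, uB_sA1, fd_neg9 hv, sA1_apply]
  simp only [n3_neg]
  ring

end Pool.Agent.FL.S2
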