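import Pool.Agent.FL.S2Core

/-!
# MP_f09395_gt, space (2): the Hamiltonian field only depends on the values on the base
-/

set_option linter.unusedSectionVars false

noncomputable section

namespace Pool.Agent.FL.S2

open scoped Matrix ContDiff
open Filter Topology

theorem fd_pq {V : R6 → ℝ} (z t : R6) :
    fderiv ℝ V z t = gp V z ⬝ᵥ t.1 + gq V z ⬝ᵥ t.2 := by
  have h1 : t = ∑ i, t.1 i • ((Pi.single i 1, 0) : R6) + ∑ i, t.2 i • ((0, Pi.single i 1) : R6) := by
    refine Prod.ext ?_ ?_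
    · funext j
      simp only [Prod.fst_add, Prod.fst_sum, Prod.smul_fst, Finset.sum_apply, Pi.add_apply,
        Pi.smul_apply, smul_eq_mul, smul_zero, Finset.sum_const_zero, Pi.zero_apply, add_zero]
      rw [Finset.sum_eq_single j]
      · simp
      · intro i _ hij
        rw [Pi.single_eq_of_ne (Ne.symm hij)]; ring
      · intro h; exact absurd (Finset.mem_univ j) h
    · funext j
      simp only [Prod.snd_add, Prod.snd_sum, Prod.smul_snd, Finset.sum_apply, Pi.add_apply,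
        Pi.smul_apply, smul_eq_mul, smul_zero, Finset.sum_const_zero, Pi.zero_apply, zero_add]
      rw [Finset.sum_eq_single j]
      · simp
      · intro i _ hij
        rw [Pi.single_eq_of_ne (Ne.symm hij)]; ring
      · intro h; exact absurd (Finset.mem_univ j) h
  conv_lhs => rw [h1]
  rw [map_add, map_sum, map_sum]
  simp only [map_smul, smul_eq_mul, gp, gq, dotProduct]
  congr 1
  · exact Finset.sum_congr rfl fun i _ => mul_comm _ _
  · exact Finset.sum_congr rfl fun i _ => mul_comm _ _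

/-- a curve on the unit sphere -/
def sphC (σ δ : R3) (s : ℝ) : R3 := (Real.sqrt (1 + s ^ 2 * (δ ⬝ᵥ δ)))⁻¹ • (σ + s • δ)

theorem sphC_zero (σ δ : R3) : sphC σ δ 0 = σ := by
  simp [sphC]

theorem sphC_deriv (σ δ : R3) : HasDerivAt (sphC σ δ) δ 0 := by
  have h0 : HasDerivAt (fun s : ℝ => 1 + s ^ 2 * (δ ⬝ᵥ δ)) 0 0 := by
    have h := ((hasDerivAt_pow 2 (0 : ℝ)).mul_const (δ ⬝ᵥ δ)).const_add 1
    simpa using h
  have h1 : HasDerivAt (fun s : ℝ => (Real.sqrt (1 + s ^ 2 * (δ ⬝ᵥ δ)))⁻¹) 0 0 := by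
    have h := h0.sqrt (by simp)
    exact (h.inv (by simp)).congr_deriv (by simp)
  have h2 : HasDerivAt (fun s : ℝ => σ + s • δ) δ 0 := by
    have h := ((hasDerivAt_id (0 : ℝ)).smul_const δ).const_add σ
    simpa using h
  exact (h1.smul h2).congr_deriv (by simp)

theorem sphC_unit {σ δ : R3} (h1 : σ ⬝ᵥ σ = 1) (h2 : σ ⬝ᵥ δ = 0) (s : ℝ) :
    sphC σ δ s ⬝ᵥ sphC σ δ s = 1 := by
  have h3 : (σ + s • δ) ⬝ᵥ (σ + s • δ) = 1 + s ^ 2 * (δ ⬝ᵥ δ) := by
    simp only [add_dotProduct, dotProduct_add, smul_dotProduct, dotProduct_smul, smul_eq_mul]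
    rw [h1, dotProduct_comm δ σ, h2]; ring
  have h4 : 0 ≤ δ ⬝ᵥ δ := by
    simp only [dotProduct]
    exact Finset.sum_nonneg fun i _ => mul_self_nonneg _
  have h5 : 0 < 1 + s ^ 2 * (δ ⬝ᵥ δ) := by positivity
  unfold sphC
  rw [smul_dotProduct, dotProduct_smul, h3, smul_eq_mul, smul_eq_mul, ← mul_assoc,
    ← mul_inv, Real.mul_self_sqrt h5.le, inv_mul_cancel₀ h5.ne']

/-- the tangent vectors of the base -/
def Tang (z t : R6) : Prop := t.1 ⬝ᵥ z.2 + z.1 ⬝ᵥ t.2 = 0 ∧ z.1 ⬝ᵥ t.1 + z.2 ⬝ᵥ t.2 = 0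

/-- a curve in the base with prescribed velocity -/
def bcrv (z t : R6) (s : ℝ) : R6 :=
  ((1 / 2 : ℝ) • (sphC (z.1 + z.2) (t.1 + t.2) s + sphC (z.1 - z.2) (t.1 - t.2) s),
    (1 / 2 : ℝ) • (sphC (z.1 + z.2) (t.1 + t.2) s - sphC (z.1 - z.2) (t.1 - t.2) s))

theorem bcrv_zero (z t : R6) : bcrv z t 0 = z := by
  unfold bcrv
  rw [sphC_zero, sphC_zero]
  refine Prod.ext ?_ ?_
  · show (1 / 2 : ℝ) • (z.1 + z.2 + (z.1 - z.2)) = z.1
    module
  · show (1 / 2 : ℝ) • (z.1 + z.2 - (z.1 - z.2)) = z.2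
    module

theorem bcrv_deriv (z t : R6) : HasDerivAt (bcrv z t) t 0 := by
  have h1 := sphC_deriv (z.1 + z.2) (t.1 + t.2)
  have h2 := sphC_deriv (z.1 - z.2) (t.1 - t.2)
  have h3 := ((h1.add h2).const_smul (1 / 2 : ℝ)).prodMk ((h1.sub h2).const_smul (1 / 2 : ℝ))
  refine h3.congr_deriv ?_
  refine Prod.ext ?_ ?_
  · show (1 / 2 : ℝ) • (t.1 + t.2 + (t.1 - t.2)) = t.1
    module
  · show (1 / 2 : ℝ) • (t.1 + t.2 - (t.1 - t.2)) = t.2
    module

theorem bcrv_base {z t : R6} (hz : z ∈ base) (ht : Tang z t) (s : ℝ) : bcrv z t s ∈ base := by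
  obtain ⟨a1, a2⟩ := hz
  obtain ⟨b1, b2⟩ := ht
  have c1 := sphC_unit (σ := z.1 + z.2) (δ := t.1 + t.2) (by
    simp only [add_dotProduct, dotProduct_add]
    rw [dotProduct_comm z.2 z.1]; linarith) (by
    simp only [add_dotProduct, dotProduct_add]
    rw [dotProduct_comm z.2 t.1]; linarith) s
  have c2 := sphC_unit (σ := z.1 - z.2) (δ := t.1 - t.2) (by
    simp only [sub_dotProduct, dotProduct_sub]
    rw [dotProduct_comm z.2 z.1]; linarith) (by
    simp only [sub_dotProduct, dotProduct_sub]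
    rw [dotProduct_comm z.2 t.1]; linarith) s
  constructor
  · show ((1 / 2 : ℝ) • _) ⬝ᵥ ((1 / 2 : ℝ) • _) = 0
    simp only [smul_dotProduct, dotProduct_smul, smul_eq_mul, add_dotProduct, dotProduct_sub, c1,
      c2]
    rw [dotProduct_comm (sphC (z.1 - z.2) (t.1 - t.2) s)]
    ring
  · show ((1 / 2 : ℝ) • _) ⬝ᵥ ((1 / 2 : ℝ) • _) + ((1 / 2 : ℝ) • _) ⬝ᵥ ((1 / 2 : ℝ) • _) = 1
    simp only [smul_dotProduct, dotProduct_smul, smul_eq_mul, add_dotProduct, dotProduct_add,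
      sub_dotProduct, dotProduct_sub, c1, c2]
    rw [dotProduct_comm (sphC (z.1 - z.2) (t.1 - t.2) s)]
    ring

theorem fd_tang {F F' : R6 → ℝ} {z t : R6} (hz : z ∈ base) (ht : Tang z t)
    (hF : DifferentiableAt ℝ F z) (hF' : DifferentiableAt ℝ F' z)
    (h2 : ∀ᶠ w in 𝓝 z, w ∈ base → F w = F' w) : fderiv ℝ F z t = fderiv ℝ F' z t := by
  have e0 := bcrv_zero z t
  have e1 := bcrv_deriv z t
  have k1 : HasDerivAt (fun s => F (bcrv z t s)) (fderiv ℝ F z t) 0 := by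
    have : HasFDerivAt F (fderiv ℝ F z) (bcrv z t 0) := by rw [e0]; exact hF.hasFDerivAt
    exact this.comp_hasDerivAt (0 : ℝ) e1
  have k2 : HasDerivAt (fun s => F' (bcrv z t s)) (fderiv ℝ F' z t) 0 := by
    have : HasFDerivAt F' (fderiv ℝ F' z) (bcrv z t 0) := by rw [e0]; exact hF'.hasFDerivAt
    exact this.comp_hasDerivAt (0 : ℝ) e1
  have k3 : (fun s => F (bcrv z t s)) =ᶠ[𝓝 0] fun s => F' (bcrv z t s) := by
    have h3 : Tendsto (bcrv z t) (𝓝 0) (𝓝 z) := by
      have := e1.continuousAt.tendsto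
      rwa [e0] at this
    filter_upwards [h3.eventually h2] with s hs
    exact hs (bcrv_base hz ht s)
  exact (k1.congr_of_eventuallyEq k3.symm).unique k2

theorem XB_tang (V : R6 → ℝ) (z : R6) : Tang z (XB V z) := by
  constructor
  · simp only [XB, cross_apply, dotProduct, Fin.sum_univ_three, Pi.add_apply, Matrix.cons_val_zero,
      Matrix.cons_val_one, Matrix.cons_val]
    ring
  · simp only [XB, cross_apply, dotProduct, Fin.sum_univ_three, Pi.add_apply, Matrix.cons_val_zero,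
      Matrix.cons_val_one, Matrix.cons_val]
    ring

theorem tang1 (z : R6) (w : R3) : Tang z (w ⨯₃ z.1, w ⨯₃ z.2) := by
  constructor
  · simp only [cross_apply, dotProduct, Fin.sum_univ_three, Matrix.cons_val_zero,
      Matrix.cons_val_one, Matrix.cons_val]
    ring
  · simp only [cross_apply, dotProduct, Fin.sum_univ_three, Matrix.cons_val_zero,
      Matrix.cons_val_one, Matrix.cons_val]
    ring

theorem tang2 (z : R6) (w : R3) : Tang z (w ⨯₃ z.2, w ⨯₃ z.1) := by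
  constructor
  · simp only [cross_apply, dotProduct, Fin.sum_univ_three, Matrix.cons_val_zero,
      Matrix.cons_val_one, Matrix.cons_val]
    ring
  · simp only [cross_apply, dotProduct, Fin.sum_univ_three, Matrix.cons_val_zero,
      Matrix.cons_val_one, Matrix.cons_val]
    ring

theorem XB_dot1 (V : R6 → ℝ) (z : R6) (w : R3) :
    w ⬝ᵥ (XB V z).1 = fderiv ℝ V z (w ⨯₃ z.1, w ⨯₃ z.2) := by
  rw [fd_pq]
  simp only [XB, cross_apply, dotProduct, Fin.sum_univ_three, Pi.add_apply, Matrix.cons_val_zero,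
      Matrix.cons_val_one, Matrix.cons_val]
  ring

theorem XB_dot2 (V : R6 → ℝ) (z : R6) (w : R3) :
    w ⬝ᵥ (XB V z).2 = fderiv ℝ V z (w ⨯₃ z.2, w ⨯₃ z.1) := by
  rw [fd_pq]
  simp only [XB, cross_apply, dotProduct, Fin.sum_univ_three, Pi.add_apply, Matrix.cons_val_zero,
      Matrix.cons_val_one, Matrix.cons_val]
  ring

theorem XB_congr {V V' : R6 → ℝ} {z : R6} (hz : z ∈ base)
    (hV : DifferentiableAt ℝ V z) (hV' : DifferentiableAt ℝ V' z)
    (h1 : ∀ᶠ w in 𝓝 z, w ∈ base → V w = V' w) : XB V z = XB V' z := by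
  refine Prod.ext ?_ ?_
  · refine dotProduct_eq _ _ fun w => ?_
    rw [dotProduct_comm, XB_dot1, dotProduct_comm, XB_dot1]
    exact fd_tang hz (tang1 z w) hV hV' h1
  · refine dotProduct_eq _ _ fun w => ?_
    rw [dotProduct_comm, XB_dot2, dotProduct_comm, XB_dot2]
    exact fd_tang hz (tang2 z w) hV hV' h1

/-- the Hamiltonian field is tangent to the base and `XD` only depends on values on the base -/
theorem XD_congr {V V' F F' : R6 → ℝ} {z : R6} (hz : z ∈ base)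
    (hV : DifferentiableAt ℝ V z) (hV' : DifferentiableAt ℝ V' z)
    (hF : DifferentiableAt ℝ F z) (hF' : DifferentiableAt ℝ F' z)
    (h1 : ∀ᶠ w in 𝓝 z, w ∈ base → V w = V' w) (h2 : ∀ᶠ w in 𝓝 z, w ∈ base → F w = F' w) :
    XB V z = XB V' z ∧ XD V F z = XD V' F' z := by
  have k := XB_congr hz hV hV' h1
  refine ⟨k, ?_⟩
  unfold XD
  rw [← k]
  exact fd_tang hz (XB_tang V z) hF hF' h2

end Pool.Agent.FL.S2
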