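import Pool.Agent.FL.MidG
import Pool.Agent.FL.Parity
import Pool.Agent.FL.FTA
import Pool.Agent.FL.S2SecA
import Pool.Agent.helper60.FL.EDu
import Pool.Agent.FL.A2A

/-!
# MP_f09395_gt, space (2): the wall data at wall A

`wallD_A : WallD 1 1 1 True uA b1A b2A omA`.
-/

set_option linter.unusedSectionVars false

noncomputable section

namespace Pool.Agent.FL.S2

open scoped ContDiff Matrix
open Matrix Filter Topology
open Pool.Agent.helper90.FL

/-- the data of wall A -/
theorem wallD_A : WallD 1 1 1 True uA b1A b2A omA where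
  κpos := one_pos
  Apos := one_pos
  us := FTA.uA_smooth
  b1s := FT0.snd_smooth.prodMk (FT0.fst_smooth.prodMk contDiffOn_const)
  b2s := contDiffOn_const.prodMk (contDiffOn_const.prodMk
    ((FTA.n3_smooth.inv fun _ hz => (FT0.n3_pos hz.1).ne').smul FT0.fst_smooth))
  une z hz := FTA.uA_ne hz
  c z hz hU := (secA_Flg hz hU 0).2
  a z _ _ := by show z.1 ⬝ᵥ z.1 = 1 * (z.1 ⬝ᵥ z.1); rw [one_mul]
  flg z hz hU r s hrs := (flgA_iff hz hU _).2 ⟨r, s, hrs, rfl⟩
  surj u b hf hc h0 h1 := by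
    have k1 : u.1 ≠ 0 := by
      intro h
      unfold aa at h0
      rw [h] at h0
      simp at h0
    have k2 : u.2 ≠ 0 := by
      intro h
      have h2 := hf.uu
      unfold aa at h1
      unfold dot9 at h2
      rw [h] at h2
      simp only [Prod.fst_zero, Prod.snd_zero, zero_dotProduct, add_zero] at h2
      linarith
    obtain ⟨t, ψ, z, hz, hU, e1, e2⟩ := secA hf hc k1 k2
    exact ⟨z, hz, hU, t, _, _, Real.cos_sq_add_sin_sq ψ, e1, e2⟩
  link v f z hv hf hfi F hF hz hU h := by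
    rw [one_mul]
    exact ED_uA hv hf hfi hF hz hU h
  a2 v z hv hz hU r s hrs h := by
    rw [one_mul, one_mul]
    exact a2_A hv hz hU hrs h
  oms v hv := FTA.omA_smooth hv.smooth
  parP := ⟨-1, by norm_num, fun v hv z _ => ⟨VA_sA1 hv z, al1A_sA1 hv z, al2A_sA1 hv z, by
    have h := omA_sA1 hv z
    rw [neg_one_mul] at h
    exact h⟩⟩
  parQ := fun _ => ⟨-1, by norm_num, fun v hv z _ =>
    ⟨VA_sA2 hv z, al1A_sA2 hv z, al2A_sA2 hv z, by
      have h := omA_sA2 hv z
      rw [one_mul] at h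
      exact h⟩⟩

end Pool.Agent.FL.S2
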