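import Pool.Agent.FL.MidG
import Pool.Agent.FL.Parity
import Pool.Agent.FL.FDB
import Pool.Agent.FL.S2SecB
import Pool.Agent.helper60.FL.EDu
import Pool.Agent.FL.A2B

/-!
# MP_f09395_gt, space (2): the wall data at wall B

`wallD_B : WallD (-1) (1 / 2) (Real.sqrt 2) False uB b1B b2B omB`.
-/

set_option linter.unusedSectionVars false

noncomputable section

namespace Pool.Agent.FL.S2

open scoped ContDiff Matrix
open Matrix Filter Topology
open Pool.Agent.helper90.FL

/-- the data of wall B -/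
theorem wallD_B : WallD (-1) (1 / 2) (Real.sqrt 2) False uB b1B b2B omB where
  κpos := Real.sqrt_pos.2 (by norm_num)
  Apos := by norm_num
  us := FDB.uB_smooth
  b1s := FDB.b1B_smooth
  b2s := FDB.b2B_smooth
  une z hz := uB_ne hz.1
  c z hz hU := (secB_Flg hz hU 0).2.1
  a z hz hU := by
    have h := (secB_Flg hz hU 0).2.2.1
    have h2 : z.1 ⬝ᵥ z.1 = 2 * aa (uB z) := by
      conv_lhs => rw [← h]
      rw [smul_dotProduct, dotProduct_smul, smul_smul, SecB.sqrt2_sq, smul_eq_mul, aa]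
    rw [h2]; ring
  flg z hz hU r s hrs := (flgB_iff hz hU _).2 ⟨r, s, hrs, rfl⟩
  surj u b hf hc h0 h1 := by
    have k1 : u.1 ≠ 0 := by
      intro h
      unfold aa at h0
      rw [h] at h0
      simp at h0
    have k2 : u.2.1 ⨯₃ u.2.2 ≠ 0 := by
      intro h
      have h2 := (wallB_base hf hc).2
      unfold aa at h1
      simp only [h, smul_zero, dotProduct_zero, add_zero] at h2
      rw [smul_dotProduct, dotProduct_smul, smul_smul, SecB.sqrt2_sq, smul_eq_mul] at h2
      linarith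
    obtain ⟨t, ψ, hU, e1, e2⟩ := secB hf hc k1 k2
    exact ⟨_, wallB_base hf hc, hU, t, _, _, Real.cos_sq_add_sin_sq ψ, e1, e2⟩
  link v f z hv hf hfi F hF hz hU h := ED_uB hv hf hfi hF hz hU h
  a2 v z hv hz hU r s hrs h := a2_B hv hz hU hrs h
  oms v hv := FDB.omB_smooth hv.smooth
  parP := ⟨1, by norm_num, fun v hv z _ => ⟨VB_sA1 hv z, al1B_sA1 hv z, al2B_sA1 hv z, by
    have h := omB_sA1 hv z
    rw [neg_one_mul] at h
    exact h⟩⟩
  parQ := fun h => h.elim

end Pool.Agent.FL.S2
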