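import Pool.Agent.FL.MidK
import Pool.Agent.FL.MidGA
import Pool.Agent.FL.MidGB
import Pool.Agent.FL.MidWA
import Pool.Agent.FL.MidWB
import Pool.Agent.FL.MidEA
import Pool.Agent.FL.MidEB

/-!
# MP_f09395_gt, space (2): the middle regions of the walls
-/

set_option linter.unusedSectionVars false

noncomputable section

namespace Pool.Agent.FL.S2

open scoped ContDiff Matrix
open Filter Topology

theorem midA {p : Par} (hp : ParOK p) {n : R9 → ℝ} (hn : WM n) {δ : ℝ} (hδ : 0 < δ)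
    (hδ' : δ < 1 / 8)
    (hend : ∀ k ∈ KW (v0 p) 1, (aa k.1 ≤ 3 * δ ∨ 1 - 3 * δ ≤ aa k.1) →
      0 < TE (v0 p) n k) : MidW (v0 p) 1 δ 1 n :=
  MidW_of wallD_A extP_A (genP_A hp) (GE5_v0 p) hn hδ (by linarith) hend

theorem midB {p : Par} (hp : ParOK p) {n : R9 → ℝ} (hn : WM n) {δ : ℝ} (hδ : 0 < δ)
    (hδ' : δ < 1 / 16)
    (hend : ∀ k ∈ KW (v0 p) (-1), (aa k.1 ≤ 3 * δ ∨ 1 / 2 - 3 * δ ≤ aa k.1) →
      0 < TE (v0 p) n k) : MidW (v0 p) (-1) δ (1 / 2) n :=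
  MidW_of wallD_B extP_B (genP_B hp) (GE5_v0 p) hn hδ (by linarith) hend

end Pool.Agent.FL.S2
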