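import Pool.Agent.FL.Adm2
import Pool.Agent.FL.PStar
import Pool.Agent.helper75.FL.Fin2

/-!
# MP_f09395_gt: `Sp(2)/diag(z, z)` admits an invariant metric of positive flag curvature
-/

noncomputable section

namespace Pool.Agent.FL

open Pool.Agent.Helper93.Fin Pool.Agent.helper79.FR

attribute [local instance] Matrix.linftyOpNormedRing Matrix.linftyOpNormedAlgebra

theorem admits2 : AdmitsPositive Sp2.G (Sp2.H 1 1) (Sp2.m 1 1) :=
  S2.Adm2_of (S2.fin2 S2.pStar_ok)

end Pool.Agent.FL
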