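import Pool.Agent.FL.S1Core
import Pool.Agent.helper75.FL.LemJ

/-!
# MP_f09395_gt, space (1): gauge fixing by the isotropy group, equivariance of `[u, ∇v(u)]`
-/

set_option linter.unusedSectionVars false

noncomputable section

namespace Pool.Agent.FL.G3G

open scoped ContDiff
open Pool.Agent.Helper93.Fin Pool.Agent.helper79.FP Pool.Agent.helper79.FR
open Pool.Agent.helper75.FL (ee)
open Filter Topology Module

section Abstract

variable {𝔸 : Type*} [NormedRing 𝔸] [NormedAlgebra ℝ 𝔸] [FiniteDimensional ℝ 𝔸]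
variable {g h m : Submodule ℝ 𝔸} {Q : 𝔸 →ₗ[ℝ] 𝔸 →ₗ[ℝ] ℝ} {P : 𝔸 →L[ℝ] m} {φ : m → ℝ}
variable {h0 : 𝔸} {B : m → 𝔸} {c : m → ℝ} {H : Subgroup 𝔸ˣ}

theorem Adj_add (k : 𝔸ˣ) (X Y : 𝔸) : Adj k (X + Y) = Adj k X + Adj k Y := by
  simp [Adj, mul_add, add_mul]

theorem Adj_smul (k : 𝔸ˣ) (r : ℝ) (X : 𝔸) : Adj k (r • X) = r • Adj k X := by
  simp [Adj]

theorem Adj_inv_Adj (k : 𝔸ˣ) (X : 𝔸) : Adj k⁻¹ (Adj k X) = X := by
  simp [Adj, mul_assoc]

theorem Adj_Adj_inv (k : 𝔸ˣ) (X : 𝔸) : Adj k (Adj k⁻¹ X) = X := by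
  simp [Adj, mul_assoc]

theorem adM_adM_inv (hN : NData g h m Q P) (hG : GrpD H h m Q h0 B c) {k : 𝔸ˣ} (hk : k ∈ H)
    (u : m) : adM P k (adM P k⁻¹ u) = u := by
  apply Subtype.ext
  rw [adM_coe hN hG hk, adM_coe hN hG (inv_mem hk), Adj_Adj_inv]

theorem Q_adM (hN : NData g h m Q P) (hG : GrpD H h m Q h0 B c) {k : 𝔸ˣ} (hk : k ∈ H)
    (u w : m) : Q (adM P k u : 𝔸) (adM P k w) = Q (u : 𝔸) w := by
  have h1 := hG.Qm k hk _ (u + w).2
  have h2 := hG.Qm k hk _ u.2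
  have h3 := hG.Qm k hk _ w.2
  rw [adM_coe hN hG hk, adM_coe hN hG hk]
  simp only [Submodule.coe_add, Adj_add, map_add, LinearMap.add_apply] at h1
  have h4 := hN.Qsymm (Adj k (w : 𝔸)) (Adj k (u : 𝔸))
  have h5 := hN.Qsymm (w : 𝔸) (u : 𝔸)
  linarith

/-- the gradient of an invariant function is equivariant -/
theorem gx_adM (hN : NData g h m Q P) (hG : GrpD H h m Q h0 B c)
    (hf : ContDiffOn ℝ ∞ φ {0}ᶜ) (hH : InvH H φ) {k : 𝔸ˣ} (hk : k ∈ H) {u : m} (hu : u ≠ 0) :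
    gx Q φ (adM P k u) = adM P k (gx Q φ u) := by
  refine rep_unique hN fun w => ?_
  rw [gx, rep_spec hN]
  have h1 := D1_adM hN hG hf hH hk hu (adM P k⁻¹ w)
  rw [adM_adM_inv hN hG hk] at h1
  have h2 : fderiv ℝ φ (adM P k u) w = D1 φ (adM P k u) w := rfl
  rw [h2, h1]
  conv_rhs => rw [← adM_adM_inv hN hG hk w]
  rw [Q_adM hN hG hk, gx, rep_spec hN]
  rfl

theorem P_adM (hN : NData g h m Q P) (hC : Cas g h m Q P h0 B c) (hG : GrpD H h m Q h0 B c)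
    {k : 𝔸ˣ} (hk : k ∈ H) {X : 𝔸} (hX : X ∈ g) : P (Adj k X) = adM P k (P X) := by
  obtain ⟨r, hr⟩ := hC.span _ (hN.red.res X hX)
  have h1 : X = (P X : 𝔸) + r • h0 := by rw [← hr]; abel
  have h2 : Adj k X = Adj k (P X : 𝔸) + r • h0 := by
    conv_lhs => rw [h1]
    rw [Adj_add, Adj_smul, hG.adh0 k hk]
  rw [h2, map_add, map_smul, hN.red.P_h _ hC.mem, smul_zero, add_zero, adM_apply]

/-- `[u, ∇v(u)]` is equivariant -/
theorem ee_adM (hN : NData g h m Q P) (hC : Cas g h m Q P h0 B c) (hG : GrpD H h m Q h0 B c)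
    (hf : ContDiffOn ℝ ∞ φ {0}ᶜ) (hH : InvH H φ) {k : 𝔸ˣ} (hk : k ∈ H) {u : m} (hu : u ≠ 0) :
    ee Q P φ (adM P k u) = adM P k (ee Q P φ u) := by
  unfold ee
  rw [gx_adM hN hG hf hH hk hu, adM_coe hN hG hk, adM_coe hN hG hk, ← Adj_lie]
  exact P_adM hN hC hG hk (lg hN (hN.red.m_le u.2) (hN.red.m_le (gx Q φ u).2))

end Abstract

end Pool.Agent.FL.G3G

namespace Pool.Agent.FL.S1.G3G

open Pool.Agent.FL.G3G
open scoped ContDiff
open Pool.Agent.Helper93.Fin Pool.Agent.helper79.FP Pool.Agent.helper79.FR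
open Pool.Agent.helper75.FL (ee)
open Filter Topology Module
open scoped Quaternion Matrix ComplexConjugate
open Pool.Agent.helper79.FR.Sp2 (Mat QQ h0 m gg hh PP BB cc H)

attribute [local instance] Matrix.linftyOpNormedRing Matrix.linftyOpNormedAlgebra

/-- the gauge functionals: the imaginary parts of the coordinates -/
def gau : Fin 4 → V →L[ℝ] ℝ
  | 0 => Complex.imCLM.comp cP
  | 1 => Complex.imCLM.comp cR
  | 2 => Complex.imCLM.comp cC
  | 3 => Complex.imCLM.comp cQ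

theorem reL_rot (x y : ℂ) (q : ℍ[ℝ]) : reL ((x : ℍ[ℝ]) * q * (y : ℍ[ℝ])) = x * y * reL q := by
  apply Complex.ext <;>
    simp [reL, Quaternion.re_mul, Quaternion.imI_mul, Quaternion.imJ_mul, Quaternion.imK_mul] <;>
    ring

theorem jkL_rot (x y : ℂ) (q : ℍ[ℝ]) :
    jkL ((x : ℍ[ℝ]) * q * (y : ℍ[ℝ])) = x * conj y * jkL q := by
  apply Complex.ext <;>
    simp [jkL, Quaternion.re_mul, Quaternion.imI_mul, Quaternion.imJ_mul, Quaternion.imK_mul] <;>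
    ring

open Pool.Agent.helper79.FR.Sp2 (dg)

theorem dg_conj_mul {z : ℂ} (hz : ‖z‖ = 1) : dg 1 3 z * dg 1 3 (conj z) = 1 := by
  have h1 : z * conj z = 1 := by
    rw [Complex.mul_conj, Complex.normSq_eq_norm_sq, hz]
    simp
  rw [dg, dg, Matrix.diagonal_mul_diagonal, ← Matrix.diagonal_one]
  congr 1
  funext i
  fin_cases i
  · show ((z ^ 1 : ℂ) : ℍ[ℝ]) * ((conj z ^ 1 : ℂ) : ℍ[ℝ]) = 1
    rw [← Quaternion.coeComplex_mul, ← mul_pow, h1, one_pow, Quaternion.coeComplex_one]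
  · show ((z ^ 3 : ℂ) : ℍ[ℝ]) * ((conj z ^ 3 : ℂ) : ℍ[ℝ]) = 1
    rw [← Quaternion.coeComplex_mul, ← mul_pow, h1, one_pow, Quaternion.coeComplex_one]

/-- the unit `diag(z, z³)` -/
def dgU (z : ℂ) (hz : ‖z‖ = 1) : Matˣ where
  val := dg 1 3 z
  inv := dg 1 3 (conj z)
  val_inv := dg_conj_mul hz
  inv_val := by
    have h := dg_conj_mul (z := conj z) (by rw [RCLike.norm_conj, hz])
    rwa [Complex.conj_conj] at h

theorem dgU_mem (z : ℂ) (hz : ‖z‖ = 1) : dgU z hz ∈ H 1 3 := ⟨z, hz, rfl⟩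

theorem Adj_dgU (z : ℂ) (hz : ‖z‖ = 1) (X : Mat) (i j : Fin 2) :
    Adj (dgU z hz) X i j = ((z ^ (![1, 3] : Fin 2 → ℕ) i : ℂ) : ℍ[ℝ]) * X i j *
      ((conj z ^ (![1, 3] : Fin 2 → ℕ) j : ℂ) : ℍ[ℝ]) := by
  show (dg 1 3 z * X * dg 1 3 (conj z)) i j = _
  rw [dg, dg, Matrix.mul_diagonal, Matrix.diagonal_mul]
  fin_cases i <;> fin_cases j <;> rfl

/-- the action of `diag(z, z³)` -/
theorem rotH (z : ℂ) (hz : ‖z‖ = 1) (u : V) :
    c0 (adM (PP 1 3) (dgU z hz) u) = c0 u ∧ cP (adM (PP 1 3) (dgU z hz) u) = z ^ 2 * cP u ∧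
    cR (adM (PP 1 3) (dgU z hz) u) = z ^ 6 * cR u ∧
    cC (adM (PP 1 3) (dgU z hz) u) = conj z ^ 2 * cC u ∧
    cQ (adM (PP 1 3) (dgU z hz) u) = z ^ 4 * cQ u := by
  have hN := Pool.Agent.helper79.FR.Sp2.nData (a := 1) (b := 3) le_rfl (by norm_num)
  have hG := Pool.Agent.helper79.FR.Sp2.grpD (a := 1) (b := 3) le_rfl (by norm_num)
  have hc : (adM (PP 1 3) (dgU z hz) u : Mat) = Adj (dgU z hz) (u : Mat) :=
    adM_coe hN hG (dgU_mem z hz) u
  have h1 : z * conj z = 1 := by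
    rw [Complex.mul_conj, Complex.normSq_eq_norm_sq, hz]
    simp
  have eP : ∀ w : V, cP w = jkL ((w : Mat) 0 0) := fun w => rfl
  have eR : ∀ w : V, cR w = jkL ((w : Mat) 1 1) := fun w => rfl
  have eC : ∀ w : V, cC w = reL ((w : Mat) 0 1) := fun w => rfl
  have eQ : ∀ w : V, cQ w = jkL ((w : Mat) 0 1) := fun w => rfl
  have e0 : ∀ w : V, c0 w = (reL ((w : Mat) 1 1)).im := fun w => rfl
  refine ⟨?_, ?_, ?_, ?_, ?_⟩
  · rw [e0, hc, Adj_dgU, reL_rot, e0]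
    have : z ^ (![1, 3] : Fin 2 → ℕ) 1 * conj z ^ (![1, 3] : Fin 2 → ℕ) 1 = 1 := by
      rw [← mul_pow, h1, one_pow]
    rw [this, one_mul]
  · rw [eP, hc, Adj_dgU, jkL_rot, eP]
    simp only [Matrix.cons_val_zero, pow_one, Complex.conj_conj]
    ring
  · rw [eR, hc, Adj_dgU, jkL_rot, eR]
    have : z ^ (![1, 3] : Fin 2 → ℕ) 1 * conj (conj z ^ (![1, 3] : Fin 2 → ℕ) 1) = z ^ 6 := by
      show z ^ 3 * conj (conj z ^ 3) = z ^ 6
      rw [map_pow, Complex.conj_conj]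
      ring
    rw [this]
  · rw [eC, hc, Adj_dgU, reL_rot, eC]
    simp only [Matrix.cons_val_zero, Matrix.cons_val_one, pow_one]
    have : z * conj z ^ 3 = conj z ^ 2 := by
      calc z * conj z ^ 3 = (z * conj z) * conj z ^ 2 := by ring
        _ = _ := by rw [h1, one_mul]
    rw [this]
  · rw [eQ, hc, Adj_dgU, jkL_rot, eQ]
    simp only [Matrix.cons_val_zero, Matrix.cons_val_one, map_pow, pow_one, Complex.conj_conj]
    ring

theorem exists_rot (w : ℂ) (n : ℕ) (hn : n ≠ 0) : ∃ z : ℂ, ‖z‖ = 1 ∧ (z ^ n * w).im = 0 := by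
  obtain ⟨t, ht⟩ : ∃ t : ℝ, w = (‖w‖ : ℂ) * Complex.exp (t * Complex.I) :=
    ⟨Complex.arg w, (Complex.norm_mul_exp_arg_mul_I w).symm⟩
  refine ⟨Complex.exp (((-t / n : ℝ) : ℂ) * Complex.I), Complex.norm_exp_ofReal_mul_I _, ?_⟩
  have h3 : (n : ℂ) ≠ 0 := by exact_mod_cast hn
  have h4 : (n : ℂ) * (((-t / n : ℝ) : ℂ) * Complex.I) = -(t * Complex.I) := by
    push_cast
    field_simp
  have h2 : Complex.exp (((-t / n : ℝ) : ℂ) * Complex.I) ^ n * w = (‖w‖ : ℂ) := by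
    rw [← Complex.exp_nat_mul, h4, ht, mul_left_comm, ← Complex.exp_add, neg_add_cancel,
      Complex.exp_zero, mul_one, ← ht]
  rw [h2]
  exact Complex.ofReal_im _

theorem rt_ne {x : ℂ} (h : x.im = 0) (hx : x ≠ 0) (r : ℝ) (hr : r ≠ 0) :
    ((r : ℂ) * Complex.I * x).im ≠ 0 := by
  have h1 : ((r : ℂ) * Complex.I * x).im = r * x.re := by simp
  rw [h1]
  refine mul_ne_zero hr fun h2 => hx (Complex.ext h2 h)

/-- **gauge fixing** -/
theorem gauge (u : V) (hu : ¬ (cP u = 0 ∧ cR u = 0 ∧ cC u = 0 ∧ cQ u = 0)) :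
    ∃ k ∈ H 1 3, ∃ j : Fin 4, gau j (adM (PP 1 3) k u) = 0 ∧
      gau j (rt (adM (PP 1 3) k u)) ≠ 0 := by
  by_cases hP : cP u = 0
  · by_cases hR : cR u = 0
    · by_cases hC : cC u = 0
      · have hQ : cQ u ≠ 0 := fun h => hu ⟨hP, hR, hC, h⟩
        obtain ⟨z, hz, hz2⟩ := exists_rot (cQ u) 4 (by norm_num)
        have h1 := rotH z hz u
        have h0 : cQ (adM (PP 1 3) (dgU z hz) u) ≠ 0 := by
          rw [h1.2.2.2.2]
          refine mul_ne_zero (pow_ne_zero _ ?_) hQ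
          intro h; rw [h, norm_zero] at hz; exact zero_ne_one hz
        refine ⟨_, dgU_mem z hz, 3, ?_, ?_⟩
        · show (cQ (adM (PP 1 3) (dgU z hz) u)).im = 0
          rw [h1.2.2.2.2]; exact hz2
        · show (cQ (rt (adM (PP 1 3) (dgU z hz) u))).im ≠ 0
          rw [rt_eq, cQ_mk]
          have := rt_ne (x := cQ (adM (PP 1 3) (dgU z hz) u)) (by rw [h1.2.2.2.2]; exact hz2) h0 4
            (by norm_num)
          simpa using this
      · obtain ⟨z, hz, hz2⟩ := exists_rot (conj (cC u)) 2 (by norm_num)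
        have h1 := rotH z hz u
        have h0 : cC (adM (PP 1 3) (dgU z hz) u) ≠ 0 := by
          rw [h1.2.2.2.1]
          refine mul_ne_zero (pow_ne_zero _ ?_) hC
          rw [Ne, map_eq_zero]
          intro h; rw [h, norm_zero] at hz; exact zero_ne_one hz
        have hz3 : (conj z ^ 2 * cC u).im = 0 := by
          have : conj z ^ 2 * cC u = conj (z ^ 2 * conj (cC u)) := by simp
          rw [this, Complex.conj_im, hz2, neg_zero]
        refine ⟨_, dgU_mem z hz, 2, ?_, ?_⟩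
        · show (cC (adM (PP 1 3) (dgU z hz) u)).im = 0
          rw [h1.2.2.2.1]; exact hz3
        · show (cC (rt (adM (PP 1 3) (dgU z hz) u))).im ≠ 0
          rw [rt_eq, cC_mk]
          have := rt_ne (x := cC (adM (PP 1 3) (dgU z hz) u)) (by rw [h1.2.2.2.1]; exact hz3) h0
            (-2) (by norm_num)
          simpa using this
    · obtain ⟨z, hz, hz2⟩ := exists_rot (cR u) 6 (by norm_num)
      have h1 := rotH z hz u
      have h0 : cR (adM (PP 1 3) (dgU z hz) u) ≠ 0 := by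
        rw [h1.2.2.1]
        refine mul_ne_zero (pow_ne_zero _ ?_) hR
        intro h; rw [h, norm_zero] at hz; exact zero_ne_one hz
      refine ⟨_, dgU_mem z hz, 1, ?_, ?_⟩
      · show (cR (adM (PP 1 3) (dgU z hz) u)).im = 0
        rw [h1.2.2.1]; exact hz2
      · show (cR (rt (adM (PP 1 3) (dgU z hz) u))).im ≠ 0
        rw [rt_eq, cR_mk]
        have := rt_ne (x := cR (adM (PP 1 3) (dgU z hz) u)) (by rw [h1.2.2.1]; exact hz2) h0 6
          (by norm_num)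
        simpa using this
  · obtain ⟨z, hz, hz2⟩ := exists_rot (cP u) 2 (by norm_num)
    have h1 := rotH z hz u
    have h0 : cP (adM (PP 1 3) (dgU z hz) u) ≠ 0 := by
      rw [h1.2.1]
      refine mul_ne_zero (pow_ne_zero _ ?_) hP
      intro h; rw [h, norm_zero] at hz; exact zero_ne_one hz
    refine ⟨_, dgU_mem z hz, 0, ?_, ?_⟩
    · show (cP (adM (PP 1 3) (dgU z hz) u)).im = 0
      rw [h1.2.1]; exact hz2
    · show (cP (rt (adM (PP 1 3) (dgU z hz) u))).im ≠ 0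
      rw [rt_eq, cP_mk]
      have := rt_ne (x := cP (adM (PP 1 3) (dgU z hz) u)) (by rw [h1.2.1]; exact hz2) h0 2
        (by norm_num)
      simpa using this

end Pool.Agent.FL.S1.G3G
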