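import Pool.Agent.FL.D
import Pool.Agent.FL.Par
import Pool.Agent.FL.S1I1
import Pool.Agent.FL.G3Gau
import Pool.Agent.FL.S8
import Pool.Agent.FL.S1Cent
import Pool.Agent.FL.S6
import Pool.Agent.helper75.FL.EvE2

/-!
# MP_f09395_gt, space (1), module G3 (RE1): for almost all parameters no generic wall point of the
region where the cut-off is one satisfies `e(u) = 0`
-/

set_option linter.unusedSectionVars false

noncomputable section

namespace Pool.Agent.FL.G3G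

open scoped ContDiff
open Pool.Agent.Helper93.Fin Pool.Agent.helper79.FP Pool.Agent.helper79.FR
open Pool.Agent.helper75.FL (ee)
open Pool.Agent.helper90.FL (Negl)
open Filter Topology Module

section Abstract

variable {𝔸 : Type*} [NormedRing 𝔸] [NormedAlgebra ℝ 𝔸] [FiniteDimensional ℝ 𝔸]
variable {g h m : Submodule ℝ 𝔸} {Q : 𝔸 →ₗ[ℝ] 𝔸 →ₗ[ℝ] ℝ} {P : 𝔸 →L[ℝ] m}
variable {h0 : 𝔸} {B : m → 𝔸} {c : m → ℝ}

theorem rt_coe (hN : NData g h m Q P) (hC : Cas g h m Q P h0 B c) (u : m) :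
    (P ⁅h0, (u : 𝔸)⁆ : 𝔸) = ⁅h0, (u : 𝔸)⁆ := by
  have := hN.red.P_m ⟨⁅h0, (u : 𝔸)⁆, hN.red.ad h0 hC.mem u u.2⟩
  rw [this]

/-- linear algebra: if the functionals `Q(y i, ·)` separate all directions except `w`, then
every `x` orthogonal to `w` is in the span of the `y i` -/
theorem mem_span_of_sep (hN : NData g h m Q P) {ι : Type*} {y : ι → m} {w x : m}
    (hs : ∀ z : m, (∀ i, Q (y i : 𝔸) z = 0) → ∃ t : ℝ, z = t • w) (hx : Q (x : 𝔸) w = 0) :
    x ∈ Submodule.span ℝ (Set.range y) := by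
  by_contra hn
  obtain ⟨f, hf1, hf2⟩ := Submodule.exists_le_ker_of_notMem hn
  obtain ⟨z, hz⟩ := m_rep hN (LinearMap.toContinuousLinearMap f)
  have h1 : ∀ i, Q (y i : 𝔸) z = 0 := by
    intro i
    rw [hN.Qsymm, hz]
    exact hf2 (Submodule.subset_span ⟨i, rfl⟩)
  obtain ⟨t, ht⟩ := hs z h1
  apply hf1
  have h2 := hz x
  rw [ht, Submodule.coe_smul, map_smul, LinearMap.smul_apply, hN.Qsymm, hx, smul_zero] at h2
  exact h2.symm

/-- the rank of `x ↦ [u, x]_𝔪` on the span of the `y i` -/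
theorem rank_bracket (hN : NData g h m Q P) (hC : Cas g h m Q P h0 B c) {ι : Type*} [Fintype ι]
    {y : ι → m} {u : m} (hs : ∀ z : m, (∀ i, Q (y i : 𝔸) z = 0) →
      ∃ t : ℝ, z = t • P ⁅h0, (u : 𝔸)⁆)
    {d : ℕ} (hcent : ∀ K : Submodule ℝ m, (∀ x ∈ K, ⁅(u : 𝔸), (x : 𝔸)⁆ = 0) → finrank ℝ K ≤ d)
    (L : (ι → ℝ) →ₗ[ℝ] m) (hL : ∀ p, L p = ∑ i, p i • P ⁅(u : 𝔸), (y i : 𝔸)⁆) :
    finrank ℝ m ≤ finrank ℝ (LinearMap.range L) + 1 + d := by
  obtain ⟨w, hw⟩ : ∃ w : m, w = P ⁅h0, (u : 𝔸)⁆ := ⟨_, rfl⟩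
  -- the hyperplane
  obtain ⟨φ, hφ⟩ : ∃ φ : m →ₗ[ℝ] ℝ, ∀ x, φ x = Q (x : 𝔸) w :=
    ⟨(Q.flip w).comp m.subtype, fun x => rfl⟩
  obtain ⟨T, hT⟩ : ∃ T : m →ₗ[ℝ] m, ∀ x, T x = P ⁅(u : 𝔸), (x : 𝔸)⁆ := by
    refine ⟨P.toLinearMap.comp ((LinearMap.mulLeft ℝ (u : 𝔸) - LinearMap.mulRight ℝ (u : 𝔸)).comp
      m.subtype), fun x => ?_⟩
    simp [Ring.lie_def]
  have h1 : finrank ℝ (LinearMap.range φ) + finrank ℝ (LinearMap.ker φ) = finrank ℝ m :=
    LinearMap.finrank_range_add_finrank_ker φ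
  have h2 : finrank ℝ (LinearMap.range φ) ≤ 1 := by
    have := Submodule.finrank_le (LinearMap.range φ)
    simpa using this
  obtain ⟨T', hT'⟩ : ∃ T' : LinearMap.ker φ →ₗ[ℝ] m, T' = T.domRestrict (LinearMap.ker φ) :=
    ⟨_, rfl⟩
  have h3 : finrank ℝ (LinearMap.range T') + finrank ℝ (LinearMap.ker T') =
      finrank ℝ (LinearMap.ker φ) := LinearMap.finrank_range_add_finrank_ker T'
  have h4 : LinearMap.range T' ≤ LinearMap.range L := by
    rintro _ ⟨x, rfl⟩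
    have hx : Q ((x : m) : 𝔸) w = 0 := by
      rw [← hφ]; exact x.2
    have h5 : (x : m) ∈ Submodule.span ℝ (Set.range y) :=
      mem_span_of_sep hN (w := w) (by rw [hw]; exact hs) hx
    obtain ⟨p, hp⟩ := (Submodule.mem_span_range_iff_exists_fun ℝ).1 h5
    refine ⟨p, ?_⟩
    rw [hL, hT', LinearMap.domRestrict_apply, ← hp, map_sum]
    refine Finset.sum_congr rfl fun i _ => ?_
    rw [map_smul, hT]
  have h5 : finrank ℝ (LinearMap.range T') ≤ finrank ℝ (LinearMap.range L) :=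
    Submodule.finrank_mono h4
  have h6 : finrank ℝ (LinearMap.ker T') ≤ d := by
    have h7 := hcent ((LinearMap.ker T').map (LinearMap.ker φ).subtype) ?_
    · rwa [LinearEquiv.finrank_eq (Submodule.equivMapOfInjective _
        (Submodule.injective_subtype _) _).symm] at h7
    · rintro _ ⟨x, hx, rfl⟩
      have hx1 : Q ((x : m) : 𝔸) w = 0 := by rw [← hφ]; exact x.2
      have hx2 : P ⁅(u : 𝔸), ((x : m) : 𝔸)⁆ = 0 := by
        have : T' x = 0 := hx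
        rwa [hT', LinearMap.domRestrict_apply, hT] at this
      obtain ⟨r, hr⟩ := hC.span _ (hN.red.res _ (lm hN u (x : m)))
      rw [hx2, Submodule.coe_zero, sub_zero] at hr
      show ⁅(u : 𝔸), ((x : m) : 𝔸)⁆ = 0
      have e1 : Q ⁅(u : 𝔸), ((x : m) : 𝔸)⁆ h0 = 0 := by
        have e2 : Q ((x : m) : 𝔸) ⁅h0, (u : 𝔸)⁆ = 0 := by
          rw [← rt_coe hN hC u, ← hw]; exact hx1
        rw [hN.Qsymm, ← hN.Qinv, hN.Qsymm]
        exact e2
      by_cases h00 : h0 = 0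
      · rw [hr, h00, smul_zero]
      · have e3 := hN.Qpos h0 (hN.red.h_le hC.mem) h00
        rw [hr, map_smul, LinearMap.smul_apply, smul_eq_mul] at e1
        rcases mul_eq_zero.1 e1 with e4 | e4
        · rw [hr, e4, zero_smul]
        · exact absurd e4 e3.ne'
  omega

theorem ee_linF (hN : NData g h m Q P) {ι : Type*} [Fintype ι] {v : m → ℝ} {f : ι → m → ℝ}
    (hv : ContDiffOn ℝ ∞ v {0}ᶜ) (hf : ∀ i, ContDiffOn ℝ ∞ (f i) {0}ᶜ) (p : ι → ℝ) {u : m}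
    (hu : u ≠ 0) : ee Q P (fun y => linF v f (p, y)) u =
      ee Q P v u + ∑ i, p i • ee Q P (f i) u := by
  have h1 : gx Q (fun y => linF v f (p, y)) u = gx Q v u + ∑ i, p i • gx Q (f i) u := by
    refine rep_unique hN fun w => ?_
    rw [gx_spec hN]
    have h2 : HasFDerivAt (fun y => linF v f (p, y))
        (fderiv ℝ v u + ∑ i, p i • fderiv ℝ (f i) u) u := by
      refine (differentiableAt_of_ne hv hu).hasFDerivAt.add (HasFDerivAt.fun_sum fun i _ => ?_)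
      exact (differentiableAt_of_ne (hf i) hu).hasFDerivAt.const_smul (p i)
    have h3 : D1 (fun y => linF v f (p, y)) u w =
        (fderiv ℝ v u + ∑ i, p i • fderiv ℝ (f i) u) w := by
      unfold D1; rw [h2.fderiv]
    rw [h3, Submodule.coe_add, map_add, LinearMap.add_apply, gx_spec hN]
    simp only [_root_.add_apply, _root_.sum_apply,
      _root_.smul_apply, Submodule.coe_sum, Submodule.coe_smul, map_sum, map_smul,
      LinearMap.sum_apply, LinearMap.smul_apply, gx_spec hN]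
    rfl
  unfold ee
  rw [h1]
  simp only [Submodule.coe_add, Submodule.coe_sum, Submodule.coe_smul, Ring.lie_def, mul_add,
    add_mul, Finset.mul_sum, Finset.sum_mul, mul_smul_comm, smul_mul_assoc]
  rw [add_sub_add_comm, ← Finset.sum_sub_distrib, map_add, map_sum]
  congr 1
  refine Finset.sum_congr rfl fun i _ => ?_
  rw [← smul_sub, map_smul]

/-- the derivative of `B` at a zero of `B` kills `u` and `[h₀, u]` -/
theorem fderiv_B_self (hC : Cas g h m Q P h0 B c) {u : m} (hu : u ≠ 0) (hB : B u = 0) :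
    fderiv ℝ B u u = 0 := by
  have h1 : HasFDerivAt B (fderiv ℝ B u) ((1 : ℝ) • u) := by
    rw [one_smul]
    exact ((hC.Bsm.contDiffAt (isOpen_compl_singleton.mem_nhds hu)).differentiableAt
      (by simp)).hasFDerivAt
  have h2 : HasDerivAt (fun r : ℝ => B (r • u)) (fderiv ℝ B u ((1 : ℝ) • u)) 1 :=
    h1.comp_hasDerivAt 1 ((hasDerivAt_id (1 : ℝ)).smul_const u)
  have h3 : (fun r : ℝ => B (r • u)) = fun _ => 0 := by
    funext r; rw [hC.Bhom, hB, smul_zero]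
  rw [h3, one_smul] at h2
  exact h2.unique (hasDerivAt_const 1 0)

theorem fderiv_B_rt (hN : NData g h m Q P) (hC : Cas g h m Q P h0 B c) {u : m} (hu : u ≠ 0)
    (hB : B u = 0) : fderiv ℝ B u (P ⁅h0, (u : 𝔸)⁆) = 0 := by
  have h1 := hC.Bequi u hu h0 (hN.red.h_le hC.mem) ?_
  · have h2 : ⁅(0 : 𝔸), h0⁆ = 0 := by rw [Ring.lie_def, zero_mul, mul_zero, sub_zero]
    rw [hB, h2, skew, map_neg, map_neg, neg_eq_zero] at h1
    exact h1
  · rw [skew]
    exact m.neg_mem (hN.red.ad h0 hC.mem u u.2)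

/-- **RE1, abstract form**: `ℓ j` are the gauge functionals (`Im z_j` in space (1)), the functions
`f i` separate all directions except `[h₀, u]`, the derivative of `B` has rank at least three and
the centraliser in `𝔪` has dimension at most `d < 4` -/
theorem RE1_abs (hN : NData g h m Q P) (hC : Cas g h m Q P h0 B c)
    {ι κ : Type*} [Fintype ι] [Finite κ] {v : m → ℝ} {f : ι → m → ℝ}
    (hv : ContDiffOn ℝ ∞ v {0}ᶜ) (hf : ∀ i, ContDiffOn ℝ ∞ (f i) {0}ᶜ)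
    (G : m → Prop) (ℓ : κ → m →L[ℝ] ℝ)
    (hinv : ∀ u, G u → ∀ x : m, (∀ i, D1 (f i) u x = 0) → ∃ t : ℝ, x = t • P ⁅h0, (u : 𝔸)⁆)
    (hrk : ∀ u : m, Q (u : 𝔸) u = 1 → B u = 0 →
      ∃ L : 𝔸 →L[ℝ] (Fin 3 → ℝ), Function.Surjective fun x : m => L (fderiv ℝ B u x))
    {d : ℕ} (hcent : ∀ u : m, Q (u : 𝔸) u = 1 → G u → B u = 0 → ∀ K : Submodule ℝ m,
      (∀ x ∈ K, ⁅(u : 𝔸), (x : 𝔸)⁆ = 0) → finrank ℝ K ≤ d)
    (hdim : d < 4) :
    Negl {p : ι → ℝ | ∃ u : m, Q (u : 𝔸) u = 1 ∧ G u ∧ B u = 0 ∧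
      (∃ j, ℓ j u = 0 ∧ ℓ j (P ⁅h0, (u : 𝔸)⁆) ≠ 0) ∧
      ee Q P (fun y => linF v f (p, y)) u = 0} := by
  classical
  have := Fintype.ofFinite κ
  have key : ∀ j : κ, Negl {p : ι → ℝ | ∃ u : m, (u, p) ∈ {z : m × (ι → ℝ) |
      Q (z.1 : 𝔸) z.1 = 1 ∧ G z.1 ∧ B z.1 = 0 ∧ ℓ j z.1 = 0 ∧ ℓ j (P ⁅h0, (z.1 : 𝔸)⁆) ≠ 0 ∧
      ee Q P (fun y => linF v f (z.2, y)) z.1 = 0}} := by
    intro j
    have hne : ∀ u : m, Q (u : 𝔸) u = 1 → u ≠ 0 := by
      rintro u hu rfl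
      rw [Submodule.coe_zero, map_zero] at hu
      exact zero_ne_one hu
    refine negl_of_block (G := ℝ × (Fin 3 → ℝ) × ℝ) (F := m) (r := 5)
      (k := finrank ℝ m - 1 - d) (by omega) ?_
    rintro ⟨u, p⟩ ⟨hu1, hG, hB, hl, hl', he⟩
    have hu0 := hne u hu1
    obtain ⟨L, hL⟩ := hrk u hu1 hB
    dsimp only at hl hl' he
    have hBd : HasStrictFDerivAt B (fderiv ℝ B u) u :=
      (hC.Bsm.contDiffAt (isOpen_compl_singleton.mem_nhds hu0)).hasStrictFDerivAt (by simp)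
    have hQd : HasStrictFDerivAt (fun x : m => BN m Q x x)
        ((BN m Q u) + (BN m Q).flip u) u := by
      have h1 : HasStrictFDerivAt (fun x : m => BN m Q x) (BN m Q) u :=
        (BN m Q).hasStrictFDerivAt
      have h2 := h1.clm_apply (hasStrictFDerivAt_id (𝕜 := ℝ) u)
      refine h2.congr_fderiv ?_
      ext x
      simp
    refine ⟨fun x => (BN m Q x x, L (B x), ℓ j x),
      ((BN m Q u) + (BN m Q).flip u).prod ((L.comp (fderiv ℝ B u)).prod (ℓ j)),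
      fun z => ee Q P v z.1 + ∑ i, z.2 i • ee Q P (f i) z.1,
      (fderiv ℝ (fun x => ee Q P v x) u).comp (ContinuousLinearMap.fst ℝ m (ι → ℝ)) +
        ∑ i, (p i • (fderiv ℝ (fun x => ee Q P (f i) x) u).comp
          (ContinuousLinearMap.fst ℝ m (ι → ℝ)) +
          ((ContinuousLinearMap.proj i).comp (ContinuousLinearMap.snd ℝ m (ι → ℝ))).smulRight
            (ee Q P (f i) u)), ?_, ?_, ?_, ?_, ?_, ?_⟩
    · exact hQd.prodMk (((L.hasStrictFDerivAt).comp u hBd).prodMk (ℓ j).hasStrictFDerivAt)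
    · refine eventually_nhdsWithin_of_forall ?_
      rintro ⟨x, q⟩ ⟨hx1, -, hxB, hxl, -, -⟩
      have e1 : BN m Q x x = 1 := hx1
      have e2 : BN m Q u u = 1 := hu1
      show (BN m Q x x, L (B x), ℓ j x) = (BN m Q u u, L (B u), ℓ j u)
      have e3 : B x = 0 := hxB
      have e4 : ℓ j x = 0 := hxl
      have e5 : B u = 0 := hB
      rw [e1, e2, e3, e4, e5, hl]
    · have h5 : finrank ℝ (ℝ × (Fin 3 → ℝ) × ℝ) = 5 := by simp
      rw [← h5]
      refine rank_ge_of_surj _ LinearMap.id ?_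
      rintro ⟨a, t, s⟩
      obtain ⟨x1, hx1⟩ := hL t
      obtain ⟨w, hw⟩ : ∃ w : m, w = P ⁅h0, (u : 𝔸)⁆ := ⟨_, rfl⟩
      have hw0 : ℓ j w ≠ 0 := by rw [hw]; exact hl'
      have e1 : Q (u : 𝔸) u = 1 := hu1
      have e2 : Q (u : 𝔸) w = 0 := by
        rw [hw, rt_coe hN hC, Q_self_lie hN]
      have e3 : Q (w : 𝔸) u = 0 := by
        rw [hN.Qsymm]; exact e2
      have e4 : fderiv ℝ B u u = 0 := fderiv_B_self hC hu0 hB
      have e5 : fderiv ℝ B u w = 0 := by rw [hw]; exact fderiv_B_rt hN hC hu0 hB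
      refine ⟨x1 + ((a - (BN m Q u x1 + BN m Q x1 u)) / 2) • u + ((s - ℓ j x1) / ℓ j w) • w, ?_⟩
      refine Prod.ext ?_ (Prod.ext ?_ ?_)
      · simp [e1, e2, e3]
        ring
      · have hx2 : L (fderiv ℝ B u x1) = t := hx1
        simp [e4, e5, hx2]
      · have : ℓ j u = 0 := hl
        simp [this, div_mul_cancel₀ _ hw0]
    · have hs1 : HasStrictFDerivAt (fun z : m × (ι → ℝ) => ee Q P v z.1)
          ((fderiv ℝ (fun x => ee Q P v x) u).comp (ContinuousLinearMap.fst ℝ m (ι → ℝ)))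
          (u, p) := by
        have h1 := ((Pool.Agent.helper75.FL.ee_smooth hN hv).contDiffAt
          (isOpen_compl_singleton.mem_nhds hu0)).hasStrictFDerivAt (by simp)
        exact h1.comp (u, p) (ContinuousLinearMap.fst ℝ m (ι → ℝ)).hasStrictFDerivAt
      refine hs1.add (HasStrictFDerivAt.fun_sum fun i _ => ?_)
      have hs2 : HasStrictFDerivAt (fun z : m × (ι → ℝ) => ee Q P (f i) z.1)
          ((fderiv ℝ (fun x => ee Q P (f i) x) u).comp (ContinuousLinearMap.fst ℝ m (ι → ℝ)))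
          (u, p) := by
        have h1 := ((Pool.Agent.helper75.FL.ee_smooth hN (hf i)).contDiffAt
          (isOpen_compl_singleton.mem_nhds hu0)).hasStrictFDerivAt (by simp)
        exact h1.comp (u, p) (ContinuousLinearMap.fst ℝ m (ι → ℝ)).hasStrictFDerivAt
      have hs3 : HasStrictFDerivAt (fun z : m × (ι → ℝ) => z.2 i)
          ((ContinuousLinearMap.proj i).comp (ContinuousLinearMap.snd ℝ m (ι → ℝ))) (u, p) :=
        ((ContinuousLinearMap.proj (R := ℝ) (φ := fun _ : ι => ℝ) i).comp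
          (ContinuousLinearMap.snd ℝ m (ι → ℝ))).hasStrictFDerivAt
      exact hs3.smul hs2
    · refine eventually_nhdsWithin_of_forall ?_
      rintro ⟨x, q⟩ ⟨hx1, -, -, -, -, hxe⟩
      show ee Q P v x + ∑ i, q i • ee Q P (f i) x = ee Q P v u + ∑ i, p i • ee Q P (f i) u
      rw [← ee_linF hN hv hf q (hne x hx1), ← ee_linF hN hv hf p hu0]
      have : ee Q P (fun y => linF v f (q, y)) x = 0 := hxe
      rw [this, he]
    · have h6 := rank_bracket hN hC (y := fun i => gx Q (f i) u) (u := u) (d := d) ?_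
        (hcent u hu1 hG hB)
        (((((fderiv ℝ (fun x => ee Q P v x) u).comp (ContinuousLinearMap.fst ℝ m (ι → ℝ)) +
        ∑ i, (p i • (fderiv ℝ (fun x => ee Q P (f i) x) u).comp
          (ContinuousLinearMap.fst ℝ m (ι → ℝ)) +
          ((ContinuousLinearMap.proj i).comp (ContinuousLinearMap.snd ℝ m (ι → ℝ))).smulRight
            (ee Q P (f i) u)) : m × (ι → ℝ) →L[ℝ] m) : m × (ι → ℝ) →ₗ[ℝ] m)) ∘ₗ
            LinearMap.inr ℝ m (ι → ℝ)) ?_
      · omega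
      · intro z hz
        refine hinv u hG z fun i => ?_
        rw [← gx_spec hN]
        exact hz i
      · intro q
        simp [ee]
  refine (Negl.biUnion (Finset.univ : Finset κ) (fun j _ => key j)).mono ?_
  rintro p ⟨u, h1, h2, h3, ⟨j, h4, h5⟩, h6⟩
  exact Set.mem_biUnion (Finset.mem_coe.2 (Finset.mem_univ j)) ⟨u, h1, h2, h3, h4, h5, h6⟩

end Abstract

end Pool.Agent.FL.G3G

namespace Pool.Agent.FL.S1.G3G

open Pool.Agent.FL.G3G
open scoped ContDiff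
open Pool.Agent.Helper93.Fin Pool.Agent.helper79.FP Pool.Agent.helper79.FR
open Pool.Agent.helper75.FL (ee)
open Pool.Agent.helper90.FL (Negl)
open Filter Topology Module
open scoped Quaternion Matrix ComplexConjugate
open Pool.Agent.helper79.FR.Sp2 (Mat QQ h0 m gg hh PP BB cc H)

attribute [local instance] Matrix.linftyOpNormedRing Matrix.linftyOpNormedAlgebra

/-! ### the isotropy group -/

theorem H_dgU {k : Matˣ} (hk : k ∈ H 1 3) : ∃ (z : ℂ) (hz : ‖z‖ = 1), k = dgU z hz := by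
  obtain ⟨z, hz, h⟩ := hk
  exact ⟨z, hz, Units.ext h⟩

theorem Gen_adM {k : Matˣ} (hk : k ∈ H 1 3) {u : V} (hu : Gen u) : Gen (adM (PP 1 3) k u) := by
  obtain ⟨z, hz, rfl⟩ := H_dgU hk
  have h1 := rotH z hz u
  have hz0 : z ≠ 0 := by intro h; rw [h, norm_zero] at hz; exact zero_ne_one hz
  have hz1 : conj z ≠ 0 := by rwa [Ne, map_eq_zero]
  unfold Gen at hu ⊢
  rw [h1.1, h1.2.1, h1.2.2.1, h1.2.2.2.1, h1.2.2.2.2]
  simpa [hz0, hz1] using hu

theorem Gen_ne {u : V} (hu : Gen u) : ¬ (cP u = 0 ∧ cR u = 0 ∧ cC u = 0 ∧ cQ u = 0) := by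
  rintro ⟨h1, h2, h3, h4⟩
  rcases hu with ⟨h, -⟩ | ⟨-, h | h⟩
  · exact h h4
  · exact h h3
  · exact h h1

theorem Gen_ne_zero {u : V} (hu : Gen u) : u ≠ 0 := by
  rintro rfl
  exact Gen_ne hu ⟨map_zero _, map_zero _, map_zero _, map_zero _⟩

/-- a neighbourhood property of an invariant function is transported by the isotropy group -/
theorem germ_adM {χ : V → ℝ} (hχ : InvH (H 1 3) χ) {k : Matˣ} (hk : k ∈ H 1 3) {u : V}
    (h : χ =ᶠ[𝓝 u] fun _ => 1) : χ =ᶠ[𝓝 (adM (PP 1 3) k u)] fun _ => 1 := by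
  have h1 : Tendsto (fun y : V => adM (PP 1 3) k⁻¹ y) (𝓝 (adM (PP 1 3) k u)) (𝓝 u) := by
    have h2 := (adM (PP 1 3) k⁻¹).continuous.tendsto (adM (PP 1 3) k u)
    have h3 : adM (PP 1 3) k⁻¹ (adM (PP 1 3) k u) = u := by
      have := adM_adM_inv nD gD (inv_mem hk) u
      rwa [inv_inv] at this
    rwa [h3] at h2
  filter_upwards [h1.eventually h] with y hy
  have h4 := hχ k⁻¹ (inv_mem hk) y (adM (PP 1 3) k⁻¹ y) (adM_coe nD gD (inv_mem hk) y)
  rw [← h4]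
  exact hy

theorem BB_adM {k : Matˣ} (hk : k ∈ H 1 3) {u : V} (h : BB 1 3 u = 0) :
    BB 1 3 (adM (PP 1 3) k u) = 0 := by
  rw [gD.B k hk u _ (adM_coe nD gD hk u), h]
  simp [Adj]

theorem eu_adM {v : V → ℝ} (hv : Ph v) {k : Matˣ} (hk : k ∈ H 1 3) {u : V} (hu : u ≠ 0)
    (h : eu v u = 0) : eu v (adM (PP 1 3) k u) = 0 := by
  have h1 := ee_adM nD cD gD hv.phi.smooth hv.inv hk hu
  have h2 : ee QQ (PP 1 3) v u = 0 := h
  rw [h2, map_zero] at h1
  exact h1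

/-! ### the family separates -/

theorem D1_nr (u x : V) : D1 nr u x = 2 * QQ (u : Mat) x := by
  have h2 := ((BN (m 1 3) QQ).hasFDerivAt (x := u)).clm_apply (hasFDerivAt_id (𝕜 := ℝ) u)
  have h3 : D1 nr u x = (BN (m 1 3) QQ u) x + (BN (m 1 3) QQ x) u := by
    unfold D1
    have h4 : nr = fun y : V => BN (m 1 3) QQ y (id y) := rfl
    rw [h4, h2.fderiv]
    rfl
  rw [h3]
  show QQ (u : Mat) x + QQ (x : Mat) u = _
  rw [nD.Qsymm (x : Mat) u]
  ring

theorem D1_fam (k : FI) {u : V} (hu : u ≠ 0) (x : V) :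
    D1 (fam k) u x = nr u * D1 (f0 k) u x + f0 k u * D1 nr u x := by
  exact D1_mul (I1.nr_smooth.contDiffOn) (f0_I0 k).smooth hu x

/-- **the family separates all directions except `[h₀, u]`** at generic points -/
theorem fam_sep
    (INV : ∀ {u x : V}, Gen u → QQ (u : Mat) (x : Mat) = 0 → (∀ a : E0, D1 (s0 a) u x = 0) →
      ∃ r : ℝ, x = r • rt u)
    {u x : V} (hu : Gen u) (h : ∀ k : FI, D1 (fam k) u x = 0) : ∃ r : ℝ, x = r • rt u := by
  have hu0 := Gen_ne_zero hu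
  have h1 : QQ (u : Mat) x = 0 := by
    have h2 := h (Sum.inl ((Sum.inl 0, none), 0))
    rw [D1_fam _ hu0] at h2
    have h3 : f0 (Sum.inl ((Sum.inl 0, none), 0)) = fun _ => 1 := by
      funext y
      show sF (Sum.inl 0, none) y ^ ((0 : Fin (NT + 1)) : ℕ) = 1
      simp
    rw [h3, D1_nr] at h2
    have h4 : D1 (fun _ : V => (1 : ℝ)) u x = 0 := by simp [D1]
    rw [h4] at h2
    linarith
  refine INV hu h1 fun a => ?_
  have h2 := h (Sum.inl ((a, none), 1))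
  rw [D1_fam _ hu0, D1_nr, h1] at h2
  have h3 : f0 (Sum.inl ((a, none), 1)) = s0 a := by
    funext y
    show sF (a, none) y ^ ((1 : Fin (NT + 1)) : ℕ) = s0 a y
    have : ((1 : Fin (NT + 1)) : ℕ) = 1 := rfl
    rw [this, pow_one]
    rfl
  rw [h3, mul_zero, mul_zero, add_zero] at h2
  exact (mul_eq_zero.1 h2).resolve_left (nr_pos hu0).ne'

/-- dimension of the centraliser at generic wall points -/
theorem cent_le {u : V} (h1 : QQ (u : Mat) u = 1) (hu : Gen u) (hB : BB 1 3 u = 0)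
    (K : Submodule ℝ V) (hK : ∀ x ∈ K, ⁅(u : Mat), (x : Mat)⁆ = 0) : finrank ℝ K ≤ 3 := by
  have hc : cc 1 3 u = 1 ∨ cc 1 3 u = -1 := by
    rcases wall_alg h1 hB with h | h
    · exact Or.inr h.1
    · exact Or.inl h.1
  have hn : ¬ (c0 u = 0 ∧ cQ u = 0) := by
    rintro ⟨h2, h3⟩
    rcases hu with ⟨h, -⟩ | ⟨h, -⟩
    · exact h h3
    · exact h h2
  obtain ⟨y, hy1, hy2, hy3, hy4⟩ := S6 (Gen_ne_zero hu) hc hn
  have h5 : Module.finrank ℝ (centM u) ≤ 3 := centM_finrank h1 hB ⟨hy1, hy2, hy3⟩ hy4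
  refine (Submodule.finrank_mono ?_).trans h5
  intro x hx
  exact ⟨Pool.Agent.helper79.FP.mg nD x, hK x hx⟩

/-- **G3 (RE1)**, without the second vector of the flag -/
theorem G3' (INV : ∀ {u x : V}, Gen u → QQ (u : Mat) (x : Mat) = 0 →
      (∀ a : E0, D1 (s0 a) u x = 0) → ∃ r : ℝ, x = r • rt u)
    {v χ : V → ℝ} (hv : Ph v) (hχ : I0 χ) :
    Negl {p : FI → ℝ | ∃ u : V, QQ (u : Mat) u = 1 ∧ BB 1 3 u = 0 ∧
      (χ =ᶠ[𝓝 u] fun _ => 1) ∧ Gen u ∧ eu (pt v χ p) u = 0} := by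
  refine (RE1_abs nD cD (v := v) (f := fun k u => χ u * fam k u) (κ := Fin 4) hv.phi.smooth
    (fun k => hχ.smooth.mul (fam_Ph k).phi.smooth)
    (fun u => (χ =ᶠ[𝓝 u] fun _ => 1) ∧ Gen u) gau ?_ ?_ (d := 3) ?_ (by norm_num)).mono ?_
  · rintro u ⟨h1, h2⟩ x hx
    refine fam_sep INV h2 fun k => ?_
    have h3 : (fun u => χ u * fam k u) =ᶠ[𝓝 u] fam k := by
      filter_upwards [h1] with y hy
      rw [hy, one_mul]
    have h4 := (ev_D1 h3 x).self_of_nhds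
    dsimp only at h4
    rw [← h4]
    exact hx k
  · intro u h1 hB
    refine S8 ?_ hB
    rintro rfl
    rw [Submodule.coe_zero, map_zero] at h1
    exact zero_ne_one h1
  · rintro u h1 ⟨-, h2⟩ hB K hK
    exact cent_le h1 h2 hB K hK
  · rintro p ⟨u, h1, h2, h3, h4, h5⟩
    obtain ⟨k, hk, j, hj1, hj2⟩ := gauge u (Gen_ne h4)
    have hu0 := Gen_ne_zero h4
    refine ⟨adM (PP 1 3) k u, ?_, ⟨germ_adM hχ.inv hk h3, Gen_adM hk h4⟩, BB_adM hk h2,
      ⟨j, hj1, hj2⟩, ?_⟩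
    · rw [Q_adM nD gD hk]; exact h1
    · exact eu_adM (pt_Ph hv hχ p) hk hu0 h5

/-- **G3** in the form of the hub, from `INV` -/
theorem G3_of (INV : ∀ {u x : V}, Gen u → QQ (u : Mat) (x : Mat) = 0 →
      (∀ a : E0, D1 (s0 a) u x = 0) → ∃ r : ℝ, x = r • rt u)
    {v χ : V → ℝ} (hv : Ph v) (hχ : I0 χ) :
    Negl {p : FI → ℝ | ∃ u b, Wl u b ∧ (χ =ᶠ[𝓝 u] fun _ => 1) ∧ Gen u ∧
      eu (pt v χ p) u = 0} := by
  refine (G3' INV hv hχ).mono ?_
  rintro p ⟨u, b, h1, h2, h3, h4⟩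
  exact ⟨u, h1.1.1, (BB_ne_zero_iff h1.1).2 h1.2, h2, h3, h4⟩

end Pool.Agent.FL.S1.G3G
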