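import Pool.Agent.helper79.FR.StepB

/-!
# MP_f09395_gt, kinks, part 1: smoothness of the gradient and gauge invariance of the third order
form
-/

set_option linter.unusedSectionVars false

noncomputable section

namespace Pool.Agent.helper53.FL

open scoped ContDiff
open Pool.Agent.Helper93.Fin Pool.Agent.helper79.FP Pool.Agent.helper79.FR
open Filter Topology

variable {𝔸 : Type*} [NormedRing 𝔸] [NormedAlgebra ℝ 𝔸] [FiniteDimensional ℝ 𝔸]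
variable {g h m : Submodule ℝ 𝔸} {Q : 𝔸 →ₗ[ℝ] 𝔸 →ₗ[ℝ] ℝ} {P : 𝔸 →L[ℝ] m} {φ ψ : m → ℝ}
variable {h0 : 𝔸} {B : m → 𝔸} {c : m → ℝ}

/-! ### brackets -/

theorem lie_add' (X Y Z : 𝔸) : ⁅X, Y + Z⁆ = ⁅X, Y⁆ + ⁅X, Z⁆ := by
  simp only [Ring.lie_def, add_mul, mul_add]; abel

theorem lie_sub' (X Y Z : 𝔸) : ⁅X, Y - Z⁆ = ⁅X, Y⁆ - ⁅X, Z⁆ := by
  simp only [Ring.lie_def, sub_mul, mul_sub]; abel

theorem lie_smul' (r : ℝ) (X Y : 𝔸) : ⁅X, r • Y⁆ = r • ⁅X, Y⁆ := by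
  simp only [Ring.lie_def, smul_mul_assoc, mul_smul_comm, smul_sub]

theorem jac (X Y Z : 𝔸) : ⁅X, ⁅Y, Z⁆⁆ = ⁅⁅X, Y⁆, Z⁆ + ⁅Y, ⁅X, Z⁆⁆ := by
  simp only [Ring.lie_def]; noncomm_ring

/-- derivative of a bracket -/
theorem lie_fderiv {E : Type*} [NormedAddCommGroup E] [NormedSpace ℝ E] {a b : E → 𝔸}
    {u : E} (ha : DifferentiableAt ℝ a u) (hb : DifferentiableAt ℝ b u) (v : E) :
    fderiv ℝ (fun z => ⁅a z, b z⁆) u v = ⁅fderiv ℝ a u v, b u⁆ + ⁅a u, fderiv ℝ b u v⁆ := by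
  have h1 := (ha.hasFDerivAt.mul' hb.hasFDerivAt).sub (hb.hasFDerivAt.mul' ha.hasFDerivAt)
  have h2 : (fun z => ⁅a z, b z⁆) = (a * b - b * a) := by
    funext z; simp [Ring.lie_def]
  rw [h2, h1.fderiv]
  simp [Ring.lie_def]
  abel

theorem lie_smooth {a b : m → 𝔸} (ha : ContDiffOn ℝ ∞ a {0}ᶜ) (hb : ContDiffOn ℝ ∞ b {0}ᶜ) :
    ContDiffOn ℝ ∞ (fun z => ⁅a z, b z⁆) {0}ᶜ := by
  simp only [Ring.lie_def]
  exact (ha.mul hb).sub (hb.mul ha)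

theorem coe_smooth' {a : m → m} (ha : ContDiffOn ℝ ∞ a {0}ᶜ) :
    ContDiffOn ℝ ∞ (fun z => (a z : 𝔸)) {0}ᶜ := m.subtypeL.contDiff.comp_contDiffOn ha

theorem coe_fderiv {a : m → m} (ha : ContDiffOn ℝ ∞ a {0}ᶜ) {u : m} (hu : u ≠ 0) (v : m) :
    fderiv ℝ (fun z => (a z : 𝔸)) u v = (fderiv ℝ a u v : 𝔸) := by
  have h1 := m.subtypeL.hasFDerivAt.comp u (differentiableAt_of_ne ha hu).hasFDerivAt
  have h2 : HasFDerivAt (fun z => (a z : 𝔸)) (m.subtypeL.comp (fderiv ℝ a u)) u := h1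
  rw [h2.fderiv]
  rfl

/-! ### the gradient -/

/-- the Riesz map of `Q` on `𝔪` -/
theorem riesz (hN : NData g h m Q P) : ∃ R : (m →L[ℝ] ℝ) →L[ℝ] m, ∀ f, R f = rep Q f := by
  refine ⟨LinearMap.toContinuousLinearMap
    { toFun := rep Q
      map_add' := fun f f' => ?_
      map_smul' := fun r f => ?_ }, fun f => rfl⟩
  · refine rep_unique hN fun w => ?_
    rw [rep_spec hN, Submodule.coe_add, map_add, LinearMap.add_apply, rep_spec hN, rep_spec hN]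
    rfl
  · refine rep_unique hN fun w => ?_
    simp only [RingHom.id_apply]
    rw [rep_spec hN, Submodule.coe_smul, map_smul, LinearMap.smul_apply, rep_spec hN]
    rfl

theorem gx_smooth (hN : NData g h m Q P) (hf : ContDiffOn ℝ ∞ φ {0}ᶜ) :
    ContDiffOn ℝ ∞ (gx Q φ : m → m) {0}ᶜ := by
  obtain ⟨R, hR⟩ := riesz hN
  have h1 : (gx Q φ : m → m) = fun u => R (fderiv ℝ φ u) := funext fun u => (hR _).symm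
  rw [h1]
  exact R.contDiff.comp_contDiffOn (smooth_fderiv hf)

/-- the derivative of the gradient -/
theorem gx_fderiv (hN : NData g h m Q P) (hf : ContDiffOn ℝ ∞ φ {0}ᶜ) {u : m} (hu : u ≠ 0)
    (v : m) : fderiv ℝ (gx Q φ : m → m) u v = gs Q φ u v := by
  obtain ⟨R, hR⟩ := riesz hN
  have h1 : (gx Q φ : m → m) = fun u => R (fderiv ℝ φ u) := funext fun u => (hR _).symm
  have h2 : HasFDerivAt (gx Q φ : m → m) (R.comp (fderiv ℝ (fderiv ℝ φ) u)) u := by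
    rw [h1]
    exact R.hasFDerivAt.comp u (differentiableAt_of_ne (smooth_fderiv hf) hu).hasFDerivAt
  rw [h2.fderiv]
  refine rep_unique hN fun w => ?_
  rw [gs_spec hN, D2_symm hf hu, D2_eq' hf hu]
  show Q (R (fderiv ℝ (fderiv ℝ φ) u v) : 𝔸) w = _
  rw [hR, rep_spec hN]

/-- the Hamiltonian field of `φ` -/
def ef (Q : 𝔸 →ₗ[ℝ] 𝔸 →ₗ[ℝ] ℝ) (P : 𝔸 →L[ℝ] m) (φ : m → ℝ) (u : m) : m :=
  P ⁅(u : 𝔸), (gx Q φ u : 𝔸)⁆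

theorem ef_coe (hN : NData g h m Q P) (hφ : PhiN h m P φ) {u : m} (hu : u ≠ 0) :
    (ef Q P φ u : 𝔸) = ⁅(u : 𝔸), (gx Q φ u : 𝔸)⁆ := e_mem hN hφ hu (gx_spec hN u)

theorem id_smooth : ContDiffOn ℝ ∞ (fun z : m => (z : 𝔸)) {0}ᶜ :=
  m.subtypeL.contDiff.contDiffOn

theorem ef_smooth (hN : NData g h m Q P) (hf : ContDiffOn ℝ ∞ φ {0}ᶜ) :
    ContDiffOn ℝ ∞ (ef Q P φ) {0}ᶜ :=
  P.contDiff.comp_contDiffOn (lie_smooth id_smooth (coe_smooth' (gx_smooth hN hf)))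

theorem id_fderiv (u v : m) : fderiv ℝ (fun z : m => (z : 𝔸)) u v = v := by
  have h1 : HasFDerivAt (fun z : m => (z : 𝔸)) m.subtypeL u := m.subtypeL.hasFDerivAt
  rw [h1.fderiv]; rfl

/-- first derivative of the Hamiltonian field -/
theorem ef_fderiv (hN : NData g h m Q P) (hφ : PhiN h m P φ) {u : m} (hu : u ≠ 0) (v : m) :
    (fderiv ℝ (ef Q P φ) u v : 𝔸) = ⁅(v : 𝔸), (gx Q φ u : 𝔸)⁆ +
      ⁅(u : 𝔸), (gs Q φ u v : 𝔸)⁆ := by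
  rw [← coe_fderiv (ef_smooth hN hφ.smooth) hu]
  have h1 : (fun z => (ef Q P φ z : 𝔸)) =ᶠ[𝓝 u] fun z : m => ⁅(z : 𝔸), (gx Q φ z : 𝔸)⁆ :=
    (eventually_ne' hu).mono fun z hz => ef_coe hN hφ hz
  rw [h1.fderiv_eq, lie_fderiv (differentiableAt_of_ne id_smooth hu)
    (differentiableAt_of_ne (coe_smooth' (gx_smooth hN hφ.smooth)) hu), id_fderiv,
    coe_fderiv (gx_smooth hN hφ.smooth) hu, gx_fderiv hN hφ.smooth hu]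

theorem gs_smooth (hN : NData g h m Q P) (hf : ContDiffOn ℝ ∞ φ {0}ᶜ) (v : m) :
    ContDiffOn ℝ ∞ (fun z => gs Q φ z v) {0}ᶜ := by
  have h1 : ∀ z ∈ ({0}ᶜ : Set m), gs Q φ z v = fderiv ℝ (gx Q φ : m → m) z v :=
    fun z hz => (gx_fderiv hN hf hz v).symm
  exact (smooth_fderiv_apply (gx_smooth hN hf) v).congr h1

/-- second derivative of the Hamiltonian field -/
theorem ef_fderiv2 (hN : NData g h m Q P) (hφ : PhiN h m P φ) {u : m} (hu : u ≠ 0) (v w : m) :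
    ∃ y : m, (fderiv ℝ (fun z => fderiv ℝ (ef Q P φ) z v) u w : 𝔸) =
      ⁅(v : 𝔸), (gs Q φ u w : 𝔸)⁆ + ⁅(w : 𝔸), (gs Q φ u v : 𝔸)⁆ + ⁅(u : 𝔸), (y : 𝔸)⁆ := by
  refine ⟨fderiv ℝ (fun z => gs Q φ z v) u w, ?_⟩
  have s0 := ef_smooth hN hφ.smooth (P := P)
  have s1 := smooth_fderiv_apply s0 v
  rw [← coe_fderiv s1 hu]
  have h1 : (fun z => ((fderiv ℝ (ef Q P φ) z v : m) : 𝔸)) =ᶠ[𝓝 u] fun z : m =>
      ⁅(v : 𝔸), (gx Q φ z : 𝔸)⁆ + ⁅(z : 𝔸), (gs Q φ z v : 𝔸)⁆ :=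
    (eventually_ne' hu).mono fun z hz => ef_fderiv hN hφ hz v
  have g1 := coe_smooth' (gx_smooth hN hφ.smooth)
  have g2 := coe_smooth' (gs_smooth hN hφ.smooth v)
  have g3 : ContDiffOn ℝ ∞ (fun z : m => ⁅(v : 𝔸), (gx Q φ z : 𝔸)⁆) {0}ᶜ :=
    lie_smooth contDiffOn_const g1
  have g4 : ContDiffOn ℝ ∞ (fun z : m => ⁅(z : 𝔸), (gs Q φ z v : 𝔸)⁆) {0}ᶜ :=
    lie_smooth id_smooth g2
  rw [h1.fderiv_eq]
  have h2 : fderiv ℝ (fun z : m => ⁅(v : 𝔸), (gx Q φ z : 𝔸)⁆ + ⁅(z : 𝔸), (gs Q φ z v : 𝔸)⁆) u =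
      fderiv ℝ (fun z : m => ⁅(v : 𝔸), (gx Q φ z : 𝔸)⁆) u +
      fderiv ℝ (fun z : m => ⁅(z : 𝔸), (gs Q φ z v : 𝔸)⁆) u :=
    fderiv_add (differentiableAt_of_ne g3 hu) (differentiableAt_of_ne g4 hu)
  rw [h2, add_apply, lie_fderiv (differentiableAt_const _)
    (differentiableAt_of_ne g1 hu), lie_fderiv (differentiableAt_of_ne id_smooth hu)
    (differentiableAt_of_ne g2 hu), id_fderiv, coe_fderiv (gx_smooth hN hφ.smooth) hu,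
    gx_fderiv hN hφ.smooth hu, coe_fderiv (gs_smooth hN hφ.smooth v) hu]
  have h3 : fderiv ℝ (fun _ : m => (v : 𝔸)) u w = 0 := by simp
  rw [h3]
  have h4 : ⁅(0 : 𝔸), (gx Q φ u : 𝔸)⁆ = 0 := by simp [Ring.lie_def]
  rw [h4]
  abel

/-! ### gauge invariance -/

/-- the third order form with arguments in the algebra -/
def T3G (Q : 𝔸 →ₗ[ℝ] 𝔸 →ₗ[ℝ] ℝ) (P : 𝔸 →L[ℝ] m) (φ : m → ℝ)
    (u b x : m) (s : 𝔸) (y : m) : ℝ :=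
  - (1 / 2) * D4 φ u b b (P ⁅(u : 𝔸), (x : 𝔸)⁆) (P ⁅(u : 𝔸), (x : 𝔸)⁆)
    - D3 φ u b (P ⁅(u : 𝔸), (x : 𝔸)⁆) ((2 : ℝ) • P ⁅(b : 𝔸), (x : 𝔸)⁆ - P ⁅(u : 𝔸), s⁆)
    + (1 / 2) * D2 φ u (P ⁅(u : 𝔸), (x : 𝔸)⁆)
        (P ((2 : ℝ) • ⁅(b : 𝔸), s⁆ + ⁅(u : 𝔸), (y : 𝔸)⁆))
    - D2 φ u (P ⁅(b : 𝔸), (x : 𝔸)⁆) (P ⁅(b : 𝔸), (x : 𝔸)⁆)
    + D2 φ u (P ⁅(b : 𝔸), (x : 𝔸)⁆) (P ⁅(u : 𝔸), s⁆)
    - D2 φ u (P ⁅(u : 𝔸), s⁆) (P ⁅(u : 𝔸), s⁆)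
    - Q (P ⁅(b : 𝔸), (x : 𝔸)⁆ - P ⁅(u : 𝔸), s⁆ : m) ⁅(x : 𝔸), s⁆
    - (1 / 2) * Q ⁅(x : 𝔸), (y : 𝔸)⁆ (P ⁅(u : 𝔸), (x : 𝔸)⁆ : m)

theorem T3G_coe (u b x s y : m) : T3G Q P φ u b x (s : 𝔸) y = T3N Q P φ u b x s y := rfl

/-- the second order consequence of invariance -/
theorem phi_inv3 (hφ : PhiN h m P φ) {Y : 𝔸} (hY : Y ∈ h) {u : m}
    (hu : u ≠ 0) (z w : m) : D3 φ u z w (P ⁅Y, (u : 𝔸)⁆) =
      - D2 φ u z (P ⁅Y, (w : 𝔸)⁆) - D2 φ u w (P ⁅Y, (z : 𝔸)⁆) := by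
  have s1 := hφ.smooth
  have h0 : (fun x : m => fderiv ℝ (fun x => D1 φ x z) x (Py P Y x)) =ᶠ[nhds u]
      fun x => - D1 φ x (P ⁅Y, (z : 𝔸)⁆) := by
    filter_upwards [eventually_ne' hu] with x hx
    have h1 := phi_inv2 hφ hY hx z
    have h2 : Py P Y x = P ⁅Y, (x : 𝔸)⁆ := by simp
    rw [h2]
    exact h1
  have h1 : HasFDerivAt (fun x : m => fderiv ℝ (fun x => D1 φ x z) x (Py P Y x))
      ((fderiv ℝ (fun x => D1 φ x z) u).comp (Py P Y) +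
        (fderiv ℝ (fderiv ℝ (fun x => D1 φ x z)) u).flip (Py P Y u)) u := by
    have hd : DifferentiableAt ℝ (fderiv ℝ (fun x => D1 φ x z)) u :=
      differentiableAt_of_ne (smooth_fderiv (D1_smooth s1 z)) hu
    exact hd.hasFDerivAt.clm_apply (Py P Y).hasFDerivAt
  have h2 := h1.fderiv
  rw [h0.fderiv_eq] at h2
  have h3 := congrArg (fun T : m →L[ℝ] ℝ => T w) h2
  have h4 : fderiv ℝ (fun x => - D1 φ x (P ⁅Y, (z : 𝔸)⁆)) u w =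
      - fderiv ℝ (fun x => D1 φ x (P ⁅Y, (z : 𝔸)⁆)) u w := by
    rw [fderiv_fun_neg]; rfl
  rw [h4] at h3
  have h5 : Py P Y u = P ⁅Y, (u : 𝔸)⁆ := by simp
  have h6 : Py P Y w = P ⁅Y, (w : 𝔸)⁆ := by simp
  simp only [add_apply, ContinuousLinearMap.comp_apply,
    ContinuousLinearMap.flip_apply, h5, h6] at h3
  have h7 : D3 φ u z w (P ⁅Y, (u : 𝔸)⁆) =
      fderiv ℝ (fderiv ℝ (fun x => D1 φ x z)) u w (P ⁅Y, (u : 𝔸)⁆) := by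
    rw [D3_symm23 s1 hu]
    exact D2_eq' (f := fun x => D1 φ x z) (D1_smooth s1 z) hu _ _
  have h8 : D2 φ u z (P ⁅Y, (w : 𝔸)⁆) = fderiv ℝ (fun x => D1 φ x z) u (P ⁅Y, (w : 𝔸)⁆) := rfl
  have h9 : D2 φ u w (P ⁅Y, (z : 𝔸)⁆) = fderiv ℝ (fun x => D1 φ x (P ⁅Y, (z : 𝔸)⁆)) u w := by
    rw [D2_symm s1 hu]; rfl
  rw [h7, h8, h9]
  linarith

/-- **gauge invariance**: the middle argument may be changed by a multiple of `h₀` -/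
theorem T3G_gauge (hN : NData g h m Q P) (hC : Cas g h m Q P h0 B c) (hφ : PhiN h m P φ)
    {u b x y : m} {s : 𝔸} (hs : s ∈ g) (hu : u ≠ 0) (hx : ∀ w : m, Q (x : 𝔸) w = D1 φ u w)
    (hsb : ∀ w : m, Q s w = D2 φ u b w)
    (hp : (P ⁅(b : 𝔸), (x : 𝔸)⁆ : 𝔸) = ⁅(b : 𝔸), (x : 𝔸)⁆)
    (hq : (P ⁅(u : 𝔸), s⁆ : 𝔸) = ⁅(u : 𝔸), s⁆) (r : ℝ) :
    T3G Q P φ u b x (s + r • h0) y = T3G Q P φ u b x s y := by
  have he := e_mem hN hφ hu hx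
  have hh0 : h0 ∈ g := hN.red.h_le hC.mem
  obtain ⟨e, hed⟩ : ∃ e : m, e = P ⁅(u : 𝔸), (x : 𝔸)⁆ := ⟨_, rfl⟩
  obtain ⟨p, hpd⟩ : ∃ p : m, p = P ⁅(b : 𝔸), (x : 𝔸)⁆ := ⟨_, rfl⟩
  obtain ⟨q, hqd⟩ : ∃ q : m, q = P ⁅(u : 𝔸), s⁆ := ⟨_, rfl⟩
  obtain ⟨k, hkd⟩ : ∃ k : m, k = P ⁅(u : 𝔸), h0⁆ := ⟨_, rfl⟩
  rw [← hed] at he
  rw [← hpd] at hp
  rw [← hqd] at hq
  have hk1 : k = -P ⁅h0, (u : 𝔸)⁆ := by rw [hkd, skew, map_neg]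
  have hk : (k : 𝔸) = ⁅(u : 𝔸), h0⁆ := by
    rw [hk1, Submodule.coe_neg, h0b_mem hN hC, ← skew]
  have hq' : P ⁅(u : 𝔸), s + r • h0⁆ = q + r • k := by
    rw [lie_add', lie_smul', map_add, map_smul, ← hqd, ← hkd]
  have hr' : P ((2 : ℝ) • ⁅(b : 𝔸), s + r • h0⁆ + ⁅(u : 𝔸), (y : 𝔸)⁆) =
      P ((2 : ℝ) • ⁅(b : 𝔸), s⁆ + ⁅(u : 𝔸), (y : 𝔸)⁆) - (2 * r) • P ⁅h0, (b : 𝔸)⁆ := by
    rw [lie_add', lie_smul', skew (b : 𝔸) h0]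
    simp only [map_add, map_smul, smul_add, map_neg, smul_neg]
    rw [smul_smul]
    abel
  have s1 := hφ.smooth
  -- the linear rules
  have l3 : ∀ w w' : m, D3 φ u b e (w - r • w') = D3 φ u b e w - r * D3 φ u b e w' := by
    intro w w'
    unfold D3
    rw [map_sub, map_smul, smul_eq_mul]
  have l2 : ∀ a w w' : m, ∀ t : ℝ, D2 φ u a (w + t • w') = D2 φ u a w + t * D2 φ u a w' := by
    intro a w w' t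
    unfold D2
    rw [map_add, map_smul, smul_eq_mul]
  have l2' : ∀ a w w' : m, ∀ t : ℝ, D2 φ u a (w - t • w') = D2 φ u a w - t * D2 φ u a w' := by
    intro a w w' t
    unfold D2
    rw [map_sub, map_smul, smul_eq_mul]
  -- the facts
  have f1 : D3 φ u b e k = D2 φ u b (P ⁅h0, (e : 𝔸)⁆) + D2 φ u e (P ⁅h0, (b : 𝔸)⁆) := by
    have h1 := phi_inv3 hφ hC.mem hu b e
    have h2 : D3 φ u b e k = -D3 φ u b e (P ⁅h0, (u : 𝔸)⁆) := by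
      rw [hk1]
      unfold D3
      rw [map_neg]
    rw [h2, h1]; ring
  have f2 : ∀ w : m, D2 φ u w k = Q (x : 𝔸) ⁅h0, (w : 𝔸)⁆ := by
    intro w
    have h1 := phi_inv2 hφ hC.mem hu w
    have h2 : D2 φ u w k = -D2 φ u w (P ⁅h0, (u : 𝔸)⁆) := by
      rw [hk1]
      unfold D2
      rw [map_neg]
    rw [h2, h1, neg_neg, ← hx, Q_P hN x (lg hN hh0 (mg hN w))]
  have f3 : D2 φ u b (P ⁅h0, (e : 𝔸)⁆) = Q s ⁅h0, (e : 𝔸)⁆ := by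
    rw [← hsb, h0b_mem hN hC]
  have f4 : D2 φ u (q + r • k) (q + r • k) = D2 φ u q q + 2 * r * D2 φ u q k +
      r ^ 2 * D2 φ u k k := by
    rw [l2, D2_symm s1 hu (q + r • k) q, D2_symm s1 hu (q + r • k) k, l2, l2,
      D2_symm s1 hu k q]
    ring
  unfold T3G
  rw [← hed, ← hpd, ← hqd, hq', hr']
  have e1 : (2 : ℝ) • p - (q + r • k) = ((2 : ℝ) • p - q) - r • k := by abel
  have e2 : p - (q + r • k) = (p - q) - r • k := by abel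
  rw [e1, e2, l3, l2', l2, f4, f1, f2, f2, f2, f3, lie_add', lie_smul']
  simp only [Submodule.coe_sub, Submodule.coe_smul, map_add, map_sub, map_smul,
    LinearMap.sub_apply, LinearMap.smul_apply, smul_eq_mul]
  -- the remaining identity
  have g1 : Q (x : 𝔸) ⁅h0, (p : 𝔸)⁆ = Q (p : 𝔸) ⁅(x : 𝔸), h0⁆ := by
    rw [← hN.Qinv, hN.Qsymm]
  have g2 : Q (x : 𝔸) ⁅h0, (q : 𝔸)⁆ = Q (q : 𝔸) ⁅(x : 𝔸), h0⁆ := by
    rw [← hN.Qinv, hN.Qsymm]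
  have g3 : Q (x : 𝔸) ⁅h0, (k : 𝔸)⁆ = Q (k : 𝔸) ⁅(x : 𝔸), h0⁆ := by
    rw [← hN.Qinv, hN.Qsymm]
  have g4 : Q s ⁅h0, (e : 𝔸)⁆ - Q (q : 𝔸) ⁅(x : 𝔸), h0⁆ + Q (k : 𝔸) ⁅(x : 𝔸), s⁆ = 0 := by
    rw [he, hq, hk]
    have i1 : Q s ⁅h0, ⁅(u : 𝔸), (x : 𝔸)⁆⁆ = Q h0 ⁅⁅(u : 𝔸), (x : 𝔸)⁆, s⁆ := by
      rw [← hN.Qinv, skew s h0, map_neg, LinearMap.neg_apply, hN.Qinv, skew s, map_neg, neg_neg]
    have i2 : Q ⁅(u : 𝔸), s⁆ ⁅(x : 𝔸), h0⁆ = Q h0 ⁅⁅(u : 𝔸), s⁆, (x : 𝔸)⁆ := by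
      rw [← hN.Qinv, hN.Qsymm]
    have i3 : Q ⁅(u : 𝔸), h0⁆ ⁅(x : 𝔸), s⁆ = - Q h0 ⁅(u : 𝔸), ⁅(x : 𝔸), s⁆⁆ := by
      rw [skew (u : 𝔸) h0, map_neg, LinearMap.neg_apply, hN.Qinv]
    rw [i1, i2, i3, jac (u : 𝔸) (x : 𝔸) s, skew (x : 𝔸) ⁅(u : 𝔸), s⁆]
    simp only [map_add, map_neg]
    ring
  rw [g1, g2, g3]
  linear_combination r * g4

end Pool.Agent.helper53.FL
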