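import Pool.Agent.FL.WallC

/-!
# MP_f09395_gt, wall formulas: the derivatives of `c` and of `l ∘ c` at a wall flag
-/

set_option linter.unusedSectionVars false

noncomputable section

namespace Pool.Agent.FL.Wall

open scoped ContDiff
open Pool.Agent.Helper93.Fin Pool.Agent.helper79.FP Pool.Agent.helper79.FR
open Filter Topology

variable {𝔸 : Type*} [NormedRing 𝔸] [NormedAlgebra ℝ 𝔸] [FiniteDimensional ℝ 𝔸]
variable {g h m : Submodule ℝ 𝔸} {Q : 𝔸 →ₗ[ℝ] 𝔸 →ₗ[ℝ] ℝ} {P : 𝔸 →L[ℝ] m} {φ ψ v n : m → ℝ}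
variable {h0 : 𝔸} {B : m → 𝔸} {c : m → ℝ}

/-! ### the function `⟨u, u⟩` -/

/-- `⟨u, u⟩` -/
def rr (m : Submodule ℝ 𝔸) (Q : 𝔸 →ₗ[ℝ] 𝔸 →ₗ[ℝ] ℝ) (u : m) : ℝ := BN m Q u u

theorem rr_smooth : ContDiffOn ℝ ∞ (rr m Q) {0}ᶜ := BNsq_smooth'
  where BNsq_smooth' : ContDiffOn ℝ ∞ (fun u : m => BN m Q u u) {0}ᶜ :=
    ((BN m Q).contDiff.clm_apply contDiff_id).contDiffOn

theorem rr_D1 (hN : NData g h m Q P) (u a : m) : D1 (rr m Q) u a = 2 * Q (u : 𝔸) a := by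
  have h1 : HasFDerivAt (rr m Q)
      ((BN m Q u).comp (ContinuousLinearMap.id ℝ m) + (BN m Q).flip (id u)) u :=
    ((BN m Q).hasFDerivAt).clm_apply (hasFDerivAt_id u)
  rw [D1, h1.fderiv]
  simp only [ContinuousLinearMap.comp_id, id_eq, _root_.add_apply,
    ContinuousLinearMap.flip_apply, BN_apply]
  rw [hN.Qsymm (a : 𝔸) u]
  ring

theorem rr_D2 (hN : NData g h m Q P) (u a b : m) : D2 (rr m Q) u a b = 2 * Q (a : 𝔸) b := by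
  have h0 : (fun z => D1 (rr m Q) z a) = fun z => 2 * (BN m Q).flip a z := by
    funext z
    rw [rr_D1 hN]; rfl
  rw [D2, h0]
  have h1 : HasFDerivAt (fun z => 2 * (BN m Q).flip a z) ((2 : ℝ) • (BN m Q).flip a) u :=
    ((BN m Q).flip a).hasFDerivAt.const_mul 2
  rw [h1.fderiv]
  simp only [_root_.smul_apply, ContinuousLinearMap.flip_apply, BN_apply, smul_eq_mul]
  rw [hN.Qsymm]

theorem rr_D3 (hN : NData g h m Q P) (u a b d : m) : D3 (rr m Q) u a b d = 0 := by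
  have h0 : (fun z => D2 (rr m Q) z a b) = fun _ => 2 * Q (a : 𝔸) b := by
    funext z; rw [rr_D2 hN]
  rw [D3, h0]
  simp

/-! ### derivatives of `c` at wall flags -/

section wall

variable {u b : m} {X : 𝔸}

theorem wall_c1 (hN : NData g h m Q P) (hC : Cas g h m Q P h0 B c) (hF : Flag Q u b)
    (hw : Q (B u) b = 0) (w : m) : D1 c u w = 0 := by
  have h1 := hC.cD u (hF.ne hN) w
  rw [hF.1, mul_one, wall_B hC hF hw] at h1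
  simpa using h1

theorem c_id (hC : Cas g h m Q P h0 B c) (w : m) :
    ∀ z : m, z ≠ 0 → D1 c z w * rr m Q z = -4 * bq Q B w z := fun z hz => by
  rw [rr, BN_apply]
  exact hC.cD z hz w

theorem wall_c2 (hN : NData g h m Q P) (hC : Cas g h m Q P h0 B c) (hF : Flag Q u b)
    (hw : Q (B u) b = 0) (w a : m) : D2 c u w a = -4 * D1 (bq Q B w) u a := by
  have hu := hF.ne hN
  have h1 := D1_congr' (c_id hC w) hu a
  rw [D1_mul (D1_smooth hC.csm w) rr_smooth hu, D1_cmul _ (bq_smooth hC w) hu,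
    wall_c1 hN hC hF hw] at h1
  have h2 : rr m Q u = 1 := by rw [rr, BN_apply, hF.1]
  rw [h2, zero_mul, zero_add, one_mul] at h1
  exact h1

theorem wall_c2b (hN : NData g h m Q P) (hC : Cas g h m Q P h0 B c) (hW : CasW Q B c)
    (hF : Flag Q u b) (hw : Q (B u) b = 0) (w : m) : D2 c u b w = -16 * c u * Q (b : 𝔸) w := by
  have hu := hF.ne hN
  rw [D2_symm hC.csm hu, wall_c2 hN hC hF hw, bq_D1 hC hu, flag_B' hN hC hW hF, hw, zero_smul,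
    sub_zero, map_smul, LinearMap.smul_apply, smul_eq_mul]
  ring

/-- directions tangent to the orbits -/
theorem wall_c2e (hN : NData g h m Q P) (hC : Cas g h m Q P h0 B c)
    (hF : Flag Q u b) (hw : Q (B u) b = 0) (hX : X ∈ g)
    (hm : (P ⁅(u : 𝔸), X⁆ : 𝔸) = ⁅(u : 𝔸), X⁆) (w : m) : D2 c u (P ⁅(u : 𝔸), X⁆) w = 0 := by
  have hu := hF.ne hN
  rw [D2_symm hC.csm hu, wall_c2 hN hC hF hw, bq_equi hN hC hu hX hm, wall_bq hC hF hw, mul_zero]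

theorem wall_c3 (hN : NData g h m Q P) (hC : Cas g h m Q P h0 B c) (hF : Flag Q u b)
    (hw : Q (B u) b = 0) (w a a' : m) :
    D3 c u w a a' = -4 * D2 (bq Q B w) u a a' - 2 * Q (u : 𝔸) a' * D2 c u w a
      - 2 * Q (u : 𝔸) a * D2 c u w a' := by
  have hu := hF.ne hN
  have h1 := D2_congr' (c_id hC w) hu a a'
  have e1 : D2 (fun z => D1 c z w) u a a' = D3 c u w a a' := rfl
  have e2 : ∀ a, D1 (fun z => D1 c z w) u a = D2 c u w a := fun _ => rfl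
  rw [D2_mul (D1_smooth hC.csm w) rr_smooth hu, D2_cmul _ (bq_smooth hC w) hu,
    wall_c1 hN hC hF hw, rr_D1 hN, rr_D1 hN, e1, e2, e2] at h1
  have h2 : rr m Q u = 1 := by rw [rr, BN_apply, hF.1]
  rw [h2] at h1
  linarith

theorem wall_c3bb (hN : NData g h m Q P) (hC : Cas g h m Q P h0 B c) (hW : CasW Q B c)
    (hF : Flag Q u b) (hw : Q (B u) b = 0) (w : m) :
    D3 c u b b w = 32 * c u * Q (u : 𝔸) w := by
  have hu := hF.ne hN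
  rw [D3_symm23 hC.csm hu, D3_symm12 hC.csm hu, wall_c3 hN hC hF hw, wall_bb hN hC hW hF hw,
    hF.2.2.1]
  ring

theorem Q_lie_perp (hN : NData g h m Q P) (hm : (P ⁅(u : 𝔸), X⁆ : 𝔸) = ⁅(u : 𝔸), X⁆) :
    Q (u : 𝔸) (P ⁅(u : 𝔸), X⁆ : m) = 0 := by
  rw [hm, Q_self_lie' hN]

theorem wall_c3be (hN : NData g h m Q P) (hC : Cas g h m Q P h0 B c) (hW : CasW Q B c)
    (hF : Flag Q u b) (hw : Q (B u) b = 0) (hX : X ∈ g)
    (hm : (P ⁅(u : 𝔸), X⁆ : 𝔸) = ⁅(u : 𝔸), X⁆)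
    (hm' : (P ⁅(b : 𝔸), X⁆ : 𝔸) = ⁅(b : 𝔸), X⁆) (w : m) :
    D3 c u b (P ⁅(u : 𝔸), X⁆) w =
      -16 * c u * Q (P ⁅(b : 𝔸), X⁆ : m) (w : 𝔸) - D2 c u (P ⁅(b : 𝔸), X⁆) w := by
  have hu := hF.ne hN
  have h1 := (wall_mixed hN hC hF hX hm hm' (w : 𝔸)).1
  have h2 := wall_c3 hN hC hF hw w (P ⁅(u : 𝔸), X⁆) b
  have h3 : D2 c u w (P ⁅(u : 𝔸), X⁆) = 0 := by
    rw [D2_symm hC.csm hu, wall_c2e hN hC hF hw hX hm]
  have h4 : D1 (bq Q B ⁅X, (w : 𝔸)⁆) u b = 4 * c u * Q (P ⁅(b : 𝔸), X⁆ : m) (w : 𝔸) := by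
    rw [bq_D1 hC hu, flag_B' hN hC hW hF, hw, zero_smul, sub_zero, map_smul,
      LinearMap.smul_apply, smul_eq_mul, ← hN.Qinv, hm']
  have h5 := wall_c2 hN hC hF hw w (P ⁅(b : 𝔸), X⁆)
  have h6 : D3 c u w (P ⁅(u : 𝔸), X⁆) b = D3 c u b (P ⁅(u : 𝔸), X⁆) w := by
    rw [D3_symm13 hC.csm hu]
  have h7 : D2 c u w (P ⁅(b : 𝔸), X⁆) = D2 c u (P ⁅(b : 𝔸), X⁆) w := D2_symm hC.csm hu _ _
  rw [Q_lie_perp hN hm, hF.2.2.1, h3, h6] at h2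
  rw [h4] at h1
  rw [h7] at h5
  linarith

theorem wall_c4 (hN : NData g h m Q P) (hC : Cas g h m Q P h0 B c) (hW : CasW Q B c)
    (hF : Flag Q u b) (hw : Q (B u) b = 0) (hX : X ∈ g)
    (hm : (P ⁅(u : 𝔸), X⁆ : 𝔸) = ⁅(u : 𝔸), X⁆)
    (hm' : (P ⁅(b : 𝔸), X⁆ : 𝔸) = ⁅(b : 𝔸), X⁆) :
    D4 c u b b (P ⁅(u : 𝔸), X⁆) (P ⁅(u : 𝔸), X⁆) =
      32 * c u * Q (P ⁅(u : 𝔸), X⁆ : m) (P ⁅(u : 𝔸), X⁆ : m)
      + 32 * c u * Q (P ⁅(b : 𝔸), X⁆ : m) (P ⁅(b : 𝔸), X⁆ : m)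
      + 2 * D2 c u (P ⁅(b : 𝔸), X⁆) (P ⁅(b : 𝔸), X⁆) := by
  have hu := hF.ne hN
  have h3 : ∀ w, D2 c u w (P ⁅(u : 𝔸), X⁆) = 0 := fun w => by
    rw [D2_symm hC.csm hu, wall_c2e hN hC hF hw hX hm]
  have h3' : ∀ w, D2 c u (P ⁅(u : 𝔸), X⁆) w = 0 := fun w => wall_c2e hN hC hF hw hX hm w
  have k3 := wall_c3be hN hC hW hF hw hX hm hm' (P ⁅(b : 𝔸), X⁆)
  have k1 := (wall_mixed hN hC hF hX hm hm' ((P ⁅(u : 𝔸), X⁆ : m) : 𝔸)).2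
  have k2 := wall_c3 hN hC hF hw (P ⁅(u : 𝔸), X⁆) (P ⁅(b : 𝔸), X⁆) b
  have hQue := Q_lie_perp hN hm
  rw [wall_bb hN hC hW hF hw, ← hN.Qinv] at k1
  obtain ⟨e, he⟩ : ∃ e : m, e = P ⁅(u : 𝔸), X⁆ := ⟨_, rfl⟩
  obtain ⟨p, hp⟩ : ∃ p : m, p = P ⁅(b : 𝔸), X⁆ := ⟨_, rfl⟩
  rw [← he, ← hp] at k3 k1 k2 ⊢
  rw [← he] at h3 h3' hQue hm
  rw [← hm] at k1
  have h1 := D3_congr' (c_id hC e) hu e b b
  have e0 : D3 (fun z => D1 c z e) u e b b = D4 c u e e b b := rfl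
  have e1 : ∀ a a', D2 (fun z => D1 c z e) u a a' = D3 c u e a a' := fun _ _ => rfl
  have e2 : ∀ a, D1 (fun z => D1 c z e) u a = D2 c u e a := fun _ => rfl
  rw [D3_mul (D1_smooth hC.csm e) rr_smooth hu, D3_cmul _ (bq_smooth hC e) hu,
    wall_c1 hN hC hF hw, e0, e1, e1, e2, e2, rr_D1 hN, rr_D1 hN, rr_D2 hN, rr_D2 hN, rr_D3 hN,
    hQue, hF.2.2.1, h3, h3'] at h1
  have h2 : rr m Q u = 1 := by rw [rr, BN_apply, hF.1]
  rw [h2] at h1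
  have s1 : D4 c u e e b b = D4 c u b b e e := by
    rw [D4_symm23 hC.csm hu, D4_symm12 hC.csm hu, D4_symm34 hC.csm hu, D4_symm23 hC.csm hu]
  have s2 : D3 c u e p b = D3 c u b e p := by
    rw [D3_symm13 hC.csm hu, D3_symm23 hC.csm hu]
  rw [s1] at h1
  rw [s2, hF.2.2.1] at k2
  simp only [h3'] at k2
  linarith

end wall

end Pool.Agent.FL.Wall
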