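import Pool.Agent.FL.Pal53
import Pool.Agent.helper90.FL.PT
import Pool.Agent.FL.Gauge53
import Pool.Agent.FL.WallD

/-!
# MP_f09395_gt, space (1), module G4, abstract part

Generic perturbations have no wall point `u` at which the gradient is in the span of `u` and `k u`.
-/

set_option linter.unusedSectionVars false

noncomputable section

namespace Pool.Agent.FL.G4

open scoped ContDiff
open Pool.Agent.Helper93.Fin Pool.Agent.helper79.FP Pool.Agent.helper79.FR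
open Pool.Agent.helper53.FL
open Pool.Agent.FL.Wall (rr rr_smooth rr_D1)
open Filter Topology Set Module

section conv

variable {P : Type*} [NormedAddCommGroup P] [NormedSpace ℝ P] [FiniteDimensional ℝ P]

/-- thin sets are negligible -/
theorem negl_of_thin {B : Set P} (h : Thin B) : Pool.Agent.helper90.FL.Negl B := by
  rcases h with h | ⟨h1, h2⟩
  · left; exact h
  · right
    refine h2.trans_lt ?_
    have h3 : finrank ℝ P - 1 < finrank ℝ P := by omega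
    exact_mod_cast h3

end conv

section lin

variable {V : Type*} [AddCommGroup V] [Module ℝ V] [FiniteDimensional ℝ V]

/-- if the common kernel of the functionals `q (t a) ·` is contained in a line, then the span of
the `t a` has codimension at most one -/
theorem rank_of_ker {κ : Type*} [Fintype κ] (q : V →ₗ[ℝ] V →ₗ[ℝ] ℝ)
    (t : κ → V) (w : V) (h : ∀ x, (∀ a, q (t a) x = 0) → ∃ r : ℝ, x = r • w) :
    finrank ℝ V - 1 ≤ finrank ℝ (LinearMap.range (Fintype.linearCombination ℝ t)) := by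
  obtain ⟨R, hR⟩ : ∃ R, R = LinearMap.range (Fintype.linearCombination ℝ t) := ⟨_, rfl⟩
  rw [← hR]
  have ht : ∀ a, t a ∈ R := fun a => by
    classical
    rw [hR]
    refine ⟨Pi.single a 1, ?_⟩
    rw [Fintype.linearCombination_apply_single, one_smul]
  obtain ⟨N, hN⟩ : ∃ N : V →ₗ[ℝ] (R →ₗ[ℝ] ℝ), ∀ x y, N x y = q y x :=
    ⟨{ toFun := fun x => (q.flip x).comp R.subtype
       map_add' := fun x y => by ext z; simp
       map_smul' := fun r x => by ext z; simp }, fun x y => rfl⟩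
  have hk : LinearMap.ker N ≤ Submodule.span ℝ {w} := by
    intro x hx
    obtain ⟨r, hr⟩ := h x fun a => by
      have h1 : N x = 0 := hx
      have h2 := LinearMap.congr_fun h1 ⟨t a, ht a⟩
      rw [hN] at h2
      exact h2
    rw [hr]
    exact Submodule.smul_mem _ _ (Submodule.mem_span_singleton_self w)
  have h1 := LinearMap.finrank_range_add_finrank_ker N
  have h2 : finrank ℝ (LinearMap.ker N) ≤ 1 :=
    (Submodule.finrank_mono hk).trans (by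
      have h3 := finrank_span_finset_le_card (R := ℝ) ({w} : Finset V)
      rw [Finset.coe_singleton, Finset.card_singleton] at h3
      exact h3)
  have h3 : finrank ℝ (LinearMap.range N) ≤ finrank ℝ R := by
    refine (Submodule.finrank_le _).trans ?_
    rw [show finrank ℝ (R →ₗ[ℝ] ℝ) = finrank ℝ R from Subspace.dual_finrank_eq]
  omega

end lin

section main

variable {𝔸 : Type*} [NormedRing 𝔸] [NormedAlgebra ℝ 𝔸] [FiniteDimensional ℝ 𝔸]
variable {g h m : Submodule ℝ 𝔸} {Q : 𝔸 →ₗ[ℝ] 𝔸 →ₗ[ℝ] ℝ} {P : 𝔸 →L[ℝ] m} {φ ψ : m → ℝ}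
variable {h0 : 𝔸} {B : m → 𝔸} {c : m → ℝ}

/-- the gradient of a linear combination -/
theorem gx_comb (hN : NData g h m Q P) {κ : Type*} [Fintype κ] {v0 : m → ℝ} {f : κ → m → ℝ}
    (hv : ContDiffOn ℝ ∞ v0 {0}ᶜ) (hf : ∀ a, ContDiffOn ℝ ∞ (f a) {0}ᶜ) (p : κ → ℝ) {u : m}
    (hu : u ≠ 0) : gx Q (fun z => v0 z + ∑ a, p a * f a z) u =
      gx Q v0 u + ∑ a, p a • gx Q (f a) u := by
  refine rep_unique hN fun w => ?_
  rw [gx_spec hN, Submodule.coe_add, map_add, LinearMap.add_apply, gx_spec hN,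
    AddSubmonoidClass.coe_finsetSum, map_sum, LinearMap.sum_apply]
  have h1 : ∀ a, Q ((p a • gx Q (f a) u : m) : 𝔸) w = p a * D1 (f a) u w := fun a => by
    rw [Submodule.coe_smul, map_smul, LinearMap.smul_apply, gx_spec hN, smul_eq_mul]
  simp only [h1]
  have h2 : HasFDerivAt (fun z => v0 z + ∑ a, p a * f a z)
      (fderiv ℝ v0 u + ∑ a, p a • fderiv ℝ (f a) u) u :=
    (dAt hv hu).hasFDerivAt.add
      (HasFDerivAt.fun_sum fun a _ => (dAt (hf a) hu).hasFDerivAt.const_mul (p a))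
  rw [D1, h2.fderiv]
  simp [D1]

/-- **no relative equilibria over walls for generic parameters**, thin version -/
theorem g4_thin (hN : NData g h m Q P) (hC : Cas g h m Q P h0 B c) {κ : Type*} [Fintype κ]
    {v0 : m → ℝ} {f : κ → m → ℝ} (hv : ContDiffOn ℝ ∞ v0 {0}ᶜ)
    (hf : ∀ a, ContDiffOn ℝ ∞ (f a) {0}ᶜ) {k : m → m} (hk : ContDiffOn ℝ ∞ k {0}ᶜ) {U : Set m}
    (hS8 : ∀ u ∈ U, Q (u : 𝔸) u = 1 → B u = 0 →
      ∃ L : 𝔸 →L[ℝ] (Fin 3 → ℝ), Function.Surjective fun x : m => L (fderiv ℝ B u x))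
    (hinv : ∀ u ∈ U, Q (u : 𝔸) u = 1 → B u = 0 → ∀ x : m, (∀ a, D1 (f a) u x = 0) →
      ∃ r : ℝ, x = r • P ⁅h0, (u : 𝔸)⁆) :
    Thin {p : κ → ℝ | ∃ u ∈ U, Q (u : 𝔸) u = 1 ∧ B u = 0 ∧ ∃ lam r : ℝ,
      gx Q (fun z => v0 z + ∑ a, p a * f a z) u = lam • u + r • k u} := by
  -- the bad set
  obtain ⟨S, hS⟩ : ∃ S : Set ((m × ℝ × ℝ) × (κ → ℝ)), S = {z | z.1.1 ∈ U ∧
      Q (z.1.1 : 𝔸) z.1.1 = 1 ∧ B z.1.1 = 0 ∧
      gx Q v0 z.1.1 + ∑ a, z.2 a • gx Q (f a) z.1.1 - z.1.2.1 • z.1.1 - z.1.2.2 • k z.1.1 = 0} :=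
    ⟨_, rfl⟩
  have hne : ∀ u : m, Q (u : 𝔸) u = 1 → u ≠ 0 := by
    rintro u h1 rfl
    simp at h1
  have hsub : {p : κ → ℝ | ∃ u ∈ U, Q (u : 𝔸) u = 1 ∧ B u = 0 ∧ ∃ lam r : ℝ,
      gx Q (fun z => v0 z + ∑ a, p a * f a z) u = lam • u + r • k u} ⊆ Prod.snd '' S := by
    rintro p ⟨u, hU, h1, h2, lam, r, h3⟩
    refine ⟨((u, lam, r), p), ?_, rfl⟩
    rw [hS]
    refine ⟨hU, h1, h2, ?_⟩
    have h4 := gx_comb hN hv hf p (hne u h1)
    show gx Q v0 u + ∑ a, p a • gx Q (f a) u - lam • u - r • k u = 0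
    rw [← h4, h3]
    abel
  refine Thin.mono ?_ hsub
  by_cases hSe : S = ∅
  · left; rw [hSe, image_empty]
  obtain ⟨z0, hz0⟩ := nonempty_iff_ne_empty.2 hSe
  have hm1 : 1 ≤ finrank ℝ m := by
    rw [hS] at hz0
    have h1 := hne _ hz0.2.1
    exact Nat.one_le_iff_ne_zero.2 fun h2 => h1 (finrank_zero_iff_forall_zero.1 h2 _)
  have hE : finrank ℝ (m × ℝ × ℝ) < 4 + (finrank ℝ m - 1) := by
    rw [finrank_prod, finrank_prod, finrank_self]
    omega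
  refine pal (G := ℝ × (Fin 3 → ℝ)) (F := m) hE fun z hz => ?_
  have hz' := hz
  rw [hS] at hz'
  obtain ⟨hU, h1, h2, h3⟩ := hz'
  have hu : z.1.1 ≠ 0 := hne _ h1
  obtain ⟨L, hL⟩ := hS8 _ hU h1 h2
  have hn : ({0}ᶜ : Set m) ∈ 𝓝 z.1.1 := isOpen_compl_singleton.mem_nhds hu
  -- the equations for `u`
  obtain ⟨p1, hp1⟩ : ∃ p1 : m → ℝ × (Fin 3 → ℝ), p1 = fun u => (rr m Q u, L (B u)) := ⟨_, rfl⟩
  have hp1s : ContDiffAt ℝ 1 p1 z.1.1 := by
    rw [hp1]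
    exact ((rr_smooth.contDiffAt hn).prodMk
      (L.contDiff.contDiffAt.comp _ (hC.Bsm.contDiffAt hn))).of_le (by norm_num)
  have hp1d := hp1s.hasStrictFDerivAt one_ne_zero
  have hp1v : ∀ x : m, fderiv ℝ p1 z.1.1 x = (2 * Q (z.1.1 : 𝔸) x, L (fderiv ℝ B z.1.1 x)) := by
    intro x
    have d1 : HasFDerivAt (rr m Q) (fderiv ℝ (rr m Q) z.1.1) z.1.1 :=
      (dAt rr_smooth hu).hasFDerivAt
    have d2 : HasFDerivAt B (fderiv ℝ B z.1.1) z.1.1 := (dAt hC.Bsm hu).hasFDerivAt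
    have d3 : HasFDerivAt p1 ((fderiv ℝ (rr m Q) z.1.1).prod (L.comp (fderiv ℝ B z.1.1))) z.1.1 := by
      rw [hp1]
      exact d1.prodMk (L.hasFDerivAt.comp _ d2)
    rw [d3.fderiv]
    refine Prod.ext ?_ rfl
    exact rr_D1 hN _ _
  have hp1r : LinearMap.range (fderiv ℝ p1 z.1.1 : m →ₗ[ℝ] ℝ × (Fin 3 → ℝ)) = ⊤ := by
    rw [LinearMap.range_eq_top]
    rintro ⟨a, y⟩
    obtain ⟨x, hx⟩ := hL y
    have hBu : fderiv ℝ B z.1.1 z.1.1 = 0 := by
      have e1 : HasDerivAt (fun t : ℝ => B (z.1.1 + t • z.1.1)) (fderiv ℝ B z.1.1 z.1.1) 0 := by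
        have e2 : HasDerivAt (fun t : ℝ => z.1.1 + t • z.1.1) z.1.1 0 := by
          have := (hasDerivAt_id (0 : ℝ)).smul_const z.1.1
          simpa using this.const_add z.1.1
        have e3 : HasFDerivAt B (fderiv ℝ B z.1.1) (z.1.1 + (0 : ℝ) • z.1.1) := by
          rw [zero_smul, add_zero]; exact (dAt hC.Bsm hu).hasFDerivAt
        exact e3.comp_hasDerivAt 0 e2
      have e4 : (fun t : ℝ => B (z.1.1 + t • z.1.1)) = fun _ => 0 := by
        funext t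
        have : z.1.1 + t • z.1.1 = (1 + t) • z.1.1 := by rw [add_smul, one_smul]
        rw [this, hC.Bhom, h2, smul_zero]
      rw [e4] at e1
      exact e1.unique (hasDerivAt_const _ _)
    refine ⟨x + ((a - 2 * Q (z.1.1 : 𝔸) x) / 2) • z.1.1, ?_⟩
    show fderiv ℝ p1 z.1.1 _ = _
    rw [hp1v, map_add, map_smul, hBu, smul_zero, add_zero, Submodule.coe_add, map_add,
      Submodule.coe_smul, map_smul, h1]
    refine Prod.ext ?_ hx
    simp only [smul_eq_mul]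
    ring
  -- the equations with parameters
  obtain ⟨Φ, hΦ⟩ : ∃ Φ : (m × ℝ × ℝ) × (κ → ℝ) → m, Φ = fun y => gx Q v0 y.1.1 +
      ∑ a, y.2 a • gx Q (f a) y.1.1 - y.1.2.1 • y.1.1 - y.1.2.2 • k y.1.1 := ⟨_, rfl⟩
  have hΦd : HasStrictFDerivAt Φ (fderiv ℝ Φ z) z := by
    refine ContDiffAt.hasStrictFDerivAt (n := 1) ?_ one_ne_zero
    have s1 : ContDiffAt ℝ 1 (fun y : (m × ℝ × ℝ) × (κ → ℝ) => y.1.1) z :=
      (contDiff_fst.comp contDiff_fst).contDiffAt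
    have s2 : ∀ {F : m → m}, ContDiffOn ℝ ∞ F {0}ᶜ →
        ContDiffAt ℝ 1 (fun y : (m × ℝ × ℝ) × (κ → ℝ) => F y.1.1) z := fun hF =>
      ContDiffAt.comp z ((hF.contDiffAt hn).of_le (by norm_num)) s1
    have s3 : ContDiffAt ℝ 1 (fun y : (m × ℝ × ℝ) × (κ → ℝ) => y.1.2.1) z :=
      (contDiff_fst.comp (contDiff_snd.comp contDiff_fst)).contDiffAt
    have s4 : ContDiffAt ℝ 1 (fun y : (m × ℝ × ℝ) × (κ → ℝ) => y.1.2.2) z :=
      (contDiff_snd.comp (contDiff_snd.comp contDiff_fst)).contDiffAt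
    have s5 : ∀ a, ContDiffAt ℝ 1 (fun y : (m × ℝ × ℝ) × (κ → ℝ) => y.2 a) z := fun a =>
      ((contDiff_apply ℝ ℝ a).comp contDiff_snd).contDiffAt
    rw [hΦ]
    exact (((s2 (gx_smooth hN hv)).add (ContDiffAt.sum fun a _ =>
      (s5 a).smul (s2 (gx_smooth hN (hf a))))).sub (s3.smul s1)).sub (s4.smul (s2 hk))
  have hΦv : ∀ q : κ → ℝ, fderiv ℝ Φ z (0, q) = ∑ a, q a • gx Q (f a) z.1.1 := by
    intro q
    have d1 : HasDerivAt (fun t : ℝ => z + t • ((0, q) : (m × ℝ × ℝ) × (κ → ℝ))) (0, q) 0 := by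
      have := (hasDerivAt_id (0 : ℝ)).smul_const ((0, q) : (m × ℝ × ℝ) × (κ → ℝ))
      simpa using this.const_add z
    have d2 : HasFDerivAt Φ (fderiv ℝ Φ z) (z + (0 : ℝ) • ((0, q) : (m × ℝ × ℝ) × (κ → ℝ))) := by
      rw [zero_smul, add_zero]; exact hΦd.hasFDerivAt
    have d3 : HasDerivAt (fun t : ℝ => Φ (z + t • ((0, q) : (m × ℝ × ℝ) × (κ → ℝ))))
        (fderiv ℝ Φ z (0, q)) 0 := d2.comp_hasDerivAt 0 d1
    have d4 : (fun t : ℝ => Φ (z + t • ((0, q) : (m × ℝ × ℝ) × (κ → ℝ)))) =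
        fun t => Φ z + t • ∑ a, q a • gx Q (f a) z.1.1 := by
      funext t
      rw [hΦ]
      have e1 : (z + t • ((0, q) : (m × ℝ × ℝ) × (κ → ℝ))).1 = z.1 := by simp
      have e2 : ∀ a, (z + t • ((0, q) : (m × ℝ × ℝ) × (κ → ℝ))).2 a = z.2 a + t * q a :=
        fun a => by simp
      simp only [e1, e2, add_smul, Finset.sum_add_distrib, Finset.smul_sum, mul_smul]
      abel
    rw [d4] at d3
    have d5 : HasDerivAt (fun t : ℝ => Φ z + t • ∑ a, q a • gx Q (f a) z.1.1)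
        (∑ a, q a • gx Q (f a) z.1.1) 0 := by
      have := (hasDerivAt_id (0 : ℝ)).smul_const (∑ a, q a • gx Q (f a) z.1.1)
      simpa using this.const_add (Φ z)
    exact d3.unique d5
  refine ⟨fun y => p1 y.1, (fderiv ℝ p1 z.1.1).comp (ContinuousLinearMap.fst ℝ m (ℝ × ℝ)),
    Φ, fderiv ℝ Φ z, ?_, ?_, ?_, hΦd, ?_, ?_⟩
  · exact hp1d.comp z.1 hasStrictFDerivAt_fst
  · filter_upwards [self_mem_nhdsWithin] with y hy
    rw [hS] at hy
    obtain ⟨-, k1, k2, -⟩ := hy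
    rw [hp1]
    show (Q (y.1.1 : 𝔸) y.1.1, L (B y.1.1)) = (Q (z.1.1 : 𝔸) z.1.1, L (B z.1.1))
    rw [k1, k2, h1, h2]
  · have e1 : LinearMap.range (((fderiv ℝ p1 z.1.1).comp
        (ContinuousLinearMap.fst ℝ m (ℝ × ℝ)) : m × ℝ × ℝ →L[ℝ] ℝ × (Fin 3 → ℝ)) :
        m × ℝ × ℝ →ₗ[ℝ] ℝ × (Fin 3 → ℝ)) = ⊤ := by
      rw [LinearMap.range_eq_top]
      intro y
      obtain ⟨x, hx⟩ := LinearMap.range_eq_top.1 hp1r y
      exact ⟨(x, 0), hx⟩
    rw [e1, finrank_top, finrank_prod, finrank_self, finrank_fin_fun]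
  · filter_upwards [self_mem_nhdsWithin] with y hy
    rw [hS] at hy
    rw [hΦ]
    exact hy.2.2.2.trans h3.symm
  · -- the derivative with respect to the parameters
    have e1 : (fderiv ℝ Φ z : (m × ℝ × ℝ) × (κ → ℝ) →ₗ[ℝ] m) ∘ₗ
        LinearMap.inr ℝ (m × ℝ × ℝ) (κ → ℝ) =
        Fintype.linearCombination ℝ fun a => gx Q (f a) z.1.1 := by
      refine LinearMap.ext fun q => ?_
      rw [Fintype.linearCombination_apply]
      exact hΦv q
    rw [e1]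
    obtain ⟨q, hq⟩ : ∃ q : m →ₗ[ℝ] m →ₗ[ℝ] ℝ, ∀ x y : m, q x y = Q x y :=
      ⟨(Q.domRestrict₁₂ m m), fun x y => rfl⟩
    refine rank_of_ker q _ (P ⁅h0, (z.1.1 : 𝔸)⁆) fun x hx => ?_
    refine hinv _ hU h1 h2 x fun a => ?_
    rw [← gx_spec hN, ← hq]
    exact hx a

end main

end Pool.Agent.FL.G4
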