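import Pool.Agent.FL.S2Core

/-!
# MP_f09395_gt, space (2), GE2: definitions of the Casimir data in coordinates
-/

noncomputable section

namespace Pool.Agent.FL.S2

open scoped Matrix

/-- half the gradient of `psi4` -/
def cub (u : R9) : R9 :=
  ((u.1 ⬝ᵥ u.2.1) • u.2.1 + (u.1 ⬝ᵥ u.2.2) • u.2.2,
    u.2.2 ⨯₃ (u.2.1 ⨯₃ u.2.2) + (u.1 ⬝ᵥ u.2.1) • u.1,
    (u.2.1 ⨯₃ u.2.2) ⨯₃ u.2.1 + (u.1 ⬝ᵥ u.2.2) • u.1)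

/-- the determinant `(a, x, y)` -/
def det3 (u : R9) : ℝ := u.1 ⬝ᵥ (u.2.1 ⨯₃ u.2.2)

/-- the `𝔪`-part of `B` -/
def bM (u : R9) : R9 := -(4 / dot9 u u) • cub u + (8 * psi4 u / dot9 u u ^ 2) • u

end Pool.Agent.FL.S2
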