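import Pool.Agent.FL.S2Model
import Pool.Agent.FL.GE2D
import Pool.Agent.FL.GE6S

/-!
# MP_f09395_gt, space (2), GE2: the Casimir data in coordinates

`cc (ι u) = -cM u`, `BB (ι u) = ι (bM u) + (2 det₃ u / |u|²) h₀`, `qc (ι u) = 4 det₃ u / |u|²`.
-/

set_option linter.unusedSectionVars false
set_option linter.unusedSimpArgs false

noncomputable section

namespace Pool.Agent.FL.S2

open scoped ContDiff Quaternion Matrix
open Pool.Agent.Helper93.Fin Pool.Agent.helper79.FP Pool.Agent.helper79.FR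
open Pool.Agent.helper79.FR.Sp2 (Mat QQ h0 m gg hh PP BB cc retr s4)
open Pool.Agent.helper79.FR

attribute [local instance] Matrix.linftyOpNormedRing Matrix.linftyOpNormedAlgebra

/-! ### the bilinear form -/

theorem dot9_exp (u v : R9) : dot9 u v = u.1 0 * v.1 0 + u.1 1 * v.1 1 + u.1 2 * v.1 2 +
    (u.2.1 0 * v.2.1 0 + u.2.1 1 * v.2.1 1 + u.2.1 2 * v.2.1 2) +
    (u.2.2 0 * v.2.2 0 + u.2.2 1 * v.2.2 1 + u.2.2 2 * v.2.2 2) := by
  simp [dot9, dotProduct, Fin.sum_univ_three]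

theorem dot9_self_nonneg (u : R9) : 0 ≤ dot9 u u := by
  rw [dot9_exp]
  nlinarith [sq_nonneg (u.1 0), sq_nonneg (u.1 1),
    sq_nonneg (u.1 2), sq_nonneg (u.2.1 0), sq_nonneg (u.2.1 1), sq_nonneg (u.2.1 2),
    sq_nonneg (u.2.2 0), sq_nonneg (u.2.2 1), sq_nonneg (u.2.2 2)]

theorem R9_ext {u v : R9} (h1 : ∀ i, u.1 i = v.1 i) (h2 : ∀ i, u.2.1 i = v.2.1 i)
    (h3 : ∀ i, u.2.2 i = v.2.2 i) : u = v :=
  Prod.ext (funext h1) (Prod.ext (funext h2) (funext h3))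

theorem dot9_self_pos {u : R9} (hu : u ≠ 0) : 0 < dot9 u u := by
  rcases (dot9_self_nonneg u).lt_or_eq with h | h
  · exact h
  exfalso
  apply hu
  rw [dot9_exp] at h
  have e : ∀ s t : ℝ, 0 = s * s + t → 0 ≤ t → s = 0 := fun s t h1 h2 => by nlinarith
  refine R9_ext (fun i => ?_) (fun i => ?_) (fun i => ?_) <;> fin_cases i <;>
    simp only [Fin.zero_eta, Fin.mk_one, Fin.reduceFinMk, Prod.fst_zero, Prod.snd_zero,
      Pi.zero_apply] <;>
    nlinarith [sq_nonneg (u.1 0), sq_nonneg (u.1 1), sq_nonneg (u.1 2),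
    sq_nonneg (u.2.1 0), sq_nonneg (u.2.1 1), sq_nonneg (u.2.1 2),
    sq_nonneg (u.2.2 0), sq_nonneg (u.2.2 1), sq_nonneg (u.2.2 2)]

theorem dot9_comm (u v : R9) : dot9 u v = dot9 v u := by
  simp only [dot9_exp]; ring

theorem dot9_add_left (u v w : R9) : dot9 (u + v) w = dot9 u w + dot9 v w := by
  simp only [dot9_exp, Prod.fst_add, Prod.snd_add, Pi.add_apply]; ring

theorem dot9_add_right (u v w : R9) : dot9 u (v + w) = dot9 u v + dot9 u w := by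
  simp only [dot9_exp, Prod.fst_add, Prod.snd_add, Pi.add_apply]; ring

theorem dot9_smul_left (r : ℝ) (u v : R9) : dot9 (r • u) v = r * dot9 u v := by
  simp only [dot9_exp, Prod.smul_fst, Prod.smul_snd, Pi.smul_apply, smul_eq_mul]; ring

theorem dot9_smul_right (r : ℝ) (u v : R9) : dot9 u (r • v) = r * dot9 u v := by
  simp only [dot9_exp, Prod.smul_fst, Prod.smul_snd, Pi.smul_apply, smul_eq_mul]; ring

theorem QQ_iota (u v : R9) :
    QQ ((iota u : m 1 1) : Mat) ((iota v : m 1 1) : Mat) = dot9 u v / 2 := by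
  rw [← Q2_iota, Q2, LinearMap.smul_apply, LinearMap.smul_apply, smul_eq_mul]; ring

theorem QQ_iotaFun (u v : R9) : QQ (iotaFun u) (iotaFun v) = dot9 u v / 2 := by
  rw [← QQ_iota, iota_coe, iota_coe]

theorem h0_eq_hU : h0 1 1 = (2 : ℝ) • hU := by
  rw [hU, smul_smul]; norm_num

theorem QQ_h0_iota (u : R9) : QQ (h0 1 1) ((iota u : m 1 1) : Mat) = 0 := by
  have h1 := Q2_hU u
  rw [Q2, LinearMap.smul_apply, LinearMap.smul_apply, smul_eq_mul] at h1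
  rw [h0_eq_hU, map_smul, LinearMap.smul_apply, smul_eq_mul]
  linarith

theorem iotaFun_smul (r : ℝ) (u : R9) : iotaFun (r • u) = r • iotaFun u := by
  rw [← iota_coe, map_smul, Submodule.coe_smul, iota_coe]

theorem iotaFun_add (u v : R9) : iotaFun (u + v) = iotaFun u + iotaFun v := by
  rw [← iota_coe, map_add, Submodule.coe_add, iota_coe, iota_coe]

theorem h0_br (u : R9) : ⁅h0 1 1, ((iota u : m 1 1) : Mat)⁆ = iotaFun ((2 : ℝ) • rot u) := by
  rw [h0_eq_hU, iotaFun_smul, ← iota_coe (rot u), ← hU_br]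
  simp only [Ring.lie_def, smul_mul_assoc, mul_smul_comm, smul_sub]

/-! ### powers -/

theorem h0_00re : (h0 1 1 0 0).re = 0 := by rw [h0_00]
theorem h0_00imI : (h0 1 1 0 0).imI = 1 := by rw [h0_00]
theorem h0_00imJ : (h0 1 1 0 0).imJ = 0 := by rw [h0_00]
theorem h0_00imK : (h0 1 1 0 0).imK = 0 := by rw [h0_00]
theorem h0_01re : (h0 1 1 0 1).re = 0 := by rw [h0_01]; rfl
theorem h0_01imI : (h0 1 1 0 1).imI = 0 := by rw [h0_01]; rfl
theorem h0_01imJ : (h0 1 1 0 1).imJ = 0 := by rw [h0_01]; rfl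
theorem h0_01imK : (h0 1 1 0 1).imK = 0 := by rw [h0_01]; rfl
theorem h0_10re : (h0 1 1 1 0).re = 0 := by rw [h0_10]; rfl
theorem h0_10imI : (h0 1 1 1 0).imI = 0 := by rw [h0_10]; rfl
theorem h0_10imJ : (h0 1 1 1 0).imJ = 0 := by rw [h0_10]; rfl
theorem h0_10imK : (h0 1 1 1 0).imK = 0 := by rw [h0_10]; rfl
theorem h0_11re : (h0 1 1 1 1).re = 0 := by rw [h0_11]
theorem h0_11imI : (h0 1 1 1 1).imI = 1 := by rw [h0_11]
theorem h0_11imJ : (h0 1 1 1 1).imJ = 0 := by rw [h0_11]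
theorem h0_11imK : (h0 1 1 1 1).imK = 0 := by rw [h0_11]

theorem cube_iota (u : R9) : iotaFun u ^ 3 = -(1 / 2 : ℝ) • iotaFun (cub u)
    - (dot9 u u / 4) • iotaFun u + (det3 u / 4) • h0 1 1 := by
  rw [pow_succ, pow_two]
  refine mat_ext2 ?_ ?_ ?_ ?_ <;>
    simp only [Matrix.mul_apply, Matrix.sub_apply, Matrix.add_apply, Matrix.smul_apply,
      Fin.sum_univ_two, Quaternion.re_add, Quaternion.imI_add, Quaternion.imJ_add,
      Quaternion.imK_add, Quaternion.re_sub, Quaternion.imI_sub, Quaternion.imJ_sub,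
      Quaternion.imK_sub, Quaternion.re_smul, Quaternion.imI_smul, Quaternion.imJ_smul,
      Quaternion.imK_smul, Quaternion.re_mul, Quaternion.imI_mul, Quaternion.imJ_mul,
      Quaternion.imK_mul, io_00re, io_00imI, io_00imJ, io_00imK, io_01re, io_01imI, io_01imJ,
          io_01imK, io_10re, io_10imI, io_10imJ, io_10imK, io_11re, io_11imI, io_11imJ, io_11imK,
          h0_00re, h0_00imI, h0_00imJ, h0_00imK, h0_01re, h0_01imI, h0_01imJ, h0_01imK, h0_10re,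
          h0_10imI, h0_10imJ, h0_10imK, h0_11re, h0_11imI, h0_11imJ, h0_11imK, dot9_exp] <;>
    refine ⟨?_, ?_, ?_, ?_⟩ <;>
    (simp [cub, det3, crossProduct, dotProduct, Fin.sum_univ_three, Matrix.vecHead,
      Matrix.vecTail]; ring)

theorem dot9_cub_self (u : R9) : dot9 (cub u) u = 2 * psi4 u := by
  simp [dot9_exp, cub, psi4, crossProduct, dotProduct, Fin.sum_univ_three, Matrix.vecHead,
    Matrix.vecTail]
  ring

theorem s4_iota (u : R9) : s4 (iotaFun u) = dot9 u u ^ 2 / 8 + psi4 u / 2 := by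
  have h1 : s4 (iotaFun u) = -QQ (iotaFun u ^ 3) (iotaFun u) := by
    rw [Sp2.QQ_apply, s4, neg_neg, ← pow_succ]
  have h2 : QQ (h0 1 1) (iotaFun u) = 0 := by rw [← iota_coe, QQ_h0_iota]
  rw [h1, cube_iota]
  simp only [map_add, map_sub, map_smul, LinearMap.add_apply, LinearMap.sub_apply,
    LinearMap.smul_apply, QQ_iotaFun, h2, smul_eq_mul, dot9_cub_self]
  ring

theorem cc_iota {u : R9} (hu : u ≠ 0) : cc 1 1 (iota u) = -cM u := by
  have h := (dot9_self_pos hu).ne'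
  rw [cc, QQ_iota, iota_coe, s4_iota, cM]
  field_simp
  ring

theorem BB_iota {u : R9} (hu : u ≠ 0) :
    BB 1 1 (iota u) = iotaFun (bM u) + (2 * det3 u / dot9 u u) • h0 1 1 := by
  have h := (dot9_self_pos hu).ne'
  rw [BB, QQ_iota, iota_coe, s4_iota, cube_iota, bM, iotaFun_add, iotaFun_smul, iotaFun_smul]
  simp only [smul_add, smul_sub, smul_smul]
  have e : ∀ (α β γ α' β' δ γ' : ℝ) (X Y Z : Mat), α = α' → β' + δ = β → γ = γ' →
      α • X + β' • Y + γ • Z + δ • Y = α' • X + β • Y + γ' • Z := by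
    intro α β γ α' β' δ γ' X Y Z h1 h2 h3
    rw [← h1, ← h2, ← h3]; module
  rw [sub_eq_add_neg, ← neg_smul]
  refine e _ _ _ _ _ _ _ _ _ _ ?_ ?_ ?_
  · field_simp
  · field_simp; ring
  · field_simp

theorem PP_iotaFun (u : R9) : PP 1 1 (iotaFun u) = iota u := by
  rw [← iota_coe]
  exact (Sp2.nData (a := 1) (b := 1) le_rfl le_rfl).red.P_m (iota u)

theorem PP_h0 : PP 1 1 (h0 1 1) = 0 :=
  (Sp2.nData (a := 1) (b := 1) le_rfl le_rfl).red.P_h _
    (Sp2.cas (a := 1) (b := 1) le_rfl le_rfl).mem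

theorem PP_BB_iota {u : R9} (hu : u ≠ 0) : PP 1 1 (BB 1 1 (iota u)) = iota (bM u) := by
  rw [BB_iota hu, map_add, map_smul, PP_h0, smul_zero, add_zero, PP_iotaFun]

/-- the field `W` -/
theorem PP_h0_BB_iota {u : R9} (hu : u ≠ 0) :
    PP 1 1 ⁅h0 1 1, BB 1 1 (iota u)⁆ = iota ((2 : ℝ) • rot (bM u)) := by
  have h1 : ⁅h0 1 1, BB 1 1 (iota u)⁆ = iotaFun ((2 : ℝ) • rot (bM u)) := by
    rw [BB_iota hu, ← h0_br, iota_coe]
    simp only [Ring.lie_def, mul_add, add_mul, smul_mul_assoc, mul_smul_comm]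
    abel
  rw [h1, PP_iotaFun]

theorem QQ_h0_iotaFun (u : R9) : QQ (h0 1 1) (iotaFun u) = 0 := by rw [← iota_coe, QQ_h0_iota]

theorem QQ_h0_h0' : QQ (h0 1 1) (h0 1 1) = 2 := by
  rw [Sp2.QQ_h0_h0]; norm_num

theorem qc_iota {u : R9} (hu : u ≠ 0) :
    qc QQ (h0 1 1) (BB 1 1) (iota u) = 4 * det3 u / dot9 u u := by
  rw [qc, BB_iota hu, map_add, map_smul, QQ_h0_iotaFun, QQ_h0_h0', smul_eq_mul]
  ring

theorem QQ_BB_iota {u : R9} (hu : u ≠ 0) (v : R9) :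
    QQ (BB 1 1 (iota u)) ((iota v : m 1 1) : Mat) = dot9 (bM u) v / 2 := by
  rw [BB_iota hu, map_add, map_smul, LinearMap.add_apply, LinearMap.smul_apply, QQ_h0_iota,
    iota_coe, QQ_iotaFun, smul_zero, add_zero]

/-! ### flags -/

theorem iota_inj {u v : R9} : iotaFun u = iotaFun v ↔ u = v := by
  rw [← iota_coe, ← iota_coe, SetLike.coe_eq_coe]
  exact iota.injective.eq_iff

theorem lie_iota_eq_zero {u b : R9} :
    ⁅((iota u : m 1 1) : Mat), ((iota b : m 1 1) : Mat)⁆ = 0 ↔ br u b = 0 ∧ brh u b = 0 := by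
  rw [iota_br]
  constructor
  · intro h
    have h1 : brh u b = 0 := by
      have h2 := congrArg (Q2 hU) h
      rw [map_add, map_smul, Q2_hU, Q2_hU_hU, map_zero] at h2
      simpa using h2
    refine ⟨?_, h1⟩
    rw [h1, zero_smul, add_zero] at h
    have h3 : iota (br u b) = 0 := Subtype.ext h
    simpa using h3
  · rintro ⟨h1, h2⟩
    rw [h1, h2]; simp

theorem flag_iota {u b : R9} : Flag QQ (iota u) (iota b) ↔
    dot9 u u = 2 ∧ dot9 b b = 2 ∧ dot9 u b = 0 ∧ br u b = 0 ∧ brh u b = 0 := by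
  unfold helper79.FR.Flag
  rw [lie_iota_eq_zero, QQ_iota, QQ_iota, QQ_iota]
  constructor
  · rintro ⟨h1, h2, h3, h4⟩
    exact ⟨by linarith, by linarith, by linarith, h4⟩
  · rintro ⟨h1, h2, h3, h4⟩
    exact ⟨by linarith, by linarith, by linarith, h4⟩

theorem br_smul_smul (r s : ℝ) (u v : R9) : br (r • u) (s • v) = (r * s) • br u v := by
  refine R9_ext (fun i => ?_) (fun i => ?_) (fun i => ?_) <;> fin_cases i <;>
    simp [br, crossProduct, Matrix.vecHead, Matrix.vecTail] <;> ring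

theorem brh_smul_smul (r s : ℝ) (u v : R9) : brh (r • u) (s • v) = (r * s) * brh u v := by
  simp [brh, dotProduct, Fin.sum_univ_three]; ring

theorem br_comm (u v : R9) : br v u = -br u v := by
  refine R9_ext (fun i => ?_) (fun i => ?_) (fun i => ?_) <;> fin_cases i <;>
    simp [br, crossProduct] <;> ring

theorem brh_comm (u v : R9) : brh v u = -brh u v := by
  simp [brh, dotProduct, Fin.sum_univ_three]; ring

theorem Flg.flag {u b : R9} (h : Flg u b) :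
    Flag QQ (iota (Real.sqrt 2 • u)) (iota (Real.sqrt 2 • b)) := by
  have h2 : Real.sqrt 2 * Real.sqrt 2 = 2 := Real.mul_self_sqrt (by norm_num)
  rw [flag_iota]
  refine ⟨?_, ?_, ?_, ?_, ?_⟩
  · rw [dot9_smul_left, dot9_smul_right, h.uu]; linarith
  · rw [dot9_smul_left, dot9_smul_right, h.bb]; linarith
  · rw [dot9_smul_left, dot9_smul_right, h.ub]; ring
  · rw [br_smul_smul, h.br, smul_zero]
  · rw [brh_smul_smul, h.brh, mul_zero]

theorem Flg.symm {u b : R9} (h : Flg u b) : Flg b u :=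
  ⟨h.bb, h.uu, by rw [dot9_comm, h.ub], by rw [br_comm, h.br, neg_zero],
    by rw [brh_comm, h.brh, neg_zero]⟩

theorem Flg.BB_eq {u b : R9} (h : Flg u b) :
    BB 1 1 (iota u) = dot9 (bM u) b • iotaFun b := by
  have hs : Real.sqrt 2 * Real.sqrt 2 = 2 := Real.mul_self_sqrt (by norm_num)
  have hs0 : Real.sqrt 2 ≠ 0 := by positivity
  have hC := Sp2.cas (a := 1) (b := 1) le_rfl le_rfl
  have h1 := hC.flat _ _ h.flag
  rw [map_smul iota, map_smul iota, hC.Bhom, Submodule.coe_smul, map_smul, map_smul,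
    LinearMap.smul_apply, QQ_BB_iota h.ne, iota_coe, smul_smul, ← sub_eq_zero] at h1
  have h2 := congrArg (fun X : Mat => (Real.sqrt 2)⁻¹ • X) h1
  simp only [smul_sub, smul_smul, smul_zero] at h2
  rw [inv_mul_cancel₀ hs0, one_smul, sub_eq_zero] at h2
  rw [h2]
  congr 1
  simp only [smul_eq_mul]
  field_simp
  rw [pow_two, hs]
  ring

theorem Flg.det3_eq {u b : R9} (h : Flg u b) : det3 u = 0 := by
  have h1 := h.BB_eq
  rw [BB_iota h.ne] at h1
  have h2 := congrArg (QQ (h0 1 1)) h1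
  rw [map_add, map_smul, map_smul, QQ_h0_iotaFun, QQ_h0_iotaFun, QQ_h0_h0'] at h2
  have hN := (dot9_self_pos h.ne).ne'
  simp only [smul_eq_mul, mul_zero, zero_add] at h2
  field_simp at h2
  linarith

theorem Flg.bM_eq {u b : R9} (h : Flg u b) : bM u = dot9 (bM u) b • b := by
  have h1 := h.BB_eq
  rw [BB_iota h.ne, h.det3_eq, mul_zero, zero_div, zero_smul, add_zero, ← iotaFun_smul] at h1
  exact iota_inj.1 h1

theorem psi4_smul (r : ℝ) (u : R9) : psi4 (r • u) = r ^ 4 * psi4 u := by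
  simp [psi4, crossProduct, dotProduct, Fin.sum_univ_three, Matrix.vecHead,
    Matrix.vecTail]
  ring

theorem cM_smul {r : ℝ} (hr : r ≠ 0) (u : R9) : cM (r • u) = cM u := by
  rw [cM, cM, psi4_smul, dot9_smul_left, dot9_smul_right]
  congr 1
  rw [show (r * (r * dot9 u u)) ^ 2 = r ^ 4 * dot9 u u ^ 2 by ring,
    show 8 * (r ^ 4 * psi4 u) = r ^ 4 * (8 * psi4 u) by ring, mul_div_mul_left]
  positivity

theorem Flg.sq {u b : R9} (h : Flg u b) : cM u ^ 2 + dot9 (bM u) b ^ 2 = 1 := by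
  have hs : Real.sqrt 2 * Real.sqrt 2 = 2 := Real.mul_self_sqrt (by norm_num)
  have hs0 : Real.sqrt 2 ≠ 0 := by positivity
  have hC := Sp2.cas (a := 1) (b := 1) le_rfl le_rfl
  have hne : Real.sqrt 2 • u ≠ 0 := smul_ne_zero hs0 h.ne
  have h1 := hC.cw _ _ h.flag
  rw [cc_iota hne, cM_smul hs0, map_smul iota, map_smul iota, hC.Bhom, Submodule.coe_smul,
    map_smul, map_smul, LinearMap.smul_apply, QQ_BB_iota h.ne] at h1
  simp only [smul_eq_mul] at h1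
  have h2 : Real.sqrt 2 * (Real.sqrt 2 * (dot9 (bM u) b / 2)) = dot9 (bM u) b := by
    rw [← mul_assoc, hs]; ring
  rw [h2] at h1
  linarith

/-! ### homogeneity, invariance, smoothness -/

theorem cross_rotH (t : ℝ) (u : R9) :
    (rotH t u).2.1 ⨯₃ (rotH t u).2.2 = u.2.1 ⨯₃ u.2.2 := by
  have h := Real.sin_sq_add_cos_sq t
  funext i
  fin_cases i
  · simp [rotH, crossProduct]
    linear_combination (u.2.1 1 * u.2.2 2 - u.2.1 2 * u.2.2 1) * h
  · simp [rotH, crossProduct]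
    linear_combination (u.2.1 2 * u.2.2 0 - u.2.1 0 * u.2.2 2) * h
  · simp [rotH, crossProduct]
    linear_combination (u.2.1 0 * u.2.2 1 - u.2.1 1 * u.2.2 0) * h

theorem dotx_rotH (t : ℝ) (u : R9) : u.1 ⬝ᵥ (rotH t u).2.1 =
    Real.cos t * (u.1 ⬝ᵥ u.2.1) - Real.sin t * (u.1 ⬝ᵥ u.2.2) := by
  simp [rotH, dotProduct, Fin.sum_univ_three]; ring

theorem doty_rotH (t : ℝ) (u : R9) : u.1 ⬝ᵥ (rotH t u).2.2 =
    Real.sin t * (u.1 ⬝ᵥ u.2.1) + Real.cos t * (u.1 ⬝ᵥ u.2.2) := by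
  simp [rotH, dotProduct, Fin.sum_univ_three]; ring

theorem rotH_fst (t : ℝ) (u : R9) : (rotH t u).1 = u.1 := rfl

theorem cM_rotH (t : ℝ) (u : R9) : cM (rotH t u) = cM u := by
  rw [cM, cM, psi4_rotH, dot9_rotH]

theorem det3_rotH (t : ℝ) (u : R9) : det3 (rotH t u) = det3 u := by
  rw [det3, det3, cross_rotH, rotH_fst]

theorem cub_rotH (t : ℝ) (u : R9) : cub (rotH t u) = rotH t (cub u) := by
  have h := Real.sin_sq_add_cos_sq t
  rw [cub, cross_rotH, rotH_fst, dotx_rotH, doty_rotH]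
  refine R9_ext (fun i => ?_) (fun i => ?_) (fun i => ?_)
  · simp only [rotH, cub, Pi.add_apply, Pi.sub_apply, Pi.smul_apply, smul_eq_mul]
    linear_combination ((u.1 ⬝ᵥ u.2.1) * u.2.1 i + (u.1 ⬝ᵥ u.2.2) * u.2.2 i) * h
  · fin_cases i <;> simp [rotH, cub, crossProduct, Matrix.vecHead, Matrix.vecTail] <;> ring
  · fin_cases i <;> simp [rotH, cub, crossProduct, Matrix.vecHead, Matrix.vecTail] <;> ring

theorem bM_rotH (t : ℝ) (u : R9) : bM (rotH t u) = rotH t (bM u) := by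
  rw [bM, bM, psi4_rotH, dot9_rotH, cub_rotH, rotH_add, rotH_smul, rotH_smul]

theorem cub_smul (r : ℝ) (u : R9) : cub (r • u) = r ^ 3 • cub u := by
  refine R9_ext (fun i => ?_) (fun i => ?_) (fun i => ?_) <;> fin_cases i <;>
    simp [cub, crossProduct, dotProduct, Fin.sum_univ_three, Matrix.vecHead, Matrix.vecTail] <;>
    ring

theorem det3_smul (r : ℝ) (u : R9) : det3 (r • u) = r ^ 3 * det3 u := by
  simp [det3, crossProduct, dotProduct, Fin.sum_univ_three, Matrix.vecHead, Matrix.vecTail]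
  ring

theorem bM_smul (r : ℝ) (u : R9) : bM (r • u) = r • bM u := by
  by_cases hr : r = 0
  · subst hr
    simp [bM, cub]
  by_cases hN : dot9 u u = 0
  · rw [bM, bM, dot9_smul_left, dot9_smul_right, hN]; simp
  rw [bM, bM, psi4_smul, dot9_smul_left, dot9_smul_right, cub_smul, smul_add, smul_smul, smul_smul,
    smul_smul, smul_smul]
  congr 2
  · field_simp
  · field_simp

theorem iota_ne {u : R9} : iota u ≠ 0 ↔ u ≠ 0 := by
  simp

theorem cM_smooth : ContDiffOn ℝ ∞ cM {0}ᶜ := by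
  have hC := Sp2.cas (a := 1) (b := 1) le_rfl le_rfl
  have h1 : ContDiffOn ℝ ∞ (fun u : R9 => -cc 1 1 (iota u)) {0}ᶜ :=
    (hC.csm.comp iota.contDiff.contDiffOn (fun u hu => iota_ne.2 hu)).neg
  refine h1.congr fun u hu => ?_
  rw [cc_iota hu, neg_neg]

theorem bM_smooth : ContDiffOn ℝ ∞ bM {0}ᶜ := by
  have hC := Sp2.cas (a := 1) (b := 1) le_rfl le_rfl
  have h1 : ContDiffOn ℝ ∞ (fun u : R9 => iota.symm (PP 1 1 (BB 1 1 (iota u)))) {0}ᶜ :=
    iota.symm.contDiff.comp_contDiffOn ((PP 1 1).contDiff.comp_contDiffOn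
      (hC.Bsm.comp iota.contDiff.contDiffOn (fun u hu => iota_ne.2 hu)))
  refine h1.congr fun u hu => ?_
  rw [PP_BB_iota hu, ContinuousLinearEquiv.symm_apply_apply]

theorem dot9_bM_self {u : R9} (hu : u ≠ 0) : dot9 (bM u) u = 0 := by
  have h := (dot9_self_pos hu).ne'
  rw [bM, dot9_add_left, dot9_smul_left, dot9_smul_left, dot9_cub_self]
  field_simp
  ring

theorem fderiv_cM {u : R9} (hu : u ≠ 0) (v : R9) :
    fderiv ℝ cM u v = 4 * dot9 (bM u) v / dot9 u u := by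
  have h := (dot9_self_pos hu).ne'
  have hC := Sp2.cas (a := 1) (b := 1) le_rfl le_rfl
  have hi : iota u ≠ 0 := iota_ne.2 hu
  have h1 : HasFDerivAt (cc 1 1) (fderiv ℝ (cc 1 1) (iota u)) (iota u) :=
    ((hC.csm.contDiffAt (isOpen_compl_singleton.mem_nhds hi)).differentiableAt
      (by simp)).hasFDerivAt
  have h2 : HasFDerivAt (fun u : R9 => -cc 1 1 (iota u))
      (-((fderiv ℝ (cc 1 1) (iota u)).comp (iota : R9 →L[ℝ] m 1 1))) u :=
    (h1.comp u iota.hasFDerivAt).neg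
  have h3 : cM =ᶠ[nhds u] fun u : R9 => -cc 1 1 (iota u) := by
    filter_upwards [isOpen_compl_singleton.mem_nhds hu] with w hw
    rw [cc_iota hw, neg_neg]
  have h4 := (h2.congr_of_eventuallyEq h3).fderiv
  have h5 := hC.cD (iota u) hi (iota v)
  rw [QQ_iota, QQ_BB_iota hu] at h5
  rw [h4]
  show -(D1 (cc 1 1) (iota u) (iota v)) = _
  rw [eq_div_iff h]
  linear_combination (-2 : ℝ) * h5

/-! ### the range of `cM` and the walls -/

theorem dot_self_nonneg (v : R3) : 0 ≤ v ⬝ᵥ v := by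
  simp only [dotProduct, Fin.sum_univ_three]
  nlinarith [sq_nonneg (v 0), sq_nonneg (v 1), sq_nonneg (v 2)]

theorem psi4_nonneg (u : R9) : 0 ≤ psi4 u := by
  have := dot_self_nonneg (u.2.1 ⨯₃ u.2.2)
  rw [psi4]; positivity

theorem psi4_aux {A X Y Z p q s r : ℝ} (hs0 : 0 ≤ s) (hA : 0 ≤ A) (hX : 0 ≤ X) (hY : 0 ≤ Y)
    (hs : s ^ 2 = (X - Y) ^ 2 + 4 * Z ^ 2) (hr : r = p ^ 2 + q ^ 2)
    (h1 : r ^ 2 ≤ A * (p ^ 2 * X + 2 * p * q * Z + q ^ 2 * Y)) :
    4 * (X * Y - Z ^ 2 + r) ≤ (A + X + Y) ^ 2 := by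
  have hr0 : 0 ≤ r := by rw [hr]; positivity
  -- (X - Y)(p² - q²) + 4 p q Z ≤ s r
  have h2 : (X - Y) * (p ^ 2 - q ^ 2) + 4 * p * q * Z ≤ s * r := by
    refine abs_le_of_sq_le_sq' ?_ (by positivity) |>.2
    have e : (s * r) ^ 2 - ((X - Y) * (p ^ 2 - q ^ 2) + 4 * p * q * Z) ^ 2 =
        ((X - Y) * (2 * p * q) - 2 * Z * (p ^ 2 - q ^ 2)) ^ 2 := by
      rw [mul_pow, hs, hr]; ring
    nlinarith [sq_nonneg ((X - Y) * (2 * p * q) - 2 * Z * (p ^ 2 - q ^ 2))]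
  have h3 : 2 * r ^ 2 ≤ A * (X + Y + s) * r := by
    have : A * (2 * (p ^ 2 * X + 2 * p * q * Z + q ^ 2 * Y)) ≤ A * ((X + Y + s) * r) := by
      refine mul_le_mul_of_nonneg_left ?_ hA
      rw [hr] at h2 ⊢
      nlinarith
    nlinarith
  have h4 : 2 * r ≤ A * (X + Y + s) ∨ r = 0 := by
    rcases hr0.lt_or_eq with h | h
    · left
      by_contra h5
      push Not at h5
      nlinarith
    · right; exact h.symm
  rcases h4 with h4 | h4
  · nlinarith [sq_nonneg (A - s)]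
  · rw [h4]
    nlinarith [mul_nonneg hA (add_nonneg hX hY), sq_nonneg (X - Y), sq_nonneg Z, sq_nonneg A]

theorem psi4_le (u : R9) : 4 * psi4 u ≤ dot9 u u ^ 2 := by
  have hD : (u.2.1 ⨯₃ u.2.2) ⬝ᵥ (u.2.1 ⨯₃ u.2.2) =
      (u.2.1 ⬝ᵥ u.2.1) * (u.2.2 ⬝ᵥ u.2.2) - (u.2.1 ⬝ᵥ u.2.2) ^ 2 := by
    simp [crossProduct, dotProduct, Fin.sum_univ_three]; ring
  have hs0 : 0 ≤ (u.2.1 ⬝ᵥ u.2.1 - u.2.2 ⬝ᵥ u.2.2) ^ 2 + 4 * (u.2.1 ⬝ᵥ u.2.2) ^ 2 := by positivity
  have hcs : ((u.1 ⬝ᵥ u.2.1) ^ 2 + (u.1 ⬝ᵥ u.2.2) ^ 2) ^ 2 ≤ (u.1 ⬝ᵥ u.1) *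
      ((u.1 ⬝ᵥ u.2.1) ^ 2 * (u.2.1 ⬝ᵥ u.2.1) + 2 * (u.1 ⬝ᵥ u.2.1) * (u.1 ⬝ᵥ u.2.2) *
        (u.2.1 ⬝ᵥ u.2.2) + (u.1 ⬝ᵥ u.2.2) ^ 2 * (u.2.2 ⬝ᵥ u.2.2)) := by
    set p := u.1 ⬝ᵥ u.2.1 with hp
    set q := u.1 ⬝ᵥ u.2.2 with hq
    have e1 : p ^ 2 + q ^ 2 = u.1 ⬝ᵥ (p • u.2.1 + q • u.2.2) := by
      rw [dotProduct_add, dotProduct_smul, dotProduct_smul, ← hp, ← hq, smul_eq_mul, smul_eq_mul]
      ring
    have e2 : p ^ 2 * (u.2.1 ⬝ᵥ u.2.1) + 2 * p * q * (u.2.1 ⬝ᵥ u.2.2) +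
        q ^ 2 * (u.2.2 ⬝ᵥ u.2.2) = (p • u.2.1 + q • u.2.2) ⬝ᵥ (p • u.2.1 + q • u.2.2) := by
      simp only [dotProduct, Fin.sum_univ_three, Pi.add_apply, Pi.smul_apply, smul_eq_mul]
      ring
    rw [e1, e2]
    have e3 : ∀ v w : R3, (v ⬝ᵥ w) ^ 2 ≤ (v ⬝ᵥ v) * (w ⬝ᵥ w) := by
      intro v w
      have h1 := dot_self_nonneg (v ⨯₃ w)
      have h2 : (v ⨯₃ w) ⬝ᵥ (v ⨯₃ w) = (v ⬝ᵥ v) * (w ⬝ᵥ w) - (v ⬝ᵥ w) ^ 2 := by
        simp [crossProduct, dotProduct, Fin.sum_univ_three]; ring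
      linarith
    exact e3 _ _
  have h := psi4_aux (Real.sqrt_nonneg _) (dot_self_nonneg u.1) (dot_self_nonneg u.2.1)
    (dot_self_nonneg u.2.2) (Real.sq_sqrt hs0) rfl hcs
  rw [psi4, hD, dot9]
  linarith

theorem cM_le_one (u : R9) : cM u ≤ 1 := by
  have h1 := psi4_nonneg u
  rw [cM]
  have : 0 ≤ 8 * psi4 u / dot9 u u ^ 2 := by positivity
  linarith

theorem neg_one_le_cM (u : R9) : -1 ≤ cM u := by
  have h1 := psi4_le u
  rw [cM]
  have h2 : 8 * psi4 u / dot9 u u ^ 2 ≤ 2 := by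
    rcases (sq_nonneg (dot9 u u)).lt_or_eq with h | h
    · rw [div_le_iff₀ h]; linarith
    · rw [← h, div_zero]; norm_num
  linarith

theorem dot_self_eq_zero {v : R3} (h : v ⬝ᵥ v = 0) : v = 0 := by
  simp only [dotProduct, Fin.sum_univ_three] at h
  funext i
  fin_cases i <;> simp only [Fin.zero_eta, Fin.mk_one, Fin.reduceFinMk, Pi.zero_apply] <;>
    nlinarith [sq_nonneg (v 0), sq_nonneg (v 1), sq_nonneg (v 2)]

theorem psi4_eq_zero {u : R9} :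
    psi4 u = 0 ↔ u.1 ⬝ᵥ u.2.1 = 0 ∧ u.1 ⬝ᵥ u.2.2 = 0 ∧ u.2.1 ⨯₃ u.2.2 = 0 := by
  constructor
  · intro h
    have h1 := dot_self_nonneg (u.2.1 ⨯₃ u.2.2)
    rw [psi4] at h
    refine ⟨?_, ?_, dot_self_eq_zero ?_⟩ <;>
      nlinarith [sq_nonneg (u.1 ⬝ᵥ u.2.1), sq_nonneg (u.1 ⬝ᵥ u.2.2)]
  · rintro ⟨h1, h2, h3⟩
    rw [psi4, h1, h2, h3]; simp

theorem cM_eq_one {u : R9} (hu : u ≠ 0) :
    cM u = 1 ↔ u.1 ⬝ᵥ u.2.1 = 0 ∧ u.1 ⬝ᵥ u.2.2 = 0 ∧ u.2.1 ⨯₃ u.2.2 = 0 := by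
  have h := dot9_self_pos hu
  rw [← psi4_eq_zero, cM]
  constructor
  · intro h1
    have h2 : 8 * psi4 u / dot9 u u ^ 2 = 0 := by linarith
    rw [div_eq_zero_iff] at h2
    rcases h2 with h2 | h2
    · linarith
    · exact absurd h2 (by positivity)
  · intro h1
    rw [h1]; simp

theorem cM_eq_neg_one {u : R9} (hu : u ≠ 0) : cM u = -1 ↔ 4 * psi4 u = dot9 u u ^ 2 := by
  have h := dot9_self_pos hu
  have h0 : dot9 u u ^ 2 ≠ 0 := by positivity
  rw [cM]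
  constructor
  · intro h1
    have h2 : 8 * psi4 u / dot9 u u ^ 2 = 2 := by linarith
    rw [div_eq_iff h0] at h2
    linarith
  · intro h1
    rw [← h1, show 8 * psi4 u = 2 * (4 * psi4 u) by ring, mul_div_assoc,
      div_self (by rw [h1]; exact h0)]
    norm_num

end Pool.Agent.FL.S2
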