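import Pool.Agent.helper79.FR.StepB

/-!
# MP_f09395_gt: the iterated derivatives `aW v j` along a curve of flags

`U' = [h₀, b] + ρ [h₀, U]` for a curve `(U, b)` of flags; then `aW v (j+1) (U t)` is `w` times the
derivative of `aW v j (U t)`, with `w = Q (B U) b` constant.
-/

set_option linter.unusedSectionVars false

noncomputable section

namespace Pool.Agent.FL

open scoped ContDiff
open Pool.Agent.Helper93.Fin Pool.Agent.helper79.FP Pool.Agent.helper79.FR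
open Filter Topology Set

variable {𝔸 : Type*} [NormedRing 𝔸] [NormedAlgebra ℝ 𝔸] [FiniteDimensional ℝ 𝔸]
variable {g h m : Submodule ℝ 𝔸} {Q : 𝔸 →ₗ[ℝ] 𝔸 →ₗ[ℝ] ℝ} {P : 𝔸 →L[ℝ] m} {v f : m → ℝ}
variable {h0 : 𝔸} {B : m → 𝔸} {c : m → ℝ} {H : Subgroup 𝔸ˣ}

/-- a curve of flags moving by `U' = [h₀, b] + ρ [h₀, U]` on the interval `(-ε, ε)` -/
structure FCurve (Q : 𝔸 →ₗ[ℝ] 𝔸 →ₗ[ℝ] ℝ) (P : 𝔸 →L[ℝ] m) (h0 : 𝔸) (ρ ε : ℝ) (U b : ℝ → m) :
    Prop where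
  pos : 0 < ε
  flag : ∀ t ∈ Ioo (-ε) ε, Flag Q (U t) (b t)
  cont : ContinuousOn b (Ioo (-ε) ε)
  deriv : ∀ t ∈ Ioo (-ε) ε, HasDerivAt U (P ⁅h0, (b t : 𝔸)⁆ + ρ • P ⁅h0, (U t : 𝔸)⁆) t

variable {ρ ε : ℝ} {U b : ℝ → m}

/-- derivative of an invariant function along the curve -/
theorem FCurve.hd (hN : NData g h m Q P) (hC : Cas g h m Q P h0 B c) (hG : GrpD H h m Q h0 B c)
    (hU : FCurve Q P h0 ρ ε U b) (hf : ContDiffOn ℝ ∞ f {0}ᶜ) (hfH : InvH H f) {t : ℝ}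
    (ht : t ∈ Ioo (-ε) ε) : HasDerivAt (fun t => f (U t)) (al P h0 f (U t) (b t)) t := by
  have hne := (hU.flag t ht).ne hN
  have h1 := (differentiableAt_of_ne hf hne).hasFDerivAt.comp_hasDerivAt t (hU.deriv t ht)
  refine h1.congr_deriv ?_
  rw [map_add, map_smul]
  have h2 : fderiv ℝ f (U t) (P ⁅h0, (U t : 𝔸)⁆) = 0 :=
    inv_of_InvH hN hG hf hfH h0 hC.mem (U t) hne
  rw [h2, smul_zero, add_zero]
  rfl

theorem FCurve.zero_mem (hU : FCurve Q P h0 ρ ε U b) : (0 : ℝ) ∈ Ioo (-ε) ε :=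
  ⟨by linarith [hU.pos], hU.pos⟩

/-- `c` is constant along the curve -/
theorem FCurve.c_const (hN : NData g h m Q P) (hC : Cas g h m Q P h0 B c)
    (hG : GrpD H h m Q h0 B c) (hU : FCurve Q P h0 ρ ε U b) {t : ℝ} (ht : t ∈ Ioo (-ε) ε) :
    c (U t) = c (U 0) := by
  have h1 : ∀ t ∈ Ioo (-ε) ε, HasDerivAt (fun t => c (U t)) 0 t := by
    intro t ht
    have := hU.hd hN hC hG hC.csm (fun k hk u v huv => hG.c k hk u v huv) ht
    rwa [al, flag_c0 hN hC (hU.flag t ht)] at this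
  exact isOpen_Ioo.is_const_of_deriv_eq_zero isPreconnected_Ioo
    (fun t ht => (h1 t ht).differentiableAt.differentiableWithinAt)
    (fun t ht => (h1 t ht).deriv) ht hU.zero_mem

/-- `w = Q (B u) b` is constant along the curve -/
theorem FCurve.w_const (hN : NData g h m Q P) (hC : Cas g h m Q P h0 B c)
    (hG : GrpD H h m Q h0 B c) (hU : FCurve Q P h0 ρ ε U b) (hw : Q (B (U 0)) (b 0) ≠ 0) {t : ℝ}
    (ht : t ∈ Ioo (-ε) ε) : Q (B (U t)) (b t) = Q (B (U 0)) (b 0) := by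
  have h1 : ContinuousOn (fun t => Q (B (U t)) (b t)) (Ioo (-ε) ε) := by
    have h2 : ContinuousOn (fun t => (U t, b t)) (Ioo (-ε) ε) :=
      ContinuousOn.prodMk (fun t ht => (hU.deriv t ht).continuousAt.continuousWithinAt) hU.cont
    exact (w_cont hC (S := {p : m × m | p.1 ≠ 0}) fun p hp => hp).comp h2
      fun t ht => (hU.flag t ht).ne hN
  refine isPreconnected_Ioo.eq_of_sq_eq h1 continuousOn_const (fun t ht => ?_) (fun _ => hw)
    hU.zero_mem rfl ht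
  have e1 := hC.cw _ _ (hU.flag t ht)
  have e2 := hC.cw _ _ (hU.flag 0 hU.zero_mem)
  rw [hU.c_const hN hC hG ht] at e1
  simp only [Pi.pow_apply]
  linarith

/-- one step of the tower -/
theorem FCurve.step (hN : NData g h m Q P) (hC : Cas g h m Q P h0 B c)
    (hG : GrpD H h m Q h0 B c) (hU : FCurve Q P h0 ρ ε U b) (hw : Q (B (U 0)) (b 0) ≠ 0)
    (hv : ContDiffOn ℝ ∞ v {0}ᶜ) (hvH : InvH H v) {j : ℕ} {G G' : ℝ → ℝ} {K : ℝ}
    (h1 : ∀ t ∈ Ioo (-ε) ε, aW P h0 B v j (U t) = K * G t)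
    (h2 : ∀ t ∈ Ioo (-ε) ε, HasDerivAt G (G' t) t) :
    ∀ t ∈ Ioo (-ε) ε, aW P h0 B v (j + 1) (U t) = (Q (B (U 0)) (b 0) * K) * G' t := by
  intro t ht
  have e1 : aW P h0 B v (j + 1) (U t) =
      Q (B (U t)) (b t) * al P h0 (aW P h0 B v j) (U t) (b t) :=
    flag_D1W hN hC (hU.flag t ht) _
  rw [e1, hU.w_const hN hC hG hw ht, mul_assoc]
  congr 1
  have e2 := hU.hd hN hC hG (aW_smooth hC hv j) (aW_inv hN hC hG hv hvH j) ht
  have e3 : HasDerivAt (fun t => aW P h0 B v j (U t)) (K * G' t) t :=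
    ((h2 t ht).const_mul K).congr_of_eventuallyEq
      (Filter.eventually_of_mem (isOpen_Ioo.mem_nhds ht) h1)
  exact e2.unique e3

/-- **the tower along a curve of flags**: if `aW v 1, .., aW v 4` vanish at a regular flag, then
`α_v` and its first three derivatives along the curve vanish -/
theorem FCurve.tower (hN : NData g h m Q P) (hC : Cas g h m Q P h0 B c)
    (hG : GrpD H h m Q h0 B c) (hU : FCurve Q P h0 ρ ε U b) (hw : Q (B (U 0)) (b 0) ≠ 0)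
    (hv : ContDiffOn ℝ ∞ v {0}ᶜ) (hvH : InvH H v) {G0 G1 G2 G3 : ℝ → ℝ}
    (h0' : ∀ t ∈ Ioo (-ε) ε, al P h0 v (U t) (b t) = G0 t)
    (h1 : ∀ t ∈ Ioo (-ε) ε, HasDerivAt G0 (G1 t) t)
    (h2 : ∀ t ∈ Ioo (-ε) ε, HasDerivAt G1 (G2 t) t)
    (h3 : ∀ t ∈ Ioo (-ε) ε, HasDerivAt G2 (G3 t) t)
    (hz : ∀ j, 1 ≤ j → j ≤ 4 → aW P h0 B v j (U 0) = 0) :
    G0 0 = 0 ∧ G1 0 = 0 ∧ G2 0 = 0 ∧ G3 0 = 0 := by
  have k0 : ∀ t ∈ Ioo (-ε) ε, aW P h0 B v 1 (U t) = Q (B (U 0)) (b 0) * G0 t := by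
    intro t ht
    have e1 : aW P h0 B v 1 (U t) = Q (B (U t)) (b t) * al P h0 v (U t) (b t) :=
      flag_D1W hN hC (hU.flag t ht) _
    rw [e1, hU.w_const hN hC hG hw ht, h0' t ht]
  have k1 := hU.step hN hC hG hw hv hvH k0 h1
  have k2 := hU.step hN hC hG hw hv hvH k1 h2
  have k3 := hU.step hN hC hG hw hv hvH k2 h3
  have z := hU.zero_mem
  have z0 := k0 0 z
  have z1 := k1 0 z
  have z2 := k2 0 z
  have z3 := k3 0 z
  rw [hz 1 (by norm_num) (by norm_num)] at z0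
  rw [hz 2 (by norm_num) (by norm_num)] at z1
  rw [hz 3 (by norm_num) (by norm_num)] at z2
  rw [hz 4 (by norm_num) (by norm_num)] at z3
  refine ⟨?_, ?_, ?_, ?_⟩
  · exact (mul_eq_zero.1 z0.symm).resolve_left hw
  · exact (mul_eq_zero.1 z1.symm).resolve_left (by positivity)
  · exact (mul_eq_zero.1 z2.symm).resolve_left (by positivity)
  · exact (mul_eq_zero.1 z3.symm).resolve_left (by positivity)

end Pool.Agent.FL
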