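import Pool.Agent.FL.GE4c
import Pool.Agent.FL.WTow
import Pool.Agent.FL.S2Trans

/-!
# MP_f09395_gt, space (2), GE4: `W`-finite type of order four outside the exceptional set
-/

set_option linter.unusedSectionVars false

noncomputable section

namespace Pool.Agent.FL.S2

open scoped ContDiff Quaternion Matrix
open Pool.Agent.Helper93.Fin Pool.Agent.helper79.FP Pool.Agent.helper79.FR
open Pool.Agent.helper79.FR.Sp2 (Mat QQ h0 m gg hh PP BB cc)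
open Pool.Agent.helper79.FR
open Filter Topology Set Matrix

attribute [local instance] Matrix.linftyOpNormedRing Matrix.linftyOpNormedAlgebra

/-- `α` in normal form -/
theorem al_nf {S : Matrix (Fin 3) (Fin 3) ℝ} (hS : Sᵀ = S) {ν X Y w f1 f2 f3 : Fin 3 → ℝ}
    {co si : ℝ} (h : Frame3 X Y w) (hf : Frame3 f1 f2 f3) (hcs : co ^ 2 + si ^ 2 = 1) :
    -(nfx co si X f1 f2 ⬝ᵥ S *ᵥ nfx (-si) co Y f1 f2 -
        nfx co si Y f1 f2 ⬝ᵥ S *ᵥ nfx (-si) co X f1 f2) -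
      ν ⬝ᵥ (nfa co si w f1 f2 ⨯₃ nfa (-si) co w f1 f2) =
    -F0 (w 0) (w 1) (w 2) (f1 ⬝ᵥ S *ᵥ f2) (ν ⬝ᵥ f3) := by
  have hsym : f2 ⬝ᵥ S *ᵥ f1 = f1 ⬝ᵥ S *ᵥ f2 := by
    rw [dotProduct_mulVec, ← mulVec_transpose, hS, dotProduct_comm]
  have c21 : f2 ⨯₃ f1 = -f3 := by rw [← cross_anticomm, hf.c12]
  have hw := congrFun h.c12 2
  rw [cr2] at hw
  unfold nfa nfx F0
  simp only [map_sub, map_smul, LinearMap.sub_apply,
    LinearMap.smul_apply, cross_self, c21, hf.c12, mulVec_add, mulVec_smul, dotProduct_add,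
    dotProduct_sub, dotProduct_smul, add_dotProduct, smul_dotProduct, smul_eq_mul, hsym,
    dotProduct_neg, dotProduct_zero, smul_zero, smul_neg]
  linear_combination (-(f1 ⬝ᵥ S *ᵥ f2)) * hw +
    (X 1 * Y 0 * (f1 ⬝ᵥ S *ᵥ f2) - X 0 * Y 1 * (f1 ⬝ᵥ S *ᵥ f2) - w 0 * w 1 * (ν ⬝ᵥ f3)) * hcs

/-- the reduced equations along the flow -/
theorem red_flow {A B κ t : ℝ} {S : Matrix (Fin 3) (Fin 3) ℝ} (hS : Sᵀ = S)
    {w : ℝ → Fin 3 → ℝ} {φ : ℝ → ℝ} {e1 e2 : Fin 3 → ℝ} (hw : RF A B w w t)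
    (hφ : HasDerivAt φ (-(κ * w t 2)) t) :
    Red A B κ (fun t => w t 0) (fun t => w t 1) (fun t => w t 2)
      (fun t => fr1 e1 e2 (φ t) ⬝ᵥ S *ᵥ fr2 e1 e2 (φ t))
      (fun t => fr2 e1 e2 (φ t) ⬝ᵥ S *ᵥ fr2 e1 e2 (φ t) -
        fr1 e1 e2 (φ t) ⬝ᵥ S *ᵥ fr1 e1 e2 (φ t)) t := by
  have hsym : e2 ⬝ᵥ S *ᵥ e1 = e1 ⬝ᵥ S *ᵥ e2 := by
    rw [dotProduct_mulVec, ← mulVec_transpose, hS, dotProduct_comm]
  have eP : ∀ θ : ℝ, fr1 e1 e2 θ ⬝ᵥ S *ᵥ fr2 e1 e2 θ =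
      Real.cos θ * Real.sin θ * (e2 ⬝ᵥ S *ᵥ e2 - e1 ⬝ᵥ S *ᵥ e1) +
        (Real.cos θ ^ 2 - Real.sin θ ^ 2) * (e1 ⬝ᵥ S *ᵥ e2) := by
    intro θ
    simp only [fr1, fr2, mulVec_add, mulVec_smul, dotProduct_add, dotProduct_smul,
      add_dotProduct, smul_dotProduct, smul_eq_mul, hsym]
    ring
  have eT : ∀ θ : ℝ, fr2 e1 e2 θ ⬝ᵥ S *ᵥ fr2 e1 e2 θ - fr1 e1 e2 θ ⬝ᵥ S *ᵥ fr1 e1 e2 θ =
      (Real.cos θ ^ 2 - Real.sin θ ^ 2) * (e2 ⬝ᵥ S *ᵥ e2 - e1 ⬝ᵥ S *ᵥ e1) -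
        4 * (Real.cos θ * Real.sin θ) * (e1 ⬝ᵥ S *ᵥ e2) := by
    intro θ
    simp only [fr1, fr2, mulVec_add, mulVec_smul, dotProduct_add, dotProduct_smul,
      add_dotProduct, smul_dotProduct, smul_eq_mul, hsym]
    ring
  simp only [eP, eT]
  have hc := hφ.cos
  have hs := hφ.sin
  have hcs := hc.fun_mul hs
  have hd := (hc.fun_pow 2).fun_sub (hs.fun_pow 2)
  refine ⟨hw.d0, hw.d1, hw.d2, ?_, ?_⟩
  · refine ((hcs.mul_const (e2 ⬝ᵥ S *ᵥ e2 - e1 ⬝ᵥ S *ᵥ e1)).fun_add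
      (hd.mul_const (e1 ⬝ᵥ S *ᵥ e2))).congr_deriv ?_
    simp only [Nat.cast_ofNat]
    ring
  · refine ((hd.mul_const (e2 ⬝ᵥ S *ᵥ e2 - e1 ⬝ᵥ S *ᵥ e1)).fun_sub
      ((hcs.const_mul 4).mul_const (e1 ⬝ᵥ S *ᵥ e2))).congr_deriv ?_
    simp only [Nat.cast_ofNat]
    ring

/-- the triple in normal form -/
def nf (co si : ℝ) (X Y w f1 f2 : Fin 3 → ℝ) : R9 :=
  (nfa co si w f1 f2, nfx co si X f1 f2, nfx co si Y f1 f2)

theorem flg_nf {X Y w f1 f2 f3 : Fin 3 → ℝ} {co si : ℝ} (h : Frame3 X Y w)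
    (hf : Frame3 f1 f2 f3) (hcs : co ^ 2 + si ^ 2 = 1) :
    Flg (nf co si X Y w f1 f2) (nf (-si) co X Y w f1 f2) := by
  have k := flagV_of_nf h hf hcs
  refine ⟨k.hu, k.hb, k.hub, ?_, ?_⟩
  · exact Prod.ext k.C1 (Prod.ext (sub_eq_zero.2 k.C2) (sub_eq_zero.2 k.C3))
  · exact sub_eq_zero.2 k.C4

/-- normal form of flags -/
theorem flg_normal {u b : R9} (h : Flg u b) :
    ∃ X Y w f1 f2 f3 : Fin 3 → ℝ, ∃ co si : ℝ, Frame3 X Y w ∧ Frame3 f1 f2 f3 ∧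
      co ^ 2 + si ^ 2 = 1 ∧ u = nf co si X Y w f1 f2 ∧ b = nf (-si) co X Y w f1 f2 := by
  obtain ⟨a, x, y⟩ := u
  obtain ⟨a', x', y'⟩ := b
  have h1 := h.br
  have C1 : a ⨯₃ a' + x ⨯₃ x' + y ⨯₃ y' = 0 := congrArg Prod.fst h1
  have C2 : a ⨯₃ x' - a' ⨯₃ x = 0 := congrArg (fun z => z.2.1) h1
  have C3 : a ⨯₃ y' - a' ⨯₃ y = 0 := congrArg (fun z => z.2.2) h1
  have C4 : x ⬝ᵥ y' - y ⬝ᵥ x' = 0 := h.brh
  obtain ⟨X, Y, w, f1, f2, f3, co, si, k1, k2, k3, k4, k5, k6, k7, k8, k9⟩ :=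
    flag_normal C1 (sub_eq_zero.1 C2) (sub_eq_zero.1 C3) (sub_eq_zero.1 C4) h.uu h.bb h.ub
  refine ⟨X, Y, w, f1, f2, f3, co, si, k1, k2, k3, ?_, ?_⟩
  · rw [k4, k5, k6]; rfl
  · rw [k7, k8, k9]
    unfold nf nfa nfx
    refine Prod.ext ?_ (Prod.ext ?_ ?_) <;> simp only <;> module

/-- the quartic invariant in normal form -/
theorem psi4_nf {X Y w f1 f2 f3 : Fin 3 → ℝ} {co si : ℝ} (h : Frame3 X Y w)
    (hf : Frame3 f1 f2 f3) : psi4 (nf co si X Y w f1 f2) = (co * si) ^ 2 := by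
  have o21 : f2 ⬝ᵥ f1 = 0 := by rw [dotProduct_comm, hf.o12]
  have c21 : f2 ⨯₃ f1 = -f3 := by rw [← cross_anticomm, hf.c12]
  have a2 := congrFun h.c12 2
  have b2 := congrFun h.c23 2
  have c2 := congrFun h.c31 2
  rw [cr2] at a2 b2 c2
  have n := h.col 2 2
  rw [Matrix.one_apply_eq] at n
  unfold psi4 nf nfa nfx
  simp only [map_add, map_smul, LinearMap.add_apply, LinearMap.smul_apply, cross_self, c21,
    hf.c12, dotProduct_add, dotProduct_smul, add_dotProduct, smul_dotProduct, sub_dotProduct,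
    smul_eq_mul, hf.n1, hf.n2, hf.n3, hf.o12, o21, smul_zero, zero_add, add_zero, smul_neg,
    neg_dotProduct, dotProduct_neg]
  linear_combination (co * si) ^ 2 * ((X 0 * Y 1 - X 1 * Y 0 + w 2) * a2 +
    (w 0 * X 1 - w 1 * X 0 + Y 2) * c2 + (Y 0 * w 1 - Y 1 * w 0 + X 2) * b2 + n)

/-- the constants of a regular flag -/
theorem cst_exists {co si : ℝ} (hcs : co ^ 2 + si ^ 2 = 1) (h1 : co * si ≠ 0)
    (h2 : co ^ 2 - si ^ 2 ≠ 0) : ∃ κ ρ A B : ℝ, Cst co si κ ρ A B ∧ A * B = κ ^ 2 ∧ κ ≠ 0 ∧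
      B - A ≠ 0 := by
  have hco : co ≠ 0 := left_ne_zero_of_mul h1
  have hsi : si ≠ 0 := right_ne_zero_of_mul h1
  obtain ⟨κ, hκ⟩ : ∃ κ : ℝ, κ * (co ^ 2 - si ^ 2) = 1 := ⟨(co ^ 2 - si ^ 2)⁻¹, inv_mul_cancel₀ h2⟩
  have hκ0 : κ ≠ 0 := by
    rintro rfl
    simp at hκ
  refine ⟨κ, si * (1 + κ) / co, κ * si / co, κ * co / si, ⟨?_, ?_, ?_, ?_⟩, ?_, hκ0, ?_⟩
  · field_simp
  · field_simp
  · field_simp
  · field_simp
    linear_combination hcs - hκ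
  · field_simp
  · have : κ * co / si - κ * si / co = 1 / (co * si) := by
      field_simp
      linear_combination hκ
    rw [this]
    exact one_div_ne_zero h1

/-- continuity of the frames -/
theorem RF.cont {A B : ℝ} {w r : ℝ → Fin 3 → ℝ} {t : ℝ} (h : RF A B w r t) :
    ContinuousAt r t := by
  rw [continuousAt_pi]
  intro i
  fin_cases i
  · exact h.d0.continuousAt
  · exact h.d1.continuousAt
  · exact h.d2.continuousAt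

theorem cont_nf {A B co si t : ℝ} {X Y w : ℝ → Fin 3 → ℝ} {φ : ℝ → ℝ} {φ' : ℝ}
    {e1 e2 : Fin 3 → ℝ} (hX : RF A B w X t) (hY : RF A B w Y t) (hw : RF A B w w t)
    (hφ : HasDerivAt φ φ' t) :
    ContinuousAt (fun t => nf co si (X t) (Y t) (w t) (fr1 e1 e2 (φ t)) (fr2 e1 e2 (φ t))) t := by
  have k1 := (hd_fr1 (e1 := e1) (e2 := e2) hφ).continuousAt
  have k2 := (hd_fr2 (e1 := e1) (e2 := e2) hφ).continuousAt
  have h1 := hX.d0.continuousAt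
  have h2 := hX.d1.continuousAt
  have h3 := hY.d0.continuousAt
  have h4 := hY.d1.continuousAt
  have h5 := hw.d0.continuousAt
  have h6 := hw.d1.continuousAt
  unfold nf nfa nfx
  refine ContinuousAt.prodMk ?_ (ContinuousAt.prodMk ?_ ?_)
  · exact ((continuousAt_const.mul h5).smul k2).sub ((continuousAt_const.mul h6).smul k1)
  · exact ((continuousAt_const.mul h1).smul k1).add ((continuousAt_const.mul h2).smul k2)
  · exact ((continuousAt_const.mul h3).smul k1).add ((continuousAt_const.mul h4).smul k2)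

/-- the curve of flags through a regular flag -/
theorem exists_fcurve {X Y w f1 f2 f3 : Fin 3 → ℝ} {co si κ ρ A B : ℝ} (h : Frame3 X Y w)
    (hf : Frame3 f1 f2 f3) (hcs : co ^ 2 + si ^ 2 = 1) (hc : Cst co si κ ρ A B) :
    ∃ ε : ℝ, ∃ Xt Yt wt : ℝ → Fin 3 → ℝ, ∃ φ : ℝ → ℝ, Xt 0 = X ∧ Yt 0 = Y ∧ wt 0 = w ∧ φ 0 = 0 ∧
      (∀ t ∈ Ioo (-ε) ε, RF A B wt wt t ∧ HasDerivAt φ (-(κ * wt t 2)) t ∧
        Frame3 (Xt t) (Yt t) (wt t)) ∧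
      FCurve Q2 (PP 1 1) hU ρ ε
        (fun t => iota (nf co si (Xt t) (Yt t) (wt t) (fr1 f1 f2 (φ t)) (fr2 f1 f2 (φ t))))
        (fun t => iota (nf (-si) co (Xt t) (Yt t) (wt t) (fr1 f1 f2 (φ t))
          (fr2 f1 f2 (φ t)))) := by
  obtain ⟨ε, hε, Xt, Yt, wt, φ, hX0, hY0, hw0, hφ0, hfl⟩ := exists_flow A B κ X Y w
  have hF : ∀ t ∈ Ioo (-ε) ε, Frame3 (Xt t) (Yt t) (wt t) := fun t ht =>
    frame_flow (fun t ht => (hfl t ht).1) (fun t ht => (hfl t ht).2.1)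
      (fun t ht => (hfl t ht).2.2.1) (by rw [hX0, hY0, hw0]; exact h) ht
  refine ⟨ε, Xt, Yt, wt, φ, hX0, hY0, hw0, hφ0,
    fun t ht => ⟨(hfl t ht).2.2.1, (hfl t ht).2.2.2, hF t ht⟩, hε, fun t ht => ?_, ?_,
    fun t ht => ?_⟩
  · exact (flag_iff _ _).2 (flg_nf (hF t ht) (hf.fr _) hcs)
  · intro t ht
    obtain ⟨k1, k2, k3, k4⟩ := hfl t ht
    exact (iota.continuous.continuousAt.comp (cont_nf k1 k2 k3 k4)).continuousWithinAt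
  · obtain ⟨k1, k2, k3, k4⟩ := hfl t ht
    have e1 := hd_nfa (e1 := f1) (e2 := f2) hc k3 k4
    have e2 := hd_nfx (e1 := f1) (e2 := f2) hc k1 k4 (hF t ht)
    have e3 := hd_nfy (e1 := f1) (e2 := f2) hc k2 k4 (hF t ht)
    have e4 : HasDerivAt (fun t => nf co si (Xt t) (Yt t) (wt t) (fr1 f1 f2 (φ t))
        (fr2 f1 f2 (φ t)))
        (rot (nf (-si) co (Xt t) (Yt t) (wt t) (fr1 f1 f2 (φ t)) (fr2 f1 f2 (φ t))) +
          ρ • rot (nf co si (Xt t) (Yt t) (wt t) (fr1 f1 f2 (φ t)) (fr2 f1 f2 (φ t)))) t := by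
      refine (e1.hasFDerivAt.prodMk (e2.hasFDerivAt.prodMk e3.hasFDerivAt)).hasDerivAt.congr_deriv ?_
      unfold rot nf
      refine Prod.ext ?_ (Prod.ext ?_ ?_) <;> simp [sub_eq_add_neg]
    have e5 := iota.toContinuousLinearMap.hasFDerivAt.comp_hasDerivAt t e4
    refine e5.congr_deriv ?_
    have q1 := PP_hU (nf (-si) co (Xt t) (Yt t) (wt t) (fr1 f1 f2 (φ t)) (fr2 f1 f2 (φ t)))
    have q2 := PP_hU (nf co si (Xt t) (Yt t) (wt t) (fr1 f1 f2 (φ t)) (fr2 f1 f2 (φ t)))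
    refine Eq.trans ?_ (congrArg₂ (fun p q : m 1 1 => p + ρ • q) q1.symm q2.symm)
    rw [map_add, map_smul]
    rfl

/-- **finite type of order four**: a regular flag at which the first four iterated derivatives
along `W` vanish has `a, x, y` parallel, or `a = 0` and `x × y` umbilic -/
theorem wft_gen {v : R9 → ℝ} (hv : PhiM v) {S : Matrix (Fin 3) (Fin 3) ℝ} (hS : Sᵀ = S)
    {ν : R3} (hal : ∀ u b : R9, Flg u b → alM v u b =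
      -(u.2.1 ⬝ᵥ S *ᵥ b.2.2 - u.2.2 ⬝ᵥ S *ᵥ b.2.1) - ν ⬝ᵥ (u.1 ⨯₃ b.1))
    (hQ : ∀ f1 f2 f3 : R3, Frame3 f1 f2 f3 → f1 ⬝ᵥ S *ᵥ f2 = 0 →
      f2 ⬝ᵥ S *ᵥ f2 = f1 ⬝ᵥ S *ᵥ f1 → ν ⬝ᵥ f3 ≠ 0)
    {u b : R9} (h : Flg u b) (h1 : cM u ≠ 1) (h2 : cM u ≠ -1)
    (hz : ∀ j, 1 ≤ j → j ≤ 4 → aW (PP 1 1) hU (BB 1 1) (toM v) j (iota u) = 0) :
    (u.1 ⨯₃ u.2.1 = 0 ∧ u.1 ⨯₃ u.2.2 = 0 ∧ u.2.1 ⨯₃ u.2.2 = 0) ∨
    (u.1 = 0 ∧ ∃ (f1 f2 f3 : R3) (r : ℝ), Frame3 f1 f2 f3 ∧ f1 ⬝ᵥ S *ᵥ f2 = 0 ∧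
      f2 ⬝ᵥ S *ᵥ f2 = f1 ⬝ᵥ S *ᵥ f1 ∧ r ≠ 0 ∧ u.2.1 ⨯₃ u.2.2 = r • f3) := by
  obtain ⟨X, Y, w, f1, f2, f3, co, si, hF, hf, hcs, rfl, rfl⟩ := flg_normal h
  have hc : cM (nf co si X Y w f1 f2) = 1 - 8 * (co * si) ^ 2 := by
    unfold cM
    rw [psi4_nf hF hf, h.uu]
    ring
  have r1 : co * si ≠ 0 := by
    intro h0
    exact h1 (by rw [hc, h0]; ring)
  have r2 : co ^ 2 - si ^ 2 ≠ 0 := by
    intro h0
    apply h2
    rw [hc]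
    have : (co ^ 2 + si ^ 2) ^ 2 - (co ^ 2 - si ^ 2) ^ 2 = 1 := by rw [hcs, h0]; ring
    linear_combination -2 * this
  obtain ⟨κ, ρ, A, B, hcst, hAB, hκ, hG⟩ := cst_exists hcs r1 r2
  obtain ⟨ε, Xt, Yt, wt, φ, hX0, hY0, hw0, hφ0, hfl, hcur⟩ := exists_fcurve hF hf hcs hcst
  have e10 : fr1 f1 f2 (φ 0) = f1 := by rw [hφ0]; simp [fr1]
  have e20 : fr2 f1 f2 (φ 0) = f2 := by rw [hφ0]; simp [fr2]
  -- regularity
  have hu0 : nf co si X Y w f1 f2 ≠ 0 := by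
    intro h0
    have := h.uu
    rw [h0] at this
    simp [dot9] at this
  have hw : Q2 (BB 1 1 (iota (nf co si X Y w f1 f2)))
      ((iota (nf (-si) co X Y w f1 f2) : m 1 1) : Mat) ≠ 0 := by
    intro h0
    have k1 := cas2.cw _ _ ((flag_iff _ _).2 h)
    rw [h0] at k1
    have k2 : cc 1 1 (iota (nf co si X Y w f1 f2)) ^ 2 = cM (nf co si X Y w f1 f2) ^ 2 := by
      rw [cc_iota hu0]
      try ring
    rw [k2] at k1
    have k3 : (cM (nf co si X Y w f1 f2) - 1) * (cM (nf co si X Y w f1 f2) + 1) = 0 := by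
      linear_combination k1
    rcases mul_eq_zero.1 k3 with k | k
    · exact h1 (by linarith)
    · exact h2 (by linarith)
  obtain ⟨hP, hPH⟩ := phiN_toM hv
  -- the tower
  have key := hcur.tower nData2 cas2 grpD2
    (by
      simp only [hX0, hY0, hw0, e10, e20]
      exact hw) hP.smooth hPH
    (G0 := fun t => -F0 (wt t 0) (wt t 1) (wt t 2)
      (fr1 f1 f2 (φ t) ⬝ᵥ S *ᵥ fr2 f1 f2 (φ t)) (ν ⬝ᵥ f3))
    (G1 := fun t => -F1 A B κ (wt t 0) (wt t 1) (wt t 2)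
      (fr1 f1 f2 (φ t) ⬝ᵥ S *ᵥ fr2 f1 f2 (φ t))
      (fr2 f1 f2 (φ t) ⬝ᵥ S *ᵥ fr2 f1 f2 (φ t) - fr1 f1 f2 (φ t) ⬝ᵥ S *ᵥ fr1 f1 f2 (φ t))
      (ν ⬝ᵥ f3))
    (G2 := fun t => -F2 A B κ (wt t 0) (wt t 1) (wt t 2)
      (fr1 f1 f2 (φ t) ⬝ᵥ S *ᵥ fr2 f1 f2 (φ t))
      (fr2 f1 f2 (φ t) ⬝ᵥ S *ᵥ fr2 f1 f2 (φ t) - fr1 f1 f2 (φ t) ⬝ᵥ S *ᵥ fr1 f1 f2 (φ t))
      (ν ⬝ᵥ f3))
    (G3 := fun t => -F3 A B κ (wt t 0) (wt t 1) (wt t 2)
      (fr1 f1 f2 (φ t) ⬝ᵥ S *ᵥ fr2 f1 f2 (φ t))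
      (fr2 f1 f2 (φ t) ⬝ᵥ S *ᵥ fr2 f1 f2 (φ t) - fr1 f1 f2 (φ t) ⬝ᵥ S *ᵥ fr1 f1 f2 (φ t))
      (ν ⬝ᵥ f3))
    (fun t ht => by
      obtain ⟨k1, k2, k3⟩ := hfl t ht
      have k4 := flg_nf k3 (hf.fr (φ t)) hcs
      have k5 : nf co si (Xt t) (Yt t) (wt t) (fr1 f1 f2 (φ t)) (fr2 f1 f2 (φ t)) ≠ 0 := by
        intro h0
        have := k4.uu
        rw [h0] at this
        simp [dot9] at this
      have k6 := al_toM hv.smooth k5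
        (nf (-si) co (Xt t) (Yt t) (wt t) (fr1 f1 f2 (φ t)) (fr2 f1 f2 (φ t)))
      rw [hal _ _ k4] at k6
      exact k6.trans (al_nf hS k3 (hf.fr (φ t)) hcs))
    (fun t ht => by
      obtain ⟨k1, k2, k3⟩ := hfl t ht
      exact ((red_flow hS (e1 := f1) (e2 := f2) k1 k2).d0).neg)
    (fun t ht => by
      obtain ⟨k1, k2, k3⟩ := hfl t ht
      exact ((red_flow hS (e1 := f1) (e2 := f2) k1 k2).d1).neg)
    (fun t ht => by
      obtain ⟨k1, k2, k3⟩ := hfl t ht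
      exact ((red_flow hS (e1 := f1) (e2 := f2) k1 k2).d2).neg)
    (by
      simp only [hX0, hY0, hw0, e10, e20]
      exact hz)
  simp only [hw0, e10, e20, neg_eq_zero] at key
  obtain ⟨z0, z1, z2, z3⟩ := key
  have c21 : f2 ⨯₃ f1 = -f3 := by rw [← cross_anticomm, hf.c12]
  have a2 := congrFun hF.c12 2
  rw [cr2] at a2
  have hxy : (nf co si X Y w f1 f2).2.1 ⨯₃ (nf co si X Y w f1 f2).2.2 =
      (co * si * w 2) • f3 := by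
    unfold nf nfx
    simp only [map_add, map_smul, LinearMap.add_apply, LinearMap.smul_apply, cross_self, c21,
      hf.c12]
    rw [← a2]
    module
  rcases elim hAB hκ hG z0 z1 z2 z3 (fun q1 q2 => hQ f1 f2 f3 hf q1 (by linarith)) with
    ⟨x0, y0, p0, t0⟩ | ⟨k2, k01⟩
  · right
    refine ⟨?_, f1, f2, f3, co * si * w 2, hf, p0, by linarith, ?_, hxy⟩
    · show nfa co si w f1 f2 = 0
      unfold nfa
      rw [x0, y0]; simp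
    · have n3 := hF.n3
      rw [dot3, x0, y0] at n3
      refine mul_ne_zero r1 ?_
      rintro q
      rw [q] at n3
      norm_num at n3
  · left
    have n3 := hF.n3
    rw [dot3, k2] at n3
    have c00 := hF.col 0 0
    have c11 := hF.col 1 1
    rw [Matrix.one_apply_eq] at c00 c11
    have hp : (w 0 * X 0 = 0 ∧ w 1 * X 1 = 0) ∧ (w 0 * Y 0 = 0 ∧ w 1 * Y 1 = 0) := by
      rcases k01 with k | k
      · rw [k] at n3 c00 ⊢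
        have q : w 1 * w 1 = 1 := by linarith
        have q1 : X 1 * X 1 + Y 1 * Y 1 = 0 := by linarith
        have q2 : X 1 = 0 := by nlinarith [mul_self_nonneg (X 1), mul_self_nonneg (Y 1)]
        have q3 : Y 1 = 0 := by nlinarith [mul_self_nonneg (X 1), mul_self_nonneg (Y 1)]
        rw [q2, q3]
        simp
      · rw [k] at n3 c11 ⊢
        have q : w 0 * w 0 = 1 := by linarith
        have q1 : X 0 * X 0 + Y 0 * Y 0 = 0 := by linarith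
        have q2 : X 0 = 0 := by nlinarith [mul_self_nonneg (X 0), mul_self_nonneg (Y 0)]
        have q3 : Y 0 = 0 := by nlinarith [mul_self_nonneg (X 0), mul_self_nonneg (Y 0)]
        rw [q2, q3]
        simp
    have hax : ∀ Z : Fin 3 → ℝ, nfa co si w f1 f2 ⨯₃ nfx co si Z f1 f2 =
        (-(co ^ 2 * (w 0 * Z 0) + si ^ 2 * (w 1 * Z 1))) • f3 := by
      intro Z
      unfold nfa nfx
      simp only [map_add, map_sub, map_smul, LinearMap.sub_apply, LinearMap.smul_apply,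
        cross_self, c21, hf.c12]
      module
    refine ⟨?_, ?_, by rw [hxy, k2]; simp⟩
    · show nfa co si w f1 f2 ⨯₃ nfx co si X f1 f2 = 0
      rw [hax, hp.1.1, hp.1.2]; simp
    · show nfa co si w f1 f2 ⨯₃ nfx co si Y f1 f2 = 0
      rw [hax, hp.2.1, hp.2.2]; simp

end Pool.Agent.FL.S2
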