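import Pool.Agent.FL.GE3

/-!
# MP_f09395_gt, space (2), GE4 (part a): the flow of `W` in normal form

The `W`-flow modulo the isotropy group on the frames `(X, Y, w)`, `(f1, f2, f3)`; the derivatives of
`w₃ S(f1, f2) + w₁ w₂ ⟨ν, f3⟩` along it and the elimination.
-/

noncomputable section

namespace Pool.Agent.FL.S2

open Matrix Set Filter Topology

/-! ### algebra of the first four derivatives -/

/-- the function -/
def F0 (x y z P n : ℝ) : ℝ := z * P + n * (x * y)

/-- first derivative -/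
def F1 (A B κ x y z P T n : ℝ) : ℝ :=
  -(B - A) * x * y * P - κ * z ^ 2 * T + n * z * (B * x ^ 2 - A * y ^ 2)

/-- second derivative -/
def F2 (A B κ x y z P T n : ℝ) : ℝ :=
  -(B - A) * (B * x ^ 2 - A * y ^ 2) * z * P + 3 * κ * (B - A) * x * y * z * T
    - 4 * κ ^ 2 * z ^ 3 * P
    - n * (x * y) * ((B - A) * (B * x ^ 2 - A * y ^ 2) + 4 * (A * B) * z ^ 2)

/-- third derivative -/
def F3 (A B κ x y z P T n : ℝ) : ℝ :=
  (B - A) ^ 2 * x * y * (B * x ^ 2 - A * y ^ 2) * P + 4 * (A * B) * (B - A) * x * y * z ^ 2 * P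
    + κ * (B - A) * z ^ 2 * (B * x ^ 2 - A * y ^ 2) * T
    + 3 * κ * (B - A) * (z ^ 2 * (B * x ^ 2 - A * y ^ 2) * T - (B - A) * x ^ 2 * y ^ 2 * T
        + 4 * κ * (x * y) * z ^ 2 * P)
    + 12 * κ ^ 2 * (B - A) * x * y * z ^ 2 * P + 4 * κ ^ 3 * z ^ 4 * T
    - n * z * ((B * x ^ 2 - A * y ^ 2) * ((B - A) * (B * x ^ 2 - A * y ^ 2) + 4 * (A * B) * z ^ 2)
        - 12 * (A * B) * (B - A) * x ^ 2 * y ^ 2)

/-- the equations of the reduced flow at one time -/
structure Red (A B κ : ℝ) (x y z P T : ℝ → ℝ) (t : ℝ) : Prop where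
  dx : HasDerivAt x (-(A * y t * z t)) t
  dy : HasDerivAt y (B * x t * z t) t
  dz : HasDerivAt z (A * y t * x t - B * x t * y t) t
  dP : HasDerivAt P (-(κ * z t) * T t) t
  dT : HasDerivAt T (4 * (κ * z t) * P t) t

variable {A B κ n : ℝ} {x y z P T : ℝ → ℝ} {t : ℝ}

theorem Red.d0 (h : Red A B κ x y z P T t) :
    HasDerivAt (fun t => F0 (x t) (y t) (z t) (P t) n)
      (F1 A B κ (x t) (y t) (z t) (P t) (T t) n) t := by
  unfold F0
  have := (h.dz.fun_mul h.dP).fun_add ((h.dx.fun_mul h.dy).const_mul n)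
  refine this.congr_deriv ?_
  unfold F1
  ring

theorem Red.dM (h : Red A B κ x y z P T t) :
    HasDerivAt (fun t => B * x t ^ 2 - A * y t ^ 2) (-(4 * (A * B) * (x t * y t * z t))) t := by
  have := ((h.dx.fun_pow 2).const_mul B).fun_sub ((h.dy.fun_pow 2).const_mul A)
  refine this.congr_deriv ?_
  simp only [Nat.cast_ofNat]
  ring

theorem Red.d1 (h : Red A B κ x y z P T t) :
    HasDerivAt (fun t => F1 A B κ (x t) (y t) (z t) (P t) (T t) n)
      (F2 A B κ (x t) (y t) (z t) (P t) (T t) n) t := by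
  unfold F1
  have := (((((h.dx.const_mul (-(B - A))).fun_mul h.dy).fun_mul h.dP).fun_sub
    (((h.dz.fun_pow 2).const_mul κ).fun_mul h.dT)).fun_add ((h.dz.const_mul n).fun_mul h.dM))
  refine this.congr_deriv ?_
  unfold F2
  simp only [Nat.cast_ofNat]
  ring

theorem Red.d2 (h : Red A B κ x y z P T t) :
    HasDerivAt (fun t => F2 A B κ (x t) (y t) (z t) (P t) (T t) n)
      (F3 A B κ (x t) (y t) (z t) (P t) (T t) n) t := by
  unfold F2
  have := ((((((h.dM.const_mul (-(B - A))).fun_mul h.dz).fun_mul h.dP).fun_add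
    ((((h.dx.const_mul (3 * κ * (B - A))).fun_mul h.dy).fun_mul h.dz).fun_mul h.dT)).fun_sub
    (((h.dz.fun_pow 3).const_mul (4 * κ ^ 2)).fun_mul h.dP)).fun_sub
    (((h.dx.fun_mul h.dy).const_mul n).fun_mul ((h.dM.const_mul (B - A)).fun_add
      ((h.dz.fun_pow 2).const_mul (4 * (A * B))))))
  refine this.congr_deriv ?_
  unfold F3
  simp only [Nat.cast_ofNat]
  ring

/-- **elimination**: the common zeros of the first four derivatives -/
theorem elim {A B κ x y z P T n : ℝ} (hAB : A * B = κ ^ 2) (hκ : κ ≠ 0) (hG : B - A ≠ 0)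
    (h0 : F0 x y z P n = 0) (h1 : F1 A B κ x y z P T n = 0) (h2 : F2 A B κ x y z P T n = 0)
    (h3 : F3 A B κ x y z P T n = 0) (hQ : P = 0 → T = 0 → n ≠ 0) :
    (x = 0 ∧ y = 0 ∧ P = 0 ∧ T = 0) ∨ (z = 0 ∧ (x = 0 ∨ y = 0)) := by
  have hA : A ≠ 0 := by
    rintro rfl
    rw [zero_mul] at hAB
    exact hκ (pow_eq_zero_iff two_ne_zero |>.1 hAB.symm)
  have hB : B ≠ 0 := by
    rintro rfl
    rw [mul_zero] at hAB
    exact hκ (pow_eq_zero_iff two_ne_zero |>.1 hAB.symm)
  unfold F0 at h0
  unfold F1 at h1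
  unfold F2 at h2
  unfold F3 at h3
  by_cases hz : z = 0
  · subst hz
    right
    refine ⟨rfl, ?_⟩
    by_contra hxy
    push Not at hxy
    obtain ⟨hx, hy⟩ := hxy
    have hn : n = 0 := by
      have : n * (x * y) = 0 := by linear_combination h0
      exact (mul_eq_zero.1 this).resolve_right (mul_ne_zero hx hy)
    have hP : P = 0 := by
      have : (B - A) * (x * y) * P = 0 := by linear_combination -h1
      exact (mul_eq_zero.1 this).resolve_left (mul_ne_zero hG (mul_ne_zero hx hy))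
    have hT : T = 0 := by
      subst hP
      have : 3 * κ * (B - A) ^ 2 * (x * y) ^ 2 * T = 0 := by linear_combination -h3
      refine (mul_eq_zero.1 this).resolve_left ?_
      have := mul_ne_zero hx hy
      positivity
    exact hQ hP hT hn
  · left
    have E1 : -κ * z ^ 3 * T + n * ((B - A) * (x * y) ^ 2 + z ^ 2 * (B * x ^ 2 - A * y ^ 2)) = 0 := by
      linear_combination z * h1 + (B - A) * (x * y) * h0
    have E2 : (3 * κ * (B - A) * z ^ 2) * (x * y * T) = 0 := by
      linear_combination z * h2 + ((B - A) * z * (B * x ^ 2 - A * y ^ 2) + 4 * κ ^ 2 * z ^ 3) * h0 +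
        4 * n * (x * y) * z ^ 3 * hAB
    have E3 : (3 * κ * (B - A)) * (z ^ 3 * (B * x ^ 2 - A * y ^ 2) * T
        - 2 * (B - A) * (x * y) ^ 2 * z * T + 4 * κ * (x * y) * z ^ 3 * P) = 0 := by
      linear_combination (-(B - A) * (x * y)) * h2 + z * h3 +
        ((B - A) * (-(B - A) * (x * y) * (B * x ^ 2 - A * y ^ 2) - 4 * (A * B) * (x * y) * z ^ 2)
          - 12 * κ ^ 2 * z ^ 2 * (B - A) * (x * y)) * h0 +
        ((B - A) * z * (B * x ^ 2 - A * y ^ 2) + 4 * κ ^ 2 * z ^ 3) * h1 +
        4 * n * (z ^ 4 * (B * x ^ 2 - A * y ^ 2) - 3 * (B - A) * (x * y) ^ 2 * z ^ 2) * hAB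
    have e2 : x * y * T = 0 := by
      refine (mul_eq_zero.1 E2).resolve_left ?_
      positivity
    have e3 : (B * x ^ 2 - A * y ^ 2) * T + 4 * κ * (x * y) * P = 0 := by
      have h4 := (mul_eq_zero.1 E3).resolve_left (by positivity)
      have h5 : z ^ 3 * ((B * x ^ 2 - A * y ^ 2) * T + 4 * κ * (x * y) * P) = 0 := by
        linear_combination h4 + 2 * (B - A) * (x * y) * z * e2
      exact (mul_eq_zero.1 h5).resolve_left (by positivity)
    have key : B * x ^ 2 - A * y ^ 2 = 0 → x * y = 0 → x = 0 ∧ y = 0 := by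
      intro k1 k2
      rcases mul_eq_zero.1 k2 with k | k
      · subst k
        have : A * y ^ 2 = 0 := by linear_combination -k1
        exact ⟨rfl, pow_eq_zero_iff two_ne_zero |>.1 ((mul_eq_zero.1 this).resolve_left hA)⟩
      · subst k
        have : B * x ^ 2 = 0 := by linear_combination k1
        exact ⟨pow_eq_zero_iff two_ne_zero |>.1 ((mul_eq_zero.1 this).resolve_left hB), rfl⟩
    have hT : T = 0 := by
      by_contra hT
      have k1 : x * y = 0 := (mul_eq_zero.1 e2).resolve_right hT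
      have k2 : B * x ^ 2 - A * y ^ 2 = 0 := by
        rw [k1] at e3
        have : (B * x ^ 2 - A * y ^ 2) * T = 0 := by linear_combination e3
        exact (mul_eq_zero.1 this).resolve_right hT
      obtain ⟨k3, k4⟩ := key k2 k1
      subst k3 k4
      have : κ * z ^ 3 * T = 0 := by linear_combination -E1
      exact hT ((mul_eq_zero.1 this).resolve_left (by positivity))
    subst hT
    have k1 : x * y = 0 := by
      by_contra hxy
      have hP : P = 0 := by
        have : 4 * κ * (x * y) * P = 0 := by linear_combination e3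
        exact (mul_eq_zero.1 this).resolve_left (by positivity)
      have hn : n * (x * y) = 0 := by rw [hP] at h0; linear_combination h0
      exact hQ hP rfl ((mul_eq_zero.1 hn).resolve_right hxy)
    have hP : P = 0 := by
      have : z * P = 0 := by linear_combination h0 - n * k1
      exact (mul_eq_zero.1 this).resolve_left hz
    have hn := hQ hP rfl
    have k2 : B * x ^ 2 - A * y ^ 2 = 0 := by
      have : n * z ^ 2 * (B * x ^ 2 - A * y ^ 2) = 0 := by
        linear_combination E1 - n * (B - A) * (x * y) * k1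
      exact (mul_eq_zero.1 this).resolve_left (by positivity)
    obtain ⟨k3, k4⟩ := key k2 k1
    exact ⟨k3, k4, hP, rfl⟩

end Pool.Agent.FL.S2
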