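import Pool.Agent.FL.GE4a

/-!
# MP_f09395_gt, space (2), GE4 (part b): the flow on frames
-/

noncomputable section

namespace Pool.Agent.FL.S2

open Matrix Set Filter Topology

theorem dot3 (u v : Fin 3 → ℝ) : u ⬝ᵥ v = u 0 * v 0 + u 1 * v 1 + u 2 * v 2 := by
  simp [dotProduct, Fin.sum_univ_three]

theorem cr0 (u v : Fin 3 → ℝ) : (u ⨯₃ v) 0 = u 1 * v 2 - u 2 * v 1 := by
  simp [cross_apply]

theorem cr1 (u v : Fin 3 → ℝ) : (u ⨯₃ v) 1 = u 2 * v 0 - u 0 * v 2 := by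
  simp [cross_apply]

theorem cr2 (u v : Fin 3 → ℝ) : (u ⨯₃ v) 2 = u 0 * v 1 - u 1 * v 0 := by
  simp [cross_apply]

/-- a curve moved by the rotation field of `w` -/
structure RF (A B : ℝ) (w r : ℝ → Fin 3 → ℝ) (t : ℝ) : Prop where
  d0 : HasDerivAt (fun t => r t 0) (-(A * w t 1 * r t 2)) t
  d1 : HasDerivAt (fun t => r t 1) (B * w t 0 * r t 2) t
  d2 : HasDerivAt (fun t => r t 2) (A * w t 1 * r t 0 - B * w t 0 * r t 1) t

variable {A B κ : ℝ} {w r s : ℝ → Fin 3 → ℝ} {t : ℝ}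

theorem RF.dot (hr : RF A B w r t) (hs : RF A B w s t) :
    HasDerivAt (fun t => r t ⬝ᵥ s t) 0 t := by
  have h := ((hr.d0.fun_mul hs.d0).fun_add (hr.d1.fun_mul hs.d1)).fun_add (hr.d2.fun_mul hs.d2)
  have e : (fun t => r t ⬝ᵥ s t) = fun t => r t 0 * s t 0 + r t 1 * s t 1 + r t 2 * s t 2 :=
    funext fun t => dot3 _ _
  rw [e]
  refine h.congr_deriv ?_
  ring

theorem RF.cross (hr : RF A B w r t) (hs : RF A B w s t) :
    RF A B w (fun t => r t ⨯₃ s t) t := by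
  refine ⟨?_, ?_, ?_⟩
  · simp only [cr0, cr2]
    refine ((hr.d1.fun_mul hs.d2).fun_sub (hr.d2.fun_mul hs.d1)).congr_deriv ?_
    ring
  · simp only [cr1, cr2]
    refine ((hr.d2.fun_mul hs.d0).fun_sub (hr.d0.fun_mul hs.d2)).congr_deriv ?_
    ring
  · simp only [cr0, cr1, cr2]
    refine ((hr.d0.fun_mul hs.d1).fun_sub (hr.d1.fun_mul hs.d0)).congr_deriv ?_
    ring

theorem RF.sub (hr : RF A B w r t) (hs : RF A B w s t) :
    RF A B w (fun t => r t - s t) t := by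
  refine ⟨?_, ?_, ?_⟩
  · refine (hr.d0.fun_sub hs.d0).congr_deriv ?_
    simp only [Pi.sub_apply]
    ring
  · refine (hr.d1.fun_sub hs.d1).congr_deriv ?_
    simp only [Pi.sub_apply]
    ring
  · refine (hr.d2.fun_sub hs.d2).congr_deriv ?_
    simp only [Pi.sub_apply]
    ring

theorem const_Ioo {f : ℝ → ℝ} {ε : ℝ} (h : ∀ t ∈ Ioo (-ε) ε, HasDerivAt f 0 t) {t : ℝ}
    (ht : t ∈ Ioo (-ε) ε) : f t = f 0 := by
  have h0 : (0 : ℝ) ∈ Ioo (-ε) ε := ⟨by linarith [ht.1, ht.2], by linarith [ht.1, ht.2]⟩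
  exact isOpen_Ioo.is_const_of_deriv_eq_zero isPreconnected_Ioo
    (fun t ht => (h t ht).differentiableAt.differentiableWithinAt)
    (fun t ht => (h t ht).deriv) ht h0

theorem eq_zero_of_dot {v : Fin 3 → ℝ} (h : v ⬝ᵥ v = 0) : v = 0 := dotProduct_self_eq_zero.1 h

/-- the frame condition is preserved -/
theorem frame_flow {X Y w : ℝ → Fin 3 → ℝ} {ε : ℝ} (hX : ∀ t ∈ Ioo (-ε) ε, RF A B w X t)
    (hY : ∀ t ∈ Ioo (-ε) ε, RF A B w Y t) (hw : ∀ t ∈ Ioo (-ε) ε, RF A B w w t)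
    (h0 : Frame3 (X 0) (Y 0) (w 0)) {t : ℝ} (ht : t ∈ Ioo (-ε) ε) :
    Frame3 (X t) (Y t) (w t) := by
  have key : ∀ V : ℝ → Fin 3 → ℝ, (∀ t ∈ Ioo (-ε) ε, RF A B w V t) → V 0 = 0 → V t = 0 := by
    intro V hV hV0
    apply eq_zero_of_dot
    have := const_Ioo (fun t ht => (hV t ht).dot (hV t ht)) ht
    rw [this, hV0, zero_dotProduct]
  refine ⟨?_, ?_, ?_, ?_, ?_, ?_, ?_, ?_, ?_⟩
  · exact (const_Ioo (fun t ht => (hX t ht).dot (hX t ht)) ht).trans h0.n1
  · exact (const_Ioo (fun t ht => (hY t ht).dot (hY t ht)) ht).trans h0.n2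
  · exact (const_Ioo (fun t ht => (hw t ht).dot (hw t ht)) ht).trans h0.n3
  · exact (const_Ioo (fun t ht => (hX t ht).dot (hY t ht)) ht).trans h0.o12
  · exact (const_Ioo (fun t ht => (hX t ht).dot (hw t ht)) ht).trans h0.o13
  · exact (const_Ioo (fun t ht => (hY t ht).dot (hw t ht)) ht).trans h0.o23
  · exact sub_eq_zero.1 (key (fun t => X t ⨯₃ Y t - w t)
      (fun t ht => ((hX t ht).cross (hY t ht)).sub (hw t ht)) (sub_eq_zero.2 h0.c12))
  · exact sub_eq_zero.1 (key (fun t => Y t ⨯₃ w t - X t)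
      (fun t ht => ((hY t ht).cross (hw t ht)).sub (hX t ht)) (sub_eq_zero.2 h0.c23))
  · exact sub_eq_zero.1 (key (fun t => w t ⨯₃ X t - Y t)
      (fun t ht => ((hw t ht).cross (hX t ht)).sub (hY t ht)) (sub_eq_zero.2 h0.c31))

/-- rotation in the plane of the first two vectors -/
theorem Frame3.rot {e1 e2 e3 : Fin 3 → ℝ} (h : Frame3 e1 e2 e3) {c s : ℝ}
    (hcs : c ^ 2 + s ^ 2 = 1) : Frame3 (c • e1 + s • e2) (-s • e1 + c • e2) e3 := by
  have o21 : e2 ⬝ᵥ e1 = 0 := by rw [dotProduct_comm, h.o12]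
  have o31 : e3 ⬝ᵥ e1 = 0 := by rw [dotProduct_comm, h.o13]
  have o32 : e3 ⬝ᵥ e2 = 0 := by rw [dotProduct_comm, h.o23]
  have c21 : e2 ⨯₃ e1 = -e3 := by rw [← cross_anticomm, h.c12]
  have c32 : e3 ⨯₃ e2 = -e1 := by rw [← cross_anticomm, h.c23]
  have c13 : e1 ⨯₃ e3 = -e2 := by rw [← cross_anticomm, h.c31]
  refine ⟨?_, ?_, h.n3, ?_, ?_, ?_, ?_, ?_, ?_⟩
  · simp only [add_dotProduct, dotProduct_add, smul_dotProduct, dotProduct_smul, h.n1, h.n2,
      h.o12, o21, smul_eq_mul]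
    linear_combination hcs
  · simp only [add_dotProduct, dotProduct_add, smul_dotProduct, dotProduct_smul, h.n1, h.n2,
      h.o12, o21, smul_eq_mul]
    linear_combination hcs
  · simp only [add_dotProduct, dotProduct_add, smul_dotProduct, dotProduct_smul, h.n1, h.n2,
      h.o12, o21, smul_eq_mul]
    ring
  · simp only [add_dotProduct, smul_dotProduct, h.o13, h.o23, smul_eq_mul]
    ring
  · simp only [add_dotProduct, smul_dotProduct, h.o13, h.o23, smul_eq_mul]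
    ring
  · simp only [map_add, map_smul, LinearMap.add_apply, LinearMap.smul_apply, cross_self, c21,
      h.c12]
    calc _ = (c ^ 2 + s ^ 2) • e3 := by module
      _ = e3 := by rw [hcs, one_smul]
  · simp only [map_add, map_smul, LinearMap.add_apply, LinearMap.smul_apply, h.c23, c13]
    module
  · simp only [map_add, map_smul, h.c31, c32]
    module

/-! ### normal forms -/

/-- the triple `u = (a, x, y)` in normal form -/
def nfa (co si : ℝ) (w f1 f2 : Fin 3 → ℝ) : Fin 3 → ℝ := (co * w 0) • f2 - (si * w 1) • f1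

/-- the second and third component in normal form -/
def nfx (co si : ℝ) (X f1 f2 : Fin 3 → ℝ) : Fin 3 → ℝ := (co * X 0) • f1 + (si * X 1) • f2

/-- flags in coordinates -/
structure FlagV (a x y a' x' y' : Fin 3 → ℝ) : Prop where
  C1 : a ⨯₃ a' + x ⨯₃ x' + y ⨯₃ y' = 0
  C2 : a ⨯₃ x' = a' ⨯₃ x
  C3 : a ⨯₃ y' = a' ⨯₃ y
  C4 : x ⬝ᵥ y' = y ⬝ᵥ x'
  hu : a ⬝ᵥ a + x ⬝ᵥ x + y ⬝ᵥ y = 1
  hb : a' ⬝ᵥ a' + x' ⬝ᵥ x' + y' ⬝ᵥ y' = 1
  hub : a ⬝ᵥ a' + x ⬝ᵥ x' + y ⬝ᵥ y' = 0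

/-- column relations of a frame -/
theorem Frame3.mat {X Y w : Fin 3 → ℝ} (h : Frame3 X Y w) :
    (Matrix.of ![X, Y, w])ᵀ * Matrix.of ![X, Y, w] = 1 := by
  rw [mul_eq_one_comm]
  have n1 := h.n1
  have n2 := h.n2
  have n3 := h.n3
  have o12 := h.o12
  have o13 := h.o13
  have o23 := h.o23
  rw [dot3] at n1 n2 n3 o12 o13 o23
  rw [Matrix.one_fin_three]
  ext i j
  fin_cases i <;> fin_cases j <;> simp [Matrix.mul_apply, Fin.sum_univ_three] <;> linarith

theorem Frame3.col {X Y w : Fin 3 → ℝ} (h : Frame3 X Y w) (i j : Fin 3) :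
    X i * X j + Y i * Y j + w i * w j = (1 : Matrix (Fin 3) (Fin 3) ℝ) i j := by
  have := congrFun (congrFun h.mat i) j
  rw [← this, Matrix.mul_apply, Fin.sum_univ_three]
  rfl

theorem flagV_of_nf {X Y w f1 f2 f3 : Fin 3 → ℝ} {co si : ℝ} (h : Frame3 X Y w)
    (hf : Frame3 f1 f2 f3) (hcs : co ^ 2 + si ^ 2 = 1) :
    FlagV (nfa co si w f1 f2) (nfx co si X f1 f2) (nfx co si Y f1 f2)
      (nfa (-si) co w f1 f2) (nfx (-si) co X f1 f2) (nfx (-si) co Y f1 f2) := by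
  have c00 := h.col 0 0
  have c11 := h.col 1 1
  have c01 := h.col 0 1
  rw [Matrix.one_apply_eq] at c00 c11
  rw [Matrix.one_apply_ne (by decide)] at c01
  have o21 : f2 ⬝ᵥ f1 = 0 := by rw [dotProduct_comm, hf.o12]
  have c21 : f2 ⨯₃ f1 = -f3 := by rw [← cross_anticomm, hf.c12]
  unfold nfa nfx
  refine ⟨?_, ?_, ?_, ?_, ?_, ?_, ?_⟩
  · simp only [map_add, map_sub, map_smul, LinearMap.add_apply, LinearMap.sub_apply,
      LinearMap.smul_apply, cross_self, c21, hf.c12]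
    calc _ = ((X 0 * X 1 + Y 0 * Y 1 + w 0 * w 1) * (co ^ 2 + si ^ 2)) • f3 := by module
      _ = 0 := by rw [c01, zero_mul, zero_smul]
  · simp only [map_add, map_sub, map_smul, LinearMap.sub_apply,
      LinearMap.smul_apply, cross_self, c21, hf.c12]
    module
  · simp only [map_add, map_sub, map_smul, LinearMap.sub_apply,
      LinearMap.smul_apply, cross_self, c21, hf.c12]
    module
  · simp only [add_dotProduct, dotProduct_add, smul_dotProduct, dotProduct_smul, hf.n1, hf.n2,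
      hf.o12, o21, smul_eq_mul]
    ring
  · simp only [add_dotProduct, sub_dotProduct, dotProduct_sub, dotProduct_add, smul_dotProduct,
      dotProduct_smul, hf.n1, hf.n2, hf.o12, o21, smul_eq_mul]
    linear_combination co ^ 2 * c00 + si ^ 2 * c11 + hcs
  · simp only [add_dotProduct, sub_dotProduct, dotProduct_sub, dotProduct_add, smul_dotProduct,
      dotProduct_smul, hf.n1, hf.n2, hf.o12, o21, smul_eq_mul]
    linear_combination si ^ 2 * c00 + co ^ 2 * c11 + hcs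
  · simp only [add_dotProduct, sub_dotProduct, dotProduct_sub, dotProduct_add, smul_dotProduct,
      dotProduct_smul, hf.n1, hf.n2, hf.o12, o21, smul_eq_mul]
    linear_combination -co * si * c00 + co * si * c11

end Pool.Agent.FL.S2
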