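import Pool.Agent.FL.GE4b

/-!
# MP_f09395_gt, space (2), GE4 (part c): existence of the flow, motion of the normal form
-/

noncomputable section

namespace Pool.Agent.FL.S2

open Matrix Set Filter Topology

/-- the rotation field -/
def rvf (A B : ℝ) (w r : Fin 3 → ℝ) : Fin 3 → ℝ :=
  ![-(A * w 1 * r 2), B * w 0 * r 2, A * w 1 * r 0 - B * w 0 * r 1]

theorem contDiff_rvf (A B : ℝ) :
    ContDiff ℝ 1 (fun p : (Fin 3 → ℝ) × (Fin 3 → ℝ) => rvf A B p.1 p.2) := by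
  rw [contDiff_pi]
  intro i
  fin_cases i <;> simp only [rvf, Fin.zero_eta, Fin.mk_one, Fin.reduceFinMk, cons_val_zero,
    cons_val_one, cons_val] <;> fun_prop

/-- the field on frames and angles -/
def fvf (A B κ : ℝ) (c : (Fin 3 → ℝ) × (Fin 3 → ℝ) × (Fin 3 → ℝ) × ℝ) :
    (Fin 3 → ℝ) × (Fin 3 → ℝ) × (Fin 3 → ℝ) × ℝ :=
  (rvf A B c.2.2.1 c.1, rvf A B c.2.2.1 c.2.1, rvf A B c.2.2.1 c.2.2.1, -(κ * c.2.2.1 2))

theorem contDiff_fvf (A B κ : ℝ) : ContDiff ℝ 1 (fvf A B κ) := by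
  unfold fvf
  refine ContDiff.prodMk ?_ (ContDiff.prodMk ?_ (ContDiff.prodMk ?_ ?_))
  · exact (contDiff_rvf A B).comp (f := fun c : (Fin 3 → ℝ) × (Fin 3 → ℝ) × (Fin 3 → ℝ) × ℝ =>
      (c.2.2.1, c.1)) (by fun_prop)
  · exact (contDiff_rvf A B).comp (f := fun c : (Fin 3 → ℝ) × (Fin 3 → ℝ) × (Fin 3 → ℝ) × ℝ =>
      (c.2.2.1, c.2.1)) (by fun_prop)
  · exact (contDiff_rvf A B).comp (f := fun c : (Fin 3 → ℝ) × (Fin 3 → ℝ) × (Fin 3 → ℝ) × ℝ =>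
      (c.2.2.1, c.2.2.1)) (by fun_prop)
  · fun_prop

/-- existence of the flow -/
theorem exists_flow (A B κ : ℝ) (X0 Y0 w0 : Fin 3 → ℝ) :
    ∃ ε : ℝ, 0 < ε ∧ ∃ X Y w : ℝ → Fin 3 → ℝ, ∃ φ : ℝ → ℝ, X 0 = X0 ∧ Y 0 = Y0 ∧ w 0 = w0 ∧
      φ 0 = 0 ∧ ∀ t ∈ Ioo (-ε) ε, RF A B w X t ∧ RF A B w Y t ∧ RF A B w w t ∧
        HasDerivAt φ (-(κ * w t 2)) t := by
  obtain ⟨α, h0, ε, hε, hα⟩ :=
    ((contDiff_fvf A B κ).contDiffAt
      (x := (X0, Y0, w0, (0 : ℝ)))).exists_forall_mem_closedBall_exists_eq_forall_mem_Ioo_hasDerivAt₀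
      0
  rw [zero_sub, zero_add] at hα
  refine ⟨ε, hε, fun t => (α t).1, fun t => (α t).2.1, fun t => (α t).2.2.1,
    fun t => (α t).2.2.2, by simp only [h0], by simp only [h0], by simp only [h0],
    by simp only [h0], fun t ht => ?_⟩
  have h := hα t ht
  have hL : ∀ L : ((Fin 3 → ℝ) × (Fin 3 → ℝ) × (Fin 3 → ℝ) × ℝ) →L[ℝ] ℝ,
      HasDerivAt (fun t => L (α t)) (L (fvf A B κ (α t))) t :=
    fun L => L.hasFDerivAt.comp_hasDerivAt t h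
  have hX : ∀ i : Fin 3, HasDerivAt (fun t => (α t).1 i) ((fvf A B κ (α t)).1 i) t := fun i =>
    hL ((ContinuousLinearMap.proj i).comp (ContinuousLinearMap.fst ℝ _ _))
  have hY : ∀ i : Fin 3, HasDerivAt (fun t => (α t).2.1 i) ((fvf A B κ (α t)).2.1 i) t := fun i =>
    hL ((ContinuousLinearMap.proj i).comp ((ContinuousLinearMap.fst ℝ _ _).comp
      (ContinuousLinearMap.snd ℝ _ _)))
  have hw : ∀ i : Fin 3, HasDerivAt (fun t => (α t).2.2.1 i) ((fvf A B κ (α t)).2.2.1 i) t :=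
    fun i => hL ((ContinuousLinearMap.proj i).comp ((ContinuousLinearMap.fst ℝ _ _).comp
      ((ContinuousLinearMap.snd ℝ _ _).comp (ContinuousLinearMap.snd ℝ _ _))))
  have hφ : HasDerivAt (fun t => (α t).2.2.2) ((fvf A B κ (α t)).2.2.2) t :=
    hL ((ContinuousLinearMap.snd ℝ _ _).comp
      ((ContinuousLinearMap.snd ℝ _ _).comp (ContinuousLinearMap.snd ℝ _ _)))
  exact ⟨⟨hX 0, hX 1, hX 2⟩, ⟨hY 0, hY 1, hY 2⟩, ⟨hw 0, hw 1, hw 2⟩, hφ⟩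

/-! ### motion of the normal form -/

/-- rotating frame -/
def fr1 (e1 e2 : Fin 3 → ℝ) (θ : ℝ) : Fin 3 → ℝ := Real.cos θ • e1 + Real.sin θ • e2

/-- rotating frame -/
def fr2 (e1 e2 : Fin 3 → ℝ) (θ : ℝ) : Fin 3 → ℝ := -Real.sin θ • e1 + Real.cos θ • e2

theorem Frame3.fr {e1 e2 e3 : Fin 3 → ℝ} (h : Frame3 e1 e2 e3) (θ : ℝ) :
    Frame3 (fr1 e1 e2 θ) (fr2 e1 e2 θ) e3 :=
  h.rot (Real.cos_sq_add_sin_sq θ)

theorem hd_fr1 {e1 e2 : Fin 3 → ℝ} {φ : ℝ → ℝ} {φ' t : ℝ} (h : HasDerivAt φ φ' t) :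
    HasDerivAt (fun t => fr1 e1 e2 (φ t)) (φ' • fr2 e1 e2 (φ t)) t := by
  unfold fr1 fr2
  refine ((h.cos.smul_const e1).fun_add (h.sin.smul_const e2)).congr_deriv ?_
  module

theorem hd_fr2 {e1 e2 : Fin 3 → ℝ} {φ : ℝ → ℝ} {φ' t : ℝ} (h : HasDerivAt φ φ' t) :
    HasDerivAt (fun t => fr2 e1 e2 (φ t)) (-(φ' • fr1 e1 e2 (φ t))) t := by
  unfold fr1 fr2
  refine ((h.sin.neg.smul_const e1).fun_add (h.cos.smul_const e2)).congr_deriv ?_
  module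

/-- the relations between the constants of a regular flag -/
structure Cst (co si κ ρ A B : ℝ) : Prop where
  a : co * A = κ * si
  b : si * B = κ * co
  c : ρ * co = si * (1 + κ)
  d : ρ * si = co * (κ - 1)

variable {co si A B κ ρ t : ℝ} {X Y w : ℝ → Fin 3 → ℝ} {φ : ℝ → ℝ} {e1 e2 : Fin 3 → ℝ}

/-- `a` does not move -/
theorem hd_nfa (hc : Cst co si κ ρ A B) (hw : RF A B w w t)
    (hφ : HasDerivAt φ (-(κ * w t 2)) t) :
    HasDerivAt (fun t => nfa co si (w t) (fr1 e1 e2 (φ t)) (fr2 e1 e2 (φ t))) 0 t := by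
  unfold nfa
  have h1 := ((hw.d0.const_mul co).smul (hd_fr2 (e1 := e1) (e2 := e2) hφ)).fun_sub
    ((hw.d1.const_mul si).smul (hd_fr1 (e1 := e1) (e2 := e2) hφ))
  refine h1.congr_deriv ?_
  generalize fr1 e1 e2 (φ t) = f1
  generalize fr2 e1 e2 (φ t) = f2
  calc _ = (w t 0 * w t 2 * (κ * co - si * B)) • f1 + (w t 1 * w t 2 * (κ * si - co * A)) • f2 := by
        module
    _ = 0 := by rw [hc.a, hc.b]; module

theorem hd_nfx (hc : Cst co si κ ρ A B) (hX : RF A B w X t)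
    (hφ : HasDerivAt φ (-(κ * w t 2)) t) (hF : Frame3 (X t) (Y t) (w t)) :
    HasDerivAt (fun t => nfx co si (X t) (fr1 e1 e2 (φ t)) (fr2 e1 e2 (φ t)))
      (-nfx (-si) co (Y t) (fr1 e1 e2 (φ t)) (fr2 e1 e2 (φ t)) -
        ρ • nfx co si (Y t) (fr1 e1 e2 (φ t)) (fr2 e1 e2 (φ t))) t := by
  unfold nfx
  have h1 := ((hX.d0.const_mul co).smul (hd_fr1 (e1 := e1) (e2 := e2) hφ)).fun_add
    ((hX.d1.const_mul si).smul (hd_fr2 (e1 := e1) (e2 := e2) hφ))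
  refine h1.congr_deriv ?_
  have k0 := congrFun hF.c31 0
  have k1 := congrFun hF.c31 1
  rw [cr0] at k0
  rw [cr1] at k1
  generalize fr1 e1 e2 (φ t) = f1
  generalize fr2 e1 e2 (φ t) = f2
  have e1 : -(co * A) * (w t 1 * X t 2) + κ * si * (w t 2 * X t 1) =
      (si - ρ * co) * Y t 0 := by
    rw [hc.a, hc.c]; linear_combination -(κ * si) * k0
  have e2 : -(κ * co) * (w t 2 * X t 0) + si * B * (w t 0 * X t 2) =
      -((co + ρ * si) * Y t 1) := by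
    rw [hc.b, hc.d]; linear_combination -(κ * co) * k1
  calc _ = (-(co * A) * (w t 1 * X t 2) + κ * si * (w t 2 * X t 1)) • f1 +
        (-(κ * co) * (w t 2 * X t 0) + si * B * (w t 0 * X t 2)) • f2 := by module
    _ = ((si - ρ * co) * Y t 0) • f1 + (-((co + ρ * si) * Y t 1)) • f2 := by rw [e1, e2]
    _ = _ := by module

theorem hd_nfy (hc : Cst co si κ ρ A B) (hY : RF A B w Y t)
    (hφ : HasDerivAt φ (-(κ * w t 2)) t) (hF : Frame3 (X t) (Y t) (w t)) :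
    HasDerivAt (fun t => nfx co si (Y t) (fr1 e1 e2 (φ t)) (fr2 e1 e2 (φ t)))
      (nfx (-si) co (X t) (fr1 e1 e2 (φ t)) (fr2 e1 e2 (φ t)) +
        ρ • nfx co si (X t) (fr1 e1 e2 (φ t)) (fr2 e1 e2 (φ t))) t := by
  unfold nfx
  have h1 := ((hY.d0.const_mul co).smul (hd_fr1 (e1 := e1) (e2 := e2) hφ)).fun_add
    ((hY.d1.const_mul si).smul (hd_fr2 (e1 := e1) (e2 := e2) hφ))
  refine h1.congr_deriv ?_
  have k0 := congrFun hF.c23 0
  have k1 := congrFun hF.c23 1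
  rw [cr0] at k0
  rw [cr1] at k1
  generalize fr1 e1 e2 (φ t) = f1
  generalize fr2 e1 e2 (φ t) = f2
  have e1 : -(co * A) * (w t 1 * Y t 2) + κ * si * (w t 2 * Y t 1) =
      (ρ * co - si) * X t 0 := by
    rw [hc.a, hc.c]; linear_combination (κ * si) * k0
  have e2 : -(κ * co) * (w t 2 * Y t 0) + si * B * (w t 0 * Y t 2) =
      (co + ρ * si) * X t 1 := by
    rw [hc.b, hc.d]; linear_combination (κ * co) * k1
  calc _ = (-(co * A) * (w t 1 * Y t 2) + κ * si * (w t 2 * Y t 1)) • f1 +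
        (-(κ * co) * (w t 2 * Y t 0) + si * B * (w t 0 * Y t 2)) • f2 := by module
    _ = ((ρ * co - si) * X t 0) • f1 + ((co + ρ * si) * X t 1) • f2 := by rw [e1, e2]
    _ = _ := by module

end Pool.Agent.FL.S2
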