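import Pool.Agent.FL.S2Core

/-!
# MP_f09395_gt, space (2), GE8A: `a₂`, the rotation rate and `Δ` at wall A

`a2M_section` is the common step for both walls: if along a section `y ↦ (U y, B y)` the Euler field
is `λ DU(X) + κ [h, U]` and `[B, grad v] = λ DB(X) + κ [h, B] + R`, then
`a₂ = λ X(α) + Dv [h, R]`.
-/

noncomputable section

namespace Pool.Agent.FL.S2.G8A

open Matrix
open scoped ContDiff

/-- `α` of the first fibre vector at wall A -/
def al1A (v : R9 → ℝ) (z : R6) : ℝ := alM v (uA z) (b1A z)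

/-- `α` of the second fibre vector at wall A -/
def al2A (v : R9 → ℝ) (z : R6) : ℝ := alM v (uA z) (b2A z)

/-! ### linear maps -/

/-- `rot` as a continuous linear map -/
def rotL : R9 →L[ℝ] R9 :=
  (0 : R9 →L[ℝ] R3).prod ((-(ContinuousLinearMap.snd ℝ R3 R3).comp (ContinuousLinearMap.snd ℝ R3 R6)).prod
    ((ContinuousLinearMap.fst ℝ R3 R3).comp (ContinuousLinearMap.snd ℝ R3 R6)))

theorem rotL_apply (u : R9) : rotL u = rot u := rfl

theorem rot_add (u w : R9) : rot (u + w) = rot u + rot w := by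
  rw [← rotL_apply, map_add]; rfl

theorem rot_smul (c : ℝ) (u : R9) : rot (c • u) = c • rot u := by
  rw [← rotL_apply, map_smul]; rfl

/-- `rotH t` as a continuous linear map -/
def rotHL (t : ℝ) : R9 →L[ℝ] R9 :=
  (ContinuousLinearMap.fst ℝ R3 R6).prod
    ((Real.cos t • (ContinuousLinearMap.fst ℝ R3 R3).comp (ContinuousLinearMap.snd ℝ R3 R6)
      - Real.sin t • (ContinuousLinearMap.snd ℝ R3 R3).comp (ContinuousLinearMap.snd ℝ R3 R6)).prod
    (Real.sin t • (ContinuousLinearMap.fst ℝ R3 R3).comp (ContinuousLinearMap.snd ℝ R3 R6)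
      + Real.cos t • (ContinuousLinearMap.snd ℝ R3 R3).comp (ContinuousLinearMap.snd ℝ R3 R6)))

theorem rotHL_apply (t : ℝ) (u : R9) : rotHL t u = rotH t u := rfl

theorem rotH_zero (u : R9) : rotH 0 u = u := by
  unfold rotH
  rw [Real.cos_zero, Real.sin_zero, one_smul, zero_smul, sub_zero, zero_smul, zero_add, one_smul]

theorem hasDerivAt_rotH (u : R9) : HasDerivAt (fun t => rotH t u) (rot u) 0 := by
  have h1 : HasDerivAt (fun t : ℝ => Real.cos t • u.2.1 - Real.sin t • u.2.2) (-u.2.2) 0 := by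
    have := ((Real.hasDerivAt_cos 0).smul_const u.2.1).fun_sub
      ((Real.hasDerivAt_sin 0).smul_const u.2.2)
    exact this.congr_deriv (by simp)
  have h2 : HasDerivAt (fun t : ℝ => Real.sin t • u.2.1 + Real.cos t • u.2.2) u.2.1 0 := by
    have := ((Real.hasDerivAt_sin 0).smul_const u.2.1).fun_add
      ((Real.hasDerivAt_cos 0).smul_const u.2.2)
    exact this.congr_deriv (by simp)
  exact (hasDerivAt_const (0 : ℝ) u.1).prodMk (h1.prodMk h2)

theorem phi_contDiffAt {v : R9 → ℝ} (hv : PhiM v) {u : R9} (hu : u ≠ 0) :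
    ContDiffAt ℝ ∞ v u :=
  hv.smooth.contDiffAt (isOpen_compl_singleton.mem_nhds hu)

theorem phi_diffAt {v : R9 → ℝ} (hv : PhiM v) {u : R9} (hu : u ≠ 0) : DifferentiableAt ℝ v u :=
  (phi_contDiffAt hv hu).differentiableAt (by simp)

theorem phi_diffAt_fderiv {v : R9 → ℝ} (hv : PhiM v) {u : R9} (hu : u ≠ 0) :
    DifferentiableAt ℝ (fderiv ℝ v) u :=
  ((phi_contDiffAt hv hu).fderiv_right (m := ∞) (by simp)).differentiableAt (by simp)

theorem rotH_ne {u : R9} (hu : u ≠ 0) (t : ℝ) : rotH t u ≠ 0 := by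
  intro h
  apply hu
  have h1 : u.1 = 0 := congrArg Prod.fst h
  have h2 : Real.cos t • u.2.1 - Real.sin t • u.2.2 = 0 := congrArg (fun w : R9 => w.2.1) h
  have h3 : Real.sin t • u.2.1 + Real.cos t • u.2.2 = 0 := congrArg (fun w : R9 => w.2.2) h
  have hcs := Real.cos_sq_add_sin_sq t
  have h4 : u.2.1 = 0 := by
    calc u.2.1 = (Real.cos t ^ 2 + Real.sin t ^ 2) • u.2.1 := by rw [hcs, one_smul]
      _ = Real.cos t • (Real.cos t • u.2.1 - Real.sin t • u.2.2)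
          + Real.sin t • (Real.sin t • u.2.1 + Real.cos t • u.2.2) := by module
      _ = 0 := by rw [h2, h3, smul_zero, smul_zero, add_zero]
  have h5 : u.2.2 = 0 := by
    calc u.2.2 = (Real.cos t ^ 2 + Real.sin t ^ 2) • u.2.2 := by rw [hcs, one_smul]
      _ = Real.cos t • (Real.sin t • u.2.1 + Real.cos t • u.2.2)
          - Real.sin t • (Real.cos t • u.2.1 - Real.sin t • u.2.2) := by module
      _ = 0 := by rw [h2, h3, smul_zero, smul_zero, sub_zero]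
  exact Prod.ext h1 (Prod.ext h4 h5)

theorem phi_fderiv_rotH {v : R9 → ℝ} (hv : PhiM v) {u : R9} (hu : u ≠ 0) (t : ℝ) (w : R9) :
    fderiv ℝ v (rotH t u) (rotH t w) = fderiv ℝ v u w := by
  have h1 : v = v ∘ rotHL t := by
    ext y
    exact (hv.inv t y).symm
  have h2 : fderiv ℝ v u = (fderiv ℝ v (rotHL t u)).comp (rotHL t) := by
    have h3 : HasFDerivAt (v ∘ rotHL t) ((fderiv ℝ v (rotHL t u)).comp (rotHL t)) u :=
      (phi_diffAt hv (rotH_ne hu t)).hasFDerivAt.comp u (rotHL t).hasFDerivAt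
    rw [← h1] at h3
    exact h3.fderiv
  rw [h2]
  rfl

/-- second derivative in a direction of the isotropy orbit -/
theorem phi_fderiv2_rot {v : R9 → ℝ} (hv : PhiM v) {u : R9} (hu : u ≠ 0) (w : R9) :
    fderiv ℝ (fderiv ℝ v) u (rot u) w + fderiv ℝ v u (rot w) = 0 := by
  have h1 : HasFDerivAt (fderiv ℝ v) (fderiv ℝ (fderiv ℝ v) u) (rotH 0 u) := by
    rw [rotH_zero]
    exact (phi_diffAt_fderiv hv hu).hasFDerivAt
  have h2 : HasDerivAt (fun t => fderiv ℝ v (rotH t u)) (fderiv ℝ (fderiv ℝ v) u (rot u)) 0 :=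
    h1.comp_hasDerivAt 0 (hasDerivAt_rotH u)
  have h3 := h2.clm_apply (hasDerivAt_rotH w)
  have h4 : (fun t => fderiv ℝ v (rotH t u) (rotH t w)) = fun _ => fderiv ℝ v u w := by
    ext t
    exact phi_fderiv_rotH hv hu t w
  rw [h4, rotH_zero, rotH_zero] at h3
  exact h3.unique (hasDerivAt_const _ _)

theorem phi_fderiv_rot {v : R9 → ℝ} (hv : PhiM v) {u : R9} (hu : u ≠ 0) :
    fderiv ℝ v u (rot u) = 0 := by
  have h1 : HasFDerivAt v (fderiv ℝ v u) (rotH 0 u) := by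
    rw [rotH_zero]
    exact (phi_diffAt hv hu).hasFDerivAt
  have h2 : HasDerivAt (fun t => v (rotH t u)) (fderiv ℝ v u (rot u)) 0 :=
    h1.comp_hasDerivAt 0 (hasDerivAt_rotH u)
  have h4 : (fun t => v (rotH t u)) = fun _ => v u := by
    ext t
    exact hv.inv t u
  rw [h4] at h2
  exact h2.unique (hasDerivAt_const _ _)

theorem fderiv_fderiv_apply {v : R9 → ℝ} (hv : PhiM v) {u : R9} (hu : u ≠ 0) (w x : R9) :
    fderiv ℝ (fun y => fderiv ℝ v y w) u x = fderiv ℝ (fderiv ℝ v) u x w := by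
  have h := (phi_diffAt_fderiv hv hu).hasFDerivAt.clm_apply (hasFDerivAt_const w u)
  rw [h.fderiv]
  simp

/-- `a₂` along a section -/
theorem a2M_section {v : R9 → ℝ} (hv : PhiM v) {U B : R6 → R9} {z X : R6} {lam κ : ℝ} {R : R9}
    (hU : DifferentiableAt ℝ U z) (hB : DifferentiableAt ℝ B z) (h0 : U z ≠ 0)
    (h1 : eM v (U z) = lam • fderiv ℝ U z X + κ • rot (U z))
    (h2 : br (B z) (grad9 v (U z)) = lam • fderiv ℝ B z X + κ • rot (B z) + R) :
    a2M v (U z) (B z) = lam * fderiv ℝ (fun y => alM v (U y) (B y)) z X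
      + fderiv ℝ v (U z) (rot R) := by
  have hd : HasFDerivAt (fun y => alM v (U y) (B y))
      ((fderiv ℝ v (U z)).comp (rotL.comp (fderiv ℝ B z))
        + ((fderiv ℝ (fderiv ℝ v) (U z)).comp (fderiv ℝ U z)).flip (rot (B z))) z := by
    have e1 : HasFDerivAt (fun y => fderiv ℝ v (U y))
        ((fderiv ℝ (fderiv ℝ v) (U z)).comp (fderiv ℝ U z)) z :=
      (phi_diffAt_fderiv hv h0).hasFDerivAt.comp z hU.hasFDerivAt
    have e2 : HasFDerivAt (fun y => rot (B y)) (rotL.comp (fderiv ℝ B z)) z :=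
      rotL.hasFDerivAt.comp z hB.hasFDerivAt
    exact e1.clm_apply e2
  have e3 : fderiv ℝ (fun y => alM v (U y) (B y)) z X =
      fderiv ℝ v (U z) (rot (fderiv ℝ B z X))
        + fderiv ℝ (fderiv ℝ v) (U z) (fderiv ℝ U z X) (rot (B z)) := by
    rw [hd.fderiv]
    rfl
  have e4 := phi_fderiv2_rot hv h0 (rot (B z))
  unfold a2M
  rw [fderiv_fderiv_apply hv h0, h1, h2, e3]
  simp only [rot_add, rot_smul, map_add, map_smul, smul_eq_mul, _root_.add_apply,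
    _root_.smul_apply]
  linear_combination κ * e4

/-! ### the gradient -/

theorem pi3_sum (w : R3) : w = w 0 • Pi.single 0 1 + w 1 • Pi.single 1 1 + w 2 • Pi.single 2 1 := by
  ext i
  fin_cases i <;> simp

theorem lin3 (L : R3 →L[ℝ] ℝ) (w : R3) : L w = (fun i => L (Pi.single i 1)) ⬝ᵥ w := by
  conv_lhs => rw [pi3_sum w]
  simp only [map_add, map_smul, smul_eq_mul, dotProduct, Fin.sum_univ_three]
  ring

theorem fderiv_eq_dot9 (v : R9 → ℝ) (u w : R9) : fderiv ℝ v u w = dot9 (grad9 v u) w := by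
  have h1 : w = (w.1, 0, 0) + ((0, w.2.1, 0) + (0, 0, w.2.2)) := by
    ext <;> simp
  have e1 := lin3 ((fderiv ℝ v u).comp (ContinuousLinearMap.inl ℝ R3 R6)) w.1
  have e2 := lin3 ((fderiv ℝ v u).comp ((ContinuousLinearMap.inr ℝ R3 R6).comp
    (ContinuousLinearMap.inl ℝ R3 R3))) w.2.1
  have e3 := lin3 ((fderiv ℝ v u).comp ((ContinuousLinearMap.inr ℝ R3 R6).comp
    (ContinuousLinearMap.inr ℝ R3 R3))) w.2.2
  conv_lhs => rw [h1]
  rw [map_add, map_add]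
  simp only [ContinuousLinearMap.comp_apply, ContinuousLinearMap.inl_apply,
    ContinuousLinearMap.inr_apply] at e1 e2 e3
  rw [show (w.1, (0 : R3), (0 : R3)) = (w.1, (0 : R6)) from rfl, e1, e2, e3, ← add_assoc]
  rfl

/-! ### wall A -/

/-- the section over wall A as a linear map -/
def uAL : R6 →L[ℝ] R9 :=
  (ContinuousLinearMap.fst ℝ R3 R3).prod ((ContinuousLinearMap.snd ℝ R3 R3).prod 0)

theorem uAL_apply (z : R6) : uAL z = uA z := rfl

theorem fderiv_uA (z X : R6) : fderiv ℝ uA z X = (X.1, X.2, 0) := by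
  rw [show uA = uAL from rfl, ContinuousLinearMap.fderiv]; rfl

/-- the first fibre vector over wall A as a linear map -/
def b1AL : R6 →L[ℝ] R9 :=
  (ContinuousLinearMap.snd ℝ R3 R3).prod ((ContinuousLinearMap.fst ℝ R3 R3).prod 0)

theorem fderiv_b1A (z X : R6) : fderiv ℝ b1A z X = (X.2, X.1, 0) := by
  rw [show b1A = b1AL from rfl, ContinuousLinearMap.fderiv]; rfl

theorem n3_pos {p : R3} (hp : p ≠ 0) : 0 < n3 p := by
  unfold n3
  refine Real.sqrt_pos.2 (lt_of_le_of_ne ?_ fun h => hp ?_)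
  · exact Finset.sum_nonneg fun i _ => mul_self_nonneg _
  · exact dotProduct_self_eq_zero.1 h.symm

theorem n3_sq (p : R3) : n3 p ^ 2 = p ⬝ᵥ p := by
  unfold n3
  exact Real.sq_sqrt (Finset.sum_nonneg fun i _ => mul_self_nonneg _)

theorem dot_diff : Differentiable ℝ (fun p : R3 => p ⬝ᵥ p) := by
  unfold dotProduct
  fun_prop

theorem n3_diffAt {p : R3} (hp : p ≠ 0) : DifferentiableAt ℝ n3 p := by
  unfold n3
  have h := n3_pos hp
  unfold n3 at h
  exact (dot_diff p).sqrt (Real.sqrt_pos.1 h).ne'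

theorem hasDerivAt_n3inv {p P : R3} (hp : p ≠ 0) :
    HasDerivAt (fun t : ℝ => (n3 (p + t • P))⁻¹) (-(p ⬝ᵥ P) / n3 p ^ 3) 0 := by
  have h0 := n3_pos hp
  have e0 : (fun t : ℝ => (n3 (p + t • P))⁻¹) =
      fun t : ℝ => (Real.sqrt (p ⬝ᵥ p + 2 * (p ⬝ᵥ P) * t + (P ⬝ᵥ P) * t ^ 2))⁻¹ := by
    ext t
    unfold n3
    congr 2
    simp only [add_dotProduct, dotProduct_add, smul_dotProduct, dotProduct_smul, smul_eq_mul,
      dotProduct_comm P p]
    ring
  have h1 : HasDerivAt (fun t : ℝ => p ⬝ᵥ p + 2 * (p ⬝ᵥ P) * t + (P ⬝ᵥ P) * t ^ 2)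
      (2 * (p ⬝ᵥ P)) 0 := by
    have := (((hasDerivAt_id' (0 : ℝ)).const_mul (2 * (p ⬝ᵥ P))).const_add (p ⬝ᵥ p)).fun_add
      (((hasDerivAt_id' (0 : ℝ)).fun_pow 2).const_mul (P ⬝ᵥ P))
    exact this.congr_deriv (by simp)
  have hpp : p ⬝ᵥ p + 2 * (p ⬝ᵥ P) * 0 + (P ⬝ᵥ P) * 0 ^ 2 ≠ 0 := by
    have := pow_pos h0 2
    rw [n3_sq] at this
    simpa using this.ne'
  have h2 := (h1.sqrt hpp).fun_inv (by
    intro h
    have := Real.sqrt_eq_zero'.1 h
    have h3 := pow_pos h0 2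
    rw [n3_sq] at h3
    simp at this
    linarith)
  rw [e0]
  refine h2.congr_deriv ?_
  have e1 : Real.sqrt (p ⬝ᵥ p + 2 * (p ⬝ᵥ P) * 0 + (P ⬝ᵥ P) * 0 ^ 2) = n3 p := by
    unfold n3; congr 1; ring
  rw [e1]
  field_simp

theorem b2A_diffAt {z : R6} (hp : z.1 ≠ 0) : DifferentiableAt ℝ b2A z := by
  have h1 : DifferentiableAt ℝ (fun y : R6 => n3 y.1) z :=
    (n3_diffAt hp).comp z differentiableAt_fst
  have h2 : DifferentiableAt ℝ (fun y : R6 => (n3 y.1)⁻¹ • y.1) z :=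
    (h1.inv (n3_pos hp).ne').smul differentiableAt_fst
  exact (differentiableAt_const (0 : R3)).prodMk ((differentiableAt_const (0 : R3)).prodMk h2)

theorem fderiv_b2A {z : R6} (hp : z.1 ≠ 0) (X : R6) :
    fderiv ℝ b2A z X = (0, 0, (n3 z.1)⁻¹ • X.1 - ((z.1 ⬝ᵥ X.1) / n3 z.1 ^ 3) • z.1) := by
  have hc : HasDerivAt (fun t : ℝ => z + t • X) X 0 := by
    have := ((hasDerivAt_id (0 : ℝ)).smul_const X).const_add z
    simpa using this
  have h1 : HasDerivAt (fun t : ℝ => b2A (z + t • X)) (fderiv ℝ b2A z X) 0 := by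
    have h3 : HasFDerivAt b2A (fderiv ℝ b2A z) (z + (0 : ℝ) • X) := by
      rw [zero_smul, add_zero]; exact (b2A_diffAt hp).hasFDerivAt
    exact HasFDerivAt.comp_hasDerivAt (f := fun t : ℝ => z + t • X) 0 h3 hc
  have h2 : HasDerivAt (fun t : ℝ => b2A (z + t • X))
      (0, 0, (n3 z.1)⁻¹ • X.1 - ((z.1 ⬝ᵥ X.1) / n3 z.1 ^ 3) • z.1) 0 := by
    have e1 : HasDerivAt (fun t : ℝ => z.1 + t • X.1) X.1 0 := by
      have := ((hasDerivAt_id (0 : ℝ)).smul_const X.1).const_add z.1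
      simpa using this
    have e2 := (hasDerivAt_n3inv (P := X.1) hp).fun_smul e1
    have e3 : HasDerivAt (fun t : ℝ => (n3 (z.1 + t • X.1))⁻¹ • (z.1 + t • X.1))
        ((n3 z.1)⁻¹ • X.1 - ((z.1 ⬝ᵥ X.1) / n3 z.1 ^ 3) • z.1) 0 := by
      refine e2.congr_deriv ?_
      rw [zero_smul, add_zero]
      module
    exact (hasDerivAt_const (0 : ℝ) (0 : R3)).prodMk
      ((hasDerivAt_const (0 : ℝ) (0 : R3)).prodMk e3)
  exact h1.unique h2

theorem cross_id {p q : R3} (Y : R3) (h : p ⬝ᵥ q = 0) :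
    (p ⬝ᵥ p) • (q ⨯₃ Y) = (Y ⬝ᵥ (p ⨯₃ q)) • p - (Y ⬝ᵥ p) • (p ⨯₃ q) := by
  simp only [dotProduct, Fin.sum_univ_three] at h
  ext i
  fin_cases i <;>
  simp only [dotProduct, Fin.sum_univ_three, cross_apply, Pi.smul_apply, Pi.sub_apply,
    smul_eq_mul, Matrix.cons_val_zero, Matrix.cons_val_one, Matrix.cons_val] <;>
  simp only [Fin.zero_eta, Fin.mk_one, Fin.reduceFinMk, Matrix.cons_val_zero, Matrix.cons_val_one,
    Matrix.cons_val]
  · linear_combination (-(Y 1 * p 2 - Y 2 * p 1)) * h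
  · linear_combination (-(Y 2 * p 0 - Y 0 * p 2)) * h
  · linear_combination (-(Y 0 * p 1 - Y 1 * p 0)) * h

theorem cross_id2 {p q Y : R3} (h : p ⬝ᵥ q = 0) (hY : Y ⬝ᵥ q = 0) :
    (q ⬝ᵥ q) • (p ⨯₃ Y) = -(Y ⬝ᵥ (p ⨯₃ q)) • q := by
  simp only [dotProduct, Fin.sum_univ_three] at h hY
  ext i
  fin_cases i <;>
  simp only [dotProduct, Fin.sum_univ_three, cross_apply, Pi.smul_apply, Pi.sub_apply,
    smul_eq_mul, Matrix.cons_val_zero, Matrix.cons_val_one, Matrix.cons_val] <;>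
  simp only [Fin.zero_eta, Fin.mk_one, Fin.reduceFinMk, Matrix.cons_val_zero, Matrix.cons_val_one,
    Matrix.cons_val]
  · linear_combination (q 1 * Y 2 - q 2 * Y 1) * h - (q 1 * p 2 - q 2 * p 1) * hY
  · linear_combination (q 2 * Y 0 - q 0 * Y 2) * h - (q 2 * p 0 - q 0 * p 2) * hY
  · linear_combination (q 0 * Y 1 - q 1 * Y 0) * h - (q 0 * p 1 - q 1 * p 0) * hY

theorem gp_uA {v : R9 → ℝ} {z : R6} (hv : DifferentiableAt ℝ v (uA z)) :
    gp (v ∘ uA) z = (grad9 v (uA z)).1 := by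
  ext i
  unfold gp grad9
  rw [show uA = uAL from rfl] at hv ⊢
  rw [fderiv_comp z hv uAL.differentiableAt, ContinuousLinearMap.fderiv]
  rfl

theorem gq_uA {v : R9 → ℝ} {z : R6} (hv : DifferentiableAt ℝ v (uA z)) :
    gq (v ∘ uA) z = (grad9 v (uA z)).2.1 := by
  ext i
  unfold gq grad9
  rw [show uA = uAL from rfl] at hv ⊢
  rw [fderiv_comp z hv uAL.differentiableAt, ContinuousLinearMap.fderiv]
  rfl

theorem uA_ne {z : R6} (hz : z ∈ base) : uA z ≠ 0 := by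
  intro h
  have h1 : z.1 = 0 := congrArg Prod.fst h
  have h2 : z.2 = 0 := congrArg (fun w : R9 => w.2.1) h
  have h3 := hz.2
  rw [h1, h2] at h3
  simp at h3

/-- coefficient of the isotropy direction -/
def kapA (v : R9 → ℝ) (z : R6) : ℝ := -fderiv ℝ v (uA z) (0, 0, z.1 ⨯₃ z.2) / (z.2 ⬝ᵥ z.2)

section wallA

variable {v : R9 → ℝ} {z : R6}

theorem dotY (v : R9 → ℝ) (z : R6) (w : R3) :
    fderiv ℝ v (uA z) (0, 0, w) = (grad9 v (uA z)).2.2 ⬝ᵥ w := by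
  rw [fderiv_eq_dot9]
  simp [dot9]

theorem dotX (v : R9 → ℝ) (z : R6) (w : R3) :
    fderiv ℝ v (uA z) (0, w, 0) = (grad9 v (uA z)).2.1 ⬝ᵥ w := by
  rw [fderiv_eq_dot9]
  simp [dot9]

theorem rot_uA (z : R6) : rot (uA z) = (0, 0, z.2) := by simp [rot, uA]

theorem rot_b1A (z : R6) : rot (b1A z) = (0, 0, z.1) := by simp [rot, b1A]

theorem rot_b2A (z : R6) : rot (b2A z) = (0, -((n3 z.1)⁻¹ • z.1), 0) := by simp [rot, b2A]

theorem dotq_pos (hU : z ∈ U6) : 0 < z.2 ⬝ᵥ z.2 := by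
  have := pow_pos (n3_pos hU.2) 2
  rwa [n3_sq] at this

theorem Yq (hv : PhiM v) (hz : z ∈ base) : (grad9 v (uA z)).2.2 ⬝ᵥ z.2 = 0 := by
  have h := phi_fderiv_rot hv (uA_ne hz)
  rw [rot_uA, dotY] at h
  exact h

theorem pY (hv : PhiM v) (hz : z ∈ base) (hU : z ∈ U6) :
    z.1 ⨯₃ (grad9 v (uA z)).2.2 = kapA v z • z.2 := by
  have h1 := cross_id2 hz.1 (Yq hv hz)
  have h2 := dotq_pos hU
  have h3 : z.1 ⨯₃ (grad9 v (uA z)).2.2 =
      (z.2 ⬝ᵥ z.2)⁻¹ • ((z.2 ⬝ᵥ z.2) • (z.1 ⨯₃ (grad9 v (uA z)).2.2)) := by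
    rw [smul_smul, inv_mul_cancel₀ h2.ne', one_smul]
  rw [h3, h1, smul_smul]
  unfold kapA
  rw [dotY]
  congr 1
  ring

/-- the Euler field at wall A -/
theorem eM_uA (hv : PhiM v) (hz : z ∈ base) (hU : z ∈ U6) :
    eM v (uA z) = (1 : ℝ) • fderiv ℝ uA z (XB (v ∘ uA) z) + kapA v z • rot (uA z) := by
  have hd := phi_diffAt hv (uA_ne hz)
  rw [one_smul, fderiv_uA, rot_uA]
  unfold XB eM br
  rw [gp_uA hd, gq_uA hd]
  refine Prod.ext ?_ (Prod.ext ?_ ?_)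
  · simp [uA]
  · simp only [uA, Prod.snd_add, Prod.fst_add, Prod.smul_snd, Prod.smul_fst, smul_zero, add_zero]
    rw [sub_eq_add_neg, cross_anticomm]
  · have h := pY hv hz hU
    simp only [Prod.snd_add, Prod.smul_snd, zero_add]
    rw [show (uA z).1 = z.1 from rfl, show (uA z).2.2 = 0 from rfl, h, LinearMap.map_zero,
      sub_zero]

theorem al1A_eq (v : R9 → ℝ) (z : R6) : al1A v z = (grad9 v (uA z)).2.2 ⬝ᵥ z.1 := by
  unfold al1A alM
  rw [rot_b1A, dotY]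

theorem al2A_eq (v : R9 → ℝ) (z : R6) :
    al2A v z = -((n3 z.1)⁻¹ * ((grad9 v (uA z)).2.1 ⬝ᵥ z.1)) := by
  unfold al2A alM
  rw [rot_b2A, dotX, dotProduct_neg, dotProduct_smul, smul_eq_mul]

/-- `[b₁, grad v]` at wall A -/
theorem br_b1A (hv : PhiM v) (hz : z ∈ base) (hU : z ∈ U6) :
    br (b1A z) (grad9 v (uA z)) = (1 : ℝ) • fderiv ℝ b1A z (XB (v ∘ uA) z)
      + kapA v z • rot (b1A z)
      + (omA v z • b2A z + (-(al1A v z / (z.1 ⬝ᵥ z.1))) • ((0, 0, z.1 ⨯₃ z.2) : R9)) := by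
  have hd := phi_diffAt hv (uA_ne hz)
  have hN := n3_pos hU.1
  have hN2 := n3_sq z.1
  have hq := dotq_pos hU
  have hz2 := hz.2
  rw [one_smul, fderiv_b1A, rot_b1A]
  unfold XB br
  rw [gp_uA hd, gq_uA hd]
  refine Prod.ext ?_ (Prod.ext ?_ ?_)
  · simp only [b1A, b2A, Prod.fst_add, Prod.smul_fst, smul_zero, add_zero, LinearMap.map_zero,
      LinearMap.zero_apply]
    rw [add_comm]
  · simp only [b1A, b2A, Prod.snd_add, Prod.fst_add, Prod.smul_snd, Prod.smul_fst, smul_zero,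
      add_zero]
    rw [sub_eq_add_neg, cross_anticomm, add_comm]
  · have h1 := cross_id (grad9 v (uA z)).2.2 hz.1
    have h2 : z.2 ⨯₃ (grad9 v (uA z)).2.2 = (z.1 ⬝ᵥ z.1)⁻¹ •
        ((z.1 ⬝ᵥ z.1) • (z.2 ⨯₃ (grad9 v (uA z)).2.2)) := by
      rw [smul_smul, inv_mul_cancel₀ (by rw [← hN2]; positivity), one_smul]
    simp only [b1A, b2A, Prod.snd_add, Prod.smul_snd, zero_add, LinearMap.map_zero, sub_zero]
    rw [h2, h1, al1A_eq]
    unfold kapA omA
    rw [dotY, smul_sub, smul_smul, smul_smul, smul_smul, neg_smul, ← add_assoc, ← add_smul,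
      sub_eq_add_neg]
    congr 2
    · rw [← hN2]
      have hq' : z.2 ⬝ᵥ z.2 = 1 - n3 z.1 ^ 2 := by rw [hN2]; linarith
      rw [hq'] at hq ⊢
      have hq3 := hq.ne'
      field_simp
      ring
    · congr 1
      ring

/-- `[b₂, grad v]` at wall A -/
theorem br_b2A (hv : PhiM v) (hz : z ∈ base) (hU : z ∈ U6) :
    br (b2A z) (grad9 v (uA z)) = (1 : ℝ) • fderiv ℝ b2A z (XB (v ∘ uA) z)
      + kapA v z • rot (b2A z)
      + ((-omA v z) • b1A z + (-(al2A v z / (z.1 ⬝ᵥ z.1))) • ((0, 0, z.1 ⨯₃ z.2) : R9)) := by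
  have hd := phi_diffAt hv (uA_ne hz)
  have hN := n3_pos hU.1
  have hN2 := n3_sq z.1
  have hq := dotq_pos hU
  have hz2 := hz.2
  have hko : kapA v z = -(n3 z.1 * omA v z) := by
    unfold kapA omA
    field_simp
  rw [one_smul, fderiv_b2A hU.1, rot_b2A]
  unfold XB br
  rw [gp_uA hd, gq_uA hd]
  refine Prod.ext ?_ (Prod.ext ?_ ?_)
  · simp only [b1A, b2A, Prod.fst_add, Prod.smul_fst, smul_zero, add_zero, LinearMap.map_zero,
      LinearMap.zero_apply, zero_add, LinearMap.map_smul, LinearMap.smul_apply]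
    rw [pY hv hz hU, hko, smul_smul]
    congr 1
    field_simp
  · simp only [b1A, b2A, Prod.snd_add, Prod.fst_add, Prod.smul_snd, Prod.smul_fst, smul_zero,
      add_zero, LinearMap.map_zero, LinearMap.zero_apply, sub_zero, zero_add]
    rw [hko]
    have : n3 z.1 * (n3 z.1)⁻¹ = 1 := mul_inv_cancel₀ hN.ne'
    rw [smul_neg, smul_smul, ← neg_smul, ← add_smul]
    rw [show -(-(n3 z.1 * omA v z) * (n3 z.1)⁻¹) + -omA v z = 0 by
      linear_combination omA v z * this, zero_smul]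
  · have h1 := cross_id (grad9 v (uA z)).2.1 hz.1
    have h3 : z.1 ⬝ᵥ (z.1 ⨯₃ (grad9 v (uA z)).1 + z.2 ⨯₃ (grad9 v (uA z)).2.1) =
        (grad9 v (uA z)).2.1 ⬝ᵥ (z.1 ⨯₃ z.2) := by
      rw [dotProduct_add, dot_self_cross, zero_add, triple_product_permutation,
        triple_product_permutation]
    have h4 : z.2 ⨯₃ (grad9 v (uA z)).2.1 = (n3 z.1 ^ 2)⁻¹ •
        ((z.1 ⬝ᵥ z.1) • (z.2 ⨯₃ (grad9 v (uA z)).2.1)) := by
      rw [smul_smul, hN2, inv_mul_cancel₀ (by rw [← hN2]; positivity), one_smul]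
    simp only [b1A, b2A, Prod.snd_add, Prod.smul_snd, zero_add, LinearMap.map_zero, smul_zero,
      add_zero, LinearMap.zero_apply, zero_sub, LinearMap.map_smul]
    rw [h3, h4, h1, al2A_eq, ← hN2]
    rw [← smul_neg, cross_anticomm]
    match_scalars <;> field_simp <;> ring

theorem a2M_add (v : R9 → ℝ) {u : R9} (hv : PhiM v) (hu : u ≠ 0) (s1 s2 : ℝ) (b1 b2 : R9) :
    a2M v u (s1 • b1 + s2 • b2) = s1 * a2M v u b1 + s2 * a2M v u b2 := by
  unfold a2M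
  rw [fderiv_fderiv_apply hv hu, fderiv_fderiv_apply hv hu, fderiv_fderiv_apply hv hu, rot_add,
    rot_smul, rot_smul]
  have h1 : br (s1 • b1 + s2 • b2) (grad9 v u) = s1 • br b1 (grad9 v u) + s2 • br b2 (grad9 v u) := by
    unfold br
    refine Prod.ext ?_ (Prod.ext ?_ ?_)
    · simp only [Prod.fst_add, Prod.smul_fst, Prod.snd_add, Prod.smul_snd, map_add, map_smul,
        LinearMap.add_apply, LinearMap.smul_apply]
      module
    · simp only [Prod.fst_add, Prod.smul_fst, Prod.snd_add, Prod.smul_snd, map_add, map_smul,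
        LinearMap.add_apply, LinearMap.smul_apply]
      module
    · simp only [Prod.fst_add, Prod.smul_fst, Prod.snd_add, Prod.smul_snd, map_add, map_smul,
        LinearMap.add_apply, LinearMap.smul_apply]
      module
  rw [h1, rot_add, rot_smul, rot_smul]
  simp only [map_add, map_smul, smul_eq_mul]
  ring

/-- `a₂` of the first fibre vector -/
theorem a2M_b1A (hv : PhiM v) (hz : z ∈ base) (hU : z ∈ U6) :
    a2M v (uA z) (b1A z) = XD (v ∘ uA) (al1A v) z + omA v z * al2A v z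
      + al1A v z * (fderiv ℝ v (uA z) (0, z.1 ⨯₃ z.2, 0) / (z.1 ⬝ᵥ z.1)) := by
  have h := a2M_section hv (U := uA) (B := b1A) uAL.differentiableAt b1AL.differentiableAt
    (uA_ne hz) (eM_uA hv hz hU) (br_b1A hv hz hU)
  rw [h, one_mul, rot_add, rot_smul, rot_smul, map_add, map_smul, map_smul, smul_eq_mul,
    smul_eq_mul]
  have h1 : rot ((0, 0, z.1 ⨯₃ z.2) : R9) = -(0, z.1 ⨯₃ z.2, 0) := by
    simp [rot]
  rw [h1, map_neg]
  have h2 : fderiv ℝ v (uA z) (rot (b2A z)) = al2A v z := rfl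
  rw [h2]
  unfold XD
  have h3 : (fun y => alM v (uA y) (b1A y)) = al1A v := rfl
  rw [h3]
  ring

/-- `a₂` of the second fibre vector -/
theorem a2M_b2A (hv : PhiM v) (hz : z ∈ base) (hU : z ∈ U6) :
    a2M v (uA z) (b2A z) = XD (v ∘ uA) (al2A v) z - omA v z * al1A v z
      + al2A v z * (fderiv ℝ v (uA z) (0, z.1 ⨯₃ z.2, 0) / (z.1 ⬝ᵥ z.1)) := by
  have h := a2M_section hv (U := uA) (B := b2A) uAL.differentiableAt (b2A_diffAt hU.1)
    (uA_ne hz) (eM_uA hv hz hU) (br_b2A hv hz hU)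
  rw [h, one_mul, rot_add, rot_smul, rot_smul, map_add, map_smul, map_smul, smul_eq_mul,
    smul_eq_mul]
  have h1 : rot ((0, 0, z.1 ⨯₃ z.2) : R9) = -(0, z.1 ⨯₃ z.2, 0) := by
    simp [rot]
  rw [h1, map_neg]
  have h2 : fderiv ℝ v (uA z) (rot (b1A z)) = al1A v z := rfl
  rw [h2]
  unfold XD
  have h3 : (fun y => alM v (uA y) (b2A y)) = al2A v := rfl
  rw [h3]
  ring

theorem alM_comb (v : R9 → ℝ) (z : R6) (s1 s2 : ℝ) :
    alM v (uA z) (s1 • b1A z + s2 • b2A z) = s1 * al1A v z + s2 * al2A v z := by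
  unfold al1A al2A alM
  rw [rot_add, rot_smul, rot_smul, map_add, map_smul, map_smul, smul_eq_mul, smul_eq_mul]

/-- `a₂` of the flag with `α = 0` -/
theorem a2M_uA (hv : PhiM v) (hz : z ∈ base) (hU : z ∈ U6) {s1 s2 : ℝ}
    (h : s1 * al1A v z + s2 * al2A v z = 0) :
    a2M v (uA z) (s1 • b1A z + s2 • b2A z) = s1 * XD (v ∘ uA) (al1A v) z
      + s2 * XD (v ∘ uA) (al2A v) z + omA v z * (s1 * al2A v z - s2 * al1A v z) := by
  rw [a2M_add v hv (uA_ne hz), a2M_b1A hv hz hU, a2M_b2A hv hz hU]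
  linear_combination (fderiv ℝ v (uA z) (0, z.1 ⨯₃ z.2, 0) / (z.1 ⬝ᵥ z.1)) * h

/-- `Δ` and `a₂` of the flag with `α = 0` -/
theorem DelB_uA (hv : PhiM v) (hz : z ∈ base) (hU : z ∈ U6) {s1 s2 : ℝ}
    (h : s1 * al1A v z + s2 * al2A v z = 0) (hs : s1 ^ 2 + s2 ^ 2 = 1) :
    DelB 1 (v ∘ uA) (al1A v) (al2A v) (omA v) z =
      -(s1 * al2A v z - s2 * al1A v z) * a2M v (uA z) (s1 • b1A z + s2 • b2A z) ∧
    (s1 * al2A v z - s2 * al1A v z) ^ 2 = al1A v z ^ 2 + al2A v z ^ 2 := by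
  have h1 : al1A v z = -s2 * (s1 * al2A v z - s2 * al1A v z) := by
    linear_combination (-al1A v z) * hs + s1 * h
  have h2 : al2A v z = s1 * (s1 * al2A v z - s2 * al1A v z) := by
    linear_combination (-al2A v z) * hs + s2 * h
  obtain ⟨r, hr⟩ : ∃ r, r = s1 * al2A v z - s2 * al1A v z := ⟨_, rfl⟩
  rw [← hr] at h1 h2
  have h3 : r ^ 2 = al1A v z ^ 2 + al2A v z ^ 2 := by
    rw [h1, h2]
    linear_combination (-r ^ 2) * hs
  refine ⟨?_, by rw [← hr]; exact h3⟩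
  rw [a2M_uA hv hz hU h, ← hr]
  unfold DelB
  rw [← h3]
  linear_combination XD (v ∘ uA) (al2A v) z * h1 - XD (v ∘ uA) (al1A v) z * h2

/-- if `α ≠ 0` at the wall point, then `a₂` of the flag with `α = 0` vanishes iff `Δ = 0` -/
theorem a2M_uA_eq_zero_iff (hv : PhiM v) (hz : z ∈ base) (hU : z ∈ U6) {s1 s2 : ℝ}
    (h : s1 * al1A v z + s2 * al2A v z = 0) (hs : s1 ^ 2 + s2 ^ 2 = 1)
    (hne : al1A v z ≠ 0 ∨ al2A v z ≠ 0) :
    a2M v (uA z) (s1 • b1A z + s2 • b2A z) = 0 ↔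
      DelB 1 (v ∘ uA) (al1A v) (al2A v) (omA v) z = 0 := by
  obtain ⟨h1, h2⟩ := DelB_uA hv hz hU h hs
  have h3 : s1 * al2A v z - s2 * al1A v z ≠ 0 := by
    intro h4
    rw [h4] at h2
    rcases hne with h5 | h5
    · have := pow_pos (abs_pos.2 h5) 2
      rw [sq_abs] at this
      nlinarith [sq_nonneg (al2A v z)]
    · have := pow_pos (abs_pos.2 h5) 2
      rw [sq_abs] at this
      nlinarith [sq_nonneg (al1A v z)]
  rw [h1]
  constructor
  · intro h4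
    rw [h4, mul_zero]
  · intro h4
    rcases mul_eq_zero.1 h4 with h5 | h5
    · exact absurd (neg_eq_zero.1 h5) h3
    · exact h5

/-- **`a₂` at wall A**, in the form of the linking file -/
theorem a2_A' {v : R9 → ℝ} (hv : PhiM v) {z : R6} (hz : z ∈ base) (hz' : z ∈ U6) {r s : ℝ}
    (h : alM v (uA z) (r • b1A z + s • b2A z) = 0) :
    a2M v (uA z) (r • b1A z + s • b2A z) =
      r * (XD (fun w => v (uA w)) (fun w => alM v (uA w) (b1A w)) z
        + omA v z * alM v (uA z) (b2A z)) +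
      s * (XD (fun w => v (uA w)) (fun w => alM v (uA w) (b2A w)) z
        - omA v z * alM v (uA z) (b1A z)) := by
  rw [alM_comb] at h
  have h1 := a2M_uA hv hz hz' h
  rw [h1]
  change r * XD (fun w => v (uA w)) (al1A v) z + s * XD (fun w => v (uA w)) (al2A v) z
    + omA v z * (r * al2A v z - s * al1A v z) =
    r * (XD (fun w => v (uA w)) (al1A v) z + omA v z * al2A v z)
      + s * (XD (fun w => v (uA w)) (al2A v) z - omA v z * al1A v z)
  ring

/-! ### adding `det(a, x, y) g` -/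

/-- `det(a, x, y)` -/
def det9 (u : R9) : ℝ := u.1 ⬝ᵥ (u.2.1 ⨯₃ u.2.2)

theorem det9_uA (z : R6) : det9 (uA z) = 0 := by
  unfold det9 uA
  simp

theorem hasFDerivAt_line {f : R9 → ℝ} {u w : R9} {c : ℝ} (hf : DifferentiableAt ℝ f u)
    (h : HasDerivAt (fun t : ℝ => f (u + t • w)) c 0) : fderiv ℝ f u w = c := by
  have hc : HasDerivAt (fun t : ℝ => u + t • w) w 0 := by
    have := ((hasDerivAt_id (0 : ℝ)).smul_const w).const_add u
    simpa using this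
  have h3 : HasFDerivAt f (fderiv ℝ f u) (u + (0 : ℝ) • w) := by
    rw [zero_smul, add_zero]; exact hf.hasFDerivAt
  exact (HasFDerivAt.comp_hasDerivAt (f := fun t : ℝ => u + t • w) 0 h3 hc).unique h

theorem det9_diff : Differentiable ℝ det9 := by
  unfold det9
  simp only [cross_apply, dotProduct, Fin.sum_univ_three, Matrix.cons_val_zero,
    Matrix.cons_val_one, Matrix.cons_val]
  fun_prop

theorem fderiv_det9_uA (z : R6) (w : R9) :
    fderiv ℝ det9 (uA z) w = w.2.2 ⬝ᵥ (z.1 ⨯₃ z.2) := by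
  refine hasFDerivAt_line (det9_diff _) ?_
  have e0 : (fun t : ℝ => det9 (uA z + t • w)) = fun t : ℝ =>
      (w.2.2 ⬝ᵥ (z.1 ⨯₃ z.2)) * t + (w.1 ⬝ᵥ (z.2 ⨯₃ w.2.2) + z.1 ⬝ᵥ (w.2.1 ⨯₃ w.2.2)) * t ^ 2
        + (w.1 ⬝ᵥ (w.2.1 ⨯₃ w.2.2)) * t ^ 3 := by
    ext t
    unfold det9 uA
    simp only [cross_apply, dotProduct, Fin.sum_univ_three, Matrix.cons_val_zero,
      Matrix.cons_val_one, Matrix.cons_val, Prod.fst_add, Prod.snd_add, Prod.smul_fst,
      Prod.smul_snd, Pi.add_apply, Pi.smul_apply, smul_eq_mul, Pi.zero_apply]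
    ring
  rw [e0]
  have h := (((hasDerivAt_id' (0 : ℝ)).const_mul (w.2.2 ⬝ᵥ (z.1 ⨯₃ z.2))).fun_add
    (((hasDerivAt_id' (0 : ℝ)).fun_pow 2).const_mul
      (w.1 ⬝ᵥ (z.2 ⨯₃ w.2.2) + z.1 ⬝ᵥ (w.2.1 ⨯₃ w.2.2)))).fun_add
    (((hasDerivAt_id' (0 : ℝ)).fun_pow 3).const_mul (w.1 ⬝ᵥ (w.2.1 ⨯₃ w.2.2)))
  exact h.congr_deriv (by simp)

theorem fderiv_detg_uA {g : R9 → ℝ} (hg : DifferentiableAt ℝ g (uA z)) (w : R9) :
    fderiv ℝ (fun u => det9 u * g u) (uA z) w = g (uA z) * (w.2.2 ⬝ᵥ (z.1 ⨯₃ z.2)) := by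
  have h := (det9_diff (uA z)).hasFDerivAt.fun_mul hg.hasFDerivAt
  rw [h.fderiv, det9_uA]
  simp only [_root_.add_apply, _root_.smul_apply, smul_eq_mul, zero_mul, zero_add]
  rw [fderiv_det9_uA]

/-- `det(a, x, y) g` does not change `V` -/
theorem detg_comp_uA (g : R9 → ℝ) : (fun u => det9 u * g u) ∘ uA = 0 := by
  ext z
  simp [det9_uA]

theorem al1A_detg {g : R9 → ℝ} (hg : DifferentiableAt ℝ g (uA z)) :
    al1A (fun u => det9 u * g u) z = 0 := by
  unfold al1A alM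
  rw [fderiv_detg_uA hg, rot_b1A, dot_self_cross, mul_zero]

theorem al2A_detg {g : R9 → ℝ} (hg : DifferentiableAt ℝ g (uA z)) :
    al2A (fun u => det9 u * g u) z = 0 := by
  unfold al2A alM
  rw [fderiv_detg_uA hg, rot_b2A]
  simp

/-- `det(a, x, y) g` changes the rotation rate by `g |p|` -/
theorem omA_detg {g : R9 → ℝ} (hg : DifferentiableAt ℝ g (uA z)) (hz : z ∈ base) (hU : z ∈ U6) :
    omA (fun u => det9 u * g u) z = n3 z.1 * g (uA z) := by
  unfold omA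
  rw [fderiv_detg_uA hg]
  have h1 : (z.1 ⨯₃ z.2) ⬝ᵥ (z.1 ⨯₃ z.2) = n3 z.1 ^ 2 * (z.2 ⬝ᵥ z.2) := by
    rw [cross_dot_cross, hz.1, n3_sq, dotProduct_comm z.2 z.1, hz.1]
    ring
  have h2 := n3_pos hU.1
  have h3 := (dotq_pos hU).ne'
  simp only
  rw [h1]
  field_simp

end wallA

/-! ### the explicit function at wall A -/

theorem cross_coord_diff (f g : R9 → R3) (hf : Differentiable ℝ f) (hg : Differentiable ℝ g)
    (i : Fin 3) : Differentiable ℝ (fun u => (f u ⨯₃ g u) i) := by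
  have hfi : ∀ j, Differentiable ℝ (fun u => f u j) := fun j => differentiable_pi.1 hf j
  have hgi : ∀ j, Differentiable ℝ (fun u => g u j) := fun j => differentiable_pi.1 hg j
  fin_cases i <;> simp only [cross_apply, Fin.zero_eta, Fin.mk_one, Fin.reduceFinMk,
    Matrix.cons_val_zero, Matrix.cons_val_one, Matrix.cons_val]
  · exact ((hfi 1).mul (hgi 2)).sub ((hfi 2).mul (hgi 1))
  · exact ((hfi 2).mul (hgi 0)).sub ((hfi 0).mul (hgi 2))
  · exact ((hfi 0).mul (hgi 1)).sub ((hfi 1).mul (hgi 0))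

theorem BBm_diff (i j : Fin 3) : Differentiable ℝ (fun u : R9 => BBm u i j) := by
  have h1 := cross_coord_diff (fun u => u.1) (fun u => u.2.1) (by fun_prop) (by fun_prop)
  have h2 := cross_coord_diff (fun u => u.1) (fun u => u.2.2) (by fun_prop) (by fun_prop)
  have h3 := cross_coord_diff (fun u => u.2.1) (fun u => u.2.2) (by fun_prop) (by fun_prop)
  unfold BBm
  exact (((h1 i).mul (h1 j)).add ((h2 i).mul (h2 j))).sub ((h3 i).mul (h3 j))

theorem dot9_diff : Differentiable ℝ (fun u : R9 => dot9 u u) := by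
  unfold dot9 dotProduct
  fun_prop

theorem vq_diff (P : Par) : Differentiable ℝ (vq P) := by
  have h3 := cross_coord_diff (fun u => u.2.1) (fun u => u.2.2) (by fun_prop) (by fun_prop)
  unfold vq dotProduct mulVec dotProduct
  have h4 : Differentiable ℝ (fun u : R9 => ∑ i, P.ν i * (u.2.1 ⨯₃ u.2.2) i) :=
    Differentiable.fun_sum fun i _ => (h3 i).const_mul _
  refine Differentiable.add ?_ h4
  fun_prop

theorem v0_diffAt (P : Par) {u : R9} (hu : dot9 u u ≠ 0) : DifferentiableAt ℝ (v0 P) u := by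
  unfold v0
  refine (vq_diff P u).add ?_
  unfold vN
  simp only [div_eq_mul_inv]
  refine DifferentiableAt.fun_mul ?_ ((dot9_diff u).fun_inv hu)
  refine DifferentiableAt.fun_sum fun i _ => DifferentiableAt.fun_sum fun j _ => ?_
  exact (BBm_diff i j u).const_mul _

theorem dot9_uA {z : R6} (hz : z ∈ base) : dot9 (uA z) (uA z) = 1 := by
  have h := hz.2
  simp only [dot9, uA, dotProduct_zero, add_zero]
  exact h

theorem hasDerivAt_ratl (K c e N0 N2 E : ℝ) :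
    HasDerivAt (fun t : ℝ => K + c * t + e * t ^ 2 + (N0 + N2 * t ^ 2) / (1 + E * t ^ 2)) c 0 := by
  have h1 : HasDerivAt (fun t : ℝ => K + c * t + e * t ^ 2) c 0 := by
    have := (((hasDerivAt_id' (0 : ℝ)).const_mul c).const_add K).fun_add
      (((hasDerivAt_id' (0 : ℝ)).fun_pow 2).const_mul e)
    exact this.congr_deriv (by simp)
  have h2 : HasDerivAt (fun t : ℝ => N0 + N2 * t ^ 2) 0 0 := by
    have := (((hasDerivAt_id' (0 : ℝ)).fun_pow 2).const_mul N2).const_add N0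
    exact this.congr_deriv (by simp)
  have h3 : HasDerivAt (fun t : ℝ => 1 + E * t ^ 2) 0 0 := by
    have := (((hasDerivAt_id' (0 : ℝ)).fun_pow 2).const_mul E).const_add 1
    exact this.congr_deriv (by simp)
  have h4 := h1.fun_add (h2.fun_div h3 (by norm_num))
  exact h4.congr_deriv (by simp)

theorem fderiv_v0_y (P : Par) {z : R6} (hz : z ∈ base) (w : R3) :
    fderiv ℝ (v0 P) (uA z) (0, 0, w) = P.ν ⬝ᵥ (z.2 ⨯₃ w) := by
  refine hasFDerivAt_line (v0_diffAt P (by rw [dot9_uA hz]; exact one_ne_zero)) ?_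
  have e0 : (fun t : ℝ => v0 P (uA z + t • ((0, 0, w) : R9))) = fun t : ℝ =>
      (1 / 2 * (z.1 ⬝ᵥ P.R *ᵥ z.1) + 1 / 2 * (z.2 ⬝ᵥ P.S *ᵥ z.2)) + (P.ν ⬝ᵥ (z.2 ⨯₃ w)) * t
        + (1 / 2 * (w ⬝ᵥ P.S *ᵥ w)) * t ^ 2
        + ((∑ i, ∑ j, P.N i j * ((z.1 ⨯₃ z.2) i * (z.1 ⨯₃ z.2) j))
          + (∑ i, ∑ j, P.N i j * ((z.1 ⨯₃ w) i * (z.1 ⨯₃ w) j - (z.2 ⨯₃ w) i * (z.2 ⨯₃ w) j))
            * t ^ 2) / (1 + (w ⬝ᵥ w) * t ^ 2) := by
    ext t
    have e1 : uA z + t • ((0, 0, w) : R9) = (z.1, z.2, t • w) := by simp [uA]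
    rw [e1]
    unfold v0 vq vN
    have e2 : dot9 (z.1, z.2, t • w) (z.1, z.2, t • w) = 1 + (w ⬝ᵥ w) * t ^ 2 := by
      have h := hz.2
      simp only [dot9, smul_dotProduct, dotProduct_smul, smul_eq_mul]
      linear_combination h
    rw [e2]
    have e3 : ∀ i j, BBm (z.1, z.2, t • w) i j = (z.1 ⨯₃ z.2) i * (z.1 ⨯₃ z.2) j
        + ((z.1 ⨯₃ w) i * (z.1 ⨯₃ w) j - (z.2 ⨯₃ w) i * (z.2 ⨯₃ w) j) * t ^ 2 := by
      intro i j
      unfold BBm
      simp only [LinearMap.map_smul, Pi.smul_apply, smul_eq_mul]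
      ring
    simp only [e3, mul_add, Finset.sum_add_distrib]
    congr 1
    · simp only [LinearMap.map_smul, dotProduct_smul, smul_dotProduct, mulVec_smul, smul_eq_mul]
      ring
    · congr 2
      simp only [← mul_assoc, ← Finset.sum_mul]
  rw [e0]
  exact hasDerivAt_ratl _ _ _ _ _ _

theorem fderiv_v0_x (P : Par) {z : R6} (hz : z ∈ base) (r : ℝ) :
    fderiv ℝ (v0 P) (uA z) (0, r • z.1, 0) =
      r * (1 / 2 * (z.1 ⬝ᵥ P.S *ᵥ z.2 + z.2 ⬝ᵥ P.S *ᵥ z.1)) := by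
  refine hasFDerivAt_line (v0_diffAt P (by rw [dot9_uA hz]; exact one_ne_zero)) ?_
  have e0 : (fun t : ℝ => v0 P (uA z + t • ((0, r • z.1, 0) : R9))) = fun t : ℝ =>
      (1 / 2 * (z.1 ⬝ᵥ P.R *ᵥ z.1) + 1 / 2 * (z.2 ⬝ᵥ P.S *ᵥ z.2))
        + (r * (1 / 2 * (z.1 ⬝ᵥ P.S *ᵥ z.2 + z.2 ⬝ᵥ P.S *ᵥ z.1))) * t
        + (1 / 2 * r ^ 2 * (z.1 ⬝ᵥ P.S *ᵥ z.1)) * t ^ 2
        + ((∑ i, ∑ j, P.N i j * ((z.1 ⨯₃ z.2) i * (z.1 ⨯₃ z.2) j)) + 0 * t ^ 2)
          / (1 + (r ^ 2 * (z.1 ⬝ᵥ z.1)) * t ^ 2) := by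
    ext t
    have e1 : uA z + t • ((0, r • z.1, 0) : R9) = (z.1, z.2 + (t * r) • z.1, 0) := by
      simp [uA, smul_smul]
    rw [e1]
    unfold v0 vq vN
    have e2 : dot9 (z.1, z.2 + (t * r) • z.1, 0) (z.1, z.2 + (t * r) • z.1, 0) =
        1 + (r ^ 2 * (z.1 ⬝ᵥ z.1)) * t ^ 2 := by
      have h := hz.2
      have h' := hz.1
      simp only [dot9, add_dotProduct, dotProduct_add, smul_dotProduct, dotProduct_smul,
        smul_eq_mul, dotProduct_zero, dotProduct_comm z.2 z.1]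
      linear_combination h + 2 * t * r * h'
    rw [e2]
    have e3 : ∀ i j, BBm (z.1, z.2 + (t * r) • z.1, 0) i j =
        (z.1 ⨯₃ z.2) i * (z.1 ⨯₃ z.2) j := by
      intro i j
      unfold BBm
      simp only [map_add, LinearMap.map_smul, cross_self, smul_zero, add_zero, map_zero,
        Pi.zero_apply, mul_zero, sub_zero]
    simp only [e3]
    congr 1
    · simp only [dotProduct_smul, smul_dotProduct, mulVec_smul, mulVec_add, smul_eq_mul,
        add_dotProduct, dotProduct_add, map_zero, dotProduct_zero, mulVec_zero]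
      ring
    · rw [zero_mul, add_zero]
  rw [e0]
  exact hasDerivAt_ratl _ _ _ _ _ _

theorem al1A_v0 (P : Par) {z : R6} (hz : z ∈ base) :
    al1A (v0 P) z = -(P.ν ⬝ᵥ (z.1 ⨯₃ z.2)) := by
  unfold al1A alM
  rw [rot_b1A, fderiv_v0_y P hz, ← cross_anticomm, dotProduct_neg]

theorem al2A_v0 (P : Par) {z : R6} (hz : z ∈ base) :
    al2A (v0 P) z = -((n3 z.1)⁻¹ * (1 / 2 * (z.1 ⬝ᵥ P.S *ᵥ z.2 + z.2 ⬝ᵥ P.S *ᵥ z.1))) := by
  unfold al2A alM
  rw [rot_b2A, ← neg_smul, fderiv_v0_x P hz]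
  ring

theorem omA_v0 (P : Par) {z : R6} (hz : z ∈ base) (hU : z ∈ U6) :
    omA (v0 P) z = (P.ν ⬝ᵥ z.1) / n3 z.1 := by
  unfold omA
  rw [fderiv_v0_y P hz]
  have h1 : z.2 ⨯₃ (z.1 ⨯₃ z.2) = (z.2 ⬝ᵥ z.2) • z.1 := by
    rw [cross_cross_eq_smul_sub_smul', hz.1, zero_smul, sub_zero]
  rw [h1, dotProduct_smul, smul_eq_mul]
  have h2 := n3_pos hU.1
  have h3 := (dotq_pos hU).ne'
  field_simp

end Pool.Agent.FL.S2.G8A
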