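import Pool.Agent.helper90.FL.GftA

/-!
# MP_f09395_gt: generic finite type, general version

`Ord U x₀ r f`: `f` vanishes to order `r` at `x₀`.  The tower of `v + τ φ` with `φ` of order `N`
is affine in `τ` at `x₀` up to index `N - 1`, hence generic functions have towers which do not
vanish at any point where suitable combinations of the perturbing functions exist.
-/

set_option linter.unusedSectionVars false

noncomputable section

namespace Pool.Agent.FL

open Filter Topology Module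
open scoped ContDiff
open Pool.Agent.helper90.FL

variable {M : Type*} [NormedAddCommGroup M] [NormedSpace ℝ M]

/-- vanishing order at a point -/
def Ord (U : Set M) (x₀ : M) : ℕ → (M → ℝ) → Prop
  | 0, _ => True
  | r + 1, f => f x₀ = 0 ∧ ∀ Y : M → M, ContDiffOn ℝ ∞ Y U →
      Ord U x₀ r (fun x => fderiv ℝ f x (Y x))

variable {U : Set M} {x₀ : M} {f g : M → ℝ}

theorem ord_congr (hU : IsOpen U) (hx : x₀ ∈ U) (r : ℕ) :
    ∀ {f g : M → ℝ}, (∀ x ∈ U, f x = g x) → Ord U x₀ r f → Ord U x₀ r g := by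
  induction r with
  | zero => intro f g _ _; trivial
  | succ r ih =>
    intro f g h hf
    refine ⟨by rw [← h x₀ hx]; exact hf.1, fun Y hY => ih ?_ (hf.2 Y hY)⟩
    intro x hxU
    have h1 : f =ᶠ[𝓝 x] g := by
      filter_upwards [hU.mem_nhds hxU] with y hy
      exact h y hy
    rw [h1.fderiv_eq]

theorem ord_succ (r : ℕ) : ∀ {f : M → ℝ}, Ord U x₀ (r + 1) f → Ord U x₀ r f := by
  induction r with
  | zero => intro f _; trivial
  | succ r ih => intro f hf; exact ⟨hf.1, fun Y hY => ih (hf.2 Y hY)⟩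

theorem ord_le {r s : ℕ} (h : s ≤ r) (hf : Ord U x₀ r f) : Ord U x₀ s f := by
  induction h with
  | refl => exact hf
  | step _ ih => exact ih (ord_succ _ hf)

theorem ord_add (hU : IsOpen U) (hx : x₀ ∈ U) (r : ℕ) : ∀ {f g : M → ℝ},
    ContDiffOn ℝ ∞ f U → ContDiffOn ℝ ∞ g U → Ord U x₀ r f → Ord U x₀ r g →
    Ord U x₀ r (fun x => f x + g x) := by
  induction r with
  | zero => intro f g _ _ _ _; trivial
  | succ r ih =>
    intro f g hf hg of og
    refine ⟨by show f x₀ + g x₀ = 0; rw [of.1, og.1, add_zero], fun Y hY => ?_⟩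
    refine ord_congr hU hx r (f := fun x => fderiv ℝ f x (Y x) + fderiv ℝ g x (Y x)) ?_
      (ih (fder_app_smooth hU hf hY) (fder_app_smooth hU hg hY) (of.2 Y hY) (og.2 Y hY))
    intro x hxU
    rw [fderiv_fun_add (dif_at hU hf hxU) (dif_at hU hg hxU)]
    rfl

theorem ord_mul (hU : IsOpen U) (hx : x₀ ∈ U) (n : ℕ) : ∀ (r s : ℕ) {f g : M → ℝ}, r + s = n →
    ContDiffOn ℝ ∞ f U → ContDiffOn ℝ ∞ g U → Ord U x₀ r f → Ord U x₀ s g →
    Ord U x₀ n (fun x => f x * g x) := by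
  induction n with
  | zero => intro r s f g _ _ _ _ _; trivial
  | succ n ih =>
    intro r s f g hrs hf hg of og
    constructor
    · rcases Nat.eq_zero_or_pos r with h0 | h0
      · obtain ⟨s', rfl⟩ : ∃ s', s = s' + 1 := ⟨s - 1, by omega⟩
        show f x₀ * g x₀ = 0
        rw [og.1, mul_zero]
      · obtain ⟨r', rfl⟩ : ∃ r', r = r' + 1 := ⟨r - 1, by omega⟩
        show f x₀ * g x₀ = 0
        rw [of.1, zero_mul]
    · intro Y hY
      have sf := fder_app_smooth hU hf hY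
      have sg := fder_app_smooth hU hg hY
      have h1 : Ord U x₀ n (fun x => f x * fderiv ℝ g x (Y x)) := by
        rcases Nat.eq_zero_or_pos s with h0 | h0
        · exact ih n 0 (by omega) hf sg (ord_le (by omega) of) trivial
        · obtain ⟨s', rfl⟩ : ∃ s', s = s' + 1 := ⟨s - 1, by omega⟩
          exact ih r s' (by omega) hf sg of (og.2 Y hY)
      have h2 : Ord U x₀ n (fun x => fderiv ℝ f x (Y x) * g x) := by
        rcases Nat.eq_zero_or_pos r with h0 | h0
        · exact ih 0 n (by omega) sf hg trivial (ord_le (by omega) og)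
        · obtain ⟨r', rfl⟩ : ∃ r', r = r' + 1 := ⟨r - 1, by omega⟩
          exact ih r' s (by omega) sf hg (of.2 Y hY) og
      refine ord_congr hU hx n ?_ (ord_add hU hx n (hf.mul sg) (sf.mul hg) h1 h2)
      intro x hxU
      have h3 : HasFDerivAt (fun x => f x * g x) (f x • fderiv ℝ g x + g x • fderiv ℝ f x) x :=
        (dif_at hU hf hxU).hasFDerivAt.mul (dif_at hU hg hxU).hasFDerivAt
      rw [h3.fderiv]
      simp only [add_apply, smul_apply, smul_eq_mul]
      ring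

theorem ord_zero_fun (hU : IsOpen U) (hx : x₀ ∈ U) (r : ℕ) :
    Ord U x₀ r (fun _ : M => (0 : ℝ)) := by
  induction r with
  | zero => trivial
  | succ r ih =>
    refine ⟨rfl, fun Y _ => ord_congr hU hx r ?_ ih⟩
    intro x _
    simp

theorem ord_smul (hU : IsOpen U) (hx : x₀ ∈ U) (r : ℕ) (c : ℝ) (hf : ContDiffOn ℝ ∞ f U)
    (of : Ord U x₀ r f) : Ord U x₀ r (fun x => c * f x) :=
  ord_mul hU hx r 0 r (by omega) contDiffOn_const hf trivial of

theorem ord_one (hf : f x₀ = 0) : Ord U x₀ 1 f := ⟨hf, fun _ _ => trivial⟩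

theorem ord_pow (hU : IsOpen U) (hx : x₀ ∈ U) (hf : ContDiffOn ℝ ∞ f U) (h0 : f x₀ = 0) (n : ℕ) :
    Ord U x₀ n (fun x => f x ^ n) := by
  induction n with
  | zero => trivial
  | succ n ih =>
    refine ord_congr hU hx (n + 1) (f := fun x => f x ^ n * f x) (fun x _ => (pow_succ _ _).symm) ?_
    exact ord_mul hU hx (n + 1) n 1 rfl (hf.pow n) hf ih (ord_one h0)

theorem ord_sum (hU : IsOpen U) (hx : x₀ ∈ U) (r : ℕ) {κ : Type*} (t : Finset κ) {F : κ → M → ℝ}
    (hF : ∀ i ∈ t, ContDiffOn ℝ ∞ (F i) U) (oF : ∀ i ∈ t, Ord U x₀ r (F i)) :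
    Ord U x₀ r (fun x => ∑ i ∈ t, F i x) := by
  classical
  induction t using Finset.induction_on with
  | empty => simpa using ord_zero_fun hU hx r
  | insert a t ha ih =>
    simp only [Finset.sum_insert ha]
    exact ord_add hU hx r (hF a (Finset.mem_insert_self a t))
      (ContDiffOn.sum fun i hi => hF i (Finset.mem_insert_of_mem hi))
      (oF a (Finset.mem_insert_self a t)) (ih (fun i hi => hF i (Finset.mem_insert_of_mem hi))
        fun i hi => oF i (Finset.mem_insert_of_mem hi))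

theorem ord_itd {X : M → M} (hX : ContDiffOn ℝ ∞ X U) (j : ℕ) : ∀ (r : ℕ) {f : M → ℝ},
    Ord U x₀ (r + j) f → Ord U x₀ r (itd X f j) := by
  induction j with
  | zero => intro r f hf; exact hf
  | succ j ih =>
    intro r f hf
    have h1 : Ord U x₀ (r + 1) (itd X f j) := ih (r + 1) (by
      have : r + 1 + j = r + (j + 1) := by omega
      rw [this]; exact hf)
    exact h1.2 X hX

theorem ord_itd_val {X : M → M} (hX : ContDiffOn ℝ ∞ X U) {j r : ℕ} (hj : j < r)
    (hf : Ord U x₀ r f) : itd X f j x₀ = 0 := by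
  have h1 : Ord U x₀ ((r - j - 1) + 1) (itd X f j) := by
    refine ord_itd hX j _ ?_
    have : r - j - 1 + 1 + j = r := by omega
    rw [this]; exact hf
  exact h1.1

section Fin

variable [FiniteDimensional ℝ M] {A V : M → M} {Λ : M → ((M →L[ℝ] ℝ) →L[ℝ] M)} {v φ : M → ℝ}

/-- coordinate functionals -/
def coordL (M : Type*) [NormedAddCommGroup M] [NormedSpace ℝ M] [FiniteDimensional ℝ M]
    (i : Fin (finrank ℝ M)) : M →L[ℝ] ℝ :=
  LinearMap.toContinuousLinearMap ((finBasis ℝ M).coord i)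

theorem coordL_sum (ℓ : M →L[ℝ] ℝ) : ℓ = ∑ i, ℓ (finBasis ℝ M i) • coordL M i := by
  ext x
  conv_lhs => rw [← (finBasis ℝ M).sum_repr x, map_sum]
  simp only [map_smul, smul_eq_mul, ContinuousLinearMap.coe_sum', Finset.sum_apply,
    smul_apply, coordL, LinearMap.coe_toContinuousLinearMap', Basis.coord_apply]
  exact Finset.sum_congr rfl fun i _ => mul_comm _ _

theorem ord_lam (hU : IsOpen U) (hx : x₀ ∈ U) (hΛ : ContDiffOn ℝ ∞ Λ U)
    {T : M → ℝ} (hT : ContDiffOn ℝ ∞ T U) (hφ : ContDiffOn ℝ ∞ φ U) {r : ℕ}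
    (oφ : Ord U x₀ (r + 1) φ) : Ord U x₀ r (fun x => fderiv ℝ T x (Λ x (fderiv ℝ φ x))) := by
  have h1 : ∀ x ∈ U, ∑ i, fderiv ℝ φ x (finBasis ℝ M i) *
      fderiv ℝ T x (Λ x (coordL M i)) = fderiv ℝ T x (Λ x (fderiv ℝ φ x)) := by
    intro x _
    conv_rhs => rw [coordL_sum (fderiv ℝ φ x)]
    rw [map_sum, map_sum]
    exact Finset.sum_congr rfl fun i _ => by rw [map_smul, map_smul, smul_eq_mul]
  have s1 : ∀ i, ContDiffOn ℝ ∞ (fun x => fderiv ℝ φ x (finBasis ℝ M i)) U := fun i =>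
    fder_app_smooth hU hφ contDiffOn_const
  have s2 : ∀ i, ContDiffOn ℝ ∞ (fun x => fderiv ℝ T x (Λ x (coordL M i))) U := fun i =>
    fder_app_smooth hU hT (hΛ.clm_apply contDiffOn_const)
  refine ord_congr hU hx r h1 (ord_sum hU hx r _ (fun i _ => (s1 i).mul (s2 i)) fun i _ => ?_)
  exact ord_mul hU hx r r 0 (by omega) (s1 i) (s2 i) (oφ.2 _ contDiffOn_const) trivial

/-- **expansion of the tower** -/
theorem tow_add_ord (hU : IsOpen U) (hA : ContDiffOn ℝ ∞ A U) (hV : ContDiffOn ℝ ∞ V U)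
    (hΛ : ContDiffOn ℝ ∞ Λ U) (hv : ContDiffOn ℝ ∞ v U) (hφ : ContDiffOn ℝ ∞ φ U) (hx : x₀ ∈ U)
    (τ C : ℝ) {N : ℕ} (oφ : Ord U x₀ (N + 1) φ) {v' : M → ℝ} (hv' : ∀ x, v' x = v x + τ * φ x + C)
    (j : ℕ) : ∃ e : M → ℝ, ContDiffOn ℝ ∞ e U ∧ Ord U x₀ (N + 1 - j) e ∧
      ∀ x ∈ U, tow A V Λ v' j x = tow A V Λ v j x +
        τ * itd (fld V Λ v) (fun x => fderiv ℝ φ x (A x)) j x + e x := by
  have hv's : ContDiffOn ℝ ∞ v' U := by
    have : v' = fun x => v x + τ * φ x + C := funext hv'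
    rw [this]
    exact (hv.add (contDiffOn_const.mul hφ)).add contDiffOn_const
  have hD : ∀ x ∈ U, fderiv ℝ v' x = fderiv ℝ v x + τ • fderiv ℝ φ x := by
    intro x hxU
    have h3 : HasFDerivAt (fun x => v x + τ * φ x + C) (fderiv ℝ v x + τ • fderiv ℝ φ x) x :=
      ((dif_at hU hv hxU).hasFDerivAt.add ((dif_at hU hφ hxU).hasFDerivAt.const_mul τ)).add_const C
    have h4 : v' = fun x => v x + τ * φ x + C := funext hv'
    rw [h4, h3.fderiv]
  have hfld : ∀ x ∈ U, fld V Λ v' x = fld V Λ v x + τ • Λ x (fderiv ℝ φ x) := by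
    intro x hxU
    unfold fld
    rw [hD x hxU, map_add, map_smul, add_assoc]
  have hX := fld_smooth hU hV hΛ hv
  induction j with
  | zero =>
    refine ⟨fun _ => 0, contDiffOn_const, ord_zero_fun hU hx _, fun x hxU => ?_⟩
    simp only [tow, itd]
    rw [hD x hxU]
    simp
  | succ j ih =>
    obtain ⟨e, he, oe, h1⟩ := ih
    have sT' := tow_smooth hU hA hV hΛ hv's j
    have sT := tow_smooth hU hA hV hΛ hv j
    have sI := itd_smooth hU hX (fder_app_smooth hU hφ hA) j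
    refine ⟨fun x => fderiv ℝ e x (fld V Λ v x) +
      τ * fderiv ℝ (tow A V Λ v' j) x (Λ x (fderiv ℝ φ x)), ?_, ?_, ?_⟩
    · exact (fder_app_smooth hU he hX).add (contDiffOn_const.mul
        (fder_app_smooth hU sT' (hΛ.clm_apply (fder_smooth hU hφ))))
    · refine ord_add hU hx _ (fder_app_smooth hU he hX) (contDiffOn_const.mul
        (fder_app_smooth hU sT' (hΛ.clm_apply (fder_smooth hU hφ)))) ?_ ?_
      · rcases Nat.lt_or_ge j (N + 1) with h2 | h2
        · have h3 : N + 1 - j = (N + 1 - (j + 1)) + 1 := by omega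
          rw [h3] at oe
          exact oe.2 _ hX
        · have h3 : N + 1 - (j + 1) = 0 := by omega
          rw [h3]; trivial
      · refine ord_smul hU hx _ τ (fder_app_smooth hU sT' (hΛ.clm_apply (fder_smooth hU hφ))) ?_
        exact ord_le (by omega) (ord_lam hU hx hΛ sT' hφ oφ)
    · intro x hxU
      have h2 : tow A V Λ v' j =ᶠ[𝓝 x] fun x => tow A V Λ v j x +
          τ * itd (fld V Λ v) (fun x => fderiv ℝ φ x (A x)) j x + e x := by
        filter_upwards [hU.mem_nhds hxU] with y hy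
        exact h1 y hy
      have h3 : fderiv ℝ (tow A V Λ v' j) x = fderiv ℝ (tow A V Λ v j) x +
          τ • fderiv ℝ (itd (fld V Λ v) (fun x => fderiv ℝ φ x (A x)) j) x + fderiv ℝ e x := by
        rw [h2.fderiv_eq]
        exact (((dif_at hU sT hxU).hasFDerivAt.add
          ((dif_at hU sI hxU).hasFDerivAt.const_mul τ)).add (dif_at hU he hxU).hasFDerivAt).fderiv
      show fderiv ℝ (tow A V Λ v' j) x (fld V Λ v' x) = fderiv ℝ (tow A V Λ v j) x (fld V Λ v x) +
        τ * fderiv ℝ (itd (fld V Λ v) (fun x => fderiv ℝ φ x (A x)) j) x (fld V Λ v x) + _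
      have h4 : fderiv ℝ (tow A V Λ v' j) x (fld V Λ v' x) =
          fderiv ℝ (tow A V Λ v' j) x (fld V Λ v x) +
          τ * fderiv ℝ (tow A V Λ v' j) x (Λ x (fderiv ℝ φ x)) := by
        rw [hfld x hxU, map_add, map_smul, smul_eq_mul]
      have h5 : fderiv ℝ (tow A V Λ v' j) x (fld V Λ v x) =
          fderiv ℝ (tow A V Λ v j) x (fld V Λ v x) +
          τ * fderiv ℝ (itd (fld V Λ v) (fun x => fderiv ℝ φ x (A x)) j) x (fld V Λ v x) +
          fderiv ℝ e x (fld V Λ v x) := by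
        rw [h3]
        simp only [add_apply, smul_apply, smul_eq_mul]
      rw [h4, h5]
      ring

theorem tow_add_val (hU : IsOpen U) (hA : ContDiffOn ℝ ∞ A U) (hV : ContDiffOn ℝ ∞ V U)
    (hΛ : ContDiffOn ℝ ∞ Λ U) (hv : ContDiffOn ℝ ∞ v U) (hφ : ContDiffOn ℝ ∞ φ U) (hx : x₀ ∈ U)
    (τ C : ℝ) {N : ℕ} (oφ : Ord U x₀ (N + 1) φ) {v' : M → ℝ} (hv' : ∀ x, v' x = v x + τ * φ x + C)
    {j : ℕ} (hj : j ≤ N) : tow A V Λ v' j x₀ = tow A V Λ v j x₀ +
        τ * itd (fld V Λ v) (fun x => fderiv ℝ φ x (A x)) j x₀ := by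
  obtain ⟨e, -, oe, h1⟩ := tow_add_ord hU hA hV hΛ hv hφ hx τ C oφ hv' j
  have h3 : N + 1 - j = (N - j) + 1 := by omega
  rw [h3] at oe
  rw [h1 x₀ hx, oe.1, add_zero]

end Fin

end Pool.Agent.FL
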