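import Pool.Agent.FL.GenT

/-!
# MP_f09395_gt: generic finite type on an open set, families known only there; the factor `|u|²`
-/

set_option linter.unusedSectionVars false

noncomputable section

namespace Pool.Agent.FL

open Filter Topology Module
open scoped ContDiff
open Pool.Agent.helper90.FL

variable {M : Type*} [NormedAddCommGroup M] [NormedSpace ℝ M]
variable {U : Set M} {A V : M → M} {Λ : M → ((M →L[ℝ] ℝ) →L[ℝ] M)} {v v' : M → ℝ}
variable {κ : Type*} [Fintype κ] {J : ℕ}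

/-- the tower only depends on the function near the point -/
theorem tow_congr (hU : IsOpen U) (h : ∀ x ∈ U, v x = v' x) (j : ℕ) :
    ∀ x ∈ U, tow A V Λ v j x = tow A V Λ v' j x := by
  have hd : ∀ x ∈ U, fderiv ℝ v x = fderiv ℝ v' x := by
    intro x hx
    have h1 : v =ᶠ[𝓝 x] v' := by
      filter_upwards [hU.mem_nhds hx] with y hy
      exact h y hy
    exact h1.fderiv_eq
  induction j with
  | zero =>
    intro x hx
    show fderiv ℝ v x (A x) = fderiv ℝ v' x (A x)
    rw [hd x hx]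
  | succ j ih =>
    intro x hx
    have h1 : tow A V Λ v j =ᶠ[𝓝 x] tow A V Λ v' j := by
      filter_upwards [hU.mem_nhds hx] with y hy
      exact ih y hy
    show fderiv ℝ (tow A V Λ v j) x (fld V Λ v x) = fderiv ℝ (tow A V Λ v' j) x (fld V Λ v' x)
    unfold fld
    rw [h1.fderiv_eq, hd x hx]

/-- the leading coefficient with an additional factor -/
theorem lead_factor (hU : IsOpen U) {X : M → M} (hX : ContDiffOn ℝ ∞ X U)
    (hA : ContDiffOn ℝ ∞ A U) {G φ : M → ℝ} (hG : ContDiffOn ℝ ∞ G U) (hφ : ContDiffOn ℝ ∞ φ U)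
    {x₀ : M} (hx : x₀ ∈ U) {n : ℕ} (oφ : Ord U x₀ (n + 1) φ) :
    itd X (fun x => fderiv ℝ (fun y => G y * φ y) x (A x)) n x₀ =
      G x₀ * itd X (fun x => fderiv ℝ φ x (A x)) n x₀ := by
  have s1 : ContDiffOn ℝ ∞ (fun y => (G y - G x₀) * φ y) U := (hG.sub contDiffOn_const).mul hφ
  have h1 : ∀ x ∈ U, fderiv ℝ (fun y => G y * φ y) x (A x) =
      G x₀ * fderiv ℝ φ x (A x) + fderiv ℝ (fun y => (G y - G x₀) * φ y) x (A x) := by
    intro x hxU
    have e1 : (fun y => G y * φ y) = fun y => G x₀ * φ y + (G y - G x₀) * φ y := by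
      funext y; ring
    have e2 : HasFDerivAt (fun y => G x₀ * φ y + (G y - G x₀) * φ y)
        (G x₀ • fderiv ℝ φ x + fderiv ℝ (fun y => (G y - G x₀) * φ y) x) x :=
      ((dif_at hU hφ hxU).hasFDerivAt.const_mul _).add (dif_at hU s1 hxU).hasFDerivAt
    rw [e1, e2.fderiv]
    simp
  have s2 : ContDiffOn ℝ ∞ (fun x => G x₀ * fderiv ℝ φ x (A x)) U :=
    contDiffOn_const.mul (fder_app_smooth hU hφ hA)
  rw [itd_congr hU h1 n x₀ hx, itd_add hU hX s2 (fder_app_smooth hU s1 hA) n x₀ hx,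
    itd_smul hU hX (fder_app_smooth hU hφ hA) _ n x₀ hx]
  have o1 : Ord U x₀ (n + 1 + 1) (fun y => (G y - G x₀) * φ y) :=
    ord_mul hU hx _ 1 (n + 1) (by omega) (hG.sub contDiffOn_const) hφ (ord_one (sub_self _)) oφ
  have h2 : itd X (fun x => fderiv ℝ (fun y => (G y - G x₀) * φ y) x (A x)) n x₀ = 0 :=
    ord_itd_val hX (r := n + 1) (by omega) (o1.2 A hA)
  rw [h2, add_zero]

theorem ord_factor (hU : IsOpen U) {G φ : M → ℝ} (hG : ContDiffOn ℝ ∞ G U)
    (hφ : ContDiffOn ℝ ∞ φ U) {x₀ : M} (hx : x₀ ∈ U) {n : ℕ} (oφ : Ord U x₀ n φ) :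
    Ord U x₀ n (fun y => G y * φ y) :=
  ord_mul hU hx _ 0 n (by omega) hG hφ trivial oφ

variable [FiniteDimensional ℝ M]

/-- **generic finite type, general theorem**, the identities between the family and `φ` are only
needed on `U` -/
theorem gft_genU (hU : IsOpen U) (hA : ContDiffOn ℝ ∞ A U) (hV : ContDiffOn ℝ ∞ V U)
    (hΛ : ContDiffOn ℝ ∞ Λ U) (hv : ContDiffOn ℝ ∞ v U) {f : κ → M → ℝ}
    (hf : ∀ i, ContDiffOn ℝ ∞ (f i) U) (hJ : finrank ℝ M < J) {ν : Fin J → ℕ}
    (hν : StrictMono ν) {S : Set (M × (κ → ℝ))} (hS : ∀ z ∈ S, z.1 ∈ U)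
    (h : ∀ z ∈ S, ∀ K : Fin J, ∃ (q : κ → ℝ) (C : ℝ) (φ : M → ℝ), ContDiffOn ℝ ∞ φ U ∧
      (∀ x ∈ U, ∑ i, q i * f i x = φ x + C) ∧ Ord U z.1 (ν K + 1) φ ∧
      itd (fld V Λ (fun x => linG v f (x, z.2))) (fun x => fderiv ℝ φ x (A x)) (ν K) z.1 ≠ 0) :
    Negl {p : κ → ℝ | ∃ x, (x, p) ∈ S ∧
      ∀ j : Fin J, tow A V Λ (fun x => linG v f (x, p)) (ν j) x = 0} := by
  have hUP : IsOpen (U ×ˢ (Set.univ : Set (κ → ℝ))) := hU.prod isOpen_univ
  have hF := linG_smooth hv hf
  have hΦ : ∀ j : ℕ, ContDiffOn ℝ ∞ (tow (liftV (κ → ℝ) A) (liftV (κ → ℝ) V)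
      (liftL (κ → ℝ) Λ) (linG v f) j) (U ×ˢ Set.univ) := fun j =>
    tow_smooth hUP (liftV_smooth hA) (liftV_smooth hV) (liftL_smooth hΛ) hF j
  have key := negl_param' (Y := M) (P := κ → ℝ) (F := Fin J → ℝ)
    (Φ := genT A V Λ v f ν) (S := S)
    (by rw [finrank_fin_fun]; exact hJ)
    (by
      rintro ⟨x, p⟩ hz -
      have hx : x ∈ U := hS _ hz
      have hx' : ((x, p) : M × (κ → ℝ)) ∈ U ×ˢ (Set.univ : Set (κ → ℝ)) :=
        ⟨hx, Set.mem_univ _⟩
      have hcd : ContDiffAt ℝ 1 (genT (J := J) A V Λ v f ν) (x, p) := by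
        rw [contDiffAt_pi]
        intro j
        exact ((hΦ (ν j)).contDiffAt (hUP.mem_nhds hx')).of_le (by norm_cast)
      refine ⟨hcd, ?_⟩
      have hd := (hcd.differentiableAt one_ne_zero).hasFDerivAt
      choose q C φ hφ1 hφ2 hφ3 hφ4 using h (x, p) hz
      have hval : ∀ K j : Fin J, j ≤ K →
          fderiv ℝ (genT (J := J) A V Λ v f ν) (x, p) (0, q K) j =
          itd (fld V Λ (fun x => linG v f (x, p))) (fun x => fderiv ℝ (φ K) x (A x)) (ν j) x := by
        intro K j hj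
        have h1 : HasDerivAt (fun τ : ℝ => ((x, p) : M × (κ → ℝ)) + τ • ((0 : M), q K))
            ((0 : M), q K) 0 := by
          simpa using ((hasDerivAt_id (0 : ℝ)).smul_const
            (((0 : M), q K) : M × (κ → ℝ))).const_add (x, p)
        have h2 : HasFDerivAt (genT (J := J) A V Λ v f ν)
            (fderiv ℝ (genT (J := J) A V Λ v f ν) (x, p))
            (((x, p) : M × (κ → ℝ)) + (0 : ℝ) • ((0 : M), q K)) := by
          rw [zero_smul, add_zero]; exact hd
        have h3 := (hasDerivAt_pi.1 (h2.comp_hasDerivAt (0 : ℝ) h1)) j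
        have h4 : ∀ τ : ℝ, genT (J := J) A V Λ v f ν
            (((x, p) : M × (κ → ℝ)) + τ • ((0 : M), q K)) j =
            tow A V Λ (fun x => linG v f (x, p)) (ν j) x + τ *
            itd (fld V Λ (fun x => linG v f (x, p))) (fun x => fderiv ℝ (φ K) x (A x)) (ν j) x := by
          intro τ
          have h5 : (((x, p) : M × (κ → ℝ)) + τ • ((0 : M), q K)) = (x, p + τ • q K) := by
            simp
          unfold genT
          rw [h5, slice_tow hU hA hV hΛ hF (ν j) x hx]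
          rw [tow_congr hU (v' := fun y => linG v f (y, p) + τ * φ K y + τ * C K)
            (fun y hy => ?_) (ν j) x hx]
          · exact tow_add_val hU hA hV hΛ (linG_smooth' hv hf p) (hφ1 K) hx τ (τ * C K) (hφ3 K)
              (fun y => rfl) (hν.monotone hj)
          · have h6 := hφ2 K y hy
            simp only [linG, Pi.add_apply, Pi.smul_apply, smul_eq_mul, add_mul,
              Finset.sum_add_distrib, mul_assoc]
            rw [← Finset.mul_sum, h6]
            ring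
        have h6 : HasDerivAt (fun τ : ℝ => tow A V Λ (fun x => linG v f (x, p)) (ν j) x + τ *
            itd (fld V Λ (fun x => linG v f (x, p))) (fun x => fderiv ℝ (φ K) x (A x)) (ν j) x)
            (itd (fld V Λ (fun x => linG v f (x, p))) (fun x => fderiv ℝ (φ K) x (A x)) (ν j) x)
            0 := by
          simpa using ((hasDerivAt_id (0 : ℝ)).mul_const _).const_add
            (tow A V Λ (fun x => linG v f (x, p)) (ν j) x)
        exact h3.unique (h6.congr_of_eventuallyEq (Filter.Eventually.of_forall h4))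
      have hX : ContDiffOn ℝ ∞ (fld V Λ (fun x => linG v f (x, p))) U :=
        fld_smooth hU hV hΛ (linG_smooth' hv hf p)
      exact tri_surj (J := J) ((fderiv ℝ (genT (J := J) A V Λ v f ν) (x, p)).toLinearMap ∘ₗ
            (LinearMap.inr ℝ M (κ → ℝ))) q
        (fun K j hjK => by
          show fderiv ℝ (genT (J := J) A V Λ v f ν) (x, p) (0, q K) j = 0
          rw [hval K j hjK.le]
          exact ord_itd_val hX (hν hjK) ((hφ3 K).2 A hA))
        (fun K => by
          show fderiv ℝ (genT (J := J) A V Λ v f ν) (x, p) (0, q K) K ≠ 0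
          rw [hval K K le_rfl]
          exact hφ4 K))
  refine key.mono ?_
  rintro p ⟨x, hx, h0⟩
  refine ⟨x, hx, ?_⟩
  funext j
  simp only [Pi.zero_apply]
  unfold genT
  rw [slice_tow hU hA hV hΛ hF (ν j) x (hS _ hx)]
  exact h0 j

end Pool.Agent.FL
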