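import Pool.Agent.FL.WallJ

/-!
# MP_f09395_gt, wall formulas: the gradient, the flow field `[u, ∇v]` and the operator `E`
-/

set_option linter.unusedSectionVars false

noncomputable section

namespace Pool.Agent.FL.Wall

open scoped ContDiff
open Pool.Agent.Helper93.Fin Pool.Agent.helper79.FP Pool.Agent.helper79.FR
open Filter Topology

variable {𝔸 : Type*} [NormedRing 𝔸] [NormedAlgebra ℝ 𝔸] [FiniteDimensional ℝ 𝔸]
variable {g h m : Submodule ℝ 𝔸} {Q : 𝔸 →ₗ[ℝ] 𝔸 →ₗ[ℝ] ℝ} {P : 𝔸 →L[ℝ] m} {φ ψ v n f : m → ℝ}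
variable {h0 : 𝔸} {B : m → 𝔸} {c : m → ℝ}

/-- `rep` as a continuous linear map -/
def repC (hN : NData g h m Q P) : (m →L[ℝ] ℝ) →L[ℝ] m :=
  LinearMap.toContinuousLinearMap
    { toFun := rep Q
      map_add' := fun f f' => rep_unique hN fun w => by
        rw [rep_spec hN, Submodule.coe_add, map_add, LinearMap.add_apply, rep_spec hN,
          rep_spec hN]; rfl
      map_smul' := fun r f => rep_unique hN fun w => by
        rw [rep_spec hN, Submodule.coe_smul, map_smul, LinearMap.smul_apply, rep_spec hN]; rfl }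

theorem repC_apply (hN : NData g h m Q P) (f : m →L[ℝ] ℝ) : repC hN f = rep Q f := rfl

theorem gx_smooth (hN : NData g h m Q P) (hv : ContDiffOn ℝ ∞ v {0}ᶜ) :
    ContDiffOn ℝ ∞ (gx Q v : m → m) {0}ᶜ := by
  have h1 := (repC hN).contDiff (n := ∞) |>.comp_contDiffOn (smooth_fderiv hv)
  exact h1

/-- the derivative of the gradient -/
theorem gx_fderiv (hN : NData g h m Q P) (hv : ContDiffOn ℝ ∞ v {0}ᶜ) {u : m} (hu : u ≠ 0)
    (a : m) : fderiv ℝ (gx Q v : m → m) u a = gs Q v u a := by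
  have h1 : HasFDerivAt (fun z : m => repC hN (fderiv ℝ v z))
      ((repC hN).comp (fderiv ℝ (fderiv ℝ v) u)) u :=
    (repC hN).hasFDerivAt.comp u (dAt (smooth_fderiv hv) hu).hasFDerivAt
  have h2 : (gx Q v : m → m) = fun z : m => repC hN (fderiv ℝ v z) := rfl
  rw [h2, h1.fderiv]
  refine rep_unique hN fun w => ?_
  rw [gs_spec hN, ContinuousLinearMap.comp_apply, repC_apply, rep_spec hN, D2_eq' hv hu,
    ← D2_eq' hv hu, D2_symm hv hu, D2_eq' hv hu]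

/-- the field `[u, ∇v(u)]` -/
def ef {m : Submodule ℝ 𝔸} (Q : 𝔸 →ₗ[ℝ] 𝔸 →ₗ[ℝ] ℝ) (P : 𝔸 →L[ℝ] m) (v : m → ℝ) (z : m) : m :=
  P ⁅(z : 𝔸), (gx Q v z : 𝔸)⁆

/-- the derivative along `[u, ∇v(u)]` -/
def EE {m : Submodule ℝ 𝔸} (Q : 𝔸 →ₗ[ℝ] 𝔸 →ₗ[ℝ] ℝ) (P : 𝔸 →L[ℝ] m) (v f : m → ℝ) (z : m) : ℝ :=
  D1 f z (ef Q P v z)

theorem ef_smooth (hN : NData g h m Q P) (hv : ContDiffOn ℝ ∞ v {0}ᶜ) :
    ContDiffOn ℝ ∞ (ef Q P v) {0}ᶜ := by
  have h1 : ContDiffOn ℝ ∞ (fun z : m => ((gx Q v z : m) : 𝔸)) {0}ᶜ :=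
    m.subtypeL.contDiff.comp_contDiffOn (gx_smooth hN hv)
  have h2 : ContDiffOn ℝ ∞ (fun z : m => (z : 𝔸)) {0}ᶜ := m.subtypeL.contDiff.contDiffOn
  unfold ef
  simp only [Ring.lie_def]
  exact P.contDiff.comp_contDiffOn ((h2.mul h1).sub (h1.mul h2))

theorem ef_fderiv (hN : NData g h m Q P) (hv : ContDiffOn ℝ ∞ v {0}ᶜ) {u : m} (hu : u ≠ 0)
    (a : m) : fderiv ℝ (ef Q P v) u a =
      P (⁅(a : 𝔸), (gx Q v u : 𝔸)⁆ + ⁅(u : 𝔸), (gs Q v u a : 𝔸)⁆) := by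
  have h1 : HasFDerivAt (fun z : m => ((gx Q v z : m) : 𝔸))
      (m.subtypeL.comp (fderiv ℝ (gx Q v : m → m) u)) u :=
    m.subtypeL.hasFDerivAt.comp u (dAt (gx_smooth hN hv) hu).hasFDerivAt
  have h2 : HasFDerivAt (fun z : m => (z : 𝔸)) m.subtypeL u := m.subtypeL.hasFDerivAt
  have h3 := (h2.mul' h1).sub (h1.mul' h2)
  have h4 := P.hasFDerivAt.comp u h3
  have h5 : (ef Q P v : m → m) = P ∘ ((fun z : m => (z : 𝔸)) * (fun z : m => ((gx Q v z : m) : 𝔸))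
      - (fun z : m => ((gx Q v z : m) : 𝔸)) * (fun z : m => (z : 𝔸))) := by
    funext z
    simp only [ef, Ring.lie_def, Function.comp_apply, Pi.sub_apply, Pi.mul_apply]
  rw [h5, h4.fderiv]
  simp only [ContinuousLinearMap.comp_apply, _root_.sub_apply, _root_.add_apply,
    _root_.smul_apply, Submodule.subtypeL_apply, smul_eq_mul, MulOpposite.smul_eq_mul_unop,
    MulOpposite.unop_op, gx_fderiv hN hv hu, Ring.lie_def]
  congr 1
  abel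

theorem EE_smooth (hN : NData g h m Q P) (hv : ContDiffOn ℝ ∞ v {0}ᶜ)
    (hf : ContDiffOn ℝ ∞ f {0}ᶜ) : ContDiffOn ℝ ∞ (EE Q P v f) {0}ᶜ :=
  (smooth_fderiv hf).clm_apply (ef_smooth hN hv)

theorem EE_D1 (hN : NData g h m Q P) (hv : ContDiffOn ℝ ∞ v {0}ᶜ) (hf : ContDiffOn ℝ ∞ f {0}ᶜ)
    {u : m} (hu : u ≠ 0) (a : m) : D1 (EE Q P v f) u a =
      D2 f u (ef Q P v u) a +
        D1 f u (P (⁅(a : 𝔸), (gx Q v u : 𝔸)⁆ + ⁅(u : 𝔸), (gs Q v u a : 𝔸)⁆)) := by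
  have h1 : HasFDerivAt (fun z => fderiv ℝ f z (ef Q P v z)) _ u :=
    (dAt (smooth_fderiv hf) hu).hasFDerivAt.clm_apply (dAt (ef_smooth hN hv) hu).hasFDerivAt
  have h2 : (EE Q P v f) = fun z => fderiv ℝ f z (ef Q P v z) := rfl
  rw [D1, h2, h1.fderiv]
  simp only [_root_.add_apply, ContinuousLinearMap.comp_apply, ContinuousLinearMap.flip_apply]
  rw [ef_fderiv hN hv hu, D2_eq' hf hu, D1, add_comm]

/-- the second derivative along the flow -/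
theorem EE_EE (hN : NData g h m Q P) (hv : ContDiffOn ℝ ∞ v {0}ᶜ) (hf : ContDiffOn ℝ ∞ f {0}ᶜ)
    {u : m} (hu : u ≠ 0) : EE Q P v (EE Q P v f) u =
      D2 f u (ef Q P v u) (ef Q P v u) + D1 f u (P (⁅(ef Q P v u : 𝔸), (gx Q v u : 𝔸)⁆
        + ⁅(u : 𝔸), (gs Q v u (ef Q P v u) : 𝔸)⁆)) := EE_D1 hN hv hf hu _

end Pool.Agent.FL.Wall
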