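import Pool.Agent.FL.Gauge53
import Pool.Agent.FL.WallE

/-!
# MP_f09395_gt, kinks, part 2: adding squares of functions which vanish on an orbit

`F u = 0`, `DF(u)[u, X] = 0` and `D(EF)(u)[u, X] = 0` for all `X ∈ 𝔤` with `[u, X] ∈ 𝔪`; then
`T3(v + Σ κ F²) = T3(v) - 2 Σ κ ((D_b EF)² + D_b F · D_b EEF)` on `{α = 0}`.
-/

set_option linter.unusedSectionVars false

noncomputable section

namespace Pool.Agent.helper53.FL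

open scoped ContDiff
open Pool.Agent.Helper93.Fin Pool.Agent.helper79.FP Pool.Agent.helper79.FR
open Pool.Agent.FL.Wall (EE EE_D1 EE_smooth)
open Filter Topology

variable {𝔸 : Type*} [NormedRing 𝔸] [NormedAlgebra ℝ 𝔸] [FiniteDimensional ℝ 𝔸]
variable {g h m : Submodule ℝ 𝔸} {Q : 𝔸 →ₗ[ℝ] 𝔸 →ₗ[ℝ] ℝ} {P : 𝔸 →L[ℝ] m} {φ ψ v N F : m → ℝ}
variable {h0 : 𝔸} {B : m → 𝔸} {c : m → ℝ} {u b : m}

/-- `f` vanishes on the tangent directions `[u, X]` -/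
def Tan (g : Submodule ℝ 𝔸) {m : Submodule ℝ 𝔸} (P : 𝔸 →L[ℝ] m) (f : m → ℝ) (u : m) : Prop :=
  ∀ X ∈ g, (P ⁅(u : 𝔸), X⁆ : 𝔸) = ⁅(u : 𝔸), X⁆ → D1 f u (P ⁅(u : 𝔸), X⁆) = 0

/-- the differential of a function which is constant on the orbits, represented in the
centraliser -/
theorem lam_exists' (hN : NData g h m Q P) (hC : Cas g h m Q P h0 B c) (f : m → ℝ) (u : m)
    (hf : Tan g P f u) : ∃ Λ ∈ g, ⁅(u : 𝔸), Λ⁆ = 0 ∧ (∀ w : m, Q Λ w = D1 f u w) ∧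
      ∃ (σ : m) (μ : ℝ), Λ = (σ : 𝔸) - μ • h0 := by
  have hh0 : h0 ∈ g := hN.red.h_le hC.mem
  obtain ⟨R, hR⟩ : ∃ R : m, R = gx Q f u := ⟨_, rfl⟩
  have hRs : ∀ w : m, Q (R : 𝔸) w = D1 f u w := fun w => by rw [hR, gx_spec hN]
  have hug : (u : 𝔸) ∈ g := mg hN u
  have hRg : (R : 𝔸) ∈ g := mg hN R
  -- the key property
  have key : ∀ X ∈ g, Q h0 ⁅(u : 𝔸), X⁆ = 0 → Q ⁅(u : 𝔸), (R : 𝔸)⁆ X = 0 := by
    intro X hX h1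
    have h2 := mem_m_of_h0 hN hC (lg hN hug hX) h1
    have h3 := hf X hX h2
    rw [← hRs, h2] at h3
    rw [skew (u : 𝔸), map_neg, LinearMap.neg_apply, hN.Qinv, h3, neg_zero]
  have hY0g : ⁅(u : 𝔸), h0⁆ ∈ g := lg hN hug hh0
  -- the multiplier
  obtain ⟨μ, hμ⟩ : ∃ μ : ℝ, Q ⁅(u : 𝔸), (R : 𝔸)⁆ ⁅(u : 𝔸), h0⁆ =
      μ * Q ⁅(u : 𝔸), h0⁆ ⁅(u : 𝔸), h0⁆ := by
    by_cases h1 : ⁅(u : 𝔸), h0⁆ = 0
    · exact ⟨0, by rw [h1]; simp⟩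
    · have h2 := hN.Qpos _ hY0g h1
      exact ⟨Q ⁅(u : 𝔸), (R : 𝔸)⁆ ⁅(u : 𝔸), h0⁆ / Q ⁅(u : 𝔸), h0⁆ ⁅(u : 𝔸), h0⁆, by
        field_simp⟩
  have hDg : ⁅(u : 𝔸), (R : 𝔸)⁆ - μ • ⁅(u : 𝔸), h0⁆ ∈ g :=
    g.sub_mem (lg hN hug hRg) (g.smul_mem _ hY0g)
  have hD : ⁅(u : 𝔸), (R : 𝔸)⁆ - μ • ⁅(u : 𝔸), h0⁆ = 0 := by
    refine Q_zero hN hDg (le_of_eq ?_)
    obtain ⟨D, hDd⟩ : ∃ D, D = ⁅(u : 𝔸), (R : 𝔸)⁆ - μ • ⁅(u : 𝔸), h0⁆ := ⟨_, rfl⟩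
    have h1 : Q ⁅(u : 𝔸), h0⁆ D = 0 := by
      rw [hDd, map_sub, map_smul, smul_eq_mul, hN.Qsymm _ ⁅(u : 𝔸), (R : 𝔸)⁆, hμ, sub_self]
    have h2 : Q h0 ⁅(u : 𝔸), D⁆ = 0 := by
      rw [← hN.Qinv, skew h0, map_neg, LinearMap.neg_apply, h1, neg_zero]
    have h3 := key D (hDd ▸ hDg) h2
    have h4 : Q D D = Q (⁅(u : 𝔸), (R : 𝔸)⁆ - μ • ⁅(u : 𝔸), h0⁆) D := by rw [← hDd]
    rw [← hDd, h4, map_sub, map_smul, LinearMap.sub_apply, LinearMap.smul_apply, h3, h1]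
    simp
  refine ⟨(R : 𝔸) - μ • h0, g.sub_mem hRg (g.smul_mem _ hh0), ?_, fun w => ?_, R, μ, rfl⟩
  · rw [lie_sub', lie_smul', hD]
  · rw [map_sub, map_smul, LinearMap.sub_apply, LinearMap.smul_apply, hN.Qhm h0 hC.mem w w.2,
      smul_zero, sub_zero, hRs]

/-- the functional which measures the change of the third order form -/
def Lf (Q : 𝔸 →ₗ[ℝ] 𝔸 →ₗ[ℝ] ℝ) (P : 𝔸 →L[ℝ] m) (v N : m → ℝ) (u b : m) (S : 𝔸) : ℝ :=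
  - (1 / 2) * D4 N u b b (P ⁅(u : 𝔸), (gx Q v u : 𝔸)⁆) (P ⁅(u : 𝔸), (gx Q v u : 𝔸)⁆)
    - D3 N u b (P ⁅(u : 𝔸), (gx Q v u : 𝔸)⁆)
      ((2 : ℝ) • P ⁅(b : 𝔸), (gx Q v u : 𝔸)⁆ - P ⁅(u : 𝔸), (gs Q v u b : 𝔸)⁆)
    - D2 N u (P ⁅(b : 𝔸), (gx Q v u : 𝔸)⁆) (P ⁅(b : 𝔸), (gx Q v u : 𝔸)⁆)
    - Q S (⁅(b : 𝔸), (gs Q v u (P ⁅(u : 𝔸), (gx Q v u : 𝔸)⁆) : 𝔸)⁆
      + ⁅(P ⁅(b : 𝔸), (gx Q v u : 𝔸)⁆ : 𝔸), (gx Q v u : 𝔸)⁆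
      - ⁅(P ⁅(u : 𝔸), (gs Q v u b : 𝔸)⁆ : 𝔸), (gx Q v u : 𝔸)⁆)
    - (1 / 2) * D3 N u b b (P (⁅(P ⁅(u : 𝔸), (gx Q v u : 𝔸)⁆ : 𝔸), (gx Q v u : 𝔸)⁆
      + ⁅(u : 𝔸), (gs Q v u (P ⁅(u : 𝔸), (gx Q v u : 𝔸)⁆) : 𝔸)⁆))

/-- **difference formula** -/
theorem T3F_Lf (hN : NData g h m Q P) (hC : Cas g h m Q P h0 B c) (hφ : PhiN h m P v)
    (hNs : ContDiffOn ℝ ∞ N {0}ᶜ) (hψ : PhiN h m P (fun z => v z + N z)) (hF : Flag Q u b)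
    (ha : al P h0 v u b = 0) (h1 : ∀ w, D1 N u w = 0)
    (h2e : ∀ w, D2 N u (P ⁅(u : 𝔸), (gx Q v u : 𝔸)⁆) w = 0)
    (h2q : ∀ w, D2 N u (P ⁅(u : 𝔸), (gs Q v u b : 𝔸)⁆) w = 0) {S : 𝔸} (hS : S ∈ g)
    (hSu : ⁅(u : 𝔸), S⁆ = 0) (hSw : ∀ w : m, Q S w = D2 N u b w) {σ : m} {μ : ℝ}
    (hSσ : S = (σ : 𝔸) - μ • h0) :
    T3F Q P (fun z => v z + N z) u b = T3F Q P v u b + Lf Q P v N u b S := by
  have hu := hF.ne hN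
  have hv := hφ.smooth
  obtain ⟨x, hx⟩ : ∃ x : m, x = gx Q v u := ⟨_, rfl⟩
  obtain ⟨s, hs⟩ : ∃ s : m, s = gs Q v u b := ⟨_, rfl⟩
  obtain ⟨y, hy⟩ : ∃ y : m, y = gy Q v u b := ⟨_, rfl⟩
  obtain ⟨τ, hτ⟩ : ∃ τ : m, τ = gy Q N u b := ⟨_, rfl⟩
  obtain ⟨e, he⟩ : ∃ e : m, e = P ⁅(u : 𝔸), (x : 𝔸)⁆ := ⟨_, rfl⟩
  obtain ⟨p, hp⟩ : ∃ p : m, p = P ⁅(b : 𝔸), (x : 𝔸)⁆ := ⟨_, rfl⟩
  obtain ⟨q, hq⟩ : ∃ q : m, q = P ⁅(u : 𝔸), (s : 𝔸)⁆ := ⟨_, rfl⟩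
  obtain ⟨xe, hxe⟩ : ∃ xe : m, xe = gs Q v u e := ⟨_, rfl⟩
  have hxs : ∀ w : m, Q (x : 𝔸) w = D1 v u w := fun w => by rw [hx, gx_spec hN]
  have hss : ∀ w : m, Q (s : 𝔸) w = D2 v u b w := fun w => by rw [hs, gs_spec hN]
  have hys : ∀ w : m, Q (y : 𝔸) w = D3 v u b b w := fun w => by rw [hy, gy_spec hN]
  have hτs : ∀ w : m, Q (τ : 𝔸) w = D3 N u b b w := fun w => by rw [hτ, gy_spec hN]
  have em : (e : 𝔸) = ⁅(u : 𝔸), (x : 𝔸)⁆ := by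
    rw [he, hx]; exact e_mem hN hφ hu (gx_spec hN u)
  have pm : (p : 𝔸) = ⁅(b : 𝔸), (x : 𝔸)⁆ := by
    rw [hp, hx]; exact p_mem hN hC ha
  have qm : (q : 𝔸) = ⁅(u : 𝔸), (s : 𝔸)⁆ := by
    rw [hq, hs]; exact q_mem hN hC hφ hu ha
  have hx' : ∀ w : m, Q (x : 𝔸) w = D1 (fun z => v z + N z) u w := fun w => by
    rw [hxs, D1_sum hv hNs hu, h1, add_zero]
  have hσs : ∀ w : m, Q (σ : 𝔸) w = D2 N u b w := by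
    intro w
    rw [← hSw, hSσ, map_sub, map_smul, LinearMap.sub_apply, LinearMap.smul_apply,
      hN.Qhm h0 hC.mem w w.2, smul_zero, sub_zero]
  have hs' : ∀ w : m, Q ((s + σ : m) : 𝔸) w = D2 (fun z => v z + N z) u b w := fun w => by
    rw [Submodule.coe_add, map_add, LinearMap.add_apply, hss, D2_sum hv hNs hu, hσs]
  have hy' : ∀ w : m, Q ((y + τ : m) : 𝔸) w = D3 (fun z => v z + N z) u b b w := fun w => by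
    rw [Submodule.coe_add, map_add, LinearMap.add_apply, hys, D3_sum hv hNs hu, hτs]
  have hsg : (s : 𝔸) + S ∈ g := g.add_mem (mg hN s) hS
  have hcoe : ((s + σ : m) : 𝔸) = ((s : 𝔸) + S) + μ • h0 := by
    rw [Submodule.coe_add, hSσ]; abel
  have e1 : ⁅(u : 𝔸), (s : 𝔸) + S⁆ = ⁅(u : 𝔸), (s : 𝔸)⁆ := by
    rw [lie_add', hSu, add_zero]
  have hgauge := T3G_gauge (y := y + τ) hN hC hψ hsg hu hx' (by
      intro w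
      rw [map_add, LinearMap.add_apply, hss, hSw, D2_sum hv hNs hu]) (by rw [← hp, pm])
    (by rw [e1, ← hq, qm]) μ
  have hT : T3F Q P (fun z => v z + N z) u b =
      T3G Q P (fun z => v z + N z) u b x ((s : 𝔸) + S) (y + τ) := by
    rw [← T3F_eq hN hx' hs' hy', ← T3G_coe, hcoe, hgauge]
  have e2 : P ((2 : ℝ) • ⁅(b : 𝔸), (s : 𝔸) + S⁆ + ⁅(u : 𝔸), ((y + τ : m) : 𝔸)⁆) =
      P ((2 : ℝ) • ⁅(b : 𝔸), (s : 𝔸)⁆ + ⁅(u : 𝔸), (y : 𝔸)⁆) +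
        ((2 : ℝ) • P ⁅(b : 𝔸), S⁆ + P ⁅(u : 𝔸), (τ : 𝔸)⁆) := by
    rw [Submodule.coe_add, lie_add', lie_add', smul_add, ← map_smul, ← map_add, ← map_add]
    congr 1
    abel
  obtain ⟨r, hr⟩ : ∃ r : m, r = P ((2 : ℝ) • ⁅(b : 𝔸), (s : 𝔸)⁆ + ⁅(u : 𝔸), (y : 𝔸)⁆) :=
    ⟨_, rfl⟩
  rw [hT, T3F, ← hx, ← hs, ← hy]
  unfold T3G T3N Lf
  rw [← hx, ← hs, ← he, ← hxe, ← hp, e1, ← hq, e2, ← hr]
  rw [← hx, ← he] at h2e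
  rw [← hs, ← hq] at h2q
  have h2q' : ∀ w, D2 N u w q = 0 := fun w => by rw [D2_symm hNs hu, h2q]
  have t1 : ∀ w : m, D2 v u e w = Q (xe : 𝔸) w := fun w => by rw [hxe, gs_spec hN]
  -- the two terms of `r`
  have t2 : D2 v u e ((2 : ℝ) • P ⁅(b : 𝔸), S⁆ + P ⁅(u : 𝔸), (τ : 𝔸)⁆) =
      -2 * Q S ⁅(b : 𝔸), (xe : 𝔸)⁆ - Q (τ : 𝔸) ⁅(u : 𝔸), (xe : 𝔸)⁆ := by
    rw [t1, Submodule.coe_add, Submodule.coe_smul, map_add, map_smul,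
      Q_P hN xe (lg hN (mg hN b) hS), Q_P hN xe (lm hN u τ)]
    have k1 : Q (xe : 𝔸) ⁅(b : 𝔸), S⁆ = - Q S ⁅(b : 𝔸), (xe : 𝔸)⁆ := by
      rw [← hN.Qinv, hN.Qsymm, skew (xe : 𝔸), map_neg]
    have k2 : Q (xe : 𝔸) ⁅(u : 𝔸), (τ : 𝔸)⁆ = - Q (τ : 𝔸) ⁅(u : 𝔸), (xe : 𝔸)⁆ := by
      rw [← hN.Qinv, hN.Qsymm, skew (xe : 𝔸), map_neg]
    rw [k1, k2, smul_eq_mul]
    ring
  have t3 : Q ((p - q : m) : 𝔸) ⁅(x : 𝔸), S⁆ = Q S ⁅(p : 𝔸), (x : 𝔸)⁆ - Q S ⁅(q : 𝔸), (x : 𝔸)⁆ := by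
    rw [← hN.Qinv, hN.Qsymm, Submodule.coe_sub, sub_lie', map_sub]
  have t4 : Q ⁅(x : 𝔸), (τ : 𝔸)⁆ (e : 𝔸) = Q (τ : 𝔸) ⁅(e : 𝔸), (x : 𝔸)⁆ := by
    rw [hN.Qsymm, ← hN.Qinv, hN.Qsymm]
  have t5 : D3 N u b b (P (⁅(e : 𝔸), (x : 𝔸)⁆ + ⁅(u : 𝔸), (xe : 𝔸)⁆)) =
      Q (τ : 𝔸) ⁅(e : 𝔸), (x : 𝔸)⁆ + Q (τ : 𝔸) ⁅(u : 𝔸), (xe : 𝔸)⁆ := by
    rw [← hτs, Q_P hN τ (g.add_mem (lm hN e x) (lm hN u xe)), map_add]
  have l2 : ∀ a w w' : m, D2 v u a (w + w') = D2 v u a w + D2 v u a w' := by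
    intro a w w'
    unfold D2
    rw [map_add]
  rw [D4_sum hv hNs hu, D3_sum hv hNs hu, D2_sum hv hNs hu, D2_sum hv hNs hu, D2_sum hv hNs hu,
    D2_sum hv hNs hu, h2e, h2q, h2q', l2, t2, t5, lie_add', map_add, t3, Submodule.coe_add,
    lie_add', map_add, LinearMap.add_apply, t4]
  simp only [map_add, map_sub]
  ring

/-! ### derivatives of `E F` -/

theorem ef_coe' (hN : NData g h m Q P) (hφ : PhiN h m P v) {u : m} (hu : u ≠ 0) (a : m) :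
    (P (⁅(a : 𝔸), (gx Q v u : 𝔸)⁆ + ⁅(u : 𝔸), (gs Q v u a : 𝔸)⁆) : 𝔸) =
      ⁅(a : 𝔸), (gx Q v u : 𝔸)⁆ + ⁅(u : 𝔸), (gs Q v u a : 𝔸)⁆ := by
  rw [← Pool.Agent.FL.Wall.ef_fderiv hN hφ.smooth hu a]
  exact ef_fderiv hN hφ hu a

/-- the second derivative of `E F` -/
theorem EE_D2 (hN : NData g h m Q P) (hφ : PhiN h m P v) (hf : ContDiffOn ℝ ∞ F {0}ᶜ) {u : m}
    (hu : u ≠ 0) (a a' : m) : D2 (EE Q P v F) u a a' =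
      D3 F u (ef Q P v u) a a' + D2 F u (fderiv ℝ (ef Q P v) u a') a +
        D2 F u (fderiv ℝ (ef Q P v) u a) a' +
        D1 F u (fderiv ℝ (fun z => fderiv ℝ (ef Q P v) z a) u a') := by
  have se := ef_smooth (P := P) hN hφ.smooth
  have s1 := smooth_fderiv hf
  have s2 := smooth_fderiv s1
  have sa := smooth_fderiv_apply se a
  have h1 : (fun z => D1 (EE Q P v F) z a) =ᶠ[𝓝 u] fun z =>
      (fderiv ℝ (fderiv ℝ F) z a) (ef Q P v z) +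
        (fderiv ℝ F z) (fderiv ℝ (ef Q P v) z a) := by
    filter_upwards [eventually_ne' hu] with z hz
    have h2 : HasFDerivAt (fun z => fderiv ℝ F z (ef Q P v z)) _ z :=
      (differentiableAt_of_ne s1 hz).hasFDerivAt.clm_apply
        (differentiableAt_of_ne se hz).hasFDerivAt
    have h3 : (EE Q P v F) = fun z => fderiv ℝ F z (ef Q P v z) := rfl
    rw [D1, h3, h2.fderiv]
    simp only [_root_.add_apply, ContinuousLinearMap.comp_apply, ContinuousLinearMap.flip_apply]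
    rw [add_comm]
  have s2a : ContDiffOn ℝ ∞ (fun z => fderiv ℝ (fderiv ℝ F) z a) {0}ᶜ :=
    s2.clm_apply contDiffOn_const
  have k1 : HasFDerivAt (fun z => (fderiv ℝ (fderiv ℝ F) z a) (ef Q P v z)) _ u :=
    (differentiableAt_of_ne s2a hu).hasFDerivAt.clm_apply
      (differentiableAt_of_ne se hu).hasFDerivAt
  have k2 : HasFDerivAt (fun z => (fderiv ℝ F z) (fderiv ℝ (ef Q P v) z a)) _ u :=
    (differentiableAt_of_ne s1 hu).hasFDerivAt.clm_apply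
      (differentiableAt_of_ne sa hu).hasFDerivAt
  have k3 := k1.add k2
  have k4 : (fun z => (fderiv ℝ (fderiv ℝ F) z a) (ef Q P v z) +
        (fderiv ℝ F z) (fderiv ℝ (ef Q P v) z a)) =
      ((fun z => (fderiv ℝ (fderiv ℝ F) z a) (ef Q P v z)) + fun z =>
        (fderiv ℝ F z) (fderiv ℝ (ef Q P v) z a)) := rfl
  have k5 : fderiv ℝ (fun z => fderiv ℝ (fderiv ℝ F) z a) u a' =
      fderiv ℝ (fderiv ℝ (fderiv ℝ F)) u a' a := fderiv_apply_const s2 hu a a'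
  rw [D2, h1.fderiv_eq, k4, k3.fderiv]
  simp only [_root_.add_apply, ContinuousLinearMap.comp_apply, ContinuousLinearMap.flip_apply]
  rw [k5, ← D3_eq' hf hu, ← D2_eq' hf hu, ← D2_eq' hf hu]
  have k6 : (fderiv ℝ F u) (fderiv ℝ (fun z => fderiv ℝ (ef Q P v) z a) u a') =
      D1 F u (fderiv ℝ (fun z => fderiv ℝ (ef Q P v) z a) u a') := rfl
  rw [k6]
  ring

/-- **the change for one square** -/
theorem Lf_sq (hN : NData g h m Q P) (hC : Cas g h m Q P h0 B c) (hφ : PhiN h m P v)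
    (hFl : Flag Q u b) (ha : al P h0 v u b = 0) (hf : ContDiffOn ℝ ∞ F {0}ᶜ) (h0F : F u = 0)
    (ht : Tan g P F u) (ht1 : Tan g P (EE Q P v F) u) (κ : ℝ) {Λ : 𝔸}
    (hΛu : ⁅(u : 𝔸), Λ⁆ = 0) (hΛ : ∀ w : m, Q Λ w = D1 F u w) :
    Lf Q P v (fun z => κ * F z ^ 2) u b ((2 * κ * D1 F u b) • Λ) =
      -2 * κ * (D1 (EE Q P v F) u b ^ 2 + D1 F u b * D1 (EE Q P v (EE Q P v F)) u b) := by
  have hu := hFl.ne hN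
  have hv := hφ.smooth
  have hf1 : ContDiffOn ℝ ∞ (EE Q P v F) {0}ᶜ := EE_smooth hN hv hf
  obtain ⟨x, hx⟩ : ∃ x : m, x = gx Q v u := ⟨_, rfl⟩
  obtain ⟨s, hs⟩ : ∃ s : m, s = gs Q v u b := ⟨_, rfl⟩
  obtain ⟨e, he⟩ : ∃ e : m, e = P ⁅(u : 𝔸), (x : 𝔸)⁆ := ⟨_, rfl⟩
  obtain ⟨p, hp⟩ : ∃ p : m, p = P ⁅(b : 𝔸), (x : 𝔸)⁆ := ⟨_, rfl⟩
  obtain ⟨q, hq⟩ : ∃ q : m, q = P ⁅(u : 𝔸), (s : 𝔸)⁆ := ⟨_, rfl⟩
  obtain ⟨xe, hxe⟩ : ∃ xe : m, xe = gs Q v u e := ⟨_, rfl⟩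
  have em : (e : 𝔸) = ⁅(u : 𝔸), (x : 𝔸)⁆ := by
    rw [he, hx]; exact e_mem hN hφ hu (gx_spec hN u)
  have pm : (p : 𝔸) = ⁅(b : 𝔸), (x : 𝔸)⁆ := by
    rw [hp, hx]; exact p_mem hN hC ha
  have qm : (q : 𝔸) = ⁅(u : 𝔸), (s : 𝔸)⁆ := by
    rw [hq, hs]; exact q_mem hN hC hφ hu ha
  have hef : ef Q P v u = e := by rw [he, hx]; rfl
  have hef' : Pool.Agent.FL.Wall.ef Q P v u = e := by rw [he, hx]; rfl
  -- `Λ` annihilates the brackets with `u`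
  have c2 : ∀ Y : 𝔸, Q Λ ⁅(u : 𝔸), Y⁆ = 0 := by
    intro Y
    rw [← hN.Qinv, skew Λ, hΛu]; simp
  -- the derivative of the field
  have da : ∀ a : m, (fderiv ℝ (ef Q P v) u a : 𝔸) =
      ⁅(a : 𝔸), (x : 𝔸)⁆ + ⁅(u : 𝔸), (gs Q v u a : 𝔸)⁆ := by
    intro a; rw [hx]; exact ef_fderiv hN hφ hu a
  have dF : ∀ a : m, D1 F u (fderiv ℝ (ef Q P v) u a) = Q Λ ⁅(a : 𝔸), (x : 𝔸)⁆ := by
    intro a
    rw [← hΛ, da, map_add, c2, add_zero]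
  have dP : ∀ a : m, fderiv ℝ (ef Q P v) u a =
      P (⁅(a : 𝔸), (x : 𝔸)⁆ + ⁅(u : 𝔸), (gs Q v u a : 𝔸)⁆) := by
    intro a; rw [hx]; exact Pool.Agent.FL.Wall.ef_fderiv hN hv hu a
  -- first derivatives of `E F`
  have c4 : ∀ a : m, D1 (EE Q P v F) u a = D2 F u e a + Q Λ ⁅(a : 𝔸), (x : 𝔸)⁆ := by
    intro a
    have h1 := EE_D1 hN hv hf hu a
    rw [hef', ← hx, ← dP, dF] at h1
    exact h1
  have Fe : D1 F u e = 0 := by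
    have := ht x (mg hN x) (by rw [← he, em])
    rwa [← he] at this
  have Fq : D1 F u q = 0 := by
    have := ht s (mg hN s) (by rw [← hq, qm])
    rwa [← hq] at this
  have F1e : D1 (EE Q P v F) u e = 0 := by
    have := ht1 x (mg hN x) (by rw [← he, em])
    rwa [← he] at this
  have F1q : D1 (EE Q P v F) u q = 0 := by
    have := ht1 s (mg hN s) (by rw [← hq, qm])
    rwa [← hq] at this
  have c6 : D2 F u e e = - Q Λ ⁅(e : 𝔸), (x : 𝔸)⁆ := by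
    have := c4 e
    rw [F1e] at this
    linarith
  have c6q : D2 F u e q = - Q Λ ⁅(q : 𝔸), (x : 𝔸)⁆ := by
    have := c4 q
    rw [F1q] at this
    linarith
  have c6b := c4 b
  have c6p := c4 p
  -- `D_b (E E F)`
  have hdb : fderiv ℝ (ef Q P v) u b = p + q := by
    refine Subtype.ext ?_
    rw [da, Submodule.coe_add, pm, qm, hs]
  have c7 : D1 (EE Q P v (EE Q P v F)) u b = D2 (EE Q P v F) u b e + D1 (EE Q P v F) u p := by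
    have h1 := EE_D1 hN hv hf1 hu b
    rw [hef', ← hx, ← dP, hdb] at h1
    rw [h1, D2_symm hf1 hu e b]
    have h2 : D1 (EE Q P v F) u (p + q) = D1 (EE Q P v F) u p + D1 (EE Q P v F) u q := by
      unfold D1; rw [map_add]
    rw [h2, F1q, add_zero]
  obtain ⟨y', hy'⟩ := ef_fderiv2 hN hφ hu b e
  have c8 := EE_D2 hN hφ hf hu b e
  rw [hef, hdb] at c8
  have c8' : D1 F u (fderiv ℝ (fun z => fderiv ℝ (ef Q P v) z b) u e) =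
      Q Λ ⁅(b : 𝔸), (xe : 𝔸)⁆ + Q Λ ⁅(e : 𝔸), (s : 𝔸)⁆ := by
    rw [← hΛ, hy', map_add, map_add, c2, add_zero, hxe, hs]
  have c9 : D2 F u (p + q) e = D2 F u e p + D2 F u e q := by
    rw [D2_symm hf hu (p + q) e]
    unfold D2; rw [map_add]
  rw [c8', c9] at c8
  -- Jacobi
  have c10 : Q Λ ⁅(e : 𝔸), (s : 𝔸)⁆ = Q Λ ⁅(q : 𝔸), (x : 𝔸)⁆ := by
    have h1 := jac (u : 𝔸) (x : 𝔸) (s : 𝔸)
    have h2 := c2 ⁅(x : 𝔸), (s : 𝔸)⁆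
    rw [h1, map_add, ← em, ← qm, skew (x : 𝔸) (q : 𝔸), map_neg] at h2
    linarith
  -- the vector `D_e e`
  obtain ⟨de, hde⟩ : ∃ de : m, de = fderiv ℝ (ef Q P v) u e := ⟨_, rfl⟩
  have hdeP : P (⁅(e : 𝔸), (x : 𝔸)⁆ + ⁅(u : 𝔸), (xe : 𝔸)⁆) = de := by
    rw [hde, dP, hxe]
  have Fde : D1 F u de = Q Λ ⁅(e : 𝔸), (x : 𝔸)⁆ := by rw [hde, dF]
  rw [← hde] at c8
  have e3 : ∀ w : m, D3 (fun z => κ * F z ^ 2) u b e w =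
      2 * κ * (D2 F u b e * D1 F u w + D1 F u b * D2 F u e w) := by
    intro w
    rw [sq_D3 κ hf hu, h0F, Fe]; ring
  have e3b : ∀ w : m, D3 (fun z => κ * F z ^ 2) u b b w =
      2 * κ * (D2 F u b b * D1 F u w + 2 * (D1 F u b * D2 F u b w)) := by
    intro w
    rw [sq_D3 κ hf hu, h0F]; ring
  have e4 : D4 (fun z => κ * F z ^ 2) u b b e e = 2 * κ * (D2 F u b b * D2 F u e e +
      2 * (D1 F u b * D3 F u b e e) + 2 * D2 F u b e ^ 2) := by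
    rw [sq_D4 κ hf hu, h0F, Fe]; ring
  have e2 : D2 (fun z => κ * F z ^ 2) u p p = 2 * κ * D1 F u p ^ 2 := by
    rw [sq_D2 κ hf hu, h0F]; ring
  have k1 : D1 F u ((2 : ℝ) • p - q) = 2 * D1 F u p := by
    unfold D1 at Fq ⊢
    rw [map_sub, map_smul, Fq, sub_zero, smul_eq_mul]
  have k2 : D2 F u e ((2 : ℝ) • p - q) = 2 * D2 F u e p - D2 F u e q := by
    unfold D2
    rw [map_sub, map_smul, smul_eq_mul]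
  have k3 : D2 F u b e = D2 F u e b := D2_symm hf hu _ _
  have k4 : D3 F u e b e = D3 F u b e e := D3_symm12 hf hu _ _ _
  have k5 : D1 F u p = Q Λ ⁅(b : 𝔸), (x : 𝔸)⁆ := by rw [← hΛ, pm]
  have k6 : D2 F u de b = D2 F u b de := D2_symm hf hu _ _
  rw [k4, k6] at c8
  unfold Lf
  rw [← hx, ← hs, ← he, ← hxe, ← hp, ← hq, hdeP, e4, e3, e3b, e2, k1, k2, k3, Fde]
  simp only [map_add, map_sub, map_smul, LinearMap.smul_apply, smul_eq_mul]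
  rw [c7, c8, c6b, c6p, c6, c6q, k5, c10]
  ring

end Pool.Agent.helper53.FL
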