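import Pool.Agent.FL.K1_53
import Pool.Agent.FL.BLin

/-!
# MP_f09395_gt, kinks, part 3: finite sums of squares, functions linear in `B` at the walls
-/

set_option linter.unusedSectionVars false

noncomputable section

namespace Pool.Agent.helper53.FL

open scoped ContDiff
open Pool.Agent.Helper93.Fin Pool.Agent.helper79.FP Pool.Agent.helper79.FR
open Pool.Agent.FL.Wall (EE EE_D1 EE_smooth BLin LamE CasW LamE_apply)
open Filter Topology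

variable {𝔸 : Type*} [NormedRing 𝔸] [NormedAlgebra ℝ 𝔸] [FiniteDimensional ℝ 𝔸]
variable {g h m : Submodule ℝ 𝔸} {Q : 𝔸 →ₗ[ℝ] 𝔸 →ₗ[ℝ] ℝ} {P : 𝔸 →L[ℝ] m} {φ ψ v N F : m → ℝ}
variable {h0 : 𝔸} {B : m → 𝔸} {c : m → ℝ} {u b : m}

/-- the data carried through the induction over the finite set -/
def Pk (g : Submodule ℝ 𝔸) (Q : 𝔸 →ₗ[ℝ] 𝔸 →ₗ[ℝ] ℝ) (P : 𝔸 →L[ℝ] m) (h0 : 𝔸)
    (v : m → ℝ) (u b : m) (N : m → ℝ) (δ : ℝ) : Prop :=
  ContDiffOn ℝ ∞ N {0}ᶜ ∧ (∀ w, D1 N u w = 0) ∧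
    (∀ w, D2 N u (P ⁅(u : 𝔸), (gx Q v u : 𝔸)⁆) w = 0) ∧
    (∀ w, D2 N u (P ⁅(u : 𝔸), (gs Q v u b : 𝔸)⁆) w = 0) ∧
    ∃ S ∈ g, ⁅(u : 𝔸), S⁆ = 0 ∧ (∀ w : m, Q S w = D2 N u b w) ∧
      (∃ (σ : m) (μ : ℝ), S = (σ : 𝔸) - μ • h0) ∧ Lf Q P v N u b S = δ

theorem Lf_zero : Lf Q P v (fun _ => 0) u b 0 = 0 := by
  have d1 : ∀ z a : m, D1 (fun _ : m => (0 : ℝ)) z a = 0 := fun z a => by simp [D1]
  have d2 : ∀ z a a' : m, D2 (fun _ : m => (0 : ℝ)) z a a' = 0 := fun z a a' => by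
    unfold D2; simp [d1]
  have d3 : ∀ z a a' a'' : m, D3 (fun _ : m => (0 : ℝ)) z a a' a'' = 0 := fun z a a' a'' => by
    unfold D3; simp [d2]
  have d4 : ∀ z a a' a'' k : m, D4 (fun _ : m => (0 : ℝ)) z a a' a'' k = 0 :=
    fun z a a' a'' k => by unfold D4; simp [d3]
  unfold Lf
  rw [d4, d3, d2, d3]
  simp

theorem Pk_zero : Pk g Q P h0 v u b (fun _ => 0) 0 := by
  have d1 : ∀ z a : m, D1 (fun _ : m => (0 : ℝ)) z a = 0 := fun z a => by simp [D1]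
  have d2 : ∀ z a a' : m, D2 (fun _ : m => (0 : ℝ)) z a a' = 0 := fun z a a' => by
    unfold D2; simp [d1]
  refine ⟨contDiffOn_const, fun w => d1 u w, fun w => d2 _ _ _, fun w => d2 _ _ _, 0,
    g.zero_mem, by simp [Ring.lie_def], fun w => by rw [d2]; simp, ⟨0, 0, by simp⟩, Lf_zero⟩

theorem Pk_add (hu : u ≠ 0) {N' : m → ℝ} {δ δ' : ℝ} (h1 : Pk g Q P h0 v u b N δ)
    (h2 : Pk g Q P h0 v u b N' δ') : Pk g Q P h0 v u b (fun z => N z + N' z) (δ + δ') := by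
  obtain ⟨s1, a1, a2, a3, S, hS, b1, b2, ⟨σ, μ, b3⟩, b4⟩ := h1
  obtain ⟨s1', a1', a2', a3', S', hS', b1', b2', ⟨σ', μ', b3'⟩, b4'⟩ := h2
  refine ⟨s1.add s1', fun w => ?_, fun w => ?_, fun w => ?_, S + S', g.add_mem hS hS', ?_,
    fun w => ?_, ⟨σ + σ', μ + μ', ?_⟩, ?_⟩
  · rw [D1_sum s1 s1' hu, a1, a1', add_zero]
  · rw [D2_sum s1 s1' hu, a2, a2', add_zero]
  · rw [D2_sum s1 s1' hu, a3, a3', add_zero]
  · rw [lie_add', b1, b1', add_zero]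
  · rw [map_add, LinearMap.add_apply, b2, b2', D2_sum s1 s1' hu]
  · rw [b3, b3', Submodule.coe_add, add_smul]; abel
  · rw [← b4, ← b4']
    unfold Lf
    rw [D4_sum s1 s1' hu, D3_sum s1 s1' hu, D2_sum s1 s1' hu, D3_sum s1 s1' hu, map_add,
      LinearMap.add_apply]
    ring

theorem Pk_sq (hN : NData g h m Q P) (hC : Cas g h m Q P h0 B c) (hφ : PhiN h m P v)
    (hFl : Flag Q u b) (ha : al P h0 v u b = 0) (hf : ContDiffOn ℝ ∞ F {0}ᶜ) (h0F : F u = 0)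
    (ht : Tan g P F u) (ht1 : Tan g P (EE Q P v F) u) (κ : ℝ) :
    Pk g Q P h0 v u b (fun z => κ * F z ^ 2) (-2 * κ * (D1 (EE Q P v F) u b ^ 2 +
      D1 F u b * D1 (EE Q P v (EE Q P v F)) u b)) := by
  have hu := hFl.ne hN
  obtain ⟨Λ, hΛg, hΛu, hΛ, σ, μ, hσ⟩ := lam_exists' hN hC F u ht
  have Fe : D1 F u (P ⁅(u : 𝔸), (gx Q v u : 𝔸)⁆) = 0 :=
    ht _ (mg hN _) (e_mem hN hφ hu (gx_spec hN u))
  have Fq : D1 F u (P ⁅(u : 𝔸), (gs Q v u b : 𝔸)⁆) = 0 :=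
    ht _ (mg hN _) (q_mem hN hC hφ hu ha)
  refine ⟨sq_smooth κ hf, fun w => ?_, fun w => ?_, fun w => ?_, (2 * κ * D1 F u b) • Λ,
    g.smul_mem _ hΛg, ?_, fun w => ?_, ⟨(2 * κ * D1 F u b) • σ, (2 * κ * D1 F u b) * μ, ?_⟩,
    Lf_sq hN hC hφ hFl ha hf h0F ht ht1 κ hΛu hΛ⟩
  · rw [sq_D1 κ hf hu, h0F]; ring
  · rw [sq_D2 κ hf hu, h0F, Fe]; ring
  · rw [sq_D2 κ hf hu, h0F, Fq]; ring
  · rw [lie_smul', hΛu, smul_zero]
  · rw [map_smul, LinearMap.smul_apply, hΛ, sq_D2 κ hf hu, h0F, smul_eq_mul]; ring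
  · rw [hσ, Submodule.coe_smul, smul_sub, smul_smul]

theorem Pk_sum (hu : u ≠ 0) {ι : Type*} (s : Finset ι) {N : ι → m → ℝ} {δ : ι → ℝ}
    (H : ∀ i ∈ s, Pk g Q P h0 v u b (N i) (δ i)) :
    Pk g Q P h0 v u b (fun z => ∑ i ∈ s, N i z) (∑ i ∈ s, δ i) := by
  classical
  induction s using Finset.induction_on with
  | empty => simpa using Pk_zero
  | insert a s ha ih =>
    have h1 : (fun z => ∑ i ∈ insert a s, N i z) = fun z => N a z + ∑ i ∈ s, N i z :=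
      funext fun z => Finset.sum_insert ha
    rw [h1, Finset.sum_insert ha]
    exact Pk_add hu (H a (Finset.mem_insert_self a s))
      (ih fun i hi => H i (Finset.mem_insert_of_mem hi))

/-- the final difference formula -/
theorem T3F_Pk (hN : NData g h m Q P) (hC : Cas g h m Q P h0 B c) (hφ : PhiN h m P v)
    (hFl : Flag Q u b) (ha : al P h0 v u b = 0) {δ : ℝ} (H : Pk g Q P h0 v u b N δ)
    (hψ : PhiN h m P (fun z => v z + N z)) :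
    T3F Q P (fun z => v z + N z) u b = T3F Q P v u b + δ := by
  obtain ⟨s1, a1, a2, a3, S, hS, b1, b2, ⟨σ, μ, b3⟩, b4⟩ := H
  rw [T3F_Lf hN hC hφ s1 hψ hFl ha a1 a2 a3 hS b1 b2 b3, b4]

/-- **K1, finite sums** -/
theorem K1 (hN : NData g h m Q P) (hC : Cas g h m Q P h0 B c) (hφ : PhiN h m P v)
    (hFl : Flag Q u b) (ha : al P h0 v u b = 0) {ι : Type*} (s : Finset ι) (κ : ι → ℝ)
    {F : ι → m → ℝ} (hf : ∀ i ∈ s, ContDiffOn ℝ ∞ (F i) {0}ᶜ) (h0F : ∀ i ∈ s, F i u = 0)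
    (ht : ∀ i ∈ s, Tan g P (F i) u) (ht1 : ∀ i ∈ s, Tan g P (EE Q P v (F i)) u)
    (hψ : PhiN h m P (fun z => v z + ∑ i ∈ s, κ i * F i z ^ 2)) :
    T3F Q P (fun z => v z + ∑ i ∈ s, κ i * F i z ^ 2) u b = T3F Q P v u b +
      ∑ i ∈ s, -2 * κ i * (D1 (EE Q P v (F i)) u b ^ 2 +
        D1 (F i) u b * D1 (EE Q P v (EE Q P v (F i))) u b) :=
  T3F_Pk hN hC hφ hFl ha (Pk_sum (hFl.ne hN) s fun i hi =>
    Pk_sq hN hC hφ hFl ha (hf i hi) (h0F i hi) (ht i hi) (ht1 i hi) (κ i)) hψ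

/-- **K1 for functions linear in `B`, at the walls** -/
theorem K1_BLin (hN : NData g h m Q P) (hC : Cas g h m Q P h0 B c) (hW : CasW Q B c)
    (hφ : PhiN h m P v) (hFl : Flag Q u b) (hw : Q (B u) b = 0) (ha : al P h0 v u b = 0)
    {ι : Type*} (s : Finset ι) (κ : ι → ℝ) {F : ι → m → ℝ} {Λ : ι → m → 𝔸 →L[ℝ] ℝ}
    (hF : ∀ i ∈ s, BLin B (F i) (Λ i))
    (hψ : PhiN h m P (fun z => v z + ∑ i ∈ s, κ i * F i z ^ 2)) :
    T3F Q P (fun z => v z + ∑ i ∈ s, κ i * F i z ^ 2) u b = T3F Q P v u b +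
      ∑ i ∈ s, -32 * κ i * (LamE Q P v (Λ i) u (b : 𝔸) ^ 2 +
        Λ i u (b : 𝔸) * LamE Q P v (LamE Q P v (Λ i)) u (b : 𝔸)) := by
  have hc2 := Pool.Agent.FL.Wall.wall_c hC hFl hw
  rw [K1 hN hC hφ hFl ha s κ (fun i hi => (hF i hi).smooth hC)
    (fun i hi => (hF i hi).wall0 hN hC hFl hw)
    (fun i hi X hX hm => (hF i hi).walle hN hC hFl hw hX hm)
    (fun i hi X hX hm => ((hF i hi).dE hN hC hφ).walle hN hC hFl hw hX hm) hψ]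
  congr 1
  refine Finset.sum_congr rfl fun i hi => ?_
  have k1 := (hF i hi).wallb hN hC hW hFl hw
  have k2 := ((hF i hi).dE hN hC hφ).wallb hN hC hW hFl hw
  have k3 := (((hF i hi).dE hN hC hφ).dE hN hC hφ).wallb hN hC hW hFl hw
  rw [k1, k2, k3]
  linear_combination (-32 * κ i * (LamE Q P v (Λ i) u (b : 𝔸) ^ 2 +
        Λ i u (b : 𝔸) * LamE Q P v (LamE Q P v (Λ i)) u (b : 𝔸))) * hc2

end Pool.Agent.helper53.FL
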