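import Pool.Agent.helper46.FR.Sp2
import Pool.Agent.helper79.FR.StepB

/-!
# MP_f09395_gt, space (1) = `Sp(2)/diag(z, z³)`: coordinates on the isotropy complement

`X = [[-3 r₀ i + P j, C + Q j], [-(C + Q j)*, r₀ i + R j]]` with `P, R, C, Q` complex numbers;
under `diag(z, z³)` the numbers `P, R, C, Q` have the weights `2, 6, -2, 4`.
-/

noncomputable section

namespace Pool.Agent.FL.S1

open scoped ContDiff Quaternion Matrix ComplexConjugate
open Pool.Agent.Helper93.Fin Pool.Agent.helper79.FP Pool.Agent.helper79.FR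
open Pool.Agent.helper79.FR.Sp2 (Mat QQ h0 m gg hh PP BB cc)

attribute [local instance] Matrix.linftyOpNormedRing Matrix.linftyOpNormedAlgebra

/-- the complement of the isotropy algebra -/
abbrev V : Type := m 1 3

/-- the complex number `a + b i` attached to `b' = a j + b k` -/
def jkL : ℍ[ℝ] →ₗ[ℝ] ℂ where
  toFun q := ⟨q.imJ, q.imK⟩
  map_add' p q := by apply Complex.ext <;> simp
  map_smul' r q := by apply Complex.ext <;> simp

/-- the complex part of a quaternion -/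
def reL : ℍ[ℝ] →ₗ[ℝ] ℂ where
  toFun q := ⟨q.re, q.imI⟩
  map_add' p q := by apply Complex.ext <;> simp
  map_smul' r q := by apply Complex.ext <;> simp

/-- the `i`-part -/
def iL : ℍ[ℝ] →ₗ[ℝ] ℝ where
  toFun q := q.imI
  map_add' p q := by simp
  map_smul' r q := by simp

/-- entries -/
def entL (i j : Fin 2) : Mat →ₗ[ℝ] ℍ[ℝ] where
  toFun X := X i j
  map_add' _ _ := rfl
  map_smul' _ _ := rfl

/-- `r₀` -/
def c0 : V →L[ℝ] ℝ := LinearMap.toContinuousLinearMap (iL ∘ₗ entL 1 1 ∘ₗ (m 1 3).subtype)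

/-- `P` -/
def cP : V →L[ℝ] ℂ := LinearMap.toContinuousLinearMap (jkL ∘ₗ entL 0 0 ∘ₗ (m 1 3).subtype)

/-- `R` -/
def cR : V →L[ℝ] ℂ := LinearMap.toContinuousLinearMap (jkL ∘ₗ entL 1 1 ∘ₗ (m 1 3).subtype)

/-- `C` -/
def cC : V →L[ℝ] ℂ := LinearMap.toContinuousLinearMap (reL ∘ₗ entL 0 1 ∘ₗ (m 1 3).subtype)

/-- `Q` -/
def cQ : V →L[ℝ] ℂ := LinearMap.toContinuousLinearMap (jkL ∘ₗ entL 0 1 ∘ₗ (m 1 3).subtype)

theorem c0_apply (u : V) : c0 u = ((u : Mat) 1 1).imI := rfl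
theorem cP_apply (u : V) : cP u = ⟨((u : Mat) 0 0).imJ, ((u : Mat) 0 0).imK⟩ := rfl
theorem cR_apply (u : V) : cR u = ⟨((u : Mat) 1 1).imJ, ((u : Mat) 1 1).imK⟩ := rfl
theorem cC_apply (u : V) : cC u = ⟨((u : Mat) 0 1).re, ((u : Mat) 0 1).imI⟩ := rfl
theorem cQ_apply (u : V) : cQ u = ⟨((u : Mat) 0 1).imJ, ((u : Mat) 0 1).imK⟩ := rfl

/-- a quaternion with given components -/
def qt (a b c d : ℝ) : ℍ[ℝ] := ⟨a, b, c, d⟩

@[simp] theorem qt_re (a b c d : ℝ) : (qt a b c d).re = a := rfl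
@[simp] theorem qt_imI (a b c d : ℝ) : (qt a b c d).imI = b := rfl
@[simp] theorem qt_imJ (a b c d : ℝ) : (qt a b c d).imJ = c := rfl
@[simp] theorem qt_imK (a b c d : ℝ) : (qt a b c d).imK = d := rfl

/-- the matrix with given coordinates -/
def mkMat (r : ℝ) (P R C Q : ℂ) : Mat :=
  !![qt 0 (-3 * r) P.re P.im, qt C.re C.im Q.re Q.im;
    qt (-C.re) C.im Q.re Q.im, qt 0 r R.re R.im]

/-- the vector with given coordinates -/
def mkV (r : ℝ) (P R C Q : ℂ) : V := ⟨mkMat r P R C Q, by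
  refine ⟨?_, ?_⟩
  · ext i j : 1
    rw [Matrix.star_apply, Matrix.neg_apply]
    fin_cases i <;> fin_cases j <;> ext <;> simp [mkMat]
  · simp [mkMat]⟩

theorem mkV_coe (r : ℝ) (P R C Q : ℂ) : (mkV r P R C Q : Mat) = mkMat r P R C Q := rfl

@[simp] theorem c0_mk (r : ℝ) (P R C Q : ℂ) : c0 (mkV r P R C Q) = r := rfl
@[simp] theorem cP_mk (r : ℝ) (P R C Q : ℂ) : cP (mkV r P R C Q) = P := rfl
@[simp] theorem cR_mk (r : ℝ) (P R C Q : ℂ) : cR (mkV r P R C Q) = R := rfl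
@[simp] theorem cC_mk (r : ℝ) (P R C Q : ℂ) : cC (mkV r P R C Q) = C := rfl
@[simp] theorem cQ_mk (r : ℝ) (P R C Q : ℂ) : cQ (mkV r P R C Q) = Q := rfl

theorem coords (u : V) : u = mkV (c0 u) (cP u) (cR u) (cC u) (cQ u) := by
  obtain ⟨h1, h2⟩ := u.2
  have e00 := congrFun (congrFun h1 0) 0
  have e11 := congrFun (congrFun h1 1) 1
  have e01 := congrFun (congrFun h1 0) 1
  rw [Matrix.star_apply, Matrix.neg_apply] at e00 e11 e01
  have a0 := congrArg QuaternionAlgebra.re e00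
  have a1 := congrArg QuaternionAlgebra.re e11
  have b0 := congrArg QuaternionAlgebra.re e01
  have b1 := congrArg QuaternionAlgebra.imI e01
  have b2 := congrArg QuaternionAlgebra.imJ e01
  have b3 := congrArg QuaternionAlgebra.imK e01
  simp at a0 a1 b0 b1 b2 b3 h2
  apply Subtype.ext
  rw [mkV_coe]
  ext i j : 1
  fin_cases i <;> fin_cases j <;> ext <;>
    simp [mkMat, c0_apply, cP_apply, cR_apply, cC_apply, cQ_apply] <;> linarith

theorem ext_coords {u v : V} (h0 : c0 u = c0 v) (hP : cP u = cP v) (hR : cR u = cR v)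
    (hC : cC u = cC v) (hQ : cQ u = cQ v) : u = v := by
  rw [coords u, coords v, h0, hP, hR, hC, hQ]

/-- real part of the Hermitian product -/
def rip (z w : ℂ) : ℝ := z.re * w.re + z.im * w.im

theorem QQ_coords (u v : V) : QQ (u : Mat) v = 10 * (c0 u * c0 v) + rip (cP u) (cP v)
    + rip (cR u) (cR v) + 2 * rip (cC u) (cC v) + 2 * rip (cQ u) (cQ v) := by
  rw [coords u, coords v]
  simp only [c0_mk, cP_mk, cR_mk, cC_mk, cQ_mk, mkV_coe, rip]
  rw [Pool.Agent.helper79.FR.Sp2.QQ_apply, Pool.Agent.helper79.FR.Sp2.retr_apply]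
  simp [mkMat, Matrix.mul_apply, Fin.sum_univ_two, Quaternion.re_mul]
  ring

theorem PP_gg {Z : Mat} (hZ : Z ∈ gg) :
    (PP 1 3 Z : Mat) = Z - (QQ Z (h0 1 3) / 10) • h0 1 3 := by
  rw [Pool.Agent.helper79.FR.Sp2.PP_coe, Pool.Agent.helper79.FR.Sp2.half_sub_star hZ,
    Pool.Agent.helper79.FR.Sp2.QQ_h0_h0]
  norm_num

theorem lie_mem (X Y : V) : ⁅(X : Mat), (Y : Mat)⁆ ∈ gg :=
  Pool.Agent.helper79.FR.Sp2.lie_gg X.2.1 Y.2.1

/-- the `𝔪`-part of the bracket -/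
def br (X Y : V) : V := PP 1 3 ⁅(X : Mat), (Y : Mat)⁆

/-- `[h₀, X]` -/
def rt (X : V) : V := PP 1 3 ⁅h0 1 3, (X : Mat)⁆

theorem h0_01 (i j : Fin 2) (h : i ≠ j) : h0 1 3 i j = 0 := by
  unfold h0
  rw [Matrix.diagonal_apply_ne _ h]

theorem h0_00 : h0 1 3 0 0 = qt 0 1 0 0 := by
  unfold h0
  rw [Matrix.diagonal_apply_eq]
  ext <;> simp

theorem h0_11 : h0 1 3 1 1 = qt 0 3 0 0 := by
  unfold h0
  rw [Matrix.diagonal_apply_eq]
  ext <;> simp

theorem h0_mat : h0 1 3 = !![qt 0 1 0 0, 0; 0, qt 0 3 0 0] := by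
  ext i j : 1
  fin_cases i <;> fin_cases j
  · exact h0_00
  · exact h0_01 0 1 (by decide)
  · exact h0_01 1 0 (by decide)
  · exact h0_11

theorem PP_entries {Z : Mat} (hZ : Z ∈ gg) :
    cP (PP 1 3 Z) = ⟨(Z 0 0).imJ, (Z 0 0).imK⟩ ∧ cR (PP 1 3 Z) = ⟨(Z 1 1).imJ, (Z 1 1).imK⟩ ∧
    cC (PP 1 3 Z) = ⟨(Z 0 1).re, (Z 0 1).imI⟩ ∧ cQ (PP 1 3 Z) = ⟨(Z 0 1).imJ, (Z 0 1).imK⟩ ∧
    c0 (PP 1 3 Z) = ((Z 1 1).imI - 3 * (Z 0 0).imI) / 10 := by
  refine ⟨?_, ?_, ?_, ?_, ?_⟩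
  · rw [cP_apply, PP_gg hZ]
    simp [h0_00]
  · rw [cR_apply, PP_gg hZ]
    simp [h0_11]
  · rw [cC_apply, PP_gg hZ]
    simp [h0_01]
  · rw [cQ_apply, PP_gg hZ]
    simp [h0_01]
  · rw [c0_apply, PP_gg hZ, Pool.Agent.helper79.FR.Sp2.QQ_h0']
    simp [h0_11]
    ring

theorem br_P (X Y : V) : cP (br X Y) =
    -6 * Complex.I * (c0 X * cP Y - c0 Y * cP X) + 2 * (cC X * cQ Y - cC Y * cQ X) := by
  rw [br, (PP_entries (lie_mem X Y)).1, coords X, coords Y]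
  simp only [c0_mk, cP_mk, cC_mk, cQ_mk, mkV_coe, Ring.lie_def]
  apply Complex.ext <;>
    simp [mkMat, Quaternion.imJ_mul, Quaternion.imK_mul] <;>
    ring

theorem br_R (X Y : V) : cR (br X Y) =
    2 * Complex.I * (c0 X * cR Y - c0 Y * cR X)
      + 2 * (conj (cC Y) * cQ X - conj (cC X) * cQ Y) := by
  rw [br, (PP_entries (lie_mem X Y)).2.1, coords X, coords Y]
  simp only [c0_mk, cR_mk, cC_mk, cQ_mk, mkV_coe, Ring.lie_def]
  apply Complex.ext <;>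
    simp [mkMat, Quaternion.imJ_mul, Quaternion.imK_mul] <;>
    ring

theorem br_C (X Y : V) : cC (br X Y) =
    -4 * Complex.I * (c0 X * cC Y - c0 Y * cC X)
      - (cP X * conj (cQ Y) - cP Y * conj (cQ X)) - (cQ X * conj (cR Y) - cQ Y * conj (cR X)) := by
  rw [br, (PP_entries (lie_mem X Y)).2.2.1, coords X, coords Y]
  simp only [c0_mk, cP_mk, cR_mk, cC_mk, cQ_mk, mkV_coe, Ring.lie_def]
  apply Complex.ext <;>
    simp [mkMat, Quaternion.re_mul, Quaternion.imI_mul] <;>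
    ring

theorem br_Q (X Y : V) : cQ (br X Y) =
    -2 * Complex.I * (c0 X * cQ Y - c0 Y * cQ X)
      + (cP X * conj (cC Y) - cP Y * conj (cC X)) + (cC X * cR Y - cC Y * cR X) := by
  rw [br, (PP_entries (lie_mem X Y)).2.2.2.1, coords X, coords Y]
  simp only [c0_mk, cP_mk, cR_mk, cC_mk, cQ_mk, mkV_coe, Ring.lie_def]
  apply Complex.ext <;>
    simp [mkMat, Quaternion.imJ_mul, Quaternion.imK_mul] <;>
    ring

/-- imaginary part of the Hermitian product `z w*` -/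
def imp (z w : ℂ) : ℝ := z.im * w.re - z.re * w.im

theorem br_0 (X Y : V) : c0 (br X Y) =
    (4 * imp (cC X) (cC Y) + 2 * imp (cQ X) (cQ Y) - imp (cR X) (cR Y)
      + 3 * imp (cP X) (cP Y)) / 5 := by
  rw [br, (PP_entries (lie_mem X Y)).2.2.2.2, coords X, coords Y]
  simp only [cP_mk, cR_mk, cC_mk, cQ_mk, mkV_coe, Ring.lie_def, imp]
  simp [mkMat, Quaternion.imI_mul]
  ring

/-- the `𝔥`-part of the bracket -/
theorem br_h (X Y : V) : QQ ⁅(X : Mat), (Y : Mat)⁆ (h0 1 3) =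
    4 * imp (cC X) (cC Y) - 8 * imp (cQ X) (cQ Y) - 6 * imp (cR X) (cR Y)
      - 2 * imp (cP X) (cP Y) := by
  rw [Pool.Agent.helper79.FR.Sp2.QQ_h0', coords X, coords Y]
  simp only [cP_mk, cR_mk, cC_mk, cQ_mk, mkV_coe, Ring.lie_def, imp]
  simp [mkMat, Quaternion.imI_mul]
  ring

theorem lie_coe (X Y : V) : ⁅(X : Mat), (Y : Mat)⁆ =
    (br X Y : Mat) + (QQ ⁅(X : Mat), (Y : Mat)⁆ (h0 1 3) / 10) • h0 1 3 := by
  rw [br, PP_gg (lie_mem X Y)]
  module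

theorem lie_eq_zero_iff (X Y : V) : ⁅(X : Mat), (Y : Mat)⁆ = 0 ↔
    br X Y = 0 ∧ QQ ⁅(X : Mat), (Y : Mat)⁆ (h0 1 3) = 0 := by
  constructor
  · intro h
    refine ⟨?_, ?_⟩
    · rw [br, h, map_zero]
    · rw [h, map_zero, LinearMap.zero_apply]
  · rintro ⟨h1, h2⟩
    rw [lie_coe, h1, h2]
    simp

theorem rt_eq (X : V) : rt X = mkV 0 (2 * Complex.I * cP X) (6 * Complex.I * cR X)
    (-2 * Complex.I * cC X) (4 * Complex.I * cQ X) := by
  have hg : ⁅h0 1 3, (X : Mat)⁆ ∈ gg :=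
    Pool.Agent.helper79.FR.Sp2.lie_gg Pool.Agent.helper79.FR.Sp2.star_h0 X.2.1
  have h := PP_entries hg
  apply ext_coords
  · rw [rt, h.2.2.2.2, coords X, h0_mat]
    simp only [mkV_coe, Ring.lie_def, c0_mk]
    simp [mkMat, Quaternion.imI_mul]
  · rw [rt, h.1, coords X, h0_mat]
    simp only [mkV_coe, Ring.lie_def, cP_mk]
    apply Complex.ext <;>
    simp [mkMat, Quaternion.imJ_mul, Quaternion.imK_mul] <;> ring
  · rw [rt, h.2.1, coords X, h0_mat]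
    simp only [mkV_coe, Ring.lie_def, cR_mk]
    apply Complex.ext <;>
    simp [mkMat, Quaternion.imJ_mul, Quaternion.imK_mul] <;> ring
  · rw [rt, h.2.2.1, coords X, h0_mat]
    simp only [mkV_coe, Ring.lie_def, cC_mk]
    apply Complex.ext <;>
    simp [mkMat, Quaternion.re_mul, Quaternion.imI_mul] <;> ring
  · rw [rt, h.2.2.2.1, coords X, h0_mat]
    simp only [mkV_coe, Ring.lie_def, cQ_mk]
    apply Complex.ext <;>
    simp [mkMat, Quaternion.imJ_mul, Quaternion.imK_mul] <;> ring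

end Pool.Agent.FL.S1
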