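import Pool.Agent.FL.Par
import Pool.Agent.FL.S1Core
import Pool.Agent.FL.D
import Pool.Agent.helper75.FL.EvE2

/-!
# MP_f09395_gt, space (1), module M3

For almost all parameters no flag with `G u`, `c u = c₀` (`c₀² ≠ 1`) has `e(u) = 0`.
-/

set_option linter.unusedSectionVars false

noncomputable section

namespace Pool.Agent.FL

open scoped ContDiff
open Pool.Agent.Helper93.Fin Pool.Agent.helper79.FP Pool.Agent.helper79.FR
open Pool.Agent.helper75.FL (ee)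
open Pool.Agent.helper90.FL (Negl)
open Filter Topology Module

section Abstract

variable {𝔸 : Type*} [NormedRing 𝔸] [NormedAlgebra ℝ 𝔸] [FiniteDimensional ℝ 𝔸]
variable {g h m : Submodule ℝ 𝔸} {Q : 𝔸 →ₗ[ℝ] 𝔸 →ₗ[ℝ] ℝ} {P : 𝔸 →L[ℝ] m}
variable {h0 : 𝔸} {B : m → 𝔸} {c : m → ℝ}

theorem M3_lsub (X Y Z : 𝔸) : ⁅X, Y - Z⁆ = ⁅X, Y⁆ - ⁅X, Z⁆ := by
  simp only [Ring.lie_def, mul_sub, sub_mul]; abel

theorem M3_ladd (X Y Z : 𝔸) : ⁅X, Y + Z⁆ = ⁅X, Y⁆ + ⁅X, Z⁆ := by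
  simp only [Ring.lie_def, mul_add, add_mul]; abel

theorem M3_lsmul (r : ℝ) (X Y : 𝔸) : ⁅X, r • Y⁆ = r • ⁅X, Y⁆ := by
  simp only [Ring.lie_def, mul_smul_comm, smul_mul_assoc, smul_sub]

theorem M3_lself (X : 𝔸) : ⁅X, X⁆ = 0 := by
  simp only [Ring.lie_def, sub_self]

/-- the centraliser of `u` in `𝔪` at a regular flag -/
theorem M3_cent (hN : NData g h m Q P) (hC : Cas g h m Q P h0 B c) {u b x : m}
    (hF : Flag Q u b) (hw : Q (B u) b ≠ 0) (hx : ⁅(u : 𝔸), (x : 𝔸)⁆ = 0) :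
    ∃ s t : ℝ, x = s • u + t • b := by
  obtain ⟨y, hy⟩ : ∃ y : m, y = x - (Q (u : 𝔸) x) • u := ⟨_, rfl⟩
  have hy1 : Q (u : 𝔸) y = 0 := by
    rw [hy, Submodule.coe_sub, map_sub, Submodule.coe_smul, map_smul, hF.1, smul_eq_mul,
      mul_one, sub_self]
  have hy2 : ⁅(u : 𝔸), (y : 𝔸)⁆ = 0 := by
    rw [hy, Submodule.coe_sub, Submodule.coe_smul, M3_lsub, M3_lsmul, hx, M3_lself, smul_zero,
      sub_zero]
  by_cases hz : y = 0
  · refine ⟨Q (u : 𝔸) x, 0, ?_⟩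
    rw [zero_smul, add_zero]
    rw [hy] at hz
    exact sub_eq_zero.1 hz
  have hpos := Qm_pos hN hz
  obtain ⟨r, hr⟩ : ∃ r : ℝ, r = (Real.sqrt (Q (y : 𝔸) y))⁻¹ := ⟨_, rfl⟩
  have hs0 : Real.sqrt (Q (y : 𝔸) y) ≠ 0 := (Real.sqrt_pos.2 hpos).ne'
  have hr0 : r ≠ 0 := by rw [hr]; exact inv_ne_zero hs0
  have hr2 : r * (r * Q (y : 𝔸) y) = 1 := by
    have h1 : Real.sqrt (Q (y : 𝔸) y) * Real.sqrt (Q (y : 𝔸) y) = Q (y : 𝔸) y :=
      Real.mul_self_sqrt hpos.le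
    rw [hr]
    field_simp
    nlinarith
  have hFy : Flag Q u (r • y) := by
    refine ⟨hF.1, ?_, ?_, ?_⟩
    · rw [Submodule.coe_smul, map_smul, map_smul, LinearMap.smul_apply, smul_eq_mul, smul_eq_mul,
        hr2]
    · rw [Submodule.coe_smul, map_smul, hy1, smul_zero]
    · rw [Submodule.coe_smul, M3_lsmul, hy2, smul_zero]
  have h1 := hC.flat u b hF
  have h2 := hC.flat u _ hFy
  obtain ⟨w', hw'⟩ : ∃ w' : ℝ, w' = Q (B u) ((r • y : m) : 𝔸) := ⟨_, rfl⟩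
  rw [← hw'] at h2
  have h3 : (Q (B u) b) • b = w' • (r • y) := by
    refine Subtype.ext ?_
    rw [Submodule.coe_smul, Submodule.coe_smul, ← h1, ← h2]
  have hw0 : w' ≠ 0 := by
    rintro rfl
    rw [zero_smul, smul_eq_zero] at h3
    rcases h3 with h3 | h3
    · exact hw h3
    · have := hF.2.1
      rw [h3] at this
      simp at this
  refine ⟨Q (u : 𝔸) x, (w' * r)⁻¹ * Q (B u) b, ?_⟩
  have h4 : y = ((w' * r)⁻¹ * Q (B u) b) • b := by
    rw [mul_smul, h3, ← mul_smul w' r y, inv_smul_smul₀ (mul_ne_zero hw0 hr0)]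
  rw [← h4, hy]
  abel

/-- the bracket with `u`, projected to `𝔪` -/
def M3T (P : 𝔸 →L[ℝ] m) (u : m) : m →ₗ[ℝ] m where
  toFun x := P ⁅(u : 𝔸), (x : 𝔸)⁆
  map_add' x y := by rw [Submodule.coe_add, M3_ladd, map_add]
  map_smul' r x := by rw [Submodule.coe_smul, M3_lsmul, map_smul, RingHom.id_apply]

theorem M3T_apply (u x : m) : M3T P u x = P ⁅(u : 𝔸), (x : 𝔸)⁆ := rfl

/-- `P[u, x] = 0` and `x ⊥ [h₀, u]` imply that `x` commutes with `u` -/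
theorem M3_comm (hN : NData g h m Q P) (hC : Cas g h m Q P h0 B c) {u x : m}
    (h1 : P ⁅(u : 𝔸), (x : 𝔸)⁆ = 0) (h2 : Q (P ⁅h0, (u : 𝔸)⁆ : 𝔸) x = 0) :
    ⁅(u : 𝔸), (x : 𝔸)⁆ = 0 := by
  rw [h0b_mem hN hC, hN.Qinv] at h2
  rw [← mem_m_of_h0 hN hC (lm hN u x) h2, h1]
  rfl

/-- **rank in the direction of the parameters** -/
theorem M3_rank (hN : NData g h m Q P) (hC : Cas g h m Q P h0 B c) {u b : m}
    (hF : Flag Q u b) (hw : Q (B u) b ≠ 0) {ι : Type*} [Fintype ι] {x : ι → m}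
    (hsp : ∀ y : m, Q (P ⁅h0, (u : 𝔸)⁆ : 𝔸) y = 0 → ∃ q : ι → ℝ, y = ∑ i, q i • x i)
    {K : (ι → ℝ) →ₗ[ℝ] m} (hK : ∀ q, K q = ∑ i, q i • P ⁅(u : 𝔸), (x i : 𝔸)⁆) :
    finrank ℝ m - 3 ≤ finrank ℝ (LinearMap.range K) := by
  obtain ⟨W, hW⟩ : ∃ W : Submodule ℝ m, W = LinearMap.ker ((BN m Q (P ⁅h0, (u : 𝔸)⁆) :
    m →L[ℝ] ℝ) : m →ₗ[ℝ] ℝ) := ⟨_, rfl⟩
  have hWm : ∀ y : m, y ∈ W ↔ Q (P ⁅h0, (u : 𝔸)⁆ : 𝔸) y = 0 := by
    intro y
    rw [hW, LinearMap.mem_ker]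
    exact Iff.rfl
  have d1 : finrank ℝ m ≤ finrank ℝ W + 1 := by
    have h1 := LinearMap.finrank_range_add_finrank_ker ((BN m Q (P ⁅h0, (u : 𝔸)⁆) :
      m →L[ℝ] ℝ) : m →ₗ[ℝ] ℝ)
    rw [← hW] at h1
    have h2 := Submodule.finrank_le (LinearMap.range ((BN m Q (P ⁅h0, (u : 𝔸)⁆) :
      m →L[ℝ] ℝ) : m →ₗ[ℝ] ℝ))
    rw [finrank_self] at h2
    omega
  have d2 : finrank ℝ (LinearMap.ker ((M3T P u).domRestrict W)) ≤ 2 := by
    classical
    have h1 : finrank ℝ ((LinearMap.ker ((M3T P u).domRestrict W)).map W.subtype) =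
        finrank ℝ (LinearMap.ker ((M3T P u).domRestrict W)) :=
      Submodule.finrank_map_subtype_eq _ _
    rw [← h1]
    have h2 : (LinearMap.ker ((M3T P u).domRestrict W)).map W.subtype ≤
        Submodule.span ℝ ((({u, b} : Finset m)) : Set m) := by
      rintro _ ⟨y, hy, rfl⟩
      have h3 : P ⁅(u : 𝔸), ((y : m) : 𝔸)⁆ = 0 := hy
      obtain ⟨s, t, h4⟩ := M3_cent hN hC hF hw (M3_comm hN hC h3 ((hWm y).1 y.2))
      have h5 : W.subtype y = s • u + t • b := h4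
      rw [h5]
      refine Submodule.add_mem _ (Submodule.smul_mem _ _ (Submodule.subset_span ?_))
        (Submodule.smul_mem _ _ (Submodule.subset_span ?_)) <;> simp
    refine (Submodule.finrank_mono h2).trans ((finrank_span_finset_le_card _).trans ?_)
    exact Finset.card_le_two
  have d3 := LinearMap.finrank_range_add_finrank_ker ((M3T P u).domRestrict W)
  have d4 : LinearMap.range ((M3T P u).domRestrict W) ≤ LinearMap.range K := by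
    rintro _ ⟨y, rfl⟩
    obtain ⟨q, hq⟩ := hsp y ((hWm y).1 y.2)
    refine ⟨q, ?_⟩
    have h1 : (M3T P u).domRestrict W y = M3T P u y := rfl
    rw [hK, h1, hq, map_sum]
    refine Finset.sum_congr rfl fun i _ => ?_
    rw [map_smul, M3T_apply]
  have d5 := Submodule.finrank_mono d4
  omega

/-- triangular systems have full rank -/
theorem M3_tri {E : Type*} [AddCommGroup E] [Module ℝ E] (L : E →ₗ[ℝ] ℝ × ℝ × ℝ × ℝ)
    {a b e k : E} {α β β' γ δ δ' : ℝ} (ha : L a = (α, 0, 0, 0)) (hb : L b = (0, β, β', 0))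
    (he : L e = (0, 0, γ, 0)) (hk : L k = (0, 0, δ', δ)) (h1 : α ≠ 0) (h2 : β ≠ 0) (h3 : γ ≠ 0)
    (h4 : δ ≠ 0) : 4 ≤ finrank ℝ (LinearMap.range L) := by
  have hs : Function.Surjective L := by
    rintro ⟨y1, y2, y3, y4⟩
    refine ⟨(y1 / α) • a + (y2 / β) • b + ((y3 - y2 / β * β' - y4 / δ * δ') / γ) • e +
      (y4 / δ) • k, ?_⟩
    rw [map_add, map_add, map_add, map_smul, map_smul, map_smul, map_smul, ha, hb, he, hk]
    ext
    · simp; field_simp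
    · simp; field_simp
    · simp; field_simp; ring
    · simp; field_simp
  rw [LinearMap.range_eq_top.2 hs, finrank_top]
  simp [finrank_prod]

/-- the Euler field of the perturbed function -/
theorem M3_ee_lin (hN : NData g h m Q P) {ι : Type*} [Fintype ι] {v : m → ℝ} {f : ι → m → ℝ}
    (hv : ContDiffOn ℝ ∞ v {0}ᶜ) (hf : ∀ i, ContDiffOn ℝ ∞ (f i) {0}ᶜ) (p : ι → ℝ) {u : m}
    (hu : u ≠ 0) : ee Q P (fun y => linF v f (p, y)) u =
      ee Q P v u + ∑ i, p i • ee Q P (f i) u := by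
  have h1 : HasFDerivAt (fun y => linF v f (p, y))
      (fderiv ℝ v u + ∑ i, p i • fderiv ℝ (f i) u) u := by
    unfold linF
    refine (dAt hv hu).hasFDerivAt.add (HasFDerivAt.fun_sum fun i _ => ?_)
    exact (dAt (hf i) hu).hasFDerivAt.const_mul (p i)
  have h2 : gx Q (fun y => linF v f (p, y)) u = gx Q v u + ∑ i, p i • gx Q (f i) u := by
    refine rep_unique hN fun w => ?_
    rw [gx_spec hN, D1, h1.fderiv, Submodule.coe_add, map_add, LinearMap.add_apply, gx_spec hN,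
      Submodule.coe_sum, map_sum, LinearMap.sum_apply, _root_.add_apply,
      _root_.sum_apply]
    congr 1
    refine Finset.sum_congr rfl fun i _ => ?_
    rw [Submodule.coe_smul, map_smul, LinearMap.smul_apply, gx_spec hN]
    rfl
  have e : ∀ φ : m → ℝ, ee Q P φ u = M3T P u (gx Q φ u) := fun _ => rfl
  rw [e, e, h2, map_add, map_sum]
  congr 1
  refine Finset.sum_congr rfl fun i _ => ?_
  rw [map_smul, e]

/-- gradients of the family fill `[h₀, u]^⊥` -/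
theorem M3_span (hN : NData g h m Q P) {ι : Type*} [Fintype ι] {f : ι → m → ℝ} {u η : m}
    (hinv : ∀ x : m, (∀ i, D1 (f i) u x = 0) → ∃ t : ℝ, x = t • η) (y : m)
    (hy : Q (η : 𝔸) y = 0) : ∃ q : ι → ℝ, y = ∑ i, q i • gx Q (f i) u := by
  by_contra hcon
  have h1 : y ∉ Submodule.span ℝ (Set.range fun i => gx Q (f i) u) := by
    intro hmem
    obtain ⟨q, hq⟩ := (Submodule.mem_span_range_iff_exists_fun ℝ).1 hmem
    exact hcon ⟨q, hq.symm⟩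
  obtain ⟨L, hL1, hL2⟩ := Submodule.exists_le_ker_of_notMem h1
  obtain ⟨x, hx⟩ : ∃ x : m, x = rep Q (LinearMap.toContinuousLinearMap L) := ⟨_, rfl⟩
  have hxs : ∀ w : m, Q (x : 𝔸) w = L w := fun w => by rw [hx, rep_spec hN]; rfl
  have h2 : ∀ i, D1 (f i) u x = 0 := by
    intro i
    rw [← gx_spec hN, hN.Qsymm, hxs]
    exact hL2 (Submodule.subset_span ⟨i, rfl⟩)
  obtain ⟨t, ht⟩ := hinv x h2
  refine hL1 ?_
  rw [← hxs, ht, Submodule.coe_smul, map_smul, LinearMap.smul_apply, hy, smul_zero]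

/-- **the four equations in `u` are independent** -/
theorem M3_four (hN : NData g h m Q P) (hC : Cas g h m Q P h0 B c) {u b : m}
    (hF : Flag Q u b) (hw : Q (B u) b ≠ 0) {ℓ : m →L[ℝ] ℝ} (hl : ℓ u = 0)
    (hl' : ℓ (P ⁅h0, (u : 𝔸)⁆) ≠ 0)
    (hS2 : ∀ t : ℝ, P ⁅h0, (b : 𝔸)⁆ ≠ t • P ⁅h0, (u : 𝔸)⁆) :
    ∃ ψ' : m →L[ℝ] ℝ × ℝ × ℝ × ℝ,
      HasStrictFDerivAt (fun y : m => (Q (y : 𝔸) y, c y, ℓ y, qc Q h0 B y)) ψ' u ∧
      4 ≤ finrank ℝ (LinearMap.range (ψ' : m →ₗ[ℝ] ℝ × ℝ × ℝ × ℝ)) := by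
  have hu := hF.ne hN
  have hn : ({0}ᶜ : Set m) ∈ 𝓝 u := isOpen_compl_singleton.mem_nhds hu
  obtain ⟨η, hη⟩ : ∃ η : m, η = P ⁅h0, (u : 𝔸)⁆ := ⟨_, rfl⟩
  have hηc : (η : 𝔸) = ⁅h0, (u : 𝔸)⁆ := by rw [hη, h0b_mem hN hC]
  obtain ⟨β, hβ⟩ : ∃ β : m, β = P ⁅h0, (b : 𝔸)⁆ := ⟨_, rfl⟩
  have hβc : (β : 𝔸) = ⁅h0, (b : 𝔸)⁆ := by rw [hβ, h0b_mem hN hC]
  rw [← hη] at hl' hS2
  rw [← hβ] at hS2
  have hη0 : η ≠ 0 := by
    rintro rfl
    exact hl' (map_zero ℓ)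
  have hηη := Qm_pos hN hη0
  have hub : ⁅(b : 𝔸), (u : 𝔸)⁆ = 0 := by rw [skew, hF.2.2.2, neg_zero]
  -- the fourth direction
  obtain ⟨t, ht⟩ : ∃ t : ℝ, t = Q (β : 𝔸) η / Q (η : 𝔸) η := ⟨_, rfl⟩
  obtain ⟨k, hk⟩ : ∃ k : m, k = β - t • η := ⟨_, rfl⟩
  have hk0 : k ≠ 0 := by
    intro h1
    rw [hk] at h1
    exact hS2 t (sub_eq_zero.1 h1)
  have hkk := Qm_pos hN hk0
  have hkη : Q (k : 𝔸) η = 0 := by
    rw [hk, Submodule.coe_sub, Submodule.coe_smul, map_sub, map_smul, LinearMap.sub_apply,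
      LinearMap.smul_apply, smul_eq_mul, ht, div_mul_cancel₀ _ hηη.ne', sub_self]
  have hkβ : Q (β : 𝔸) k = Q (k : 𝔸) k := by
    have h1 : β = k + t • η := by rw [hk]; abel
    conv_lhs => rw [h1]
    rw [Submodule.coe_add, Submodule.coe_smul, map_add, map_smul, LinearMap.add_apply,
      LinearMap.smul_apply, hN.Qsymm (η : 𝔸) k, hkη, smul_zero, add_zero]
  have hkm : (P ⁅(u : 𝔸), (k : 𝔸)⁆ : 𝔸) = ⁅(u : 𝔸), (k : 𝔸)⁆ := by
    refine mem_m_of_h0 hN hC (lm hN u k) ?_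
    rw [← hN.Qinv, ← hηc, hN.Qsymm, hkη]
  -- derivatives
  have s1 : HasStrictFDerivAt (fun y : m => BN m Q y y)
      ((BN m Q u).comp (ContinuousLinearMap.id ℝ m) + (BN m Q).flip u) u :=
    ((BN m Q).hasStrictFDerivAt).clm_apply (hasStrictFDerivAt_id u)
  have s2 : HasStrictFDerivAt c (fderiv ℝ c u) u :=
    (hC.csm.contDiffAt hn).hasStrictFDerivAt (by simp)
  have s3 : HasStrictFDerivAt (fun y : m => ℓ y) ℓ u := ℓ.hasStrictFDerivAt
  have s4 : HasStrictFDerivAt (qc Q h0 B) (fderiv ℝ (qc Q h0 B) u) u :=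
    ((qc_smooth hC).contDiffAt hn).hasStrictFDerivAt (by simp)
  have n1 : ∀ y : m, ((BN m Q u).comp (ContinuousLinearMap.id ℝ m) + (BN m Q).flip u) y =
      2 * Q (u : 𝔸) y := by
    intro y
    rw [_root_.add_apply, ContinuousLinearMap.comp_apply, ContinuousLinearMap.flip_apply,
      ContinuousLinearMap.id_apply, BN_apply, BN_apply, hN.Qsymm (y : 𝔸) u]
    ring
  have n2 : ∀ y : m, fderiv ℝ c u y = -4 * (Q (B u) b * Q (b : 𝔸) y) := by
    intro y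
    have h1 := hC.cD u hu y
    rw [hF.1, mul_one, hC.flat u b hF, map_smul, LinearMap.smul_apply, smul_eq_mul] at h1
    rw [hC.flat u b hF, map_smul, LinearMap.smul_apply, smul_eq_mul, hF.2.1, mul_one]
    exact h1
  have bu : Q (b : 𝔸) u = 0 := by rw [hN.Qsymm, hF.2.2.1]
  refine ⟨_, s1.prodMk (s2.prodMk (s3.prodMk s4)), ?_⟩
  refine M3_tri (a := u) (b := b) (e := η) (k := P ⁅(u : 𝔸), (k : 𝔸)⁆) (α := 2)
    (β := -4 * Q (B u) b) (β' := ℓ b) (γ := ℓ η) (δ := Q (B u) b * Q (k : 𝔸) k)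
    (δ' := ℓ (P ⁅(u : 𝔸), (k : 𝔸)⁆)) _ ?_ ?_ ?_ ?_ two_ne_zero
    (mul_ne_zero (by norm_num) hw) hl' (mul_ne_zero hw hkk.ne')
  · have e4 : fderiv ℝ (qc Q h0 B) u u = 0 := by
      have h1 := qc_euler hC hu
      rw [flag_q hN hC hF] at h1
      exact h1
    refine Prod.ext ?_ (Prod.ext ?_ (Prod.ext ?_ ?_))
    · exact (n1 u).trans (by rw [hF.1, mul_one])
    · exact (n2 u).trans (by rw [bu]; ring)
    · exact hl
    · exact e4
  · refine Prod.ext ?_ (Prod.ext ?_ (Prod.ext ?_ ?_))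
    · exact (n1 b).trans (by rw [hF.2.2.1, mul_zero])
    · exact (n2 b).trans (by rw [hF.2.1]; ring)
    · rfl
    · exact flag_q1 hN hC hF
  · refine Prod.ext ?_ (Prod.ext ?_ (Prod.ext ?_ ?_))
    · exact (n1 η).trans (by rw [hηc, Q_self_lie hN, mul_zero])
    · refine (n2 η).trans ?_
      have h1 : Q (b : 𝔸) η = 0 := by
        rw [hηc, skew, map_neg, ← hN.Qinv, hub]
        simp
      rw [h1]; ring
    · rfl
    · have h1 : P ⁅(u : 𝔸), -h0⁆ = η := by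
        rw [hη]
        congr 1
        simp only [Ring.lie_def]
        noncomm_ring
      have h2 : (-h0 : 𝔸) ∈ g := g.neg_mem (hN.red.h_le hC.mem)
      have h3 := Bequi' hN hC hu h2 (by
        rw [h1, hηc]
        simp only [Ring.lie_def]
        noncomm_ring)
      rw [h1] at h3
      refine h3.trans ?_
      have h4 : ⁅B u, -h0⁆ = ⁅h0, B u⁆ := by
        simp only [Ring.lie_def]
        noncomm_ring
      rw [h4, Q_self_lie' hN]
  · refine Prod.ext ?_ (Prod.ext ?_ (Prod.ext ?_ ?_))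
    · exact (n1 _).trans (by rw [hkm, Q_self_lie' hN, mul_zero])
    · refine (n2 _).trans ?_
      rw [hkm, ← hN.Qinv, hub]
      simp
    · rfl
    · refine (Bequi' hN hC hu (mg hN k) hkm).trans ?_
      rw [hC.flat u b hF, smul_lie', map_smul, smul_eq_mul, ← hN.Qinv, ← hβc, hkβ, map_smul,
        LinearMap.smul_apply, hF.2.1, smul_eq_mul, mul_one]

/-- **M3, abstract form**: `ℓ j` are the gauge functionals (`Im z_j` in space (1)). -/
theorem M3_abs (hN : NData g h m Q P) (hC : Cas g h m Q P h0 B c)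
    {ι κ : Type*} [Fintype ι] [Finite κ] {v : m → ℝ} {f : ι → m → ℝ}
    (hv : PhiN h m P v) (hf : ∀ i, PhiN h m P (f i)) (G : m → Prop) (ℓ : κ → m →L[ℝ] ℝ)
    (hinv : ∀ u, G u → ∀ x : m, (∀ i, D1 (f i) u x = 0) → ∃ t : ℝ, x = t • P ⁅h0, (u : 𝔸)⁆)
    (hS2 : ∀ u b : m, Flag Q u b → ∀ t : ℝ, P ⁅h0, (b : 𝔸)⁆ ≠ t • P ⁅h0, (u : 𝔸)⁆)
    {c₀ : ℝ} (hc : c₀ ^ 2 ≠ 1) :
    Negl {p : ι → ℝ | ∃ u b : m, Flag Q u b ∧ G u ∧ c u = c₀ ∧
      (∃ j, ℓ j u = 0 ∧ ℓ j (P ⁅h0, (u : 𝔸)⁆) ≠ 0) ∧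
      ee Q P (fun y => linF v f (p, y)) u = 0} := by
  classical
  -- one functional
  have key : ∀ L : m →L[ℝ] ℝ, Negl {p : ι → ℝ | ∃ u : m, ∃ b : m, Flag Q u b ∧ G u ∧ c u = c₀ ∧
      (L u = 0 ∧ L (P ⁅h0, (u : 𝔸)⁆) ≠ 0) ∧ ee Q P (fun y => linF v f (p, y)) u = 0} := by
    intro L
    obtain ⟨S, hS⟩ : ∃ S : Set (m × (ι → ℝ)), S = {z | ∃ b : m, Flag Q z.1 b ∧ G z.1 ∧
      c z.1 = c₀ ∧ (L z.1 = 0 ∧ L (P ⁅h0, (z.1 : 𝔸)⁆) ≠ 0) ∧
      ee Q P (fun y => linF v f (z.2, y)) z.1 = 0} := ⟨_, rfl⟩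
    have hΦ : ∀ z ∈ S, ee Q P v z.1 + ∑ i, z.2 i • ee Q P (f i) z.1 = 0 := by
      intro z hz
      rw [hS] at hz
      obtain ⟨b, hF, -, -, -, he⟩ := hz
      rw [← M3_ee_lin hN hv.smooth (fun i => (hf i).smooth) z.2 (hF.ne hN), he]
    have h1 := negl_of_block (S := S) (r := 4) (k := finrank ℝ m - 3)
      (F := m) (G := ℝ × ℝ × ℝ × ℝ) (by omega) (by
      intro z hz
      have hz' := hz
      rw [hS] at hz'
      obtain ⟨b, hF, hG, hcz, ⟨hl, hl'⟩, he⟩ := hz'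
      have hw : Q (B z.1) b ≠ 0 := by
        intro h1
        have h2 := hC.cw z.1 b hF
        rw [h1, hcz] at h2
        exact hc (by linarith)
      have hu := hF.ne hN
      have hn : ({0}ᶜ : Set m) ∈ 𝓝 z.1 := isOpen_compl_singleton.mem_nhds hu
      obtain ⟨ψ', h2, h3⟩ := M3_four hN hC hF hw hl hl' (hS2 z.1 b hF)
      have e1 : HasStrictFDerivAt (fun y => ee Q P v y) (fderiv ℝ (fun y => ee Q P v y) z.1)
          z.1 := ((Pool.Agent.helper75.FL.ee_smooth hN hv.smooth).contDiffAt hn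
            ).hasStrictFDerivAt (by simp)
      have e2 : ∀ i, HasStrictFDerivAt (fun y => ee Q P (f i) y)
          (fderiv ℝ (fun y => ee Q P (f i) y) z.1) z.1 := fun i =>
        ((Pool.Agent.helper75.FL.ee_smooth hN (hf i).smooth).contDiffAt hn
            ).hasStrictFDerivAt (by simp)
      have e3 : ∀ i, HasStrictFDerivAt (fun y : m × (ι → ℝ) => y.2 i)
          ((ContinuousLinearMap.proj (R := ℝ) (φ := fun _ : ι => ℝ) i).comp
            (ContinuousLinearMap.snd ℝ m (ι → ℝ))) z := fun i =>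
        ((ContinuousLinearMap.proj (R := ℝ) (φ := fun _ : ι => ℝ) i).comp
            (ContinuousLinearMap.snd ℝ m (ι → ℝ))).hasStrictFDerivAt
      have e4 := (e1.comp z hasStrictFDerivAt_fst).add (HasStrictFDerivAt.fun_sum
        (u := Finset.univ) fun i _ => (e3 i).smul ((e2 i).comp z hasStrictFDerivAt_fst))
      refine ⟨fun y : m => (Q (y : 𝔸) y, c y, L y, qc Q h0 B y), ψ',
        fun y => ee Q P v y.1 + ∑ i, y.2 i • ee Q P (f i) y.1, _, h2, ?_, h3, e4, ?_, ?_⟩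
      · filter_upwards [self_mem_nhdsWithin] with y hy
        rw [hS] at hy
        obtain ⟨b', hF', -, hcy, ⟨hly, -⟩, -⟩ := hy
        rw [hF'.1, hF.1, hcy, hcz, hly, hl, flag_q hN hC hF', flag_q hN hC hF]
      · filter_upwards [self_mem_nhdsWithin] with y hy
        rw [hΦ y hy, hΦ z hz]
      · refine M3_rank hN hC hF hw (x := fun i => gx Q (f i) z.1)
          (fun y hy => M3_span hN (hinv z.1 hG) y hy) fun q => ?_
        simp
        rfl)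
    refine h1.mono ?_
    rintro p ⟨u, b, hp⟩
    refine ⟨u, ?_⟩
    rw [hS]
    exact ⟨b, hp⟩
  have hfin : Set.Finite (Set.univ : Set κ) := Set.finite_univ
  have h2 := Negl.biUnion hfin.toFinset (B := fun j => {p : ι → ℝ | ∃ u : m, ∃ b : m,
    Flag Q u b ∧ G u ∧ c u = c₀ ∧ (ℓ j u = 0 ∧ ℓ j (P ⁅h0, (u : 𝔸)⁆) ≠ 0) ∧
    ee Q P (fun y => linF v f (p, y)) u = 0}) (fun j _ => key (ℓ j))
  refine h2.mono ?_
  rintro p ⟨u, b, hF, hG, hcu, ⟨j, hj⟩, he⟩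
  rw [Set.mem_iUnion₂]
  exact ⟨j, by simp, u, b, hF, hG, hcu, hj, he⟩

end Abstract

end Pool.Agent.FL
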