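import Pool.Agent.FL.MidG
import Pool.Agent.FL.T3Inv
import Pool.Agent.FL.FDB
import Pool.Agent.helper79.FR.Cont

/-!
# MP_f09395_gt, space (2): invariance under `rotH`, smoothness, continuity (`MidInv_*`)
-/

set_option linter.unusedSectionVars false

noncomputable section

namespace Pool.Agent.FL.S2

open scoped ContDiff Quaternion Matrix
open Pool.Agent.Helper93.Fin Pool.Agent.helper79.FP Pool.Agent.helper79.FR
open Pool.Agent.helper79.FR.Sp2 (Mat QQ h0 m gg hh PP BB cc)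
open Pool.Agent.helper79.FR
open Filter Topology

attribute [local instance] Matrix.linftyOpNormedRing Matrix.linftyOpNormedAlgebra

namespace MidInv

/-! ### the gradient -/

theorem vec3_eq (w : R3) : w = ∑ i, w i • (Pi.single i 1 : R3) := by
  ext j
  simp [Finset.sum_apply, Pi.single_apply]

/-- the gradient property -/
theorem dot9_lin (L : R9 →L[ℝ] ℝ) (w : R9) :
    dot9 ((fun i => L (Pi.single i 1, 0, 0), fun i => L (0, Pi.single i 1, 0),
      fun i => L (0, 0, Pi.single i 1)) : R9) w = L w := by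
  obtain ⟨a, x, y⟩ := w
  have h1 : ((a, x, y) : R9) = ∑ i, a i • ((Pi.single i 1, 0, 0) : R9)
      + ∑ i, x i • ((0, Pi.single i 1, 0) : R9) + ∑ i, y i • ((0, 0, Pi.single i 1) : R9) := by
    refine Prod.ext ?_ (Prod.ext ?_ ?_)
    · ext j
      simp [Prod.fst_sum, Finset.sum_apply, Pi.single_apply]
    · ext j
      simp [Prod.fst_sum, Prod.snd_sum, Finset.sum_apply, Pi.single_apply]
    · ext j
      simp [Prod.snd_sum, Finset.sum_apply, Pi.single_apply]
  conv_rhs => rw [h1]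
  rw [map_add, map_add, map_sum, map_sum, map_sum]
  simp only [map_smul, smul_eq_mul, dot9, dotProduct]
  congr 1
  · congr 1
    · exact Finset.sum_congr rfl fun i _ => mul_comm _ _
    · exact Finset.sum_congr rfl fun i _ => mul_comm _ _
  · exact Finset.sum_congr rfl fun i _ => mul_comm _ _

theorem dot9_grad (f : R9 → ℝ) (u w : R9) : dot9 (grad9 f u) w = fderiv ℝ f u w :=
  dot9_lin (fderiv ℝ f u) w

theorem dot9_nondeg {a b : R9} (h : ∀ w, dot9 a w = dot9 b w) : a = b := by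
  have h1 : ∀ i, a.1 i = b.1 i := fun i => by
    have := h (Pi.single i 1, 0, 0)
    simpa [dot9] using this
  have h2 : ∀ i, a.2.1 i = b.2.1 i := fun i => by
    have := h (0, Pi.single i 1, 0)
    simpa [dot9] using this
  have h3 : ∀ i, a.2.2 i = b.2.2 i := fun i => by
    have := h (0, 0, Pi.single i 1)
    simpa [dot9] using this
  exact Prod.ext (funext h1) (Prod.ext (funext h2) (funext h3))

theorem rotH_surj (t : ℝ) (w : R9) : rotH t (rotH (-t) w) = w := by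
  rw [rotH_rotH, add_neg_cancel, rotH_zero]

/-- the gradient is equivariant -/
theorem grad9_rotH {f : R9 → ℝ} (hf : ∀ (t : ℝ) (u : R9), f (rotH t u) = f u) (t : ℝ) (u : R9) :
    grad9 f (rotH t u) = rotH t (grad9 f u) := by
  refine dot9_nondeg fun w => ?_
  rw [dot9_grad, ← rotH_surj t w, FDB.fd_rotH hf, dot9_rotH, dot9_grad]

theorem eM_rotH {f : R9 → ℝ} (hf : ∀ (t : ℝ) (u : R9), f (rotH t u) = f u) (t : ℝ) (u : R9) :
    eM f (rotH t u) = rotH t (eM f u) := by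
  unfold eM
  rw [grad9_rotH hf, br_rotH]

/-- transport of derivatives along a linear equivalence -/
theorem fd_equiv' {g g' : R9 → ℝ} (L : R9 ≃L[ℝ] R9) (h : ∀ u, g (L u) = g' u) (u w : R9) :
    fderiv ℝ g (L u) (L w) = fderiv ℝ g' u w := by
  have h1 : g ∘ L = g' := funext h
  have h2 := L.comp_right_fderiv (f := g) (x := u)
  rw [h1] at h2
  rw [h2]
  rfl

/-! ### smoothness -/

theorem fdc_smooth {f : R9 → ℝ} (hf : ContDiffOn ℝ ∞ f {0}ᶜ) :
    ContDiffOn ℝ ∞ (fderiv ℝ f) {0}ᶜ :=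
  ((contDiffOn_infty_iff_fderiv_of_isOpen isOpen_compl_singleton).1 hf).2

theorem grad9_smooth {f : R9 → ℝ} (hf : ContDiffOn ℝ ∞ f {0}ᶜ) :
    ContDiffOn ℝ ∞ (grad9 f) {0}ᶜ := by
  have h := fdc_smooth hf
  refine ContDiffOn.prodMk ?_ (ContDiffOn.prodMk ?_ ?_)
  · exact contDiffOn_pi.2 fun i => h.clm_apply contDiffOn_const
  · exact contDiffOn_pi.2 fun i => h.clm_apply contDiffOn_const
  · exact contDiffOn_pi.2 fun i => h.clm_apply contDiffOn_const

theorem br_smooth {E : Type*} [NormedAddCommGroup E] [NormedSpace ℝ E] {U : Set E} {f g : E → R9}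
    (hf : ContDiffOn ℝ ∞ f U) (hg : ContDiffOn ℝ ∞ g U) :
    ContDiffOn ℝ ∞ (fun z => br (f z) (g z)) U :=
  ((((FT0.cross_smooth hf.fst hg.fst).add (FT0.cross_smooth hf.snd.fst hg.snd.fst)).add
    (FT0.cross_smooth hf.snd.snd hg.snd.snd))).prodMk
    (((FT0.cross_smooth hf.fst hg.snd.fst).sub (FT0.cross_smooth hg.fst hf.snd.fst)).prodMk
      ((FT0.cross_smooth hf.fst hg.snd.snd).sub (FT0.cross_smooth hg.fst hf.snd.snd)))

theorem eM_smooth {f : R9 → ℝ} (hf : ContDiffOn ℝ ∞ f {0}ᶜ) : ContDiffOn ℝ ∞ (eM f) {0}ᶜ :=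
  br_smooth contDiffOn_id (grad9_smooth hf)

end MidInv

open MidInv

theorem MidInv_ED_smooth {v f : R9 → ℝ} (hv : PhiM v) (hf : ContDiffOn ℝ ∞ f {0}ᶜ) :
    ContDiffOn ℝ ∞ (ED v f) {0}ᶜ :=
  (fdc_smooth hf).clm_apply (eM_smooth hv.smooth)

theorem MidInv_ED {v f : R9 → ℝ} (hv : PhiM v) (hf : ∀ (t : ℝ) (u : R9), f (rotH t u) = f u)
    (t : ℝ) (u : R9) : ED v f (rotH t u) = ED v f u := by
  unfold ED
  rw [eM_rotH hv.inv, FDB.fd_rotH hf]

theorem MidInv_alM {v : R9 → ℝ} (hv : PhiM v) (t : ℝ) (u b : R9) :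
    alM v (rotH t u) (rotH t b) = alM v u b := FDB.alM_rotH hv t u b

theorem MidInv_a2M {v : R9 → ℝ} (hv : PhiM v) (t : ℝ) {u : R9} (_hu : u ≠ 0) (b : R9) :
    a2M v (rotH t u) (rotH t b) = a2M v u b := by
  unfold a2M
  have h1 : fderiv ℝ (fun y => fderiv ℝ v y (rot (rotH t b))) (rotH t u) (eM v (rotH t u))
      = fderiv ℝ (fun y => fderiv ℝ v y (rot b)) u (eM v u) := by
    rw [eM_rotH hv.inv]
    refine fd_equiv' (FDB.rotE t) (fun y => ?_) u (eM v u)
    rw [FDB.rotE_apply, ← rotH_rot, FDB.fd_rotH hv.inv]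
  rw [h1, grad9_rotH hv.inv, br_rotH, ← rotH_rot, FDB.fd_rotH hv.inv]

theorem MidInv_aa (t : ℝ) (u : R9) : aa (rotH t u) = aa u := rfl

theorem MidInv_T3C {v : R9 → ℝ} (hv : PhiM v) (t : ℝ) {u b : R9} (hF : Flg u b) :
    T3C v (rotH t u) (rotH t b) = T3C v u b := by
  obtain ⟨k, hk, hkA⟩ := Adj_iota' t
  obtain ⟨h1, h2⟩ := phiN_toM hv
  have hu : iota u ≠ 0 := by
    intro h
    have := iota.injective (h.trans (map_zero iota).symm)
    exact hF.ne this
  have e : ∀ w : R9, adM (PP 1 1) k (iota w) = iota (rotH t w) := fun w =>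
    (adM_apply (PP 1 1) k (iota w)).trans
      ((congrArg (PP 1 1) (hkA w)).trans (PP_iota (rotH t w)))
  unfold T3C
  rw [← e, ← e]
  exact Pool.Agent.FL.T3Inv_T3F nData2 cas2 grpD2 h1.smooth h2 hk hu (iota b)

theorem MidInv.T3_aux {v : R9 → ℝ} (hv : PhiM v) :
    ContinuousOn (fun p : m 1 1 × m 1 1 => T3F Q2 (PP 1 1) (toM v) p.1 p.2) {p | p.1 ≠ 0} :=
  T3F_cont nData2 (phiN_toM hv).1.smooth (fun _ hp => hp)

theorem MidInv.iota_ne {u : R9} (hu : u ≠ 0) : iota u ≠ 0 :=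
  fun h => hu ((map_eq_zero_iff iota iota.injective).1 h)

theorem MidInv.iota2_cont :
    Continuous (fun k : R9 × R9 => ((iota k.1, iota k.2) : m 1 1 × m 1 1)) :=
  (iota.continuous.comp continuous_fst).prodMk (iota.continuous.comp continuous_snd)

theorem MidInv.iota2_maps : Set.MapsTo (fun k : R9 × R9 => ((iota k.1, iota k.2) : m 1 1 × m 1 1))
    {k | k.1 ≠ 0} {p | p.1 ≠ 0} := fun _ hk => iota_ne hk

/-- continuity of `T3C` and `a2M` in `(u, b)` -/
theorem MidInv_T3C_cont {v : R9 → ℝ} (hv : PhiM v) :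
    ContinuousOn (fun k : R9 × R9 => T3C v k.1 k.2) {k | k.1 ≠ 0} := by
  have h := ContinuousOn.comp (g := fun p : m 1 1 × m 1 1 => T3F Q2 (PP 1 1) (toM v) p.1 p.2)
    (T3_aux hv) iota2_cont.continuousOn iota2_maps
  have e : (fun k : R9 × R9 => T3C v k.1 k.2) =
      (fun p : m 1 1 × m 1 1 => T3F Q2 (PP 1 1) (toM v) p.1 p.2)
        ∘ (fun k : R9 × R9 => ((iota k.1, iota k.2) : m 1 1 × m 1 1)) := by
    funext k
    unfold T3C
    rfl
  rw [e]
  exact h

theorem MidInv.rot_smooth : ContDiff ℝ ∞ rot :=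
  contDiff_const.prodMk (contDiff_snd.snd.neg.prodMk contDiff_snd.fst)

theorem MidInv.a2M_eq {v : R9 → ℝ} (hv : ContDiffOn ℝ ∞ v {0}ᶜ) {u : R9} (hu : u ≠ 0) (b : R9) :
    a2M v u b = fderiv ℝ (fderiv ℝ v) u (eM v u) (rot b)
      + fderiv ℝ v u (rot (br b (grad9 v u))) := by
  unfold a2M
  congr 1
  have hd : DifferentiableAt ℝ (fderiv ℝ v) u :=
    ((fdc_smooth hv).contDiffAt (isOpen_compl_singleton.mem_nhds hu)).differentiableAt (by simp)
  have h8 : HasFDerivAt (fun y => fderiv ℝ v y (rot b))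
      ((ContinuousLinearMap.apply ℝ ℝ (rot b)).comp (fderiv ℝ (fderiv ℝ v) u)) u :=
    (ContinuousLinearMap.apply ℝ ℝ (rot b)).hasFDerivAt.comp u hd.hasFDerivAt
  rw [h8.fderiv]
  rfl

theorem MidInv.br_cont : Continuous (fun p : R9 × R9 => br p.1 p.2) :=
  continuousOn_univ.1 (br_smooth (U := Set.univ) contDiffOn_fst contDiffOn_snd).continuousOn

theorem MidInv.comp_fst {F : Type*} [TopologicalSpace F] {g : R9 → F} (hg : ContinuousOn g {0}ᶜ) :
    ContinuousOn (fun k : R9 × R9 => g k.1) {k | k.1 ≠ 0} :=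
  hg.comp continuous_fst.continuousOn fun _ hk => hk

theorem MidInv.fdc2_cont {v : R9 → ℝ} (hv : ContDiffOn ℝ ∞ v {0}ᶜ) :
    ContinuousOn (fderiv ℝ (fderiv ℝ v)) {0}ᶜ :=
  ((contDiffOn_infty_iff_fderiv_of_isOpen isOpen_compl_singleton).1 (fdc_smooth hv)).2.continuousOn

theorem MidInv.c5a {v : R9 → ℝ} (hv : ContDiffOn ℝ ∞ v {0}ᶜ) :
    ContinuousOn (fun k : R9 × R9 => ((k.2, grad9 v k.1) : R9 × R9)) {k | k.1 ≠ 0} :=
  ContinuousOn.prodMk continuous_snd.continuousOn (comp_fst (grad9_smooth hv).continuousOn)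

theorem MidInv.c5b : Continuous (fun p : R9 × R9 => rot (br p.1 p.2)) :=
  Continuous.comp (g := rot) (f := fun p : R9 × R9 => br p.1 p.2) rot_smooth.continuous br_cont

theorem MidInv.c5 {v : R9 → ℝ} (hv : ContDiffOn ℝ ∞ v {0}ᶜ) :
    ContinuousOn (fun k : R9 × R9 => rot (br k.2 (grad9 v k.1))) {k | k.1 ≠ 0} := by
  have h3 := Continuous.comp_continuousOn (g := fun p : R9 × R9 => rot (br p.1 p.2))
    (f := fun k : R9 × R9 => ((k.2, grad9 v k.1) : R9 × R9)) c5b (c5a hv)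
  exact h3

theorem MidInv.c7 {v : R9 → ℝ} (hv : ContDiffOn ℝ ∞ v {0}ᶜ) :
    ContinuousOn (fun k : R9 × R9 => fderiv ℝ (fderiv ℝ v) k.1 (eM v k.1) (rot k.2))
      {k | k.1 ≠ 0} := by
  have h1 : ContinuousOn (fun k : R9 × R9 => fderiv ℝ (fderiv ℝ v) k.1 (eM v k.1)) {k | k.1 ≠ 0} :=
    (comp_fst (fdc2_cont hv)).clm_apply (comp_fst (eM_smooth hv).continuousOn)
  exact h1.clm_apply (rot_smooth.continuous.comp continuous_snd).continuousOn

theorem MidInv_a2M_cont {v : R9 → ℝ} (hv : PhiM v) :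
    ContinuousOn (fun k : R9 × R9 => a2M v k.1 k.2) {k | k.1 ≠ 0} :=
  ((c7 hv.smooth).add ((comp_fst (fdc_smooth hv.smooth).continuousOn).clm_apply
    (c5 hv.smooth))).congr fun k hk => a2M_eq hv.smooth hk k.2

end Pool.Agent.FL.S2
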