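import Pool.Agent.FL.MidG
import Pool.Agent.FL.Parity

/-!
# MP_f09395_gt, space (2): parity of `XD` and of the towers, middle regions
-/

set_option linter.unusedSectionVars false

noncomputable section

namespace Pool.Agent.FL.S2

open scoped ContDiff Matrix
open Filter Topology
open Pool.Agent.helper90.FL

theorem MidPar_sP (z : R6) : sA1 z = sP z := rfl

theorem MidPar_sQ (z : R6) : sA2 z = sQ z := rfl

theorem MidPar_XD_sP {V F : R6 → ℝ} {η : ℝ} (hV : ContDiffOn ℝ ∞ V U6)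
    (hF : ContDiffOn ℝ ∞ F U6) (hVs : ∀ z ∈ U6, V (sP z) = V z)
    (hFs : ∀ z ∈ U6, F (sP z) = η * F z) : ∀ z ∈ U6, XD V F (sP z) = -η * XD V F z := by
  intro z hz
  have h : XD V F (sP z) = -1 * η * XD V F z :=
    XD_par sym6_sA1 (by filter_upwards [FT0.U6_open.mem_nhds hz] with y hy using hVs y hy)
      (by filter_upwards [FT0.U6_open.mem_nhds hz] with y hy using hFs y hy)
      (dif_at FT0.U6_open hF hz)
  rw [h]; ring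

theorem MidPar_XD_sQ {V F : R6 → ℝ} {η : ℝ} (hV : ContDiffOn ℝ ∞ V U6)
    (hF : ContDiffOn ℝ ∞ F U6) (hVs : ∀ z ∈ U6, V (sQ z) = V z)
    (hFs : ∀ z ∈ U6, F (sQ z) = η * F z) : ∀ z ∈ U6, XD V F (sQ z) = η * XD V F z := by
  intro z hz
  have h : XD V F (sQ z) = 1 * η * XD V F z :=
    XD_par sym6_sA2 (by filter_upwards [FT0.U6_open.mem_nhds hz] with y hy using hVs y hy)
      (by filter_upwards [FT0.U6_open.mem_nhds hz] with y hy using hFs y hy)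
      (dif_at FT0.U6_open hF hz)
  rw [h]; ring

theorem MidPar_sq {e η : ℝ} (he : e * e = 1) (hη : η ^ 2 = 1) (j : ℕ) : (e ^ j * η) ^ 2 = 1 := by
  have h1 : (e ^ j) * (e ^ j) = 1 := by rw [← mul_pow, he, one_pow]
  linear_combination η ^ 2 * h1 + hη

/-- every function of the tower `itd (κ XB V) F j` is even or odd -/
theorem MidPar_itd_sP {V F : R6 → ℝ} {η κ : ℝ} (hη : η ^ 2 = 1) (hV : ContDiffOn ℝ ∞ V U6)
    (hF : ContDiffOn ℝ ∞ F U6) (hVs : ∀ z ∈ U6, V (sP z) = V z)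
    (hFs : ∀ z ∈ U6, F (sP z) = η * F z) (j : ℕ) : ∃ η' : ℝ, η' ^ 2 = 1 ∧
    ∀ z ∈ U6, Pool.Agent.helper90.FL.itd (fun z => κ • XB V z) F j (sP z) =
      η' * Pool.Agent.helper90.FL.itd (fun z => κ • XB V z) F j z :=
  ⟨(-1) ^ j * η, MidPar_sq sym6_sA1.ee hη j,
    itd_par_smul sym6_sA1 FT0.U6_open κ hV hF hVs hFs j⟩

theorem MidPar_itd_sQ {V F : R6 → ℝ} {η κ : ℝ} (hη : η ^ 2 = 1) (hV : ContDiffOn ℝ ∞ V U6)
    (hF : ContDiffOn ℝ ∞ F U6) (hVs : ∀ z ∈ U6, V (sQ z) = V z)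
    (hFs : ∀ z ∈ U6, F (sQ z) = η * F z) (j : ℕ) : ∃ η' : ℝ, η' ^ 2 = 1 ∧
    ∀ z ∈ U6, Pool.Agent.helper90.FL.itd (fun z => κ • XB V z) F j (sQ z) =
      η' * Pool.Agent.helper90.FL.itd (fun z => κ • XB V z) F j z :=
  ⟨1 ^ j * η, MidPar_sq sym6_sA2.ee hη j,
    itd_par_smul sym6_sA2 FT0.U6_open κ hV hF hVs hFs j⟩

/-- the same for the field `XB V` -/
theorem MidPar_itd1_sP {V F : R6 → ℝ} {η : ℝ} (hη : η ^ 2 = 1) (hV : ContDiffOn ℝ ∞ V U6)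
    (hF : ContDiffOn ℝ ∞ F U6) (hVs : ∀ z ∈ U6, V (sP z) = V z)
    (hFs : ∀ z ∈ U6, F (sP z) = η * F z) (j : ℕ) : ∃ η' : ℝ, η' ^ 2 = 1 ∧
    ∀ z ∈ U6, itd (XB V) F j (sP z) = η' * itd (XB V) F j z :=
  ⟨(-1) ^ j * η, MidPar_sq sym6_sA1.ee hη j,
    itd_par sym6_sA1 FT0.U6_open hV hF hVs hFs j⟩

theorem MidPar_itd1_sQ {V F : R6 → ℝ} {η : ℝ} (hη : η ^ 2 = 1) (hV : ContDiffOn ℝ ∞ V U6)
    (hF : ContDiffOn ℝ ∞ F U6) (hVs : ∀ z ∈ U6, V (sQ z) = V z)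
    (hFs : ∀ z ∈ U6, F (sQ z) = η * F z) (j : ℕ) : ∃ η' : ℝ, η' ^ 2 = 1 ∧
    ∀ z ∈ U6, itd (XB V) F j (sQ z) = η' * itd (XB V) F j z :=
  ⟨1 ^ j * η, MidPar_sq sym6_sA2.ee hη j,
    itd_par sym6_sA2 FT0.U6_open hV hF hVs hFs j⟩

/-! ### the parity fields of `WallD` -/

/-- wall A, `(p, q) ↦ (-p, q)` -/
theorem MidPar_A_sP : ∃ η : ℝ, η ^ 2 = 1 ∧ ∀ v : R9 → ℝ, PhiM v → ∀ z ∈ U6,
    v (uA (sP z)) = v (uA z) ∧ alM v (uA (sP z)) (b1A (sP z)) = η * alM v (uA z) (b1A z) ∧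
    alM v (uA (sP z)) (b2A (sP z)) = η * alM v (uA z) (b2A z) ∧ omA v (sP z) = - omA v z :=
  ⟨-1, by norm_num, fun v hv z _ => ⟨VA_sA1 hv z, al1A_sA1 hv z, al2A_sA1 hv z, by
    have h := omA_sA1 hv z
    rw [MidPar_sP] at h
    rw [h]; ring⟩⟩

/-- wall A, `(p, q) ↦ (p, -q)` -/
theorem MidPar_A_sQ : ∃ η : ℝ, η ^ 2 = 1 ∧ ∀ v : R9 → ℝ, PhiM v → ∀ z ∈ U6,
    v (uA (sQ z)) = v (uA z) ∧ alM v (uA (sQ z)) (b1A (sQ z)) = η * alM v (uA z) (b1A z) ∧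
    alM v (uA (sQ z)) (b2A (sQ z)) = η * alM v (uA z) (b2A z) ∧ omA v (sQ z) = omA v z :=
  ⟨-1, by norm_num, fun v hv z _ => ⟨VA_sA2 hv z, al1A_sA2 hv z, al2A_sA2 hv z, by
    have h := omA_sA2 hv z
    rw [MidPar_sQ] at h
    rw [h, one_mul]⟩⟩

/-- wall B, `(p, q) ↦ (-p, q)` -/
theorem MidPar_B_sP : ∃ η : ℝ, η ^ 2 = 1 ∧ ∀ v : R9 → ℝ, PhiM v → ∀ z ∈ U6,
    v (uB (sP z)) = v (uB z) ∧ alM v (uB (sP z)) (b1B (sP z)) = η * alM v (uB z) (b1B z) ∧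
    alM v (uB (sP z)) (b2B (sP z)) = η * alM v (uB z) (b2B z) ∧ omB v (sP z) = - omB v z :=
  ⟨1, by norm_num, fun v hv z _ => ⟨VB_sA1 hv z, al1B_sA1 hv z, al2B_sA1 hv z, by
    have h := omB_sA1 hv z
    rw [MidPar_sP] at h
    rw [h]; ring⟩⟩

end Pool.Agent.FL.S2
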