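import Pool.Agent.FL.MidInv
import Pool.Agent.FL.T3CRot
import Pool.Agent.FL.GE5
import Pool.Agent.FL.Par

/-!
# MP_f09395_gt, space (2): the end regions stay good for small parameters (`mid_small`)
-/

set_option linter.unusedSectionVars false

noncomputable section

namespace Pool.Agent.FL.S2

open scoped ContDiff Quaternion Matrix
open Pool.Agent.Helper93.Fin Pool.Agent.helper79.FP Pool.Agent.helper79.FR
open Pool.Agent.helper79.FR.Sp2 (Mat QQ h0 m gg hh PP BB cc)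
open Pool.Agent.helper79.FR
open Filter Topology

attribute [local instance] Matrix.linftyOpNormedRing Matrix.linftyOpNormedAlgebra

namespace MidS

variable {N : ℕ}

/-- the family `v + ∑ τ i ψ i` -/
def fam (v : R9 → ℝ) (ψ : Fin N → R9 → ℝ) (τ : Fin N → ℝ) : R9 → ℝ :=
  fun u => v u + ∑ i, τ i * ψ i u

theorem sumWM {ψ : Fin N → R9 → ℝ} (hψ : ∀ i, WM (ψ i)) (τ : Fin N → ℝ) :
    WM (fun u => ∑ i, τ i * ψ i u) :=
  GE5_WM_sum Finset.univ fun i _ => GE5_WM_smul (τ i) (hψ i)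

theorem phi_add {v n : R9 → ℝ} (hv : PhiM v) (hn : PhiM n) : PhiM (fun u => v u + n u) :=
  ⟨hv.smooth.add hn.smooth, fun r u => by rw [hv.hom, hn.hom]; ring,
    fun t u => by rw [hv.inv, hn.inv]⟩

theorem fam_phi {v : R9 → ℝ} (hv : PhiM v) {ψ : Fin N → R9 → ℝ} (hψ : ∀ i, WM (ψ i))
    (τ : Fin N → ℝ) : PhiM (fam v ψ τ) :=
  phi_add hv (sumWM hψ τ).phi

theorem fam_zero (v : R9 → ℝ) (ψ : Fin N → R9 → ℝ) : fam v ψ 0 = v := by
  funext u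
  simp [fam]

theorem fam_alM {v : R9 → ℝ} (hv : PhiM v) {ψ : Fin N → R9 → ℝ} (hψ : ∀ i, WM (ψ i))
    (τ : Fin N → ℝ) {u b : R9} (h : Flg u b) : alM (fam v ψ τ) u b = alM v u b := by
  have hu := GE5_ne h
  have h1 := (GE5_dAt hv.smooth hu).hasFDerivAt.add
    (GE5_dAt (sumWM hψ τ).phi.smooth hu).hasFDerivAt
  have h2 : fderiv ℝ (fam v ψ τ) u = fderiv ℝ v u + fderiv ℝ (fun u => ∑ i, τ i * ψ i u) u :=
    h1.fderiv
  rw [alM, h2, add_apply]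
  have e1 := (sumWM hψ τ).al u b h
  unfold alM at e1
  rw [e1, add_zero]
  rfl

theorem fam_KW {v : R9 → ℝ} (hv : PhiM v) {ψ : Fin N → R9 → ℝ} (hψ : ∀ i, WM (ψ i))
    (τ : Fin N → ℝ) (cw : ℝ) : KW (fam v ψ τ) cw = KW v cw := by
  ext k
  constructor
  · rintro ⟨h1, h2, h3⟩
    exact ⟨h1, h2, by rw [← fam_alM hv hψ τ h1]; exact h3⟩
  · rintro ⟨h1, h2, h3⟩
    exact ⟨h1, h2, by rw [fam_alM hv hψ τ h1]; exact h3⟩

/-! ### joint smoothness -/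

theorem lin_smooth {E F : Type*} [NormedAddCommGroup E] [NormedSpace ℝ E]
    [NormedAddCommGroup F] [NormedSpace ℝ F] {v : E → F} {f : Fin N → E → F}
    (hv : ContDiffOn ℝ ∞ v {0}ᶜ) (hf : ∀ i, ContDiffOn ℝ ∞ (f i) {0}ᶜ) :
    ContDiffOn ℝ ∞ (fun z : (Fin N → ℝ) × E => v z.2 + ∑ i, z.1 i • f i z.2)
      (parU (Fin N → ℝ) E) := by
  have h1 : ∀ {f : E → F}, ContDiffOn ℝ ∞ f {0}ᶜ →
      ContDiffOn ℝ ∞ (fun z : (Fin N → ℝ) × E => f z.2) (parU (Fin N → ℝ) E) := fun hf =>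
    hf.comp contDiff_snd.contDiffOn fun _ hz => hz.2
  refine (h1 hv).add (ContDiffOn.sum fun i _ => ContDiffOn.smul ?_ (h1 (hf i)))
  exact ((contDiff_apply ℝ ℝ i).comp contDiff_fst).contDiffOn

theorem fam_fd {v : R9 → ℝ} (hv : ContDiffOn ℝ ∞ v {0}ᶜ) {ψ : Fin N → R9 → ℝ}
    (hψ : ∀ i, ContDiffOn ℝ ∞ (ψ i) {0}ᶜ) (τ : Fin N → ℝ) {u : R9} (hu : u ≠ 0) (w : R9) :
    fderiv ℝ (fam v ψ τ) u w = fderiv ℝ v u w + ∑ i, τ i * fderiv ℝ (ψ i) u w := by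
  have h1 : HasFDerivAt (fun u => ∑ i, τ i * ψ i u) (∑ i, τ i • fderiv ℝ (ψ i) u) u :=
    HasFDerivAt.fun_sum fun i _ => (GE5_dAt (hψ i) hu).hasFDerivAt.const_mul (τ i)
  have h2 : fderiv ℝ (fam v ψ τ) u = fderiv ℝ v u + ∑ i, τ i • fderiv ℝ (ψ i) u :=
    ((GE5_dAt hv hu).hasFDerivAt.add h1).fderiv
  rw [h2]
  simp

theorem br_add (u a b : R9) : br u (a + b) = br u a + br u b := by
  unfold br
  refine Prod.ext ?_ (Prod.ext ?_ ?_)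
  · simp only [Prod.fst_add, Prod.snd_add, map_add]; abel
  · simp only [Prod.fst_add, Prod.snd_add, map_add, LinearMap.add_apply]; abel
  · simp only [Prod.fst_add, Prod.snd_add, map_add, LinearMap.add_apply]; abel

theorem br_smul (u : R9) (r : ℝ) (a : R9) : br u (r • a) = r • br u a := by
  unfold br
  refine Prod.ext ?_ (Prod.ext ?_ ?_)
  · simp only [Prod.smul_fst, Prod.smul_snd, map_smul, smul_add]
  · simp only [Prod.smul_fst, Prod.smul_snd, map_smul, LinearMap.smul_apply, smul_sub]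
  · simp only [Prod.smul_fst, Prod.smul_snd, map_smul, LinearMap.smul_apply, smul_sub]

/-- `br u` as a linear map -/
def brL (u : R9) : R9 →ₗ[ℝ] R9 where
  toFun := br u
  map_add' := br_add u
  map_smul' r a := br_smul u r a

theorem fam_grad {v : R9 → ℝ} (hv : ContDiffOn ℝ ∞ v {0}ᶜ) {ψ : Fin N → R9 → ℝ}
    (hψ : ∀ i, ContDiffOn ℝ ∞ (ψ i) {0}ᶜ) (τ : Fin N → ℝ) {u : R9} (hu : u ≠ 0) :
    grad9 (fam v ψ τ) u = grad9 v u + ∑ i, τ i • grad9 (ψ i) u := by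
  refine Prod.ext ?_ (Prod.ext ?_ ?_)
  · ext j
    simp [grad9, fam_fd hv hψ τ hu, Prod.fst_sum, Finset.sum_apply]
  · ext j
    simp [grad9, fam_fd hv hψ τ hu, Prod.fst_sum, Prod.snd_sum, Finset.sum_apply]
  · ext j
    simp [grad9, fam_fd hv hψ τ hu, Prod.snd_sum, Finset.sum_apply]

theorem fam_eM {v : R9 → ℝ} (hv : ContDiffOn ℝ ∞ v {0}ᶜ) {ψ : Fin N → R9 → ℝ}
    (hψ : ∀ i, ContDiffOn ℝ ∞ (ψ i) {0}ᶜ) (τ : Fin N → ℝ) {u : R9} (hu : u ≠ 0) :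
    eM (fam v ψ τ) u = eM v u + ∑ i, τ i • eM (ψ i) u := by
  have h : eM (fam v ψ τ) u = brL u (grad9 (fam v ψ τ) u) := rfl
  rw [h, fam_grad hv hψ τ hu, map_add, map_sum]
  simp only [map_smul]
  rfl

theorem fam_ED {v : R9 → ℝ} (hv : ContDiffOn ℝ ∞ v {0}ᶜ) {ψ : Fin N → R9 → ℝ}
    (hψ : ∀ i, ContDiffOn ℝ ∞ (ψ i) {0}ᶜ) (τ : Fin N → ℝ) (f : R9 → ℝ) {u : R9} (hu : u ≠ 0) :
    ED (fam v ψ τ) f u = ED v f u + ∑ i, τ i • ED (ψ i) f u := by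
  unfold ED
  rw [fam_eM hv hψ τ hu, map_add, map_sum]
  simp only [map_smul]

/-- the function `E n` of the family, jointly smooth -/
theorem H_smooth {v n : R9 → ℝ} (hv : PhiM v) (hn : ContDiffOn ℝ ∞ n {0}ᶜ)
    {ψ : Fin N → R9 → ℝ} (hψ : ∀ i, WM (ψ i)) :
    ContDiffOn ℝ ∞ (fun z : (Fin N → ℝ) × R9 => ED v n z.2 + ∑ i, z.1 i • ED (ψ i) n z.2)
      (parU (Fin N → ℝ) R9) :=
  lin_smooth (MidInv_ED_smooth hv hn) fun i => MidInv_ED_smooth (hψ i).phi hn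

theorem eM_cont {v : R9 → ℝ} (hv : PhiM v) {ψ : Fin N → R9 → ℝ} (hψ : ∀ i, WM (ψ i)) :
    ContinuousOn (fun z : (Fin N → ℝ) × R9 => eM (fam v ψ z.1) z.2) (parU (Fin N → ℝ) R9) :=
  (lin_smooth (MidInv.eM_smooth hv.smooth)
    fun i => MidInv.eM_smooth (hψ i).phi.smooth).continuousOn.congr fun z hz =>
      fam_eM hv.smooth (fun i => (hψ i).phi.smooth) z.1 hz.2

/-- `E² n` is jointly continuous -/
theorem EE_cont {v n : R9 → ℝ} (hv : PhiM v) (hn : ContDiffOn ℝ ∞ n {0}ᶜ)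
    {ψ : Fin N → R9 → ℝ} (hψ : ∀ i, WM (ψ i)) :
    ContinuousOn (fun z : (Fin N → ℝ) × R9 => ED (fam v ψ z.1) (ED (fam v ψ z.1) n) z.2)
      (parU (Fin N → ℝ) R9) := by
  intro z hz
  have hH := H_smooth hv hn hψ
  have hc := (eM_cont hv hψ).continuousAt (parU_open.mem_nhds hz)
  have h1 : Tendsto (fun y : (Fin N → ℝ) × R9 => D1 (fun w => ED v n w
      + ∑ i, y.1 i • ED (ψ i) n w) y.2 (eM (fam v ψ y.1) y.2)) (𝓝 z)
      (𝓝 (D1 (fun w => ED v n w + ∑ i, z.1 i • ED (ψ i) n w) z.2 (eM (fam v ψ z.1) z.2))) :=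
    par_D1_tendsto hH hz.2 (continuous_fst.tendsto z) (continuous_snd.tendsto z) hc
  have e : ∀ y ∈ parU (Fin N → ℝ) R9, ED (fam v ψ y.1) (ED (fam v ψ y.1) n) y.2
      = D1 (fun w => ED v n w + ∑ i, y.1 i • ED (ψ i) n w) y.2 (eM (fam v ψ y.1) y.2) := by
    intro y hy
    have h2 : ED (fam v ψ y.1) n =ᶠ[𝓝 y.2] fun w => ED v n w + ∑ i, y.1 i • ED (ψ i) n w := by
      filter_upwards [isOpen_compl_singleton.mem_nhds hy.2] with w hw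
      exact fam_ED hv.smooth (fun i => (hψ i).phi.smooth) y.1 n hw
    unfold D1
    rw [← h2.fderiv_eq]
    rfl
  have h3 : Tendsto (fun y : (Fin N → ℝ) × R9 => ED (fam v ψ y.1) (ED (fam v ψ y.1) n) y.2)
      (𝓝 z) (𝓝 (ED (fam v ψ z.1) (ED (fam v ψ z.1) n) z.2)) := by
    rw [e z hz]
    refine h1.congr' ?_
    filter_upwards [parU_open.mem_nhds hz] with y hy
    exact (e y hy).symm
  exact h3.mono_left nhdsWithin_le_nhds

theorem toM_smooth {v : R9 → ℝ} (hv : PhiM v) : ContDiffOn ℝ ∞ (toM v) {0}ᶜ :=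
  (phiN_toM hv).1.smooth

/-- the third order form is jointly continuous -/
theorem T3_aux {v : R9 → ℝ} (hv : PhiM v) {ψ : Fin N → R9 → ℝ} (hψ : ∀ i, WM (ψ i)) :
    ContinuousOn (fun z : (Fin N → ℝ) × (m 1 1 × m 1 1) =>
      T3F Q2 (PP 1 1) (fun w => linF (toM v) (fun i => toM (ψ i)) (z.1, w)) z.2.1 z.2.2)
      (Set.univ ×ˢ {q : m 1 1 × m 1 1 | q.1 ≠ 0}) :=
  par_T3F_cont nData2 (linF_smooth (toM_smooth hv) fun i => toM_smooth (hψ i).phi)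
    fun _ hq => hq

theorem toM_fam (v : R9 → ℝ) (ψ : Fin N → R9 → ℝ) (τ : Fin N → ℝ) :
    toM (fam v ψ τ) = fun w => linF (toM v) (fun i => toM (ψ i)) (τ, w) := rfl

theorem io_cont : Continuous (fun z : (Fin N → ℝ) × (R9 × R9) =>
    ((z.1, (iota z.2.1, iota z.2.2)) : (Fin N → ℝ) × (m 1 1 × m 1 1))) :=
  continuous_fst.prodMk ((iota.continuous.comp (continuous_fst.comp continuous_snd)).prodMk
    (iota.continuous.comp (continuous_snd.comp continuous_snd)))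

theorem T3_cont {v : R9 → ℝ} (hv : PhiM v) {ψ : Fin N → R9 → ℝ} (hψ : ∀ i, WM (ψ i)) :
    ContinuousOn (fun z : (Fin N → ℝ) × (R9 × R9) => T3C (fam v ψ z.1) z.2.1 z.2.2)
      (Set.univ ×ˢ {k : R9 × R9 | k.1 ≠ 0}) := by
  have h := ContinuousOn.comp (g := fun z : (Fin N → ℝ) × (m 1 1 × m 1 1) =>
      T3F Q2 (PP 1 1) (fun w => linF (toM v) (fun i => toM (ψ i)) (z.1, w)) z.2.1 z.2.2)
    (f := fun z : (Fin N → ℝ) × (R9 × R9) =>
      ((z.1, (iota z.2.1, iota z.2.2)) : (Fin N → ℝ) × (m 1 1 × m 1 1)))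
    (s := Set.univ ×ˢ {k : R9 × R9 | k.1 ≠ 0})
    (T3_aux hv hψ) io_cont.continuousOn
    (fun z hz => ⟨Set.mem_univ _, MidInv.iota_ne hz.2⟩)
  have e : (fun z : (Fin N → ℝ) × (R9 × R9) => T3C (fam v ψ z.1) z.2.1 z.2.2) =
      (fun z : (Fin N → ℝ) × (m 1 1 × m 1 1) =>
      T3F Q2 (PP 1 1) (fun w => linF (toM v) (fun i => toM (ψ i)) (z.1, w)) z.2.1 z.2.2) ∘
      (fun z : (Fin N → ℝ) × (R9 × R9) =>
      ((z.1, (iota z.2.1, iota z.2.2)) : (Fin N → ℝ) × (m 1 1 × m 1 1))) := by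
    funext z
    unfold T3C
    rw [toM_fam]
    rfl
  rw [e]
  exact h

theorem TE_cont {v n : R9 → ℝ} (hv : PhiM v) (hn : ContDiffOn ℝ ∞ n {0}ᶜ)
    {ψ : Fin N → R9 → ℝ} (hψ : ∀ i, WM (ψ i)) :
    ContinuousOn (fun z : (Fin N → ℝ) × (R9 × R9) => TE (fam v ψ z.1) n z.2)
      (Set.univ ×ˢ {k : R9 × R9 | k.1 ≠ 0}) := by
  have h1 : ContinuousOn (fun z : (Fin N → ℝ) × (R9 × R9) =>
      ED (fam v ψ z.1) (ED (fam v ψ z.1) n) z.2.1) (Set.univ ×ˢ {k : R9 × R9 | k.1 ≠ 0}) :=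
    ContinuousOn.comp (g := fun z : (Fin N → ℝ) × R9 =>
      ED (fam v ψ z.1) (ED (fam v ψ z.1) n) z.2)
      (f := fun z : (Fin N → ℝ) × (R9 × R9) => ((z.1, z.2.1) : (Fin N → ℝ) × R9))
      (EE_cont hv hn hψ)
      (continuous_fst.prodMk (continuous_fst.comp continuous_snd)).continuousOn
      (fun z hz => ⟨Set.mem_univ _, hz.2⟩)
  exact (T3_cont hv hψ).sub h1

end MidS

open MidS

/-- (G3) the end regions stay good for small parameters -/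
theorem mid_small {cw A : ℝ} {v₀ n : R9 → ℝ} (hv : PhiM v₀) (hn : WM n) {N : ℕ}
    {ψ : Fin N → R9 → ℝ} (hψ : ∀ i, WM (ψ i)) {δ : ℝ}
    (hend : ∀ k ∈ KW v₀ cw, (aa k.1 ≤ 3 * δ ∨ A - 3 * δ ≤ aa k.1) → 0 < TE v₀ n k) :
    ∃ ε > 0, ∀ τ : Fin N → ℝ, ‖τ‖ < ε →
      PhiM (fun u => v₀ u + ∑ i, τ i * ψ i u) ∧
      KW (fun u => v₀ u + ∑ i, τ i * ψ i u) cw = KW v₀ cw ∧
      ∀ k ∈ KW v₀ cw, (aa k.1 ≤ 3 * δ ∨ A - 3 * δ ≤ aa k.1) →
        0 < TE (fun u => v₀ u + ∑ i, τ i * ψ i u) n k := by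
  have ha : Continuous fun k : R9 × R9 => aa k.1 :=
    T3CRot_cdot (continuous_fst.comp continuous_fst) (continuous_fst.comp continuous_fst)
  have hK : IsCompact (KW v₀ cw ∩ ({k | aa k.1 ≤ 3 * δ} ∪ {k | A - 3 * δ ≤ aa k.1})) :=
    (KW_compact hv.smooth cw).inter_right
      ((isClosed_le ha continuous_const).union (isClosed_le continuous_const ha))
  have hT : ContinuousOn (fun z : (Fin N → ℝ) × (R9 × R9) => TE (fam v₀ ψ z.1) n z.2)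
      (Set.univ ×ˢ (KW v₀ cw ∩ ({k | aa k.1 ≤ 3 * δ} ∪ {k | A - 3 * δ ≤ aa k.1}))) :=
    (TE_cont hv hn.phi.smooth hψ).mono fun z hz =>
      ⟨Set.mem_univ _, T3CRot_flg_ne hz.2.1.1⟩
  have h1 := par_open (κ := Unit) hK (p₀ := (0 : Fin N → ℝ)) (A := fun _ => (0 : ℝ))
    (T := fun _ z => TE (fam v₀ ψ z.1) n z.2) continuousOn_const (fun _ => hT)
    (fun k hk _ => ⟨(), by
      show 0 < TE (fam v₀ ψ 0) n k
      rw [fam_zero]
      exact hend k hk.1 hk.2⟩)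
  obtain ⟨ε, hε, h2⟩ := Metric.eventually_nhds_iff.1 h1
  refine ⟨ε, hε, fun τ hτ => ⟨fam_phi hv hψ τ, fam_KW hv hψ τ cw, fun k hk hk' => ?_⟩⟩
  have h3 : dist τ 0 < ε := by rwa [dist_zero_right]
  obtain ⟨-, h4⟩ := h2 h3 k ⟨hk, hk'⟩ rfl
  exact h4

end Pool.Agent.FL.S2
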