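import Pool.Agent.FL.MidG
import Pool.Agent.FL.MidPar
import Pool.Agent.FL.MidInv
import Pool.Agent.FL.MidS

/-!
# MP_f09395_gt, space (2): kinks in the middle region of a wall (G2)
-/

set_option linter.unusedSectionVars false

noncomputable section

namespace Pool.Agent.FL.S2

open scoped ContDiff Matrix
open Filter Topology
open Pool.Agent.helper90.FL

variable {cw A κ : ℝ} {ev : Prop} {uW b1 b2 : R6 → R9} {om : (R9 → ℝ) → R6 → ℝ}

namespace MidK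

/-! ### the base -/

theorem mid_compact (d : ℝ) : IsCompact (mid d) :=
  FT0.base_compact.inter_right ((isClosed_le continuous_const (FT0.dot_cont continuous_fst
    continuous_fst)).inter (isClosed_le (FT0.dot_cont continuous_fst continuous_fst)
    continuous_const))

theorem base_U6 {z : R6} (hz : z ∈ base) (h1 : 0 < z.1 ⬝ᵥ z.1) (h2 : z.1 ⬝ᵥ z.1 < 1) :
    z ∈ U6 := by
  refine ⟨fun h => ?_, fun h => ?_⟩
  · rw [h] at h1; simp at h1
  · have h3 := hz.2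
    rw [h] at h3
    simp only [dotProduct_zero, add_zero] at h3
    linarith

theorem mid_U6 {d : ℝ} (hd : 0 < d) : mid d ⊆ U6 := fun _ hz =>
  base_U6 hz.1 (by linarith [hz.2.1]) (by linarith [hz.2.2])

/-- the unit circle -/
def circ1 : Set (ℝ × ℝ) := {q | q.1 ^ 2 + q.2 ^ 2 = 1}

theorem circ1_compact : IsCompact circ1 := by
  refine Metric.isCompact_of_isClosed_isBounded ?_ ?_
  · exact isClosed_eq ((continuous_fst.pow 2).add (continuous_snd.pow 2)) continuous_const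
  · refine (Metric.isBounded_closedBall (x := (0 : ℝ × ℝ)) (r := 1)).subset fun q hq => ?_
    have hq' : q.1 ^ 2 + q.2 ^ 2 = 1 := hq
    rw [Metric.mem_closedBall, dist_zero_right]
    refine norm_prod_le_iff.2 ⟨?_, ?_⟩
    · rw [Real.norm_eq_abs]
      exact abs_le_one_iff_mul_self_le_one.2 (by nlinarith [sq_nonneg q.2])
    · rw [Real.norm_eq_abs]
      exact abs_le_one_iff_mul_self_le_one.2 (by nlinarith [sq_nonneg q.1])

/-! ### the cut-off -/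

/-- cut-off: `0` outside `(d, 1 - d)`, `1` on `[3/2 d, 1 - 3/2 d]` -/
def cutR (d t : ℝ) : ℝ :=
  Real.smoothTransition ((t - d) / (d / 2)) * Real.smoothTransition ((1 - d - t) / (d / 2))

theorem cutR_smooth (d : ℝ) : ContDiff ℝ ∞ (cutR d) :=
  (Real.smoothTransition.contDiff.comp ((contDiff_id.sub contDiff_const).div_const _)).mul
    (Real.smoothTransition.contDiff.comp ((contDiff_const.sub contDiff_id).div_const _))

theorem cutR_nonneg (d t : ℝ) : 0 ≤ cutR d t :=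
  mul_nonneg (Real.smoothTransition.nonneg _) (Real.smoothTransition.nonneg _)

theorem cutR_zero {d t : ℝ} (hd : 0 < d) (h : t ≤ d ∨ 1 - d ≤ t) : cutR d t = 0 := by
  unfold cutR
  rcases h with h | h
  · rw [Real.smoothTransition.zero_of_nonpos
      (div_nonpos_of_nonpos_of_nonneg (by linarith) (by linarith)), zero_mul]
  · rw [Real.smoothTransition.zero_of_nonpos (x := (1 - d - t) / (d / 2))
      (div_nonpos_of_nonpos_of_nonneg (by linarith) (by linarith)), mul_zero]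

theorem cutR_le {d t : ℝ} (hd : 0 < d) (h : cutR d t ≤ 1 / 2) :
    t ≤ 3 / 2 * d ∨ 1 - 3 / 2 * d ≤ t := by
  by_contra hcon
  push Not at hcon
  have h1 : 1 ≤ (t - d) / (d / 2) := by rw [le_div_iff₀ (by linarith)]; linarith
  have h2 : 1 ≤ (1 - d - t) / (d / 2) := by rw [le_div_iff₀ (by linarith)]; linarith
  unfold cutR at h
  rw [Real.smoothTransition.one_of_one_le h1, Real.smoothTransition.one_of_one_le h2] at h
  norm_num at h

theorem cutR_ge {d t : ℝ} (hd : 0 < d) (h : 1 / 2 ≤ cutR d t) : d < t ∧ t < 1 - d := by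
  by_contra hcon
  have h1 : t ≤ d ∨ 1 - d ≤ t := by
    by_contra h2
    push Not at h2
    exact hcon h2
  rw [cutR_zero hd h1] at h
  norm_num at h

/-! ### linear algebra -/

theorem lin_zero {r s a b : ℝ} (h1 : r ^ 2 + s ^ 2 = 1) (h2 : r * a + s * b = 0)
    {xa xb o : ℝ} (h3 : r * (xa + o * b) + s * (xb - o * a) = 0) :
    a * xb - b * xa - o * (a ^ 2 + b ^ 2) = 0 := by
  have ha : a = -s * (r * b - s * a) := by linear_combination (-a) * h1 + r * h2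
  have hb : b = r * (r * b - s * a) := by linear_combination (-b) * h1 + s * h2
  obtain ⟨l, hl⟩ : ∃ l, l = r * b - s * a := ⟨_, rfl⟩
  rw [← hl] at ha hb
  have h4 : r * xa + s * xb + o * l = 0 := by rw [hl]; linear_combination h3
  rw [ha, hb]
  linear_combination (-l) * h4 - o * l ^ 2 * h1

/-! ### smoothness -/

theorem rot_smooth : ContDiff ℝ ∞ rot := by
  unfold rot
  exact contDiff_const.prodMk ((contDiff_snd.comp contDiff_snd).neg.prodMk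
    (contDiff_fst.comp contDiff_snd))

theorem V_smooth (hW : WallD cw A κ ev uW b1 b2 om) {v : R9 → ℝ} (hv : ContDiffOn ℝ ∞ v {0}ᶜ) :
    ContDiffOn ℝ ∞ (fun w => v (uW w)) U6 := hv.comp hW.us fun z hz => hW.une z hz

theorem al_smooth (hW : WallD cw A κ ev uW b1 b2 om) {v : R9 → ℝ} (hv : ContDiffOn ℝ ∞ v {0}ᶜ)
    {b : R6 → R9} (hb : ContDiffOn ℝ ∞ b U6) :
    ContDiffOn ℝ ∞ (fun w => alM v (uW w) (b w)) U6 := by
  have h1 : ContDiffOn ℝ ∞ (fderiv ℝ v) {0}ᶜ :=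
    hv.fderiv_of_isOpen isOpen_compl_singleton (by simp)
  exact (h1.comp hW.us fun z hz => hW.une z hz).clm_apply (rot_smooth.comp_contDiffOn hb)

theorem alM_comb (v : R9 → ℝ) (u b b' : R9) (r s : ℝ) :
    alM v u (r • b + s • b') = r * alM v u b + s * alM v u b' := by
  have h1 : rot (r • b + s • b') = r • rot b + s • rot b' := by
    unfold rot
    ext i <;> simp
    all_goals ring
  unfold alM
  rw [h1, map_add, map_smul, map_smul, smul_eq_mul, smul_eq_mul]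

/-! ### the list of kinks -/

/-- the list `Δ, XΔ, .., X^(J-1)Δ, α, Xα, ..` -/
def GG (X : R6 → R6) (Dl a1 a2 : R6 → ℝ) (J i : ℕ) (k : Fin 2) : R6 → ℝ :=
  if i < J then itd X Dl i else itd X (if k = 0 then a1 else a2) (i - J)

theorem GG_smooth {X : R6 → R6} (hX : ContDiffOn ℝ ∞ X U6) {Dl a1 a2 : R6 → ℝ}
    (hD : ContDiffOn ℝ ∞ Dl U6) (h1 : ContDiffOn ℝ ∞ a1 U6) (h2 : ContDiffOn ℝ ∞ a2 U6)
    (J i : ℕ) (k : Fin 2) : ContDiffOn ℝ ∞ (GG X Dl a1 a2 J i k) U6 := by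
  unfold GG
  split_ifs
  · exact itd_smooth FT0.U6_open hX hD i
  · exact itd_smooth FT0.U6_open hX h1 _
  · exact itd_smooth FT0.U6_open hX h2 _

theorem GG_lt (X : R6 → R6) (Dl a1 a2 : R6 → ℝ) {J i : ℕ} (h : i < J) (k : Fin 2) :
    GG X Dl a1 a2 J i k = itd X Dl i := by
  unfold GG; rw [if_pos h]

theorem GG_ge (X : R6 → R6) (Dl a1 a2 : R6 → ℝ) (J i : ℕ) (k : Fin 2) :
    GG X Dl a1 a2 J (J + i) k = itd X (if k = 0 then a1 else a2) i := by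
  unfold GG; rw [if_neg (by omega), Nat.add_sub_cancel_left]

section chain

variable {J : ℕ} {V a1 a2 o : R6 → ℝ} {d : ℝ}

theorem chain_D (X : R6 → R6) (Dl : R6 → ℝ) {z : R6} (hD : Dl z = 0) {i : ℕ}
    (h : ∀ j < i, ∀ k, itd X (GG X Dl a1 a2 J j k) 1 z = 0) {m : ℕ} (hm : m ≤ i) (hmJ : m ≤ J) :
    itd X Dl m z = 0 := by
  cases m with
  | zero => exact hD
  | succ m =>
    have h1 := h m (by omega) 0
    rw [GG_lt X Dl a1 a2 (by omega) 0] at h1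
    exact h1

theorem chain_al (hκ : 0 < κ) (hV : ContDiffOn ℝ ∞ V U6) (h1 : ContDiffOn ℝ ∞ a1 U6)
    (h2 : ContDiffOn ℝ ∞ a2 U6) (ho : ContDiffOn ℝ ∞ o U6) (hd : 0 < d)
    (hft : FT123 κ (mid d) J V a1 a2 o) {z : R6} (hz : z ∈ mid d)
    (h : ∀ m ≤ J, itd (fun z => κ • XB V z) (DelB κ V a1 a2 o) m z = 0) :
    a1 z = 0 ∧ a2 z = 0 := by
  by_contra hcon
  have h3 : a1 z ≠ 0 ∨ a2 z ≠ 0 := by
    by_contra h4
    push Not at h4
    exact hcon h4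
  have hU := mid_U6 hd hz
  have hDs := FT0.DelB_smooth (κ := κ) FT0.U6_open hV h1 h2 ho
  by_cases hX : XB V z = 0
  · exact hft.ft1 z hz hX (h 0 (Nat.zero_le _))
  · obtain ⟨j, hj, hj'⟩ := hft.ft3 z hz h3 hX
    have h5 := h j hj.le
    rw [FT0.itd_const_smul FT0.U6_open (FT0.XB_smooth FT0.U6_open hV) hDs κ j z hU] at h5
    exact hj' ((mul_eq_zero.1 h5).resolve_left (pow_ne_zero _ hκ.ne'))

theorem chain_a (hκ : 0 < κ) (hV : ContDiffOn ℝ ∞ V U6) (h1 : ContDiffOn ℝ ∞ a1 U6)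
    (h2 : ContDiffOn ℝ ∞ a2 U6) (ho : ContDiffOn ℝ ∞ o U6) (hd : 0 < d)
    (hft : FT123 κ (mid d) J V a1 a2 o) {z : R6} (hz : z ∈ mid d)
    (hD : DelB κ V a1 a2 o z = 0) {i : ℕ}
    (h : ∀ j < J + i, ∀ k, itd (fun z => κ • XB V z) (GG (fun z => κ • XB V z)
      (DelB κ V a1 a2 o) a1 a2 J j k) 1 z = 0) {m : ℕ} (hm : m ≤ i) (k : Fin 2) :
    itd (fun z => κ • XB V z) (if k = 0 then a1 else a2) m z = 0 := by
  have h3 := chain_al hκ hV h1 h2 ho hd hft hz fun m hm =>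
    chain_D (a1 := a1) (a2 := a2) (J := J) (fun z => κ • XB V z) (DelB κ V a1 a2 o) hD
      (i := J) (fun j hj k => h j (by omega) k) hm hm
  cases m with
  | zero =>
    show (if k = 0 then a1 else a2) z = 0
    split_ifs
    · exact h3.1
    · exact h3.2
  | succ m =>
    have h4 := h (J + m) (by omega) k
    rw [GG_ge] at h4
    exact h4

/-- (h2) of the kink lemma -/
theorem chain_h2 (hκ : 0 < κ) (hV : ContDiffOn ℝ ∞ V U6) (h1 : ContDiffOn ℝ ∞ a1 U6)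
    (h2 : ContDiffOn ℝ ∞ a2 U6) (ho : ContDiffOn ℝ ∞ o U6) (hd : 0 < d)
    (hft : FT123 κ (mid d) J V a1 a2 o) {z : R6} (hz : z ∈ mid d)
    (hD : DelB κ V a1 a2 o z = 0) {i : ℕ}
    (h : ∀ j < i, ∀ k, itd (fun z => κ • XB V z) (GG (fun z => κ • XB V z)
      (DelB κ V a1 a2 o) a1 a2 J j k) 1 z = 0) (k : Fin 2) :
    GG (fun z => κ • XB V z) (DelB κ V a1 a2 o) a1 a2 J i k z = 0 := by
  by_cases hi : i < J
  · rw [GG_lt _ _ _ _ hi]
    exact chain_D (a1 := a1) (a2 := a2) (J := J) _ _ hD h le_rfl hi.le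
  · obtain ⟨i', rfl⟩ : ∃ i', i = J + i' := ⟨i - J, by omega⟩
    rw [GG_ge]
    exact chain_a hκ hV h1 h2 ho hd hft hz hD h le_rfl k

/-- (h3) of the kink lemma -/
theorem chain_h3 (hκ : 0 < κ) (hV : ContDiffOn ℝ ∞ V U6) (h1 : ContDiffOn ℝ ∞ a1 U6)
    (h2 : ContDiffOn ℝ ∞ a2 U6) (ho : ContDiffOn ℝ ∞ o U6) (hd : 0 < d)
    (hft : FT123 κ (mid d) J V a1 a2 o) {z : R6} (hz : z ∈ mid d)
    (hD : DelB κ V a1 a2 o z = 0)
    (h : ∀ j < J + J, ∀ k, itd (fun z => κ • XB V z) (GG (fun z => κ • XB V z)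
      (DelB κ V a1 a2 o) a1 a2 J j k) 1 z = 0) : False := by
  have h3 := fun (m : ℕ) (hm : m ≤ J) (k : Fin 2) =>
    chain_a hκ hV h1 h2 ho hd hft hz hD h hm k
  have e1 : a1 z = 0 := by simpa [itd] using h3 0 (Nat.zero_le _) 0
  have e2 : a2 z = 0 := by simpa [itd] using h3 0 (Nat.zero_le _) 1
  obtain ⟨j, -, hj, hj'⟩ := hft.ft2 z hz e1 e2
  have h5 := h3 j hj 0
  rw [if_pos rfl, FT0.itd_const_smul FT0.U6_open (FT0.XB_smooth FT0.U6_open hV) h1 κ j z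
    (mid_U6 hd hz)] at h5
  exact hj' ((mul_eq_zero.1 h5).resolve_left (pow_ne_zero _ hκ.ne'))

end chain

/-! ### transfer of `E²` -/

theorem dAt9 {f : R9 → ℝ} (hf : ContDiffOn ℝ ∞ f {0}ᶜ) {u : R9} (hu : u ≠ 0) :
    DifferentiableAt ℝ f u :=
  (hf.contDiffAt (isOpen_compl_singleton.mem_nhds hu)).differentiableAt (by simp)

theorem dAt6 {f : R6 → ℝ} (hf : ContDiffOn ℝ ∞ f U6) {z : R6} (hz : z ∈ U6) :
    DifferentiableAt ℝ f z :=
  (hf.contDiffAt (FT0.U6_open.mem_nhds hz)).differentiableAt (by simp)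

theorem X_smooth (κ : ℝ) {V : R6 → ℝ} (hV : ContDiffOn ℝ ∞ V U6) :
    ContDiffOn ℝ ∞ (fun z => κ • XB V z) U6 :=
  (FT0.XB_smooth FT0.U6_open hV).const_smul κ

theorem itd1 (κ : ℝ) (V F : R6 → ℝ) (z : R6) :
    itd (fun z => κ • XB V z) F 1 z = κ * XD V F z := by
  show fderiv ℝ F z (κ • XB V z) = _
  rw [map_smul, smul_eq_mul]; rfl

theorem E2_transfer (hW : WallD cw A κ ev uW b1 b2 om) {v f : R9 → ℝ} (hv : PhiM v)
    (hf : ContDiffOn ℝ ∞ f {0}ᶜ) (hfi : ∀ (t : ℝ) (u : R9), f (rotH t u) = f u) {F : R6 → ℝ}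
    (hF : ContDiffOn ℝ ∞ F U6) (h : ∀ z ∈ base, z ∈ U6 → f (uW z) = F z) {z : R6}
    (hz : z ∈ base) (hzU : z ∈ U6) :
    ED v (ED v f) (uW z) = itd (fun z => κ • XB (fun w => v (uW w)) z) F 2 z := by
  have hV := V_smooth hW hv.smooth
  have h1 : ∀ w ∈ base, w ∈ U6 →
      ED v f (uW w) = itd (fun z => κ • XB (fun w => v (uW w)) z) F 1 w := by
    intro w hw hwU
    rw [itd1]
    refine hW.link v f w hv (dAt9 hf (hW.une w hwU)) hfi F (dAt6 hF hwU) hw hwU ?_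
    filter_upwards [FT0.U6_open.mem_nhds hwU] with y hy hb using h y hb hy
  have h2 := hW.link v (ED v f) z hv (dAt9 (MidInv_ED_smooth hv hf) (hW.une z hzU))
    (fun t u => MidInv_ED hv hfi t u) (itd (fun z => κ • XB (fun w => v (uW w)) z) F 1)
    (dAt6 (itd_smooth FT0.U6_open (X_smooth κ hV) hF 1) hzU) hz hzU
    (by filter_upwards [FT0.U6_open.mem_nhds hzU] with y hy hb using h1 y hb hy)
  rw [h2, ← itd1]
  rfl

/-! ### `TE` -/

theorem ED_add {v n f : R9 → ℝ} (hn : ContDiffOn ℝ ∞ n {0}ᶜ) (hf : ContDiffOn ℝ ∞ f {0}ᶜ)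
    {u : R9} (hu : u ≠ 0) : ED v (fun u => n u + f u) u = ED v n u + ED v f u := by
  unfold ED
  rw [fderiv_fun_add (dAt9 hn hu) (dAt9 hf hu)]
  rfl

theorem ED2_add {v n f : R9 → ℝ} (hv : PhiM v) (hn : ContDiffOn ℝ ∞ n {0}ᶜ)
    (hf : ContDiffOn ℝ ∞ f {0}ᶜ) {u : R9} (hu : u ≠ 0) :
    ED v (ED v (fun u => n u + f u)) u = ED v (ED v n) u + ED v (ED v f) u := by
  have h1 : ED v (fun u => n u + f u) =ᶠ[𝓝 u] fun u => ED v n u + ED v f u := by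
    filter_upwards [isOpen_compl_singleton.mem_nhds hu] with w hw
    exact ED_add hn hf hw
  have h2 : ED v (ED v (fun u => n u + f u)) u = ED v (fun u => ED v n u + ED v f u) u := by
    unfold ED at h1 ⊢
    rw [h1.fderiv_eq]
  rw [h2, ED_add (MidInv_ED_smooth hv hn) (MidInv_ED_smooth hv hf) hu]

theorem ED2_zero {v f : R9 → ℝ} {u : R9} (h : f =ᶠ[𝓝 u] 0) : ED v (ED v f) u = 0 := by
  have h1 : ED v f =ᶠ[𝓝 u] fun _ => 0 := by
    filter_upwards [h.eventually_nhds] with w hw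
    have hw' : f =ᶠ[𝓝 w] 0 := hw
    unfold ED
    rw [hw'.fderiv_eq]
    simp
  unfold ED at h1 ⊢
  rw [h1.fderiv_eq]
  simp

theorem TE_rotH {v n : R9 → ℝ} (hv : PhiM v) (hn : PhiM n) (t : ℝ) {u b : R9} (hF : Flg u b) :
    TE v n (rotH t u, rotH t b) = TE v n (u, b) := by
  unfold TE
  rw [MidInv_T3C hv t hF, MidInv_ED hv (fun t u => MidInv_ED hv hn.inv t u) t u]

theorem flg_ne {u b : R9} (h : Flg u b) : u ≠ 0 := by
  intro h0
  have h1 := h.uu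
  rw [h0] at h1
  simp [dot9] at h1

/-- the compact set of the kink lemma -/
def KK (d : ℝ) (g1 g2 : R6 × (ℝ × ℝ) → ℝ) : Set (R6 × (ℝ × ℝ)) :=
  {y | y.1 ∈ mid (d / 2) ∧ y.2 ∈ circ1 ∧ g1 y = 0 ∧
    g2 y * (max (y.1.1 ⬝ᵥ y.1.1 - d) 0 * max (1 - d - y.1.1 ⬝ᵥ y.1.1) 0) = 0}

theorem KK_compact {d : ℝ} {g1 g2 : R6 × (ℝ × ℝ) → ℝ}
    (h1 : ContinuousOn g1 (mid (d / 2) ×ˢ circ1)) (h2 : ContinuousOn g2 (mid (d / 2) ×ˢ circ1)) :
    IsCompact (KK d g1 g2) := by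
  have hK0 : IsCompact (mid (d / 2) ×ˢ circ1) := (mid_compact _).prod circ1_compact
  have hK1 := KinkL_compact_sub hK0 h1 (isClosed_singleton (x := (0 : ℝ)))
  have hp : Continuous (fun y : R6 × (ℝ × ℝ) => y.1.1 ⬝ᵥ y.1.1) :=
    FT0.dot_cont (continuous_fst.comp continuous_fst) (continuous_fst.comp continuous_fst)
  have h3 : ContinuousOn (fun y : R6 × (ℝ × ℝ) => g2 y * (max (y.1.1 ⬝ᵥ y.1.1 - d) 0 *
      max (1 - d - y.1.1 ⬝ᵥ y.1.1) 0)) (mid (d / 2) ×ˢ circ1 ∩ g1 ⁻¹' {0}) :=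
    (h2.mono Set.inter_subset_left).mul
      (((hp.sub continuous_const).max continuous_const).mul
        ((continuous_const.sub hp).max continuous_const)).continuousOn
  have hK2 := KinkL_compact_sub hK1 h3 (isClosed_singleton (x := (0 : ℝ)))
  have e : KK d g1 g2 = (mid (d / 2) ×ˢ circ1 ∩ g1 ⁻¹' {0}) ∩
      (fun y : R6 × (ℝ × ℝ) => g2 y * (max (y.1.1 ⬝ᵥ y.1.1 - d) 0 *
      max (1 - d - y.1.1 ⬝ᵥ y.1.1) 0)) ⁻¹' {0} := by
    ext y
    constructor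
    · rintro ⟨h1, h2, h3, h4⟩
      exact ⟨⟨⟨h1, h2⟩, h3⟩, h4⟩
    · rintro ⟨⟨⟨h1, h2⟩, h3⟩, h4⟩
      exact ⟨h1, h2, h3, h4⟩
  rw [e]
  exact hK2

theorem KK_g2 {d : ℝ} {g1 g2 : R6 × (ℝ × ℝ) → ℝ} {y : R6 × (ℝ × ℝ)} (h : y ∈ KK d g1 g2)
    (h1 : d < y.1.1 ⬝ᵥ y.1.1) (h2 : y.1.1 ⬝ᵥ y.1.1 < 1 - d) : g2 y = 0 := by
  have h3 := h.2.2.2
  rw [max_eq_left (by linarith), max_eq_left (by linarith)] at h3
  refine (mul_eq_zero.1 h3).resolve_right (mul_ne_zero ?_ ?_)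
  · exact (sub_pos.2 h1).ne'
  · exact (sub_pos.2 h2).ne'

/-! ### parity -/

theorem par_D_P {V a1 a2 o : R6 → ℝ} {η κ : ℝ} (hη : η ^ 2 = 1) (hV : ContDiffOn ℝ ∞ V U6)
    (h1 : ContDiffOn ℝ ∞ a1 U6) (h2 : ContDiffOn ℝ ∞ a2 U6)
    (pV : ∀ z ∈ U6, V (sP z) = V z) (p1 : ∀ z ∈ U6, a1 (sP z) = η * a1 z)
    (p2 : ∀ z ∈ U6, a2 (sP z) = η * a2 z) (po : ∀ z ∈ U6, o (sP z) = - o z) :
    ∀ z ∈ U6, DelB κ V a1 a2 o (sP z) = (-1) * DelB κ V a1 a2 o z := by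
  intro z hz
  unfold DelB
  rw [MidPar_XD_sP hV h2 pV p2 z hz, MidPar_XD_sP hV h1 pV p1 z hz, p1 z hz, p2 z hz, po z hz]
  linear_combination (-κ * (a1 z * XD V a2 z - a2 z * XD V a1 z) +
    o z * (a1 z ^ 2 + a2 z ^ 2)) * hη

theorem par_D_Q {V a1 a2 o : R6 → ℝ} {η κ : ℝ} (hη : η ^ 2 = 1) (hV : ContDiffOn ℝ ∞ V U6)
    (h1 : ContDiffOn ℝ ∞ a1 U6) (h2 : ContDiffOn ℝ ∞ a2 U6)
    (pV : ∀ z ∈ U6, V (sQ z) = V z) (p1 : ∀ z ∈ U6, a1 (sQ z) = η * a1 z)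
    (p2 : ∀ z ∈ U6, a2 (sQ z) = η * a2 z) (po : ∀ z ∈ U6, o (sQ z) = o z) :
    ∀ z ∈ U6, DelB κ V a1 a2 o (sQ z) = 1 * DelB κ V a1 a2 o z := by
  intro z hz
  unfold DelB
  rw [MidPar_XD_sQ hV h2 pV p2 z hz, MidPar_XD_sQ hV h1 pV p1 z hz, p1 z hz, p2 z hz, po z hz]
  linear_combination (κ * (a1 z * XD V a2 z - a2 z * XD V a1 z) -
    o z * (a1 z ^ 2 + a2 z ^ 2)) * hη

theorem par_G {X : R6 → R6} {Dl a1 a2 : R6 → ℝ} {J : ℕ} {g : R6 → R6}
    (hD : ∀ j, ∃ η : ℝ, η ^ 2 = 1 ∧ ∀ z ∈ U6, itd X Dl j (g z) = η * itd X Dl j z)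
    (h1 : ∀ j, ∃ η : ℝ, η ^ 2 = 1 ∧ ∀ z ∈ U6, itd X a1 j (g z) = η * itd X a1 j z)
    (h2 : ∀ j, ∃ η : ℝ, η ^ 2 = 1 ∧ ∀ z ∈ U6, itd X a2 j (g z) = η * itd X a2 j z)
    {z : R6} (hz : z ∈ U6) (i : ℕ) (k : Fin 2) :
    GG X Dl a1 a2 J i k (g z) ^ 2 = GG X Dl a1 a2 J i k z ^ 2 := by
  have key : ∀ {f f' η : ℝ}, η ^ 2 = 1 → f' = η * f → f' ^ 2 = f ^ 2 := by
    intro f f' η hη h
    rw [h, mul_pow, hη, one_mul]
  unfold GG
  split_ifs
  · obtain ⟨η, hη, h⟩ := hD i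
    exact key hη (h z hz)
  · obtain ⟨η, hη, h⟩ := h1 (i - J)
    exact key hη (h z hz)
  · obtain ⟨η, hη, h⟩ := h2 (i - J)
    exact key hη (h z hz)

end MidK

open MidK in
/-- (G2) the kinks -/
theorem kinkW (hW : WallD cw A κ ev uW b1 b2 om) (hE : ExtP cw A ev uW) {v n : R9 → ℝ}
    (hv : PhiM v) (hn : WM n) {δ : ℝ} (hδ : 0 < δ) (hδ' : 8 * δ < A) {J : ℕ}
    (hend : ∀ k ∈ KW v cw, (aa k.1 ≤ 3 * δ ∨ A - 3 * δ ≤ aa k.1) → 0 < TE v n k)
    (hft : FTW κ uW b1 b2 om v (2 * δ / A) J) :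
    ∃ n' : R9 → ℝ, WM n' ∧ ∀ k ∈ KW v cw, (a2M v k.1 k.2 = 0 ∨ aa k.1 ≤ 2 * δ ∨
      A - 2 * δ ≤ aa k.1) → 0 < TE v (fun u => n u + n' u) k := by
  have hA := hW.Apos
  obtain ⟨d, hd⟩ : ∃ d, d = 2 * δ / A := ⟨_, rfl⟩
  rw [← hd] at hft
  have hAd : A * d = 2 * δ := by rw [hd]; field_simp
  have hd0 : 0 < d := by rw [hd]; positivity
  have hd1 : d < 1 / 4 := by rw [hd, div_lt_iff₀ hA]; linarith
  -- the functions on the base
  obtain ⟨V, hVd⟩ : ∃ V : R6 → ℝ, V = fun w => v (uW w) := ⟨_, rfl⟩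
  obtain ⟨a1, ha1⟩ : ∃ a1 : R6 → ℝ, a1 = fun w => alM v (uW w) (b1 w) := ⟨_, rfl⟩
  obtain ⟨a2, ha2⟩ : ∃ a2 : R6 → ℝ, a2 = fun w => alM v (uW w) (b2 w) := ⟨_, rfl⟩
  obtain ⟨o, hod⟩ : ∃ o : R6 → ℝ, o = om v := ⟨_, rfl⟩
  have hV : ContDiffOn ℝ ∞ V U6 := by rw [hVd]; exact V_smooth hW hv.smooth
  have hs1 : ContDiffOn ℝ ∞ a1 U6 := by rw [ha1]; exact al_smooth hW hv.smooth hW.b1s
  have hs2 : ContDiffOn ℝ ∞ a2 U6 := by rw [ha2]; exact al_smooth hW hv.smooth hW.b2s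
  have ho : ContDiffOn ℝ ∞ o U6 := by rw [hod]; exact hW.oms v hv
  have hft' : FT123 κ (mid d) J V a1 a2 o := by rw [hVd, ha1, ha2, hod]; exact hft
  have hX := X_smooth κ hV
  have hDs := FT0.DelB_smooth (κ := κ) FT0.U6_open hV hs1 hs2 ho
  obtain ⟨X, hXd⟩ : ∃ X : R6 → R6, X = fun z => κ • XB V z := ⟨_, rfl⟩
  rw [← hXd] at hX
  obtain ⟨G, hGd⟩ : ∃ G : ℕ → Fin 2 → R6 → ℝ, G = fun i k => GG X (DelB κ V a1 a2 o) a1 a2 J i k :=
    ⟨_, rfl⟩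
  have hG : ∀ i k, ContDiffOn ℝ ∞ (G i k) U6 := fun i k => by
    rw [hGd]; exact GG_smooth hX hDs hs1 hs2 J i k
  obtain ⟨ζ, hζd⟩ : ∃ ζ : R6 → ℝ, ζ = fun z => cutR d (z.1 ⬝ᵥ z.1) := ⟨_, rfl⟩
  have hζ : ContDiffOn ℝ ∞ ζ U6 := by
    rw [hζd]
    exact (cutR_smooth d).comp_contDiffOn (FT0.dot_smooth FT0.fst_smooth FT0.fst_smooth)
  have hζ0 : ∀ y ∈ U6, 0 ≤ ζ y := fun y _ => by rw [hζd]; exact cutR_nonneg _ _
  -- the compact set
  obtain ⟨g1, hg1⟩ : ∃ g1 : R6 × (ℝ × ℝ) → ℝ, g1 = fun y => y.2.1 * a1 y.1 + y.2.2 * a2 y.1 :=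
    ⟨_, rfl⟩
  obtain ⟨g2, hg2⟩ : ∃ g2 : R6 × (ℝ × ℝ) → ℝ, g2 = fun y =>
    y.2.1 * (κ * XD V a1 y.1 + o y.1 * a2 y.1) + y.2.2 * (κ * XD V a2 y.1 - o y.1 * a1 y.1) :=
    ⟨_, rfl⟩
  have hsub : mid (d / 2) ⊆ U6 := mid_U6 (by linarith)
  have hm1 : Set.MapsTo (fun y : R6 × (ℝ × ℝ) => y.1) (mid (d / 2) ×ˢ circ1) U6 :=
    fun y hy => hsub hy.1
  have c0 : ∀ {f : R6 → ℝ}, ContDiffOn ℝ ∞ f U6 →
      ContinuousOn (fun y : R6 × (ℝ × ℝ) => f y.1) (mid (d / 2) ×ˢ circ1) := fun {f} hf =>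
    hf.continuousOn.comp continuous_fst.continuousOn hm1
  have c1 : ContinuousOn (fun y : R6 × (ℝ × ℝ) => y.2.1) (mid (d / 2) ×ˢ circ1) :=
    (continuous_fst.comp continuous_snd).continuousOn
  have c2 : ContinuousOn (fun y : R6 × (ℝ × ℝ) => y.2.2) (mid (d / 2) ×ˢ circ1) :=
    (continuous_snd.comp continuous_snd).continuousOn
  have hXD : ∀ {f : R6 → ℝ}, ContDiffOn ℝ ∞ f U6 → ContDiffOn ℝ ∞ (XD V f) U6 := fun {f} hf =>
    fder_app_smooth FT0.U6_open hf (FT0.XB_smooth FT0.U6_open hV)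
  have hg1c : ContinuousOn g1 (mid (d / 2) ×ˢ circ1) := by
    rw [hg1]
    exact (c1.mul (c0 hs1)).add (c2.mul (c0 hs2))
  have hg2c : ContinuousOn g2 (mid (d / 2) ×ˢ circ1) := by
    rw [hg2]
    exact (c1.mul ((continuousOn_const.mul (c0 (hXD hs1))).add ((c0 ho).mul (c0 hs2)))).add
      (c2.mul ((continuousOn_const.mul (c0 (hXD hs2))).sub ((c0 ho).mul (c0 hs1))))
  have hK := KK_compact (d := d) hg1c hg2c
  -- the function `T`
  obtain ⟨kk, hkk⟩ : ∃ kk : R6 × (ℝ × ℝ) → R9 × R9, kk = fun y =>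
    (uW y.1, y.2.1 • b1 y.1 + y.2.2 • b2 y.1) := ⟨_, rfl⟩
  have hkc : ContinuousOn kk (mid (d / 2) ×ˢ circ1) := by
    rw [hkk]
    refine ContinuousOn.prodMk (hW.us.continuousOn.comp continuous_fst.continuousOn hm1) ?_
    exact (c1.smul (hW.b1s.continuousOn.comp continuous_fst.continuousOn hm1)).add
      (c2.smul (hW.b2s.continuousOn.comp continuous_fst.continuousOn hm1))
  have hkne : ∀ y ∈ mid (d / 2) ×ˢ circ1, (kk y).1 ≠ 0 := fun y hy => by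
    rw [hkk]; exact hW.une _ (hm1 hy)
  have hEs := MidInv_ED_smooth hv (MidInv_ED_smooth hv hn.phi.smooth)
  have hTc : ContinuousOn (fun y => TE v n (kk y)) (mid (d / 2) ×ˢ circ1) := by
    unfold TE
    refine ((MidInv_T3C_cont hv).comp hkc hkne).sub ?_
    exact hEs.continuousOn.comp (continuous_fst.comp_continuousOn hkc)
      fun y hy => hkne y hy
  have hKsub : KK d g1 g2 ⊆ mid (d / 2) ×ˢ circ1 := fun y hy => ⟨hy.1, hy.2.1⟩
  have hKW : ∀ y ∈ mid (d / 2) ×ˢ circ1, g1 y = 0 → kk y ∈ KW v cw := by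
    intro y hy h1
    rw [hg1, ha1, ha2] at h1
    rw [hkk]
    refine ⟨hW.flg _ hy.1.1 (hm1 hy) _ _ hy.2, hW.c _ hy.1.1 (hm1 hy), ?_⟩
    rw [alM_comb]
    exact h1
  have haa : ∀ y ∈ mid (d / 2) ×ˢ circ1, aa (kk y).1 = A * (y.1.1 ⬝ᵥ y.1.1) := by
    intro y hy
    rw [hkk]
    exact hW.a _ hy.1.1 (hm1 hy)
  have hDel : ∀ y ∈ KK d g1 g2, d < y.1.1 ⬝ᵥ y.1.1 → y.1.1 ⬝ᵥ y.1.1 < 1 - d →
      DelB κ V a1 a2 o y.1 = 0 := by
    intro y hy h1 h2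
    have h3 := KK_g2 hy h1 h2
    have h4 := hy.2.2.1
    rw [hg2] at h3
    rw [hg1] at h4
    have h5 := lin_zero hy.2.1 h4 h3
    unfold DelB
    linear_combination h5
  have hgood : ∀ y ∈ KK d g1 g2, 1 / 2 ≤ ζ y.1 → y.1 ∈ mid d ∧ DelB κ V a1 a2 o y.1 = 0 := by
    intro y hy h1
    rw [hζd] at h1
    obtain ⟨h2, h3⟩ := cutR_ge hd0 h1
    exact ⟨⟨hy.1.1, h2.le, h3.le⟩, hDel y hy h2 h3⟩
  obtain ⟨C, D, hC, hD, hpos⟩ := KinkC_exists FT0.U6_open hX hζ hζ0 (J + J) hG hK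
    (π := fun y => y.1) continuous_fst.continuousOn (fun y hy => hm1 (hKsub hy))
    (T := fun y => TE v n (kk y)) (hTc.mono hKsub)
    (by
      intro y hy h1
      rw [hζd] at h1
      refine hend _ (hKW y (hKsub hy) hy.2.2.1) ?_
      rw [haa y (hKsub hy)]
      rcases cutR_le hd0 h1 with h2 | h2
      · left
        nlinarith
      · right
        nlinarith)
    (by
      intro i hi y hy h1 h2 k
      obtain ⟨h3, h4⟩ := hgood y hy h1
      rw [hGd, hXd] at h2 ⊢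
      exact chain_h2 hW.κpos hV hs1 hs2 ho hd0 hft' h3 h4 h2 k)
    (by
      intro y hy h1 h2
      obtain ⟨h3, h4⟩ := hgood y hy h1
      rw [hGd, hXd] at h2
      exact (chain_h3 hW.κpos hV hs1 hs2 ho hd0 hft' h3 h4 h2).elim)
  -- the extension
  have hKs := KinkC_sum_smooth hζ (J + J) C hD hG
  obtain ⟨F, hFd⟩ : ∃ F : R6 → ℝ, F = fun z => (-1 : ℝ) * kinkSum ζ (J + J) C D G z := ⟨_, rfl⟩
  have hF : ContDiffOn ℝ ∞ F U6 := by rw [hFd]; exact contDiffOn_const.mul hKs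
  have hFv : ∀ z : R6, (z.1 ⬝ᵥ z.1 < d ∨ 1 - d < z.1 ⬝ᵥ z.1) → F z = 0 := by
    intro z hz
    have h1 : ζ z = 0 := by
      rw [hζd]
      exact cutR_zero hd0 (hz.imp le_of_lt le_of_lt)
    rw [hFd]
    simp [kinkSum, h1]
  have hFP : ∀ z ∈ U6, F (sP z) = F z := by
    intro z hz
    obtain ⟨η, hη, hp⟩ := hW.parP
    have pV : ∀ z ∈ U6, V (sP z) = V z := fun z hz => by rw [hVd]; exact (hp v hv z hz).1
    have p1 : ∀ z ∈ U6, a1 (sP z) = η * a1 z := fun z hz => by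
      rw [ha1]; exact (hp v hv z hz).2.1
    have p2 : ∀ z ∈ U6, a2 (sP z) = η * a2 z := fun z hz => by
      rw [ha2]; exact (hp v hv z hz).2.2.1
    have po : ∀ z ∈ U6, o (sP z) = - o z := fun z hz => by rw [hod]; exact (hp v hv z hz).2.2.2
    have pD := par_D_P (κ := κ) hη hV hs1 hs2 pV p1 p2 po
    have h1 : kinkSum ζ (J + J) C D G (sP z) = kinkSum ζ (J + J) C D G z := by
      refine KinkC_symm C D ?_ ?_
      · rw [hζd]; simp [sP]
      · intro i _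
        refine Finset.sum_congr rfl fun k _ => ?_
        rw [hGd, hXd]
        exact par_G (MidPar_itd_sP (by norm_num) hV hDs pV pD) (MidPar_itd_sP hη hV hs1 pV p1)
          (MidPar_itd_sP hη hV hs2 pV p2) hz i k
    rw [hFd]
    simp only [h1]
  have hFQ : ev → ∀ z ∈ U6, F (sQ z) = F z := by
    intro hev z hz
    obtain ⟨η, hη, hp⟩ := hW.parQ hev
    have pV : ∀ z ∈ U6, V (sQ z) = V z := fun z hz => by rw [hVd]; exact (hp v hv z hz).1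
    have p1 : ∀ z ∈ U6, a1 (sQ z) = η * a1 z := fun z hz => by
      rw [ha1]; exact (hp v hv z hz).2.1
    have p2 : ∀ z ∈ U6, a2 (sQ z) = η * a2 z := fun z hz => by
      rw [ha2]; exact (hp v hv z hz).2.2.1
    have po : ∀ z ∈ U6, o (sQ z) = o z := fun z hz => by rw [hod]; exact (hp v hv z hz).2.2.2
    have pD := par_D_Q (κ := κ) hη hV hs1 hs2 pV p1 p2 po
    have h1 : kinkSum ζ (J + J) C D G (sQ z) = kinkSum ζ (J + J) C D G z := by
      refine KinkC_symm C D ?_ ?_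
      · rw [hζd]; simp [sQ]
      · intro i _
        refine Finset.sum_congr rfl fun k _ => ?_
        rw [hGd, hXd]
        exact par_G (MidPar_itd_sQ (by norm_num) hV hDs pV pD) (MidPar_itd_sQ hη hV hs1 pV p1)
          (MidPar_itd_sQ hη hV hs2 pV p2) hz i k
    rw [hFd]
    simp only [h1]
  obtain ⟨f, hf, hfF, -, hfe⟩ := hE d hd0 hd1 F hF hFv hFP hFQ
  have hfs := hf.phi.smooth
  refine ⟨f, hf, ?_⟩
  rintro ⟨u, b⟩ ⟨hfl, hc, hal⟩ hcond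
  simp only at hfl hc hal hcond
  have hu := flg_ne hfl
  have hTE : TE v (fun u => n u + f u) (u, b) = TE v n (u, b) - ED v (ED v f) u := by
    unfold TE
    rw [ED2_add hv hn.phi.smooth hfs hu]
    ring
  rw [hTE]
  by_cases hm : 2 * δ ≤ aa u ∧ aa u ≤ A - 2 * δ
  · -- middle region
    obtain ⟨z, hz, hzU, t, r, s, hrs, rfl, rfl⟩ := hW.surj u b hfl hc (by linarith [hm.1])
      (by linarith [hm.2])
    rw [MidInv_aa, hW.a z hz hzU] at hm hcond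
    rw [MidInv_alM hv, alM_comb] at hal
    rw [MidInv_a2M hv t (hW.une z hzU)] at hcond
    have e1 : TE v n (rotH t (uW z), rotH t (r • b1 z + s • b2 z)) =
        TE v n (uW z, r • b1 z + s • b2 z) := TE_rotH hv hn.phi t (hW.flg z hz hzU r s hrs)
    have e2 : ED v (ED v f) (rotH t (uW z)) = ED v (ED v f) (uW z) :=
      MidInv_ED hv (fun t u => MidInv_ED hv hf.phi.inv t u) t _
    have hp1 : d ≤ z.1 ⬝ᵥ z.1 := by
      by_contra h; push Not at h; nlinarith [hm.1]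
    have hp2 : z.1 ⬝ᵥ z.1 ≤ 1 - d := by
      by_contra h; push Not at h; nlinarith [hm.2]
    have hy : ((z, (r, s)) : R6 × (ℝ × ℝ)) ∈ KK d g1 g2 := by
      refine ⟨⟨hz, by linarith, by linarith⟩, hrs, ?_, ?_⟩
      · rw [hg1, ha1, ha2]; exact hal
      · rcases hcond with h | h | h
        · have h1 := hW.a2 v z hv hz hzU r s hrs (by rw [alM_comb]; exact hal)
          rw [h] at h1
          have h2 : g2 (z, (r, s)) = 0 := by
            rw [hg2, hVd, ha1, ha2, hod]; exact h1.symm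
          rw [h2, zero_mul]
        · have h1 : z.1 ⬝ᵥ z.1 ≤ d := by
            by_contra h'; push Not at h'; nlinarith
          rw [max_eq_right (by linarith), zero_mul, mul_zero]
        · have h1 : 1 - d ≤ z.1 ⬝ᵥ z.1 := by
            by_contra h'; push Not at h'; nlinarith
          rw [max_eq_right (a := 1 - d - z.1 ⬝ᵥ z.1) (by linarith), mul_zero, mul_zero]
    have h1 := hpos _ hy
    have h2 := E2_transfer hW hv hfs hf.phi.inv hF hfF hz hzU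
    have h3 : itd X F 2 z = (-1) * itd X (kinkSum ζ (J + J) C D G) 2 z := by
      rw [hFd]
      exact itd_smul FT0.U6_open hX hKs (-1) 2 z hzU
    rw [e1, e2, h2]
    rw [hkk] at h1
    simp only at h1
    rw [← hVd, ← hXd, h3]
    linarith
  · have h1 : aa u < 2 * δ ∨ A - 2 * δ < aa u := by
      by_contra h2
      push Not at h2
      exact hm h2
    have h2 : f =ᶠ[𝓝 u] 0 := by
      refine hfe u hu ?_
      rw [hfl.uu, mul_one, mul_one, hAd]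
      rcases h1 with h1 | h1
      · exact Or.inl h1
      · exact Or.inr (by nlinarith)
    rw [ED2_zero h2, sub_zero]
    refine hend _ ⟨hfl, hc, hal⟩ ?_
    rcases h1 with h1 | h1
    · exact Or.inl (by simp only; linarith)
    · exact Or.inr (by simp only; linarith)

/-- (G4) -/
theorem MidW_of (hW : WallD cw A κ ev uW b1 b2 om) (hE : ExtP cw A ev uW) {v₀ n : R9 → ℝ}
    (hG : GenP cw κ uW b1 b2 om v₀) (hv : PhiM v₀) (hn : WM n) {δ : ℝ} (hδ : 0 < δ)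
    (hδ' : 8 * δ < A)
    (hend : ∀ k ∈ KW v₀ cw, (aa k.1 ≤ 3 * δ ∨ A - 3 * δ ≤ aa k.1) → 0 < TE v₀ n k) :
    MidW v₀ cw δ A n := by
  have hA := hW.Apos
  obtain ⟨N, ψ, J, hψ, hψ0, hτ⟩ := hG (2 * δ / A) (by positivity)
    (by rw [div_lt_iff₀ hA]; linarith)
  obtain ⟨ε0, hε0, hs⟩ := mid_small hv hn hψ hend
  refine ⟨N, ψ, hψ, hψ0, fun ε hε => ?_⟩
  obtain ⟨τ, hτ1, hτ2⟩ := hτ (min ε ε0) (lt_min hε hε0)
  obtain ⟨hphi, hKW, hend'⟩ := hs τ (hτ1.trans_le (min_le_right _ _))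
  obtain ⟨n', hn', h⟩ := kinkW hW hE hphi hn hδ hδ' (fun k hk => hend' k (hKW ▸ hk)) hτ2
  exact ⟨τ, hτ1.trans_le (min_le_left _ _), n', hn', fun k hk hc => h k (hKW.symm ▸ hk) hc⟩

end Pool.Agent.FL.S2
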