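import Pool.Agent.helper46.FR.Sp2

/-!
# MP_f09395_gt: `Sp(2)/diag(z^a, z^b)` is reductive
-/

noncomputable section

namespace Pool.Agent.FL

open Pool.Agent.Helper93.Fin Pool.Agent.helper79.FP Pool.Agent.helper79.FR

attribute [local instance] Matrix.linftyOpNormedRing Matrix.linftyOpNormedAlgebra

theorem Red_isReductive {a b : ℕ} (ha : 1 ≤ a) (hb : 1 ≤ b) :
    IsReductive Sp2.G (Sp2.H a b) (Sp2.m a b) := by
  have hN := Sp2.nData ha hb
  have hG := Sp2.grpD ha hb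
  refine ⟨Sp2.H_le_G, ?_, ?_, ?_⟩
  · intro X
    constructor
    · intro hX
      have hX' : X ∈ Sp2.gg := (Sp2.gg_lieAlg X).2 hX
      refine ⟨X - (Sp2.PP a b X : Sp2.Mat), (Sp2.hh_lieAlg ha hb _).1 (hN.red.res X hX'),
        (Sp2.PP a b X : Sp2.Mat), (Sp2.PP a b X).2, ?_⟩
      abel
    · rintro ⟨Y, hY, Z, hZ, rfl⟩
      refine (Sp2.gg_lieAlg _).1 (Sp2.gg.add_mem ?_ ?_)
      · exact hN.red.h_le ((Sp2.hh_lieAlg ha hb Y).2 hY)
      · exact hN.red.m_le hZ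
  · intro Z hZ hZh
    have h1 : Z ∈ Sp2.hh a b := (Sp2.hh_lieAlg ha hb Z).2 hZh
    by_contra h0
    have h2 := hN.Qpos Z (hN.red.m_le hZ) h0
    rw [hN.Qhm Z h1 Z hZ] at h2
    exact lt_irrefl _ h2
  · intro k hk Z hZ
    exact hG.adm k hk Z hZ

end Pool.Agent.FL
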