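import Pool.Agent.FL.T0S

/-!
# MP_f09395_gt, space (2): condition (Q0) for the explicit parameters (module PQ0)
-/

noncomputable section

namespace Pool.Agent.FL.S2

open scoped Matrix

theorem PQ0_diag (s a b : R3) : a ⬝ᵥ Matrix.diagonal s *ᵥ b =
    s 0 * a 0 * b 0 + s 1 * a 1 * b 1 + s 2 * a 2 * b 2 := by
  simp only [dotProduct, Fin.sum_univ_three, Matrix.mulVec_diagonal]
  ring

/-- umbilic unit vectors of a diagonal matrix with `s 0 ≥ s 1 ≥ s 2` -/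
theorem Umb_of_Umb2 {s q : R3} (h01 : s 1 ≤ s 0) (h12 : s 2 ≤ s 1) (h02 : s 2 < s 0)
    (hq : q ⬝ᵥ q = 1) (h : Umb2 (Matrix.diagonal s) q) :
    q 1 = 0 ∧ (s 1 - s 2) * q 0 ^ 2 = (s 0 - s 1) * q 2 ^ 2 := by
  obtain ⟨l, hl⟩ := h
  have q1 : (![0, q 2, - q 1] : R3) ⬝ᵥ q = 0 := by rw [dot3]; simp; ring
  have q2 : (![-q 2, 0, q 0] : R3) ⬝ᵥ q = 0 := by rw [dot3]; simp; ring
  have q3 : (![q 1, -q 0, 0] : R3) ⬝ᵥ q = 0 := by rw [dot3]; simp; ring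
  have k12 := hl _ _ q1 q2
  have k13 := hl _ _ q1 q3
  have k23 := hl _ _ q2 q3
  have k11 := hl _ _ q1 q1
  have k22 := hl _ _ q2 q2
  have k33 := hl _ _ q3 q3
  rw [dot3] at hq
  rw [PQ0_diag, dot3] at k12 k13 k23 k11 k22 k33
  simp at k12 k13 k23 k11 k22 k33
  have key := umb_alg (a := -s 0) (b := -s 1) (c := -s 2) (x := q 0) (y := q 1) (z := q 2)
    (l := -l) (by linarith) (by linarith) (by linarith) (by linear_combination hq)
    (by linear_combination -k12) (by linear_combination -k23) (by linear_combination -k13)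
    (by linear_combination -k11) (by linear_combination -k22) (by linear_combination -k33)
  exact ⟨key.1, by linear_combination key.2⟩

/-- condition (Q0) -/
theorem PQ0_q0 {s ν : R3} (h01 : s 1 ≤ s 0) (h12 : s 2 ≤ s 1) (h02 : s 2 < s 0)
    (hν : ν 0 ^ 2 * (s 0 - s 1) ≠ ν 2 ^ 2 * (s 1 - s 2)) {f : R3} (hf : f ≠ 0)
    (h : Umb2 (Matrix.diagonal s) f) : ν ⬝ᵥ f ≠ 0 := by
  have hff : 0 < f ⬝ᵥ f := by
    rcases lt_or_eq_of_le (show 0 ≤ f ⬝ᵥ f by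
      rw [dot3]; nlinarith [sq_nonneg (f 0), sq_nonneg (f 1), sq_nonneg (f 2)]) with h0 | h0
    · exact h0
    · exfalso
      apply hf
      rw [dot3] at h0
      have e0 : f 0 = 0 := by nlinarith [sq_nonneg (f 0), sq_nonneg (f 1), sq_nonneg (f 2)]
      have e1 : f 1 = 0 := by nlinarith [sq_nonneg (f 0), sq_nonneg (f 1), sq_nonneg (f 2)]
      have e2 : f 2 = 0 := by nlinarith [sq_nonneg (f 0), sq_nonneg (f 1), sq_nonneg (f 2)]
      funext i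
      fin_cases i
      · exact e0
      · exact e1
      · exact e2
  have hr : 0 < Real.sqrt (f ⬝ᵥ f) := Real.sqrt_pos.2 hff
  have hr2 := Real.sq_sqrt hff.le
  obtain ⟨r, hrd⟩ : ∃ r, r = (Real.sqrt (f ⬝ᵥ f))⁻¹ := ⟨_, rfl⟩
  have hr0 : r ≠ 0 := by rw [hrd]; exact inv_ne_zero hr.ne'
  have hq : (r • f) ⬝ᵥ (r • f) = 1 := by
    rw [smul_dotProduct, dotProduct_smul, smul_eq_mul, smul_eq_mul, hrd]
    generalize Real.sqrt (f ⬝ᵥ f) = ρ at hr hr2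
    rw [← hr2]
    field_simp
  have h1 := (Umb2_smul (S := Matrix.diagonal s) (f := f) hr0).2 h
  obtain ⟨k1, k2⟩ := Umb_of_Umb2 h01 h12 h02 hq h1
  have k3 : Umb (-s) (r • f) := ⟨k1, by simp only [Pi.neg_apply]; linear_combination k2⟩
  have k4 : r • f ≠ 0 := smul_ne_zero hr0 hf
  have k5 := k3.dot_ne (ν := ν) (by simp only [Pi.neg_apply]; intro h0; apply hν; linarith) k4
  intro h0
  apply k5
  rw [dotProduct_smul, h0, smul_zero]

theorem PQ0_S : (!![169 / 25, 0, 0; 0, 1, 0; 0, 0, 0] : Matrix (Fin 3) (Fin 3) ℝ) =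
    Matrix.diagonal ![169 / 25, 1, 0] := by
  ext i j
  fin_cases i <;> fin_cases j <;> simp [Matrix.diagonal]

/-- condition (Q0) for the explicit parameters -/
theorem PQ0_star {f : R3} (hf : f ≠ 0)
    (h : Umb2 (!![169 / 25, 0, 0; 0, 1, 0; 0, 0, 0] : Matrix (Fin 3) (Fin 3) ℝ) f) :
    (![13, 7, -6] : R3) ⬝ᵥ f ≠ 0 := by
  rw [PQ0_S] at h
  refine PQ0_q0 ?_ ?_ ?_ ?_ hf h
  · show (1 : ℝ) ≤ 169 / 25; norm_num
  · show (0 : ℝ) ≤ 1; norm_num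
  · show (0 : ℝ) < 169 / 25; norm_num
  · show (13 : ℝ) ^ 2 * (169 / 25 - 1) ≠ (-6) ^ 2 * (1 - 0); norm_num

theorem PQ0_R : (!![6, -5, 5; -5, 4, 1; 5, 1, 5] : Matrix (Fin 3) (Fin 3) ℝ)ᵀ =
    !![6, -5, 5; -5, 4, 1; 5, 1, 5] := by
  ext i j; fin_cases i <;> fin_cases j <;> rfl

theorem PQ0_SS : (!![169 / 25, 0, 0; 0, 1, 0; 0, 0, 0] : Matrix (Fin 3) (Fin 3) ℝ)ᵀ =
    !![169 / 25, 0, 0; 0, 1, 0; 0, 0, 0] := by
  ext i j; fin_cases i <;> fin_cases j <;> rfl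

theorem PQ0_N : (!![-12, -4, 4; -4, -1, 1; 4, 1, -1] : Matrix (Fin 3) (Fin 3) ℝ)ᵀ =
    !![-12, -4, 4; -4, -1, 1; 4, 1, -1] := by
  ext i j; fin_cases i <;> fin_cases j <;> rfl

theorem PQ0_ν : (![13, 7, -6] : R3) ≠ 0 := by
  intro h
  have := congrFun h 0
  simp at this

end Pool.Agent.FL.S2
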