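import Mathlib

/-!
# A kernel checker for positivity of polynomials in two variables

`p : List (List Int)` is the bihomogeneous polynomial `∑ p_ij x^i w^(m-i) y^j z^(n-j)`.
`check k b p` subdivides the cones `x, w ≥ 0` and `y, z ≥ 0` (substitutions `x ↦ x + w`,
`w ↦ w + x`) at most `k` times until all coefficients are positive.
-/

namespace Pool.Agent.FL.Pos2

variable {A B : Type}

/-- `(a :: s) + s` -/
def ad (f : A → A → A) : A → List A → List A
  | a, [] => [a]
  | a, b :: t => f a b :: ad f b t

/-- Taylor shift by one -/
def shift (f : A → A → A) : List A → List A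
  | [] => []
  | a :: l => ad f a (shift f l)

/-- addition of rows -/
def radd : List Int → List Int → List Int
  | a :: l, b :: m => (a + b) :: radd l m
  | _, _ => []

/-- reversal (accumulator) -/
def rev : List A → List A → List A
  | [], acc => acc
  | a :: l, acc => rev l (a :: acc)

/-- all entries positive -/
def allPos : List (List Int) → Bool
  | [] => true
  | r :: p => (r.all fun a => decide (0 < a)) && allPos p

/-- the checker -/
def check : ℕ → Bool → List (List Int) → Bool
  | 0, _, p => allPos p
  | k + 1, true, p => allPos p ||
      (check k false (shift radd p) && check k false (shift radd (rev p [])))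
  | k + 1, false, p => allPos p ||
      (check k true (p.map (shift (· + ·))) && check k true (p.map fun r => shift (· + ·) (rev r [])))

/-- homogeneous value -/
def H : List ℝ → ℝ → ℝ → ℝ
  | [], _, _ => 0
  | a :: l, x, w => a * w ^ l.length + x * H l x w

theorem length_ad (f : A → A → A) (a : A) (s : List A) : (ad f a s).length = s.length + 1 := by
  induction s generalizing a with
  | nil => rfl
  | cons b t ih => simp [ad, ih]

theorem length_shift (f : A → A → A) (l : List A) : (shift f l).length = l.length := by
  induction l with
  | nil => rfl
  | cons a l ih => simp [shift, length_ad, ih]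

theorem rev_eq (l acc : List A) : rev l acc = l.reverse ++ acc := by
  induction l generalizing acc with
  | nil => rfl
  | cons a l ih => simp [rev, ih]

theorem H_ad (a : ℝ) (s : List ℝ) (x w : ℝ) :
    H (ad (· + ·) a s) x w = H (a :: s) x w + w * H s x w := by
  induction s generalizing a with
  | nil => simp [ad, H]
  | cons b t ih =>
    simp only [ad, H, ih, length_ad, List.length_cons]
    ring

theorem H_shift (l : List ℝ) (x w : ℝ) : H (shift (· + ·) l) x w = H l (x + w) w := by
  induction l with
  | nil => rfl
  | cons a l ih =>
    simp only [shift, H_ad, H, length_shift, ih]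
    ring

theorem H_append (l : List ℝ) (a x w : ℝ) :
    H (l ++ [a]) x w = w * H l x w + a * x ^ l.length := by
  induction l with
  | nil => simp [H]
  | cons b l ih =>
    simp only [List.cons_append, H, ih, List.length_append, List.length_cons, List.length_nil,
      pow_succ]
    ring

theorem H_reverse (l : List ℝ) (x w : ℝ) : H l.reverse x w = H l w x := by
  induction l with
  | nil => rfl
  | cons a l ih =>
    rw [List.reverse_cons, H_append, ih, List.length_reverse, H]
    ring

theorem H_pos {l : List ℝ} (hl : l ≠ []) (h : ∀ a ∈ l, 0 < a) {x w : ℝ} (hx : 0 ≤ x) (hw : 0 ≤ w)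
    (hxw : 0 < x + w) : 0 < H l x w := by
  induction l with
  | nil => exact absurd rfl hl
  | cons a l ih =>
    have ha := h a (by simp)
    rcases eq_or_ne l [] with rfl | hne
    · simpa [H] using ha
    · have h2 := ih hne (fun b hb => h b (by simp [hb]))
      unfold H
      rcases hx.eq_or_lt with rfl | hx'
      · have hw' : 0 < w := by linarith
        positivity
      · positivity

theorem map_ad {f : A → A → A} {φ : A → ℝ} {S : A → Prop}
    (hφ : ∀ a b, S a → S b → φ (f a b) = φ a + φ b) {a : A} {s : List A} (ha : S a)
    (hs : ∀ b ∈ s, S b) : (ad f a s).map φ = ad (· + ·) (φ a) (s.map φ) := by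
  induction s generalizing a with
  | nil => rfl
  | cons b t ih =>
    have hb := hs b (by simp)
    simp only [ad, List.map_cons]
    rw [hφ a b ha hb, ih hb fun c hc => hs c (by simp [hc])]

theorem mem_ad {f : A → A → A} {S : A → Prop} (hf : ∀ a b, S a → S b → S (f a b)) {a : A}
    {s : List A} (ha : S a) (hs : ∀ b ∈ s, S b) : ∀ b ∈ ad f a s, S b := by
  induction s generalizing a with
  | nil => simpa [ad] using ha
  | cons b t ih =>
    have hb := hs b (by simp)
    intro c hc
    simp only [ad, List.mem_cons] at hc
    rcases hc with rfl | hc
    · exact hf a b ha hb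
    · exact ih hb (fun d hd => hs d (by simp [hd])) c hc

theorem mem_shift {f : A → A → A} {S : A → Prop} (hf : ∀ a b, S a → S b → S (f a b))
    {l : List A} (hl : ∀ b ∈ l, S b) : ∀ b ∈ shift f l, S b := by
  induction l with
  | nil => simp [shift]
  | cons a l ih =>
    exact mem_ad hf (hl a (by simp)) (ih fun b hb => hl b (by simp [hb]))

theorem map_shift {f : A → A → A} {φ : A → ℝ} {S : A → Prop} (hf : ∀ a b, S a → S b → S (f a b))
    (hφ : ∀ a b, S a → S b → φ (f a b) = φ a + φ b) {l : List A} (hl : ∀ b ∈ l, S b) :
    (shift f l).map φ = shift (· + ·) (l.map φ) := by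
  induction l with
  | nil => rfl
  | cons a l ih =>
    have hl' : ∀ b ∈ l, S b := fun b hb => hl b (by simp [hb])
    simp only [shift, List.map_cons]
    rw [map_ad hφ (hl a (by simp)) (mem_shift hf hl'), ih hl']

theorem length_radd {n : ℕ} {r s : List Int} (hr : r.length = n) (hs : s.length = n) :
    (radd r s).length = n := by
  induction n generalizing r s with
  | zero =>
    rw [List.length_eq_zero_iff] at hr hs
    subst hr hs; rfl
  | succ n ih =>
    cases r with
    | nil => simp at hr
    | cons a r =>
      cases s with
      | nil => simp at hs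
      | cons b s =>
        simp only [radd, List.length_cons, Nat.add_right_cancel_iff] at hr hs ⊢
        exact ih hr hs

/-- value of a row -/
def rv (y z : ℝ) (r : List Int) : ℝ := H (r.map fun a : Int => (a : ℝ)) y z

theorem rv_radd {n : ℕ} {r s : List Int} (hr : r.length = n) (hs : s.length = n) (y z : ℝ) :
    rv y z (radd r s) = rv y z r + rv y z s := by
  induction n generalizing r s with
  | zero =>
    rw [List.length_eq_zero_iff] at hr hs
    subst hr hs; simp [radd, rv, H]
  | succ n ih =>
    cases r with
    | nil => simp at hr
    | cons a r =>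
      cases s with
      | nil => simp at hs
      | cons b s =>
        simp only [List.length_cons, Nat.add_right_cancel_iff] at hr hs
        have h1 := ih hr hs
        have h2 := length_radd hr hs
        unfold rv at h1 ⊢
        simp only [radd, List.map_cons, H, h1, List.length_map, hr, hs, h2]
        push_cast
        ring

theorem rv_shift (y z : ℝ) (r : List Int) : rv y z (shift (· + ·) r) = rv (y + z) z r := by
  unfold rv
  rw [map_shift (S := fun _ => True) (fun _ _ _ _ => trivial) (fun a b _ _ => by push_cast; rfl)
    (fun _ _ => trivial), H_shift]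

theorem rv_rev (y z : ℝ) (r : List Int) : rv y z (rev r []) = rv z y r := by
  unfold rv
  rw [rev_eq, List.append_nil, List.map_reverse, H_reverse]

/-- value -/
def V (p : List (List Int)) (x w y z : ℝ) : ℝ := H (p.map (rv y z)) x w

theorem V_shift {n : ℕ} {p : List (List Int)} (hp : ∀ r ∈ p, r.length = n) (x w y z : ℝ) :
    V (shift radd p) x w y z = V p (x + w) w y z := by
  unfold V
  rw [map_shift (S := fun r => r.length = n) (fun a b ha hb => length_radd ha hb)
    (fun a b ha hb => rv_radd ha hb y z) hp, H_shift]

theorem V_rev (p : List (List Int)) (x w y z : ℝ) : V (rev p []) x w y z = V p w x y z := by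
  unfold V
  rw [rev_eq, List.append_nil, List.map_reverse, H_reverse]

theorem V_map_shift (p : List (List Int)) (x w y z : ℝ) :
    V (p.map (shift (· + ·))) x w y z = V p x w (y + z) z := by
  unfold V
  rw [List.map_map]
  congr 1
  apply List.map_congr_left
  intro r _
  exact rv_shift y z r

theorem V_map_shift_rev (p : List (List Int)) (x w y z : ℝ) :
    V (p.map fun r => shift (· + ·) (rev r [])) x w y z = V p x w z (y + z) := by
  unfold V
  rw [List.map_map]
  congr 1
  apply List.map_congr_left
  intro r _
  show rv y z (shift (· + ·) (rev r [])) = _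
  rw [rv_shift, rv_rev]

theorem allPos_iff (p : List (List Int)) : allPos p = true ↔ ∀ r ∈ p, ∀ a ∈ r, 0 < a := by
  induction p with
  | nil => simp [allPos]
  | cons r p ih => simp [allPos, ih]

theorem V_pos_of_allPos {p : List (List Int)} {n : ℕ} (hn : n ≠ 0) (hp : p ≠ [])
    (hl : ∀ r ∈ p, r.length = n) (h : allPos p = true) {x w y z : ℝ} (hx : 0 ≤ x) (hw : 0 ≤ w)
    (hy : 0 ≤ y) (hz : 0 ≤ z) (hxw : 0 < x + w) (hyz : 0 < y + z) : 0 < V p x w y z := by
  rw [allPos_iff] at h
  apply H_pos (by simpa using hp) _ hx hw hxw
  intro a ha
  rw [List.mem_map] at ha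
  obtain ⟨r, hr, rfl⟩ := ha
  apply H_pos _ _ hy hz hyz
  · have := hl r hr
    intro h0
    rw [List.map_eq_nil_iff] at h0
    rw [h0] at this
    exact hn this.symm
  · intro b hb
    rw [List.mem_map] at hb
    obtain ⟨c, hc, rfl⟩ := hb
    exact_mod_cast h r hr c hc

/-- correctness of the checker -/
theorem V_pos (k : ℕ) (b : Bool) {p : List (List Int)} {n : ℕ} (hn : n ≠ 0) (hp : p ≠ [])
    (hl : ∀ r ∈ p, r.length = n) (h : check k b p = true) {x w y z : ℝ} (hx : 0 ≤ x) (hw : 0 ≤ w)
    (hy : 0 ≤ y) (hz : 0 ≤ z) (hxw : 0 < x + w) (hyz : 0 < y + z) : 0 < V p x w y z := by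
  induction k generalizing b p x w y z with
  | zero => exact V_pos_of_allPos hn hp hl h hx hw hy hz hxw hyz
  | succ k ih =>
    have hne : ∀ (f : List Int → List Int → List Int) (q : List (List Int)), q.length = p.length →
        shift f q ≠ [] := by
      intro f q hq h0
      have := length_shift f q
      rw [h0, hq] at this
      exact hp (List.length_eq_zero_iff.1 this.symm)
    cases b with
    | true =>
      simp only [check, Bool.or_eq_true, Bool.and_eq_true] at h
      rcases h with h | ⟨h1, h2⟩
      · exact V_pos_of_allPos hn hp hl h hx hw hy hz hxw hyz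
      · rcases le_total w x with hle | hle
        · have := ih false (hne _ _ rfl)
            (mem_shift (S := fun r : List Int => r.length = n) (fun a b ha hb => length_radd ha hb) hl) h1
            (x := x - w) (w := w) (by linarith) hw hy hz
            (by
              rcases hw.eq_or_lt with rfl | hw'
              · linarith
              · linarith) hyz
          rw [V_shift hl, sub_add_cancel] at this
          exact this
        · have hl' : ∀ r ∈ rev p [], r.length = n := by
            rw [rev_eq, List.append_nil]
            intro r hr
            exact hl r (List.mem_reverse.1 hr)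
          have := ih false (hne _ _ (by rw [rev_eq]; simp))
            (mem_shift (S := fun r : List Int => r.length = n) (fun a b ha hb => length_radd ha hb) hl') h2
            (x := w - x) (w := x) (by linarith) hx hy hz
            (by linarith) hyz
          rw [V_shift hl', V_rev, sub_add_cancel] at this
          exact this
    | false =>
      simp only [check, Bool.or_eq_true, Bool.and_eq_true] at h
      rcases h with h | ⟨h1, h2⟩
      · exact V_pos_of_allPos hn hp hl h hx hw hy hz hxw hyz
      · rcases le_total z y with hle | hle
        · have := ih true (by simpa using hp)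
            (by
              intro r hr
              rw [List.mem_map] at hr
              obtain ⟨s, hs, rfl⟩ := hr
              rw [length_shift]; exact hl s hs) h1
            (y := y - z) (z := z) hx hw (by linarith) hz hxw (by linarith)
          rw [V_map_shift, sub_add_cancel] at this
          exact this
        · have := ih true (by simpa using hp)
            (by
              intro r hr
              rw [List.mem_map] at hr
              obtain ⟨s, hs, rfl⟩ := hr
              rw [length_shift, rev_eq, List.append_nil, List.length_reverse]; exact hl s hs) h2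
            (y := z - y) (z := y) hx hw (by linarith) hy hxw (by linarith)
          rw [V_map_shift_rev, sub_add_cancel] at this
          exact this

/-! ### boxes -/

/-- positivity on `0 ≤ x ≤ w`, `0 ≤ y ≤ z` -/
def checkBox (k : ℕ) (p : List (List Int)) : Bool :=
  check k true ((shift radd (rev p [])).map fun r => shift (· + ·) (rev r []))

/-- all rows have length `n` -/
def rows (n : ℕ) : List (List Int) → Bool
  | [] => true
  | r :: p => (r.length == n) && rows n p

theorem rows_iff (n : ℕ) (p : List (List Int)) : rows n p = true ↔ ∀ r ∈ p, r.length = n := by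
  induction p with
  | nil => simp [rows]
  | cons r p ih => simp [rows, ih]

theorem box {k n : ℕ} {p : List (List Int)} (hn : n ≠ 0) (hp : p ≠ []) (hl : rows n p = true)
    (h : checkBox k p = true) {x w y z : ℝ} (hx : 0 ≤ x) (hxw : x ≤ w) (hw : 0 < w) (hy : 0 ≤ y)
    (hyz : y ≤ z) (hz : 0 < z) : 0 < V p x w y z := by
  rw [rows_iff] at hl
  have hl' : ∀ r ∈ rev p [], r.length = n := by
    rw [rev_eq, List.append_nil]
    intro r hr
    exact hl r (List.mem_reverse.1 hr)
  have hl2 : ∀ r ∈ shift radd (rev p []), r.length = n :=
    mem_shift (S := fun r : List Int => r.length = n) (fun a b ha hb => length_radd ha hb) hl'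
  have h1 := V_pos k true (n := n) hn (p := (shift radd (rev p [])).map fun r =>
      shift (· + ·) (rev r [])) (by
        intro h0
        rw [List.map_eq_nil_iff] at h0
        have := length_shift radd (rev p [])
        rw [h0, rev_eq] at this
        simp only [List.length_nil, List.append_nil, List.length_reverse] at this
        exact hp (List.length_eq_zero_iff.1 this.symm)) (by
        intro r hr
        rw [List.mem_map] at hr
        obtain ⟨s, hs, rfl⟩ := hr
        rw [length_shift, rev_eq, List.append_nil, List.length_reverse]
        exact hl2 s hs) h (x := w - x) (w := x) (y := z - y) (z := y) (by linarith) hx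
        (by linarith) hy (by linarith) (by linarith)
  rw [V_map_shift_rev, V_shift hl', V_rev, sub_add_cancel, sub_add_cancel] at h1
  exact h1

/-- change of the sign of the variable -/
def alt : List Int → List Int
  | [] => []
  | [a] => [a]
  | a :: b :: l => a :: -b :: alt l

theorem length_alt (l : List Int) : (alt l).length = l.length := by
  induction l using alt.induct with
  | case1 => rfl
  | case2 a => rfl
  | case3 a b l ih => simp [alt, ih]

theorem H1_alt (l : List Int) (x : ℝ) :
    H ((alt l).map fun a : Int => (a : ℝ)) x 1 = H (l.map fun a : Int => (a : ℝ)) (-x) 1 := by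
  induction l using alt.induct with
  | case1 => rfl
  | case2 a => simp [alt, H]
  | case3 a b l ih =>
    simp only [alt, List.map_cons, H, ih, one_pow, mul_one]
    push_cast
    ring

/-- change of the sign of the outer variable -/
def altX : List (List Int) → List (List Int)
  | [] => []
  | [a] => [a]
  | a :: b :: l => a :: (b.map fun c => -c) :: altX l

theorem rv_neg (y z : ℝ) (r : List Int) : rv y z (r.map fun c => -c) = - rv y z r := by
  unfold rv
  rw [List.map_map]
  induction r with
  | nil => simp [H]
  | cons a r ih =>
    simp only [List.map_cons, H, ih, List.length_map, Function.comp_apply]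
    push_cast
    ring

theorem V_altX (p : List (List Int)) (x y z : ℝ) : V (altX p) x 1 y z = V p (-x) 1 y z := by
  induction p using altX.induct with
  | case1 => rfl
  | case2 a => simp [altX, V, H]
  | case3 a b l ih =>
    unfold V at ih ⊢
    simp only [altX, List.map_cons, H, ih, one_pow, mul_one, rv_neg]
    ring

theorem V_alt (p : List (List Int)) (x w y : ℝ) :
    V (p.map alt) x w y 1 = V p x w (-y) 1 := by
  unfold V
  rw [List.map_map]
  congr 1
  apply List.map_congr_left
  intro r _
  exact H1_alt r y

theorem rows_altX {n : ℕ} {p : List (List Int)} (h : rows n p = true) :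
    rows n (altX p) = true := by
  rw [rows_iff] at h ⊢
  induction p using altX.induct with
  | case1 => simp [altX]
  | case2 a => simpa [altX] using h
  | case3 a b l ih =>
    have h1 := ih (fun r hr => h r (by simp [hr]))
    intro r hr
    simp only [altX, List.mem_cons] at hr
    rcases hr with rfl | rfl | hr
    · exact h _ (by simp)
    · rw [List.length_map]; exact h _ (by simp)
    · exact h1 r hr

theorem rows_alt {n : ℕ} {p : List (List Int)} (h : rows n p = true) :
    rows n (p.map alt) = true := by
  rw [rows_iff] at h ⊢
  intro r hr
  rw [List.mem_map] at hr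
  obtain ⟨s, hs, rfl⟩ := hr
  rw [length_alt]; exact h s hs

/-- positivity on `[-1, 1]²` -/
def checkSym (k : ℕ) (p : List (List Int)) : Bool :=
  checkBox k p && checkBox k (altX p) && (checkBox k (p.map alt) && checkBox k (altX (p.map alt)))

theorem altX_ne {p : List (List Int)} (hp : p ≠ []) : altX p ≠ [] := by
  match p, hp with
  | [a], _ => simp [altX]
  | a :: b :: l, _ => simp [altX]

/-- positivity on `[0, 1]²` -/
theorem box01 {k n : ℕ} {p : List (List Int)} (hn : n ≠ 0) (hp : p ≠ []) (hl : rows n p = true)
    (h : checkBox k p = true) {x y : ℝ} (hx : 0 ≤ x) (hx1 : x ≤ 1) (hy : 0 ≤ y) (hy1 : y ≤ 1) :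
    0 < V p x 1 y 1 :=
  box hn hp hl h hx hx1 one_pos hy hy1 one_pos

/-- positivity on `[-1, 1]²` -/
theorem sym {k n : ℕ} {p : List (List Int)} (hn : n ≠ 0) (hp : p ≠ []) (hl : rows n p = true)
    (h : checkSym k p = true) {x y : ℝ} (hx : |x| ≤ 1) (hy : |y| ≤ 1) : 0 < V p x 1 y 1 := by
  simp only [checkSym, Bool.and_eq_true] at h
  obtain ⟨⟨h1, h2⟩, h3, h4⟩ := h
  have hp' : p.map alt ≠ [] := by simpa using hp
  rw [abs_le] at hx hy
  rcases le_total 0 x with hx0 | hx0 <;> rcases le_total 0 y with hy0 | hy0
  · exact box01 hn hp hl h1 hx0 hx.2 hy0 hy.2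
  · have := box01 hn hp' (rows_alt hl) h3 hx0 hx.2 (y := -y) (by linarith) (by linarith)
    rwa [V_alt, neg_neg] at this
  · have := box01 hn (altX_ne hp) (rows_altX hl) h2 (x := -x) (by linarith) (by linarith) hy0 hy.2
    rwa [V_altX, neg_neg] at this
  · have := box01 hn (altX_ne hp') (rows_altX (rows_alt hl)) h4 (x := -x) (by linarith)
      (by linarith) (y := -y) (by linarith) (by linarith)
    rwa [V_altX, V_alt, neg_neg, neg_neg] at this

end Pool.Agent.FL.Pos2
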