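import Mathlib

/-!
# MP_f09395_gt, space (2): certificate for the condition (Q1)

On the flags `((cos τ) n, (sin τ) n, 0)`, `(-(sin τ) n, (cos τ) n, 0)` the third order form of
`v0 pStar` is `q1C n₀ n₁ n₂ (cos 2τ)`, an affine combination of the two sextics `q1m2`, `q1p3`.
-/

noncomputable section

namespace Pool.Agent.FL.S2

/-- the value for `cos 2τ = -1` -/
def q1m2 (x y z : ℝ) : ℝ :=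
  1617 * x ^ 6 - 373026 / 125 * x ^ 5 * y + 396231 / 125 * x ^ 5 * z
    + 2926453 / 625 * x ^ 4 * y ^ 2 + 1060679 / 625 * x ^ 4 * y * z
    + 3346828 / 625 * x ^ 4 * z ^ 2 - 834652 / 625 * x ^ 3 * y ^ 3
    + 1000202 / 625 * x ^ 3 * y ^ 2 * z - 356602 / 625 * x ^ 3 * y * z ^ 2
    + 606652 / 625 * x ^ 3 * z ^ 3 + 697127 / 625 * x ^ 2 * y ^ 4
    + 785422 / 625 * x ^ 2 * y ^ 3 * z + 1366154 / 625 * x ^ 2 * y ^ 2 * z ^ 2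
    + 653122 / 625 * x ^ 2 * y * z ^ 3 + 601677 / 625 * x ^ 2 * z ^ 4 + 1406 / 25 * x * y ^ 5
    + 23 * x * y ^ 4 * z + 1622 / 5 * x * y ^ 3 * z ^ 2 - 768 / 25 * x * y ^ 2 * z ^ 3
    + 5504 / 25 * x * y * z ^ 4 - 143 / 25 * x * z ^ 5 + 1199 / 5 * y ^ 6
    - 1057 / 25 * y ^ 5 * z + 19054 / 25 * y ^ 4 * z ^ 2 - 158 * y ^ 3 * z ^ 3
    + 19079 / 25 * y ^ 2 * z ^ 4 - 2593 / 25 * y * z ^ 5 + 1204 / 5 * z ^ 6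

/-- the value for `cos 2τ = 0` -/
def q1p3 (x y z : ℝ) : ℝ :=
  1622 * x ^ 6 - 359276 / 125 * x ^ 5 * y + 414981 / 125 * x ^ 5 * z
    + 3068188 / 625 * x ^ 4 * y ^ 2 + 555209 / 625 * x ^ 4 * y * z
    + 3729313 / 625 * x ^ 4 * z ^ 2 - 2356032 / 625 * x ^ 3 * y ^ 3
    + 3134582 / 625 * x ^ 3 * y ^ 2 * z - 2165982 / 625 * x ^ 3 * y * z ^ 2
    + 3079032 / 625 * x ^ 3 * z ^ 3 + 3044822 / 625 * x ^ 2 * y ^ 4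
    + 675922 / 625 * x ^ 2 * y ^ 3 * z + 7263044 / 625 * x ^ 2 * y ^ 2 * z ^ 2
    + 700122 / 625 * x ^ 2 * y * z ^ 3 + 4213372 / 625 * x ^ 2 * z ^ 4 + 4156 / 25 * x * y ^ 5
    + 3169 / 5 * x * y ^ 4 * z + 5026 / 5 * x * y ^ 3 * z ^ 2 + 20252 / 25 * x * y ^ 2 * z ^ 3
    + 21774 / 25 * x * y * z ^ 4 + 3607 / 25 * x * z ^ 5 + 624 / 5 * y ^ 6
    - 1807 / 25 * y ^ 5 * z + 17179 / 25 * y ^ 4 * z ^ 2 - 198 * y ^ 3 * z ^ 3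
    + 23704 / 25 * y ^ 2 * z ^ 4 - 3343 / 25 * y * z ^ 5 + 1929 / 5 * z ^ 6

/-- the third order form of `v0 pStar` on `B0`, with `C = cos 2τ` -/
def q1C (x y z C : ℝ) : ℝ :=
  ((3 * C ^ 2 - 2 * C ^ 3) * q1m2 x y z + (5 - 3 * C ^ 2 + 2 * C ^ 3) * q1p3 x y z) / 5

theorem q1_six {x y z : ℝ} (h : x ^ 2 + y ^ 2 + z ^ 2 = 1) : 0 < x ^ 6 + y ^ 6 + z ^ 6 := by
  by_contra hn
  have hx : x ^ 6 = 0 := by nlinarith [sq_nonneg (x ^ 3), sq_nonneg (y ^ 3), sq_nonneg (z ^ 3)]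
  have hy : y ^ 6 = 0 := by nlinarith [sq_nonneg (x ^ 3), sq_nonneg (y ^ 3), sq_nonneg (z ^ 3)]
  have hz : z ^ 6 = 0 := by nlinarith [sq_nonneg (x ^ 3), sq_nonneg (y ^ 3), sq_nonneg (z ^ 3)]
  rw [pow_eq_zero_iff (by norm_num)] at hx hy hz
  rw [hx, hy, hz] at h
  norm_num at h

theorem q1m2_pos {x y z : ℝ} (h : x ^ 2 + y ^ 2 + z ^ 2 = 1) : 0 < q1m2 x y z := by
  have h6 := q1_six h
  have key : 1250 * q1m2 x y z = 20000 * (x ^ 6 + y ^ 6 + z ^ 6) + (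
      (1380 * x ^ 3 - 1350 * x ^ 2 * y + 1440 * x ^ 2 * z - 70 * x * y ^ 2 - 260 * x * y * z
        - 170 * x * z ^ 2 + 70 * y ^ 3 - 230 * y ^ 2 * z + 210 * y * z ^ 2 - 80 * z ^ 3) ^ 2
        + (2030 * x ^ 2 * y + 1660 * x ^ 2 * z - 500 * x * y ^ 2 + 750 * x * y * z
        + 230 * x * z ^ 2 - 120 * y ^ 3 + 40 * y ^ 2 * z - 80 * y * z ^ 2 - 90 * z ^ 3) ^ 2
        + (1490 * x ^ 2 * z + 260 * x * y ^ 2 - 1490 * x * y * z + 390 * x * z ^ 2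
        - 220 * y ^ 2 * z + 170 * y * z ^ 2 - 90 * z ^ 3) ^ 2 + (1270 * x * y ^ 2
        + 980 * x * y * z - 380 * x * z ^ 2 - 20 * y ^ 3 + 130 * y ^ 2 * z - 10 * y * z ^ 2
        - 10 * z ^ 3) ^ 2 + (1360 * x * y * z + 770 * x * z ^ 2 + 30 * y ^ 3 - 270 * y ^ 2 * z
        + 270 * y * z ^ 2 + 20 * z ^ 3) ^ 2 + (960 * x * z ^ 2 - 30 * y ^ 3 + 290 * y ^ 2 * z
        - 200 * y * z ^ 2 + 20 * z ^ 3) ^ 2 + (430 * y ^ 3 + 30 * y ^ 2 * z - 320 * y * z ^ 2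
        + 20 * z ^ 3) ^ 2 + (880 * y ^ 2 * z + 140 * y * z ^ 2 - 140 * z ^ 3) ^ 2
        + (850 * y * z ^ 2 - 20 * z ^ 3) ^ 2 + (400 * z ^ 3) ^ 2 + 2130 * (x ^ 3 - x ^ 2 * y) ^ 2
        + 6045 * (x ^ 3 - x ^ 2 * z) ^ 2 + 2696 * (x ^ 3 - x * y ^ 2) ^ 2 + 6648 * (x ^ 3
        - x * y * z) ^ 2 + 4895 * (x ^ 3 + x * z ^ 2) ^ 2 + 2153 * (x ^ 3 - y ^ 3) ^ 2
        + 1912 * (x ^ 3 - y ^ 2 * z) ^ 2 + 5678 * (x ^ 3 + y * z ^ 2) ^ 2 + 2346 * (x ^ 3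
        + z ^ 3) ^ 2 + 327 * (x ^ 2 * y + x ^ 2 * z) ^ 2 + 8599 * (x ^ 2 * y - x * y ^ 2) ^ 2
        + 3156 * (x ^ 2 * y - x * y * z) ^ 2 + 1930 * (x ^ 2 * y - x * z ^ 2) ^ 2
        + 19997 / 2 * (x ^ 2 * y + y ^ 3) ^ 2 + 7155 * (x ^ 2 * y - y ^ 2 * z) ^ 2
        + 835 * (x ^ 2 * y - y * z ^ 2) ^ 2 + 6706 * (x ^ 2 * y - z ^ 3) ^ 2 + 7430 * (x ^ 2 * z
        - x * y ^ 2) ^ 2 + 2950 * (x ^ 2 * z + x * y * z) ^ 2 + 3394 * (x ^ 2 * z - x * z ^ 2) ^ 2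
        + 5484 * (x ^ 2 * z - y ^ 3) ^ 2 + 4616 * (x ^ 2 * z - y ^ 2 * z) ^ 2 + 4662 * (x ^ 2 * z
        + y * z ^ 2) ^ 2 + 5002 * (x ^ 2 * z + z ^ 3) ^ 2 + 4361 * (x * y ^ 2 + x * y * z) ^ 2
        + 4379 * (x * y ^ 2 + x * z ^ 2) ^ 2 + 5450 * (x * y ^ 2 + y ^ 3) ^ 2 + 1918 * (x * y ^ 2
        - y ^ 2 * z) ^ 2 + 4832 * (x * y ^ 2 + y * z ^ 2) ^ 2 + 614 * (x * y ^ 2 - z ^ 3) ^ 2
        + 3434 * (x * y * z - x * z ^ 2) ^ 2 + 707 * (x * y * z - y ^ 3) ^ 2 + 1145 * (x * y * z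
        + y ^ 2 * z) ^ 2 + 2775 * (x * y * z - y * z ^ 2) ^ 2 + 2733 * (x * y * z - z ^ 3) ^ 2
        + 227 * (x * z ^ 2 - y ^ 3) ^ 2 + 3411 * (x * z ^ 2 - y ^ 2 * z) ^ 2 + 3633 * (x * z ^ 2
        + y * z ^ 2) ^ 2 + 225 * (x * z ^ 2 + z ^ 3) ^ 2 + 975 * (y ^ 3 + y ^ 2 * z) ^ 2
        + 1247 * (y ^ 3 - y * z ^ 2) ^ 2 + 2149 * (y ^ 3 - z ^ 3) ^ 2 + 3101 * (y ^ 2 * z
        - y * z ^ 2) ^ 2 + 281 / 2 * (y ^ 2 * z - z ^ 3) ^ 2 + 1575 * (y * z ^ 2 + z ^ 3) ^ 2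
        + 62347 * (x ^ 3) ^ 2 + 134523 / 2 * (x ^ 2 * y) ^ 2 + 63856 * (x ^ 2 * z) ^ 2
        + 74778 * (x * y ^ 2) ^ 2 + 91943 * (x * y * z) ^ 2 + 72422 * (x * z ^ 2) ^ 2
        + 89919 / 2 * (y ^ 3) ^ 2 + 153441 / 2 * (y ^ 2 * z) ^ 2 + 66793 * (y * z ^ 2) ^ 2
        + 111219 / 2 * (z ^ 3) ^ 2) := by
    unfold q1m2
    ring
  have hnn : 0 ≤ (
      (1380 * x ^ 3 - 1350 * x ^ 2 * y + 1440 * x ^ 2 * z - 70 * x * y ^ 2 - 260 * x * y * z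
        - 170 * x * z ^ 2 + 70 * y ^ 3 - 230 * y ^ 2 * z + 210 * y * z ^ 2 - 80 * z ^ 3) ^ 2
        + (2030 * x ^ 2 * y + 1660 * x ^ 2 * z - 500 * x * y ^ 2 + 750 * x * y * z
        + 230 * x * z ^ 2 - 120 * y ^ 3 + 40 * y ^ 2 * z - 80 * y * z ^ 2 - 90 * z ^ 3) ^ 2
        + (1490 * x ^ 2 * z + 260 * x * y ^ 2 - 1490 * x * y * z + 390 * x * z ^ 2
        - 220 * y ^ 2 * z + 170 * y * z ^ 2 - 90 * z ^ 3) ^ 2 + (1270 * x * y ^ 2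
        + 980 * x * y * z - 380 * x * z ^ 2 - 20 * y ^ 3 + 130 * y ^ 2 * z - 10 * y * z ^ 2
        - 10 * z ^ 3) ^ 2 + (1360 * x * y * z + 770 * x * z ^ 2 + 30 * y ^ 3 - 270 * y ^ 2 * z
        + 270 * y * z ^ 2 + 20 * z ^ 3) ^ 2 + (960 * x * z ^ 2 - 30 * y ^ 3 + 290 * y ^ 2 * z
        - 200 * y * z ^ 2 + 20 * z ^ 3) ^ 2 + (430 * y ^ 3 + 30 * y ^ 2 * z - 320 * y * z ^ 2
        + 20 * z ^ 3) ^ 2 + (880 * y ^ 2 * z + 140 * y * z ^ 2 - 140 * z ^ 3) ^ 2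
        + (850 * y * z ^ 2 - 20 * z ^ 3) ^ 2 + (400 * z ^ 3) ^ 2 + 2130 * (x ^ 3 - x ^ 2 * y) ^ 2
        + 6045 * (x ^ 3 - x ^ 2 * z) ^ 2 + 2696 * (x ^ 3 - x * y ^ 2) ^ 2 + 6648 * (x ^ 3
        - x * y * z) ^ 2 + 4895 * (x ^ 3 + x * z ^ 2) ^ 2 + 2153 * (x ^ 3 - y ^ 3) ^ 2
        + 1912 * (x ^ 3 - y ^ 2 * z) ^ 2 + 5678 * (x ^ 3 + y * z ^ 2) ^ 2 + 2346 * (x ^ 3
        + z ^ 3) ^ 2 + 327 * (x ^ 2 * y + x ^ 2 * z) ^ 2 + 8599 * (x ^ 2 * y - x * y ^ 2) ^ 2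
        + 3156 * (x ^ 2 * y - x * y * z) ^ 2 + 1930 * (x ^ 2 * y - x * z ^ 2) ^ 2
        + 19997 / 2 * (x ^ 2 * y + y ^ 3) ^ 2 + 7155 * (x ^ 2 * y - y ^ 2 * z) ^ 2
        + 835 * (x ^ 2 * y - y * z ^ 2) ^ 2 + 6706 * (x ^ 2 * y - z ^ 3) ^ 2 + 7430 * (x ^ 2 * z
        - x * y ^ 2) ^ 2 + 2950 * (x ^ 2 * z + x * y * z) ^ 2 + 3394 * (x ^ 2 * z - x * z ^ 2) ^ 2
        + 5484 * (x ^ 2 * z - y ^ 3) ^ 2 + 4616 * (x ^ 2 * z - y ^ 2 * z) ^ 2 + 4662 * (x ^ 2 * z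
        + y * z ^ 2) ^ 2 + 5002 * (x ^ 2 * z + z ^ 3) ^ 2 + 4361 * (x * y ^ 2 + x * y * z) ^ 2
        + 4379 * (x * y ^ 2 + x * z ^ 2) ^ 2 + 5450 * (x * y ^ 2 + y ^ 3) ^ 2 + 1918 * (x * y ^ 2
        - y ^ 2 * z) ^ 2 + 4832 * (x * y ^ 2 + y * z ^ 2) ^ 2 + 614 * (x * y ^ 2 - z ^ 3) ^ 2
        + 3434 * (x * y * z - x * z ^ 2) ^ 2 + 707 * (x * y * z - y ^ 3) ^ 2 + 1145 * (x * y * z
        + y ^ 2 * z) ^ 2 + 2775 * (x * y * z - y * z ^ 2) ^ 2 + 2733 * (x * y * z - z ^ 3) ^ 2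
        + 227 * (x * z ^ 2 - y ^ 3) ^ 2 + 3411 * (x * z ^ 2 - y ^ 2 * z) ^ 2 + 3633 * (x * z ^ 2
        + y * z ^ 2) ^ 2 + 225 * (x * z ^ 2 + z ^ 3) ^ 2 + 975 * (y ^ 3 + y ^ 2 * z) ^ 2
        + 1247 * (y ^ 3 - y * z ^ 2) ^ 2 + 2149 * (y ^ 3 - z ^ 3) ^ 2 + 3101 * (y ^ 2 * z
        - y * z ^ 2) ^ 2 + 281 / 2 * (y ^ 2 * z - z ^ 3) ^ 2 + 1575 * (y * z ^ 2 + z ^ 3) ^ 2
        + 62347 * (x ^ 3) ^ 2 + 134523 / 2 * (x ^ 2 * y) ^ 2 + 63856 * (x ^ 2 * z) ^ 2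
        + 74778 * (x * y ^ 2) ^ 2 + 91943 * (x * y * z) ^ 2 + 72422 * (x * z ^ 2) ^ 2
        + 89919 / 2 * (y ^ 3) ^ 2 + 153441 / 2 * (y ^ 2 * z) ^ 2 + 66793 * (y * z ^ 2) ^ 2
        + 111219 / 2 * (z ^ 3) ^ 2) := by
    positivity
  linarith

theorem q1p3_pos {x y z : ℝ} (h : x ^ 2 + y ^ 2 + z ^ 2 = 1) : 0 < q1p3 x y z := by
  have h6 := q1_six h
  have key : 1250 * q1p3 x y z = 20000 * (x ^ 6 + y ^ 6 + z ^ 6) + (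
      (1390 * x ^ 3 - 1290 * x ^ 2 * y + 1490 * x ^ 2 * z - 390 * x * y ^ 2 - 310 * x * y * z
        - 510 * x * z ^ 2 - 80 * y ^ 2 * z + 60 * y * z ^ 2 - 50 * z ^ 3) ^ 2 + (2330 * x ^ 2 * y
        + 1250 * x ^ 2 * z - 1230 * x * y ^ 2 + 1880 * x * y * z + 530 * x * z ^ 2 - 30 * y ^ 3
        + 30 * y ^ 2 * z - 60 * y * z ^ 2 - 20 * z ^ 3) ^ 2 + (2230 * x ^ 2 * z + 270 * x * y ^ 2
        - 2710 * x * y * z + 1460 * x * z ^ 2 - 100 * y ^ 2 * z + 80 * y * z ^ 2 - 80 * z ^ 3) ^ 2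
        + (2090 * x * y ^ 2 + 1650 * x * y * z - 740 * x * z ^ 2 + 30 * y ^ 3 + 210 * y ^ 2 * z
        + 30 * y * z ^ 2 - 30 * z ^ 3) ^ 2 + (2240 * x * y * z + 2020 * x * z ^ 2 - 80 * y ^ 2 * z
        + 400 * y * z ^ 2 + 30 * z ^ 3) ^ 2 + (1270 * x * z ^ 2 + 280 * y ^ 2 * z
        - 410 * y * z ^ 2 + 90 * z ^ 3) ^ 2 + (270 * y ^ 3 - 190 * y ^ 2 * z - 90 * y * z ^ 2
        + 50 * z ^ 3) ^ 2 + (800 * y ^ 2 * z - 210 * z ^ 3) ^ 2 + (1020 * y * z ^ 2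
        - 40 * z ^ 3) ^ 2 + (570 * z ^ 3) ^ 2 + 3280 * (x ^ 3 - x ^ 2 * y) ^ 2 + 3805 * (x ^ 3
        + x ^ 2 * z) ^ 2 + 3781 / 2 * (x ^ 3 + x * y ^ 2) ^ 2 + 4945 * (x ^ 3 - x * y * z) ^ 2
        + 5627 / 2 * (x ^ 3 + x * z ^ 2) ^ 2 + 2348 * (x ^ 3 - y ^ 3) ^ 2 + 1419 * (x ^ 3
        + y ^ 2 * z) ^ 2 + 299 * (x ^ 3 - y * z ^ 2) ^ 2 + 3145 * (x ^ 3 - z ^ 3) ^ 2
        + 654 * (x ^ 2 * y + x ^ 2 * z) ^ 2 + 9116 * (x ^ 2 * y + x * y ^ 2) ^ 2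
        + 10291 * (x ^ 2 * y - x * y * z) ^ 2 + 10334 * (x ^ 2 * y + x * z ^ 2) ^ 2
        + 8253 / 2 * (x ^ 2 * y + y ^ 3) ^ 2 + 793 * (x ^ 2 * y - y ^ 2 * z) ^ 2
        + 1175 / 2 * (x ^ 2 * y - y * z ^ 2) ^ 2 + 6118 * (x ^ 2 * y - z ^ 3) ^ 2
        + 9146 * (x ^ 2 * z - x * y ^ 2) ^ 2 + 2983 * (x ^ 2 * z + x * y * z) ^ 2
        + 6723 * (x ^ 2 * z - x * z ^ 2) ^ 2 + 10026 * (x ^ 2 * z + y ^ 3) ^ 2 + 2232 * (x ^ 2 * z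
        - y ^ 2 * z) ^ 2 + 471 * (x ^ 2 * z - y * z ^ 2) ^ 2 + 21575 / 2 * (x ^ 2 * z - z ^ 3) ^ 2
        + 5789 * (x * y ^ 2 + x * y * z) ^ 2 + 7963 * (x * y ^ 2 - x * z ^ 2) ^ 2
        + 4300 * (x * y ^ 2 + y ^ 3) ^ 2 + 8091 * (x * y ^ 2 - y ^ 2 * z) ^ 2 + 5976 * (x * y ^ 2
        + y * z ^ 2) ^ 2 + 5160 * (x * y ^ 2 + z ^ 3) ^ 2 + 5689 * (x * y * z - x * z ^ 2) ^ 2
        + 4916 * (x * y * z + y ^ 3) ^ 2 + 4481 * (x * y * z + y ^ 2 * z) ^ 2 + 10726 * (x * y * z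
        - y * z ^ 2) ^ 2 + 10577 * (x * y * z + z ^ 3) ^ 2 + 1693 * (x * z ^ 2 + y ^ 3) ^ 2
        + 5466 * (x * z ^ 2 + y ^ 2 * z) ^ 2 + 1873 * (x * z ^ 2 + y * z ^ 2) ^ 2
        + 5025 * (x * z ^ 2 - z ^ 3) ^ 2 + 725 * (y ^ 3 + y ^ 2 * z) ^ 2 + 1171 * (y ^ 3
        - y * z ^ 2) ^ 2 + 798 * (y ^ 3 - z ^ 3) ^ 2 + 1848 * (y ^ 2 * z + y * z ^ 2) ^ 2
        + 3774 * (y ^ 2 * z - z ^ 3) ^ 2 + 4275 * (y * z ^ 2 - z ^ 3) ^ 2 + 51455 * (x ^ 3) ^ 2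
        + 78495 * (x ^ 2 * y) ^ 2 + 136943 / 2 * (x ^ 2 * z) ^ 2 + 115519 / 2 * (x * y ^ 2) ^ 2
        + 27156 * (x * y * z) ^ 2 + 86079 / 2 * (x * z ^ 2) ^ 2 + 62393 / 2 * (y ^ 3) ^ 2
        + 53363 * (y ^ 2 * z) ^ 2 + 147243 / 2 * (y * z ^ 2) ^ 2 + 40581 / 2 * (z ^ 3) ^ 2) := by
    unfold q1p3
    ring
  have hnn : 0 ≤ (
      (1390 * x ^ 3 - 1290 * x ^ 2 * y + 1490 * x ^ 2 * z - 390 * x * y ^ 2 - 310 * x * y * z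
        - 510 * x * z ^ 2 - 80 * y ^ 2 * z + 60 * y * z ^ 2 - 50 * z ^ 3) ^ 2 + (2330 * x ^ 2 * y
        + 1250 * x ^ 2 * z - 1230 * x * y ^ 2 + 1880 * x * y * z + 530 * x * z ^ 2 - 30 * y ^ 3
        + 30 * y ^ 2 * z - 60 * y * z ^ 2 - 20 * z ^ 3) ^ 2 + (2230 * x ^ 2 * z + 270 * x * y ^ 2
        - 2710 * x * y * z + 1460 * x * z ^ 2 - 100 * y ^ 2 * z + 80 * y * z ^ 2 - 80 * z ^ 3) ^ 2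
        + (2090 * x * y ^ 2 + 1650 * x * y * z - 740 * x * z ^ 2 + 30 * y ^ 3 + 210 * y ^ 2 * z
        + 30 * y * z ^ 2 - 30 * z ^ 3) ^ 2 + (2240 * x * y * z + 2020 * x * z ^ 2 - 80 * y ^ 2 * z
        + 400 * y * z ^ 2 + 30 * z ^ 3) ^ 2 + (1270 * x * z ^ 2 + 280 * y ^ 2 * z
        - 410 * y * z ^ 2 + 90 * z ^ 3) ^ 2 + (270 * y ^ 3 - 190 * y ^ 2 * z - 90 * y * z ^ 2
        + 50 * z ^ 3) ^ 2 + (800 * y ^ 2 * z - 210 * z ^ 3) ^ 2 + (1020 * y * z ^ 2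
        - 40 * z ^ 3) ^ 2 + (570 * z ^ 3) ^ 2 + 3280 * (x ^ 3 - x ^ 2 * y) ^ 2 + 3805 * (x ^ 3
        + x ^ 2 * z) ^ 2 + 3781 / 2 * (x ^ 3 + x * y ^ 2) ^ 2 + 4945 * (x ^ 3 - x * y * z) ^ 2
        + 5627 / 2 * (x ^ 3 + x * z ^ 2) ^ 2 + 2348 * (x ^ 3 - y ^ 3) ^ 2 + 1419 * (x ^ 3
        + y ^ 2 * z) ^ 2 + 299 * (x ^ 3 - y * z ^ 2) ^ 2 + 3145 * (x ^ 3 - z ^ 3) ^ 2
        + 654 * (x ^ 2 * y + x ^ 2 * z) ^ 2 + 9116 * (x ^ 2 * y + x * y ^ 2) ^ 2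
        + 10291 * (x ^ 2 * y - x * y * z) ^ 2 + 10334 * (x ^ 2 * y + x * z ^ 2) ^ 2
        + 8253 / 2 * (x ^ 2 * y + y ^ 3) ^ 2 + 793 * (x ^ 2 * y - y ^ 2 * z) ^ 2
        + 1175 / 2 * (x ^ 2 * y - y * z ^ 2) ^ 2 + 6118 * (x ^ 2 * y - z ^ 3) ^ 2
        + 9146 * (x ^ 2 * z - x * y ^ 2) ^ 2 + 2983 * (x ^ 2 * z + x * y * z) ^ 2
        + 6723 * (x ^ 2 * z - x * z ^ 2) ^ 2 + 10026 * (x ^ 2 * z + y ^ 3) ^ 2 + 2232 * (x ^ 2 * z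
        - y ^ 2 * z) ^ 2 + 471 * (x ^ 2 * z - y * z ^ 2) ^ 2 + 21575 / 2 * (x ^ 2 * z - z ^ 3) ^ 2
        + 5789 * (x * y ^ 2 + x * y * z) ^ 2 + 7963 * (x * y ^ 2 - x * z ^ 2) ^ 2
        + 4300 * (x * y ^ 2 + y ^ 3) ^ 2 + 8091 * (x * y ^ 2 - y ^ 2 * z) ^ 2 + 5976 * (x * y ^ 2
        + y * z ^ 2) ^ 2 + 5160 * (x * y ^ 2 + z ^ 3) ^ 2 + 5689 * (x * y * z - x * z ^ 2) ^ 2
        + 4916 * (x * y * z + y ^ 3) ^ 2 + 4481 * (x * y * z + y ^ 2 * z) ^ 2 + 10726 * (x * y * z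
        - y * z ^ 2) ^ 2 + 10577 * (x * y * z + z ^ 3) ^ 2 + 1693 * (x * z ^ 2 + y ^ 3) ^ 2
        + 5466 * (x * z ^ 2 + y ^ 2 * z) ^ 2 + 1873 * (x * z ^ 2 + y * z ^ 2) ^ 2
        + 5025 * (x * z ^ 2 - z ^ 3) ^ 2 + 725 * (y ^ 3 + y ^ 2 * z) ^ 2 + 1171 * (y ^ 3
        - y * z ^ 2) ^ 2 + 798 * (y ^ 3 - z ^ 3) ^ 2 + 1848 * (y ^ 2 * z + y * z ^ 2) ^ 2
        + 3774 * (y ^ 2 * z - z ^ 3) ^ 2 + 4275 * (y * z ^ 2 - z ^ 3) ^ 2 + 51455 * (x ^ 3) ^ 2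
        + 78495 * (x ^ 2 * y) ^ 2 + 136943 / 2 * (x ^ 2 * z) ^ 2 + 115519 / 2 * (x * y ^ 2) ^ 2
        + 27156 * (x * y * z) ^ 2 + 86079 / 2 * (x * z ^ 2) ^ 2 + 62393 / 2 * (y ^ 3) ^ 2
        + 53363 * (y ^ 2 * z) ^ 2 + 147243 / 2 * (y * z ^ 2) ^ 2 + 40581 / 2 * (z ^ 3) ^ 2) := by
    positivity
  linarith

theorem q1_cert {x y z C : ℝ} (h : x ^ 2 + y ^ 2 + z ^ 2 = 1) (h1 : -1 ≤ C) (h2 : C ≤ 1) :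
    0 < q1C x y z C := by
  have hm := q1m2_pos h
  have hp := q1p3_pos h
  have e1 : 3 * C ^ 2 - 2 * C ^ 3 = C ^ 2 * (3 - 2 * C) := by ring
  have e2 : 5 - 3 * C ^ 2 + 2 * C ^ 3 = (1 + C) * (2 * C ^ 2 - 5 * C + 5) := by ring
  have a1 : 0 ≤ 3 * C ^ 2 - 2 * C ^ 3 := by
    rw [e1]; exact mul_nonneg (sq_nonneg C) (by linarith)
  have a2 : 0 ≤ 5 - 3 * C ^ 2 + 2 * C ^ 3 := by
    rw [e2]; exact mul_nonneg (by linarith) (by nlinarith [sq_nonneg (4 * C - 5)])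
  have a3 : (3 * C ^ 2 - 2 * C ^ 3) + (5 - 3 * C ^ 2 + 2 * C ^ 3) = 5 := by ring
  unfold q1C
  have h3 : 0 < (3 * C ^ 2 - 2 * C ^ 3) * q1m2 x y z +
      (5 - 3 * C ^ 2 + 2 * C ^ 3) * q1p3 x y z := by
    rcases a1.lt_or_eq with h4 | h4
    · have := mul_pos h4 hm
      have := mul_nonneg a2 hp.le
      linarith
    · have h5 : 0 < 5 - 3 * C ^ 2 + 2 * C ^ 3 := by linarith
      have := mul_pos h5 hp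
      have := mul_nonneg a1 hm.le
      linarith
  linarith

end Pool.Agent.FL.S2
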