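import Pool.Agent.FL.S2T3
import Pool.Agent.FL.Q1Cert

/-!
# MP_f09395_gt, space (2): the third order form on the flags with `a, x, y` parallel
-/

set_option linter.unusedSectionVars false

noncomputable section

namespace Pool.Agent.FL.S2

open scoped Matrix

/-- the vectors `(α n, β n, 0)` -/
def q1u (n : R3) (α β : ℝ) : R9 := (α • n, β • n, 0)

theorem q1_om (n : R3) (α β γ δ : ℝ) : t3om (q1u n α β) (q1u n γ δ) = 0 := by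
  unfold t3om q1u
  simp

theorem q1_K0 (p : Par) (v : R9) : t3K p 0 v = 0 := by
  unfold t3K
  simp

theorem q1_K0' (p : Par) (v : R9) : t3K p v 0 = 0 := by
  unfold t3K
  simp

theorem q1_Kg0 (p : Par) (v : R9) : t3Kg p 0 v = 0 := by
  unfold t3Kg
  simp

theorem q1_F1 (p : Par) (n : R3) (α β : ℝ) (a : R9) : t3F1 p (q1u n α β) a = 0 := by
  unfold t3F1
  rw [q1_om, q1_K0, q1_K0]
  ring

theorem q1_F2 (p : Par) (n : R3) (α β : ℝ) (a b : R9) : t3F2 p (q1u n α β) a b =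
    8 * t3K p (t3om (q1u n α β) a) (t3om (q1u n α β) b) := by
  unfold t3F2
  rw [q1_om, q1_K0, q1_K0, q1_F1, q1_F1]
  ring

theorem q1_x (p : Par) (n : R3) (c s : ℝ) : t3x p (q1u n c s) =
    (c • p.R *ᵥ n, s • p.S *ᵥ n, s • p.ν ⨯₃ n) := by
  unfold t3x
  rw [q1_om, q1_Kg0, q1_K0]
  unfold t3qg q1u
  refine Prod.ext ?_ (Prod.ext ?_ ?_) <;>
    simp [Matrix.mulVec_smul, smul_smul]

theorem q1_s (p : Par) (n : R3) (c s : ℝ) : t3s p (q1u n c s) (q1u n (-s) c) =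
    ((-s) • p.R *ᵥ n, c • p.S *ᵥ n, c • p.ν ⨯₃ n) := by
  unfold t3s
  rw [q1_om, q1_om, q1_Kg0, q1_Kg0, q1_K0, q1_F1]
  unfold t3qg q1u
  refine Prod.ext ?_ (Prod.ext ?_ ?_) <;>
    simp [Matrix.mulVec_smul, Matrix.mulVec_neg, smul_smul]

theorem q1_y (p : Par) (n : R3) (c s : ℝ) : t3y p (q1u n c s) (q1u n (-s) c) = 0 := by
  unfold t3y
  simp only [q1_om, q1_Kg0, q1_K0, q1_F1, q1_F2]
  simp

/-- `[u, v]` -/
theorem q1_br (n A X Y : R3) (α β : ℝ) : br (q1u n α β) (A, X, Y) =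
    (α • n ⨯₃ A + β • n ⨯₃ X, α • n ⨯₃ X + β • n ⨯₃ A, α • n ⨯₃ Y) := by
  have h : A ⨯₃ n = -(n ⨯₃ A) := (cross_anticomm n A).symm
  unfold br q1u
  refine Prod.ext ?_ (Prod.ext ?_ ?_)
  · simp
  · simp only [map_smul, LinearMap.smul_apply, h]
    module
  · simp

theorem q1_omv (n A X Y : R3) (α β : ℝ) : t3om (q1u n α β) (A, X, Y) =
    ((1 / 2 : ℝ) • n ⨯₃ (α • X - β • A), (1 / 2 : ℝ) • n ⨯₃ (α • Y),
      (1 / 2 : ℝ) • n ⨯₃ (β • Y)) := by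
  have h : A ⨯₃ n = -(n ⨯₃ A) := (cross_anticomm n A).symm
  unfold t3om q1u
  refine Prod.ext ?_ (Prod.ext ?_ ?_)
  · simp only [map_smul, map_sub, LinearMap.smul_apply, h]
    module
  · simp
  · simp

/-- the form `N(n × X, n × Y)` -/
def q1M (p : Par) (n X Y : R3) : ℝ := (n ⨯₃ X) ⬝ᵥ (p.N *ᵥ (n ⨯₃ Y))

theorem q1_K (p : Par) (n A X Y A' X' Y' : R3) (α β γ δ : ℝ) :
    t3K p (t3om (q1u n α β) (A, X, Y)) (t3om (q1u n γ δ) (A', X', Y')) =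
      1 / 4 * (q1M p n (α • X - β • A) (γ • X' - δ • A') + (α * γ - β * δ) * q1M p n Y Y') := by
  rw [q1_omv, q1_omv]
  unfold t3K q1M
  simp only [map_smul, smul_dotProduct, dotProduct_smul, Matrix.mulVec_smul, smul_eq_mul]
  ring

theorem q1M_add_left (p : Par) (n X X' Y : R3) :
    q1M p n (X + X') Y = q1M p n X Y + q1M p n X' Y := by
  unfold q1M; rw [map_add, add_dotProduct]

theorem q1M_add_right (p : Par) (n X Y Y' : R3) :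
    q1M p n X (Y + Y') = q1M p n X Y + q1M p n X Y' := by
  unfold q1M; rw [map_add, Matrix.mulVec_add, dotProduct_add]

theorem q1M_smul_left (p : Par) (n X Y : R3) (r : ℝ) :
    q1M p n (r • X) Y = r * q1M p n X Y := by
  unfold q1M; rw [map_smul, smul_dotProduct, smul_eq_mul]

theorem q1M_smul_right (p : Par) (n X Y : R3) (r : ℝ) :
    q1M p n X (r • Y) = r * q1M p n X Y := by
  unfold q1M; rw [map_smul, Matrix.mulVec_smul, dotProduct_smul, smul_eq_mul]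

theorem q1M_comm {p : Par} (hp : p.Symm) (n X Y : R3) : q1M p n X Y = q1M p n Y X :=
  t3_dot_mulVec_comm hp.N _ _

theorem q1_q (p : Par) (A X Y A' X' Y' : R3) : 2 * t3q p (A, X, Y) (A', X', Y') =
    A ⬝ᵥ p.R *ᵥ A' + X ⬝ᵥ p.S *ᵥ X' + Y ⬝ᵥ p.S *ᵥ Y' + p.ν ⬝ᵥ (X ⨯₃ Y') + p.ν ⬝ᵥ (X' ⨯₃ Y) := by
  unfold t3q
  ring

theorem q1_e (n A S T : R3) (c s : ℝ) : br (q1u n c s) (c • A, s • S, s • T) =
    (c ^ 2 • n ⨯₃ A + s ^ 2 • n ⨯₃ S, (c * s) • (n ⨯₃ A + n ⨯₃ S), (c * s) • n ⨯₃ T) := by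
  rw [q1_br]
  simp only [map_smul]
  refine Prod.ext ?_ (Prod.ext ?_ ?_) <;> simp only <;> module

theorem q1_P (n A S T : R3) (c s : ℝ) : br (q1u n (-s) c) (c • A, s • S, s • T) =
    ((c * s) • (n ⨯₃ S - n ⨯₃ A), c ^ 2 • n ⨯₃ A - s ^ 2 • n ⨯₃ S, (-s ^ 2) • n ⨯₃ T) := by
  rw [q1_br]
  simp only [map_smul]
  refine Prod.ext ?_ (Prod.ext ?_ ?_) <;> simp only <;> module

theorem q1_r (n A S T : R3) (c s : ℝ) : br (q1u n c s) ((-s) • A, c • S, c • T) =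
    ((c * s) • (n ⨯₃ S - n ⨯₃ A), c ^ 2 • n ⨯₃ S - s ^ 2 • n ⨯₃ A, c ^ 2 • n ⨯₃ T) := by
  rw [q1_br]
  simp only [map_smul]
  refine Prod.ext ?_ (Prod.ext ?_ ?_) <;> simp only <;> module

theorem q1_g (n A S T : R3) (c s : ℝ) : br (q1u n (-s) c) ((-s) • A, c • S, c • T) =
    (s ^ 2 • n ⨯₃ A + c ^ 2 • n ⨯₃ S, (-(c * s)) • (n ⨯₃ A + n ⨯₃ S),
      (-(c * s)) • n ⨯₃ T) := by
  rw [q1_br]
  simp only [map_smul]
  refine Prod.ext ?_ (Prod.ext ?_ ?_) <;> simp only <;> module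

theorem q1_xs (A S T : R3) (c s : ℝ) : br (c • A, s • S, s • T) ((-s) • A, c • S, c • T) =
    (0, (c ^ 2 + s ^ 2) • A ⨯₃ S, (c ^ 2 + s ^ 2) • A ⨯₃ T) := by
  unfold br
  refine Prod.ext ?_ (Prod.ext ?_ ?_)
  · simp only [map_smul, LinearMap.smul_apply, cross_self, smul_zero, add_zero]
  · simp only [map_smul, LinearMap.smul_apply]; module
  · simp only [map_smul, LinearMap.smul_apply]; module

theorem q1_z (p : Par) (n : R3) (c s : ℝ) (x s' e P r : R9) :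
    t3z p (q1u n c s) (q1u n (-s) c) x s' 0 e P r =
      -8 * t3K p (t3om (q1u n (-s) c) e) (t3om (q1u n (-s) c) e)
      + 8 * t3K p (t3om (q1u n c s) e) (t3om (q1u n c s) e)
      - 8 * (t3K p (t3om (q1u n c s) e) (t3om (q1u n (-s) c) ((2 : ℝ) • P - r))
        + t3K p (t3om (q1u n c s) ((2 : ℝ) • P - r)) (t3om (q1u n (-s) c) e))
      + 2 * t3q p e (br (q1u n (-s) c) s')
      + 8 * t3K p (t3om (q1u n c s) e) (t3om (q1u n c s) (br (q1u n (-s) c) s'))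
      - (2 * t3q p P P + 8 * t3K p (t3om (q1u n c s) P) (t3om (q1u n c s) P))
      + (2 * t3q p P r + 8 * t3K p (t3om (q1u n c s) P) (t3om (q1u n c s) r))
      - (2 * t3q p r r + 8 * t3K p (t3om (q1u n c s) r) (t3om (q1u n c s) r))
      - dot9 (P - r) (br x s') := by
  have h1 : br (q1u n c s) 0 = 0 := by
    unfold br; simp
  have h2 : br x 0 = 0 := by
    unfold br; simp
  have h3 : ∀ v : R9, dot9 (0 : R9) v = 0 := fun v => by unfold dot9; simp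
  have h4 : t3om (q1u n c s) ((2 : ℝ) • br (q1u n (-s) c) s') =
      (2 : ℝ) • t3om (q1u n c s) (br (q1u n (-s) c) s') := by
    unfold t3om
    refine Prod.ext ?_ (Prod.ext ?_ ?_) <;>
      simp only [Prod.smul_fst, Prod.smul_snd, map_smul, LinearMap.smul_apply] <;> module
  have h5 : ∀ v w : R9, t3K p v ((2 : ℝ) • w) = 2 * t3K p v w := by
    intro v w
    unfold t3K
    simp only [Prod.smul_fst, Prod.smul_snd, Matrix.mulVec_smul, dotProduct_smul, smul_eq_mul]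
    ring
  have h6 : t3q p e ((2 : ℝ) • br (q1u n (-s) c) s') = 2 * t3q p e (br (q1u n (-s) c) s') := by
    unfold t3q
    simp only [Prod.smul_fst, Prod.smul_snd, Matrix.mulVec_smul, dotProduct_smul, smul_eq_mul,
      map_smul, LinearMap.smul_apply]
    ring
  unfold t3z
  simp only [q1_F2, q1_F1, q1_om, q1_K0, q1_K0', h1, h2, h3, add_zero, h4, h5, h6]
  ring

theorem q1M_sub_left (p : Par) (n X X' Y : R3) :
    q1M p n (X - X') Y = q1M p n X Y - q1M p n X' Y := by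
  unfold q1M; rw [map_sub, sub_dotProduct]

theorem q1M_sub_right (p : Par) (n X Y Y' : R3) :
    q1M p n X (Y - Y') = q1M p n X Y - q1M p n X Y' := by
  unfold q1M; rw [map_sub, Matrix.mulVec_sub, dotProduct_sub]

/-- the part of degree two in the quadratic parameters -/
def q1T4 (p : Par) (n : R3) : ℝ :=
  (n ⨯₃ (p.R *ᵥ n)) ⬝ᵥ p.R *ᵥ (n ⨯₃ (p.S *ᵥ n))
    - (n ⨯₃ (p.R *ᵥ n)) ⬝ᵥ p.S *ᵥ (n ⨯₃ (p.R *ᵥ n))
    - (n ⨯₃ (p.S *ᵥ n)) ⬝ᵥ p.S *ᵥ (n ⨯₃ (p.S *ᵥ n))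
    + (n ⨯₃ (p.R *ᵥ n)) ⬝ᵥ p.S *ᵥ (n ⨯₃ (p.S *ᵥ n))
    - (n ⨯₃ (p.ν ⨯₃ n)) ⬝ᵥ p.S *ᵥ (n ⨯₃ (p.ν ⨯₃ n))
    + p.ν ⬝ᵥ ((n ⨯₃ (p.R *ᵥ n)) ⨯₃ (n ⨯₃ (p.ν ⨯₃ n)))
    - 2 * (p.ν ⬝ᵥ ((n ⨯₃ (p.S *ᵥ n)) ⨯₃ (n ⨯₃ (p.ν ⨯₃ n))))
    - (n ⨯₃ (p.R *ᵥ n) - n ⨯₃ (p.S *ᵥ n)) ⬝ᵥ ((p.R *ᵥ n) ⨯₃ (p.S *ᵥ n))
    + (n ⨯₃ (p.ν ⨯₃ n)) ⬝ᵥ ((p.R *ᵥ n) ⨯₃ (p.ν ⨯₃ n))

theorem q1_T3x_hom {p : Par} (hp : p.Symm) (n : R3) (c s : ℝ) :
    T3x p (q1u n c s) (q1u n (-s) c) = (c ^ 2 + s ^ 2) ^ 2 * q1T4 p n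
      - (4 * (c ^ 2 + s ^ 2) ^ 3 - 6 * (c ^ 2 - s ^ 2) ^ 2 * (c ^ 2 + s ^ 2)
        + 4 * (c ^ 2 - s ^ 2) ^ 3) * q1M p n (n ⨯₃ (p.S *ᵥ n)) (n ⨯₃ (p.S *ᵥ n))
      - (3 * (c ^ 2 + s ^ 2) ^ 3 - 3 * (c ^ 2 - s ^ 2) ^ 2 * (c ^ 2 + s ^ 2)
        + 2 * (c ^ 2 - s ^ 2) ^ 3) * q1M p n (n ⨯₃ (p.ν ⨯₃ n)) (n ⨯₃ (p.ν ⨯₃ n)) := by
  unfold T3x
  rw [q1_x, q1_s, q1_y, q1_z, q1_e, q1_P, q1_r, q1_g, q1_xs]
  unfold q1T4
  generalize p.R *ᵥ n = A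
  generalize p.S *ᵥ n = S
  generalize p.ν ⨯₃ n = T
  have hM := q1M_comm hp n (n ⨯₃ S) (n ⨯₃ A)
  have hR := t3_dot_mulVec_comm hp.R (n ⨯₃ S) (n ⨯₃ A)
  have hS := t3_dot_mulVec_comm hp.S (n ⨯₃ S) (n ⨯₃ A)
  generalize n ⨯₃ A = a at *
  generalize n ⨯₃ S = b at *
  generalize n ⨯₃ T = t at *
  simp only [Prod.smul_mk, Prod.mk_sub_mk]
  rw [q1_K, q1_K, q1_K, q1_K, q1_K, q1_K, q1_K, q1_K, q1_q, q1_q, q1_q, q1_q]
  simp only [q1M_add_left, q1M_add_right, q1M_sub_left, q1M_sub_right, q1M_smul_left,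
    q1M_smul_right, hM, add_dotProduct, dotProduct_add, sub_dotProduct, dotProduct_sub,
    smul_dotProduct, dotProduct_smul, Matrix.mulVec_add, Matrix.mulVec_sub, Matrix.mulVec_smul,
    map_add, map_sub, map_smul, LinearMap.add_apply, LinearMap.sub_apply, LinearMap.smul_apply,
    smul_eq_mul, hR, hS, dot9, dotProduct_zero]
  ring

theorem q1_T3x {p : Par} (hp : p.Symm) {n : R3} {c s : ℝ} (hc : c ^ 2 + s ^ 2 = 1) :
    T3x p (q1u n c s) (q1u n (-s) c) = q1T4 p n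
      - (4 - 6 * (c ^ 2 - s ^ 2) ^ 2 + 4 * (c ^ 2 - s ^ 2) ^ 3) *
        q1M p n (n ⨯₃ (p.S *ᵥ n)) (n ⨯₃ (p.S *ᵥ n))
      - (3 - 3 * (c ^ 2 - s ^ 2) ^ 2 + 2 * (c ^ 2 - s ^ 2) ^ 3) *
        q1M p n (n ⨯₃ (p.ν ⨯₃ n)) (n ⨯₃ (p.ν ⨯₃ n)) := by
  rw [q1_T3x_hom hp, hc]
  ring

/-- the final numbers -/
structure Q1Num (p : Par) : Prop where
  R : p.R = !![6, -5, 5; -5, 4, 1; 5, 1, 5]
  S : p.S = !![169 / 25, 0, 0; 0, 1, 0; 0, 0, 0]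
  N : p.N = !![-12, -4, 4; -4, -1, 1; 4, 1, -1]
  ν : p.ν = ![13, 7, -6]

theorem Q1Num.symm {p : Par} (h : Q1Num p) : p.Symm := by
  refine ⟨?_, ?_, ?_⟩
  · rw [h.R]; ext i j; fin_cases i <;> fin_cases j <;> rfl
  · rw [h.S]; ext i j; fin_cases i <;> fin_cases j <;> rfl
  · rw [h.N]; ext i j; fin_cases i <;> fin_cases j <;> rfl

theorem q1_num {p : Par} (h : Q1Num p) (n : R3) (C : ℝ) :
    (n ⬝ᵥ n) * q1T4 p n
      - (4 - 6 * C ^ 2 + 4 * C ^ 3) * q1M p n (n ⨯₃ (p.S *ᵥ n)) (n ⨯₃ (p.S *ᵥ n))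
      - (3 - 3 * C ^ 2 + 2 * C ^ 3) * q1M p n (n ⨯₃ (p.ν ⨯₃ n)) (n ⨯₃ (p.ν ⨯₃ n)) =
      q1C (n 0) (n 1) (n 2) C := by
  have a1 : p.S *ᵥ n = ![169 / 25 * n 0, n 1, 0] := by
    rw [h.S]; ext i; fin_cases i <;> simp [Matrix.mulVec, dotProduct, Fin.sum_univ_three]
  have a2 : p.R *ᵥ n = ![6 * n 0 - 5 * n 1 + 5 * n 2, -5 * n 0 + 4 * n 1 + n 2,
      5 * n 0 + n 1 + 5 * n 2] := by
    rw [h.R]; ext i; fin_cases i <;> simp [Matrix.mulVec, dotProduct, Fin.sum_univ_three] <;> ring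
  unfold q1T4 q1M
  rw [a1, a2, h.ν, h.R, h.S, h.N]
  simp only [cross_apply, Matrix.mulVec, dotProduct, Fin.sum_univ_three, Matrix.cons_val_zero,
    Matrix.cons_val_one, Matrix.cons_val, Matrix.of_apply, Pi.sub_apply]
  unfold q1C q1m2 q1p3
  ring

theorem q1_T3x_num {p : Par} (h : Q1Num p) {n : R3} (hn : n ⬝ᵥ n = 1) {c s : ℝ}
    (hc : c ^ 2 + s ^ 2 = 1) :
    T3x p (q1u n c s) (q1u n (-s) c) = q1C (n 0) (n 1) (n 2) (c ^ 2 - s ^ 2) := by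
  rw [q1_T3x h.symm hc, ← q1_num h n, hn, one_mul]

/-- **(Q1)** -/
theorem q1_pos {p : Par} (h : Q1Num p) (t : ℝ) {n : R3} (hn : n ⬝ᵥ n = 1) :
    0 < T3x p (Real.cos t • n, Real.sin t • n, 0) (-(Real.sin t) • n, Real.cos t • n, 0) := by
  have hc : Real.cos t ^ 2 + Real.sin t ^ 2 = 1 := Real.cos_sq_add_sin_sq t
  have h1 := q1_T3x_num h hn hc
  have h2 : n 0 ^ 2 + n 1 ^ 2 + n 2 ^ 2 = 1 := by
    simp only [dotProduct, Fin.sum_univ_three] at hn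
    linarith
  have h3 := q1_cert (C := Real.cos t ^ 2 - Real.sin t ^ 2) h2
    (by nlinarith [sq_nonneg (Real.cos t), sq_nonneg (Real.sin t)])
    (by nlinarith [sq_nonneg (Real.cos t), sq_nonneg (Real.sin t)])
  rw [← h1] at h3
  exact h3

end Pool.Agent.FL.S2
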