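import Pool.Agent.FL.S2T3
import Pool.Agent.FL.GE3

/-!
# MP_f09395_gt, space (2): covariance of the explicit third order form under rotations

`frL e1 e2 e3 v = v₀ e1 + v₁ e2 + v₂ e3`; for a positively oriented orthonormal frame
`T3x p (fr9 u) (fr9 b) = T3x (pullP p) u b`, where `pullP p` are the parameters in the frame.
-/

noncomputable section

namespace Pool.Agent.FL.S2

open scoped Matrix

/-- the rotation with columns `e1, e2, e3` -/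
def frL (e1 e2 e3 : R3) : R3 →ₗ[ℝ] R3 where
  toFun v := v 0 • e1 + v 1 • e2 + v 2 • e3
  map_add' v w := by simp only [Pi.add_apply]; module
  map_smul' r v := by simp only [Pi.smul_apply, smul_eq_mul, RingHom.id_apply]; module

/-- diagonal action of the rotation -/
def fr9 (e1 e2 e3 : R3) (u : R9) : R9 :=
  (frL e1 e2 e3 u.1, frL e1 e2 e3 u.2.1, frL e1 e2 e3 u.2.2)

/-- a matrix in the frame -/
def pullM (e1 e2 e3 : R3) (M : Matrix (Fin 3) (Fin 3) ℝ) : Matrix (Fin 3) (Fin 3) ℝ :=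
  !![e1 ⬝ᵥ M *ᵥ e1, e1 ⬝ᵥ M *ᵥ e2, e1 ⬝ᵥ M *ᵥ e3;
     e2 ⬝ᵥ M *ᵥ e1, e2 ⬝ᵥ M *ᵥ e2, e2 ⬝ᵥ M *ᵥ e3;
     e3 ⬝ᵥ M *ᵥ e1, e3 ⬝ᵥ M *ᵥ e2, e3 ⬝ᵥ M *ᵥ e3]

/-- the parameters in the frame -/
def pullP (e1 e2 e3 : R3) (p : Par) : Par :=
  ⟨pullM e1 e2 e3 p.R, pullM e1 e2 e3 p.S, pullM e1 e2 e3 p.N,
    ![e1 ⬝ᵥ p.ν, e2 ⬝ᵥ p.ν, e3 ⬝ᵥ p.ν]⟩

section

variable {e1 e2 e3 : R3} (h : Frame3 e1 e2 e3)

theorem frL_apply (v : R3) : frL e1 e2 e3 v = v 0 • e1 + v 1 • e2 + v 2 • e3 := rfl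

include h

theorem frL_dot (v w : R3) : frL e1 e2 e3 v ⬝ᵥ frL e1 e2 e3 w = v ⬝ᵥ w := by
  have h21 : e2 ⬝ᵥ e1 = 0 := by rw [dotProduct_comm]; exact h.o12
  have h31 : e3 ⬝ᵥ e1 = 0 := by rw [dotProduct_comm]; exact h.o13
  have h32 : e3 ⬝ᵥ e2 = 0 := by rw [dotProduct_comm]; exact h.o23
  simp only [frL_apply, add_dotProduct, dotProduct_add, smul_dotProduct, dotProduct_smul,
    smul_eq_mul, h.n1, h.n2, h.n3, h.o12, h.o13, h.o23, h21, h31, h32]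
  simp only [dotProduct, Fin.sum_univ_three]
  ring

theorem frL_cross (v w : R3) :
    frL e1 e2 e3 v ⨯₃ frL e1 e2 e3 w = frL e1 e2 e3 (v ⨯₃ w) := by
  have h21 : e2 ⨯₃ e1 = -e3 := by rw [← cross_anticomm, h.c12]
  have h32 : e3 ⨯₃ e2 = -e1 := by rw [← cross_anticomm, h.c23]
  have h13 : e1 ⨯₃ e3 = -e2 := by rw [← cross_anticomm, h.c31]
  simp only [frL_apply, map_add, map_smul, LinearMap.add_apply, LinearMap.smul_apply, cross_self,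
    h.c12, h.c23, h.c31, h21, h32, h13]
  simp only [cross_apply, Matrix.cons_val_zero, Matrix.cons_val_one, Matrix.cons_val]
  module

theorem frL_expand (w : R3) : frL e1 e2 e3 ![e1 ⬝ᵥ w, e2 ⬝ᵥ w, e3 ⬝ᵥ w] = w := by
  rw [frL_apply]
  simp only [Matrix.cons_val_zero, Matrix.cons_val_one, Matrix.cons_val]
  have h1 := GE3.frame_expand h w
  rw [dotProduct_comm e1, dotProduct_comm e2, dotProduct_comm e3]
  exact h1.symm

theorem frL_mulVec (M : Matrix (Fin 3) (Fin 3) ℝ) (v : R3) :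
    M *ᵥ frL e1 e2 e3 v = frL e1 e2 e3 (pullM e1 e2 e3 M *ᵥ v) := by
  rw [← frL_expand h (M *ᵥ frL e1 e2 e3 v)]
  congr 1
  ext i
  fin_cases i <;>
  simp [frL_apply, pullM,
    Matrix.mulVec, dotProduct, Fin.sum_univ_three] <;> ring

theorem frL_nu (p : Par) : frL e1 e2 e3 (pullP e1 e2 e3 p).ν = p.ν := frL_expand h p.ν

omit h

theorem fr9_add (u v : R9) : fr9 e1 e2 e3 (u + v) = fr9 e1 e2 e3 u + fr9 e1 e2 e3 v := by
  unfold fr9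
  simp only [Prod.fst_add, Prod.snd_add, map_add, Prod.mk_add_mk]

theorem fr9_sub (u v : R9) : fr9 e1 e2 e3 (u - v) = fr9 e1 e2 e3 u - fr9 e1 e2 e3 v := by
  unfold fr9
  simp only [Prod.fst_sub, Prod.snd_sub, map_sub, Prod.mk_sub_mk]

theorem fr9_smul (r : ℝ) (u : R9) : fr9 e1 e2 e3 (r • u) = r • fr9 e1 e2 e3 u := by
  unfold fr9
  simp only [Prod.smul_fst, Prod.smul_snd, map_smul, Prod.smul_mk]

include h

theorem br_fr9 (u v : R9) :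
    br (fr9 e1 e2 e3 u) (fr9 e1 e2 e3 v) = fr9 e1 e2 e3 (br u v) := by
  unfold br fr9
  simp only [frL_cross h, map_add, map_sub]

theorem dot9_fr9 (u v : R9) : dot9 (fr9 e1 e2 e3 u) (fr9 e1 e2 e3 v) = dot9 u v := by
  unfold dot9 fr9
  simp only [frL_dot h]

theorem t3om_fr9 (u v : R9) :
    t3om (fr9 e1 e2 e3 u) (fr9 e1 e2 e3 v) = fr9 e1 e2 e3 (t3om u v) := by
  unfold t3om fr9
  simp only [frL_cross h, map_add, map_smul]

theorem t3K_fr9 (p : Par) (u v : R9) :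
    t3K p (fr9 e1 e2 e3 u) (fr9 e1 e2 e3 v) = t3K (pullP e1 e2 e3 p) u v := by
  unfold t3K fr9 pullP
  simp only [frL_mulVec h, frL_dot h]

theorem t3q_fr9 (p : Par) (u v : R9) :
    t3q p (fr9 e1 e2 e3 u) (fr9 e1 e2 e3 v) = t3q (pullP e1 e2 e3 p) u v := by
  have hν := frL_nu h p
  unfold t3q fr9
  rw [← hν]
  simp only [frL_mulVec h, frL_dot h, frL_cross h]
  rfl

theorem t3qg_fr9 (p : Par) (u : R9) :
    t3qg p (fr9 e1 e2 e3 u) = fr9 e1 e2 e3 (t3qg (pullP e1 e2 e3 p) u) := by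
  have hν := frL_nu h p
  unfold t3qg fr9
  rw [← hν]
  simp only [frL_mulVec h, frL_cross h, map_add, map_smul]
  rfl

theorem t3Kg_fr9 (p : Par) (W u : R9) :
    t3Kg p (fr9 e1 e2 e3 W) (fr9 e1 e2 e3 u) = fr9 e1 e2 e3 (t3Kg (pullP e1 e2 e3 p) W u) := by
  unfold t3Kg fr9
  simp only [frL_mulVec h, frL_cross h, map_add, map_sub, map_smul]
  rfl

theorem t3F1_fr9 (p : Par) (u a : R9) :
    t3F1 p (fr9 e1 e2 e3 u) (fr9 e1 e2 e3 a) = t3F1 (pullP e1 e2 e3 p) u a := by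
  unfold t3F1
  simp only [t3om_fr9 h, t3K_fr9 h, dot9_fr9 h]

theorem t3F2_fr9 (p : Par) (u a b : R9) :
    t3F2 p (fr9 e1 e2 e3 u) (fr9 e1 e2 e3 a) (fr9 e1 e2 e3 b) =
      t3F2 (pullP e1 e2 e3 p) u a b := by
  unfold t3F2
  simp only [t3om_fr9 h, t3K_fr9 h, dot9_fr9 h, t3F1_fr9 h]

theorem t3x_fr9 (p : Par) (u : R9) :
    t3x p (fr9 e1 e2 e3 u) = fr9 e1 e2 e3 (t3x (pullP e1 e2 e3 p) u) := by
  unfold t3x
  simp only [t3om_fr9 h, t3K_fr9 h, t3qg_fr9 h, t3Kg_fr9 h, fr9_add, fr9_sub, fr9_smul]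

theorem t3s_fr9 (p : Par) (u b : R9) :
    t3s p (fr9 e1 e2 e3 u) (fr9 e1 e2 e3 b) = fr9 e1 e2 e3 (t3s (pullP e1 e2 e3 p) u b) := by
  unfold t3s
  simp only [t3om_fr9 h, t3K_fr9 h, t3qg_fr9 h, t3Kg_fr9 h, t3F1_fr9 h, fr9_add, fr9_sub,
    fr9_smul]

theorem t3y_fr9 (p : Par) (u b : R9) :
    t3y p (fr9 e1 e2 e3 u) (fr9 e1 e2 e3 b) = fr9 e1 e2 e3 (t3y (pullP e1 e2 e3 p) u b) := by
  unfold t3y
  simp only [t3om_fr9 h, t3K_fr9 h, t3Kg_fr9 h, t3F1_fr9 h, t3F2_fr9 h, fr9_add, fr9_sub,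
    fr9_smul]

/-- **covariance of the third order form** -/
theorem T3x_fr9 (p : Par) (u b : R9) :
    T3x p (fr9 e1 e2 e3 u) (fr9 e1 e2 e3 b) = T3x (pullP e1 e2 e3 p) u b := by
  unfold T3x
  rw [t3x_fr9 h, t3s_fr9 h, t3y_fr9 h, br_fr9 h, br_fr9 h, br_fr9 h]
  unfold t3z
  simp only [br_fr9 h, ← fr9_add, ← fr9_sub, ← fr9_smul, t3om_fr9 h, t3K_fr9 h, t3F1_fr9 h,
    t3F2_fr9 h, dot9_fr9 h, t3q_fr9 h]

end

end Pool.Agent.FL.S2
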