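import Pool.Agent.FL.GE3

/-!
# MP_f09395_gt, space (2), QU0: umbilic directions and the exceptional set `T0 = B0 ∪ U0`

`S = diag s` with `s 0 ≤ s 1 ≤ s 2`, `s 0 < s 2`.
-/

noncomputable section

namespace Pool.Agent.FL.S2

open Matrix

/-- the bilinear form of `diag s` -/
def bl (s f g : Fin 3 → ℝ) : ℝ := s 0 * f 0 * g 0 + s 1 * f 1 * g 1 + s 2 * f 2 * g 2

/-- `q` is zero or an umbilic direction of `diag s` -/
def Umb (s q : Fin 3 → ℝ) : Prop := q 1 = 0 ∧ (s 2 - s 1) * q 0 ^ 2 = (s 1 - s 0) * q 2 ^ 2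

/-- the exceptional set, in the coordinates `(a, x, y)` -/
def T0c (s a x y : Fin 3 → ℝ) : Prop :=
  (a ⨯₃ x = 0 ∧ a ⨯₃ y = 0 ∧ x ⨯₃ y = 0) ∨ (a = 0 ∧ Umb s (x ⨯₃ y))

theorem dot3 (f g : Fin 3 → ℝ) : f ⬝ᵥ g = f 0 * g 0 + f 1 * g 1 + f 2 * g 2 := by
  simp [dotProduct, Fin.sum_univ_three]

theorem cr0 (f g : Fin 3 → ℝ) : (f ⨯₃ g) 0 = f 1 * g 2 - f 2 * g 1 := by
  simp [crossProduct]

theorem cr1 (f g : Fin 3 → ℝ) : (f ⨯₃ g) 1 = f 2 * g 0 - f 0 * g 2 := by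
  simp [crossProduct]

theorem cr2 (f g : Fin 3 → ℝ) : (f ⨯₃ g) 2 = f 0 * g 1 - f 1 * g 0 := by
  simp [crossProduct]

theorem Frame3.colrel {f1 f2 f3 : Fin 3 → ℝ} (h : Frame3 f1 f2 f3) (i j : Fin 3) :
    f1 i * f1 j + f2 i * f2 j + f3 i * f3 j = if i = j then 1 else 0 := by
  have h1 : Matrix.of ![f1, f2, f3] * (Matrix.of ![f1, f2, f3])ᵀ = 1 := by
    ext i j
    rw [Matrix.mul_apply, Fin.sum_univ_three]
    have n1 := h.n1; have n2 := h.n2; have n3 := h.n3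
    have o12 := h.o12; have o13 := h.o13; have o23 := h.o23
    rw [dot3] at n1 n2 n3 o12 o13 o23
    fin_cases i <;> fin_cases j <;> simp <;> linarith
  have h2 := mul_eq_one_comm.1 h1
  have h3 := congrFun (congrFun h2 i) j
  rw [Matrix.mul_apply, Fin.sum_univ_three, Matrix.one_apply] at h3
  rw [← h3]
  simp

theorem Frame3.expand3 {f1 f2 f3 : Fin 3 → ℝ} (h : Frame3 f1 f2 f3) (p : Fin 3 → ℝ) :
    p = (p ⬝ᵥ f1) • f1 + (p ⬝ᵥ f2) • f2 + (p ⬝ᵥ f3) • f3 := by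
  funext j
  have h0 := h.colrel 0 j
  have h1 := h.colrel 1 j
  have h2 := h.colrel 2 j
  simp only [Pi.add_apply, Pi.smul_apply, smul_eq_mul, dot3]
  have h3 : p j = p 0 * (if (0 : Fin 3) = j then 1 else 0) + p 1 * (if (1 : Fin 3) = j then 1 else 0)
      + p 2 * (if (2 : Fin 3) = j then 1 else 0) := by
    fin_cases j <;> simp
  rw [h3, ← h0, ← h1, ← h2]
  ring

theorem bl_perp {s f1 f2 f3 p p' : Fin 3 → ℝ} {l : ℝ} (hf : Frame3 f1 f2 f3)
    (h1 : bl s f1 f1 = l) (h2 : bl s f2 f2 = l) (h12 : bl s f1 f2 = 0)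
    (hp : p ⬝ᵥ f3 = 0) (hp' : p' ⬝ᵥ f3 = 0) : bl s p p' = l * (p ⬝ᵥ p') := by
  have e1 := hf.expand3 p
  have e2 := hf.expand3 p'
  rw [hp, zero_smul, add_zero] at e1
  rw [hp', zero_smul, add_zero] at e2
  have n1 := hf.n1; have n2 := hf.n2; have o12 := hf.o12
  generalize p ⬝ᵥ f1 = α at e1
  generalize p ⬝ᵥ f2 = β at e1
  generalize p' ⬝ᵥ f1 = α' at e2
  generalize p' ⬝ᵥ f2 = β' at e2
  subst e1 e2
  rw [dot3] at n1 n2 o12 ⊢
  unfold bl at h1 h2 h12 ⊢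
  simp only [Pi.add_apply, Pi.smul_apply, smul_eq_mul]
  linear_combination (α * α') * h1 + (β * β') * h2 + (α * β' + β * α') * h12
    - l * (α * α') * n1 - l * (β * β') * n2 - l * (α * β' + β * α') * o12

theorem umb_alg {a b c x y z l : ℝ} (h01 : a ≤ b) (h12 : b ≤ c) (h02 : a < c)
    (N : x ^ 2 + y ^ 2 + z ^ 2 = 1)
    (A1 : (c - l) * (x * y) = 0) (A2 : (a - l) * (y * z) = 0) (A3 : (b - l) * (x * z) = 0)
    (B1 : (b - l) * z ^ 2 + (c - l) * y ^ 2 = 0) (B2 : (a - l) * z ^ 2 + (c - l) * x ^ 2 = 0)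
    (B3 : (a - l) * y ^ 2 + (b - l) * x ^ 2 = 0) : y = 0 ∧ (c - b) * x ^ 2 = (b - a) * z ^ 2 := by
  have hy : y = 0 := by
    by_contra hy
    have hy2 : 0 < y ^ 2 := by positivity
    by_cases hx : x = 0
    · by_cases hz : z = 0
      · rw [hz] at B1; rw [hx] at B3
        have e1 : c - l = 0 := by
          have : (c - l) * y ^ 2 = 0 := by linarith
          exact (mul_eq_zero.1 this).resolve_right hy2.ne'
        have e2 : a - l = 0 := by
          have : (a - l) * y ^ 2 = 0 := by linarith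
          exact (mul_eq_zero.1 this).resolve_right hy2.ne'
        linarith
      · have e1 : a - l = 0 := (mul_eq_zero.1 A2).resolve_right (mul_ne_zero hy hz)
        have e2 : 0 < (c - l) * y ^ 2 := mul_pos (by linarith) hy2
        have e3 : 0 ≤ (b - l) * z ^ 2 := mul_nonneg (by linarith) (sq_nonneg z)
        linarith
    · have e1 : c - l = 0 := (mul_eq_zero.1 A1).resolve_right (mul_ne_zero hx hy)
      have e2 : 0 < (l - a) * y ^ 2 := mul_pos (by linarith) hy2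
      have e3 : 0 ≤ (l - b) * x ^ 2 := mul_nonneg (by linarith) (sq_nonneg x)
      nlinarith
  refine ⟨hy, ?_⟩
  subst hy
  by_cases hx : x = 0
  · subst hx
    have hz : z ≠ 0 := by rintro rfl; norm_num at N
    have hz2 : z ^ 2 ≠ 0 := pow_ne_zero 2 hz
    have e1 : (b - l) = 0 := (mul_eq_zero.1 (by linarith : (b - l) * z ^ 2 = 0)).resolve_right hz2
    have e2 : (a - l) = 0 := (mul_eq_zero.1 (by linarith : (a - l) * z ^ 2 = 0)).resolve_right hz2
    have e3 : b - a = 0 := by linarith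
    rw [e3]; ring
  · by_cases hz : z = 0
    · subst hz
      have hx2 : x ^ 2 ≠ 0 := pow_ne_zero 2 hx
      have e1 : (b - l) = 0 := (mul_eq_zero.1 (by linarith : (b - l) * x ^ 2 = 0)).resolve_right hx2
      have e2 : (c - l) = 0 := (mul_eq_zero.1 (by linarith : (c - l) * x ^ 2 = 0)).resolve_right hx2
      have e3 : c - b = 0 := by linarith
      rw [e3]; ring
    · have e1 : b - l = 0 := (mul_eq_zero.1 A3).resolve_right (mul_ne_zero hx hz)
      have e2 : l = b := by linarith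
      subst e2
      linarith

/-- an orthonormal frame with `P = T = 0` has an umbilic third vector -/
theorem umb_of_frame {s f1 f2 f3 : Fin 3 → ℝ} (h01 : s 0 ≤ s 1) (h12 : s 1 ≤ s 2)
    (h02 : s 0 < s 2) (hf : Frame3 f1 f2 f3) (hP : bl s f1 f2 = 0)
    (hT : bl s f2 f2 = bl s f1 f1) : Umb s f3 := by
  obtain ⟨l, hl⟩ : ∃ l, bl s f1 f1 = l := ⟨_, rfl⟩
  rw [hl] at hT
  have key := fun p p' hp hp' => bl_perp (p := p) (p' := p') hf hl hT hP hp hp'
  have q1 : (![0, f3 2, - f3 1] : Fin 3 → ℝ) ⬝ᵥ f3 = 0 := by rw [dot3]; simp; ring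
  have q2 : (![-f3 2, 0, f3 0] : Fin 3 → ℝ) ⬝ᵥ f3 = 0 := by rw [dot3]; simp; ring
  have q3 : (![f3 1, -f3 0, 0] : Fin 3 → ℝ) ⬝ᵥ f3 = 0 := by rw [dot3]; simp; ring
  have k12 := key _ _ q1 q2
  have k13 := key _ _ q1 q3
  have k23 := key _ _ q2 q3
  have k11 := key _ _ q1 q1
  have k22 := key _ _ q2 q2
  have k33 := key _ _ q3 q3
  have n3 := hf.n3
  rw [dot3] at n3 k12 k13 k23 k11 k22 k33
  simp [bl] at k12 k13 k23 k11 k22 k33
  exact umb_alg (l := l) h01 h12 h02 (by linear_combination n3) (by linear_combination k12)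
    (by linear_combination k23) (by linear_combination k13)
    (by linear_combination k11) (by linear_combination k22) (by linear_combination k33)

theorem Umb.smul {s q : Fin 3 → ℝ} (h : Umb s q) (r : ℝ) : Umb s (r • q) := by
  obtain ⟨h1, h2⟩ := h
  refine ⟨by simp [h1], ?_⟩
  simp only [Pi.smul_apply, smul_eq_mul]
  linear_combination r ^ 2 * h2

theorem Umb.of_smul {s q : Fin 3 → ℝ} {r : ℝ} (hr : r ≠ 0) (h : Umb s (r • q)) : Umb s q := by
  have h1 := h.smul r⁻¹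
  rwa [smul_smul, inv_mul_cancel₀ hr, one_smul] at h1

/-- converse; the value of `diag s` on the plane is `s 1` -/
theorem Umb.frame {s f1 f2 f3 : Fin 3 → ℝ} (hf : Frame3 f1 f2 f3) (hu : Umb s f3) : bl s f1 f2 = 0 ∧ bl s f1 f1 = s 1 ∧ bl s f2 f2 = s 1 := by
  obtain ⟨h1, h2⟩ := hu
  have n1 := hf.n1; have n2 := hf.n2; have n3 := hf.n3
  have o12 := hf.o12; have o13 := hf.o13; have o23 := hf.o23
  rw [dot3] at n1 n2 n3 o12 o13 o23
  rw [h1] at n3 o13 o23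
  have k : ∀ p p' : Fin 3 → ℝ, p 0 * f3 0 + p 2 * f3 2 = 0 → p' 0 * f3 0 + p' 2 * f3 2 = 0 →
      (s 2 - s 1) * (p 2 * p' 2) = (s 1 - s 0) * (p 0 * p' 0) := by
    intro p p' hp hp'
    have hn : f3 0 * f3 0 + f3 2 * f3 2 = 1 := by linarith
    have e1 : p 0 = (p 0 * f3 2 - p 2 * f3 0) * f3 2 := by
      linear_combination (- p 0) * hn + f3 0 * hp
    have e2 : p 2 = -((p 0 * f3 2 - p 2 * f3 0) * f3 0) := by
      linear_combination (- p 2) * hn + f3 2 * hp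
    have e3 : p' 0 = (p' 0 * f3 2 - p' 2 * f3 0) * f3 2 := by
      linear_combination (- p' 0) * hn + f3 0 * hp'
    have e4 : p' 2 = -((p' 0 * f3 2 - p' 2 * f3 0) * f3 0) := by
      linear_combination (- p' 2) * hn + f3 2 * hp'
    generalize p 0 * f3 2 - p 2 * f3 0 = α at e1 e2
    generalize p' 0 * f3 2 - p' 2 * f3 0 = β at e3 e4
    rw [e1, e2, e3, e4]
    linear_combination α * β * h2
  have k11 := k f1 f1 (by linarith) (by linarith)
  have k22 := k f2 f2 (by linarith) (by linarith)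
  have k12 := k f1 f2 (by linarith) (by linarith)
  unfold bl
  refine ⟨?_, ?_, ?_⟩
  · linear_combination s 1 * o12 + k12
  · linear_combination s 1 * n1 + k11
  · linear_combination s 1 * n2 + k22

/-- condition (Q0) -/
theorem Umb.dot_ne {s ν q : Fin 3 → ℝ}
    (hν : ν 0 ^ 2 * (s 1 - s 0) ≠ ν 2 ^ 2 * (s 2 - s 1)) (h : Umb s q) (hq : q ≠ 0) :
    ν ⬝ᵥ q ≠ 0 := by
  obtain ⟨h1, h2⟩ := h
  intro h3
  rw [dot3, h1] at h3
  have h4 : ν 0 ^ 2 * q 0 ^ 2 = ν 2 ^ 2 * q 2 ^ 2 := by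
    linear_combination (ν 0 * q 0 - ν 2 * q 2) * h3
  have h5 : (ν 0 ^ 2 * (s 1 - s 0) - ν 2 ^ 2 * (s 2 - s 1)) * q 2 ^ 2 = 0 := by
    linear_combination (- ν 0 ^ 2) * h2 + (s 2 - s 1) * h4
  have h6 : (ν 0 ^ 2 * (s 1 - s 0) - ν 2 ^ 2 * (s 2 - s 1)) * q 0 ^ 2 = 0 := by
    linear_combination (- ν 2 ^ 2) * h2 + (s 1 - s 0) * h4
  have h7 : ν 0 ^ 2 * (s 1 - s 0) - ν 2 ^ 2 * (s 2 - s 1) ≠ 0 := sub_ne_zero.2 hν
  have h8 : q 2 = 0 := by simpa using (mul_eq_zero.1 h5).resolve_left h7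
  have h9 : q 0 = 0 := by simpa using (mul_eq_zero.1 h6).resolve_left h7
  apply hq
  funext i
  fin_cases i
  · exact h9
  · exact h1
  · exact h8

theorem continuous_cross {X : Type*} [TopologicalSpace X] {f g : X → Fin 3 → ℝ}
    (hf : Continuous f) (hg : Continuous g) : Continuous fun t => f t ⨯₃ g t := by
  refine continuous_pi fun i => ?_
  have hf' := fun j => (continuous_apply j).comp hf
  have hg' := fun j => (continuous_apply j).comp hg
  simp only [Function.comp_def] at hf' hg'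
  fin_cases i
  · simp only [Fin.zero_eta, cr0]
    exact ((hf' 1).mul (hg' 2)).sub ((hf' 2).mul (hg' 1))
  · simp only [Fin.mk_one, cr1]
    exact ((hf' 2).mul (hg' 0)).sub ((hf' 0).mul (hg' 2))
  · simp only [Fin.reduceFinMk, cr2]
    exact ((hf' 0).mul (hg' 1)).sub ((hf' 1).mul (hg' 0))

theorem isClosed_umb (s : Fin 3 → ℝ) : IsClosed {q : Fin 3 → ℝ | Umb s q} := by
  unfold Umb
  refine (isClosed_eq (by fun_prop) (by fun_prop)).and ?_
  exact isClosed_eq (by fun_prop) (by fun_prop)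

theorem isClosed_T0c (s : Fin 3 → ℝ) :
    IsClosed {p : (Fin 3 → ℝ) × (Fin 3 → ℝ) × (Fin 3 → ℝ) | T0c s p.1 p.2.1 p.2.2} := by
  unfold T0c
  have c1 : Continuous fun p : (Fin 3 → ℝ) × (Fin 3 → ℝ) × (Fin 3 → ℝ) => p.1 := by fun_prop
  have c2 : Continuous fun p : (Fin 3 → ℝ) × (Fin 3 → ℝ) × (Fin 3 → ℝ) => p.2.1 := by fun_prop
  have c3 : Continuous fun p : (Fin 3 → ℝ) × (Fin 3 → ℝ) × (Fin 3 → ℝ) => p.2.2 := by fun_prop
  refine IsClosed.union ?_ ?_
  · refine (isClosed_eq (continuous_cross c1 c2) continuous_const).and ?_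
    exact (isClosed_eq (continuous_cross c1 c3) continuous_const).and
      (isClosed_eq (continuous_cross c2 c3) continuous_const)
  · exact (isClosed_eq c1 continuous_const).and
      ((isClosed_umb s).preimage (continuous_cross c2 c3))

theorem eq_of_cross_zero {n p : Fin 3 → ℝ} (hn : n ⬝ᵥ n = 1) (h : n ⨯₃ p = 0) :
    p = (p ⬝ᵥ n) • n := by
  have h0 := congrFun h 0
  have h1 := congrFun h 1
  have h2 := congrFun h 2
  rw [cr0, Pi.zero_apply] at h0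
  rw [cr1, Pi.zero_apply] at h1
  rw [cr2, Pi.zero_apply] at h2
  rw [dot3] at hn
  funext i
  simp only [Pi.smul_apply, smul_eq_mul, dot3]
  fin_cases i
  · simp only [Fin.zero_eta]
    linear_combination (-p 0) * hn + n 2 * h1 - n 1 * h2
  · simp only [Fin.mk_one]
    linear_combination (-p 1) * hn - n 2 * h0 + n 0 * h2
  · simp only [Fin.reduceFinMk]
    linear_combination (-p 2) * hn + n 1 * h0 - n 0 * h1

/-- normal form with `w = ± e_1` or `w = ± e_2` -/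
theorem T0c_of_B0 {s X Y w f1 f2 : Fin 3 → ℝ} (hO : Frame3 X Y w) (co si : ℝ)
    (h2 : w 2 = 0) (h01 : w 0 * w 1 = 0) :
    T0c s ((co * w 0) • f2 - (si * w 1) • f1) ((co * X 0) • f1 + (si * X 1) • f2)
      ((co * Y 0) • f1 + (si * Y 1) • f2) := by
  have n3 := hO.n3
  have oX := hO.o13
  have oY := hO.o23
  have c12 : w 2 = X 0 * Y 1 - X 1 * Y 0 := by rw [← hO.c12, cr2]
  rw [dot3, h2] at n3 oX oY
  left
  rcases mul_eq_zero.1 h01 with h | h
  · rw [h] at oX oY n3 ⊢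
    have hw : w 1 ≠ 0 := fun h0 => by rw [h0] at n3; norm_num at n3
    have hX : X 1 = 0 := (mul_eq_zero.1 (show X 1 * w 1 = 0 by linarith)).resolve_right hw
    have hY : Y 1 = 0 := (mul_eq_zero.1 (show Y 1 * w 1 = 0 by linarith)).resolve_right hw
    rw [hX, hY]
    simp [cross_self]
  · rw [h] at oX oY n3 ⊢
    have hw : w 0 ≠ 0 := fun h0 => by rw [h0] at n3; norm_num at n3
    have hX : X 0 = 0 := (mul_eq_zero.1 (show X 0 * w 0 = 0 by linarith)).resolve_right hw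
    have hY : Y 0 = 0 := (mul_eq_zero.1 (show Y 0 * w 0 = 0 by linarith)).resolve_right hw
    rw [hX, hY]
    simp [cross_self]

/-- normal form with `w = ± e_3` and umbilic `f3` -/
theorem T0c_of_U0 {s X Y w f1 f2 f3 : Fin 3 → ℝ} (hf : Frame3 f1 f2 f3) (co si : ℝ)
    (h0 : w 0 = 0) (h1 : w 1 = 0) (hu : Umb s f3) :
    T0c s ((co * w 0) • f2 - (si * w 1) • f1) ((co * X 0) • f1 + (si * X 1) • f2)
      ((co * Y 0) • f1 + (si * Y 1) • f2) := by
  right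
  refine ⟨by rw [h0, h1]; simp, ?_⟩
  have hxy : ((co * X 0) • f1 + (si * X 1) • f2) ⨯₃ ((co * Y 0) • f1 + (si * Y 1) • f2) =
      (co * si * (X 0 * Y 1 - X 1 * Y 0)) • f3 := by
    simp only [map_add, map_smul, LinearMap.add_apply, LinearMap.smul_apply, cross_self, hf.c12,
      smul_zero, zero_add, add_zero]
    rw [← cross_anticomm f1 f2, hf.c12]
    module
  rw [hxy]
  exact hu.smul _

/-- regular flags over `B0` -/
theorem B0_flag {a x y a' x' y' : Fin 3 → ℝ}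
    (h1 : a ⨯₃ x = 0) (h2 : a ⨯₃ y = 0)
    (C1 : a ⨯₃ a' + x ⨯₃ x' + y ⨯₃ y' = 0) (C2 : a ⨯₃ x' = a' ⨯₃ x) (C3 : a ⨯₃ y' = a' ⨯₃ y)
    (C4 : x ⬝ᵥ y' = y ⬝ᵥ x') (hu : a ⬝ᵥ a + x ⬝ᵥ x + y ⬝ᵥ y = 1)
    (hb : a' ⬝ᵥ a' + x' ⬝ᵥ x' + y' ⬝ᵥ y' = 1) (hub : a ⬝ᵥ a' + x ⬝ᵥ x' + y ⬝ᵥ y' = 0)
    (ha0 : a ⬝ᵥ a ≠ 0) (ha1 : a ⬝ᵥ a ≠ 1) (ha2 : a ⬝ᵥ a ≠ 1 / 2) :
    ∃ n : Fin 3 → ℝ, ∃ co si ct st e : ℝ, n ⬝ᵥ n = 1 ∧ co ^ 2 + si ^ 2 = 1 ∧
      ct ^ 2 + st ^ 2 = 1 ∧ (e = 1 ∨ e = -1) ∧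
      a = co • n ∧ x = (si * ct) • n ∧ y = (si * st) • n ∧
      a' = (-(e * si)) • n ∧ x' = (e * co * ct) • n ∧ y' = (e * co * st) • n := by
  have hpos : 0 < a ⬝ᵥ a := by
    rcases lt_or_gt_of_ne ha0 with h | h
    · rw [dot3] at h; nlinarith [sq_nonneg (a 0), sq_nonneg (a 1), sq_nonneg (a 2)]
    · exact h
  obtain ⟨co, hco⟩ : ∃ co, co = √(a ⬝ᵥ a) := ⟨_, rfl⟩
  have hco0 : 0 < co := by rw [hco]; exact Real.sqrt_pos.2 hpos
  have hco2 : co ^ 2 = a ⬝ᵥ a := by rw [hco, Real.sq_sqrt hpos.le]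
  obtain ⟨n, hn⟩ : ∃ n, n = co⁻¹ • a := ⟨_, rfl⟩
  have han : a = co • n := by rw [hn, smul_smul, mul_inv_cancel₀ hco0.ne', one_smul]
  have hnn : n ⬝ᵥ n = 1 := by
    rw [hn, smul_dotProduct, dotProduct_smul, ← hco2, smul_eq_mul, smul_eq_mul]
    field_simp
  have cz : ∀ p : Fin 3 → ℝ, a ⨯₃ p = 0 → n ⨯₃ p = 0 := fun p hp => by
    rw [hn, map_smul, LinearMap.smul_apply, hp, smul_zero]
  have hx := eq_of_cross_zero hnn (cz x h1)
  have hy := eq_of_cross_zero hnn (cz y h2)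
  generalize x ⬝ᵥ n = ξ at hx
  generalize y ⬝ᵥ n = η at hy
  have dn : ∀ r t : ℝ, (r • n) ⬝ᵥ (t • n) = r * t := fun r t => by
    rw [smul_dotProduct, dotProduct_smul, hnn, smul_eq_mul, smul_eq_mul, mul_one]
  have hS : co ^ 2 + (ξ ^ 2 + η ^ 2) = 1 := by
    rw [hx, hy, dn, dn, ← hco2] at hu
    linear_combination hu
  have hsn : ξ ^ 2 + η ^ 2 ≠ 0 := fun h0 => ha1 (by rw [← hco2]; linarith)
  have hsp : 0 < ξ ^ 2 + η ^ 2 := lt_of_le_of_ne (by positivity) (Ne.symm hsn)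
  obtain ⟨si, hsi⟩ : ∃ si, si = √(ξ ^ 2 + η ^ 2) := ⟨_, rfl⟩
  have hsi0 : 0 < si := by rw [hsi]; exact Real.sqrt_pos.2 hsp
  have hsi2 : si ^ 2 = ξ ^ 2 + η ^ 2 := by rw [hsi, Real.sq_sqrt hsp.le]
  obtain ⟨ct, hct⟩ : ∃ ct, ct = ξ / si := ⟨_, rfl⟩
  obtain ⟨st, hst⟩ : ∃ st, st = η / si := ⟨_, rfl⟩
  have hξ : ξ = si * ct := by rw [hct]; field_simp
  have hη : η = si * st := by rw [hst]; field_simp
  have hcs : ct ^ 2 + st ^ 2 = 1 := by
    have h3 : si ^ 2 * (ct ^ 2 + st ^ 2 - 1) = 0 := by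
      rw [hξ, hη] at hsi2; linear_combination -hsi2
    have h4 := (mul_eq_zero.1 h3).resolve_left (pow_ne_zero 2 hsi0.ne')
    linarith
  rw [hξ] at hx
  rw [hη] at hy
  have hcos : co ^ 2 + si ^ 2 = 1 := by rw [hsi2]; exact hS
  have hreg : co ^ 2 - si ^ 2 ≠ 0 := fun h0 => ha2 (by rw [← hco2]; linarith)
  have anti : ∀ p : Fin 3 → ℝ, p ⨯₃ n = -(n ⨯₃ p) := fun p => by
    rw [cross_anticomm]
  -- the cross products with `n`
  have k2 : co • (n ⨯₃ x') = -((si * ct) • (n ⨯₃ a')) := by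
    rw [han, hx, map_smul, LinearMap.smul_apply, map_smul, anti] at C2
    rw [C2, smul_neg]
  have k3 : co • (n ⨯₃ y') = -((si * st) • (n ⨯₃ a')) := by
    rw [han, hy, map_smul, LinearMap.smul_apply, map_smul, anti] at C3
    rw [C3, smul_neg]
  have k1 : co • (n ⨯₃ a') + (si * ct) • (n ⨯₃ x') + (si * st) • (n ⨯₃ y') = 0 := by
    rw [han, hx, hy, map_smul, LinearMap.smul_apply, map_smul, LinearMap.smul_apply, map_smul,
      LinearMap.smul_apply] at C1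
    exact C1
  have k4 : (co ^ 2 - si ^ 2) • (n ⨯₃ a') = 0 := by
    have e1 : (co ^ 2 - si ^ 2) • (n ⨯₃ a') = co • (co • (n ⨯₃ a') + (si * ct) • (n ⨯₃ x') +
        (si * st) • (n ⨯₃ y')) - (si * ct) • (co • (n ⨯₃ x') + ((si * ct) • (n ⨯₃ a'))) -
        (si * st) • (co • (n ⨯₃ y') + ((si * st) • (n ⨯₃ a'))) := by
      have e2 : si ^ 2 = (si * ct) ^ 2 + (si * st) ^ 2 := by
        linear_combination (-si ^ 2) * hcs
      rw [e2]
      module
    rw [e1, k1, k2, k3]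
    simp
  have k5 : n ⨯₃ a' = 0 := (smul_eq_zero.1 k4).resolve_left hreg
  have k6 : n ⨯₃ x' = 0 := by
    rw [k5, smul_zero, neg_zero] at k2
    exact (smul_eq_zero.1 k2).resolve_left hco0.ne'
  have k7 : n ⨯₃ y' = 0 := by
    rw [k5, smul_zero, neg_zero] at k3
    exact (smul_eq_zero.1 k3).resolve_left hco0.ne'
  have ha' := eq_of_cross_zero hnn k5
  have hx' := eq_of_cross_zero hnn k6
  have hy' := eq_of_cross_zero hnn k7
  generalize a' ⬝ᵥ n = α at ha'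
  generalize x' ⬝ᵥ n = β at hx'
  generalize y' ⬝ᵥ n = γ at hy'
  rw [hx, hy, hx', hy', dn, dn] at C4
  rw [ha', hx', hy', dn, dn, dn] at hb
  rw [han, hx, hy, ha', hx', hy', dn, dn, dn] at hub
  have e4 : ct * γ = st * β := by
    have : si * (ct * γ - st * β) = 0 := by linear_combination C4
    have := (mul_eq_zero.1 this).resolve_left hsi0.ne'
    linarith
  obtain ⟨ρ, hρ⟩ : ∃ ρ, ρ = ct * β + st * γ := ⟨_, rfl⟩
  have hβ : β = ct * ρ := by rw [hρ]; linear_combination (-β) * hcs - st * e4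
  have hγ : γ = st * ρ := by rw [hρ]; linear_combination (-γ) * hcs + ct * e4
  have e5 : co * α + si * ρ = 0 := by
    rw [hβ, hγ] at hub
    linear_combination hub - si * ρ * hcs
  have e6 : α ^ 2 + ρ ^ 2 = 1 := by
    rw [hβ, hγ] at hb
    linear_combination hb - ρ ^ 2 * hcs
  obtain ⟨e, he⟩ : ∃ e, e = co * ρ - si * α := ⟨_, rfl⟩
  have e7 : e ^ 2 = 1 := by
    rw [he]
    linear_combination (co ^ 2 + si ^ 2) * e6 + hcos - (co * α + si * ρ) * e5
  have e8 : α = -(e * si) := by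
    rw [he]; linear_combination (-α) * hcos + co * e5
  have e9 : ρ = e * co := by
    rw [he]; linear_combination (-ρ) * hcos + si * e5
  refine ⟨n, co, si, ct, st, e, hnn, hcos, hcs, (by rcases mul_eq_zero.1 (show (e - 1) * (e + 1) = 0 by linear_combination e7) with h | h; exacts [Or.inl (by linarith), Or.inr (by linarith)]), han, hx, hy,
    ?_, ?_, ?_⟩
  · rw [ha', e8]
  · rw [hx', hβ, e9]; congr 1; ring
  · rw [hy', hγ, e9]; congr 1; ring

/-- flags over `U0`, walls with `x × y ≠ 0` included -/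
theorem U0_flag {x y a' x' y' : Fin 3 → ℝ} (h3 : x ⨯₃ y ≠ 0)
    (C1 : x ⨯₃ x' + y ⨯₃ y' = 0) (C2 : a' ⨯₃ x = 0) (C3 : a' ⨯₃ y = 0)
    (C4 : x ⬝ᵥ y' = y ⬝ᵥ x') (hu : x ⬝ᵥ x + y ⬝ᵥ y = 1)
    (hb : a' ⬝ᵥ a' + x' ⬝ᵥ x' + y' ⬝ᵥ y' = 1) (hub : x ⬝ᵥ x' + y ⬝ᵥ y' = 0) :
    ∃ f1 f2 f3 : Fin 3 → ℝ, ∃ co si ct st : ℝ, Frame3 f1 f2 f3 ∧ co ^ 2 + si ^ 2 = 1 ∧
      ct ^ 2 + st ^ 2 = 1 ∧ x ⨯₃ y = (co * si) • f3 ∧
      x = (ct * co) • f1 - (st * si) • f2 ∧ y = (st * co) • f1 + (ct * si) • f2 ∧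
      a' = 0 ∧
      x' = -(ct * si) • f1 - (st * co) • f2 ∧ y' = -(st * si) • f1 + (ct * co) • f2 := by
  obtain ⟨X, Y, w, f1, f2, f3, co, si, hO, hf, hcs, ha, hx, hy, ha', hx', hy'⟩ :=
    flag_normal (a := 0) (x := x) (y := y) (a' := a') (x' := x') (y' := y')
      (by rw [map_zero, LinearMap.zero_apply, zero_add]; exact C1)
      (by rw [map_zero, LinearMap.zero_apply, C2]) (by rw [map_zero, LinearMap.zero_apply, C3])
      C4 (by rw [zero_dotProduct, zero_add]; exact hu) hb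
      (by rw [zero_dotProduct, zero_add]; exact hub)
  -- `a = 0`
  have n1 := hf.n1; have n2 := hf.n2; have o12 := hf.o12
  have e1 : co * w 0 = 0 := by
    have := congrArg (fun v => v ⬝ᵥ f2) ha
    simp only [zero_dotProduct, sub_dotProduct, smul_dotProduct, smul_eq_mul, n2, o12] at this
    linarith
  have e2 : si * w 1 = 0 := by
    have := congrArg (fun v => v ⬝ᵥ f1) ha
    simp only [zero_dotProduct, sub_dotProduct, smul_dotProduct, smul_eq_mul, n1,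
      dotProduct_comm f2 f1, o12] at this
    linarith
  have c12 : w 2 = X 0 * Y 1 - X 1 * Y 0 := by rw [← hO.c12, cr2]
  have hxy : x ⨯₃ y = (co * si * w 2) • f3 := by
    rw [hx, hy, c12]
    simp only [map_add, map_smul, LinearMap.add_apply, LinearMap.smul_apply, cross_self, hf.c12,
      smul_zero, zero_add, add_zero]
    rw [← cross_anticomm f1 f2, hf.c12]
    module
  have hne : co * si * w 2 ≠ 0 := fun h0 => h3 (by rw [hxy, h0, zero_smul])
  have hco : co ≠ 0 := fun h0 => hne (by rw [h0]; ring)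
  have hsi : si ≠ 0 := fun h0 => hne (by rw [h0]; ring)
  have w0 : w 0 = 0 := (mul_eq_zero.1 e1).resolve_left hco
  have w1 : w 1 = 0 := (mul_eq_zero.1 e2).resolve_left hsi
  have n3 := hO.n3
  have nX := hO.n1
  have nY := hO.n2
  have oX := hO.o13
  have oY := hO.o23
  have oXY := hO.o12
  rw [dot3] at n3 nX nY oX oY oXY
  rw [w0, w1] at n3 oX oY
  have hw : w 2 = 1 ∨ w 2 = -1 := by
    rcases mul_eq_zero.1 (show (w 2 - 1) * (w 2 + 1) = 0 by linear_combination n3) with h | h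
    exacts [Or.inl (by linarith), Or.inr (by linarith)]
  have hw0 : w 2 ≠ 0 := fun h0 => hne (by rw [h0]; ring)
  have X2 : X 2 = 0 := (mul_eq_zero.1 (show X 2 * w 2 = 0 by linarith)).resolve_right hw0
  have Y2 : Y 2 = 0 := (mul_eq_zero.1 (show Y 2 * w 2 = 0 by linarith)).resolve_right hw0
  rw [X2] at nX oXY
  rw [Y2] at nY oXY
  have hY0 : Y 0 = -(X 1) * w 2 := by
    rw [c12]; linear_combination (-Y 0) * nX + X 0 * oXY
  have hY1 : Y 1 = X 0 * w 2 := by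
    rw [c12]; linear_combination (-Y 1) * nX + X 1 * oXY
  have ha'0 : a' = 0 := by rw [ha', w0, w1]; simp
  rcases hw with h2 | h2
  · refine ⟨f1, f2, f3, co, si, X 0, -X 1, hf, hcs, by linear_combination nX, ?_, ?_, ?_, ha'0,
      ?_, ?_⟩
    · rw [hxy, h2, mul_one]
    · rw [hx]; module
    · rw [hy, hY0, hY1, h2]; module
    · rw [hx']; module
    · rw [hy', hY0, hY1, h2]; module
  · have hf' : Frame3 f1 (-f2) (-f3) := by
      constructor
      · exact hf.n1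
      · rw [neg_dotProduct_neg]; exact hf.n2
      · rw [neg_dotProduct_neg]; exact hf.n3
      · rw [dotProduct_neg, hf.o12, neg_zero]
      · rw [dotProduct_neg, hf.o13, neg_zero]
      · rw [neg_dotProduct_neg]; exact hf.o23
      · rw [map_neg, hf.c12]
      · rw [map_neg, map_neg, LinearMap.neg_apply, neg_neg]; exact hf.c23
      · rw [map_neg, LinearMap.neg_apply, hf.c31]
    refine ⟨f1, -f2, -f3, co, si, X 0, X 1, hf', hcs, by linear_combination nX, ?_, ?_, ?_, ha'0,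
      ?_, ?_⟩
    · rw [hxy, h2]; module
    · rw [hx]; module
    · rw [hy, hY0, hY1, h2]; module
    · rw [hx']; module
    · rw [hy', hY0, hY1, h2]; module

end Pool.Agent.FL.S2
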