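import Pool.Agent.FL.QF
import Pool.Agent.helper75.FL.Jet

/-!
# MP_f09395_gt: the third order form of `a K + b K² / N` for a symmetric pair

`𝔪 = 𝔪_k ⊕ 𝔪_p`, `K u = |u_k|²`, `N u = |u|²`.  At a unit flag `(u, b)` with `E = K u`, the third
order form of `φ = a K + b K²/N` is `-(B³ |P[u_k, b_k]|² + A B² |[u_k, b_k]_h|²)`, where
`B = 2 a + 4 b E`, `A = -2 b E²`.
-/

set_option linter.unusedSectionVars false

noncomputable section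

namespace Pool.Agent.FL

open scoped ContDiff
open Pool.Agent.Helper93.Fin Pool.Agent.helper79.FP Pool.Agent.helper79.FR
open Filter Topology Module

variable {𝔸 : Type*} [NormedRing 𝔸] [NormedAlgebra ℝ 𝔸] [FiniteDimensional ℝ 𝔸]
variable {g h m : Submodule ℝ 𝔸} {Q : 𝔸 →ₗ[ℝ] 𝔸 →ₗ[ℝ] ℝ} {P : 𝔸 →L[ℝ] m} {φ : m → ℝ}

/-! ### flags with `P [u, x] = 0` -/

theorem D2_zero_left (φ : m → ℝ) (u w : m) : D2 φ u 0 w = 0 := by
  have h1 : (fun z => D1 φ z 0) = fun _ => (0 : ℝ) := funext fun z => by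
    rw [D1, map_zero]
  rw [D2, h1]
  simp

theorem D3_zero_mid (φ : m → ℝ) (u b w : m) : D3 φ u b 0 w = 0 := by
  have h1 : (fun z => D2 φ z b 0) = fun _ => (0 : ℝ) := funext fun z => by
    rw [D2, map_zero]
  rw [D3, h1]
  simp

theorem D4_zero_right (φ : m → ℝ) (u b c d : m) : D4 φ u b c d 0 = 0 := by
  rw [D4, map_zero]

/-- the third order form at a flag with `P [u, x] = 0` -/
theorem T3F_e0 (hN : NData g h m Q P) {u b x s : m} (hx : ∀ w : m, Q (x : 𝔸) w = D1 φ u w)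
    (hs : ∀ w : m, Q (s : 𝔸) w = D2 φ u b w) (he : P ⁅(u : 𝔸), (x : 𝔸)⁆ = 0) :
    T3F Q P φ u b = - D2 φ u (P ⁅(b : 𝔸), (x : 𝔸)⁆) (P ⁅(b : 𝔸), (x : 𝔸)⁆)
      + D2 φ u (P ⁅(b : 𝔸), (x : 𝔸)⁆) (P ⁅(u : 𝔸), (s : 𝔸)⁆)
      - D2 φ u (P ⁅(u : 𝔸), (s : 𝔸)⁆) (P ⁅(u : 𝔸), (s : 𝔸)⁆)
      - Q (P ⁅(b : 𝔸), (x : 𝔸)⁆ - P ⁅(u : 𝔸), (s : 𝔸)⁆ : m) ⁅(x : 𝔸), (s : 𝔸)⁆ := by
  rw [← T3F_eq hN hx hs (gy_spec hN u b)]
  unfold T3N
  rw [he, D4_zero_right, D3_zero_mid, D2_zero_left]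
  simp

/-- the third order form at a flag with `x = c u + d b` -/
theorem T3F_xcd (hN : NData g h m Q P) {u b s : m} {c d : ℝ}
    (hub : ⁅(u : 𝔸), (b : 𝔸)⁆ = 0)
    (hx : ∀ w : m, c * Q (u : 𝔸) w + d * Q (b : 𝔸) w = D1 φ u w)
    (hs : ∀ w : m, Q (s : 𝔸) w = D2 φ u b w) :
    T3F Q P φ u b = - D2 φ u (P ⁅(u : 𝔸), (s : 𝔸)⁆) (P ⁅(u : 𝔸), (s : 𝔸)⁆)
      + c * Q (P ⁅(u : 𝔸), (s : 𝔸)⁆ : 𝔸) (P ⁅(u : 𝔸), (s : 𝔸)⁆ : 𝔸)
      + d * Q (P ⁅(u : 𝔸), (s : 𝔸)⁆ : 𝔸) ⁅(b : 𝔸), (s : 𝔸)⁆ := by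
  have hbu : ⁅(b : 𝔸), (u : 𝔸)⁆ = 0 := by rw [skew, hub, neg_zero]
  have e1 : ⁅(u : 𝔸), ((c • u + d • b : m) : 𝔸)⁆ = 0 := by
    have : ((c • u + d • b : m) : 𝔸) = c • (u : 𝔸) + d • (b : 𝔸) := rfl
    rw [this]
    simp only [Ring.lie_def] at hub ⊢
    rw [mul_add, add_mul, mul_smul_comm, mul_smul_comm, smul_mul_assoc, smul_mul_assoc]
    have : d • ((u : 𝔸) * b) - d • ((b : 𝔸) * u) = 0 := by rw [← smul_sub, hub, smul_zero]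
    rw [← this]; abel
  have e2 : ⁅(b : 𝔸), ((c • u + d • b : m) : 𝔸)⁆ = 0 := by
    have : ((c • u + d • b : m) : 𝔸) = c • (u : 𝔸) + d • (b : 𝔸) := rfl
    rw [this]
    simp only [Ring.lie_def] at hbu ⊢
    rw [mul_add, add_mul, mul_smul_comm, mul_smul_comm, smul_mul_assoc, smul_mul_assoc]
    have : c • ((b : 𝔸) * u) - c • ((u : 𝔸) * b) = 0 := by rw [← smul_sub, hbu, smul_zero]
    rw [← this]; abel
  have e3 : ⁅((c • u + d • b : m) : 𝔸), (s : 𝔸)⁆ =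
      c • ⁅(u : 𝔸), (s : 𝔸)⁆ + d • ⁅(b : 𝔸), (s : 𝔸)⁆ := by
    have : ((c • u + d • b : m) : 𝔸) = c • (u : 𝔸) + d • (b : 𝔸) := rfl
    rw [this]
    simp only [Ring.lie_def, smul_sub, mul_add, add_mul, mul_smul_comm, smul_mul_assoc]
    abel
  have hx' : ∀ w : m, Q ((c • u + d • b : m) : 𝔸) w = D1 φ u w := by
    intro w
    rw [← hx w]
    have : ((c • u + d • b : m) : 𝔸) = c • (u : 𝔸) + d • (b : 𝔸) := rfl
    rw [this, map_add, map_smul, map_smul]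
    rfl
  rw [T3F_e0 hN hx' hs (by rw [e1, map_zero]), e2, e3, map_zero, D2_zero_left, D2_zero_left,
    zero_sub, map_add, map_smul, map_smul]
  rw [Q_P hN _ (lm hN u s)]
  have e4 : ((-P ⁅(u : 𝔸), (s : 𝔸)⁆ : m) : 𝔸) = -(P ⁅(u : 𝔸), (s : 𝔸)⁆ : 𝔸) := rfl
  rw [e4, map_neg, LinearMap.neg_apply, LinearMap.neg_apply]
  simp only [smul_eq_mul]
  ring

/-! ### symmetric pairs -/

/-- `pk` is the projection of `𝔪` to the part in `𝔨`, for a symmetric pair `(𝔤, 𝔨)` with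
`𝔥 ⊆ 𝔨` -/
structure SymP {m : Submodule ℝ 𝔸} (Q : 𝔸 →ₗ[ℝ] 𝔸 →ₗ[ℝ] ℝ) (P : 𝔸 →L[ℝ] m) (pk : m →L[ℝ] m) :
    Prop where
  idem : ∀ z, pk (pk z) = pk z
  symm : ∀ a c : m, Q (pk a : 𝔸) c = Q (a : 𝔸) (pk c)
  kk : ∀ a c : m, pk (P ⁅(pk a : 𝔸), (pk c : 𝔸)⁆) = P ⁅(pk a : 𝔸), (pk c : 𝔸)⁆
  pp : ∀ a c : m, pk a = 0 → pk c = 0 → pk (P ⁅(a : 𝔸), (c : 𝔸)⁆) = P ⁅(a : 𝔸), (c : 𝔸)⁆
  kp : ∀ a c : m, pk c = 0 → pk (P ⁅(pk a : 𝔸), (c : 𝔸)⁆) = 0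
  kph : ∀ a c : m, pk c = 0 → ((P ⁅(pk a : 𝔸), (c : 𝔸)⁆ : m) : 𝔸) = ⁅(pk a : 𝔸), (c : 𝔸)⁆

/-- the form `⟨a_k, c⟩` -/
def kf (Q : 𝔸 →ₗ[ℝ] 𝔸 →ₗ[ℝ] ℝ) (pk : m →L[ℝ] m) (a c : m) : ℝ := Q (pk a : 𝔸) c

/-- the form `⟨a, c⟩` -/
def nf (Q : 𝔸 →ₗ[ℝ] 𝔸 →ₗ[ℝ] ℝ) (a c : m) : ℝ := Q (a : 𝔸) c

/-- `a K + b K² / N` -/
def baseF (Q : 𝔸 →ₗ[ℝ] 𝔸 →ₗ[ℝ] ℝ) (pk : m →L[ℝ] m) (a b : ℝ) (z : m) : ℝ :=
  a * kf Q pk z z + b * (kf Q pk z z ^ 2 * (nf Q z z)⁻¹)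

/-- first derivative of `K² / N` at unit vectors -/
def sF1 (Q : 𝔸 →ₗ[ℝ] 𝔸 →ₗ[ℝ] ℝ) (pk : m →L[ℝ] m) (u a : m) : ℝ :=
  4 * (kf Q pk u u * kf Q pk u a) - 2 * kf Q pk u u ^ 2 * nf Q u a

/-- second derivative of `K² / N` at unit vectors -/
def sF2 (Q : 𝔸 →ₗ[ℝ] 𝔸 →ₗ[ℝ] ℝ) (pk : m →L[ℝ] m) (u a b : m) : ℝ :=
  4 * (kf Q pk u u * kf Q pk a b) + 8 * (kf Q pk u a * kf Q pk u b)
    - 2 * kf Q pk u u ^ 2 * nf Q a b - 2 * nf Q u b * sF1 Q pk u a - 2 * nf Q u a * sF1 Q pk u b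

/-- third derivative of `K² / N` at unit vectors -/
def sF3 (Q : 𝔸 →ₗ[ℝ] 𝔸 →ₗ[ℝ] ℝ) (pk : m →L[ℝ] m) (u a b c : m) : ℝ :=
  8 * (kf Q pk u a * kf Q pk b c + kf Q pk u b * kf Q pk a c + kf Q pk u c * kf Q pk a b)
    - 2 * nf Q u a * sF2 Q pk u b c - 2 * nf Q u b * sF2 Q pk u a c - 2 * nf Q u c * sF2 Q pk u a b
    - 2 * nf Q a b * sF1 Q pk u c - 2 * nf Q a c * sF1 Q pk u b - 2 * nf Q b c * sF1 Q pk u a

/-- fourth derivative of `K² / N` at unit vectors -/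
def sF4 (Q : 𝔸 →ₗ[ℝ] 𝔸 →ₗ[ℝ] ℝ) (pk : m →L[ℝ] m) (u a b c d : m) : ℝ :=
  8 * (kf Q pk a d * kf Q pk b c + kf Q pk b d * kf Q pk a c + kf Q pk c d * kf Q pk a b)
    - 2 * nf Q u a * sF3 Q pk u b c d - 2 * nf Q u b * sF3 Q pk u a c d
    - 2 * nf Q u c * sF3 Q pk u a b d - 2 * nf Q u d * sF3 Q pk u a b c
    - 2 * nf Q a b * sF2 Q pk u c d - 2 * nf Q a c * sF2 Q pk u b d - 2 * nf Q a d * sF2 Q pk u b c
    - 2 * nf Q b c * sF2 Q pk u a d - 2 * nf Q b d * sF2 Q pk u a c - 2 * nf Q c d * sF2 Q pk u a b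

section forms
variable {pk : m →L[ℝ] m}

/-- the continuous bilinear form `kf` -/
def kfL (Q : 𝔸 →ₗ[ℝ] 𝔸 →ₗ[ℝ] ℝ) (pk : m →L[ℝ] m) : m →L[ℝ] m →L[ℝ] ℝ := (BN m Q).comp pk

theorem kfL_apply (a c : m) : kfL Q pk a c = kf Q pk a c := by
  rw [kfL, ContinuousLinearMap.comp_apply, BN_apply]; rfl

theorem nf_BN (a c : m) : BN m Q a c = nf Q a c := BN_apply a c

theorem kf_comm (hN : NData g h m Q P) (hS : SymP Q P pk) (a c : m) :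
    kf Q pk a c = kf Q pk c a := by
  unfold kf
  rw [hS.symm, hN.Qsymm]

theorem nf_comm (hN : NData g h m Q P) (a c : m) : nf Q a c = nf Q c a := hN.Qsymm _ _

theorem kfL_comm (hN : NData g h m Q P) (hS : SymP Q P pk) (a c : m) :
    kfL Q pk a c = kfL Q pk c a := by
  rw [kfL_apply, kfL_apply, kf_comm hN hS]

/-- `K² / N` -/
def kqn (Q : 𝔸 →ₗ[ℝ] 𝔸 →ₗ[ℝ] ℝ) (pk : m →L[ℝ] m) (z : m) : ℝ := kf Q pk z z ^ 2 * (nf Q z z)⁻¹

theorem nf_smooth : ContDiffOn ℝ ∞ (fun z : m => nf Q z z) {0}ᶜ := by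
  have h1 : (fun z : m => nf Q z z) = fun z => BN m Q z z := funext fun z => (nf_BN z z).symm
  rw [h1]
  exact ((BN m Q).contDiff.clm_apply contDiff_id).contDiffOn

theorem nf_ne (hN : NData g h m Q P) {z : m} (hz : z ≠ 0) : nf Q z z ≠ 0 :=
  (Qm_pos hN hz).ne'

theorem kq_smooth : ContDiff ℝ ∞ (fun z : m => kf Q pk z z) := by
  have h1 : (fun z : m => kf Q pk z z) = fun z => kfL Q pk z z := funext fun z => (kfL_apply z z).symm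
  rw [h1]
  exact (kfL Q pk).contDiff.clm_apply contDiff_id

theorem kqn_smooth (hN : NData g h m Q P) : ContDiffOn ℝ ∞ (kqn Q pk) {0}ᶜ := by
  have h1 : ContDiffOn ℝ ∞ (fun z : m => kf Q pk z z ^ 2) {0}ᶜ := (kq_smooth.pow 2).contDiffOn
  exact h1.mul (nf_smooth.inv fun z hz => nf_ne hN hz)

theorem kqn_mul (hN : NData g h m Q P) : (fun z : m => kqn Q pk z * nf Q z z) =
    QFG (ContinuousLinearMap.mul ℝ ℝ) (kfL Q pk) := by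
  funext z
  unfold kqn QFG
  rw [ContinuousLinearMap.mul_apply', kfL_apply]
  by_cases hz : z = 0
  · rw [hz]
    have h1 : kf Q pk (0 : m) 0 = 0 := by
      unfold kf; rw [map_zero]; simp
    rw [h1]; simp
  · rw [mul_assoc, inv_mul_cancel₀ (nf_ne hN hz)]; ring

theorem nf_D1 (hN : NData g h m Q P) (u a : m) : D1 (fun z : m => nf Q z z) u a = 2 * nf Q u a := by
  have h1 : (fun z : m => nf Q z z) = fun z => BN m Q z z := funext fun z => (nf_BN z z).symm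
  rw [h1, QF_q1 (q := BN m Q) (BN_symm hN), nf_BN]

theorem nf_D2 (hN : NData g h m Q P) (u a b : m) :
    D2 (fun z : m => nf Q z z) u a b = 2 * nf Q a b := by
  have h1 : (fun z : m => nf Q z z) = fun z => BN m Q z z := funext fun z => (nf_BN z z).symm
  rw [h1, QF_q2 (q := BN m Q) (BN_symm hN), nf_BN]

theorem nf_D3 (hN : NData g h m Q P) (u a b c : m) : D3 (fun z : m => nf Q z z) u a b c = 0 := by
  have h1 : (fun z : m => nf Q z z) = fun z => BN m Q z z := funext fun z => (nf_BN z z).symm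
  rw [h1, QF_q3 (q := BN m Q) (BN_symm hN)]

theorem nf_D4 (hN : NData g h m Q P) (u a b c d : m) :
    D4 (fun z : m => nf Q z z) u a b c d = 0 := by
  have h1 : (fun z : m => nf Q z z) = fun z => BN m Q z z := funext fun z => (nf_BN z z).symm
  rw [h1, QF_q4 (q := BN m Q) (BN_symm hN)]

theorem kf_D1 (hN : NData g h m Q P) (hS : SymP Q P pk) (u a : m) :
    D1 (fun z : m => kf Q pk z z) u a = 2 * kf Q pk u a := by
  have h1 : (fun z : m => kf Q pk z z) = fun z => kfL Q pk z z := funext fun z => (kfL_apply z z).symm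
  rw [h1, QF_q1 (q := kfL Q pk) (kfL_comm hN hS), kfL_apply]

theorem kf_D2 (hN : NData g h m Q P) (hS : SymP Q P pk) (u a b : m) :
    D2 (fun z : m => kf Q pk z z) u a b = 2 * kf Q pk a b := by
  have h1 : (fun z : m => kf Q pk z z) = fun z => kfL Q pk z z := funext fun z => (kfL_apply z z).symm
  rw [h1, QF_q2 (q := kfL Q pk) (kfL_comm hN hS), kfL_apply]

theorem kf_D3 (hN : NData g h m Q P) (hS : SymP Q P pk) (u a b c : m) :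
    D3 (fun z : m => kf Q pk z z) u a b c = 0 := by
  have h1 : (fun z : m => kf Q pk z z) = fun z => kfL Q pk z z := funext fun z => (kfL_apply z z).symm
  rw [h1, QF_q3 (q := kfL Q pk) (kfL_comm hN hS)]

theorem kf_D4 (hN : NData g h m Q P) (hS : SymP Q P pk) (u a b c d : m) :
    D4 (fun z : m => kf Q pk z z) u a b c d = 0 := by
  have h1 : (fun z : m => kf Q pk z z) = fun z => kfL Q pk z z := funext fun z => (kfL_apply z z).symm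
  rw [h1, QF_q4 (q := kfL Q pk) (kfL_comm hN hS)]

theorem ne_of_unit {u : m} (h1 : nf Q u u = 1) : u ≠ 0 := by
  rintro rfl
  simp [nf] at h1

theorem mulC (a b : ℝ) : ContinuousLinearMap.mul ℝ ℝ a b = ContinuousLinearMap.mul ℝ ℝ b a := by
  simp [mul_comm]

theorem kqn_D1 (hN : NData g h m Q P) (hS : SymP Q P pk) {u : m} (h1 : nf Q u u = 1) (a : m) :
    D1 (kqn Q pk) u a = sF1 Q pk u a := by
  have e := D1_mul (kqn_smooth (pk := pk) hN) (nf_smooth (Q := Q)) (ne_of_unit h1) a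
  rw [kqn_mul hN, QFG_1 mulC (kfL_comm hN hS), nf_D1 hN, h1] at e
  simp only [ContinuousLinearMap.mul_apply', kfL_apply, kqn, h1] at e
  unfold sF1
  linear_combination -e

theorem kqn_D2 (hN : NData g h m Q P) (hS : SymP Q P pk) {u : m} (h1 : nf Q u u = 1) (a b : m) :
    D2 (kqn Q pk) u a b = sF2 Q pk u a b := by
  have e := D2_mul (kqn_smooth (pk := pk) hN) (nf_smooth (Q := Q)) (ne_of_unit h1) a b
  rw [kqn_mul hN, QFG_2 mulC (kfL_comm hN hS), nf_D1 hN, nf_D1 hN, nf_D2 hN, h1, kqn_D1 hN hS h1,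
    kqn_D1 hN hS h1] at e
  simp only [ContinuousLinearMap.mul_apply', kfL_apply, kqn, h1] at e
  unfold sF2
  linear_combination -e

theorem kqn_D3 (hN : NData g h m Q P) (hS : SymP Q P pk) {u : m} (h1 : nf Q u u = 1)
    (a b c : m) : D3 (kqn Q pk) u a b c = sF3 Q pk u a b c := by
  have e := Pool.Agent.helper75.FL.D3_mul (kqn_smooth (pk := pk) hN) (nf_smooth (Q := Q)) (ne_of_unit h1) a b c
  rw [kqn_mul hN, QFG_3 mulC (kfL_comm hN hS)] at e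
  simp only [nf_D1 hN, nf_D2 hN, nf_D3 hN, h1, kqn_D1 hN hS h1, kqn_D2 hN hS h1,
    ContinuousLinearMap.mul_apply', kfL_apply] at e
  unfold sF3
  linear_combination -e

theorem kqn_D4 (hN : NData g h m Q P) (hS : SymP Q P pk) {u : m} (h1 : nf Q u u = 1)
    (a b c d : m) : D4 (kqn Q pk) u a b c d = sF4 Q pk u a b c d := by
  have e := Pool.Agent.helper75.FL.D4_mul (kqn_smooth (pk := pk) hN) (nf_smooth (Q := Q)) (ne_of_unit h1)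
    a b c d
  rw [kqn_mul hN, QFG_4 mulC (kfL_comm hN hS)] at e
  simp only [nf_D1 hN, nf_D2 hN, nf_D3 hN, nf_D4 hN, h1, kqn_D1 hN hS h1, kqn_D2 hN hS h1,
    kqn_D3 hN hS h1, ContinuousLinearMap.mul_apply', kfL_apply] at e
  unfold sF4
  linear_combination -e

end forms

end Pool.Agent.FL
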