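import Pool.Agent.FL.S1BaseT

/-!
# MP_f09395_gt: the third order form of `a K + b K² / N` at flags of a symmetric pair, formula
-/

set_option linter.unusedSectionVars false

noncomputable section

namespace Pool.Agent.FL

open scoped ContDiff
open Pool.Agent.Helper93.Fin Pool.Agent.helper79.FP Pool.Agent.helper79.FR
open Filter Topology Module

variable {𝔸 : Type*} [NormedRing 𝔸] [NormedAlgebra ℝ 𝔸] [FiniteDimensional ℝ 𝔸]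
variable {g h m : Submodule ℝ 𝔸} {Q : 𝔸 →ₗ[ℝ] 𝔸 →ₗ[ℝ] ℝ} {P : 𝔸 →L[ℝ] m} {pk : m →L[ℝ] m}

/-- the scalar facts about the components of a flag -/
theorem base_scal (hN : NData g h m Q P) (hS : SymP Q P pk) {u v uk up vk vp : m}
    (huk : uk = pk u) (hvk : vk = pk v) (hup : up = u - pk u) (hvp : vp = v - pk v)
    (hF : Flag Q u v) {Y Z W T : 𝔸} (hY : Y = ⁅(up : 𝔸), (uk : 𝔸)⁆)
    (hZ : Z = ⁅(vp : 𝔸), (uk : 𝔸)⁆) (hW : W = ⁅(uk : 𝔸), (vk : 𝔸)⁆) (hT : T = ⁅(vp : 𝔸), (vk : 𝔸)⁆) :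
    Q Z Z - Q W W - Q Y T = 0 ∧
    ((P Y : m) : 𝔸) = Y ∧ ((P Z : m) : 𝔸) = Z ∧ ((P T : m) : 𝔸) = T ∧
    pk (P Y) = 0 ∧ pk (P Z) = 0 ∧ pk (P T) = 0 ∧ pk (P W) = P W ∧
    Q (u : 𝔸) Y = 0 ∧ Q (u : 𝔸) Z = 0 ∧ Q (u : 𝔸) W = 0 ∧
    Q (v : 𝔸) Y = 0 ∧ Q (v : 𝔸) Z = 0 ∧ Q (v : 𝔸) W = 0 ∧ Q (uk : 𝔸) W = 0 ∧
    Y ∈ g ∧ Z ∈ g ∧ W ∈ g ∧ T ∈ g := by
  obtain ⟨f1, f2⟩ := flag_split hN hS (u := u) (v := v) hF.2.2.2
  rw [← hup, ← hvp, ← huk, ← hvk] at f2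
  rw [← hup, ← hvp, ← hvk, ← huk] at f1
  have p1 : pk up = 0 := by rw [hup]; exact pk_sub hN hS u
  have p2 : pk vp = 0 := by rw [hvp]; exact pk_sub hN hS v
  have q1 : pk uk = uk := by rw [huk]; exact hS.idem u
  have q2 : pk vk = vk := by rw [hvk]; exact hS.idem v
  have eu : (u : 𝔸) = (uk : 𝔸) + (up : 𝔸) := by rw [huk, hup, ← Submodule.coe_add]; congr 1; abel
  have ev : (v : 𝔸) = (vk : 𝔸) + (vp : 𝔸) := by rw [hvk, hvp, ← Submodule.coe_add]; congr 1; abel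
  have gY : Y ∈ g := by rw [hY]; exact lm hN _ _
  have gZ : Z ∈ g := by rw [hZ]; exact lm hN _ _
  have gW : W ∈ g := by rw [hW]; exact lm hN _ _
  have gT : T ∈ g := by rw [hT]; exact lm hN _ _
  have kpo : ∀ x y : m, pk x = x → pk y = 0 → Q (x : 𝔸) y = 0 := by
    intro x y hx hy
    rw [← hx, hS.symm, hy]
    simp
  have cY : ((P Y : m) : 𝔸) = Y := by rw [hY, huk]; exact kp_coe hN hS u up p1
  have cZ : ((P Z : m) : 𝔸) = Z := by rw [hZ, huk]; exact kp_coe hN hS u vp p2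
  have cT : ((P T : m) : 𝔸) = T := by rw [hT, hvk]; exact kp_coe hN hS v vp p2
  have kY : pk (P Y) = 0 := by rw [hY, skew, map_neg, map_neg, huk, hS.kp u up p1, neg_zero]
  have kZ : pk (P Z) = 0 := by rw [hZ, skew, map_neg, map_neg, huk, hS.kp u vp p2, neg_zero]
  have kT : pk (P T) = 0 := by rw [hT, skew, map_neg, map_neg, hvk, hS.kp v vp p2, neg_zero]
  have kW : pk (P W) = P W := by rw [hW, huk, hvk]; exact hS.kk u v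
  have nk : ∀ x : m, pk x = x → Q (x : 𝔸) Y = 0 := fun x hx => by
    rw [← cY]; exact kpo x _ hx kY
  have nk' : ∀ x : m, pk x = x → Q (x : 𝔸) Z = 0 := fun x hx => by
    rw [← cZ]; exact kpo x _ hx kZ
  have np : ∀ x : m, pk x = 0 → Q (x : 𝔸) W = 0 := fun x hx => by
    rw [← Q_P hN _ gW, hN.Qsymm]; exact kpo _ x kW hx
  have upY : Q (up : 𝔸) Y = 0 := by rw [hY]; exact Q_self_lie' hN _ _
  have vpZ : Q (vp : 𝔸) Z = 0 := by rw [hZ]; exact Q_self_lie' hN _ _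
  have ukW : Q (uk : 𝔸) W = 0 := by rw [hW]; exact Q_self_lie' hN _ _
  have vkW : Q (vk : 𝔸) W = 0 := by rw [hW]; exact Q_self_lie hN _ _
  have upZ : Q (up : 𝔸) Z = 0 := by
    rw [hZ, ← hN.Qinv, f2, map_neg, LinearMap.neg_apply, hN.Qsymm, Q_self_lie' hN, neg_zero]
  have vpY : Q (vp : 𝔸) Y = 0 := by
    rw [hY, ← hN.Qinv, skew (vp : 𝔸) (up : 𝔸), f2, neg_neg, hN.Qsymm, Q_self_lie' hN]
  refine ⟨?_, cY, cZ, cT, kY, kZ, kT, kW, ?_, ?_, ?_, ?_, ?_, ?_, ukW, gY, gZ, gW, gT⟩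
  · have a1 : Q Z Z = Q (vp : 𝔸) ⁅(uk : 𝔸), ⁅(up : 𝔸), (vk : 𝔸)⁆⁆ := by
      rw [← hN.Qinv, f1, ← hZ]
    have a2 : Q W W = Q (vp : 𝔸) ⁅(up : 𝔸), ⁅(uk : 𝔸), (vk : 𝔸)⁆⁆ := by
      rw [← hN.Qinv, skew (vp : 𝔸) (up : 𝔸), f2, neg_neg, ← hW]
    have a3 : Q Y T = Q (vp : 𝔸) ⁅(vk : 𝔸), ⁅(up : 𝔸), (uk : 𝔸)⁆⁆ := by
      rw [← hN.Qinv, ← hT, ← hY, hN.Qsymm]
    rw [a1, a2, a3, ← map_sub, ← map_sub]
    have a4 : ⁅(uk : 𝔸), ⁅(up : 𝔸), (vk : 𝔸)⁆⁆ - ⁅(up : 𝔸), ⁅(uk : 𝔸), (vk : 𝔸)⁆⁆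
        - ⁅(vk : 𝔸), ⁅(up : 𝔸), (uk : 𝔸)⁆⁆ = 0 := by
      simp only [Ring.lie_def]
      noncomm_ring
    rw [a4, map_zero]
  · rw [eu, map_add, LinearMap.add_apply, nk uk q1, upY, add_zero]
  · rw [eu, map_add, LinearMap.add_apply, nk' uk q1, upZ, add_zero]
  · rw [eu, map_add, LinearMap.add_apply, ukW, np up p1, add_zero]
  · rw [ev, map_add, LinearMap.add_apply, nk vk q2, vpY, add_zero]
  · rw [ev, map_add, LinearMap.add_apply, nk' vk q2, vpZ, add_zero]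
  · rw [ev, map_add, LinearMap.add_apply, vkW, np vp p2, add_zero]

/-- brackets with a combination of `u, v, u_k, v_k` -/
theorem base_br (hN : NData g h m Q P) (hS : SymP Q P pk) {u v uk up vk vp : m}
    (huk : uk = pk u) (hvk : vk = pk v) (hup : up = u - pk u) (hvp : vp = v - pk v)
    (huv : ⁅(u : 𝔸), (v : 𝔸)⁆ = 0) {Y Z W T : 𝔸} (hY : Y = ⁅(up : 𝔸), (uk : 𝔸)⁆)
    (hZ : Z = ⁅(vp : 𝔸), (uk : 𝔸)⁆) (hW : W = ⁅(uk : 𝔸), (vk : 𝔸)⁆) (hT : T = ⁅(vp : 𝔸), (vk : 𝔸)⁆)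
    (α β γ δ : ℝ) :
    ⁅(u : 𝔸), ((α • u + β • v + γ • uk + δ • vk : m) : 𝔸)⁆ = γ • Y + δ • (W + Z) ∧
    ⁅(v : 𝔸), ((α • u + β • v + γ • uk + δ • vk : m) : 𝔸)⁆ = γ • (Z - W) + δ • T ∧
    ⁅(uk : 𝔸), ((α • u + β • v + γ • uk + δ • vk : m) : 𝔸)⁆ =
      -(α • Y) + β • (W - Z) + δ • W := by
  obtain ⟨f1, f2⟩ := flag_split hN hS (u := u) (v := v) huv
  rw [← hup, ← hvp, ← hvk, ← huk] at f1
  have eu : (u : 𝔸) = (uk : 𝔸) + (up : 𝔸) := by rw [huk, hup, ← Submodule.coe_add]; congr 1; abel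
  have ev : (v : 𝔸) = (vk : 𝔸) + (vp : 𝔸) := by rw [hvk, hvp, ← Submodule.coe_add]; congr 1; abel
  have hX : ((α • u + β • v + γ • uk + δ • vk : m) : 𝔸) =
      α • (u : 𝔸) + β • (v : 𝔸) + γ • (uk : 𝔸) + δ • (vk : 𝔸) := rfl
  have lx : ∀ z : 𝔸, ⁅z, α • (u : 𝔸) + β • (v : 𝔸) + γ • (uk : 𝔸) + δ • (vk : 𝔸)⁆ =
      α • ⁅z, (u : 𝔸)⁆ + β • ⁅z, (v : 𝔸)⁆ + γ • ⁅z, (uk : 𝔸)⁆ + δ • ⁅z, (vk : 𝔸)⁆ := by
    intro z
    simp only [Ring.lie_def, mul_add, add_mul, mul_smul_comm, smul_mul_assoc, smul_sub]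
    abel
  have u1 : ⁅(u : 𝔸), (u : 𝔸)⁆ = 0 := by simp [Ring.lie_def]
  have v1 : ⁅(v : 𝔸), (v : 𝔸)⁆ = 0 := by simp [Ring.lie_def]
  have vu : ⁅(v : 𝔸), (u : 𝔸)⁆ = 0 := by rw [skew, huv, neg_zero]
  have u2 : ⁅(u : 𝔸), (uk : 𝔸)⁆ = Y := by rw [eu, hY]; simp only [Ring.lie_def]; noncomm_ring
  have u3 : ⁅(u : 𝔸), (vk : 𝔸)⁆ = W + Z := by
    rw [eu, hW, hZ, ← f1]; simp only [Ring.lie_def]; noncomm_ring
  have v2 : ⁅(v : 𝔸), (uk : 𝔸)⁆ = Z - W := by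
    rw [ev, hW, hZ]; simp only [Ring.lie_def]; noncomm_ring
  have v3 : ⁅(v : 𝔸), (vk : 𝔸)⁆ = T := by rw [ev, hT]; simp only [Ring.lie_def]; noncomm_ring
  have k1 : ⁅(uk : 𝔸), (u : 𝔸)⁆ = -Y := by rw [skew, u2]
  have k2 : ⁅(uk : 𝔸), (v : 𝔸)⁆ = W - Z := by rw [skew, v2]; abel
  have k3 : ⁅(uk : 𝔸), (uk : 𝔸)⁆ = 0 := by simp [Ring.lie_def]
  refine ⟨?_, ?_, ?_⟩
  · rw [hX, lx, u1, huv, u2, u3]; simp
  · rw [hX, lx, vu, v1, v2, v3]; simp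
  · rw [hX, lx, k1, k2, k3, ← hW]; simp

/-- **the third order form of `a K + b K² / N`** -/
theorem T3F_baseF (hN : NData g h m Q P) (hS : SymP Q P pk) {a b : ℝ} {u v : m}
    (hF : Flag Q u v) :
    T3F Q P (baseF Q pk a b) u v =
      -((2 * a + 4 * b * kf Q pk u u) ^ 3 * Q (P ⁅(pk u : 𝔸), (pk v : 𝔸)⁆ : 𝔸)
          (P ⁅(pk u : 𝔸), (pk v : 𝔸)⁆ : 𝔸)
        + (-2 * b * kf Q pk u u ^ 2) * (2 * a + 4 * b * kf Q pk u u) ^ 2 *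
          (Q ⁅(pk u : 𝔸), (pk v : 𝔸)⁆ ⁅(pk u : 𝔸), (pk v : 𝔸)⁆
            - Q (P ⁅(pk u : 𝔸), (pk v : 𝔸)⁆ : 𝔸) (P ⁅(pk u : 𝔸), (pk v : 𝔸)⁆ : 𝔸))) := by
  obtain ⟨huu, hvv, huv, hbr⟩ := hF
  have hF : Flag Q u v := ⟨huu, hvv, huv, hbr⟩
  have n1 : nf Q u u = 1 := huu
  have n2 : nf Q v v = 1 := hvv
  have n3 : nf Q u v = 0 := huv
  have n3' : nf Q v u = 0 := by rw [nf_comm hN]; exact n3
  obtain ⟨uk, huk⟩ : ∃ x, x = pk u := ⟨_, rfl⟩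
  obtain ⟨vk, hvk⟩ : ∃ x, x = pk v := ⟨_, rfl⟩
  obtain ⟨up, hup⟩ : ∃ x, x = u - pk u := ⟨_, rfl⟩
  obtain ⟨vp, hvp⟩ : ∃ x, x = v - pk v := ⟨_, rfl⟩
  obtain ⟨Y, hY⟩ : ∃ x, x = ⁅(up : 𝔸), (uk : 𝔸)⁆ := ⟨_, rfl⟩
  obtain ⟨Z, hZ⟩ : ∃ x, x = ⁅(vp : 𝔸), (uk : 𝔸)⁆ := ⟨_, rfl⟩
  obtain ⟨W, hW⟩ : ∃ x, x = ⁅(uk : 𝔸), (vk : 𝔸)⁆ := ⟨_, rfl⟩
  obtain ⟨T, hT⟩ : ∃ x, x = ⁅(vp : 𝔸), (vk : 𝔸)⁆ := ⟨_, rfl⟩
  obtain ⟨jac, cY, cZ, cT, kY, kZ, kT, kW, uY, uZ, uW, vY, vZ, vW, ukW, gY, gZ, gW, gT⟩ :=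
    base_scal hN hS huk hvk hup hvp hF hY hZ hW hT
  obtain ⟨E, hE⟩ : ∃ x, x = kf Q pk u u := ⟨_, rfl⟩
  obtain ⟨κ, hκ⟩ : ∃ x, x = kf Q pk u v := ⟨_, rfl⟩
  obtain ⟨Eb, hEb⟩ : ∃ x, x = kf Q pk v v := ⟨_, rfl⟩
  have hκ' : kf Q pk v u = κ := by rw [kf_comm hN hS, hκ]
  -- gradient vectors
  obtain ⟨x, hx⟩ : ∃ x : m, x = (-2 * b * E ^ 2) • u + (0 : ℝ) • v + (2 * a + 4 * b * E) • uk
    + (0 : ℝ) • vk := ⟨_, rfl⟩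
  obtain ⟨s, hs⟩ : ∃ x : m, x = (-(8 * b * E * κ)) • u + (-2 * b * E ^ 2) • v + (8 * b * κ) • uk
    + (2 * a + 4 * b * E) • vk := ⟨_, rfl⟩
  obtain ⟨y, hy⟩ : ∃ x : m, x = (b * (8 * E ^ 2 - 8 * E * Eb - 16 * κ ^ 2)) • u
    + (-(16 * b * E * κ)) • v + (b * (8 * Eb - 8 * E)) • uk + (16 * b * κ) • vk := ⟨_, rfl⟩
  have lin : ∀ (α β γ δ : ℝ) (w : m), Q ((α • u + β • v + γ • uk + δ • vk : m) : 𝔸) w =
      α * nf Q u w + β * nf Q v w + γ * kf Q pk u w + δ * kf Q pk v w := by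
    intro α β γ δ w
    have : ((α • u + β • v + γ • uk + δ • vk : m) : 𝔸) =
      α • (u : 𝔸) + β • (v : 𝔸) + γ • (uk : 𝔸) + δ • (vk : 𝔸) := rfl
    rw [this, huk, hvk]
    simp only [map_add, map_smul, LinearMap.add_apply, LinearMap.smul_apply, smul_eq_mul]
    rfl
  have sx : ∀ w : m, Q (x : 𝔸) w = D1 (baseF Q pk a b) u w := by
    intro w
    rw [hx, lin, baseF_D1 hN hS n1, sF1, ← hE]; ring
  have ss : ∀ w : m, Q (s : 𝔸) w = D2 (baseF Q pk a b) u v w := by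
    intro w
    rw [hs, lin, baseF_D2 hN hS n1, sF2, sF1, sF1, ← hE, n3, ← hκ]; ring
  have sy : ∀ w : m, Q (y : 𝔸) w = D3 (baseF Q pk a b) u v v w := by
    intro w
    rw [hy, lin, baseF_D3 hN hS n1]
    simp only [sF3, sF2, sF1]
    rw [← hE, n3, ← hκ, n2, ← hEb]; ring
  rw [← T3F_eq hN sx ss sy]
  obtain ⟨bx1, bx2, bx3⟩ := base_br hN hS huk hvk hup hvp hbr hY hZ hW hT (-2 * b * E ^ 2) 0
    (2 * a + 4 * b * E) 0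
  obtain ⟨bs1, bs2, bs3⟩ := base_br hN hS huk hvk hup hvp hbr hY hZ hW hT (-(8 * b * E * κ))
    (-2 * b * E ^ 2) (8 * b * κ) (2 * a + 4 * b * E)
  obtain ⟨by1, by2, by3⟩ := base_br hN hS huk hvk hup hvp hbr hY hZ hW hT
    (b * (8 * E ^ 2 - 8 * E * Eb - 16 * κ ^ 2)) (-(16 * b * E * κ)) (b * (8 * Eb - 8 * E))
    (16 * b * κ)
  rw [← hx] at bx1 bx2 bx3
  rw [← hs] at bs1 bs2 bs3
  rw [← hy] at by1 by2 by3
  obtain ⟨A, hA⟩ : ∃ x, x = -2 * b * E ^ 2 := ⟨_, rfl⟩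
  obtain ⟨B, hB⟩ : ∃ x, x = 2 * a + 4 * b * E := ⟨_, rfl⟩
  rw [← hE, ← huk, ← hvk, ← hW, ← hA, ← hB]
  simp only [← hA, ← hB] at bx1 bx2 bx3 bs1 bs2 bs3
  have lx : ∀ z : 𝔸, ⁅(x : 𝔸), z⁆ = A • ⁅(u : 𝔸), z⁆ + B • ⁅(uk : 𝔸), z⁆ := by
    intro z
    have : (x : 𝔸) = A • (u : 𝔸) + (0 : ℝ) • (v : 𝔸) + B • (uk : 𝔸) + (0 : ℝ) • (vk : 𝔸) := by
      rw [hx, hA, hB]; rfl
    rw [this]
    simp only [Ring.lie_def, mul_add, add_mul, mul_smul_comm, smul_mul_assoc, smul_sub, zero_smul,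
      add_zero]
    abel
  -- vectors
  obtain ⟨Yv, hYv⟩ : ∃ z, z = P Y := ⟨_, rfl⟩
  obtain ⟨Zv, hZv⟩ : ∃ z, z = P Z := ⟨_, rfl⟩
  obtain ⟨Wv, hWv⟩ : ∃ z, z = P W := ⟨_, rfl⟩
  obtain ⟨Tv, hTv⟩ : ∃ z, z = P T := ⟨_, rfl⟩
  have e1 : P ⁅(u : 𝔸), (x : 𝔸)⁆ = B • Yv := by
    rw [bx1, hYv]; simp
  have e2 : P ⁅(v : 𝔸), (x : 𝔸)⁆ = B • (Zv - Wv) := by
    rw [bx2, hZv, hWv]; simp
  have e3 : P ⁅(u : 𝔸), (s : 𝔸)⁆ = (8 * b * κ) • Yv + B • (Wv + Zv) := by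
    rw [bs1, hYv, hZv, hWv]; simp
  have e4 : P ((2 : ℝ) • ⁅(v : 𝔸), (s : 𝔸)⁆ + ⁅(u : 𝔸), (y : 𝔸)⁆) =
      (b * (8 * Eb - 8 * E)) • Yv + (32 * b * κ) • Zv + (2 * B) • Tv := by
    rw [bs2, by1, hYv, hZv, hTv]
    simp only [map_add, map_smul, map_sub]
    module
  have e5 : ⁅(x : 𝔸), (s : 𝔸)⁆ = (A * (8 * b * κ) + B * (8 * b * E * κ)) • Y
      + (2 * A * B + B ^ 2) • W := by
    rw [lx, bs1, bs3]; module
  have e6 : ⁅(x : 𝔸), (y : 𝔸)⁆ = (A * (b * (8 * Eb - 8 * E))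
      - B * (b * (8 * E ^ 2 - 8 * E * Eb - 16 * κ ^ 2))) • Y
      + (A * (16 * b * κ) + B * (16 * b * κ) - 16 * b * E * κ * B) • W
      + (A * (16 * b * κ) + 16 * b * E * κ * B) • Z := by
    rw [lx, by1, by3]; module
  rw [← hYv] at cY kY
  rw [← hZv] at cZ kZ
  rw [← hTv] at cT kT
  rw [← hWv] at kW
  have hWQ : ∀ z : m, Q (z : 𝔸) W = Q (z : 𝔸) Wv := fun z => by rw [hWv]; exact (Q_P hN z gW).symm
  have oYW : Q (Yv : 𝔸) Wv = 0 := by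
    rw [hN.Qsymm, ← kW, hS.symm, kY]; simp
  have oZW : Q (Zv : 𝔸) Wv = 0 := by
    rw [hN.Qsymm, ← kW, hS.symm, kZ]; simp
  have fuY : nf Q u Yv = 0 := by rw [nf, cY]; exact uY
  have fuZ : nf Q u Zv = 0 := by rw [nf, cZ]; exact uZ
  have fuW : nf Q u Wv = 0 := by rw [nf, ← hWQ]; exact uW
  have fvY : nf Q v Yv = 0 := by rw [nf, cY]; exact vY
  have fvZ : nf Q v Zv = 0 := by rw [nf, cZ]; exact vZ
  have fvW : nf Q v Wv = 0 := by rw [nf, ← hWQ]; exact vW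
  have kl : ∀ z w : m, pk z = 0 → kf Q pk w z = 0 := by
    intro z w hz
    rw [kf, hS.symm, hz]; simp
  have kr : ∀ z w : m, pk z = 0 → kf Q pk z w = 0 := by
    intro z w hz
    rw [kf, hz]; simp
  have kuW : kf Q pk u Wv = 0 := by rw [kf, ← huk, ← hWQ]; exact ukW
  have nadd : ∀ z w w' : m, nf Q z (w + w') = nf Q z w + nf Q z w' := fun z w w' => by
    unfold nf; rw [Submodule.coe_add, map_add]
  have nsub : ∀ z w w' : m, nf Q z (w - w') = nf Q z w - nf Q z w' := fun z w w' => by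
    unfold nf; rw [Submodule.coe_sub, map_sub]
  have nsm : ∀ (c : ℝ) (z w : m), nf Q z (c • w) = c * nf Q z w := fun c z w => by
    unfold nf; rw [Submodule.coe_smul, map_smul, smul_eq_mul]
  have nadd' : ∀ z w w' : m, nf Q (w + w') z = nf Q w z + nf Q w' z := fun z w w' => by
    rw [nf_comm hN, nadd, nf_comm hN z, nf_comm hN z]
  have nsub' : ∀ z w w' : m, nf Q (w - w') z = nf Q w z - nf Q w' z := fun z w w' => by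
    rw [nf_comm hN, nsub, nf_comm hN z, nf_comm hN z]
  have nsm' : ∀ (c : ℝ) (z w : m), nf Q (c • w) z = c * nf Q w z := fun c z w => by
    rw [nf_comm hN, nsm, nf_comm hN z]
  have kadd : ∀ z w w' : m, kf Q pk z (w + w') = kf Q pk z w + kf Q pk z w' := fun z w w' => by
    unfold kf; rw [Submodule.coe_add, map_add]
  have ksub : ∀ z w w' : m, kf Q pk z (w - w') = kf Q pk z w - kf Q pk z w' := fun z w w' => by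
    unfold kf; rw [Submodule.coe_sub, map_sub]
  have ksm : ∀ (c : ℝ) (z w : m), kf Q pk z (c • w) = c * kf Q pk z w := fun c z w => by
    unfold kf; rw [Submodule.coe_smul, map_smul, smul_eq_mul]
  have kadd' : ∀ z w w' : m, kf Q pk (w + w') z = kf Q pk w z + kf Q pk w' z := fun z w w' => by
    rw [kf_comm hN hS, kadd, kf_comm hN hS z, kf_comm hN hS z]
  have ksub' : ∀ z w w' : m, kf Q pk (w - w') z = kf Q pk w z - kf Q pk w' z := fun z w w' => by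
    rw [kf_comm hN hS, ksub, kf_comm hN hS z, kf_comm hN hS z]
  have ksm' : ∀ (c : ℝ) (z w : m), kf Q pk (c • w) z = c * kf Q pk w z := fun c z w => by
    rw [kf_comm hN hS, ksm, kf_comm hN hS z]
  have vu : nf Q Yv u = 0 := by rw [nf_comm hN]; exact fuY
  have nYZ : nf Q Zv Yv = nf Q Yv Zv := nf_comm hN _ _
  have nYW : nf Q Yv Wv = 0 := oYW
  have nWY : nf Q Wv Yv = 0 := by rw [nf_comm hN]; exact oYW
  have nZW : nf Q Zv Wv = 0 := oZW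
  have nWZ : nf Q Wv Zv = 0 := by rw [nf_comm hN]; exact oZW
  have kWW : kf Q pk Wv Wv = nf Q Wv Wv := by rw [kf, kW]; rfl
  have jac' : nf Q Zv Zv - Q W W - nf Q Yv Tv = 0 := by
    unfold nf; rw [cY, cZ, cT]; exact jac
  have t1 : nf Q u Tv * 0 = 0 := by ring
  unfold T3N
  rw [e1, e2, e3, e4, e5, e6]
  have last1 : Q ((B • (Zv - Wv) - ((8 * b * κ) • Yv + B • (Wv + Zv)) : m) : 𝔸)
      ((A * (8 * b * κ) + B * (8 * b * E * κ)) • Y + (2 * A * B + B ^ 2) • W) =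
      (A * (8 * b * κ) + B * (8 * b * E * κ)) * nf Q (B • (Zv - Wv) - ((8 * b * κ) • Yv
        + B • (Wv + Zv))) Yv + (2 * A * B + B ^ 2) * nf Q (B • (Zv - Wv) - ((8 * b * κ) • Yv
        + B • (Wv + Zv))) Wv := by
    rw [map_add, map_smul, map_smul, hWQ, ← cY]; rfl
  have last2 : Q ((A * (b * (8 * Eb - 8 * E)) - B * (b * (8 * E ^ 2 - 8 * E * Eb
      - 16 * κ ^ 2))) • Y + (A * (16 * b * κ) + B * (16 * b * κ) - 16 * b * E * κ * B) • W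
      + (A * (16 * b * κ) + 16 * b * E * κ * B) • Z) ((B • Yv : m) : 𝔸) =
      B * ((A * (b * (8 * Eb - 8 * E)) - B * (b * (8 * E ^ 2 - 8 * E * Eb
      - 16 * κ ^ 2))) * nf Q Yv Yv + (A * (16 * b * κ) + 16 * b * E * κ * B) * nf Q Yv Zv) := by
    rw [hN.Qsymm, Submodule.coe_smul, map_smul, LinearMap.smul_apply, smul_eq_mul]
    rw [map_add, map_add, map_smul, map_smul, map_smul, hWQ, oYW, ← cY, ← cZ]
    simp only [smul_eq_mul, nf]; ring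
  rw [last1, last2]
  rw [baseF_D4 hN hS n1, baseF_D3 hN hS n1]
  simp only [baseF_D2 hN hS n1]
  simp only [sF4, sF3, sF2, sF1]
  simp only [nadd, nsub, nsm, nadd', nsub', nsm', kadd, ksub, ksm, kadd', ksub', ksm', fuY, fuZ,
    fuW, fvY, fvZ, fvW, kl Yv _ kY, kr Yv _ kY, kl Zv _ kZ, kr Zv _ kZ, kl Tv _ kT,
    kuW, n2, n3, nYZ, nYW, nWY, nZW, nWZ, kWW, ← hE, ← hκ, ← hEb]
  have fin : Q (Wv : 𝔸) Wv = nf Q Wv Wv := rfl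
  rw [← hWv, fin]
  subst hA hB
  linear_combination (2 * b * E ^ 2) * (2 * a + 4 * b * E) ^ 2 * jac'

end Pool.Agent.FL
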