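import Pool.Agent.FL.S1Hub2
import Pool.Agent.helper75.FL.SB

/-!
# MP_f09395_gt, space (1): the final assembly (core, the steps are hypotheses)
-/

set_option linter.unusedSectionVars false

noncomputable section

namespace Pool.Agent.FL.S1

open scoped ContDiff Quaternion Matrix ComplexConjugate
open Pool.Agent.Helper93.Fin Pool.Agent.helper79.FP Pool.Agent.helper79.FR
open Pool.Agent.helper79.FR.Sp2 (Mat QQ h0 m gg hh PP BB cc)
open Filter Topology

attribute [local instance] Matrix.linftyOpNormedRing Matrix.linftyOpNormedAlgebra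

/-- from a function with two levels and a second function to the third order form -/
theorem fin_core {v : V → ℝ} {s : ℝ} (h : Lev v s) {z : V → ℝ} (hz : Ph z)
    (h1 : ∀ u b, Fl u b → |cc 1 3 u| ≤ s → alf v u b = 0 →
      0 < QQ (BB 1 3 u) (b : Mat) * alf z u b)
    (h2 : ∀ u b, Fl u b → cc 1 3 u = s → alf v u b = 0 →
      Pool.Agent.helper75.FL.E2 QQ (PP 1 3) v z u < 0 ∨ 0 < alf' v u b)
    (h3 : ∀ u b, Fl u b → cc 1 3 u = -s → alf v u b = 0 →
      0 < Pool.Agent.helper75.FL.E2 QQ (PP 1 3) v z u ∨ 0 < alf' v u b) :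
    ∃ ψ : V → ℝ, PhiN (hh 1 3) (m 1 3) (PP 1 3) ψ ∧
      InvH (Pool.Agent.helper79.FR.Sp2.H 1 3) ψ ∧ T3Pos (hh 1 3) QQ (PP 1 3) ψ := by
  have hs0 := h.s0
  have hs1 := h.s1
  refine Pool.Agent.helper75.FL.SB_T3Pos nD cD gD h.ph.phi h.ph.inv hz.phi hz.inv (cB := -s)
    (cA := s) (by linarith) hs1 (by linarith) ?_ ?_ ?_ ?_ ?_
  · intro u b hF hB hA ha
    exact h1 u b hF (abs_le.2 ⟨hB, hA⟩) ha
  · intro u b hF hA ha
    exact h.pos u b hF (hA.trans (le_abs_self _)) ha
  · intro u b hF hB ha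
    exact h.pos u b hF (by have := neg_abs_le (cc 1 3 u); linarith) ha
  · intro u b hF hA ha
    exact h2 u b hF hA ha
  · intro u b hF hB ha
    exact h3 u b hF hB ha

end Pool.Agent.FL.S1
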