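import Pool.Agent.FL.ETow
import Pool.Agent.FL.S1Hub

/-!
# MP_f09395_gt, space (1): generic finite type of the tower at generic points with `e ∉ ℝ [h₀,u]`
(core, the facts on the invariants are hypotheses)
-/

set_option linter.unusedSectionVars false

noncomputable section

namespace Pool.Agent.FL.S1

open scoped ContDiff Quaternion Matrix ComplexConjugate
open Pool.Agent.Helper93.Fin Pool.Agent.helper79.FP Pool.Agent.helper79.FR
open Pool.Agent.helper79.FR.Sp2 (Mat QQ h0 m gg hh PP BB cc)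
open Pool.Agent.FL
open Pool.Agent.FL.Wall (ef EE LamE LamW)
open Pool.Agent.helper90.FL (Negl)
open Filter Topology Module

attribute [local instance] Matrix.linftyOpNormedRing Matrix.linftyOpNormedAlgebra

/-- the towers of the hub are `lamT` -/
theorem Aj_eq_lamT (v : V → ℝ) (j : ℕ) : Aj v j = lamT QQ (PP 1 3) (h0 1 3) v j := by
  induction j with
  | zero => rfl
  | succ j ih => show LamE QQ (PP 1 3) v (Aj v j) = LamE QQ (PP 1 3) v _; rw [ih]

/-- the perturbed function is `linG` -/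
theorem pt_eq_linG (v χ : V → ℝ) (p : FI → ℝ) :
    pt v χ p = fun u => linG v (fun k u => χ u * fam k u) (u, p) := rfl

theorem finrank_V_Mat : finrank ℝ (V × Mat) < NT := by
  have h1 : finrank ℝ V ≤ finrank ℝ Mat := Submodule.finrank_le _
  have h2 : finrank ℝ Mat = 16 := by
    show finrank ℝ (Matrix (Fin 2) (Fin 2) ℍ[ℝ]) = 16
    rw [Module.finrank_matrix, Quaternion.finrank_eq_four]
    simp
  rw [Module.finrank_prod, h2]
  unfold NT
  omega

theorem nr_smoothOn : ContDiffOn ℝ ∞ nr {0}ᶜ := by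
  have h1 : nr = fun u : V => BN (m 1 3) QQ u u := by
    funext u
    rw [BN_apply]
    rfl
  rw [h1]
  exact BNsq_smooth

theorem nr_pos' {u : V} (hu : u ≠ 0) : 0 < nr u := Qm_pos nD hu

/-- flags: `[h₀, b]` is orthogonal to `u` -/
theorem Fl.rt_perp {u b : V} (h : Fl u b) : QQ (u : Mat) (rt b : Mat) = 0 := by
  have hg : ⁅h0 1 3, (b : Mat)⁆ ∈ gg := lg nD (nD.red.h_le cD.mem) (mg nD b)
  have hc : ⁅(b : Mat), (u : Mat)⁆ = 0 := by
    have h1 : ⁅(u : Mat), (b : Mat)⁆ = 0 := h.2.2.2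
    have h2 : ⁅(b : Mat), (u : Mat)⁆ = -⁅(u : Mat), (b : Mat)⁆ := skew _ _
    rw [h2, h1, neg_zero]
  have h1 : QQ (u : Mat) (rt b : Mat) = QQ (u : Mat) ⁅h0 1 3, (b : Mat)⁆ := Q_P nD u hg
  have h2 : QQ (u : Mat) ⁅h0 1 3, (b : Mat)⁆ = QQ ⁅h0 1 3, (b : Mat)⁆ (u : Mat) := nD.Qsymm _ _
  have h3 : QQ ⁅h0 1 3, (b : Mat)⁆ (u : Mat) = QQ (h0 1 3) ⁅(b : Mat), (u : Mat)⁆ := nD.Qinv _ _ _
  rw [h1, h2, h3, hc, map_zero]

theorem eu_perp (v : V → ℝ) (u : V) : QQ (u : Mat) (eu v u : Mat) = 0 := by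
  have h1 : QQ (u : Mat) (eu v u : Mat) = QQ (u : Mat) ⁅(u : Mat), (gx QQ v u : Mat)⁆ :=
    Q_P nD u (lm nD u _)
  rw [h1]
  exact Q_self_lie' nD _ _

/-- G1 with the facts on the invariants as hypotheses -/
theorem G1_core {v χ : V → ℝ} (hv : Ph v) (hχ : I0 χ) (hfam : ∀ k, Ph (fam k))
    (hsF : ∀ a, I0 (sF a))
    (h2 : ∀ {u x y : V}, u ≠ 0 → (∃ a, D1 (s0 a) u x ≠ 0) → (∃ a, D1 (s0 a) u y ≠ 0) →
      ∃ s : SI, D1 (sF s) u x ≠ 0 ∧ D1 (sF s) u y ≠ 0)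
    (hI : ∀ {u x : V}, Gen u → QQ (u : Mat) (x : Mat) = 0 → (∀ a : E0, D1 (s0 a) u x = 0) →
      ∃ r : ℝ, x = r • rt u)
    (hS : ∀ {u b : V}, Fl u b → ∀ r : ℝ, rt b ≠ r • rt u) :
    Negl {p : FI → ℝ | ∃ u b, Fl u b ∧ (χ =ᶠ[𝓝 u] fun _ => 1) ∧ Gen u ∧
      (∀ r : ℝ, eu (pt v χ p) u ≠ r • rt u) ∧ ∀ j < NT, Aj (pt v χ p) j u (b : Mat) = 0} := by
  classical
  set U : Set V := interior {u | χ u = 1} ∩ {0}ᶜ with hUdef
  have hU : IsOpen U := isOpen_interior.inter isOpen_compl_singleton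
  have hU0 : ∀ u ∈ U, u ≠ 0 := fun u hu => hu.2
  have hU1 : ∀ u ∈ U, χ u = 1 := fun u hu =>
    (interior_subset hu.1 : u ∈ {u | χ u = 1})
  have key := gftE_pow (κ := FI) (J := NT) (h0 := h0 1 3) (v := v)
    (f := fun k u => χ u * fam k u) (s := sF) (G := nr) nD hU hU0 hv.phi.smooth
    (fun k => hχ.smooth.mul (hfam k).phi.smooth) (fun a => (hsF a).smooth)
    nr_smoothOn (fun u hu => (nr_pos' (hU0 u hu)).ne') finrank_V_Mat
    (fun a l hl => ⟨Sum.inl (a, ⟨l, by omega⟩), fun u hu => by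
      show χ u * fam _ u = _
      rw [hU1 u hu, one_mul]
      rfl⟩)
  refine key.mono ?_
  rintro p ⟨u, b, hFl, h1, hG, he, h0'⟩
  have hu0 : u ≠ 0 := hFl.ne nD
  refine ⟨u, (b : Mat), ⟨mem_interior_iff_mem_nhds.2 h1, hu0⟩, ?_, fun j hj => ?_⟩
  · exact h2 hu0
      (by
        by_contra hc
        push Not at hc
        obtain ⟨r, hr⟩ := hI hG hFl.rt_perp hc
        exact hS hFl r hr)
      (by
        by_contra hc
        push Not at hc
        obtain ⟨r, hr⟩ := hI hG (eu_perp _ u) hc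
        exact he r hr)
  · have := h0' j hj
    rw [Aj_eq_lamT, pt_eq_linG] at this
    exact this

end Pool.Agent.FL.S1
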