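import Pool.Agent.FL.S1G1core
import Pool.Agent.FL.S1I2
import Pool.Agent.FL.S1S2
import Pool.Agent.FL.S1Spec

/-!
# MP_f09395_gt, space (1), GW: on regular flags the field `W` moves one of the invariants
-/

set_option linter.unusedSectionVars false

noncomputable section

namespace Pool.Agent.FL.S1

open scoped ContDiff Quaternion Matrix ComplexConjugate
open Pool.Agent.Helper93.Fin Pool.Agent.helper79.FP Pool.Agent.helper79.FR
open Pool.Agent.helper79.FR.Sp2 (Mat QQ h0 m gg hh PP BB cc)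
open Pool.Agent.FL

attribute [local instance] Matrix.linftyOpNormedRing Matrix.linftyOpNormedAlgebra

/-- regular flags: some invariant has a non-zero derivative in the direction `[h₀, b]` -/
theorem GW_rt {u b : V} (h : Fl u b) (hw : QQ (BB 1 3 u) (b : Mat) ≠ 0) :
    ∃ a : E0, D1 (s0 a) u (rt b) ≠ 0 := by
  by_contra hc
  push Not at hc
  rcases SPEC h with hG | hO | hS
  · obtain ⟨r, hr⟩ := INV hG h.rt_perp hc
    exact S2n h r hr
  · have hb : Od b := S3 h hw hO.1
    have hr' : Od (rt b) := rt_odd hb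
    obtain ⟨r, hr⟩ := INV_odd hO hr' h.rt_perp fun j => hc (Sum.inl j)
    exact S2n h r hr
  · exact hw hS.1

/-- regular flags: some invariant has a non-zero derivative in the direction `W u` -/
theorem GW_dir {u b : V} (h : Fl u b) (hw : QQ (BB 1 3 u) (b : Mat) ≠ 0) :
    ∃ a : E0, D1 (s0 a) u (Wt (PP 1 3) (h0 1 3) (BB 1 3) u) ≠ 0 := by
  obtain ⟨a, ha⟩ := GW_rt h hw
  refine ⟨a, ?_⟩
  have h1 : D1 (s0 a) u (Wt (PP 1 3) (h0 1 3) (BB 1 3) u) =
      QQ (BB 1 3 u) (b : Mat) * D1 (s0 a) u (rt b) := flag_D1W nD cD h (s0 a)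
  rw [h1]
  exact mul_ne_zero hw ha

end Pool.Agent.FL.S1
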