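import Pool.Agent.FL.S1Core
import Pool.Agent.helper75.FL.EvE2

/-!
# MP_f09395_gt, space (1): equivariance under the isotropy group and the gauge lemma

The first part is general: gradient, projection, Euler field and flags are equivariant.  The second
part gives the action of `diag(z, z³)` in coordinates and rotates a nonzero coordinate to the real
axis.
-/

set_option linter.unusedSectionVars false

noncomputable section

namespace Pool.Agent.helper60.Gau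

open scoped ContDiff Quaternion Matrix ComplexConjugate
open Pool.Agent.Helper93.Fin Pool.Agent.helper79.FP Pool.Agent.helper79.FR
open Pool.Agent.helper75.FL (ee)
open Filter Topology Module

section Equi

variable {𝔸 : Type*} [NormedRing 𝔸] [NormedAlgebra ℝ 𝔸] [FiniteDimensional ℝ 𝔸]
variable {g h m : Submodule ℝ 𝔸} {Q : 𝔸 →ₗ[ℝ] 𝔸 →ₗ[ℝ] ℝ} {P : 𝔸 →L[ℝ] m} {v : m → ℝ}
variable {h0 : 𝔸} {B : m → 𝔸} {c : m → ℝ} {H : Subgroup 𝔸ˣ}

/-- polarisation of the invariance of `Q` -/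
theorem eq_Q (hN : NData g h m Q P) (hG : GrpD H h m Q h0 B c) {k : 𝔸ˣ} (hk : k ∈ H) (x y : m) :
    Q (adM P k x : 𝔸) (adM P k y) = Q (x : 𝔸) y := by
  have h1 : ∀ z : m, Q (adM P k z : 𝔸) (adM P k z) = Q (z : 𝔸) z := fun z => by
    rw [adM_coe hN hG hk]; exact hG.Qm k hk z z.2
  have h2 := h1 (x + y)
  rw [map_add, Submodule.coe_add, Submodule.coe_add, map_add, map_add, map_add, map_add,
    LinearMap.add_apply, LinearMap.add_apply, LinearMap.add_apply, LinearMap.add_apply, h1, h1,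
    hN.Qsymm (adM P k y : 𝔸) (adM P k x), hN.Qsymm (y : 𝔸) x] at h2
  linarith

theorem eq_inv_mem {k : 𝔸ˣ} (hk : k ∈ H) : k⁻¹ ∈ H := H.inv_mem hk

theorem eq_Adj_inv (k : 𝔸ˣ) (X : 𝔸) : Adj k (Adj k⁻¹ X) = X := by
  unfold Adj
  rw [inv_inv]
  calc (k : 𝔸) * (((k⁻¹ : 𝔸ˣ) : 𝔸) * X * (k : 𝔸)) * ((k⁻¹ : 𝔸ˣ) : 𝔸)
      = ((k : 𝔸) * ((k⁻¹ : 𝔸ˣ) : 𝔸)) * X * ((k : 𝔸) * ((k⁻¹ : 𝔸ˣ) : 𝔸)) := by noncomm_ring
    _ = X := by rw [Units.mul_inv, one_mul, mul_one]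

theorem eq_adM_inv (hN : NData g h m Q P) (hG : GrpD H h m Q h0 B c) {k : 𝔸ˣ} (hk : k ∈ H)
    (x : m) : adM P k (adM P k⁻¹ x) = x := by
  refine Subtype.ext ?_
  rw [adM_coe hN hG hk, adM_coe hN hG (H.inv_mem hk), eq_Adj_inv]

/-- equivariance of the gradient -/
theorem eq_gx (hN : NData g h m Q P) (hG : GrpD H h m Q h0 B c) (hv : ContDiffOn ℝ ∞ v {0}ᶜ)
    (hH : InvH H v) {k : 𝔸ˣ} (hk : k ∈ H) {u : m} (hu : u ≠ 0) :
    gx Q v (adM P k u) = adM P k (gx Q v u) := by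
  refine rep_unique hN fun w => ?_
  rw [gx_spec hN]
  conv_lhs => rw [← eq_adM_inv hN hG hk w]
  conv_rhs => rw [← eq_adM_inv hN hG hk w]
  rw [D1_adM hN hG hv hH hk hu, eq_Q hN hG hk, gx_spec hN]

/-- equivariance of the projection -/
theorem eq_P (hN : NData g h m Q P) (hC : Cas g h m Q P h0 B c) (hG : GrpD H h m Q h0 B c)
    {k : 𝔸ˣ} (hk : k ∈ H) {X : 𝔸} (hX : X ∈ g) : P (Adj k X) = adM P k (P X) := by
  obtain ⟨r, hr⟩ := hC.span _ (hN.red.res _ hX)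
  have h1 : X = (P X : 𝔸) + r • h0 := by rw [← hr]; abel
  have h2 : Adj k X = Adj k (P X : 𝔸) + r • h0 := by
    conv_lhs => rw [h1]
    have h3 : Adj k ((P X : 𝔸) + r • h0) = Adj k (P X : 𝔸) + r • Adj k h0 := by
      unfold Adj
      simp only [mul_add, add_mul, mul_smul_comm, smul_mul_assoc]
    rw [h3, hG.adh0 k hk]
  have h4 : P h0 = 0 := by
    have h5 : ((P h0 : m) : 𝔸) = 0 := by
      have h6 := hN.red.res _ (hN.red.h_le hC.mem)
      obtain ⟨s, hs⟩ := hC.span _ h6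
      have h7 : Q (P h0 : 𝔸) (P h0 : 𝔸) = 0 := by
        have h8 : Q h0 (P h0 : 𝔸) = 0 := hN.Qhm h0 hC.mem _ (P h0).2
        have h9 : (P h0 : 𝔸) = h0 - s • h0 := by rw [← hs]; abel
        conv_lhs => arg 1; rw [h9]
        rw [map_sub, map_smul, LinearMap.sub_apply, LinearMap.smul_apply, h8]
        simp
      exact Q_zero hN (mg hN (P h0)) h7.le
    exact Subtype.ext h5
  rw [h2, map_add, map_smul, h4, smul_zero, add_zero, adM_apply]

/-- equivariance of the Euler field -/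
theorem eq_ee (hN : NData g h m Q P) (hC : Cas g h m Q P h0 B c) (hG : GrpD H h m Q h0 B c)
    (hv : ContDiffOn ℝ ∞ v {0}ᶜ) (hH : InvH H v) {k : 𝔸ˣ} (hk : k ∈ H) {u : m} (hu : u ≠ 0) :
    ee Q P v (adM P k u) = adM P k (ee Q P v u) := by
  have e : ∀ z, ee Q P v z = P ⁅(z : 𝔸), (gx Q v z : 𝔸)⁆ := fun _ => rfl
  rw [e, e, ← eq_P hN hC hG hk (lm hN _ _), Adj_lie, eq_gx hN hG hv hH hk hu,
    adM_coe hN hG hk, adM_coe hN hG hk]

/-- flags are mapped to flags -/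
theorem eq_flag (hN : NData g h m Q P) (hG : GrpD H h m Q h0 B c) {k : 𝔸ˣ} (hk : k ∈ H)
    {u b : m} (hF : Flag Q u b) : Flag Q (adM P k u) (adM P k b) := by
  refine ⟨by rw [eq_Q hN hG hk, hF.1], by rw [eq_Q hN hG hk, hF.2.1],
    by rw [eq_Q hN hG hk, hF.2.2.1], ?_⟩
  rw [adM_coe hN hG hk, adM_coe hN hG hk, ← Adj_lie, hF.2.2.2]
  unfold Adj
  simp

end Equi

section S1

open Pool.Agent.FL.S1
open Pool.Agent.helper79.FR.Sp2 (Mat QQ h0 m gg hh PP BB cc H dg)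

attribute [local instance] Matrix.linftyOpNormedRing Matrix.linftyOpNormedAlgebra

theorem rk_nD : NData gg (hh 1 3) (m 1 3) QQ (PP 1 3) :=
  Pool.Agent.helper79.FR.Sp2.nData le_rfl (by norm_num)

theorem rk_cD : Cas gg (hh 1 3) (m 1 3) QQ (PP 1 3) (h0 1 3) (BB 1 3) (cc 1 3) :=
  Pool.Agent.helper79.FR.Sp2.cas le_rfl (by norm_num)

theorem rk_gD : GrpD (H 1 3) (hh 1 3) (m 1 3) QQ (h0 1 3) (BB 1 3) (cc 1 3) :=
  Pool.Agent.helper79.FR.Sp2.grpD le_rfl (by norm_num)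

/-- the action of `diag(z, z³)` in coordinates -/
theorem rk_coord {k : Matˣ} {z : ℂ} (hz : ‖z‖ = 1) (hk : (k : Mat) = dg 1 3 z) (u : V) :
    cP (adM (PP 1 3) k u) = z ^ 2 * cP u ∧ cR (adM (PP 1 3) k u) = z ^ 6 * cR u ∧
    cC (adM (PP 1 3) k u) = z * conj (z ^ 3) * cC u ∧ cQ (adM (PP 1 3) k u) = z ^ 4 * cQ u ∧
    c0 (adM (PP 1 3) k u) = c0 u := by
  have hH : k ∈ H 1 3 := ⟨z, hz, hk⟩
  have e1 : (adM (PP 1 3) k u : Mat) = dg 1 3 z * (u : Mat) * star (dg 1 3 z) := by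
    rw [adM_coe rk_nD rk_gD hH]
    unfold Adj
    rw [Pool.Agent.helper79.FR.Sp2.inv_of_mem_H hH, hk]
  obtain ⟨y, hy⟩ : ∃ y : ℂ, y = z ^ 3 := ⟨_, rfl⟩
  have e2 : dg 1 3 z = !![(z : ℍ[ℝ]), 0; 0, (y : ℍ[ℝ])] := by
    rw [dg, hy]
    ext i j : 1
    fin_cases i <;> fin_cases j <;> simp
  have e3 : z ^ 6 = y ^ 2 := by rw [hy]; ring
  have e4 : z ^ 4 = z * y := by rw [hy]; ring
  have hzz : z.re ^ 2 + z.im ^ 2 = 1 := by
    have h1 := Complex.normSq_eq_norm_sq z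
    rw [hz, Complex.normSq_apply] at h1
    nlinarith
  have hyy : y.re ^ 2 + y.im ^ 2 = 1 := by
    have h1 := Complex.normSq_eq_norm_sq y
    rw [hy, norm_pow, hz, ← hy, Complex.normSq_apply] at h1
    nlinarith
  rw [← hy, e3, e4]
  refine ⟨?_, ?_, ?_, ?_, ?_⟩
  · rw [cP_apply, e1, e2, coords u]
    simp only [mkV_coe, cP_mk]
    apply Complex.ext <;>
    simp [mkMat, Matrix.mul_apply, Fin.sum_univ_two, Matrix.star_apply, pow_two] <;> ring
  · rw [cR_apply, e1, e2, coords u]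
    simp only [mkV_coe, cR_mk]
    apply Complex.ext <;>
    simp [mkMat, Matrix.mul_apply, Fin.sum_univ_two, Matrix.star_apply, pow_two] <;> ring
  · rw [cC_apply, e1, e2, coords u]
    simp only [mkV_coe, cC_mk]
    apply Complex.ext <;>
    simp [mkMat, Matrix.mul_apply, Fin.sum_univ_two, Matrix.star_apply] <;> ring
  · rw [cQ_apply, e1, e2, coords u]
    simp only [mkV_coe, cQ_mk]
    apply Complex.ext <;>
    simp [mkMat, Matrix.mul_apply, Fin.sum_univ_two, Matrix.star_apply] <;> ring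
  · rw [c0_apply, e1, e2, coords u]
    simp only [mkV_coe, c0_mk]
    simp [mkMat, Matrix.mul_apply, Fin.sum_univ_two, Matrix.star_apply]
    linear_combination (c0 u) * hyy

/-- the element `diag(z, z³)` of the isotropy group -/
theorem rk_ex {z : ℂ} (hz : ‖z‖ = 1) : ∃ k ∈ H 1 3, (k : Mat) = dg 1 3 z := by
  have hz0 : z ≠ 0 := by intro h; simp [h] at hz
  have key : ∀ w : ℂ, w ≠ 0 → dg 1 3 w * dg 1 3 w⁻¹ = 1 := by
    intro w hw
    have hzz : ∀ n : ℕ, ((w ^ n : ℂ) : ℍ[ℝ]) * ((w⁻¹ ^ n : ℂ) : ℍ[ℝ]) = 1 := by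
      intro n
      rw [← Quaternion.coeComplex_mul, ← mul_pow, mul_inv_cancel₀ hw, one_pow,
        Quaternion.coeComplex_one]
    rw [dg, dg, Matrix.diagonal_mul_diagonal, ← Matrix.diagonal_one]
    congr 1
    funext i
    fin_cases i
    · exact hzz 1
    · exact hzz 3
  have h1 := key z hz0
  have h2 := key z⁻¹ (inv_ne_zero hz0)
  rw [inv_inv] at h2
  exact ⟨⟨dg 1 3 z, dg 1 3 z⁻¹, h1, h2⟩, ⟨z, hz, rfl⟩, rfl⟩

/-- a unit number whose `n`-th power rotates `w` to the positive axis -/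
theorem rk_root {n : ℕ} (hn : n ≠ 0) (w : ℂ) : ∃ z : ℂ, ‖z‖ = 1 ∧ z ^ n * w = (‖w‖ : ℝ) := by
  have hn' : (n : ℂ) ≠ 0 := by exact_mod_cast hn
  refine ⟨Complex.exp (((-(Complex.arg w) / n : ℝ) : ℂ) * Complex.I), ?_, ?_⟩
  · exact Complex.norm_exp_ofReal_mul_I _
  · rw [← Complex.exp_nat_mul]
    have e : (n : ℂ) * (((-(Complex.arg w) / n : ℝ) : ℂ) * Complex.I) =
        -((Complex.arg w : ℂ) * Complex.I) := by
      push_cast
      field_simp
    rw [e, Complex.exp_neg]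
    have h1 : Complex.exp ((Complex.arg w : ℂ) * Complex.I) ≠ 0 := Complex.exp_ne_zero _
    have h2 := Complex.norm_mul_exp_arg_mul_I w
    field_simp
    rw [mul_comm, h2]

/-- the gauge functionals: imaginary parts of `cP, cR, cC, cQ` -/
def gz : Fin 4 → V →L[ℝ] ℝ
  | 0 => Complex.imCLM.comp cP
  | 1 => Complex.imCLM.comp cR
  | 2 => Complex.imCLM.comp cC
  | 3 => Complex.imCLM.comp cQ

theorem gz_rt (x : V) : gz 0 (rt x) = 2 * (cP x).re ∧ gz 1 (rt x) = 6 * (cR x).re ∧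
    gz 2 (rt x) = -2 * (cC x).re ∧ gz 3 (rt x) = 4 * (cQ x).re := by
  rw [rt_eq]
  refine ⟨?_, ?_, ?_, ?_⟩ <;> simp [gz]

/-- **gauge lemma**: a vector with a nonzero coordinate of nonzero weight can be rotated such that
the coordinate is real -/
theorem gauge (u : V) (hu : ¬ (cP u = 0 ∧ cR u = 0 ∧ cC u = 0 ∧ cQ u = 0)) :
    ∃ k ∈ H 1 3, ∃ j, gz j (adM (PP 1 3) k u) = 0 ∧ gz j (rt (adM (PP 1 3) k u)) ≠ 0 := by
  have hre : ∀ (w y : ℂ), w ≠ 0 → y = (‖w‖ : ℝ) → y.im = 0 ∧ y.re ≠ 0 := by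
    rintro w y hw rfl
    exact ⟨Complex.ofReal_im _, by rw [Complex.ofReal_re]; exact norm_ne_zero_iff.2 hw⟩
  by_cases hP : cP u = 0
  · by_cases hR : cR u = 0
    · by_cases hC : cC u = 0
      · have hQ : cQ u ≠ 0 := fun hQ => hu ⟨hP, hR, hC, hQ⟩
        obtain ⟨z, hz, h1⟩ := rk_root (n := 4) (by norm_num) (cQ u)
        obtain ⟨k, hk, hk'⟩ := rk_ex hz
        have h2 := (rk_coord hz hk' u).2.2.2.1
        obtain ⟨h3, h4⟩ := hre _ _ hQ (h2.trans h1)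
        refine ⟨k, hk, 3, h3, ?_⟩
        rw [(gz_rt _).2.2.2]
        exact mul_ne_zero (by norm_num) h4
      · obtain ⟨y, hy, h1⟩ := rk_root (n := 2) (by norm_num) (cC u)
        have hz : ‖conj y‖ = 1 := by rw [RCLike.norm_conj, hy]
        obtain ⟨k, hk, hk'⟩ := rk_ex hz
        have h2 := (rk_coord hz hk' u).2.2.1
        have hyy : conj y * y = 1 := by
          rw [← Complex.normSq_eq_conj_mul_self, Complex.normSq_eq_norm_sq, hy]
          simp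
        have h3 : conj y * conj ((conj y) ^ 3) * cC u = y ^ 2 * cC u := by
          rw [map_pow, Complex.conj_conj]
          linear_combination y ^ 2 * cC u * hyy
        rw [h3] at h2
        obtain ⟨h4, h5⟩ := hre _ _ hC (h2.trans h1)
        refine ⟨k, hk, 2, h4, ?_⟩
        rw [(gz_rt _).2.2.1]
        exact mul_ne_zero (by norm_num) h5
    · obtain ⟨z, hz, h1⟩ := rk_root (n := 6) (by norm_num) (cR u)
      obtain ⟨k, hk, hk'⟩ := rk_ex hz
      have h2 := (rk_coord hz hk' u).2.1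
      obtain ⟨h3, h4⟩ := hre _ _ hR (h2.trans h1)
      refine ⟨k, hk, 1, h3, ?_⟩
      rw [(gz_rt _).2.1]
      exact mul_ne_zero (by norm_num) h4
  · obtain ⟨z, hz, h1⟩ := rk_root (n := 2) (by norm_num) (cP u)
    obtain ⟨k, hk, hk'⟩ := rk_ex hz
    have h2 := (rk_coord hz hk' u).1
    obtain ⟨h3, h4⟩ := hre _ _ hP (h2.trans h1)
    refine ⟨k, hk, 0, h3, ?_⟩
    rw [(gz_rt _).1]
    exact mul_ne_zero (by norm_num) h4

end S1

end Pool.Agent.helper60.Gau
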