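import Pool.Agent.FL.S1Hub

/-!
# MP_f09395_gt, space (1): the hub, part 2 (definitions only: `HS`, `mq`, `EXPL`, `W1`, `Lev`)
-/

set_option linter.unusedSectionVars false

noncomputable section

namespace Pool.Agent.FL.S1

open scoped ContDiff Quaternion Matrix ComplexConjugate
open Pool.Agent.Helper93.Fin Pool.Agent.helper79.FP Pool.Agent.helper79.FR
open Pool.Agent.helper79.FR.Sp2 (Mat QQ h0 m gg hh PP BB cc)
open Pool.Agent.FL
open Pool.Agent.FL.Wall (ef EE LamE LamW)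
open Filter Topology

attribute [local instance] Matrix.linftyOpNormedRing Matrix.linftyOpNormedAlgebra

/-- `h₀` has a component in the centraliser of `u` -/
def HS (u : V) : Prop := ∃ y : Mat, y ∈ gg ∧ ⁅(u : Mat), y⁆ = 0 ∧ QQ (h0 1 3) y ≠ 0

/-- `m = Re (z₂ conj Zm)` (up to a constant) -/
def mq (u : V) : ℝ := (cC u * cP u).re

/-- the properties of the explicit function `ve`; `ρ` is a cut-off function: the orbits of the
`X`-points are in `ρ = 0` -/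
structure EXPL (ve ρ : V → ℝ) (κ : ℝ) : Prop where
  ph : Ph ve
  κ0 : κ ≠ 0
  ρ0 : I0 ρ
  ρn : ∀ u, 0 ≤ ρ u
  /-- (P1) -/
  p1 : ∀ u b, Wl u b → Spec u → 0 < T3 ve u b
  /-- (P2) -/
  p2 : ∀ u b, Wl u b → Od u → alf ve u b = 0 → eu ve u = 0 → 0 < T3 ve u b
  /-- (P3) -/
  p3 : ∀ u, Od u → u ≠ 0 → ρ u < 1 → ve u = κ * mq u
  p3' : ∀ u b, Wl u b → ρ u ≤ 1 → alf ve u b = 0 → 0 < T3 ve u b
  /-- (P4) -/
  p4 : ∀ u b, Wl u b → Od u → Od b → alf ve u b = 0 → eu ve u = 0 → ρ u = 0 ∨ 0 < alf' ve u b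
  /-- (P5) -/
  p5 : ∀ u b, Fl u b → QQ (BB 1 3 u) (b : Mat) ≠ 0 → Od u → ρ u < 1 → eu ve u = 0 →
    aWt mq 2 u ≠ 0

/-- the result of section 3 -/
structure W1 (ve ρ v1 : V → ℝ) : Prop where
  ph : Ph v1
  eq : ∀ u, u ≠ 0 → ρ u < 1 / 2 → v1 =ᶠ[𝓝 u] ve
  pos : ∀ u b, Wl u b → alf v1 u b = 0 → 0 < T3 v1 u b
  odd : ∀ u b, Wl u b → Od u → Od b → alf v1 u b = 0 → eu v1 u = 0 →
    ρ u < 1 / 4 ∨ 0 < alf' v1 u b

/-- the two levels -/
structure Lev (v : V → ℝ) (s : ℝ) : Prop where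
  ph : Ph v
  s0 : 0 < s
  s1 : s < 1
  pos : ∀ u b, Fl u b → s ≤ |cc 1 3 u| → alf v u b = 0 → 0 < T3 v u b
  odd : ∀ u b, Fl u b → |cc 1 3 u| = s → Od u → alf v u b = 0 → eu v u = 0 → 0 < alf' v u b

end Pool.Agent.FL.S1
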