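import Pool.Agent.FL.S1Quad
import Pool.Agent.FL.S1X0
import Pool.Agent.FL.S1X2

/-!
# MP_f09395_gt, space (1): the symmetric pair `𝔪 = V_even ⊕ V_odd` and the function
`-(3/2 K - K²/N) - ε Re(C P)`
-/

set_option linter.unusedSectionVars false

noncomputable section

namespace Pool.Agent.FL.S1

open scoped ContDiff Quaternion Matrix ComplexConjugate
open Pool.Agent.Helper93.Fin Pool.Agent.helper79.FP Pool.Agent.helper79.FR
open Pool.Agent.helper79.FR.Sp2 (Mat QQ h0 m gg hh PP BB cc)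
open Pool.Agent.FL
open Filter Topology

attribute [local instance] Matrix.linftyOpNormedRing Matrix.linftyOpNormedAlgebra

/-! ### the projection to the even part -/

/-- projection to the even part, linear map -/
def pkL : m 1 3 →ₗ[ℝ] m 1 3 where
  toFun u := mkV (c0 u) 0 0 0 (cQ u)
  map_add' u v := by
    apply ext_coords <;> simp
  map_smul' r u := by
    apply ext_coords <;> simp

/-- projection to the even part -/
def pkV := clmOf pkL

theorem pkV_apply (u : V) : pkV u = mkV (c0 u) 0 0 0 (cQ u) := rfl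

theorem c0_pk (u : V) : c0 (pkV u) = c0 u := rfl
theorem cP_pk (u : V) : cP (pkV u) = 0 := rfl
theorem cR_pk (u : V) : cR (pkV u) = 0 := rfl
theorem cC_pk (u : V) : cC (pkV u) = 0 := rfl
theorem cQ_pk (u : V) : cQ (pkV u) = cQ u := rfl

theorem pkV_zero_iff (u : V) : pkV u = 0 ↔ c0 u = 0 ∧ cQ u = 0 := by
  constructor
  · intro h
    have h1 : c0 (pkV u) = c0 0 := congrArg c0 h
    have h2 : cQ (pkV u) = cQ 0 := congrArg cQ h
    rw [c0_pk, map_zero] at h1
    rw [cQ_pk, map_zero] at h2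
    exact ⟨h1, h2⟩
  · rintro ⟨h1, h2⟩
    refine ext_coords ?_ ?_ ?_ ?_ ?_
    · rw [c0_pk, h1, map_zero]
    · rw [cP_pk, map_zero]
    · rw [cR_pk, map_zero]
    · rw [cC_pk, map_zero]
    · rw [cQ_pk, h2, map_zero]

theorem pk_idem (z : V) : pkV (pkV z) = pkV z := rfl

theorem pk_symm (a c : V) : QQ (pkV a : Mat) (c : Mat) = QQ (a : Mat) (pkV c : Mat) := by
  rw [QQ_coords, QQ_coords]
  simp only [c0_pk, cP_pk, cR_pk, cC_pk, cQ_pk, rip]
  simp

theorem pk_kk (a c : V) : pkV (br (pkV a) (pkV c)) = br (pkV a) (pkV c) := by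
  refine ext_coords ?_ ?_ ?_ ?_ ?_
  · rw [c0_pk]
  · rw [cP_pk, br_P]; simp only [cP_pk, cC_pk]; simp
  · rw [cR_pk, br_R]; simp only [cR_pk, cC_pk]; simp
  · rw [cC_pk, br_C]; simp only [cP_pk, cR_pk, cC_pk]; simp
  · rw [cQ_pk]

theorem pk_pp (a c : V) (ha : pkV a = 0) (hc : pkV c = 0) : pkV (br a c) = br a c := by
  have ha := (pkV_zero_iff a).1 ha
  have hc := (pkV_zero_iff c).1 hc
  refine ext_coords ?_ ?_ ?_ ?_ ?_
  · rw [c0_pk]
  · rw [cP_pk, br_P, ha.1, ha.2, hc.1, hc.2]; simp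
  · rw [cR_pk, br_R, ha.1, ha.2, hc.1, hc.2]; simp
  · rw [cC_pk, br_C, ha.1, ha.2, hc.1, hc.2]; simp
  · rw [cQ_pk]

theorem pk_kp (a c : V) (hc : pkV c = 0) : pkV (br (pkV a) c) = 0 := by
  have hc := (pkV_zero_iff c).1 hc
  refine (pkV_zero_iff _).2 ⟨?_, ?_⟩
  · rw [br_0, hc.2]; simp only [cP_pk, cR_pk, cC_pk]; simp [imp]
  · rw [br_Q, hc.1, hc.2]; simp only [cP_pk, cR_pk, cC_pk]; simp

theorem pk_kph (a c : V) (hc : pkV c = 0) :
    ((br (pkV a) c : V) : Mat) = ⁅((pkV a : V) : Mat), (c : Mat)⁆ := by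
  have hc := (pkV_zero_iff c).1 hc
  rw [lie_coe, br_h, hc.2]
  simp only [cP_pk, cR_pk, cC_pk, imp]
  simp

theorem symK : SymP QQ (PP 1 3) pkV where
  idem := pk_idem
  symm := pk_symm
  kk := pk_kk
  pp := pk_pp
  kp := pk_kp
  kph := pk_kph

theorem kf_pk (u w : V) : kf QQ pkV u w = 10 * (c0 u * c0 w) + 2 * rip (cQ u) (cQ w) := by
  change QQ (pkV u : Mat) (w : Mat) = _
  rw [QQ_coords]
  simp only [c0_pk, cP_pk, cR_pk, cC_pk, cQ_pk]
  simp [rip]

theorem nf_nr (u : V) : nf QQ u u = nr u := rfl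

theorem kf_Kq (u : V) : kf QQ pkV u u = Kq u := by
  rw [kf_pk, Kq, rip, Complex.normSq_apply]; ring

theorem vK_base (u : V) : vK u = -baseF QQ pkV (-3 / 2) 1 u := by
  change vK u = -(-3 / 2 * kf QQ pkV u u + 1 * (kf QQ pkV u u ^ 2 * (nr u)⁻¹))
  rw [vK, kf_Kq]; ring

/-! ### the quadratic function `Re (C P)` -/

theorem g1_add (a b : V) : g1 (a + b) = g1 a + g1 b := by
  apply ext_coords <;> simp [g1]
  ring

theorem g1_smul (r : ℝ) (a : V) : g1 (r • a) = r • g1 a := by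
  apply ext_coords <;> simp [g1]; ring

/-- `g1` as a linear map -/
def g1l : m 1 3 →ₗ[ℝ] m 1 3 where
  toFun := g1
  map_add' := g1_add
  map_smul' := g1_smul

/-- `g1` as a continuous linear map -/
def g1C := clmOf g1l

theorem g1C_apply (u : V) : g1C u = g1 u := rfl

theorem QQ_g1 (a b : V) : QQ (g1 a : Mat) (b : Mat) = (cC a * cP b + cC b * cP a).re := by
  rw [QQ_coords]
  simp [g1, rip]
  ring

theorem kf_g1 (a b : V) : kf QQ g1C a b = (cC a * cP b + cC b * cP a).re := QQ_g1 a b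

theorem kf_g1_comm (a b : V) : kf QQ g1C a b = kf QQ g1C b a := by
  rw [kf_g1, kf_g1, add_comm]

theorem kf_g1_self (u : V) : kf QQ g1C u u = 2 * mq u := by
  rw [kf_g1, mq]; simp; ring

/-! ### the explicit function away from the support of `χ₂` -/

/-- `-(3/2 K - K²/N) - ε Re(C P)` -/
def phe (ε : ℝ) : V → ℝ := baseG QQ pkV g1C (-3 / 2) 1 (-ε / 2)

theorem phe_eq (ε : ℝ) (u : V) : phe ε u = -(vK u + ε * mq u) := by
  change baseF QQ pkV (-3 / 2) 1 u + -ε / 2 * kf QQ g1C u u = _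
  rw [vK_base, kf_g1_self]; ring

theorem phe_smooth (ε : ℝ) : ContDiffOn ℝ ∞ (phe ε) {0}ᶜ := baseG_smooth nD _ _ _

theorem phe_D1 {ε : ℝ} {u : V} (h1 : nf QQ u u = 1) (a : V) : D1 (phe ε) u a =
    -3 * kf QQ pkV u a + sF1 QQ pkV u a - ε * kf QQ g1C u a := by
  rw [phe, baseG_D1 nD symK kf_g1_comm h1]; ring

theorem phe_D2 {ε : ℝ} {u : V} (h1 : nf QQ u u = 1) (a b : V) : D2 (phe ε) u a b =
    -3 * kf QQ pkV a b + sF2 QQ pkV u a b - ε * kf QQ g1C a b := by
  rw [phe, baseG_D2 nD symK kf_g1_comm h1]; ring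

theorem phe_D3 {ε : ℝ} {u : V} (h1 : nf QQ u u = 1) (a b c : V) : D3 (phe ε) u a b c =
    sF3 QQ pkV u a b c := by
  rw [phe, baseG_D3 nD symK kf_g1_comm h1]; ring

theorem phe_D4 {ε : ℝ} {u : V} (h1 : nf QQ u u = 1) (a b c d : V) : D4 (phe ε) u a b c d =
    sF4 QQ pkV u a b c d := by
  rw [phe, baseG_D4 nD symK kf_g1_comm h1]; ring

theorem vE_of_chi {ε κ : ℝ} {u : V} (h : chi2 u = 0) : vE ε κ u = phe ε u := by
  rw [vE, phe_eq, h]; ring

theorem chi1_zero {t : ℝ} (h : t ≤ 2 / 5 ∨ 3 / 5 ≤ t) : chi1 t = 0 := by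
  unfold chi1
  rcases h with h | h
  · rw [Real.smoothTransition.zero_of_nonpos (by linarith), zero_mul]
  · rw [Real.smoothTransition.zero_of_nonpos (x := 12 - 20 * t) (by linarith), mul_zero]

theorem nr_cont {u : V} (hu : u ≠ 0) : ContinuousAt nr u :=
  ((nf_smooth (Q := QQ) (m := m 1 3)).contDiffAt
    (isOpen_compl_singleton.mem_nhds hu)).continuousAt

theorem cPsq_cont (u : V) : ContinuousAt (fun z : V => Complex.normSq (cP z)) u :=
  Complex.continuous_normSq.continuousAt.comp cP.continuous.continuousAt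

theorem ratio_cont {u : V} (hu : u ≠ 0) :
    ContinuousAt (fun z : V => Complex.normSq (cP z) / nr z) u :=
  (cPsq_cont u).div (nr_cont hu) (nr_pos hu).ne'

/-- the explicit function near a point with `|P|²/N` outside `[2/5, 3/5]` or `c > 0` -/
theorem vEK_ev {ε κ : ℝ} {u : V} (hu : u ≠ 0)
    (h : Complex.normSq (cP u) / nr u < 2 / 5 ∨ 3 / 5 < Complex.normSq (cP u) / nr u ∨
      0 < cc 1 3 u) : vE ε κ =ᶠ[𝓝 u] phe ε := by
  have hc : ContinuousAt (cc 1 3) u :=
    (cD.csm.contDiffAt (isOpen_compl_singleton.mem_nhds hu)).continuousAt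
  rcases h with h | h | h
  · filter_upwards [(ratio_cont hu).eventually (gt_mem_nhds h)] with z hz
    refine vE_of_chi ?_
    rw [chi2, chi1_zero (Or.inl hz.le), zero_mul]
  · filter_upwards [(ratio_cont hu).eventually (lt_mem_nhds h)] with z hz
    refine vE_of_chi ?_
    rw [chi2, chi1_zero (Or.inr hz.le), zero_mul]
  · filter_upwards [hc.eventually (lt_mem_nhds h)] with z hz
    refine vE_of_chi ?_
    rw [chi2, Real.smoothTransition.zero_of_nonpos (by linarith), mul_zero]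

end Pool.Agent.FL.S1
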