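import Pool.Agent.FL.M3
import Pool.Agent.FL.S1Gau60
import Pool.Agent.FL.S1Hub

/-!
# MP_f09395_gt, space (1), module M3: core, the facts on the invariants are hypotheses
-/

set_option linter.unusedSectionVars false

noncomputable section

namespace Pool.Agent.FL

section Abs

open Pool.Agent.Helper93.Fin Pool.Agent.helper79.FP Pool.Agent.helper79.FR

variable {𝔸 : Type*} [NormedRing 𝔸] [NormedAlgebra ℝ 𝔸] [FiniteDimensional ℝ 𝔸]
variable {g h m : Submodule ℝ 𝔸} {Q : 𝔸 →ₗ[ℝ] 𝔸 →ₗ[ℝ] ℝ} {P : 𝔸 →L[ℝ] m}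

theorem M3_BN_D1 (hN : NData g h m Q P) (u x : m) :
    D1 (fun y : m => Q (y : 𝔸) y) u x = 2 * Q (u : 𝔸) x := by
  have h1 : HasFDerivAt (fun y : m => BN m Q y y)
      ((BN m Q u).comp (ContinuousLinearMap.id ℝ m) + (BN m Q).flip u) u :=
    ((BN m Q).hasFDerivAt).clm_apply (hasFDerivAt_id u)
  have h2 : (fun y : m => Q (y : 𝔸) y) = fun y : m => BN m Q y y := by
    funext y
    rw [BN_apply]
  rw [D1, h2, h1.fderiv, _root_.add_apply, ContinuousLinearMap.comp_apply,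
    ContinuousLinearMap.flip_apply, ContinuousLinearMap.id_apply, BN_apply, BN_apply,
    hN.Qsymm (x : 𝔸) u]
  ring

end Abs

end Pool.Agent.FL

namespace Pool.Agent.FL.S1

open scoped ContDiff Quaternion Matrix ComplexConjugate
open Pool.Agent.Helper93.Fin Pool.Agent.helper79.FP Pool.Agent.helper79.FR
open Pool.Agent.helper79.FR.Sp2 (Mat QQ h0 m gg hh PP BB cc)
open Pool.Agent.FL
open Pool.Agent.FL.Wall (ef EE LamE LamW)
open Pool.Agent.helper75.FL (ee)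
open Pool.Agent.helper60.Gau
open Pool.Agent.helper90.FL (Negl)
open Filter Topology

attribute [local instance] Matrix.linftyOpNormedRing Matrix.linftyOpNormedAlgebra

theorem M3_eu (v : V → ℝ) (u : V) : eu v u = ee QQ (PP 1 3) v u := rfl

theorem M3_pt (v χ : V → ℝ) (p : FI → ℝ) :
    pt v χ p = fun u => linF v (fun k u => χ u * fam k u) (p, u) := rfl

theorem M3_nr_smooth : ContDiffOn ℝ ∞ nr {0}ᶜ := by
  have h1 : nr = fun u : V => BN (m 1 3) QQ u u := by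
    funext u
    rw [BN_apply]
    rfl
  rw [h1]
  exact BNsq_smooth

theorem M3_nr_D1 (u x : V) : D1 nr u x = 2 * QQ (u : Mat) (x : Mat) :=
  M3_BN_D1 nD u x

/-- functionals of the family: the derivatives of the invariants are recovered -/
theorem M3_recover {χ : V → ℝ} {u x : V} (hu : u ≠ 0) (hs0 : ∀ a, I0 (s0 a))
    (hχ1 : χ =ᶠ[𝓝 u] fun _ => 1) (h : ∀ k : FI, D1 (fun z => χ z * fam k z) u x = 0) :
    QQ (u : Mat) (x : Mat) = 0 ∧ ∀ a : E0, D1 (s0 a) u x = 0 := by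
  have hk : ∀ (k : FI) (φ : V → ℝ), (∀ z, fam k z = φ z) → D1 φ u x = 0 := by
    intro k φ hφ
    have h1 : (fun z => χ z * fam k z) =ᶠ[𝓝 u] φ := by
      filter_upwards [hχ1] with z hz
      rw [hz, one_mul, hφ]
    rw [← h k]
    exact (ev_D1 h1 x).self_of_nhds.symm
  have a0 : E0 := Sum.inl 0
  have h0 : D1 nr u x = 0 := by
    refine hk (Sum.inl ((a0, none), ⟨0, by norm_num [NT]⟩)) nr fun z => ?_
    show nr z * (sF (a0, none) z ^ 0) = nr z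
    rw [pow_zero, mul_one]
  refine ⟨?_, fun a => ?_⟩
  · rw [M3_nr_D1] at h0
    linarith
  · have h1 : D1 (fun z => nr z * s0 a z) u x = 0 := by
      refine hk (Sum.inl ((a, none), ⟨1, by norm_num [NT]⟩)) _ fun z => ?_
      show nr z * (sF (a, none) z ^ 1) = nr z * s0 a z
      rw [pow_one]
      rfl
    rw [D1_mul M3_nr_smooth (hs0 a).smooth hu, h0, mul_zero, add_zero] at h1
    exact (mul_eq_zero.1 h1).resolve_left (Qm_pos nD hu).ne'

/-- M3 with the facts on the invariants as hypotheses -/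
theorem M3_core {v χ : V → ℝ} (hv : Ph v) (hχ : I0 χ) (hfam : ∀ k, Ph (fam k))
    (hs0 : ∀ a, I0 (s0 a))
    (hI : ∀ {u x : V}, Gen u → QQ (u : Mat) (x : Mat) = 0 → (∀ a : E0, D1 (s0 a) u x = 0) →
      ∃ r : ℝ, x = r • rt u)
    (hS : ∀ {u b : V}, Fl u b → ∀ r : ℝ, rt b ≠ r • rt u)
    {c1 : ℝ} (h1 : -1 < c1) (h2 : c1 < 1) :
    Negl {p : FI → ℝ | ∃ u b, Fl u b ∧ cc 1 3 u = c1 ∧ (χ =ᶠ[𝓝 u] fun _ => 1) ∧ Gen u ∧
      eu (pt v χ p) u = 0} := by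
  have hf : ∀ k : FI, PhiN (hh 1 3) (m 1 3) (PP 1 3) (fun u => χ u * fam k u) ∧
      InvH (Pool.Agent.helper79.FR.Sp2.H 1 3) (fun u => χ u * fam k u) :=
    fun k => phiN_mul nD gD hχ (hfam k).phi (hfam k).inv
  have key := M3_abs (c₀ := c1) nD cD hv.phi (fun k => (hf k).1)
    (fun u => u ≠ 0 ∧ Gen u ∧ χ =ᶠ[𝓝 u] fun _ => 1) gz
    (fun u hu x hx => by
      obtain ⟨k1, k2⟩ := M3_recover hu.1 hs0 hu.2.2 hx
      exact hI hu.2.1 k1 k2)
    (fun u b hF t => hS hF t) (by nlinarith)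
  refine key.mono ?_
  rintro p ⟨u, b, hF, hc, hχ1, hG, he⟩
  have hu : u ≠ 0 := hF.ne nD
  have hz : ¬ (cP u = 0 ∧ cR u = 0 ∧ cC u = 0 ∧ cQ u = 0) := by
    rintro ⟨k1, k2, k3, k4⟩
    rcases hG with ⟨g1, g2⟩ | ⟨g1, g2⟩
    · exact g1 k4
    · rcases g2 with g2 | g2
      · exact g2 k3
      · exact g2 k1
  obtain ⟨k, hk, j, hj1, hj2⟩ := gauge u hz
  have hk' : k⁻¹ ∈ Pool.Agent.helper79.FR.Sp2.H 1 3 := inv_mem hk
  obtain ⟨z, hz1, hkz⟩ := hk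
  have hk : k ∈ Pool.Agent.helper79.FR.Sp2.H 1 3 := ⟨z, hz1, hkz⟩
  have hz0 : z ≠ 0 := by rintro rfl; simp at hz1
  obtain ⟨c1', c2', c3', c4', c5'⟩ := rk_coord hz1 hkz u
  have hw : Ph (pt v χ p) := by
    rw [M3_pt]
    exact ⟨linF_phiN hv.phi (fun k => (hf k).1) p, linF_invH hv.inv (fun k => (hf k).2) p⟩
  refine ⟨adM (PP 1 3) k u, adM (PP 1 3) k b, eq_flag nD gD hk hF,
    ⟨adM_ne nD gD hk hu, ?_, ?_⟩, ?_, ⟨j, hj1, hj2⟩, ?_⟩
  · unfold Gen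
    rw [c1', c2', c3', c4', c5']
    have e1 : ∀ w : ℂ, z ^ 4 * w ≠ 0 ↔ w ≠ 0 := fun w =>
      ⟨fun h h' => h (by rw [h', mul_zero]), fun h => mul_ne_zero (pow_ne_zero _ hz0) h⟩
    have e2 : ∀ w : ℂ, z ^ 2 * w ≠ 0 ↔ w ≠ 0 := fun w =>
      ⟨fun h h' => h (by rw [h', mul_zero]), fun h => mul_ne_zero (pow_ne_zero _ hz0) h⟩
    have e3 : ∀ w : ℂ, z ^ 6 * w ≠ 0 ↔ w ≠ 0 := fun w =>
      ⟨fun h h' => h (by rw [h', mul_zero]), fun h => mul_ne_zero (pow_ne_zero _ hz0) h⟩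
    have e4 : ∀ w : ℂ, z * conj (z ^ 3) * w ≠ 0 ↔ w ≠ 0 := fun w =>
      ⟨fun h h' => h (by rw [h', mul_zero]), fun h => mul_ne_zero (mul_ne_zero hz0
        ((map_ne_zero _).2 (pow_ne_zero _ hz0))) h⟩
    rw [e1, e2, e3, e4]
    exact hG
  · have hcont : ContinuousAt (adM (PP 1 3) k⁻¹) (adM (PP 1 3) k u) :=
      (adM (PP 1 3) k⁻¹).continuous.continuousAt
    have e0 : adM (PP 1 3) k⁻¹ (adM (PP 1 3) k u) = u := by
      have := eq_adM_inv nD gD hk' u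
      rwa [inv_inv] at this
    have h3 : ∀ᶠ y in 𝓝 (adM (PP 1 3) k u), χ (adM (PP 1 3) k⁻¹ y) = 1 := by
      refine hcont.eventually (p := fun y => χ y = 1) ?_
      rw [e0]
      exact hχ1
    filter_upwards [h3] with y hy
    rw [← hy]
    exact (hχ.inv k⁻¹ hk' y _ (adM_coe nD gD hk' y)).symm
  · rw [← hc]
    exact gD.c k hk u _ (adM_coe nD gD hk u)
  · have h4 := eq_ee nD cD gD hw.phi.smooth hw.inv hk hu
    have h5 : ee QQ (PP 1 3) (pt v χ p) u = 0 := he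
    rw [h5, map_zero] at h4
    exact h4

end Pool.Agent.FL.S1
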