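import Pool.Agent.FL.S1BaseU

/-!
# MP_f09395_gt: quadratic forms `⟨f z, z⟩` on `𝔪` (abstract form, instance-safe)
-/

set_option linter.unusedSectionVars false

noncomputable section

namespace Pool.Agent.FL

open scoped ContDiff
open Pool.Agent.Helper93.Fin Pool.Agent.helper79.FP Pool.Agent.helper79.FR
open Filter Topology Module

variable {𝔸 : Type*} [NormedRing 𝔸] [NormedAlgebra ℝ 𝔸] [FiniteDimensional ℝ 𝔸]
variable {g h m : Submodule ℝ 𝔸} {Q : 𝔸 →ₗ[ℝ] 𝔸 →ₗ[ℝ] ℝ} {P : 𝔸 →L[ℝ] m} {f : m →L[ℝ] m}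

/-- a linear map of `𝔪` as a continuous linear map -/
def clmOf {m : Submodule ℝ 𝔸} (f : m →ₗ[ℝ] m) : m →L[ℝ] m := LinearMap.toContinuousLinearMap f

theorem clmOf_apply {m : Submodule ℝ 𝔸} (f : m →ₗ[ℝ] m) (z : m) : clmOf f z = f z := rfl

section
variable (hs : ∀ a c : m, kf Q f a c = kf Q f c a)
include hs

theorem kfs_D1 (u a : m) : D1 (fun z : m => kf Q f z z) u a = 2 * kf Q f u a := by
  have h1 : (fun z : m => kf Q f z z) = fun z => kfL Q f z z := funext fun z => (kfL_apply z z).symm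
  have h2 : ∀ a c : m, kfL Q f a c = kfL Q f c a := fun a c => by rw [kfL_apply, kfL_apply, hs]
  rw [h1, QF_q1 (q := kfL Q f) h2, kfL_apply]

theorem kfs_D2 (u a b : m) : D2 (fun z : m => kf Q f z z) u a b = 2 * kf Q f a b := by
  have h1 : (fun z : m => kf Q f z z) = fun z => kfL Q f z z := funext fun z => (kfL_apply z z).symm
  have h2 : ∀ a c : m, kfL Q f a c = kfL Q f c a := fun a c => by rw [kfL_apply, kfL_apply, hs]
  rw [h1, QF_q2 (q := kfL Q f) h2, kfL_apply]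

theorem kfs_D3 (u a b c : m) : D3 (fun z : m => kf Q f z z) u a b c = 0 := by
  have h1 : (fun z : m => kf Q f z z) = fun z => kfL Q f z z := funext fun z => (kfL_apply z z).symm
  have h2 : ∀ a c : m, kfL Q f a c = kfL Q f c a := fun a c => by rw [kfL_apply, kfL_apply, hs]
  rw [h1, QF_q3 (q := kfL Q f) h2]

theorem kfs_D4 (u a b c d : m) : D4 (fun z : m => kf Q f z z) u a b c d = 0 := by
  have h1 : (fun z : m => kf Q f z z) = fun z => kfL Q f z z := funext fun z => (kfL_apply z z).symm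
  have h2 : ∀ a c : m, kfL Q f a c = kfL Q f c a := fun a c => by rw [kfL_apply, kfL_apply, hs]
  rw [h1, QF_q4 (q := kfL Q f) h2]

end

/-- `a K + b K² / N + e ⟨f z, z⟩` -/
def baseG (Q : 𝔸 →ₗ[ℝ] 𝔸 →ₗ[ℝ] ℝ) (pk f : m →L[ℝ] m) (a b e : ℝ) (z : m) : ℝ :=
  baseF Q pk a b z + e * kf Q f z z

section
variable {pk : m →L[ℝ] m} (hN : NData g h m Q P) (hS : SymP Q P pk)
  (hs : ∀ a c : m, kf Q f a c = kf Q f c a) {a b e : ℝ} {u : m}
include hN

theorem baseG_smooth (a b e : ℝ) : ContDiffOn ℝ ∞ (baseG Q pk f a b e) {0}ᶜ :=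
  (baseF_smooth hN a b).add (contDiffOn_const.mul kq_smooth.contDiffOn)

include hS hs

theorem baseG_D1 (h1 : nf Q u u = 1) (v : m) : D1 (baseG Q pk f a b e) u v =
    2 * a * kf Q pk u v + b * sF1 Q pk u v + 2 * e * kf Q f u v := by
  have hu := ne_of_unit h1
  have h2 : ContDiffOn ℝ ∞ (fun z : m => e * kf Q f z z) {0}ᶜ :=
    contDiffOn_const.mul kq_smooth.contDiffOn
  have h3 := D1_sum (baseF_smooth (pk := pk) hN a b) h2 hu v
  rw [smul_D1 kq_smooth.contDiffOn e hu, kfs_D1 hs, baseF_D1 hN hS h1] at h3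
  change D1 (baseG Q pk f a b e) u v = _ at h3
  rw [h3]; ring

theorem baseG_D2 (h1 : nf Q u u = 1) (v w : m) : D2 (baseG Q pk f a b e) u v w =
    2 * a * kf Q pk v w + b * sF2 Q pk u v w + 2 * e * kf Q f v w := by
  have hu := ne_of_unit h1
  have h2 : ContDiffOn ℝ ∞ (fun z : m => e * kf Q f z z) {0}ᶜ :=
    contDiffOn_const.mul kq_smooth.contDiffOn
  have h3 := D2_sum (baseF_smooth (pk := pk) hN a b) h2 hu v w
  rw [smul_D2 kq_smooth.contDiffOn e hu, kfs_D2 hs, baseF_D2 hN hS h1] at h3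
  change D2 (baseG Q pk f a b e) u v w = _ at h3
  rw [h3]; ring

theorem baseG_D3 (h1 : nf Q u u = 1) (v w x : m) : D3 (baseG Q pk f a b e) u v w x =
    b * sF3 Q pk u v w x := by
  have hu := ne_of_unit h1
  have h2 : ContDiffOn ℝ ∞ (fun z : m => e * kf Q f z z) {0}ᶜ :=
    contDiffOn_const.mul kq_smooth.contDiffOn
  have h3 := D3_sum (baseF_smooth (pk := pk) hN a b) h2 hu v w x
  rw [smul_D3 kq_smooth.contDiffOn e hu, kfs_D3 hs, baseF_D3 hN hS h1] at h3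
  change D3 (baseG Q pk f a b e) u v w x = _ at h3
  rw [h3]; ring

theorem baseG_D4 (h1 : nf Q u u = 1) (v w x y : m) : D4 (baseG Q pk f a b e) u v w x y =
    b * sF4 Q pk u v w x y := by
  have hu := ne_of_unit h1
  have h2 : ContDiffOn ℝ ∞ (fun z : m => e * kf Q f z z) {0}ᶜ :=
    contDiffOn_const.mul kq_smooth.contDiffOn
  have h3 := D4_sum (baseF_smooth (pk := pk) hN a b) h2 hu v w x y
  rw [smul_D4 kq_smooth.contDiffOn e hu, kfs_D4 hs, baseF_D4 hN hS h1] at h3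
  change D4 (baseG Q pk f a b e) u v w x y = _ at h3
  rw [h3]; ring

/-- **the third order form at unit vectors of the `k`-part annihilated by `f`** -/
theorem T3F_baseG_even {v : m} (hF : Flag Q u v) (huk : pk u = u) (hfu : ∀ w, kf Q f u w = 0)
    (h0 : P ⁅(u : 𝔸), (pk v : 𝔸)⁆ = 0) (hpf : ∀ z, pk (P ⁅(u : 𝔸), (f z : 𝔸)⁆) = 0) :
    T3F Q P (baseG Q pk f a b e) u v =
      (4 * e ^ 2 * (2 * a + 4 * b)) * nf Q (P ⁅(u : 𝔸), (f v : 𝔸)⁆) (P ⁅(u : 𝔸), (f v : 𝔸)⁆)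
      - 8 * e ^ 3 * kf Q f (P ⁅(u : 𝔸), (f v : 𝔸)⁆) (P ⁅(u : 𝔸), (f v : 𝔸)⁆) := by
  obtain ⟨huu, hvv, huv, hbr⟩ := hF
  have n1 : nf Q u u = 1 := huu
  have n3 : nf Q u v = 0 := huv
  have k1 : ∀ w, kf Q pk u w = nf Q u w := fun w => by unfold kf nf; rw [huk]
  have k2 : kf Q pk u u = 1 := by rw [k1]; exact n1
  have k3 : kf Q pk u v = 0 := by rw [k1]; exact n3
  obtain ⟨s, hs'⟩ : ∃ s : m, s = (2 * a + 4 * b) • pk v + (-2 * b) • v + (2 * e) • f v := ⟨_, rfl⟩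
  have sc : (s : 𝔸) = (2 * a + 4 * b) • (pk v : 𝔸) + (-2 * b) • (v : 𝔸) + (2 * e) • (f v : 𝔸) := by
    rw [hs']; rfl
  have hx : ∀ w : m, (2 * a + 2 * b) * Q (u : 𝔸) w + 0 * Q (v : 𝔸) w =
      D1 (baseG Q pk f a b e) u w := by
    intro w
    rw [baseG_D1 hN hS hs n1, hfu, sF1, k2, k1]
    unfold nf; ring
  have hss : ∀ w : m, Q (s : 𝔸) w = D2 (baseG Q pk f a b e) u v w := by
    intro w
    rw [baseG_D2 hN hS hs n1, sF2, sF1, sF1, k2, k3, n3, k1, sc]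
    simp only [map_add, map_smul, LinearMap.add_apply, LinearMap.smul_apply, smul_eq_mul]
    unfold kf nf; ring
  rw [T3F_xcd hN hbr hx hss]
  have hr : P ⁅(u : 𝔸), (s : 𝔸)⁆ = (2 * e) • P ⁅(u : 𝔸), (f v : 𝔸)⁆ := by
    have h2 : ⁅(u : 𝔸), (s : 𝔸)⁆ = (2 * a + 4 * b) • ⁅(u : 𝔸), (pk v : 𝔸)⁆
        + (-2 * b) • ⁅(u : 𝔸), (v : 𝔸)⁆ + (2 * e) • ⁅(u : 𝔸), (f v : 𝔸)⁆ := by
      rw [sc]
      simp only [Ring.lie_def, mul_add, add_mul, mul_smul_comm, smul_mul_assoc, smul_sub]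
      abel
    rw [h2, hbr, map_add, map_add, map_smul, map_smul, map_smul, h0, map_zero]
    simp
  rw [hr]
  obtain ⟨r, hr'⟩ : ∃ r : m, r = P ⁅(u : 𝔸), (f v : 𝔸)⁆ := ⟨_, rfl⟩
  have hk : pk r = 0 := by rw [hr']; exact hpf v
  rw [← hr']
  have q1 : kf Q pk ((2 * e) • r) ((2 * e) • r) = 0 := by
    unfold kf; rw [map_smul, hk, smul_zero]; simp
  have q2 : kf Q pk u ((2 * e) • r) = 0 := by
    unfold kf; rw [hS.symm, map_smul, hk, smul_zero]; simp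
  have q3 : nf Q u ((2 * e) • r) = 0 := by rw [← k1]; exact q2
  have q4 : ∀ c : ℝ, nf Q (c • r) (c • r) = c ^ 2 * nf Q r r := fun c => by
    unfold nf
    rw [Submodule.coe_smul]
    simp only [map_smul, LinearMap.smul_apply, smul_eq_mul]; ring
  have q5 : ∀ c : ℝ, kf Q f (c • r) (c • r) = c ^ 2 * kf Q f r r := fun c => by
    unfold kf
    rw [map_smul, Submodule.coe_smul, Submodule.coe_smul]
    simp only [map_smul, LinearMap.smul_apply, smul_eq_mul]; ring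
  rw [baseG_D2 hN hS hs n1, sF2, sF1, q1, q2, q3, k2, q5, q4]
  have q6 : Q (((2 * e) • r : m) : 𝔸) (((2 * e) • r : m) : 𝔸) = (2 * e) ^ 2 * nf Q r r := q4 _
  rw [q6]; ring

end

end Pool.Agent.FL
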