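import Pool.Agent.FL.V2
import Pool.Agent.FL.S1Hub2

/-!
# MP_f09395_gt, space (1): the last generic perturbation
(core, the genericity statements are hypotheses)
-/

set_option linter.unusedSectionVars false

noncomputable section

namespace Pool.Agent.FL.S1

open scoped ContDiff Quaternion Matrix ComplexConjugate
open Pool.Agent.Helper93.Fin Pool.Agent.helper79.FP Pool.Agent.helper79.FR
open Pool.Agent.helper79.FR.Sp2 (Mat QQ h0 m gg hh PP BB cc)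
open Pool.Agent.FL
open Pool.Agent.FL.Wall (ef EE LamE LamW)
open Pool.Agent.helper90.FL (Negl)
open Filter Topology

attribute [local instance] Matrix.linftyOpNormedRing Matrix.linftyOpNormedAlgebra

/-- the odd part is closed -/
theorem Od_closed : IsClosed {u : V | Od u} := by
  have e : {u : V | Od u} = {u : V | c0 u = 0} ∩ {u : V | cQ u = 0} := rfl
  rw [e]
  exact (isClosed_eq c0.continuous continuous_const).inter
    (isClosed_eq cQ.continuous continuous_const)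

/-- the constant cut-off function -/
theorem one_I0 : I0 (fun _ : V => (1 : ℝ)) := Inv0.const _ _ 1

/-- V2, the general facts are hypotheses -/
theorem V2_core (hfam : ∀ k : FI, Ph (fam k))
    (spec : ∀ u b : V, Fl u b → Gen u ∨ Od' u ∨ (QQ (BB 1 3 u) (b : Mat) = 0 ∧ Spec u))
    (s7a : ∀ v : V → ℝ, Ph v → ∀ u b : V, Fl u b → QQ (BB 1 3 u) (b : Mat) ≠ 0 → ∀ r : ℝ,
      eu v u = r • rt u → eu v u = 0)
    (g1 : ∀ v χ : V → ℝ, Ph v → I0 χ →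
      Negl {p : FI → ℝ | ∃ u b, Fl u b ∧ (χ =ᶠ[𝓝 u] fun _ => 1) ∧ Gen u ∧
        (∀ r : ℝ, eu (pt v χ p) u ≠ r • rt u) ∧ ∀ j < NT, Aj (pt v χ p) j u (b : Mat) = 0})
    (g2 : ∀ v χ : V → ℝ, Ph v → I0 χ →
      Negl {p : FI → ℝ | ∃ u b, Fl u b ∧ (χ =ᶠ[𝓝 u] fun _ => 1) ∧ Od' u ∧
        eu (pt v χ p) u ≠ 0 ∧ ∀ j < NT, Aj (pt v χ p) j u (b : Mat) = 0})
    (gw : ∀ v χ : V → ℝ, Ph v → I0 χ →
      Negl {p : FI → ℝ | ∃ u b, Fl u b ∧ QQ (BB 1 3 u) (b : Mat) ≠ 0 ∧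
        (χ =ᶠ[𝓝 u] fun _ => 1) ∧ ∀ j, 1 ≤ j → j ≤ NT → aWt (pt v χ p) j u = 0})
    (m3 : ∀ v χ : V → ℝ, Ph v → I0 χ → ∀ c1 : ℝ, -1 < c1 → c1 < 1 →
      Negl {p : FI → ℝ | ∃ u b, Fl u b ∧ cc 1 3 u = c1 ∧ (χ =ᶠ[𝓝 u] fun _ => 1) ∧ Gen u ∧
        eu (pt v χ p) u = 0})
    {v : V → ℝ} {s : ℝ} (h : Lev v s) : ∃ v2 : V → ℝ, Lev v2 s ∧
    (∀ u b, Fl u b → |cc 1 3 u| ≤ s → ∃ j, 1 ≤ j ∧ aWt v2 j u ≠ 0) ∧
    (∀ u b, Fl u b → |cc 1 3 u| = s → alf v2 u b = 0 → alf' v2 u b ≤ 0 →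
      ∃ j, 1 ≤ j ∧ j < NT ∧ Aj v2 j u (b : Mat) ≠ 0) := by
  have hone : ∀ k : FI, (fun u : V => (1 : ℝ) * fam k u) = fam k := fun k => by
    funext u; rw [one_mul]
  obtain ⟨r, -, v2, hv2, h1, h2, h3, h4, h5, h6⟩ := v2_exists (h0 := h0 1 3) (B := BB 1 3)
    (c := cc 1 3) (f := fun (k : FI) (u : V) => (1 : ℝ) * fam k u) nD cD h.ph.phi h.ph.inv
    (fun k => by rw [hone]; exact (hfam k).phi) (fun k => by rw [hone]; exact (hfam k).inv)
    Od_closed h.s1 (L1 := h.pos) (L3 := fun u b hF hc hu ha he => h.odd u b hF hc hu ha he)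
    (Gen := Gen) (Odd := Od') (Rel := fun u x => ∃ r : ℝ, x = r • rt u)
    (T := fun φ j u b => Aj φ j u (b : Mat)) (n := NT) (N := NT)
    (fun φ u b => Pool.Agent.FL.Wall.LamW_apply u _)
    (fun u b hF hw => by
      rcases spec u b hF with h1 | h1 | h1
      · exact Or.inl h1
      · exact Or.inr ⟨h1.1, h1⟩
      · exact absurd h1.1 hw)
    (fun φ h1 h2 u b hF hw ⟨t, ht⟩ => s7a φ ⟨h1, h2⟩ u b hF hw t ht)
    ((g1 v _ h.ph one_I0).mono (by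
      rintro p ⟨u, b, hF, hg, he, h0'⟩
      exact ⟨u, b, hF, Filter.EventuallyEq.rfl, hg, fun t ht => he ⟨t, ht⟩, h0'⟩))
    ((g2 v _ h.ph one_I0).mono (by
      rintro p ⟨u, b, hF, hg, he, h0'⟩
      exact ⟨u, b, hF, Filter.EventuallyEq.rfl, hg.2, he, h0'⟩))
    ((gw v _ h.ph one_I0).mono (by
      rintro p ⟨u, b, hF, hc, h0'⟩
      refine ⟨u, b, hF, fun hw => ?_, Filter.EventuallyEq.rfl, h0'⟩
      have h3 := cD.cw u b hF
      rw [hw, ← sq_abs] at h3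
      nlinarith [abs_nonneg (cc 1 3 u), h.s0, h.s1]))
    (((m3 v _ h.ph one_I0 s (by linarith [h.s0]) h.s1).union
      (m3 v _ h.ph one_I0 (-s) (by linarith [h.s1]) (by linarith [h.s0]))).mono (by
      rintro p ⟨u, b, hF, hg, hc, he⟩
      rcases (abs_eq h.s0.le).1 hc with hc | hc
      · exact Or.inl ⟨u, b, hF, hc, Filter.EventuallyEq.rfl, hg, he⟩
      · exact Or.inr ⟨u, b, hF, hc, Filter.EventuallyEq.rfl, hg, he⟩)) one_pos
  refine ⟨v2, ⟨⟨h1, h2⟩, h.s0, h.s1, h3, fun u b hF hc hu ha he => h4 u b hF hc hu ha he⟩, ?_, ?_⟩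
  · intro u b hF hc
    obtain ⟨j, h7, -, h8⟩ := h5 u b hF hc
    exact ⟨j, h7, h8⟩
  · intro u b hF hc ha ha'
    rcases h6 u b hF hc ha with h7 | h7
    · exact absurd h7 (not_lt.2 ha')
    · exact h7

end Pool.Agent.FL.S1
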