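import Pool.Agent.helper75.FL.SB
import Pool.Agent.FL.Par
import Pool.Agent.FL.GenT

/-!
# MP_f09395_gt, space (1), the last generic perturbation

`v + ∑ r k * f k` for arbitrarily small `r` outside a negligible set: the open conditions at the two
levels of the Casimir persist, the generic conditions hold.
-/

set_option linter.unusedSectionVars false

noncomputable section

namespace Pool.Agent.FL

open scoped ContDiff
open Pool.Agent.Helper93.Fin Pool.Agent.helper79.FP Pool.Agent.helper79.FR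
open Pool.Agent.helper75.FL Pool.Agent.helper90.FL
open Filter Topology

variable {𝔸 : Type*} [NormedRing 𝔸] [NormedAlgebra ℝ 𝔸] [FiniteDimensional ℝ 𝔸]
variable {g h m : Submodule ℝ 𝔸} {Q : 𝔸 →ₗ[ℝ] 𝔸 →ₗ[ℝ] ℝ} {P : 𝔸 →L[ℝ] m} {v : m → ℝ}
variable {h0 : 𝔸} {B : m → 𝔸} {c : m → ℝ} {H : Subgroup 𝔸ˣ}

section Open

variable {R : Type*} [NormedAddCommGroup R] [NormedSpace ℝ R] {F : R × m → ℝ} {C : Set ℝ}
  {V : Set m}

/-- the flags with Casimir in a closed set and first vector in a closed set are compact -/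
theorem lev_compact (hN : NData g h m Q P) (hC : Cas g h m Q P h0 B c) (hCc : IsClosed C)
    (hV : IsClosed V) :
    IsCompact {q : m × m | Flag Q q.1 q.2 ∧ c q.1 ∈ C ∧ q.1 ∈ V} := by
  have hS : ∀ p ∈ (FlagSet Q : Set (m × m)), p.1 ≠ 0 := fun p hp => flag_ne hN hp
  have k1 := compact_sub hN (cont_fst hC.csm hS) hCc
  refine (k1.inter_right (hV.preimage continuous_fst)).of_isClosed_subset ?_ ?_
  · have e : {q : m × m | Flag Q q.1 q.2 ∧ c q.1 ∈ C ∧ q.1 ∈ V} =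
        ((FlagSet Q : Set (m × m)) ∩ (fun p : m × m => c p.1) ⁻¹' C) ∩ Prod.fst ⁻¹' V := by
      ext q
      constructor
      · rintro ⟨h1, h2, h3⟩; exact ⟨⟨h1, h2⟩, h3⟩
      · rintro ⟨⟨h1, h2⟩, h3⟩; exact ⟨h1, h2, h3⟩
    rw [e]
    exact (k1.inter_right (hV.preimage continuous_fst)).isClosed
  · rintro q ⟨h1, h2, h3⟩
    exact ⟨⟨h1, h2⟩, h3⟩

/-- openness of `T3F > 0` on the flags with Casimir in a closed set -/
theorem open_T3F (hN : NData g h m Q P) (hC : Cas g h m Q P h0 B c)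
    (hF : ContDiffOn ℝ ∞ F (parU R m)) (hCc : IsClosed C) {p₀ : R}
    (hT : ∀ u b : m, Flag Q u b → c u ∈ C → al P h0 (fun w => F (p₀, w)) u b = 0 →
      0 < T3F Q P (fun w => F (p₀, w)) u b) :
    ∀ᶠ p in 𝓝 p₀, ∀ u b : m, Flag Q u b → c u ∈ C → al P h0 (fun w => F (p, w)) u b = 0 →
      0 < T3F Q P (fun w => F (p, w)) u b := by
  have key := par_T3F_open (h0 := h0) hN hF
    (lev_compact (C := C) (V := Set.univ) hN hC hCc isClosed_univ)
    (fun q hq => hq.1.ne hN) (p₀ := p₀) (fun q hq ha => hT q.1 q.2 hq.1 hq.2.1 ha)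
  filter_upwards [key] with p hp u b hFl hc ha
  exact hp (u, b) ⟨hFl, hc, Set.mem_univ _⟩ ha

theorem par_ee_cont (hN : NData g h m Q P) (hF : ContDiffOn ℝ ∞ F (parU R m))
    {S : Set (m × m)} (hS : ∀ q ∈ S, q.1 ≠ 0) : ContinuousOn (fun z : R × (m × m) =>
      ee Q P (fun w => F (z.1, w)) z.2.1) (Set.univ ×ˢ S) :=
  par_contOn hS fun z hz => P_tendsto (P := P) (Lim5.br_tendsto
    (val_tendsto ((continuous_fst.comp continuous_snd).tendsto z))
    (val_tendsto (par_gx_tendsto hN hF hz (continuous_fst.tendsto z)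
      ((continuous_fst.comp continuous_snd).tendsto z))))

/-- openness of `al' > 0` on the flags with `al = 0`, `e(u) = 0`, `u ∈ V` and Casimir in a closed
set -/
theorem open_al' (hN : NData g h m Q P) (hC : Cas g h m Q P h0 B c)
    (hF : ContDiffOn ℝ ∞ F (parU R m)) (hCc : IsClosed C) (hV : IsClosed V) {p₀ : R}
    (hT : ∀ u b : m, Flag Q u b → c u ∈ C → u ∈ V → al P h0 (fun w => F (p₀, w)) u b = 0 →
      ee Q P (fun w => F (p₀, w)) u = 0 → 0 < al' P h0 (fun w => F (p₀, w)) u b) :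
    ∀ᶠ p in 𝓝 p₀, ∀ u b : m, Flag Q u b → c u ∈ C → u ∈ V →
      al P h0 (fun w => F (p, w)) u b = 0 → ee Q P (fun w => F (p, w)) u = 0 →
      0 < al' P h0 (fun w => F (p, w)) u b := by
  have hS : ∀ q ∈ {q : m × m | Flag Q q.1 q.2 ∧ c q.1 ∈ C ∧ q.1 ∈ V}, q.1 ≠ 0 :=
    fun q hq => hq.1.ne hN
  have key := par_open' (κ := Unit) (σ := Bool) (lev_compact (C := C) (V := V) hN hC hCc hV)
    (p₀ := p₀)
    (A := fun i z => if i then ‖ee Q P (fun w => F (z.1, w)) z.2.1‖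
      else al P h0 (fun w => F (z.1, w)) z.2.1 z.2.2)
    (T := fun _ z => al' P h0 (fun w => F (z.1, w)) z.2.1 z.2.2)
    (fun i => by
      cases i
      · simpa using par_al_cont hF hS
      · simpa using (par_ee_cont hN hF hS).norm) (fun _ => par_al'_cont hF hS)
    (fun q hq he => by
      have h1 := he true
      have h2 := he false
      simp only [if_true, Bool.false_eq_true, if_false] at h1 h2
      exact ⟨(), hT q.1 q.2 hq.1 hq.2.1 hq.2.2 h2 (norm_eq_zero.1 h1)⟩)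
  filter_upwards [key] with p hp u b hFl hc hu ha he
  obtain ⟨-, h2⟩ := hp (u, b) ⟨hFl, hc, hu⟩ (fun i => by
    cases i
    · simpa using ha
    · simpa using he)
  exact h2

end Open

variable {κ : Type*} [Fintype κ] {f : κ → m → ℝ}

/-- **selection of a small parameter**: the open conditions persist, a negligible set is avoided -/
theorem sel_exists (hN : NData g h m Q P) (hC : Cas g h m Q P h0 B c)
    (hv : ContDiffOn ℝ ∞ v {0}ᶜ) (hf : ∀ i, ContDiffOn ℝ ∞ (f i) {0}ᶜ)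
    {C C' : Set ℝ} (hCc : IsClosed C) (hCc' : IsClosed C') {V : Set m} (hV : IsClosed V)
    (L1 : ∀ u b : m, Flag Q u b → c u ∈ C → al P h0 v u b = 0 → 0 < T3F Q P v u b)
    (L3 : ∀ u b : m, Flag Q u b → c u ∈ C' → u ∈ V → al P h0 v u b = 0 → ee Q P v u = 0 →
      0 < al' P h0 v u b)
    {bad : Set (κ → ℝ)} (hbad : Negl bad) {ε : ℝ} (hε : 0 < ε) :
    ∃ r : κ → ℝ, r ∉ bad ∧ ‖r‖ < ε ∧
      (∀ u b : m, Flag Q u b → c u ∈ C → al P h0 (fun w => linF v f (r, w)) u b = 0 →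
        0 < T3F Q P (fun w => linF v f (r, w)) u b) ∧
      (∀ u b : m, Flag Q u b → c u ∈ C' → u ∈ V → al P h0 (fun w => linF v f (r, w)) u b = 0 →
        ee Q P (fun w => linF v f (r, w)) u = 0 →
        0 < al' P h0 (fun w => linF v f (r, w)) u b) := by
  have hF := linF_smooth hv hf
  have h1 := open_T3F (h0 := h0) (c := c) hN hC hF hCc (p₀ := 0) (by
    intro u b hFl hc ha
    rw [linF_zero] at ha ⊢
    exact L1 u b hFl hc ha)
  have h2 := open_al' (h0 := h0) (c := c) hN hC hF hCc' hV (p₀ := 0) (by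
    intro u b hFl hc hu ha he
    rw [linF_zero] at ha he ⊢
    exact L3 u b hFl hc hu ha he)
  obtain ⟨δ, hδ, h3⟩ := Metric.eventually_nhds_iff.1 (h1.and h2)
  obtain ⟨r, hr1, hr2⟩ := hbad.exists_small 0 (lt_min hε hδ)
  rw [sub_zero] at hr2
  obtain ⟨h4, h5⟩ := h3 (y := r) (by
    rw [dist_zero_right]
    exact hr2.trans_le (min_le_right _ _))
  exact ⟨r, hr1, hr2.trans_le (min_le_left _ _), h4, h5⟩

/-- **V2**: the last generic perturbation.  `T φ j u b` is the tower `A_j(u, b)` of `φ`, `spec` is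
the classification of the regular flags, `Rel u x` means `x ∈ ℝ [h₀, u]`, `re` is the first part of
the RE lemma, the last four hypotheses are the generic statements (G1), (G2), (M1), (M3) for the
joint family `f`. -/
theorem v2_exists (hN : NData g h m Q P) (hC : Cas g h m Q P h0 B c)
    (hv : PhiN h m P v) (hvH : InvH H v) (hf : ∀ i, PhiN h m P (f i)) (hfH : ∀ i, InvH H (f i))
    {V : Set m} (hV : IsClosed V) {s : ℝ} (hs1 : s < 1)
    (L1 : ∀ u b : m, Flag Q u b → s ≤ |c u| → al P h0 v u b = 0 → 0 < T3F Q P v u b)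
    (L3 : ∀ u b : m, Flag Q u b → |c u| = s → u ∈ V → al P h0 v u b = 0 → ee Q P v u = 0 →
      0 < al' P h0 v u b)
    {Gen Odd : m → Prop} {Rel : m → m → Prop} {T : (m → ℝ) → ℕ → m → m → ℝ} {n N : ℕ}
    (hT : ∀ (φ : m → ℝ) (u b : m), T φ 0 u b = al P h0 φ u b)
    (spec : ∀ u b : m, Flag Q u b → Q (B u) b ≠ 0 → Gen u ∨ (u ∈ V ∧ Odd u))
    (re : ∀ φ : m → ℝ, PhiN h m P φ → InvH H φ → ∀ u b : m, Flag Q u b → Q (B u) b ≠ 0 →
      Rel u (ee Q P φ u) → ee Q P φ u = 0)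
    (G1 : Negl {r : κ → ℝ | ∃ u b : m, Flag Q u b ∧ Gen u ∧
      ¬ Rel u (ee Q P (fun w => linF v f (r, w)) u) ∧
      ∀ j < n, T (fun w => linF v f (r, w)) j u b = 0})
    (G2 : Negl {r : κ → ℝ | ∃ u b : m, Flag Q u b ∧ (u ∈ V ∧ Odd u) ∧
      ee Q P (fun w => linF v f (r, w)) u ≠ 0 ∧
      ∀ j < n, T (fun w => linF v f (r, w)) j u b = 0})
    (M1 : Negl {r : κ → ℝ | ∃ u b : m, Flag Q u b ∧ |c u| ≤ s ∧
      ∀ j, 1 ≤ j → j ≤ N → aW P h0 B (fun w => linF v f (r, w)) j u = 0})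
    (M3 : Negl {r : κ → ℝ | ∃ u b : m, Flag Q u b ∧ Gen u ∧ |c u| = s ∧
      ee Q P (fun w => linF v f (r, w)) u = 0}) {ε : ℝ} (hε : 0 < ε) :
    ∃ r : κ → ℝ, ‖r‖ < ε ∧ ∃ v2 : m → ℝ, (v2 = fun w => linF v f (r, w)) ∧
      PhiN h m P v2 ∧ InvH H v2 ∧
      (∀ u b : m, Flag Q u b → s ≤ |c u| → al P h0 v2 u b = 0 → 0 < T3F Q P v2 u b) ∧
      (∀ u b : m, Flag Q u b → |c u| = s → u ∈ V → al P h0 v2 u b = 0 → ee Q P v2 u = 0 →
        0 < al' P h0 v2 u b) ∧
      (∀ u b : m, Flag Q u b → |c u| ≤ s → ∃ j, 1 ≤ j ∧ j ≤ N ∧ aW P h0 B v2 j u ≠ 0) ∧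
      (∀ u b : m, Flag Q u b → |c u| = s → al P h0 v2 u b = 0 →
        0 < al' P h0 v2 u b ∨ ∃ j, 1 ≤ j ∧ j < n ∧ T v2 j u b ≠ 0) := by
  obtain ⟨r, hr1, hr2, h1, h2⟩ := sel_exists (h0 := h0) (c := c) (f := f) hN hC hv.smooth
    (fun i => (hf i).smooth) (C := {x : ℝ | s ≤ |x|}) (C' := {x : ℝ | |x| = s})
    (isClosed_le continuous_const continuous_abs) (isClosed_eq continuous_abs continuous_const)
    hV L1 L3 (((G1.union G2).union M1).union M3) hε
  simp only [Set.mem_union, not_or] at hr1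
  obtain ⟨⟨⟨n1, n2⟩, n3⟩, n4⟩ := hr1
  have p1 := linF_phiN hv hf r
  have p2 := linF_invH hvH hfH r
  refine ⟨r, hr2, _, rfl, p1, p2, h1, h2, ?_, ?_⟩
  · intro u b hFl hc
    by_contra hcon
    refine n3 ⟨u, b, hFl, hc, fun j h3 h4 => ?_⟩
    by_contra h5
    exact hcon ⟨j, h3, h4, h5⟩
  · intro u b hFl hc ha
    by_cases ha' : 0 < al' P h0 (fun w => linF v f (r, w)) u b
    · exact Or.inl ha'
    right
    have hw : Q (B u) b ≠ 0 := by
      intro hw
      have h3 := hC.cw u b hFl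
      rw [hw, ← sq_abs, hc] at h3
      have h4 : 0 ≤ s := hc ▸ abs_nonneg _
      nlinarith
    by_contra hcon
    have h6 : ∀ j < n, T (fun w => linF v f (r, w)) j u b = 0 := by
      intro j hj
      rcases Nat.eq_zero_or_pos j with h7 | h7
      · rw [h7, hT]; exact ha
      · by_contra h8
        exact hcon ⟨j, h7, hj, h8⟩
    rcases spec u b hFl hw with hg | hg
    · have he : ee Q P (fun w => linF v f (r, w)) u ≠ 0 := fun he => n4 ⟨u, b, hFl, hg, hc, he⟩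
      exact n1 ⟨u, b, hFl, hg, fun ht => he (re _ p1 p2 u b hFl hw ht), h6⟩
    · refine n2 ⟨u, b, hFl, hg, fun he => ha' (h2 u b hFl hc hg.1 ha he), h6⟩

end Pool.Agent.FL
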