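import Pool.Agent.FL.Lev1
import Pool.Agent.FL.V2

/-!
# MP_f09395_gt, space (1): selection of the parameter at the walls (abstract part)
-/

set_option linter.unusedSectionVars false

noncomputable section

namespace Pool.Agent.FL.Lev

open scoped ContDiff
open Pool.Agent.Helper93.Fin Pool.Agent.helper79.FP Pool.Agent.helper79.FR
open Pool.Agent.helper75.FL Pool.Agent.helper90.FL
open Filter Topology

variable {𝔸 : Type*} [NormedRing 𝔸] [NormedAlgebra ℝ 𝔸] [FiniteDimensional ℝ 𝔸]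
variable {g h m : Submodule ℝ 𝔸} {Q : 𝔸 →ₗ[ℝ] 𝔸 →ₗ[ℝ] ℝ} {P : 𝔸 →L[ℝ] m} {v n q : m → ℝ}
variable {h0 : 𝔸} {B : m → 𝔸} {c : m → ℝ} {H : Subgroup 𝔸ˣ} {u b : m}
variable {κ : Type*} [Fintype κ] {f : κ → m → ℝ}

/-- the wall flags are compact -/
theorem wall_compact (hN : NData g h m Q P) (hC : Cas g h m Q P h0 B c) :
    IsCompact {p : m × m | Flag Q p.1 p.2 ∧ Q (B p.1) p.2 = 0} :=
  closed_sub (flagSet_compact hN) (w_cont hC fun _ hp => flag_ne hN hp)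
    (isClosed_singleton (x := (0 : ℝ)))

/-- **selection of a small parameter at the walls** -/
theorem wall_sel (hN : NData g h m Q P)
    (hv : ContDiffOn ℝ ∞ v {0}ᶜ) (hf : ∀ i, ContDiffOn ℝ ∞ (f i) {0}ᶜ)
    {K1 K2 K4 : Set (m × m)} (hK1 : IsCompact K1) (hK2 : IsCompact K2) (hK4 : IsCompact K4)
    (n1 : ∀ p ∈ K1, p.1 ≠ 0) (n2 : ∀ p ∈ K2, p.1 ≠ 0) (n4 : ∀ p ∈ K4, p.1 ≠ 0)
    (p1 : ∀ p ∈ K1, al P h0 v p.1 p.2 = 0 → 0 < T3F Q P v p.1 p.2)
    (p2 : ∀ p ∈ K2, al P h0 v p.1 p.2 = 0 → ee Q P v p.1 = 0 → 0 < T3F Q P v p.1 p.2)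
    (p4 : ∀ p ∈ K4, al P h0 v p.1 p.2 = 0 → ee Q P v p.1 = 0 → 0 < al' P h0 v p.1 p.2)
    {bad : Set (κ → ℝ)} (hbad : Negl bad) {ε : ℝ} (hε : 0 < ε) :
    ∃ r : κ → ℝ, r ∉ bad ∧ ‖r‖ < ε ∧
      (∀ p ∈ K1, al P h0 (fun w => linF v f (r, w)) p.1 p.2 = 0 →
        0 < T3F Q P (fun w => linF v f (r, w)) p.1 p.2) ∧
      (∀ p ∈ K2, al P h0 (fun w => linF v f (r, w)) p.1 p.2 = 0 →
        ee Q P (fun w => linF v f (r, w)) p.1 = 0 →
        0 < T3F Q P (fun w => linF v f (r, w)) p.1 p.2) ∧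
      ∀ p ∈ K4, al P h0 (fun w => linF v f (r, w)) p.1 p.2 = 0 →
        ee Q P (fun w => linF v f (r, w)) p.1 = 0 →
        0 < al' P h0 (fun w => linF v f (r, w)) p.1 p.2 := by
  have hF := linF_smooth hv hf
  have e1 := par_T3F_open (h0 := h0) hN hF hK1 n1 (p₀ := 0) (fun p hp ha => by
    rw [linF_zero] at ha ⊢
    exact p1 p hp ha)
  have key : ∀ {K : Set (m × m)}, IsCompact K → (∀ p ∈ K, p.1 ≠ 0) →
      ∀ {T : (κ → ℝ) × (m × m) → ℝ}, ContinuousOn T (Set.univ ×ˢ K) →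
      (∀ p ∈ K, al P h0 v p.1 p.2 = 0 → ee Q P v p.1 = 0 → 0 < T (0, p)) →
      ∀ᶠ r in 𝓝 (0 : κ → ℝ), ∀ p ∈ K, al P h0 (fun w => linF v f (r, w)) p.1 p.2 = 0 →
        ee Q P (fun w => linF v f (r, w)) p.1 = 0 → 0 < T (r, p) := by
    intro K hK hne T hT h0'
    have h1 := par_open' (κ := Unit) hK (p₀ := (0 : κ → ℝ)) (σ := Bool)
      (A := fun i z => if i then al P h0 (fun w => linF v f (z.1, w)) z.2.1 z.2.2
        else ‖ee Q P (fun w => linF v f (z.1, w)) z.2.1‖) (T := fun _ z => T z)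
      (fun i => by
        cases i
        · simpa using (Lev.par_ee_cont hN hF hne).norm
        · simpa using par_al_cont hF hne)
      (fun _ => hT) (fun p hp hA => ⟨(), by
        have a1 := hA true
        have a2 := hA false
        simp only [if_true, Bool.false_eq_true, if_false, norm_eq_zero] at a1 a2
        rw [linF_zero] at a1 a2
        exact h0' p hp a1 a2⟩)
    filter_upwards [h1] with r hr p hp a1 a2
    obtain ⟨-, h2⟩ := hr p hp (fun i => by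
      cases i
      · simp [a2]
      · simpa using a1)
    exact h2
  have e2 := key hK2 n2 (par_T3F_cont hN hF n2) (fun p hp a1 a2 => by
    simp only [linF_zero]
    exact p2 p hp a1 a2)
  have e4 := key hK4 n4 (par_al'_cont (P := P) (h0 := h0) hF n4) (fun p hp a1 a2 => by
    simp only [linF_zero]
    exact p4 p hp a1 a2)
  obtain ⟨δ, hδ, h3⟩ := Metric.eventually_nhds_iff.1 (e1.and (e2.and e4))
  obtain ⟨r, hr1, hr2⟩ := hbad.exists_small 0 (lt_min hε hδ)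
  rw [sub_zero] at hr2
  obtain ⟨h4, h5, h6⟩ := h3 (y := r) (by
    rw [dist_zero_right]
    exact hr2.trans_le (min_le_right _ _))
  exact ⟨r, hr1, hr2.trans_le (min_le_left _ _), h4, h5, h6⟩

end Pool.Agent.FL.Lev
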