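import Pool.Agent.FL.S1Hub2
import Pool.Agent.FL.WallSel

/-!
# MP_f09395_gt, space (1): the wall step (glue)

`wall_core`: from the explicit function (structure `EXPL`), the genericity statements G1-G4, the
lemma S7o and the theorem KW to the function `v1` of section 3.  All ingredients are hypotheses.
-/

set_option linter.unusedSectionVars false

noncomputable section

namespace Pool.Agent.FL.S1

open scoped ContDiff Quaternion Matrix ComplexConjugate
open Pool.Agent.Helper93.Fin Pool.Agent.helper79.FP Pool.Agent.helper79.FR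
open Pool.Agent.helper79.FR.Sp2 (Mat QQ h0 m gg hh PP BB cc)
open Pool.Agent.FL
open Pool.Agent.FL.Wall (ef EE LamE LamW)
open Pool.Agent.helper90.FL (Negl)
open Filter Topology

attribute [local instance] Matrix.linftyOpNormedRing Matrix.linftyOpNormedAlgebra

/-! ### cut-off functions -/

theorem I0_comp {s : V → ℝ} (hs : I0 s) {l : ℝ → ℝ} (hl : ContDiff ℝ ∞ l) :
    I0 (fun u => l (s u)) :=
  ⟨hl.comp_contDiffOn hs.smooth, fun r u hr => by simp only [hs.hom r u hr],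
    fun k hk u u' huu => by simp only [hs.inv k hk u u' huu]⟩

theorem I0_contAt {s : V → ℝ} (hs : I0 s) {u : V} (hu : u ≠ 0) : ContinuousAt s u :=
  hs.smooth.continuousOn.continuousAt (isOpen_compl_singleton.mem_nhds hu)

/-- the cut-off function: zero for `ρ ≤ 1/2`, one for `ρ ≥ 3/4` -/
def stp (ρ : V → ℝ) (u : V) : ℝ := Real.smoothTransition (4 * (ρ u - 1 / 2))

/-- the cut-off function: zero for `ρ ≤ 1/2`, positive for `ρ > 1/2` -/
def stq (ρ : V → ℝ) (u : V) : ℝ := Real.smoothTransition (ρ u - 1 / 2)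

theorem stp_I0 {ρ : V → ℝ} (hρ : I0 ρ) : I0 (stp ρ) :=
  I0_comp (l := fun t => Real.smoothTransition (4 * (t - 1 / 2))) hρ
    (Real.smoothTransition.contDiff.comp (by fun_prop))

theorem stq_I0 {ρ : V → ℝ} (hρ : I0 ρ) : I0 (stq ρ) :=
  I0_comp (l := fun t => Real.smoothTransition (t - 1 / 2)) hρ
    (Real.smoothTransition.contDiff.comp (by fun_prop))

theorem stq_nonneg (ρ : V → ℝ) (u : V) : 0 ≤ stq ρ u := Real.smoothTransition.nonneg _

theorem stq_pos {ρ : V → ℝ} {u : V} (h : 1 / 2 < ρ u) : 0 < stq ρ u :=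
  Real.smoothTransition.pos_of_pos (by linarith)

theorem stp_zero {ρ : V → ℝ} (hρ : I0 ρ) {u : V} (hu : u ≠ 0) (h : ρ u < 1 / 2) :
    stp ρ =ᶠ[𝓝 u] fun _ => 0 := by
  filter_upwards [(I0_contAt hρ hu).eventually_lt_const h] with z hz
  exact Real.smoothTransition.zero_of_nonpos (by linarith)

theorem stq_zero {ρ : V → ℝ} (hρ : I0 ρ) {u : V} (hu : u ≠ 0) (h : ρ u < 1 / 2) :
    stq ρ =ᶠ[𝓝 u] fun _ => 0 := by
  filter_upwards [(I0_contAt hρ hu).eventually_lt_const h] with z hz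
  exact Real.smoothTransition.zero_of_nonpos (by linarith)

theorem stp_one {ρ : V → ℝ} (hρ : I0 ρ) {u : V} (hu : u ≠ 0) (h : 3 / 4 < ρ u) :
    stp ρ =ᶠ[𝓝 u] fun _ => 1 := by
  filter_upwards [(I0_contAt hρ hu).eventually_const_lt h] with z hz
  exact Real.smoothTransition.one_of_one_le (by linarith)

theorem pt_eq (v χ : V → ℝ) (p : FI → ℝ) :
    (fun u : V => linF v (fun k u => χ u * fam k u) (p, u)) = pt v χ p := rfl

theorem cfam_Ph (hfam : ∀ k, Ph (fam k)) {χ : V → ℝ} (hχ : I0 χ) (k : FI) :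
    Ph (fun u => χ u * fam k u) :=
  let h := phiN_mul nD gD hχ (hfam k).phi (hfam k).inv
  ⟨h.1, h.2⟩

theorem pt_Ph_of (hfam : ∀ k, Ph (fam k)) {v χ : V → ℝ} (hv : Ph v) (hχ : I0 χ) (p : FI → ℝ) :
    Ph (pt v χ p) := by
  rw [← pt_eq]
  exact ⟨linF_phiN hv.phi (fun k => (cfam_Ph hfam hχ k).phi) p,
    linF_invH hv.inv (fun k => (cfam_Ph hfam hχ k).inv) p⟩

/-! ### closed strata -/

theorem Spec_closed : IsClosed {u : V | Spec u} := by
  have k0 : Continuous (fun u : V => c0 u) := c0.continuous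
  have kP : Continuous (fun u : V => cP u) := cP.continuous
  have kR : Continuous (fun u : V => cR u) := cR.continuous
  have kC : Continuous (fun u : V => cC u) := cC.continuous
  have kQ : Continuous (fun u : V => cQ u) := cQ.continuous
  have z0 := isClosed_eq k0 continuous_const (f := fun u : V => c0 u) (g := fun _ => (0 : ℝ))
  have zP := isClosed_eq kP continuous_const (f := fun u : V => cP u) (g := fun _ => (0 : ℂ))
  have zR := isClosed_eq kR continuous_const (f := fun u : V => cR u) (g := fun _ => (0 : ℂ))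
  have zC := isClosed_eq kC continuous_const (f := fun u : V => cC u) (g := fun _ => (0 : ℂ))
  have zQ := isClosed_eq kQ continuous_const (f := fun u : V => cQ u) (g := fun _ => (0 : ℂ))
  have w1 : IsClosed {u : V | 10 * c0 u ^ 2 = 5 / 8} :=
    isClosed_eq (continuous_const.mul (k0.pow 2)) continuous_const
  have w2 : IsClosed {u : V | 10 * c0 u ^ 2 = 5 / 9} :=
    isClosed_eq (continuous_const.mul (k0.pow 2)) continuous_const
  exact (z0.inter (zP.inter (zR.inter zC))).union ((zP.inter (zR.inter (zC.inter w1))).union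
    ((zP.inter (zC.inter (zQ.inter w2))).union (z0.inter (zP.inter (zC.inter zQ)))))

theorem Od_closed : IsClosed {u : V | Od u} :=
  (isClosed_eq c0.continuous continuous_const).inter
    (isClosed_eq cQ.continuous continuous_const)

theorem Wl_ne {u b : V} (h : Fl u b) : u ≠ 0 := by
  intro h0
  have h1 := h.1
  rw [h0] at h1
  simp at h1

/-! ### the wall step -/

/-- **the wall step** -/
theorem wall_core {ve ρ : V → ℝ} {κ : ℝ} (E : EXPL ve ρ κ)
    (hfam : ∀ k, Ph (fam k))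
    (hSPEC : ∀ {u b : V}, Fl u b → Gen u ∨ Od' u ∨ (QQ (BB 1 3 u) (b : Mat) = 0 ∧ Spec u))
    (hS7o : ∀ {v : V → ℝ}, Ph v → ∀ {u b : V}, Wl u b → alf v u b = 0 → eu v u = 0 →
      ∀ j : ℕ, Aj v j u (b : Mat) = 0)
    (hG1 : ∀ {v χ : V → ℝ}, Ph v → I0 χ →
      Negl {p : FI → ℝ | ∃ u b, Fl u b ∧ (χ =ᶠ[𝓝 u] fun _ => 1) ∧ Gen u ∧
        (∀ r : ℝ, eu (pt v χ p) u ≠ r • rt u) ∧ ∀ j < NT, Aj (pt v χ p) j u (b : Mat) = 0})
    (hG2 : ∀ {v χ : V → ℝ}, Ph v → I0 χ →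
      Negl {p : FI → ℝ | ∃ u b, Fl u b ∧ (χ =ᶠ[𝓝 u] fun _ => 1) ∧ Od' u ∧
        eu (pt v χ p) u ≠ 0 ∧ ∀ j < NT, Aj (pt v χ p) j u (b : Mat) = 0})
    (hG3 : ∀ {v χ : V → ℝ}, Ph v → I0 χ →
      Negl {p : FI → ℝ | ∃ u b, Wl u b ∧ (χ =ᶠ[𝓝 u] fun _ => 1) ∧ Gen u ∧
        eu (pt v χ p) u = 0})
    (hG4 : ∀ {v χ : V → ℝ}, Ph v → I0 χ →
      Negl {p : FI → ℝ | ∃ u b, Wl u b ∧ (χ =ᶠ[𝓝 u] fun _ => 1) ∧ Gen u ∧
        alf (pt v χ p) u b = 0 ∧ (∃ r : ℝ, r ≠ 0 ∧ eu (pt v χ p) u = r • rt u) ∧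
        Aj (pt v χ p) 1 u (b : Mat) = 0})
    (hKW : ∀ {v ζ : V → ℝ}, Ph v → I0 ζ → (∀ u, 0 ≤ ζ u) →
      (∀ u b, Wl u b → alf v u b = 0 → 0 < T3 v u b ∨
        (0 < ζ u ∧ ∃ j, 1 ≤ j ∧ j < NT ∧ Aj v j u (b : Mat) ≠ 0)) →
      ∃ v' : V → ℝ, Ph v' ∧ (∀ u, u ≠ 0 → (ζ =ᶠ[𝓝 u] fun _ => 0) → v' =ᶠ[𝓝 u] v) ∧
        (∀ u b, Wl u b → alf v' u b = 0 → 0 < T3 v' u b) ∧
        (∀ u b, Wl u b → eu v' u = eu v u ∧ alf v' u b = alf v u b) ∧
        (∀ u b, Wl u b → (∀ j < NT, Aj v j u (b : Mat) = 0) → alf' v' u b = alf' v u b)) :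
    ∃ v1, W1 ve ρ v1 := by
  have hχ := stp_I0 E.ρ0
  have hc := Lev.wall_compact nD cD
  have hρc : ContinuousOn (fun p : V × V => ρ p.1)
      {p : V × V | Fl p.1 p.2 ∧ QQ (BB 1 3 p.1) (p.2 : Mat) = 0} := by
    intro p hp
    exact (ContinuousAt.comp (f := fun p : V × V => p.1) (g := ρ) (x := p)
      (I0_contAt E.ρ0 (Wl_ne hp.1)) continuousAt_fst).continuousWithinAt
  have hfst : ContinuousOn (fun p : V × V => p.1)
      {p : V × V | Fl p.1 p.2 ∧ QQ (BB 1 3 p.1) (p.2 : Mat) = 0} := continuous_fst.continuousOn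
  have hsnd : ContinuousOn (fun p : V × V => p.2)
      {p : V × V | Fl p.1 p.2 ∧ QQ (BB 1 3 p.1) (p.2 : Mat) = 0} := continuous_snd.continuousOn
  -- compact sets
  have hK1 := (Lev.closed_sub hc hfst Spec_closed).union
    (Lev.closed_sub hc hρc (isClosed_Iic (a := (1 : ℝ))))
  have hK2 := Lev.closed_sub hc hfst Od_closed
  have hK4 := (Lev.closed_sub hc hfst Od_closed).inter ((Lev.closed_sub hc hsnd Od_closed).inter
    (Lev.closed_sub hc hρc (isClosed_Ici (a := (1 / 4 : ℝ)))))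
  obtain ⟨r, hbad, -, q1, q2, q4⟩ := Lev.wall_sel (h0 := h0 1 3) (P := PP 1 3) nD E.ph.phi.smooth
    (f := fun k u => stp ρ u * fam k u) (fun k => (cfam_Ph hfam hχ k).phi.smooth) hK1 hK2 hK4
    (fun p hp => by
      rcases hp with hp | hp
      · exact Wl_ne hp.1.1
      · exact Wl_ne hp.1.1)
    (fun p hp => Wl_ne hp.1.1) (fun p hp => Wl_ne hp.1.1.1)
    (fun p hp ha => by
      rcases hp with hp | hp
      · exact E.p1 _ _ hp.1 hp.2
      · exact E.p3' _ _ hp.1 hp.2 ha)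
    (fun p hp ha he => E.p2 _ _ hp.1 hp.2 ha he)
    (fun p hp ha he => by
      rcases E.p4 _ _ hp.1.1 hp.1.2 hp.2.1.2 ha he with h | h
      · have h2 : (1 / 4 : ℝ) ≤ ρ p.1 := hp.2.2.2
        linarith
      · exact h)
    ((hG1 E.ph hχ).union ((hG2 E.ph hχ).union ((hG3 E.ph hχ).union (hG4 E.ph hχ))))
    (ε := 1) one_pos
  rw [pt_eq] at q1 q2 q4
  have hv := pt_Ph_of hfam E.ph hχ r
  set w := pt ve (stp ρ) r with hw
  simp only [Set.mem_union, not_or] at hbad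
  obtain ⟨n1, n2, n3, n4⟩ := hbad
  obtain ⟨v', hv', k1, k2, k3, k4⟩ := hKW hv (stq_I0 E.ρ0) (stq_nonneg ρ) (by
    intro u b hub ha
    have hu := Wl_ne hub.1
    by_cases hsp : Spec u
    · exact Or.inl (q1 (u, b) (Or.inl ⟨hub, hsp⟩) ha)
    by_cases hρ : ρ u ≤ 1
    · exact Or.inl (q1 (u, b) (Or.inr ⟨hub, hρ⟩) ha)
    push Not at hρ
    have hone := stp_one E.ρ0 hu (by linarith)
    have hA0 : Aj w 0 u (b : Mat) = 0 :=
      (Wall.LamW_apply (P := PP 1 3) (h0 := h0 1 3) (f := w) u (b : Mat)).trans ha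
    have step : (¬ ∀ j < NT, Aj w j u (b : Mat) = 0) →
        ∃ j, 1 ≤ j ∧ j < NT ∧ Aj w j u (b : Mat) ≠ 0 := by
      intro h
      push Not at h
      obtain ⟨j, hj, hj2⟩ := h
      refine ⟨j, ?_, hj, hj2⟩
      rcases Nat.eq_zero_or_pos j with h0 | h0
      · rw [h0] at hj2
        exact absurd hA0 hj2
      · exact h0
    rcases hSPEC hub.1 with hg | ho | hs
    · by_cases he : ∃ t : ℝ, eu w u = t • rt u
      · obtain ⟨t, ht⟩ := he
        rcases eq_or_ne t 0 with h0 | h0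
        · rw [h0, zero_smul] at ht
          exact absurd ⟨u, b, hub, hone, hg, ht⟩ n3
        · refine Or.inr ⟨stq_pos (by linarith), 1, le_rfl, by unfold NT; norm_num, fun h1 => ?_⟩
          exact n4 ⟨u, b, hub, hone, hg, ha, ⟨t, h0, ht⟩, h1⟩
      · push Not at he
        refine Or.inr ⟨stq_pos (by linarith), step fun h1 => ?_⟩
        exact n1 ⟨u, b, hub.1, hone, hg, he, h1⟩
    · by_cases he : eu w u = 0
      · exact Or.inl (q2 (u, b) ⟨hub, ho.1⟩ ha he)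
      · refine Or.inr ⟨stq_pos (by linarith), step fun h1 => ?_⟩
        exact n2 ⟨u, b, hub.1, hone, ho, he, h1⟩
    · exact absurd hs.2 hsp)
  refine ⟨v', hv', ?_, k2, ?_⟩
  · intro u hu hρ
    have h1 := k1 u hu (stq_zero E.ρ0 hu hρ)
    refine h1.trans ?_
    filter_upwards [stp_zero E.ρ0 hu hρ] with z hz
    rw [hw, pt, hz]
    simp
  · intro u b hub hu hb ha he
    rcases lt_or_ge (ρ u) (1 / 4) with h1 | h1
    · exact Or.inl h1
    right
    obtain ⟨e1, e2⟩ := k3 u b hub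
    rw [e2] at ha
    rw [e1] at he
    rw [k4 u b hub fun j _ => hS7o hv hub ha he j]
    exact q4 (u, b) ⟨⟨hub, hu⟩, ⟨hub, hb⟩, hub, h1⟩ ha he

end Pool.Agent.FL.S1
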