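import Pool.Agent.FL.S1E2p
import Pool.Agent.FL.S1Hub

/-!
# MP_f09395_gt, space (1), X4b: the flags over `e₂'` with `α = 0`
-/

set_option linter.unusedSectionVars false

noncomputable section

namespace Pool.Agent.FL.S1

open scoped ContDiff Quaternion Matrix ComplexConjugate
open Pool.Agent.Helper93.Fin Pool.Agent.helper79.FP Pool.Agent.helper79.FR
open Pool.Agent.helper79.FR.Sp2 (Mat QQ h0 m gg hh PP BB cc)
open Pool.Agent.FL

attribute [local instance] Matrix.linftyOpNormedRing Matrix.linftyOpNormedAlgebra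

namespace X4bF

/-- the functional `w ↦ D² M (b₀, w)` at `e₂'`, `be` stands for `-2 κ a³` -/
def Mb (κ a be : ℝ) (w : V) : ℝ :=
  a * (cP w).re - be * (cC w).im + κ * ((-5 * a ^ 2 * be + 2 * be ^ 3) * (cP w).re
    + (a ^ 2 * be + 2 * be ^ 3) * (cR w).re + (4 * a ^ 3 + 8 * a * be ^ 2) * (cC w).im
    - 8 * a * be ^ 3 * QQ (e2p κ a : Mat) w)

/-- the functional `w ↦ D² M (b₀, w)` at `e₂'` -/
def Mm (κ a : ℝ) (w : V) : ℝ := Mb κ a (-2 * κ * a ^ 3) w

theorem QQ_e2p (κ a : ℝ) (w : V) : QQ (e2p κ a : Mat) w =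
    a * (cP w).re + a * (cR w).re + 2 * ((-2 * κ * a ^ 3) * (cC w).im) := by
  rw [QQ_coords]
  simp only [e2p, c0_mk, cP_mk, cR_mk, cC_mk, cQ_mk, rip, Complex.mul_re, Complex.mul_im,
    Complex.ofReal_re, Complex.ofReal_im, Complex.I_re, Complex.I_im, Complex.zero_re,
    Complex.zero_im]
  ring

theorem QQ_e2b (κ a : ℝ) (w : V) : QQ (e2b κ a : Mat) w =
    (-2 * κ * a ^ 3) * (cP w).im - (-2 * κ * a ^ 3) * (cR w).im + 2 * (a * (cC w).re) := by
  rw [QQ_coords]
  simp only [e2b, c0_mk, cP_mk, cR_mk, cC_mk, cQ_mk, rip, Complex.mul_re, Complex.mul_im,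
    Complex.ofReal_re, Complex.ofReal_im, Complex.I_re, Complex.I_im, Complex.zero_re,
    Complex.zero_im, Complex.neg_re, Complex.neg_im]
  ring

theorem rt_P (X : V) : cP (rt X) = 2 * Complex.I * cP X := by rw [rt_eq, cP_mk]
theorem rt_R (X : V) : cR (rt X) = 6 * Complex.I * cR X := by rw [rt_eq, cR_mk]
theorem rt_C (X : V) : cC (rt X) = -2 * Complex.I * cC X := by rw [rt_eq, cC_mk]

/-- `D² M (b₀, [h₀, b₀])` -/
theorem rtb (κ a : ℝ) : Mm κ a (rt (e2b κ a)) = -8 * κ * (a ^ 4 - (-2 * κ * a ^ 3) ^ 4) := by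
  unfold Mm Mb
  rw [QQ_e2p, rt_P, rt_R, rt_C]
  simp only [e2b, cP_mk, cR_mk, cC_mk, Complex.mul_re, Complex.mul_im, Complex.ofReal_re,
    Complex.ofReal_im, Complex.I_re, Complex.I_im, Complex.neg_re, Complex.neg_im,
    Complex.re_ofNat, Complex.im_ofNat]
  ring

/-- the equations of the flags over `e₂'` -/
theorem eqs {a be : ℝ} (ha : a ≠ 0) (hb : be ≠ 0) {b : V}
    (hc : ⁅(mkV 0 (a : ℂ) (a : ℂ) ((be : ℂ) * Complex.I) 0 : Mat), (b : Mat)⁆ = 0)
    (hub : QQ (mkV 0 (a : ℂ) (a : ℂ) ((be : ℂ) * Complex.I) 0 : Mat) b = 0) :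
    c0 b = 0 ∧ cQ b = 0 ∧ (cC b).im = 0 ∧ (cR b).re = -(cP b).re ∧ (cR b).im = -(cP b).im ∧
      be * (cC b).re = a * (cP b).im := by
  rw [lie_eq_zero_iff] at hc
  obtain ⟨hc, hh⟩ := hc
  have hP := congrArg cP hc
  have hR := congrArg cR hc
  have hQ := congrArg cQ hc
  have h0' := congrArg c0 hc
  rw [br_P, map_zero] at hP
  rw [br_R, map_zero] at hR
  rw [br_Q, map_zero] at hQ
  rw [br_0, map_zero] at h0'
  rw [br_h] at hh
  rw [QQ_coords] at hub
  simp only [c0_mk, cP_mk, cR_mk, cC_mk, cQ_mk, rip, imp] at hP hR hQ h0' hh hub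
  generalize cP b = P' at *
  generalize cR b = R' at *
  generalize cC b = C' at *
  generalize cQ b = Q' at *
  generalize c0 b = z at *
  have hPi := congrArg Complex.im hP
  have hPr := congrArg Complex.re hP
  have hRi := congrArg Complex.im hR
  have hQr := congrArg Complex.re hQ
  have hQi := congrArg Complex.im hQ
  simp only [Complex.add_im, Complex.add_re, Complex.sub_im, Complex.sub_re, Complex.mul_re,
    Complex.mul_im, Complex.neg_re, Complex.neg_im, Complex.I_re, Complex.I_im, Complex.ofReal_re,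
    Complex.ofReal_im, Complex.conj_re, Complex.conj_im, Complex.zero_re, Complex.zero_im,
    Complex.re_ofNat, Complex.im_ofNat] at hPi hPr hRi hQr hQi h0' hh hub
  have z0 : z = 0 := by
    have : a * z = 0 := by linear_combination (1 / 8 : ℝ) * hPi - (1 / 8 : ℝ) * hRi
    exact (mul_eq_zero.1 this).resolve_left ha
  have q1 : Q'.re = 0 := by
    rw [z0] at hPi
    have : be * Q'.re = 0 := by linear_combination (1 / 2 : ℝ) * hPi
    exact (mul_eq_zero.1 this).resolve_left hb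
  have q2 : Q'.im = 0 := by
    rw [z0] at hPr
    have : be * Q'.im = 0 := by linear_combination (-1 / 2 : ℝ) * hPr
    exact (mul_eq_zero.1 this).resolve_left hb
  have s1 : P'.im + R'.im = 0 := by
    have : be * (P'.im + R'.im) = 0 := by linear_combination -hQr
    exact (mul_eq_zero.1 this).resolve_left hb
  have s2 : be * (P'.re + R'.re) = 2 * a * C'.im := by linear_combination hQi
  have s3 : C'.im = 0 := by
    have h1 : (a ^ 2 + be ^ 2) * C'.im = 0 := by
      linear_combination (-a / 2) * s2 + (be / 2) * hub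
    have h2 : a ^ 2 + be ^ 2 ≠ 0 := by positivity
    exact (mul_eq_zero.1 h1).resolve_left h2
  have s4 : P'.re + R'.re = 0 := by
    rw [s3, mul_zero] at s2
    exact (mul_eq_zero.1 s2).resolve_left hb
  refine ⟨z0, Complex.ext q1 q2, s3, by linarith, by linarith, ?_⟩
  linear_combination (1 / 4 : ℝ) * hh - (3 / 2 * a) * s1

/-- **the flags over `e₂'` with `α = 0`** -/
theorem flag {κ a : ℝ} (ha : 0 < a) (hk : κ ≠ 0) (hn : 2 * a ^ 2 + 2 * (2 * κ * a ^ 3) ^ 2 = 1)
    {b : V} (hF : Fl (e2p κ a) b) (hal : QQ (e2b κ a : Mat) (rt b) = 0) :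
    b = e2b κ a ∨ b = -e2b κ a := by
  obtain ⟨-, hbb, hub, hc⟩ := hF
  have hbe : (-2 * κ * a ^ 3) ≠ 0 := mul_ne_zero (mul_ne_zero (by norm_num) hk)
    (pow_ne_zero 3 ha.ne')
  obtain ⟨be, hbed⟩ : ∃ be : ℝ, be = -2 * κ * a ^ 3 := ⟨_, rfl⟩
  have e1 : e2p κ a = mkV 0 (a : ℂ) (a : ℂ) ((be : ℂ) * Complex.I) 0 := by rw [hbed]; rfl
  have e2 : e2b κ a = mkV 0 ((be : ℂ) * Complex.I) (-((be : ℂ) * Complex.I)) (a : ℂ) 0 := by
    rw [hbed]; rfl
  have hn' : 2 * a ^ 2 + 2 * be ^ 2 = 1 := by rw [hbed]; linear_combination hn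
  rw [QQ_e2b, rt_P, rt_R, rt_C, ← hbed] at hal
  rw [← hbed] at hbe
  rw [e1] at hc hub
  obtain ⟨h1, h2, h3, h4, h5, h6⟩ := eqs ha.ne' hbe hc hub
  simp only [Complex.mul_re, Complex.mul_im, Complex.I_re, Complex.I_im, Complex.neg_re,
    Complex.neg_im, Complex.re_ofNat, Complex.im_ofNat, h3, h4] at hal
  have h7 : (cP b).re = 0 := by
    have : be * (cP b).re = 0 := by linear_combination (1 / 8 : ℝ) * hal
    exact (mul_eq_zero.1 this).resolve_left hbe
  rw [h7, neg_zero] at h4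
  rw [QQ_coords] at hbb
  simp only [rip, h1, h2, h3, h4, h5, h7, Complex.zero_re, Complex.zero_im] at hbb
  have h8 : (cC b).re ^ 2 = a ^ 2 := by
    linear_combination a ^ 2 * hbb + 2 * (be * (cC b).re + a * (cP b).im) * h6
      - (cC b).re ^ 2 * hn'
  have fin : ∀ σ : ℝ, (cC b).re = σ * a → (cP b).im = σ * be ∧ (cR b).im = -(σ * be) := by
    intro σ h9
    have h10 : (cP b).im = σ * be := by
      have : a * ((cP b).im - σ * be) = 0 := by rw [h9] at h6; linear_combination -h6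
      have := (mul_eq_zero.1 this).resolve_left ha.ne'
      linarith
    exact ⟨h10, by rw [h5, h10]⟩
  rw [e2]
  rcases sq_eq_sq_iff_eq_or_eq_neg.1 h8 with h9 | h9
  · left
    obtain ⟨f1, f2⟩ := fin 1 (by rw [h9]; ring)
    rw [one_mul] at f1 f2
    apply ext_coords
    · rw [h1, c0_mk]
    · rw [cP_mk]; apply Complex.ext <;> simp [h7, f1]
    · rw [cR_mk]; apply Complex.ext <;> simp [h4, f2]
    · rw [cC_mk]; apply Complex.ext <;> simp [h9, h3]
    · rw [h2, cQ_mk]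
  · right
    obtain ⟨f1, f2⟩ := fin (-1) (by rw [h9]; ring)
    apply ext_coords
    · rw [h1, map_neg, c0_mk, neg_zero]
    · rw [map_neg, cP_mk]; apply Complex.ext <;> simp [h7, f1]
    · rw [map_neg, cR_mk]; apply Complex.ext <;> simp [h4, f2]
    · rw [map_neg, cC_mk]; apply Complex.ext <;> simp [h9, h3]
    · rw [h2, map_neg, cQ_mk, neg_zero]

end X4bF

end Pool.Agent.FL.S1
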