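import Pool.Agent.FL.S1XF0
import Pool.Agent.FL.S1Hub2
import Pool.Agent.FL.S1S2

/-!
# MP_f09395_gt, space (1), XF: the structure `EXPL` from the properties of the explicit function
-/

set_option linter.unusedSectionVars false

noncomputable section

namespace Pool.Agent.FL.S1

open scoped ContDiff Quaternion Matrix ComplexConjugate
open Pool.Agent.Helper93.Fin Pool.Agent.helper79.FP Pool.Agent.helper79.FR
open Pool.Agent.helper79.FR.Sp2 (Mat QQ h0 m gg hh PP BB cc)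
open Pool.Agent.FL
open Pool.Agent.FL.Wall (ef EE LamE LamW)
open Filter Topology

attribute [local instance] Matrix.linftyOpNormedRing Matrix.linftyOpNormedAlgebra

namespace XF

/-! ### zeros of `gX` -/

/-- classification of the zeros of `gX` -/
theorem gX_zero' {u : V} (hu : u ≠ 0) (h : gX u = 0) :
    (cc 1 3 u = 1 ∧ cP u = 0 ∧ cC u = 0) ∨
    (cc 1 3 u = 1 ∧ ∃ z : ℂ, ‖z‖ = 1 ∧ ∃ p t : ℝ, 0 < p ∧ 3 * t ^ 2 = 1 ∧ Act.rz z u = uT p t) ∨
    (cc 1 3 u = -1 ∧ ∃ z : ℂ, ‖z‖ = 1 ∧ ∃ p t : ℝ, 0 < p ∧ (t = 1 ∨ t = -1) ∧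
      Act.rz z u = uT p t) := by
  obtain ⟨⟨h0, hQ⟩, he, hw, hx⟩ := gX_zero hu h
  rcases equil_wall h0 hQ hu he hw with h1 | h1 | ⟨hc, z, hz, p, t, hp, ht, h1⟩
  · exact Or.inl h1
  · exact Or.inr (Or.inl h1)
  · refine Or.inr (Or.inr ⟨hc, z, hz, p, t, hp, ?_, h1⟩)
    rcases ht with ht | ht
    · exfalso
      have hxx : qx u = 1 / 2 := by
        have h2 : qx (Act.rz z u) = qx u := by
          unfold qx
          rw [nr_rz hz, Act.cP_rz, map_mul, map_pow, ns_one hz, one_pow, one_mul]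
        rw [← h2, h1, qx]
        have h3 : nr (uT p t) = p ^ 2 * (2 - 2 * t ^ 2 + 4 * t ^ 4) := uT_N p t
        rw [h3, ht]
        simp only [uT, cP_mk, Complex.normSq_ofReal]
        have := hp.ne'
        field_simp
        ring
      rcases hx with k | k | k <;> rw [hxx] at k <;> norm_num at k
    · exact ht

theorem qx_uT {p t : ℝ} (hp : p ≠ 0) : qx (uT p t) = 1 / (2 - 2 * t ^ 2 + 4 * t ^ 4) := by
  unfold qx
  have h3 : nr (uT p t) = p ^ 2 * (2 - 2 * t ^ 2 + 4 * t ^ 4) := uT_N p t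
  rw [h3]
  simp only [uT, cP_mk, Complex.normSq_ofReal]
  have h4 := (uT_NP t).ne'
  field_simp

theorem q1_uT (p t : ℝ) : q1 (uT p t) = 0 := by
  simp [q1, uT]

theorem q2_uT (p t : ℝ) : q2 (uT p t) = 0 := by
  simp [q2, uT]

theorem q3_uT (p t : ℝ) : q3 (uT p t) = 0 := by
  unfold q3
  rw [Complex.normSq_eq_zero]
  simp only [uT, cP_mk, cC_mk, cR_mk, Complex.conj_ofReal]
  push_cast
  ring

theorem uT_ne {p t : ℝ} (hp : p ≠ 0) : uT p t ≠ 0 := by
  intro h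
  have h1 : cP (uT p t) = 0 := by rw [h, map_zero]
  simp only [uT, cP_mk] at h1
  exact hp (by exact_mod_cast h1)

/-- value of `gX` on the family -/
theorem gX_uT (p t : ℝ) : gX (uT p t) = (1 - cc 1 3 (uT p t) ^ 2) ^ 2
    + (qx (uT p t) * (qx (uT p t) - 1 / 4) * (qx (uT p t) - 9 / 16)) ^ 2 := by
  unfold gX
  rw [q1_uT, q2_uT, q3_uT]
  simp

theorem gX_uT1 {p t : ℝ} (hp : p ≠ 0) (ht : t = 1 ∨ t = -1) : gX (uT p t) = 0 := by
  have ht2 : t ^ 2 = 1 := by rcases ht with h | h <;> rw [h] <;> norm_num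
  have ht4 : t ^ 4 = 1 := by rw [show t ^ 4 = (t ^ 2) ^ 2 by ring, ht2]; norm_num
  rw [gX_uT, cc_uT' hp, qx_uT hp, ht2, ht4]
  norm_num

theorem gX_uT3 {p t : ℝ} (hp : p ≠ 0) (ht : 3 * t ^ 2 = 1) : gX (uT p t) = 0 := by
  have ht2 : t ^ 2 = 1 / 3 := by linarith
  have ht4 : t ^ 4 = 1 / 9 := by rw [show t ^ 4 = (t ^ 2) ^ 2 by ring, ht2]; norm_num
  rw [gX_uT, cc_uT hp, qx_uT hp, ht2, ht4]
  norm_num

theorem gX_R {u : V} (h0 : c0 u = 0) (hQ : cQ u = 0) (hP : cP u = 0) (hC : cC u = 0)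
    (hu : u ≠ 0) : gX u = 0 := by
  unfold gX q1 q2 q3 qx
  rw [cc_R h0 hQ hP hC hu, h0, hQ, hP, hC]
  simp

/-- the constant of the exceptional level -/
theorem gX_exc {u : V} (hu : u ≠ 0) (h0 : c0 u = 0) (hQ : cQ u = 0) (he : br u (g1 u) = 0)
    (hw : cc 1 3 u ≠ 1) (h3 : Complex.normSq (cC u) = 3 * Complex.normSq (cP u)) :
    (119 / 32768) ^ 2 ≤ gX u := by
  rcases equil_normal h0 hQ he with ⟨hP, hC⟩ | ⟨z, hz, p, t, hp, h⟩
  · exact absurd (cc_R h0 hQ hP hC hu) hw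
  · have h1 : gX u = gX (uT p t) := by rw [← h, gX_rz hz]
    have h2 : t ^ 2 = 3 := by
      have e1 : Complex.normSq (cC (Act.rz z u)) = Complex.normSq (cC u) := by
        rw [Act.cC_rz, map_mul, map_pow, ns_conj_one hz, one_pow, one_mul]
      have e2 : Complex.normSq (cP (Act.rz z u)) = Complex.normSq (cP u) := by
        rw [Act.cP_rz, map_mul, map_pow, ns_one hz, one_pow, one_mul]
      rw [← e1, ← e2, h] at h3
      simp only [uT, cP_mk, cC_mk, Complex.normSq_ofReal] at h3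
      have h4 : p ^ 2 * (t ^ 2 - 3) = 0 := by nlinarith
      rcases mul_eq_zero.1 h4 with h5 | h5
      · exact absurd h5 (pow_ne_zero 2 hp.ne')
      · linarith
    have h4 : t ^ 4 = 9 := by rw [show t ^ 4 = (t ^ 2) ^ 2 by ring, h2]; norm_num
    rw [h1, gX_uT, qx_uT hp.ne', h2, h4]
    have := sq_nonneg (1 - cc 1 3 (uT p t) ^ 2)
    norm_num at this ⊢
    linarith

/-! ### compactness -/

theorem continuous_nr : Continuous nr := nr_contDiff.continuous

theorem contOn_cc : ContinuousOn (cc 1 3 : V → ℝ) {0}ᶜ := cD.csm.continuousOn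

/-- a positive continuous function on a compact set is bounded below -/
theorem pos_lower {X : Type*} [TopologicalSpace X] {K : Set X} (hK : IsCompact K) {f : X → ℝ}
    (hf : ContinuousOn f K) (hp : ∀ x ∈ K, 0 < f x) : ∃ d, 0 < d ∧ ∀ x ∈ K, d ≤ f x := by
  rcases K.eq_empty_or_nonempty with h | h
  · exact ⟨1, one_pos, fun x hx => by rw [h] at hx; exact absurd hx (Set.notMem_empty x)⟩
  · obtain ⟨x, hx, hx'⟩ := hK.exists_isMinOn h hf
    exact ⟨f x, hp x hx, fun y hy => hx' hy⟩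

theorem flag_ne {u b : V} (h : Fl u b) : u ≠ 0 := Flag.ne nD h

theorem contOn_wall : ContinuousOn (fun p : V × V => QQ (BB 1 3 p.1) (p.2 : Mat))
    (FlagSet QQ : Set (V × V)) := by
  have h1 : ContinuousOn (fun p : V × V => BB 1 3 p.1) (FlagSet QQ : Set (V × V)) :=
    (cD.Bsm.continuousOn).comp continuousOn_fst fun p hp => flag_ne hp
  have h2 : ContinuousOn (fun p : V × V => (p.2 : Mat)) (FlagSet QQ : Set (V × V)) :=
    (continuous_subtype_val.comp continuous_snd).continuousOn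
  have := (Qc QQ).continuous.comp_continuousOn h1
  exact this.clm_apply h2

/-- the set of wall flags with `α = 0` -/
def KA (ve : V → ℝ) : Set (V × V) := {p | Wl p.1 p.2 ∧ alf ve p.1 p.2 = 0}

theorem KA_compact {ve : V → ℝ} (hv : Ph ve) : IsCompact (KA ve) := by
  have hF : IsCompact (FlagSet QQ : Set (V × V)) := flagSet_compact nD
  have hne : ∀ p ∈ (FlagSet QQ : Set (V × V)), p.1 ≠ 0 := fun p hp => flag_ne hp
  have h1 := contOn_wall.preimage_isClosed_of_isClosed hF.isClosed (isClosed_singleton (x := (0 : ℝ)))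
  have h2 := (al_cont (P := PP 1 3) (h0 := h0 1 3) hv.phi.smooth hne).preimage_isClosed_of_isClosed
    hF.isClosed (isClosed_singleton (x := (0 : ℝ)))
  have h3 : KA ve = ((FlagSet QQ : Set (V × V)) ∩ (fun p : V × V =>
      QQ (BB 1 3 p.1) (p.2 : Mat)) ⁻¹' {0}) ∩ ((FlagSet QQ : Set (V × V)) ∩
      (fun p : V × V => al (PP 1 3) (h0 1 3) ve p.1 p.2) ⁻¹' {0}) := by
    ext p
    constructor
    · rintro ⟨⟨a, b⟩, c⟩
      exact ⟨⟨a, b⟩, ⟨a, c⟩⟩
    · rintro ⟨⟨a, b⟩, ⟨_, c⟩⟩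
      exact ⟨⟨a, b⟩, c⟩
  rw [h3]
  exact (hF.of_isClosed_subset h1 Set.inter_subset_left).inter_right h2

theorem contOn_gX_fst : ContinuousOn (fun p : V × V => gX p.1) (FlagSet QQ : Set (V × V)) :=
  gX_smooth.continuousOn.comp continuousOn_fst fun _ hp => flag_ne hp

/-- positivity of `T3` on a neighbourhood `gX < d` of the `X`-orbits -/
theorem near_X {ve : V → ℝ} (hv : Ph ve)
    (h : ∀ u b, Wl u b → gX u = 0 → alf ve u b = 0 → 0 < T3 ve u b) :
    ∃ d, 0 < d ∧ ∀ u b, Wl u b → gX u < d → alf ve u b = 0 → 0 < T3 ve u b := by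
  have hK := KA_compact hv
  have hne : ∀ p ∈ KA ve, p.1 ≠ 0 := fun p hp => flag_ne hp.1.1
  have hT : ContinuousOn (fun p : V × V => T3F QQ (PP 1 3) ve p.1 p.2) (KA ve) :=
    T3F_cont nD hv.phi.smooth hne
  have hK2 : IsCompact (KA ve ∩ (fun p : V × V => T3F QQ (PP 1 3) ve p.1 p.2) ⁻¹' Set.Iic 0) :=
    hK.of_isClosed_subset (hT.preimage_isClosed_of_isClosed hK.isClosed isClosed_Iic)
      Set.inter_subset_left
  have hg : ContinuousOn (fun p : V × V => gX p.1)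
      (KA ve ∩ (fun p : V × V => T3F QQ (PP 1 3) ve p.1 p.2) ⁻¹' Set.Iic 0) :=
    contOn_gX_fst.mono fun p hp => hp.1.1.1
  obtain ⟨d, hd, hd'⟩ := pos_lower hK2 hg (by
    rintro p ⟨hp, hp'⟩
    rcases (gX_nonneg p.1).lt_or_eq with h1 | h1
    · exact h1
    · exact absurd (h p.1 p.2 hp.1 h1.symm hp.2) (not_lt.2 hp'))
  refine ⟨d, hd, fun u b hw hgu ha => ?_⟩
  by_contra hc
  have := hd' (u, b) ⟨⟨hw, ha⟩, not_lt.1 hc⟩
  exact absurd hgu (not_lt.2 this)

theorem unit_compact : IsCompact {u : V | nr u = 1} := by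
  obtain ⟨c, hc, hcoer⟩ := exists_coercive (BN (m 1 3) QQ) (BN_pos nD)
  have hbd : ∀ v : V, nr v = 1 → ‖v‖ ≤ 1 / c + 1 := by
    intro v hv
    have h1 := hcoer v
    rw [BN_apply] at h1
    have h1' : c * ‖v‖ ^ 2 ≤ nr v := h1
    rw [hv] at h1'
    have h2 : ‖v‖ ^ 2 ≤ 1 / c := by rw [le_div_iff₀ hc]; linarith
    nlinarith [sq_nonneg (‖v‖ - 1), norm_nonneg v]
  have hprop : ProperSpace V := FiniteDimensional.proper ℝ V
  refine (isCompact_closedBall (0 : V) (1 / c + 1)).of_isClosed_subset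
    (isClosed_singleton.preimage continuous_nr : IsClosed {u : V | nr u = 1}) ?_
  intro v hv
  rw [mem_closedBall_zero_iff]
  exact hbd v hv

/-- the region where the cut-off `χ₂` is active -/
def Act2 (u : V) : Prop := 2 / 5 ≤ qx u ∧ qx u ≤ 3 / 5 ∧ cc 1 3 u ≤ 0

theorem act2_far : ∃ d, 0 < d ∧ ∀ u : V, u ≠ 0 → Act2 u → d ≤ gX u := by
  have hS := unit_compact
  have hne : ∀ u ∈ {u : V | nr u = 1}, u ∈ ({0}ᶜ : Set V) := by
    rintro u hu rfl
    have : nr (0 : V) = 1 := hu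
    simp [nr] at this
  have hq : ContinuousOn qx {u : V | nr u = 1} := qx_smooth.continuousOn.mono hne
  have hc : ContinuousOn (cc 1 3) {u : V | nr u = 1} := contOn_cc.mono hne
  have k1 := hq.preimage_isClosed_of_isClosed hS.isClosed (isClosed_Icc (a := (2 / 5 : ℝ)) (b := 3 / 5))
  have k2 := hc.preimage_isClosed_of_isClosed hS.isClosed (isClosed_Iic (a := (0 : ℝ)))
  have hK : IsCompact (({u : V | nr u = 1} ∩ qx ⁻¹' Set.Icc (2 / 5) (3 / 5)) ∩
      ({u : V | nr u = 1} ∩ (cc 1 3) ⁻¹' Set.Iic 0)) :=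
    (hS.of_isClosed_subset k1 Set.inter_subset_left).inter_right k2
  obtain ⟨d, hd, hd'⟩ := pos_lower hK (f := gX)
    (gX_smooth.continuousOn.mono fun u hu => hne u hu.1.1) (by
      rintro u ⟨⟨h1, h2⟩, ⟨_, h3⟩⟩
      have hu : u ≠ 0 := hne u h1
      rcases (gX_nonneg u).lt_or_eq with h4 | h4
      · exact h4
      · exfalso
        have h2' : 2 / 5 ≤ qx u ∧ qx u ≤ 3 / 5 := h2
        have h3' : cc 1 3 u ≤ 0 := h3
        rcases gX_zero' hu h4.symm with ⟨hc1, _⟩ | ⟨hc1, _⟩ | ⟨_, z, hz, p, t, hp, ht, hr⟩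
        · rw [hc1] at h3'; norm_num at h3'
        · rw [hc1] at h3'; norm_num at h3'
        · have h5 : qx (Act.rz z u) = qx u := by
            unfold qx
            rw [nr_rz hz, Act.cP_rz, map_mul, map_pow, ns_one hz, one_pow, one_mul]
          have ht2 : t ^ 2 = 1 := by rcases ht with h | h <;> rw [h] <;> norm_num
          have ht4 : t ^ 4 = 1 := by rw [show t ^ 4 = (t ^ 2) ^ 2 by ring, ht2]; norm_num
          rw [hr, qx_uT hp.ne', ht2, ht4] at h5
          rw [← h5] at h2'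
          norm_num at h2')
  refine ⟨d, hd, fun u hu hA => ?_⟩
  obtain ⟨r, hr⟩ : ∃ r, r = (Real.sqrt (nr u))⁻¹ := ⟨_, rfl⟩
  have hn := nr_pos hu
  have hs : 0 < Real.sqrt (nr u) := Real.sqrt_pos.2 hn
  have hr0 : r ≠ 0 := by rw [hr]; exact inv_ne_zero hs.ne'
  have h1 : nr (r • u) = 1 := by
    rw [nr_smul, hr, inv_pow, Real.sq_sqrt hn.le, inv_mul_cancel₀ hn.ne']
  have h2 := hd' (r • u) ⟨⟨h1, by
    show qx (r • u) ∈ Set.Icc (2 / 5 : ℝ) (3 / 5)
    rw [qx_smul hr0]; exact ⟨hA.1, hA.2.1⟩⟩, ⟨h1, by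
    show cc 1 3 (r • u) ≤ 0
    rw [cD.chom r u hr0]; exact hA.2.2⟩⟩
  rwa [gX_smul hr0] at h2

/-! ### the gradient on the odd part -/

theorem g1_odd (u : V) : Od (g1 u) := ⟨rfl, rfl⟩

theorem D1_mq (u x : V) : D1 mq u x = QQ (g1 u : Mat) (x : Mat) := by
  have h1 : HasFDerivAt (fun z : V => cC z * cP z) (cC u • (cP : V →L[ℝ] ℂ) + cP u • cC) u :=
    cC.hasFDerivAt.mul cP.hasFDerivAt
  have h2 : HasFDerivAt mq (Complex.reCLM.comp (cC u • (cP : V →L[ℝ] ℂ) + cP u • cC)) u :=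
    (Complex.reCLM.hasFDerivAt).comp u h1
  have h3 : D1 mq u x = (Complex.reCLM.comp (cC u • (cP : V →L[ℝ] ℂ) + cP u • cC)) x :=
    congrArg (fun T : V →L[ℝ] ℝ => T x) h2.fderiv
  rw [h3, QQ_coords]
  simp [g1, rip]
  ring

theorem D1_odd {ve : V → ℝ} {κ : ℝ} (hv : Ph ve) {u : V} (hu : u ≠ 0) (hod : Od u)
    (h : ∀ᶠ z in 𝓝 u, Od z → ve z = κ * mq z) {x : V} (hx : Od x) :
    D1 ve u x = κ * QQ (g1 u : Mat) (x : Mat) := by
  have hd : DifferentiableAt ℝ ve u := diffAt_ne hv.phi.smooth hu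
  have hl : HasDerivAt (fun t : ℝ => u + t • x) x 0 := by
    have := ((hasDerivAt_id (0 : ℝ)).smul_const x).const_add u
    rw [one_smul] at this
    exact this
  have h1 : HasDerivAt (fun t : ℝ => ve (u + t • x)) (D1 ve u x) 0 := by
    have h1' : HasFDerivAt ve (fderiv ℝ ve u) (u + (0 : ℝ) • x) := by
      simpa using hd.hasFDerivAt
    exact h1'.comp_hasDerivAt (0 : ℝ) hl
  have hm : DifferentiableAt ℝ mq u := by
    have h1 : HasFDerivAt (fun z : V => cC z * cP z) (cC u • (cP : V →L[ℝ] ℂ) + cP u • cC) u :=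
      cC.hasFDerivAt.mul cP.hasFDerivAt
    exact ((Complex.reCLM.hasFDerivAt).comp u h1).differentiableAt
  have h2 : HasDerivAt (fun t : ℝ => κ * mq (u + t • x)) (κ * D1 mq u x) 0 := by
    have h1' : HasFDerivAt mq (fderiv ℝ mq u) (u + (0 : ℝ) • x) := by
      simpa using hm.hasFDerivAt
    exact (h1'.comp_hasDerivAt (0 : ℝ) hl).const_mul κ
  have h3 : (fun t : ℝ => ve (u + t • x)) =ᶠ[𝓝 0] fun t => κ * mq (u + t • x) := by
    have hc : Tendsto (fun t : ℝ => u + t • x) (𝓝 0) (𝓝 (u + (0 : ℝ) • x)) :=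
      (continuous_const.add (continuous_id.smul continuous_const)).tendsto 0
    rw [zero_smul, add_zero] at hc
    filter_upwards [hc.eventually h] with t ht
    refine ht ⟨?_, ?_⟩
    · rw [map_add, map_smul, hod.1, hx.1, smul_zero, add_zero]
    · rw [map_add, map_smul, hod.2, hx.2, smul_zero, add_zero]
  rw [← D1_mq]
  exact h1.unique (h2.congr_of_eventuallyEq h3)

theorem gd_odd {ve : V → ℝ} {κ : ℝ} (hv : Ph ve) {u : V} (hu : u ≠ 0) (hod : Od u)
    (h : ∀ᶠ z in 𝓝 u, Od z → ve z = κ * mq z) : gd ve u = κ • g1 u := by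
  refine rep_unique nD fun w => ?_
  obtain ⟨x, hx, y, hy, rfl⟩ := odd_evn_split w
  have e1 : QQ (gd ve u : Mat) (y : Mat) = 0 := odd_evn_perp (S4g hv hu hod) hy
  have e2 : QQ ((κ • g1 u : V) : Mat) (y : Mat) = 0 :=
    odd_evn_perp (VOdd.smul_mem κ (g1_odd u)) hy
  have e3 : QQ (gd ve u : Mat) (x : Mat) = D1 ve u x := gx_spec nD u x
  rw [Submodule.coe_add, map_add, map_add, e1, e2, e3, D1_odd hv hu hod h hx,
    Submodule.coe_smul, map_smul, LinearMap.smul_apply, smul_eq_mul]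

/-- equilibria of `ve` are equilibria of `m` where `ve = κ m` -/
theorem eu_odd {ve : V → ℝ} {κ : ℝ} (hv : Ph ve) (hκ : κ ≠ 0) {u : V} (hu : u ≠ 0) (hod : Od u)
    (h : ∀ᶠ z in 𝓝 u, Od z → ve z = κ * mq z) (he : eu ve u = 0) : br u (g1 u) = 0 := by
  have h1 : eu ve u = κ • br u (g1 u) := by
    show PP 1 3 ⁅(u : Mat), (gd ve u : Mat)⁆ = _
    rw [gd_odd hv hu hod h, br, ← map_smul]
    congr 1
    simp only [Submodule.coe_smul, Ring.lie_def, mul_smul_comm, smul_mul_assoc, smul_sub]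
  rw [he] at h1
  rcases smul_eq_zero.1 h1.symm with h2 | h2
  · exact absurd h2 hκ
  · exact h2

/-- the properties of the explicit function used for `EXPL` -/
structure XIn (ve : V → ℝ) (κ : ℝ) : Prop where
  ph : Ph ve
  κ0 : κ ≠ 0
  spec : ∀ u b, Wl u b → Spec u → 0 < T3 ve u b
  xpt : ∀ u b, Wl u b → gX u = 0 → alf ve u b = 0 → 0 < T3 ve u b
  odd : ∀ u, Od u → u ≠ 0 → ¬ Act2 u → ve u = κ * mq u
  eq : ∀ u b, Wl u b → Od u → eu ve u = 0 → gX u = 0 ∨
    (∀ b, Wl u b → alf ve u b = 0 → 0 < T3 ve u b ∧ (Od b → 0 < alf' ve u b))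
  w2 : ∀ u b, Fl u b → QQ (BB 1 3 u) (b : Mat) ≠ 0 → Od u → br u (g1 u) = 0 →
    Complex.normSq (cC u) ≠ 3 * Complex.normSq (cP u) → aWt mq 2 u ≠ 0

theorem XIn.expl {ve : V → ℝ} {κ : ℝ} (E : XIn ve κ) : ∃ ρ : V → ℝ, EXPL ve ρ κ := by
  obtain ⟨d1, hd1, h1⟩ := near_X E.ph E.xpt
  obtain ⟨d2, hd2, h2⟩ := act2_far
  obtain ⟨d, hd⟩ : ∃ d : ℝ, d = min (min (d1 / 2) d2) ((119 / 32768) ^ 2) := ⟨_, rfl⟩
  have hdp : 0 < d := by
    rw [hd]
    exact lt_min (lt_min (by linarith) hd2) (by norm_num)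
  have hda : d ≤ d1 / 2 := by rw [hd]; exact (min_le_left _ _).trans (min_le_left _ _)
  have hdb : d ≤ d2 := by rw [hd]; exact (min_le_left _ _).trans (min_le_right _ _)
  have hdc : d ≤ (119 / 32768) ^ 2 := by rw [hd]; exact min_le_right _ _
  have hlt : ∀ u : V, gX u / d < 1 → gX u < d := fun u h => by
    rwa [div_lt_one hdp] at h
  have hA : ∀ u : V, u ≠ 0 → gX u < d → ¬ Act2 u := fun u hu h hA =>
    absurd (h2 u hu hA) (not_le.2 (h.trans_le hdb))
  refine ⟨fun u => gX u / d, E.ph, E.κ0, rho_I0 d, fun u => div_nonneg (gX_nonneg u) hdp.le, E.spec,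
    ?_, ?_, ?_, ?_, ?_⟩
  · -- (P2)
    intro u b hw hod ha he
    rcases E.eq u b hw hod he with h | h
    · exact E.xpt u b hw h ha
    · exact (h b hw ha).1
  · -- (P3)
    intro u hod hu hr
    exact E.odd u hod hu (hA u hu (hlt u hr))
  · -- (P3')
    intro u b hw hr ha
    refine h1 u b hw ?_ ha
    have : gX u ≤ d := by rwa [div_le_one hdp] at hr
    linarith
  · -- (P4)
    intro u b hw hod hob ha he
    rcases E.eq u b hw hod he with h | h
    · left; simp only [h, zero_div]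
    · right; exact (h b hw ha).2 hob
  · -- (P5)
    intro u b hF hw hod hr he
    have hu : u ≠ 0 := flag_ne hF
    have hgu : gX u < d := hlt u hr
    have hev : ∀ᶠ z in 𝓝 u, Od z → ve z = κ * mq z := by
      have c1 : ContinuousAt gX u := (gX_smooth.continuousOn).continuousAt
        (isOpen_compl_singleton.mem_nhds hu)
      have c2 : ∀ᶠ z in 𝓝 u, gX z < d := c1.eventually_lt continuousAt_const hgu
      have c3 : ∀ᶠ z in 𝓝 u, z ≠ 0 := isOpen_compl_singleton.mem_nhds hu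
      filter_upwards [c2, c3] with z hz hz0 hzo
      exact E.odd z hzo hz0 (hA z hz0 hz)
    have hbr := eu_odd E.ph E.κ0 hu hod hev he
    refine E.w2 u b hF hw hod hbr fun h3 => ?_
    have hc1 : cc 1 3 u ≠ 1 := fun hc => by
      have h4 := cD.cw u b hF
      rw [hc] at h4
      exact hw (pow_eq_zero_iff two_ne_zero |>.1 (by linarith))
    have := gX_exc hu hod.1 hod.2 hbr hc1 h3
    linarith

end XF

end Pool.Agent.FL.S1
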