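import Pool.Agent.FL.S1Hub
import Pool.Agent.FL.S1X2
import Pool.Agent.helper79.FR.Cont

/-!
# MP_f09395_gt, space (1), XF: the function `gX` which vanishes exactly on the `X`-orbits
-/

set_option linter.unusedSectionVars false

noncomputable section

namespace Pool.Agent.FL.S1

open scoped ContDiff Quaternion Matrix ComplexConjugate
open Pool.Agent.Helper93.Fin Pool.Agent.helper79.FP Pool.Agent.helper79.FR
open Pool.Agent.helper79.FR.Sp2 (Mat QQ h0 m gg hh PP BB cc)
open Filter Topology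

attribute [local instance] Matrix.linftyOpNormedRing Matrix.linftyOpNormedAlgebra

namespace XF

/-- numerator: even part -/
def q1 (u : V) : ℝ := c0 u ^ 2 + Complex.normSq (cQ u)

/-- numerator: first equation -/
def q2 (u : V) : ℝ := (cC u * cP u).im ^ 2

/-- numerator: second equation -/
def q3 (u : V) : ℝ := Complex.normSq (cP u ^ 2 - 2 * conj (cC u) ^ 2 - conj (cP u) * cR u)

/-- `|P|² / |u|²` -/
def qx (u : V) : ℝ := Complex.normSq (cP u) / nr u

/-- a function which vanishes exactly on the orbits of `Zp`, `u(±1/2)`, `u(±√3/2)` -/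
def gX (u : V) : ℝ := q1 u / nr u + q2 u / nr u ^ 2 + q3 u / nr u ^ 2 + (1 - cc 1 3 u ^ 2) ^ 2
  + (qx u * (qx u - 1 / 4) * (qx u - 9 / 16)) ^ 2

theorem nr_pos {u : V} (hu : u ≠ 0) : 0 < nr u := by
  have h := nD.Qpos (u : Mat) (by exact mg nD u) (by
    intro h0'
    exact hu (Subtype.ext h0'))
  exact h

theorem nr_nonneg (u : V) : 0 ≤ nr u := by
  rcases eq_or_ne u 0 with h | h
  · rw [h]; simp [nr]
  · exact (nr_pos h).le

theorem q1_nonneg (u : V) : 0 ≤ q1 u := add_nonneg (sq_nonneg _) (Complex.normSq_nonneg _)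
theorem q2_nonneg (u : V) : 0 ≤ q2 u := sq_nonneg _
theorem q3_nonneg (u : V) : 0 ≤ q3 u := Complex.normSq_nonneg _

theorem gX_nonneg (u : V) : 0 ≤ gX u := by
  have h0 := nr_nonneg u
  have h1 : 0 ≤ q1 u / nr u := div_nonneg (q1_nonneg u) h0
  have h2 : 0 ≤ q2 u / nr u ^ 2 := div_nonneg (q2_nonneg u) (sq_nonneg _)
  have h3 : 0 ≤ q3 u / nr u ^ 2 := div_nonneg (q3_nonneg u) (sq_nonneg _)
  unfold gX
  positivity

/-- zeros of `gX` -/
theorem gX_zero {u : V} (hu : u ≠ 0) (h : gX u = 0) : Od u ∧ br u (g1 u) = 0 ∧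
    (cc 1 3 u = 1 ∨ cc 1 3 u = -1) ∧ (qx u = 0 ∨ qx u = 1 / 4 ∨ qx u = 9 / 16) := by
  have h0 := nr_pos hu
  have h1 : 0 ≤ q1 u / nr u := div_nonneg (q1_nonneg u) h0.le
  have h2 : 0 ≤ q2 u / nr u ^ 2 := div_nonneg (q2_nonneg u) (sq_nonneg _)
  have h3 : 0 ≤ q3 u / nr u ^ 2 := div_nonneg (q3_nonneg u) (sq_nonneg _)
  have h4 : 0 ≤ (1 - cc 1 3 u ^ 2) ^ 2 := sq_nonneg _
  have h5 : 0 ≤ (qx u * (qx u - 1 / 4) * (qx u - 9 / 16)) ^ 2 := sq_nonneg _
  unfold gX at h
  have k1 : q1 u / nr u = 0 := by linarith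
  have k2 : q2 u / nr u ^ 2 = 0 := by linarith
  have k3 : q3 u / nr u ^ 2 = 0 := by linarith
  have k4 : (1 - cc 1 3 u ^ 2) ^ 2 = 0 := by linarith
  have k5 : (qx u * (qx u - 1 / 4) * (qx u - 9 / 16)) ^ 2 = 0 := by linarith
  have m1 : q1 u = 0 := by
    rcases div_eq_zero_iff.1 k1 with k | k
    · exact k
    · exact absurd k h0.ne'
  have m2 : q2 u = 0 := by
    rcases div_eq_zero_iff.1 k2 with k | k
    · exact k
    · exact absurd k (pow_ne_zero 2 h0.ne')
  have m3 : q3 u = 0 := by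
    rcases div_eq_zero_iff.1 k3 with k | k
    · exact k
    · exact absurd k (pow_ne_zero 2 h0.ne')
  have n0 : c0 u = 0 := by
    have e1 := sq_nonneg (c0 u)
    have e2 := Complex.normSq_nonneg (cQ u)
    unfold q1 at m1
    exact pow_eq_zero_iff two_ne_zero |>.1 (by linarith)
  have nQ : cQ u = 0 := by
    have e1 := sq_nonneg (c0 u)
    have e2 := Complex.normSq_nonneg (cQ u)
    unfold q1 at m1
    exact Complex.normSq_eq_zero.1 (by linarith)
  refine ⟨⟨n0, nQ⟩, (equil_iff n0 nQ).2 ⟨?_, ?_⟩, ?_, ?_⟩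
  · exact pow_eq_zero_iff two_ne_zero |>.1 m2
  · have := Complex.normSq_eq_zero.1 m3
    linear_combination this
  · have h6 : (1 - cc 1 3 u) * (1 + cc 1 3 u) = 0 := by
      have := pow_eq_zero_iff two_ne_zero |>.1 k4
      linarith
    rcases mul_eq_zero.1 h6 with h7 | h7
    · left; linarith
    · right; linarith
  · have h6 := pow_eq_zero_iff two_ne_zero |>.1 k5
    rcases mul_eq_zero.1 h6 with h7 | h7
    · rcases mul_eq_zero.1 h7 with h8 | h8
      · left; exact h8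
      · right; left; linarith
    · right; right; linarith

theorem nr_coords (u : V) : nr u = 10 * (c0 u * c0 u) + Complex.normSq (cP u)
    + Complex.normSq (cR u) + 2 * Complex.normSq (cC u) + 2 * Complex.normSq (cQ u) := by
  unfold nr
  rw [QQ_coords, rip_self, rip_self, rip_self, rip_self]

theorem nr_smul (r : ℝ) (u : V) : nr (r • u) = r ^ 2 * nr u := by
  unfold nr
  simp only [Submodule.coe_smul, map_smul, LinearMap.smul_apply, smul_eq_mul]
  ring

theorem q1_smul (r : ℝ) (u : V) : q1 (r • u) = r ^ 2 * q1 u := by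
  unfold q1
  rw [map_smul, map_smul, Complex.real_smul, map_mul, Complex.normSq_ofReal, smul_eq_mul]
  ring

theorem q2_smul (r : ℝ) (u : V) : q2 (r • u) = r ^ 4 * q2 u := by
  unfold q2
  rw [map_smul, map_smul, Complex.real_smul, Complex.real_smul,
    show ((r : ℂ) * cC u) * ((r : ℂ) * cP u) = ((r ^ 2 : ℝ) : ℂ) * (cC u * cP u) by push_cast; ring,
    Complex.im_ofReal_mul]
  ring

theorem q3_smul (r : ℝ) (u : V) : q3 (r • u) = r ^ 4 * q3 u := by
  unfold q3
  rw [map_smul cP r u, map_smul cC r u, map_smul cR r u, Complex.real_smul, Complex.real_smul,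
    Complex.real_smul, map_mul, map_mul, Complex.conj_ofReal,
    show ((r : ℂ) * cP u) ^ 2 - 2 * ((r : ℂ) * conj (cC u)) ^ 2
      - ((r : ℂ) * conj (cP u)) * ((r : ℂ) * cR u) =
      ((r ^ 2 : ℝ) : ℂ) * (cP u ^ 2 - 2 * conj (cC u) ^ 2 - conj (cP u) * cR u) by push_cast; ring,
    map_mul, Complex.normSq_ofReal]
  ring

theorem qx_smul {r : ℝ} (hr : r ≠ 0) (u : V) : qx (r • u) = qx u := by
  unfold qx
  rw [nr_smul, map_smul, Complex.real_smul, map_mul, Complex.normSq_ofReal, ← sq,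
    mul_div_mul_left _ _ (pow_ne_zero 2 hr)]

theorem gX_smul {r : ℝ} (hr : r ≠ 0) (u : V) : gX (r • u) = gX u := by
  unfold gX
  rw [qx_smul hr, q1_smul, q2_smul, q3_smul, nr_smul, cD.chom r u hr,
    mul_div_mul_left _ _ (pow_ne_zero 2 hr), show (r ^ 2 * nr u) ^ 2 = r ^ 4 * nr u ^ 2 by ring,
    mul_div_mul_left _ _ (pow_ne_zero 4 hr), mul_div_mul_left _ _ (pow_ne_zero 4 hr)]

theorem ns_one {z : ℂ} (hz : ‖z‖ = 1) : Complex.normSq z = 1 := by
  rw [Complex.normSq_eq_norm_sq, hz]; norm_num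

theorem ns_conj_one {z : ℂ} (hz : ‖z‖ = 1) : Complex.normSq (conj z) = 1 := by
  rw [Complex.normSq_conj, ns_one hz]

theorem conj_mul_one {z : ℂ} (hz : ‖z‖ = 1) : conj z * z = 1 := by
  rw [Complex.conj_mul', hz]; norm_num

theorem nr_rz {z : ℂ} (hz : ‖z‖ = 1) (u : V) : nr (Act.rz z u) = nr u := by
  rw [nr_coords, nr_coords, Act.c0_rz, Act.cP_rz, Act.cR_rz, Act.cC_rz, Act.cQ_rz]
  simp only [map_mul, map_pow, ns_one hz, ns_conj_one hz, one_pow, one_mul]

theorem gX_rz {z : ℂ} (hz : ‖z‖ = 1) (u : V) : gX (Act.rz z u) = gX u := by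
  have hc := conj_mul_one hz
  have h2 : cC (Act.rz z u) * cP (Act.rz z u) = cC u * cP u := by
    rw [Act.cC_rz, Act.cP_rz]
    linear_combination (cC u * cP u * (conj z * z + 1)) * hc
  have h3 : cP (Act.rz z u) ^ 2 - 2 * conj (cC (Act.rz z u)) ^ 2
      - conj (cP (Act.rz z u)) * cR (Act.rz z u) =
      z ^ 4 * (cP u ^ 2 - 2 * conj (cC u) ^ 2 - conj (cP u) * cR u) := by
    rw [Act.cC_rz, Act.cP_rz, Act.cR_rz]
    simp only [map_mul, map_pow, Complex.conj_conj]
    linear_combination (-(z ^ 4 * conj (cP u) * cR u * (conj z * z + 1))) * hc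
  unfold gX qx
  have e1 : q1 (Act.rz z u) = q1 u := by
    unfold q1
    rw [Act.c0_rz, Act.cQ_rz, map_mul, map_pow, ns_one hz, one_pow, one_mul]
  have e2 : q2 (Act.rz z u) = q2 u := by
    unfold q2
    rw [h2]
  have e3 : q3 (Act.rz z u) = q3 u := by
    unfold q3
    rw [h3, map_mul, map_pow, ns_one hz, one_pow, one_mul]
  have e4 : Complex.normSq (cP (Act.rz z u)) = Complex.normSq (cP u) := by
    rw [Act.cP_rz, map_mul, map_pow, ns_one hz, one_pow, one_mul]
  rw [e1, e2, e3, e4, nr_rz hz, cc_rz hz]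

theorem nr_contDiff : ContDiff ℝ ∞ nr := by
  have h : nr = fun u => 10 * (c0 u * c0 u) + ((cP u).re * (cP u).re + (cP u).im * (cP u).im)
    + ((cR u).re * (cR u).re + (cR u).im * (cR u).im)
    + 2 * ((cC u).re * (cC u).re + (cC u).im * (cC u).im)
    + 2 * ((cQ u).re * (cQ u).re + (cQ u).im * (cQ u).im) := by
    funext u
    rw [nr_coords]
    simp only [Complex.normSq_apply]
  have r : ∀ L : V →L[ℝ] ℂ, ContDiff ℝ ∞ fun u => (L u).re := fun L =>
    (Complex.reCLM.comp L).contDiff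
  have i : ∀ L : V →L[ℝ] ℂ, ContDiff ℝ ∞ fun u => (L u).im := fun L =>
    (Complex.imCLM.comp L).contDiff
  rw [h]
  have hP := ((r cP).mul (r cP)).add ((i cP).mul (i cP))
  have hR := ((r cR).mul (r cR)).add ((i cR).mul (i cR))
  have hC := ((r cC).mul (r cC)).add ((i cC).mul (i cC))
  have hQ := ((r cQ).mul (r cQ)).add ((i cQ).mul (i cQ))
  exact ((((contDiff_const.mul (c0.contDiff.mul c0.contDiff)).add hP).add hR).add
    (contDiff_const.mul hC)).add (contDiff_const.mul hQ)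

theorem ns_contDiff {f : V → ℂ} (hf : ContDiff ℝ ∞ f) :
    ContDiff ℝ ∞ fun u => Complex.normSq (f u) := by
  have h : (fun u => Complex.normSq (f u)) =
      fun u => (f u).re * (f u).re + (f u).im * (f u).im := by
    funext u; rw [Complex.normSq_apply]
  rw [h]
  have r : ContDiff ℝ ∞ fun u => (f u).re := Complex.reCLM.contDiff.comp hf
  have i : ContDiff ℝ ∞ fun u => (f u).im := Complex.imCLM.contDiff.comp hf
  exact (r.mul r).add (i.mul i)

theorem conj_contDiff {f : V → ℂ} (hf : ContDiff ℝ ∞ f) :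
    ContDiff ℝ ∞ fun u => conj (f u) := Complex.conjCLE.contDiff.comp hf

theorem q1_contDiff : ContDiff ℝ ∞ q1 :=
  (c0.contDiff.pow 2).add (ns_contDiff cQ.contDiff)

theorem q2_contDiff : ContDiff ℝ ∞ q2 :=
  (Complex.imCLM.contDiff.comp (cC.contDiff.mul cP.contDiff)).pow 2

theorem q3_contDiff : ContDiff ℝ ∞ q3 :=
  ns_contDiff (((cP.contDiff.pow 2).sub (contDiff_const.mul
    ((conj_contDiff cC.contDiff).pow 2))).sub ((conj_contDiff cP.contDiff).mul cR.contDiff))

theorem nr_ne_on : ∀ u ∈ ({0}ᶜ : Set V), nr u ≠ 0 := fun _ hu => (nr_pos hu).ne'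

theorem qx_smooth : ContDiffOn ℝ ∞ qx {0}ᶜ :=
  (ns_contDiff cP.contDiff).contDiffOn.div nr_contDiff.contDiffOn nr_ne_on

theorem gX_smooth : ContDiffOn ℝ ∞ gX {0}ᶜ := by
  have hn2 : ∀ u ∈ ({0}ᶜ : Set V), nr u ^ 2 ≠ 0 := fun u hu => pow_ne_zero 2 (nr_ne_on u hu)
  have hx := qx_smooth
  exact ((((q1_contDiff.contDiffOn.div nr_contDiff.contDiffOn nr_ne_on).add
    (q2_contDiff.contDiffOn.div (nr_contDiff.pow 2).contDiffOn hn2)).add
    (q3_contDiff.contDiffOn.div (nr_contDiff.pow 2).contDiffOn hn2)).add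
    ((contDiffOn_const.sub (cD.csm.pow 2)).pow 2)).add
    (((hx.mul (hx.sub contDiffOn_const)).mul (hx.sub contDiffOn_const)).pow 2)

theorem gX_I0 : I0 gX :=
  ⟨gX_smooth, fun _ u hr => gX_smul hr u, Act.invH_iff.2 fun _ hz u => gX_rz hz u⟩

/-- a multiple of `gX` -/
theorem rho_I0 (d : ℝ) : I0 fun u => gX u / d :=
  ⟨gX_smooth.div_const d, fun _ u hr => by simp only [gX_smul hr u],
    Act.invH_iff.2 fun _ hz u => by simp only [gX_rz hz u]⟩

end XF

end Pool.Agent.FL.S1
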