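import Pool.Agent.helper46.FR.Sp2
import Pool.Agent.helper79.FR.StepB

/-!
# MP_f09395_gt, space (2) = `Sp(2)/diag(z, z)`: core definitions in coordinates

`𝔪 ≅ ℝ³ × ℝ³ × ℝ³ = {(a, x, y)}` (the model `𝔰𝔬(5)`), `h = h₀/2`, `Q2 = 2 Q`.
-/

noncomputable section

namespace Pool.Agent.FL.S2

open scoped ContDiff Quaternion Matrix
open Pool.Agent.Helper93.Fin Pool.Agent.helper79.FP Pool.Agent.helper79.FR
open Pool.Agent.helper79.FR.Sp2 (Mat QQ h0 m gg hh PP BB cc)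

attribute [local instance] Matrix.linftyOpNormedRing Matrix.linftyOpNormedAlgebra

/-- `ℝ³` -/
abbrev R3 : Type := Fin 3 → ℝ

/-- `ℝ⁹ = {(a, x, y)}` -/
abbrev R9 : Type := R3 × R3 × R3

/-- the inner product -/
def dot9 (u v : R9) : ℝ := u.1 ⬝ᵥ v.1 + u.2.1 ⬝ᵥ v.2.1 + u.2.2 ⬝ᵥ v.2.2

/-- the `𝔪`-component of the bracket -/
def br (u v : R9) : R9 :=
  (u.1 ⨯₃ v.1 + u.2.1 ⨯₃ v.2.1 + u.2.2 ⨯₃ v.2.2, u.1 ⨯₃ v.2.1 - v.1 ⨯₃ u.2.1,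
    u.1 ⨯₃ v.2.2 - v.1 ⨯₃ u.2.2)

/-- the `h`-component of the bracket -/
def brh (u v : R9) : ℝ := u.2.1 ⬝ᵥ v.2.2 - u.2.2 ⬝ᵥ v.2.1

/-- `[h, u]` -/
def rot (u : R9) : R9 := (0, -u.2.2, u.2.1)

/-- the isotropy rotation by the angle `t` -/
def rotH (t : ℝ) (u : R9) : R9 :=
  (u.1, Real.cos t • u.2.1 - Real.sin t • u.2.2, Real.sin t • u.2.1 + Real.cos t • u.2.2)

/-- the matrix of `(a, x, y)` -/
def iotaFun (u : R9) : Mat :=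
  !![⟨0, u.1 0 / 2, (-u.2.1 1 + u.2.2 2) / 2, (-u.2.2 1 - u.2.1 2) / 2⟩,
      ⟨u.1 1 / 2, u.1 2 / 2, -u.2.2 0 / 2, u.2.1 0 / 2⟩;
     ⟨-u.1 1 / 2, u.1 2 / 2, -u.2.2 0 / 2, u.2.1 0 / 2⟩,
      ⟨0, -u.1 0 / 2, (-u.2.1 1 - u.2.2 2) / 2, (-u.2.2 1 + u.2.1 2) / 2⟩]

/-- unit flags in coordinates -/
structure Flg (u b : R9) : Prop where
  uu : dot9 u u = 1
  bb : dot9 b b = 1
  ub : dot9 u b = 0
  br : br u b = 0
  brh : brh u b = 0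

/-- `Λ = |x × y|² + (a·x)² + (a·y)² = λ₁² λ₂²` -/
def psi4 (u : R9) : ℝ :=
  (u.2.1 ⨯₃ u.2.2) ⬝ᵥ (u.2.1 ⨯₃ u.2.2) + (u.1 ⬝ᵥ u.2.1) ^ 2 + (u.1 ⬝ᵥ u.2.2) ^ 2

/-- `c = cos 4θ` in coordinates -/
def cM (u : R9) : ℝ := 1 - 8 * psi4 u / dot9 u u ^ 2

/-- admissible functions in coordinates: smooth off the origin, homogeneous of degree two,
invariant under the isotropy rotation -/
structure PhiM (f : R9 → ℝ) : Prop where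
  smooth : ContDiffOn ℝ ∞ f {0}ᶜ
  hom : ∀ (r : ℝ) (u : R9), f (r • u) = r ^ 2 * f u
  inv : ∀ (t : ℝ) (u : R9), f (rotH t u) = f u

/-- `α_f(u, b) = Df(u)[h, b]` -/
def alM (f : R9 → ℝ) (u b : R9) : ℝ := fderiv ℝ f u (rot b)

/-- gradient in coordinates -/
def grad9 (f : R9 → ℝ) (u : R9) : R9 :=
  (fun i => fderiv ℝ f u (Pi.single i 1, 0, 0), fun i => fderiv ℝ f u (0, Pi.single i 1, 0),
    fun i => fderiv ℝ f u (0, 0, Pi.single i 1))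

/-- the Euler field of `f` -/
def eM (f : R9 → ℝ) (u : R9) : R9 := br u (grad9 f u)

/-- admissible with `α = 0` on all flags (W-invariant) -/
structure WM (n : R9 → ℝ) : Prop where
  phi : PhiM n
  al : ∀ u b, Flg u b → alM n u b = 0

/-- the quartic matrix `(a × x)(a × x)ᵀ + (a × y)(a × y)ᵀ - (x × y)(x × y)ᵀ` -/
def BBm (u : R9) (i j : Fin 3) : ℝ :=
  (u.1 ⨯₃ u.2.1) i * (u.1 ⨯₃ u.2.1) j + (u.1 ⨯₃ u.2.2) i * (u.1 ⨯₃ u.2.2) j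
    - (u.2.1 ⨯₃ u.2.2) i * (u.2.1 ⨯₃ u.2.2) j

/-- derivative along the Euler field of `v` -/
def ED (v f : R9 → ℝ) (u : R9) : ℝ := fderiv ℝ f u (eM v u)

/-- `a₂`: derivative of `α` along the Euler flow of flags -/
def a2M (v : R9 → ℝ) (u b : R9) : ℝ :=
  fderiv ℝ (fun y => fderiv ℝ v y (rot b)) u (eM v u) + fderiv ℝ v u (rot (br b (grad9 v u)))

/-! ### parameters and the function `v₀` (Lean sign = minus paper sign) -/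

/-- parameters of the explicit function -/
structure Par where
  R : Matrix (Fin 3) (Fin 3) ℝ
  S : Matrix (Fin 3) (Fin 3) ℝ
  N : Matrix (Fin 3) (Fin 3) ℝ
  ν : R3

/-- the quadratic part -/
def vq (p : Par) (u : R9) : ℝ :=
  1 / 2 * (u.1 ⬝ᵥ p.R *ᵥ u.1) + 1 / 2 * (u.2.1 ⬝ᵥ p.S *ᵥ u.2.1 + u.2.2 ⬝ᵥ p.S *ᵥ u.2.2)
    + p.ν ⬝ᵥ (u.2.1 ⨯₃ u.2.2)

/-- the quartic part divided by `|u|²` -/
def vN (p : Par) (u : R9) : ℝ := (∑ i, ∑ j, p.N i j * BBm u i j) / dot9 u u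

/-- the explicit function -/
def v0 (p : Par) (u : R9) : ℝ := vq p u + vN p u

/-! ### walls and the base `S² × S²` -/

/-- `ℝ³ × ℝ³ = {(p, q)}` -/
abbrev R6 : Type := R3 × R3

/-- the base of the walls -/
def base : Set R6 := {z | z.1 ⬝ᵥ z.2 = 0 ∧ z.1 ⬝ᵥ z.1 + z.2 ⬝ᵥ z.2 = 1}

/-- points with `p ≠ 0` and `q ≠ 0` -/
def U6 : Set R6 := {z | z.1 ≠ 0 ∧ z.2 ≠ 0}

/-- Euclidean norm on `ℝ³` -/
def n3 (p : R3) : ℝ := Real.sqrt (p ⬝ᵥ p)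

/-- partial gradients -/
def gp (V : R6 → ℝ) (z : R6) : R3 := fun i => fderiv ℝ V z (Pi.single i 1, 0)

/-- partial gradients -/
def gq (V : R6 → ℝ) (z : R6) : R3 := fun i => fderiv ℝ V z (0, Pi.single i 1)

/-- the Hamiltonian field of `V` -/
def XB (V : R6 → ℝ) (z : R6) : R6 :=
  (z.1 ⨯₃ gp V z + z.2 ⨯₃ gq V z, z.1 ⨯₃ gq V z + z.2 ⨯₃ gp V z)

/-- derivative along the Hamiltonian field -/
def XD (V F : R6 → ℝ) (z : R6) : ℝ := fderiv ℝ F z (XB V z)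

/-- section of wall A -/
def uA (z : R6) : R9 := (z.1, z.2, 0)

/-- first fibre vector at wall A -/
def b1A (z : R6) : R9 := (z.2, z.1, 0)

/-- second fibre vector at wall A -/
def b2A (z : R6) : R9 := (0, 0, (n3 z.1)⁻¹ • z.1)

/-- rotation rate at wall A -/
def omA (v : R9 → ℝ) (z : R6) : ℝ :=
  fderiv ℝ v (uA z) (0, 0, z.1 ⨯₃ z.2) / (n3 z.1 * (z.2 ⬝ᵥ z.2))

/-- section of wall B -/
def uB (z : R6) : R9 :=
  (Real.sqrt 2)⁻¹ • (z.1, (n3 z.1)⁻¹ • z.1, (n3 z.1)⁻¹ • (z.2 ⨯₃ z.1))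

/-- first fibre vector at wall B -/
def b1B (z : R6) : R9 :=
  (Real.sqrt 2)⁻¹ • (-z.1, (n3 z.1)⁻¹ • z.1, -((n3 z.1)⁻¹ • (z.2 ⨯₃ z.1)))

/-- second fibre vector at wall B -/
def b2B (z : R6) : R9 :=
  (Real.sqrt 2)⁻¹ • (-((n3 z.2)⁻¹ • (z.2 ⨯₃ z.1)), ((n3 z.1)⁻¹ * (n3 z.2)⁻¹) • (z.2 ⨯₃ z.1),
    (n3 z.2 * (n3 z.1)⁻¹) • z.1)

/-- rotation rate at wall B -/
def omB (v : R9 → ℝ) (z : R6) : ℝ :=
  2 * fderiv ℝ v (uB z) (0, z.2, 0) / (n3 z.1 * n3 z.2)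

/-- the function whose zeros are the points with `α = a₂ = 0` (where `α ≠ 0`) -/
def DelB (κ : ℝ) (V α₁ α₂ om : R6 → ℝ) (z : R6) : ℝ :=
  κ * (α₁ z * XD V α₂ z - α₂ z * XD V α₁ z) - om z * (α₁ z ^ 2 + α₂ z ^ 2)

end Pool.Agent.FL.S2
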