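import Pool.Agent.FL.S2Core

/-!
# MP_f09395_gt, space (2): the coordinates of `𝔪`
-/

set_option linter.unusedSectionVars false

noncomputable section

namespace Pool.Agent.FL.S2

open scoped ContDiff Quaternion Matrix
open Pool.Agent.Helper93.Fin Pool.Agent.helper79.FP Pool.Agent.helper79.FR
open Pool.Agent.helper79.FR.Sp2 (Mat QQ h0 m gg hh PP BB cc)
open Pool.Agent.helper79.FR

attribute [local instance] Matrix.linftyOpNormedRing Matrix.linftyOpNormedAlgebra

/-- `2 Q` -/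
def Q2 : Mat →ₗ[ℝ] Mat →ₗ[ℝ] ℝ := (2 : ℝ) • QQ

/-- `h = h₀ / 2` -/
def hU : Mat := (1 / 2 : ℝ) • h0 1 1

theorem io_00re (u : R9) : (iotaFun u 0 0).re = 0 := rfl
theorem io_00imI (u : R9) : (iotaFun u 0 0).imI = u.1 0 / 2 := rfl
theorem io_00imJ (u : R9) : (iotaFun u 0 0).imJ = (-u.2.1 1 + u.2.2 2) / 2 := rfl
theorem io_00imK (u : R9) : (iotaFun u 0 0).imK = (-u.2.2 1 - u.2.1 2) / 2 := rfl
theorem io_01re (u : R9) : (iotaFun u 0 1).re = u.1 1 / 2 := rfl
theorem io_01imI (u : R9) : (iotaFun u 0 1).imI = u.1 2 / 2 := rfl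
theorem io_01imJ (u : R9) : (iotaFun u 0 1).imJ = -u.2.2 0 / 2 := rfl
theorem io_01imK (u : R9) : (iotaFun u 0 1).imK = u.2.1 0 / 2 := rfl
theorem io_10re (u : R9) : (iotaFun u 1 0).re = -u.1 1 / 2 := rfl
theorem io_10imI (u : R9) : (iotaFun u 1 0).imI = u.1 2 / 2 := rfl
theorem io_10imJ (u : R9) : (iotaFun u 1 0).imJ = -u.2.2 0 / 2 := rfl
theorem io_10imK (u : R9) : (iotaFun u 1 0).imK = u.2.1 0 / 2 := rfl
theorem io_11re (u : R9) : (iotaFun u 1 1).re = 0 := rfl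
theorem io_11imI (u : R9) : (iotaFun u 1 1).imI = -u.1 0 / 2 := rfl
theorem io_11imJ (u : R9) : (iotaFun u 1 1).imJ = (-u.2.1 1 - u.2.2 2) / 2 := rfl
theorem io_11imK (u : R9) : (iotaFun u 1 1).imK = (-u.2.2 1 + u.2.1 2) / 2 := rfl
theorem h0_00 : (h0 1 1 0 0) = ⟨0, 1, 0, 0⟩ := by
  simp [h0] <;> rfl
theorem h0_01 : (h0 1 1 0 1) = 0 := by
  simp [h0]
theorem h0_10 : (h0 1 1 1 0) = 0 := by
  simp [h0]
theorem h0_11 : (h0 1 1 1 1) = ⟨0, 1, 0, 0⟩ := by
  simp [h0] <;> rfl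
theorem hU_00re : (hU 0 0).re = 0 := by
  show (1 / 2 : ℝ) * (h0 1 1 0 0).re = 0
  rw [h0_00]; norm_num
theorem hU_00imI : (hU 0 0).imI = 1 / 2 := by
  show (1 / 2 : ℝ) * (h0 1 1 0 0).imI = 1 / 2
  rw [h0_00]; norm_num
theorem hU_00imJ : (hU 0 0).imJ = 0 := by
  show (1 / 2 : ℝ) * (h0 1 1 0 0).imJ = 0
  rw [h0_00]; norm_num
theorem hU_00imK : (hU 0 0).imK = 0 := by
  show (1 / 2 : ℝ) * (h0 1 1 0 0).imK = 0
  rw [h0_00]; norm_num
theorem hU_01re : (hU 0 1).re = 0 := by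
  show (1 / 2 : ℝ) * (h0 1 1 0 1).re = 0
  rw [h0_01]; norm_num
theorem hU_01imI : (hU 0 1).imI = 0 := by
  show (1 / 2 : ℝ) * (h0 1 1 0 1).imI = 0
  rw [h0_01]; norm_num
theorem hU_01imJ : (hU 0 1).imJ = 0 := by
  show (1 / 2 : ℝ) * (h0 1 1 0 1).imJ = 0
  rw [h0_01]; norm_num
theorem hU_01imK : (hU 0 1).imK = 0 := by
  show (1 / 2 : ℝ) * (h0 1 1 0 1).imK = 0
  rw [h0_01]; norm_num
theorem hU_10re : (hU 1 0).re = 0 := by
  show (1 / 2 : ℝ) * (h0 1 1 1 0).re = 0
  rw [h0_10]; norm_num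
theorem hU_10imI : (hU 1 0).imI = 0 := by
  show (1 / 2 : ℝ) * (h0 1 1 1 0).imI = 0
  rw [h0_10]; norm_num
theorem hU_10imJ : (hU 1 0).imJ = 0 := by
  show (1 / 2 : ℝ) * (h0 1 1 1 0).imJ = 0
  rw [h0_10]; norm_num
theorem hU_10imK : (hU 1 0).imK = 0 := by
  show (1 / 2 : ℝ) * (h0 1 1 1 0).imK = 0
  rw [h0_10]; norm_num
theorem hU_11re : (hU 1 1).re = 0 := by
  show (1 / 2 : ℝ) * (h0 1 1 1 1).re = 0
  rw [h0_11]; norm_num
theorem hU_11imI : (hU 1 1).imI = 1 / 2 := by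
  show (1 / 2 : ℝ) * (h0 1 1 1 1).imI = 1 / 2
  rw [h0_11]; norm_num
theorem hU_11imJ : (hU 1 1).imJ = 0 := by
  show (1 / 2 : ℝ) * (h0 1 1 1 1).imJ = 0
  rw [h0_11]; norm_num
theorem hU_11imK : (hU 1 1).imK = 0 := by
  show (1 / 2 : ℝ) * (h0 1 1 1 1).imK = 0
  rw [h0_11]; norm_num

theorem mat_ext {X Y : Mat} (h : ∀ i j, (X i j).re = (Y i j).re ∧ (X i j).imI = (Y i j).imI ∧
    (X i j).imJ = (Y i j).imJ ∧ (X i j).imK = (Y i j).imK) : X = Y := by
  ext i j : 1
  obtain ⟨h1, h2, h3, h4⟩ := h i j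
  exact QuaternionAlgebra.ext h1 h2 h3 h4

theorem mat_ext2 {X Y : Mat}
    (h00 : (X 0 0).re = (Y 0 0).re ∧ (X 0 0).imI = (Y 0 0).imI ∧
      (X 0 0).imJ = (Y 0 0).imJ ∧ (X 0 0).imK = (Y 0 0).imK)
    (h01 : (X 0 1).re = (Y 0 1).re ∧ (X 0 1).imI = (Y 0 1).imI ∧
      (X 0 1).imJ = (Y 0 1).imJ ∧ (X 0 1).imK = (Y 0 1).imK)
    (h10 : (X 1 0).re = (Y 1 0).re ∧ (X 1 0).imI = (Y 1 0).imI ∧
      (X 1 0).imJ = (Y 1 0).imJ ∧ (X 1 0).imK = (Y 1 0).imK)
    (h11 : (X 1 1).re = (Y 1 1).re ∧ (X 1 1).imI = (Y 1 1).imI ∧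
      (X 1 1).imJ = (Y 1 1).imJ ∧ (X 1 1).imK = (Y 1 1).imK) : X = Y := by
  refine mat_ext fun i j => ?_
  fin_cases i <;> fin_cases j
  · exact h00
  · exact h01
  · exact h10
  · exact h11

theorem iotaFun_mem (u : R9) : iotaFun u ∈ m 1 1 := by
  rw [Sp2.mem_m']
  refine ⟨?_, ?_⟩
  · refine mat_ext2 ?_ ?_ ?_ ?_ <;>
      simp only [Matrix.star_apply, Matrix.neg_apply, Quaternion.re_star, Quaternion.imI_star,
        Quaternion.imJ_star, Quaternion.imK_star, Quaternion.re_neg, Quaternion.imI_neg,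
        Quaternion.imJ_neg, Quaternion.imK_neg, io_00re, io_00imI, io_00imJ, io_00imK, io_01re,
            io_01imI, io_01imJ, io_01imK, io_10re, io_10imI, io_10imJ, io_10imK, io_11re,
            io_11imI, io_11imJ, io_11imK] <;>
      refine ⟨?_, ?_, ?_, ?_⟩ <;> first | trivial | ring
  · simp only [io_00re, io_00imI, io_00imJ, io_00imK, io_01re, io_01imI, io_01imJ, io_01imK,
      io_10re, io_10imI, io_10imJ, io_10imK, io_11re, io_11imI, io_11imJ, io_11imK]; push_cast;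
      ring

/-- the coordinates of an element of `𝔪` -/
def coordFun (X : Mat) : R9 :=
  (![2 * (X 0 0).imI, 2 * (X 0 1).re, 2 * (X 0 1).imI],
    ![2 * (X 0 1).imK, -((X 0 0).imJ + (X 1 1).imJ), (X 1 1).imK - (X 0 0).imK],
    ![-2 * (X 0 1).imJ, -((X 0 0).imK + (X 1 1).imK), (X 0 0).imJ - (X 1 1).imJ])

theorem coord_iota (u : R9) : coordFun (iotaFun u) = u := by
  unfold coordFun
  simp only [io_00re, io_00imI, io_00imJ, io_00imK, io_01re, io_01imI, io_01imJ, io_01imK,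
      io_10re, io_10imI, io_10imJ, io_10imK, io_11re, io_11imI, io_11imJ, io_11imK]
  refine Prod.ext ?_ (Prod.ext ?_ ?_)
  all_goals
    ext i
    fin_cases i <;> simp <;> ring

theorem iota_coord {X : Mat} (hX : X ∈ m 1 1) : iotaFun (coordFun X) = X := by
  rw [Sp2.mem_m'] at hX
  obtain ⟨h1, h2⟩ := hX
  have h3 : ∀ i j, star (X j i) = -X i j := fun i j => by
    rw [← Matrix.star_apply, h1, Matrix.neg_apply]
  have e00 := h3 0 0
  have e01 := h3 1 0
  have e11 := h3 1 1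
  have r00 := congrArg QuaternionAlgebra.re e00
  have r11 := congrArg QuaternionAlgebra.re e11
  have r01 := congrArg QuaternionAlgebra.re e01
  have i01 := congrArg QuaternionAlgebra.imI e01
  have j01 := congrArg QuaternionAlgebra.imJ e01
  have k01 := congrArg QuaternionAlgebra.imK e01
  simp only [Quaternion.re_star, Quaternion.imI_star,
        Quaternion.imJ_star, Quaternion.imK_star, Quaternion.re_neg, Quaternion.imI_neg,
        Quaternion.imJ_neg, Quaternion.imK_neg] at r00 r11 r01 i01 j01 k01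
  simp only [Nat.cast_one, one_mul] at h2
  refine mat_ext2 ?_ ?_ ?_ ?_ <;> simp only [io_00re, io_00imI, io_00imJ, io_00imK, io_01re,
      io_01imI, io_01imJ, io_01imK, io_10re, io_10imI, io_10imJ, io_10imK, io_11re, io_11imI,
      io_11imJ, io_11imK] <;> refine ⟨?_, ?_, ?_, ?_⟩ <;>
    first | trivial | linarith | (simp [coordFun]; done) | (simp [coordFun]; linarith)

/-- the coordinates `(a, x, y)` of `𝔪` -/
def iotaL : R9 ≃ₗ[ℝ] m 1 1 where
  toFun u := ⟨iotaFun u, iotaFun_mem u⟩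
  invFun X := coordFun X
  map_add' u v := by
    apply Subtype.ext
    show iotaFun (u + v) = iotaFun u + iotaFun v
    refine mat_ext2 ?_ ?_ ?_ ?_ <;>
      simp only [Matrix.add_apply, Quaternion.re_add, Quaternion.imI_add, Quaternion.imJ_add,
        Quaternion.imK_add, io_00re, io_00imI, io_00imJ, io_00imK, io_01re, io_01imI, io_01imJ,
            io_01imK, io_10re, io_10imI, io_10imJ, io_10imK, io_11re, io_11imI, io_11imJ,
            io_11imK] <;> refine ⟨?_, ?_, ?_, ?_⟩ <;>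
      first | trivial | (simp; done) |
        (simp only [Prod.fst_add, Prod.snd_add, Pi.add_apply]; ring)
  map_smul' r u := by
    apply Subtype.ext
    show iotaFun (r • u) = r • iotaFun u
    refine mat_ext2 ?_ ?_ ?_ ?_ <;>
      simp only [Matrix.smul_apply, Quaternion.re_smul, Quaternion.imI_smul, Quaternion.imJ_smul,
        Quaternion.imK_smul, io_00re, io_00imI, io_00imJ, io_00imK, io_01re, io_01imI, io_01imJ,
            io_01imK, io_10re, io_10imI, io_10imJ, io_10imK, io_11re, io_11imI, io_11imJ,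
            io_11imK] <;> refine ⟨?_, ?_, ?_, ?_⟩ <;>
      first | trivial | (simp; done) |
        (simp only [Prod.smul_fst, Prod.smul_snd, Pi.smul_apply, smul_eq_mul]; ring)
  left_inv u := coord_iota u
  right_inv X := Subtype.ext (iota_coord X.2)

/-- the coordinates `(a, x, y)` of `𝔪` -/
def iota : R9 ≃L[ℝ] m 1 1 := iotaL.toContinuousLinearEquiv

theorem iota_coe (u : R9) : ((iota u : m 1 1) : Mat) = iotaFun u := by
  unfold iota; rfl

theorem iota_br (u v : R9) :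
    ⁅((iota u : m 1 1) : Mat), ((iota v : m 1 1) : Mat)⁆ =
      ((iota (br u v) : m 1 1) : Mat) + brh u v • hU := by
  rw [iota_coe, iota_coe, iota_coe, Ring.lie_def]
  refine mat_ext2 ?_ ?_ ?_ ?_ <;>
    simp only [Matrix.mul_apply, Matrix.sub_apply, Matrix.add_apply, Matrix.smul_apply,
      Fin.sum_univ_two, Quaternion.re_add, Quaternion.imI_add, Quaternion.imJ_add,
      Quaternion.imK_add, Quaternion.re_sub, Quaternion.imI_sub, Quaternion.imJ_sub,
      Quaternion.imK_sub, Quaternion.re_smul, Quaternion.imI_smul, Quaternion.imJ_smul,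
      Quaternion.imK_smul, Quaternion.re_mul, Quaternion.imI_mul, Quaternion.imJ_mul,
      Quaternion.imK_mul, io_00re, io_00imI, io_00imJ, io_00imK, io_01re, io_01imI, io_01imJ,
          io_01imK, io_10re, io_10imI, io_10imJ, io_10imK, io_11re, io_11imI, io_11imJ, io_11imK,
          hU_00re, hU_00imI, hU_00imJ, hU_00imK, hU_01re, hU_01imI, hU_01imJ, hU_01imK, hU_10re,
          hU_10imI, hU_10imJ, hU_10imK, hU_11re, hU_11imI, hU_11imJ, hU_11imK] <;>
    refine ⟨?_, ?_, ?_, ?_⟩ <;>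
    first | trivial | (simp [br, brh, crossProduct, dotProduct, Fin.sum_univ_three]; done) |
      (simp [br, brh, crossProduct, dotProduct, Fin.sum_univ_three]; ring)

theorem hU_br (u : R9) :
    ⁅hU, ((iota u : m 1 1) : Mat)⁆ = ((iota (rot u) : m 1 1) : Mat) := by
  rw [iota_coe, iota_coe, Ring.lie_def]
  refine mat_ext2 ?_ ?_ ?_ ?_ <;>
    simp only [Matrix.mul_apply, Matrix.sub_apply,
      Fin.sum_univ_two, Quaternion.re_add, Quaternion.imI_add, Quaternion.imJ_add,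
      Quaternion.imK_add, Quaternion.re_sub, Quaternion.imI_sub, Quaternion.imJ_sub,
      Quaternion.imK_sub, Quaternion.re_mul, Quaternion.imI_mul, Quaternion.imJ_mul,
      Quaternion.imK_mul, io_00re, io_00imI, io_00imJ, io_00imK, io_01re, io_01imI, io_01imJ,
          io_01imK, io_10re, io_10imI, io_10imJ, io_10imK, io_11re, io_11imI, io_11imJ, io_11imK,
          hU_00re, hU_00imI, hU_00imJ, hU_00imK, hU_01re, hU_01imI, hU_01imJ, hU_01imK, hU_10re,
          hU_10imI, hU_10imJ, hU_10imK, hU_11re, hU_11imI, hU_11imJ, hU_11imK] <;>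
    refine ⟨?_, ?_, ?_, ?_⟩ <;> first | trivial | (simp [rot]; done) | (simp [rot]; ring)

theorem Q2_iota (u v : R9) :
    Q2 ((iota u : m 1 1) : Mat) ((iota v : m 1 1) : Mat) = dot9 u v := by
  rw [iota_coe, iota_coe, Q2, LinearMap.smul_apply, LinearMap.smul_apply, Sp2.QQ_apply,
    Sp2.retr_apply]
  simp only [Matrix.mul_apply, Fin.sum_univ_two, Quaternion.re_add, Quaternion.re_mul, io_00re,
      io_00imI, io_00imJ, io_00imK, io_01re, io_01imI, io_01imJ, io_01imK, io_10re, io_10imI,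
      io_10imJ, io_10imK, io_11re, io_11imI, io_11imJ, io_11imK,
    dot9, dotProduct, Fin.sum_univ_three, smul_eq_mul]
  ring

theorem Q2_hU (u : R9) : Q2 hU ((iota u : m 1 1) : Mat) = 0 := by
  have h1 : QQ (h0 1 1) (iotaFun u) = 0 := by
    rw [Sp2.QQ_h0]; simp only [io_00re, io_00imI, io_00imJ, io_00imK, io_01re, io_01imI,
        io_01imJ, io_01imK, io_10re, io_10imI, io_10imJ, io_10imK, io_11re, io_11imI, io_11imJ,
        io_11imK]; push_cast; ring
  rw [iota_coe, Q2, hU, map_smul, LinearMap.smul_apply, LinearMap.smul_apply,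
    LinearMap.smul_apply, h1]
  simp

theorem Q2_hU_hU : Q2 hU hU = 1 := by
  have h1 : QQ (h0 1 1) (h0 1 1) = 2 := by
    rw [Sp2.QQ_h0_h0]; norm_num
  simp only [Q2, hU, map_smul, LinearMap.smul_apply, h1, smul_eq_mul]
  norm_num

/-- a function on `ℝ⁹` as a function on `𝔪` -/
def toM (f : R9 → ℝ) (X : m 1 1) : ℝ := f (iota.symm X)

theorem toM_iota (f : R9 → ℝ) (u : R9) : toM f (iota u) = f u := by
  unfold toM; rw [ContinuousLinearEquiv.symm_apply_apply]

end Pool.Agent.FL.S2
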