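import Pool.Agent.FL.QF
import Pool.Agent.FL.S2Model
import Pool.Agent.helper75.FL.Jet

/-!
# MP_f09395_gt, space (2): the third order form of `v0 p` at flags, in coordinates
-/

set_option linter.unusedSectionVars false

noncomputable section

namespace Pool.Agent.FL.S2

open scoped ContDiff Quaternion Matrix
open Pool.Agent.Helper93.Fin Pool.Agent.helper79.FP Pool.Agent.helper79.FR
open Pool.Agent.helper79.FR.Sp2 (Mat QQ h0 m gg hh PP BB cc)

attribute [local instance] Matrix.linftyOpNormedRing Matrix.linftyOpNormedAlgebra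

/-! ### definitions -/

/-- the symmetric bilinear map with `t3om u u = (a × x, a × y, x × y)` -/
def t3om (u v : R9) : R9 :=
  ((1 / 2 : ℝ) • (u.1 ⨯₃ v.2.1 + v.1 ⨯₃ u.2.1), (1 / 2 : ℝ) • (u.1 ⨯₃ v.2.2 + v.1 ⨯₃ u.2.2),
    (1 / 2 : ℝ) • (u.2.1 ⨯₃ v.2.2 + v.2.1 ⨯₃ u.2.2))

/-- the form `N ⊕ N ⊕ (-N)` -/
def t3K (p : Par) (u v : R9) : ℝ :=
  u.1 ⬝ᵥ (p.N *ᵥ v.1) + u.2.1 ⬝ᵥ (p.N *ᵥ v.2.1) - u.2.2 ⬝ᵥ (p.N *ᵥ v.2.2)

/-- the polarisation of the quadratic part -/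
def t3q (p : Par) (u v : R9) : ℝ :=
  1 / 2 * (u.1 ⬝ᵥ (p.R *ᵥ v.1) + u.2.1 ⬝ᵥ (p.S *ᵥ v.2.1) + u.2.2 ⬝ᵥ (p.S *ᵥ v.2.2)
    + p.ν ⬝ᵥ (u.2.1 ⨯₃ v.2.2) + p.ν ⬝ᵥ (v.2.1 ⨯₃ u.2.2))

/-- the vector representing `t3q p u` -/
def t3qg (p : Par) (u : R9) : R9 :=
  ((1 / 2 : ℝ) • p.R *ᵥ u.1, (1 / 2 : ℝ) • (p.S *ᵥ u.2.1 + u.2.2 ⨯₃ p.ν),
    (1 / 2 : ℝ) • (p.S *ᵥ u.2.2 + p.ν ⨯₃ u.2.1))

/-- the vector representing `z ↦ t3K p W (t3om u z)` -/
def t3Kg (p : Par) (W u : R9) : R9 :=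
  ((1 / 2 : ℝ) • (u.2.1 ⨯₃ (p.N *ᵥ W.1) + u.2.2 ⨯₃ (p.N *ᵥ W.2.1)),
    (1 / 2 : ℝ) • ((p.N *ᵥ W.1) ⨯₃ u.1 - u.2.2 ⨯₃ (p.N *ᵥ W.2.2)),
    (1 / 2 : ℝ) • ((p.N *ᵥ W.2.1) ⨯₃ u.1 - (p.N *ᵥ W.2.2) ⨯₃ u.2.1))

/-- first derivative of the part of `v0` of degree four, at unit vectors -/
def t3F1 (p : Par) (u a : R9) : ℝ :=
  4 * t3K p (t3om u u) (t3om u a) - 2 * t3K p (t3om u u) (t3om u u) * dot9 u a

/-- second derivative -/
def t3F2 (p : Par) (u a b : R9) : ℝ :=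
  4 * t3K p (t3om u u) (t3om a b) + 8 * t3K p (t3om u a) (t3om u b)
    - 2 * t3K p (t3om u u) (t3om u u) * dot9 a b
    - 2 * dot9 u b * t3F1 p u a - 2 * dot9 u a * t3F1 p u b

/-- third derivative -/
def t3F3 (p : Par) (u a b c : R9) : ℝ :=
  8 * (t3K p (t3om u a) (t3om b c) + t3K p (t3om u b) (t3om a c) + t3K p (t3om u c) (t3om a b))
    - 2 * dot9 u a * t3F2 p u b c - 2 * dot9 u b * t3F2 p u a c - 2 * dot9 u c * t3F2 p u a b
    - 2 * dot9 a b * t3F1 p u c - 2 * dot9 a c * t3F1 p u b - 2 * dot9 b c * t3F1 p u a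

/-- fourth derivative -/
def t3F4 (p : Par) (u a b c d : R9) : ℝ :=
  8 * (t3K p (t3om a d) (t3om b c) + t3K p (t3om b d) (t3om a c) + t3K p (t3om c d) (t3om a b))
    - 2 * dot9 u a * t3F3 p u b c d - 2 * dot9 u b * t3F3 p u a c d
    - 2 * dot9 u c * t3F3 p u a b d - 2 * dot9 u d * t3F3 p u a b c
    - 2 * dot9 a b * t3F2 p u c d - 2 * dot9 a c * t3F2 p u b d - 2 * dot9 a d * t3F2 p u b c
    - 2 * dot9 b c * t3F2 p u a d - 2 * dot9 b d * t3F2 p u a c - 2 * dot9 c d * t3F2 p u a b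

/-- the gradient of `v0 p` at a unit vector -/
def t3x (p : Par) (u : R9) : R9 :=
  (2 : ℝ) • t3qg p u + (4 : ℝ) • t3Kg p (t3om u u) u
    - (2 * t3K p (t3om u u) (t3om u u)) • u

/-- the derivative of the gradient in the direction `b`, at unit flags -/
def t3s (p : Par) (u b : R9) : R9 :=
  (2 : ℝ) • t3qg p b + (4 : ℝ) • t3Kg p (t3om u u) b + (8 : ℝ) • t3Kg p (t3om u b) u
    - (2 * t3K p (t3om u u) (t3om u u)) • b - (2 * t3F1 p u b) • u

/-- the second derivative of the gradient in the direction `b`, at unit flags -/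
def t3y (p : Par) (u b : R9) : R9 :=
  (16 : ℝ) • t3Kg p (t3om u b) b + (8 : ℝ) • t3Kg p (t3om b b) u
    - (2 * t3F2 p u b b) • u - (2 : ℝ) • ((4 : ℝ) • t3Kg p (t3om u u) u
    - (2 * t3K p (t3om u u) (t3om u u)) • u) - (4 * t3F1 p u b) • b

/-- the third order form in coordinates, as a function of `x, s, y, e = [u, x], P = [b, x],
r = [u, s]` -/
def t3z (p : Par) (u b x s y e P r : R9) : ℝ :=
  - (1 / 2) * (16 * t3K p (t3om b e) (t3om b e) + 8 * t3K p (t3om b b) (t3om e e)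
      - 2 * t3F2 p u e e - 2 * dot9 e e * t3F2 p u b b)
    - (8 * (t3K p (t3om u b) (t3om e ((2 : ℝ) • P - r)) + t3K p (t3om u e) (t3om b ((2 : ℝ) • P - r))
          + t3K p (t3om u ((2 : ℝ) • P - r)) (t3om b e))
        - 2 * dot9 u ((2 : ℝ) • P - r) * t3F2 p u b e - 2 * dot9 b ((2 : ℝ) • P - r) * t3F1 p u e
        - 2 * dot9 e ((2 : ℝ) • P - r) * t3F1 p u b)
    + (1 / 2) * (2 * t3q p e ((2 : ℝ) • br b s + br u y) + t3F2 p u e ((2 : ℝ) • br b s + br u y))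
    - (2 * t3q p P P + t3F2 p u P P) + (2 * t3q p P r + t3F2 p u P r)
    - (2 * t3q p r r + t3F2 p u r r)
    - dot9 (P - r) (br x s) - (1 / 2) * dot9 (br x y) e

/-- **the third order form of `v0 p` at a flag** (Lean sign) -/
def T3x (p : Par) (u b : R9) : ℝ :=
  t3z p u b (t3x p u) (t3s p u b) (t3y p u b) (br u (t3x p u)) (br b (t3x p u))
    (br u (t3s p u b))

/-! ### algebra of the forms -/

theorem t3om_comm (u v : R9) : t3om u v = t3om v u := by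
  unfold t3om
  refine Prod.ext ?_ (Prod.ext ?_ ?_) <;> simp only <;> congr 1
  · rw [add_comm]
  · rw [add_comm]
  · rw [add_comm]

/-- symmetric parameters -/
structure Par.Symm (p : Par) : Prop where
  R : p.R.transpose = p.R
  S : p.S.transpose = p.S
  N : p.N.transpose = p.N

theorem t3_dot_mulVec_comm {M : Matrix (Fin 3) (Fin 3) ℝ} (hM : M.transpose = M) (a b : R3) :
    a ⬝ᵥ (M *ᵥ b) = b ⬝ᵥ (M *ᵥ a) := by
  rw [Matrix.dotProduct_mulVec, ← Matrix.mulVec_transpose, hM, dotProduct_comm]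

variable {p : Par}

theorem t3K_comm (hp : p.Symm) (u v : R9) : t3K p u v = t3K p v u := by
  unfold t3K
  rw [t3_dot_mulVec_comm hp.N, t3_dot_mulVec_comm hp.N u.2.1, t3_dot_mulVec_comm hp.N u.2.2]

theorem t3q_comm (hp : p.Symm) (u v : R9) : t3q p u v = t3q p v u := by
  unfold t3q
  rw [t3_dot_mulVec_comm hp.R, t3_dot_mulVec_comm hp.S u.2.1, t3_dot_mulVec_comm hp.S u.2.2]
  ring

theorem t3_dot9_comm (u v : R9) : dot9 u v = dot9 v u := by
  unfold dot9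
  rw [dotProduct_comm, dotProduct_comm u.2.1, dotProduct_comm u.2.2]

theorem t3qg_dot (hp : p.Symm) (u v : R9) : dot9 (t3qg p u) v = t3q p u v := by
  unfold dot9 t3qg t3q
  simp only [smul_dotProduct, add_dotProduct, smul_eq_mul]
  rw [dotProduct_comm (p.R *ᵥ u.1), dotProduct_comm (p.S *ᵥ u.2.1),
    dotProduct_comm (p.S *ᵥ u.2.2), t3_dot_mulVec_comm hp.R v.1, t3_dot_mulVec_comm hp.S v.2.1,
    t3_dot_mulVec_comm hp.S v.2.2]
  simp only [crossProduct, dotProduct, Fin.sum_univ_three]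
  simp
  ring

theorem t3Kg_dot (hp : p.Symm) (W u v : R9) : dot9 (t3Kg p W u) v = t3K p W (t3om u v) := by
  unfold dot9 t3Kg t3K t3om
  rw [t3_dot_mulVec_comm hp.N, t3_dot_mulVec_comm hp.N W.2.1, t3_dot_mulVec_comm hp.N W.2.2]
  obtain ⟨n1, h1⟩ : ∃ n, n = p.N *ᵥ W.1 := ⟨_, rfl⟩
  obtain ⟨n2, h2⟩ : ∃ n, n = p.N *ᵥ W.2.1 := ⟨_, rfl⟩
  obtain ⟨n3, h3⟩ : ∃ n, n = p.N *ᵥ W.2.2 := ⟨_, rfl⟩
  rw [← h1, ← h2, ← h3]
  simp only [crossProduct, dotProduct, Fin.sum_univ_three]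
  simp
  ring

/-! ### continuous bilinear versions -/

/-- `t3om` as a continuous bilinear map -/
def t3omL : R9 →L[ℝ] R9 →L[ℝ] R9 :=
  (LinearMap.mk₂ ℝ t3om
    (fun a b c => by
      unfold t3om
      refine Prod.ext ?_ (Prod.ext ?_ ?_) <;> ext i <;> fin_cases i <;>
        simp [crossProduct] <;> ring)
    (fun r a b => by
      unfold t3om
      refine Prod.ext ?_ (Prod.ext ?_ ?_) <;> ext i <;> fin_cases i <;>
        simp [crossProduct] <;> ring)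
    (fun a b c => by
      unfold t3om
      refine Prod.ext ?_ (Prod.ext ?_ ?_) <;> ext i <;> fin_cases i <;>
        simp [crossProduct] <;> ring)
    (fun r a b => by
      unfold t3om
      refine Prod.ext ?_ (Prod.ext ?_ ?_) <;> ext i <;> fin_cases i <;>
        simp [crossProduct] <;> ring)).toContinuousBilinearMap

theorem t3omL_apply (u v : R9) : t3omL u v = t3om u v := rfl

/-- `t3K` as a continuous bilinear map -/
def t3KL (p : Par) : R9 →L[ℝ] R9 →L[ℝ] ℝ :=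
  (LinearMap.mk₂ ℝ (t3K p)
    (fun a b c => by
      unfold t3K
      simp only [Prod.fst_add, Prod.snd_add, add_dotProduct]; ring)
    (fun r a b => by
      unfold t3K
      simp only [Prod.smul_fst, Prod.smul_snd, smul_dotProduct, smul_eq_mul]; ring)
    (fun a b c => by
      unfold t3K
      simp only [Prod.fst_add, Prod.snd_add, Matrix.mulVec_add, dotProduct_add]; ring)
    (fun r a b => by
      unfold t3K
      simp only [Prod.smul_fst, Prod.smul_snd, Matrix.mulVec_smul, dotProduct_smul,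
        smul_eq_mul]; ring)).toContinuousBilinearMap

theorem t3KL_apply (u v : R9) : t3KL p u v = t3K p u v := rfl

/-- `t3q` as a continuous bilinear map -/
def t3qL (p : Par) : R9 →L[ℝ] R9 →L[ℝ] ℝ :=
  (LinearMap.mk₂ ℝ (t3q p)
    (fun a b c => by
      unfold t3q
      simp only [Prod.fst_add, Prod.snd_add, add_dotProduct, Matrix.mulVec_add, dotProduct_add,
        map_add, LinearMap.add_apply]; ring)
    (fun r a b => by
      unfold t3q
      simp only [Prod.smul_fst, Prod.smul_snd, smul_dotProduct, Matrix.mulVec_smul,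
        dotProduct_smul, smul_eq_mul, map_smul, LinearMap.smul_apply]; ring)
    (fun a b c => by
      unfold t3q
      simp only [Prod.fst_add, Prod.snd_add, Matrix.mulVec_add, dotProduct_add, map_add,
        LinearMap.add_apply]; ring)
    (fun r a b => by
      unfold t3q
      simp only [Prod.smul_fst, Prod.smul_snd, Matrix.mulVec_smul, dotProduct_smul,
        smul_eq_mul, map_smul, LinearMap.smul_apply]; ring)).toContinuousBilinearMap

theorem t3qL_apply (u v : R9) : t3qL p u v = t3q p u v := rfl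

/-- `dot9` as a continuous bilinear map -/
def t3_dot9L : R9 →L[ℝ] R9 →L[ℝ] ℝ :=
  (LinearMap.mk₂ ℝ dot9
    (fun a b c => by
      unfold dot9
      simp only [Prod.fst_add, Prod.snd_add, add_dotProduct]; ring)
    (fun r a b => by
      unfold dot9
      simp only [Prod.smul_fst, Prod.smul_snd, smul_dotProduct, smul_eq_mul]; ring)
    (fun a b c => by
      unfold dot9
      simp only [Prod.fst_add, Prod.snd_add, dotProduct_add]; ring)
    (fun r a b => by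
      unfold dot9
      simp only [Prod.smul_fst, Prod.smul_snd, dotProduct_smul,
        smul_eq_mul]; ring)).toContinuousBilinearMap

theorem t3_dot9L_apply (u v : R9) : t3_dot9L u v = dot9 u v := rfl

theorem t3_vq_eq (u : R9) : vq p u = t3qL p u u := by
  rw [t3qL_apply]; unfold vq t3q; ring

theorem t3_vN_eq (u : R9) : vN p u = QFG (t3KL p) t3omL u / dot9 u u := by
  unfold vN QFG
  rw [t3KL_apply, t3omL_apply]
  congr 1
  unfold t3K t3om BBm
  simp only [Fin.sum_univ_three, dotProduct, Matrix.mulVec, Pi.smul_apply, smul_eq_mul,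
    Pi.add_apply]
  ring

theorem t3_dot9_self_nonneg (u : R9) : 0 ≤ dot9 u u := by
  unfold dot9
  have h : ∀ a : R3, 0 ≤ a ⬝ᵥ a := fun a => by
    simp only [dotProduct, Fin.sum_univ_three]
    linarith [mul_self_nonneg (a 0), mul_self_nonneg (a 1), mul_self_nonneg (a 2)]
  linarith [h u.1, h u.2.1, h u.2.2]

theorem t3_dot9_self_ne {u : R9} (hu : u ≠ 0) : dot9 u u ≠ 0 := by
  intro h0
  apply hu
  have h : ∀ a : R3, 0 ≤ a ⬝ᵥ a := fun a => by
    simp only [dotProduct, Fin.sum_univ_three]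
    linarith [mul_self_nonneg (a 0), mul_self_nonneg (a 1), mul_self_nonneg (a 2)]
  have h' : ∀ a : R3, a ⬝ᵥ a = 0 → a = 0 := fun a ha => dotProduct_self_eq_zero.1 ha
  unfold dot9 at h0
  have h1 := h' u.1 (by linarith [h u.1, h u.2.1, h u.2.2])
  have h2 := h' u.2.1 (by linarith [h u.1, h u.2.1, h u.2.2])
  have h3 := h' u.2.2 (by linarith [h u.1, h u.2.1, h u.2.2])
  exact Prod.ext h1 (Prod.ext h2 h3)

theorem t3_dot9_smooth : ContDiffOn ℝ ∞ (fun z : R9 => dot9 z z) {0}ᶜ :=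
  (t3_dot9L.contDiff.clm_apply contDiff_id).contDiffOn

theorem t3_vN_smooth : ContDiffOn ℝ ∞ (vN p) {0}ᶜ := by
  have h1 : vN p = fun u => QFG (t3KL p) t3omL u * (dot9 u u)⁻¹ := funext fun u => by
    rw [t3_vN_eq]; rfl
  rw [h1]
  exact QFG_smooth.contDiffOn.mul (t3_dot9_smooth.inv fun u hu => t3_dot9_self_ne hu)

theorem t3_vq_smooth : ContDiffOn ℝ ∞ (vq p) {0}ᶜ := by
  have h1 : vq p = fun u => t3qL p u u := funext t3_vq_eq
  rw [h1]
  exact ((t3qL p).contDiff.clm_apply contDiff_id).contDiffOn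

theorem t3_v0_smooth : ContDiffOn ℝ ∞ (v0 p) {0}ᶜ := t3_vq_smooth.add t3_vN_smooth

theorem t3_vN_mul : (fun z => vN p z * dot9 z z) = QFG (t3KL p) t3omL := by
  funext z
  rw [t3_vN_eq]
  by_cases hz : z = 0
  · rw [hz]
    have h1 : QFG (t3KL p) t3omL (0 : R9) = 0 := by simp [QFG]
    rw [h1]; simp
  · rw [div_mul_cancel₀ _ (t3_dot9_self_ne hz)]

theorem t3_dq1 (u a : R9) : D1 (fun z : R9 => dot9 z z) u a = 2 * dot9 u a :=
  QF_q1 (q := t3_dot9L) t3_dot9_comm u a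

theorem t3_dq2 (u a b : R9) : D2 (fun z : R9 => dot9 z z) u a b = 2 * dot9 a b :=
  QF_q2 (q := t3_dot9L) t3_dot9_comm u a b

theorem t3_dq3 (u a b c : R9) : D3 (fun z : R9 => dot9 z z) u a b c = 0 :=
  QF_q3 (q := t3_dot9L) t3_dot9_comm u a b c

theorem t3_dq4 (u a b c d : R9) : D4 (fun z : R9 => dot9 z z) u a b c d = 0 :=
  QF_q4 (q := t3_dot9L) t3_dot9_comm u a b c d

theorem t3_vN_D0 {u : R9} (h1 : dot9 u u = 1) : vN p u = t3K p (t3om u u) (t3om u u) := by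
  rw [t3_vN_eq, h1, div_one]; rfl

theorem t3_unit_ne {u : R9} (h1 : dot9 u u = 1) : u ≠ 0 := by
  rintro rfl
  simp [dot9] at h1

theorem t3_vN_D1 (hp : p.Symm) {u : R9} (h1 : dot9 u u = 1) (a : R9) :
    D1 (vN p) u a = t3F1 p u a := by
  have e := D1_mul (t3_vN_smooth (p := p)) t3_dot9_smooth (t3_unit_ne h1) a
  rw [t3_vN_mul, QFG_1 (t3K_comm hp) t3om_comm, t3_dq1, h1, t3_vN_D0 h1] at e
  rw [t3KL_apply, t3omL_apply, t3omL_apply] at e
  unfold t3F1
  linarith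

theorem t3_vN_D2 (hp : p.Symm) {u : R9} (h1 : dot9 u u = 1) (a b : R9) :
    D2 (vN p) u a b = t3F2 p u a b := by
  have e := D2_mul (t3_vN_smooth (p := p)) t3_dot9_smooth (t3_unit_ne h1) a b
  rw [t3_vN_mul, QFG_2 (t3K_comm hp) t3om_comm, t3_dq1, t3_dq1, t3_dq2, h1, t3_vN_D0 h1, t3_vN_D1 hp h1,
    t3_vN_D1 hp h1] at e
  simp only [t3KL_apply, t3omL_apply] at e
  unfold t3F2
  linarith

theorem t3_vN_D3 (hp : p.Symm) {u : R9} (h1 : dot9 u u = 1) (a b c : R9) :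
    D3 (vN p) u a b c = t3F3 p u a b c := by
  have e := Pool.Agent.helper75.FL.D3_mul (t3_vN_smooth (p := p)) t3_dot9_smooth (t3_unit_ne h1) a b c
  rw [t3_vN_mul, QFG_3 (t3K_comm hp) t3om_comm] at e
  simp only [t3_dq1, t3_dq2, t3_dq3, h1, t3_vN_D0 h1, t3_vN_D1 hp h1, t3_vN_D2 hp h1, t3KL_apply,
    t3omL_apply] at e
  unfold t3F3
  linarith

theorem t3_vN_D4 (hp : p.Symm) {u : R9} (h1 : dot9 u u = 1) (a b c d : R9) :
    D4 (vN p) u a b c d = t3F4 p u a b c d := by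
  have e := Pool.Agent.helper75.FL.D4_mul (t3_vN_smooth (p := p)) t3_dot9_smooth (t3_unit_ne h1) a b c d
  rw [t3_vN_mul, QFG_4 (t3K_comm hp) t3om_comm] at e
  simp only [t3_dq1, t3_dq2, t3_dq3, t3_dq4, h1, t3_vN_D0 h1, t3_vN_D1 hp h1, t3_vN_D2 hp h1, t3_vN_D3 hp h1,
    t3KL_apply, t3omL_apply] at e
  unfold t3F4
  linarith

theorem t3_v0_D1 (hp : p.Symm) {u : R9} (h1 : dot9 u u = 1) (a : R9) :
    D1 (v0 p) u a = 2 * t3q p u a + t3F1 p u a := by
  have e := D1_sum (t3_vq_smooth (p := p)) (t3_vN_smooth (p := p)) (t3_unit_ne h1) a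
  have e2 : D1 (vq p) u a = 2 * t3q p u a := by
    rw [show vq p = fun u => t3qL p u u from funext t3_vq_eq]
    exact QF_q1 (q := t3qL p) (t3q_comm hp) u a
  rw [e2, t3_vN_D1 hp h1] at e
  exact e

theorem t3_v0_D2 (hp : p.Symm) {u : R9} (h1 : dot9 u u = 1) (a b : R9) :
    D2 (v0 p) u a b = 2 * t3q p a b + t3F2 p u a b := by
  have e := D2_sum (t3_vq_smooth (p := p)) (t3_vN_smooth (p := p)) (t3_unit_ne h1) a b
  have e2 : D2 (vq p) u a b = 2 * t3q p a b := by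
    rw [show vq p = fun u => t3qL p u u from funext t3_vq_eq]
    exact QF_q2 (q := t3qL p) (t3q_comm hp) u a b
  rw [e2, t3_vN_D2 hp h1] at e
  exact e

theorem t3_v0_D3 (hp : p.Symm) {u : R9} (h1 : dot9 u u = 1) (a b c : R9) :
    D3 (v0 p) u a b c = t3F3 p u a b c := by
  have e := D3_sum (t3_vq_smooth (p := p)) (t3_vN_smooth (p := p)) (t3_unit_ne h1) a b c
  have e2 : D3 (vq p) u a b c = 0 := by
    rw [show vq p = fun u => t3qL p u u from funext t3_vq_eq]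
    exact QF_q3 (q := t3qL p) (t3q_comm hp) u a b c
  rw [e2, t3_vN_D3 hp h1, zero_add] at e
  exact e

theorem t3_v0_D4 (hp : p.Symm) {u : R9} (h1 : dot9 u u = 1) (a b c d : R9) :
    D4 (v0 p) u a b c d = t3F4 p u a b c d := by
  have e := D4_sum (t3_vq_smooth (p := p)) (t3_vN_smooth (p := p)) (t3_unit_ne h1) a b c d
  have e2 : D4 (vq p) u a b c d = 0 := by
    rw [show vq p = fun u => t3qL p u u from funext t3_vq_eq]
    exact QF_q4 (q := t3qL p) (t3q_comm hp) u a b c d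
  rw [e2, t3_vN_D4 hp h1, zero_add] at e
  exact e

/-! ### the vectors `x`, `s`, `y` -/

theorem t3_dot9_add (a b c : R9) : dot9 (a + b) c = dot9 a c + dot9 b c := by
  show t3_dot9L (a + b) c = _
  rw [map_add]; rfl

theorem t3_dot9_sub (a b c : R9) : dot9 (a - b) c = dot9 a c - dot9 b c := by
  show t3_dot9L (a - b) c = _
  rw [map_sub]; rfl

theorem t3_dot9_smul (r : ℝ) (a c : R9) : dot9 (r • a) c = r * dot9 a c := by
  show t3_dot9L (r • a) c = _
  rw [map_smul]; rfl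

theorem t3x_dot (hp : p.Symm) {u : R9} (h1 : dot9 u u = 1) (w : R9) :
    dot9 (t3x p u) w = D1 (v0 p) u w := by
  rw [t3_v0_D1 hp h1, t3x]
  simp only [t3_dot9_add, t3_dot9_sub, t3_dot9_smul, t3qg_dot hp, t3Kg_dot hp, t3F1]
  ring

theorem t3s_dot (hp : p.Symm) {u b : R9} (h1 : dot9 u u = 1) (h2 : dot9 u b = 0) (w : R9) :
    dot9 (t3s p u b) w = D2 (v0 p) u b w := by
  rw [t3_v0_D2 hp h1, t3s]
  simp only [t3_dot9_add, t3_dot9_sub, t3_dot9_smul, t3qg_dot hp, t3Kg_dot hp, t3F2, h2]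
  ring

theorem t3y_dot (hp : p.Symm) {u b : R9} (h1 : dot9 u u = 1) (h2 : dot9 u b = 0)
    (h3 : dot9 b b = 1) (w : R9) :
    dot9 (t3y p u b) w = D3 (v0 p) u b b w := by
  rw [t3_v0_D3 hp h1, t3y]
  simp only [t3_dot9_add, t3_dot9_sub, t3_dot9_smul, t3Kg_dot hp, t3F3, h2, h3]
  rw [t3K_comm hp (t3om b b) (t3om u w)]
  simp only [t3F1, h2]
  ring

/-! ### transfer from `𝔪` -/

theorem t3_toM_D1 (f : R9 → ℝ) (u a : m 1 1) :
    D1 (toM f) u a = D1 f (iota.symm u) (iota.symm a) := by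
  have h2 := ContinuousLinearEquiv.comp_right_fderiv (iota.symm) (f := f) (x := u)
  exact congrArg (fun T : m 1 1 →L[ℝ] ℝ => T a) h2

theorem t3_toM_D2 (f : R9 → ℝ) (u a b : m 1 1) :
    D2 (toM f) u a b = D2 f (iota.symm u) (iota.symm a) (iota.symm b) := by
  rw [D2, show (fun z => D1 (toM f) z a) = toM fun z => D1 f z (iota.symm a) from
    funext fun z => t3_toM_D1 f z a]
  exact t3_toM_D1 _ u b

theorem t3_toM_D3 (f : R9 → ℝ) (u a b c : m 1 1) :
    D3 (toM f) u a b c = D3 f (iota.symm u) (iota.symm a) (iota.symm b) (iota.symm c) := by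
  rw [D3, show (fun z => D2 (toM f) z a b) = toM fun z => D2 f z (iota.symm a) (iota.symm b) from
    funext fun z => t3_toM_D2 f z a b]
  exact t3_toM_D1 _ u c

theorem t3_toM_D4 (f : R9 → ℝ) (u a b c d : m 1 1) :
    D4 (toM f) u a b c d =
      D4 f (iota.symm u) (iota.symm a) (iota.symm b) (iota.symm c) (iota.symm d) := by
  rw [D4, show (fun z => D3 (toM f) z a b c) =
    toM fun z => D3 f z (iota.symm a) (iota.symm b) (iota.symm c) from
    funext fun z => t3_toM_D3 f z a b c]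
  exact t3_toM_D1 _ u d

theorem t3_PP_hU : PP 1 1 hU = 0 := by
  apply Subtype.ext
  rw [Sp2.PP_coe]
  have h1 : star hU = -hU := by
    rw [hU, Sp2.star_smul_mat, Sp2.star_h0, smul_neg]
  have h2 : QQ hU (h0 1 1) / QQ (h0 1 1) (h0 1 1) = 1 / 2 := by
    rw [hU, map_smul, LinearMap.smul_apply, smul_eq_mul, mul_div_assoc, div_self, mul_one]
    rw [Sp2.QQ_h0_h0]; norm_num
  rw [h1, h2, hU]
  simp only [ZeroMemClass.coe_zero]
  module

theorem t3_PP_iota (u : R9) : PP 1 1 ((iota u : m 1 1) : Mat) = iota u := by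
  apply Subtype.ext
  rw [Sp2.PP_coe]
  have h1 : star ((iota u : m 1 1) : Mat) = -((iota u : m 1 1) : Mat) := (iota u).2.1
  have h2 : QQ ((iota u : m 1 1) : Mat) (h0 1 1) = 0 := by
    have h3 := Q2_hU u
    have h4 : Q2 hU ((iota u : m 1 1) : Mat) = 2 * (1 / 2 * QQ (h0 1 1) (iota u : m 1 1)) := by
      rw [Q2, hU, LinearMap.smul_apply, LinearMap.smul_apply, map_smul, LinearMap.smul_apply]
      simp only [smul_eq_mul]
    rw [Sp2.QQ_comm]
    linarith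
  rw [h1, h2]
  simp only [zero_div, zero_smul]
  module

theorem t3_PP_br (u v : R9) :
    PP 1 1 ⁅((iota u : m 1 1) : Mat), ((iota v : m 1 1) : Mat)⁆ = iota (br u v) := by
  rw [iota_br, map_add, map_smul, t3_PP_hU, smul_zero, add_zero, t3_PP_iota]

theorem t3_Q2_m_br (w u v : R9) :
    Q2 ((iota w : m 1 1) : Mat) ⁅((iota u : m 1 1) : Mat), ((iota v : m 1 1) : Mat)⁆ =
      dot9 w (br u v) := by
  rw [iota_br, map_add, map_smul, Q2_iota]
  have h1 : Q2 ((iota w : m 1 1) : Mat) hU = 0 := by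
    have h2 := Q2_hU w
    have h3 : Q2 ((iota w : m 1 1) : Mat) hU = Q2 hU ((iota w : m 1 1) : Mat) := by
      rw [Q2, LinearMap.smul_apply, LinearMap.smul_apply, LinearMap.smul_apply,
        LinearMap.smul_apply, Sp2.QQ_comm]
    rw [h3, h2]
  rw [h1, smul_zero, add_zero]

theorem t3_Q2_br_m (w u v : R9) :
    Q2 ⁅((iota u : m 1 1) : Mat), ((iota v : m 1 1) : Mat)⁆ ((iota w : m 1 1) : Mat) =
      dot9 (br u v) w := by
  rw [iota_br, map_add, map_smul, LinearMap.add_apply, LinearMap.smul_apply, Q2_iota, Q2_hU,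
    smul_zero, add_zero]

/-- the third order form in coordinates -/
def t3M (f : R9 → ℝ) (u b x s y : R9) : ℝ :=
  - (1 / 2) * D4 f u b b (br u x) (br u x)
    - D3 f u b (br u x) ((2 : ℝ) • br b x - br u s)
    + (1 / 2) * D2 f u (br u x) ((2 : ℝ) • br b s + br u y)
    - D2 f u (br b x) (br b x) + D2 f u (br b x) (br u s) - D2 f u (br u s) (br u s)
    - dot9 (br b x - br u s) (br x s) - (1 / 2) * dot9 (br x y) (br u x)

theorem t3_T3N_gen {𝔸 : Type*} [NormedRing 𝔸] [NormedAlgebra ℝ 𝔸] {m : Submodule ℝ 𝔸}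
    {Q : 𝔸 →ₗ[ℝ] 𝔸 →ₗ[ℝ] ℝ} {P : 𝔸 →L[ℝ] m} {φ : m → ℝ} {u b x s y e w r z : m}
    (he : P ⁅(u : 𝔸), (x : 𝔸)⁆ = e) (hw : P ⁅(b : 𝔸), (x : 𝔸)⁆ = w)
    (hr : P ⁅(u : 𝔸), (s : 𝔸)⁆ = r)
    (hz : P ((2 : ℝ) • ⁅(b : 𝔸), (s : 𝔸)⁆ + ⁅(u : 𝔸), (y : 𝔸)⁆) = z) :
    T3N Q P φ u b x s y = - (1 / 2) * D4 φ u b b e e - D3 φ u b e ((2 : ℝ) • w - r)
      + (1 / 2) * D2 φ u e z - D2 φ u w w + D2 φ u w r - D2 φ u r r
      - Q (w - r : m) ⁅(x : 𝔸), (s : 𝔸)⁆ - (1 / 2) * Q ⁅(x : 𝔸), (y : 𝔸)⁆ (e : m) := by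
  subst he hw hr hz
  rfl

theorem t3_T3N_toM (f : R9 → ℝ) (u b x s y : R9) :
    T3N Q2 (PP 1 1) (toM f) (iota u) (iota b) (iota x) (iota s) (iota y) =
      t3M f u b x s y := by
  have h1 : PP 1 1 ((2 : ℝ) • ⁅((iota b : m 1 1) : Mat), ((iota s : m 1 1) : Mat)⁆
      + ⁅((iota u : m 1 1) : Mat), ((iota y : m 1 1) : Mat)⁆) =
      iota ((2 : ℝ) • br b s + br u y) := by
    rw [map_add, map_smul, t3_PP_br, t3_PP_br, map_add, map_smul]
  rw [t3_T3N_gen (t3_PP_br u x) (t3_PP_br b x) (t3_PP_br u s) h1]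
  unfold t3M
  rw [← map_smul, ← map_sub, ← map_sub, t3_Q2_m_br, t3_Q2_br_m]
  simp only [t3_toM_D2, t3_toM_D3, t3_toM_D4, ContinuousLinearEquiv.symm_apply_apply]

theorem t3_dot_br_self (u x : R9) : dot9 u (br u x) = 0 := by
  unfold dot9 br
  simp only [crossProduct, dotProduct, Fin.sum_univ_three]
  simp
  ring

theorem t3_dot_br (u b x : R9) : dot9 b (br u x) = - dot9 (br u b) x := by
  unfold dot9 br
  simp only [crossProduct, dotProduct, Fin.sum_univ_three]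
  simp
  ring

/-- the third order form of `v0 p` at orthonormal commuting pairs -/
theorem t3M_v0 (hp : p.Symm) {u b : R9} (h1 : dot9 u u = 1) (h2 : dot9 b b = 1)
    (h3 : dot9 u b = 0) (h4 : br u b = 0) :
    t3M (v0 p) u b (t3x p u) (t3s p u b) (t3y p u b) = T3x p u b := by
  unfold t3M T3x t3z
  obtain ⟨x, hx⟩ : ∃ x, x = t3x p u := ⟨_, rfl⟩
  obtain ⟨s, hs⟩ : ∃ s, s = t3s p u b := ⟨_, rfl⟩
  obtain ⟨y, hy⟩ : ∃ y, y = t3y p u b := ⟨_, rfl⟩
  rw [← hx, ← hs, ← hy]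
  have k1 := t3_dot_br_self u x
  have k2 : dot9 b (br u x) = 0 := by
    rw [t3_dot_br, h4]
    simp [dot9]
  obtain ⟨e, he⟩ : ∃ e, e = br u x := ⟨_, rfl⟩
  rw [← he] at k1 k2 ⊢
  rw [t3_v0_D4 hp h1, t3_v0_D3 hp h1, t3_v0_D2 hp h1, t3_v0_D2 hp h1, t3_v0_D2 hp h1,
    t3_v0_D2 hp h1]
  unfold t3F4 t3F3
  rw [h3, k1, k2, h2, t3K_comm hp (t3om e e) (t3om b b)]
  ring

/-- **value of the third order form** -/
theorem T3F_v0 (hN : NData gg (hh 1 1) (m 1 1) Q2 (PP 1 1)) (hp : p.Symm) {u b : R9}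
    (hF : Flg u b) :
    T3F Q2 (PP 1 1) (toM (v0 p)) (iota u) (iota b) = T3x p u b := by
  have hw : ∀ w : m 1 1, iota (iota.symm w) = w := fun w =>
    ContinuousLinearEquiv.apply_symm_apply iota w
  have hx : ∀ w : m 1 1, Q2 ((iota (t3x p u) : m 1 1) : Mat) w =
      D1 (toM (v0 p)) (iota u) w := fun w => by
    rw [t3_toM_D1, ContinuousLinearEquiv.symm_apply_apply, ← t3x_dot hp hF.uu, ← Q2_iota, hw]
  have hs : ∀ w : m 1 1, Q2 ((iota (t3s p u b) : m 1 1) : Mat) w =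
      D2 (toM (v0 p)) (iota u) (iota b) w := fun w => by
    rw [t3_toM_D2, ContinuousLinearEquiv.symm_apply_apply,
      ContinuousLinearEquiv.symm_apply_apply, ← t3s_dot hp hF.uu hF.ub, ← Q2_iota, hw]
  have hy : ∀ w : m 1 1, Q2 ((iota (t3y p u b) : m 1 1) : Mat) w =
      D3 (toM (v0 p)) (iota u) (iota b) (iota b) w := fun w => by
    rw [t3_toM_D3, ContinuousLinearEquiv.symm_apply_apply,
      ContinuousLinearEquiv.symm_apply_apply, ← t3y_dot hp hF.uu hF.ub hF.bb, ← Q2_iota, hw]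
  rw [← T3F_eq hN hx hs hy, t3_T3N_toM, t3M_v0 hp hF.uu hF.bb hF.ub hF.br]

end Pool.Agent.FL.S2
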