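import Pool.Agent.FL.GE2

/-!
# MP_f09395_gt, space (2): the data for `Q2 = 2 Q`, `hU = h₀ / 2` and the isotropy group in
coordinates
-/

set_option linter.unusedSectionVars false

noncomputable section

namespace Pool.Agent.FL.S2

open scoped ContDiff Quaternion Matrix
open Pool.Agent.Helper93.Fin Pool.Agent.helper79.FP Pool.Agent.helper79.FR
open Pool.Agent.helper79.FR.Sp2 (Mat QQ h0 m gg hh PP BB cc)
open Pool.Agent.helper79.FR

attribute [local instance] Matrix.linftyOpNormedRing Matrix.linftyOpNormedAlgebra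

theorem Q2_eq (X Y : Mat) : Q2 X Y = 2 * QQ X Y := by
  rw [Q2, LinearMap.smul_apply, LinearMap.smul_apply, smul_eq_mul]

theorem nData2 : NData gg (hh 1 1) (m 1 1) Q2 (PP 1 1) := by
  have hN := Sp2.nData (a := 1) (b := 1) le_rfl le_rfl
  refine ⟨hN.red, fun X Y => ?_, fun X Y Z => ?_, fun X hX h => ?_, fun Y hY Z hZ => ?_⟩
  · rw [Q2_eq, Q2_eq, hN.Qsymm]
  · rw [Q2_eq, Q2_eq, hN.Qinv]
  · rw [Q2_eq]
    have := hN.Qpos X hX h
    linarith
  · rw [Q2_eq, hN.Qhm Y hY Z hZ, mul_zero]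

theorem flag_iff (u b : R9) : helper79.FR.Flag Q2 (iota u) (iota b) ↔ Flg u b := by
  unfold helper79.FR.Flag
  rw [lie_iota_eq_zero, Q2_iota, Q2_iota, Q2_iota]
  constructor
  · rintro ⟨h1, h2, h3, h4, h5⟩
    exact ⟨h1, h2, h3, h4, h5⟩
  · rintro ⟨h1, h2, h3, h4, h5⟩
    exact ⟨h1, h2, h3, h4, h5⟩

/-- every flag of `𝔪` comes from the coordinates -/
theorem flag_iff' (u b : m 1 1) :
    helper79.FR.Flag Q2 u b ↔ Flg (iota.symm u) (iota.symm b) := by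
  rw [← flag_iff, ContinuousLinearEquiv.apply_symm_apply, ContinuousLinearEquiv.apply_symm_apply]

theorem hU_mem : hU ∈ hh 1 1 :=
  (hh 1 1).smul_mem _ (Sp2.cas (a := 1) (b := 1) le_rfl le_rfl).mem

theorem Q2_BB_iota {u : R9} (hu : u ≠ 0) (v : R9) :
    Q2 (BB 1 1 (iota u)) ((iota v : m 1 1) : Mat) = dot9 (bM u) v := by
  rw [Q2_eq, QQ_BB_iota hu]; ring

theorem cas2 : Cas gg (hh 1 1) (m 1 1) Q2 (PP 1 1) hU (BB 1 1) (cc 1 1) := by
  have hC := Sp2.cas (a := 1) (b := 1) le_rfl le_rfl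
  refine ⟨hU_mem, fun Y hY => ?_, hC.Bsm, hC.Bg, hC.Bhom, hC.Bcomm, hC.Bequi, hC.csm, hC.chom,
    fun u hu v => ?_, fun u b hF => ?_, fun u b hF => ?_⟩
  · obtain ⟨r, rfl⟩ := hC.span Y hY
    exact ⟨r * 2, by rw [h0_eq_hU, smul_smul]⟩
  · rw [Q2_eq, Q2_eq]
    linear_combination 2 * hC.cD u hu v
  · have h1 := (flag_iff' u b).1 hF
    have h2 := h1.BB_eq
    have h3 := Q2_BB_iota h1.ne (iota.symm b)
    rw [ContinuousLinearEquiv.apply_symm_apply] at h2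
    rw [ContinuousLinearEquiv.apply_symm_apply, ContinuousLinearEquiv.apply_symm_apply] at h3
    rw [h3, h2, ← iota_coe, ContinuousLinearEquiv.apply_symm_apply]
  · have h1 := (flag_iff' u b).1 hF
    have h2 := h1.sq
    have h3 := Q2_BB_iota h1.ne (iota.symm b)
    have h4 := cc_iota h1.ne
    rw [ContinuousLinearEquiv.apply_symm_apply] at h4
    rw [ContinuousLinearEquiv.apply_symm_apply, ContinuousLinearEquiv.apply_symm_apply] at h3
    rw [h3, h4]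
    linarith

theorem grpD2 : GrpD (Sp2.H 1 1) (hh 1 1) (m 1 1) Q2 hU (BB 1 1) (cc 1 1) := by
  have hG := Sp2.grpD (a := 1) (b := 1) le_rfl le_rfl
  refine ⟨hG.lie, hG.adm, fun k hk => ?_, fun k hk X => ?_, fun k hk Z hZ => ?_, hG.B, hG.c⟩
  · rw [hU, Sp2.Adj_smul, hG.adh0 k hk]
  · rw [Q2_eq, Q2_eq, hU, map_smul, LinearMap.smul_apply, LinearMap.smul_apply, hG.Q0 k hk]
  · rw [Q2_eq, Q2_eq, hG.Qm k hk Z hZ]

theorem PP_iota' (u : R9) : PP 1 1 ((iota u : m 1 1) : Mat) = iota u :=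
  nData2.red.P_m (iota u)

theorem PP_hU0 : PP 1 1 hU = 0 := nData2.red.P_h _ hU_mem

theorem PP_br (u v : R9) :
    PP 1 1 ⁅((iota u : m 1 1) : Mat), ((iota v : m 1 1) : Mat)⁆ = iota (br u v) := by
  rw [iota_br, map_add, map_smul, PP_hU0, smul_zero, add_zero, PP_iota']

theorem PP_hU (u : R9) : PP 1 1 ⁅hU, ((iota u : m 1 1) : Mat)⁆ = iota (rot u) := by
  rw [hU_br, PP_iota']

/-! ### the isotropy group -/

theorem dgz_00 (z : ℂ) : Sp2.dg 1 1 z 0 0 = ⟨z.re, z.im, 0, 0⟩ := by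
  rw [Sp2.dg, Matrix.diagonal_apply_eq]
  ext <;> simp

theorem dgz_11 (z : ℂ) : Sp2.dg 1 1 z 1 1 = ⟨z.re, z.im, 0, 0⟩ := by
  rw [Sp2.dg, Matrix.diagonal_apply_eq]
  ext <;> simp

theorem dgz_01 (z : ℂ) : Sp2.dg 1 1 z 0 1 = 0 := Sp2.dg_apply_ne z (by decide)

theorem dgz_10 (z : ℂ) : Sp2.dg 1 1 z 1 0 = 0 := Sp2.dg_apply_ne z (by decide)

theorem Adj_dg {k : Matˣ} {z : ℂ} (hz : ‖z‖ = 1) (hk : (k : Mat) = Sp2.dg 1 1 z) {t : ℝ}
    (hc : Real.cos t = z.re ^ 2 - z.im ^ 2) (hs : Real.sin t = 2 * z.re * z.im) (u : R9) :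
    Adj k ((iota u : m 1 1) : Mat) = ((iota (rotH t u) : m 1 1) : Mat) := by
  have hH : k ∈ Sp2.H 1 1 := ⟨z, hz, hk⟩
  have hn : z.re ^ 2 + z.im ^ 2 = 1 := by
    have h1 := Complex.sq_norm z
    rw [hz, Complex.normSq_apply] at h1
    nlinarith
  show (k : Mat) * ((iota u : m 1 1) : Mat) * ((k⁻¹ : Matˣ) : Mat) = _
  rw [Sp2.inv_of_mem_H hH, iota_coe, iota_coe, hk]
  refine mat_ext2 ?_ ?_ ?_ ?_ <;>
    simp only [Matrix.mul_apply, Matrix.star_apply, Fin.sum_univ_two, Quaternion.re_add,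
      Quaternion.imI_add, Quaternion.imJ_add, Quaternion.imK_add, Quaternion.re_mul,
      Quaternion.imI_mul, Quaternion.imJ_mul, Quaternion.imK_mul, Quaternion.re_star,
      Quaternion.imI_star, Quaternion.imJ_star, Quaternion.imK_star, io_00re, io_00imI, io_00imJ,
      io_00imK, io_01re, io_01imI, io_01imJ, io_01imK, io_10re, io_10imI, io_10imJ, io_10imK,
      io_11re, io_11imI, io_11imJ, io_11imK, dgz_00, dgz_01, dgz_10, dgz_11,
      Quaternion.re_zero, Quaternion.imI_zero, Quaternion.imJ_zero, Quaternion.imK_zero, rotH,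
      Pi.add_apply, Pi.sub_apply, Pi.smul_apply, smul_eq_mul, hc, hs] <;>
    refine ⟨?_, ?_, ?_, ?_⟩
  · ring
  · linear_combination (u.1 0 / 2) * hn
  · ring
  · ring
  · linear_combination (u.1 1 / 2) * hn
  · linear_combination (u.1 2 / 2) * hn
  · ring
  · ring
  · linear_combination (-u.1 1 / 2) * hn
  · linear_combination (u.1 2 / 2) * hn
  · ring
  · ring
  · ring
  · linear_combination (-u.1 0 / 2) * hn
  · ring
  · ring

/-- the isotropy group acts by `rotH` -/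
theorem Adj_iota {k : Matˣ} (hk : k ∈ Sp2.H 1 1) :
    ∃ t : ℝ, ∀ u : R9, Adj k ((iota u : m 1 1) : Mat) = ((iota (rotH t u) : m 1 1) : Mat) := by
  obtain ⟨z, hz, h⟩ := hk
  have hn : z.re ^ 2 + z.im ^ 2 = 1 := by
    have h1 := Complex.sq_norm z
    rw [hz, Complex.normSq_apply] at h1
    nlinarith
  have h2 : (z.re ^ 2 - z.im ^ 2) ^ 2 + (2 * z.re * z.im) ^ 2 = 1 := by
    have : (z.re ^ 2 - z.im ^ 2) ^ 2 + (2 * z.re * z.im) ^ 2 = (z.re ^ 2 + z.im ^ 2) ^ 2 := by ring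
    rw [this, hn]; norm_num
  obtain ⟨t, hc, hs⟩ := exists_angle h2
  exact ⟨t, fun u => Adj_dg hz h hc hs u⟩

theorem dg_mul_inv {z : ℂ} (hz : z ≠ 0) : Sp2.dg 1 1 z * Sp2.dg 1 1 z⁻¹ = 1 := by
  have hzz : ((z ^ 1 : ℂ) : ℍ[ℝ]) * ((z⁻¹ ^ 1 : ℂ) : ℍ[ℝ]) = 1 := by
    rw [← Quaternion.coeComplex_mul, ← mul_pow, mul_inv_cancel₀ hz, one_pow,
      Quaternion.coeComplex_one]
  rw [Sp2.dg, Sp2.dg, Matrix.diagonal_mul_diagonal, ← Matrix.diagonal_one]
  congr 1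
  funext i
  fin_cases i
  · exact hzz
  · exact hzz

theorem Adj_iota' (t : ℝ) : ∃ k : Matˣ, k ∈ Sp2.H 1 1 ∧
    ∀ u : R9, Adj k ((iota u : m 1 1) : Mat) = ((iota (rotH t u) : m 1 1) : Mat) := by
  have hsq := Real.sin_sq_add_cos_sq (t / 2)
  let z : ℂ := ⟨Real.cos (t / 2), Real.sin (t / 2)⟩
  have hz : ‖z‖ = 1 := by
    rw [Complex.norm_def, Complex.normSq_mk, ← sq, ← sq, add_comm, hsq, Real.sqrt_one]
  have hz0 : z ≠ 0 := by
    intro h0
    rw [h0, norm_zero] at hz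
    exact zero_ne_one hz
  have h2 : Sp2.dg 1 1 z⁻¹ * Sp2.dg 1 1 z = 1 := by
    have h := dg_mul_inv (inv_ne_zero hz0)
    rwa [inv_inv] at h
  let k : Matˣ := ⟨Sp2.dg 1 1 z, Sp2.dg 1 1 z⁻¹, dg_mul_inv hz0, h2⟩
  refine ⟨k, ⟨z, hz, rfl⟩, fun u => Adj_dg hz (k := k) rfl ?_ ?_ u⟩
  · show Real.cos t = Real.cos (t / 2) ^ 2 - Real.sin (t / 2) ^ 2
    rw [← Real.cos_two_mul']
    congr 1; ring
  · show Real.sin t = 2 * Real.cos (t / 2) * Real.sin (t / 2)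
    have := Real.sin_two_mul (t / 2)
    rw [show 2 * (t / 2) = t by ring] at this
    rw [this]; ring

end Pool.Agent.FL.S2
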