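import Pool.Agent.FL.T3CRot
import Pool.Agent.FL.S2SecA
import Pool.Agent.FL.S2SecB
import Pool.Agent.FL.QU0

/-!
# MP_f09395_gt, space (2): the compact set `S0` of the exceptional flags (module T0S)

`S0 p` consists of the rotations of the flags `(cos τ n, sin τ n, 0), (-sin τ n, cos τ n, 0)` and
`(0, cos τ f, sin τ g), (0, -sin τ f, cos τ g)` with `f × g` umbilic.
-/

set_option linter.unusedSectionVars false

noncomputable section

namespace Pool.Agent.FL.S2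

open scoped ContDiff Quaternion Matrix
open Pool.Agent.Helper93.Fin Pool.Agent.helper79.FP Pool.Agent.helper79.FR
open Pool.Agent.helper79.FR.Sp2 (Mat QQ h0 m gg hh PP BB cc)
open Pool.Agent.helper79.FR
open Filter Topology

attribute [local instance] Matrix.linftyOpNormedRing Matrix.linftyOpNormedAlgebra

/-- first family: `a, x, y` parallel -/
def T0S_fam1 (t τ : ℝ) (n : R3) : R9 × R9 :=
  (rotH t (Real.cos τ • n, Real.sin τ • n, 0), rotH t (-(Real.sin τ) • n, Real.cos τ • n, 0))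

/-- second family: `a = 0` and `x × y` umbilic -/
def T0S_fam2 (t τ : ℝ) (f g : R3) : R9 × R9 :=
  (rotH t (0, Real.cos τ • f, Real.sin τ • g), rotH t (0, -(Real.sin τ) • f, Real.cos τ • g))

/-- the set of exceptional flags -/
def S0 (p : Par) : Set (R9 × R9) :=
  {k | ∃ (t τ : ℝ) (n : R3), n ⬝ᵥ n = 1 ∧ k = T0S_fam1 t τ n} ∪
  {k | ∃ (t τ : ℝ) (f g : R3), f ⬝ᵥ f = 1 ∧ g ⬝ᵥ g = 1 ∧ f ⬝ᵥ g = 0 ∧ Umb2 p.S (f ⨯₃ g) ∧
    k = T0S_fam2 t τ f g}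

/-! ### umbilic directions -/

theorem T0S_frame {f g : R3} (hf : f ⬝ᵥ f = 1) (hg : g ⬝ᵥ g = 1) (hfg : f ⬝ᵥ g = 0) :
    Frame3 f g (f ⨯₃ g) := by
  rw [dot3] at hf hg hfg
  refine ⟨by rw [dot3]; exact hf, by rw [dot3]; exact hg, ?_, by rw [dot3]; exact hfg, ?_, ?_,
    rfl, ?_, ?_⟩
  · rw [dot3, cr0, cr1, cr2]
    linear_combination (g 0 ^ 2 + g 1 ^ 2 + g 2 ^ 2) * hf + hg -
      (f 0 * g 0 + f 1 * g 1 + f 2 * g 2) * hfg
  · rw [dot3, cr0, cr1, cr2]; ring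
  · rw [dot3, cr0, cr1, cr2]; ring
  · funext i
    fin_cases i
    · simp only [Fin.zero_eta, cr0, cr1, cr2]
      linear_combination f 0 * hg - g 0 * hfg
    · simp only [Fin.mk_one, cr0, cr1, cr2]
      linear_combination f 1 * hg - g 1 * hfg
    · simp only [Fin.reduceFinMk, cr0, cr1, cr2]
      linear_combination f 2 * hg - g 2 * hfg
  · funext i
    fin_cases i
    · simp only [Fin.zero_eta, cr0, cr1, cr2]
      linear_combination g 0 * hf - f 0 * hfg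
    · simp only [Fin.mk_one, cr0, cr1, cr2]
      linear_combination g 1 * hf - f 1 * hfg
    · simp only [Fin.reduceFinMk, cr0, cr1, cr2]
      linear_combination g 2 * hf - f 2 * hfg

/-- umbilic directions in terms of a frame -/
theorem Umb2_frame {S : Matrix (Fin 3) (Fin 3) ℝ} {f g h : R3} (hF : Frame3 f g h) :
    Umb2 S h ↔ f ⬝ᵥ S *ᵥ g = 0 ∧ g ⬝ᵥ S *ᵥ f = 0 ∧ g ⬝ᵥ S *ᵥ g = f ⬝ᵥ S *ᵥ f := by
  constructor
  · rintro ⟨l, hl⟩
    have h1 := hl f g hF.o13 hF.o23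
    have h2 := hl g f hF.o23 hF.o13
    have h3 := hl f f hF.o13 hF.o13
    have h4 := hl g g hF.o23 hF.o23
    rw [hF.o12, mul_zero] at h1
    rw [dotProduct_comm g f, hF.o12, mul_zero] at h2
    rw [hF.n1] at h3
    rw [hF.n2] at h4
    exact ⟨h1, h2, h4.trans h3.symm⟩
  · rintro ⟨h1, h2, h3⟩
    refine ⟨f ⬝ᵥ S *ᵥ f, fun a b ha hb => ?_⟩
    have ea := hF.expand3 a
    have eb := hF.expand3 b
    rw [ha, zero_smul, add_zero] at ea
    rw [hb, zero_smul, add_zero] at eb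
    generalize a ⬝ᵥ f = α at ea
    generalize a ⬝ᵥ g = β at ea
    generalize b ⬝ᵥ f = α' at eb
    generalize b ⬝ᵥ g = β' at eb
    subst ea eb
    simp only [Matrix.mulVec_add, Matrix.mulVec_smul, add_dotProduct, dotProduct_add,
      smul_dotProduct, dotProduct_smul, smul_eq_mul, h1, h2, h3, hF.n1, hF.n2, hF.o12,
      dotProduct_comm g f]
    ring

theorem Umb2_fg {S : Matrix (Fin 3) (Fin 3) ℝ} {f g : R3} (hf : f ⬝ᵥ f = 1) (hg : g ⬝ᵥ g = 1)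
    (hfg : f ⬝ᵥ g = 0) :
    Umb2 S (f ⨯₃ g) ↔ f ⬝ᵥ S *ᵥ g = 0 ∧ g ⬝ᵥ S *ᵥ f = 0 ∧ g ⬝ᵥ S *ᵥ g = f ⬝ᵥ S *ᵥ f :=
  Umb2_frame (T0S_frame hf hg hfg)

theorem Umb2_smul {S : Matrix (Fin 3) (Fin 3) ℝ} {f : R3} {r : ℝ} (hr : r ≠ 0) :
    Umb2 S (r • f) ↔ Umb2 S f := by
  have h : ∀ g : R3, g ⬝ᵥ (r • f) = 0 ↔ g ⬝ᵥ f = 0 := fun g => by
    rw [dotProduct_smul, smul_eq_mul, mul_eq_zero, or_iff_right hr]
  unfold Umb2
  simp only [h]

/-! ### the flags -/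

theorem T0S_cs (τ : ℝ) : Real.cos τ ^ 2 + Real.sin τ ^ 2 = 1 := Real.cos_sq_add_sin_sq τ

theorem T0S_fam1_flg (t τ : ℝ) {n : R3} (hn : n ⬝ᵥ n = 1) :
    Flg (T0S_fam1 t τ n).1 (T0S_fam1 t τ n).2 := by
  have h1 := T0S_cs τ
  refine flg_rotH.2 ⟨?_, ?_, ?_, ?_, ?_⟩
  · simp only [dot9, smul_dotProduct, dotProduct_smul, hn, smul_eq_mul, dotProduct_zero]
    linear_combination h1
  · simp only [dot9, smul_dotProduct, dotProduct_smul, hn, smul_eq_mul, dotProduct_zero]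
    linear_combination h1
  · simp only [dot9, smul_dotProduct, dotProduct_smul, hn, smul_eq_mul, dotProduct_zero]
    ring
  · simp [br, cross_self]
  · simp [brh]

theorem T0S_fam2_flg (t τ : ℝ) {f g : R3} (hf : f ⬝ᵥ f = 1) (hg : g ⬝ᵥ g = 1) (hfg : f ⬝ᵥ g = 0) :
    Flg (T0S_fam2 t τ f g).1 (T0S_fam2 t τ f g).2 := by
  have h1 := T0S_cs τ
  have hgf : g ⬝ᵥ f = 0 := by rw [dotProduct_comm]; exact hfg
  refine flg_rotH.2 ⟨?_, ?_, ?_, ?_, ?_⟩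
  · simp only [dot9, smul_dotProduct, dotProduct_smul, hf, hg, smul_eq_mul, dotProduct_zero]
    linear_combination h1
  · simp only [dot9, smul_dotProduct, dotProduct_smul, hf, hg, smul_eq_mul, dotProduct_zero]
    linear_combination h1
  · simp only [dot9, smul_dotProduct, dotProduct_smul, hf, hg, smul_eq_mul, dotProduct_zero]
    ring
  · simp [br, cross_self]
  · simp [brh, hfg, hgf]

theorem S0_flg {p : Par} {k : R9 × R9} (hk : k ∈ S0 p) : Flg k.1 k.2 := by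
  rcases hk with ⟨t, τ, n, hn, rfl⟩ | ⟨t, τ, f, g, hf, hg, hfg, -, rfl⟩
  · exact T0S_fam1_flg t τ hn
  · exact T0S_fam2_flg t τ hf hg hfg

/-- `α = 0` on the exceptional flags -/
theorem S0_al {p : Par} {k : R9 × R9} (hk : k ∈ S0 p) : alM (v0 p) k.1 k.2 = 0 := by
  have hF := S0_flg hk
  rw [alM_v0 p hF]
  rcases hk with ⟨t, τ, n, hn, rfl⟩ | ⟨t, τ, f, g, hf, hg, hfg, hu, rfl⟩
  · simp only [T0S_fam1, rotH, smul_zero, sub_zero, add_zero, Matrix.mulVec_smul, smul_dotProduct,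
      dotProduct_smul, smul_eq_mul, map_smul, LinearMap.smul_apply, cross_self, neg_smul,
      map_neg, dotProduct_neg, mul_zero, neg_zero, dotProduct_zero]
    ring
  · obtain ⟨h1, h2, h3⟩ := (Umb2_fg hf hg hfg).1 hu
    simp only [T0S_fam2, rotH, Matrix.mulVec_add, Matrix.mulVec_sub, Matrix.mulVec_smul,
      Matrix.mulVec_neg, neg_smul, smul_neg,
      add_dotProduct, sub_dotProduct, dotProduct_add, dotProduct_sub, smul_dotProduct,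
      neg_dotProduct, dotProduct_neg,
      dotProduct_smul, smul_eq_mul, map_zero, LinearMap.zero_apply, dotProduct_zero, h1, h2, h3]
    ring

/-! ### regular exceptional flags -/

theorem regT0 {p : Par} {u b : R9} (h : Flg u b) (h1 : cM u ≠ 1) (h2 : cM u ≠ -1)
    (hT : T0p p u) : (u, b) ∈ S0 p := by
  rcases hT with ⟨ha, hb, hc⟩ | ⟨ha, hne, hU⟩
  · left
    have hx : u.1 ≠ 0 := by
      intro h0
      apply h1
      have h3 : psi4 u = 0 := by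
        unfold psi4
        rw [hc, h0]
        simp
      rw [cM_unit h.uu, h3]; ring
    obtain ⟨t, τ, n, hn, h3, h4⟩ := flg_B0 h h2 ha hb hc hx
    exact ⟨t, τ, n, hn, Prod.ext h3 h4⟩
  · right
    obtain ⟨t, τ, f, g, hf, hg, hfg, h3, h4⟩ := flg_a0 h h1 h2 ha
    refine ⟨t, τ, f, g, hf, hg, hfg, ?_, Prod.ext h3 h4⟩
    have h5 : u.2.1 ⨯₃ u.2.2 = (Real.cos τ * Real.sin τ) • (f ⨯₃ g) := by
      rw [h3]
      have h6 := T0S_cs t
      simp only [rotH, map_add, map_sub, map_smul, LinearMap.add_apply, LinearMap.sub_apply,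
        LinearMap.smul_apply, cross_self, smul_zero, zero_add, add_zero, sub_zero]
      rw [← cross_anticomm f g]
      match_scalars
      linear_combination (Real.cos τ * Real.sin τ) * h6
    rw [h5] at hU hne
    have h6 : Real.cos τ * Real.sin τ ≠ 0 := fun h0 => hne (by rw [h0, zero_smul])
    exact (Umb2_smul h6).1 hU

/-! ### compactness -/

/-- rotation with given cosine and sine -/
def T0S_rotCS (ct st : ℝ) (u : R9) : R9 :=
  (u.1, ct • u.2.1 - st • u.2.2, st • u.2.1 + ct • u.2.2)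

theorem T0S_compact_of_le {E : Type*} [NormedAddCommGroup E] [ProperSpace E] {s : Set E}
    (h1 : IsClosed s) {C : ℝ} (h2 : ∀ x ∈ s, ‖x‖ ≤ C) : IsCompact s := by
  refine Metric.isCompact_of_isClosed_isBounded h1 ?_
  exact (Metric.isBounded_closedBall (x := (0 : E)) (r := C)).subset fun x hx => by
    rw [mem_closedBall_zero_iff]; exact h2 x hx

theorem T0S_abs_le {a b : ℝ} (h : a ^ 2 + b ^ 2 = 1) : ‖a‖ ≤ 1 ∧ ‖b‖ ≤ 1 := by
  rw [Real.norm_eq_abs, Real.norm_eq_abs, abs_le_one_iff_mul_self_le_one,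
    abs_le_one_iff_mul_self_le_one]
  constructor <;> nlinarith

theorem T0S_norm_unit {n : R3} (hn : n ⬝ᵥ n = 1) : ‖n‖ ≤ 1 := by
  rw [dot3] at hn
  rw [pi_norm_le_iff_of_nonneg zero_le_one]
  intro i
  rw [Real.norm_eq_abs, abs_le_one_iff_mul_self_le_one]
  fin_cases i
  · simp only [Fin.zero_eta]; nlinarith [sq_nonneg (n 1), sq_nonneg (n 2)]
  · simp only [Fin.mk_one]; nlinarith [sq_nonneg (n 0), sq_nonneg (n 2)]
  · simp only [Fin.reduceFinMk]; nlinarith [sq_nonneg (n 0), sq_nonneg (n 1)]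

theorem T0S_cont_dot {Y : Type*} [TopologicalSpace Y] {f g : Y → R3} (hf : Continuous f)
    (hg : Continuous g) : Continuous fun y => f y ⬝ᵥ g y := by
  unfold dotProduct
  fun_prop

theorem T0S_cont_mulVec (S : Matrix (Fin 3) (Fin 3) ℝ) {Y : Type*} [TopologicalSpace Y] {f : Y → R3}
    (hf : Continuous f) : Continuous fun y => S *ᵥ f y :=
  Continuous.matrix_mulVec continuous_const hf

theorem T0S_fam1_compact :
    IsCompact {k : R9 × R9 | ∃ (t τ : ℝ) (n : R3), n ⬝ᵥ n = 1 ∧ k = T0S_fam1 t τ n} := by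
  obtain ⟨K, hK⟩ : ∃ K : Set ((ℝ × ℝ) × (ℝ × ℝ) × R3), K = {q | q.1.1 ^ 2 + q.1.2 ^ 2 = 1 ∧
    q.2.1.1 ^ 2 + q.2.1.2 ^ 2 = 1 ∧ q.2.2 ⬝ᵥ q.2.2 = 1} := ⟨_, rfl⟩
  have hKc : IsCompact K := by
    refine T0S_compact_of_le (C := 1) ?_ ?_
    · rw [hK]
      refine (isClosed_eq (by fun_prop) (by fun_prop)).inter
        ((isClosed_eq (by fun_prop) (by fun_prop)).inter
          (isClosed_eq (T0S_cont_dot (by fun_prop) (by fun_prop)) (by fun_prop)))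
    · intro q hq
      rw [hK] at hq
      obtain ⟨h1, h2, h3⟩ := hq
      obtain ⟨a1, a2⟩ := T0S_abs_le h1
      obtain ⟨b1, b2⟩ := T0S_abs_le h2
      exact norm_prod_le_iff.2 ⟨norm_prod_le_iff.2 ⟨a1, a2⟩,
        norm_prod_le_iff.2 ⟨norm_prod_le_iff.2 ⟨b1, b2⟩, T0S_norm_unit h3⟩⟩
  obtain ⟨F, hF⟩ : ∃ F : (ℝ × ℝ) × (ℝ × ℝ) × R3 → R9 × R9, F = fun q =>
    (T0S_rotCS q.1.1 q.1.2 (q.2.1.1 • q.2.2, q.2.1.2 • q.2.2, 0),
      T0S_rotCS q.1.1 q.1.2 (-q.2.1.2 • q.2.2, q.2.1.1 • q.2.2, 0)) := ⟨_, rfl⟩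
  have hFc : Continuous F := by
    rw [hF]
    unfold T0S_rotCS
    fun_prop
  have h1 := hKc.image hFc
  convert h1 using 1
  ext k
  constructor
  · rintro ⟨t, τ, n, hn, rfl⟩
    refine ⟨((Real.cos t, Real.sin t), (Real.cos τ, Real.sin τ), n), ?_, ?_⟩
    · rw [hK]; exact ⟨T0S_cs t, T0S_cs τ, hn⟩
    · rw [hF]; rfl
  · rintro ⟨q, hq, rfl⟩
    rw [hK] at hq
    obtain ⟨h1, h2, h3⟩ := hq
    obtain ⟨t, ht1, ht2⟩ := exists_angle h1
    obtain ⟨τ, hτ1, hτ2⟩ := exists_angle h2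
    refine ⟨t, τ, q.2.2, h3, ?_⟩
    rw [hF]
    unfold T0S_fam1 rotH T0S_rotCS
    rw [ht1, ht2, hτ1, hτ2]

theorem T0S_fam2_compact (S : Matrix (Fin 3) (Fin 3) ℝ) :
    IsCompact {k : R9 × R9 | ∃ (t τ : ℝ) (f g : R3), f ⬝ᵥ f = 1 ∧ g ⬝ᵥ g = 1 ∧ f ⬝ᵥ g = 0 ∧
      Umb2 S (f ⨯₃ g) ∧ k = T0S_fam2 t τ f g} := by
  obtain ⟨K, hK⟩ : ∃ K : Set ((ℝ × ℝ) × (ℝ × ℝ) × R3 × R3), K = {q | q.1.1 ^ 2 + q.1.2 ^ 2 = 1 ∧
    q.2.1.1 ^ 2 + q.2.1.2 ^ 2 = 1 ∧ q.2.2.1 ⬝ᵥ q.2.2.1 = 1 ∧ q.2.2.2 ⬝ᵥ q.2.2.2 = 1 ∧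
    q.2.2.1 ⬝ᵥ q.2.2.2 = 0 ∧ q.2.2.1 ⬝ᵥ S *ᵥ q.2.2.2 = 0 ∧ q.2.2.2 ⬝ᵥ S *ᵥ q.2.2.1 = 0 ∧
    q.2.2.2 ⬝ᵥ S *ᵥ q.2.2.2 = q.2.2.1 ⬝ᵥ S *ᵥ q.2.2.1} := ⟨_, rfl⟩
  have c1 : Continuous fun q : (ℝ × ℝ) × (ℝ × ℝ) × R3 × R3 => q.2.2.1 := by fun_prop
  have c2 : Continuous fun q : (ℝ × ℝ) × (ℝ × ℝ) × R3 × R3 => q.2.2.2 := by fun_prop
  have hKc : IsCompact K := by
    refine T0S_compact_of_le (C := 1) ?_ ?_
    · rw [hK]
      refine (isClosed_eq (by fun_prop) (by fun_prop)).inter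
        ((isClosed_eq (by fun_prop) (by fun_prop)).inter
        ((isClosed_eq (T0S_cont_dot c1 c1) (by fun_prop)).inter
        ((isClosed_eq (T0S_cont_dot c2 c2) (by fun_prop)).inter
        ((isClosed_eq (T0S_cont_dot c1 c2) (by fun_prop)).inter
        ((isClosed_eq (T0S_cont_dot c1 (T0S_cont_mulVec S c2)) (by fun_prop)).inter
        ((isClosed_eq (T0S_cont_dot c2 (T0S_cont_mulVec S c1)) (by fun_prop)).inter
        (isClosed_eq (T0S_cont_dot c2 (T0S_cont_mulVec S c2))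
          (T0S_cont_dot c1 (T0S_cont_mulVec S c1)))))))))
    · intro q hq
      rw [hK] at hq
      obtain ⟨h1, h2, h3, h4, -⟩ := hq
      obtain ⟨a1, a2⟩ := T0S_abs_le h1
      obtain ⟨b1, b2⟩ := T0S_abs_le h2
      exact norm_prod_le_iff.2 ⟨norm_prod_le_iff.2 ⟨a1, a2⟩,
        norm_prod_le_iff.2 ⟨norm_prod_le_iff.2 ⟨b1, b2⟩,
          norm_prod_le_iff.2 ⟨T0S_norm_unit h3, T0S_norm_unit h4⟩⟩⟩
  obtain ⟨F, hF⟩ : ∃ F : (ℝ × ℝ) × (ℝ × ℝ) × R3 × R3 → R9 × R9, F = fun q =>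
    (T0S_rotCS q.1.1 q.1.2 (0, q.2.1.1 • q.2.2.1, q.2.1.2 • q.2.2.2),
      T0S_rotCS q.1.1 q.1.2 (0, -q.2.1.2 • q.2.2.1, q.2.1.1 • q.2.2.2)) := ⟨_, rfl⟩
  have hFc : Continuous F := by
    rw [hF]
    unfold T0S_rotCS
    fun_prop
  have h1 := hKc.image hFc
  convert h1 using 1
  ext k
  constructor
  · rintro ⟨t, τ, f, g, hf, hg, hfg, hu, rfl⟩
    refine ⟨((Real.cos t, Real.sin t), (Real.cos τ, Real.sin τ), f, g), ?_, ?_⟩
    · rw [hK]; exact ⟨T0S_cs t, T0S_cs τ, hf, hg, hfg, (Umb2_fg hf hg hfg).1 hu⟩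
    · rw [hF]; rfl
  · rintro ⟨q, hq, rfl⟩
    rw [hK] at hq
    obtain ⟨h1, h2, h3, h4, h5, h6⟩ := hq
    obtain ⟨t, ht1, ht2⟩ := exists_angle h1
    obtain ⟨τ, hτ1, hτ2⟩ := exists_angle h2
    refine ⟨t, τ, q.2.2.1, q.2.2.2, h3, h4, h5, (Umb2_fg h3 h4 h5).2 h6, ?_⟩
    rw [hF]
    unfold T0S_fam2 rotH T0S_rotCS
    rw [ht1, ht2, hτ1, hτ2]

theorem S0_compact (p : Par) : IsCompact (S0 p) := T0S_fam1_compact.union (T0S_fam2_compact p.S)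

/-- `T3 > 0` on the exceptional flags -/
theorem S0_T3 {p : Par} (hp : ParOK p) (hv : PhiM (v0 p)) {k : R9 × R9} (hk : k ∈ S0 p) :
    0 < T3C (v0 p) k.1 k.2 := by
  have hF := S0_flg hk
  rcases hk with ⟨t, τ, n, hn, rfl⟩ | ⟨t, τ, f, g, hf, hg, hfg, hu, rfl⟩
  · have hne : ((Real.cos τ • n, Real.sin τ • n, 0) : R9) ≠ 0 := by
      have h1 : Flg (T0S_fam1 0 τ n).1 (T0S_fam1 0 τ n).2 := T0S_fam1_flg 0 τ hn
      have h2 := T3CRot_flg_ne (flg_rotH.1 h1)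
      exact h2
    unfold T0S_fam1
    rw [T3C_rotH hv t hne]
    exact hp.q1 0 τ n hn
  · have hne : ((0, Real.cos τ • f, Real.sin τ • g) : R9) ≠ 0 := by
      have h1 : Flg (T0S_fam2 0 τ f g).1 (T0S_fam2 0 τ f g).2 := T0S_fam2_flg 0 τ hf hg hfg
      exact T3CRot_flg_ne (flg_rotH.1 h1)
    unfold T0S_fam2
    rw [T3C_rotH hv t hne]
    exact hp.q2 τ f g hf hg hfg hu

/-! ### the set in `𝔪 × 𝔪` -/

/-- the set of exceptional flags in `𝔪 × 𝔪` -/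
def S0m (p : Par) : Set (m 1 1 × m 1 1) :=
  (fun k : R9 × R9 => ((iota k.1 : m 1 1), (iota k.2 : m 1 1))) '' S0 p

theorem S0m_compact (p : Par) : IsCompact (S0m p) :=
  (S0_compact p).image
    ((iota.continuous.comp continuous_fst).prodMk (iota.continuous.comp continuous_snd))

theorem S0m_flag {p : Par} {q : m 1 1 × m 1 1} (hq : q ∈ S0m p) : Flag Q2 q.1 q.2 := by
  obtain ⟨k, hk, rfl⟩ := hq
  exact (flag_iff k.1 k.2).2 (S0_flg hk)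

theorem S0m_al {p : Par} (hv : PhiM (v0 p)) {q : m 1 1 × m 1 1} (hq : q ∈ S0m p) :
    al (PP 1 1) hU (toM (v0 p)) q.1 q.2 = 0 := by
  obtain ⟨k, hk, rfl⟩ := hq
  have h1 := al_toM hv.smooth (T3CRot_flg_ne (S0_flg hk)) k.2
  exact h1.trans (S0_al hk)

theorem S0m_T3 {p : Par} (hp : ParOK p) (hv : PhiM (v0 p)) {q : m 1 1 × m 1 1}
    (hq : q ∈ S0m p) : 0 < T3F Q2 (PP 1 1) (toM (v0 p)) q.1 q.2 := by
  obtain ⟨k, hk, rfl⟩ := hq
  exact S0_T3 hp hv hk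

theorem S0m_reg {p : Par} {u b : m 1 1} (h : Flag Q2 u b) (h1 : cM (iota.symm u) ≠ 1)
    (h2 : cM (iota.symm u) ≠ -1) (hT : T0p p (iota.symm u)) : (u, b) ∈ S0m p := by
  refine ⟨(iota.symm u, iota.symm b), regT0 ((flag_iff' u b).1 h) h1 h2 hT, ?_⟩
  simp

end Pool.Agent.FL.S2
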