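import Pool.Agent.helper79.FR.Calc

/-!
# MP_f09395_gt, wall formulas: higher Leibniz rules
-/

set_option linter.unusedSectionVars false

noncomputable section

namespace Pool.Agent.FL.Wall

open scoped ContDiff
open Pool.Agent.Helper93.Fin Pool.Agent.helper79.FP Pool.Agent.helper79.FR
open Filter Topology

variable {E : Type*} [NormedAddCommGroup E] [NormedSpace ℝ E] {f k q : E → ℝ}

theorem D3_mul (hf : ContDiffOn ℝ ∞ f {0}ᶜ) (hk : ContDiffOn ℝ ∞ k {0}ᶜ) {u : E} (hu : u ≠ 0)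
    (a b c : E) : D3 (fun z => f z * k z) u a b c =
      f u * D3 k u a b c + D1 f u a * D2 k u b c + D1 f u b * D2 k u a c + D1 f u c * D2 k u a b
      + k u * D3 f u a b c + D1 k u a * D2 f u b c + D1 k u b * D2 f u a c
      + D1 k u c * D2 f u a b := by
  have s1 := hf.mul (D2_smooth hk a b)
  have s2 := (D1_smooth hk a).mul (D1_smooth hf b)
  have s3 := hk.mul (D2_smooth hf a b)
  have s4 := (D1_smooth hf a).mul (D1_smooth hk b)
  rw [D3, fd_congr (fun z hz => D2_mul hf hk hz a b) hu, fd_add (s1.add s2) (s3.add s4) hu,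
    fd_add s1 s2 hu, fd_add s3 s4 hu, fd_mul hf (D2_smooth hk a b) hu,
    fd_mul (D1_smooth hk a) (D1_smooth hf b) hu, fd_mul hk (D2_smooth hf a b) hu,
    fd_mul (D1_smooth hf a) (D1_smooth hk b) hu]
  have e1 : ∀ (F : E → ℝ) (x y : E), fderiv ℝ (fun z => D1 F z x) u y = D2 F u x y :=
    fun _ _ _ => rfl
  have e2 : ∀ (F : E → ℝ) (x y w : E), fderiv ℝ (fun z => D2 F z x y) u w = D3 F u x y w :=
    fun _ _ _ _ => rfl
  have e3 : ∀ (F : E → ℝ) (x : E), fderiv ℝ F u x = D1 F u x := fun _ _ => rfl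
  rw [e1, e1, e1, e1, e2, e2, e3, e3]
  ring

theorem D4_mul (hf : ContDiffOn ℝ ∞ f {0}ᶜ) (hk : ContDiffOn ℝ ∞ k {0}ᶜ) {u : E} (hu : u ≠ 0)
    (a b c d : E) : D4 (fun z => f z * k z) u a b c d =
      f u * D4 k u a b c d + k u * D4 f u a b c d
      + (D1 f u a * D3 k u b c d + D1 f u b * D3 k u a c d + D1 f u c * D3 k u a b d
        + D1 f u d * D3 k u a b c)
      + (D1 k u a * D3 f u b c d + D1 k u b * D3 f u a c d + D1 k u c * D3 f u a b d
        + D1 k u d * D3 f u a b c)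
      + (D2 f u a b * D2 k u c d + D2 f u a c * D2 k u b d + D2 f u a d * D2 k u b c
        + D2 k u a b * D2 f u c d + D2 k u a c * D2 f u b d + D2 k u a d * D2 f u b c) := by
  have t1 := hf.mul (D3_smooth hk a b c)
  have t2 := (D1_smooth hf a).mul (D2_smooth hk b c)
  have t3 := (D1_smooth hf b).mul (D2_smooth hk a c)
  have t4 := (D1_smooth hf c).mul (D2_smooth hk a b)
  have t5 := hk.mul (D3_smooth hf a b c)
  have t6 := (D1_smooth hk a).mul (D2_smooth hf b c)
  have t7 := (D1_smooth hk b).mul (D2_smooth hf a c)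
  have t8 := (D1_smooth hk c).mul (D2_smooth hf a b)
  have t12 := t1.add t2
  have t13 := t12.add t3
  have t14 := t13.add t4
  have t15 := t14.add t5
  have t16 := t15.add t6
  have t17 := t16.add t7
  rw [D4, fd_congr (fun z hz => D3_mul hf hk hz a b c) hu, fd_add t17 t8 hu, fd_add t16 t7 hu,
    fd_add t15 t6 hu, fd_add t14 t5 hu, fd_add t13 t4 hu, fd_add t12 t3 hu, fd_add t1 t2 hu,
    fd_mul hf (D3_smooth hk a b c) hu, fd_mul (D1_smooth hf a) (D2_smooth hk b c) hu,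
    fd_mul (D1_smooth hf b) (D2_smooth hk a c) hu, fd_mul (D1_smooth hf c) (D2_smooth hk a b) hu,
    fd_mul hk (D3_smooth hf a b c) hu, fd_mul (D1_smooth hk a) (D2_smooth hf b c) hu,
    fd_mul (D1_smooth hk b) (D2_smooth hf a c) hu, fd_mul (D1_smooth hk c) (D2_smooth hf a b) hu]
  have e1 : ∀ (F : E → ℝ) (x y : E), fderiv ℝ (fun z => D1 F z x) u y = D2 F u x y :=
    fun _ _ _ => rfl
  have e2 : ∀ (F : E → ℝ) (x y w : E), fderiv ℝ (fun z => D2 F z x y) u w = D3 F u x y w :=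
    fun _ _ _ _ => rfl
  have e4 : ∀ (F : E → ℝ) (x y w v : E), fderiv ℝ (fun z => D3 F z x y w) u v = D4 F u x y w v :=
    fun _ _ _ _ _ => rfl
  have e3 : ∀ (F : E → ℝ) (x : E), fderiv ℝ F u x = D1 F u x := fun _ _ => rfl
  simp only [e1, e2, e4]
  simp only [e3]
  ring

end Pool.Agent.FL.Wall
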