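import Pool.Agent.FL.WallT

/-!
# MP_f09395_gt, wall formulas WF1 and WF2
-/

set_option linter.unusedSectionVars false

noncomputable section

namespace Pool.Agent.FL.Wall

open scoped ContDiff
open Pool.Agent.Helper93.Fin Pool.Agent.helper79.FP Pool.Agent.helper79.FR
open Filter Topology

variable {𝔸 : Type*} [NormedRing 𝔸] [NormedAlgebra ℝ 𝔸] [FiniteDimensional ℝ 𝔸]
variable {g h m : Submodule ℝ 𝔸} {Q : 𝔸 →ₗ[ℝ] 𝔸 →ₗ[ℝ] ℝ} {P : 𝔸 →L[ℝ] m}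
variable {φ ψ v n N f F r : m → ℝ} {h0 : 𝔸} {B : m → 𝔸} {c : m → ℝ} {u b : m} {l : ℝ → ℝ}

/-- **WF1**: `T3(v + l(c) n) = T3(v) + 8 c l'(c) E²n` at a wall flag with `α = 0` and `l(c u) = 0` -/
theorem WF1 (hN : NData g h m Q P) (hC : Cas g h m Q P h0 B c) (hW : CasW Q B c)
    (hφ : PhiN h m P v) (hF : Flag Q u b) (hw : Q (B u) b = 0) (ha : al P h0 v u b = 0)
    (hl : ContDiff ℝ ∞ l) (hl0 : l (c u) = 0) (hn : ContDiffOn ℝ ∞ n {0}ᶜ) :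
    T3F Q P (fun z => v z + l (c z) * n z) u b =
      T3F Q P v u b + 8 * c u * deriv l (c u) * EE Q P v (EE Q P v n) u := by
  rw [T3F_wjet hN hC hφ hF ha (comp_smooth hl hC.csm) hn (lc_jet hN hC hW hl hF hw hl0)]
  ring

/-- **WF2**: `T3(v + r F²) = T3(v) - 2 r (D_b(E F))²`, when `F`, `D_bF`, `DF[u, x]`, `DF[u, x_b]`
and `D_bD_bF · E²F` vanish at the flag -/
theorem WF2 (hN : NData g h m Q P) (hv : ContDiffOn ℝ ∞ v {0}ᶜ) (hu : u ≠ 0)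
    (hf : ContDiffOn ℝ ∞ F {0}ᶜ) (hr : ContDiffOn ℝ ∞ r {0}ᶜ) (h0 : F u = 0)
    (h1 : D1 F u b = 0) (he : D1 F u (P ⁅(u : 𝔸), (gx Q v u : 𝔸)⁆) = 0)
    (hq : D1 F u (P ⁅(u : 𝔸), (gs Q v u b : 𝔸)⁆) = 0)
    (h2 : D2 F u b b * EE Q P v (EE Q P v F) u = 0) :
    T3F Q P (fun z => v z + r z * F z ^ 2) u b =
      T3F Q P v u b - 2 * r u * D1 (EE Q P v F) u b ^ 2 := by
  have hF2 : ContDiffOn ℝ ∞ (fun z => (1 : ℝ) * F z ^ 2) {0}ᶜ := sq_smooth 1 hf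
  have hFe : (fun z => v z + r z * F z ^ 2) = fun z => v z + r z * (1 * F z ^ 2) := by
    funext z; ring
  have hNs : ContDiffOn ℝ ∞ (fun z => r z * (1 * F z ^ 2)) {0}ᶜ := hr.mul hF2
  obtain ⟨gn, hgn'⟩ : ∃ gn : m, gn = gx Q F u := ⟨_, rfl⟩
  have hgn : ∀ w : m, Q (gn : 𝔸) w = D1 F u w := fun w => by rw [hgn', gx_spec hN]
  rw [EE_EE hN hv hf hu] at h2
  rw [EE_D1 hN hv hf hu, hFe]
  have hT := T3F_add (b := b) (N := fun z => r z * (1 * F z ^ 2)) (v := v) hN hv hNs hu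
    (σ := 0) (η := (2 * r u * D2 F u b b) • gn) ?_ ?_ ?_ ?_ ?_ rfl rfl rfl rfl
  · rw [hT]
    unfold ef at h2 ⊢
    obtain ⟨e, hee⟩ : ∃ e : m, e = P ⁅(u : 𝔸), (gx Q v u : 𝔸)⁆ := ⟨_, rfl⟩
    obtain ⟨p, hp⟩ : ∃ p : m, p = P ⁅(b : 𝔸), (gx Q v u : 𝔸)⁆ := ⟨_, rfl⟩
    obtain ⟨q, hqq⟩ : ∃ q : m, q = P ⁅(u : 𝔸), (gs Q v u b : 𝔸)⁆ := ⟨_, rfl⟩
    have k4 : P (⁅(b : 𝔸), (gx Q v u : 𝔸)⁆ + ⁅(u : 𝔸), (gs Q v u b : 𝔸)⁆) = p + q := by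
      rw [map_add, ← hp, ← hqq]
    rw [k4, ← hp, ← hqq]
    rw [← hee] at he h2 ⊢
    rw [← hqq] at hq
    have et := eta_terms (v := v) (n := F) (u := u) hN gn hgn (e := e)
    have l1 : P ⁅(u : 𝔸), (((2 * r u * D2 F u b b) • gn : m) : 𝔸)⁆ =
        (2 * r u * D2 F u b b) • P ⁅(u : 𝔸), (gn : 𝔸)⁆ := by
      rw [← map_smul]
      congr 1
      simp only [Submodule.coe_smul, Ring.lie_def, mul_smul_comm, smul_mul_assoc, smul_sub]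
    have l2 : ⁅(gx Q v u : 𝔸), (((2 * r u * D2 F u b b) • gn : m) : 𝔸)⁆ =
        (2 * r u * D2 F u b b) • ⁅(gx Q v u : 𝔸), (gn : 𝔸)⁆ := by
      simp only [Submodule.coe_smul, Ring.lie_def, mul_smul_comm, smul_mul_assoc, smul_sub]
    have l3 : ⁅(gx Q v u : 𝔸), ((0 : m) : 𝔸)⁆ = 0 := by simp [Ring.lie_def]
    have d2 : ∀ a w, D2 (fun z => r z * (1 * F z ^ 2)) u a w =
        2 * r u * (D1 F u a * D1 F u w) := fun a w => by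
      rw [D2_mul hr hF2 hu, sq_D1 _ hf hu, sq_D1 _ hf hu, sq_D2 _ hf hu, h0]; ring
    have d3 : ∀ w, D3 (fun z => r z * (1 * F z ^ 2)) u b e w =
        2 * r u * (D2 F u b e * D1 F u w) := fun w => by
      rw [D3_mul hr hF2 hu, sq_D1 _ hf hu, sq_D1 _ hf hu, sq_D1 _ hf hu, sq_D2 _ hf hu,
        sq_D2 _ hf hu, sq_D2 _ hf hu, sq_D3 _ hf hu, h0, h1, he]; ring
    have d4 : D4 (fun z => r z * (1 * F z ^ 2)) u b b e e =
        2 * r u * (D2 F u b b * D2 F u e e + 2 * D2 F u b e ^ 2) := by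
      rw [D4_mul hr hF2 hu, sq_D1 _ hf hu, sq_D1 _ hf hu, sq_D2 _ hf hu,
        sq_D2 _ hf hu, sq_D2 _ hf hu, sq_D3 _ hf hu, sq_D3 _ hf hu, sq_D4 _ hf hu, h0, h1, he]
      ring
    have k1 : D1 F u ((2 : ℝ) • p - q) = 2 * D1 F u p := by
      unfold D1 at hq ⊢
      rw [map_sub, map_smul, hq, sub_zero, smul_eq_mul]
    have k2 : D1 F u (p + q) = D1 F u p := by
      unfold D1 at hq ⊢
      rw [map_add, hq, add_zero]
    have k3 : D2 F u e b = D2 F u b e := D2_symm hf hu _ _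
    rw [d2, d2, d2, d2, d3, d4, l1, l2, l3, D2_smul_right hv hu, k1, k2, k3, he, hq]
    simp only [map_smul, LinearMap.smul_apply, smul_eq_mul, map_zero]
    linear_combination (-(r u)) * h2 + (r u * D2 F u b b) * et
  · intro w
    rw [D1_mul hr hF2 hu, sq_D1 _ hf hu, h0]; ring
  · intro w
    rw [D2_mul hr hF2 hu, sq_D1 _ hf hu, sq_D1 _ hf hu, sq_D2 _ hf hu, h0, h1]; simp
  · intro w
    rw [D3_mul hr hF2 hu, sq_D1 _ hf hu, sq_D1 _ hf hu, sq_D2 _ hf hu, sq_D2 _ hf hu,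
      sq_D3 _ hf hu, h0, h1]
    simp only [Submodule.coe_smul, map_smul, LinearMap.smul_apply, smul_eq_mul, hgn]
    ring
  · simp [Ring.lie_def]
  · simp [Ring.lie_def]

end Pool.Agent.FL.Wall
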