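import Pool.Agent.FL.Inv0

/-!
# MP_f09395_gt, space (2): the class WI (module AB2)

`WInv0`: invariant functions of degree zero with `α_s = 0` on all flags;
`WInv`: admissible functions with `α_n = 0` on all flags.
-/

set_option linter.unusedSectionVars false

noncomputable section

namespace Pool.Agent.FL

open scoped ContDiff
open Pool.Agent.Helper93.Fin Pool.Agent.helper79.FP Pool.Agent.helper79.FR
open Filter Topology Module

variable {𝔸 : Type*} [NormedRing 𝔸] [NormedAlgebra ℝ 𝔸] [FiniteDimensional ℝ 𝔸]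
variable {g h m : Submodule ℝ 𝔸} {Q : 𝔸 →ₗ[ℝ] 𝔸 →ₗ[ℝ] ℝ} {P : 𝔸 →L[ℝ] m} {v n s : m → ℝ}
variable {h0 : 𝔸} {B : m → 𝔸} {c : m → ℝ} {H : Subgroup 𝔸ˣ}

/-- functions of degree zero whose derivative in the direction `[h₀, b]` vanishes on all flags -/
structure WInv0 (H : Subgroup 𝔸ˣ) {m : Submodule ℝ 𝔸} (Q : 𝔸 →ₗ[ℝ] 𝔸 →ₗ[ℝ] ℝ) (P : 𝔸 →L[ℝ] m)
    (h0 : 𝔸) (s : m → ℝ) : Prop where
  inv0 : Inv0 H s
  al0 : ∀ u b : m, Flag Q u b → al P h0 s u b = 0

/-- admissible functions with `α_n = 0` on all flags -/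
structure WInv (h : Submodule ℝ 𝔸) (H : Subgroup 𝔸ˣ) {m : Submodule ℝ 𝔸}
    (Q : 𝔸 →ₗ[ℝ] 𝔸 →ₗ[ℝ] ℝ) (P : 𝔸 →L[ℝ] m) (h0 : 𝔸) (n : m → ℝ) : Prop where
  phi : PhiN h m P n
  inv : InvH H n
  al0 : ∀ u b : m, Flag Q u b → al P h0 n u b = 0

/-! ### the derivative of `α` along the flat circle -/

theorem P_h0_neg (u : m) : P ⁅h0, ((-u : m) : 𝔸)⁆ = -P ⁅h0, (u : 𝔸)⁆ := by
  rw [← map_neg]
  congr 1
  simp only [Submodule.coe_neg, Ring.lie_def, mul_neg, neg_mul]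
  abel

theorem P_h0_comb (r t : ℝ) (u b : m) :
    P ⁅h0, ((r • u + t • b : m) : 𝔸)⁆ = r • P ⁅h0, (u : 𝔸)⁆ + t • P ⁅h0, (b : 𝔸)⁆ := by
  rw [← map_smul, ← map_smul, ← map_add]
  congr 1
  simp only [Submodule.coe_add, Submodule.coe_smul, Ring.lie_def, mul_add, add_mul,
    mul_smul_comm, smul_mul_assoc, smul_sub]
  abel

/-- derivative of `α` along the flat circle -/
theorem al_circ_deriv (hN : NData g h m Q P) {f : m → ℝ} (hf : ContDiffOn ℝ ∞ f {0}ᶜ)
    (hi : ∀ u : m, u ≠ 0 → D1 f u (P ⁅h0, (u : 𝔸)⁆) = 0) {u b : m} (hF : Flag Q u b) :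
    HasDerivAt (fun τ => al P h0 f (circ u b τ) (circ' u b τ)) (al' P h0 f u b) 0 := by
  have hu := hF.ne hN
  have e : (fun τ => al P h0 f (circ u b τ) (circ' u b τ)) = fun τ =>
      -Real.sin τ * D1 f (circ u b τ) (P ⁅h0, (u : 𝔸)⁆) +
        Real.cos τ * D1 f (circ u b τ) (P ⁅h0, (b : 𝔸)⁆) := by
    funext τ
    unfold al circ'
    rw [P_h0_comb]
    unfold D1
    rw [map_add, map_smul, map_smul, smul_eq_mul, smul_eq_mul]
  have h0' : circ u b 0 ≠ 0 := by rw [circ_zero]; exact hu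
  have d1 : HasDerivAt (fun τ => D1 f (circ u b τ) (P ⁅h0, (u : 𝔸)⁆))
      (D2 f u (P ⁅h0, (u : 𝔸)⁆) b) 0 := by
    have := comp_circ (f := fun z => D1 f z (P ⁅h0, (u : 𝔸)⁆)) (D1_smooth hf _) (u := u) (b := b)
      (τ := 0) h0'
    rwa [circ_zero, circ'_zero] at this
  have d2 : HasDerivAt (fun τ => D1 f (circ u b τ) (P ⁅h0, (b : 𝔸)⁆))
      (D2 f u (P ⁅h0, (b : 𝔸)⁆) b) 0 := by
    have := comp_circ (f := fun z => D1 f z (P ⁅h0, (b : 𝔸)⁆)) (D1_smooth hf _) (u := u) (b := b)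
      (τ := 0) h0'
    rwa [circ_zero, circ'_zero] at this
  rw [e]
  have d3 := ((Real.hasDerivAt_sin 0).neg.mul d1).add ((Real.hasDerivAt_cos 0).mul d2)
  refine d3.congr_deriv ?_
  simp only [circ_zero, Pi.neg_apply, Real.sin_zero, Real.cos_zero, neg_zero, zero_mul, add_zero,
    one_mul, zero_add]
  rw [hi u hu, mul_zero, zero_add]
  unfold al'
  exact D2_symm hf hu _ _

/-- `α = 0` on all flags implies `α' = 0` on all flags -/
theorem al'_zero_of_al (hN : NData g h m Q P) {f : m → ℝ} (hf : ContDiffOn ℝ ∞ f {0}ᶜ)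
    (hi : ∀ u : m, u ≠ 0 → D1 f u (P ⁅h0, (u : 𝔸)⁆) = 0)
    (ha : ∀ u b : m, Flag Q u b → al P h0 f u b = 0) {u b : m} (hF : Flag Q u b) :
    al' P h0 f u b = 0 := by
  have h1 := al_circ_deriv hN hf hi hF
  have h2 : (fun τ => al P h0 f (circ u b τ) (circ' u b τ)) = fun _ => 0 :=
    funext fun τ => ha _ _ (circ_flag hN hF τ)
  rw [h2] at h1
  exact h1.unique (hasDerivAt_const (0 : ℝ) (0 : ℝ))

/-- invariance of a degree zero function, infinitesimally -/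
theorem Inv0.D1_h0 (hN : NData g h m Q P) (hC : Cas g h m Q P h0 B c)
    (hG : GrpD H h m Q h0 B c) (hs : Inv0 H s) (u : m) (hu : u ≠ 0) :
    D1 s u (P ⁅h0, (u : 𝔸)⁆) = 0 :=
  inv_of_InvH hN hG hs.smooth hs.inv h0 hC.mem u hu

theorem WInv.al' (hN : NData g h m Q P) (hC : Cas g h m Q P h0 B c)
    (hn : WInv h H Q P h0 n) {u b : m} (hF : Flag Q u b) : al' P h0 n u b = 0 :=
  al'_zero_of_al hN hn.phi.smooth (fun u hu => hn.phi.inv h0 hC.mem u hu) hn.al0 hF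

theorem WInv0.al' (hN : NData g h m Q P) (hC : Cas g h m Q P h0 B c)
    (hG : GrpD H h m Q h0 B c) (hs : WInv0 H Q P h0 s) {u b : m} (hF : Flag Q u b) :
    al' P h0 s u b = 0 :=
  al'_zero_of_al hN hs.inv0.smooth (hs.inv0.D1_h0 hN hC hG) hs.al0 hF

/-! ### closure properties, degree zero -/

theorem WInv0.const (H : Subgroup 𝔸ˣ) (Q : 𝔸 →ₗ[ℝ] 𝔸 →ₗ[ℝ] ℝ) (P : 𝔸 →L[ℝ] m) (h0 : 𝔸)
    (a : ℝ) : WInv0 H Q P h0 (fun _ : m => a) :=
  ⟨Inv0.const H m a, fun u b _ => by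
    unfold al D1
    rw [fderiv_const_apply]; rfl⟩

theorem WInv0.add (hN : NData g h m Q P) {s t : m → ℝ} (hs : WInv0 H Q P h0 s)
    (ht : WInv0 H Q P h0 t) : WInv0 H Q P h0 (fun u => s u + t u) :=
  ⟨hs.inv0.add ht.inv0, fun u b hF => by
    have hu := hF.ne hN
    have h1 := hs.al0 u b hF
    have h2 := ht.al0 u b hF
    unfold al at h1 h2 ⊢
    rw [D1_sum hs.inv0.smooth ht.inv0.smooth hu, h1, h2, add_zero]⟩

theorem WInv0.mul (hN : NData g h m Q P) {s t : m → ℝ} (hs : WInv0 H Q P h0 s)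
    (ht : WInv0 H Q P h0 t) : WInv0 H Q P h0 (fun u => s u * t u) :=
  ⟨hs.inv0.mul ht.inv0, fun u b hF => by
    have hu := hF.ne hN
    have h1 := hs.al0 u b hF
    have h2 := ht.al0 u b hF
    unfold al at h1 h2 ⊢
    rw [D1_mul hs.inv0.smooth ht.inv0.smooth hu, h1, h2, mul_zero, mul_zero, add_zero]⟩

theorem WInv0.smul (hN : NData g h m Q P) (hs : WInv0 H Q P h0 s) (r : ℝ) :
    WInv0 H Q P h0 (fun u => r * s u) :=
  (WInv0.const H Q P h0 r).mul hN hs

theorem WInv0.sum (hN : NData g h m Q P) {κ : Type*} (t : Finset κ) {s : κ → m → ℝ}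
    (hs : ∀ i ∈ t, WInv0 H Q P h0 (s i)) : WInv0 H Q P h0 (fun u => ∑ i ∈ t, s i u) := by
  classical
  induction t using Finset.induction_on with
  | empty => simpa using WInv0.const H Q P h0 0
  | insert a t hat ih =>
    simp only [Finset.sum_insert hat]
    exact (hs a (Finset.mem_insert_self a t)).add hN
      (ih fun i hi => hs i (Finset.mem_insert_of_mem hi))

theorem WInv0.pow (hN : NData g h m Q P) (hs : WInv0 H Q P h0 s) (k : ℕ) :
    WInv0 H Q P h0 (fun u => s u ^ k) := by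
  induction k with
  | zero => simpa using WInv0.const H Q P h0 1
  | succ k ih =>
    simp only [pow_succ]
    exact ih.mul hN hs

/-- a smooth function of finitely many invariants of degree zero; `f` needs to be smooth only on
an open set which contains the values -/
theorem WInv0.comp {κ : Type*} [Fintype κ] (hN : NData g h m Q P) {s : κ → m → ℝ}
    (hs : ∀ i, WInv0 H Q P h0 (s i)) {f : (κ → ℝ) → ℝ} {U : Set (κ → ℝ)} (hU : IsOpen U)
    (hf : ContDiffOn ℝ ∞ f U) (hm : ∀ u : m, u ≠ 0 → (fun i => s i u) ∈ U) :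
    WInv0 H Q P h0 (fun u => f (fun i => s i u)) := by
  have hS : ContDiffOn ℝ ∞ (fun (u : m) (i : κ) => s i u) {0}ᶜ :=
    contDiffOn_pi.2 fun i => (hs i).inv0.smooth
  have h1 : ContDiffOn ℝ ∞ (fun u : m => f (fun i => s i u)) {0}ᶜ :=
    hf.comp hS fun u hu => hm u hu
  refine ⟨⟨h1, fun r u hr => ?_, fun k hk u u' huu => ?_⟩, fun u b hF => ?_⟩
  · show f (fun i => s i _) = f (fun i => s i _)
    congr 1
    funext i
    exact (hs i).inv0.hom r u hr
  · show f (fun i => s i _) = f (fun i => s i _)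
    congr 1
    funext i
    exact (hs i).inv0.inv k hk u u' huu
  · have hu := hF.ne hN
    have d1 : HasFDerivAt (fun (u : m) (i : κ) => s i u)
        (ContinuousLinearMap.pi fun i => fderiv ℝ (s i) u) u :=
      hasFDerivAt_pi.2 fun i => (dAt (hs i).inv0.smooth hu).hasFDerivAt
    have d2 : DifferentiableAt ℝ f (fun i => s i u) :=
      (hf.contDiffAt (hU.mem_nhds (hm u hu))).differentiableAt (by simp)
    have d3 : HasFDerivAt (fun u : m => f (fun i => s i u))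
        ((fderiv ℝ f (fun i => s i u)).comp
          (ContinuousLinearMap.pi fun i => fderiv ℝ (s i) u)) u :=
      d2.hasFDerivAt.comp u d1
    unfold al D1
    rw [d3.fderiv, ContinuousLinearMap.comp_apply]
    have h2 : (ContinuousLinearMap.pi fun i => fderiv ℝ (s i) u) (P ⁅h0, (b : 𝔸)⁆) = 0 := by
      funext i
      exact (hs i).al0 u b hF
    rw [h2, map_zero]

/-- a smooth function of one invariant of degree zero -/
theorem WInv0.comp1 (hN : NData g h m Q P) (hs : WInv0 H Q P h0 s) {l : ℝ → ℝ}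
    (hl : ContDiff ℝ ∞ l) : WInv0 H Q P h0 (fun u => l (s u)) := by
  have hs' : ContDiffOn ℝ ∞ (fun u : m => l (s u)) {0}ᶜ := hl.comp_contDiffOn hs.inv0.smooth
  refine ⟨⟨hs', fun r u hr => by simp only [hs.inv0.hom r u hr],
    fun k hk u u' huu => by simp only [hs.inv0.inv k hk u u' huu]⟩, fun u b hF => ?_⟩
  have h1 := hs.al0 u b hF
  unfold al at h1 ⊢
  rw [comp_D1 hl hs.inv0.smooth (hF.ne hN), h1, mul_zero]

/-- the Casimir function `c` -/
theorem WInv0.cas (hN : NData g h m Q P) (hC : Cas g h m Q P h0 B c)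
    (hG : GrpD H h m Q h0 B c) : WInv0 H Q P h0 c :=
  ⟨⟨hC.csm, hC.chom, fun k hk u u' huu => hG.c k hk u u' huu⟩, fun _ _ hF => flag_c0 hN hC hF⟩

/-! ### closure properties, degree two -/

theorem WInv.zero (h : Submodule ℝ 𝔸) (H : Subgroup 𝔸ˣ) (Q : 𝔸 →ₗ[ℝ] 𝔸 →ₗ[ℝ] ℝ)
    (P : 𝔸 →L[ℝ] m) (h0 : 𝔸) : WInv h H Q P h0 (fun _ => 0) :=
  ⟨phiN_zero h m P, fun _ _ _ _ _ => rfl, fun u b _ => by
    unfold al D1
    rw [fderiv_const_apply]; rfl⟩

theorem WInv.add (hN : NData g h m Q P) {n k : m → ℝ} (hn : WInv h H Q P h0 n)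
    (hk : WInv h H Q P h0 k) : WInv h H Q P h0 (fun u => n u + k u) :=
  ⟨phiN_add hn.phi hk.phi, invH_add hn.inv hk.inv, fun u b hF => by
    have hu := hF.ne hN
    have h1 := hn.al0 u b hF
    have h2 := hk.al0 u b hF
    unfold al at h1 h2 ⊢
    rw [D1_sum hn.phi.smooth hk.phi.smooth hu, h1, h2, add_zero]⟩

theorem WInv.sum (hN : NData g h m Q P) {κ : Type*} (t : Finset κ) {n : κ → m → ℝ}
    (hn : ∀ i ∈ t, WInv h H Q P h0 (n i)) : WInv h H Q P h0 (fun u => ∑ i ∈ t, n i u) := by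
  classical
  induction t using Finset.induction_on with
  | empty => simpa using WInv.zero h H Q P h0
  | insert a t hat ih =>
    simp only [Finset.sum_insert hat]
    exact (hn a (Finset.mem_insert_self a t)).add hN
      (ih fun i hi => hn i (Finset.mem_insert_of_mem hi))

/-- product with an invariant of degree zero -/
theorem WInv.mul (hN : NData g h m Q P) (hG : GrpD H h m Q h0 B c) (hs : WInv0 H Q P h0 s)
    (hn : WInv h H Q P h0 n) : WInv h H Q P h0 (fun u => s u * n u) := by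
  have h1 := phiN_mul hN hG hs.inv0 hn.phi hn.inv
  refine ⟨h1.1, h1.2, fun u b hF => ?_⟩
  have hu := hF.ne hN
  have h2 := hs.al0 u b hF
  have h3 := hn.al0 u b hF
  unfold al at h2 h3 ⊢
  rw [D1_mul hs.inv0.smooth hn.phi.smooth hu, h2, h3, mul_zero, mul_zero, add_zero]

theorem WInv.smul (hN : NData g h m Q P) (hG : GrpD H h m Q h0 B c) (hn : WInv h H Q P h0 n)
    (r : ℝ) : WInv h H Q P h0 (fun u => r * n u) :=
  WInv.mul hN hG (WInv0.const H Q P h0 r) hn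

/-- product with a function of the Casimir `c` -/
theorem WInv.cas_mul (hN : NData g h m Q P) (hC : Cas g h m Q P h0 B c)
    (hG : GrpD H h m Q h0 B c) {l : ℝ → ℝ} (hl : ContDiff ℝ ∞ l) (hn : WInv h H Q P h0 n) :
    WInv h H Q P h0 (fun u => l (c u) * n u) :=
  WInv.mul hN hG ((WInv0.cas hN hC hG).comp1 hN hl) hn

/-- the derivative of `|u|²` in the direction `[h₀, b]` -/
theorem BN_D1 (u a : m) : D1 (fun z : m => BN m Q z z) u a = BN m Q u a + BN m Q a u := by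
  have h1 : HasFDerivAt (fun z : m => BN m Q z z)
      ((BN m Q u).comp (ContinuousLinearMap.id ℝ m) + (BN m Q).flip (id u)) u :=
    ((BN m Q).hasFDerivAt).clm_apply (hasFDerivAt_id u)
  unfold D1
  rw [h1.fderiv]
  simp

theorem flag_BN_h0 (hN : NData g h m Q P) (hC : Cas g h m Q P h0 B c) {u b : m}
    (hF : Flag Q u b) : Q (u : 𝔸) (P ⁅h0, (b : 𝔸)⁆ : m) = 0 := by
  rw [h0b_mem hN hC, skew h0, map_neg, ← hN.Qinv, hF.2.2.2]
  simp

theorem flag_BN_D1 (hN : NData g h m Q P) (hC : Cas g h m Q P h0 B c) {u b : m}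
    (hF : Flag Q u b) : D1 (fun z : m => BN m Q z z) u (P ⁅h0, (b : 𝔸)⁆) = 0 := by
  have h1 := flag_BN_h0 hN hC hF
  rw [BN_D1, BN_apply, BN_apply, h1, hN.Qsymm, h1, add_zero]

/-- `|u|² s` for an invariant `s` of degree zero -/
theorem WInv0.mulN (hN : NData g h m Q P) (hC : Cas g h m Q P h0 B c)
    (hG : GrpD H h m Q h0 B c) (hs : WInv0 H Q P h0 s) : WInv h H Q P h0 (mulN Q s) := by
  have h1 := hs.inv0.phiN hN hG
  refine ⟨h1.1, h1.2, fun u b hF => ?_⟩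
  have hu := hF.ne hN
  have h2 := hs.al0 u b hF
  unfold al at h2 ⊢
  unfold FL.mulN
  rw [D1_mul BNsq_smooth hs.inv0.smooth hu, h2, flag_BN_D1 hN hC hF, mul_zero, mul_zero, add_zero]

/-- `n / |u|²` for `n` in the class WI -/
theorem WInv.div (hN : NData g h m Q P) (hC : Cas g h m Q P h0 B c)
    (hG : GrpD H h m Q h0 B c) (hn : WInv h H Q P h0 n) :
    WInv0 H Q P h0 (fun u => (BN m Q u u)⁻¹ * n u) := by
  have h1 : ContDiffOn ℝ ∞ (fun u : m => (BN m Q u u)⁻¹ * n u) {0}ᶜ :=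
    (BNinv_smooth hN).mul hn.phi.smooth
  refine ⟨⟨h1, fun r u hr => ?_, fun k hk u u' huu => ?_⟩, fun u b hF => ?_⟩
  · have e1 : BN m Q (r • u) (r • u) = r ^ 2 * BN m Q u u := by
      rw [BN_apply, BN_apply]
      simp only [Submodule.coe_smul, map_smul, LinearMap.smul_apply, smul_eq_mul]
      ring
    rw [e1, hn.phi.hom, mul_inv]
    have hr2 : r ^ 2 ≠ 0 := pow_ne_zero 2 hr
    field_simp
  · rw [hn.inv k hk u u' huu, BN_apply, BN_apply, huu, hG.Qm k hk u u.2]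
  · have hu := hF.ne hN
    have h2 := hn.al0 u b hF
    have h3 := flag_BN_h0 hN hC hF
    unfold al at h2 ⊢
    rw [D1_mul (BNinv_smooth hN) hn.phi.smooth hu, h2, mul_zero, zero_add]
    have h4 := fd_BNinv hN hu h3
    unfold D1
    rw [h4, mul_zero]

/-! ### the square of `F₀ = Dv(u)[h₀, B u]` -/

/-- `s |u|⁻² F₀²`, `F₀ = Dv(u)[h₀, B u]` -/
def sqF {m : Submodule ℝ 𝔸} (Q : 𝔸 →ₗ[ℝ] 𝔸 →ₗ[ℝ] ℝ) (P : 𝔸 →L[ℝ] m) (h0 : 𝔸) (B : m → 𝔸)
    (v s : m → ℝ) (u : m) : ℝ :=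
  s u * (BN m Q u u)⁻¹ * (aW P h0 B v 1 u * aW P h0 B v 1 u)

theorem sqF_smooth (hN : NData g h m Q P) (hC : Cas g h m Q P h0 B c)
    (hv : ContDiffOn ℝ ∞ v {0}ᶜ) (hs : ContDiffOn ℝ ∞ s {0}ᶜ) :
    ContDiffOn ℝ ∞ (sqF Q P h0 B v s) {0}ᶜ :=
  (hs.mul (BNinv_smooth hN)).mul ((aW_smooth hC hv 1).mul (aW_smooth hC hv 1))

theorem sqF_inv (hN : NData g h m Q P) (hC : Cas g h m Q P h0 B c) (hG : GrpD H h m Q h0 B c)
    (hv : ContDiffOn ℝ ∞ v {0}ᶜ) (hvH : InvH H v) (hs : InvH H s) :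
    InvH H (sqF Q P h0 B v s) := by
  intro k hk u u' huu
  have e1 : BN m Q u' u' = BN m Q u u := by
    rw [BN_apply, BN_apply, huu, hG.Qm k hk u u.2]
  unfold sqF
  rw [hs k hk u u' huu, e1, aW_inv hN hC hG hv hvH 1 k hk u u' huu]

theorem sqF_PhiN (hN : NData g h m Q P) (hC : Cas g h m Q P h0 B c) (hG : GrpD H h m Q h0 B c)
    (hv : PhiN h m P v) (hvH : InvH H v) (hs : Inv0 H s) :
    PhiN h m P (sqF Q P h0 B v s) ∧ InvH H (sqF Q P h0 B v s) := by
  have h1 := sqF_smooth hN hC hv.smooth hs.smooth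
  have h2 := sqF_inv hN hC hG hv.smooth hvH hs.inv
  refine ⟨⟨h1, fun r u => ?_, inv_of_InvH hN hG h1 h2⟩, h2⟩
  unfold sqF
  rw [aW_hom hC hv.smooth hv.hom 1]
  have e1 : BN m Q (r • u) (r • u) = r ^ 2 * BN m Q u u := by
    rw [BN_apply, BN_apply]
    simp only [Submodule.coe_smul, map_smul, LinearMap.smul_apply, smul_eq_mul]
    ring
  by_cases hr : r = 0
  · rw [hr]; ring
  · rw [hs.hom r u hr, e1, mul_inv]
    have hr2 : r ^ 2 ≠ 0 := pow_ne_zero 2 hr
    field_simp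

/-- on flags `F₀ = w α` -/
theorem flag_F0 (hN : NData g h m Q P) (hC : Cas g h m Q P h0 B c) {u b : m} (hF : Flag Q u b) :
    aW P h0 B v 1 u = Q (B u) b * al P h0 v u b := flag_D1W hN hC hF v

theorem w_circ_deriv (hN : NData g h m Q P) (hC : Cas g h m Q P h0 B c) {u b : m}
    (hF : Flag Q u b) :
    HasDerivAt (fun τ => Q (B (circ u b τ)) (circ' u b τ)) (Q (fderiv ℝ B u b) b) 0 := by
  have hu := hF.ne hN
  have hc0 : circ u b 0 ≠ 0 := by rw [circ_zero]; exact hu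
  have h1 := comp_circ hC.Bsm (u := u) (b := b) (τ := 0) hc0
  have hv : HasDerivAt (fun τ => (circ' u b τ : 𝔸)) ((-circ u b 0 : m) : 𝔸) 0 :=
    (m.subtypeL.hasFDerivAt.comp_hasDerivAt (0 : ℝ) (circ'_deriv u b 0))
  have h3 : HasDerivAt (fun τ => Qc Q (B (circ u b τ))) (Qc Q (fderiv ℝ B (circ u b 0)
    (circ' u b 0))) 0 := (Qc Q).hasFDerivAt.comp_hasDerivAt (0 : ℝ) h1
  have h4 := h3.clm_apply hv
  rw [circ_zero, circ'_zero] at h4
  have h5 : Qc Q (fderiv ℝ B u b) b + Qc Q (B u) ((-u : m) : 𝔸) = Q (fderiv ℝ B u b) b := by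
    have h6 : Q (B u) u = 0 := by
      rw [hC.flat u b hF, map_smul, LinearMap.smul_apply, hN.Qsymm (b : 𝔸) u, hF.2.2.1, smul_zero]
    rw [Qc_apply, Qc_apply, Submodule.coe_neg, map_neg, h6, neg_zero, add_zero]
  rw [← h5]
  exact h4

/-- the derivative of `F₀` along the flat circle -/
theorem flag_F0_b (hN : NData g h m Q P) (hC : Cas g h m Q P h0 B c) (hv : PhiN h m P v)
    {u b : m} (hF : Flag Q u b) :
    D1 (aW P h0 B v 1) u b =
      Q (fderiv ℝ B u b) b * al P h0 v u b + Q (B u) b * al' P h0 v u b := by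
  have hu := hF.ne hN
  have h1 := comp_circ (aW_smooth hC hv.smooth 1) (u := u) (b := b) (τ := 0)
    (by rw [circ_zero]; exact hu)
  rw [circ_zero, circ'_zero] at h1
  have h2 : (fun τ => aW P h0 B v 1 (circ u b τ)) =
      fun τ => Q (B (circ u b τ)) (circ' u b τ) * al P h0 v (circ u b τ) (circ' u b τ) :=
    funext fun τ => flag_F0 hN hC (circ_flag hN hF τ)
  rw [h2] at h1
  have h3 := (w_circ_deriv hN hC hF).mul
    (al_circ_deriv hN hv.smooth (fun u hu => hv.inv h0 hC.mem u hu) hF)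
  have h4 := h1.unique h3
  simp only [circ_zero, circ'_zero] at h4
  exact h4

theorem sqF_S_al (hN : NData g h m Q P) (hC : Cas g h m Q P h0 B c)
    (hs : WInv0 H Q P h0 s) {u b : m} (hF : Flag Q u b) :
    D1 (fun u => s u * (BN m Q u u)⁻¹) u (P ⁅h0, (b : 𝔸)⁆) = 0 := by
  have hu := hF.ne hN
  have h2 := hs.al0 u b hF
  have h3 := flag_BN_h0 hN hC hF
  unfold al at h2
  rw [D1_mul hs.inv0.smooth (BNinv_smooth hN) hu, h2, mul_zero, add_zero]
  have h4 := fd_BNinv hN hu h3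
  unfold D1
  rw [h4, mul_zero]

/-- `α` of `s |u|⁻² F₀²` -/
theorem al_sqF (hN : NData g h m Q P) (hC : Cas g h m Q P h0 B c) (hv : PhiN h m P v)
    (hs : WInv0 H Q P h0 s) {u b : m} (hF : Flag Q u b) :
    al P h0 (sqF Q P h0 B v s) u b =
      2 * s u * (Q (B u) b) * al P h0 (aW P h0 B v 1) u b * al P h0 v u b := by
  have hu := hF.ne hN
  have hF1 := aW_smooth hC hv.smooth 1
  have hS := hs.inv0.smooth.mul (BNinv_smooth hN)
  have h1 : al P h0 (sqF Q P h0 B v s) u b =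
      D1 (fun u => (s u * (BN m Q u u)⁻¹) * (aW P h0 B v 1 u * aW P h0 B v 1 u)) u
        (P ⁅h0, (b : 𝔸)⁆) := rfl
  rw [h1, D1_mul hS (hF1.mul hF1) hu, sqF_S_al hN hC hs hF, D1_mul hF1 hF1 hu,
    BN_apply, hF.1, flag_F0 hN hC hF]
  unfold al
  ring

/-- `α'` of `s |u|⁻² F₀²` -/
theorem al'_sqF (hN : NData g h m Q P) (hC : Cas g h m Q P h0 B c) (hv : PhiN h m P v)
    (hs : WInv0 H Q P h0 s) {u b : m} (hF : Flag Q u b) (hv' : al' P h0 v u b = 0) :
    al' P h0 (sqF Q P h0 B v s) u b = al P h0 v u b *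
      (2 * s u * (Q (B u) b * D2 (aW P h0 B v 1) u b (P ⁅h0, (b : 𝔸)⁆) +
        Q (fderiv ℝ B u b) b * al P h0 (aW P h0 B v 1) u b) +
      (Q (B u) b * aW P h0 B v 1 u * D2 (fun u => s u * (BN m Q u u)⁻¹) u b (P ⁅h0, (b : 𝔸)⁆) +
        2 * Q (B u) b * D1 (fun u => s u * (BN m Q u u)⁻¹) u b *
          al P h0 (aW P h0 B v 1) u b)) := by
  have hu := hF.ne hN
  have hF1 := aW_smooth hC hv.smooth 1
  have hS := hs.inv0.smooth.mul (BNinv_smooth hN)
  have h1 : al' P h0 (sqF Q P h0 B v s) u b =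
      D2 (fun u => (s u * (BN m Q u u)⁻¹) * (aW P h0 B v 1 u * aW P h0 B v 1 u)) u b
        (P ⁅h0, (b : 𝔸)⁆) := rfl
  have h2 := flag_F0_b hN hC hv hF
  rw [hv', mul_zero, add_zero] at h2
  have h3 := flag_F0 (v := v) hN hC hF
  rw [h1, D2_mul hS (hF1.mul hF1) hu, sqF_S_al hN hC hs hF, D2_mul hF1 hF1 hu,
    D1_mul hF1 hF1 hu, D1_mul hF1 hF1 hu, BN_apply, hF.1, h2]
  unfold al at h3 ⊢
  rw [h3]
  ring

/-- `|α'| ≤ C |α_v|` for `s |u|⁻² F₀²` when `α'_v = 0` on all flags -/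
theorem al'_sqF_bound (hN : NData g h m Q P) (hC : Cas g h m Q P h0 B c) (hv : PhiN h m P v)
    (hs : WInv0 H Q P h0 s) (hv' : ∀ u b : m, Flag Q u b → al' P h0 v u b = 0) :
    ∃ C : ℝ, 0 ≤ C ∧ ∀ u b : m, Flag Q u b →
      |al' P h0 (sqF Q P h0 B v s) u b| ≤ C * |al P h0 v u b| := by
  have hne : ∀ p ∈ (FlagSet Q : Set (m × m)), p.1 ≠ 0 := fun p hp => flag_ne hN hp
  have hF1 := aW_smooth hC hv.smooth 1
  have hS : ContDiffOn ℝ ∞ (fun u : m => s u * (BN m Q u u)⁻¹) {0}ᶜ :=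
    hs.inv0.smooth.mul (BNinv_smooth hN)
  have c1 := cont_fst hs.inv0.smooth hne
  have c2 := w_cont hC hne
  have c3 : ContinuousOn (fun p : m × m => D2 (aW P h0 B v 1) p.1 p.2 (P ⁅h0, (p.2 : 𝔸)⁆))
    (FlagSet Q) := al'_cont hF1 hne
  have c4 : ContinuousOn (fun p : m × m => D2 (fun u : m => s u * (BN m Q u u)⁻¹) p.1 p.2
    (P ⁅h0, (p.2 : 𝔸)⁆)) (FlagSet Q) := al'_cont hS hne
  have c5 : ContinuousOn (fun p : m × m => Q (fderiv ℝ B p.1 p.2) p.2) (FlagSet Q) := by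
    have h1 : ContDiffOn ℝ ∞ (fun u => fderiv ℝ B u) {0}ᶜ := smooth_fderiv hC.Bsm
    have h2 : ContinuousOn (fun p : m × m => fderiv ℝ B p.1 p.2) (FlagSet Q) :=
      (cont_fst h1 hne).clm_apply continuous_snd.continuousOn
    have h3 : ContinuousOn (fun p : m × m => Qc Q (fderiv ℝ B p.1 p.2)) (FlagSet Q) :=
      (Qc Q).continuous.comp_continuousOn h2
    exact h3.clm_apply (continuous_subtype_val.comp continuous_snd).continuousOn
  have c6 := al_cont (P := P) (h0 := h0) hF1 hne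
  have c7 := cont_fst hF1 hne
  have c8 : ContinuousOn (fun p : m × m => D1 (fun u : m => s u * (BN m Q u u)⁻¹) p.1 p.2)
      (FlagSet Q) := (cont_fst (smooth_fderiv hS) hne).clm_apply continuous_snd.continuousOn
  obtain ⟨C, hC1⟩ := (flagSet_compact hN).exists_bound_of_continuousOn
    (((continuousOn_const (c := (2 : ℝ))).mul c1).mul ((c2.mul c3).add (c5.mul c6)) |>.add
      (((c2.mul c7).mul c4).add ((((continuousOn_const (c := (2 : ℝ))).mul c2).mul c8).mul c6)))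
  refine ⟨max C 0, le_max_right _ _, fun u b hF => ?_⟩
  have h1 := hC1 (u, b) hF
  rw [al'_sqF hN hC hv hs hF (hv' u b hF), abs_mul, mul_comm]
  refine mul_le_mul_of_nonneg_right ?_ (abs_nonneg _)
  rw [Real.norm_eq_abs] at h1
  exact h1.trans (le_max_left _ _)

/-! ### the shape of `φ` in the application -/

/-- hypothesis (1) of theorem EC2 for `φ = v + n + s |u|⁻² F₀²` -/
theorem ec2_one (hN : NData g h m Q P) (hC : Cas g h m Q P h0 B c)
    (hv : PhiN h m P v) (hn : WInv h H Q P h0 n) (hs : WInv0 H Q P h0 s)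
    (hv' : ∀ u b : m, Flag Q u b → al' P h0 v u b = 0)
    (hsm : ∀ u b : m, Flag Q u b →
      |s u * (Q (B u) b) * al P h0 (aW P h0 B v 1) u b| ≤ 1 / 4) :
    (∀ u b : m, Flag Q u b →
      al P h0 (fun z => v z + n z + sqF Q P h0 B v s z) u b =
        (1 + 2 * (s u * (Q (B u) b) * al P h0 (aW P h0 B v 1) u b)) * al P h0 v u b) ∧
    (∀ u b : m, Flag Q u b →
      (al P h0 (fun z => v z + n z + sqF Q P h0 B v s z) u b = 0 ↔ al P h0 v u b = 0)) ∧
    ∃ M : ℝ, 0 ≤ M ∧ ∀ u b : m, Flag Q u b →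
      |al' P h0 (fun z => v z + n z + sqF Q P h0 B v s z) u b| ≤
        M * |al P h0 (fun z => v z + n z + sqF Q P h0 B v s z) u b| := by
  have hq := sqF_smooth hN hC hv.smooth hs.inv0.smooth
  have e1 : ∀ u b : m, Flag Q u b →
      al P h0 (fun z => v z + n z + sqF Q P h0 B v s z) u b =
        (1 + 2 * (s u * (Q (B u) b) * al P h0 (aW P h0 B v 1) u b)) * al P h0 v u b := by
    intro u b hF
    have hu := hF.ne hN
    have h1 := al_sqF hN hC hv hs hF
    have h2 := hn.al0 u b hF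
    unfold al at h1 h2 ⊢
    rw [D1_sum (hv.smooth.add hn.phi.smooth) hq hu, D1_sum hv.smooth hn.phi.smooth hu, h1, h2]
    ring
  have e2 : ∀ u b : m, Flag Q u b →
      al' P h0 (fun z => v z + n z + sqF Q P h0 B v s z) u b =
        al' P h0 (sqF Q P h0 B v s) u b := by
    intro u b hF
    have hu := hF.ne hN
    have h1 := hv' u b hF
    have h2 := hn.al' hN hC hF
    unfold al' at h1 h2 ⊢
    rw [D2_sum (hv.smooth.add hn.phi.smooth) hq hu, D2_sum hv.smooth hn.phi.smooth hu, h1, h2]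
    ring
  have e3 : ∀ u b : m, Flag Q u b →
      1 / 2 ≤ 1 + 2 * (s u * (Q (B u) b) * al P h0 (aW P h0 B v 1) u b) := by
    intro u b hF
    have h1 := (abs_le.1 (hsm u b hF)).1
    linarith
  refine ⟨e1, fun u b hF => ?_, ?_⟩
  · rw [e1 u b hF]
    have h1 := e3 u b hF
    constructor
    · intro h2
      rcases mul_eq_zero.1 h2 with h3 | h3
      · linarith
      · exact h3
    · intro h2
      rw [h2, mul_zero]
  · obtain ⟨C, hC0, hC1⟩ := al'_sqF_bound hN hC hv hs hv'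
    refine ⟨2 * C, by positivity, fun u b hF => ?_⟩
    have h1 := hC1 u b hF
    have h2 := e3 u b hF
    rw [e2 u b hF, e1 u b hF, abs_mul]
    have h3 : 1 / 2 ≤ |1 + 2 * (s u * (Q (B u) b) * al P h0 (aW P h0 B v 1) u b)| :=
      h2.trans (le_abs_self _)
    have h4 : C * |al P h0 v u b| ≤
        2 * C * (|1 + 2 * (s u * (Q (B u) b) * al P h0 (aW P h0 B v 1) u b)| *
          |al P h0 v u b|) := by
      have h5 : 0 ≤ C * |al P h0 v u b| := mul_nonneg hC0 (abs_nonneg _)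
      nlinarith
    exact h1.trans h4

end Pool.Agent.FL
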