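import Pool.Agent.FL.WCalc
import Pool.Agent.helper79.FR.Grp

/-!
# MP_f09395_gt, wall formulas: the derivatives of `c` at a wall flag

A wall flag is a unit flat flag `(u, b)` with `⟨B u, b⟩ = 0`.
-/

set_option linter.unusedSectionVars false

noncomputable section

namespace Pool.Agent.FL.Wall

open scoped ContDiff
open Pool.Agent.Helper93.Fin Pool.Agent.helper79.FP Pool.Agent.helper79.FR
open Filter Topology

section gen

variable {E : Type*} [NormedAddCommGroup E] [NormedSpace ℝ E] {f f' : E → ℝ}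

theorem ev_of_ne (hf : ∀ z : E, z ≠ 0 → f z = f' z) {u : E} (hu : u ≠ 0) : f =ᶠ[𝓝 u] f' :=
  (eventually_ne' hu).mono hf

theorem D1_congr' (hf : ∀ z : E, z ≠ 0 → f z = f' z) {u : E} (hu : u ≠ 0) (a : E) :
    D1 f u a = D1 f' u a := (ev_D1 (ev_of_ne hf hu) a).self_of_nhds

theorem D2_congr' (hf : ∀ z : E, z ≠ 0 → f z = f' z) {u : E} (hu : u ≠ 0) (a b : E) :
    D2 f u a b = D2 f' u a b := (ev_D2 (ev_of_ne hf hu) a b).self_of_nhds

theorem D3_congr' (hf : ∀ z : E, z ≠ 0 → f z = f' z) {u : E} (hu : u ≠ 0) (a b c : E) :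
    D3 f u a b c = D3 f' u a b c := (ev_D3 (ev_of_ne hf hu) a b c).self_of_nhds

theorem D1_cmul (r : ℝ) (hf : ContDiffOn ℝ ∞ f {0}ᶜ) {u : E} (hu : u ≠ 0) (a : E) :
    D1 (fun z => r * f z) u a = r * D1 f u a := fd_cmul r hf hu a

theorem D2_cmul (r : ℝ) (hf : ContDiffOn ℝ ∞ f {0}ᶜ) {u : E} (hu : u ≠ 0) (a b : E) :
    D2 (fun z => r * f z) u a b = r * D2 f u a b := by
  rw [D2, fd_congr (fun z hz => D1_cmul r hf hz a) hu, fd_cmul r (D1_smooth hf a) hu]; rfl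

theorem D3_cmul (r : ℝ) (hf : ContDiffOn ℝ ∞ f {0}ᶜ) {u : E} (hu : u ≠ 0) (a b c : E) :
    D3 (fun z => r * f z) u a b c = r * D3 f u a b c := by
  rw [D3, fd_congr (fun z hz => D2_cmul r hf hz a b) hu, fd_cmul r (D2_smooth hf a b) hu]; rfl

/-- derivative along a line -/
theorem line_D (hf : ContDiffOn ℝ ∞ f {0}ᶜ) {u b : E} {τ : ℝ} (hu : u + τ • b ≠ 0) :
    HasDerivAt (fun τ : ℝ => f (u + τ • b)) (D1 f (u + τ • b) b) τ := by
  have hl : HasDerivAt (fun τ : ℝ => u + τ • b) b τ := by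
    simpa using ((hasDerivAt_id τ).smul_const b).const_add u
  exact (dAt hf hu).hasFDerivAt.comp_hasDerivAt τ hl

end gen

variable {𝔸 : Type*} [NormedRing 𝔸] [NormedAlgebra ℝ 𝔸] [FiniteDimensional ℝ 𝔸]
variable {g h m : Submodule ℝ 𝔸} {Q : 𝔸 →ₗ[ℝ] 𝔸 →ₗ[ℝ] ℝ} {P : 𝔸 →L[ℝ] m} {φ ψ v n : m → ℝ}
variable {h0 : 𝔸} {B : m → 𝔸} {c : m → ℝ}

/-- the derivative of `⟨B u, b⟩` along the flat circles is `4 c` -/
def CasW {m : Submodule ℝ 𝔸} (Q : 𝔸 →ₗ[ℝ] 𝔸 →ₗ[ℝ] ℝ) (B : m → 𝔸) (c : m → ℝ) : Prop :=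
  ∀ u b : m, Flag Q u b → Q (fderiv ℝ B u b) b = 4 * c u

/-- the function `⟨B u, Y⟩` -/
def bq {m : Submodule ℝ 𝔸} (Q : 𝔸 →ₗ[ℝ] 𝔸 →ₗ[ℝ] ℝ) (B : m → 𝔸) (Y : 𝔸) (u : m) : ℝ :=
  Q (B u) Y

theorem bq_eq (Y : 𝔸) : (bq Q B Y : m → ℝ) = fun u => (Qc Q).flip Y (B u) := rfl

theorem bq_smooth (hC : Cas g h m Q P h0 B c) (Y : 𝔸) : ContDiffOn ℝ ∞ (bq Q B Y) {0}ᶜ :=
  ((Qc Q).flip Y).contDiff.comp_contDiffOn hC.Bsm

theorem bq_D1 (hC : Cas g h m Q P h0 B c) {u : m} (hu : u ≠ 0) (Y : 𝔸) (a : m) :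
    D1 (bq Q B Y) u a = Q (fderiv ℝ B u a) Y := by
  rw [D1, bq_eq]
  have h1 := ((Qc Q).flip Y).hasFDerivAt.comp u (diffAt_ne hC.Bsm hu).hasFDerivAt
  have h2 : HasFDerivAt (fun u => (Qc Q).flip Y (B u)) (((Qc Q).flip Y).comp (fderiv ℝ B u)) u :=
    h1
  rw [h2.fderiv]
  rfl

theorem bq_euler (hC : Cas g h m Q P h0 B c) {u : m} (hu : u ≠ 0) (Y : 𝔸) :
    D1 (bq Q B Y) u u = bq Q B Y u := by
  have h1 : HasDerivAt (fun r : ℝ => r • u) u 1 := by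
    simpa using (hasDerivAt_id (1 : ℝ)).smul_const u
  have h2 : DifferentiableAt ℝ (bq Q B Y) ((1 : ℝ) • u) := by
    rw [one_smul]; exact diffAt_ne (bq_smooth hC Y) hu
  have h3 := h2.hasFDerivAt.comp_hasDerivAt (1 : ℝ) h1
  rw [one_smul] at h3
  have h4 : (bq Q B Y ∘ fun r : ℝ => r • u) = fun r => r * bq Q B Y u := by
    funext r
    simp only [Function.comp_apply, bq, hC.Bhom, map_smul, LinearMap.smul_apply, smul_eq_mul]
  rw [h4] at h3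
  have h5 : HasDerivAt (fun r : ℝ => r * bq Q B Y u) (bq Q B Y u) 1 := by
    simpa using (hasDerivAt_id (1 : ℝ)).mul_const (bq Q B Y u)
  exact h3.unique h5

/-- equivariance of `B`, tested against `Y` -/
theorem bq_equi (hN : NData g h m Q P) (hC : Cas g h m Q P h0 B c) {u : m} (hu : u ≠ 0) {X : 𝔸}
    (hX : X ∈ g) (hm : (P ⁅(u : 𝔸), X⁆ : 𝔸) = ⁅(u : 𝔸), X⁆) (Y : 𝔸) :
    D1 (bq Q B Y) u (P ⁅(u : 𝔸), X⁆) = bq Q B ⁅X, Y⁆ u := by
  rw [bq_D1 hC hu, hC.Bequi u hu X hX (hm ▸ (P ⁅(u : 𝔸), X⁆).2), hN.Qinv]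
  rfl

/-! ### wall flags -/

theorem wall_B (hC : Cas g h m Q P h0 B c) {u b : m} (hF : Flag Q u b) (hw : Q (B u) b = 0) :
    B u = 0 := by
  rw [hC.flat u b hF, hw, zero_smul]

theorem wall_bq (hC : Cas g h m Q P h0 B c) {u b : m} (hF : Flag Q u b) (hw : Q (B u) b = 0)
    (Y : 𝔸) : bq Q B Y u = 0 := by
  rw [bq, wall_B hC hF hw, map_zero, LinearMap.zero_apply]

theorem wall_c (hC : Cas g h m Q P h0 B c) {u b : m} (hF : Flag Q u b) (hw : Q (B u) b = 0) :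
    c u ^ 2 = 1 := by
  have := hC.cw u b hF
  rw [hw] at this
  linarith

/-- derivative of `B` along a flat circle -/
theorem flag_B' (hN : NData g h m Q P) (hC : Cas g h m Q P h0 B c) (hW : CasW Q B c) {u b : m}
    (hF : Flag Q u b) : fderiv ℝ B u b = (4 * c u) • (b : 𝔸) - (Q (B u) b) • (u : 𝔸) := by
  obtain ⟨w', hw'⟩ := flag_B hN hC hF
  have h1 := hW u b hF
  rw [hw', map_sub, map_smul, map_smul, LinearMap.sub_apply, LinearMap.smul_apply,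
    LinearMap.smul_apply, hF.2.1, hF.2.2.1, smul_eq_mul, smul_eq_mul, mul_one, mul_zero,
    sub_zero] at h1
  rw [hw', h1]

/-- `D²B(b, b) = -8 c u` -/
theorem wall_bb (hN : NData g h m Q P) (hC : Cas g h m Q P h0 B c) (hW : CasW Q B c) {u b : m}
    (hF : Flag Q u b) (hw : Q (B u) b = 0) (Y : 𝔸) :
    D2 (bq Q B Y) u b b = -8 * c u * Q (u : 𝔸) Y := by
  have hu := hF.ne hN
  have hs := bq_smooth (Q := Q) hC Y
  have hc0 : circ u b 0 ≠ 0 := by rw [circ_zero]; exact hu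
  have h1 := comp_circ (D1_smooth hs b) (u := u) (b := b) (τ := 0) hc0
  have h2 := comp_circ (D1_smooth hs u) (u := u) (b := b) (τ := 0) hc0
  have h3 := (Real.hasDerivAt_cos 0).mul h1
  have h4 := (Real.hasDerivAt_sin 0).mul h2
  have h5 := h3.sub h4
  simp only [circ_zero, circ'_zero, Real.sin_zero, Real.cos_zero] at h5
  -- the right side
  have hB1 := comp_circ hC.Bsm (u := u) (b := b) (τ := 0) hc0
  have hc1 := comp_circ hC.csm (u := u) (b := b) (τ := 0) hc0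
  rw [circ_zero, circ'_zero] at hB1 hc1
  have hv : HasDerivAt (fun τ => (circ' u b τ : 𝔸)) ((-circ u b 0 : m) : 𝔸) 0 :=
    (m.subtypeL.hasFDerivAt.comp_hasDerivAt (0 : ℝ) (circ'_deriv u b 0))
  have hv0 : HasDerivAt (fun τ => (circ u b τ : 𝔸)) ((circ' u b 0 : m) : 𝔸) 0 :=
    (m.subtypeL.hasFDerivAt.comp_hasDerivAt (0 : ℝ) (circ_deriv u b 0))
  rw [circ_zero] at hv
  rw [circ'_zero] at hv0
  have hw1 : HasDerivAt (fun τ => Q (B (circ u b τ)) (circ' u b τ))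
      (Q (fderiv ℝ B u b) b + Q (B u) ((-u : m) : 𝔸)) 0 := by
    have k3 : HasDerivAt (fun τ => Qc Q (B (circ u b τ))) (Qc Q (fderiv ℝ B u b)) 0 :=
      (Qc Q).hasFDerivAt.comp_hasDerivAt (0 : ℝ) hB1
    have k4 := k3.clm_apply hv
    rw [circ_zero, circ'_zero] at k4
    exact k4
  have hq1 : HasDerivAt (fun τ => Q (circ' u b τ : 𝔸) Y) (Q ((-u : m) : 𝔸) Y) 0 :=
    ((Qc Q).flip Y).hasFDerivAt.comp_hasDerivAt (0 : ℝ) hv
  have hq0 : HasDerivAt (fun τ => Q (circ u b τ : 𝔸) Y) (Q (b : 𝔸) Y) 0 :=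
    ((Qc Q).flip Y).hasFDerivAt.comp_hasDerivAt (0 : ℝ) hv0
  have h8 := ((hc1.const_mul 4).mul hq1).sub (hw1.mul hq0)
  have h6 : ((Real.cos * fun τ => D1 (bq Q B Y) (circ u b τ) b) -
      (Real.sin * fun τ => D1 (bq Q B Y) (circ u b τ) u)) =
      (fun τ => 4 * c (circ u b τ)) * (fun τ => Q (circ' u b τ : 𝔸) Y) -
      (fun τ => Q (B (circ u b τ)) (circ' u b τ)) * (fun τ => Q (circ u b τ : 𝔸) Y) := by
    funext τ
    have hFτ := circ_flag hN hF τ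
    have k1 := bq_D1 (Q := Q) hC (hFτ.ne hN) Y (circ' u b τ)
    rw [flag_B' hN hC hW hFτ, map_sub, map_smul, map_smul, LinearMap.sub_apply,
      LinearMap.smul_apply, LinearMap.smul_apply, smul_eq_mul, smul_eq_mul] at k1
    have k2 : D1 (bq Q B Y) (circ u b τ) (circ' u b τ) = -Real.sin τ *
        D1 (bq Q B Y) (circ u b τ) u + Real.cos τ * D1 (bq Q B Y) (circ u b τ) b := by
      unfold D1 circ'
      rw [map_add, map_smul, map_smul, smul_eq_mul, smul_eq_mul]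
    simp only [Pi.sub_apply, Pi.mul_apply]
    rw [← k1, k2]
    ring
  have h5' : HasDerivAt ((Real.cos * fun τ => D1 (bq Q B Y) (circ u b τ) b) -
      (Real.sin * fun τ => D1 (bq Q B Y) (circ u b τ) u)) _ 0 := h5
  have h8' : HasDerivAt ((fun τ => 4 * c (circ u b τ)) * (fun τ => Q (circ' u b τ : 𝔸) Y) -
      (fun τ => Q (B (circ u b τ)) (circ' u b τ)) * (fun τ => Q (circ u b τ : 𝔸) Y)) _ 0 := h8
  rw [h6] at h5'
  have h9 := h5'.unique h8'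
  have e1 : fderiv ℝ c u b = 0 := by
    have := flag_c1 hN hC hF
    rw [hw, mul_zero] at this
    exact this
  rw [circ_zero, circ'_zero, e1, hW u b hF, hw, bq_euler hC hu, wall_bq hC hF hw] at h9
  have e2 : Q (B u) ((-u : m) : 𝔸) = 0 := by rw [wall_B hC hF hw]; simp
  rw [e2] at h9
  have e3 : Q ((-u : m) : 𝔸) Y = - Q (u : 𝔸) Y := by simp
  rw [e3] at h9
  unfold D2
  linarith

theorem line_ne (hN : NData g h m Q P) {u b : m} (hF : Flag Q u b) (τ : ℝ) : u + τ • b ≠ 0 := by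
  intro h1
  have h2 : Q (u : 𝔸) ((u + τ • b : m) : 𝔸) = 0 := by rw [h1]; simp
  rw [Submodule.coe_add, Submodule.coe_smul, map_add, map_smul, hF.1, hF.2.2.1] at h2
  simp at h2

section mixed

variable {u b : m} {X : 𝔸}

/-- the first and the second derivative of the equivariance along the line `u + τ b` -/
theorem wall_mixed (hN : NData g h m Q P) (hC : Cas g h m Q P h0 B c) (hF : Flag Q u b)
    (hX : X ∈ g) (hm : (P ⁅(u : 𝔸), X⁆ : 𝔸) = ⁅(u : 𝔸), X⁆)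
    (hm' : (P ⁅(b : 𝔸), X⁆ : 𝔸) = ⁅(b : 𝔸), X⁆) (Y : 𝔸) :
    D2 (bq Q B Y) u (P ⁅(u : 𝔸), X⁆) b + D1 (bq Q B Y) u (P ⁅(b : 𝔸), X⁆) =
      D1 (bq Q B ⁅X, Y⁆) u b ∧
    D3 (bq Q B Y) u (P ⁅(u : 𝔸), X⁆) b b + 2 * D2 (bq Q B Y) u (P ⁅(b : 𝔸), X⁆) b =
      D2 (bq Q B ⁅X, Y⁆) u b b := by
  have hs := bq_smooth (Q := Q) hC Y
  have hs' := bq_smooth (Q := Q) hC ⁅X, Y⁆
  have hl : ∀ τ : ℝ, u + τ • b ≠ 0 := line_ne hN hF
  obtain ⟨e, he⟩ : ∃ e : m, e = P ⁅(u : 𝔸), X⁆ := ⟨_, rfl⟩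
  obtain ⟨p, hp⟩ : ∃ p : m, p = P ⁅(b : 𝔸), X⁆ := ⟨_, rfl⟩
  rw [← he] at hm ⊢
  rw [← hp] at hm' ⊢
  have hz : u + (0 : ℝ) • b = u := by rw [zero_smul, add_zero]
  have k0 : ∀ τ : ℝ, D1 (bq Q B Y) (u + τ • b) e + τ * D1 (bq Q B Y) (u + τ • b) p =
      bq Q B ⁅X, Y⁆ (u + τ • b) := by
    intro τ
    have e1 : ⁅((u + τ • b : m) : 𝔸), X⁆ = ⁅(u : 𝔸), X⁆ + τ • ⁅(b : 𝔸), X⁆ := by
      rw [Submodule.coe_add, Submodule.coe_smul, add_lie', smul_lie']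
    have e2 : P ⁅((u + τ • b : m) : 𝔸), X⁆ = e + τ • p := by
      rw [e1, map_add, map_smul, ← he, ← hp]
    have e3 : (P ⁅((u + τ • b : m) : 𝔸), X⁆ : 𝔸) = ⁅((u + τ • b : m) : 𝔸), X⁆ := by
      rw [e2, e1, Submodule.coe_add, Submodule.coe_smul, hm, hm']
    have e4 := bq_equi hN hC (hl τ) hX e3 Y
    rw [← e4, e2]
    unfold D1
    rw [map_add, map_smul, smul_eq_mul]
  have k1 : ∀ τ : ℝ, HasDerivAt (fun τ : ℝ => D1 (bq Q B Y) (u + τ • b) e +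
      τ * D1 (bq Q B Y) (u + τ • b) p) (D2 (bq Q B Y) (u + τ • b) e b +
        (1 * D1 (bq Q B Y) (u + τ • b) p + τ * D2 (bq Q B Y) (u + τ • b) p b)) τ := fun τ =>
    (line_D (D1_smooth hs e) (hl τ)).add ((hasDerivAt_id τ).mul (line_D (D1_smooth hs p) (hl τ)))
  have k2 : (fun τ : ℝ => D1 (bq Q B Y) (u + τ • b) e + τ * D1 (bq Q B Y) (u + τ • b) p) =
      fun τ => bq Q B ⁅X, Y⁆ (u + τ • b) := funext k0
  have k3 : ∀ τ : ℝ, D2 (bq Q B Y) (u + τ • b) e b + (1 * D1 (bq Q B Y) (u + τ • b) p +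
      τ * D2 (bq Q B Y) (u + τ • b) p b) = D1 (bq Q B ⁅X, Y⁆) (u + τ • b) b := by
    intro τ
    have h1 := k1 τ
    rw [k2] at h1
    exact h1.unique (line_D hs' (hl τ))
  constructor
  · have h1 := k3 0
    rw [hz] at h1
    linarith
  · have k4 : HasDerivAt (fun τ : ℝ => D2 (bq Q B Y) (u + τ • b) e b +
        (1 * D1 (bq Q B Y) (u + τ • b) p + τ * D2 (bq Q B Y) (u + τ • b) p b))
        (D3 (bq Q B Y) (u + (0 : ℝ) • b) e b b + (1 * D2 (bq Q B Y) (u + (0 : ℝ) • b) p b +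
          (1 * D2 (bq Q B Y) (u + (0 : ℝ) • b) p b + 0 * D3 (bq Q B Y) (u + (0 : ℝ) • b) p b b)))
          0 :=
      (line_D (D2_smooth hs e b) (hl 0)).add (((line_D (D1_smooth hs p) (hl 0)).const_mul 1).add
        ((hasDerivAt_id (0 : ℝ)).mul (line_D (D2_smooth hs p b) (hl 0))))
    have k5 : (fun τ : ℝ => D2 (bq Q B Y) (u + τ • b) e b +
        (1 * D1 (bq Q B Y) (u + τ • b) p + τ * D2 (bq Q B Y) (u + τ • b) p b)) =
        fun τ => D1 (bq Q B ⁅X, Y⁆) (u + τ • b) b := funext k3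
    rw [k5] at k4
    have k6 := k4.unique (line_D (D1_smooth hs' b) (hl 0))
    rw [hz] at k6
    have k7 : D1 (fun z => D1 (bq Q B ⁅X, Y⁆) z b) u b = D2 (bq Q B ⁅X, Y⁆) u b b := rfl
    rw [k7] at k6
    linarith

end mixed

end Pool.Agent.FL.Wall
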