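import Pool.Agent.FL.WallD

/-!
# MP_f09395_gt, wall formulas: the jet of `l ∘ c` at a wall flag
-/

set_option linter.unusedSectionVars false

noncomputable section

namespace Pool.Agent.FL.Wall

open scoped ContDiff
open Pool.Agent.Helper93.Fin Pool.Agent.helper79.FP Pool.Agent.helper79.FR
open Filter Topology

variable {𝔸 : Type*} [NormedRing 𝔸] [NormedAlgebra ℝ 𝔸] [FiniteDimensional ℝ 𝔸]
variable {g h m : Submodule ℝ 𝔸} {Q : 𝔸 →ₗ[ℝ] 𝔸 →ₗ[ℝ] ℝ} {P : 𝔸 →L[ℝ] m} {φ ψ v n : m → ℝ}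
variable {h0 : 𝔸} {B : m → 𝔸} {c : m → ℝ}

/-- the jet at a wall flag `(u, b)` of a function which is `k θ²` up to higher order, `θ` the
distance to the wall -/
structure WJet (g : Submodule ℝ 𝔸) {m : Submodule ℝ 𝔸} (Q : 𝔸 →ₗ[ℝ] 𝔸 →ₗ[ℝ] ℝ) (P : 𝔸 →L[ℝ] m)
    (L : m → ℝ) (k : ℝ) (u b : m) : Prop where
  z : L u = 0
  d1 : ∀ w, D1 L u w = 0
  d2b : ∀ w : m, D2 L u b w = 2 * k * Q (b : 𝔸) w
  d3b : ∀ w : m, D3 L u b b w = -4 * k * Q (u : 𝔸) w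
  d2e : ∀ X ∈ g, (P ⁅(u : 𝔸), X⁆ : 𝔸) = ⁅(u : 𝔸), X⁆ → ∀ w, D2 L u (P ⁅(u : 𝔸), X⁆) w = 0
  d3e : ∀ X ∈ g, (P ⁅(u : 𝔸), X⁆ : 𝔸) = ⁅(u : 𝔸), X⁆ → (P ⁅(b : 𝔸), X⁆ : 𝔸) = ⁅(b : 𝔸), X⁆ →
    ∀ w : m, D3 L u b (P ⁅(u : 𝔸), X⁆) w =
      2 * k * Q (P ⁅(b : 𝔸), X⁆ : m) (w : 𝔸) - D2 L u (P ⁅(b : 𝔸), X⁆) w
  d4 : ∀ X ∈ g, (P ⁅(u : 𝔸), X⁆ : 𝔸) = ⁅(u : 𝔸), X⁆ → (P ⁅(b : 𝔸), X⁆ : 𝔸) = ⁅(b : 𝔸), X⁆ →
    D4 L u b b (P ⁅(u : 𝔸), X⁆) (P ⁅(u : 𝔸), X⁆) =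
      -4 * k * Q (P ⁅(u : 𝔸), X⁆ : m) (P ⁅(u : 𝔸), X⁆ : m)
      - 4 * k * Q (P ⁅(b : 𝔸), X⁆ : m) (P ⁅(b : 𝔸), X⁆ : m)
      + 2 * D2 L u (P ⁅(b : 𝔸), X⁆) (P ⁅(b : 𝔸), X⁆)

section lc

variable {u b : m} {X : 𝔸} {l : ℝ → ℝ}

theorem lc_id (hC : Cas g h m Q P h0 B c) (hl : ContDiff ℝ ∞ l) (w : m) :
    ∀ z : m, z ≠ 0 → D1 (fun z => l (c z)) z w = deriv l (c z) * D1 c z w := fun _ hz =>
  comp_D1 hl hC.csm hz w

theorem dl_smooth (hC : Cas g h m Q P h0 B c) (hl : ContDiff ℝ ∞ l) :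
    ContDiffOn ℝ ∞ (fun z => deriv l (c z)) {0}ᶜ :=
  comp_smooth (contDiff_infty_iff_deriv.1 hl).2 hC.csm

/-- first derivatives of `l'(c)` vanish on the wall -/
theorem dl_D1 (hN : NData g h m Q P) (hC : Cas g h m Q P h0 B c) (hl : ContDiff ℝ ∞ l)
    (hF : Flag Q u b) (hw : Q (B u) b = 0) (a : m) : D1 (fun z => deriv l (c z)) u a = 0 := by
  rw [comp_D1 (contDiff_infty_iff_deriv.1 hl).2 hC.csm (hF.ne hN), wall_c1 hN hC hF hw, mul_zero]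

theorem dl_D2 (hN : NData g h m Q P) (hC : Cas g h m Q P h0 B c) (hl : ContDiff ℝ ∞ l)
    (hF : Flag Q u b) (hw : Q (B u) b = 0) (a a' : m) :
    D2 (fun z => deriv l (c z)) u a a' = deriv (deriv l) (c u) * D2 c u a a' := by
  rw [comp_D2 (contDiff_infty_iff_deriv.1 hl).2 hC.csm (hF.ne hN), wall_c1 hN hC hF hw, zero_mul,
    add_zero]

theorem lc_D2 (hN : NData g h m Q P) (hC : Cas g h m Q P h0 B c) (hl : ContDiff ℝ ∞ l)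
    (hF : Flag Q u b) (hw : Q (B u) b = 0) (w a : m) :
    D2 (fun z => l (c z)) u w a = deriv l (c u) * D2 c u w a := by
  have hu := hF.ne hN
  have h1 := D1_congr' (lc_id hC hl w) hu a
  rw [D1_mul (dl_smooth hC hl) (D1_smooth hC.csm w) hu, wall_c1 hN hC hF hw, zero_mul,
    add_zero] at h1
  exact h1

theorem lc_D3 (hN : NData g h m Q P) (hC : Cas g h m Q P h0 B c) (hl : ContDiff ℝ ∞ l)
    (hF : Flag Q u b) (hw : Q (B u) b = 0) (w a a' : m) :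
    D3 (fun z => l (c z)) u w a a' = deriv l (c u) * D3 c u w a a' := by
  have hu := hF.ne hN
  have h1 := D2_congr' (lc_id hC hl w) hu a a'
  rw [D2_mul (dl_smooth hC hl) (D1_smooth hC.csm w) hu, wall_c1 hN hC hF hw, zero_mul,
    dl_D1 hN hC hl hF hw, dl_D1 hN hC hl hF hw] at h1
  have e1 : D2 (fun z => D1 c z w) u a a' = D3 c u w a a' := rfl
  have e2 : D2 (fun z => D1 (fun z => l (c z)) z w) u a a' = D3 (fun z => l (c z)) u w a a' := rfl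
  rw [e1, e2] at h1
  rw [h1]; ring

theorem lc_D4 (hN : NData g h m Q P) (hC : Cas g h m Q P h0 B c) (hl : ContDiff ℝ ∞ l)
    (hF : Flag Q u b) (hw : Q (B u) b = 0) (w a a' a'' : m) :
    D4 (fun z => l (c z)) u w a a' a'' = deriv l (c u) * D4 c u w a a' a''
      + deriv (deriv l) (c u) * (D2 c u w a * D2 c u a' a'' + D2 c u w a' * D2 c u a a''
        + D2 c u w a'' * D2 c u a a') := by
  have hu := hF.ne hN
  have h1 := D3_congr' (lc_id hC hl w) hu a a' a''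
  rw [D3_mul (dl_smooth hC hl) (D1_smooth hC.csm w) hu, wall_c1 hN hC hF hw, zero_mul,
    dl_D1 hN hC hl hF hw, dl_D1 hN hC hl hF hw, dl_D1 hN hC hl hF hw, dl_D2 hN hC hl hF hw,
    dl_D2 hN hC hl hF hw, dl_D2 hN hC hl hF hw] at h1
  have e1 : D3 (fun z => D1 c z w) u a a' a'' = D4 c u w a a' a'' := rfl
  have e2 : D3 (fun z => D1 (fun z => l (c z)) z w) u a a' a'' =
    D4 (fun z => l (c z)) u w a a' a'' := rfl
  have e3 : ∀ a, D1 (fun z => D1 c z w) u a = D2 c u w a := fun _ => rfl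
  rw [e1, e2, e3, e3, e3] at h1
  rw [h1]; ring

/-- the jet of `l ∘ c` at a wall flag -/
theorem lc_jet (hN : NData g h m Q P) (hC : Cas g h m Q P h0 B c) (hW : CasW Q B c)
    (hl : ContDiff ℝ ∞ l) (hF : Flag Q u b) (hw : Q (B u) b = 0) (hl0 : l (c u) = 0) :
    WJet g Q P (fun z => l (c z)) (-8 * c u * deriv l (c u)) u b where
  z := hl0
  d1 w := by rw [comp_D1 hl hC.csm (hF.ne hN), wall_c1 hN hC hF hw, mul_zero]
  d2b w := by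
    rw [lc_D2 hN hC hl hF hw, wall_c2b hN hC hW hF hw]; ring
  d3b w := by
    rw [lc_D3 hN hC hl hF hw, wall_c3bb hN hC hW hF hw]; ring
  d2e X hX hm w := by
    rw [lc_D2 hN hC hl hF hw, wall_c2e hN hC hF hw hX hm, mul_zero]
  d3e X hX hm hm' w := by
    rw [lc_D3 hN hC hl hF hw, lc_D2 hN hC hl hF hw, wall_c3be hN hC hW hF hw hX hm hm']; ring
  d4 X hX hm hm' := by
    have hu := hF.ne hN
    have h3' : ∀ w, D2 c u (P ⁅(u : 𝔸), X⁆) w = 0 := fun w => wall_c2e hN hC hF hw hX hm w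
    have h3 : ∀ w, D2 c u w (P ⁅(u : 𝔸), X⁆) = 0 := fun w => by
      rw [D2_symm hC.csm hu, h3']
    rw [lc_D4 hN hC hl hF hw, lc_D2 hN hC hl hF hw, wall_c4 hN hC hW hF hw hX hm hm']
    simp only [h3]
    ring

end lc

end Pool.Agent.FL.Wall
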