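import Pool.Agent.FL.WallE

/-!
# MP_f09395_gt, wall formulas: adding to `v` a function which vanishes to second order on the wall
-/

set_option linter.unusedSectionVars false

noncomputable section

namespace Pool.Agent.FL.Wall

open scoped ContDiff
open Pool.Agent.Helper93.Fin Pool.Agent.helper79.FP Pool.Agent.helper79.FR
open Filter Topology

variable {𝔸 : Type*} [NormedRing 𝔸] [NormedAlgebra ℝ 𝔸] [FiniteDimensional ℝ 𝔸]
variable {g h m : Submodule ℝ 𝔸} {Q : 𝔸 →ₗ[ℝ] 𝔸 →ₗ[ℝ] ℝ} {P : 𝔸 →L[ℝ] m}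
variable {φ ψ v n N f L : m → ℝ} {h0 : 𝔸} {B : m → 𝔸} {c : m → ℝ} {u b : m} {k : ℝ}

/-- the third order form of a sum, when the second term vanishes to second order and the second
derivative in the direction `b` commutes with `u` and `b` -/
theorem T3F_add (hN : NData g h m Q P) (hv : ContDiffOn ℝ ∞ v {0}ᶜ)
    (hNs : ContDiffOn ℝ ∞ N {0}ᶜ) (hu : u ≠ 0) {σ η : m} (h1 : ∀ w, D1 N u w = 0)
    (h2 : ∀ w : m, D2 N u b w = Q (σ : 𝔸) w) (h3 : ∀ w : m, D3 N u b b w = Q (η : 𝔸) w)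
    (hσu : ⁅(u : 𝔸), (σ : 𝔸)⁆ = 0) (hσb : ⁅(b : 𝔸), (σ : 𝔸)⁆ = 0)
    {e p q r : m} (he : e = P ⁅(u : 𝔸), (gx Q v u : 𝔸)⁆) (hp : p = P ⁅(b : 𝔸), (gx Q v u : 𝔸)⁆)
    (hq : q = P ⁅(u : 𝔸), (gs Q v u b : 𝔸)⁆)
    (hr : r = P ((2 : ℝ) • ⁅(b : 𝔸), (gs Q v u b : 𝔸)⁆ + ⁅(u : 𝔸), (gy Q v u b : 𝔸)⁆)) :
    T3F Q P (fun z => v z + N z) u b = T3F Q P v u b - (1 / 2) * D4 N u b b e e
      - D3 N u b e ((2 : ℝ) • p - q)
      + (1 / 2) * (D2 N u e (r + P ⁅(u : 𝔸), (η : 𝔸)⁆) + D2 v u e (P ⁅(u : 𝔸), (η : 𝔸)⁆))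
      - D2 N u p p + D2 N u p q - D2 N u q q
      - Q (p - q : m) ⁅(gx Q v u : 𝔸), (σ : 𝔸)⁆ - (1 / 2) * Q ⁅(gx Q v u : 𝔸), (η : 𝔸)⁆ e := by
  have hx : ∀ w : m, Q (gx Q v u : 𝔸) w = D1 (fun z => v z + N z) u w := fun w => by
    rw [gx_spec hN, D1_sum hv hNs hu, h1, add_zero]
  have hs : ∀ w : m, Q ((gs Q v u b + σ : m) : 𝔸) w = D2 (fun z => v z + N z) u b w := fun w => by
    rw [Submodule.coe_add, map_add, LinearMap.add_apply, gs_spec hN, D2_sum hv hNs hu, h2]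
  have hy : ∀ w : m, Q ((gy Q v u b + η : m) : 𝔸) w = D3 (fun z => v z + N z) u b b w :=
    fun w => by
      rw [Submodule.coe_add, map_add, LinearMap.add_apply, gy_spec hN, D3_sum hv hNs hu, h3]
  have la : ∀ X Y Z : 𝔸, ⁅X, Y + Z⁆ = ⁅X, Y⁆ + ⁅X, Z⁆ := fun X Y Z => by
    simp only [Ring.lie_def, add_mul, mul_add]; abel
  have e1 : ⁅(u : 𝔸), ((gs Q v u b + σ : m) : 𝔸)⁆ = ⁅(u : 𝔸), (gs Q v u b : 𝔸)⁆ := by
    rw [Submodule.coe_add, la, hσu, add_zero]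
  have e2 : ⁅(b : 𝔸), ((gs Q v u b + σ : m) : 𝔸)⁆ = ⁅(b : 𝔸), (gs Q v u b : 𝔸)⁆ := by
    rw [Submodule.coe_add, la, hσb, add_zero]
  have e3 : P ((2 : ℝ) • ⁅(b : 𝔸), (gs Q v u b : 𝔸)⁆ + ⁅(u : 𝔸), ((gy Q v u b + η : m) : 𝔸)⁆) =
      r + P ⁅(u : 𝔸), (η : 𝔸)⁆ := by
    rw [Submodule.coe_add, la, hr, ← map_add]
    congr 1
    abel
  rw [← T3F_eq hN hx hs hy, T3F]
  unfold T3N
  rw [e1, e2, e3, ← hr, ← he, ← hp, ← hq, D4_sum hv hNs hu, D3_sum hv hNs hu, D2_sum hv hNs hu,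
    D2_sum hv hNs hu, D2_sum hv hNs hu, D2_sum hv hNs hu, Submodule.coe_add, Submodule.coe_add,
    la, la, map_add, map_add, LinearMap.add_apply, D2_add_right hv hu]
  ring

/-- pairing with `P Z`, `Z ∈ 𝔤` -/
theorem Q_lie_P (hN : NData g h m Q P) (a x' : m) (z : m) :
    Q (a : 𝔸) (P ⁅(z : 𝔸), (x' : 𝔸)⁆ : m) = Q (a : 𝔸) ⁅(z : 𝔸), (x' : 𝔸)⁆ :=
  Q_P hN a (lm hN z x')

/-- the terms with the third derivative -/
theorem eta_terms (hN : NData g h m Q P) (gn : m) (hn : ∀ w : m, Q (gn : 𝔸) w = D1 n u w)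
    {e : m} : D2 v u e (P ⁅(u : 𝔸), (gn : 𝔸)⁆) - Q ⁅(gx Q v u : 𝔸), (gn : 𝔸)⁆ e =
      - D1 n u (P (⁅(e : 𝔸), (gx Q v u : 𝔸)⁆ + ⁅(u : 𝔸), (gs Q v u e : 𝔸)⁆)) := by
  rw [← gs_spec hN, Q_lie_P hN, map_add, ← hn, Submodule.coe_add, map_add, Q_lie_P hN,
    Q_lie_P hN]
  have h1 : Q (gs Q v u e : 𝔸) ⁅(u : 𝔸), (gn : 𝔸)⁆ = - Q (gn : 𝔸) ⁅(u : 𝔸), (gs Q v u e : 𝔸)⁆ := by
    rw [← hN.Qinv, hN.Qsymm, skew (gs Q v u e : 𝔸), map_neg]
  have h2 : Q ⁅(gx Q v u : 𝔸), (gn : 𝔸)⁆ e = Q (gn : 𝔸) ⁅(e : 𝔸), (gx Q v u : 𝔸)⁆ := by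
    rw [hN.Qsymm, ← hN.Qinv, hN.Qsymm]
  rw [h1, h2]
  ring

/-- **(i)**: `T3(v + L n) = T3(v) - k E²n` at a wall flag with `α = 0`, when `L` is `k θ²` to
second order -/
theorem T3F_wjet (hN : NData g h m Q P) (hC : Cas g h m Q P h0 B c) (hφ : PhiN h m P v)
    (hF : Flag Q u b) (ha : al P h0 v u b = 0) (hL : ContDiffOn ℝ ∞ L {0}ᶜ)
    (hn : ContDiffOn ℝ ∞ n {0}ᶜ) (hJ : WJet g Q P L k u b) :
    T3F Q P (fun z => v z + L z * n z) u b =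
      T3F Q P v u b - k * EE Q P v (EE Q P v n) u := by
  have hu := hF.ne hN
  have hv := hφ.smooth
  have hNs : ContDiffOn ℝ ∞ (fun z => L z * n z) {0}ᶜ := hL.mul hn
  have em := e_mem hN hφ hu (gx_spec hN u)
  have pm := p_mem hN hC ha
  have qm := q_mem hN hC hφ hu ha
  have hXg := mg hN (gx Q v u)
  have hSg := mg hN (gs Q v u b)
  obtain ⟨gn, hgn'⟩ : ∃ gn : m, gn = gx Q n u := ⟨_, rfl⟩
  have hgn : ∀ w : m, Q (gn : 𝔸) w = D1 n u w := fun w => by rw [hgn', gx_spec hN]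
  have hd2e := hJ.d2e _ hXg em
  have hd2q := hJ.d2e _ hSg qm
  have hd3e := hJ.d3e _ hXg em pm
  have hd4 := hJ.d4 _ hXg em pm
  have hQue : Q (u : 𝔸) (P ⁅(u : 𝔸), (gx Q v u : 𝔸)⁆ : m) = 0 := Q_lie_perp hN em
  rw [EE_EE hN hv hn hu]
  have hT := T3F_add (b := b) (N := fun z => L z * n z) (v := v) hN hv hNs hu
    (σ := (2 * k * n u) • b)
    (η := (-(4 * k * n u)) • u + (4 * k * D1 n u b) • b + (2 * k) • gn) ?_ ?_ ?_ ?_ ?_ rfl rfl rfl rfl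
  · rw [hT]
    unfold ef
    obtain ⟨e, he⟩ : ∃ e : m, e = P ⁅(u : 𝔸), (gx Q v u : 𝔸)⁆ := ⟨_, rfl⟩
    obtain ⟨p, hp⟩ : ∃ p : m, p = P ⁅(b : 𝔸), (gx Q v u : 𝔸)⁆ := ⟨_, rfl⟩
    obtain ⟨q, hq⟩ : ∃ q : m, q = P ⁅(u : 𝔸), (gs Q v u b : 𝔸)⁆ := ⟨_, rfl⟩
    rw [← he] at em hd2e hd3e hd4 hQue ⊢
    rw [← hp] at pm hd3e hd4 ⊢
    rw [← hq] at qm hd2q ⊢
    have et := eta_terms (v := v) (n := n) (u := u) hN gn hgn (e := e)
    have hd2e' : ∀ w, D2 L u w e = 0 := fun w => by rw [D2_symm hL hu, hd2e]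
    have hd2q' : ∀ w, D2 L u w q = 0 := fun w => by rw [D2_symm hL hu, hd2q]
    -- the brackets with `η`
    have l1 : P ⁅(u : 𝔸), (((-(4 * k * n u)) • u + (4 * k * D1 n u b) • b + (2 * k) • gn : m) :
        𝔸)⁆ = (2 * k) • P ⁅(u : 𝔸), (gn : 𝔸)⁆ := by
      rw [← map_smul]
      congr 1
      have h1 : (u : 𝔸) * (b : 𝔸) = (b : 𝔸) * (u : 𝔸) := sub_eq_zero.1 hF.2.2.2
      simp only [Submodule.coe_add, Submodule.coe_smul, Ring.lie_def, mul_add, add_mul,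
        mul_smul_comm, smul_mul_assoc, h1, smul_sub]
      abel
    have l2 : ⁅(gx Q v u : 𝔸), (((-(4 * k * n u)) • u + (4 * k * D1 n u b) • b +
        (2 * k) • gn : m) : 𝔸)⁆ = (4 * k * n u) • (e : 𝔸) - (4 * k * D1 n u b) • (p : 𝔸) +
          (2 * k) • ⁅(gx Q v u : 𝔸), (gn : 𝔸)⁆ := by
      rw [em, pm]
      simp only [Submodule.coe_add, Submodule.coe_smul, Ring.lie_def, mul_add, add_mul,
        mul_smul_comm, smul_mul_assoc, smul_sub, neg_smul, Submodule.coe_neg, mul_neg, neg_mul]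
      abel
    have l3 : ⁅(gx Q v u : 𝔸), (((2 * k * n u) • b : m) : 𝔸)⁆ = -((2 * k * n u) • (p : 𝔸)) := by
      rw [pm]
      simp only [Submodule.coe_smul, Ring.lie_def, mul_smul_comm, smul_mul_assoc, smul_sub]
      abel
    have hQbp : Q (b : 𝔸) p = 0 := by rw [pm, Q_self_lie' hN]
    have hQbq : Q (b : 𝔸) q = 0 := by
      rw [qm, ← hN.Qinv, skew, hF.2.2.2]; simp
    have hQbe : Q (b : 𝔸) e = 0 := by
      rw [em, ← hN.Qinv, skew, hF.2.2.2]; simp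
    have hQpe : Q (p : 𝔸) e = Q (e : 𝔸) p := hN.Qsymm _ _
    have hQqp : Q (q : 𝔸) p = Q (p : 𝔸) q := hN.Qsymm _ _
    -- the derivatives of the product
    have d2 : ∀ a w, D2 (fun z => L z * n z) u a w = n u * D2 L u a w := fun a w => by
      rw [D2_mul hL hn hu, hJ.z, hJ.d1, hJ.d1]; ring
    have d3 : ∀ w, D3 (fun z => L z * n z) u b e w =
        n u * D3 L u b e w + D1 n u e * D2 L u b w := fun w => by
      rw [D3_mul hL hn hu, hJ.z, hJ.d1, hJ.d1, hJ.d1, hd2e, hd2e']; ring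
    have d4 : D4 (fun z => L z * n z) u b b e e = n u * D4 L u b b e e
        + 2 * D1 n u b * D3 L u b e e + 2 * D1 n u e * D3 L u b b e
        + 2 * k * D2 n u e e := by
      rw [D4_mul hL hn hu, hJ.z, hJ.d1, hJ.d1]
      simp only [hd2e, hd2e', hJ.d2b, hF.2.1]
      ring
    have hD3 : D3 L u b b e = 0 := by rw [hJ.d3b, hQue, mul_zero]
    have m1 : D3 (fun z => L z * n z) u b e ((2 : ℝ) • p - q) =
        n u * (2 * (2 * k * Q (p : 𝔸) p - D2 L u p p) - 2 * k * Q (p : 𝔸) q) := by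
      rw [d3, hd3e, hJ.d2b, sub_eq_add_neg ((2 : ℝ) • p), D2_add_right hL hu,
        D2_smul_right hL hu, ← neg_one_smul ℝ q, D2_smul_right hL hu, hd2q']
      simp only [Submodule.coe_add, Submodule.coe_smul, map_add, map_smul, smul_eq_mul, hQbp,
        hQbq]
      ring
    rw [l1, l2, l3, d2, d2, d2, d2, m1, d4, hd4, hd3e, hD3, hd2e, hd2e', hd2q, hd2q',
      D2_smul_right hv hu]
    simp only [Submodule.coe_sub, map_add, map_sub, map_smul, LinearMap.add_apply,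
      LinearMap.sub_apply, LinearMap.smul_apply, map_neg, smul_eq_mul, hQpe, hQqp]
    have hQep : Q (e : 𝔸) p = Q (p : 𝔸) e := hN.Qsymm _ _
    simp only [map_add] at et
    linear_combination k * et
  · intro w
    rw [D1_mul hL hn hu, hJ.z, hJ.d1]; ring
  · intro w
    rw [D2_mul hL hn hu, hJ.z, hJ.d1, hJ.d1, hJ.d2b]
    simp only [Submodule.coe_smul, map_smul, LinearMap.smul_apply, smul_eq_mul]
    ring
  · intro w
    rw [D3_mul hL hn hu, hJ.z, hJ.d1, hJ.d1, hJ.d2b, hJ.d2b, hJ.d3b, hF.2.1]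
    simp only [Submodule.coe_add, Submodule.coe_smul, map_add, map_smul, LinearMap.add_apply,
      LinearMap.smul_apply, smul_eq_mul, hgn]
    ring
  · have h1 : (u : 𝔸) * (b : 𝔸) = (b : 𝔸) * (u : 𝔸) := sub_eq_zero.1 hF.2.2.2
    simp only [Submodule.coe_smul, Ring.lie_def, mul_smul_comm, smul_mul_assoc, h1, sub_self]
  · simp only [Submodule.coe_smul, Ring.lie_def, mul_smul_comm, smul_mul_assoc, sub_self]

end Pool.Agent.FL.Wall
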